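import Pool.Agent.STZ3.StQ
import Pool.Agent.STZ.HAAR

/-!
# L2W: the square of the packet transform (5.5)
-/

set_option autoImplicit false

namespace STZ3

open STZ LGR MeasureTheory Matrix Filter

open scoped ComplexConjugate Matrix Real Topology

noncomputable section

namespace L2W

section grp

variable {G : Type} [Group G] [TopologicalSpace G] [IsTopologicalGroup G] [CompactSpace G]
  [T2Space G] [SecondCountableTopology G] [MeasurableSpace G] [BorelSpace G]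

theorem cint {X : Type} [TopologicalSpace X] [CompactSpace X] [MeasurableSpace X]
    [OpensMeasurableSpace X] (μ : Measure X) [IsFiniteMeasure μ]
    {f : X → ℂ} (hf : Continuous f) : Integrable f μ :=
  hf.integrable_of_hasCompactSupport (HasCompactSupport.of_compactSpace _)

/-- the transform; `y = (h, g)` -/
def Wt (ω₁ ω₂ : Measure G) (f : G → ℂ) (y : G × G) : ℂ :=
  ∫ x, f (y.2 * x * y.1⁻¹) ∂ω₁ - ∫ x, f (y.2 * x * y.1⁻¹) ∂ω₂

theorem wt_cont (ω₁ ω₂ : Measure G) [IsFiniteMeasure ω₁] [IsFiniteMeasure ω₂] {f : G → ℂ}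
    (hf : Continuous f) : Continuous (Wt ω₁ ω₂ f) := by
  have hu : Continuous fun x : (G × G) × G => f (x.1.2 * x.2 * x.1.1⁻¹) :=
    hf.comp (((continuous_snd.comp continuous_fst).mul continuous_snd).mul
      (continuous_fst.comp continuous_fst).inv)
  have h1 := continuous_parametric_integral_of_continuous (μ := ω₁) (X := G × G)
    (f := fun y x => f (y.2 * x * y.1⁻¹)) hu (isCompact_univ (X := G))
  have h2 := continuous_parametric_integral_of_continuous (μ := ω₂) (X := G × G)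
    (f := fun y x => f (y.2 * x * y.1⁻¹)) hu (isCompact_univ (X := G))
  rw [Measure.restrict_univ] at h1 h2
  exact h1.sub h2

theorem wt_sum (ω₁ ω₂ : Measure G) [IsFiniteMeasure ω₁] [IsFiniteMeasure ω₂] {κ : Type}
    (s : Finset κ) (c : κ → ℂ) (f : κ → G → ℂ) (hf : ∀ k, Continuous (f k)) (y : G × G) :
    Wt ω₁ ω₂ (fun g => ∑ k ∈ s, c k * f k g) y = ∑ k ∈ s, c k * Wt ω₁ ω₂ (f k) y := by
  have hc : ∀ k, Continuous fun x => f k (y.2 * x * y.1⁻¹) := fun k =>
    (hf k).comp ((continuous_const.mul continuous_id).mul continuous_const)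
  have h1 : ∀ (ω : Measure G) [IsFiniteMeasure ω],
      ∫ x, ∑ k ∈ s, c k * f k (y.2 * x * y.1⁻¹) ∂ω = ∑ k ∈ s, c k * ∫ x, f k (y.2 * x * y.1⁻¹) ∂ω := by
    intro ω _
    rw [integral_finsetSum]
    · refine Finset.sum_congr rfl fun k _ => ?_
      rw [integral_const_mul]
    · intro k _
      exact (cint ω (hc k)).const_mul _
  unfold Wt
  rw [h1, h1, ← Finset.sum_sub_distrib]
  refine Finset.sum_congr rfl fun k _ => ?_
  ring

/-- the matrix -/
def MM (ω₁ ω₂ : Measure G) {ι : Type} [Fintype ι] [DecidableEq ι] (R : Rep G ι) (a b : ι) : ℂ :=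
  ∫ x, R.ρ x a b ∂ω₁ - ∫ x, R.ρ x a b ∂ω₂

theorem wt_entry (ω₁ ω₂ : Measure G) [IsFiniteMeasure ω₁] [IsFiniteMeasure ω₂]
    {ι : Type} [Fintype ι] [DecidableEq ι] (R : Rep G ι) (p q : ι) (y : G × G) :
    Wt ω₁ ω₂ (fun g => R.ρ g p q) y =
      ∑ b, ∑ a, R.ρ y.2 p a * MM ω₁ ω₂ R a b * conj (R.ρ y.1 q b) := by
  have hce : ∀ i j, Continuous fun g => R.ρ g i j := fun i j => R.cont.matrix_elem i j
  have e1 : ∀ x : G, R.ρ (y.2 * x * y.1⁻¹) p q =
      ∑ b, ∑ a, (R.ρ y.2 p a * conj (R.ρ y.1 q b)) * R.ρ x a b := by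
    intro x
    rw [map_mul, map_mul, R.unit, mul_apply]
    refine Finset.sum_congr rfl fun b _ => ?_
    rw [mul_apply, Finset.sum_mul, conjTranspose_apply]
    refine Finset.sum_congr rfl fun a _ => ?_
    rw [starRingEnd_apply]
    ring
  have h1 : ∀ (ω : Measure G) [IsFiniteMeasure ω], ∫ x, R.ρ (y.2 * x * y.1⁻¹) p q ∂ω =
      ∑ b, ∑ a, (R.ρ y.2 p a * conj (R.ρ y.1 q b)) * ∫ x, R.ρ x a b ∂ω := by
    intro ω _
    simp only [e1]
    rw [integral_finsetSum]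
    · refine Finset.sum_congr rfl fun b _ => ?_
      rw [integral_finsetSum]
      · refine Finset.sum_congr rfl fun a _ => ?_
        rw [integral_const_mul]
      · intro a _
        exact (cint ω (hce a b)).const_mul _
    · intro b _
      exact integrable_finsetSum _ fun a _ => (cint ω (hce a b)).const_mul _
  unfold Wt MM
  rw [h1, h1, ← Finset.sum_sub_distrib]
  refine Finset.sum_congr rfl fun b _ => ?_
  rw [← Finset.sum_sub_distrib]
  refine Finset.sum_congr rfl fun a _ => ?_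
  ring

theorem avg_h (hS : S_SCHUR) (μ : Measure G) [IsProbabilityMeasure μ] [μ.IsMulLeftInvariant]
    {ι : Type} [Fintype ι] [DecidableEq ι] (R : Rep G ι) (hR : R.Irr) (M : ι → ι → ℂ) (p q : ι)
    (g x : G) :
    ∫ h, (∑ b, ∑ a, R.ρ (g * h * x⁻¹) p a * M a b * conj (R.ρ h q b)) ∂μ =
      (∑ b, ∑ a, conj (R.ρ x a b) * M a b) / (Fintype.card ι : ℂ) * R.ρ g p q := by
  have hce : ∀ i j, Continuous fun g => R.ρ g i j := fun i j => R.cont.matrix_elem i j
  obtain ⟨h3, -⟩ := hS G μ ι R hR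
  have e1 : ∀ h : G, ∀ b a : ι, R.ρ (g * h * x⁻¹) p a * M a b * conj (R.ρ h q b) =
      ∑ c, ∑ e, (R.ρ g p e * conj (R.ρ x a c) * M a b) * (R.ρ h e c * conj (R.ρ h q b)) := by
    intro h b a
    rw [map_mul, map_mul, R.unit, mul_apply, Finset.sum_mul, Finset.sum_mul]
    refine Finset.sum_congr rfl fun c _ => ?_
    rw [mul_apply, Finset.sum_mul, Finset.sum_mul, Finset.sum_mul, conjTranspose_apply]
    refine Finset.sum_congr rfl fun e _ => ?_
    rw [starRingEnd_apply, starRingEnd_apply]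
    ring
  have hi : ∀ a b c e, Integrable (fun h => (R.ρ g p e * conj (R.ρ x a c) * M a b) *
      (R.ρ h e c * conj (R.ρ h q b))) μ := fun a b c e =>
    (cint μ ((hce e c).mul (Complex.continuous_conj.comp (hce q b)))).const_mul _
  simp only [e1]
  rw [integral_finsetSum _ fun b _ => integrable_finsetSum _ fun a _ =>
    integrable_finsetSum _ fun c _ => integrable_finsetSum _ fun e _ => hi a b c e]
  rw [Finset.sum_div, Finset.sum_mul]
  refine Finset.sum_congr rfl fun b _ => ?_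
  rw [integral_finsetSum _ fun a _ => integrable_finsetSum _ fun c _ =>
    integrable_finsetSum _ fun e _ => hi a b c e]
  rw [Finset.sum_div, Finset.sum_mul]
  refine Finset.sum_congr rfl fun a _ => ?_
  rw [integral_finsetSum _ fun c _ => integrable_finsetSum _ fun e _ => hi a b c e,
    Finset.sum_eq_single b]
  · rw [integral_finsetSum _ fun e _ => hi a b b e, Finset.sum_eq_single q]
    · rw [integral_const_mul, h3, if_pos ⟨rfl, rfl⟩]
      ring
    · intro e _ he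
      rw [integral_const_mul, h3, if_neg fun h => he h.1, mul_zero]
    · intro h
      exact absurd (Finset.mem_univ q) h
  · intro c _ hc
    rw [integral_finsetSum _ fun e _ => hi a b c e]
    refine Finset.sum_eq_zero fun e _ => ?_
    rw [integral_const_mul, h3, if_neg fun h => hc h.2, mul_zero]
  · intro h
    exact absurd (Finset.mem_univ b) h

/-- the inner integral for a fixed `x` -/
theorem inner_x (hS : S_SCHUR) (μ : Measure G) [IsProbabilityMeasure μ] [μ.IsMulLeftInvariant]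
    [μ.IsMulRightInvariant] {ι : Type} [Fintype ι] [DecidableEq ι] (R : Rep G ι) (hR : R.Irr)
    (M : ι → ι → ℂ) (p q : ι) (f : G → ℂ) (hf : Continuous f) (x : G) :
    ∫ y : G × G, (∑ b, ∑ a, R.ρ y.2 p a * M a b * conj (R.ρ y.1 q b)) *
        conj (f (y.2 * x * y.1⁻¹)) ∂(μ.prod μ) =
      (∑ b, ∑ a, conj (R.ρ x a b) * M a b) / (Fintype.card ι : ℂ) *
        ∫ g, R.ρ g p q * conj (f g) ∂μ := by
  have hce : ∀ i j, Continuous fun g => R.ρ g i j := fun i j => R.cont.matrix_elem i j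
  set w : G → G → ℂ := fun h g => ∑ b, ∑ a, R.ρ g p a * M a b * conj (R.ρ h q b) with hw
  have hwc : Continuous fun y : G × G => w y.1 y.2 := by
    refine continuous_finsetSum _ fun b _ => continuous_finsetSum _ fun a _ => ?_
    exact (((hce p a).comp continuous_snd).mul continuous_const).mul
      (Complex.continuous_conj.comp ((hce q b).comp continuous_fst))
  have hfc : Continuous fun y : G × G => conj (f (y.2 * x * y.1⁻¹)) :=
    Complex.continuous_conj.comp (hf.comp ((continuous_snd.mul continuous_const).mul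
      continuous_fst.inv))
  have h1 : ∫ y : G × G, w y.1 y.2 * conj (f (y.2 * x * y.1⁻¹)) ∂(μ.prod μ) =
      ∫ h, ∫ g, w h g * conj (f (g * x * h⁻¹)) ∂μ ∂μ :=
    integral_prod _ (cint (μ.prod μ) (hwc.mul hfc))
  have h2 : ∀ h : G, ∫ g, w h g * conj (f (g * x * h⁻¹)) ∂μ =
      ∫ g, w h (g * h * x⁻¹) * conj (f g) ∂μ := by
    intro h
    rw [← integral_mul_right_eq_self (fun g => w h (g * h * x⁻¹) * conj (f g)) (x * h⁻¹)]
    refine integral_congr_ae (Eventually.of_forall fun g => ?_)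
    show w h g * conj (f (g * x * h⁻¹)) =
      w h (g * (x * h⁻¹) * h * x⁻¹) * conj (f (g * (x * h⁻¹)))
    have e1 : g * (x * h⁻¹) * h * x⁻¹ = g := by group
    rw [e1, mul_assoc]
  have h3 : ∫ h, ∫ g, w h (g * h * x⁻¹) * conj (f g) ∂μ ∂μ =
      ∫ g, ∫ h, w h (g * h * x⁻¹) * conj (f g) ∂μ ∂μ := by
    rw [integral_integral_swap]
    refine cint (μ.prod μ) ?_
    have hcc : Continuous fun y : G × G => (y.1, y.2 * y.1 * x⁻¹) :=
      continuous_fst.prodMk ((continuous_snd.mul continuous_fst).mul continuous_const)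
    exact (hwc.comp hcc).mul (Complex.continuous_conj.comp (hf.comp continuous_snd))
  show ∫ y : G × G, w y.1 y.2 * conj (f (y.2 * x * y.1⁻¹)) ∂(μ.prod μ) = _
  rw [h1]
  simp only [h2]
  rw [h3, ← integral_const_mul]
  refine integral_congr_ae (Eventually.of_forall fun g => ?_)
  show ∫ h, w h (g * h * x⁻¹) * conj (f g) ∂μ = _
  rw [integral_mul_const, avg_h hS μ R hR M p q g x]
  ring

/-- the main identity -/
theorem main (hS : S_SCHUR) (μ : Measure G) [IsProbabilityMeasure μ] [μ.IsMulLeftInvariant]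
    [μ.IsMulRightInvariant] (ω₁ ω₂ : Measure G) [IsFiniteMeasure ω₁] [IsFiniteMeasure ω₂]
    {ι : Type} [Fintype ι] [DecidableEq ι] (R : Rep G ι) (hR : R.Irr)
    (p q : ι) (f : G → ℂ) (hf : Continuous f) :
    ∫ y : G × G, Wt ω₁ ω₂ (fun g => R.ρ g p q) y * conj (Wt ω₁ ω₂ f y) ∂(μ.prod μ) =
      (((∑ b, ∑ a, ‖MM ω₁ ω₂ R a b‖ ^ 2) / (Fintype.card ι : ℝ) : ℝ) : ℂ) *
        ∫ g, R.ρ g p q * conj (f g) ∂μ := by
  have hce : ∀ i j, Continuous fun g => R.ρ g i j := fun i j => R.cont.matrix_elem i j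
  set M := MM ω₁ ω₂ R with hM
  set v : G × G → ℂ := fun y => ∑ b, ∑ a, R.ρ y.2 p a * M a b * conj (R.ρ y.1 q b) with hv
  have hvc : Continuous v := by
    refine continuous_finsetSum _ fun b _ => continuous_finsetSum _ fun a _ => ?_
    exact (((hce p a).comp continuous_snd).mul continuous_const).mul
      (Complex.continuous_conj.comp ((hce q b).comp continuous_fst))
  have hu : Continuous fun z : (G × G) × G => conj (f (z.1.2 * z.2 * z.1.1⁻¹)) :=
    Complex.continuous_conj.comp (hf.comp (((continuous_snd.comp continuous_fst).mul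
      continuous_snd).mul (continuous_fst.comp continuous_fst).inv))
  have hvu : Continuous fun z : (G × G) × G => v z.1 * conj (f (z.1.2 * z.2 * z.1.1⁻¹)) :=
    (hvc.comp continuous_fst).mul hu
  set I := ∫ g, R.ρ g p q * conj (f g) ∂μ with hI
  have h1 : ∀ (ω : Measure G) [IsFiniteMeasure ω],
      (∫ y : G × G, v y * ∫ x, conj (f (y.2 * x * y.1⁻¹)) ∂ω ∂(μ.prod μ) =
        (∑ b, ∑ a, conj (∫ x, R.ρ x a b ∂ω) * M a b) / (Fintype.card ι : ℂ) * I) ∧
      Integrable (fun y : G × G => v y * ∫ x, conj (f (y.2 * x * y.1⁻¹)) ∂ω) (μ.prod μ) := by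
    intro ω _
    have hc1 := continuous_parametric_integral_of_continuous (μ := ω) (X := G × G)
      (f := fun y x => conj (f (y.2 * x * y.1⁻¹))) hu (isCompact_univ (X := G))
    rw [Measure.restrict_univ] at hc1
    refine ⟨?_, cint (μ.prod μ) (hvc.mul hc1)⟩
    have e1 : ∀ y : G × G, v y * ∫ x, conj (f (y.2 * x * y.1⁻¹)) ∂ω =
        ∫ x, v y * conj (f (y.2 * x * y.1⁻¹)) ∂ω := fun y => by rw [integral_const_mul]
    simp only [e1]
    have hiu : Integrable (Function.uncurry fun (y : G × G) (x : G) =>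
        v y * conj (f (y.2 * x * y.1⁻¹))) ((μ.prod μ).prod ω) := cint _ hvu
    rw [integral_integral_swap hiu]
    have e2 : ∀ x : G, ∫ y : G × G, v y * conj (f (y.2 * x * y.1⁻¹)) ∂(μ.prod μ) =
        (∑ b, ∑ a, conj (R.ρ x a b) * M a b) / (Fintype.card ι : ℂ) * I :=
      fun x => inner_x hS μ R hR M p q f hf x
    simp only [e2]
    rw [integral_mul_const, integral_div, integral_finsetSum]
    · congr 2
      refine Finset.sum_congr rfl fun b _ => ?_
      rw [integral_finsetSum]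
      · refine Finset.sum_congr rfl fun a _ => ?_
        rw [integral_mul_const, integral_conj]
      · intro a _
        exact (cint ω (Complex.continuous_conj.comp (hce a b))).mul_const _
    · intro b _
      exact integrable_finsetSum _ fun a _ =>
        (cint ω (Complex.continuous_conj.comp (hce a b))).mul_const _
  have e3 : ∀ y : G × G, Wt ω₁ ω₂ (fun g => R.ρ g p q) y * conj (Wt ω₁ ω₂ f y) =
      v y * (∫ x, conj (f (y.2 * x * y.1⁻¹)) ∂ω₁) - v y * ∫ x, conj (f (y.2 * x * y.1⁻¹)) ∂ω₂ := by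
    intro y
    rw [wt_entry, ← mul_sub]
    congr 1
    unfold Wt
    rw [map_sub, ← integral_conj, ← integral_conj]
  simp only [e3]
  rw [integral_sub (h1 ω₁).2 (h1 ω₂).2, (h1 ω₁).1, (h1 ω₂).1, ← sub_mul, ← sub_div]
  congr 1
  push_cast
  congr 1
  rw [← Finset.sum_sub_distrib]
  refine Finset.sum_congr rfl fun b _ => ?_
  rw [← Finset.sum_sub_distrib]
  refine Finset.sum_congr rfl fun a _ => ?_
  rw [← sub_mul, ← map_sub]
  show conj (M a b) * M a b = _
  rw [Complex.conj_mul']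

/-- the square of the norm of a combination -/
theorem sq_sum {X : Type} [TopologicalSpace X] [CompactSpace X] [MeasurableSpace X]
    [OpensMeasurableSpace X] (ν : Measure X) [IsFiniteMeasure ν] {κ : Type} (s : Finset κ)
    (c : κ → ℂ) (f : κ → X → ℂ) (hf : ∀ k, Continuous (f k)) :
    ((∫ x, ‖∑ k ∈ s, c k * f k x‖ ^ 2 ∂ν : ℝ) : ℂ) =
      ∑ k ∈ s, ∑ l ∈ s, (c k * conj (c l)) * ∫ x, f k x * conj (f l x) ∂ν := by
  have hi : ∀ k l, Integrable (fun x => (c k * conj (c l)) * (f k x * conj (f l x))) ν :=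
    fun k l => (cint ν ((hf k).mul (Complex.continuous_conj.comp (hf l)))).const_mul _
  rw [← integral_complex_ofReal]
  have e1 : ∀ x, ((‖∑ k ∈ s, c k * f k x‖ ^ 2 : ℝ) : ℂ) =
      ∑ k ∈ s, ∑ l ∈ s, (c k * conj (c l)) * (f k x * conj (f l x)) := by
    intro x
    rw [Complex.ofReal_pow, ← Complex.mul_conj', map_sum, Finset.sum_mul_sum]
    refine Finset.sum_congr rfl fun k _ => Finset.sum_congr rfl fun l _ => ?_
    rw [map_mul]
    ring
  simp only [e1]
  rw [integral_finsetSum _ fun k _ => integrable_finsetSum _ fun l _ => hi k l]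
  refine Finset.sum_congr rfl fun k _ => ?_
  rw [integral_finsetSum _ fun l _ => hi k l]
  refine Finset.sum_congr rfl fun l _ => ?_
  rw [integral_const_mul]

/-- the inequality for combinations of entries -/
theorem comb (μ : Measure G) [IsProbabilityMeasure μ]
    (ω₁ ω₂ : Measure G) [IsFiniteMeasure ω₁] [IsFiniteMeasure ω₂] {κ : Type} (s : Finset κ)
    (c : κ → ℂ) (f : κ → G → ℂ) (hf : ∀ k, Continuous (f k)) (la : κ → ℝ) (b : ℝ)
    (hb : ∀ k, la k ≤ b)
    (h : ∀ k l, ∫ y : G × G, Wt ω₁ ω₂ (f k) y * conj (Wt ω₁ ω₂ (f l) y) ∂(μ.prod μ) =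
      ((la k : ℝ) : ℂ) * ∫ g, f k g * conj (f l g) ∂μ) :
    ∫ y : G × G, ‖Wt ω₁ ω₂ (fun g => ∑ k ∈ s, c k * f k g) y‖ ^ 2 ∂(μ.prod μ) ≤
      b * ∫ g, ‖∑ k ∈ s, c k * f k g‖ ^ 2 ∂μ := by
  set S : κ → κ → ℂ := fun k l => ∫ g, f k g * conj (f l g) ∂μ with hSd
  have hsym : ∀ k l, conj (S k l) = S l k := by
    intro k l
    simp only [hSd]
    rw [← integral_conj]
    refine integral_congr_ae (Eventually.of_forall fun g => ?_)
    show conj (f k g * conj (f l g)) = f l g * conj (f k g)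
    rw [map_mul, Complex.conj_conj, mul_comm]
  have hla : ∀ k l, ((la k : ℝ) : ℂ) * S k l = ((la l : ℝ) : ℂ) * S k l := by
    intro k l
    rw [← h k l]
    have e1 : ∫ y : G × G, Wt ω₁ ω₂ (f k) y * conj (Wt ω₁ ω₂ (f l) y) ∂(μ.prod μ) =
        conj (∫ y : G × G, Wt ω₁ ω₂ (f l) y * conj (Wt ω₁ ω₂ (f k) y) ∂(μ.prod μ)) := by
      rw [← integral_conj]
      refine integral_congr_ae (Eventually.of_forall fun y => ?_)
      show Wt ω₁ ω₂ (f k) y * conj (Wt ω₁ ω₂ (f l) y) =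
        conj (Wt ω₁ ω₂ (f l) y * conj (Wt ω₁ ω₂ (f k) y))
      rw [map_mul, Complex.conj_conj, mul_comm]
    rw [e1, h l k, map_mul, Complex.conj_ofReal]
    show ((la l : ℝ) : ℂ) * conj (S l k) = _
    rw [hsym]
  set a : κ → ℝ := fun k => √(b - la k) with ha
  have haa : ∀ k l, ((a k : ℝ) : ℂ) * ((a l : ℝ) : ℂ) * S k l =
      ((b : ℝ) : ℂ) * S k l - ((la k : ℝ) : ℂ) * S k l := by
    intro k l
    by_cases hS0 : S k l = 0
    · rw [hS0]
      ring
    · have h1 : ((la k : ℝ) : ℂ) = ((la l : ℝ) : ℂ) := mul_right_cancel₀ hS0 (hla k l)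
      have h2 : la k = la l := by exact_mod_cast h1
      have h3 : a k * a l = b - la k := by
        simp only [ha]
        rw [← h2, Real.mul_self_sqrt (by linarith [hb k])]
      rw [← Complex.ofReal_mul, h3]
      push_cast
      ring
  have e1 := sq_sum (μ.prod μ) s c (fun k => Wt ω₁ ω₂ (f k)) fun k => wt_cont ω₁ ω₂ (hf k)
  have e2 := sq_sum μ s c f hf
  have e3 := sq_sum μ s (fun k => ((a k : ℝ) : ℂ) * c k) f hf
  have e4 : ∀ y : G × G, Wt ω₁ ω₂ (fun g => ∑ k ∈ s, c k * f k g) y =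
      ∑ k ∈ s, c k * Wt ω₁ ω₂ (f k) y := fun y => wt_sum ω₁ ω₂ s c f hf y
  simp only [e4]
  have e5 : ((∫ x, ‖∑ k ∈ s, ((a k : ℝ) : ℂ) * c k * f k x‖ ^ 2 ∂μ : ℝ) : ℂ) =
      ((b * ∫ g, ‖∑ k ∈ s, c k * f k g‖ ^ 2 ∂μ -
        ∫ y : G × G, ‖∑ k ∈ s, c k * Wt ω₁ ω₂ (f k) y‖ ^ 2 ∂(μ.prod μ) : ℝ) : ℂ) := by
    rw [Complex.ofReal_sub, Complex.ofReal_mul, e1, e2, e3, Finset.mul_sum,
      ← Finset.sum_sub_distrib]
    refine Finset.sum_congr rfl fun k _ => ?_
    rw [Finset.mul_sum, ← Finset.sum_sub_distrib]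
    refine Finset.sum_congr rfl fun l _ => ?_
    rw [h k l, map_mul, Complex.conj_ofReal]
    show ((a k : ℝ) : ℂ) * c k * (((a l : ℝ) : ℂ) * conj (c l)) * S k l =
      ((b : ℝ) : ℂ) * ((c k * conj (c l)) * S k l) - (c k * conj (c l)) * (((la k : ℝ) : ℂ) * S k l)
    linear_combination (c k * conj (c l)) * haa k l
  have e6 : 0 ≤ ∫ x, ‖∑ k ∈ s, ((a k : ℝ) : ℂ) * c k * f k x‖ ^ 2 ∂μ :=
    integral_nonneg fun x => by positivity
  have e7 := Complex.ofReal_injective e5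
  linarith

/-- density -/
theorem dens (μ : Measure G) [IsProbabilityMeasure μ]
    (ω₁ ω₂ : Measure G) [IsFiniteMeasure ω₁] [IsFiniteMeasure ω₂] {b : ℝ} (hb : 0 ≤ b)
    (F : G → ℂ) (hF : Continuous F)
    (h : ∀ ε : ℝ, 0 < ε → ∃ P : G → ℂ, Continuous P ∧ (∀ g, ‖F g - P g‖ ≤ ε) ∧
      ∫ y : G × G, ‖Wt ω₁ ω₂ P y‖ ^ 2 ∂(μ.prod μ) ≤ b * ∫ g, ‖P g‖ ^ 2 ∂μ) :
    ∫ y : G × G, ‖Wt ω₁ ω₂ F y‖ ^ 2 ∂(μ.prod μ) ≤ b * ∫ g, ‖F g‖ ^ 2 ∂μ := by
  obtain ⟨S, hS⟩ := (isCompact_univ (X := G)).exists_bound_of_continuousOn hF.continuousOn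
  have hS' : ∀ g, ‖F g‖ ≤ |S| := fun g => (hS g (Set.mem_univ g)).trans (le_abs_self S)
  set m : ℝ := ω₁.real Set.univ + ω₂.real Set.univ with hm
  have hm0 : 0 ≤ m := add_nonneg measureReal_nonneg measureReal_nonneg
  -- bounds of the transform
  have hW : ∀ (f : G → ℂ) (t : ℝ), 0 ≤ t → (∀ g, ‖f g‖ ≤ t) → ∀ y, ‖Wt ω₁ ω₂ f y‖ ≤ m * t := by
    intro f t ht hft y
    unfold Wt
    have h1 : ∀ (ω : Measure G) [IsFiniteMeasure ω],
        ‖∫ x, f (y.2 * x * y.1⁻¹) ∂ω‖ ≤ t * ω.real Set.univ := by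
      intro ω _
      exact norm_integral_le_of_norm_le_const (Eventually.of_forall fun x => hft _)
    refine (norm_sub_le _ _).trans ?_
    have h2 := h1 ω₁
    have h3 := h1 ω₂
    rw [hm]
    nlinarith
  have hsub : ∀ P : G → ℂ, Continuous P → ∀ y,
      Wt ω₁ ω₂ F y - Wt ω₁ ω₂ P y = Wt ω₁ ω₂ (fun g => F g - P g) y := by
    intro P hP y
    unfold Wt
    have hc : ∀ f : G → ℂ, Continuous f → Continuous fun x => f (y.2 * x * y.1⁻¹) := fun f hf =>
      hf.comp ((continuous_const.mul continuous_id).mul continuous_const)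
    rw [integral_sub (cint ω₁ (hc F hF)) (cint ω₁ (hc P hP)),
      integral_sub (cint ω₂ (hc F hF)) (cint ω₂ (hc P hP))]
    ring
  have hsq : ∀ u v : ℂ, ∀ A e : ℝ, ‖u‖ ≤ A → ‖v‖ ≤ A → ‖u - v‖ ≤ e → 0 ≤ e →
      ‖u‖ ^ 2 ≤ ‖v‖ ^ 2 + 2 * A * e := by
    intro u v A e h1 h2 h3 h4
    have h5 : ‖u‖ ≤ ‖v‖ + e := by
      have := norm_le_norm_add_norm_sub' u v
      linarith
    nlinarith [norm_nonneg u, norm_nonneg v]
  refine le_of_forall_pos_le_add fun δ hδ => ?_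
  set K : ℝ := 2 * (m * (|S| + 1)) * m + b * (2 * (|S| + 1)) with hK
  have hK0 : 0 ≤ K := by positivity
  set ε : ℝ := min 1 (δ / (K + 1)) with hε
  have hε0 : 0 < ε := lt_min one_pos (by positivity)
  have hε1 : ε ≤ 1 := min_le_left _ _
  have hε2 : K * ε ≤ δ := by
    have h1 : ε ≤ δ / (K + 1) := min_le_right _ _
    calc K * ε ≤ K * (δ / (K + 1)) := mul_le_mul_of_nonneg_left h1 hK0
      _ ≤ (K + 1) * (δ / (K + 1)) := mul_le_mul_of_nonneg_right (by linarith) (by positivity)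
      _ = δ := by field_simp
  obtain ⟨P, hP, hPF, hPI⟩ := h ε hε0
  have hP' : ∀ g, ‖P g‖ ≤ |S| + 1 := by
    intro g
    have h1 := norm_le_norm_add_norm_sub' (P g) (F g)
    have h2 := hPF g
    rw [norm_sub_rev] at h2
    linarith [hS' g]
  have hF' : ∀ g, ‖F g‖ ≤ |S| + 1 := fun g => (hS' g).trans (by linarith)
  have hS1 : 0 ≤ |S| + 1 := by positivity
  have b1 : ∀ y : G × G, ‖Wt ω₁ ω₂ F y‖ ^ 2 ≤
      ‖Wt ω₁ ω₂ P y‖ ^ 2 + 2 * (m * (|S| + 1)) * (m * ε) := by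
    intro y
    refine hsq _ _ _ _ (hW F _ hS1 hF' y) (hW P _ hS1 hP' y) ?_ (by positivity)
    rw [hsub P hP]
    exact hW _ _ hε0.le hPF y
  have b2 : ∀ g, ‖P g‖ ^ 2 ≤ ‖F g‖ ^ 2 + 2 * (|S| + 1) * ε := by
    intro g
    refine hsq _ _ _ _ (hP' g) (hF' g) ?_ hε0.le
    rw [norm_sub_rev]
    exact hPF g
  have rint : ∀ {X : Type} [TopologicalSpace X] [CompactSpace X] [MeasurableSpace X]
      [OpensMeasurableSpace X] (ν : Measure X) [IsFiniteMeasure ν] {f : X → ℝ}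
      (_ : Continuous f), Integrable f ν := by
    intro X _ _ _ _ ν _ f hf
    exact hf.integrable_of_hasCompactSupport (HasCompactSupport.of_compactSpace _)
  have i1 : ∀ f : G → ℂ, Continuous f →
      Integrable (fun y : G × G => ‖Wt ω₁ ω₂ f y‖ ^ 2) (μ.prod μ) := fun f hf =>
    rint (μ.prod μ) ((wt_cont ω₁ ω₂ hf).norm.pow 2)
  have i2 : ∀ f : G → ℂ, Continuous f → Integrable (fun g => ‖f g‖ ^ 2) μ := fun f hf =>
    rint μ (hf.norm.pow 2)
  have c1 : ∫ y : G × G, ‖Wt ω₁ ω₂ F y‖ ^ 2 ∂(μ.prod μ) ≤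
      (∫ y : G × G, ‖Wt ω₁ ω₂ P y‖ ^ 2 ∂(μ.prod μ)) + 2 * (m * (|S| + 1)) * (m * ε) := by
    have h1 := integral_mono (i1 F hF) ((i1 P hP).add (integrable_const _)) b1
    refine h1.trans (le_of_eq ?_)
    show ∫ y : G × G, (‖Wt ω₁ ω₂ P y‖ ^ 2 + 2 * (m * (|S| + 1)) * (m * ε)) ∂(μ.prod μ) = _
    rw [integral_add (i1 P hP) (integrable_const _)]
    simp
  have c2 : ∫ g, ‖P g‖ ^ 2 ∂μ ≤ (∫ g, ‖F g‖ ^ 2 ∂μ) + 2 * (|S| + 1) * ε := by
    have h1 := integral_mono (i2 P hP) ((i2 F hF).add (integrable_const _)) b2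
    refine h1.trans (le_of_eq ?_)
    show ∫ g, (‖F g‖ ^ 2 + 2 * (|S| + 1) * ε) ∂μ = _
    rw [integral_add (i2 F hF) (integrable_const _)]
    simp
  have c3 := mul_le_mul_of_nonneg_left c2 hb
  have c4 : 2 * (m * (|S| + 1)) * (m * ε) + b * (2 * (|S| + 1) * ε) = K * ε := by
    rw [hK]
    ring
  linarith

end grp

/-! ### the group `H` -/

/-- the entries of the irreducible polynomial representations -/
def ES {N : ℕ} (H : Subgroup (SU N)) : Set (H → ℂ) :=
  {f | ∃ (n : ℕ) (σ : Rep H (Fin n)) (p q : Fin n), σ.Irr ∧ PRep σ ∧ f = fun g => σ.ρ g p q}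

theorem pf_span (hTE : S_TENH) (hPF : S_PFFX) (hDP : S_DECP) {N : ℕ} {H : Subgroup (SU N)}
    (hcl : IsClosed (H : Set (SU N))) {P : H → ℂ} (hP : P ∈ PF H) :
    P ∈ Submodule.span ℂ (ES H) := by
  obtain ⟨-, -, -, -, -, -, -, -, -, hmono, hspan, -⟩ := hPF N H hcl
  have h1 := hspan P hP
  refine (Submodule.span_le.2 ?_) h1
  rintro Q ⟨i, j, p, q, p', q', rfl⟩
  obtain ⟨R, hR1, -⟩ := hTE N H i j
  have hR2 : PRep R := by
    intro x y
    have e : (fun g => R.ρ g x y) =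
        fun g : H => (∏ s, g.1.1 (x.1 s) (y.1 s)) * ∏ s, conj (g.1.1 (x.2 s) (y.2 s)) := by
      funext g
      exact hR1 g x y
    rw [e]
    exact hmono i j _ _ _ _
  obtain ⟨m, M, σ, hσ1, hσ2, -, hσ4⟩ := hDP N H _ R hR2
  obtain ⟨c, hc⟩ := hσ4 (p, p') (q, q')
  have e : (fun g : H => (∏ s, g.1.1 (p s) (q s)) * ∏ s, conj (g.1.1 (p' s) (q' s))) =
      ∑ k, ∑ x, ∑ y, c k x y • fun g => (σ k).ρ g x y := by
    funext g
    rw [← hR1 g (p, p') (q, q'), hc]
    simp only [Finset.sum_apply, Pi.smul_apply, smul_eq_mul]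
  rw [e]
  exact Submodule.sum_mem _ fun k _ => Submodule.sum_mem _ fun x _ => Submodule.sum_mem _ fun y _ =>
    Submodule.smul_mem _ _ (Submodule.subset_span ⟨M k, σ k, x, y, hσ1 k, hσ2 k, rfl⟩)

/-- the sum of the squares of the entries of `U diag t Uᴴ` -/
theorem hs_sum {n : ℕ} {U : Matrix (Fin n) (Fin n) ℂ} (h1 : Uᴴ * U = 1)
    (t : Fin n → ℂ) {M : Matrix (Fin n) (Fin n) ℂ} (hM : M = U * Matrix.diagonal t * Uᴴ) :
    ∑ b, ∑ a, ‖M a b‖ ^ 2 = ∑ j, ‖t j‖ ^ 2 := by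
  have e1 : ((∑ b, ∑ a, ‖M a b‖ ^ 2 : ℝ) : ℂ) = (Mᴴ * M).trace := by
    rw [Matrix.trace]
    push_cast
    refine Finset.sum_congr rfl fun b _ => ?_
    rw [Matrix.diag_apply, Matrix.mul_apply]
    refine Finset.sum_congr rfl fun a _ => ?_
    rw [Matrix.conjTranspose_apply, Complex.star_def, Complex.conj_mul']
  have e2 : (Mᴴ * M).trace = ((∑ j, ‖t j‖ ^ 2 : ℝ) : ℂ) := by
    have e3 : Mᴴ * M = U * (Matrix.diagonal (fun j => conj (t j)) * Matrix.diagonal t) * Uᴴ := by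
      rw [hM, Matrix.conjTranspose_mul, Matrix.conjTranspose_mul, Matrix.conjTranspose_conjTranspose,
        Matrix.diagonal_conjTranspose]
      have e4 : (star t : Fin n → ℂ) = fun j => conj (t j) := by
        funext j
        rfl
      rw [e4]
      calc U * (Matrix.diagonal (fun j => conj (t j)) * Uᴴ) * (U * Matrix.diagonal t * Uᴴ)
          = U * Matrix.diagonal (fun j => conj (t j)) * (Uᴴ * U) * Matrix.diagonal t * Uᴴ := by
            simp only [Matrix.mul_assoc]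
        _ = _ := by
            rw [h1, Matrix.mul_one]
            simp only [Matrix.mul_assoc]
    rw [e3, Matrix.trace_mul_comm, ← Matrix.mul_assoc, h1, Matrix.one_mul, Matrix.diagonal_mul_diagonal,
      Matrix.trace_diagonal]
    push_cast
    refine Finset.sum_congr rfl fun j _ => ?_
    rw [Complex.conj_mul']
  exact Complex.ofReal_injective (e1.trans e2)

theorem tt_coe {N : ℕ} {H : Subgroup (SU N)} {r : ℕ} {Φ : RT r} {Hc : Fin r → MT N}
    {E : (Fin r → ℤ) × (Fin r → ℤ) → MT N} (T : TAF H Φ Hc E) (θ : Fin r → ℝ) :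
    tt H Hc θ = ⟨ta Hc θ, T.mem θ⟩ := by
  unfold tt
  rw [dif_pos (T.mem θ)]

theorem tt_cont {N : ℕ} {H : Subgroup (SU N)} {r : ℕ} {Φ : RT r} {Hc : Fin r → MT N}
    {E : (Fin r → ℤ) × (Fin r → ℤ) → MT N} (T : TAF H Φ Hc E) : Continuous (tt H Hc) := by
  have e : tt H Hc = fun θ => ⟨ta Hc θ, T.mem θ⟩ := funext fun θ => tt_coe T θ
  rw [e]
  exact T.cont.subtype_mk _

/-- the law of `tt s * z` -/
def om {N : ℕ} {H : Subgroup (SU N)} {r : ℕ} (Hc : Fin r → MT N) (ν : Measure (Fin r → ℝ))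
    (κ : Measure H) : Measure H :=
  (ν.prod κ).map fun x => tt H Hc x.1 * x.2

theorem om_int {N : ℕ} {H : Subgroup (SU N)} [CompactSpace H] [SecondCountableTopology H] {r : ℕ}
    {Hc : Fin r → MT N} (hc : Continuous (tt H Hc)) (ν : Measure (Fin r → ℝ))
    [IsFiniteMeasure ν] (κ : Measure H) [IsProbabilityMeasure κ] (f : H → ℂ) (hf : Continuous f) :
    ∫ x, f x ∂(om Hc ν κ) = ∫ s, ∫ z, f (tt H Hc s * z) ∂κ ∂ν := by
  have hφ : Continuous fun x : (Fin r → ℝ) × H => tt H Hc x.1 * x.2 :=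
    (hc.comp continuous_fst).mul continuous_snd
  unfold om
  rw [integral_map hφ.measurable.aemeasurable hf.aestronglyMeasurable]
  obtain ⟨S, hS⟩ := (isCompact_univ (X := H)).exists_bound_of_continuousOn hf.continuousOn
  have hi : Integrable (fun x : (Fin r → ℝ) × H => f (tt H Hc x.1 * x.2)) (ν.prod κ) :=
    Integrable.of_bound (hf.comp hφ).aestronglyMeasurable S
      (Eventually.of_forall fun x => hS _ (Set.mem_univ _))
  rw [integral_prod _ hi]

theorem om_fin {N : ℕ} {H : Subgroup (SU N)} [SecondCountableTopology H] {r : ℕ}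
    {Hc : Fin r → MT N} (ν : Measure (Fin r → ℝ))
    [IsFiniteMeasure ν] (κ : Measure H) [IsProbabilityMeasure κ] :
    IsFiniteMeasure (om Hc ν κ) := by
  unfold om
  infer_instance

theorem eu_norm (x : ℝ) : ‖eu x‖ = 1 := by
  have h : (2 * π * x * Complex.I : ℂ) = ((2 * π * x : ℝ) : ℂ) * Complex.I := by push_cast; ring
  rw [eu, h, Complex.norm_exp_ofReal_mul_I]

theorem eu_int {r : ℕ} (ν : Measure (Fin r → ℝ)) [IsFiniteMeasure ν] (m : Fin r → ℤ) :
    Integrable (fun s => eu (dz m s)) ν := by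
  have hc : Continuous fun s : Fin r → ℝ => eu (dz m s) := by
    unfold eu dz
    fun_prop
  exact Integrable.of_bound hc.aestronglyMeasurable 1
    (Eventually.of_forall fun s => (eu_norm _).le)

/-- the torus part -/
theorem tor_int {N : ℕ} {H : Subgroup (SU N)} {r : ℕ} {Φ : RT r} {Hc : Fin r → MT N}
    {E : (Fin r → ℤ) × (Fin r → ℤ) → MT N} (T : TAF H Φ Hc E) {n : ℕ} {σ : Rep H (Fin n)}
    {U : Matrix (Fin n) (Fin n) ℂ} {m : Fin n → Fin r → ℤ} (hW : WT Hc σ U m)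
    (ν : Measure (Fin r → ℝ)) [IsFiniteMeasure ν] (a e : Fin n) :
    ∫ s, σ.ρ (tt H Hc s) a e ∂ν =
      (U * Matrix.diagonal (fun j => ∫ s, eu (dz (m j) s) ∂ν) * Uᴴ) a e := by
  have e1 : ∀ s, σ.ρ (tt H Hc s) a e = ∑ j, (U a j * Uᴴ j e) * eu (dz (m j) s) := by
    intro s
    rw [hW.tor (tt H Hc s) s (by rw [tt_coe T]), Matrix.mul_apply]
    refine Finset.sum_congr rfl fun j _ => ?_
    rw [Matrix.mul_diagonal]
    ring
  simp only [e1]
  rw [integral_finsetSum _ fun j _ => (eu_int ν (m j)).const_mul _, Matrix.mul_apply]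
  refine Finset.sum_congr rfl fun j _ => ?_
  rw [integral_const_mul, Matrix.mul_diagonal]
  ring

end L2W

theorem t_L2W : M_L2W := by
  intro hSC hTE hWF hTA hPF hDP hTR hNR hHM hTB N H r Φ B Hc E c k d hX μ _ _
  obtain ⟨C, hC, hCb⟩ := hTB N H r Φ B Hc E c k d hX
  refine ⟨C, hC, ?_⟩
  intro ϑ κ hϑ hϑ1 hκ ν₁ ν₂ hν₁ hν₂ b hb F hF
  obtain ⟨X, hfr⟩ := hX.frame
  have T : TAF H Φ Hc E := hTA N H r Φ B Hc E hX.closed hX.lrd
  have hcs : CompactSpace H := isCompact_iff_compactSpace.1 hX.closed.isCompact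
  have hsec : SecondCountableTopology H :=
    TopologicalSpace.Subtype.secondCountableTopology (H : Set (SU N))
  have hκp : IsProbabilityMeasure κ := hκ.prob
  have htc : Continuous (tt H Hc) := L2W.tt_cont T
  have hri : μ.IsMulRightInvariant := (t_HAAR H μ).1
  have hb0 : 0 ≤ b := by
    have h1 := hb 0
    have h2 : 0 < ∏ p ∈ pos Φ, (1 + ϑ * ((p.2 ⬝ᵥ (0 : Fin r → ℤ) : ℤ) : ℝ) ^ 2) :=
      Finset.prod_pos fun p _ => by positivity
    have h3 : 0 ≤ b * ∏ p ∈ pos Φ, (1 + ϑ * ((p.2 ⬝ᵥ (0 : Fin r → ℤ) : ℤ) : ℝ) ^ 2) :=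
      le_trans (by positivity) h1
    exact nonneg_of_mul_nonneg_left h3 h2
  set ω₁ := L2W.om Hc ν₁ κ with hω₁
  set ω₂ := L2W.om Hc ν₂ κ with hω₂
  have f1 : IsFiniteMeasure ω₁ := L2W.om_fin ν₁ κ
  have f2 : IsFiniteMeasure ω₂ := L2W.om_fin ν₂ κ
  -- the bound for one representation
  have hrep : ∀ (n : ℕ) (σ : Rep H (Fin n)), σ.Irr → PRep σ →
      (∑ b', ∑ a', ‖L2W.MM ω₁ ω₂ σ a' b'‖ ^ 2) / (Fintype.card (Fin n) : ℝ) ≤ C * b := by
    intro n σ hσ hσp
    obtain ⟨l, hl⟩ := hNR N H r Φ B Hc E c k d X hX.one_le hX.closed hX.conn hX.lrd hX.kc hfr n σ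
      hσ hσp
    obtain ⟨U, m, hU1, hU2, hU3⟩ := hTR N H r Φ B Hc E hX.closed hX.lrd n σ hσp
    have hW : WT Hc σ U m := ⟨hU1, hU2, hU3⟩
    have hce : ∀ i j, Continuous fun g => σ.ρ g i j := fun i j => σ.cont.matrix_elem i j
    set kk : Fin n → ℂ := fun j => ((Real.exp (-(ϑ * cq Φ l (m j))) : ℝ) : ℂ) with hkk
    set ps : Fin n → ℂ := fun j => ∫ s, eu (dz (m j) s) ∂ν₁ - ∫ s, eu (dz (m j) s) ∂ν₂ with hps
    have hK : ∀ i j, ∫ x, σ.ρ x i j ∂κ = (U * Matrix.diagonal kk * Uᴴ) i j :=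
      hHM N H r Φ B Hc E c k d hX ϑ κ hϑ hκ n σ l U m hσ hσp hl hW
    have hone : ∀ (ν : Measure (Fin r → ℝ)) [IsFiniteMeasure ν] (a e : Fin n),
        ∫ x, σ.ρ x a e ∂(L2W.om Hc ν κ) =
          (U * Matrix.diagonal (fun j => (∫ s, eu (dz (m j) s) ∂ν) * kk j) * Uᴴ) a e := by
      intro ν _ a e
      rw [L2W.om_int htc ν κ _ (hce a e)]
      have e1 : ∀ s, ∫ z, σ.ρ (tt H Hc s * z) a e ∂κ =
          ∑ q, σ.ρ (tt H Hc s) a q * (U * Matrix.diagonal kk * Uᴴ) q e := by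
        intro s
        have e2 : ∀ z, σ.ρ (tt H Hc s * z) a e = ∑ q, σ.ρ (tt H Hc s) a q * σ.ρ z q e := by
          intro z
          rw [map_mul, Matrix.mul_apply]
        simp only [e2]
        rw [integral_finsetSum _ fun q _ => (L2W.cint κ (hce q e)).const_mul _]
        refine Finset.sum_congr rfl fun q _ => ?_
        rw [integral_const_mul, hK]
      simp only [e1]
      have hi : ∀ q, Integrable (fun s => σ.ρ (tt H Hc s) a q) ν := by
        intro q
        obtain ⟨S, hS⟩ := (isCompact_univ (X := H)).exists_bound_of_continuousOn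
          (hce a q).continuousOn
        exact Integrable.of_bound ((hce a q).comp htc).aestronglyMeasurable S
          (Eventually.of_forall fun x => hS _ (Set.mem_univ _))
      rw [integral_finsetSum _ fun q _ => (hi q).mul_const _]
      have e3 : ∑ q, ∫ s, σ.ρ (tt H Hc s) a q * (U * Matrix.diagonal kk * Uᴴ) q e ∂ν =
          ((U * Matrix.diagonal (fun j => ∫ s, eu (dz (m j) s) ∂ν) * Uᴴ) *
            (U * Matrix.diagonal kk * Uᴴ)) a e := by
        rw [Matrix.mul_apply]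
        refine Finset.sum_congr rfl fun q _ => ?_
        rw [integral_mul_const, L2W.tor_int T hW ν a q]
      have e4 : U * Matrix.diagonal (fun j => ∫ s, eu (dz (m j) s) ∂ν) * Uᴴ *
            (U * Matrix.diagonal kk * Uᴴ) =
          U * Matrix.diagonal (fun j => (∫ s, eu (dz (m j) s) ∂ν) * kk j) * Uᴴ := by
        calc U * Matrix.diagonal (fun j => ∫ s, eu (dz (m j) s) ∂ν) * Uᴴ *
              (U * Matrix.diagonal kk * Uᴴ)
            = U * Matrix.diagonal (fun j => ∫ s, eu (dz (m j) s) ∂ν) * (Uᴴ * U) *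
              Matrix.diagonal kk * Uᴴ := by simp only [Matrix.mul_assoc]
          _ = U * (Matrix.diagonal (fun j => ∫ s, eu (dz (m j) s) ∂ν) * Matrix.diagonal kk) * Uᴴ := by
            rw [hU2, Matrix.mul_one]
            simp only [Matrix.mul_assoc]
          _ = _ := by rw [Matrix.diagonal_mul_diagonal]
      rw [e3, e4]
    have hMM : (fun a' b' => L2W.MM ω₁ ω₂ σ a' b') =
        U * Matrix.diagonal (fun j => ps j * kk j) * Uᴴ := by
      funext a' b'
      unfold L2W.MM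
      have e5 : (fun j => (∫ s, eu (dz (m j) s) ∂ν₁) * kk j - (∫ s, eu (dz (m j) s) ∂ν₂) * kk j) =
          fun j => ps j * kk j := by
        funext j
        simp only [hps]
        ring
      rw [hω₁, hω₂, hone ν₁, hone ν₂, ← Matrix.sub_apply, ← Matrix.sub_mul, ← Matrix.mul_sub,
        Matrix.diagonal_sub, e5]
    have e1 : ∑ b', ∑ a', ‖L2W.MM ω₁ ω₂ σ a' b'‖ ^ 2 = ∑ j, ‖ps j * kk j‖ ^ 2 :=
      L2W.hs_sum hU2 (fun j => ps j * kk j) hMM
    have hn : 0 < n := by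
      obtain ⟨i⟩ := hσ.1
      exact i.pos
    have hn' : (0 : ℝ) < (n : ℝ) := by exact_mod_cast hn
    rw [e1, Fintype.card_fin, div_le_iff₀ hn']
    have h1 := hCb n σ l U m hl hW ϑ hϑ hϑ1
    calc ∑ j, ‖ps j * kk j‖ ^ 2 ≤ ∑ j, b * (Real.exp (-(2 * ϑ * cq Φ l (m j))) *
          ∏ p ∈ pos Φ, (1 + ϑ * ((p.2 ⬝ᵥ m j : ℤ) : ℝ) ^ 2)) := by
          refine Finset.sum_le_sum fun j _ => ?_
          have h2 : ‖kk j‖ ^ 2 = Real.exp (-(2 * ϑ * cq Φ l (m j))) := by
            simp only [hkk]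
            rw [Complex.norm_real, Real.norm_of_nonneg (Real.exp_pos _).le, ← Real.exp_nat_mul]
            congr 1
            push_cast
            ring
          rw [norm_mul, mul_pow, h2]
          calc ‖ps j‖ ^ 2 * Real.exp (-(2 * ϑ * cq Φ l (m j)))
              ≤ (b * ∏ p ∈ pos Φ, (1 + ϑ * ((p.2 ⬝ᵥ m j : ℤ) : ℝ) ^ 2)) *
                Real.exp (-(2 * ϑ * cq Φ l (m j))) :=
                mul_le_mul_of_nonneg_right (hb (m j)) (Real.exp_pos _).le
            _ = _ := by ring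
      _ = b * ∑ j, (Real.exp (-(2 * ϑ * cq Φ l (m j))) *
          ∏ p ∈ pos Φ, (1 + ϑ * ((p.2 ⬝ᵥ m j : ℤ) : ℝ) ^ 2)) := by rw [Finset.mul_sum]
      _ ≤ b * (C * n) := mul_le_mul_of_nonneg_left h1 hb0
      _ = C * b * n := by ring
  -- the inequality for polynomial functions
  have hpol : ∀ P ∈ PF H, ∫ y : H × H, ‖L2W.Wt ω₁ ω₂ P y‖ ^ 2 ∂(μ.prod μ) ≤
      C * b * ∫ g, ‖P g‖ ^ 2 ∂μ := by
    intro P hP
    obtain ⟨m, a, f, hf⟩ := Submodule.mem_span_set'.1 (L2W.pf_span hTE hPF hDP hX.closed hP)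
    choose M σ p q h1 h2 h3 using fun k => (f k).2
    have hPe : P = fun g => ∑ k, a k * (σ k).ρ g (p k) (q k) := by
      funext g
      rw [← hf, Finset.sum_apply]
      refine Finset.sum_congr rfl fun k _ => ?_
      rw [Pi.smul_apply, smul_eq_mul, h3 k]
    rw [hPe]
    refine L2W.comb μ ω₁ ω₂ Finset.univ a (fun k g => (σ k).ρ g (p k) (q k))
      (fun k => (σ k).cont.matrix_elem _ _)
      (fun k => (∑ b', ∑ a', ‖L2W.MM ω₁ ω₂ (σ k) a' b'‖ ^ 2) / (Fintype.card (Fin (M k)) : ℝ))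
      (C * b) (fun k => hrep (M k) (σ k) (h1 k) (h2 k)) ?_
    intro k l
    exact L2W.main hSC μ ω₁ ω₂ (σ k) (h1 k) (p k) (q k) _ ((σ l).cont.matrix_elem _ _)
  have hfin := L2W.dens μ ω₁ ω₂ (b := C * b) (by positivity) F hF (by
    intro ε hε
    obtain ⟨P, hP1, hP2⟩ := (hPF N H hX.closed).dense F hF ε hε
    exact ⟨P, ((hPF N H hX.closed).c2 P hP1).1.cont, hP2, hpol P hP1⟩)
  have hcF : ∀ (h g : H) (ν : Measure (Fin r → ℝ)) [IsFiniteMeasure ν],
      ∫ s, VV κ h F (g * tt H Hc s) ∂ν = ∫ x, F (g * x * h⁻¹) ∂(L2W.om Hc ν κ) := by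
    intro h g ν _
    rw [L2W.om_int htc ν κ (fun x => F (g * x * h⁻¹))
      (hF.comp ((continuous_const.mul continuous_id).mul continuous_const))]
    refine integral_congr_ae (Eventually.of_forall fun s => ?_)
    show ∫ z, F (g * tt H Hc s * z * h⁻¹) ∂κ = ∫ z, F (g * (tt H Hc s * z) * h⁻¹) ∂κ
    refine integral_congr_ae (Eventually.of_forall fun z => ?_)
    show F (g * tt H Hc s * z * h⁻¹) = F (g * (tt H Hc s * z) * h⁻¹)
    rw [mul_assoc g (tt H Hc s) z]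
  have hWc : Continuous fun y : H × H => ‖L2W.Wt ω₁ ω₂ F y‖ ^ 2 :=
    (L2W.wt_cont ω₁ ω₂ hF).norm.pow 2
  have hWi : Integrable (fun y : H × H => ‖L2W.Wt ω₁ ω₂ F y‖ ^ 2) (μ.prod μ) :=
    hWc.integrable_of_hasCompactSupport (HasCompactSupport.of_compactSpace _)
  rw [integral_prod _ hWi] at hfin
  refine le_trans (le_of_eq ?_) hfin
  refine integral_congr_ae (Eventually.of_forall fun h => ?_)
  show ∫ g, ‖∫ s, VV κ h F (g * tt H Hc s) ∂ν₁ - ∫ s, VV κ h F (g * tt H Hc s) ∂ν₂‖ ^ 2 ∂μ =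
    ∫ g, ‖L2W.Wt ω₁ ω₂ F (h, g)‖ ^ 2 ∂μ
  refine integral_congr_ae (Eventually.of_forall fun g => ?_)
  show ‖∫ s, VV κ h F (g * tt H Hc s) ∂ν₁ - ∫ s, VV κ h F (g * tt H Hc s) ∂ν₂‖ ^ 2 =
    ‖L2W.Wt ω₁ ω₂ F (h, g)‖ ^ 2
  rw [hcF h g ν₁, hcF h g ν₂]
  rfl

end

end STZ3
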