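import Pool.Agent.STZ3.StmtsT3

/-!
# Compact simple groups of rank two: module CEL (helper45)

Integrals over cells.
-/

namespace STZ3

open STZ LGR MeasureTheory Matrix Filter

open scoped ComplexConjugate Matrix Real Topology

noncomputable section

namespace CEL

/-- a double integral dominated by a bilinear expression -/
theorem dbl {n : ℕ} (M : Fin n → Fin n → ℝ) (φ : Fin n → ℝ → ℝ)
    (f : ℝ → ℝ → ℝ) (hφ : ∀ i, Integrable (φ i) (volume.restrict (Set.Ioc (0 : ℝ) 1)))
    (hf0 : ∀ t s, 0 ≤ f t s)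
    (hf : ∀ t ∈ Set.Ioc (0 : ℝ) 1, ∀ s ∈ Set.Ioc (0 : ℝ) 1,
      f t s ≤ ∑ i, ∑ j, M i j * (φ i t * φ j s)) :
    ∫ t in (0 : ℝ)..1, ∫ s in (0 : ℝ)..1, f t s ≤
      ∑ i, ∑ j, M i j * ((∫ t in Set.Ioc (0 : ℝ) 1, φ i t) * ∫ t in Set.Ioc (0 : ℝ) 1, φ j t) := by
  simp only [intervalIntegral.integral_of_le (zero_le_one (α := ℝ))]
  have h1 : ∀ t ∈ Set.Ioc (0 : ℝ) 1, ∫ s in Set.Ioc (0 : ℝ) 1, f t s ≤
      ∑ i, ∑ j, M i j * (φ i t * ∫ s in Set.Ioc (0 : ℝ) 1, φ j s) := by
    intro t ht
    have hint : ∀ i j, Integrable (fun s => M i j * (φ i t * φ j s))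
        (volume.restrict (Set.Ioc (0 : ℝ) 1)) := fun i j => ((hφ j).const_mul _).const_mul _
    refine (integral_mono_of_nonneg (ae_of_all _ fun s => hf0 t s)
      (integrable_finsetSum _ fun i _ => integrable_finsetSum _ fun j _ => hint i j)
      (ae_restrict_of_forall_mem measurableSet_Ioc fun s hs => hf t ht s hs)).trans ?_
    rw [integral_finsetSum _ fun i _ => integrable_finsetSum _ fun j _ => hint i j]
    refine le_of_eq (Finset.sum_congr rfl fun i _ => ?_)
    rw [integral_finsetSum _ fun j _ => hint i j]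
    refine Finset.sum_congr rfl fun j _ => ?_
    rw [integral_const_mul, integral_const_mul]
  have hint : ∀ i j, Integrable (fun t => M i j * (φ i t * ∫ s in Set.Ioc (0 : ℝ) 1, φ j s))
      (volume.restrict (Set.Ioc (0 : ℝ) 1)) := fun i j => ((hφ i).mul_const _).const_mul _
  refine (integral_mono_of_nonneg (ae_of_all _ fun t => integral_nonneg fun s => hf0 t s)
    (integrable_finsetSum _ fun i _ => integrable_finsetSum _ fun j _ => hint i j)
    (ae_restrict_of_forall_mem measurableSet_Ioc h1)).trans ?_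
  rw [integral_finsetSum _ fun i _ => integrable_finsetSum _ fun j _ => hint i j]
  refine le_of_eq (Finset.sum_congr rfl fun i _ => ?_)
  rw [integral_finsetSum _ fun j _ => hint i j]
  refine Finset.sum_congr rfl fun j _ => ?_
  rw [integral_const_mul, integral_mul_const]

/-- the cell -/
def cell (L : ℕ) (i : Fin L) : Set ℝ := Set.Ioc ((i.val : ℝ) / L) (((i.val : ℝ) + 1) / L)

theorem cell_sub {L : ℕ} (i : Fin L) : cell L i ⊆ Set.Ioc (0 : ℝ) 1 := by
  intro t ht
  have hL : (0 : ℝ) < L := by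
    have := i.pos
    exact_mod_cast this
  have h1 : ((i.val : ℝ) + 1) ≤ L := by
    have := i.isLt
    exact_mod_cast this
  refine ⟨lt_of_le_of_lt (by positivity) ht.1, ht.2.trans ?_⟩
  rw [div_le_one hL]
  exact h1

theorem mem_cell {L : ℕ} (hL : 0 < L) {t : ℝ} (ht : t ∈ Set.Ioc (0 : ℝ) 1) :
    ∃ i : Fin L, t ∈ cell L i := by
  have hL' : (0 : ℝ) < L := by exact_mod_cast hL
  have h0 : 0 < L * t := mul_pos hL' ht.1
  have h1 : 0 < ⌈(L : ℝ) * t⌉₊ := Nat.ceil_pos.2 h0
  have h2 : ⌈(L : ℝ) * t⌉₊ ≤ L := by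
    rw [Nat.ceil_le]
    nlinarith [ht.2]
  obtain ⟨k, hk⟩ : ∃ k, ⌈(L : ℝ) * t⌉₊ = k + 1 := ⟨⌈(L : ℝ) * t⌉₊ - 1, by omega⟩
  refine ⟨⟨k, by omega⟩, ?_⟩
  have h3 : (L : ℝ) * t ≤ (k : ℝ) + 1 := by
    have := Nat.le_ceil ((L : ℝ) * t)
    rw [hk] at this
    push_cast at this
    exact this
  have h4 : (k : ℝ) < L * t := by
    have : k < ⌈(L : ℝ) * t⌉₊ := by omega
    exact Nat.lt_ceil.1 this
  constructor
  · show (k : ℝ) / L < t
    rw [div_lt_iff₀ hL']
    linarith
  · show t ≤ ((k : ℝ) + 1) / L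
    rw [le_div_iff₀ hL']
    linarith

theorem meas_cell {L : ℕ} (i : Fin L) : MeasurableSet (cell L i) := measurableSet_Ioc

theorem int_cell {L : ℕ} {h : ℝ → ℝ} (hc : Continuous h) (i : Fin L) :
    Integrable ((cell L i).indicator h) (volume.restrict (Set.Ioc (0 : ℝ) 1)) := by
  have : IntegrableOn h (Set.Ioc (0 : ℝ) 1) :=
    (hc.integrableOn_Icc (a := 0) (b := 1)).mono_set Set.Ioc_subset_Icc_self
  exact this.indicator (meas_cell i)

theorem eq_cell {L : ℕ} {h : ℝ → ℝ} (i : Fin L) :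
    ∫ t in Set.Ioc (0 : ℝ) 1, (cell L i).indicator h t = ∫ t in cell L i, h t := by
  rw [setIntegral_indicator (meas_cell i), Set.inter_eq_right.2 (cell_sub i)]

theorem sum_cell {L : ℕ} (hL : 0 < L) {h : ℝ → ℝ} (hc : Continuous h) :
    ∑ i : Fin L, ∫ t in cell L i, h t = ∫ t in (0 : ℝ)..1, h t := by
  have hL' : (0 : ℝ) < L := by exact_mod_cast hL
  have h1 := intervalIntegral.sum_integral_adjacent_intervals (f := h) (μ := volume)
    (a := fun k : ℕ => (k : ℝ) / L) (n := L) fun k _ => hc.intervalIntegrable _ _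
  rw [← Fin.sum_univ_eq_sum_range (fun k => ∫ x in ((k : ℝ) / L)..(((k + 1 : ℕ) : ℝ) / L), h x) L] at h1
  simp only [Nat.cast_zero, zero_div, div_self hL'.ne'] at h1
  rw [← h1]
  refine Finset.sum_congr rfl fun i _ => ?_
  rw [intervalIntegral.integral_of_le]
  · unfold cell
    push_cast
    rfl
  · refine div_le_div_of_nonneg_right ?_ hL'.le
    push_cast
    linarith

/-- Hölder on a cell -/
theorem hold {L : ℕ} {e : ℝ → ℝ} (hc : Continuous e) (he : ∀ t, 0 ≤ e t) {s p : ℝ}
    (hsp : s.HolderConjugate p) (i : Fin L) :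
    (∫ t in cell L i, e t ^ (1 / s)) ^ s ≤ (∫ t in cell L i, e t) * (1 / (L : ℝ)) ^ (s / p) := by
  have hL : (0 : ℝ) < L := by
    have := i.pos
    exact_mod_cast this
  have hs : 0 < s := hsp.pos
  have hp : 0 < p := hsp.symm.pos
  have hfin : IsFiniteMeasure (volume.restrict (cell L i)) := by
    refine ⟨?_⟩
    rw [Measure.restrict_apply_univ]
    unfold cell
    simp
  have hcs : Continuous fun t => e t ^ (1 / s) :=
    hc.rpow_const fun t => Or.inr (by positivity)
  have hm : MemLp (fun t => e t ^ (1 / s)) (ENNReal.ofReal s) (volume.restrict (cell L i)) := by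
    obtain ⟨C, hC⟩ := (isCompact_Icc (a := (i.val : ℝ) / L) (b := ((i.val : ℝ) + 1) / L)).exists_bound_of_continuousOn
      hcs.continuousOn
    refine MemLp.of_bound hcs.aestronglyMeasurable C ?_
    exact ae_restrict_of_forall_mem measurableSet_Ioc fun t ht => hC t (Set.Ioc_subset_Icc_self ht)
  have h1 := integral_mul_le_Lp_mul_Lq_of_nonneg (μ := volume.restrict (cell L i)) hsp
    (f := fun t => e t ^ (1 / s)) (g := fun _ => (1 : ℝ))
    (ae_of_all _ fun t => Real.rpow_nonneg (he t) _) (ae_of_all _ fun t => zero_le_one) hm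
    (memLp_const _)
  simp only [mul_one, Real.one_rpow] at h1
  have h2 : ∀ t, (e t ^ (1 / s)) ^ s = e t := by
    intro t
    rw [← Real.rpow_mul (he t), one_div_mul_cancel hs.ne', Real.rpow_one]
  simp only [h2] at h1
  have h3 : ∫ t in cell L i, (1 : ℝ) = 1 / L := by
    rw [setIntegral_const, smul_eq_mul, mul_one]
    unfold cell
    rw [measureReal_def, Real.volume_Ioc, ENNReal.toReal_ofReal]
    · ring
    · rw [← sub_div]
      have : (0 : ℝ) ≤ (i.val : ℝ) + 1 - i.val := by linarith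
      positivity
  rw [h3] at h1
  have hE : 0 ≤ ∫ t in cell L i, e t := integral_nonneg fun t => he t
  calc (∫ t in cell L i, e t ^ (1 / s)) ^ s
      ≤ ((∫ t in cell L i, e t) ^ (1 / s) * (1 / (L : ℝ)) ^ (1 / p)) ^ s :=
        Real.rpow_le_rpow (integral_nonneg fun t => Real.rpow_nonneg (he t) _) h1 hs.le
    _ = _ := by
        rw [Real.mul_rpow (Real.rpow_nonneg hE _) (by positivity), ← Real.rpow_mul hE,
          one_div_mul_cancel hs.ne', Real.rpow_one, ← Real.rpow_mul (by positivity)]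
        congr 2
        ring

end CEL

open CEL in
open Classical in
theorem t_CEL : M_CEL := by
  intro hCNT p ε hp hε
  have hp1 : 0 < p - 1 := by linarith
  have hp0 : 0 < p := by linarith
  set s := p / (p - 1) with hs
  have hs1 : 1 ≤ s := by
    rw [hs, le_div_iff₀ hp1]
    linarith
  have hs2 : s < 2 := by
    rw [hs, div_lt_iff₀ hp1]
    linarith
  have hs0 : 0 < s := by linarith
  have hsp : s.HolderConjugate p := by
    rw [Real.holderConjugate_iff]
    refine ⟨?_, ?_⟩
    · rw [hs, lt_div_iff₀ hp1]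
      linarith
    · rw [hs]
      field_simp
      ring
  obtain ⟨K, C, hK, hC, hcnt⟩ := hCNT s ε hs1 hs2 hε
  refine ⟨K, C, hK, hC, fun R δ e hR hδ hKδ hc he => ?_⟩
  have hR' : (1 : ℝ) ≤ R := by exact_mod_cast hR
  have hK' : (1 : ℝ) ≤ K := by exact_mod_cast hK
  have hKR : (1 : ℝ) ≤ K * (R : ℝ) ^ K := by
    have := one_le_pow₀ (n := K) hR'
    nlinarith
  have hδ1 : δ ≤ 1 := by nlinarith
  set L := ⌈1 / δ⌉₊ with hL
  have hL1 : 1 / δ ≤ L := Nat.le_ceil _
  have hLpos : 0 < L := Nat.ceil_pos.2 (by positivity)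
  have hL0 : (0 : ℝ) < L := by exact_mod_cast hLpos
  have hL2 : (L : ℝ) ≤ 2 / δ := by
    have h1 := Nat.ceil_lt_add_one (a := 1 / δ) (by positivity)
    have h2 : (1 : ℝ) ≤ 1 / δ := by rwa [le_div_iff₀ hδ, one_mul]
    have h3 : 2 / δ = 1 / δ + 1 / δ := by ring
    rw [h3]
    exact (h1.le).trans (by linarith)
  have hLδ : 1 / (L : ℝ) ≤ δ := by
    rw [div_le_iff₀ hL0]
    rw [div_le_iff₀ hδ] at hL1
    linarith
  have hδL : δ ≤ 2 / L := by
    rw [le_div_iff₀ hL0]
    rw [le_div_iff₀ hδ] at hL2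
    linarith
  have hKL : K * R ^ K ≤ L := by
    have h1 : (K : ℝ) * (R : ℝ) ^ K ≤ L := by
      refine le_trans ?_ hL1
      rwa [le_div_iff₀ hδ]
    exact_mod_cast h1
  -- the function
  have h1p : 1 - 1 / p = 1 / s := by
    rw [hs]
    field_simp
  have hcs : Continuous fun t => e t ^ (1 / s) :=
    hc.rpow_const fun t => Or.inr (by positivity)
  have hh0 : ∀ t, 0 ≤ e t ^ (1 / s) := fun t => Real.rpow_nonneg (he t) _
  have hM0 : ∀ i j, 0 ≤ cM R L i j := by
    intro i j
    unfold cM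
    simp only [Matrix.of_apply]
    split_ifs
    · exact zero_le_one
    · exact le_rfl
  have hφ0 : ∀ (i : Fin L) (t : ℝ), 0 ≤ (cell L i).indicator (fun t => e t ^ (1 / s)) t :=
    fun i t => Set.indicator_nonneg (fun t _ => hh0 t) t
  have hd := dbl (fun i j => cM R L i j) (fun i => (cell L i).indicator (fun t => e t ^ (1 / s)))
    (fun t s' => if nr R δ (t - s') then (e t * e s') ^ (1 - 1 / p) else 0)
    (fun i => int_cell hcs i)
    (fun t s' => by
      split_ifs
      · exact Real.rpow_nonneg (mul_nonneg (he t) (he s')) _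
      · exact le_rfl)
    (fun t ht s' hs' => by
      have hnn : ∀ i j : Fin L, 0 ≤ cM R L i j * ((cell L i).indicator (fun t => e t ^ (1 / s)) t *
          (cell L j).indicator (fun t => e t ^ (1 / s)) s') := fun i j =>
        mul_nonneg (hM0 i j) (mul_nonneg (hφ0 i t) (hφ0 j s'))
      split_ifs with hnr
      · obtain ⟨i, hi⟩ := mem_cell hLpos ht
        obtain ⟨j, hj⟩ := mem_cell hLpos hs'
        have hij : cM R L i j = 1 := by
          unfold cM
          simp only [Matrix.of_apply]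
          rw [if_pos]
          obtain ⟨q, a, hq1, hq2, hq3⟩ := hnr
          refine ⟨q, a, hq1, hq2, ?_⟩
          have hi1 : (i.val : ℝ) / L < t := hi.1
          have hi2 : t ≤ ((i.val : ℝ) + 1) / L := hi.2
          have hj1 : (j.val : ℝ) / L < s' := hj.1
          have hj2 : s' ≤ ((j.val : ℝ) + 1) / L := hj.2
          rw [add_div] at hi2 hj2
          rw [abs_le] at hq3 ⊢
          rw [sub_div]
          have e3 : (3 : ℝ) / L = 1 / L + 2 / L := by ring
          rw [e3]
          constructor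
          · linarith [hq3.1]
          · linarith [hq3.2]
        calc (e t * e s') ^ (1 - 1 / p) = cM R L i j *
              ((cell L i).indicator (fun t => e t ^ (1 / s)) t *
                (cell L j).indicator (fun t => e t ^ (1 / s)) s') := by
              rw [hij, Set.indicator_of_mem hi, Set.indicator_of_mem hj, one_mul, h1p,
                Real.mul_rpow (he t) (he s')]
          _ ≤ ∑ j, cM R L i j * ((cell L i).indicator (fun t => e t ^ (1 / s)) t *
                (cell L j).indicator (fun t => e t ^ (1 / s)) s') :=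
              Finset.single_le_sum (f := fun j => cM R L i j *
                ((cell L i).indicator (fun t => e t ^ (1 / s)) t *
                (cell L j).indicator (fun t => e t ^ (1 / s)) s')) (fun j _ => hnn i j)
                (Finset.mem_univ j)
          _ ≤ _ :=
              Finset.single_le_sum (f := fun i => ∑ j, cM R L i j *
                ((cell L i).indicator (fun t => e t ^ (1 / s)) t *
                (cell L j).indicator (fun t => e t ^ (1 / s)) s'))
                (fun i _ => Finset.sum_nonneg fun j _ => hnn i j)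
                (Finset.mem_univ i)
      · exact Finset.sum_nonneg fun i _ => Finset.sum_nonneg fun j _ => hnn i j)
  simp only [eq_cell] at hd
  refine hd.trans ?_
  refine (hcnt R L hR hKL (fun i => ∫ t in cell L i, e t ^ (1 / s))
    (fun i => integral_nonneg fun t => hh0 t)).trans ?_
  have hE0 : 0 ≤ ∫ t in (0 : ℝ)..1, e t :=
    intervalIntegral.integral_nonneg zero_le_one fun t _ => he t
  have hsum : ∑ i : Fin L, (∫ t in cell L i, e t ^ (1 / s)) ^ s ≤
      (∫ t in (0 : ℝ)..1, e t) * (1 / (L : ℝ)) ^ (s / p) := by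
    rw [← sum_cell hLpos hc, Finset.sum_mul]
    exact Finset.sum_le_sum fun i _ => hold hc he hsp i
  have hsum0 : 0 ≤ ∑ i : Fin L, (∫ t in cell L i, e t ^ (1 / s)) ^ s :=
    Finset.sum_nonneg fun i _ => Real.rpow_nonneg (integral_nonneg fun t => hh0 t) _
  have h2s : 2 / s = 2 - 2 / p := by
    rw [hs]
    field_simp
  have hfin : (∑ i : Fin L, (∫ t in cell L i, e t ^ (1 / s)) ^ s) ^ (2 / s) ≤
      δ ^ (2 / p) * (∫ t in (0 : ℝ)..1, e t) ^ (2 - 2 / p) := by
    calc (∑ i : Fin L, (∫ t in cell L i, e t ^ (1 / s)) ^ s) ^ (2 / s)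
        ≤ ((∫ t in (0 : ℝ)..1, e t) * (1 / (L : ℝ)) ^ (s / p)) ^ (2 / s) :=
          Real.rpow_le_rpow hsum0 hsum (by positivity)
      _ = (1 / (L : ℝ)) ^ (2 / p) * (∫ t in (0 : ℝ)..1, e t) ^ (2 - 2 / p) := by
          rw [Real.mul_rpow hE0 (by positivity), ← Real.rpow_mul (by positivity), h2s, mul_comm]
          congr 2
          rw [← h2s]
          field_simp
      _ ≤ _ := mul_le_mul_of_nonneg_right
          (Real.rpow_le_rpow (by positivity) hLδ (by positivity)) (Real.rpow_nonneg hE0 _)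
  calc C * (R : ℝ) ^ (1 + ε) * (∑ i : Fin L, (∫ t in cell L i, e t ^ (1 / s)) ^ s) ^ (2 / s)
      ≤ C * (R : ℝ) ^ (1 + ε) * (δ ^ (2 / p) * (∫ t in (0 : ℝ)..1, e t) ^ (2 - 2 / p)) :=
        mul_le_mul_of_nonneg_left hfin (by positivity)
    _ = _ := by ring

end

end STZ3
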