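import Pool.Agent.STZ3.StM
import Pool.Agent.STZ.Base

/-!
# Module SHM3_CLL: (7.5), the cells (MP_bea16e_an)
-/

namespace STZ3

open STZ LGR MeasureTheory Matrix Filter

open scoped ComplexConjugate Matrix Real Topology Pointwise

noncomputable section

namespace CLL

section per

variable {r : ℕ} {E : Type*} [NormedAddCommGroup E] [NormedSpace ℝ E]

theorem ico_ae (a : Fin r → ℝ) :
    (Set.pi Set.univ fun i => Set.Ico (a i) (a i + 1)) =ᵐ[volume] Set.Icc a (fun i => a i + 1) :=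
  Measure.univ_pi_Ico_ae_eq_Icc

theorem setIntegral_per (k : (Fin r → ℝ) → E)
    (hk : ∀ θ (n : Fin r → ℤ), k (θ + fun j => (n j : ℝ)) = k θ) (a : Fin r → ℝ) :
    ∫ θ in Set.Icc a (fun i => a i + 1), k θ = ∫ θ in Set.Icc (0 : Fin r → ℝ) 1, k θ := by
  have hfd := ZSpan.isAddFundamentalDomain' (Pi.basisFun ℝ (Fin r)) (volume : Measure (Fin r → ℝ))
  have hfa := hfd.vadd_of_comm a
  have h0 : (ZSpan.fundamentalDomain (Pi.basisFun ℝ (Fin r))) =
      Set.pi Set.univ fun i => Set.Ico ((0 : Fin r → ℝ) i) ((0 : Fin r → ℝ) i + 1) := by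
    ext x
    simp [ZSpan.mem_fundamentalDomain, Set.mem_pi]
  have h1 : (a +ᵥ (ZSpan.fundamentalDomain (Pi.basisFun ℝ (Fin r)))) =
      Set.pi Set.univ fun i => Set.Ico (a i) (a i + 1) := by
    rw [h0]
    ext x
    rw [Set.mem_vadd_set_iff_neg_vadd_mem]
    simp only [Set.mem_pi, Set.mem_univ, forall_true_left, Set.mem_Ico, vadd_eq_add, Pi.add_apply,
      Pi.neg_apply, Pi.zero_apply, zero_add]
    refine forall_congr' fun i => ?_
    constructor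
    · rintro ⟨h1, h2⟩
      constructor <;> linarith
    · rintro ⟨h1, h2⟩
      constructor <;> linarith
  have hcount : Countable (Submodule.span ℤ (Set.range (Pi.basisFun ℝ (Fin r)))).toAddSubgroup :=
    (inferInstance : Countable (Submodule.span ℤ (Set.range (Pi.basisFun ℝ (Fin r)))))
  have h2 := hfa.setIntegral_eq hfd (f := k) (by
    intro g x
    have hg : ∃ n : Fin r → ℤ, (g : Fin r → ℝ) = fun j => (n j : ℝ) := by
      have h3 : (g : Fin r → ℝ) ∈ Submodule.span ℤ (Set.range (Pi.basisFun ℝ (Fin r))) := g.2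
      rw [Module.Basis.mem_span_iff_repr_mem] at h3
      choose n hn using h3
      refine ⟨n, ?_⟩
      funext j
      have h4 := hn j
      simpa using h4.symm
    obtain ⟨n, hn⟩ := hg
    have h5 : g +ᵥ x = x + fun j => (n j : ℝ) := by
      rw [← hn]
      exact add_comm _ _
    rw [h5, hk])
  rw [h1, h0] at h2
  rw [setIntegral_congr_set (ico_ae a), setIntegral_congr_set (ico_ae 0)] at h2
  rw [h2]
  simp only [Pi.zero_apply, zero_add]
  rfl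

theorem shift_per (k : (Fin r → ℝ) → E)
    (hk : ∀ θ (n : Fin r → ℤ), k (θ + fun j => (n j : ℝ)) = k θ) (φ : Fin r → ℝ) :
    ∫ θ in Set.Icc (0 : Fin r → ℝ) 1, k (θ + φ) = ∫ θ in Set.Icc (0 : Fin r → ℝ) 1, k θ := by
  rw [← setIntegral_per k hk φ]
  rw [← integral_indicator measurableSet_Icc, ← integral_indicator measurableSet_Icc]
  rw [← integral_add_right_eq_self
    (fun x => (Set.Icc φ (fun i => φ i + 1)).indicator k x) φ]
  refine integral_congr_ae (Eventually.of_forall fun θ => ?_)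
  have hiff : θ ∈ Set.Icc (0 : Fin r → ℝ) 1 ↔ θ + φ ∈ Set.Icc φ (fun i => φ i + 1) := by
    simp only [Set.mem_Icc, Pi.le_def, Pi.zero_apply, Pi.one_apply, Pi.add_apply]
    constructor
    · rintro ⟨h1, h2⟩
      exact ⟨fun i => by linarith [h1 i], fun i => by linarith [h2 i]⟩
    · rintro ⟨h1, h2⟩
      exact ⟨fun i => by linarith [h1 i], fun i => by linarith [h2 i]⟩
  by_cases h : θ ∈ Set.Icc (0 : Fin r → ℝ) 1
  · simp only [Set.indicator_of_mem h, Set.indicator_of_mem (hiff.1 h)]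
  · simp only [Set.indicator_of_notMem h, Set.indicator_of_notMem (fun hh => h (hiff.2 hh))]

end per

section bm

variable {X Y Z : Type*} [MeasurableSpace X] [MeasurableSpace Y] [MeasurableSpace Z]
  {E : Type*} [NormedAddCommGroup E] [NormedSpace ℝ E]

/-- bounded measurable functions -/
def BM {X : Type*} [MeasurableSpace X] {E : Type*} [NormedAddCommGroup E] (f : X → E) : Prop :=
  StronglyMeasurable f ∧ ∃ C : ℝ, ∀ x, ‖f x‖ ≤ C

omit [NormedSpace ℝ E] in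
theorem BM.integrable {f : X → E} (hf : BM f) (ν : Measure X) [IsFiniteMeasure ν] :
    Integrable f ν := by
  obtain ⟨h, C, hC⟩ := hf
  exact Integrable.of_bound h.aestronglyMeasurable C (Eventually.of_forall hC)

omit [NormedSpace ℝ E] in
theorem BM.comp {f : X → E} (hf : BM f) {g : Y → X} (hg : Measurable g) : BM fun y => f (g y) := by
  obtain ⟨h, C, hC⟩ := hf
  exact ⟨h.comp_measurable hg, C, fun y => hC _⟩

theorem BM.int {f : X × Y → E} (hf : BM f) (ν : Measure Y) [IsFiniteMeasure ν] :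
    BM fun x => ∫ y, f (x, y) ∂ν := by
  obtain ⟨h, C, hC⟩ := hf
  exact ⟨h.integral_prod_right', C * ν.real Set.univ,
    fun x => norm_integral_le_of_norm_le_const (Eventually.of_forall fun y => hC _)⟩

theorem swap3 (m1 : Measure X) (m2 : Measure Y) (m3 : Measure Z) [IsFiniteMeasure m1]
    [IsFiniteMeasure m2] [IsFiniteMeasure m3] {f : X × Y × Z → E} (hf : BM f) :
    ∫ x, ∫ y, ∫ z, f (x, y, z) ∂m3 ∂m2 ∂m1 = ∫ z, ∫ y, ∫ x, f (x, y, z) ∂m1 ∂m2 ∂m3 := by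
  have e1 : ∀ x, ∫ y, ∫ z, f (x, y, z) ∂m3 ∂m2 = ∫ z, ∫ y, f (x, y, z) ∂m2 ∂m3 := fun x =>
    integral_integral_swap (f := fun y z => f (x, y, z))
      ((hf.comp (g := fun p : Y × Z => (x, p.1, p.2)) (by fun_prop)).integrable _)
  have e2 : ∫ x, ∫ z, ∫ y, f (x, y, z) ∂m2 ∂m3 ∂m1 = ∫ z, ∫ x, ∫ y, f (x, y, z) ∂m2 ∂m1 ∂m3 :=
    integral_integral_swap (f := fun x z => ∫ y, f (x, y, z) ∂m2)
      (((hf.comp (g := fun p : (X × Z) × Y => (p.1.1, p.2, p.1.2)) (by fun_prop)).int m2).integrable _)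
  have e3 : ∀ z, ∫ x, ∫ y, f (x, y, z) ∂m2 ∂m1 = ∫ y, ∫ x, f (x, y, z) ∂m1 ∂m2 := fun z =>
    integral_integral_swap (f := fun x y => f (x, y, z))
      ((hf.comp (g := fun p : X × Y => (p.1, p.2, z)) (by fun_prop)).integrable _)
  simp only [e1, e2, e3]

variable {X1 X2 X3 X4 X5 X6 : Type*} [MeasurableSpace X1] [MeasurableSpace X2] [MeasurableSpace X3]
  [MeasurableSpace X4] [MeasurableSpace X5] [MeasurableSpace X6]

theorem iter6 (m1 : Measure X1) (m2 : Measure X2) (m3 : Measure X3) (m4 : Measure X4)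
    (m5 : Measure X5) (m6 : Measure X6) [IsFiniteMeasure m1] [IsFiniteMeasure m2]
    [IsFiniteMeasure m3] [IsFiniteMeasure m4] [IsFiniteMeasure m5] [IsFiniteMeasure m6]
    {F : X1 × X2 × X3 × X4 × X5 × X6 → E} (hF : BM F) :
    ∫ z, F z ∂(m1.prod (m2.prod (m3.prod (m4.prod (m5.prod m6))))) =
      ∫ a, ∫ b, ∫ c, ∫ d, ∫ e, ∫ f, F (a, b, c, d, e, f) ∂m6 ∂m5 ∂m4 ∂m3 ∂m2 ∂m1 := by
  rw [integral_prod _ (hF.integrable _)]
  refine integral_congr_ae (Eventually.of_forall fun a => ?_)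
  have h1 : BM fun z => F (a, z) := hF.comp (g := fun z => (a, z)) (by fun_prop)
  simp only
  rw [integral_prod _ (h1.integrable _)]
  refine integral_congr_ae (Eventually.of_forall fun b => ?_)
  have h2 : BM fun z => F (a, b, z) := hF.comp (g := fun z => (a, b, z)) (by fun_prop)
  simp only
  rw [integral_prod _ (h2.integrable _)]
  refine integral_congr_ae (Eventually.of_forall fun c => ?_)
  have h3 : BM fun z => F (a, b, c, z) := hF.comp (g := fun z => (a, b, c, z)) (by fun_prop)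
  simp only
  rw [integral_prod _ (h3.integrable _)]
  refine integral_congr_ae (Eventually.of_forall fun d => ?_)
  have h4 : BM fun z => F (a, b, c, d, z) := hF.comp (g := fun z => (a, b, c, d, z)) (by fun_prop)
  simp only
  rw [integral_prod _ (h4.integrable _)]

theorem reord (m1 : Measure X1) (m2 : Measure X2) (m3 : Measure X3) (m4 : Measure X4)
    (m5 : Measure X5) (m6 : Measure X6) [IsFiniteMeasure m1] [IsFiniteMeasure m2]
    [IsFiniteMeasure m3] [IsFiniteMeasure m4] [IsFiniteMeasure m5] [IsFiniteMeasure m6]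
    {F : X1 × X2 × X3 × X4 × X5 × X6 → E} (hF : BM F) :
    ∫ a, ∫ b, ∫ c, ∫ d, ∫ e, ∫ f, F (a, b, c, d, e, f) ∂m6 ∂m5 ∂m4 ∂m3 ∂m2 ∂m1 =
      ∫ d, ∫ e, ∫ b, ∫ c, ∫ a, ∫ f, F (a, b, c, d, e, f) ∂m6 ∂m1 ∂m3 ∂m2 ∂m5 ∂m4 := by
  set g : X1 × (X2 × X3) × (X4 × X5) → E :=
    fun p => ∫ f, F (p.1, p.2.1.1, p.2.1.2, p.2.2.1, p.2.2.2, f) ∂m6 with hg
  have hgB : BM g := by
    have h1 : BM fun p : (X1 × (X2 × X3) × (X4 × X5)) × X6 =>
        F (p.1.1, p.1.2.1.1, p.1.2.1.2, p.1.2.2.1, p.1.2.2.2, p.2) := hF.comp (by fun_prop)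
    exact h1.int m6
  have e1 : ∀ a b c, ∫ d, ∫ e, g (a, (b, c), (d, e)) ∂m5 ∂m4 =
      ∫ x, g (a, (b, c), x) ∂(m4.prod m5) := fun a b c =>
    (integral_prod _ ((hgB.comp (g := fun x : X4 × X5 => (a, (b, c), x)) (by fun_prop)).integrable _)).symm
  have e2 : ∀ a, ∫ b, ∫ c, (∫ x, g (a, (b, c), x) ∂(m4.prod m5)) ∂m3 ∂m2 =
      ∫ y, (∫ x, g (a, y, x) ∂(m4.prod m5)) ∂(m2.prod m3) := fun a =>
    (integral_prod (fun y => ∫ x, g (a, y, x) ∂(m4.prod m5))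
      (((hgB.comp (g := fun p : (X2 × X3) × (X4 × X5) => (a, p.1, p.2)) (by fun_prop)).int
        (m4.prod m5)).integrable _)).symm
  have e3 := swap3 m1 (m2.prod m3) (m4.prod m5) hgB
  have e4 : ∀ x, ∫ y, (∫ a, g (a, y, x) ∂m1) ∂(m2.prod m3) =
      ∫ b, ∫ c, (∫ a, g (a, (b, c), x) ∂m1) ∂m3 ∂m2 := fun x =>
    integral_prod (fun y => ∫ a, g (a, y, x) ∂m1)
      (((hgB.comp (g := fun p : (X2 × X3) × X1 => (p.2, p.1, x)) (by fun_prop)).int m1).integrable _)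
  have e5 : ∫ x, (∫ y, (∫ a, g (a, y, x) ∂m1) ∂(m2.prod m3)) ∂(m4.prod m5) =
      ∫ d, ∫ e, (∫ y, (∫ a, g (a, y, (d, e)) ∂m1) ∂(m2.prod m3)) ∂m5 ∂m4 :=
    integral_prod (fun x => ∫ y, (∫ a, g (a, y, x) ∂m1) ∂(m2.prod m3))
      ((((hgB.comp (g := fun p : ((X4 × X5) × (X2 × X3)) × X1 => (p.2, p.1.2, p.1.1)) (by fun_prop)).int
        m1).int (m2.prod m3)).integrable _)
  calc ∫ a, ∫ b, ∫ c, ∫ d, ∫ e, ∫ f, F (a, b, c, d, e, f) ∂m6 ∂m5 ∂m4 ∂m3 ∂m2 ∂m1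
      = ∫ a, ∫ b, ∫ c, ∫ d, ∫ e, g (a, (b, c), (d, e)) ∂m5 ∂m4 ∂m3 ∂m2 ∂m1 := rfl
    _ = ∫ a, ∫ y, ∫ x, g (a, y, x) ∂(m4.prod m5) ∂(m2.prod m3) ∂m1 := by simp only [e1, e2]
    _ = ∫ d, ∫ e, ∫ b, ∫ c, ∫ a, g (a, (b, c), (d, e)) ∂m1 ∂m3 ∂m2 ∂m5 ∂m4 := by
      rw [e3, e5]
      simp only [e4]
    _ = _ := rfl

end bm

section core

variable {G : Type} [Group G] [TopologicalSpace G] [IsTopologicalGroup G]
  [SecondCountableTopology G] [MeasurableSpace G] [BorelSpace G] {r : ℕ}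

omit [SecondCountableTopology G] in
theorem subst {E : Type*} [NormedAddCommGroup E] [NormedSpace ℝ E] (μ : Measure G)
    [μ.IsMulRightInvariant] (T : (Fin r → ℝ) → G) (tadd : ∀ θ θ', T (θ + θ') = T θ * T θ')
    (tint : ∀ n : Fin r → ℤ, T (fun j => (n j : ℝ)) = 1) (Φ : G → G → (Fin r → ℝ) → E)
    (hΦ : ∀ x y θ (n : Fin r → ℤ), Φ x y (θ + fun j => (n j : ℝ)) = Φ x y θ) (φ : Fin r → ℝ) :
    ∫ g, (∫ θ in Set.Icc (0 : Fin r → ℝ) 1, Φ (g * T φ) (g * T θ) (θ - φ)) ∂μ =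
      ∫ g, (∫ θ in Set.Icc (0 : Fin r → ℝ) 1, Φ g (g * T θ) θ) ∂μ := by
  rw [← integral_mul_right_eq_self (μ := μ)
    (fun g => ∫ θ in Set.Icc (0 : Fin r → ℝ) 1, Φ g (g * T θ) θ) (T φ)]
  refine integral_congr_ae (Eventually.of_forall fun g => ?_)
  have h1 := shift_per (fun θ => Φ (g * T φ) (g * T θ) (θ - φ)) (fun θ n => by
    rw [tadd, tint, mul_one, add_sub_right_comm, hΦ]) φ
  refine h1.symm.trans ?_
  refine integral_congr_ae (Eventually.of_forall fun θ => ?_)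
  simp only
  rw [add_sub_cancel_right, add_comm θ φ, tadd, mul_assoc]

/-- the indicator function -/
def cR {X : Type*} (A : Set X) (x : X) : ℝ := A.indicator (fun _ => (1 : ℝ)) x

omit [SecondCountableTopology G] in
theorem avg {E : Type*} [NormedAddCommGroup E] [NormedSpace ℝ E] [CompleteSpace E] (μ : Measure G)
    [μ.IsMulRightInvariant] (ℓ : Measure ℝ) (T : (Fin r → ℝ) → G)
    (tadd : ∀ θ θ', T (θ + θ') = T θ * T θ')
    (tint : ∀ n : Fin r → ℤ, T (fun j => (n j : ℝ)) = 1) (K : ℝ → ℝ → G → G → G → (Fin r → ℝ) → E)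
    (hK : ∀ t s h x y θ (n : Fin r → ℤ), K t s h x y (θ + fun j => (n j : ℝ)) = K t s h x y θ)
    (Q : Set (Fin r → ℝ)) (hQ : MeasurableSet Q) (hQ1 : Q ⊆ Set.Icc 0 1) :
    ∫ φ in Set.Icc (0 : Fin r → ℝ) 1, ∫ t, ∫ s, ∫ h, ∫ g, (∫ θ in Set.Icc (0 : Fin r → ℝ) 1,
        cR Q φ • K t s h (g * T φ) (g * T θ) (θ - φ)) ∂μ ∂μ ∂ℓ ∂ℓ =
      volume.real Q • ∫ t, ∫ s, ∫ h, ∫ g, (∫ θ in Set.Icc (0 : Fin r → ℝ) 1,
        K t s h g (g * T θ) θ) ∂μ ∂μ ∂ℓ ∂ℓ := by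
  simp only [integral_smul]
  have e1 : ∀ φ t s h, ∫ g, (∫ θ in Set.Icc (0 : Fin r → ℝ) 1,
      K t s h (g * T φ) (g * T θ) (θ - φ)) ∂μ = ∫ g, (∫ θ in Set.Icc (0 : Fin r → ℝ) 1,
      K t s h g (g * T θ) θ) ∂μ := fun φ t s h =>
    subst μ T tadd tint (K t s h) (hK t s h) φ
  simp only [e1]
  rw [integral_smul_const]
  congr 1
  unfold cR
  rw [integral_indicator_const _ hQ, measureReal_restrict_apply hQ,
    Set.inter_eq_left.2 hQ1, smul_eq_mul, mul_one]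

theorem cR_nonneg {X : Type*} (A : Set X) (x : X) : 0 ≤ cR A x :=
  Set.indicator_nonneg (fun _ _ => zero_le_one) x

theorem bm_cR {X : Type*} [MeasurableSpace X] {A : Set X} (hA : MeasurableSet A) : BM (cR A) := by
  refine ⟨stronglyMeasurable_const.indicator hA, 1, fun x => ?_⟩
  rw [Real.norm_of_nonneg (cR_nonneg A x)]
  unfold cR
  by_cases h : x ∈ A
  · rw [Set.indicator_of_mem h]
  · rw [Set.indicator_of_notMem h]
    exact zero_le_one

theorem BM.smul {X : Type*} [MeasurableSpace X] {E : Type*} [NormedAddCommGroup E] [NormedSpace ℝ E]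
    {f : X → ℝ} {g : X → E} (hf : BM f) (hg : BM g) : BM fun x => f x • g x := by
  obtain ⟨h1, C1, hC1⟩ := hf
  obtain ⟨h2, C2, hC2⟩ := hg
  refine ⟨h1.smul h2, |C1| * |C2|, fun x => ?_⟩
  rw [norm_smul]
  exact mul_le_mul ((hC1 x).trans (le_abs_self _)) ((hC2 x).trans (le_abs_self _)) (norm_nonneg _)
    (abs_nonneg _)

theorem core (μ : Measure G) [IsProbabilityMeasure μ] [μ.IsMulRightInvariant] (ℓ : Measure ℝ)
    [IsFiniteMeasure ℓ] (T : (Fin r → ℝ) → G) (hT : Continuous T)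
    (tadd : ∀ θ θ', T (θ + θ') = T θ * T θ')
    (tint : ∀ n : Fin r → ℤ, T (fun j => (n j : ℝ)) = 1)
    (ker : ℝ → (Fin r → ℝ) → ℂ) (V W : ℝ → G → G → ℂ) (Q S : Set (Fin r → ℝ)) (η : ℝ)
    (hker : Continuous fun z : ℝ × (Fin r → ℝ) => ker z.1 z.2)
    (kper : ∀ τ θ (n : Fin r → ℤ), ker τ (θ + fun i => (n i : ℝ)) = ker τ θ)
    (kb : ∃ C : ℝ, ∀ τ θ, ‖ker τ θ‖ ≤ C)
    (hV : Continuous fun z : ℝ × G × G => V z.1 z.2.1 z.2.2)
    (hW : Continuous fun z : ℝ × G × G => W z.1 z.2.1 z.2.2)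
    (Vb : ∃ C : ℝ, ∀ t h g, ‖V t h g‖ ≤ C) (Wb : ∃ C : ℝ, ∀ t h g, ‖W t h g‖ ≤ C)
    (hQ : MeasurableSet Q) (hS : MeasurableSet S) (hQ1 : Q ⊆ Set.Icc 0 1) (hS1 : S ⊆ Set.Icc 0 1)
    (hQ0 : 0 < volume.real Q) (hη : 0 ≤ η)
    (hk : ∀ φ ∈ Q, ∀ θ ∈ Set.Icc (0 : Fin r → ℝ) 1, θ ∉ S → ∀ τ, ‖ker τ (θ - φ)‖ ≤ η) :
    ‖∫ t, ∫ s, ∫ h, ∫ g, (∫ θ in Set.Icc (0 : Fin r → ℝ) 1,
        ker (t - s) θ * (V s h g * conj (W t h (g * T θ)))) ∂μ ∂μ ∂ℓ ∂ℓ‖ ≤
      1 / volume.real Q * ‖∫ h, ∫ g, (∫ t, ∫ s, (∫ φ in Set.Icc (0 : Fin r → ℝ) 1,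
        ∫ θ in Set.Icc (0 : Fin r → ℝ) 1, ker (t - s) (θ - φ) *
          (Q.indicator (fun φ => V s h (g * T φ)) φ *
            conj (S.indicator (fun θ => W t h (g * T θ)) θ))) ∂ℓ ∂ℓ) ∂μ ∂μ‖ +
      η * ∫ t, ∫ s, ∫ h, ∫ g, (∫ θ in Set.Icc (0 : Fin r → ℝ) 1,
        ‖V s h g‖ * ‖W t h (g * T θ)‖) ∂μ ∂μ ∂ℓ ∂ℓ := by
  have hνf : IsFiniteMeasure (volume.restrict (Set.Icc (0 : Fin r → ℝ) 1)) :=
    isFiniteMeasure_restrict.2 isCompact_Icc.measure_lt_top.ne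
  set ν : Measure (Fin r → ℝ) := volume.restrict (Set.Icc (0 : Fin r → ℝ) 1) with hν
  set D : Set (Fin r → ℝ) := Set.Icc 0 1 \ S with hD
  have hDm : MeasurableSet D := measurableSet_Icc.diff hS
  -- the basic function
  set B : (Fin r → ℝ) × ℝ × ℝ × G × G × (Fin r → ℝ) → ℂ := fun z =>
    ker (z.2.1 - z.2.2.1) (z.2.2.2.2.2 - z.1) * (V z.2.2.1 z.2.2.2.1 (z.2.2.2.2.1 * T z.1) *
      conj (W z.2.1 z.2.2.2.1 (z.2.2.2.2.1 * T z.2.2.2.2.2))) with hB
  have c1 : Continuous fun z : (Fin r → ℝ) × ℝ × ℝ × G × G × (Fin r → ℝ) =>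
      V z.2.2.1 z.2.2.2.1 (z.2.2.2.2.1 * T z.1) :=
    hV.comp (f := fun z : (Fin r → ℝ) × ℝ × ℝ × G × G × (Fin r → ℝ) =>
      (z.2.2.1, z.2.2.2.1, z.2.2.2.2.1 * T z.1)) (by fun_prop)
  have c2 : Continuous fun z : (Fin r → ℝ) × ℝ × ℝ × G × G × (Fin r → ℝ) =>
      W z.2.1 z.2.2.2.1 (z.2.2.2.2.1 * T z.2.2.2.2.2) :=
    hW.comp (f := fun z : (Fin r → ℝ) × ℝ × ℝ × G × G × (Fin r → ℝ) =>
      (z.2.1, z.2.2.2.1, z.2.2.2.2.1 * T z.2.2.2.2.2)) (by fun_prop)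
  have c3 : Continuous fun z : (Fin r → ℝ) × ℝ × ℝ × G × G × (Fin r → ℝ) =>
      ker (z.2.1 - z.2.2.1) (z.2.2.2.2.2 - z.1) :=
    hker.comp (f := fun z : (Fin r → ℝ) × ℝ × ℝ × G × G × (Fin r → ℝ) =>
      (z.2.1 - z.2.2.1, z.2.2.2.2.2 - z.1)) (by fun_prop)
  obtain ⟨Ck, hCk⟩ := kb
  obtain ⟨CV, hCV⟩ := Vb
  obtain ⟨CW, hCW⟩ := Wb
  have hBM : BM B := by
    refine ⟨(c3.mul (c1.mul (Complex.continuous_conj.comp c2))).stronglyMeasurable,
      |Ck| * (|CV| * |CW|), fun z => ?_⟩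
    simp only [hB, norm_mul, RCLike.norm_conj]
    exact mul_le_mul ((hCk _ _).trans (le_abs_self _))
      (mul_le_mul ((hCV _ _ _).trans (le_abs_self _)) ((hCW _ _ _).trans (le_abs_self _))
        (norm_nonneg _) (abs_nonneg _)) (by positivity) (abs_nonneg _)
  set FQ : Set (Fin r → ℝ) → (Fin r → ℝ) × ℝ × ℝ × G × G × (Fin r → ℝ) → ℂ := fun A z =>
    cR Q z.1 • (cR A z.2.2.2.2.2 • B z) with hFQ
  have hFm : ∀ A : Set (Fin r → ℝ), MeasurableSet A → BM (FQ A) := fun A hA =>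
    ((bm_cR hQ).comp (g := fun z : (Fin r → ℝ) × ℝ × ℝ × G × G × (Fin r → ℝ) => z.1)
      (by fun_prop)).smul (((bm_cR hA).comp
      (g := fun z : (Fin r → ℝ) × ℝ × ℝ × G × G × (Fin r → ℝ) => z.2.2.2.2.2)
      (by fun_prop)).smul hBM)
  set P := ν.prod (ℓ.prod (ℓ.prod (μ.prod (μ.prod ν)))) with hP
  -- the whole integral
  set TXv : ℂ := ∫ t, ∫ s, ∫ h, ∫ g, (∫ θ, ker (t - s) θ * (V s h g * conj (W t h (g * T θ)))
    ∂ν) ∂μ ∂μ ∂ℓ ∂ℓ with hTX
  have s1 : ∫ z, FQ (Set.Icc 0 1) z ∂P = volume.real Q • TXv := by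
    rw [hP, iter6 ν ℓ ℓ μ μ ν (hFm _ measurableSet_Icc), hTX,
      ← avg μ ℓ T tadd tint (fun t s h x y θ => ker (t - s) θ * (V s h x * conj (W t h y)))
      (fun t s h x y θ n => by rw [kper]) Q hQ hQ1]
    refine integral_congr_ae (Eventually.of_forall fun φ => ?_)
    refine integral_congr_ae (Eventually.of_forall fun t => ?_)
    refine integral_congr_ae (Eventually.of_forall fun s => ?_)
    refine integral_congr_ae (Eventually.of_forall fun h => ?_)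
    refine integral_congr_ae (Eventually.of_forall fun g => ?_)
    refine setIntegral_congr_fun measurableSet_Icc fun θ hθ => ?_
    simp only [hFQ, hB]
    rw [show cR (Set.Icc (0 : Fin r → ℝ) 1) θ = 1 from Set.indicator_of_mem hθ _, one_smul]
  -- the cell
  have s2 : ∫ z, FQ S z ∂P = ∫ h, ∫ g, (∫ t, ∫ s, ∫ φ, ∫ θ, ker (t - s) (θ - φ) *
          (Q.indicator (fun φ => V s h (g * T φ)) φ *
            conj (S.indicator (fun θ => W t h (g * T θ)) θ)) ∂ν ∂ν ∂ℓ ∂ℓ) ∂μ ∂μ := by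
    rw [hP, iter6 ν ℓ ℓ μ μ ν (hFm _ hS), reord ν ℓ ℓ μ μ ν (hFm _ hS)]
    refine integral_congr_ae (Eventually.of_forall fun h => ?_)
    refine integral_congr_ae (Eventually.of_forall fun g => ?_)
    refine integral_congr_ae (Eventually.of_forall fun t => ?_)
    refine integral_congr_ae (Eventually.of_forall fun s => ?_)
    refine integral_congr_ae (Eventually.of_forall fun φ => ?_)
    refine integral_congr_ae (Eventually.of_forall fun θ => ?_)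
    simp only [hFQ, hB, cR]
    by_cases h1 : φ ∈ Q
    · by_cases h2 : θ ∈ S
      · simp only [Set.indicator_of_mem h1, Set.indicator_of_mem h2, one_smul]
      · simp only [Set.indicator_of_notMem h2, zero_smul, smul_zero, map_zero, mul_zero]
    · simp only [Set.indicator_of_notMem h1, zero_smul, zero_mul, mul_zero]
  -- the rest
  set R : ℝ := ∫ t, ∫ s, ∫ h, ∫ g, (∫ θ, ‖V s h g‖ * ‖W t h (g * T θ)‖ ∂ν) ∂μ ∂μ ∂ℓ ∂ℓ with hR
  have s3 : ‖∫ z, FQ D z ∂P‖ ≤ volume.real Q * (η * R) := by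
    set K : (Fin r → ℝ) × ℝ × ℝ × G × G × (Fin r → ℝ) → ℝ := fun z =>
      cR Q z.1 • (η * (‖V z.2.2.1 z.2.2.2.1 (z.2.2.2.2.1 * T z.1)‖ *
        ‖W z.2.1 z.2.2.2.1 (z.2.2.2.2.1 * T z.2.2.2.2.2)‖)) with hK
    have hKm : BM K := by
      refine BM.smul ((bm_cR hQ).comp
        (g := fun z : (Fin r → ℝ) × ℝ × ℝ × G × G × (Fin r → ℝ) => z.1) (by fun_prop)) ?_
      refine ⟨(continuous_const.mul (c1.norm.mul c2.norm)).stronglyMeasurable,
        η * (|CV| * |CW|), fun z => ?_⟩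
      rw [Real.norm_of_nonneg (by positivity)]
      exact mul_le_mul_of_nonneg_left (mul_le_mul ((hCV _ _ _).trans (le_abs_self _))
        ((hCW _ _ _).trans (le_abs_self _)) (norm_nonneg _) (abs_nonneg _)) hη
    have h1 : ‖∫ z, FQ D z ∂P‖ ≤ ∫ z, K z ∂P := by
      refine norm_integral_le_of_norm_le (hKm.integrable _) (Eventually.of_forall fun z => ?_)
      simp only [hFQ, hK, norm_smul, smul_eq_mul, Real.norm_of_nonneg (cR_nonneg _ _)]
      by_cases h1 : z.1 ∈ Q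
      · refine mul_le_mul_of_nonneg_left ?_ (cR_nonneg _ _)
        by_cases h2 : z.2.2.2.2.2 ∈ D
        · rw [show cR D z.2.2.2.2.2 = 1 from Set.indicator_of_mem h2 _, one_mul]
          simp only [hB, norm_mul, RCLike.norm_conj]
          exact mul_le_mul_of_nonneg_right (hk _ h1 _ h2.1 h2.2 _) (by positivity)
        · rw [show cR D z.2.2.2.2.2 = 0 from Set.indicator_of_notMem h2 _, zero_mul]
          positivity
      · rw [show cR Q z.1 = 0 from Set.indicator_of_notMem h1 _, zero_mul, zero_mul]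
    refine h1.trans (le_of_eq ?_)
    have h2 := avg μ ℓ T tadd tint (fun t s h x y θ => η * (‖V s h x‖ * ‖W t h y‖))
      (fun t s h x y θ n => rfl) Q hQ hQ1
    rw [hP, iter6 ν ℓ ℓ μ μ ν hKm]
    refine h2.trans ?_
    rw [hR]
    simp only [integral_const_mul, smul_eq_mul, hν]
  have s4 : ∫ z, FQ (Set.Icc 0 1) z ∂P = ∫ z, FQ S z ∂P + ∫ z, FQ D z ∂P := by
    rw [← integral_add ((hFm _ hS).integrable _) ((hFm _ hDm).integrable _)]
    refine integral_congr_ae (Eventually.of_forall fun z => ?_)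
    simp only [hFQ]
    rw [← smul_add, ← add_smul]
    congr 2
    unfold cR
    by_cases h1 : z.2.2.2.2.2 ∈ S
    · have h2 : z.2.2.2.2.2 ∉ D := fun h => h.2 h1
      rw [Set.indicator_of_mem h1, Set.indicator_of_notMem h2, Set.indicator_of_mem (hS1 h1), add_zero]
    · by_cases h3 : z.2.2.2.2.2 ∈ Set.Icc (0 : Fin r → ℝ) 1
      · have h2 : z.2.2.2.2.2 ∈ D := ⟨h3, h1⟩
        rw [Set.indicator_of_notMem h1, Set.indicator_of_mem h2, Set.indicator_of_mem h3, zero_add]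
      · have h2 : z.2.2.2.2.2 ∉ D := fun h => h3 h.1
        rw [Set.indicator_of_notMem h1, Set.indicator_of_notMem h2, Set.indicator_of_notMem h3, zero_add]
  rw [← s2]
  have h5 : volume.real Q * ‖TXv‖ ≤ ‖∫ z, FQ S z ∂P‖ + volume.real Q * (η * R) := by
    have h6 : ‖volume.real Q • TXv‖ = volume.real Q * ‖TXv‖ := by
      rw [norm_smul, Real.norm_of_nonneg hQ0.le]
    rw [← h6, ← s1, s4]
    exact (norm_add_le _ _).trans (by linarith)
  have h7 : ‖TXv‖ = 1 / volume.real Q * (volume.real Q * ‖TXv‖) := by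
    field_simp
  rw [h7]
  calc 1 / volume.real Q * (volume.real Q * ‖TXv‖) ≤
      1 / volume.real Q * (‖∫ z, FQ S z ∂P‖ + volume.real Q * (η * R)) :=
        mul_le_mul_of_nonneg_left h5 (by positivity)
    _ = _ := by field_simp

end core

theorem bdV {G : Type} [TopologicalSpace G] [CompactSpace G] (V : ℝ → G → G → ℂ)
    (hV : Continuous fun z : ℝ × G × G => V z.1 z.2.1 z.2.2) :
    ∃ C : ℝ, ∀ t h g, ‖V (max 0 (min 1 t)) h g‖ ≤ C := by
  obtain ⟨C, hC⟩ := ((isCompact_Icc (a := (0 : ℝ)) (b := 1)).prod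
    (isCompact_univ (X := G × G))).exists_bound_of_continuousOn hV.continuousOn
  refine ⟨C, fun t h g => hC (max 0 (min 1 t), h, g) ⟨?_, Set.mem_univ _⟩⟩
  exact ⟨le_max_left _ _, max_le zero_le_one (min_le_left _ _)⟩

theorem bdk {r : ℕ} (ker : ℝ → (Fin r → ℝ) → ℂ)
    (hker : Continuous fun z : ℝ × (Fin r → ℝ) => ker z.1 z.2)
    (kper : ∀ τ θ (n : Fin r → ℤ), ker τ (θ + fun i => (n i : ℝ)) = ker τ θ) :
    ∃ C : ℝ, ∀ τ θ, ‖ker (max (-1) (min 1 τ)) θ‖ ≤ C := by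
  obtain ⟨C, hC⟩ := ((isCompact_Icc (a := (-1 : ℝ)) (b := 1)).prod
    (isCompact_Icc (a := (0 : Fin r → ℝ)) (b := 1))).exists_bound_of_continuousOn hker.continuousOn
  refine ⟨C, fun τ θ => ?_⟩
  have h1 : ker (max (-1) (min 1 τ)) θ = ker (max (-1) (min 1 τ)) fun i => Int.fract (θ i) := by
    rw [← kper _ (fun i => Int.fract (θ i)) fun i => ⌊θ i⌋]
    congr 1
    funext i
    simp only [Pi.add_apply, Int.fract_add_floor]
  rw [h1]
  refine hC (max (-1) (min 1 τ), fun i => Int.fract (θ i)) ⟨⟨le_max_left _ _,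
    max_le (by norm_num) (min_le_left _ _)⟩, fun i => Int.fract_nonneg _, fun i =>
    (Int.fract_lt_one _).le⟩

end CLL

open CLL in
theorem t_CLL : M_CLL := by
  intro hHAAR hPSF N H r Φ B Hc E c k d hCX μ _ _ ker V W Q S η hker kper hV hW hQ hS hQ1 hS1 hQ0 hη hk
  have hcl := hCX.closed
  have hcs : CompactSpace H := isCompact_iff_compactSpace.1 hcl.isCompact
  have hsec : SecondCountableTopology H :=
    inferInstanceAs (SecondCountableTopology ((H : Set (SU N)) : Type))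
  obtain ⟨hR, -, -⟩ := hHAAR H μ
  obtain ⟨CP, hCP, P⟩ := hPSF N H r Φ B Hc E c k d hCX
  have hℓ : IsFiniteMeasure (volume.restrict (Set.Ioc (0 : ℝ) 1)) :=
    isFiniteMeasure_restrict.2 (by simp)
  have hmain := core μ (volume.restrict (Set.Ioc (0 : ℝ) 1)) (tt H Hc) P.tcont P.tadd P.tint
    (fun τ θ => ker (max (-1) (min 1 τ)) θ) (fun t h g => V (max 0 (min 1 t)) h g)
    (fun t h g => W (max 0 (min 1 t)) h g) Q S η
    (hker.comp (f := fun z : ℝ × (Fin r → ℝ) => (max (-1) (min 1 z.1), z.2)) (by fun_prop))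
    (fun τ θ n => kper _ _ _) (bdk ker hker kper)
    (Continuous.comp hV (f := fun z : ℝ × H × H => (max 0 (min 1 z.1), z.2.1, z.2.2)) (by fun_prop))
    (Continuous.comp hW (f := fun z : ℝ × H × H => (max 0 (min 1 z.1), z.2.1, z.2.2)) (by fun_prop))
    (bdV V hV) (bdV W hW) hQ hS hQ1 hS1 hQ0 hη (fun φ hφ θ hθ hθS τ => hk φ hφ θ hθ hθS _)
  have e0 : ∀ t ∈ Set.Ioc (0 : ℝ) 1, max 0 (min 1 t) = t := fun t ht => by
    rw [min_eq_right ht.2, max_eq_right ht.1.le]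
  have e1 : ∀ t ∈ Set.Ioc (0 : ℝ) 1, ∀ s ∈ Set.Ioc (0 : ℝ) 1, max (-1) (min 1 (t - s)) = t - s :=
    fun t ht s hs => by
      rw [min_eq_right (by linarith [ht.2, hs.1]), max_eq_right (by linarith [ht.1, hs.2])]
  have f1 : (∫ t in Set.Ioc (0 : ℝ) 1, ∫ s in Set.Ioc (0 : ℝ) 1, ∫ h, ∫ g,
      (∫ θ in Set.Icc (0 : Fin r → ℝ) 1, ker (max (-1) (min 1 (t - s))) θ *
        (V (max 0 (min 1 s)) h g * conj (W (max 0 (min 1 t)) h (g * tt H Hc θ)))) ∂μ ∂μ) =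
      TX Hc μ ker V W := by
    unfold TX
    simp only [intervalIntegral.integral_of_le zero_le_one]
    refine setIntegral_congr_fun measurableSet_Ioc fun t ht => ?_
    refine setIntegral_congr_fun measurableSet_Ioc fun s hs => ?_
    simp only [e0 t ht, e0 s hs, e1 t ht s hs]
  have f2 : (∫ h, ∫ g, (∫ t in Set.Ioc (0 : ℝ) 1, ∫ s in Set.Ioc (0 : ℝ) 1,
      (∫ φ in Set.Icc (0 : Fin r → ℝ) 1, ∫ θ in Set.Icc (0 : Fin r → ℝ) 1,
        ker (max (-1) (min 1 (t - s))) (θ - φ) *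
          (Q.indicator (fun φ => V (max 0 (min 1 s)) h (g * tt H Hc φ)) φ *
            conj (S.indicator (fun θ => W (max 0 (min 1 t)) h (g * tt H Hc θ)) θ)))) ∂μ ∂μ) =
      ∫ h, ∫ g, (∫ t in (0 : ℝ)..1, ∫ s in (0 : ℝ)..1,
        ∫ φ in Set.Icc (0 : Fin r → ℝ) 1, ∫ θ in Set.Icc (0 : Fin r → ℝ) 1,
          ker (t - s) (θ - φ) * (uq Hc Q V h g s φ * conj (uq Hc S W h g t θ))) ∂μ ∂μ := by
    simp only [intervalIntegral.integral_of_le zero_le_one]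
    refine integral_congr_ae (Eventually.of_forall fun h => ?_)
    refine integral_congr_ae (Eventually.of_forall fun g => ?_)
    refine setIntegral_congr_fun measurableSet_Ioc fun t ht => ?_
    refine setIntegral_congr_fun measurableSet_Ioc fun s hs => ?_
    simp only [e0 t ht, e0 s hs, e1 t ht s hs, uq]
  have f3 : (∫ t in Set.Ioc (0 : ℝ) 1, ∫ s in Set.Ioc (0 : ℝ) 1, ∫ h, ∫ g,
      (∫ θ in Set.Icc (0 : Fin r → ℝ) 1,
        ‖V (max 0 (min 1 s)) h g‖ * ‖W (max 0 (min 1 t)) h (g * tt H Hc θ)‖) ∂μ ∂μ) =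
      ∫ t in (0 : ℝ)..1, ∫ s in (0 : ℝ)..1, ∫ h, ∫ g, (∫ θ in Set.Icc (0 : Fin r → ℝ) 1,
        ‖V s h g‖ * ‖W t h (g * tt H Hc θ)‖) ∂μ ∂μ := by
    simp only [intervalIntegral.integral_of_le zero_le_one]
    refine setIntegral_congr_fun measurableSet_Ioc fun t ht => ?_
    refine setIntegral_congr_fun measurableSet_Ioc fun s hs => ?_
    simp only [e0 t ht, e0 s hs]
  rw [← f1, ← f2, ← f3]
  exact hmain

end

end STZ3
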