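import Pool.Agent.STZ3.StmtsT3

/-!
# Compact simple groups of rank two: module CNT (helper9)
-/

namespace STZ3

open STZ LGR MeasureTheory Matrix Filter

open scoped ComplexConjugate Matrix Real Topology

noncomputable section

namespace CNT

theorem nr_neg {R : ℕ} {δ x : ℝ} (h : nr R δ x) : nr R δ (-x) := by
  obtain ⟨q, a, h1, h2, h3⟩ := h
  refine ⟨q, -a, h1, h2, ?_⟩
  have : -x - ((-a : ℤ) : ℝ) / q = -(x - a / q) := by push_cast; ring
  rw [this, abs_neg]
  exact h3

theorem nr_neg_iff (R : ℕ) (δ x : ℝ) : nr R δ (-x) ↔ nr R δ x :=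
  ⟨fun h => by have := nr_neg h; rwa [neg_neg] at this, nr_neg⟩

theorem symm (R L : ℕ) : (cM R L).IsSymm := by
  unfold Matrix.IsSymm
  ext i j
  simp only [Matrix.transpose_apply, cM, Matrix.of_apply]
  have h : ((j.val : ℝ) - (i.val : ℝ)) / L = -(((i.val : ℝ) - (j.val : ℝ)) / L) := by ring
  have h' := nr_neg_iff R (3 / L) (((i.val : ℝ) - (j.val : ℝ)) / L)
  rw [← h] at h'
  by_cases hc : nr R (3 / L) (((i.val : ℝ) - (j.val : ℝ)) / L)
  · rw [if_pos hc, if_pos (h'.2 hc)]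
  · rw [if_neg hc, if_neg (fun h2 => hc (h'.1 h2))]

theorem nonneg (R L : ℕ) (i j : Fin L) : 0 ≤ cM R L i j := by
  simp only [cM, Matrix.of_apply]
  split_ifs <;> norm_num

theorem pow_nonneg (R L n : ℕ) (i j : Fin L) : 0 ≤ (cM R L ^ n) i j := by
  induction n generalizing i j with
  | zero =>
    rw [pow_zero, Matrix.one_apply]
    split_ifs <;> norm_num
  | succ n ih =>
    rw [pow_succ, Matrix.mul_apply]
    exact Finset.sum_nonneg fun l _ => mul_nonneg (ih i l) (nonneg R L l j)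

end CNT

theorem t_CNT : M_CNT := by
  intro hENT hSPE s ε hs1 hs2 hε
  obtain ⟨k, hk⟩ := exists_nat_gt (s / (2 * (2 - s)))
  have h2s : 0 < 2 * (2 - s) := by linarith
  rw [div_lt_iff₀ h2s] at hk
  have hk1 : 1 ≤ k := by
    by_contra h
    have : k = 0 := by omega
    subst this
    simp only [Nat.cast_zero, zero_mul] at hk
    linarith
  have hkr : (1 : ℝ) ≤ k := by exact_mod_cast hk1
  have hsk : s * (2 * k + 1) < 4 * k := by nlinarith
  have hk0 : (0 : ℝ) < 2 * k := by linarith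
  obtain ⟨K, C1, hC1, h1⟩ := hENT (2 * k) (2 * k * ε) (by omega) (by positivity)
  obtain ⟨C2, hC2, h2⟩ := hSPE k s hk1 hs1 hsk
  refine ⟨max K (2 * k), C2 * C1 ^ (1 / (2 * (k : ℝ))), le_trans (by omega) (le_max_right _ _),
    by positivity, ?_⟩
  intro R L hR hL F hF
  have hR' : (1 : ℝ) ≤ R := by exact_mod_cast hR
  have hR0 : (0 : ℝ) ≤ R := by linarith
  have hL' : K * R ^ (2 * k) ≤ L :=
    le_trans (Nat.mul_le_mul (le_max_left _ _) (Nat.pow_le_pow_right hR (le_max_right _ _))) hL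
  have hB := h1 R L hR hL'
  have h3 := h2 L (cM R L) (C1 * (R : ℝ) ^ (((2 * k : ℕ) : ℝ) + 2 * k * ε)) (CNT.symm R L)
    (by positivity) (fun i j => by rw [abs_of_nonneg (CNT.pow_nonneg R L _ i j)]; exact hB i j) F hF
  refine (le_abs_self _).trans (h3.trans (le_of_eq ?_))
  congr 1
  rw [Real.mul_rpow hC1 (by positivity), ← Real.rpow_mul hR0, ← mul_assoc]
  congr 2
  push_cast
  field_simp

end

end STZ3
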