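import Pool.Agent.STZ3.StS
import Pool.Agent.STZ.FEJA

/-!
# Module CFA: the Fourier coefficients of the spatial cutoffs
-/

namespace STZ3

open STZ LGR MeasureTheory Matrix Filter

open scoped ComplexConjugate Matrix Real Topology

noncomputable section

namespace CFA

/-- the exponentials -/
def xp (k : ℤ) (z : ℂ) : ℂ := Complex.exp (2 * π * Complex.I * k * z)

theorem xp_add (j k : ℤ) (z : ℂ) : xp (j + k) z = xp j z * xp k z := by
  unfold xp
  rw [← Complex.exp_add]
  congr 1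
  push_cast
  ring

/-- `F` is a trigonometric polynomial with the coefficients `a`, of degree `n`, and bounds for the
sum, the supremum and the variation -/
structure TP (F : ℂ → ℂ) (a : ℤ → ℂ) (n : ℕ) (α σ : ℝ) : Prop where
  supp : ∀ k : ℤ, (n : ℤ) < |k| → a k = 0
  abs : ∀ S : Finset ℤ, ∑ k ∈ S, ‖a k‖ ≤ α
  sup : ∀ k, ‖a k‖ ≤ σ
  var : ∀ S : Finset ℤ, ∑ k ∈ S, ‖a k - a (k - 1)‖ ≤ σ
  ev : ∀ z, HasSum (fun k : ℤ => a k * xp k z) (F z)

variable {F G : ℂ → ℂ} {a b : ℤ → ℂ} {n n' : ℕ} {α α' σ σ' : ℝ}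

theorem TP.nn (h : TP F a n α σ) : 0 ≤ α := by
  have := h.abs ∅
  simpa using this

theorem TP.nn' (h : TP F a n α σ) : 0 ≤ σ := (norm_nonneg _).trans (h.sup 0)

theorem TP.mono (h : TP F a n α σ) (h1 : n ≤ n') (h2 : α ≤ α') (h3 : σ ≤ σ') :
    TP F a n' α' σ' where
  supp k hk := h.supp k (lt_of_le_of_lt (by exact_mod_cast h1) hk)
  abs S := (h.abs S).trans h2
  sup k := (h.sup k).trans h3
  var S := (h.var S).trans h3
  ev := h.ev

theorem TP.sum_eq (h : TP F a n α σ) (K : ℕ) (hK : n ≤ K) (z : ℂ) :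
    ∑ k ∈ Finset.Icc (-(K : ℤ)) K, a k * xp k z = F z := by
  refine (hasSum_sum_of_ne_finset_zero fun k hk => ?_).unique (h.ev z)
  rw [h.supp k, zero_mul]
  rw [Finset.mem_Icc, ← abs_le, not_le] at hk
  exact lt_of_le_of_lt (by exact_mod_cast hK) hk

theorem TP.add (hF : TP F a n α σ) (hG : TP G b n' α' σ') :
    TP (fun z => F z + G z) (fun k => a k + b k) (max n n') (α + α') (σ + σ') where
  supp k hk := by
    rw [hF.supp k, hG.supp k, add_zero]
    · exact lt_of_le_of_lt (by exact_mod_cast le_max_right n n') hk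
    · exact lt_of_le_of_lt (by exact_mod_cast le_max_left n n') hk
  abs S := by
    refine (Finset.sum_le_sum fun k _ => norm_add_le (a k) (b k)).trans ?_
    rw [Finset.sum_add_distrib]
    exact add_le_add (hF.abs S) (hG.abs S)
  sup k := (norm_add_le _ _).trans (add_le_add (hF.sup k) (hG.sup k))
  var S := by
    have h1 : ∀ k ∈ S, ‖(a k + b k) - (a (k - 1) + b (k - 1))‖ ≤
        ‖a k - a (k - 1)‖ + ‖b k - b (k - 1)‖ := fun k _ => by
      rw [add_sub_add_comm]
      exact norm_add_le _ _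
    refine (Finset.sum_le_sum h1).trans ?_
    rw [Finset.sum_add_distrib]
    exact add_le_add (hF.var S) (hG.var S)
  ev z := by
    have h := (hF.ev z).add (hG.ev z)
    simpa only [add_mul] using h

theorem TP.neg (hF : TP F a n α σ) : TP (fun z => -F z) (fun k => -a k) n α σ where
  supp k hk := by rw [hF.supp k hk, neg_zero]
  abs S := by simpa only [norm_neg] using hF.abs S
  sup k := by simpa only [norm_neg] using hF.sup k
  var S := by
    have h1 : ∀ k, ‖-a k - -a (k - 1)‖ = ‖a k - a (k - 1)‖ := fun k => by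
      rw [neg_sub_neg, norm_sub_rev]
    simpa only [h1] using hF.var S
  ev z := by
    have h := (hF.ev z).neg
    simpa only [neg_mul] using h

theorem shift (f : ℤ → ℝ) (hf : ∀ S : Finset ℤ, ∑ k ∈ S, f k ≤ α) (j : ℤ) (S : Finset ℤ) :
    ∑ k ∈ S, f (k - j) ≤ α := by
  have h := hf (S.map (Equiv.subRight j).toEmbedding)
  rwa [Finset.sum_map] at h

theorem TP.conv (hF : TP F a n α σ) (f : ℤ → ℤ → ℝ) (hf : ∀ j S, ∑ k ∈ S, f j k ≤ α')
    (h0 : 0 ≤ α') (S : Finset ℤ) (g : ℤ → ℂ)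
    (hg : ∀ k, ‖g k‖ ≤ ∑ j ∈ Finset.Icc (-(n : ℤ)) n, ‖a j‖ * f j k) :
    ∑ k ∈ S, ‖g k‖ ≤ α * α' := by
  refine (Finset.sum_le_sum fun k _ => hg k).trans ?_
  rw [Finset.sum_comm]
  have h1 : ∀ j ∈ Finset.Icc (-(n : ℤ)) n, ∑ k ∈ S, ‖a j‖ * f j k ≤ ‖a j‖ * α' := fun j _ => by
    rw [← Finset.mul_sum]
    exact mul_le_mul_of_nonneg_left (hf j S) (norm_nonneg _)
  refine (Finset.sum_le_sum h1).trans ?_
  rw [← Finset.sum_mul]
  exact mul_le_mul_of_nonneg_right (hF.abs _) h0

theorem TP.mul (hF : TP F a n α σ) (hG : TP G b n' α' σ') :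
    TP (fun z => F z * G z) (fun k => ∑ j ∈ Finset.Icc (-(n : ℤ)) n, a j * b (k - j)) (n + n')
      (α * α') (α * σ') where
  supp k hk := by
    refine Finset.sum_eq_zero fun j hj => ?_
    rw [Finset.mem_Icc, ← abs_le] at hj
    rw [hG.supp (k - j), mul_zero]
    have h1 := abs_sub_abs_le_abs_sub k j
    push_cast at hk
    omega
  abs S := by
    refine hF.conv (fun j k => ‖b (k - j)‖) (fun j S => shift (fun k => ‖b k‖) hG.abs j S) hG.nn S
      (fun k => ∑ j ∈ Finset.Icc (-(n : ℤ)) n, a j * b (k - j)) fun k => ?_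
    refine (norm_sum_le _ _).trans (Finset.sum_le_sum fun j _ => ?_)
    rw [norm_mul]
  sup k := by
    refine (norm_sum_le _ _).trans ?_
    have h1 : ∀ j ∈ Finset.Icc (-(n : ℤ)) n, ‖a j * b (k - j)‖ ≤ ‖a j‖ * σ' := fun j _ => by
      rw [norm_mul]
      exact mul_le_mul_of_nonneg_left (hG.sup _) (norm_nonneg _)
    refine (Finset.sum_le_sum h1).trans ?_
    rw [← Finset.sum_mul]
    exact mul_le_mul_of_nonneg_right (hF.abs _) hG.nn'
  var S := by
    refine hF.conv (fun j k => ‖b (k - j) - b (k - j - 1)‖)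
      (fun j S => shift (fun k => ‖b k - b (k - 1)‖) hG.var j S) hG.nn' S
      (fun k => ∑ j ∈ Finset.Icc (-(n : ℤ)) n, a j * b (k - j) -
        ∑ j ∈ Finset.Icc (-(n : ℤ)) n, a j * b (k - 1 - j)) fun k => ?_
    rw [← Finset.sum_sub_distrib]
    refine (norm_sum_le _ _).trans (Finset.sum_le_sum fun j _ => ?_)
    rw [← mul_sub, norm_mul, sub_right_comm k 1 j]
  ev z := by
    have h1 : ∀ j ∈ Finset.Icc (-(n : ℤ)) n, HasSum (fun k : ℤ => a j * b (k - j) * xp k z)
        (a j * xp j z * G z) := by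
      intro j _
      have h2 : HasSum (fun k : ℤ => a j * xp j z * (b (k - j) * xp (k - j) z))
          (a j * xp j z * G z) :=
        ((Equiv.subRight j).hasSum_iff.2 (hG.ev z)).mul_left (a j * xp j z)
      have e : (fun k : ℤ => a j * xp j z * (b (k - j) * xp (k - j) z)) =
          fun k : ℤ => a j * b (k - j) * xp k z := by
        funext k
        have h3 : xp k z = xp j z * xp (k - j) z := by
          rw [← xp_add, add_sub_cancel]
        rw [h3]
        ring
      rwa [e] at h2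
    have h3 := hasSum_sum h1
    rw [← Finset.sum_mul, hF.sum_eq n le_rfl z] at h3
    simpa only [Finset.sum_mul] using h3

theorem orth (j k : ℤ) : ∫ y in (0 : ℝ)..1, xp j y * eu (-(k * y)) = if j = k then 1 else 0 := by
  have h1 : ∀ y : ℝ, xp j y * eu (-(k * y)) =
      Complex.exp ((2 * π * Complex.I * ((j - k : ℤ) : ℂ)) * (y : ℂ)) := by
    intro y
    unfold xp eu
    rw [← Complex.exp_add]
    congr 1
    push_cast
    ring
  simp only [h1]
  split_ifs with h
  · subst h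
    simp
  · have h2 : (2 * π * Complex.I * ((j - k : ℤ) : ℂ)) ≠ 0 := by
      have h3 : ((j - k : ℤ) : ℂ) ≠ 0 := by
        rw [Int.cast_ne_zero]
        exact sub_ne_zero.2 h
      exact mul_ne_zero Complex.two_pi_I_ne_zero h3
    rw [integral_exp_mul_complex h2]
    have h3 : Complex.exp (2 * π * Complex.I * ((j - k : ℤ) : ℂ) * ((1 : ℝ) : ℂ)) = 1 := by
      rw [Complex.ofReal_one, mul_one, mul_comm]
      exact Complex.exp_int_mul_two_pi_mul_I (j - k)
    rw [h3, Complex.ofReal_zero, mul_zero, Complex.exp_zero, sub_self, zero_div]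

theorem TP.coef (h : TP F a n α σ) (k : ℤ) : ∫ y in (0 : ℝ)..1, F y * eu (-(k * y)) = a k := by
  have h1 : ∀ y : ℝ, F y * eu (-(k * y)) =
      ∑ j ∈ Finset.Icc (-(n : ℤ)) n, a j * (xp j y * eu (-(k * y))) := by
    intro y
    rw [← h.sum_eq n le_rfl y, Finset.sum_mul]
    exact Finset.sum_congr rfl fun j _ => mul_assoc _ _ _
  simp only [h1]
  rw [intervalIntegral.integral_finsetSum]
  · simp only [intervalIntegral.integral_const_mul, orth]
    simp only [mul_ite, mul_one, mul_zero]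
    rw [Finset.sum_ite_eq']
    split_ifs with h2
    · rfl
    · rw [Finset.mem_Icc, ← abs_le, not_le] at h2
      exact (h.supp k h2).symm
  · intro j _
    refine Continuous.intervalIntegrable ?_ _ _
    unfold xp eu
    fun_prop

theorem base (M : ℕ) (hM : 1 ≤ M) : TP (sg M) (fun k => (fj M k : ℂ)) M 1 (2 / M) where
  supp k hk := by
    rw [FEJA.fj_zero M k hk.le, Complex.ofReal_zero]
  abs S := by
    have h1 : S ⊆ Finset.Icc (-((S.sup Int.natAbs : ℕ) : ℤ)) (S.sup Int.natAbs : ℕ) := by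
      intro k hk
      have h2 : k.natAbs ≤ S.sup Int.natAbs := Finset.le_sup hk
      rw [Finset.mem_Icc]
      omega
    have h2 : ∀ k : ℤ, ‖(fj M k : ℂ)‖ = fj M k := fun k => by
      rw [Complex.norm_real, Real.norm_eq_abs, abs_of_nonneg (FEJA.fj_nn M k)]
    simp only [h2]
    exact (Finset.sum_le_sum_of_subset_of_nonneg h1 fun k _ _ => FEJA.fj_nn M k).trans
      (FEJA.fj_sum _ M)
  sup k := by
    rw [Complex.norm_real, Real.norm_eq_abs, abs_of_nonneg (FEJA.fj_nn M k)]
    refine (FEJA.fj_le M k hM).trans ?_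
    gcongr
    norm_num
  var S := by
    have hM0 : (0 : ℝ) < M := by exact_mod_cast hM
    have h1 : ∀ k ∈ S, ‖(fj M k : ℂ) - (fj M (k - 1) : ℂ)‖ ≤
        if k ∈ Finset.Icc (-(M : ℤ) + 1) M then 1 / (M : ℝ) ^ 2 else 0 := by
      intro k _
      rw [← Complex.ofReal_sub, Complex.norm_real, Real.norm_eq_abs]
      split_ifs with h
      · have h2 := FEJA.fj_lip M (k - 1)
        rwa [sub_add_cancel] at h2
      · rw [Finset.mem_Icc] at h
        have h2 : (M : ℤ) ≤ |k| := by
          rw [le_abs]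
          omega
        have h3 : (M : ℤ) ≤ |k - 1| := by
          rw [le_abs]
          omega
        rw [FEJA.fj_zero M k h2, FEJA.fj_zero M _ h3, sub_zero, abs_zero]
    refine (Finset.sum_le_sum h1).trans ?_
    rw [← Finset.sum_filter, Finset.sum_const, nsmul_eq_mul]
    have h2 : (S.filter fun k => k ∈ Finset.Icc (-(M : ℤ) + 1) M).card ≤ 2 * M := by
      refine (Finset.card_le_card fun k hk => (Finset.mem_filter.1 hk).2).trans ?_
      rw [Int.card_Icc]
      omega
    have h3 : ((S.filter fun k => k ∈ Finset.Icc (-(M : ℤ) + 1) M).card : ℝ) ≤ 2 * M := by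
      exact_mod_cast h2
    calc _ ≤ (2 * (M : ℝ)) * (1 / (M : ℝ) ^ 2) := mul_le_mul_of_nonneg_right h3 (by positivity)
      _ = 2 / M := by
        field_simp
  ev z := by
    have h1 : sg M z = ∑ k ∈ Finset.Icc (-(M : ℤ)) M, (fj M k : ℂ) * xp k z := by
      unfold sg
      refine Finset.sum_congr rfl fun k hk => ?_
      rw [Finset.mem_Icc, ← abs_le] at hk
      have h2 : (0 : ℝ) ≤ (M : ℝ) - |(k : ℝ)| := by
        rw [sub_nonneg]
        exact_mod_cast hk
      rw [fj, max_eq_right h2]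
      rfl
    rw [h1]
    refine hasSum_sum_of_ne_finset_zero fun k hk => ?_
    rw [Finset.mem_Icc, ← abs_le, not_le] at hk
    rw [FEJA.fj_zero M k hk.le, Complex.ofReal_zero, zero_mul]

theorem TP.congr (h : TP F a n α σ) (e : ∀ z, F z = G z) : TP G a n α σ := by
  have : F = G := funext e
  rwa [← this]

/-- there are coefficients -/
def Has (F : ℂ → ℂ) (n : ℕ) (α σ : ℝ) : Prop := ∃ a, TP F a n α σ

theorem pow_sg (M : ℕ) (hM : 1 ≤ M) (i : ℕ) :
    Has (fun z => sg M z ^ (i + 1)) ((i + 1) * M) 1 (2 / M) := by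
  induction i with
  | zero =>
    exact ⟨_, ((base M hM).congr fun z => by rw [zero_add, pow_one]).mono (by simp) le_rfl le_rfl⟩
  | succ i ih =>
    obtain ⟨a, ha⟩ := ih
    refine ⟨_, ((ha.mul (base M hM)).congr fun z => ?_).mono ?_ (by simp) (by simp)⟩
    · rw [pow_succ (sg M z) (i + 1)]
    · exact le_of_eq (by ring)

theorem comb {g : ℂ → ℂ} (h : Has g n 1 σ) (j : ℕ) :
    Has (fun z => 1 - (1 - g z) ^ j) (j * n) (2 ^ j - 1) ((2 ^ j - 1) * σ) := by
  obtain ⟨b, hb⟩ := h
  induction j with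
  | zero =>
    refine ⟨fun _ => 0, ⟨fun _ _ => rfl, fun S => by simp, fun k => by simp, fun S => by simp,
      fun z => ?_⟩⟩
    simp only [zero_mul, pow_zero, sub_self]
    exact hasSum_zero
  | succ j ih =>
    obtain ⟨a, ha⟩ := ih
    have h1 := (ha.add hb).add (hb.mul ha).neg
    refine ⟨_, (h1.congr fun z => ?_).mono ?_ ?_ ?_⟩
    · ring
    · refine max_le (max_le ?_ ?_) ?_
      · exact Nat.mul_le_mul_right _ (Nat.le_succ j)
      · exact Nat.le_mul_of_pos_left _ (Nat.succ_pos j)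
      · exact le_of_eq (by ring)
    · rw [pow_succ]
      linarith
    · rw [pow_succ]
      linarith

theorem has_sM (m M : ℕ) (hm : 1 ≤ m) (hM : 1 ≤ M) :
    Has (sM m M) (m ^ 2 * M) (2 ^ m) (2 ^ m * (2 / M)) := by
  obtain ⟨i, rfl⟩ : ∃ i, m = i + 1 := ⟨m - 1, by omega⟩
  obtain ⟨a, ha⟩ := comb (pow_sg M hM i) (i + 1)
  refine ⟨a, (ha.congr fun z => rfl).mono (le_of_eq (by ring)) (by linarith) ?_⟩
  have : (0 : ℝ) ≤ 2 / M := by positivity
  nlinarith

theorem has_fx (m J x : ℕ) (hm : 1 ≤ m) (hx : x ≤ J) :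
    Has (fx m J x) (2 * m ^ 2 * 2 ^ x) (4 * 2 ^ m) (4 * 2 ^ m / 2 ^ x) := by
  have h2 : (0 : ℝ) < 2 ^ x := by positivity
  have h3 : (0 : ℝ) < 2 ^ m := by positivity
  rcases Nat.lt_or_ge x J with h | h
  · obtain ⟨a, ha⟩ := has_sM m (2 ^ x) hm Nat.one_le_two_pow
    obtain ⟨b, hb⟩ := has_sM m (2 ^ (x + 1)) hm Nat.one_le_two_pow
    refine ⟨_, ((ha.add hb.neg).congr fun z => ?_).mono ?_ ?_ ?_⟩
    · rw [fx, if_pos h, sub_eq_add_neg]
    · refine max_le ?_ ?_
      · have : 0 < 2 ^ x := Nat.two_pow_pos x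
        nlinarith [Nat.zero_le (m ^ 2 * 2 ^ x)]
      · rw [pow_succ]
        exact le_of_eq (by ring)
    · linarith
    · rw [← mul_add, mul_comm (4 : ℝ), mul_div_assoc]
      refine mul_le_mul_of_nonneg_left ?_ h3.le
      push_cast
      rw [pow_succ, ← div_div]
      have h5 : (0 : ℝ) ≤ 2 / 2 ^ x := by positivity
      have h6 : (4 : ℝ) / 2 ^ x = 2 / 2 ^ x + 2 / 2 ^ x := by
        rw [← add_div]
        norm_num
      rw [h6]
      linarith
  · have hJ : x = J := le_antisymm hx h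
    subst hJ
    obtain ⟨a, ha⟩ := has_sM m (2 ^ x) hm Nat.one_le_two_pow
    refine ⟨_, (ha.congr fun z => ?_).mono ?_ ?_ ?_⟩
    · rw [fx, if_neg (lt_irrefl _)]
    · nlinarith [Nat.zero_le (m ^ 2 * 2 ^ x)]
    · linarith
    · push_cast
      rw [mul_comm (4 : ℝ), mul_div_assoc]
      refine mul_le_mul_of_nonneg_left ?_ h3.le
      gcongr
      norm_num

theorem sg_one (z : ℂ) : sg 1 z = 1 := by
  have h : Finset.Icc (-((1 : ℕ) : ℤ)) ((1 : ℕ) : ℤ) = {-1, 0, 1} := by decide
  unfold sg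
  rw [h]
  simp

theorem sum_fx (m J : ℕ) (hm : 1 ≤ m) (z : ℂ) : ∑ x ∈ Finset.range (J + 1), fx m J x z = 1 := by
  rw [Finset.sum_range_succ]
  have h1 : ∑ x ∈ Finset.range J, fx m J x z =
      ∑ x ∈ Finset.range J, (sM m (2 ^ x) z - sM m (2 ^ (x + 1)) z) :=
    Finset.sum_congr rfl fun x hx => by rw [fx, if_pos (Finset.mem_range.1 hx)]
  rw [h1, Finset.sum_range_sub' (fun x => sM m (2 ^ x) z), fx, if_neg (lt_irrefl _),
    sub_add_cancel, pow_zero, sM, sg_one, one_pow, sub_self, zero_pow (by omega), sub_zero]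

end CFA

open CFA in
/-- CFA -/
theorem t_CFA : S_CFA := by
  intro m hm
  have H : ∀ J x, x ≤ J →
      TP (fx m J x) (cf m J x) (2 * m ^ 2 * 2 ^ x) (4 * 2 ^ m) (4 * 2 ^ m / 2 ^ x) := by
    intro J x hx
    obtain ⟨a, ha⟩ := has_fx m J x hm hx
    have e : cf m J x = a := funext fun k => ha.coef k
    rwa [e]
  refine ⟨4 * 2 ^ m, by positivity, ?_, ?_, ?_, ?_, ?_, ?_⟩
  · intro J k
    have h1 : ∀ s : ℕ, s ≤ J + 1 → ∃ n α σ, TP (fun z => ∑ x ∈ Finset.range s, fx m J x z)
        (fun k => ∑ x ∈ Finset.range s, cf m J x k) n α σ := by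
      intro s
      induction s with
      | zero =>
        intro _
        refine ⟨0, 0, 0, fun _ _ => rfl, fun S => by simp, fun k => by simp, fun S => by simp,
          fun z => ?_⟩
        simp only [Finset.range_zero, Finset.sum_empty, zero_mul]
        exact hasSum_zero
      | succ s ih =>
        intro hs
        obtain ⟨n, α, σ, h2⟩ := ih (by omega)
        have h3 := h2.add (H J s (by omega))
        simp only [← Finset.sum_range_succ] at h3
        exact ⟨_, _, _, h3⟩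
    obtain ⟨n, α, σ, h2⟩ := h1 (J + 1) le_rfl
    have h3 := (h2.congr fun z => sum_fx m J hm z).coef k
    have h4 : ∀ y : ℝ, (1 : ℂ) * eu (-(k * y)) = xp 0 y * eu (-(k * y)) := by
      intro y
      have : xp 0 y = 1 := by
        unfold xp
        simp
      rw [this]
    simp only [h4] at h3
    rw [orth] at h3
    rw [← h3]
    simp only [eq_comm]
  · intro J x k hx hk
    exact (H J x hx).supp k (by exact_mod_cast hk)
  · intro J x K hx
    exact (H J x hx).abs _
  · intro J x k hx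
    exact (H J x hx).sup k
  · intro J x K hx
    exact (H J x hx).var _
  · intro J x K z hx hK
    exact (H J x hx).sum_eq K hK z

end

end STZ3
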