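import Pool.Agent.STZ3.StS

/-!
# Module FRQ (helper50): the frequency cutoffs
-/

namespace STZ3

open STZ LGR MeasureTheory Matrix Filter

open scoped ComplexConjugate Matrix Real Topology

noncomputable section

namespace FRQ

variable {r : ℕ}

/-! ### Differences of Fourier transforms of measures -/

/-- `f` is the difference of the transforms of two measures of mass at most `a`, supported in the
cube of size `ρ`. -/
def InA (a ρ : ℝ) (f : (Fin r → ℤ) → ℝ) : Prop :=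
  ∃ μ ν : Measure (Fin r → ℝ), IsFiniteMeasure μ ∧ IsFiniteMeasure ν ∧
    μ.real Set.univ ≤ a ∧ ν.real Set.univ ≤ a ∧
    μ {s | ∃ i, ρ < |s i|} = 0 ∧ ν {s | ∃ i, ρ < |s i|} = 0 ∧
    ∀ l, ∫ s, eu (dz l s) ∂μ - ∫ s, eu (dz l s) ∂ν = (f l : ℂ)

theorem dz_add (l : Fin r → ℤ) (s t : Fin r → ℝ) : dz l (s + t) = dz l s + dz l t := by
  unfold dz
  rw [← Finset.sum_add_distrib]
  refine Finset.sum_congr rfl fun i _ => ?_
  rw [Pi.add_apply, mul_add]

theorem eu_add (s t : ℝ) : eu (s + t) = eu s * eu t := by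
  unfold eu
  rw [← Complex.exp_add]
  congr 1
  push_cast
  ring

theorem norm_eu (t : ℝ) : ‖eu t‖ = 1 := by
  unfold eu
  have : 2 * (π : ℂ) * (t : ℂ) * Complex.I = ((2 * π * t : ℝ) : ℂ) * Complex.I := by
    push_cast; ring
  rw [this, Complex.norm_exp_ofReal_mul_I]

theorem cont (l : Fin r → ℤ) : Continuous (fun s : Fin r → ℝ => eu (dz l s)) := by
  unfold eu dz
  fun_prop

theorem integ (l : Fin r → ℤ) (μ : Measure (Fin r → ℝ)) [IsFiniteMeasure μ] :
    Integrable (fun s : Fin r → ℝ => eu (dz l s)) μ := by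
  refine Integrable.of_bound (cont l).aestronglyMeasurable 1 ?_
  filter_upwards with s
  rw [norm_eu]

theorem meas (ρ : ℝ) : MeasurableSet {s : Fin r → ℝ | ∃ i, ρ < |s i|} := by
  have : {s : Fin r → ℝ | ∃ i, ρ < |s i|} = ⋃ i, {s : Fin r → ℝ | ρ < |s i|} := by
    ext s; simp
  rw [this]
  refine MeasurableSet.iUnion fun i => ?_
  exact (isOpen_lt continuous_const (continuous_apply i).abs).measurableSet

/-- Convolution. -/
def cv (μ ν : Measure (Fin r → ℝ)) : Measure (Fin r → ℝ) :=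
  (μ.prod ν).map (fun z => z.1 + z.2)

theorem cv_fin (μ ν : Measure (Fin r → ℝ)) [IsFiniteMeasure μ] [IsFiniteMeasure ν] :
    IsFiniteMeasure (cv μ ν) := by
  unfold cv; infer_instance

theorem cv_mass (μ ν : Measure (Fin r → ℝ)) [IsFiniteMeasure μ] [IsFiniteMeasure ν] :
    (cv μ ν).real Set.univ = μ.real Set.univ * ν.real Set.univ := by
  unfold cv Measure.real
  rw [Measure.map_apply (by fun_prop) MeasurableSet.univ, Set.preimage_univ,
    ← Set.univ_prod_univ, Measure.prod_prod, ENNReal.toReal_mul]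

theorem cv_supp (μ ν : Measure (Fin r → ℝ)) [IsFiniteMeasure μ] [IsFiniteMeasure ν] {ρ σ : ℝ}
    (h1 : μ {s | ∃ i, ρ < |s i|} = 0) (h2 : ν {s | ∃ i, σ < |s i|} = 0) :
    cv μ ν {s | ∃ i, ρ + σ < |s i|} = 0 := by
  unfold cv
  rw [Measure.map_apply (by fun_prop) (meas _)]
  refine measure_mono_null (t := ({s | ∃ i, ρ < |s i|} ×ˢ Set.univ) ∪
    (Set.univ ×ˢ {s | ∃ i, σ < |s i|})) ?_ ?_
  · rintro ⟨x, y⟩ ⟨i, hi⟩
    have hi' : ρ + σ < |x i + y i| := hi
    by_cases hx : ρ < |x i|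
    · exact Or.inl ⟨⟨i, hx⟩, Set.mem_univ _⟩
    · refine Or.inr ⟨Set.mem_univ _, ⟨i, ?_⟩⟩
      have := abs_add_le (x i) (y i)
      push Not at hx
      change σ < |y i|
      linarith
  · refine le_antisymm ((measure_union_le _ _).trans ?_) (zero_le)
    rw [Measure.prod_prod, Measure.prod_prod, h1, h2, zero_mul, mul_zero, add_zero]

theorem cv_int (μ ν : Measure (Fin r → ℝ)) [IsFiniteMeasure μ] [IsFiniteMeasure ν]
    (l : Fin r → ℤ) : ∫ s, eu (dz l s) ∂(cv μ ν) =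
      (∫ s, eu (dz l s) ∂μ) * ∫ s, eu (dz l s) ∂ν := by
  unfold cv
  rw [integral_map (by fun_prop) (cont l).aestronglyMeasurable]
  simp only [dz_add, eu_add]
  exact integral_prod_mul (μ := μ) (ν := ν) (fun s : Fin r → ℝ => eu (dz l s))
    (fun s : Fin r → ℝ => eu (dz l s))

theorem InA.mono {a b ρ σ : ℝ} {f : (Fin r → ℤ) → ℝ} (h : InA a ρ f) (hab : a ≤ b)
    (hρ : ρ ≤ σ) : InA b σ f := by
  obtain ⟨μ, ν, h1, h2, h3, h4, h5, h6, h7⟩ := h
  have hsub : {s : Fin r → ℝ | ∃ i, σ < |s i|} ⊆ {s | ∃ i, ρ < |s i|} := by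
    rintro s ⟨i, hi⟩
    exact ⟨i, hρ.trans_lt hi⟩
  exact ⟨μ, ν, h1, h2, h3.trans hab, h4.trans hab, measure_mono_null hsub h5,
    measure_mono_null hsub h6, h7⟩

theorem InA.congr {a ρ : ℝ} {f g : (Fin r → ℤ) → ℝ} (h : InA a ρ f) (hfg : ∀ l, f l = g l) :
    InA a ρ g := by
  have : f = g := funext hfg
  rwa [← this]

theorem InA.one : InA (r := r) 1 0 (fun _ => 1) := by
  refine ⟨Measure.dirac 0, 0, inferInstance, inferInstance, ?_, ?_, ?_, ?_, ?_⟩
  · simp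
  · simp
  · rw [Measure.dirac_apply' _ (meas _)]
    simp
  · simp
  · intro l
    rw [integral_dirac]
    simp [dz, eu]

theorem InA.zero : InA (r := r) 0 0 (fun _ => 0) := by
  refine ⟨0, 0, inferInstance, inferInstance, ?_, ?_, ?_, ?_, ?_⟩
  · simp
  · simp
  · simp
  · simp
  · intro l
    simp

theorem InA.neg {a ρ : ℝ} {f : (Fin r → ℤ) → ℝ} (h : InA a ρ f) : InA a ρ (fun l => -f l) := by
  obtain ⟨μ, ν, h1, h2, h3, h4, h5, h6, h7⟩ := h
  refine ⟨ν, μ, h2, h1, h4, h3, h6, h5, fun l => ?_⟩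
  have := h7 l
  push_cast
  linear_combination -this

theorem InA.add {a b ρ : ℝ} {f g : (Fin r → ℤ) → ℝ} (hf : InA a ρ f) (hg : InA b ρ g) :
    InA (a + b) ρ (fun l => f l + g l) := by
  obtain ⟨μ, ν, h1, h2, h3, h4, h5, h6, h7⟩ := hf
  obtain ⟨μ', ν', h1', h2', h3', h4', h5', h6', h7'⟩ := hg
  refine ⟨μ + μ', ν + ν', inferInstance, inferInstance, ?_, ?_, ?_, ?_, fun l => ?_⟩
  · rw [measureReal_add_apply]; linarith
  · rw [measureReal_add_apply]; linarith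
  · rw [Measure.add_apply, h5, h5', add_zero]
  · rw [Measure.add_apply, h6, h6', add_zero]
  · rw [integral_add_measure (integ l μ) (integ l μ'), integral_add_measure (integ l ν) (integ l ν')]
    push_cast
    linear_combination h7 l + h7' l

theorem InA.mul {a b ρ σ : ℝ} {f g : (Fin r → ℤ) → ℝ} (hf : InA a ρ f) (hg : InA b σ g) :
    InA (2 * (a * b)) (ρ + σ) (fun l => f l * g l) := by
  obtain ⟨μ, ν, h1, h2, h3, h4, h5, h6, h7⟩ := hf
  obtain ⟨μ', ν', h1', h2', h3', h4', h5', h6', h7'⟩ := hg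
  have i1 := cv_fin μ μ'
  have i2 := cv_fin ν ν'
  have i3 := cv_fin μ ν'
  have i4 := cv_fin ν μ'
  have ha : 0 ≤ a := le_trans measureReal_nonneg h3
  have hb : 0 ≤ b := le_trans measureReal_nonneg h3'
  have hm : ∀ (κ κ' : Measure (Fin r → ℝ)), κ.real Set.univ ≤ a → κ'.real Set.univ ≤ b →
      κ.real Set.univ * κ'.real Set.univ ≤ a * b := fun κ κ' hk hk' =>
    mul_le_mul hk hk' measureReal_nonneg ha
  refine ⟨cv μ μ' + cv ν ν', cv μ ν' + cv ν μ', inferInstance, inferInstance, ?_, ?_, ?_, ?_,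
    fun l => ?_⟩
  · rw [measureReal_add_apply, cv_mass, cv_mass]
    linarith [hm μ μ' h3 h3', hm ν ν' h4 h4']
  · rw [measureReal_add_apply, cv_mass, cv_mass]
    linarith [hm μ ν' h3 h4', hm ν μ' h4 h3']
  · rw [Measure.add_apply, cv_supp μ μ' h5 h5', cv_supp ν ν' h6 h6', add_zero]
  · rw [Measure.add_apply, cv_supp μ ν' h5 h6', cv_supp ν μ' h6 h5', add_zero]
  · rw [integral_add_measure (integ l _) (integ l _), integral_add_measure (integ l _) (integ l _),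
      cv_int, cv_int, cv_int, cv_int]
    push_cast
    rw [← h7 l, ← h7' l]
    ring

theorem InA.pow {a ρ : ℝ} {f : (Fin r → ℤ) → ℝ} (hf : InA a ρ f) (n : ℕ) :
    InA ((2 * a) ^ n) (n * ρ) (fun l => f l ^ n) := by
  induction n with
  | zero =>
    refine (InA.one.mono ?_ ?_).congr fun l => (pow_zero _).symm
    · simp
    · simp
  | succ n ih =>
    refine ((ih.mul hf).mono ?_ ?_).congr fun l => (pow_succ _ _).symm
    · rw [pow_succ]; linarith
    · push_cast; linarith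

theorem InA.prod {ι : Type} {a ρ : ℝ} (s : Finset ι) (f : ι → (Fin r → ℤ) → ℝ)
    (hf : ∀ i ∈ s, InA a ρ (f i)) :
    InA ((2 * a) ^ s.card) (s.card * ρ) (fun l => ∏ i ∈ s, f i l) := by
  classical
  induction s using Finset.induction_on with
  | empty =>
    refine (InA.one.mono ?_ ?_).congr fun l => ?_
    · simp
    · simp
    · simp
  | insert i s hi ih =>
    have h1 := ih fun j hj => hf j (Finset.mem_insert_of_mem hj)
    have h2 := hf i (Finset.mem_insert_self i s)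
    refine ((h1.mul h2).mono ?_ ?_).congr fun l => ?_
    · rw [Finset.card_insert_of_notMem hi, pow_succ]; linarith
    · rw [Finset.card_insert_of_notMem hi]; push_cast; linarith
    · rw [Finset.prod_insert hi, mul_comm]

/-- The uniform distribution on a segment. -/
theorem InA.sinc (v : Fin r → ℤ) {D M : ℝ} (hD : ∀ i, |(v i : ℝ)| ≤ D) (hM : 1 ≤ M) :
    InA 1 (D / M) (fun l => Real.sinc (π * ((v ⬝ᵥ l : ℤ) : ℝ) / M)) := by
  have hM0 : 0 < M := by linarith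
  set S : ℝ → (Fin r → ℝ) := fun s i => s / M * v i with hS
  have hSc : Continuous S := by
    rw [hS]
    fun_prop
  set κ : Measure (Fin r → ℝ) := (volume.restrict (Set.Icc (-(1 / 2) : ℝ) (1 / 2))).map S with hκ
  have hfin : IsFiniteMeasure κ := by
    rw [hκ]; infer_instance
  refine ⟨κ, 0, hfin, inferInstance, ?_, ?_, ?_, ?_, fun l => ?_⟩
  · unfold Measure.real
    rw [hκ, Measure.map_apply hSc.measurable MeasurableSet.univ, Set.preimage_univ,
      Measure.restrict_apply_univ, Real.volume_Icc]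
    norm_num
  · simp
  · rw [hκ, Measure.map_apply hSc.measurable (meas _), Measure.restrict_apply
      (hSc.measurable (meas _))]
    have : S ⁻¹' {s | ∃ i, D / M < |s i|} ∩ Set.Icc (-(1 / 2) : ℝ) (1 / 2) = ∅ := by
      rw [Set.eq_empty_iff_forall_notMem]
      rintro s ⟨⟨i, hi⟩, hs1, hs2⟩
      have hi' : D / M < |s / M * v i| := hi
      rw [abs_mul, abs_div, abs_of_pos hM0, div_mul_eq_mul_div, div_lt_div_iff_of_pos_right hM0]
        at hi'
      have h1 : |s| ≤ 1 := by rw [abs_le]; constructor <;> linarith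
      have h2 := hD i
      have h3 := abs_nonneg ((v i : ℝ))
      nlinarith
    rw [this, measure_empty]
  · simp
  · rw [integral_zero_measure, sub_zero, hκ, integral_map hSc.measurable.aemeasurable
      (cont l).aestronglyMeasurable]
    set u : ℝ := ((v ⬝ᵥ l : ℤ) : ℝ) with hu
    have hdz : ∀ s : ℝ, dz l (S s) = s * (u / M) := by
      intro s
      unfold dz
      rw [hu, dotProduct]
      push_cast
      rw [Finset.sum_div, Finset.mul_sum]
      refine Finset.sum_congr rfl fun i _ => ?_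
      rw [hS]
      ring
    simp only [hdz]
    rw [integral_Icc_eq_integral_Ioc, ← intervalIntegral.integral_of_le (by norm_num)]
    have hexp : ∀ s : ℝ, eu (s * (u / M)) = Complex.exp ((2 * π * (u / M) * Complex.I) * s) := by
      intro s
      unfold eu
      congr 1
      push_cast
      ring
    simp only [hexp]
    by_cases hu0 : u = 0
    · have hu1 : ((v ⬝ᵥ l : ℤ) : ℝ) = 0 := by rw [← hu]; exact hu0
      simp only [hu0, hu1, mul_zero, zero_div, Real.sinc_zero]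
      simp
      norm_num
    · have hc : (2 * π * (u / M) * Complex.I : ℂ) ≠ 0 := by
        have h1 : (π : ℂ) ≠ 0 := by exact_mod_cast Real.pi_ne_zero
        have h2 : (u : ℂ) ≠ 0 := by exact_mod_cast hu0
        have h3 : (M : ℂ) ≠ 0 := by exact_mod_cast hM0.ne'
        refine mul_ne_zero (mul_ne_zero (mul_ne_zero two_ne_zero h1) (div_ne_zero h2 h3))
          Complex.I_ne_zero
      rw [integral_exp_mul_complex hc]
      have hx : π * u / M ≠ 0 := div_ne_zero (mul_ne_zero Real.pi_ne_zero hu0) hM0.ne'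
      rw [Real.sinc_of_ne_zero hx, div_eq_iff hc]
      have hs : ((Real.sin (π * u / M) : ℝ) : ℂ) = Complex.sin ((π * u / M : ℝ) : ℂ) :=
        Complex.ofReal_sin _
      push_cast
      have e1 : (2 * π * (u / M) * Complex.I : ℂ) * (1 / 2) = (π * u / M) * Complex.I := by ring
      have e2 : (2 * π * (u / M) * Complex.I : ℂ) * -(1 / 2) = -(π * u / M) * Complex.I := by ring
      rw [e1, e2, Complex.sin]
      have hx' : (π * u / M : ℂ) ≠ 0 := by exact_mod_cast hx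
      have e3 : (2 * π * (u / M) * Complex.I : ℂ) = 2 * (π * u / M) * Complex.I := by ring
      rw [e3]
      generalize (π * u / M : ℂ) = x at hx'
      field_simp
      linear_combination (Complex.exp (x * Complex.I) - Complex.exp (-(x * Complex.I))) *
        Complex.I_sq

/-! ### The cutoff `S_M` -/

/-- `S_M`, as a function of `x = π u / M`. -/
def SS (m : ℕ) (x : ℝ) : ℝ := 1 - (1 - Real.sinc x ^ (2 * m)) ^ m

theorem g_nonneg (m : ℕ) (x : ℝ) : 0 ≤ Real.sinc x ^ (2 * m) := by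
  rw [pow_mul]; positivity

theorem g_le (m : ℕ) (x : ℝ) : Real.sinc x ^ (2 * m) ≤ 1 := by
  have h1 := Real.abs_sinc_le_one x
  have h2 : Real.sinc x ^ 2 ≤ 1 := by
    rw [← sq_abs]
    nlinarith [abs_nonneg (Real.sinc x)]
  rw [pow_mul]
  exact pow_le_one₀ (sq_nonneg _) h2

theorem sinc_lb (x : ℝ) : 1 - x ^ 2 / 6 ≤ Real.sinc x := by
  have key : ∀ y : ℝ, 0 < y → 1 - y ^ 2 / 6 ≤ Real.sinc y := by
    intro y hy
    rw [Real.sinc_of_ne_zero hy.ne', le_div_iff₀ hy]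
    have := Real.sin_gt_sub_cube hy
    nlinarith
  rcases lt_trichotomy x 0 with h | h | h
  · have h1 := key (-x) (by linarith)
    rw [Real.sinc_neg] at h1
    nlinarith
  · rw [h]; simp
  · exact key x h

theorem g_lb (m : ℕ) (x : ℝ) : 1 - Real.sinc x ^ (2 * m) ≤ (m + 1) * x ^ 2 := by
  have hm : (0 : ℝ) ≤ m := Nat.cast_nonneg m
  by_cases hx : x ^ 2 ≤ 6
  · have h1 := sinc_lb x
    have h2 : 0 ≤ 1 - x ^ 2 / 6 := by linarith
    have h3 : (1 - x ^ 2 / 6) ^ (2 * m) ≤ Real.sinc x ^ (2 * m) := pow_le_pow_left₀ h2 h1 _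
    have h4 := one_add_mul_le_pow (a := -(x ^ 2 / 6)) (by linarith) (2 * m)
    push_cast at h4
    have h5 : (1 + -(x ^ 2 / 6)) ^ (2 * m) = (1 - x ^ 2 / 6) ^ (2 * m) := by ring
    rw [h5] at h4
    nlinarith [sq_nonneg x]
  · push Not at hx
    have := g_nonneg m x
    nlinarith

theorem SS_nonneg (m : ℕ) (x : ℝ) : 0 ≤ SS m x := by
  unfold SS
  have h1 := g_nonneg m x
  have h2 := g_le m x
  have : (1 - Real.sinc x ^ (2 * m)) ^ m ≤ 1 := pow_le_one₀ (by linarith) (by linarith)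
  linarith

theorem SS_le (m : ℕ) (x : ℝ) : SS m x ≤ 1 := by
  unfold SS
  have h2 := g_le m x
  have : 0 ≤ (1 - Real.sinc x ^ (2 * m)) ^ m := pow_nonneg (by linarith) _
  linarith

/-- Small frequencies. -/
theorem SS_lo (m : ℕ) (x : ℝ) : 1 - SS m x ≤ ((m : ℝ) + 1) ^ m * |x| ^ (2 * m) := by
  unfold SS
  have h1 := g_le m x
  have h2 := g_lb m x
  have h3 : (1 - Real.sinc x ^ (2 * m)) ^ m ≤ (((m : ℝ) + 1) * x ^ 2) ^ m :=
    pow_le_pow_left₀ (by linarith) h2 m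
  rw [mul_pow] at h3
  have h4 : (x ^ 2) ^ m = |x| ^ (2 * m) := by rw [← sq_abs, pow_mul]
  rw [h4] at h3
  linarith

/-- Large frequencies. -/
theorem SS_hi (m : ℕ) (x : ℝ) : SS m x * |x| ^ (2 * m) ≤ m := by
  have hg : Real.sinc x ^ (2 * m) * |x| ^ (2 * m) ≤ 1 := by
    by_cases hx : x = 0
    · rw [hx]
      rcases Nat.eq_zero_or_pos m with h | h
      · rw [h]; simp
      · have : (2 * m) ≠ 0 := by omega
        simp [this]
    · have h1 : |Real.sinc x| * |x| ≤ 1 := by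
        rw [Real.sinc_of_ne_zero hx, abs_div, div_mul_cancel₀ _ (abs_ne_zero.2 hx)]
        exact Real.abs_sin_le_one x
      have h2 : Real.sinc x ^ (2 * m) = |Real.sinc x| ^ (2 * m) := by
        rw [pow_mul, pow_mul, sq_abs]
      rw [h2, ← mul_pow]
      exact pow_le_one₀ (mul_nonneg (abs_nonneg _) (abs_nonneg _)) h1
  have h3 : SS m x ≤ m * Real.sinc x ^ (2 * m) := by
    unfold SS
    have h4 := one_add_mul_le_pow (a := -(Real.sinc x ^ (2 * m))) (by
      have := g_le m x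
      linarith) m
    have h5 : (1 + -(Real.sinc x ^ (2 * m))) ^ m = (1 - Real.sinc x ^ (2 * m)) ^ m := by ring
    rw [h5] at h4
    linarith
  have hx0 : 0 ≤ |x| ^ (2 * m) := by positivity
  calc SS m x * |x| ^ (2 * m) ≤ (m * Real.sinc x ^ (2 * m)) * |x| ^ (2 * m) :=
        mul_le_mul_of_nonneg_right h3 hx0
    _ = m * (Real.sinc x ^ (2 * m) * |x| ^ (2 * m)) := by ring
    _ ≤ m * 1 := mul_le_mul_of_nonneg_left hg (Nat.cast_nonneg m)
    _ = m := mul_one _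

/-- The mass constant. -/
def AA (m : ℕ) : ℝ := 1 + (2 * (1 + (2 * 1) ^ (2 * m))) ^ m

theorem AA_ge (m : ℕ) : 1 ≤ AA m := by
  unfold AA
  have : (0 : ℝ) ≤ (2 * (1 + (2 * 1) ^ (2 * m))) ^ m := by positivity
  linarith

theorem InA.SS (v : Fin r → ℤ) {D M : ℝ} (hD : ∀ i, |(v i : ℝ)| ≤ D) (hD0 : 0 ≤ D)
    (hM : 1 ≤ M) (m : ℕ) :
    InA (AA m) (m * ((2 * m : ℕ) * (D / M)))
      (fun l => FRQ.SS m (π * ((v ⬝ᵥ l : ℤ) : ℝ) / M)) := by
  have hM0 : 0 < M := by linarith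
  have h0 : 0 ≤ D / M := div_nonneg hD0 hM0.le
  have h1 := (InA.sinc v hD hM).pow (2 * m)
  have h2 : InA (r := r) 1 ((2 * m : ℕ) * (D / M)) (fun _ => 1) :=
    InA.one.mono le_rfl (mul_nonneg (Nat.cast_nonneg _) h0)
  have h3 := (h2.add h1.neg).pow m
  have h4 : InA (r := r) 1 (m * ((2 * m : ℕ) * (D / M))) (fun _ => 1) :=
    InA.one.mono le_rfl (mul_nonneg (Nat.cast_nonneg _) (mul_nonneg (Nat.cast_nonneg _) h0))
  refine ((h4.add h3.neg).mono le_rfl le_rfl).congr fun l => ?_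
  unfold FRQ.SS
  ring

/-- The running sums of the cutoffs. -/
def GG (m : ℕ) (M₀ : ℝ) (jm k : ℕ) (u : ℝ) : ℝ :=
  if k = 0 then 0 else if k ≤ jm + 1 then SS m (π * u / (2 ^ (k - 1) * M₀)) else 1

theorem GG_nonneg (m : ℕ) (M₀ : ℝ) (jm k : ℕ) (u : ℝ) : 0 ≤ GG m M₀ jm k u := by
  unfold GG
  split_ifs
  · exact le_rfl
  · exact SS_nonneg _ _
  · exact zero_le_one

theorem GG_le (m : ℕ) (M₀ : ℝ) (jm k : ℕ) (u : ℝ) : GG m M₀ jm k u ≤ 1 := by
  unfold GG
  split_ifs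
  · exact zero_le_one
  · exact SS_le _ _
  · exact le_rfl

/-- The constant for small frequencies. -/
def C1 (m : ℕ) : ℝ := ((m : ℝ) + 1) ^ m * π ^ (2 * m)

theorem C1_nonneg (m : ℕ) : 0 ≤ C1 m := by
  unfold C1; positivity

theorem scale_lo (m : ℕ) {M : ℝ} (hM : 0 < M) (u : ℝ) :
    (1 - SS m (π * u / M)) * M ^ (2 * m) ≤ C1 m * |u| ^ (2 * m) := by
  have h := SS_lo m (π * u / M)
  have h1 : |π * u / M| = π * |u| / M := by
    rw [abs_div, abs_mul, abs_of_pos Real.pi_pos, abs_of_pos hM]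
  rw [h1, div_pow, mul_pow] at h
  have h2 : 0 < M ^ (2 * m) := pow_pos hM _
  calc (1 - SS m (π * u / M)) * M ^ (2 * m)
      ≤ (((m : ℝ) + 1) ^ m * (π ^ (2 * m) * |u| ^ (2 * m) / M ^ (2 * m))) * M ^ (2 * m) :=
        mul_le_mul_of_nonneg_right h h2.le
    _ = C1 m * |u| ^ (2 * m) := by
        unfold C1
        field_simp

theorem scale_hi (m : ℕ) {M : ℝ} (hM : 0 < M) (u : ℝ) :
    SS m (π * u / M) * |u| ^ (2 * m) ≤ m * M ^ (2 * m) := by
  have h := SS_hi m (π * u / M)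
  have h1 : |π * u / M| = π * |u| / M := by
    rw [abs_div, abs_mul, abs_of_pos Real.pi_pos, abs_of_pos hM]
  rw [h1, div_pow, mul_pow] at h
  have h2 : 0 < M ^ (2 * m) := pow_pos hM _
  have h3 : (1 : ℝ) ≤ π ^ (2 * m) := one_le_pow₀ (by linarith [Real.pi_gt_three])
  have h4 : 0 ≤ SS m (π * u / M) * |u| ^ (2 * m) := mul_nonneg (SS_nonneg _ _) (by positivity)
  rw [← mul_div_assoc, div_le_iff₀ h2] at h
  calc SS m (π * u / M) * |u| ^ (2 * m) = 1 * (SS m (π * u / M) * |u| ^ (2 * m)) := by ring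
    _ ≤ π ^ (2 * m) * (SS m (π * u / M) * |u| ^ (2 * m)) := mul_le_mul_of_nonneg_right h3 h4
    _ = SS m (π * u / M) * (π ^ (2 * m) * |u| ^ (2 * m)) := by ring
    _ ≤ m * M ^ (2 * m) := h

theorem GG_lo (m : ℕ) {M₀ : ℝ} (hM : 1 ≤ M₀) (jm j : ℕ) (u : ℝ) :
    (1 - GG m M₀ jm (j + 1) u) * fs M₀ jm j ^ (2 * m) ≤ C1 m * |u| ^ (2 * m) := by
  have hC : 0 ≤ C1 m * |u| ^ (2 * m) := mul_nonneg (C1_nonneg m) (by positivity)
  have hM0 : 0 < M₀ := by linarith
  unfold GG fs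
  by_cases h : j + 1 ≤ jm + 1
  · rw [if_neg (Nat.succ_ne_zero j), if_pos h, Nat.add_sub_cancel, min_eq_left (by omega)]
    exact scale_lo m (by positivity) u
  · rw [if_neg (Nat.succ_ne_zero j), if_neg h, sub_self, zero_mul]
    exact hC

theorem GG_hi (m : ℕ) {M₀ : ℝ} (hM : 1 ≤ M₀) (jm j : ℕ) (u : ℝ) (hj : j ≤ jm) :
    GG m M₀ jm (j + 1) u * |u| ^ (2 * m) ≤ m * fs M₀ jm j ^ (2 * m) := by
  have hM0 : 0 < M₀ := by linarith
  unfold GG fs
  rw [if_neg (Nat.succ_ne_zero j), if_pos (by omega), Nat.add_sub_cancel, min_eq_left hj]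
  exact scale_hi m (by positivity) u

theorem fs_nonneg {M₀ : ℝ} (hM : 1 ≤ M₀) (jm j : ℕ) : 0 ≤ fs M₀ jm j := by
  have hM0 : 0 < M₀ := by linarith
  unfold fs
  positivity

theorem fs_step {M₀ : ℝ} (hM : 1 ≤ M₀) (jm j : ℕ) : fs M₀ jm (j + 1) ≤ 2 * fs M₀ jm j := by
  have hM0 : 0 ≤ M₀ := by linarith
  unfold fs
  have h1 : min (j + 1) jm ≤ min j jm + 1 := by omega
  have h2 : (2 : ℝ) ^ (min (j + 1) jm) ≤ 2 ^ (min j jm + 1) :=
    pow_le_pow_right₀ (by norm_num) h1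
  calc (2 : ℝ) ^ (min (j + 1) jm) * M₀ ≤ 2 ^ (min j jm + 1) * M₀ :=
        mul_le_mul_of_nonneg_right h2 hM0
    _ = 2 * (2 ^ (min j jm) * M₀) := by rw [pow_succ]; ring

theorem fs_mono {M₀ : ℝ} (hM : 1 ≤ M₀) (jm j : ℕ) : fs M₀ jm j ≤ fs M₀ jm (j + 1) := by
  have hM0 : 0 ≤ M₀ := by linarith
  unfold fs
  have h1 : min j jm ≤ min (j + 1) jm := by omega
  exact mul_le_mul_of_nonneg_right (pow_le_pow_right₀ (by norm_num) h1) hM0

/-- One cutoff. -/
def psi (m : ℕ) (M₀ : ℝ) (jm k : ℕ) (u : ℝ) : ℝ := GG m M₀ jm (k + 1) u - GG m M₀ jm k u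

theorem psi_bd (m : ℕ) (M₀ : ℝ) (jm k : ℕ) (u : ℝ) : |psi m M₀ jm k u| ≤ 1 := by
  unfold psi
  have h1 := GG_nonneg m M₀ jm k u
  have h2 := GG_nonneg m M₀ jm (k + 1) u
  have h3 := GG_le m M₀ jm k u
  have h4 := GG_le m M₀ jm (k + 1) u
  rw [abs_le]
  constructor <;> linarith

theorem psi_lo (m : ℕ) {M₀ : ℝ} (hM : 1 ≤ M₀) (jm k : ℕ) (u : ℝ) (hk : 0 < k) :
    |psi m M₀ jm k u| * fs M₀ jm k ^ (2 * m) ≤ (C1 m * (1 + 2 ^ (2 * m))) * |u| ^ (2 * m) := by
  obtain ⟨j, rfl⟩ : ∃ j, k = j + 1 := ⟨k - 1, by omega⟩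
  have h1 := GG_lo m hM jm (j + 1) u
  have h2 := GG_lo m hM jm j u
  have h3 := fs_step hM jm j
  have hf0 := fs_nonneg hM jm (j + 1)
  have h4 : fs M₀ jm (j + 1) ^ (2 * m) ≤ 2 ^ (2 * m) * fs M₀ jm j ^ (2 * m) := by
    rw [← mul_pow]
    exact pow_le_pow_left₀ hf0 h3 _
  have g1 := GG_le m M₀ jm (j + 1) u
  have g2 := GG_le m M₀ jm (j + 1 + 1) u
  have h5 : |psi m M₀ jm (j + 1) u| ≤
      (1 - GG m M₀ jm (j + 1 + 1) u) + (1 - GG m M₀ jm (j + 1) u) := by
    unfold psi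
    rw [abs_le]
    constructor <;> linarith
  have h6 : 0 ≤ fs M₀ jm (j + 1) ^ (2 * m) := pow_nonneg hf0 _
  have h7 : (1 - GG m M₀ jm (j + 1) u) * fs M₀ jm (j + 1) ^ (2 * m) ≤
      2 ^ (2 * m) * (C1 m * |u| ^ (2 * m)) := by
    calc (1 - GG m M₀ jm (j + 1) u) * fs M₀ jm (j + 1) ^ (2 * m)
        ≤ (1 - GG m M₀ jm (j + 1) u) * (2 ^ (2 * m) * fs M₀ jm j ^ (2 * m)) :=
          mul_le_mul_of_nonneg_left h4 (by linarith)
      _ = 2 ^ (2 * m) * ((1 - GG m M₀ jm (j + 1) u) * fs M₀ jm j ^ (2 * m)) := by ring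
      _ ≤ 2 ^ (2 * m) * (C1 m * |u| ^ (2 * m)) :=
          mul_le_mul_of_nonneg_left h2 (by positivity)
  calc |psi m M₀ jm (j + 1) u| * fs M₀ jm (j + 1) ^ (2 * m)
      ≤ ((1 - GG m M₀ jm (j + 1 + 1) u) + (1 - GG m M₀ jm (j + 1) u)) *
          fs M₀ jm (j + 1) ^ (2 * m) := mul_le_mul_of_nonneg_right h5 h6
    _ = (1 - GG m M₀ jm (j + 1 + 1) u) * fs M₀ jm (j + 1) ^ (2 * m) +
          (1 - GG m M₀ jm (j + 1) u) * fs M₀ jm (j + 1) ^ (2 * m) := by ring
    _ ≤ C1 m * |u| ^ (2 * m) + 2 ^ (2 * m) * (C1 m * |u| ^ (2 * m)) := add_le_add h1 h7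
    _ = (C1 m * (1 + 2 ^ (2 * m))) * |u| ^ (2 * m) := by ring

theorem psi_hi (m : ℕ) {M₀ : ℝ} (hM : 1 ≤ M₀) (jm k : ℕ) (u : ℝ) (hk : k ≤ jm) :
    |psi m M₀ jm k u| * |u| ^ (2 * m) ≤ (2 * m) * fs M₀ jm k ^ (2 * m) := by
  have h1 := GG_hi m hM jm k u hk
  have hu : 0 ≤ |u| ^ (2 * m) := by positivity
  have hm : (0 : ℝ) ≤ m := Nat.cast_nonneg m
  have h2 : GG m M₀ jm k u * |u| ^ (2 * m) ≤ m * fs M₀ jm k ^ (2 * m) := by
    rcases Nat.eq_zero_or_pos k with h | h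
    · have h0 : GG m M₀ jm k u = 0 := by
        unfold GG
        rw [if_pos h]
      rw [h0, zero_mul]
      exact mul_nonneg hm (pow_nonneg (fs_nonneg hM jm k) _)
    · obtain ⟨j, rfl⟩ : ∃ j, k = j + 1 := ⟨k - 1, by omega⟩
      refine (GG_hi m hM jm j u (by omega)).trans (mul_le_mul_of_nonneg_left ?_ hm)
      exact pow_le_pow_left₀ (fs_nonneg hM jm j) (fs_mono hM jm j) _
  have g1 := GG_nonneg m M₀ jm k u
  have g2 := GG_nonneg m M₀ jm (k + 1) u
  have h5 : |psi m M₀ jm k u| ≤ GG m M₀ jm (k + 1) u + GG m M₀ jm k u := by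
    unfold psi
    rw [abs_le]
    constructor <;> linarith
  calc |psi m M₀ jm k u| * |u| ^ (2 * m)
      ≤ (GG m M₀ jm (k + 1) u + GG m M₀ jm k u) * |u| ^ (2 * m) :=
        mul_le_mul_of_nonneg_right h5 hu
    _ = GG m M₀ jm (k + 1) u * |u| ^ (2 * m) + GG m M₀ jm k u * |u| ^ (2 * m) := by ring
    _ ≤ m * fs M₀ jm k ^ (2 * m) + m * fs M₀ jm k ^ (2 * m) := add_le_add h1 h2
    _ = (2 * m) * fs M₀ jm k ^ (2 * m) := by ring

theorem psi_out (m : ℕ) (M₀ : ℝ) (jm k : ℕ) (u : ℝ) (hk : jm + 1 < k) :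
    psi m M₀ jm k u = 0 := by
  unfold psi GG
  rw [if_neg (by omega), if_neg (by omega), if_neg (by omega), if_neg (by omega), sub_self]

theorem psi_sum (m : ℕ) (M₀ : ℝ) (jm L : ℕ) (u : ℝ) (hL : jm ≤ L) :
    ∑ j : Fin (L + 2), psi m M₀ jm j.val u = 1 := by
  rw [Fin.sum_univ_eq_sum_range (fun j => psi m M₀ jm j u) (L + 2)]
  unfold psi
  rw [Finset.sum_range_sub (fun j => GG m M₀ jm j u) (L + 2)]
  unfold GG
  rw [if_neg (by omega), if_neg (by omega), if_pos rfl, sub_zero]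

theorem GG_InA (v : Fin r → ℤ) {D M₀ R : ℝ} (hD : ∀ i, |(v i : ℝ)| ≤ D) (hD0 : 0 ≤ D)
    (hM : 1 ≤ M₀) (hR : 1 / M₀ ≤ R) (m jm k : ℕ) :
    InA (AA m) (m * ((2 * m : ℕ) * (D * R)))
      (fun l => GG m M₀ jm k ((v ⬝ᵥ l : ℤ) : ℝ)) := by
  have hA := AA_ge m
  have hM0 : 0 < M₀ := by linarith
  have hR0 : 0 ≤ R := le_trans (by positivity) hR
  have hρ : 0 ≤ (m : ℝ) * ((2 * m : ℕ) * (D * R)) := by positivity
  by_cases h0 : k = 0
  · refine (InA.zero.mono (by linarith) hρ).congr fun l => ?_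
    unfold GG
    rw [if_pos h0]
  · by_cases h1 : k ≤ jm + 1
    · have hs : 1 ≤ 2 ^ (k - 1) * M₀ := by
        have : (1 : ℝ) ≤ 2 ^ (k - 1) := one_le_pow₀ (by norm_num)
        nlinarith
      refine ((InA.SS v hD hD0 hs m).mono le_rfl ?_).congr fun l => ?_
      · refine mul_le_mul_of_nonneg_left (mul_le_mul_of_nonneg_left ?_ (Nat.cast_nonneg _))
          (Nat.cast_nonneg _)
        have h2 : (1 : ℝ) ≤ 2 ^ (k - 1) := one_le_pow₀ (by norm_num)
        have h3 : M₀ ≤ 2 ^ (k - 1) * M₀ := by nlinarith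
        have h4 : 1 / (2 ^ (k - 1) * M₀) ≤ 1 / M₀ := one_div_le_one_div_of_le hM0 h3
        rw [div_eq_mul_one_div]
        exact mul_le_mul_of_nonneg_left (h4.trans hR) hD0
      · unfold GG
        rw [if_neg h0, if_pos h1]
    · refine (InA.one.mono hA hρ).congr fun l => ?_
      unfold GG
      rw [if_neg h0, if_neg h1]

theorem psi_InA (v : Fin r → ℤ) {D M₀ R : ℝ} (hD : ∀ i, |(v i : ℝ)| ≤ D) (hD0 : 0 ≤ D)
    (hM : 1 ≤ M₀) (hR : 1 / M₀ ≤ R) (m jm k : ℕ) :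
    InA (AA m + AA m) (m * ((2 * m : ℕ) * (D * R)))
      (fun l => psi m M₀ jm k ((v ⬝ᵥ l : ℤ) : ℝ)) := by
  refine ((GG_InA v hD hD0 hM hR m jm (k + 1)).add (GG_InA v hD hD0 hM hR m jm k).neg).congr
    fun l => ?_
  unfold psi
  ring

end FRQ

open FRQ in
theorem t_FRQ : S_FRQ := by
  intro r Φ B hΦ m _
  classical
  set D : ℝ := ∑ p : {p // p ∈ pos Φ}, ∑ i, |(p.1.2 i : ℝ)| with hDdef
  have hD0 : 0 ≤ D := Finset.sum_nonneg fun p _ => Finset.sum_nonneg fun i _ => abs_nonneg _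
  have hD : ∀ (p : {p // p ∈ pos Φ}) i, |(p.1.2 i : ℝ)| ≤ D := by
    intro p i
    have h1 : |(p.1.2 i : ℝ)| ≤ ∑ i, |(p.1.2 i : ℝ)| :=
      Finset.single_le_sum (f := fun i => |(p.1.2 i : ℝ)|) (fun i _ => abs_nonneg _)
        (Finset.mem_univ i)
    have h2 : ∑ i, |(p.1.2 i : ℝ)| ≤ D :=
      Finset.single_le_sum (f := fun p : {p // p ∈ pos Φ} => ∑ i, |(p.1.2 i : ℝ)|)
        (fun p _ => Finset.sum_nonneg fun i _ => abs_nonneg _) (Finset.mem_univ p)
    exact h1.trans h2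
  set n : ℕ := (Finset.univ : Finset {p // p ∈ pos Φ}).card with hn
  set a1 : ℝ := FRQ.C1 m * (1 + 2 ^ (2 * m)) with ha1
  set a2 : ℝ := (2 * (AA m + AA m)) ^ n with ha2
  set a3 : ℝ := n * (m * ((2 * m : ℕ) * D)) with ha3
  have hA := AA_ge m
  have p1 : 0 ≤ a1 := mul_nonneg (C1_nonneg m) (by positivity)
  have p2 : 0 ≤ a2 := pow_nonneg (by linarith) _
  have p3 : 0 ≤ a3 := by positivity
  have p4 : (0 : ℝ) ≤ 2 * m := by positivity
  refine ⟨1 + a1 + 2 * m + a2 + a3, by linarith, ?_⟩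
  intro M₀ jm L R hM hL hR
  have hin : ∀ jj : {p // p ∈ pos Φ} → Fin (L + 2),
      InA (1 + a1 + 2 * m + a2 + a3) ((1 + a1 + 2 * m + a2 + a3) * R)
        (fun l => ∏ p : {p // p ∈ pos Φ}, psi m (M₀ p) (jm p) (jj p).val
          ((p.1.2 ⬝ᵥ l : ℤ) : ℝ)) := by
    intro jj
    have h1 : ∀ p ∈ (Finset.univ : Finset {p // p ∈ pos Φ}),
        InA (AA m + AA m) (m * ((2 * m : ℕ) * (D * R)))
          (fun l => psi m (M₀ p) (jm p) (jj p).val ((p.1.2 ⬝ᵥ l : ℤ) : ℝ)) := fun p _ =>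
      psi_InA p.1.2 (hD p) hD0 (hM p) (hR p) m (jm p) (jj p).val
    have h2 := InA.prod Finset.univ (fun p : {p // p ∈ pos Φ} => fun l : Fin r → ℤ =>
      psi m (M₀ p) (jm p) (jj p).val ((p.1.2 ⬝ᵥ l : ℤ) : ℝ)) h1
    by_cases hne : Nonempty {p // p ∈ pos Φ}
    · obtain ⟨p⟩ := hne
      have hR0 : 0 ≤ R := le_trans (by
        have := hM p
        positivity) (hR p)
      refine h2.mono ?_ ?_
      · rw [← hn, ← ha2]
        linarith
      · rw [← hn]
        have e : (n : ℝ) * (m * ((2 * m : ℕ) * (D * R))) = a3 * R := by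
          rw [ha3]; ring
        rw [e]
        exact mul_le_mul_of_nonneg_right (by linarith) hR0
    · have hr : ∀ i : Fin r, False := fun i => hne ⟨⟨(B i, Pi.single i 1), by
        unfold pos
        refine Finset.mem_filter.2 ⟨hΦ.base i, fun j => ?_⟩
        change (0 : ℤ) ≤ (Pi.single i 1 : Fin r → ℤ) j
        by_cases hij : j = i
        · rw [hij, Pi.single_eq_same]
          exact zero_le_one
        · rw [Pi.single_eq_of_ne hij]⟩⟩
      have he : ∀ ρ : ℝ, {s : Fin r → ℝ | ∃ i, ρ < |s i|} = ∅ := by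
        intro ρ
        rw [Set.eq_empty_iff_forall_notMem]
        rintro s ⟨i, _⟩
        exact hr i
      obtain ⟨μ, ν, g1, g2, g3, g4, _, _, g7⟩ := h2
      refine ⟨μ, ν, g1, g2, g3.trans ?_, g4.trans ?_, ?_, ?_, g7⟩
      · rw [← hn, ← ha2]
        linarith
      · rw [← hn, ← ha2]
        linarith
      · rw [he, measure_empty]
      · rw [he, measure_empty]
  choose ν₁ ν₂ hν using hin
  refine ⟨fun p j u => psi m (M₀ p) (jm p) j.val (u : ℝ), ν₁, ν₂, ?_⟩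
  exact
    { sum := fun p u => psi_sum m (M₀ p) (jm p) L u (hL p)
      bd := fun p j u => (psi_bd m (M₀ p) (jm p) j.val u).trans (by linarith)
      lo := fun p j u hj => (psi_lo m (hM p) (jm p) j.val u hj).trans
        (mul_le_mul_of_nonneg_right (by linarith) (by positivity))
      hi := fun p j u hj => (psi_hi m (hM p) (jm p) j.val u hj).trans
        (mul_le_mul_of_nonneg_right (by linarith) (pow_nonneg (fs_nonneg (hM p) _ _) _))
      out := fun p j u hj => psi_out m (M₀ p) (jm p) j.val u hj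
      fin₁ := fun jj => (hν jj).1
      fin₂ := fun jj => (hν jj).2.1
      mass₁ := fun jj => (hν jj).2.2.1
      mass₂ := fun jj => (hν jj).2.2.2.1
      supp₁ := fun jj => (hν jj).2.2.2.2.1
      supp₂ := fun jj => (hν jj).2.2.2.2.2.1
      tr := fun jj l => (hν jj).2.2.2.2.2.2 l }

end

end STZ3
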