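import Pool.Agent.STZ3.StQ
import Pool.Agent.STZ.Base

/-!
# Compact simple groups of rank two: module JBD, the bound (6.7)
-/

namespace STZ3

open STZ LGR MeasureTheory Matrix Filter

open scoped ComplexConjugate Matrix Real Topology Pointwise

noncomputable section

namespace JBD


/-- the integral is at most the lower integral of the positive part -/
theorem ofReal_integral_le {α : Type*} [MeasurableSpace α] (μ : Measure α) (f : α → ℝ) :
    ENNReal.ofReal (∫ x, f x ∂μ) ≤ ∫⁻ x, ENNReal.ofReal (f x) ∂μ := by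
  by_cases hf : Integrable f μ
  · rw [integral_eq_lintegral_pos_part_sub_lintegral_neg_part hf]
    refine le_trans (ENNReal.ofReal_le_ofReal (sub_le_self _ ENNReal.toReal_nonneg)) ?_
    exact ENNReal.ofReal_toReal_le
  · rw [integral_undef hf]
    simp

section per

variable {r : ℕ}

theorem ico_ae (a : Fin r → ℝ) :
    (Set.pi Set.univ fun i => Set.Ico (a i) (a i + 1)) =ᵐ[volume] Set.Icc a (fun i => a i + 1) :=
  Measure.univ_pi_Ico_ae_eq_Icc

theorem setLIntegral_per (G : (Fin r → ℝ) → ENNReal)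
    (hG : ∀ θ (n : Fin r → ℤ), G (θ + fun j => (n j : ℝ)) = G θ) (a : Fin r → ℝ) :
    ∫⁻ θ in Set.Icc a (fun i => a i + 1), G θ = ∫⁻ θ in Set.Icc (0 : Fin r → ℝ) 1, G θ := by
  have hfd := ZSpan.isAddFundamentalDomain' (Pi.basisFun ℝ (Fin r)) (volume : Measure (Fin r → ℝ))
  have hfa := hfd.vadd_of_comm a
  have h0 : (ZSpan.fundamentalDomain (Pi.basisFun ℝ (Fin r))) =
      Set.pi Set.univ fun i => Set.Ico ((0 : Fin r → ℝ) i) ((0 : Fin r → ℝ) i + 1) := by
    ext x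
    simp [ZSpan.mem_fundamentalDomain, Set.mem_pi]
  have h1 : (a +ᵥ (ZSpan.fundamentalDomain (Pi.basisFun ℝ (Fin r)))) =
      Set.pi Set.univ fun i => Set.Ico (a i) (a i + 1) := by
    rw [h0]
    ext x
    rw [Set.mem_vadd_set_iff_neg_vadd_mem]
    simp only [Set.mem_pi, Set.mem_univ, forall_true_left, Set.mem_Ico, vadd_eq_add, Pi.add_apply,
      Pi.neg_apply, Pi.zero_apply, zero_add]
    refine forall_congr' fun i => ?_
    constructor
    · rintro ⟨h1, h2⟩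
      constructor <;> linarith
    · rintro ⟨h1, h2⟩
      constructor <;> linarith
  have hcount : Countable (Submodule.span ℤ (Set.range (Pi.basisFun ℝ (Fin r)))).toAddSubgroup :=
    (inferInstance : Countable (Submodule.span ℤ (Set.range (Pi.basisFun ℝ (Fin r)))))
  have h2 := hfa.setLIntegral_eq hfd G (by
    intro g x
    have hg : ∃ n : Fin r → ℤ, (g : Fin r → ℝ) = fun j => (n j : ℝ) := by
      have h3 : (g : Fin r → ℝ) ∈ Submodule.span ℤ (Set.range (Pi.basisFun ℝ (Fin r))) := g.2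
      rw [Module.Basis.mem_span_iff_repr_mem] at h3
      choose n hn using h3
      refine ⟨n, ?_⟩
      funext j
      have h4 := hn j
      simpa using h4.symm
    obtain ⟨n, hn⟩ := hg
    have h5 : g +ᵥ x = x + fun j => (n j : ℝ) := by
      rw [← hn]
      exact add_comm _ _
    rw [h5, hG])
  rw [h1, h0] at h2
  rw [setLIntegral_congr (ico_ae a), setLIntegral_congr (ico_ae 0)] at h2
  rw [h2]
  simp only [Pi.zero_apply, zero_add]
  rfl

end per



section abs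

variable {G : Type} [Group G] [TopologicalSpace G] [IsTopologicalGroup G]
  [SecondCountableTopology G] [MeasurableSpace G] [BorelSpace G] {r : ℕ}

omit [SecondCountableTopology G] in
/-- substitution `g ↦ g h z⁻¹` -/
theorem subst1 (μ : Measure G) [μ.IsMulRightInvariant] (F1 F2 : G → ENNReal) (h z z' s : G) :
    ∫⁻ g, F1 (g * z * h⁻¹) * F2 (g * s * z' * h⁻¹) ∂μ =
      ∫⁻ g, F1 g * F2 (g * (h * z⁻¹ * s * z' * h⁻¹)) ∂μ := by
  rw [← lintegral_mul_right_eq_self (μ := μ) (fun g => F1 (g * z * h⁻¹) * F2 (g * s * z' * h⁻¹))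
    (h * z⁻¹)]
  refine lintegral_congr fun g => ?_
  have e1 : g * (h * z⁻¹) * z * h⁻¹ = g := by group
  have e2 : g * (h * z⁻¹) * s * z' * h⁻¹ = g * (h * z⁻¹ * s * z' * h⁻¹) := by group
  rw [e1, e2]

omit [SecondCountableTopology G] in
/-- the substitution `u = h s x h⁻¹` -/
theorem subst2 (μ : Measure G) [μ.IsMulLeftInvariant] [μ.IsMulRightInvariant]
    (w : G → ENNReal) (hwc : ∀ h x, w (h * x * h⁻¹) = w x) (φ : G → ENNReal) (h s : G) :
    ∫⁻ x, φ (h * (s * x) * h⁻¹) * w x ∂μ = ∫⁻ u, φ u * w (h * s⁻¹ * h⁻¹ * u) ∂μ := by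
  rw [← lintegral_mul_left_eq_self (μ := μ) (fun u => φ u * w (h * s⁻¹ * h⁻¹ * u)) (h * s)]
  rw [← lintegral_mul_right_eq_self (μ := μ)
    (fun x => φ (h * s * x) * w (h * s⁻¹ * h⁻¹ * (h * s * x))) (h⁻¹)]
  refine lintegral_congr fun x => ?_
  have e1 : h * (s * x) * h⁻¹ = h * s * (x * h⁻¹) := by group
  have e2 : h * s⁻¹ * h⁻¹ * (h * s * (x * h⁻¹)) = h * x * h⁻¹ := by group
  rw [e1, e2, hwc]

omit [SecondCountableTopology G] in
theorem map_inv_restrict (κ : Measure G) (hκ : κ.map Inv.inv = κ) (D : Set G)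
    (hD : MeasurableSet D) (hDi : ∀ z, z⁻¹ ∈ D ↔ z ∈ D) :
    (κ.restrict D).map Inv.inv = κ.restrict D := by
  have h := Measure.restrict_map (μ := κ) measurable_inv hD
  rw [hκ] at h
  have e : (Inv.inv ⁻¹' D : Set G) = D := by
    ext z
    exact hDi z
  rw [e] at h
  exact h.symm

theorem main (μ κ : Measure G) [IsProbabilityMeasure μ] [μ.IsMulLeftInvariant]
    [μ.IsMulRightInvariant] [IsProbabilityMeasure κ] (hκ : κ.map Inv.inv = κ)
    (t : (Fin r → ℝ) → G) (ht : Measurable t) (D : Set G) (hD : MeasurableSet D)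
    (hDi : ∀ z, z⁻¹ ∈ D ↔ z ∈ D) (w : G → ENNReal) (hw : Measurable w)
    (hwc : ∀ h x, w (h * x * h⁻¹) = w x) (tneg : ∀ θ, t (-θ) = (t θ)⁻¹)
    (tper : ∀ θ (n : Fin r → ℤ), t (θ + fun j => (n j : ℝ)) = t θ)
    (hM : ∀ φ : G → ENNReal, Measurable φ →
      ∫⁻ θ in Set.Icc (0 : Fin r → ℝ) 1, ∫⁻ z, ∫⁻ z', φ (z * t θ * z') ∂κ ∂κ =
        ∫⁻ θ in Set.Icc (0 : Fin r → ℝ) 1, ∫⁻ x, φ (t θ * x) * w x ∂μ)
    (hper : ∀ (F : (Fin r → ℝ) → ENNReal), (∀ θ (n : Fin r → ℤ), F (θ + fun j => (n j : ℝ)) = F θ) →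
      ∀ a : Fin r → ℝ, ∫⁻ θ in Set.Icc a (fun i => a i + 1), F θ =
        ∫⁻ θ in Set.Icc (0 : Fin r → ℝ) 1, F θ)
    (S : Set (Fin r → ℝ)) (a : Fin r → ℝ) (hSa : S ⊆ Set.Icc a (fun i => a i + 1))
    (A : Set G) (hA : MeasurableSet A)
    (hmem : ∀ h z z' θ, z ∈ D → z' ∈ D → θ ∈ S → h * z * t θ * z' * h⁻¹ ∈ A) (K : ENNReal)
    (hS : MeasurableSet S)
    (hK : ∀ u ∈ A, ∫⁻ h, (∫⁻ θ in Set.Icc (0 : Fin r → ℝ) 1, w (h * t (-θ) * h⁻¹ * u)) ∂μ ≤ K)
    (F1 F2 : G → ENNReal) (hF1 : Measurable F1) (hF2 : Measurable F2) :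
    ∫⁻ h, ∫⁻ g, (∫⁻ θ in S, (∫⁻ z in D, F1 (g * z * h⁻¹) ∂κ) *
      (∫⁻ z in D, F2 (g * t θ * z * h⁻¹) ∂κ)) ∂μ ∂μ ≤ K * ((∫⁻ x, F1 x ∂μ) * ∫⁻ x, F2 x ∂μ) := by
  classical
  set κD := κ.restrict D with hκD
  have hκDi : κD.map Inv.inv = κD := map_inv_restrict κ hκ D hD hDi
  set Ψ : G → ENNReal := fun u => ∫⁻ g, F1 g * F2 (g * u) ∂μ with hΨ
  have hΨm : Measurable Ψ := by
    refine Measurable.lintegral_prod_right' (f := fun p : G × G => F1 p.2 * F2 (p.2 * p.1)) ?_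
    exact (hF1.comp measurable_snd).mul (hF2.comp (measurable_snd.mul measurable_fst))
  have hΨi : ∫⁻ u, Ψ u ∂μ = (∫⁻ x, F1 x ∂μ) * ∫⁻ x, F2 x ∂μ := by
    rw [hΨ, lintegral_lintegral_swap]
    · have : ∀ g, ∫⁻ u, F1 g * F2 (g * u) ∂μ = F1 g * ∫⁻ x, F2 x ∂μ := by
        intro g
        rw [lintegral_const_mul, lintegral_mul_left_eq_self]
        exact hF2.comp (by fun_prop)
      simp_rw [this]
      rw [lintegral_mul_const _ hF1]
    · exact ((hF1.comp measurable_snd).mul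
        (hF2.comp (measurable_snd.mul measurable_fst))).aemeasurable
  -- step 1
  have step1 : ∀ h, ∫⁻ g, (∫⁻ θ in S, (∫⁻ z in D, F1 (g * z * h⁻¹) ∂κ) *
      (∫⁻ z in D, F2 (g * t θ * z * h⁻¹) ∂κ)) ∂μ =
      ∫⁻ θ in S, ∫⁻ z, ∫⁻ z', Ψ (h * z⁻¹ * t θ * z' * h⁻¹) ∂κD ∂κD := by
    intro h
    have e1 : ∀ g, (∫⁻ θ in S, (∫⁻ z in D, F1 (g * z * h⁻¹) ∂κ) *
      (∫⁻ z in D, F2 (g * t θ * z * h⁻¹) ∂κ)) =
        ∫⁻ θ in S, ∫⁻ z, ∫⁻ z', F1 (g * z * h⁻¹) * F2 (g * t θ * z' * h⁻¹) ∂κD ∂κD := by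
      intro g
      refine lintegral_congr fun θ => ?_
      rw [← lintegral_mul_const]
      · refine lintegral_congr fun z => ?_
        rw [lintegral_const_mul]
        exact hF2.comp (by fun_prop)
      · exact hF1.comp (by fun_prop)
    simp_rw [e1]
    have m0 : Measurable fun p : G × ((Fin r → ℝ) × (G × G)) =>
        F1 (p.1 * p.2.2.1 * h⁻¹) * F2 (p.1 * t p.2.1 * p.2.2.2 * h⁻¹) := by
      refine (hF1.comp (by fun_prop)).mul (hF2.comp ?_)
      have : Measurable fun p : G × ((Fin r → ℝ) × (G × G)) => t p.2.1 :=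
        ht.comp (by fun_prop)
      fun_prop
    rw [lintegral_lintegral_swap]
    · refine lintegral_congr fun θ => ?_
      rw [lintegral_lintegral_swap]
      · refine lintegral_congr fun z => ?_
        rw [lintegral_lintegral_swap]
        · refine lintegral_congr fun z' => ?_
          exact subst1 μ F1 F2 h z z' (t θ)
        · exact (m0.comp (by fun_prop : Measurable fun q : G × G => (q.1, (θ, (z, q.2))))).aemeasurable
      · refine Measurable.aemeasurable ?_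
        refine Measurable.lintegral_prod_right' (f := fun q : (G × G) × G =>
          F1 (q.1.1 * q.1.2 * h⁻¹) * F2 (q.1.1 * t θ * q.2 * h⁻¹)) ?_
        exact m0.comp (by fun_prop : Measurable fun q : (G × G) × G => (q.1.1, (θ, (q.1.2, q.2))))
    · refine Measurable.aemeasurable ?_
      refine Measurable.lintegral_prod_right' (f := fun q : (G × (Fin r → ℝ)) × G =>
          ∫⁻ z', F1 (q.1.1 * q.2 * h⁻¹) * F2 (q.1.1 * t q.1.2 * z' * h⁻¹) ∂κD) ?_
      refine Measurable.lintegral_prod_right' (f := fun q : ((G × (Fin r → ℝ)) × G) × G =>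
          F1 (q.1.1.1 * q.1.2 * h⁻¹) * F2 (q.1.1.1 * t q.1.1.2 * q.2 * h⁻¹)) ?_
      exact m0.comp (by fun_prop : Measurable fun q : ((G × (Fin r → ℝ)) × G) × G =>
        (q.1.1.1, (q.1.1.2, (q.1.2, q.2))))
  refine (lintegral_congr step1).le.trans ?_
  -- step 2
  have step2 : ∀ h θ, ∫⁻ z, ∫⁻ z', Ψ (h * z⁻¹ * t θ * z' * h⁻¹) ∂κD ∂κD =
      ∫⁻ z, ∫⁻ z', Ψ (h * z * t θ * z' * h⁻¹) ∂κD ∂κD := by
    intro h θ
    have m1 : Measurable fun z => ∫⁻ z', Ψ (h * z * t θ * z' * h⁻¹) ∂κD := by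
      refine Measurable.lintegral_prod_right' (f := fun q : G × G =>
        Ψ (h * q.1 * t θ * q.2 * h⁻¹)) ?_
      exact hΨm.comp (by fun_prop)
    conv_rhs => rw [← hκDi]
    rw [lintegral_map _ measurable_inv]
    · rw [hκDi]
    · rw [hκDi]; exact m1
  simp_rw [step2]
  -- step 3
  set Ψ' : G → ENNReal := A.indicator Ψ with hΨ'
  have hΨ'm : Measurable Ψ' := hΨm.indicator hA
  have step3 : ∀ h θ, θ ∈ S → ∫⁻ z, ∫⁻ z', Ψ (h * z * t θ * z' * h⁻¹) ∂κD ∂κD ≤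
      ∫⁻ z, ∫⁻ z', Ψ' (h * z * t θ * z' * h⁻¹) ∂κ ∂κ := by
    intro h θ hθ
    have e2 : ∫⁻ z, ∫⁻ z', Ψ (h * z * t θ * z' * h⁻¹) ∂κD ∂κD =
        ∫⁻ z in D, ∫⁻ z' in D, Ψ' (h * z * t θ * z' * h⁻¹) ∂κ ∂κ := by
      rw [hκD]
      refine setLIntegral_congr_fun hD fun z hz => ?_
      refine setLIntegral_congr_fun hD fun z' hz' => ?_
      rw [hΨ', Set.indicator_of_mem (hmem h z z' θ hz hz' hθ)]
    rw [e2]
    refine (setLIntegral_le_lintegral _ _).trans ?_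
    exact lintegral_mono fun z => setLIntegral_le_lintegral _ _
  have step4 : ∀ h, ∫⁻ θ in S, ∫⁻ z, ∫⁻ z', Ψ (h * z * t θ * z' * h⁻¹) ∂κD ∂κD ≤
      ∫⁻ θ in Set.Icc (0 : Fin r → ℝ) 1, ∫⁻ z, ∫⁻ z', Ψ' (h * z * t θ * z' * h⁻¹) ∂κ ∂κ := by
    intro h
    refine (setLIntegral_mono' hS fun θ hθ => step3 h θ hθ).trans ?_
    refine (lintegral_mono_set hSa).trans ?_
    refine le_of_eq (hper _ ?_ a)
    intro θ n
    simp_rw [tper θ n]
  have step5 : ∀ h, ∫⁻ θ in Set.Icc (0 : Fin r → ℝ) 1,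
      ∫⁻ z, ∫⁻ z', Ψ' (h * z * t θ * z' * h⁻¹) ∂κ ∂κ =
      ∫⁻ θ in Set.Icc (0 : Fin r → ℝ) 1, ∫⁻ u, Ψ' u * w (h * t (-θ) * h⁻¹ * u) ∂μ := by
    intro h
    have h1 := hM (fun x => Ψ' (h * x * h⁻¹)) (hΨ'm.comp (by fun_prop))
    have e3 : ∀ θ z z', Ψ' (h * (z * t θ * z') * h⁻¹) = Ψ' (h * z * t θ * z' * h⁻¹) := by
      intro θ z z'
      congr 1
      group
    simp_rw [e3] at h1
    rw [h1]
    refine lintegral_congr fun θ => ?_
    rw [subst2 μ w hwc Ψ' h (t θ), tneg]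
  calc ∫⁻ h, (∫⁻ θ in S, ∫⁻ z, ∫⁻ z', Ψ (h * z * t θ * z' * h⁻¹) ∂κD ∂κD) ∂μ
      ≤ ∫⁻ h, (∫⁻ θ in Set.Icc (0 : Fin r → ℝ) 1,
          ∫⁻ u, Ψ' u * w (h * t (-θ) * h⁻¹ * u) ∂μ) ∂μ := by
        refine lintegral_mono fun h => ?_
        rw [← step5 h]
        exact step4 h
    _ = ∫⁻ u, Ψ' u * ∫⁻ h, (∫⁻ θ in Set.Icc (0 : Fin r → ℝ) 1,
          w (h * t (-θ) * h⁻¹ * u)) ∂μ ∂μ := by
        have m2 : Measurable fun p : G × ((Fin r → ℝ) × G) =>
            w (p.1 * t (-p.2.1) * p.1⁻¹ * p.2.2) := by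
          refine hw.comp ?_
          have : Measurable fun p : G × ((Fin r → ℝ) × G) => t (-p.2.1) :=
            ht.comp (by fun_prop)
          fun_prop
        have m3 : Measurable fun p : G × ((Fin r → ℝ) × G) =>
            Ψ' p.2.2 * w (p.1 * t (-p.2.1) * p.1⁻¹ * p.2.2) :=
          (hΨ'm.comp (by fun_prop)).mul m2
        have e4 : ∀ h, ∫⁻ θ in Set.Icc (0 : Fin r → ℝ) 1,
            ∫⁻ u, Ψ' u * w (h * t (-θ) * h⁻¹ * u) ∂μ =
            ∫⁻ u, (∫⁻ θ in Set.Icc (0 : Fin r → ℝ) 1, Ψ' u * w (h * t (-θ) * h⁻¹ * u)) ∂μ := by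
          intro h
          rw [lintegral_lintegral_swap]
          exact (m3.comp (by fun_prop : Measurable fun q : (Fin r → ℝ) × G =>
            (h, (q.1, q.2)))).aemeasurable
        simp_rw [e4]
        rw [lintegral_lintegral_swap]
        · refine lintegral_congr fun u => ?_
          rw [← lintegral_const_mul]
          · refine lintegral_congr fun h => ?_
            rw [lintegral_const_mul]
            exact m2.comp (by fun_prop : Measurable fun θ : Fin r → ℝ => (h, (θ, u)))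
          · refine Measurable.lintegral_prod_right' (f := fun q : G × (Fin r → ℝ) =>
              w (q.1 * t (-q.2) * q.1⁻¹ * u)) ?_
            exact m2.comp (by fun_prop : Measurable fun q : G × (Fin r → ℝ) => (q.1, (q.2, u)))
        · refine Measurable.aemeasurable ?_
          refine Measurable.lintegral_prod_right' (f := fun q : (G × G) × (Fin r → ℝ) =>
              Ψ' q.1.2 * w (q.1.1 * t (-q.2) * q.1.1⁻¹ * q.1.2)) ?_
          exact m3.comp (by fun_prop : Measurable fun q : (G × G) × (Fin r → ℝ) =>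
            (q.1.1, (q.2, q.1.2)))
    _ ≤ ∫⁻ u, Ψ u * K ∂μ := by
        refine lintegral_mono fun u => ?_
        by_cases hu : u ∈ A
        · rw [hΨ', Set.indicator_of_mem hu]
          exact mul_le_mul_right (hK u hu) _
        · rw [hΨ', Set.indicator_of_notMem hu, zero_mul]
          exact zero_le
    _ = K * ((∫⁻ x, F1 x ∂μ) * ∫⁻ x, F2 x ∂μ) := by
        rw [lintegral_mul_const _ hΨm, hΨi, mul_comm]

end abs



section abs2

variable {G : Type} [Group G] [TopologicalSpace G] [IsTopologicalGroup G] [CompactSpace G]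
  [T2Space G] [SecondCountableTopology G] [MeasurableSpace G] [BorelSpace G] {r : ℕ}

omit [Group G] [IsTopologicalGroup G] [T2Space G] [SecondCountableTopology G]
  [MeasurableSpace G] [BorelSpace G] in
theorem bdd (f : G → ℝ) (hf : Continuous f) : ∃ C : ℝ, ∀ x, ‖f x‖ ≤ C := by
  obtain ⟨C, hC⟩ := (isCompact_univ (X := G)).exists_bound_of_continuousOn hf.continuousOn
  exact ⟨C, fun x => hC x (Set.mem_univ x)⟩

omit [CompactSpace G] in
theorem ext_cont (P P' : Measure G) [IsFiniteMeasure P] [IsFiniteMeasure P']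
    (h : ∀ f : G → ℝ, Continuous f → ∫ x, f x ∂P = ∫ x, f x ∂P') : P = P' := by
  let := TopologicalSpace.metrizableSpaceMetric G
  exact ext_of_forall_integral_eq_of_IsFiniteMeasure fun f => h f f.continuous

theorem mtk (κ ϖ : Measure G) [IsProbabilityMeasure κ] [IsFiniteMeasure ϖ]
    (t : (Fin r → ℝ) → G) (ht : Continuous t)
    (h : ∀ f : G → ℂ, Continuous f →
      ∫ θ in Set.Icc (0 : Fin r → ℝ) 1, ∫ z, ∫ z', f (z * t θ * z') ∂κ ∂κ =
        ∫ θ in Set.Icc (0 : Fin r → ℝ) 1, ∫ x, f (t θ * x) ∂ϖ)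
    (φ : G → ENNReal) (hφ : Measurable φ) :
    ∫⁻ θ in Set.Icc (0 : Fin r → ℝ) 1, ∫⁻ z, ∫⁻ z', φ (z * t θ * z') ∂κ ∂κ =
      ∫⁻ θ in Set.Icc (0 : Fin r → ℝ) 1, ∫⁻ x, φ (t θ * x) ∂ϖ := by
  set ν : Measure (Fin r → ℝ) := volume.restrict (Set.Icc (0 : Fin r → ℝ) 1) with hν
  have hνf : IsFiniteMeasure ν := isFiniteMeasure_restrict.2 isCompact_Icc.measure_lt_top.ne
  have htm : Measurable t := ht.measurable
  have m1 : Measurable fun p : (Fin r → ℝ) × (G × G) => p.2.1 * t p.1 * p.2.2 := by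
    have : Measurable fun p : (Fin r → ℝ) × (G × G) => t p.1 := htm.comp measurable_fst
    fun_prop
  have m2 : Measurable fun p : (Fin r → ℝ) × G => t p.1 * p.2 := by
    have : Measurable fun p : (Fin r → ℝ) × G => t p.1 := htm.comp measurable_fst
    fun_prop
  have hP : (ν.prod (κ.prod κ)).map (fun p => p.2.1 * t p.1 * p.2.2) =
      (ν.prod ϖ).map (fun p => t p.1 * p.2) := by
    refine ext_cont _ _ fun f hf => ?_
    obtain ⟨C, hC⟩ := bdd f hf
    rw [integral_map m1.aemeasurable hf.aestronglyMeasurable,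
      integral_map m2.aemeasurable hf.aestronglyMeasurable,
      integral_prod, integral_prod]
    · have h1 := h (fun x => (f x : ℂ)) (by fun_prop)
      simp only [integral_complex_ofReal] at h1
      have h2 : ∫ θ, ∫ z, ∫ z', f (z * t θ * z') ∂κ ∂κ ∂ν = ∫ θ, ∫ x, f (t θ * x) ∂ϖ ∂ν := by
        exact_mod_cast h1
      rw [← h2]
      refine integral_congr_ae (Eventually.of_forall fun θ => ?_)
      simp only
      rw [integral_prod]
      refine Integrable.of_bound ?_ C (Eventually.of_forall fun p => hC _)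
      exact (hf.measurable.comp (m1.comp (by fun_prop :
        Measurable fun q : G × G => (θ, q)))).aestronglyMeasurable
    · refine Integrable.of_bound ?_ C (Eventually.of_forall fun p => hC _)
      exact (hf.measurable.comp m2).aestronglyMeasurable
    · refine Integrable.of_bound ?_ C (Eventually.of_forall fun p => hC _)
      exact (hf.measurable.comp m1).aestronglyMeasurable
  have h3 : ∫⁻ x, φ x ∂((ν.prod (κ.prod κ)).map (fun p => p.2.1 * t p.1 * p.2.2)) =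
      ∫⁻ x, φ x ∂((ν.prod ϖ).map (fun p => t p.1 * p.2)) := by rw [hP]
  rw [lintegral_map hφ m1, lintegral_map hφ m2, lintegral_prod, lintegral_prod] at h3
  · rw [← h3]
    refine lintegral_congr fun θ => ?_
    rw [lintegral_prod]
    exact (hφ.comp (m1.comp (by fun_prop : Measurable fun q : G × G => (θ, q)))).aemeasurable
  · exact (hφ.comp m2).aemeasurable
  · exact (hφ.comp m1).aemeasurable

theorem hkm (μ ϖ : Measure G) [IsProbabilityMeasure μ] [IsFiniteMeasure ϖ] (k : G → ℂ)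
    (hk : Continuous k) (hk0 : ∀ x, (k x).im = 0 ∧ 0 ≤ (k x).re)
    (h : ∀ f : G → ℂ, Continuous f → ∫ x, f x ∂ϖ = ∫ x, f x * k x ∂μ) :
    ϖ = μ.withDensity (fun x => ENNReal.ofReal (k x).re) := by
  have hkr : Continuous fun x => (k x).re := Complex.continuous_re.comp hk
  obtain ⟨C, hC⟩ := bdd _ hkr
  have hI : Integrable (fun x => (k x).re) μ :=
    Integrable.of_bound hkr.aestronglyMeasurable C (Eventually.of_forall hC)
  have : IsFiniteMeasure (μ.withDensity (fun x => ENNReal.ofReal (k x).re)) :=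
    isFiniteMeasure_withDensity_ofReal hI.2
  refine ext_cont _ _ fun f hf => ?_
  rw [integral_withDensity_eq_integral_toReal_smul hkr.measurable.ennreal_ofReal
    (Eventually.of_forall fun x => ENNReal.ofReal_lt_top)]
  have h1 := h (fun x => (f x : ℂ)) (by fun_prop)
  have h2 : ∀ x, (f x : ℂ) * k x = ((f x * (k x).re : ℝ) : ℂ) := by
    intro x
    apply Complex.ext
    · simp [(hk0 x).1]
    · simp [(hk0 x).1]
  simp_rw [h2] at h1
  rw [integral_complex_ofReal, integral_complex_ofReal] at h1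
  have h3 : ∫ x, f x ∂ϖ = ∫ x, f x * (k x).re ∂μ := by exact_mod_cast h1
  rw [h3]
  refine integral_congr_ae (Eventually.of_forall fun x => ?_)
  simp only [smul_eq_mul]
  rw [ENNReal.toReal_ofReal (hk0 x).2, mul_comm]

end abs2


/-- a double integral of a bounded function -/
theorem lint_two {α β : Type*} [MeasurableSpace α] [MeasurableSpace β] (μ : Measure α)
    (ν : Measure β) [IsFiniteMeasure μ] [IsFiniteMeasure ν] (g : α × β → ℝ) (hg : Measurable g)
    (C : ℝ) (h0 : ∀ p, 0 ≤ g p) (hC : ∀ p, g p ≤ C) :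
    ∫⁻ x, ∫⁻ y, ENNReal.ofReal (g (x, y)) ∂ν ∂μ =
      ENNReal.ofReal (∫ x, ∫ y, g (x, y) ∂ν ∂μ) := by
  have hI : Integrable g (μ.prod ν) := Integrable.of_bound hg.aestronglyMeasurable C
    (Eventually.of_forall fun p => by rw [Real.norm_of_nonneg (h0 p)]; exact hC p)
  rw [← integral_prod _ hI, ofReal_integral_eq_lintegral_ofReal hI (Eventually.of_forall h0),
    lintegral_prod]
  exact hg.ennreal_ofReal.aemeasurable

end JBD

open JBD in
theorem t_JBD0 (hHAAR : S_HAAR) (hLIEB : S_LIEB) (hGXOC : S_GXOC) (hPSF : S_PSF) (hEXI : S_EXI)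
    (hSYK : S_SYK) (hHKS : S_HKS) (hHKM : S_HKM) (hMTK : S_MTK) (hDET : S_DET) (hSBD : S_SBD) :
    S_JBD := by
  intro N H r Φ B Hc E c k d hCX μ _ _ j
  classical
  have hcl := hCX.closed
  have hcs : CompactSpace H := isCompact_iff_compactSpace.1 hcl.isCompact
  have hsec : SecondCountableTopology H :=
    inferInstanceAs (SecondCountableTopology ((H : Set (SU N)) : Type))
  obtain ⟨hR, hI, hO⟩ := hHAAR H μ
  obtain ⟨X, hX⟩ := hCX.frame
  obtain ⟨⟨χ, hχ⟩, -⟩ := hGXOC N H r Φ B Hc E c k d X hCX.one_le hCX.closed hCX.conn hCX.lrd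
    hCX.kc hX
  obtain ⟨CP, hCP, P⟩ := hPSF N H r Φ B Hc E c k d hCX
  obtain ⟨C₂, hC₂, hD⟩ := hDET N H r Φ B Hc E c k d hCX
  obtain ⟨C₃, hC₃, hS⟩ := hSBD N H r Φ B Hc E c k d hCX μ χ hχ j C₂
  have hkc := (hHKS N H r Φ B Hc E c k d hCX χ hχ).1
  have hlie := hLIEB N H hcl
  have hC₂0 : 0 < C₂ := by linarith
  refine ⟨C₃ * C₂, by positivity, ?_⟩
  intro ϑ ρ κ hϑ hϑ' hρ hρ' hκ S a F₀ hSm hSa hF₀ hSF f₁ f₂ hf₁ hf₂ h1 h2
  obtain ⟨FF, hFF⟩ := hD ρ hρ hρ'
  obtain ⟨ϖ, hϖ⟩ := hEXI N H hcl (Fin d) (fun a => ((√(2 * ϑ / k) : ℝ) : ℂ) • X a)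
    (fun a => hlie.smul _ _ (hX.mem a))
  have hGM : GM H c k d (2 * ϑ) ϖ := ⟨X, hX, hϖ⟩
  have hκp : IsProbabilityMeasure κ := hκ.prob
  have hϖp : IsProbabilityMeasure ϖ := hϖ.prob
  have hκi : κ.map Inv.inv = κ := by
    refine hSYK N H hcl _ _ κ ?_ hκ
    intro a
    refine hlie.smul _ _ ?_
    unfold yr
    refine hlie.smul _ _ ?_
    have hp : a.1.1 ∈ Φ := (Finset.mem_filter.1 a.1.2).1
    split_ifs
    · exact (hCX.lrd.emem _ hp).1
    · exact (hCX.lrd.emem _ hp).2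
  -- the heat kernel
  set kk : H → ℂ := hk Φ χ (2 * ϑ) with hkk
  have hkkc : Continuous kk := hkc (2 * ϑ) (by linarith)
  obtain ⟨hk0, hk1⟩ := hHKM N H r Φ B Hc E c k d hCX μ χ hχ (2 * ϑ) (by linarith)
  rw [← hkk] at hk0 hk1
  have hϖd := hkm μ ϖ kk hkkc hk0 (fun f hf => hk1 ϖ hGM f hf)
  set w : H → ENNReal := fun x => ENNReal.ofReal (kk x).re with hw
  have hwm : Measurable w := (Complex.continuous_re.comp hkkc).measurable.ennreal_ofReal
  have hnorm : ∀ x, (kk x).re = ‖kk x‖ := by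
    intro x
    have h3 : kk x = ((kk x).re : ℂ) := by
      apply Complex.ext
      · simp
      · simp [(hk0 x).1]
    rw [h3, Complex.norm_real, Complex.ofReal_re, Real.norm_of_nonneg (hk0 x).2]
  have hkcl : ∀ h x : H, kk (h * x * h⁻¹) = kk x := by
    intro h x
    rw [hkk]
    unfold hk
    refine tsum_congr fun i => ?_
    have h3 : χ i (h * x * h⁻¹) = χ i x := by
      obtain ⟨n, σ, -, -, -, hσ⟩ := hχ i
      rw [← hσ, ← hσ, Rep.ch, Rep.ch, map_mul, map_mul, Matrix.trace_mul_comm, ← mul_assoc,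
        ← map_mul, inv_mul_cancel, map_one, one_mul]
    rw [h3]
  have hwc : ∀ h x : H, w (h * x * h⁻¹) = w x := by
    intro h x
    simp only [hw, hkcl h x]
  have hM : ∀ φ : H → ENNReal, Measurable φ →
      ∫⁻ θ in Set.Icc (0 : Fin r → ℝ) 1, ∫⁻ z, ∫⁻ z', φ (z * tt H Hc θ * z') ∂κ ∂κ =
        ∫⁻ θ in Set.Icc (0 : Fin r → ℝ) 1, ∫⁻ x, φ (tt H Hc θ * x) * w x ∂μ := by
    intro φ hφ
    rw [mtk κ ϖ (tt H Hc) P.tcont
      (fun f hf => hMTK N H r Φ B Hc E c k d hCX ϑ κ ϖ hϑ hκ hGM f hf) φ hφ]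
    refine lintegral_congr fun θ => ?_
    have e0 := lintegral_withDensity_eq_lintegral_mul μ hwm
      (hφ.comp (measurable_const_mul (tt H Hc θ)))
    rw [← hϖd] at e0
    refine e0.trans ?_
    refine lintegral_congr fun x => ?_
    simp only [Pi.mul_apply, Function.comp_apply]
    exact mul_comm _ _
  -- the sets
  set D : Set H := {z : H | ps z ≤ ρ ^ 2} with hDdef
  have hDm : MeasurableSet D := (isClosed_le P.cont continuous_const).measurableSet
  have hDi : ∀ z, z⁻¹ ∈ D ↔ z ∈ D := by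
    intro z
    simp only [hDdef, Set.mem_ofPred_eq, P.inv]
  set A : Set H := {u : H | F₀ / C₂ ≤ FF u} with hAdef
  have hAm : MeasurableSet A := (isClosed_le continuous_const hFF.cont).measurableSet
  have hsq : ∀ z ∈ D, √(ps z) ≤ ρ := by
    intro z hz
    rw [Real.sqrt_le_left hρ.le]
    exact hz
  have hmem : ∀ (h z z' : H) (θ : Fin r → ℝ), z ∈ D → z' ∈ D → θ ∈ S →
      h * z * tt H Hc θ * z' * h⁻¹ ∈ A := by
    intro h z z' θ hz hz' hθ
    have e1 : h * z * tt H Hc θ * z' * h⁻¹ = h * (z * tt H Hc θ * z') * h⁻¹ := by group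
    rw [hAdef, Set.mem_ofPred_eq, e1, hFF.cnj]
    have h3 : ps ((z * tt H Hc θ * z')⁻¹ * tt H Hc θ) ≤ 4 * ρ ^ 2 := by
      have e2 : (z * tt H Hc θ * z')⁻¹ * tt H Hc θ =
          z'⁻¹ * ((tt H Hc θ)⁻¹ * z⁻¹ * ((tt H Hc θ)⁻¹)⁻¹) := by group
      have h4 := P.mul z'⁻¹ ((tt H Hc θ)⁻¹ * z⁻¹ * ((tt H Hc θ)⁻¹)⁻¹)
      rw [← e2, P.cnj, P.inv, P.inv] at h4
      have h5 : √(ps ((z * tt H Hc θ * z')⁻¹ * tt H Hc θ)) ≤ 2 * ρ := by
        linarith [hsq z hz, hsq z' hz']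
      rw [Real.sqrt_le_left (by linarith)] at h5
      nlinarith
    have h4 := hFF.cmp _ _ h3
    have h5 : F₀ ≤ FF (tt H Hc θ) := by
      rw [hFF.tor]
      refine (hSF θ hθ).trans ?_
      refine Finset.prod_le_prod (fun p _ => by positivity) fun p _ => ?_
      nlinarith [sq_nonneg ‖1 - eu (dz p.1 θ)‖]
    rw [div_le_iff₀ hC₂0]
    linarith
  -- the bound
  set B₀ : ℝ := (ρ ^ 2 / ϑ) ^ ((d : ℝ) / 2) / F₀ + ϑ ^ (-((d : ℝ) / 2)) * (ϑ / ρ ^ 2) ^ j with hB₀
  have hB₀0 : 0 ≤ B₀ := by positivity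
  obtain ⟨Ck, hCk⟩ := bdd (fun x => (kk x).re) (Complex.continuous_re.comp hkkc)
  have hνf : IsFiniteMeasure (volume.restrict (Set.Icc (0 : Fin r → ℝ) 1)) :=
    isFiniteMeasure_restrict.2 isCompact_Icc.measure_lt_top.ne
  have hK : ∀ u ∈ A, ∫⁻ h, (∫⁻ θ in Set.Icc (0 : Fin r → ℝ) 1,
      w (h * tt H Hc (-θ) * h⁻¹ * u)) ∂μ ≤ ENNReal.ofReal (C₃ * C₂ * B₀) := by
    intro u hu
    have m1 : Measurable fun p : H × (Fin r → ℝ) =>
        (kk (p.1 * tt H Hc (-p.2) * p.1⁻¹ * u)).re := by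
      have h3 : Continuous fun p : H × (Fin r → ℝ) => tt H Hc (-p.2) :=
        P.tcont.comp continuous_snd.neg
      have h4 : Continuous fun p : H × (Fin r → ℝ) => p.1 * tt H Hc (-p.2) * p.1⁻¹ * u := by
        fun_prop
      have h5 : Continuous fun p : H × (Fin r → ℝ) =>
          (kk (p.1 * tt H Hc (-p.2) * p.1⁻¹ * u)).re := Complex.continuous_re.comp (hkkc.comp h4)
      exact h5.measurable
    have h3 := lint_two μ (volume.restrict (Set.Icc (0 : Fin r → ℝ) 1))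
      (fun p : H × (Fin r → ℝ) => (kk (p.1 * tt H Hc (-p.2) * p.1⁻¹ * u)).re) m1 Ck
      (fun p => (hk0 _).2) (fun p => (le_abs_self _).trans (hCk _))
    have h4 := hS ϑ ρ FF hϑ hϑ' hρ hρ' hFF u
    have h5 : ∫ h, (∫ θ in Set.Icc (0 : Fin r → ℝ) 1,
        (kk (h * tt H Hc (-θ) * h⁻¹ * u)).re) ∂μ ≤ C₃ * C₂ * B₀ := by
      simp_rw [hnorm]
      refine h4.trans ?_
      have hu' : F₀ / C₂ ≤ FF u := hu
      have hpos : 0 < F₀ / C₂ := by positivity
      rw [mul_assoc]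
      refine mul_le_mul_of_nonneg_left ?_ hC₃
      rw [hB₀, mul_add]
      refine add_le_add ?_ ?_
      · have h6 : (ρ ^ 2 / ϑ) ^ ((d : ℝ) / 2) / FF u ≤ (ρ ^ 2 / ϑ) ^ ((d : ℝ) / 2) / (F₀ / C₂) :=
          div_le_div_of_nonneg_left (by positivity) hpos hu'
        refine h6.trans (le_of_eq ?_)
        field_simp
      · exact le_mul_of_one_le_left (by positivity) hC₂
    exact h3.le.trans (ENNReal.ofReal_le_ofReal h5)
  have hmain := main μ κ hκi (tt H Hc) P.tcont.measurable D hDm hDi w hwm hwc P.tneg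
    (fun θ n => by rw [P.tadd, P.tint, mul_one]) hM (fun F hF a => setLIntegral_per F hF a)
    S a hSa A hAm hmem _ hSm hK (fun x => ENNReal.ofReal (f₁ x)) (fun x => ENNReal.ofReal (f₂ x))
    hf₁.measurable.ennreal_ofReal hf₂.measurable.ennreal_ofReal
  have hi : ∀ f : H → ℝ, Continuous f → (∀ x, 0 ≤ f x) →
      ∫⁻ x, ENNReal.ofReal (f x) ∂μ = ENNReal.ofReal (∫ x, f x ∂μ) := by
    intro f hf h0
    obtain ⟨C, hC⟩ := bdd f hf
    exact (ofReal_integral_eq_lintegral_ofReal (Integrable.of_bound hf.aestronglyMeasurable C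
      (Eventually.of_forall hC)) (Eventually.of_forall h0)).symm
  rw [hi f₁ hf₁ h1, hi f₂ hf₂ h2, ← ENNReal.ofReal_mul (integral_nonneg h1),
    ← ENNReal.ofReal_mul (by positivity)] at hmain
  have hi1 : 0 ≤ ∫ x, f₁ x ∂μ := integral_nonneg h1
  have hi2 : 0 ≤ ∫ x, f₂ x ∂μ := integral_nonneg h2
  have hR0 : 0 ≤ C₃ * C₂ * B₀ * ((∫ x, f₁ x ∂μ) * ∫ x, f₂ x ∂μ) := by positivity
  rw [← ENNReal.ofReal_le_ofReal_iff hR0]
  refine le_trans ?_ hmain
  refine (ofReal_integral_le μ _).trans (lintegral_mono fun h => ?_)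
  refine (ofReal_integral_le μ _).trans (lintegral_mono fun g => ?_)
  refine (ofReal_integral_le _ _).trans (lintegral_mono fun θ => ?_)
  dsimp only
  rw [ENNReal.ofReal_mul (integral_nonneg fun z => h1 _)]
  exact mul_le_mul' (ofReal_integral_le _ _) (ofReal_integral_le _ _)

theorem t_JBD : M_JBD := t_JBD0

end

end STZ3
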