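import Pool.Agent.STZ3.StQ
import Pool.Agent.STZ.GEO

/-!
# STZ3, module VOL: the volume of a ball
-/

namespace STZ3

open STZ LGR MeasureTheory Matrix Filter

open scoped ComplexConjugate Matrix Real Topology

noncomputable section

namespace VOL

open scoped Matrix.Norms.Frobenius in
/-- A matrix equation `g E = e E g`. -/
theorem small {N : ℕ} (g E : MT N) (e : ℂ) (he : ‖e‖ = 1) (hE : 0 < (E * Eᴴ).trace.re)
    (h : g * E = e • (E * g)) :
    ‖1 - e‖ ≤ 2 * √(∑ i, ∑ j, ‖g i j - (1 : MT N) i j‖ ^ 2) := by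
  have hE0 : E ≠ 0 := by
    rintro rfl
    simp at hE
  have hEn : 0 < ‖E‖ := norm_pos_iff.2 hE0
  have hid : (e - 1) • E = (g - 1) * E - e • (E * (g - 1)) := by
    rw [sub_mul, one_mul, mul_sub, mul_one, smul_sub, sub_smul, one_smul, h]
    abel
  have h1 : ‖(e - 1) • E‖ ≤ ‖g - 1‖ * ‖E‖ + ‖E‖ * ‖g - 1‖ := by
    rw [hid]
    refine (norm_sub_le _ _).trans ?_
    refine add_le_add (Matrix.frobenius_norm_mul _ _) ?_
    rw [norm_smul, he, one_mul]
    exact Matrix.frobenius_norm_mul _ _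
  have h2 : ‖g - 1‖ = √(∑ i, ∑ j, ‖g i j - (1 : MT N) i j‖ ^ 2) := by
    rw [Matrix.frobenius_norm_def, Real.sqrt_eq_rpow]
    congr 1
    refine Finset.sum_congr rfl fun i _ => Finset.sum_congr rfl fun j _ => ?_
    rw [Matrix.sub_apply]
    exact_mod_cast Real.rpow_natCast _ 2
  rw [norm_smul, h2] at h1
  rw [norm_sub_rev]
  refine le_of_mul_le_mul_right ?_ hEn
  calc ‖e - 1‖ * ‖E‖ ≤ _ := h1
    _ = _ := by ring

theorem lint {N : ℕ} {H : Subgroup (SU N)} (μ : Measure H) [IsProbabilityMeasure μ] (c : ENNReal) :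
    ∫⁻ _ : H, c ∂μ = c := by
  rw [lintegral_const, measure_univ, mul_one]

end VOL

open VOL in
theorem t_VOL : M_VOL := by
  intro hLIEB hWFAC hDENO hTAUF hADFR hPSF hWIF hBOH N H r Φ B Hc E c k d hCX μ _ _ C₁ hC₁
  obtain ⟨C₀, -, P⟩ := hPSF N H r Φ B Hc E c k d hCX
  have hIRD := hCX.lrd.ird
  have hW := hWFAC r Φ B hIRD
  have hT := hTAUF N H r Φ B Hc E hCX.closed hCX.lrd
  have hd : d = 2 * (pos Φ).card + r := by
    obtain ⟨X, hX⟩ := hCX.frame
    exact (hADFR N H r Φ B Hc E c k d X hCX.closed hCX.lrd hCX.kc hX).1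
  -- the torus points near the identity
  have hkey : ∀ (θ : Fin r → ℝ) (ρ : ℝ), 0 < ρ → ps (tt H Hc θ) ≤ C₁ * ρ ^ 2 → ∀ p ∈ pos Φ,
      ‖1 - eu (dz p.1 θ)‖ ≤ 2 * √C₁ * ρ := by
    intro θ ρ hρ hps p hp
    have hpΦ : p ∈ Φ := (hW.ppos p hp).1
    have h1 := hT.Ade p hpΦ θ
    have hun : (ta Hc θ).1ᴴ * (ta Hc θ).1 = 1 := by
      have := (Matrix.mem_specialUnitaryGroup_iff.1 (ta Hc θ).2).1
      exact (Matrix.mem_unitaryGroup_iff'.1 this)
    have h2 : (ta Hc θ).1 * E p = eu (dz p.1 θ) • (E p * (ta Hc θ).1) := by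
      have h3 : (ta Hc θ).1 * E p * (ta Hc θ).1ᴴ * (ta Hc θ).1 =
          eu (dz p.1 θ) • E p * (ta Hc θ).1 := by rw [h1]
      rw [Matrix.mul_assoc, hun, Matrix.mul_one, Matrix.smul_mul] at h3
      exact h3
    have h3 := small (ta Hc θ).1 (E p) (eu (dz p.1 θ)) (GEO.norm_eu _) (hT.pos p hpΦ).1 h2
    have h4 : (∑ i, ∑ j, ‖(ta Hc θ).1 i j - (1 : MT N) i j‖ ^ 2) = ps (tt H Hc θ) := by
      unfold ps
      rw [P.tcoe θ]
    rw [h4] at h3
    refine h3.trans ?_
    have h5 : √(ps (tt H Hc θ)) ≤ √C₁ * ρ := by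
      rw [← Real.sqrt_sq hρ.le, ← Real.sqrt_mul hC₁]
      exact Real.sqrt_le_sqrt hps
    calc 2 * √(ps (tt H Hc θ)) ≤ 2 * (√C₁ * ρ) := by linarith
      _ = _ := by ring
  set K : ℝ := 2 * √C₁ with hK
  have hK0 : 0 ≤ K := by positivity
  have hAT : ∀ θ : Fin r → ℝ, ‖AT (rd Φ) 1 θ‖ = ∏ p ∈ pos Φ, ‖1 - eu (dz p.1 θ)‖ := by
    intro θ
    rw [hDENO r Φ B hIRD hW θ, norm_mul, GEO.norm_eu, one_mul, norm_prod]
    refine Finset.prod_congr rfl fun p _ => ?_
    have h1 : eu (-(dz p.1 θ)) * eu (dz p.1 θ) = 1 := by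
      rw [← GEO.eu_add, neg_add_cancel]
      simpa using GEO.eu_int 0
    calc ‖1 - eu (-(dz p.1 θ))‖ = ‖(1 - eu (-(dz p.1 θ))) * eu (dz p.1 θ)‖ := by
          rw [norm_mul, GEO.norm_eu, mul_one]
      _ = ‖eu (dz p.1 θ) - 1‖ := by rw [sub_mul, h1, one_mul]
      _ = _ := norm_sub_rev _ _
  refine ⟨K ^ (2 * (pos Φ).card) * (2 * K) ^ r, by positivity, ?_⟩
  intro ρ hρ hρ1
  set S : Set H := {g : H | ps g ≤ C₁ * ρ ^ 2} with hS
  have hSm : MeasurableSet S := (isClosed_le P.cont continuous_const).measurableSet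
  set T : Set (Fin r → ℝ) := {θ : Fin r → ℝ | θ ∈ Set.Icc 0 1 ∧ ∀ p ∈ pos Φ, nd (dz p.1 θ) ≤ K * ρ}
    with hTdef
  have hTvol := hBOH r Φ B hCX.one_le hIRD hW (K * ρ) (by positivity)
  have hTfin : volume T ≠ ⊤ := by
    have h1 : volume T ≤ volume (Set.Icc (0 : Fin r → ℝ) 1) := measure_mono fun θ hθ => hθ.1
    exact ne_top_of_le_ne_top isCompact_Icc.measure_lt_top.ne h1
  have hcard : (1 : ℝ) ≤ ((WF Φ).card : ℝ) := by
    have : 0 < (WF Φ).card := Finset.card_pos.2 ⟨1, hW.one⟩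
    exact_mod_cast this
  have hmain := hWIF N H r Φ B Hc E c k d hCX μ (S.indicator fun _ => 1)
    (measurable_const.indicator hSm)
  rw [show (∫⁻ x, S.indicator (fun _ => (1 : ENNReal)) x ∂μ) = μ S from
    lintegral_indicator_one hSm] at hmain
  have hbound : μ S ≤ ENNReal.ofReal ((K * ρ) ^ (2 * (pos Φ).card)) * volume T := by
    rw [hmain]
    have h1 : ∀ h : H, (∫⁻ θ in Set.Icc (0 : Fin r → ℝ) 1,
        ENNReal.ofReal (‖AT (rd Φ) 1 θ‖ ^ 2 / ((WF Φ).card : ℝ)) *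
          S.indicator (fun _ => 1) (h * tt H Hc θ * h⁻¹)) ≤
        ENNReal.ofReal ((K * ρ) ^ (2 * (pos Φ).card)) * volume T := by
      intro h
      calc (∫⁻ θ in Set.Icc (0 : Fin r → ℝ) 1,
          ENNReal.ofReal (‖AT (rd Φ) 1 θ‖ ^ 2 / ((WF Φ).card : ℝ)) *
            S.indicator (fun _ => 1) (h * tt H Hc θ * h⁻¹))
          ≤ ∫⁻ θ in Set.Icc (0 : Fin r → ℝ) 1,
            T.indicator (fun _ => ENNReal.ofReal ((K * ρ) ^ (2 * (pos Φ).card))) θ := by
            refine setLIntegral_mono' measurableSet_Icc ?_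
            intro θ hθ
            by_cases hin : h * tt H Hc θ * h⁻¹ ∈ S
            · have hps : ps (tt H Hc θ) ≤ C₁ * ρ ^ 2 := by
                have := hin
                rw [hS, Set.mem_setOf_eq, P.cnj] at this
                exact this
              have hb := hkey θ ρ hρ hps
              have hθT : θ ∈ T := by
                refine ⟨hθ, fun p hp => ?_⟩
                have h3 := GEO.lower (dz p.1 θ)
                have h4 := hb p hp
                have h5 : 0 ≤ nd (dz p.1 θ) := abs_nonneg _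
                linarith
              rw [Set.indicator_of_mem hin, Set.indicator_of_mem hθT, mul_one]
              apply ENNReal.ofReal_le_ofReal
              have h6 : ‖AT (rd Φ) 1 θ‖ ≤ (K * ρ) ^ (pos Φ).card := by
                rw [hAT]
                calc ∏ p ∈ pos Φ, ‖1 - eu (dz p.1 θ)‖ ≤ ∏ _p ∈ pos Φ, (K * ρ) :=
                      Finset.prod_le_prod (fun _ _ => norm_nonneg _) hb
                  _ = _ := by rw [Finset.prod_const]
              calc ‖AT (rd Φ) 1 θ‖ ^ 2 / ((WF Φ).card : ℝ) ≤ ‖AT (rd Φ) 1 θ‖ ^ 2 :=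
                    div_le_self (sq_nonneg _) hcard
                _ ≤ ((K * ρ) ^ (pos Φ).card) ^ 2 := pow_le_pow_left₀ (norm_nonneg _) h6 2
                _ = _ := by rw [← pow_mul, mul_comm (pos Φ).card 2]
            · rw [Set.indicator_of_notMem hin, mul_zero]
              exact bot_le
        _ ≤ ENNReal.ofReal ((K * ρ) ^ (2 * (pos Φ).card)) *
            (volume.restrict (Set.Icc (0 : Fin r → ℝ) 1)) T := lintegral_indicator_const_le _ _
        _ ≤ _ := by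
            gcongr
            exact Measure.restrict_le_self
    calc _ ≤ ∫⁻ _ : H, ENNReal.ofReal ((K * ρ) ^ (2 * (pos Φ).card)) * volume T ∂μ :=
          lintegral_mono h1
      _ = _ := lint μ _
  have hreal : μ.real S ≤ (K * ρ) ^ (2 * (pos Φ).card) * volume.real T := by
    have h1 : (μ S).toReal ≤
        (ENNReal.ofReal ((K * ρ) ^ (2 * (pos Φ).card)) * volume T).toReal :=
      ENNReal.toReal_mono (ENNReal.mul_ne_top ENNReal.ofReal_ne_top hTfin) hbound
    rw [ENNReal.toReal_mul, ENNReal.toReal_ofReal (by positivity)] at h1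
    exact h1
  calc μ.real S ≤ (K * ρ) ^ (2 * (pos Φ).card) * volume.real T := hreal
    _ ≤ (K * ρ) ^ (2 * (pos Φ).card) * (2 * (K * ρ)) ^ r := by
        gcongr
    _ = _ := by
        rw [hd, mul_pow, ← mul_assoc 2 K ρ, mul_pow (2 * K) ρ, pow_add ρ]
        ring

end

end STZ3
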