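import Pool.Agent.STZ3.StM

/-!
# Compact simple groups of rank two: module KOF (helper45)

The kernel is small outside of the shell.
-/

set_option autoImplicit false

namespace STZ3

open STZ LGR MeasureTheory Matrix Filter

open scoped ComplexConjugate Matrix Real Topology

noncomputable section

namespace KOF

theorem nd_eq (θ : ℝ) : nd θ = ‖(θ : UnitAddCircle)‖ := by
  unfold nd
  rw [UnitAddCircle.norm_eq]

theorem nd_add (x y : ℝ) : nd (x + y) ≤ nd x + nd y := by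
  rw [nd_eq, nd_eq, nd_eq, AddCircle.coe_add]
  exact norm_add_le _ _

theorem nd_le_abs (x : ℝ) : nd x ≤ |x| := by
  have h := round_le x 0
  simpa [nd] using h

theorem nd_nn (x : ℝ) : 0 ≤ nd x := abs_nonneg _

/-- the distance to the integers is 1-Lipschitz -/
theorem nd_lip (x y : ℝ) : nd (x + y) ≤ nd x + |y| :=
  (nd_add x y).trans (add_le_add_right (nd_le_abs y) _)

theorem nd_lip' (x y : ℝ) : nd x - |y| ≤ nd (x + y) := by
  have h := nd_lip (x + y) (-y)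
  rw [add_neg_cancel_right, abs_neg] at h
  linarith

theorem eu_add (a b : ℝ) : eu (a + b) = eu a * eu b := by
  unfold eu
  rw [← Complex.exp_add]
  congr 1
  push_cast
  ring

theorem norm_eu (a : ℝ) : ‖eu a‖ = 1 := by
  unfold eu
  rw [show (2 * (π : ℂ) * (a : ℂ) * Complex.I) = ((2 * π * a : ℝ) : ℂ) * Complex.I by push_cast; ring]
  exact Complex.norm_exp_ofReal_mul_I _

theorem eu_cont {r : ℕ} (l : Fin r → ℤ) : Continuous fun s : Fin r → ℝ => eu (dz l s) := by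
  unfold eu dz
  fun_prop

theorem dz_add {r : ℕ} (l : Fin r → ℤ) (θ s : Fin r → ℝ) : dz l (θ + s) = dz l θ + dz l s := by
  unfold dz
  rw [← Finset.sum_add_distrib]
  refine Finset.sum_congr rfl fun i _ => ?_
  rw [Pi.add_apply, mul_add]

/-- the support of `nx` -/
theorem nx_supp {r : ℕ} {Φ : RT r} {B : Matrix (Fin r) (Fin r) ℤ} (hI : IRD Φ B) {m J : ℕ}
    {q : (Fin r → ℤ) → ℝ} {x : {p // p ∈ pos Φ} → Fin (J + 1)} {τ : ℝ} {ν : Fin r → ℤ}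
    (hq : QH Φ (2 ^ J) q) (h : nx Φ m J q x τ ν ≠ 0) :
    ∃ k ∈ kB Φ (2 * m ^ 2 * 2 ^ J), ∃ l ∈ cb r (2 ^ J), ν = l + rs (pos Φ) k := by
  unfold nx at h
  obtain ⟨k, hk, hne⟩ := Finset.exists_ne_zero_of_sum_ne_zero h
  refine ⟨k, hk, ν - rs (pos Φ) k, ?_, by abel⟩
  have h1 : gt Φ q τ (ν - rs (pos Φ) k) ≠ 0 := right_ne_zero_of_mul hne
  have h2 : q (ν - rs (pos Φ) k) ≠ 0 := by
    intro h0
    apply h1
    unfold gt
    rw [h0]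
    simp
  unfold cb
  rw [Fintype.mem_piFinset]
  intro i
  rw [Finset.mem_Icc]
  have h3 : (B i, Pi.single i 1) ∈ pos Φ := by
    refine Finset.mem_filter.2 ⟨hI.base i, fun j => ?_⟩
    show (0 : ℤ) ≤ (Pi.single i 1 : Fin r → ℤ) j
    by_cases hj : j = i
    · subst hj
      simp
    · rw [Pi.single_eq_of_ne hj]
  have h4 := hq.supp _ h2 _ h3
  rw [single_one_dotProduct] at h4
  have h5 := abs_le.1 h4
  push_cast at h5 ⊢
  exact ⟨h5.1, h5.2⟩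

/-- the exponent of the term `w` -/
def yy {r : ℕ} (Φ : RT r) (ϑ : ℝ) (w : Matrix (Fin r) (Fin r) ℤ) (i : Fin r) : ℝ :=
  2 * ϑ * ((((rd Φ).A *ᵥ (w *ᵥ 1)) i : ℤ) : ℝ)

/-- the sum of KLO for the term `w` -/
def sw {r : ℕ} (Φ : RT r) (m J : ℕ) (q : (Fin r → ℤ) → ℝ) (x : {p // p ∈ pos Φ} → Fin (J + 1))
    (T : Finset (Fin r → ℤ)) (τ : ℝ) (θ : Fin r → ℝ) (w : Matrix (Fin r) (Fin r) ℤ) : ℂ :=
  ∑ l ∈ T, ((Real.exp (∑ i, (l i : ℝ) * yy Φ (th x) w i) * dR Φ (l + w *ᵥ 1) : ℝ) : ℂ) *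
    nx Φ m J q x τ (l + w *ᵥ 1) * eu (dz l θ)

theorem la_eq {r : ℕ} (Φ : RT r) (m J : ℕ) (q : (Fin r → ℤ) → ℝ)
    (x : {p // p ∈ pos Φ} → Fin (J + 1)) (τ : ℝ) (l : Fin r → ℤ) :
    la Φ m J q x τ l = (1 / ((WF Φ).card : ℂ)) * ∑ w ∈ WF Φ, (w.det : ℂ) *
      (((Real.exp (∑ i, (l i : ℝ) * yy Φ (th x) w i) * dR Φ (l + w *ᵥ 1) : ℝ) : ℂ) *
        nx Φ m J q x τ (l + w *ᵥ 1)) := by
  unfold la lm
  congr 1
  refine Finset.sum_congr rfl fun w _ => ?_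
  have h1 : 2 * th x * ip Φ l (w *ᵥ 1) = ∑ i, (l i : ℝ) * yy Φ (th x) w i := by
    unfold ip yy
    rw [dotProduct, Int.cast_sum, Finset.mul_sum]
    refine Finset.sum_congr rfl fun i _ => ?_
    push_cast
    ring
  rw [h1]

/-- the kernel is an average of the sums of KLO -/
theorem km_eq {r : ℕ} (Φ : RT r) (m J : ℕ) (q : (Fin r → ℤ) → ℝ)
    (x : {p // p ∈ pos Φ} → Fin (J + 1)) (T : Finset (Fin r → ℤ)) (τ : ℝ) (θ : Fin r → ℝ) :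
    km (la Φ m J q x) T (fun _ => 1) τ θ = (1 / ((WF Φ).card : ℂ)) * ∑ w ∈ WF Φ, (w.det : ℂ) *
      sw Φ m J q x T τ θ w := by
  unfold km sw
  simp only [la_eq, Complex.ofReal_one, mul_one, Finset.mul_sum, Finset.sum_mul]
  rw [Finset.sum_comm]
  refine Finset.sum_congr rfl fun w _ => Finset.sum_congr rfl fun l _ => ?_
  ring

theorem km_le {r : ℕ} {Φ : RT r} {B : Matrix (Fin r) (Fin r) ℤ} (hW : WFF Φ B) (m J : ℕ)
    (q : (Fin r → ℤ) → ℝ) (x : {p // p ∈ pos Φ} → Fin (J + 1)) (T : Finset (Fin r → ℤ)) (τ : ℝ)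
    (θ : Fin r → ℝ) (b : ℝ) (h : ∀ w ∈ WF Φ, ‖sw Φ m J q x T τ θ w‖ ≤ b) :
    ‖km (la Φ m J q x) T (fun _ => 1) τ θ‖ ≤ b := by
  rw [km_eq, norm_mul]
  have hc : 0 < (WF Φ).card := Finset.card_pos.2 ⟨1, hW.one⟩
  have hc' : (0 : ℝ) < (WF Φ).card := by exact_mod_cast hc
  have h1 : ‖∑ w ∈ WF Φ, (w.det : ℂ) * sw Φ m J q x T τ θ w‖ ≤ (WF Φ).card * b := by
    refine (norm_sum_le _ _).trans ?_
    refine (Finset.sum_le_sum (g := fun _ => b) fun w hw => ?_).trans ?_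
    · rw [norm_mul]
      have hd : ‖(w.det : ℂ)‖ = 1 := by
        rcases hW.det w hw with e | e
        · rw [e]; simp
        · rw [e]; simp
      rw [hd, one_mul]
      exact h w hw
    · rw [Finset.sum_const, nsmul_eq_mul]
  have h2 : ‖(1 / ((WF Φ).card : ℂ))‖ = 1 / (WF Φ).card := by
    rw [norm_div, norm_one, Complex.norm_natCast]
  rw [h2]
  calc 1 / ((WF Φ).card : ℝ) * ‖∑ w ∈ WF Φ, (w.det : ℂ) * sw Φ m J q x T τ θ w‖
      ≤ 1 / ((WF Φ).card : ℝ) * ((WF Φ).card * b) :=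
        mul_le_mul_of_nonneg_left h1 (by positivity)
    _ = b := by field_simp

theorem km_mono {r : ℕ} {a : ℝ → (Fin r → ℤ) → ℂ} {T T' : Finset (Fin r → ℤ)}
    {Ψ : (Fin r → ℤ) → ℝ} (hT : ∀ τ l, a τ l ≠ 0 → l ∈ T) (hTT : T ⊆ T') (τ : ℝ) (θ : Fin r → ℝ) :
    km a T Ψ τ θ = km a T' Ψ τ θ := by
  unfold km
  refine Finset.sum_subset hTT fun l _ hl => ?_
  have h0 : a τ l = 0 := by
    by_contra hne
    exact hl (hT τ l hne)
  rw [h0]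
  simp

/-- the kernel with a factor as a combination of translates -/
theorem km_int {r : ℕ} (a : ℝ → (Fin r → ℤ) → ℂ) (T : Finset (Fin r → ℤ)) {Ψ : (Fin r → ℤ) → ℝ}
    {C R : ℝ} {ν₁ ν₂ : Measure (Fin r → ℝ)} (h : FM C R Ψ ν₁ ν₂) (τ : ℝ) (θ : Fin r → ℝ) :
    km a T Ψ τ θ = ∫ s, km a T (fun _ => 1) τ (θ + s) ∂ν₁ - ∫ s, km a T (fun _ => 1) τ (θ + s) ∂ν₂ := by
  have hf₁ := h.fin₁
  have hf₂ := h.fin₂
  have hint : ∀ (ν : Measure (Fin r → ℝ)) [IsFiniteMeasure ν] (l : Fin r → ℤ),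
      Integrable (fun s => a τ l * (eu (dz l θ) * eu (dz l s))) ν := by
    intro ν _ l
    have h1 : Integrable (fun s : Fin r → ℝ => eu (dz l s)) ν :=
      (integrable_const (1 : ℝ)).mono' (eu_cont l).aestronglyMeasurable
        (ae_of_all _ fun s => (norm_eu _).le)
    exact (h1.const_mul _).const_mul _
  have e : ∀ s : Fin r → ℝ, km a T (fun _ => 1) τ (θ + s) =
      ∑ l ∈ T, a τ l * (eu (dz l θ) * eu (dz l s)) := by
    intro s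
    unfold km
    refine Finset.sum_congr rfl fun l _ => ?_
    rw [dz_add, eu_add, Complex.ofReal_one, mul_one]
  simp only [e]
  rw [integral_finsetSum _ fun l _ => hint ν₁ l, integral_finsetSum _ fun l _ => hint ν₂ l,
    ← Finset.sum_sub_distrib]
  unfold km
  refine Finset.sum_congr rfl fun l _ => ?_
  rw [integral_const_mul, integral_const_mul, integral_const_mul, integral_const_mul, ← h.tr l]
  ring

theorem km_int_le {r : ℕ} (a : ℝ → (Fin r → ℤ) → ℂ) (T : Finset (Fin r → ℤ)) {Ψ : (Fin r → ℤ) → ℝ}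
    {C R : ℝ} {ν₁ ν₂ : Measure (Fin r → ℝ)} (h : FM C R Ψ ν₁ ν₂) (τ : ℝ) (θ : Fin r → ℝ) (b : ℝ)
    (hb0 : 0 ≤ b)
    (hb : ∀ s : Fin r → ℝ, (∀ i, |s i| ≤ C * R) → ‖km a T (fun _ => 1) τ (θ + s)‖ ≤ b) :
    ‖km a T Ψ τ θ‖ ≤ 2 * C * b := by
  have hf₁ := h.fin₁
  have hf₂ := h.fin₂
  have key : ∀ (ν : Measure (Fin r → ℝ)) [IsFiniteMeasure ν], ν {s | ∃ i, C * R < |s i|} = 0 →
      ν.real Set.univ ≤ C → ‖∫ s, km a T (fun _ => 1) τ (θ + s) ∂ν‖ ≤ b * C := by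
    intro ν _ h0 hm
    refine (norm_integral_le_of_norm_le_const (C := b) ?_).trans
      (mul_le_mul_of_nonneg_left hm hb0)
    have h1 : ∀ᵐ s ∂ν, ¬ ∃ i, C * R < |s i| := by
      rw [ae_iff]
      simpa using h0
    filter_upwards [h1] with s hs
    push Not at hs
    exact hb s hs
  rw [km_int a T h]
  refine (norm_sub_le _ _).trans ?_
  have e1 := key ν₁ h.supp₁ h.mass₁
  have e2 := key ν₂ h.supp₂ h.mass₂
  linarith

/-- powers of two -/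
theorem two_pow {J n r m : ℕ} {ε A : ℝ} (h : (n : ℝ) + r + A ≤ 2 * ε * m) :
    (2 : ℝ) ^ (J * (n + r)) * ((2 : ℝ) ^ (-(ε * J))) ^ (2 * m) ≤ (2 : ℝ) ^ (-(A * J)) := by
  rw [← Real.rpow_natCast, ← Real.rpow_natCast, ← Real.rpow_mul (by norm_num),
    ← Real.rpow_add (by norm_num)]
  refine Real.rpow_le_rpow_of_exponent_le (by norm_num) ?_
  push_cast
  have hJ : (0 : ℝ) ≤ J := Nat.cast_nonneg _
  nlinarith [mul_le_mul_of_nonneg_left h hJ]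

/-- the bounds for one term outside of the shell -/
theorem out_le {r : ℕ} {Φ : RT r} {J m : ℕ} {x : {p // p ∈ pos Φ} → Fin (J + 1)} (hP : PRF Φ)
    (hJ : 1 ≤ J) {ε A C : ℝ} (hε : 0 < ε) (hC : 0 ≤ C)
    (hA : ((pos Φ).card : ℝ) + r + A ≤ 2 * ε * m) {θ : Fin r → ℝ} (hθ : θ ∉ shl ε x) (z : ℂ)
    (hz : ∀ p : {p // p ∈ pos Φ},
      ‖z‖ * (1 + 2 ^ (x p).val * nd (dz p.1.1 θ)) ^ (2 * m) ≤ C * (2 : ℝ) ^ (J * ((pos Φ).card + r)) ∧
      ((x p).val < J →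
        ‖z‖ ≤ C * (2 : ℝ) ^ (J * ((pos Φ).card + r)) *
          (2 ^ (x p).val * (nd (dz p.1.1 θ) + 1 / 2 ^ J)) ^ (2 * m))) :
    ‖z‖ ≤ C * 4 ^ m * (2 : ℝ) ^ (-(A * J)) := by
  have hJ0 : (0 : ℝ) < J := by exact_mod_cast (lt_of_lt_of_le one_pos hJ)
  have hp4 : (1 : ℝ) ≤ 4 ^ m := one_le_pow₀ (by norm_num)
  have hE : (0 : ℝ) < (2 : ℝ) ^ (-(ε * J)) := Real.rpow_pos_of_pos (by norm_num) _
  have hE' : (0 : ℝ) < (2 : ℝ) ^ (ε * J) := Real.rpow_pos_of_pos (by norm_num) _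
  have hEE : (2 : ℝ) ^ (-(ε * J)) * (2 : ℝ) ^ (ε * J) = 1 := by
    rw [← Real.rpow_add (by norm_num), neg_add_cancel, Real.rpow_zero]
  have hA2 := two_pow (J := J) hA
  have hAJ : (0 : ℝ) < (2 : ℝ) ^ (-(A * J)) := Real.rpow_pos_of_pos (by norm_num) _
  have hex : ∃ p : {p // p ∈ pos Φ},
      (2 : ℝ) ^ (ε * J) * max (dl x p) (ro ε x) < nd (dz p.1.1 θ) ∨
        (ro ε x ≤ dl x p ∧ nd (dz p.1.1 θ) < (2 : ℝ) ^ (-(ε * J)) * dl x p) := by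
    by_contra hcon
    push Not at hcon
    exact hθ fun p => ⟨(hcon p).1, (hcon p).2⟩
  obtain ⟨p, hp⟩ := hex
  have hdp := hP.dpos J x p
  have hdl : dl x p = 1 / 2 ^ (x p).val := rfl
  have h2p : (0 : ℝ) < 2 ^ (x p).val := by positivity
  rcases hp with hp | ⟨hp1, hp2⟩
  · have h1 : (2 : ℝ) ^ (ε * J) ≤ 1 + 2 ^ (x p).val * nd (dz p.1.1 θ) := by
      have h2 : (2 : ℝ) ^ (ε * J) * dl x p ≤ nd (dz p.1.1 θ) :=
        (mul_le_mul_of_nonneg_left (le_max_left _ _) hE'.le).trans hp.le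
      have h3 : (2 : ℝ) ^ (x p).val * ((2 : ℝ) ^ (ε * J) * dl x p) ≤
          2 ^ (x p).val * nd (dz p.1.1 θ) := mul_le_mul_of_nonneg_left h2 h2p.le
      have h4 : (2 : ℝ) ^ (x p).val * ((2 : ℝ) ^ (ε * J) * dl x p) = (2 : ℝ) ^ (ε * J) := by
        rw [hdl]
        field_simp
      linarith
    have h5 : ‖z‖ * ((2 : ℝ) ^ (ε * J)) ^ (2 * m) ≤ C * (2 : ℝ) ^ (J * ((pos Φ).card + r)) :=
      (mul_le_mul_of_nonneg_left (pow_le_pow_left₀ hE'.le h1 _) (norm_nonneg z)).trans (hz p).1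
    have h6 : ‖z‖ = ‖z‖ * ((2 : ℝ) ^ (ε * J)) ^ (2 * m) * ((2 : ℝ) ^ (-(ε * J))) ^ (2 * m) := by
      rw [mul_assoc, ← mul_pow, mul_comm ((2 : ℝ) ^ (ε * J)), hEE, one_pow, mul_one]
    rw [h6]
    calc ‖z‖ * ((2 : ℝ) ^ (ε * J)) ^ (2 * m) * ((2 : ℝ) ^ (-(ε * J))) ^ (2 * m)
        ≤ C * (2 : ℝ) ^ (J * ((pos Φ).card + r)) * ((2 : ℝ) ^ (-(ε * J))) ^ (2 * m) :=
          mul_le_mul_of_nonneg_right h5 (by positivity)
      _ = C * ((2 : ℝ) ^ (J * ((pos Φ).card + r)) * ((2 : ℝ) ^ (-(ε * J))) ^ (2 * m)) := by ring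
      _ ≤ C * (2 : ℝ) ^ (-(A * J)) := mul_le_mul_of_nonneg_left hA2 hC
      _ ≤ C * 4 ^ m * (2 : ℝ) ^ (-(A * J)) := by
          refine mul_le_mul_of_nonneg_right ?_ hAJ.le
          exact le_mul_of_one_le_right hC hp4
  · have ht := hP.tge J x
    have hro : ro ε x = (2 : ℝ) ^ (2 * ε * J) * √(th x) := rfl
    have h1 : (2 : ℝ) ^ (2 * ε * J) * (1 / 2 ^ J) ≤ dl x p := by
      refine le_trans ?_ hp1
      rw [hro]
      exact mul_le_mul_of_nonneg_left ht (by positivity)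
    have h2 : (2 : ℝ) ^ (x p).val * (1 / 2 ^ J) ≤ (2 : ℝ) ^ (-(2 * ε * J)) := by
      have h3 : (2 : ℝ) ^ (2 * ε * J) * (1 / 2 ^ J) * 2 ^ (x p).val ≤ 1 := by
        rw [hdl, le_div_iff₀ h2p] at h1
        exact h1
      have h4 : (2 : ℝ) ^ (-(2 * ε * J)) * ((2 : ℝ) ^ (2 * ε * J) * (1 / 2 ^ J) * 2 ^ (x p).val) ≤
          (2 : ℝ) ^ (-(2 * ε * J)) := by
        refine mul_le_of_le_one_right (by positivity) h3
      have h5 : (2 : ℝ) ^ (-(2 * ε * J)) * (2 : ℝ) ^ (2 * ε * J) = 1 := by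
        rw [← Real.rpow_add (by norm_num), neg_add_cancel, Real.rpow_zero]
      calc (2 : ℝ) ^ (x p).val * (1 / 2 ^ J)
          = (2 : ℝ) ^ (-(2 * ε * J)) * (2 : ℝ) ^ (2 * ε * J) * ((1 / 2 ^ J) * 2 ^ (x p).val) := by
            rw [h5]
            ring
        _ = (2 : ℝ) ^ (-(2 * ε * J)) * ((2 : ℝ) ^ (2 * ε * J) * (1 / 2 ^ J) * 2 ^ (x p).val) := by
            ring
        _ ≤ _ := h4
    have h2' : (2 : ℝ) ^ (-(2 * ε * J)) ≤ (2 : ℝ) ^ (-(ε * J)) := by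
      refine Real.rpow_le_rpow_of_exponent_le (by norm_num) ?_
      nlinarith [mul_pos hε hJ0]
    have hlt1 : (2 : ℝ) ^ (-(2 * ε * J)) < 1 := by
      refine Real.rpow_lt_one_of_one_lt_of_neg (by norm_num) ?_
      nlinarith [mul_pos hε hJ0]
    have hx : (x p).val < J := by
      by_contra hge
      push Not at hge
      have h3 : (2 : ℝ) ^ J ≤ 2 ^ (x p).val := pow_le_pow_right₀ (by norm_num) hge
      have h4 : (1 : ℝ) ≤ (2 : ℝ) ^ (x p).val * (1 / 2 ^ J) := by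
        rw [mul_one_div, le_div_iff₀ (by positivity), one_mul]
        exact h3
      linarith
    have h3 : (2 : ℝ) ^ (x p).val * (nd (dz p.1.1 θ) + 1 / 2 ^ J) ≤ 2 * (2 : ℝ) ^ (-(ε * J)) := by
      have h4 : (2 : ℝ) ^ (x p).val * nd (dz p.1.1 θ) ≤ (2 : ℝ) ^ (-(ε * J)) := by
        have h5 := mul_le_mul_of_nonneg_left hp2.le h2p.le
        have h6 : (2 : ℝ) ^ (x p).val * ((2 : ℝ) ^ (-(ε * J)) * dl x p) = (2 : ℝ) ^ (-(ε * J)) := by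
          rw [hdl]
          field_simp
        linarith
      rw [mul_add]
      linarith
    have h30 : 0 ≤ (2 : ℝ) ^ (x p).val * (nd (dz p.1.1 θ) + 1 / 2 ^ J) := by
      have := nd_nn (dz p.1.1 θ)
      positivity
    calc ‖z‖ ≤ C * (2 : ℝ) ^ (J * ((pos Φ).card + r)) *
          (2 ^ (x p).val * (nd (dz p.1.1 θ) + 1 / 2 ^ J)) ^ (2 * m) := (hz p).2 hx
      _ ≤ C * (2 : ℝ) ^ (J * ((pos Φ).card + r)) * (2 * (2 : ℝ) ^ (-(ε * J))) ^ (2 * m) :=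
          mul_le_mul_of_nonneg_left (pow_le_pow_left₀ h30 h3 _) (by positivity)
      _ = C * 4 ^ m * ((2 : ℝ) ^ (J * ((pos Φ).card + r)) * ((2 : ℝ) ^ (-(ε * J))) ^ (2 * m)) := by
          rw [mul_pow, pow_mul (2 : ℝ) 2 m]
          norm_num
          ring
      _ ≤ _ := mul_le_mul_of_nonneg_left hA2 (by positivity)

/-- outside of the larger shell all the small translates are outside of the shell -/
theorem shift_out {r : ℕ} {Φ : RT r} {J : ℕ} {x : {p // p ∈ pos Φ} → Fin (J + 1)} (hP : PRF Φ)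
    {ε D : ℝ} (hε : 0 < ε) (hD : 1 ≤ D)
    (hJD : 2 * D ≤ (2 : ℝ) ^ (ε * J)) {θ s : Fin r → ℝ} (hθ : θ ∉ sk 2 ε x)
    (hs : ∀ p : {p // p ∈ pos Φ}, |dz p.1.1 s| ≤ D * √(th x)) : θ + s ∉ shl ε x := by
  intro hin
  apply hθ
  intro p
  have hJ0 : (0 : ℝ) ≤ J := Nat.cast_nonneg _
  have hE : (0 : ℝ) < (2 : ℝ) ^ (-(ε * J)) := Real.rpow_pos_of_pos (by norm_num) _
  have hE' : (0 : ℝ) < (2 : ℝ) ^ (ε * J) := Real.rpow_pos_of_pos (by norm_num) _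
  have hEE : (2 : ℝ) ^ (-(ε * J)) * (2 : ℝ) ^ (ε * J) = 1 := by
    rw [← Real.rpow_add (by norm_num), neg_add_cancel, Real.rpow_zero]
  obtain ⟨h1, h2⟩ := hin p
  have hro : ro ε x = (2 : ℝ) ^ (2 * ε * J) * √(th x) := rfl
  have h22 : (2 : ℝ) ^ (2 * ε * J) = (2 : ℝ) ^ (ε * J) * (2 : ℝ) ^ (ε * J) := by
    rw [← Real.rpow_add (by norm_num)]
    congr 1
    ring
  have hst : √(th x) = (2 : ℝ) ^ (-(ε * J)) * ((2 : ℝ) ^ (-(ε * J)) * ro ε x) := by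
    rw [hro, h22]
    calc √(th x) = ((2 : ℝ) ^ (-(ε * J)) * (2 : ℝ) ^ (ε * J)) *
          ((2 : ℝ) ^ (-(ε * J)) * (2 : ℝ) ^ (ε * J)) * √(th x) := by
          rw [hEE]
          ring
      _ = _ := by ring
  have hDE : D * (2 : ℝ) ^ (-(ε * J)) ≤ 1 / 2 := by
    have := mul_le_mul_of_nonneg_left hJD hE.le
    rw [hEE] at this
    linarith
  have hr0 := hP.rpos J x ε
  have hd0 := hP.dpos J x p
  have hds : D * √(th x) ≤ 1 / 2 * ((2 : ℝ) ^ (-(ε * J)) * ro ε x) := by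
    rw [hst, ← mul_assoc]
    exact mul_le_mul_of_nonneg_right hDE (by positivity)
  have hle1 : (2 : ℝ) ^ (-(ε * J)) ≤ (2 : ℝ) ^ (ε * J) := by
    refine Real.rpow_le_rpow_of_exponent_le (by norm_num) ?_
    have := mul_nonneg hε.le hJ0
    linarith
  rw [dz_add] at h1 h2
  constructor
  · have h3 := nd_lip' (dz p.1.1 θ) (dz p.1.1 s)
    have h4 : (2 : ℝ) ^ (-(ε * J)) * ro ε x ≤ (2 : ℝ) ^ (ε * J) * max (dl x p) (ro ε x) :=
      mul_le_mul hle1 (le_max_right _ _) hr0.le hE'.le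
    have h5 := hs p
    have h6 : 0 ≤ (2 : ℝ) ^ (ε * J) * max (dl x p) (ro ε x) := by positivity
    linarith
  · intro hρ
    have h3 := h2 hρ
    have h4 := nd_lip (dz p.1.1 θ) (dz p.1.1 s)
    have h5 := hs p
    have h6 : (2 : ℝ) ^ (-(ε * J)) * ro ε x ≤ (2 : ℝ) ^ (-(ε * J)) * dl x p :=
      mul_le_mul_of_nonneg_left hρ hE.le
    linarith

end KOF

open KOF in
theorem t_KOF : M_KOF := by
  intro _ hPRM _ hKLO r Φ B hr hI hW m C₁ C₂ ε A hm hCFF hC₂ hε hε8 hA hnA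
  have hP := hPRM r Φ B hr hI hW
  -- a bound for the vectors
  obtain ⟨M, hM0, hMκ, hMy⟩ : ∃ M : ℝ, 0 ≤ M ∧ (∀ w ∈ WF Φ, ∀ i, |(((w *ᵥ (1 : Fin r → ℤ)) i : ℤ) : ℝ)| ≤ M) ∧
      ∀ w ∈ WF Φ, ∀ i, 2 * |((((rd Φ).A *ᵥ (w *ᵥ 1)) i : ℤ) : ℝ)| ≤ M := by
    have hnn : ∀ (w : Matrix (Fin r) (Fin r) ℤ) (i : Fin r), 0 ≤ |(((w *ᵥ (1 : Fin r → ℤ)) i : ℤ) : ℝ)| +
        2 * |((((rd Φ).A *ᵥ (w *ᵥ 1)) i : ℤ) : ℝ)| := fun w i => by positivity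
    have hle : ∀ w ∈ WF Φ, ∀ i, |(((w *ᵥ (1 : Fin r → ℤ)) i : ℤ) : ℝ)| +
        2 * |((((rd Φ).A *ᵥ (w *ᵥ 1)) i : ℤ) : ℝ)| ≤ ∑ w ∈ WF Φ, ∑ i,
          (|(((w *ᵥ (1 : Fin r → ℤ)) i : ℤ) : ℝ)| + 2 * |((((rd Φ).A *ᵥ (w *ᵥ 1)) i : ℤ) : ℝ)|) := by
      intro w hw i
      refine (Finset.single_le_sum (f := fun i => |(((w *ᵥ (1 : Fin r → ℤ)) i : ℤ) : ℝ)| +
        2 * |((((rd Φ).A *ᵥ (w *ᵥ 1)) i : ℤ) : ℝ)|) (fun i _ => hnn w i) (Finset.mem_univ i)).trans ?_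
      exact Finset.single_le_sum (f := fun w : Matrix (Fin r) (Fin r) ℤ => ∑ i,
        (|(((w *ᵥ (1 : Fin r → ℤ)) i : ℤ) : ℝ)| + 2 * |((((rd Φ).A *ᵥ (w *ᵥ 1)) i : ℤ) : ℝ)|))
        (fun w _ => Finset.sum_nonneg fun i _ => hnn w i) hw
    refine ⟨∑ w ∈ WF Φ, ∑ i, (|(((w *ᵥ (1 : Fin r → ℤ)) i : ℤ) : ℝ)| +
      2 * |((((rd Φ).A *ᵥ (w *ᵥ 1)) i : ℤ) : ℝ)|),
      Finset.sum_nonneg fun w _ => Finset.sum_nonneg fun i _ => hnn w i, fun w hw i => ?_,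
      fun w hw i => ?_⟩
    · have := hle w hw i
      have h2 : 0 ≤ 2 * |((((rd Φ).A *ᵥ (w *ᵥ 1)) i : ℤ) : ℝ)| := by positivity
      linarith
    · have := hle w hw i
      have h2 : 0 ≤ |(((w *ᵥ (1 : Fin r → ℤ)) i : ℤ) : ℝ)| := by positivity
      linarith
  obtain ⟨C, hC, hK⟩ := hKLO r Φ B hr hI hW m C₁ M hm hCFF hM0
  -- the constant for the shifts
  set D : ℝ := 1 + C₂ * ∑ p : {p // p ∈ pos Φ}, ∑ i, |(p.1.1 i : ℝ)| with hD
  have hD1 : 1 ≤ D := by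
    have : 0 ≤ C₂ * ∑ p : {p // p ∈ pos Φ}, ∑ i, |(p.1.1 i : ℝ)| := by positivity
    linarith
  have hp4 : (1 : ℝ) ≤ 4 ^ m := one_le_pow₀ (by norm_num)
  set C' : ℝ := C * 4 ^ m + 2 * C₂ * C + 2 * C₂ * (C * 4 ^ m) + 2 * C₂ * C * (2 * D) ^ (2 * m) with hC'
  have hC'0 : 0 ≤ C' := by positivity
  have hc1 : C * 4 ^ m ≤ C' := by
    have h1 : 0 ≤ 2 * C₂ * C := by positivity
    have h2 : 0 ≤ 2 * C₂ * (C * 4 ^ m) := by positivity
    have h3 : 0 ≤ 2 * C₂ * C * (2 * D) ^ (2 * m) := by positivity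
    linarith
  have hc2 : 2 * C₂ * C ≤ C' := by
    have h1 : 0 ≤ C * 4 ^ m := by positivity
    have h2 : 0 ≤ 2 * C₂ * (C * 4 ^ m) := by positivity
    have h3 : 0 ≤ 2 * C₂ * C * (2 * D) ^ (2 * m) := by positivity
    linarith
  have hc3 : 2 * C₂ * (C * 4 ^ m) ≤ C' := by
    have h1 : 0 ≤ C * 4 ^ m := by positivity
    have h2 : 0 ≤ 2 * C₂ * C := by positivity
    have h3 : 0 ≤ 2 * C₂ * C * (2 * D) ^ (2 * m) := by positivity
    linarith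
  have hc4 : 2 * C₂ * C * (2 * D) ^ (2 * m) ≤ C' := by
    have h1 : 0 ≤ C * 4 ^ m := by positivity
    have h2 : 0 ≤ 2 * C₂ * C := by positivity
    have h3 : 0 ≤ 2 * C₂ * (C * 4 ^ m) := by positivity
    linarith
  refine ⟨C', hC'0, fun J q x T hJ hq hT => ?_⟩
  have hJ0 : (0 : ℝ) < J := by exact_mod_cast (lt_of_lt_of_le one_pos hJ)
  have hAJ : (0 : ℝ) < (2 : ℝ) ^ (-(A * J)) := Real.rpow_pos_of_pos (by norm_num) _
  -- the larger set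
  classical
  obtain ⟨T', hTT, hT'⟩ : ∃ T' : Finset (Fin r → ℤ), T ⊆ T' ∧ ∀ (τ : ℝ), ∀ w ∈ WF Φ, ∀ l,
      nx Φ m J q x τ (l + w *ᵥ 1) ≠ 0 → l ∈ T' := by
    refine ⟨T ∪ (WF Φ).biUnion fun w => (kB Φ (2 * m ^ 2 * 2 ^ J)).biUnion fun k =>
      (cb r (2 ^ J)).image fun l => l + rs (pos Φ) k - w *ᵥ 1, Finset.subset_union_left,
      fun τ w hw l hl => ?_⟩
    obtain ⟨k, hk, l', hl', e⟩ := nx_supp hI hq hl
    refine Finset.mem_union_right _ (Finset.mem_biUnion.2 ⟨w, hw, Finset.mem_biUnion.2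
      ⟨k, hk, Finset.mem_image.2 ⟨l', hl', ?_⟩⟩⟩)
    rw [← e]
    abel
  have hth0 := hP.tpos J x
  have hth := hP.tle J x
  have hsw : ∀ (τ : ℝ) (θ : Fin r → ℝ), ∀ w ∈ WF Φ, ∀ p : {p // p ∈ pos Φ},
      ‖sw Φ m J q x T' τ θ w‖ * (1 + 2 ^ (x p).val * nd (dz p.1.1 θ)) ^ (2 * m) ≤
          C * (2 : ℝ) ^ (J * ((pos Φ).card + r)) ∧
      ((x p).val < J → ‖sw Φ m J q x T' τ θ w‖ ≤ C * (2 : ℝ) ^ (J * ((pos Φ).card + r)) *
          (2 ^ (x p).val * (nd (dz p.1.1 θ) + 1 / 2 ^ J)) ^ (2 * m)) := by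
    intro τ θ w hw p
    refine hK J q x τ θ (yy Φ (th x) w) (w *ᵥ 1) T' hq ?_ (hMκ w hw) (hT' τ w hw) p
    intro i
    unfold yy
    rw [abs_mul, abs_mul, abs_two, abs_of_pos hth0]
    calc 2 * th x * |((((rd Φ).A *ᵥ (w *ᵥ 1)) i : ℤ) : ℝ)|
        = th x * (2 * |((((rd Φ).A *ᵥ (w *ᵥ 1)) i : ℤ) : ℝ)|) := by ring
      _ ≤ (1 / 2 ^ J) * M := mul_le_mul hth (hMy w hw i) (by positivity) (by positivity)
      _ = M / 2 ^ J := by ring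
  obtain ⟨p₀, -⟩ := hP.bat J x
  have hk1 : ∀ (τ : ℝ) (θ : Fin r → ℝ), ‖km (la Φ m J q x) T (fun _ => 1) τ θ‖ ≤
      C * (2 : ℝ) ^ (J * ((pos Φ).card + r)) := by
    intro τ θ
    rw [km_mono hT hTT]
    refine km_le hW m J q x T' τ θ _ fun w hw => ?_
    refine le_trans ?_ (hsw τ θ w hw p₀).1
    refine le_mul_of_one_le_right (norm_nonneg _) (one_le_pow₀ ?_)
    have h1 := nd_nn (dz p₀.1.1 θ)
    have h2 : 0 ≤ (2 : ℝ) ^ (x p₀).val * nd (dz p₀.1.1 θ) := by positivity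
    linarith
  have hk2 : ∀ (τ : ℝ) (θ : Fin r → ℝ), θ ∉ shl ε x → ‖km (la Φ m J q x) T (fun _ => 1) τ θ‖ ≤
      C * 4 ^ m * (2 : ℝ) ^ (-(A * J)) := by
    intro τ θ hθ
    rw [km_mono hT hTT]
    exact km_le hW m J q x T' τ θ _ fun w hw => out_le hP hJ hε hC hnA hθ _ (hsw τ θ w hw)
  refine ⟨fun τ θ hθ => (hk2 τ θ hθ).trans (mul_le_mul_of_nonneg_right hc1 hAJ.le), ?_⟩
  intro Ψ ν₁ ν₂ hFM τ θ
  have hk3 : ‖km (la Φ m J q x) T Ψ τ θ‖ ≤ 2 * C₂ * (C * (2 : ℝ) ^ (J * ((pos Φ).card + r))) :=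
    km_int_le _ T hFM τ θ _ (by positivity) fun s _ => hk1 τ (θ + s)
  refine ⟨hk3.trans ?_, fun hθ => ?_⟩
  · rw [← mul_assoc]
    exact mul_le_mul_of_nonneg_right hc2 (by positivity)
  · rcases le_or_gt (2 * D) ((2 : ℝ) ^ (ε * J)) with hbig | hsmall
    · refine (km_int_le _ T hFM τ θ (C * 4 ^ m * (2 : ℝ) ^ (-(A * J))) (by positivity)
        fun s hs => ?_).trans ?_
      · refine hk2 τ (θ + s) (shift_out hP hε hD1 hbig hθ fun p => ?_)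
        have hsq : 0 ≤ √(th x) := Real.sqrt_nonneg _
        have h1 : |dz p.1.1 s| ≤ ∑ i, |(p.1.1 i : ℝ)| * (C₂ * √(th x)) := by
          unfold dz
          refine (Finset.abs_sum_le_sum_abs _ _).trans (Finset.sum_le_sum fun i _ => ?_)
          rw [abs_mul]
          exact mul_le_mul_of_nonneg_left (hs i) (abs_nonneg _)
        rw [← Finset.sum_mul] at h1
        have h2 : ∑ i, |(p.1.1 i : ℝ)| ≤ ∑ p : {p // p ∈ pos Φ}, ∑ i, |(p.1.1 i : ℝ)| :=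
          Finset.single_le_sum (f := fun p : {p // p ∈ pos Φ} => ∑ i, |(p.1.1 i : ℝ)|)
            (fun p _ => Finset.sum_nonneg fun i _ => abs_nonneg _) (Finset.mem_univ p)
        calc |dz p.1.1 s| ≤ (∑ i, |(p.1.1 i : ℝ)|) * (C₂ * √(th x)) := h1
          _ ≤ (∑ p : {p // p ∈ pos Φ}, ∑ i, |(p.1.1 i : ℝ)|) * (C₂ * √(th x)) :=
              mul_le_mul_of_nonneg_right h2 (by positivity)
          _ = (D - 1) * √(th x) := by
              rw [hD]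
              ring
          _ ≤ D * √(th x) := mul_le_mul_of_nonneg_right (by linarith) hsq
      · calc 2 * C₂ * (C * 4 ^ m * (2 : ℝ) ^ (-(A * J)))
            = 2 * C₂ * (C * 4 ^ m) * (2 : ℝ) ^ (-(A * J)) := by ring
          _ ≤ _ := mul_le_mul_of_nonneg_right hc3 hAJ.le
    · refine hk3.trans ?_
      have hE : (0 : ℝ) < (2 : ℝ) ^ (-(ε * J)) := Real.rpow_pos_of_pos (by norm_num) _
      have hE' : (0 : ℝ) < (2 : ℝ) ^ (ε * J) := Real.rpow_pos_of_pos (by norm_num) _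
      have hEE : (2 : ℝ) ^ (-(ε * J)) * (2 : ℝ) ^ (ε * J) = 1 := by
        rw [← Real.rpow_add (by norm_num), neg_add_cancel, Real.rpow_zero]
      have h1 : (2 : ℝ) ^ (J * ((pos Φ).card + r)) ≤ (2 : ℝ) ^ (-(A * J)) * (2 * D) ^ (2 * m) := by
        have h2 := two_pow (J := J) hnA
        have h3 : (1 : ℝ) ≤ (2 * D * (2 : ℝ) ^ (-(ε * J))) ^ (2 * m) := by
          refine one_le_pow₀ ?_
          have h4 := mul_le_mul_of_nonneg_left hsmall.le hE.le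
          rw [hEE] at h4
          linarith
        rw [mul_pow] at h3
        have h5 : (0 : ℝ) < (2 : ℝ) ^ (J * ((pos Φ).card + r)) := by positivity
        calc (2 : ℝ) ^ (J * ((pos Φ).card + r))
            ≤ (2 : ℝ) ^ (J * ((pos Φ).card + r)) * ((2 * D) ^ (2 * m) * ((2 : ℝ) ^ (-(ε * J))) ^ (2 * m)) :=
              le_mul_of_one_le_right h5.le h3
          _ = ((2 : ℝ) ^ (J * ((pos Φ).card + r)) * ((2 : ℝ) ^ (-(ε * J))) ^ (2 * m)) * (2 * D) ^ (2 * m) := by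
              ring
          _ ≤ _ := mul_le_mul_of_nonneg_right h2 (by positivity)
      calc 2 * C₂ * (C * (2 : ℝ) ^ (J * ((pos Φ).card + r)))
          ≤ 2 * C₂ * (C * ((2 : ℝ) ^ (-(A * J)) * (2 * D) ^ (2 * m))) :=
            mul_le_mul_of_nonneg_left (mul_le_mul_of_nonneg_left h1 hC) (by positivity)
        _ = 2 * C₂ * C * (2 * D) ^ (2 * m) * (2 : ℝ) ^ (-(A * J)) := by ring
        _ ≤ _ := mul_le_mul_of_nonneg_right hc4 hAJ.le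

end

end STZ3
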