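import Pool.Agent.STZ3.StmtsT3

/-!
# Low levels and top levels together: module LOT
-/

namespace STZ3

open STZ LGR MeasureTheory Matrix Filter

open scoped ComplexConjugate Matrix Real Topology

noncomputable section

namespace LOT

/-- the low levels, real inequality -/
theorem low (m ℓ A B p₀ : ℝ) (hp₀ : 2 < p₀) (hm : 0 ≤ m) (hℓ : 0 < ℓ) (hA : 0 ≤ A) (hB : 0 ≤ B)
    (h : (ℓ * m) ^ 2 ≤ A * m ^ (2 - 2 / p₀) + B * m) :
    m * ℓ ^ p₀ ≤ (2 * A) ^ (p₀ / 2) + 2 * B * ℓ ^ (p₀ - 2) := by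
  have hp : 0 < p₀ := by linarith
  have h1 : 0 ≤ (2 * A) ^ (p₀ / 2) := by positivity
  have h2 : 0 ≤ 2 * B * ℓ ^ (p₀ - 2) := by positivity
  rcases hm.eq_or_lt with h0 | hm0
  · rw [← h0]
    linarith
  rcases le_total (B * m) (A * m ^ (2 - 2 / p₀)) with hc | hc
  · have h3 : (ℓ * m) ^ 2 ≤ 2 * A * m ^ (2 - 2 / p₀) := by linarith
    have h4 : m ^ 2 = m ^ (2 - 2 / p₀) * m ^ (2 / p₀) := by
      rw [← Real.rpow_add hm0, ← Real.rpow_natCast]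
      congr 1
      push_cast
      ring
    have hc0 : 0 < m ^ (2 - 2 / p₀) := Real.rpow_pos_of_pos hm0 _
    have h5 : ℓ ^ 2 * m ^ (2 / p₀) ≤ 2 * A := by
      refine le_of_mul_le_mul_right ?_ hc0
      calc ℓ ^ 2 * m ^ (2 / p₀) * m ^ (2 - 2 / p₀) = ℓ ^ 2 * (m ^ (2 - 2 / p₀) * m ^ (2 / p₀)) := by ring
        _ = (ℓ * m) ^ 2 := by rw [← h4]; ring
        _ ≤ _ := h3
    have h6 : m * ℓ ^ p₀ = (ℓ ^ 2 * m ^ (2 / p₀)) ^ (p₀ / 2) := by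
      rw [Real.mul_rpow (by positivity) (by positivity), ← Real.rpow_natCast, ← Real.rpow_mul hℓ.le,
        ← Real.rpow_mul hm]
      have e1 : ((2 : ℕ) : ℝ) * (p₀ / 2) = p₀ := by
        push_cast
        ring
      have e2 : 2 / p₀ * (p₀ / 2) = 1 := by field_simp
      rw [e1, e2, Real.rpow_one]
      ring
    rw [h6]
    have h7 := Real.rpow_le_rpow (by positivity) h5 (show 0 ≤ p₀ / 2 by positivity)
    linarith
  · have h3 : (ℓ * m) ^ 2 ≤ 2 * B * m := by linarith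
    have h5 : ℓ ^ 2 * m ≤ 2 * B := by
      refine le_of_mul_le_mul_right ?_ hm0
      calc ℓ ^ 2 * m * m = (ℓ * m) ^ 2 := by ring
        _ ≤ _ := h3
    have h6 : m * ℓ ^ p₀ = ℓ ^ 2 * m * ℓ ^ (p₀ - 2) := by
      have e1 : ℓ ^ p₀ = ℓ ^ 2 * ℓ ^ (p₀ - 2) := by
        rw [← Real.rpow_natCast ℓ 2, ← Real.rpow_add hℓ]
        congr 1
        push_cast
        ring
      rw [e1]
      ring
    rw [h6]
    have h7 := mul_le_mul_of_nonneg_right h5 (show 0 ≤ ℓ ^ (p₀ - 2) by positivity)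
    linarith

/-- the three terms -/
theorem terms (N S d κ ε p p₀ p₂ C₁ C₂ C₃ : ℝ) (hN : 1 ≤ N) (hS : 0 < S) (hκ : 0 < κ)
    (hC₁ : 0 ≤ C₁) (hC₂ : 0 ≤ C₂) (hC₃ : 0 ≤ C₃) (hp₀ : 2 < p₀) (hp : p₀ < p) (hp₂ : p₂ < p) (hε1 : ε ≤ 1)
    (hε : ε * p₀ / 2 ≤ κ * (p - p₀)) :
    2 * (C₂ * N ^ ε * S * N ^ (-3 : ℝ)) * (N ^ (d / 2 - κ) * √S) ^ (p - 2) +
      (2 * (C₂ * N ^ ε * S * N ^ (d * (1 - 2 / p₀) - 4 / p₀))) ^ (p₀ / 2) *
        (N ^ (d / 2 - κ) * √S) ^ (p - p₀) +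
      C₁ * N ^ (p₂ * d / 2 - (d + 2)) * S ^ (p₂ / 2) * (C₃ * N ^ (d / 2) * √S) ^ (p - p₂) ≤
    (2 * C₂ + (2 * C₂) ^ (p₀ / 2) + C₁ * C₃ ^ (p - p₂)) * (N ^ (p * d / 2 - d - 2) * S ^ (p / 2)) := by
  have hN0 : 0 < N := by linarith
  have hp₀0 : 0 < p₀ := by linarith
  have hsq : ∀ q : ℝ, √S ^ q = S ^ (q / 2) := by
    intro q
    rw [Real.sqrt_eq_rpow, ← Real.rpow_mul hS.le]
    congr 1
    ring
  have t1 : 2 * (C₂ * N ^ ε * S * N ^ (-3 : ℝ)) * (N ^ (d / 2 - κ) * √S) ^ (p - 2) ≤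
      2 * C₂ * (N ^ (p * d / 2 - d - 2) * S ^ (p / 2)) := by
    rw [Real.mul_rpow (by positivity) (by positivity), hsq, ← Real.rpow_mul hN0.le]
    have e1 : S * S ^ ((p - 2) / 2) = S ^ (p / 2) := by
      rw [← Real.rpow_one_add' hS.le (by linarith)]
      congr 1
      ring
    have e2 : N ^ ε * N ^ (-3 : ℝ) * N ^ ((d / 2 - κ) * (p - 2)) ≤ N ^ (p * d / 2 - d - 2) := by
      rw [← Real.rpow_add hN0, ← Real.rpow_add hN0]
      refine Real.rpow_le_rpow_of_exponent_le hN ?_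
      have : 0 ≤ κ * (p - 2) := mul_nonneg hκ.le (by linarith)
      nlinarith
    calc _ = 2 * C₂ * (N ^ ε * N ^ (-3 : ℝ) * N ^ ((d / 2 - κ) * (p - 2))) * (S * S ^ ((p - 2) / 2)) := by
          ring
      _ ≤ 2 * C₂ * N ^ (p * d / 2 - d - 2) * (S * S ^ ((p - 2) / 2)) :=
        mul_le_mul_of_nonneg_right (mul_le_mul_of_nonneg_left e2 (by positivity)) (by positivity)
      _ = _ := by rw [e1]; ring
  have t2 : (2 * (C₂ * N ^ ε * S * N ^ (d * (1 - 2 / p₀) - 4 / p₀))) ^ (p₀ / 2) *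
        (N ^ (d / 2 - κ) * √S) ^ (p - p₀) ≤
      (2 * C₂) ^ (p₀ / 2) * (N ^ (p * d / 2 - d - 2) * S ^ (p / 2)) := by
    have e0 : 2 * (C₂ * N ^ ε * S * N ^ (d * (1 - 2 / p₀) - 4 / p₀)) =
        (2 * C₂) * (N ^ (ε + (d * (1 - 2 / p₀) - 4 / p₀)) * S) := by
      rw [Real.rpow_add hN0]
      ring
    rw [e0, Real.mul_rpow (x := 2 * C₂) (by positivity) (by positivity),
      Real.mul_rpow (y := S) (by positivity) hS.le,
      Real.mul_rpow (y := √S) (by positivity) (by positivity), hsq, ← Real.rpow_mul hN0.le,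
      ← Real.rpow_mul hN0.le]
    have e1 : S ^ (p₀ / 2) * S ^ ((p - p₀) / 2) = S ^ (p / 2) := by
      rw [← Real.rpow_add hS]
      congr 1
      ring
    have e2 : N ^ ((ε + (d * (1 - 2 / p₀) - 4 / p₀)) * (p₀ / 2)) * N ^ ((d / 2 - κ) * (p - p₀)) ≤
        N ^ (p * d / 2 - d - 2) := by
      rw [← Real.rpow_add hN0]
      refine Real.rpow_le_rpow_of_exponent_le hN ?_
      have e3 : (ε + (d * (1 - 2 / p₀) - 4 / p₀)) * (p₀ / 2) = ε * p₀ / 2 + d * p₀ / 2 - d - 2 := by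
        field_simp
        ring
      rw [e3]
      nlinarith
    calc _ = (2 * C₂) ^ (p₀ / 2) * (N ^ ((ε + (d * (1 - 2 / p₀) - 4 / p₀)) * (p₀ / 2)) *
          N ^ ((d / 2 - κ) * (p - p₀))) * (S ^ (p₀ / 2) * S ^ ((p - p₀) / 2)) := by ring
      _ ≤ (2 * C₂) ^ (p₀ / 2) * N ^ (p * d / 2 - d - 2) * (S ^ (p₀ / 2) * S ^ ((p - p₀) / 2)) :=
        mul_le_mul_of_nonneg_right (mul_le_mul_of_nonneg_left e2 (by positivity)) (by positivity)
      _ = _ := by rw [e1]; ring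
  have t3 : C₁ * N ^ (p₂ * d / 2 - (d + 2)) * S ^ (p₂ / 2) * (C₃ * N ^ (d / 2) * √S) ^ (p - p₂) =
      C₁ * C₃ ^ (p - p₂) * (N ^ (p * d / 2 - d - 2) * S ^ (p / 2)) := by
    rw [Real.mul_rpow (by positivity) (by positivity), Real.mul_rpow hC₃ (by positivity), hsq,
      ← Real.rpow_mul hN0.le]
    have e1 : S ^ (p₂ / 2) * S ^ ((p - p₂) / 2) = S ^ (p / 2) := by
      rw [← Real.rpow_add hS]
      congr 1
      ring
    have e2 : N ^ (p₂ * d / 2 - (d + 2)) * N ^ (d / 2 * (p - p₂)) = N ^ (p * d / 2 - d - 2) := by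
      rw [← Real.rpow_add hN0]
      congr 1
      ring
    calc _ = C₁ * C₃ ^ (p - p₂) * ((N ^ (p₂ * d / 2 - (d + 2)) * N ^ (d / 2 * (p - p₂))) *
          (S ^ (p₂ / 2) * S ^ ((p - p₂) / 2))) := by ring
      _ = _ := by rw [e1, e2]
  rw [t3]
  linarith

end LOT

open LOT in
theorem t_LOT : M_LOT := by
  intro hLEW M _ _ _ _ _ _ μ _ ι K r e w Q p₀ α he hp₀ hp₀3 hMXB hTLV hLLV p hp
  obtain ⟨p₂, hp₂, hp₂'⟩ := exists_between (lt_min hp hp₀3)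
  have hp₂p : p₂ < p := lt_of_lt_of_le hp₂' (min_le_left _ _)
  have hp₂3 : p₂ < 3 := lt_of_lt_of_le hp₂' (min_le_right _ _)
  have hp0 : 0 < p := by linarith
  have hp₀0 : 0 < p₀ := by linarith
  obtain ⟨κ, C₁, hκ, hC₁, htop⟩ := hTLV p₂ hp₂ hp₂3
  set ε : ℝ := min 1 (2 * κ * (p - p₀) / p₀) with hε
  have hpp : 0 < p - p₀ := by linarith
  have hε0 : 0 < ε := lt_min one_pos (by positivity)
  have hε1 : ε ≤ 1 := min_le_left _ _
  have hε2 : ε * p₀ / 2 ≤ κ * (p - p₀) := by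
    have h1 : ε ≤ 2 * κ * (p - p₀) / p₀ := min_le_right _ _
    rw [le_div_iff₀ hp₀0] at h1
    linarith
  obtain ⟨C₂, hC₂, hlow⟩ := hLLV ε hε0
  obtain ⟨C₃, hC₃, hmax⟩ := hMXB
  obtain ⟨C₄, hC₄, hlew⟩ := hLEW M μ p₀ p₂ p hp₀ hp (by linarith) hp₂p
  set d : ℝ := (r : ℝ) + e with hd
  obtain ⟨D₀, hD₀⟩ : ∃ D₀ : ℝ, D₀ = C₄ * (2 * C₂ + (2 * C₂) ^ (p₀ / 2) + C₁ * C₃ ^ (p - p₂)) :=
    ⟨_, rfl⟩
  have hD0 : 0 ≤ D₀ := by
    rw [hD₀]
    positivity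
  refine ⟨D₀ ^ (1 / p), by positivity, fun F u hu N hN hF => ?_⟩
  have hF2 : ∀ a ∈ F, sz (w a) ≤ N := fun a ha => (hF a ha).2
  have hN0 : 0 < N := by linarith
  set S : ℝ := ∑ a ∈ F, nsq μ (u a) with hS
  have hS0 : 0 ≤ S := Finset.sum_nonneg fun a _ => integral_nonneg fun _ => by positivity
  have hmx := hmax F u hu N hN hF2
  rcases hS0.eq_or_lt with hS1 | hS1
  · have h1 : ∀ t x, ‖uw w Q F u t x‖ = 0 := by
      intro t x
      have h2 := hmx t x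
      rw [← hS, ← hS1, Real.sqrt_zero, mul_zero] at h2
      exact le_antisymm h2 (norm_nonneg _)
    have h3 : nq μ p (uw w Q F u) = 0 := by
      unfold nq
      simp only [h1, Real.zero_rpow hp0.ne', integral_zero, intervalIntegral.integral_zero]
      exact Real.zero_rpow (by positivity)
    rw [h3]
    positivity
  have hJC : JC (uw w Q F u) := by
    refine continuous_finsetSum _ fun a ha => ?_
    refine Continuous.mul ?_ ((hu a ha).1.comp continuous_snd)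
    unfold eu
    fun_prop
  have hΛ₁ : 0 < N ^ (d / 2 - κ) * √S := mul_pos (by positivity) (Real.sqrt_pos.2 hS1)
  have hm0 : ∀ G : ℝ → M → ℂ, 0 ≤ ∫ t in (0 : ℝ)..1, ∫ x, ‖G t x‖ ∂μ := fun G =>
    intervalIntegral.integral_nonneg zero_le_one fun t _ => integral_nonneg fun _ => norm_nonneg _
  have hA0 : 0 ≤ C₂ * N ^ ε * S * N ^ (d * (1 - 2 / p₀) - 4 / p₀) := by positivity
  have hB0 : 0 ≤ C₂ * N ^ ε * S * N ^ (-3 : ℝ) := by positivity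
  have hmain := hlew (uw w Q F u) (N ^ (d / 2 - κ) * √S) (C₃ * N ^ (d / 2) * √S)
    (2 * (C₂ * N ^ ε * S * N ^ (-3 : ℝ)))
    ((2 * (C₂ * N ^ ε * S * N ^ (d * (1 - 2 / p₀) - 4 / p₀))) ^ (p₀ / 2))
    (C₁ * N ^ (p₂ * d / 2 - (d + 2)) * S ^ (p₂ / 2)) hJC hΛ₁ (by positivity) (by positivity)
    (by positivity) hmx ?_
  · have h1 := terms N S d κ ε p p₀ p₂ C₁ C₂ C₃ hN hS1 hκ hC₁ hC₂ hC₃ hp₀ hp hp₂p hε1 hε2
    have h2 : ∫ t in (0 : ℝ)..1, ∫ x, ‖uw w Q F u t x‖ ^ p ∂μ ≤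
        D₀ * (N ^ (p * d / 2 - d - 2) * S ^ (p / 2)) := by
      refine hmain.trans ((mul_le_mul_of_nonneg_left h1 hC₄).trans (le_of_eq ?_))
      rw [hD₀]
      ring
    have h0 : 0 ≤ ∫ t in (0 : ℝ)..1, ∫ x, ‖uw w Q F u t x‖ ^ p ∂μ :=
      intervalIntegral.integral_nonneg zero_le_one fun t _ => integral_nonneg fun _ => by positivity
    unfold nq
    refine (Real.rpow_le_rpow h0 h2 (by positivity)).trans (le_of_eq ?_)
    rw [Real.mul_rpow hD0 (by positivity), Real.mul_rpow (by positivity) (by positivity),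
      ← Real.rpow_mul hN0.le, ← Real.rpow_mul hS0, Real.sqrt_eq_rpow]
    have e1 : (p * d / 2 - d - 2) * (1 / p) = d / 2 - (d + 2) / p := by
      field_simp
      ring
    have e2 : p / 2 * (1 / p) = 1 / 2 := by field_simp
    rw [e1, e2, hd]
    ring
  · intro ℓ G hℓ hG hG1 hℓm
    refine ⟨fun _ => ?_, fun hℓ1 => ?_⟩
    · refine low _ ℓ _ _ p₀ hp₀ (hm0 G) hℓ hA0 hB0 ?_
      have h1 := hlow F u hu N hN hF G hG hG1
      have h2 : (ℓ * ∫ t in (0 : ℝ)..1, ∫ x, ‖G t x‖ ∂μ) ^ 2 ≤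
          ‖∫ t in (0 : ℝ)..1, ∫ x, conj (G t x) * uw w Q F u t x ∂μ‖ ^ 2 :=
        pow_le_pow_left₀ (mul_nonneg hℓ.le (hm0 G)) hℓm 2
      refine (h2.trans h1).trans (le_of_eq ?_)
      ring
    · exact htop F u hu N hN hF2 G hG hG1 ℓ hℓ hℓ1 hℓm

end

end STZ3
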