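import Pool.Agent.STZ3.StmtsT3

/-!
# The pointwise bound at the top levels: module PTW
-/

namespace STZ3

open STZ LGR MeasureTheory Matrix Filter

open scoped ComplexConjugate Matrix Real Topology

noncomputable section

namespace PTW

theorem WW_le (R c : ℕ) (t : ℝ) (hR : 1 ≤ R) (hc : 1 ≤ c) : WW R c t ≤ 3 * c * (R : ℝ) ^ 2 := by
  have hR' : (1 : ℝ) ≤ R := by exact_mod_cast hR
  have hc' : (1 : ℝ) ≤ c := by exact_mod_cast hc
  unfold WW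
  have h1 : ∀ x ∈ Finset.Icc (-((c * R : ℕ) : ℤ)) ((c * R : ℕ) : ℤ), mn R (t * x) ≤ (R : ℝ) := by
    intro x _
    unfold mn
    exact div_le_self (Nat.cast_nonneg _) (le_max_left _ _)
  refine (Finset.sum_le_sum h1).trans ?_
  rw [Finset.sum_const, nsmul_eq_mul, Int.card_Icc]
  have h2 : (((c * R : ℕ) : ℤ) + 1 - -((c * R : ℕ) : ℤ)).toNat = 2 * (c * R) + 1 := by omega
  rw [h2]
  push_cast
  have h3 : (1 : ℝ) ≤ c * R := by nlinarith
  nlinarith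

theorem min_le_rpow {a b θ : ℝ} (ha : 0 ≤ a) (hb : 0 ≤ b) (h0 : 0 ≤ θ) (h1 : θ ≤ 1) :
    min a b ≤ a ^ (1 - θ) * b ^ θ := by
  have hm : 0 ≤ min a b := le_min ha hb
  calc min a b = (min a b) ^ (1 - θ) * (min a b) ^ θ := by
        rw [← Real.rpow_add_of_nonneg hm (by linarith) h0]
        simp
    _ ≤ a ^ (1 - θ) * b ^ θ := by
        refine mul_le_mul (Real.rpow_le_rpow hm (min_le_left _ _) (by linarith))
          (Real.rpow_le_rpow hm (min_le_right _ _) h0) (by positivity) (by positivity)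

theorem prod_y {ι : Type} [Fintype ι] {J : ℕ} (y : ι → Fin (J + 1)) :
    ∏ i, (2 : ℝ) ^ (y i).val = ((2 : ℝ) ^ J) ^ Fintype.card ι * (2 : ℝ) ^ (-∑ i, zt y i) := by
  have h1 : ∀ i, (2 : ℝ) ^ (y i).val = (2 : ℝ) ^ J * (2 : ℝ) ^ (-zt y i) := by
    intro i
    rw [← Real.rpow_natCast, ← Real.rpow_natCast, ← Real.rpow_add two_pos]
    congr 1
    unfold zt
    ring
  rw [Finset.prod_congr rfl fun i _ => h1 i, Finset.prod_mul_distrib, Finset.prod_const,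
    Finset.card_univ, ← Real.rpow_sum_of_pos two_pos, Finset.sum_neg_distrib]

/-- the factor of the operator norm -/
theorem fac (σ C q ρ' w j : ℝ) (J y : ℕ) (W : ℝ) (hσ0 : 0 < σ) (hσ1 : σ < 1) (hC : 0 ≤ C) (hq : 0 < q)
    (hqρ : 1 / q ≤ ρ') (hy : y ≤ J) (β : ℝ) (hβ : 0 ≤ β) (hw : w = 1 + ((2 : ℝ) ^ J) ^ 2 * β)
    (hj : (2 : ℝ) ^ (j - 1) ≤ w)
    (hW : W ≤ C * ((2 ^ y) ^ 2 / q * (1 + (2 ^ y) ^ 2 * β) ^ (-σ))) :
    √W / 2 ^ y ≤ √(2 * C * ρ' * (2 : ℝ) ^ (-(σ * max 0 (j - 2 * ((J : ℝ) - y))))) := by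
  have hR : (0 : ℝ) < 2 ^ y := by positivity
  set z : ℝ := (J : ℝ) - y with hz
  have hz0 : 0 ≤ z := by
    have : (y : ℝ) ≤ J := by exact_mod_cast hy
    linarith
  set u : ℝ := 1 + ((2 : ℝ) ^ y) ^ 2 * β with hu
  have hu1 : 1 ≤ u := by
    have : 0 ≤ ((2 : ℝ) ^ y) ^ 2 * β := by positivity
    linarith
  have e1 : ((2 : ℝ) ^ y) ^ 2 = ((2 : ℝ) ^ J) ^ 2 * (2 : ℝ) ^ (-(2 * z)) := by
    rw [← pow_mul, ← pow_mul, ← Real.rpow_natCast, ← Real.rpow_natCast, ← Real.rpow_add two_pos]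
    congr 1
    push_cast
    rw [hz]
    ring
  have hz1 : (2 : ℝ) ^ (-(2 * z)) ≤ 1 := Real.rpow_le_one_of_one_le_of_nonpos one_le_two (by linarith)
  have hz2 : 0 < (2 : ℝ) ^ (-(2 * z)) := by positivity
  have huw : w * (2 : ℝ) ^ (-(2 * z)) ≤ u := by
    rw [hu, hw, e1]
    nlinarith
  have hlow : (2 : ℝ) ^ (max 0 (j - 2 * z)) / 2 ≤ u := by
    rcases le_total (j - 2 * z) 0 with h | h
    · rw [max_eq_left h, Real.rpow_zero]
      linarith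
    · rw [max_eq_right h]
      refine le_trans (le_of_eq ?_) ((mul_le_mul_of_nonneg_right hj hz2.le).trans huw)
      rw [← Real.rpow_add two_pos]
      have : j - 1 + -(2 * z) = (j - 2 * z) - 1 := by ring
      rw [this, Real.rpow_sub_one two_ne_zero]
  have h1 : u ^ (-σ) ≤ 2 * (2 : ℝ) ^ (-(σ * max 0 (j - 2 * z))) := by
    have h2 : u ^ (-σ) ≤ ((2 : ℝ) ^ (max 0 (j - 2 * z)) / 2) ^ (-σ) :=
      Real.rpow_le_rpow_of_nonpos (by positivity) hlow (by linarith)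
    refine h2.trans ?_
    rw [Real.div_rpow (by positivity) two_pos.le, ← Real.rpow_mul two_pos.le, Real.rpow_neg two_pos.le σ,
      div_inv_eq_mul, mul_comm]
    have h3 : (2 : ℝ) ^ σ ≤ 2 := by
      calc (2 : ℝ) ^ σ ≤ 2 ^ (1 : ℝ) := Real.rpow_le_rpow_of_exponent_le one_le_two hσ1.le
        _ = 2 := Real.rpow_one _
    have h4 : max 0 (j - 2 * z) * -σ = -(σ * max 0 (j - 2 * z)) := by ring
    rw [h4]
    exact mul_le_mul_of_nonneg_right h3 (by positivity)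
  have h5 : W ≤ (2 * C * ρ' * (2 : ℝ) ^ (-(σ * max 0 (j - 2 * z)))) * (2 ^ y) ^ 2 := by
    refine hW.trans ?_
    have h6 : 1 / q * u ^ (-σ) ≤ ρ' * (2 * (2 : ℝ) ^ (-(σ * max 0 (j - 2 * z)))) :=
      mul_le_mul hqρ h1 (by positivity) (le_trans (by positivity) hqρ)
    calc C * ((2 ^ y) ^ 2 / q * u ^ (-σ)) = C * (2 ^ y) ^ 2 * (1 / q * u ^ (-σ)) := by ring
      _ ≤ C * (2 ^ y) ^ 2 * (ρ' * (2 * (2 : ℝ) ^ (-(σ * max 0 (j - 2 * z))))) :=
        mul_le_mul_of_nonneg_left h6 (by positivity)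
      _ = _ := by ring
  rw [div_le_iff₀ hR]
  refine (Real.sqrt_le_sqrt h5).trans (le_of_eq ?_)
  rw [Real.sqrt_mul' _ (by positivity), Real.sqrt_sq hR.le]

theorem pw (B X n Sg ρ σ t M₁ M₂ p : ℝ) (hB : 0 < B) (hX : 0 < X) (hp : 0 < p) :
    (B * X ^ (2 * n + 2) * (2 : ℝ) ^ (-Sg) * (2 : ℝ) ^ (-ρ) * (2 : ℝ) ^ (-(σ * t))) ^ (1 - 2 / p) *
      (B * (2 : ℝ) ^ (-ρ) * (2 : ℝ) ^ (-(σ / 2 * (M₁ + M₂)))) ^ (2 / p) =
    B * X ^ ((2 * n + 2) * (1 - 2 / p)) * (2 : ℝ) ^ (-ρ) *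
      (2 : ℝ) ^ (2 / p * (-(p / 2 - 1) * Sg - σ * (p / 2 - 1) * t - σ / 2 * (M₁ + M₂))) := by
  have f1 : B ^ (1 - 2 / p) * B ^ (2 / p) = B := by
    rw [← Real.rpow_add hB]
    simp
  have f2 : (2 : ℝ) ^ (-ρ) * (2 : ℝ) ^ (2 / p * (-(p / 2 - 1) * Sg - σ * (p / 2 - 1) * t -
      σ / 2 * (M₁ + M₂))) = (2 : ℝ) ^ (-Sg * (1 - 2 / p)) * (2 : ℝ) ^ (-ρ * (1 - 2 / p)) *
      (2 : ℝ) ^ (-(σ * t) * (1 - 2 / p)) * ((2 : ℝ) ^ (-ρ * (2 / p)) *
      (2 : ℝ) ^ (-(σ / 2 * (M₁ + M₂)) * (2 / p))) := by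
    rw [← Real.rpow_add two_pos, ← Real.rpow_add two_pos, ← Real.rpow_add two_pos,
      ← Real.rpow_add two_pos, ← Real.rpow_add two_pos]
    congr 1
    field_simp
    ring
  rw [Real.mul_rpow (by positivity) (by positivity),
    Real.mul_rpow (by positivity) (by positivity), Real.mul_rpow (by positivity) (by positivity),
    Real.mul_rpow hB.le (by positivity), Real.mul_rpow (by positivity) (by positivity),
    Real.mul_rpow hB.le (by positivity), ← Real.rpow_mul hX.le, ← Real.rpow_mul two_pos.le,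
    ← Real.rpow_mul two_pos.le, ← Real.rpow_mul two_pos.le, ← Real.rpow_mul two_pos.le,
    ← Real.rpow_mul two_pos.le]
  calc _ = (B ^ (1 - 2 / p) * B ^ (2 / p)) *
        X ^ ((2 * n + 2) * (1 - 2 / p)) * ((2 : ℝ) ^ (-Sg * (1 - 2 / p)) *
        (2 : ℝ) ^ (-ρ * (1 - 2 / p)) * (2 : ℝ) ^ (-(σ * t) * (1 - 2 / p)) *
        ((2 : ℝ) ^ (-ρ * (2 / p)) * (2 : ℝ) ^ (-(σ / 2 * (M₁ + M₂)) * (2 / p)))) := by ring
    _ = _ := by
      rw [f1, ← f2]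
      ring

end PTW

open PTW in
theorem t_PTW : M_PTW := by
  intro hWF hGTA ι _ c σ p C₀ a hc hσ0 hσ1 hp hC₀ ha
  have hW : WWF := hWF
  have hp0 : 0 < p := by linarith
  have hc' : (1 : ℝ) ≤ c := by exact_mod_cast hc
  set A₀ : ℝ := max C₀ 1 with hA₀
  have hA1 : 1 ≤ A₀ := le_max_right _ _
  have hCA : C₀ ≤ A₀ := le_max_left _ _
  have hA0 : 0 < A₀ := by linarith
  obtain ⟨C', J₀, hC', hgta⟩ := hGTA c σ (a / A₀) ((3 * c * A₀ / a) ^ 2) hc hσ0 hσ1 (by positivity)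
    (by positivity)
  have hC'0 : 0 < C' := by linarith
  refine ⟨2 * A₀ * C', J₀, by nlinarith, ?_⟩
  intro J Λ τ v y i₁ i₂ hJ hΛ hΛ10 hv
  have hΛ0 : 0 < Λ := by linarith
  have hΛ2 : 0 < Λ ^ 2 := by positivity
  set X : ℝ := (2 : ℝ) ^ J with hX
  have hX0 : 0 < X := by positivity
  have hX1 : 1 ≤ X := one_le_pow₀ one_le_two
  set n : ℕ := Fintype.card ι with hn
  set Sg : ℝ := ∑ i, zt y i with hSg
  have hzt : ∀ i, 0 ≤ zt y i := by
    intro i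
    unfold zt
    have h1 : ((y i).val : ℝ) ≤ J := by
      have := (y i).isLt
      exact_mod_cast (by omega : (y i).val ≤ J)
    linarith
  have hSg0 : 0 ≤ Sg := Finset.sum_nonneg fun i _ => hzt i
  have hWge : ∀ R : ℕ, (R : ℝ) ≤ WW R c τ := fun R => hW.ge R c τ
  have hW0 : 0 ≤ WW (2 ^ J) c τ := (Nat.cast_nonneg _).trans (hWge _)
  set om : ℝ := WW (2 ^ J) c τ / X ^ 2 with hom
  have hom0 : 0 ≤ om := by positivity
  have hom3 : om ≤ 3 * c := by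
    rw [hom, div_le_iff₀ (by positivity)]
    have h1 := WW_le (2 ^ J) c τ Nat.one_le_two_pow hc
    push_cast at h1
    exact h1
  have hWom : WW (2 ^ J) c τ = om * X ^ 2 := by
    rw [hom]
    field_simp
  have hAy : Ay C₀ c J y τ = C₀ * om * X ^ (2 * n + 2) * (2 : ℝ) ^ (-Sg) := by
    unfold Ay
    rw [prod_y, hWom, ← hX, ← hn, ← hSg]
    ring
  have hAy0 : 0 ≤ Ay C₀ c J y τ := by
    rw [hAy]
    positivity
  have hhalf : (2 : ℝ) ^ (-Sg) = (2 : ℝ) ^ (-Sg / 2) * (2 : ℝ) ^ (-Sg / 2) := by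
    rw [← Real.rpow_add two_pos]
    congr 1
    ring
  by_cases hbad : C₀ * om * (2 : ℝ) ^ (-Sg / 2) ≤ a / Λ ^ 2
  · left
    refine (min_le_left _ _).trans (mul_le_mul_of_nonneg_right ?_ hv)
    rw [hAy, hhalf]
    calc C₀ * om * X ^ (2 * n + 2) * ((2 : ℝ) ^ (-Sg / 2) * (2 : ℝ) ^ (-Sg / 2))
        = (C₀ * om * (2 : ℝ) ^ (-Sg / 2)) * (X ^ (2 * n + 2) * (2 : ℝ) ^ (-Sg / 2)) := by ring
      _ ≤ (a / Λ ^ 2) * (X ^ (2 * n + 2) * (2 : ℝ) ^ (-Sg / 2)) :=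
        mul_le_mul_of_nonneg_right hbad (by positivity)
      _ = _ := by ring
  · right
    have hgood := not_le.1 hbad
    have hS1 : (2 : ℝ) ^ (-Sg / 2) ≤ 1 :=
      Real.rpow_le_one_of_one_le_of_nonpos one_le_two (by linarith)
    have h1 : a / Λ ^ 2 < A₀ * om * (2 : ℝ) ^ (-Sg / 2) :=
      hgood.trans_le (by gcongr)
    have h2 : a / A₀ / Λ ^ 2 ≤ om := by
      have h3 : A₀ * om * (2 : ℝ) ^ (-Sg / 2) ≤ A₀ * om := mul_le_of_le_one_right (by positivity) hS1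
      have h4 : a / Λ ^ 2 ≤ A₀ * om := h1.le.trans h3
      rw [div_div, mul_comm A₀, ← div_div, div_le_iff₀ hA0]
      linarith
    have h5 : (2 : ℝ) ^ (Sg / 2) ≤ 3 * c * A₀ / a * Λ ^ 2 := by
      have e1 : (2 : ℝ) ^ (-Sg / 2) * (2 : ℝ) ^ (Sg / 2) = 1 := by
        rw [← Real.rpow_add two_pos]
        have : -Sg / 2 + Sg / 2 = 0 := by ring
        rw [this, Real.rpow_zero]
      have h6 : a / Λ ^ 2 * (2 : ℝ) ^ (Sg / 2) ≤ A₀ * om := by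
        calc a / Λ ^ 2 * (2 : ℝ) ^ (Sg / 2) ≤ A₀ * om * (2 : ℝ) ^ (-Sg / 2) * (2 : ℝ) ^ (Sg / 2) :=
              mul_le_mul_of_nonneg_right h1.le (by positivity)
          _ = A₀ * om * ((2 : ℝ) ^ (-Sg / 2) * (2 : ℝ) ^ (Sg / 2)) := by ring
          _ = A₀ * om := by rw [e1, mul_one]
      have h7 : a / Λ ^ 2 * (2 : ℝ) ^ (Sg / 2) ≤ A₀ * (3 * c) :=
        h6.trans (mul_le_mul_of_nonneg_left hom3 hA0.le)
      have h8 : a * (2 : ℝ) ^ (Sg / 2) ≤ A₀ * (3 * c) * Λ ^ 2 := by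
        have h9 := mul_le_mul_of_nonneg_right h7 hΛ2.le
        calc a * (2 : ℝ) ^ (Sg / 2) = a / Λ ^ 2 * (2 : ℝ) ^ (Sg / 2) * Λ ^ 2 := by field_simp
          _ ≤ _ := h9
      rw [div_mul_eq_mul_div, le_div_iff₀ ha]
      linarith
    have h10 : (2 : ℝ) ^ Sg ≤ (3 * c * A₀ / a) ^ 2 * Λ ^ 4 := by
      have e1 : (2 : ℝ) ^ Sg = ((2 : ℝ) ^ (Sg / 2)) ^ 2 := by
        rw [← Real.rpow_natCast, ← Real.rpow_mul two_pos.le]
        congr 1
        push_cast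
        ring
      rw [e1]
      calc ((2 : ℝ) ^ (Sg / 2)) ^ 2 ≤ (3 * c * A₀ / a * Λ ^ 2) ^ 2 := pow_le_pow_left₀ (by positivity) h5 2
        _ = _ := by ring
    have hyi : ∀ i : ι, (y i).val ≤ J := fun i => by
      have := (y i).isLt
      omega
    have h11 : ∀ i : ι, (2 : ℝ) ^ (J - (y i).val) ≤ (3 * c * A₀ / a) ^ 2 * Λ ^ 4 := by
      intro i
      refine le_trans ?_ h10
      rw [← Real.rpow_natCast, Nat.cast_sub (hyi i)]
      refine Real.rpow_le_rpow_of_exponent_le one_le_two ?_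
      exact Finset.single_le_sum (f := fun i => zt y i) (fun i _ => hzt i) (Finset.mem_univ i)
    obtain ⟨ρ', hr1, hr2, hr3, hr4⟩ := hgta J Λ τ hJ hΛ hΛ10 h2
    set q : ℝ := (ρ'.den : ℝ) with hq
    have hq1 : 1 ≤ q := by
      rw [hq]
      exact_mod_cast ρ'.den_pos
    have hq0 : 0 < q := by linarith
    set β : ℝ := |τ - ρ'| with hβ
    have hβ0 : 0 ≤ β := abs_nonneg _
    set w : ℝ := 1 + X ^ 2 * β with hw
    have hw1 : 1 ≤ w := by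
      have : 0 ≤ X ^ 2 * β := by positivity
      linarith
    have hw0 : 0 < w := by linarith
    obtain ⟨j, hj1, hj2⟩ := exists_nat_pow_near hw1 (one_lt_two : (1 : ℝ) < 2)
    set ρ : ℕ := Nat.log 2 ρ'.den with hρ
    have hρ1 : 2 ^ ρ ≤ ρ'.den := Nat.pow_log_le_self 2 ρ'.den_ne_zero
    have hρ2 : ρ'.den < 2 ^ (ρ + 1) := Nat.lt_pow_succ_log_self one_lt_two _
    have hρ1' : (2 : ℝ) ^ ρ ≤ q := by
      rw [hq]
      exact_mod_cast hρ1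
    have hqρ : 1 / q ≤ (2 : ℝ) ^ (-(ρ : ℝ)) := by
      rw [Real.rpow_neg two_pos.le, Real.rpow_natCast, one_div]
      exact inv_anti₀ (by positivity) hρ1'
    have h2s : (2 : ℝ) ^ σ ≤ 2 := by
      calc (2 : ℝ) ^ σ ≤ 2 ^ (1 : ℝ) := Real.rpow_le_rpow_of_exponent_le one_le_two hσ1.le
        _ = 2 := Real.rpow_one _
    have hj1' : (2 : ℝ) ^ (((j + 1 : ℕ) : ℝ) - 1) ≤ w := by
      have : ((j + 1 : ℕ) : ℝ) - 1 = (j : ℕ) := by
        push_cast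
        ring
      rw [this, Real.rpow_natCast]
      exact hj1
    have hjs : (2 : ℝ) ^ (σ * ((j + 1 : ℕ) : ℝ)) ≤ 2 * w ^ σ := by
      have e1 : σ * ((j + 1 : ℕ) : ℝ) = σ + (j : ℝ) * σ := by
        push_cast
        ring
      rw [e1, Real.rpow_add two_pos, Real.rpow_mul two_pos.le, Real.rpow_natCast]
      exact mul_le_mul h2s (Real.rpow_le_rpow (by positivity) hj1 hσ0.le) (by positivity) two_pos.le
    have hwinv : w ^ (-σ) ≤ 2 * (2 : ℝ) ^ (-(σ * ((j + 1 : ℕ) : ℝ))) := by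
      rw [Real.rpow_neg hw0.le, Real.rpow_neg two_pos.le, ← div_eq_mul_inv, le_div_iff₀ (by positivity),
        inv_mul_le_iff₀ (by positivity)]
      linarith
    refine ⟨ρ, j + 1, ?_, ?_, ?_, ?_⟩
    · calc (2 : ℝ) ^ ρ ≤ q := hρ1'
        _ ≤ C' * Λ ^ 2 := hr1
        _ ≤ 2 * A₀ * C' * Λ ^ 2 := by
          have : 0 < C' * Λ ^ 2 := by positivity
          nlinarith
    · have h12 : w ^ σ ≤ C' * Λ ^ 2 := by
        have h13 : w ^ σ ≤ q * w ^ σ := le_mul_of_one_le_left (by positivity) hq1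
        exact h13.trans hr2
      calc (2 : ℝ) ^ (σ * ((j + 1 : ℕ) : ℝ)) ≤ 2 * w ^ σ := hjs
        _ ≤ 2 * (C' * Λ ^ 2) := by linarith
        _ ≤ 2 * A₀ * C' * Λ ^ 2 := by
          have : 0 < C' * Λ ^ 2 := by positivity
          nlinarith
    · refine ⟨ρ'.den, ρ'.num, hρ1, by rw [pow_succ] at hρ2; omega, ?_⟩
      have e1 : ((ρ'.num : ℝ) / (ρ'.den : ℝ)) = (ρ' : ℝ) := by
        rw [Rat.cast_def]
      rw [e1, le_div_iff₀ (by positivity)]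
      have : β * X ^ 2 ≤ w := by
        rw [hw]
        nlinarith
      exact this.trans hj2.le
    · have hE1 := fac σ C' q ((2 : ℝ) ^ (-(ρ : ℝ))) w ((j + 1 : ℕ) : ℝ) J (y i₁).val _ hσ0 hσ1 hC'0.le hq0
        hqρ (hyi i₁) β hβ0 hw hj1' (hr4 _ (hyi i₁) (h11 i₁))
      have hE2 := fac σ C' q ((2 : ℝ) ^ (-(ρ : ℝ))) w ((j + 1 : ℕ) : ℝ) J (y i₂).val _ hσ0 hσ1 hC'0.le hq0
        hqρ (hyi i₂) β hβ0 hw hj1' (hr4 _ (hyi i₂) (h11 i₂))
      set t : ℝ := ((j + 1 : ℕ) : ℝ) with ht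
      set M₁ : ℝ := max 0 (t - 2 * zt y i₁) with hM₁
      set M₂ : ℝ := max 0 (t - 2 * zt y i₂) with hM₂
      have hEy : Ey C₀ c J y i₁ i₂ τ ≤
          2 * A₀ * C' * (2 : ℝ) ^ (-(ρ : ℝ)) * (2 : ℝ) ^ (-(σ / 2 * (M₁ + M₂))) := by
        unfold Ey
        have h12 := mul_le_mul hE1 hE2 (by positivity) (Real.sqrt_nonneg _)
        have h13 := mul_le_mul hCA h12 (by positivity) hA0.le
        refine h13.trans (le_of_eq ?_)
        rw [← Real.sqrt_mul (by positivity)]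
        have e1 : 2 * C' * (2 : ℝ) ^ (-(ρ : ℝ)) * (2 : ℝ) ^ (-(σ * max 0 (t - 2 * ((J : ℝ) - ((y i₁).val : ℝ))))) *
            (2 * C' * (2 : ℝ) ^ (-(ρ : ℝ)) * (2 : ℝ) ^ (-(σ * max 0 (t - 2 * ((J : ℝ) - ((y i₂).val : ℝ)))))) =
            (2 * C' * (2 : ℝ) ^ (-(ρ : ℝ)) * (2 : ℝ) ^ (-(σ / 2 * (M₁ + M₂)))) ^ 2 := by
          have e2 : ((2 : ℝ) ^ (-(σ / 2 * (M₁ + M₂)))) ^ 2 = (2 : ℝ) ^ (-(σ * M₁)) * (2 : ℝ) ^ (-(σ * M₂)) := by
            rw [← Real.rpow_natCast, ← Real.rpow_mul two_pos.le, ← Real.rpow_add two_pos]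
            congr 1
            push_cast
            ring
          rw [mul_pow, e2, hM₁, hM₂]
          unfold zt
          ring
        rw [e1, Real.sqrt_sq (by positivity)]
        ring
      have hAy' : Ay C₀ c J y τ ≤ 2 * A₀ * C' * X ^ (2 * (n : ℝ) + 2) * (2 : ℝ) ^ (-Sg) *
          (2 : ℝ) ^ (-(ρ : ℝ)) * (2 : ℝ) ^ (-(σ * t)) := by
        have h12 : om ≤ C' * ((2 : ℝ) ^ (-(ρ : ℝ)) * (2 * (2 : ℝ) ^ (-(σ * t)))) := by
          rw [hom, div_le_iff₀ (by positivity)]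
          refine hr3.trans ?_
          have h13 : 1 / q * w ^ (-σ) ≤ (2 : ℝ) ^ (-(ρ : ℝ)) * (2 * (2 : ℝ) ^ (-(σ * t))) :=
            mul_le_mul hqρ hwinv (by positivity) (by positivity)
          calc C' * (X ^ 2 / q * w ^ (-σ)) = C' * X ^ 2 * (1 / q * w ^ (-σ)) := by ring
            _ ≤ C' * X ^ 2 * ((2 : ℝ) ^ (-(ρ : ℝ)) * (2 * (2 : ℝ) ^ (-(σ * t)))) :=
              mul_le_mul_of_nonneg_left h13 (by positivity)
            _ = _ := by ring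
        have e1 : X ^ (2 * (n : ℝ) + 2) = X ^ (2 * n + 2) := by
          rw [← Real.rpow_natCast X (2 * n + 2)]
          push_cast
          rfl
        rw [hAy, e1]
        calc C₀ * om * X ^ (2 * n + 2) * (2 : ℝ) ^ (-Sg)
            ≤ A₀ * (C' * ((2 : ℝ) ^ (-(ρ : ℝ)) * (2 * (2 : ℝ) ^ (-(σ * t))))) * X ^ (2 * n + 2) *
              (2 : ℝ) ^ (-Sg) := by gcongr
          _ = _ := by ring
      have hθ0 : 0 ≤ 2 / p := by positivity
      have hθ1 : 2 / p ≤ 1 := by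
        rw [div_le_one hp0]
        exact hp.le
      set A' : ℝ := 2 * A₀ * C' * X ^ (2 * (n : ℝ) + 2) * (2 : ℝ) ^ (-Sg) *
          (2 : ℝ) ^ (-(ρ : ℝ)) * (2 : ℝ) ^ (-(σ * t)) with hA'
      set E' : ℝ := 2 * A₀ * C' * (2 : ℝ) ^ (-(ρ : ℝ)) * (2 : ℝ) ^ (-(σ / 2 * (M₁ + M₂))) with hE'
      have hA'0 : 0 < A' := by positivity
      have hE'0 : 0 < E' := by positivity
      refine (min_le_min (mul_le_mul_of_nonneg_right hAy' hv)
        (mul_le_mul_of_nonneg_right hEy (Real.sqrt_nonneg v))).trans ?_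
      refine (min_le_rpow (mul_nonneg hA'0.le hv) (mul_nonneg hE'0.le (Real.sqrt_nonneg v)) hθ0 hθ1).trans
        (le_of_eq ?_)
      rw [Real.mul_rpow hA'0.le hv, Real.mul_rpow hE'0.le (Real.sqrt_nonneg v), Real.sqrt_eq_rpow,
        ← Real.rpow_mul hv]
      have e2 : v ^ (1 - 2 / p) * v ^ (1 / 2 * (2 / p)) = v ^ (1 - 1 / p) := by
        rw [← Real.rpow_add_of_nonneg hv (by linarith) (by positivity)]
        congr 1
        field_simp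
        ring
      have e3 : A' ^ (1 - 2 / p) * E' ^ (2 / p) = 2 * A₀ * C' * X ^ ((2 * (n : ℝ) + 2) * (1 - 2 / p)) *
          (2 : ℝ) ^ (-(ρ : ℝ)) * (2 : ℝ) ^ (2 / p * (-(p / 2 - 1) * Sg - σ * (p / 2 - 1) * t -
            σ / 2 * (M₁ + M₂))) := by
        have hB : 0 < 2 * A₀ * C' := by positivity
        rw [hA', hE']
        exact pw (2 * A₀ * C') X (n : ℝ) Sg ρ σ t M₁ M₂ p hB hX0 hp0
      calc A' ^ (1 - 2 / p) * v ^ (1 - 2 / p) * (E' ^ (2 / p) * v ^ (1 / 2 * (2 / p)))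
          = (A' ^ (1 - 2 / p) * E' ^ (2 / p)) * (v ^ (1 - 2 / p) * v ^ (1 / 2 * (2 / p))) := by ring
        _ = _ := by rw [e2, e3]

end

end STZ3
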