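import Pool.Agent.STZ3.StM
import Pool.Agent.STZ3.CLL

/-!
# Compact simple groups of rank two: module OFD (helper69)
-/

namespace STZ3

open STZ LGR MeasureTheory Matrix Filter

open scoped ComplexConjugate Matrix Real Topology

noncomputable section

namespace OFD

open CLL

/-! ### Cauchy-Schwarz -/

section abs

variable {α : Type*} [MeasurableSpace α]

theorem bm_sqrt {f : α → ℝ} (hf : BM f) : BM fun x => √(f x) := by
  obtain ⟨h, C, hC⟩ := hf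
  refine ⟨Real.continuous_sqrt.comp_stronglyMeasurable h, √C, fun x => ?_⟩
  rw [Real.norm_of_nonneg (Real.sqrt_nonneg _)]
  exact Real.sqrt_le_sqrt ((le_abs_self _).trans (hC x))

theorem csq (μ : Measure α) [IsFiniteMeasure μ] {f g : α → ℝ} (hf : BM f) (hg : BM g)
    (hf0 : ∀ x, 0 ≤ f x) (hg0 : ∀ x, 0 ≤ g x) :
    ∫ x, √(f x) * √(g x) ∂μ ≤ √(∫ x, f x ∂μ) * √(∫ x, g x ∂μ) := by
  obtain ⟨mf, Cf, bf⟩ := bm_sqrt hf
  obtain ⟨mg, Cg, bg⟩ := bm_sqrt hg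
  have h := integral_mul_le_Lp_mul_Lq_of_nonneg (μ := μ) (p := 2) (q := 2)
    Real.HolderConjugate.two_two (f := fun x => √(f x)) (g := fun x => √(g x))
    (ae_of_all _ fun x => Real.sqrt_nonneg _) (ae_of_all _ fun x => Real.sqrt_nonneg _)
    (MemLp.of_bound mf.aestronglyMeasurable Cf (ae_of_all _ bf))
    (MemLp.of_bound mg.aestronglyMeasurable Cg (ae_of_all _ bg))
  have e1 : ∀ x, √(f x) ^ (2 : ℝ) = f x := fun x => by
    rw [Real.rpow_two, Real.sq_sqrt (hf0 x)]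
  have e2 : ∀ x, √(g x) ^ (2 : ℝ) = g x := fun x => by
    rw [Real.rpow_two, Real.sq_sqrt (hg0 x)]
  simp only [e1, e2] at h
  rw [Real.sqrt_eq_rpow (∫ x, f x ∂μ), Real.sqrt_eq_rpow (∫ x, g x ∂μ)]
  exact h

theorem csq1 (μ : Measure α) [IsProbabilityMeasure μ] {f : α → ℝ} (hf : BM f)
    (hf0 : ∀ x, 0 ≤ f x) : ∫ x, √(f x) ∂μ ≤ √(∫ x, f x ∂μ) := by
  have h := csq μ hf (g := fun _ => (1 : ℝ)) ⟨stronglyMeasurable_const, 1, fun x => by simp⟩ hf0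
    (fun _ => zero_le_one)
  simpa using h

theorem bmul {f g : α → ℝ} (hf : BM f) (hg : BM g) : BM fun x => f x * g x := hf.smul hg

theorem bconst (c : ℝ) : BM fun _ : α => c := ⟨stronglyMeasurable_const, ‖c‖, fun _ => le_rfl⟩

theorem core {G : Type*} [MeasurableSpace G] (μ : Measure G) [IsProbabilityMeasure μ]
    (ℓ : Measure ℝ) [IsProbabilityMeasure ℓ] (J : ℝ → ℝ → G → ℂ) (v w : ℝ → G → G → ℝ)
    (hv : BM fun z : ℝ × G × G => v z.1 z.2.1 z.2.2)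
    (hw : BM fun z : ℝ × G × G => w z.1 z.2.1 z.2.2)
    (v0 : ∀ s h g, 0 ≤ v s h g) (w0 : ∀ s h g, 0 ≤ w s h g) (A : ℝ) (hA : 0 ≤ A)
    (hJ : ∀ t s h, ‖J t s h‖ ≤ A * (√(∫ g, v s h g ∂μ) * √(∫ g, w t h g ∂μ))) :
    ‖∫ t, ∫ s, ∫ h, J t s h ∂μ ∂ℓ ∂ℓ‖ ≤
      A * (√(∫ s, ∫ h, ∫ g, v s h g ∂μ ∂μ ∂ℓ) * √(∫ t, ∫ h, ∫ g, w t h g ∂μ ∂μ ∂ℓ)) := by
  have hnv : BM fun z : ℝ × G => ∫ g, v z.1 z.2 g ∂μ :=
    (hv.comp (g := fun p : (ℝ × G) × G => (p.1.1, p.1.2, p.2)) (by fun_prop)).int μ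
  have hnw : BM fun z : ℝ × G => ∫ g, w z.1 z.2 g ∂μ :=
    (hw.comp (g := fun p : (ℝ × G) × G => (p.1.1, p.1.2, p.2)) (by fun_prop)).int μ
  have hNV : BM fun s : ℝ => ∫ h, ∫ g, v s h g ∂μ ∂μ := hnv.int μ
  have hNW : BM fun s : ℝ => ∫ h, ∫ g, w s h g ∂μ ∂μ := hnw.int μ
  have nv0 : ∀ s h, 0 ≤ ∫ g, v s h g ∂μ := fun s h => integral_nonneg fun g => v0 s h g
  have nw0 : ∀ s h, 0 ≤ ∫ g, w s h g ∂μ := fun s h => integral_nonneg fun g => w0 s h g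
  have NV0 : ∀ s, 0 ≤ ∫ h, ∫ g, v s h g ∂μ ∂μ := fun s => integral_nonneg fun h => nv0 s h
  have NW0 : ∀ s, 0 ≤ ∫ h, ∫ g, w s h g ∂μ ∂μ := fun s => integral_nonneg fun h => nw0 s h
  have s1 : ∀ t s, ‖∫ h, J t s h ∂μ‖ ≤
      A * (√(∫ h, ∫ g, v s h g ∂μ ∂μ) * √(∫ h, ∫ g, w t h g ∂μ ∂μ)) := by
    intro t s
    have b1 : BM fun h : G => ∫ g, v s h g ∂μ := hnv.comp (g := fun h => (s, h)) (by fun_prop)
    have b2 : BM fun h : G => ∫ g, w t h g ∂μ := hnw.comp (g := fun h => (t, h)) (by fun_prop)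
    refine (norm_integral_le_of_norm_le
      ((bmul (bconst A) (bmul (bm_sqrt b1) (bm_sqrt b2))).integrable μ)
      (ae_of_all _ fun h => hJ t s h)).trans ?_
    rw [integral_const_mul]
    exact mul_le_mul_of_nonneg_left (csq μ b1 b2 (nv0 s) (nw0 t)) hA
  have s2 : ∀ t, ‖∫ s, ∫ h, J t s h ∂μ ∂ℓ‖ ≤
      A * (√(∫ s, ∫ h, ∫ g, v s h g ∂μ ∂μ ∂ℓ) * √(∫ h, ∫ g, w t h g ∂μ ∂μ)) := by
    intro t
    have hi : Integrable (fun s => A * (√(∫ h, ∫ g, v s h g ∂μ ∂μ) *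
        √(∫ h, ∫ g, w t h g ∂μ ∂μ))) ℓ :=
      (bmul (bconst A) (bmul (bm_sqrt hNV) (bconst √(∫ h, ∫ g, w t h g ∂μ ∂μ)))).integrable ℓ
    refine (norm_integral_le_of_norm_le hi (Eventually.of_forall (s1 t))).trans ?_
    rw [integral_const_mul, integral_mul_const]
    exact mul_le_mul_of_nonneg_left
      (mul_le_mul_of_nonneg_right (csq1 ℓ hNV NV0) (Real.sqrt_nonneg _)) hA
  have hi : Integrable (fun t => A * (√(∫ s, ∫ h, ∫ g, v s h g ∂μ ∂μ ∂ℓ) *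
      √(∫ h, ∫ g, w t h g ∂μ ∂μ))) ℓ :=
    (bmul (bconst A) (bmul (bconst √(∫ s, ∫ h, ∫ g, v s h g ∂μ ∂μ ∂ℓ))
      (bm_sqrt hNW))).integrable ℓ
  refine (norm_integral_le_of_norm_le hi (Eventually.of_forall s2)).trans ?_
  rw [integral_const_mul, integral_const_mul]
  exact mul_le_mul_of_nonneg_left
    (mul_le_mul_of_nonneg_left (csq1 ℓ hNW NW0) (Real.sqrt_nonneg _)) hA

end abs

/-! ### the cutoffs -/

theorem two_scale {r : ℕ} {Φ : RT r} {m : ℕ} {C R : ℝ} {M₀ : {p // p ∈ pos Φ} → ℝ}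
    {jm : {p // p ∈ pos Φ} → ℕ} {L : ℕ} {ψ : {p // p ∈ pos Φ} → Fin (L + 2) → ℤ → ℝ}
    {ν₁ ν₂ : ({p // p ∈ pos Φ} → Fin (L + 2)) → Measure (Fin r → ℝ)}
    (hF : FCF Φ m C R M₀ jm L ψ ν₁ ν₂) (hm : 1 ≤ m) (hC : 0 ≤ C) (hM : ∀ p, 0 < M₀ p)
    (p : {p // p ∈ pos Φ}) (j j' : Fin (L + 2)) (hj : j.val < j'.val) (u : ℤ) :
    |ψ p j u| * |ψ p j' u| * 2 ^ (2 * m * (j'.val - j.val)) ≤ C ^ 2 * 2 ^ (2 * m) := by
  have hCC : 0 ≤ C ^ 2 * 2 ^ (2 * m) := by positivity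
  by_cases h1 : jm p + 1 < j'.val
  · rw [hF.out p j' u h1, abs_zero, mul_zero, zero_mul]
    exact hCC
  · have h2 : j.val ≤ jm p := by omega
    have h3 := hF.hi p j u h2
    have h4 := hF.lo p j' u (by omega)
    have hf' : 0 < fs (M₀ p) (jm p) j'.val := by
      have := hM p
      unfold fs
      positivity
    have hf : 0 < fs (M₀ p) (jm p) j.val := by
      have := hM p
      unfold fs
      positivity
    by_cases hu : u = 0
    · have h5 : |ψ p j' u| * fs (M₀ p) (jm p) j'.val ^ (2 * m) ≤ 0 := by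
        refine h4.trans (le_of_eq ?_)
        rw [hu, Int.cast_zero, abs_zero, zero_pow (by omega), mul_zero]
      have h6 : |ψ p j' u| = 0 := by
        have h7 : 0 < fs (M₀ p) (jm p) j'.val ^ (2 * m) := by positivity
        have h8 : 0 ≤ |ψ p j' u| := abs_nonneg _
        by_contra h9
        have h10 : 0 < |ψ p j' u| := lt_of_le_of_ne h8 (Ne.symm h9)
        exact absurd h5 (not_le.2 (mul_pos h10 h7))
      rw [h6, mul_zero, zero_mul]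
      exact hCC
    · set a := |ψ p j u| with ha
      set b := |ψ p j' u| with hb
      set U := |(u : ℝ)| ^ (2 * m) with hU
      have ha0 : 0 ≤ a := abs_nonneg _
      have hb0 : 0 ≤ b := abs_nonneg _
      have hU0 : 0 < U := by
        have : (u : ℝ) ≠ 0 := by exact_mod_cast hu
        positivity
      have hF0 : 0 < fs (M₀ p) (jm p) j.val ^ (2 * m) := by positivity
      -- the ratio of the scales
      have h5 : 2 ^ (j'.val - j.val) * fs (M₀ p) (jm p) j.val ≤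
          2 * fs (M₀ p) (jm p) j'.val := by
        unfold fs
        rw [min_eq_left h2, ← mul_assoc, ← mul_assoc]
        refine mul_le_mul_of_nonneg_right ?_ (hM p).le
        rw [← pow_add, ← pow_succ']
        refine pow_le_pow_right₀ (by norm_num) ?_
        omega
      have h6 : (2 ^ (j'.val - j.val) * fs (M₀ p) (jm p) j.val) ^ (2 * m) ≤
          (2 * fs (M₀ p) (jm p) j'.val) ^ (2 * m) := pow_le_pow_left₀ (by positivity) h5 _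
      rw [mul_pow, mul_pow, ← pow_mul] at h6
      have h7 : a * b * fs (M₀ p) (jm p) j'.val ^ (2 * m) ≤
          C ^ 2 * fs (M₀ p) (jm p) j.val ^ (2 * m) := by
        have h8 : (a * U) * (b * fs (M₀ p) (jm p) j'.val ^ (2 * m)) ≤
            (C * fs (M₀ p) (jm p) j.val ^ (2 * m)) * (C * U) :=
          mul_le_mul h3 h4 (by positivity) (by positivity)
        refine le_of_mul_le_mul_right ?_ hU0
        calc a * b * fs (M₀ p) (jm p) j'.val ^ (2 * m) * U =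
            (a * U) * (b * fs (M₀ p) (jm p) j'.val ^ (2 * m)) := by ring
          _ ≤ _ := h8
          _ = _ := by ring
      refine le_of_mul_le_mul_right ?_ hF0
      have e : 2 * m * (j'.val - j.val) = (j'.val - j.val) * (2 * m) := by ring
      rw [e]
      calc a * b * 2 ^ ((j'.val - j.val) * (2 * m)) * fs (M₀ p) (jm p) j.val ^ (2 * m) =
          a * b * (2 ^ ((j'.val - j.val) * (2 * m)) * fs (M₀ p) (jm p) j.val ^ (2 * m)) := by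
            ring
        _ ≤ a * b * (2 ^ (2 * m) * fs (M₀ p) (jm p) j'.val ^ (2 * m)) :=
            mul_le_mul_of_nonneg_left h6 (by positivity)
        _ = 2 ^ (2 * m) * (a * b * fs (M₀ p) (jm p) j'.val ^ (2 * m)) := by ring
        _ ≤ 2 ^ (2 * m) * (C ^ 2 * fs (M₀ p) (jm p) j.val ^ (2 * m)) :=
            mul_le_mul_of_nonneg_left h7 (by positivity)
        _ = _ := by ring

theorem two_scale' {r : ℕ} {Φ : RT r} {m : ℕ} {C R : ℝ} {M₀ : {p // p ∈ pos Φ} → ℝ}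
    {jm : {p // p ∈ pos Φ} → ℕ} {L : ℕ} {ψ : {p // p ∈ pos Φ} → Fin (L + 2) → ℤ → ℝ}
    {ν₁ ν₂ : ({p // p ∈ pos Φ} → Fin (L + 2)) → Measure (Fin r → ℝ)}
    (hF : FCF Φ m C R M₀ jm L ψ ν₁ ν₂) (hm : 1 ≤ m) (hC : 0 ≤ C) (hM : ∀ p, 0 < M₀ p)
    (p : {p // p ∈ pos Φ}) (j j' : Fin (L + 2)) (y : ℝ) (hy : 0 ≤ y)
    (hj : y < |(j.val : ℝ) - j'.val|) (u : ℤ) :
    |ψ p j u| * |ψ p j' u| ≤ C ^ 2 * 2 ^ (2 * m) * (2 : ℝ) ^ (-(2 * m * y)) := by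
  have key : ∀ i i' : Fin (L + 2), i.val < i'.val → y < (i'.val : ℝ) - i.val →
      |ψ p i u| * |ψ p i' u| ≤ C ^ 2 * 2 ^ (2 * m) * (2 : ℝ) ^ (-(2 * m * y)) := by
    intro i i' hi hy'
    have h1 := two_scale hF hm hC hM p i i' hi u
    have h2 : (2 : ℝ) ^ (2 * m * y) ≤ 2 ^ (2 * m * (i'.val - i.val)) := by
      rw [← Real.rpow_natCast]
      refine Real.rpow_le_rpow_of_exponent_le (by norm_num) ?_
      push_cast
      rw [Nat.cast_sub hi.le]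
      refine mul_le_mul_of_nonneg_left hy'.le (by positivity)
    rw [Real.rpow_neg (by norm_num), ← div_eq_mul_inv, le_div_iff₀ (by positivity)]
    exact (mul_le_mul_of_nonneg_left h2 (by positivity)).trans h1
  rcases lt_trichotomy j.val j'.val with h | h | h
  · refine key j j' h ?_
    rw [abs_sub_comm, abs_of_pos] at hj
    · exact hj
    · have : (j.val : ℝ) < j'.val := by exact_mod_cast h
      linarith
  · exfalso
    rw [h, sub_self, abs_zero] at hj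
    linarith
  · rw [mul_comm |ψ p j u|]
    refine key j' j h ?_
    rw [abs_of_pos] at hj
    · exact hj
    · have : (j'.val : ℝ) < j.val := by exact_mod_cast h
      linarith

theorem psi_bd {r : ℕ} {Φ : RT r} {m : ℕ} {C R : ℝ} {M₀ : {p // p ∈ pos Φ} → ℝ}
    {jm : {p // p ∈ pos Φ} → ℕ} {L : ℕ} {ψ : {p // p ∈ pos Φ} → Fin (L + 2) → ℤ → ℝ}
    {ν₁ ν₂ : ({p // p ∈ pos Φ} → Fin (L + 2)) → Measure (Fin r → ℝ)}
    (hF : FCF Φ m C R M₀ jm L ψ ν₁ ν₂) (hm : 1 ≤ m) (hC : 0 ≤ C) (hM : ∀ p, 0 < M₀ p)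
    (j₁ j₂ j₃ : {p // p ∈ pos Φ} → Fin (L + 2)) (y : ℝ) (hy : 0 ≤ y)
    (hj : (∃ p, y < |((j₁ p).val : ℝ) - (j₂ p).val|) ∨
      ∃ p, y < |((j₃ p).val : ℝ) - (j₂ p).val|) (l : Fin r → ℤ) :
    |pj' ψ j₂ l| * |pj' ψ j₁ l * pj' ψ j₃ l| ≤
      (max 1 C ^ 3) ^ (Fintype.card {p // p ∈ pos Φ}) * 2 ^ (2 * m) *
        (2 : ℝ) ^ (-(2 * m * y)) := by
  classical
  set D := max 1 C with hD
  have hD1 : 1 ≤ D := le_max_left _ _
  have hDC : C ≤ D := le_max_right _ _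
  have hD0 : 0 ≤ D := by linarith
  set E : ℝ := 2 ^ (2 * m) * (2 : ℝ) ^ (-(2 * m * y)) with hE
  have hE0 : 0 ≤ E := by positivity
  have hb : ∀ p j u, |ψ p j u| ≤ D := fun p j u => (hF.bd p j u).trans hDC
  have hCD : C ^ 2 ≤ D ^ 2 := pow_le_pow_left₀ hC hDC 2
  set x : {p // p ∈ pos Φ} → ℝ := fun p =>
    |ψ p (j₂ p) (p.1.2 ⬝ᵥ l)| * (|ψ p (j₁ p) (p.1.2 ⬝ᵥ l)| * |ψ p (j₃ p) (p.1.2 ⬝ᵥ l)|) with hx
  have e1 : |pj' ψ j₂ l| * |pj' ψ j₁ l * pj' ψ j₃ l| = ∏ p, x p := by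
    unfold pj'
    rw [abs_mul, Finset.abs_prod, Finset.abs_prod, Finset.abs_prod, ← Finset.prod_mul_distrib,
      ← Finset.prod_mul_distrib]
  have hx0 : ∀ p, 0 ≤ x p := fun p => by positivity
  have hxD : ∀ p, x p ≤ D ^ 3 := by
    intro p
    calc x p ≤ D * (D * D) := mul_le_mul (hb _ _ _) (mul_le_mul (hb _ _ _) (hb _ _ _)
          (abs_nonneg _) hD0) (by positivity) hD0
      _ = D ^ 3 := by ring
  have hp0 : ∃ p, x p ≤ D ^ 3 * E := by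
    rcases hj with ⟨p, hp⟩ | ⟨p, hp⟩
    · refine ⟨p, ?_⟩
      have h1 := two_scale' hF hm hC hM p (j₁ p) (j₂ p) y hy hp (p.1.2 ⬝ᵥ l)
      calc x p = (|ψ p (j₁ p) (p.1.2 ⬝ᵥ l)| * |ψ p (j₂ p) (p.1.2 ⬝ᵥ l)|) *
            |ψ p (j₃ p) (p.1.2 ⬝ᵥ l)| := by simp only [hx]; ring
        _ ≤ (C ^ 2 * 2 ^ (2 * m) * (2 : ℝ) ^ (-(2 * m * y))) * D :=
            mul_le_mul h1 (hb _ _ _) (abs_nonneg _) (by positivity)
        _ = C ^ 2 * (E * D) := by rw [hE]; ring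
        _ ≤ D ^ 2 * (E * D) := mul_le_mul_of_nonneg_right hCD (by positivity)
        _ = _ := by ring
    · refine ⟨p, ?_⟩
      have h1 := two_scale' hF hm hC hM p (j₃ p) (j₂ p) y hy hp (p.1.2 ⬝ᵥ l)
      calc x p = (|ψ p (j₃ p) (p.1.2 ⬝ᵥ l)| * |ψ p (j₂ p) (p.1.2 ⬝ᵥ l)|) *
            |ψ p (j₁ p) (p.1.2 ⬝ᵥ l)| := by simp only [hx]; ring
        _ ≤ (C ^ 2 * 2 ^ (2 * m) * (2 : ℝ) ^ (-(2 * m * y))) * D :=
            mul_le_mul h1 (hb _ _ _) (abs_nonneg _) (by positivity)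
        _ = C ^ 2 * (E * D) := by rw [hE]; ring
        _ ≤ D ^ 2 * (E * D) := mul_le_mul_of_nonneg_right hCD (by positivity)
        _ = _ := by ring
  obtain ⟨p, hp⟩ := hp0
  rw [e1, ← Finset.mul_prod_erase Finset.univ x (Finset.mem_univ p)]
  have h2 : ∏ q ∈ Finset.univ.erase p, x q ≤ ∏ _q ∈ Finset.univ.erase p, D ^ 3 :=
    Finset.prod_le_prod (fun q _ => hx0 q) (fun q _ => hxD q)
  have h3 : D ^ 3 * ∏ _q ∈ Finset.univ.erase p, D ^ 3 =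
      (D ^ 3) ^ (Fintype.card {p // p ∈ pos Φ}) := by
    rw [Finset.mul_prod_erase Finset.univ (fun _ => D ^ 3) (Finset.mem_univ p),
      Finset.prod_const, Finset.card_univ]
  calc x p * ∏ q ∈ Finset.univ.erase p, x q ≤
      (D ^ 3 * E) * ∏ _q ∈ Finset.univ.erase p, D ^ 3 :=
        mul_le_mul hp h2 (Finset.prod_nonneg fun q _ => hx0 q) (by positivity)
    _ = (D ^ 3 * ∏ _q ∈ Finset.univ.erase p, D ^ 3) * E := by ring
    _ = _ := by rw [h3, hE]; ring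

/-- the clamped time -/
def ct (t : ℝ) : ℝ := max 0 (min 1 t)

theorem ct_eq {t : ℝ} (ht : t ∈ Set.Ioc (0 : ℝ) 1) : ct t = t := by
  unfold ct
  rw [min_eq_right ht.2, max_eq_right ht.1.le]

theorem bm_nsq {G : Type} [TopologicalSpace G] [CompactSpace G] [SecondCountableTopology G]
    [MeasurableSpace G] [BorelSpace G] (V : ℝ → G → G → ℂ) (hV : J3 V) :
    BM fun z : ℝ × G × G => ‖V (ct z.1) z.2.1 z.2.2‖ ^ 2 := by
  obtain ⟨C, hC⟩ := bdV V hV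
  have h1 : Continuous fun z : ℝ × G × G => V (ct z.1) z.2.1 z.2.2 :=
    Continuous.comp hV (f := fun z : ℝ × G × G => (ct z.1, z.2.1, z.2.2))
      (by unfold ct; fun_prop)
  refine ⟨(h1.norm.pow 2).stronglyMeasurable, |C| ^ 2, fun z => ?_⟩
  rw [Real.norm_of_nonneg (by positivity)]
  exact pow_le_pow_left₀ (norm_nonneg _) ((hC _ _ _).trans (le_abs_self _)) 2

end OFD

open OFD CLL in
theorem t_OFD : M_OFD := by
  intro _ _ hPLA N H r Φ B Hc E c k d hCX μ _ _ m C₂ hm hC₂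
  have hcs : CompactSpace H := isCompact_iff_compactSpace.1 hCX.closed.isCompact
  have hsec : SecondCountableTopology H :=
    inferInstanceAs (SecondCountableTopology ((H : Set (SU N)) : Type))
  refine ⟨(max 1 C₂ ^ 3) ^ (Fintype.card {p // p ∈ pos Φ}) * 2 ^ (2 * m), by positivity, ?_⟩
  intro R M₀ jm L ψ ν₁ ν₂ hM hF a T V W j₁ j₂ j₃ A₀ y _ hA₀ ha hV hW hy hj
  have hℓ : IsProbabilityMeasure (volume.restrict (Set.Ioc (0 : ℝ) 1)) := by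
    refine ⟨?_⟩
    rw [Measure.restrict_apply_univ, Real.volume_Ioc]
    simp
  set Dn : ℝ := (max 1 C₂ ^ 3) ^ (Fintype.card {p // p ∈ pos Φ}) * 2 ^ (2 * m) with hDn
  set e2 : ℝ := (2 : ℝ) ^ (-(2 * m * y)) with he2
  have hJ : ∀ t s : ℝ, ∀ h : H, ‖∫ g, (∫ θ in Set.Icc (0 : Fin r → ℝ) 1,
      km a T (pj' ψ j₂) (t - s) θ * (po Hc (ν₁ j₁) (ν₂ j₁) V (ct s) h g *
        conj (po Hc (ν₁ j₃) (ν₂ j₃) W (ct t) h (g * tt H Hc θ)))) ∂μ‖ ≤
      (Dn * A₀ * e2) * (√(∫ g, ‖V (ct s) h g‖ ^ 2 ∂μ) * √(∫ g, ‖W (ct t) h g‖ ^ 2 ∂μ)) := by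
    intro t s h
    have cV : Continuous (V (ct s) h) :=
      Continuous.comp hV (f := fun g : H => (ct s, h, g)) (by fun_prop)
    have cW : Continuous (W (ct t) h) :=
      Continuous.comp hW (f := fun g : H => (ct t, h, g)) (by fun_prop)
    have p1 := (hPLA N H r Φ B Hc E c k d hCX μ T
      (fun l => a (t - s) l * ((pj' ψ j₂ l : ℝ) : ℂ)) (V (ct s) h) (W (ct t) h) cV cW).1
      (ν₁ j₁) (ν₂ j₁) (ν₁ j₃) (ν₂ j₃) (pj' ψ j₁) (pj' ψ j₃) (hF.fin₁ j₁) (hF.fin₂ j₁)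
      (hF.fin₁ j₃) (hF.fin₂ j₃) (fun l => hF.tr j₁ l) (fun l => hF.tr j₃ l)
    have p2 := (hPLA N H r Φ B Hc E c k d hCX μ T
      (fun l => a (t - s) l * ((pj' ψ j₂ l : ℝ) : ℂ) * ((pj' ψ j₁ l * pj' ψ j₃ l : ℝ) : ℂ))
      (V (ct s) h) (W (ct t) h) cV cW).2 (Dn * A₀ * e2) (by positivity) (by
        intro l hl
        rw [norm_mul, norm_mul, Complex.norm_real, Complex.norm_real, Real.norm_eq_abs,
          Real.norm_eq_abs, mul_assoc]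
        have h1 := psi_bd hF hm hC₂ hM j₁ j₂ j₃ y hy hj l
        calc ‖a (t - s) l‖ * (|pj' ψ j₂ l| * |pj' ψ j₁ l * pj' ψ j₃ l|) ≤
            A₀ * (Dn * e2) := mul_le_mul (ha _ l hl) h1 (by positivity) hA₀
          _ = _ := by ring)
    have p3 : ∫ g, (∫ θ in Set.Icc (0 : Fin r → ℝ) 1,
      km a T (pj' ψ j₂) (t - s) θ * (po Hc (ν₁ j₁) (ν₂ j₁) V (ct s) h g *
        conj (po Hc (ν₁ j₃) (ν₂ j₃) W (ct t) h (g * tt H Hc θ)))) ∂μ =
        ∫ g, (∫ θ in Set.Icc (0 : Fin r → ℝ) 1, (∑ l ∈ T,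
          a (t - s) l * ((pj' ψ j₂ l : ℝ) : ℂ) * eu (dz l θ)) *
          (PO Hc (ν₁ j₁) (ν₂ j₁) (V (ct s) h) g *
            conj (PO Hc (ν₁ j₃) (ν₂ j₃) (W (ct t) h) (g * tt H Hc θ)))) ∂μ := rfl
    rw [p3, p1]
    exact p2
  have hc := core μ (volume.restrict (Set.Ioc (0 : ℝ) 1)) (fun t s h => ∫ g,
      (∫ θ in Set.Icc (0 : Fin r → ℝ) 1,
      km a T (pj' ψ j₂) (t - s) θ * (po Hc (ν₁ j₁) (ν₂ j₁) V (ct s) h g *
        conj (po Hc (ν₁ j₃) (ν₂ j₃) W (ct t) h (g * tt H Hc θ)))) ∂μ)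
    (fun s h g => ‖V (ct s) h g‖ ^ 2) (fun t h g => ‖W (ct t) h g‖ ^ 2) (bm_nsq V hV)
    (bm_nsq W hW) (fun s h g => by positivity) (fun s h g => by positivity) (Dn * A₀ * e2)
    (by positivity) hJ
  have f1 : (∫ t in Set.Ioc (0 : ℝ) 1, ∫ s in Set.Ioc (0 : ℝ) 1, ∫ h, ∫ g,
      (∫ θ in Set.Icc (0 : Fin r → ℝ) 1,
      km a T (pj' ψ j₂) (t - s) θ * (po Hc (ν₁ j₁) (ν₂ j₁) V (ct s) h g *
        conj (po Hc (ν₁ j₃) (ν₂ j₃) W (ct t) h (g * tt H Hc θ)))) ∂μ ∂μ) =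
      TX Hc μ (km a T (pj' ψ j₂)) (po Hc (ν₁ j₁) (ν₂ j₁) V) (po Hc (ν₁ j₃) (ν₂ j₃) W) := by
    unfold TX
    simp only [intervalIntegral.integral_of_le zero_le_one]
    refine setIntegral_congr_fun measurableSet_Ioc fun t ht => ?_
    refine setIntegral_congr_fun measurableSet_Ioc fun s hs => ?_
    simp only [ct_eq ht, ct_eq hs]
  have f2 : ∀ U : ℝ → H → H → ℂ, (∫ s in Set.Ioc (0 : ℝ) 1, ∫ h, ∫ g, ‖U (ct s) h g‖ ^ 2 ∂μ ∂μ) =
      ∫ t in (0 : ℝ)..1, ∫ h, ∫ g, ‖U t h g‖ ^ 2 ∂μ ∂μ := by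
    intro U
    rw [intervalIntegral.integral_of_le zero_le_one]
    refine setIntegral_congr_fun measurableSet_Ioc fun t ht => ?_
    simp only [ct_eq ht]
  rw [f1, f2, f2] at hc
  exact hc

end

end STZ3
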