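import Pool.Agent.STZ3.StmtsT3

/-!
# SPE: the spectral inequality

Elementary proof: log-convexity of `j ↦ ‖M^j F‖²` and Cauchy-Schwarz.
-/

namespace STZ3

open STZ LGR MeasureTheory Matrix Filter

open scoped ComplexConjugate Matrix Real Topology

noncomputable section

namespace SPE

variable {n : ℕ}

lemma cs (F G : Fin n → ℝ) : (F ⬝ᵥ G) ^ 2 ≤ (F ⬝ᵥ F) * (G ⬝ᵥ G) := by
  have h := Finset.sum_mul_sq_le_sq_mul_sq Finset.univ F G
  simpa [dotProduct, sq] using h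

lemma dot_nonneg (F : Fin n → ℝ) : 0 ≤ F ⬝ᵥ F := by
  unfold dotProduct
  exact Finset.sum_nonneg fun i _ => mul_self_nonneg _

lemma symm_dot {M : Matrix (Fin n) (Fin n) ℝ} (hM : M.IsSymm) (F G : Fin n → ℝ) :
    F ⬝ᵥ (M *ᵥ G) = (M *ᵥ F) ⬝ᵥ G := by
  rw [Matrix.dotProduct_mulVec]
  congr 1
  conv_lhs => rw [← hM.eq]
  rw [Matrix.vecMul_transpose]

/-- the moments -/
def am (M : Matrix (Fin n) (Fin n) ℝ) (F : Fin n → ℝ) (j : ℕ) : ℝ :=
  ((M ^ j) *ᵥ F) ⬝ᵥ ((M ^ j) *ᵥ F)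

lemma am_nonneg (M : Matrix (Fin n) (Fin n) ℝ) (F : Fin n → ℝ) (j : ℕ) : 0 ≤ am M F j :=
  dot_nonneg _

lemma pow_succ_mulVec (M : Matrix (Fin n) (Fin n) ℝ) (F : Fin n → ℝ) (j : ℕ) :
    (M ^ (j + 1)) *ᵥ F = M *ᵥ ((M ^ j) *ᵥ F) := by
  rw [pow_succ', Matrix.mulVec_mulVec]

lemma am_conv {M : Matrix (Fin n) (Fin n) ℝ} (hM : M.IsSymm) (F : Fin n → ℝ) (j : ℕ) :
    am M F (j + 1) ^ 2 ≤ am M F j * am M F (j + 2) := by
  have e : am M F (j + 1) = ((M ^ j) *ᵥ F) ⬝ᵥ ((M ^ (j + 2)) *ᵥ F) := by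
    unfold am
    rw [pow_succ_mulVec M F (j + 1), symm_dot hM, ← pow_succ_mulVec M F j]
  rw [e]
  exact cs _ _

lemma am_step {M : Matrix (Fin n) (Fin n) ℝ} (hM : M.IsSymm) (F : Fin n → ℝ) (j : ℕ) :
    am M F 1 * am M F j ≤ am M F 0 * am M F (j + 1) := by
  induction j with
  | zero => rw [mul_comm]
  | succ j ih =>
    rcases (am_nonneg M F (j + 1)).eq_or_lt with h | h
    · rw [← h, mul_zero]
      exact mul_nonneg (am_nonneg _ _ _) (am_nonneg _ _ _)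
    · have h1 := am_conv hM F j
      have h2 : am M F 1 * am M F (j + 1) * am M F (j + 1) ≤
          am M F 0 * am M F (j + 2) * am M F (j + 1) := by
        calc am M F 1 * am M F (j + 1) * am M F (j + 1)
            = am M F 1 * am M F (j + 1) ^ 2 := by ring
          _ ≤ am M F 1 * (am M F j * am M F (j + 2)) :=
            mul_le_mul_of_nonneg_left h1 (am_nonneg _ _ _)
          _ = (am M F 1 * am M F j) * am M F (j + 2) := by ring
          _ ≤ (am M F 0 * am M F (j + 1)) * am M F (j + 2) :=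
            mul_le_mul_of_nonneg_right ih (am_nonneg _ _ _)
          _ = am M F 0 * am M F (j + 2) * am M F (j + 1) := by ring
      exact le_of_mul_le_mul_right h2 h

lemma am_pow {M : Matrix (Fin n) (Fin n) ℝ} (hM : M.IsSymm) (F : Fin n → ℝ) (j : ℕ) :
    am M F 1 ^ (j + 1) ≤ am M F 0 ^ j * am M F (j + 1) := by
  induction j with
  | zero => simp
  | succ j ih =>
    calc am M F 1 ^ (j + 1 + 1) = am M F 1 ^ (j + 1) * am M F 1 := by ring
      _ ≤ (am M F 0 ^ j * am M F (j + 1)) * am M F 1 :=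
        mul_le_mul_of_nonneg_right ih (am_nonneg _ _ _)
      _ = am M F 0 ^ j * (am M F 1 * am M F (j + 1)) := by ring
      _ ≤ am M F 0 ^ j * (am M F 0 * am M F (j + 1 + 1)) :=
        mul_le_mul_of_nonneg_left (am_step hM F (j + 1)) (pow_nonneg (am_nonneg _ _ _) _)
      _ = am M F 0 ^ (j + 1) * am M F (j + 1 + 1) := by ring

lemma am_top {M : Matrix (Fin n) (Fin n) ℝ} (hM : M.IsSymm) (k : ℕ) {B : ℝ}
    (hB : ∀ i j, |(M ^ (2 * k)) i j| ≤ B) {F : Fin n → ℝ} (hF : ∀ i, 0 ≤ F i) :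
    am M F k ≤ B * (∑ i, F i) ^ 2 := by
  have hk : (M ^ k).IsSymm := by
    unfold Matrix.IsSymm
    rw [Matrix.transpose_pow, hM.eq]
  have e : am M F k = F ⬝ᵥ ((M ^ (2 * k)) *ᵥ F) := by
    unfold am
    rw [← symm_dot hk, Matrix.mulVec_mulVec, ← pow_add, two_mul]
  rw [e]
  unfold dotProduct Matrix.mulVec dotProduct
  calc ∑ i, F i * ∑ j, (M ^ (2 * k)) i j * F j
      ≤ ∑ i, F i * ∑ j, B * F j := by
        refine Finset.sum_le_sum fun i _ => mul_le_mul_of_nonneg_left ?_ (hF i)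
        refine Finset.sum_le_sum fun j _ => mul_le_mul_of_nonneg_right ?_ (hF j)
        exact (le_abs_self _).trans (hB i j)
    _ = B * (∑ i, F i) ^ 2 := by
        rw [← Finset.mul_sum, ← Finset.sum_mul]; ring

/-- the seminorm squared -/
def N2 (M : Matrix (Fin n) (Fin n) ℝ) (F : Fin n → ℝ) : ℝ :=
  Real.sqrt (am M F 1) * Real.sqrt (am M F 0)

lemma N2_nonneg (M : Matrix (Fin n) (Fin n) ℝ) (F : Fin n → ℝ) : 0 ≤ N2 M F := by
  unfold N2; positivity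

lemma N2_sq (M : Matrix (Fin n) (Fin n) ℝ) (F : Fin n → ℝ) :
    N2 M F ^ 2 = am M F 1 * am M F 0 := by
  unfold N2
  rw [mul_pow, Real.sq_sqrt (am_nonneg _ _ _), Real.sq_sqrt (am_nonneg _ _ _)]

lemma form_le {M : Matrix (Fin n) (Fin n) ℝ} (hM : M.IsSymm) (F G : Fin n → ℝ) :
    |F ⬝ᵥ (M *ᵥ G)| ≤ Real.sqrt (N2 M F) * Real.sqrt (N2 M G) := by
  have h1 : (F ⬝ᵥ (M *ᵥ G)) ^ 2 ≤ am M F 0 * am M G 1 := by
    have := cs F (M *ᵥ G)
    simpa [am] using this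
  have h2 : (F ⬝ᵥ (M *ᵥ G)) ^ 2 ≤ am M F 1 * am M G 0 := by
    rw [symm_dot hM]
    have := cs (M *ᵥ F) G
    simpa [am] using this
  have h3 : ((F ⬝ᵥ (M *ᵥ G)) ^ 2) ^ 2 ≤ (N2 M F * N2 M G) ^ 2 := by
    calc ((F ⬝ᵥ (M *ᵥ G)) ^ 2) ^ 2
        = (F ⬝ᵥ (M *ᵥ G)) ^ 2 * (F ⬝ᵥ (M *ᵥ G)) ^ 2 := by ring
      _ ≤ (am M F 0 * am M G 1) * (am M F 1 * am M G 0) :=
        mul_le_mul h1 h2 (sq_nonneg _) (mul_nonneg (am_nonneg _ _ _) (am_nonneg _ _ _))
      _ = (N2 M F * N2 M G) ^ 2 := by rw [mul_pow, N2_sq, N2_sq]; ring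
  have h4 : (F ⬝ᵥ (M *ᵥ G)) ^ 2 ≤ N2 M F * N2 M G :=
    le_of_sq_le_sq h3 (mul_nonneg (N2_nonneg _ _) (N2_nonneg _ _))
  rw [← Real.sqrt_mul (N2_nonneg _ _)]
  exact Real.abs_le_sqrt h4

lemma N2_le {M : Matrix (Fin n) (Fin n) ℝ} (hM : M.IsSymm) {k : ℕ} (hk : 1 ≤ k) {B : ℝ}
    (hB0 : 0 ≤ B) (hB : ∀ i j, |(M ^ (2 * k)) i j| ≤ B) {F : Fin n → ℝ} (hF : ∀ i, 0 ≤ F i)
    {u p : ℝ} (hu : 0 ≤ u) (hp : 0 ≤ p) (h1 : ∑ i, F i ≤ u * p)
    (h2 : ∑ i, F i ^ 2 ≤ u ^ 2 * p) :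
    N2 M F ≤ u ^ 2 * p ^ (1 + 1 / (2 * (k : ℝ))) * B ^ (1 / (2 * (k : ℝ))) := by
  have hk0 : (0 : ℝ) < 2 * (k : ℝ) := by
    have : (1 : ℝ) ≤ k := by exact_mod_cast hk
    linarith
  have e0 : am M F 0 = ∑ i, F i ^ 2 := by
    simp [am, dotProduct, sq]
  have ha0 : am M F 0 ≤ u ^ 2 * p := by rw [e0]; exact h2
  have hak : am M F k ≤ B * (u * p) ^ 2 := by
    refine (am_top hM k hB hF).trans ?_
    exact mul_le_mul_of_nonneg_left (pow_le_pow_left₀ (Finset.sum_nonneg fun i _ => hF i) h1 2) hB0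
  obtain ⟨j, rfl⟩ : ∃ j, k = j + 1 := ⟨k - 1, by omega⟩
  have hpow : N2 M F ^ (2 * (j + 1)) ≤ u ^ (4 * (j + 1)) * p ^ (2 * (j + 1) + 1) * B := by
    calc N2 M F ^ (2 * (j + 1)) = am M F 1 ^ (j + 1) * am M F 0 ^ (j + 1) := by
          rw [pow_mul, N2_sq, mul_pow]
      _ ≤ (am M F 0 ^ j * am M F (j + 1)) * am M F 0 ^ (j + 1) :=
          mul_le_mul_of_nonneg_right (am_pow hM F j) (pow_nonneg (am_nonneg _ _ _) _)
      _ = am M F 0 ^ (2 * j + 1) * am M F (j + 1) := by ring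
      _ ≤ (u ^ 2 * p) ^ (2 * j + 1) * (B * (u * p) ^ 2) := by
          refine mul_le_mul (pow_le_pow_left₀ (am_nonneg _ _ _) ha0 _) hak (am_nonneg _ _ _)
            (by positivity)
      _ = u ^ (4 * (j + 1)) * p ^ (2 * (j + 1) + 1) * B := by ring
  have hx : N2 M F = (N2 M F ^ (2 * (j + 1))) ^ (1 / (2 * ((j + 1 : ℕ) : ℝ))) := by
    have := Real.pow_rpow_inv_natCast (N2_nonneg M F) (n := 2 * (j + 1)) (by omega)
    rw [one_div]
    push_cast at this ⊢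
    exact this.symm
  rw [hx]
  refine (Real.rpow_le_rpow (pow_nonneg (N2_nonneg _ _) _) hpow (by positivity)).trans ?_
  apply le_of_eq
  rw [Real.mul_rpow (by positivity) hB0, Real.mul_rpow (by positivity) (by positivity)]
  congr 1
  congr 1
  · rw [← Real.rpow_natCast, ← Real.rpow_mul hu, ← Real.rpow_natCast u 2]
    congr 1
    push_cast
    field_simp
    norm_num
  · rw [← Real.rpow_natCast, ← Real.rpow_mul hp]
    congr 1
    push_cast
    field_simp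

/-- the level -/
def lev (T : ℝ) (F : Fin n → ℝ) (x : Fin n) : ℕ := ⌊Real.logb 2 (T / F x)⌋₊

lemma lev_spec {T : ℝ} {F : Fin n → ℝ} {x : Fin n} (hx : 0 < F x) (hT : F x ≤ T) :
    F x ≤ T * (1 / 2) ^ lev T F x ∧ T * (1 / 2) ^ (lev T F x + 1) ≤ F x := by
  have hT0 : 0 < T := hx.trans_le hT
  have h1 : 1 ≤ T / F x := by rwa [one_le_div hx]
  have h0 : 0 < T / F x := by positivity
  have hl : 0 ≤ Real.logb 2 (T / F x) := Real.logb_nonneg (by norm_num) h1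
  have ha : (2 : ℝ) ^ (lev T F x : ℝ) ≤ T / F x := by
    rw [← Real.le_logb_iff_rpow_le (by norm_num) h0]
    exact Nat.floor_le hl
  have hb : T / F x ≤ (2 : ℝ) ^ ((lev T F x : ℝ) + 1) := by
    rw [← Real.logb_le_iff_le_rpow (by norm_num) h0]
    exact (Nat.lt_floor_add_one _).le
  rw [Real.rpow_natCast] at ha
  rw [show ((lev T F x : ℝ) + 1) = ((lev T F x + 1 : ℕ) : ℝ) by push_cast; ring,
    Real.rpow_natCast] at hb
  constructor
  · rw [one_div, inv_pow, ← div_eq_mul_inv, le_div_iff₀ (by positivity)]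
    rw [le_div_iff₀ hx] at ha
    linarith
  · rw [one_div, inv_pow, ← div_eq_mul_inv, div_le_iff₀ (by positivity)]
    rw [div_le_iff₀ hx] at hb
    linarith

end SPE

open SPE in
theorem t_SPE : S_SPE := by
  classical
  intro k s hk hs hsk
  have hkR : (1 : ℝ) ≤ k := by exact_mod_cast hk
  set θ : ℝ := s * (1 + 1 / (2 * (k : ℝ))) / 2 with hθ
  have hθ1 : θ < 1 := by
    have e : θ = s * (2 * k + 1) / (4 * k) := by
      rw [hθ]; field_simp; ring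
    rw [e, div_lt_one (by positivity)]
    exact hsk
  set γ : ℝ := (2 : ℝ) ^ (θ - 1) with hγ
  have hγ0 : 0 < γ := by positivity
  have hγ1 : γ < 1 := by
    rw [hγ]
    exact Real.rpow_lt_one_of_one_lt_of_neg (by norm_num) (by linarith)
  refine ⟨((2 : ℝ) ^ θ * (1 - γ)⁻¹) ^ 2, sq_nonneg _, ?_⟩
  intro n M B hM hB0 hB F hF
  have hs0 : 0 < s := by linarith
  have hform : ∑ i, ∑ j, M i j * (F i * F j) = F ⬝ᵥ (M *ᵥ F) := by
    unfold dotProduct Matrix.mulVec dotProduct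
    refine Finset.sum_congr rfl fun i _ => ?_
    rw [Finset.mul_sum]
    exact Finset.sum_congr rfl fun j _ => by ring
  rw [hform]
  have hS0 : 0 ≤ ∑ i, F i ^ s := Finset.sum_nonneg fun i _ => Real.rpow_nonneg (hF i) _
  rcases hS0.eq_or_lt with hS | hS
  · have hz : F = 0 := by
      funext x
      have h1 := (Finset.sum_eq_zero_iff_of_nonneg
        (fun i _ => Real.rpow_nonneg (hF i) s)).1 hS.symm x (Finset.mem_univ _)
      exact (Real.rpow_eq_zero (hF x) hs0.ne').1 h1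
    rw [hz]
    simp only [zero_dotProduct, abs_zero]
    have h1 : (0 : ℝ) ≤ (∑ i : Fin n, (0 : Fin n → ℝ) i ^ s) ^ (2 / s) :=
      Real.rpow_nonneg (Finset.sum_nonneg fun i _ => Real.rpow_nonneg le_rfl _) _
    have h2 : 0 ≤ B ^ (1 / (2 * (k : ℝ))) := Real.rpow_nonneg hB0 _
    exact mul_nonneg (mul_nonneg (sq_nonneg _) h2) h1
  set T : ℝ := (∑ i, F i ^ s) ^ (1 / s) with hT
  have hT0 : 0 < T := by positivity
  have hTs : T ^ s = ∑ i, F i ^ s := by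
    rw [hT, ← Real.rpow_mul hS.le, one_div, inv_mul_cancel₀ hs0.ne', Real.rpow_one]
  have hFT : ∀ x, F x ≤ T := by
    intro x
    have h1 : F x ^ s ≤ T ^ s := by
      rw [hTs]
      exact Finset.single_le_sum (f := fun i => F i ^ s)
        (fun i _ => Real.rpow_nonneg (hF i) s) (Finset.mem_univ x)
    exact (Real.rpow_le_rpow_iff (hF x) hT0.le hs0).1 h1
  set G : ℕ → Fin n → ℝ := fun i x => if lev T F x = i then F x else 0 with hG
  set N : ℕ := Finset.univ.sup (lev T F) + 1 with hN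
  have hsum : F = ∑ i ∈ Finset.range N, G i := by
    funext x
    rw [Finset.sum_apply]
    simp only [hG]
    rw [Finset.sum_ite_eq, if_pos]
    rw [Finset.mem_range, hN]
    exact Nat.lt_succ_of_le (Finset.le_sup (f := lev T F) (Finset.mem_univ x))
  set S : ℕ → Finset (Fin n) := fun i => Finset.univ.filter fun x => lev T F x = i ∧ 0 < F x with hSdef
  have hmem : ∀ i x, x ∈ S i ↔ lev T F x = i ∧ 0 < F x := by
    intro i x; simp [hSdef]
  have hcard : ∀ i, ((S i).card : ℝ) ≤ (2 : ℝ) ^ (((i : ℝ) + 1) * s) := by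
    intro i
    have h1 : ((S i).card : ℝ) * (T * (1 / 2) ^ (i + 1)) ^ s ≤ T ^ s := by
      rw [hTs]
      calc ((S i).card : ℝ) * (T * (1 / 2) ^ (i + 1)) ^ s
          = ∑ x ∈ S i, (T * (1 / 2) ^ (i + 1)) ^ s := by rw [Finset.sum_const, nsmul_eq_mul]
        _ ≤ ∑ x ∈ S i, F x ^ s := by
          refine Finset.sum_le_sum fun x hx => ?_
          obtain ⟨hl, hpos⟩ := (hmem i x).1 hx
          have := (lev_spec hpos (hFT x)).2
          rw [hl] at this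
          exact Real.rpow_le_rpow (by positivity) this hs0.le
        _ ≤ ∑ x, F x ^ s := Finset.sum_le_sum_of_subset_of_nonneg (Finset.subset_univ _)
          (fun x _ _ => Real.rpow_nonneg (hF x) s)
    rw [Real.mul_rpow hT0.le (by positivity)] at h1
    have hTs0 : 0 < T ^ s := by positivity
    have h2 : ((S i).card : ℝ) * ((1 / 2 : ℝ) ^ (i + 1)) ^ s ≤ 1 := by
      have h3 : T ^ s * (((S i).card : ℝ) * ((1 / 2 : ℝ) ^ (i + 1)) ^ s) ≤ T ^ s * 1 := by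
        rw [mul_one]; linarith
      exact le_of_mul_le_mul_left h3 hTs0
    have h4 : ((1 / 2 : ℝ) ^ (i + 1)) ^ s = ((2 : ℝ) ^ (((i : ℝ) + 1) * s))⁻¹ := by
      rw [one_div, inv_pow, Real.inv_rpow (by positivity), Real.rpow_mul (by norm_num)]
      congr 2
      rw [← Real.rpow_natCast]
      push_cast
      rfl
    rw [h4, ← div_eq_mul_inv, div_le_one (by positivity)] at h2
    exact h2
  have hG0 : ∀ i x, 0 ≤ G i x := by
    intro i x
    simp only [hG]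
    split_ifs
    · exact hF x
    · exact le_rfl
  have hGS : ∀ i (r : ℕ), r ≠ 0 → ∑ x, G i x ^ r = ∑ x ∈ S i, F x ^ r := by
    intro i r hr
    rw [hSdef, Finset.sum_filter]
    refine Finset.sum_congr rfl fun x _ => ?_
    simp only [hG]
    by_cases h1 : lev T F x = i
    · by_cases h2 : 0 < F x
      · rw [if_pos h1, if_pos ⟨h1, h2⟩]
      · have h3 : F x = 0 := le_antisymm (not_lt.1 h2) (hF x)
        rw [if_pos h1, if_neg (by tauto), h3, zero_pow hr]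
    · rw [if_neg h1, if_neg (by tauto), zero_pow hr]
  have hGr : ∀ i (r : ℕ), r ≠ 0 → ∑ x, G i x ^ r ≤
      (T * (1 / 2) ^ i) ^ r * (2 : ℝ) ^ (((i : ℝ) + 1) * s) := by
    intro i r hr
    rw [hGS i r hr]
    calc ∑ x ∈ S i, F x ^ r ≤ ∑ x ∈ S i, (T * (1 / 2) ^ i) ^ r := by
          refine Finset.sum_le_sum fun x hx => ?_
          obtain ⟨hl, hpos⟩ := (hmem i x).1 hx
          have := (lev_spec hpos (hFT x)).1
          rw [hl] at this
          exact pow_le_pow_left₀ (hF x) this r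
      _ = ((S i).card : ℝ) * (T * (1 / 2) ^ i) ^ r := by rw [Finset.sum_const, nsmul_eq_mul]
      _ ≤ (2 : ℝ) ^ (((i : ℝ) + 1) * s) * (T * (1 / 2) ^ i) ^ r :=
          mul_le_mul_of_nonneg_right (hcard i) (by positivity)
      _ = (T * (1 / 2) ^ i) ^ r * (2 : ℝ) ^ (((i : ℝ) + 1) * s) := by ring
  set B' : ℝ := B ^ (1 / (2 * (k : ℝ))) with hB'
  have hB'0 : 0 ≤ B' := Real.rpow_nonneg hB0 _
  have hsq : ∀ i, Real.sqrt (N2 M (G i)) ≤ (T * Real.sqrt B' * (2 : ℝ) ^ θ) * γ ^ i := by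
    intro i
    have h1 := N2_le hM hk hB0 hB (hG0 i) (u := T * (1 / 2) ^ i)
      (p := (2 : ℝ) ^ (((i : ℝ) + 1) * s)) (by positivity) (by positivity)
      (by simpa using hGr i 1 one_ne_zero) (hGr i 2 two_ne_zero)
    apply Real.sqrt_le_iff.2
    refine ⟨by positivity, h1.trans (le_of_eq ?_)⟩
    have e1 : ((T * Real.sqrt B' * (2 : ℝ) ^ θ) * γ ^ i) ^ 2 =
        T ^ 2 * B' * (((2 : ℝ) ^ θ) ^ 2 * (γ ^ i) ^ 2) := by
      rw [mul_pow, mul_pow, mul_pow, Real.sq_sqrt hB'0]; ring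
    rw [e1, mul_pow, ← hB']
    have e2 : ((2 : ℝ) ^ (((i : ℝ) + 1) * s)) ^ (1 + 1 / (2 * (k : ℝ))) =
        (2 : ℝ) ^ (2 * ((i : ℝ) + 1) * θ) := by
      rw [← Real.rpow_mul (by norm_num)]
      congr 1
      rw [hθ]; ring
    have e3 : (((1 / 2 : ℝ)) ^ i) ^ 2 = (2 : ℝ) ^ (-(2 * (i : ℝ))) := by
      rw [Real.rpow_neg (by norm_num), one_div, inv_pow, inv_pow, ← pow_mul, ← Real.rpow_natCast]
      congr 2
      push_cast; ring
    have e4 : ((2 : ℝ) ^ θ) ^ 2 = (2 : ℝ) ^ (2 * θ) := by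
      rw [← Real.rpow_natCast, ← Real.rpow_mul (by norm_num)]
      congr 1
      push_cast; ring
    have e5 : (γ ^ i) ^ 2 = (2 : ℝ) ^ (2 * (i : ℝ) * (θ - 1)) := by
      rw [hγ, ← pow_mul, ← Real.rpow_natCast, ← Real.rpow_mul (by norm_num)]
      congr 1
      push_cast; ring
    rw [e2, e3, e4, e5, ← Real.rpow_add (by norm_num)]
    have e6 : T ^ 2 * (2 : ℝ) ^ (-(2 * (i : ℝ))) * (2 : ℝ) ^ (2 * ((i : ℝ) + 1) * θ) * B' =
        T ^ 2 * B' * ((2 : ℝ) ^ (-(2 * (i : ℝ))) * (2 : ℝ) ^ (2 * ((i : ℝ) + 1) * θ)) := by ring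
    rw [e6, ← Real.rpow_add (by norm_num)]
    congr 2
    ring
  have hmain : |F ⬝ᵥ (M *ᵥ F)| ≤ (∑ i ∈ Finset.range N, Real.sqrt (N2 M (G i))) ^ 2 := by
    have e1 : F ⬝ᵥ (M *ᵥ F) = ∑ i ∈ Finset.range N, ∑ j ∈ Finset.range N,
        (G i) ⬝ᵥ (M *ᵥ (G j)) := by
      conv_lhs => rw [hsum]
      rw [sum_dotProduct]
      refine Finset.sum_congr rfl fun i _ => ?_
      have e2 : M *ᵥ (∑ j ∈ Finset.range N, G j) = ∑ j ∈ Finset.range N, M *ᵥ (G j) :=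
        map_sum (Matrix.mulVecLin M) _ _
      rw [e2, dotProduct_sum]
    rw [e1, sq, Finset.sum_mul_sum]
    refine (Finset.abs_sum_le_sum_abs _ _).trans (Finset.sum_le_sum fun i _ => ?_)
    refine (Finset.abs_sum_le_sum_abs _ _).trans (Finset.sum_le_sum fun j _ => ?_)
    exact form_le hM _ _
  have hgeo : ∑ i ∈ Finset.range N, γ ^ i ≤ (1 - γ)⁻¹ := by
    rw [← tsum_geometric_of_lt_one hγ0.le hγ1]
    exact (summable_geometric_of_lt_one hγ0.le hγ1).sum_le_tsum _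
      (fun i _ => pow_nonneg hγ0.le i)
  have hle : ∑ i ∈ Finset.range N, Real.sqrt (N2 M (G i)) ≤
      (T * Real.sqrt B' * (2 : ℝ) ^ θ) * (1 - γ)⁻¹ := by
    calc ∑ i ∈ Finset.range N, Real.sqrt (N2 M (G i))
        ≤ ∑ i ∈ Finset.range N, (T * Real.sqrt B' * (2 : ℝ) ^ θ) * γ ^ i :=
          Finset.sum_le_sum fun i _ => hsq i
      _ = (T * Real.sqrt B' * (2 : ℝ) ^ θ) * ∑ i ∈ Finset.range N, γ ^ i := by
          rw [Finset.mul_sum]
      _ ≤ _ := mul_le_mul_of_nonneg_left hgeo (by positivity)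
  have hT2 : T ^ 2 = (∑ i, F i ^ s) ^ (2 / s) := by
    rw [hT, ← Real.rpow_natCast, ← Real.rpow_mul hS.le]
    congr 1
    push_cast
    field_simp
  calc |F ⬝ᵥ (M *ᵥ F)| ≤ (∑ i ∈ Finset.range N, Real.sqrt (N2 M (G i))) ^ 2 := hmain
    _ ≤ ((T * Real.sqrt B' * (2 : ℝ) ^ θ) * (1 - γ)⁻¹) ^ 2 :=
        pow_le_pow_left₀ (Finset.sum_nonneg fun i _ => Real.sqrt_nonneg _) hle 2
    _ = ((2 : ℝ) ^ θ * (1 - γ)⁻¹) ^ 2 * B' * (∑ i, F i ^ s) ^ (2 / s) := by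
        rw [← hT2]
        have e7 : (Real.sqrt B') ^ 2 = B' := Real.sq_sqrt hB'0
        calc ((T * Real.sqrt B' * (2 : ℝ) ^ θ) * (1 - γ)⁻¹) ^ 2
            = ((2 : ℝ) ^ θ * (1 - γ)⁻¹) ^ 2 * (Real.sqrt B') ^ 2 * T ^ 2 := by ring
          _ = _ := by rw [e7]

end

end STZ3
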