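import Pool.Agent.STZ3.StS
import Pool.Agent.Lib_helper43.Tori.Rep
import Pool.Agent.Lib_helper91.Div

/-!
# Compact simple groups of rank two: module RQN (helper76)
-/

namespace STZ3

open STZ LGR MeasureTheory Matrix Filter

open scoped ComplexConjugate Matrix Real Topology

noncomputable section

namespace RQN

/-- The bound for an abstract form `a x² + b x y + c y²` with `x² + y² ≤ Q`. -/
theorem form_bound (a b c : ℤ) (hQ : ∀ x y : ℤ, x ^ 2 + y ^ 2 ≤ a * x ^ 2 + b * x * y + c * y ^ 2)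
    (ε : ℝ) (hε : 0 < ε) :
    ∃ C : ℝ, 0 ≤ C ∧ ∀ (X : ℕ) (k : ℤ) (S : Finset (ℤ × ℤ)), 1 ≤ X →
      (∀ l ∈ S, a * l.1 ^ 2 + b * l.1 * l.2 + c * l.2 ^ 2 = k ∧ |l.1| ≤ X ∧ |l.2| ≤ X) →
      (S.card : ℝ) ≤ C * (X : ℝ) ^ ε := by
  classical
  have ha : 1 ≤ a := by have := hQ 1 0; simpa using this
  have hc : 1 ≤ c := by have := hQ 0 1; simpa using this
  have hΔ : 1 ≤ 4 * a * c - b ^ 2 := by
    have h1 := hQ (-b) (2 * a)
    have h2 : 0 < a * (4 * a * c - b ^ 2) := by nlinarith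
    have h3 : 0 < 4 * a * c - b ^ 2 := pos_of_mul_pos_right h2 (by omega)
    omega
  obtain ⟨L, hL⟩ := exists_nat_gt (4 / ε)
  have hL0 : 0 < L := by
    have : (0 : ℝ) < L := lt_trans (by positivity) hL
    exact_mod_cast this
  have hLr : (0 : ℝ) < L := by exact_mod_cast hL0
  obtain ⟨C₀, hC₀, hdiv⟩ := Pool.Agent.Lib_helper91.exists_divisor_bound L hL0
  set K : ℤ := 4 * a * (a + |b| + c) with hK
  have hK1 : 1 ≤ K := by
    have := abs_nonneg b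
    have h1 : 1 ≤ a + |b| + c := by omega
    nlinarith
  have hKr : (1 : ℝ) ≤ (K : ℝ) := by exact_mod_cast hK1
  refine ⟨10 * C₀ ^ 2 * (K : ℝ) ^ ((2 : ℝ) / L), by positivity, ?_⟩
  intro X k S hX hS
  have hX1 : (1 : ℝ) ≤ (X : ℝ) := by exact_mod_cast hX
  have hXε : (1 : ℝ) ≤ (X : ℝ) ^ ε := Real.one_le_rpow hX1 hε.le
  have hKp : (1 : ℝ) ≤ (K : ℝ) ^ ((2 : ℝ) / L) := Real.one_le_rpow hKr (by positivity)
  have hC1 : (1 : ℝ) ≤ 10 * C₀ ^ 2 * (K : ℝ) ^ ((2 : ℝ) / L) := by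
    have : (1 : ℝ) ≤ 10 * C₀ ^ 2 := by nlinarith
    nlinarith
  have hone : (1 : ℝ) ≤ 10 * C₀ ^ 2 * (K : ℝ) ^ ((2 : ℝ) / L) * (X : ℝ) ^ ε := by
    nlinarith
  by_cases hk : k ≤ 0
  · have h1 : S.card ≤ 1 := by
      rw [Finset.card_le_one]
      have hz : ∀ l ∈ S, l = (0, 0) := by
        intro l hl
        have h2 := (hS l hl).1
        have h3 := hQ l.1 l.2
        have h4 : l.1 ^ 2 + l.2 ^ 2 ≤ 0 := by omega
        have h5 : l.1 = 0 := by nlinarith [sq_nonneg l.1, sq_nonneg l.2]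
        have h6 : l.2 = 0 := by nlinarith [sq_nonneg l.1, sq_nonneg l.2]
        exact Prod.ext h5 h6
      intro x hx y hy
      rw [hz x hx, hz y hy]
    have h2 : (S.card : ℝ) ≤ 1 := by exact_mod_cast h1
    linarith
  have hk0 : 0 < k := not_le.1 hk
  rcases S.eq_empty_or_nonempty with rfl | ⟨l₀, hl₀⟩
  · simp only [Finset.card_empty, Nat.cast_zero]
    linarith
  have hkX : k ≤ (a + |b| + c) * (X : ℤ) ^ 2 := by
    obtain ⟨h1, h2, h3⟩ := hS l₀ hl₀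
    have h4 : l₀.1 ^ 2 ≤ (X : ℤ) ^ 2 := sq_le_sq' (abs_le.1 h2).1 (abs_le.1 h2).2
    have h5 : l₀.2 ^ 2 ≤ (X : ℤ) ^ 2 := sq_le_sq' (abs_le.1 h3).1 (abs_le.1 h3).2
    have h6 : b * l₀.1 * l₀.2 ≤ |b| * (X : ℤ) ^ 2 := by
      calc b * l₀.1 * l₀.2 ≤ |b * l₀.1 * l₀.2| := le_abs_self _
        _ = |b| * (|l₀.1| * |l₀.2|) := by rw [abs_mul, abs_mul]; ring
        _ ≤ |b| * ((X : ℤ) * X) := by
            apply mul_le_mul_of_nonneg_left _ (abs_nonneg b)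
            exact mul_le_mul h2 h3 (abs_nonneg _) (by positivity)
        _ = |b| * (X : ℤ) ^ 2 := by ring
    have h7 : a * l₀.1 ^ 2 ≤ a * (X : ℤ) ^ 2 := mul_le_mul_of_nonneg_left h4 (by omega)
    have h8 : c * l₀.2 ^ 2 ≤ c * (X : ℤ) ^ 2 := mul_le_mul_of_nonneg_left h5 (by omega)
    rw [← h1]
    nlinarith
  have hM0 : 0 < 4 * a * k := by positivity
  have hcard := Pool.Agent.Lib_helper43.Tori.card_rep (D := 4 * a * c - b ^ 2) (M := 4 * a * k)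
    hΔ hM0 (S.image fun l => (2 * a * l.1 + b * l.2, l.2)) (by
      intro t ht
      obtain ⟨l, hl, rfl⟩ := Finset.mem_image.1 ht
      have h1 := (hS l hl).1
      simp only
      rw [← h1]
      ring)
  rw [Finset.card_image_of_injective] at hcard
  swap
  · intro s t hst
    simp only [Prod.mk.injEq] at hst
    obtain ⟨h1, h2⟩ := hst
    rw [h2] at h1
    have h3 : 2 * a * s.1 = 2 * a * t.1 := by linarith
    exact Prod.ext (mul_left_cancel₀ (by omega) h3) h2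
  set M := (4 * a * k).natAbs with hMdef
  have hMne : M ≠ 0 := by
    rw [hMdef]
    exact Int.natAbs_ne_zero.2 hM0.ne'
  have hMle : (M : ℝ) ≤ K * (X : ℝ) ^ 2 := by
    have h1 : (M : ℤ) ≤ K * (X : ℤ) ^ 2 := by
      rw [hMdef, Int.natAbs_of_nonneg hM0.le, hK]
      have h2 : 4 * a * k ≤ 4 * a * ((a + |b| + c) * (X : ℤ) ^ 2) :=
        mul_le_mul_of_nonneg_left hkX (by omega)
      linarith
    exact_mod_cast h1
  have h1 := hdiv M hMne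
  have h2 : (M : ℝ) ^ ((1 : ℝ) / L) ≤ (K : ℝ) ^ ((1 : ℝ) / L) * (X : ℝ) ^ ((2 : ℝ) / L) := by
    calc (M : ℝ) ^ ((1 : ℝ) / L) ≤ (K * (X : ℝ) ^ 2) ^ ((1 : ℝ) / L) :=
          Real.rpow_le_rpow (by positivity) hMle (by positivity)
      _ = (K : ℝ) ^ ((1 : ℝ) / L) * ((X : ℝ) ^ 2) ^ ((1 : ℝ) / L) :=
          Real.mul_rpow (by linarith) (by positivity)
      _ = _ := by
          congr 1
          rw [← Real.rpow_natCast, ← Real.rpow_mul (by positivity)]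
          congr 1
          push_cast
          ring
  have h3 : (M.divisors.card : ℝ) ≤ C₀ * ((K : ℝ) ^ ((1 : ℝ) / L) * (X : ℝ) ^ ((2 : ℝ) / L)) :=
    h1.trans (mul_le_mul_of_nonneg_left h2 (by linarith))
  have hcard' : (S.card : ℝ) ≤ 10 * (M.divisors.card : ℝ) * (M.divisors.card : ℝ) := by
    exact_mod_cast hcard
  have e1 : (K : ℝ) ^ ((1 : ℝ) / L) * (K : ℝ) ^ ((1 : ℝ) / L) = (K : ℝ) ^ ((2 : ℝ) / L) := by
    rw [← Real.rpow_add (by linarith)]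
    congr 1
    ring
  have e2 : (X : ℝ) ^ ((2 : ℝ) / L) * (X : ℝ) ^ ((2 : ℝ) / L) = (X : ℝ) ^ ((4 : ℝ) / L) := by
    rw [← Real.rpow_add (by linarith)]
    congr 1
    ring
  have e3 : (X : ℝ) ^ ((4 : ℝ) / L) ≤ (X : ℝ) ^ ε := by
    apply Real.rpow_le_rpow_of_exponent_le hX1
    rw [div_le_iff₀ hLr]
    rw [div_lt_iff₀ hε] at hL
    linarith
  have hKx : (0 : ℝ) ≤ (K : ℝ) ^ ((1 : ℝ) / L) * (X : ℝ) ^ ((2 : ℝ) / L) := by positivity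
  calc (S.card : ℝ) ≤ 10 * (M.divisors.card : ℝ) * (M.divisors.card : ℝ) := hcard'
    _ ≤ 10 * (C₀ * ((K : ℝ) ^ ((1 : ℝ) / L) * (X : ℝ) ^ ((2 : ℝ) / L))) *
        (C₀ * ((K : ℝ) ^ ((1 : ℝ) / L) * (X : ℝ) ^ ((2 : ℝ) / L))) := by gcongr
    _ = 10 * C₀ ^ 2 * ((K : ℝ) ^ ((1 : ℝ) / L) * (K : ℝ) ^ ((1 : ℝ) / L)) *
        ((X : ℝ) ^ ((2 : ℝ) / L) * (X : ℝ) ^ ((2 : ℝ) / L)) := by ring
    _ = 10 * C₀ ^ 2 * (K : ℝ) ^ ((2 : ℝ) / L) * (X : ℝ) ^ ((4 : ℝ) / L) := by rw [e1, e2]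
    _ ≤ 10 * C₀ ^ 2 * (K : ℝ) ^ ((2 : ℝ) / L) * (X : ℝ) ^ ε := by gcongr

/-- The form of the root data. -/
theorem Q_two (Φ : RT 2) (l : Fin 2 → ℤ) :
    (rd Φ).Q l = (∑ p ∈ pos Φ, (p.2 0) ^ 2) * (l 0) ^ 2 +
      (∑ p ∈ pos Φ, 2 * p.2 0 * p.2 1) * l 0 * l 1 + (∑ p ∈ pos Φ, (p.2 1) ^ 2) * (l 1) ^ 2 := by
  show ∑ p ∈ pos Φ, (p.2 ⬝ᵥ l) ^ 2 = _
  rw [Finset.sum_mul, Finset.sum_mul, Finset.sum_mul, Finset.sum_mul, ← Finset.sum_add_distrib,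
    ← Finset.sum_add_distrib]
  refine Finset.sum_congr rfl fun p _ => ?_
  rw [dotProduct, Fin.sum_univ_two]
  ring

theorem Q_lower (Φ : RT 2) (B : Matrix (Fin 2) (Fin 2) ℤ) (h : IRD Φ B) (l : Fin 2 → ℤ) :
    (l 0) ^ 2 + (l 1) ^ 2 ≤ (rd Φ).Q l := by
  classical
  show _ ≤ ∑ p ∈ pos Φ, (p.2 ⬝ᵥ l) ^ 2
  have hm : ∀ i : Fin 2, ((B i, Pi.single i 1) : (Fin 2 → ℤ) × (Fin 2 → ℤ)) ∈ pos Φ := by
    intro i
    refine Finset.mem_filter.2 ⟨h.base i, fun j => ?_⟩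
    by_cases hij : j = i
    · subst hij
      simp
    · simp [Pi.single_eq_of_ne hij]
  have hne : ((B 0, Pi.single 0 1) : (Fin 2 → ℤ) × (Fin 2 → ℤ)) ≠ (B 1, Pi.single 1 1) := by
    intro he
    have h2 := congrArg Prod.snd he
    have h3 := congrFun h2 0
    simp at h3
  have hsub : ({(B 0, Pi.single 0 1), (B 1, Pi.single 1 1)} :
      Finset ((Fin 2 → ℤ) × (Fin 2 → ℤ))) ⊆ pos Φ := by
    intro p hp
    rcases Finset.mem_insert.1 hp with rfl | hp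
    · exact hm 0
    · rw [Finset.mem_singleton.1 hp]
      exact hm 1
  have h1 := Finset.sum_le_sum_of_subset_of_nonneg (f := fun p : (Fin 2 → ℤ) × (Fin 2 → ℤ) =>
    (p.2 ⬝ᵥ l) ^ 2) hsub (fun p _ _ => sq_nonneg _)
  rw [Finset.sum_pair hne] at h1
  refine le_trans (le_of_eq ?_) h1
  simp

end RQN

open RQN in
theorem t_RQN : M_RQN := by
  classical
  intro _ Φ B hI _ ε hε
  have hQ : ∀ x y : ℤ, x ^ 2 + y ^ 2 ≤ (∑ p ∈ pos Φ, (p.2 0) ^ 2) * x ^ 2 +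
      (∑ p ∈ pos Φ, 2 * p.2 0 * p.2 1) * x * y + (∑ p ∈ pos Φ, (p.2 1) ^ 2) * y ^ 2 := by
    intro x y
    have h1 := Q_lower Φ B hI ![x, y]
    rw [Q_two] at h1
    simpa using h1
  obtain ⟨C, hC, h⟩ := form_bound _ _ _ hQ ε hε
  refine ⟨C, hC, fun X k S hX hS => ?_⟩
  have h1 := h X k (S.image fun l => (l 0, l 1)) hX (by
    intro t ht
    obtain ⟨l, hl, rfl⟩ := Finset.mem_image.1 ht
    obtain ⟨h2, h3⟩ := hS l hl
    rw [Q_two] at h2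
    exact ⟨h2, h3 0, h3 1⟩)
  rwa [Finset.card_image_of_injective] at h1
  intro s t hst
  simp only [Prod.mk.injEq] at hst
  funext i
  fin_cases i
  · exact hst.1
  · exact hst.2

end

end STZ3
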