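import Pool.Agent.STZ3.StmtsT3

/-!
# The bilinear form at the top levels, with a small loss: module TOJ
-/

namespace STZ3

open STZ LGR MeasureTheory Matrix Filter

open scoped ComplexConjugate Matrix Real Topology

noncomputable section

namespace TOJ

/-- Lebesgue measure on the unit interval -/
def nu : Measure ℝ := volume.restrict (Set.Ioc (0 : ℝ) 1)

instance : IsFiniteMeasure nu := by
  unfold nu
  infer_instance

theorem nu_prod : nu.prod nu = volume.restrict (Set.Ioc (0 : ℝ) 1 ×ˢ Set.Ioc (0 : ℝ) 1) := by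
  unfold nu
  rw [Measure.prod_restrict]
  rfl

theorem cont_int {g : ℝ × ℝ → ℝ} (hg : Continuous g) : Integrable g (nu.prod nu) := by
  rw [nu_prod]
  have h1 : IntegrableOn g (Set.Icc (0 : ℝ) 1 ×ˢ Set.Icc (0 : ℝ) 1) volume :=
    hg.locallyIntegrable.integrableOn_isCompact (isCompact_Icc.prod isCompact_Icc)
  exact h1.mono_set (Set.prod_mono Set.Ioc_subset_Icc_self Set.Ioc_subset_Icc_self)

theorem II_eq {f : ℝ → ℝ → ℝ} (hf : Integrable (fun z : ℝ × ℝ => f z.1 z.2) (nu.prod nu)) :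
    ∫ t in (0 : ℝ)..1, ∫ s in (0 : ℝ)..1, f t s = ∫ z, f z.1 z.2 ∂(nu.prod nu) := by
  rw [integral_prod _ hf, intervalIntegral.integral_of_le zero_le_one]
  refine integral_congr_ae (Filter.Eventually.of_forall fun t => ?_)
  simp only
  rw [intervalIntegral.integral_of_le zero_le_one]
  rfl

theorem meas_nr (R : ℕ) (δ : ℝ) : MeasurableSet {x : ℝ | nr R δ x} := by
  have h : {x : ℝ | nr R δ x} = ⋃ q : ℕ, ⋃ a : ℤ,
      {x : ℝ | R ≤ q ∧ q < 2 * R ∧ |x - a / q| ≤ δ} := by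
    ext x
    simp only [nr, Set.mem_ofPred_eq, Set.mem_iUnion]
  rw [h]
  refine MeasurableSet.iUnion fun q => MeasurableSet.iUnion fun a => ?_
  refine (MeasurableSet.const (R ≤ q)).inter ((MeasurableSet.const (q < 2 * R)).inter ?_)
  have h1 : Continuous fun x : ℝ => |x - a / q| := (continuous_id.sub continuous_const).abs
  exact (isClosed_le h1 continuous_const).measurableSet

open Classical in
/-- the indicator of the pairs of times -/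
def DD (R : ℕ) (δ b : ℝ) (e : ℝ → ℝ) (t s : ℝ) : ℝ :=
  if nr R δ (t - s) then (e t * e s) ^ b else 0

theorem DD_int (R : ℕ) (δ : ℝ) {b : ℝ} (hb : 0 ≤ b) {e : ℝ → ℝ} (he : Continuous e) :
    Integrable (fun z : ℝ × ℝ => DD R δ b e z.1 z.2) (nu.prod nu) := by
  have h1 : Continuous fun z : ℝ × ℝ => (e z.1 * e z.2) ^ b :=
    ((he.comp continuous_fst).mul (he.comp continuous_snd)).rpow_const fun _ => Or.inr hb
  have h2 : MeasurableSet {z : ℝ × ℝ | nr R δ (z.1 - z.2)} :=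
    (measurable_fst.sub measurable_snd) (meas_nr R δ)
  have h3 := (cont_int h1).indicator h2
  refine h3.congr (Filter.Eventually.of_forall fun z => ?_)
  by_cases hz : nr R δ (z.1 - z.2)
  · have e1 : DD R δ b e z.1 z.2 = (e z.1 * e z.2) ^ b := if_pos hz
    simp only [e1]
    exact Set.indicator_of_mem (s := {z : ℝ × ℝ | nr R δ (z.1 - z.2)}) hz _
  · have e1 : DD R δ b e z.1 z.2 = 0 := if_neg hz
    simp only [e1]
    exact Set.indicator_of_notMem (s := {z : ℝ × ℝ | nr R δ (z.1 - z.2)}) hz _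

theorem DD_nn (R : ℕ) (δ b : ℝ) {e : ℝ → ℝ} (he : ∀ t, 0 ≤ e t) (t s : ℝ) : 0 ≤ DD R δ b e t s := by
  unfold DD
  split
  · exact Real.rpow_nonneg (mul_nonneg (he t) (he s)) _
  · exact le_refl _

/-- geometric series over the tuples -/
theorem geo_y (ι : Type) [Fintype ι] [DecidableEq ι] (J : ℕ) (b : ℝ) (hb : 0 < b) :
    ∑ y : ι → Fin (J + 1), (2 : ℝ) ^ (-(b * ∑ i, zt y i)) ≤
      ((1 - (2 : ℝ) ^ (-b))⁻¹) ^ Fintype.card ι := by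
  have hr0 : 0 ≤ (2 : ℝ) ^ (-b) := by positivity
  have hr1 : (2 : ℝ) ^ (-b) < 1 := Real.rpow_lt_one_of_one_lt_of_neg one_lt_two (by linarith)
  have e1 : ∀ y : ι → Fin (J + 1), (2 : ℝ) ^ (-(b * ∑ i, zt y i)) =
      ∏ i, ((2 : ℝ) ^ (-b)) ^ (J - (y i).val) := by
    intro y
    rw [Finset.mul_sum, ← Finset.sum_neg_distrib, Real.rpow_sum_of_pos two_pos]
    refine Finset.prod_congr rfl fun i _ => ?_
    rw [← Real.rpow_natCast, ← Real.rpow_mul two_pos.le]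
    congr 1
    unfold zt
    rw [Nat.cast_sub (by have := (y i).isLt; omega)]
    ring
  simp only [e1]
  have e2 : ∑ y : ι → Fin (J + 1), ∏ i, ((2 : ℝ) ^ (-b)) ^ (J - (y i).val) =
      ∏ _i : ι, ∑ v : Fin (J + 1), ((2 : ℝ) ^ (-b)) ^ (J - v.val) := by
    rw [Finset.prod_univ_sum]
    simp
  rw [e2, Finset.prod_const, Finset.card_univ]
  refine pow_le_pow_left₀ (Finset.sum_nonneg fun _ _ => by positivity) ?_ _
  rw [Fin.sum_univ_eq_sum_range (fun v => ((2 : ℝ) ^ (-b)) ^ (J - v)) (J + 1)]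
  have e3 := Finset.sum_range_reflect (fun v => ((2 : ℝ) ^ (-b)) ^ v) (J + 1)
  simp only [Nat.add_sub_cancel] at e3
  rw [e3, ← tsum_geometric_of_lt_one hr0 hr1]
  exact (summable_geometric_of_lt_one hr0 hr1).sum_le_tsum _ fun k _ => by positivity

/-- geometric series -/
theorem geo_j (b : ℝ) (hb : 0 < b) (S : Finset ℕ) :
    ∑ j ∈ S, (2 : ℝ) ^ (-(b * (j : ℝ))) ≤ (1 - (2 : ℝ) ^ (-b))⁻¹ := by
  have hr0 : 0 ≤ (2 : ℝ) ^ (-b) := by positivity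
  have hr1 : (2 : ℝ) ^ (-b) < 1 := Real.rpow_lt_one_of_one_lt_of_neg one_lt_two (by linarith)
  have e1 : ∀ j : ℕ, (2 : ℝ) ^ (-(b * (j : ℝ))) = ((2 : ℝ) ^ (-b)) ^ j := by
    intro j
    rw [← Real.rpow_natCast, ← Real.rpow_mul two_pos.le]
    congr 1
    ring
  simp only [e1]
  rw [← tsum_geometric_of_lt_one hr0 hr1]
  exact (summable_geometric_of_lt_one hr0 hr1).sum_le_tsum _ fun k _ => by positivity

/-- increasing geometric series -/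
theorem geo_r (b : ℝ) (hb : 0 < b) (Y : ℝ) (hY : 1 ≤ Y) (S : Finset ℕ) (hS : ∀ k ∈ S, (2 : ℝ) ^ k ≤ Y) :
    ∑ k ∈ S, (2 : ℝ) ^ (b * (k : ℝ)) ≤ Y ^ b * (1 - (2 : ℝ) ^ (-b))⁻¹ := by
  obtain ⟨N, hN1, hN2⟩ := exists_nat_pow_near hY (one_lt_two : (1 : ℝ) < 2)
  have hsub : S ⊆ Finset.range (N + 1) := by
    intro k hk
    rw [Finset.mem_range]
    by_contra hc
    have h1 : (2 : ℝ) ^ (N + 1) ≤ 2 ^ k := pow_le_pow_right₀ one_le_two (by omega)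
    linarith [hS k hk]
  refine (Finset.sum_le_sum_of_subset_of_nonneg hsub fun _ _ _ => by positivity).trans ?_
  have e3 := Finset.sum_range_reflect (fun v : ℕ => (2 : ℝ) ^ (b * (v : ℝ))) (N + 1)
  rw [← e3]
  have e4 : ∀ j ∈ Finset.range (N + 1), (2 : ℝ) ^ (b * ((N + 1 - 1 - j : ℕ) : ℝ)) =
      ((2 : ℝ) ^ N) ^ b * (2 : ℝ) ^ (-(b * (j : ℝ))) := by
    intro j hj
    rw [Finset.mem_range] at hj
    rw [← Real.rpow_natCast, ← Real.rpow_mul two_pos.le, ← Real.rpow_add two_pos]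
    congr 1
    rw [Nat.add_sub_cancel, Nat.cast_sub (by omega)]
    ring
  rw [Finset.sum_congr rfl e4, ← Finset.mul_sum]
  refine mul_le_mul ?_ (geo_j b hb _) (Finset.sum_nonneg fun _ _ => by positivity) (by positivity)
  exact Real.rpow_le_rpow (by positivity) hN1 hb.le

theorem cont_Ay {ι : Type} [Fintype ι] (hW : WWF) (C₀ : ℝ) (c J : ℕ) (y : ι → Fin (J + 1)) :
    Continuous (Ay C₀ c J y) := by
  unfold Ay
  exact continuous_const.mul ((continuous_const.mul (hW.cont _ _)).mul continuous_const)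

theorem cont_Ey {ι : Type} (hW : WWF) (C₀ : ℝ) (c J : ℕ) (y : ι → Fin (J + 1)) (i₁ i₂ : ι) :
    Continuous (Ey C₀ c J y i₁ i₂) := by
  unfold Ey
  exact continuous_const.mul (((hW.cont _ _).sqrt.div_const _).mul ((hW.cont _ _).sqrt.div_const _))

theorem zt_nn {ι : Type} {J : ℕ} (y : ι → Fin (J + 1)) (i : ι) : 0 ≤ zt y i := by
  unfold zt
  have h1 : ((y i).val : ℝ) ≤ J := by
    have := (y i).isLt
    exact_mod_cast (by omega : (y i).val ≤ J)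
  linarith

/-- the bound of one piece -/
theorem piece {ι : Type} [Fintype ι] [DecidableEq ι] (hW : WWF) (C₀ a C₁ C₂ σ η p ε' : ℝ) (c J : ℕ)
    (y : ι → Fin (J + 1)) (i₁ i₂ : ι) {e : ℝ → ℝ} (he : Continuous e) (he0 : ∀ t, 0 ≤ e t) (Λ : ℝ)
    (hp : 2 < p) (hC₁ : 0 ≤ C₁) (hC₂ : 0 ≤ C₂)
    (hx : ∀ j : ℕ, -(p / 2 - 1) * ∑ i, zt y i + (1 - σ * (p / 2 - 1)) * j -
      σ / 2 * (max 0 (j - 2 * zt y i₁) + max 0 (j - 2 * zt y i₂)) ≤ -η * (∑ i, zt y i + j))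
    (S₁ S₂ : Finset ℕ)
    (hcel : ∀ ρ ∈ S₁, ∀ j ∈ S₂, ∫ t in (0 : ℝ)..1, ∫ s in (0 : ℝ)..1,
      DD (2 ^ ρ) (2 ^ j / (2 ^ J) ^ 2) (1 - 1 / p) e t s ≤
        C₁ * ((2 : ℝ) ^ ρ) ^ (1 + ε') * (2 ^ j / (2 ^ J) ^ 2) ^ (2 / p) * (∫ t in (0 : ℝ)..1, e t) ^ (2 - 2 / p))
    (hptw : ∀ τ v : ℝ, 0 ≤ v →
      min (Ay C₀ c J y τ * v) (Ey C₀ c J y i₁ i₂ τ * √v) ≤
        a * (((2 : ℝ) ^ J) ^ (2 * Fintype.card ι + 2) / Λ ^ 2) * (2 : ℝ) ^ (-(∑ i, zt y i) / 2) * v ∨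
      ∃ ρ ∈ S₁, ∃ j ∈ S₂, nr (2 ^ ρ) (2 ^ j / (2 ^ J) ^ 2) τ ∧
        min (Ay C₀ c J y τ * v) (Ey C₀ c J y i₁ i₂ τ * √v) ≤
        C₂ * ((2 : ℝ) ^ J) ^ ((2 * (Fintype.card ι : ℝ) + 2) * (1 - 2 / p)) * (2 : ℝ) ^ (-(ρ : ℝ)) *
          (2 : ℝ) ^ (2 / p * (-(p / 2 - 1) * ∑ i, zt y i - σ * (p / 2 - 1) * j -
            σ / 2 * (max 0 (j - 2 * zt y i₁) + max 0 (j - 2 * zt y i₂)))) * v ^ (1 - 1 / p))
    (ha : 0 ≤ a) :
    ∫ t in (0 : ℝ)..1, ∫ s in (0 : ℝ)..1,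
      min (Ay C₀ c J y (t - s) * (e t * e s)) (Ey C₀ c J y i₁ i₂ (t - s) * √(e t * e s)) ≤
    a * (((2 : ℝ) ^ J) ^ (2 * Fintype.card ι + 2) / Λ ^ 2) * (2 : ℝ) ^ (-(∑ i, zt y i) / 2) *
      (∫ t in (0 : ℝ)..1, e t) ^ 2 +
    C₁ * C₂ * ((2 : ℝ) ^ J) ^ ((2 * (Fintype.card ι : ℝ) + 2) * (1 - 2 / p) - 4 / p) *
      (∫ t in (0 : ℝ)..1, e t) ^ (2 - 2 / p) * (2 : ℝ) ^ (-(2 / p * η * ∑ i, zt y i)) *
      ((∑ ρ ∈ S₁, (2 : ℝ) ^ (ε' * (ρ : ℝ))) * ∑ j ∈ S₂, (2 : ℝ) ^ (-(2 / p * η * (j : ℝ)))) := by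
  have hp0 : 0 < p := by linarith
  set m : ℝ := ∫ t in (0 : ℝ)..1, e t with hm
  have hm0 : 0 ≤ m := intervalIntegral.integral_nonneg zero_le_one fun t _ => he0 t
  set X : ℝ := (2 : ℝ) ^ J with hXd
  have hX0 : 0 < X := by positivity
  set a' : ℝ := a * (X ^ (2 * Fintype.card ι + 2) / Λ ^ 2) * (2 : ℝ) ^ (-(∑ i, zt y i) / 2) with ha'
  have ha'0 : 0 ≤ a' := by
    rw [ha']
    have : 0 ≤ Λ ^ 2 := by positivity
    positivity
  let Wt : ℕ → ℕ → ℝ := fun ρ j => C₂ * X ^ ((2 * (Fintype.card ι : ℝ) + 2) * (1 - 2 / p)) *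
    (2 : ℝ) ^ (-(ρ : ℝ)) * (2 : ℝ) ^ (2 / p * (-(p / 2 - 1) * ∑ i, zt y i - σ * (p / 2 - 1) * j -
            σ / 2 * (max 0 (j - 2 * zt y i₁) + max 0 (j - 2 * zt y i₂))))
  have hWt : ∀ ρ j, 0 ≤ Wt ρ j := fun ρ j => by positivity
  have hb : 0 ≤ 1 - 1 / p := by
    have : 1 / p ≤ 1 := by
      rw [div_le_one hp0]
      linarith
    linarith
  have hDi : ∀ ρ j, Integrable (fun z : ℝ × ℝ =>
      DD (2 ^ ρ) (2 ^ j / X ^ 2) (1 - 1 / p) e z.1 z.2) (nu.prod nu) := fun ρ j => DD_int _ _ hb he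
  have hFc : Continuous fun z : ℝ × ℝ => min (Ay C₀ c J y (z.1 - z.2) * (e z.1 * e z.2))
      (Ey C₀ c J y i₁ i₂ (z.1 - z.2) * √(e z.1 * e z.2)) := by
    have h1 : Continuous fun z : ℝ × ℝ => z.1 - z.2 := continuous_fst.sub continuous_snd
    have h2 : Continuous fun z : ℝ × ℝ => e z.1 * e z.2 :=
      (he.comp continuous_fst).mul (he.comp continuous_snd)
    exact (((cont_Ay hW C₀ c J y).comp h1).mul h2).min
      (((cont_Ey hW C₀ c J y i₁ i₂).comp h1).mul h2.sqrt)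
  have hec : Continuous fun z : ℝ × ℝ => e z.1 * e z.2 :=
    (he.comp continuous_fst).mul (he.comp continuous_snd)
  rw [II_eq (cont_int hFc)]
  -- the pointwise bound
  have hpt : ∀ z : ℝ × ℝ, min (Ay C₀ c J y (z.1 - z.2) * (e z.1 * e z.2))
      (Ey C₀ c J y i₁ i₂ (z.1 - z.2) * √(e z.1 * e z.2)) ≤
      a' * (e z.1 * e z.2) + ∑ ρ ∈ S₁, ∑ j ∈ S₂, Wt ρ j * DD (2 ^ ρ) (2 ^ j / X ^ 2) (1 - 1 / p) e z.1 z.2 := by
    intro z
    have hv : 0 ≤ e z.1 * e z.2 := mul_nonneg (he0 _) (he0 _)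
    have hsum : 0 ≤ ∑ ρ ∈ S₁, ∑ j ∈ S₂,
        Wt ρ j * DD (2 ^ ρ) (2 ^ j / X ^ 2) (1 - 1 / p) e z.1 z.2 :=
      Finset.sum_nonneg fun ρ _ => Finset.sum_nonneg fun j _ =>
        mul_nonneg (hWt ρ j) (DD_nn _ _ _ he0 _ _)
    rcases hptw (z.1 - z.2) (e z.1 * e z.2) hv with h | ⟨ρ, hρ, j, hj, hnr, h⟩
    · exact h.trans (le_add_of_nonneg_right hsum)
    · have h1 : Wt ρ j * DD (2 ^ ρ) (2 ^ j / X ^ 2) (1 - 1 / p) e z.1 z.2 ≤ ∑ ρ ∈ S₁, ∑ j ∈ S₂,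
          Wt ρ j * DD (2 ^ ρ) (2 ^ j / X ^ 2) (1 - 1 / p) e z.1 z.2 := by
        refine le_trans ?_ (Finset.single_le_sum (f := fun ρ => ∑ j ∈ S₂,
          Wt ρ j * DD (2 ^ ρ) (2 ^ j / X ^ 2) (1 - 1 / p) e z.1 z.2) (fun ρ _ =>
            Finset.sum_nonneg fun j _ => mul_nonneg (hWt ρ j) (DD_nn _ _ _ he0 _ _)) hρ)
        exact Finset.single_le_sum (f := fun j =>
          Wt ρ j * DD (2 ^ ρ) (2 ^ j / X ^ 2) (1 - 1 / p) e z.1 z.2) (fun j _ =>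
            mul_nonneg (hWt ρ j) (DD_nn _ _ _ he0 _ _)) hj
      have h2 : DD (2 ^ ρ) (2 ^ j / X ^ 2) (1 - 1 / p) e z.1 z.2 = (e z.1 * e z.2) ^ (1 - 1 / p) :=
        if_pos hnr
      rw [h2] at h1
      exact (h.trans h1).trans (le_add_of_nonneg_left (mul_nonneg ha'0 hv))
  have hsi : Integrable (fun z : ℝ × ℝ => ∑ ρ ∈ S₁, ∑ j ∈ S₂,
      Wt ρ j * DD (2 ^ ρ) (2 ^ j / X ^ 2) (1 - 1 / p) e z.1 z.2) (nu.prod nu) :=
    integrable_finsetSum _ fun ρ _ => integrable_finsetSum _ fun j _ => (hDi ρ j).const_mul _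
  have hai : Integrable (fun z : ℝ × ℝ => a' * (e z.1 * e z.2)) (nu.prod nu) :=
    (cont_int hec).const_mul _
  refine (integral_mono (cont_int hFc) (hai.add hsi) hpt).trans ?_
  rw [integral_add' hai hsi]
  have hee : ∫ z : ℝ × ℝ, a' * (e z.1 * e z.2) ∂(nu.prod nu) = a' * m ^ 2 := by
    rw [integral_const_mul, integral_prod_mul, hm, intervalIntegral.integral_of_le zero_le_one, sq]
    rfl
  rw [hee]
  refine add_le_add_right ?_ _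
  rw [integral_finsetSum _ fun ρ _ => integrable_finsetSum _ fun j _ => (hDi ρ j).const_mul _]
  rw [Finset.sum_mul_sum, Finset.mul_sum]
  refine Finset.sum_le_sum fun ρ hρ => ?_
  rw [integral_finsetSum _ fun j _ => (hDi ρ j).const_mul _, Finset.mul_sum]
  refine Finset.sum_le_sum fun j hj => ?_
  rw [integral_const_mul, ← II_eq (hDi ρ j)]
  have h1 := mul_le_mul_of_nonneg_left (hcel ρ hρ j hj) (hWt ρ j)
  refine h1.trans ?_
  have h2 : (2 : ℝ) ^ (2 / p * (-(p / 2 - 1) * ∑ i, zt y i - σ * (p / 2 - 1) * j -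
            σ / 2 * (max 0 (j - 2 * zt y i₁) + max 0 (j - 2 * zt y i₂)))) * (2 : ℝ) ^ (2 / p * (j : ℝ)) ≤
      (2 : ℝ) ^ (-(2 / p * η * ∑ i, zt y i)) * (2 : ℝ) ^ (-(2 / p * η * (j : ℝ))) := by
    rw [← Real.rpow_add two_pos, ← Real.rpow_add two_pos]
    refine Real.rpow_le_rpow_of_exponent_le one_le_two ?_
    have h3 := mul_le_mul_of_nonneg_left (hx j) (show 0 ≤ 2 / p by positivity)
    calc _ = 2 / p * (-(p / 2 - 1) * ∑ i, zt y i + (1 - σ * (p / 2 - 1)) * j -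
      σ / 2 * (max 0 (j - 2 * zt y i₁) + max 0 (j - 2 * zt y i₂))) := by ring
      _ ≤ _ := h3
      _ = _ := by ring
  have e1 : ((2 : ℝ) ^ j / X ^ 2) ^ (2 / p) = (2 : ℝ) ^ (2 / p * (j : ℝ)) * X ^ (-(4 / p)) := by
    rw [Real.div_rpow (by positivity) (by positivity), ← Real.rpow_natCast 2 j, ← Real.rpow_mul two_pos.le,
      ← Real.rpow_natCast X 2, ← Real.rpow_mul hX0.le, Real.rpow_neg hX0.le, div_eq_mul_inv]
    congr 2
    · ring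
    · congr 1
      push_cast
      ring
  have e2 : (2 : ℝ) ^ (-(ρ : ℝ)) * ((2 : ℝ) ^ ρ) ^ (1 + ε') = (2 : ℝ) ^ (ε' * (ρ : ℝ)) := by
    rw [← Real.rpow_natCast 2 ρ, ← Real.rpow_mul two_pos.le, ← Real.rpow_add two_pos]
    congr 1
    ring
  have e3 : X ^ ((2 * (Fintype.card ι : ℝ) + 2) * (1 - 2 / p) - 4 / p) =
      X ^ ((2 * (Fintype.card ι : ℝ) + 2) * (1 - 2 / p)) * X ^ (-(4 / p)) := by
    rw [← Real.rpow_add hX0]
    congr 1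
  rw [e1, e3]
  have h4 : 0 ≤ C₁ * C₂ * (X ^ ((2 * (Fintype.card ι : ℝ) + 2) * (1 - 2 / p)) * X ^ (-(4 / p))) *
      m ^ (2 - 2 / p) * (2 : ℝ) ^ (ε' * (ρ : ℝ)) := by positivity
  have h5 := mul_le_mul_of_nonneg_left h2 h4
  refine le_trans (le_of_eq ?_) (h5.trans (le_of_eq ?_))
  · rw [← e2]
    simp only [Wt]
    ring
  · ring

/-- the end of the proof: solve the inequality for the mass -/
theorem fin (n : ℕ) (p ε' X Λ m D : ℝ) (hp : 2 < p) (hX : 1 ≤ X) (hΛ : 1 ≤ Λ) (hm : 0 ≤ m) (hD : 0 ≤ D)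
    (h : (X ^ (n + 1) / Λ * m) ^ 2 ≤ 1 / 2 * (X ^ (2 * n + 2) / Λ ^ 2) * m ^ 2 +
      D * X ^ ((2 * (n : ℝ) + 2) * (1 - 2 / p) - 4 / p) * m ^ (2 - 2 / p) * Λ ^ (2 * ε')) :
    m ≤ (2 * D) ^ (p / 2) * Λ ^ (p + p * ε') * X ^ (-(2 * (n : ℝ) + 4)) := by
  have hX0 : 0 < X := by linarith
  have hΛ0 : 0 < Λ := by linarith
  have hp0 : 0 < p := by linarith
  rcases hm.eq_or_lt with h0 | hm0
  · rw [← h0]
    positivity
  have h1 : (X ^ (n + 1) / Λ * m) ^ 2 = X ^ (2 * n + 2) / Λ ^ 2 * m ^ 2 := by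
    rw [mul_pow, div_pow, ← pow_mul]
    congr 3
    ring
  rw [h1] at h
  have h2 : X ^ (2 * n + 2) / Λ ^ 2 * m ^ 2 ≤
      2 * D * X ^ ((2 * (n : ℝ) + 2) * (1 - 2 / p) - 4 / p) * m ^ (2 - 2 / p) * Λ ^ (2 * ε') := by
    linarith
  have h3 : m ^ 2 = m ^ (2 - 2 / p) * m ^ (2 / p) := by
    rw [← Real.rpow_add hm0, ← Real.rpow_natCast]
    congr 1
    push_cast
    ring
  have h4 : X ^ (2 * n + 2) / Λ ^ 2 = X ^ (2 * (n : ℝ) + 2) * Λ ^ (-2 : ℝ) := by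
    rw [Real.rpow_neg hΛ0.le, div_eq_mul_inv]
    congr 1
    · rw [← Real.rpow_natCast]
      push_cast
      rfl
    · rw [← Real.rpow_natCast]
      norm_num
  rw [h3, h4] at h2
  have hmp : 0 < m ^ (2 - 2 / p) := Real.rpow_pos_of_pos hm0 _
  have h5 : m ^ (2 / p) ≤ 2 * D * Λ ^ (2 + 2 * ε') * X ^ (-(2 / p * (2 * (n : ℝ) + 4))) := by
    have hc : 0 < X ^ (2 * (n : ℝ) + 2) * Λ ^ (-2 : ℝ) * m ^ (2 - 2 / p) := by positivity
    refine le_of_mul_le_mul_left ?_ hc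
    calc X ^ (2 * (n : ℝ) + 2) * Λ ^ (-2 : ℝ) * m ^ (2 - 2 / p) * m ^ (2 / p)
        = X ^ (2 * (n : ℝ) + 2) * Λ ^ (-2 : ℝ) * (m ^ (2 - 2 / p) * m ^ (2 / p)) := by ring
      _ ≤ _ := h2
      _ = 2 * D * m ^ (2 - 2 / p) * (Λ ^ (-2 : ℝ) * Λ ^ (2 + 2 * ε')) *
          (X ^ (2 * (n : ℝ) + 2) * X ^ (-(2 / p * (2 * (n : ℝ) + 4)))) := by
        rw [← Real.rpow_add hΛ0, ← Real.rpow_add hX0]
        have e1 : (-2 : ℝ) + (2 + 2 * ε') = 2 * ε' := by ring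
        have e2 : 2 * (n : ℝ) + 2 + -(2 / p * (2 * (n : ℝ) + 4)) =
            (2 * (n : ℝ) + 2) * (1 - 2 / p) - 4 / p := by
          field_simp
          ring
        rw [e1, e2]
        ring
      _ = _ := by ring
  have h6 : m = (m ^ (2 / p)) ^ (p / 2) := by
    rw [← Real.rpow_mul hm]
    have : 2 / p * (p / 2) = 1 := by field_simp
    rw [this, Real.rpow_one]
  rw [h6]
  refine (Real.rpow_le_rpow (by positivity) h5 (by positivity)).trans (le_of_eq ?_)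
  rw [Real.mul_rpow (by positivity) (by positivity), Real.mul_rpow (by positivity) (by positivity),
    ← Real.rpow_mul hΛ0.le, ← Real.rpow_mul hX0.le]
  congr 2
  · congr 1
    ring
  · field_simp

end TOJ

open TOJ in
theorem t_TOJ : M_TOJ := by
  intro hW hCEL hXIN hPTW ι _ _ c p C₀ ε hn hc hp hp3 hC₀ hε
  have hn0 : (0 : ℝ) ≤ (Fintype.card ι : ℝ) := Nat.cast_nonneg _
  have hp2 : 2 < p := by
    have : 0 < 4 / ((Fintype.card ι : ℝ) + 2) := by positivity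
    linarith
  have hp0 : 0 < p := by linarith
  obtain ⟨σ, η, hσ0, hσ1, hη, hxin⟩ := hXIN (Fintype.card ι) p hn hp hp3
  have hε' : 0 < ε / p := by positivity
  obtain ⟨K, C₁, hK1, hC₁, hcel⟩ := hCEL p (ε / p) hp2 hε'
  have hr : ∀ b : ℝ, 0 < b → 0 < (1 - (2 : ℝ) ^ (-b))⁻¹ := by
    intro b hb
    have : (2 : ℝ) ^ (-b) < 1 := Real.rpow_lt_one_of_one_lt_of_neg one_lt_two (by linarith)
    exact inv_pos.2 (by linarith)
  set cn : ℝ := ((1 - (2 : ℝ) ^ (-(1 / 2 : ℝ)))⁻¹) ^ Fintype.card ι with hcn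
  have hcn0 : 0 < cn := pow_pos (hr _ (by norm_num)) _
  have ha : 0 < 1 / (2 * cn) := by positivity
  obtain ⟨C₂, J₁, hC₂, hptw⟩ := hPTW ι c σ p C₀ (1 / (2 * cn)) hc hσ0 hσ1 hp2 hC₀ ha
  have hK1' : (1 : ℝ) ≤ K := by exact_mod_cast hK1
  have hT : 0 < (K : ℝ) + 1 / σ := by positivity
  obtain ⟨N, hN⟩ := pow_unbounded_of_one_lt ((K : ℝ) * C₂ ^ ((K : ℝ) + 1 / σ)) (one_lt_two : (1 : ℝ) < 2)
  set b : ℝ := 2 / p * η with hb
  have hb0 : 0 < b := by positivity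
  set D : ℝ := C₁ * C₂ * ((1 - (2 : ℝ) ^ (-b))⁻¹) ^ Fintype.card ι *
    (C₂ ^ (ε / p) * (1 - (2 : ℝ) ^ (-(ε / p)))⁻¹ * (1 - (2 : ℝ) ^ (-b))⁻¹) with hD
  have hD0 : 0 ≤ D := by
    have h1 := hr b hb0
    have h2 := hr (ε / p) hε'
    positivity
  refine ⟨min (1 / 10) (1 / (2 * ((K : ℝ) + 1 / σ))), (2 * D) ^ (p / 2), max J₁ N,
    lt_min (by norm_num) (by positivity), by positivity, ?_⟩
  intro J i₁ i₂ hsm e Λ hJ he he0 hΛ hΛκ hmain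
  have hJ1 : J₁ ≤ J := (le_max_left _ _).trans hJ
  have hJN : N ≤ J := (le_max_right _ _).trans hJ
  set X : ℝ := (2 : ℝ) ^ J with hXd
  have hX1 : 1 ≤ X := one_le_pow₀ one_le_two
  have hX0 : 0 < X := by linarith
  have hΛ0 : 0 < Λ := by linarith
  set m : ℝ := ∫ t in (0 : ℝ)..1, e t with hm
  have hm0 : 0 ≤ m := intervalIntegral.integral_nonneg zero_le_one fun t _ => he0 t
  have hY1 : 1 ≤ C₂ * Λ ^ 2 := by
    have : 1 ≤ Λ ^ 2 := one_le_pow₀ hΛ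
    nlinarith
  set Y : ℝ := C₂ * Λ ^ 2 with hY
  have hY0 : 0 < Y := by linarith
  have hΛ10 : Λ ^ 10 ≤ X := by
    have h1 : Λ ≤ X ^ (1 / 10 : ℝ) := hΛκ.trans
      (Real.rpow_le_rpow_of_exponent_le hX1 (min_le_left _ _))
    refine (pow_le_pow_left₀ hΛ0.le h1 10).trans (le_of_eq ?_)
    rw [← Real.rpow_natCast, ← Real.rpow_mul hX0.le]
    norm_num
  set S₁ : Finset ℕ := (Finset.range (⌈Y⌉₊ + 1)).filter fun ρ => (2 : ℝ) ^ ρ ≤ Y with hS₁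
  set S₂ : Finset ℕ := (Finset.range (⌈Y ^ (1 / σ)⌉₊ + 1)).filter
    fun j => (2 : ℝ) ^ (σ * (j : ℝ)) ≤ Y with hS₂
  have h2j : ∀ j : ℕ, (2 : ℝ) ^ (σ * (j : ℝ)) ≤ Y → (2 : ℝ) ^ j ≤ Y ^ (1 / σ) := by
    intro j hj
    have h1 := Real.rpow_le_rpow (by positivity) hj (show 0 ≤ 1 / σ by positivity)
    rw [← Real.rpow_mul two_pos.le] at h1
    have h2 : σ * (j : ℝ) * (1 / σ) = (j : ℕ) := by field_simp
    rwa [h2, Real.rpow_natCast] at h1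
  have hlt : ∀ (k : ℕ) (Z : ℝ), (2 : ℝ) ^ k ≤ Z → k ∈ Finset.range (⌈Z⌉₊ + 1) := by
    intro k Z hk
    rw [Finset.mem_range]
    have h1 : (k : ℝ) < 2 ^ k := by exact_mod_cast Nat.lt_two_pow_self
    have h2 : (k : ℝ) ≤ ⌈Z⌉₊ := (h1.le.trans hk).trans (Nat.le_ceil Z)
    have h3 : k ≤ ⌈Z⌉₊ := by exact_mod_cast h2
    omega
  -- the condition of CEL
  have hcond : ∀ ρ ∈ S₁, ∀ j ∈ S₂, (K : ℝ) * (((2 ^ ρ : ℕ) : ℝ)) ^ K * (2 ^ j / X ^ 2) ≤ 1 := by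
    intro ρ hρ j hj
    have hρ' := (Finset.mem_filter.1 hρ).2
    have hj' := h2j j (Finset.mem_filter.1 hj).2
    have h1 : (((2 ^ ρ : ℕ) : ℝ)) ^ K ≤ Y ^ (K : ℝ) := by
      rw [Real.rpow_natCast]
      push_cast
      exact pow_le_pow_left₀ (by positivity) hρ' K
    have h2 : (((2 ^ ρ : ℕ) : ℝ)) ^ K * 2 ^ j ≤ Y ^ ((K : ℝ) + 1 / σ) := by
      rw [Real.rpow_add hY0]
      exact mul_le_mul h1 hj' (by positivity) (by positivity)
    have h3 : Y ^ ((K : ℝ) + 1 / σ) ≤ C₂ ^ ((K : ℝ) + 1 / σ) * X := by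
      rw [hY, Real.mul_rpow (by linarith) (by positivity)]
      refine mul_le_mul_of_nonneg_left ?_ (by positivity)
      rw [← Real.rpow_natCast Λ 2, ← Real.rpow_mul hΛ0.le]
      have h4 : Λ ≤ X ^ (1 / (2 * ((K : ℝ) + 1 / σ))) := hΛκ.trans
        (Real.rpow_le_rpow_of_exponent_le hX1 (min_le_right _ _))
      refine (Real.rpow_le_rpow hΛ0.le h4 (by positivity)).trans (le_of_eq ?_)
      rw [← Real.rpow_mul hX0.le]
      have h5 : 1 / (2 * ((K : ℝ) + 1 / σ)) * (((2 : ℕ) : ℝ) * ((K : ℝ) + 1 / σ)) = 1 := by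
        push_cast
        field_simp
      rw [h5, Real.rpow_one]
    have h6 : (K : ℝ) * C₂ ^ ((K : ℝ) + 1 / σ) ≤ X :=
      hN.le.trans (pow_le_pow_right₀ one_le_two hJN)
    rw [← mul_div_assoc, div_le_one (by positivity)]
    calc (K : ℝ) * (((2 ^ ρ : ℕ) : ℝ)) ^ K * 2 ^ j = K * ((((2 ^ ρ : ℕ) : ℝ)) ^ K * 2 ^ j) := by ring
      _ ≤ K * (C₂ ^ ((K : ℝ) + 1 / σ) * X) := mul_le_mul_of_nonneg_left (h2.trans h3) (by positivity)
      _ = K * C₂ ^ ((K : ℝ) + 1 / σ) * X := by ring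
      _ ≤ X * X := mul_le_mul_of_nonneg_right h6 hX0.le
      _ = X ^ 2 := by ring
  have hpc : ∀ y : ι → Fin (J + 1), _ := fun y =>
    piece hW C₀ (1 / (2 * cn)) C₁ C₂ σ η p (ε / p) c J y (i₁ y) (i₂ y) he he0 Λ hp2 hC₁ (by linarith)
      (fun j => by
        obtain ⟨h1, h2, h3⟩ := hsm y
        refine hxin ι (zt y) (i₁ y) (i₂ y) j rfl (zt_nn y) h1 ?_ ?_ (Nat.cast_nonneg _)
        · unfold zt
          have : ((y (i₂ y)).val : ℝ) ≤ (y (i₁ y)).val := by exact_mod_cast h2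
          linarith
        · intro i hi
          unfold zt
          have : ((y i).val : ℝ) ≤ (y (i₂ y)).val := by exact_mod_cast h3 i hi
          linarith)
      S₁ S₂
      (fun ρ hρ j hj => by
        have h1 := hcel (2 ^ ρ) (2 ^ j / X ^ 2) e Nat.one_le_two_pow (by positivity) (hcond ρ hρ j hj)
          he he0
        push_cast at h1
        exact h1)
      (fun τ v hv => by
        rcases hptw J Λ τ v y (i₁ y) (i₂ y) hJ1 hΛ hΛ10 hv with h | ⟨ρ, j, h1, h2, h3, h4⟩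
        · exact Or.inl h
        · exact Or.inr ⟨ρ, Finset.mem_filter.2 ⟨hlt ρ Y h1, h1⟩, j,
            Finset.mem_filter.2 ⟨hlt j _ (h2j j h2), h2⟩, h3, h4⟩)
      ha.le
  have hG₁ : ∑ ρ ∈ S₁, (2 : ℝ) ^ (ε / p * (ρ : ℝ)) ≤ Y ^ (ε / p) * (1 - (2 : ℝ) ^ (-(ε / p)))⁻¹ :=
    geo_r _ hε' Y hY1 S₁ fun k hk => (Finset.mem_filter.1 hk).2
  have hG₂ : ∑ j ∈ S₂, (2 : ℝ) ^ (-(b * (j : ℝ))) ≤ (1 - (2 : ℝ) ^ (-b))⁻¹ := geo_j b hb0 S₂
  have hG : (∑ ρ ∈ S₁, (2 : ℝ) ^ (ε / p * (ρ : ℝ))) * ∑ j ∈ S₂, (2 : ℝ) ^ (-(b * (j : ℝ))) ≤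
      Y ^ (ε / p) * (1 - (2 : ℝ) ^ (-(ε / p)))⁻¹ * (1 - (2 : ℝ) ^ (-b))⁻¹ :=
    mul_le_mul hG₁ hG₂ (Finset.sum_nonneg fun _ _ => by positivity)
      (mul_nonneg (by positivity) (hr _ hε').le)
  have hYe : Y ^ (ε / p) = C₂ ^ (ε / p) * Λ ^ (2 * (ε / p)) := by
    rw [hY, Real.mul_rpow (by linarith) (by positivity), ← Real.rpow_natCast Λ 2,
      ← Real.rpow_mul hΛ0.le]
    push_cast
    rfl
  have hfin := fin (Fintype.card ι) p (ε / p) X Λ m D hp2 hX1 hΛ hm0 hD0 ?_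
  · have h1 : p * (ε / p) = ε := by field_simp
    rw [h1] at hfin
    exact hfin
  refine hmain.trans ?_
  unfold MB
  refine (Finset.sum_le_sum fun y _ => hpc y).trans ?_
  rw [Finset.sum_add_distrib]
  refine add_le_add ?_ ?_
  · have h1 := geo_y ι J (1 / 2) (by norm_num)
    have h2 : ∀ y : ι → Fin (J + 1), 1 / (2 * cn) * (X ^ (2 * Fintype.card ι + 2) / Λ ^ 2) *
        (2 : ℝ) ^ (-(∑ i, zt y i) / 2) * m ^ 2 = (1 / (2 * cn) * (X ^ (2 * Fintype.card ι + 2) / Λ ^ 2) *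
          m ^ 2) * (2 : ℝ) ^ (-(1 / 2 * ∑ i, zt y i)) := by
      intro y
      have h3 : -(∑ i, zt y i) / 2 = -(1 / 2 * ∑ i, zt y i) := by ring
      rw [h3]
      ring
    rw [Finset.sum_congr rfl fun y _ => h2 y]
    rw [← Finset.mul_sum]
    have h4 : 0 ≤ 1 / (2 * cn) * (X ^ (2 * Fintype.card ι + 2) / Λ ^ 2) * m ^ 2 := by positivity
    refine (mul_le_mul_of_nonneg_left h1 h4).trans (le_of_eq ?_)
    rw [← hcn]
    field_simp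
  · have h1 := geo_y ι J b hb0
    set E : ℝ := C₁ * C₂ * X ^ ((2 * (Fintype.card ι : ℝ) + 2) * (1 - 2 / p) - 4 / p) *
      m ^ (2 - 2 / p) with hE
    have hE0 : 0 ≤ E := by positivity
    have hS0 : 0 ≤ (∑ ρ ∈ S₁, (2 : ℝ) ^ (ε / p * (ρ : ℝ))) * ∑ j ∈ S₂, (2 : ℝ) ^ (-(b * (j : ℝ))) :=
      mul_nonneg (Finset.sum_nonneg fun _ _ => by positivity)
        (Finset.sum_nonneg fun _ _ => by positivity)
    rw [← Finset.sum_mul, ← Finset.mul_sum]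
    calc _ ≤ E * ((1 - (2 : ℝ) ^ (-b))⁻¹) ^ Fintype.card ι *
          (Y ^ (ε / p) * (1 - (2 : ℝ) ^ (-(ε / p)))⁻¹ * (1 - (2 : ℝ) ^ (-b))⁻¹) :=
        mul_le_mul (mul_le_mul_of_nonneg_left h1 hE0) hG hS0
          (mul_nonneg hE0 (pow_nonneg (hr b hb0).le _))
      _ = _ := by
        rw [hYe, hE, hD]
        ring

end

end STZ3
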