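import Pool.Agent.STZ3.StD3

/-!
# The groups `SU(3)`, `PSU(3)`: module ABC (helper26)
-/

namespace STZ3

open STZ LGR MeasureTheory Matrix Filter

open scoped ComplexConjugate Matrix Real Topology

noncomputable section

namespace ABC

theorem fs_le {M : ℝ} (hM : 0 ≤ M) (jm j₁ j₂ : ℕ) {y : ℝ} (h : |(j₁ : ℝ) - j₂| ≤ y) :
    fs M jm j₂ ≤ (2 : ℝ) ^ y * fs M jm j₁ := by
  unfold fs
  have h0 := abs_le.1 h
  have h1 : ((min j₂ jm : ℕ) : ℝ) ≤ y + ((min j₁ jm : ℕ) : ℝ) := by
    rcases le_total j₁ jm with h2 | h2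
    · rw [min_eq_left h2]
      have h3 : ((min j₂ jm : ℕ) : ℝ) ≤ j₂ := by exact_mod_cast min_le_left _ _
      linarith [h0.1]
    · rw [min_eq_right h2]
      have h3 : ((min j₂ jm : ℕ) : ℝ) ≤ jm := by exact_mod_cast min_le_right _ _
      have h4 : 0 ≤ y := le_trans (abs_nonneg _) h
      linarith
  have h2 : (2 : ℝ) ^ (min j₂ jm) ≤ (2 : ℝ) ^ y * (2 : ℝ) ^ (min j₁ jm) := by
    rw [← Real.rpow_natCast, ← Real.rpow_natCast, ← Real.rpow_add two_pos]
    exact Real.rpow_le_rpow_of_exponent_le one_le_two h1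
  calc (2 : ℝ) ^ (min j₂ jm) * M ≤ ((2 : ℝ) ^ y * (2 : ℝ) ^ (min j₁ jm)) * M :=
        mul_le_mul_of_nonneg_right h2 hM
    _ = _ := by ring

theorem fs_pos {M : ℝ} (hM : 0 < M) (jm j : ℕ) : 0 < fs M jm j := by
  unfold fs
  positivity

/-- one factor -/
theorem fac {δ X M : ℝ} (hδ : 0 < δ) (hX : 0 < X) (hM : 0 ≤ M) :
    δ * M / √(1 + δ / X * M ^ 2) ≤ √(δ * X) := by
  have h1 : 0 < 1 + δ / X * M ^ 2 := by positivity
  rw [div_le_iff₀ (Real.sqrt_pos.2 h1), ← Real.sqrt_mul (by positivity)]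
  refine Real.le_sqrt_of_sq_le ?_
  have h2 : δ * X * (1 + δ / X * M ^ 2) = δ * X + (δ * M) ^ 2 := by
    field_simp
  rw [h2]
  have : 0 < δ * X := by positivity
  linarith

theorem div_sqrt_eq {b X : ℝ} (hb : 0 < b) (hX : 0 < X) : b * (1 / √(b / X)) = √(b * X) := by
  have h1 : 0 < √(b / X) := Real.sqrt_pos.2 (by positivity)
  rw [mul_one_div, div_eq_iff h1.ne', ← Real.sqrt_mul (by positivity)]
  have : b * X * (b / X) = b ^ 2 := by
    field_simp
  rw [this, Real.sqrt_sq hb.le]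

end ABC

open ABC in
theorem t_ABC : M_ABC := by
  intro hPR hRG Φ B hI hW hA m C₂ ε J a x R M₀ jm L ψ ν₁ ν₂ j₁ j₂ hε hJ hR hF
  have P := hPR 2 Φ B (by norm_num) hI hW
  have G := hRG 2 Φ B (by norm_num) hI hW
  have hX : (0 : ℝ) < 2 ^ J := by positivity
  have hδ := P.dpos J x a
  have htc := (G.tp J a x).1
  have hth := P.tpos J x
  have hb : 0 < bx' x := lt_of_lt_of_le hδ (P.dle J x a)
  have hJ0 : (0 : ℝ) < J := by exact_mod_cast hJ
  have hM0 : ∀ p, 0 < M₀ p := by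
    intro p
    by_cases hp : p = a
    · rw [hp, hF.ma]
      exact one_div_pos.2 (Real.sqrt_pos.2 htc)
    · rw [hF.mp p hp]
      refine mul_pos (by positivity) (lt_max_of_lt_right (by positivity))
  have hfs : ∀ p (j : ℕ), 0 < fs (M₀ p) (jm p) j := fun p j => fs_pos (hM0 p) _ _
  set y : ℝ := ε * J with hy
  have hy0 : 0 < y := by positivity
  have hbb : 0 < bbc a x M₀ jm j₁ := by
    unfold bbc
    refine one_div_pos.2 (mul_pos ?_ (Finset.prod_pos fun p _ => ?_))
    · have := hfs a (j₁ a).val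
      positivity
    · split_ifs
      · exact one_pos
      · have := hfs p (j₁ p).val
        positivity
  refine ⟨?_, ?_, hbb, ?_⟩
  · -- the first claim
    intro hL hj
    have hle : ∀ p, fs (M₀ p) (jm p) (j₂ p).val ≤ (2 : ℝ) ^ y * fs (M₀ p) (jm p) (j₁ p).val :=
      fun p => fs_le (hM0 p).le _ _ _ (hj p)
    have hcard : (Finset.univ.erase a).card = 2 := by
      rw [Finset.card_erase_of_mem (Finset.mem_univ a), Finset.card_univ, Fintype.card_coe, hA.card]
    obtain ⟨p, q, hpq, hpe⟩ := Finset.card_eq_two.1 hcard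
    have hpa : p ≠ a := by
      have : p ∈ Finset.univ.erase a := by rw [hpe]; simp
      exact (Finset.mem_erase.1 this).1
    have hqa : q ≠ a := by
      have : q ∈ Finset.univ.erase a := by rw [hpe]; simp
      exact (Finset.mem_erase.1 this).1
    -- not both are zero
    have hnz : ¬ ((j₁ p).val = 0 ∧ (j₁ q).val = 0) := by
      rintro ⟨h1, h2⟩
      obtain ⟨p₁, p₂, hne, hl₁, hl₂⟩ := hL
      have hall : ∀ s, s ≠ a → (2 : ℝ) ^ ((1 - 2 * ε) * J) ≤ fs (M₀ s) (jm s) (j₁ s).val → False := by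
        intro s hs hl
        have hs' : s = p ∨ s = q := by
          have : s ∈ Finset.univ.erase a := Finset.mem_erase.2 ⟨hs, Finset.mem_univ s⟩
          rw [hpe] at this
          simpa using this
        have h0 : (j₁ s).val = 0 := by
          rcases hs' with rfl | rfl
          · exact h1
          · exact h2
        rw [h0] at hl
        have e : fs (M₀ s) (jm s) 0 = M₀ s := by unfold fs; simp
        rw [e, hF.mp s hs] at hl
        have h3 : (2 : ℝ) ^ (8 * ε * J) * max (1 / √(th x)) (1 / dl x a) ≤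
            (2 : ℝ) ^ (8 * ε * J) * (2 : ℝ) ^ ((1 - 12 * ε) * J) :=
          mul_le_mul_of_nonneg_left (G.lump J ε a x hε hR) (by positivity)
        rw [← Real.rpow_add two_pos] at h3
        have h4 := hl.trans h3
        rw [Real.rpow_le_rpow_left_iff one_lt_two] at h4
        nlinarith
      by_cases h3 : p₁ = a
      · exact hall p₂ (fun h4 => hne (h3.trans h4.symm)) hl₂
      · exact hall p₁ h3 hl₁
    have hAc : Ac a x M₀ jm j₂ = dl x a * bx' x ^ 2 * (fs (M₀ a) (jm a) (j₂ a).val *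
        (fs (M₀ p) (jm p) (j₂ p).val * fs (M₀ q) (jm q) (j₂ q).val)) := by
      unfold Ac
      rw [← Finset.mul_prod_erase Finset.univ _ (Finset.mem_univ a), hpe, Finset.prod_pair hpq]
    set A : ℝ := 1 + tc a x * fs (M₀ a) (jm a) (j₁ a).val ^ 2 with hAd
    set F : {p // p ∈ pos Φ} → ℝ := fun p =>
      if (j₁ p).val = 0 then 1 else 1 + th x * fs (M₀ p) (jm p) (j₁ p).val ^ 2 with hFd
    have hA0 : 0 < A := by
      have := hfs a (j₁ a).val
      rw [hAd]; positivity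
    have hF0 : ∀ p, 0 < F p := by
      intro p
      have := hfs p (j₁ p).val
      rw [hFd]
      simp only
      split_ifs
      · exact one_pos
      · positivity
    have hbc : √(bbc a x M₀ jm j₁) = 1 / (√A * (√(F p) * √(F q))) := by
      have e : bbc a x M₀ jm j₁ = 1 / (A * (F p * F q)) := by
        unfold bbc
        rw [hpe, Finset.prod_pair hpq]
      rw [e, Real.sqrt_div' _ (by have := hF0 p; have := hF0 q; positivity), Real.sqrt_one,
        Real.sqrt_mul hA0.le, Real.sqrt_mul (hF0 p).le]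
    -- the three factors
    set Ua : ℝ := dl x a * fs (M₀ a) (jm a) (j₁ a).val / √A with hUa
    set U : {p // p ∈ pos Φ} → ℝ := fun p => bx' x * fs (M₀ p) (jm p) (j₁ p).val / √(F p) with hU
    set mx : ℝ := max (√(bx' x * 2 ^ J)) (bx' x / dl x a) with hmx
    have hUa0 : 0 ≤ Ua := by
      have := hfs a (j₁ a).val
      rw [hUa]; positivity
    have hU0 : ∀ p, 0 ≤ U p := by
      intro p
      have := hfs p (j₁ p).val
      rw [hU]; simp only; positivity
    have h1 : Ua ≤ √(dl x a * 2 ^ J) := by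
      have := fac hδ hX (hfs a (j₁ a).val).le
      rw [hUa, hAd]
      exact this
    have h2 : ∀ p, (j₁ p).val ≠ 0 → U p ≤ √(bx' x * 2 ^ J) := by
      intro p hp
      have := fac hb hX (hfs p (j₁ p).val).le
      rw [hU, hFd]
      simp only
      rw [if_neg hp]
      exact this
    have h3 : ∀ p, p ≠ a → (j₁ p).val = 0 → U p ≤ (2 : ℝ) ^ (8 * ε * J) * mx := by
      intro p hp hp0
      rw [hU, hFd]
      simp only
      rw [if_pos hp0, Real.sqrt_one, div_one, hp0]
      have e : fs (M₀ p) (jm p) 0 = M₀ p := by unfold fs; simp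
      rw [e, hF.mp p hp]
      have e1 : bx' x * (1 / √(th x)) = √(bx' x * 2 ^ J) := div_sqrt_eq hb hX
      have e2 : bx' x * (1 / dl x a) = bx' x / dl x a := by ring
      rw [mul_left_comm, mul_max_of_nonneg _ _ hb.le, e1, e2]
    have hmx0 : 0 ≤ mx := le_trans (Real.sqrt_nonneg _) (le_max_left _ _)
    have hmx1 : √(bx' x * 2 ^ J) ≤ mx := le_max_left _ _
    have h8 : (1 : ℝ) ≤ (2 : ℝ) ^ (8 * ε * J) := Real.one_le_rpow one_le_two (by positivity)
    have hsb : 0 ≤ √(bx' x * 2 ^ J) := Real.sqrt_nonneg _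
    have h4 : U p * U q ≤ (2 : ℝ) ^ (8 * ε * J) * (√(bx' x * 2 ^ J) * mx) := by
      by_cases hp0 : (j₁ p).val = 0
      · have hq0 : (j₁ q).val ≠ 0 := fun h => hnz ⟨hp0, h⟩
        calc U p * U q ≤ ((2 : ℝ) ^ (8 * ε * J) * mx) * √(bx' x * 2 ^ J) :=
              mul_le_mul (h3 p hpa hp0) (h2 q hq0) (hU0 q) (by positivity)
          _ = _ := by ring
      · by_cases hq0 : (j₁ q).val = 0
        · calc U p * U q ≤ √(bx' x * 2 ^ J) * ((2 : ℝ) ^ (8 * ε * J) * mx) :=
                mul_le_mul (h2 p hp0) (h3 q hqa hq0) (hU0 q) hsb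
            _ = _ := by ring
        · calc U p * U q ≤ √(bx' x * 2 ^ J) * √(bx' x * 2 ^ J) :=
                mul_le_mul (h2 p hp0) (h2 q hq0) (hU0 q) hsb
            _ ≤ √(bx' x * 2 ^ J) * mx := mul_le_mul_of_nonneg_left hmx1 hsb
            _ ≤ _ := le_mul_of_one_le_left (by positivity) h8
    have h5 : Ac a x M₀ jm j₂ * √(bbc a x M₀ jm j₁) ≤ (2 : ℝ) ^ y * ((2 : ℝ) ^ y * (2 : ℝ) ^ y) *
        (Ua * (U p * U q)) := by
      rw [hAc, hbc]
      have hMa := hfs a (j₁ a).val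
      have hMp := hfs p (j₁ p).val
      have hMq := hfs q (j₁ q).val
      have hNa := hfs a (j₂ a).val
      have hNp := hfs p (j₂ p).val
      have hNq := hfs q (j₂ q).val
      have h6 : fs (M₀ a) (jm a) (j₂ a).val * (fs (M₀ p) (jm p) (j₂ p).val * fs (M₀ q) (jm q) (j₂ q).val) ≤
          ((2 : ℝ) ^ y * fs (M₀ a) (jm a) (j₁ a).val) * (((2 : ℝ) ^ y * fs (M₀ p) (jm p) (j₁ p).val) *
            ((2 : ℝ) ^ y * fs (M₀ q) (jm q) (j₁ q).val)) :=
        mul_le_mul (hle a) (mul_le_mul (hle p) (hle q) hNq.le (by positivity)) (by positivity) (by positivity)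
      have hsA := Real.sqrt_pos.2 hA0
      have hsp := Real.sqrt_pos.2 (hF0 p)
      have hsq := Real.sqrt_pos.2 (hF0 q)
      calc dl x a * bx' x ^ 2 * (fs (M₀ a) (jm a) (j₂ a).val *
            (fs (M₀ p) (jm p) (j₂ p).val * fs (M₀ q) (jm q) (j₂ q).val)) * (1 / (√A * (√(F p) * √(F q))))
          ≤ dl x a * bx' x ^ 2 * (((2 : ℝ) ^ y * fs (M₀ a) (jm a) (j₁ a).val) *
            (((2 : ℝ) ^ y * fs (M₀ p) (jm p) (j₁ p).val) * ((2 : ℝ) ^ y * fs (M₀ q) (jm q) (j₁ q).val))) *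
            (1 / (√A * (√(F p) * √(F q)))) := by
            refine mul_le_mul_of_nonneg_right (mul_le_mul_of_nonneg_left h6 (by positivity)) (by positivity)
        _ = _ := by
            rw [hUa, hU]
            simp only
            field_simp
    have h7 : Ua * (U p * U q) ≤ √(dl x a * 2 ^ J) * ((2 : ℝ) ^ (8 * ε * J) * (√(bx' x * 2 ^ J) * mx)) :=
      mul_le_mul h1 h4 (mul_nonneg (hU0 p) (hU0 q)) (Real.sqrt_nonneg _)
    have h9 : (2 : ℝ) ^ y * ((2 : ℝ) ^ y * (2 : ℝ) ^ y) * (2 : ℝ) ^ (8 * ε * J) = (2 : ℝ) ^ (11 * ε * J) := by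
      rw [← Real.rpow_add two_pos, ← Real.rpow_add two_pos, ← Real.rpow_add two_pos]
      congr 1
      rw [hy]; ring
    refine h5.trans ((mul_le_mul_of_nonneg_left h7 (by positivity)).trans (le_of_eq ?_))
    rw [← h9]
    unfold Lb
    ring
  · -- the second claim
    rintro ⟨p₁, p₂, hne, h1, h2⟩ hj
    have key : ∀ p, (2 : ℝ) ^ ((1 - ε) * J) ≤ fs (M₀ p) (jm p) (j₂ p).val →
        (2 : ℝ) ^ ((1 - 2 * ε) * J) ≤ fs (M₀ p) (jm p) (j₁ p).val := by
      intro p hp
      have h3 := hp.trans (fs_le (hM0 p).le _ _ _ (hj p))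
      have h4 : (2 : ℝ) ^ ((1 - ε) * J) = (2 : ℝ) ^ y * (2 : ℝ) ^ ((1 - 2 * ε) * J) := by
        rw [← Real.rpow_add two_pos]
        congr 1
        rw [hy]; ring
      rw [h4] at h3
      exact le_of_mul_le_mul_left h3 (by positivity)
    exact ⟨p₁, p₂, hne, key p₁ h1, key p₂ h2⟩
  · unfold Ac
    have : 0 ≤ ∏ p, fs (M₀ p) (jm p) (j₂ p).val := Finset.prod_nonneg fun p _ => (hfs p _).le
    positivity

end

end STZ3
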