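import Pool.Agent.STZ3.StM

/-!
# AMA: bounds for the symbols and for the coefficients
-/

namespace STZ3

open STZ LGR MeasureTheory Matrix Filter

open scoped ComplexConjugate Matrix Real Topology

noncomputable section

namespace AMA

theorem one {C₂ C₃ M ψ u : ℝ} {m i : ℕ} (hm : 1 ≤ m) (hi : i ≤ 2) (hC₃ : 0 ≤ C₃) (hM : 1 ≤ M)
    (hψ : 0 ≤ ψ) (hψC : ψ ≤ C₂) (hu : 0 ≤ u)
    (h : u ≤ (1 + C₃) * M ∨ ψ * u ^ (2 * m) ≤ C₂ * M ^ (2 * m)) :
    ψ * (1 + u) ^ i ≤ C₂ * (2 + C₃) ^ 2 * M ^ i := by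
  have hC₂ : 0 ≤ C₂ := hψ.trans hψC
  have hMi : 0 ≤ M ^ i := by positivity
  by_cases h1 : u ≤ (1 + C₃) * M
  · have h2 : 1 + u ≤ (2 + C₃) * M := by nlinarith
    calc ψ * (1 + u) ^ i ≤ C₂ * ((2 + C₃) * M) ^ i := by gcongr
      _ = C₂ * (2 + C₃) ^ i * M ^ i := by rw [mul_pow]; ring
      _ ≤ C₂ * (2 + C₃) ^ 2 * M ^ i := by
        gcongr
        linarith
  · have h2 := h.resolve_left h1
    rw [not_le] at h1
    have h3 : M ≤ u := by nlinarith
    have h4 : ψ * u ^ i ≤ C₂ * M ^ i := by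
      have hp : 0 < M ^ (2 * m - i) := by positivity
      have e1 : 2 * m = i + (2 * m - i) := by omega
      refine le_of_mul_le_mul_right ?_ hp
      calc ψ * u ^ i * M ^ (2 * m - i) ≤ ψ * u ^ i * u ^ (2 * m - i) := by gcongr
        _ = ψ * u ^ (2 * m) := by rw [mul_assoc, ← pow_add, ← e1]
        _ ≤ C₂ * M ^ (2 * m) := h2
        _ = C₂ * M ^ i * M ^ (2 * m - i) := by rw [mul_assoc, ← pow_add, ← e1]
    have h5 : 1 + u ≤ 2 * u := by linarith
    calc ψ * (1 + u) ^ i ≤ ψ * (2 * u) ^ i := by gcongr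
      _ = 2 ^ i * (ψ * u ^ i) := by rw [mul_pow]; ring
      _ ≤ 2 ^ i * (C₂ * M ^ i) := by gcongr
      _ ≤ (2 + C₃) ^ 2 * (C₂ * M ^ i) := by
        gcongr
        calc (2 : ℝ) ^ i ≤ 2 ^ 2 := by gcongr; norm_num
          _ ≤ (2 + C₃) ^ 2 := by gcongr; linarith
      _ = C₂ * (2 + C₃) ^ 2 * M ^ i := by ring

theorem pw {ϑ b D M u ψ : ℝ} (hϑ : 0 ≤ ϑ) (hD : 0 ≤ D) (hM : 0 ≤ M)
    (h0 : ψ ≤ D) (h1 : ψ * (1 + u) ≤ D * M) (h2 : ψ * (1 + u) ^ 2 ≤ D * M ^ 2) (hb : ϑ * M ≤ 2 * b)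
    (P Q : Prop) [Decidable P] [Decidable Q] :
    (if P then ϑ * (1 + u) else 1) * (if Q then 1 + u else 1) * ψ ≤
      2 * D * (if P then b else 1) * (if Q then M else 1) := by
  by_cases hP : P <;> by_cases hQ : Q <;> simp only [hP, hQ, if_true, if_false]
  · calc ϑ * (1 + u) * (1 + u) * ψ = ϑ * (ψ * (1 + u) ^ 2) := by ring
      _ ≤ ϑ * (D * M ^ 2) := by gcongr
      _ = D * M * (ϑ * M) := by ring
      _ ≤ D * M * (2 * b) := by gcongr
      _ = 2 * D * b * M := by ring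
  · calc ϑ * (1 + u) * 1 * ψ = ϑ * (ψ * (1 + u)) := by ring
      _ ≤ ϑ * (D * M) := by gcongr
      _ = D * (ϑ * M) := by ring
      _ ≤ D * (2 * b) := by gcongr
      _ = 2 * D * b * 1 := by ring
  · have : 0 ≤ D * M := by positivity
    nlinarith
  · nlinarith

theorem comb {ι : Type} [Fintype ι] [DecidableEq ι] (A B R : Finset ι) {b ϑ D : ℝ} {M u ψ δ : ι → ℝ}
    (hϑ : 0 ≤ ϑ) (hb : 0 ≤ b) (hD : 0 ≤ D) (hM : ∀ p, 0 ≤ M p) (hu : ∀ p, 0 ≤ u p) (hψ : ∀ p, 0 ≤ ψ p)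
    (h0 : ∀ p, ∀ i ≤ 2, ψ p * (1 + u p) ^ i ≤ D * M p ^ i)
    (hbM : ∀ p, ϑ * M p ≤ 2 * b) (h1 : ∀ p, 1 ≤ b * M p) (hδ : ∀ p, 0 ≤ δ p) (hδb : ∀ p, δ p ≤ b)
    (hc : R.card + A.card + B.card = Fintype.card ι) :
    (∏ p ∈ A, (ϑ * u p)) * (∏ p ∈ Rᶜ, (1 + u p)) * (∏ p, ψ p) * ∏ p ∈ B, δ p ≤
      (2 * D) ^ Fintype.card ι * ∏ p, (b * M p) := by
  have e1 : (∏ p ∈ A, (ϑ * u p)) ≤ ∏ p, (if p ∈ A then ϑ * (1 + u p) else 1) := by
    rw [Finset.prod_ite_mem, Finset.univ_inter]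
    refine Finset.prod_le_prod (fun p _ => mul_nonneg hϑ (hu p)) fun p _ => ?_
    exact mul_le_mul_of_nonneg_left (by linarith) hϑ
  have e2 : (∏ p ∈ Rᶜ, (1 + u p)) = ∏ p, (if p ∈ Rᶜ then 1 + u p else 1) := by
    rw [Finset.prod_ite_mem, Finset.univ_inter]
  have e3 : ∏ p ∈ B, δ p ≤ b ^ B.card := by
    rw [← Finset.prod_const]
    exact Finset.prod_le_prod (fun p _ => hδ p) fun p _ => hδb p
  have hψp : 0 ≤ ∏ p, ψ p := Finset.prod_nonneg fun p _ => hψ p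
  have hRp : 0 ≤ ∏ p ∈ Rᶜ, (1 + u p) := Finset.prod_nonneg fun p _ => by linarith [hu p]
  have e4 : (∏ p, (if p ∈ A then ϑ * (1 + u p) else 1)) * (∏ p ∈ Rᶜ, (1 + u p)) * (∏ p, ψ p) ≤
      (2 * D) ^ Fintype.card ι * b ^ A.card * ∏ p ∈ Rᶜ, M p := by
    rw [e2, ← Finset.prod_mul_distrib, ← Finset.prod_mul_distrib]
    calc _ ≤ ∏ p : ι, (2 * D * (if p ∈ A then b else 1) * (if p ∈ Rᶜ then M p else 1)) := by
          refine Finset.prod_le_prod (fun p _ => ?_) fun p _ => ?_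
          · have := hu p
            have h3 : 0 ≤ (if p ∈ A then ϑ * (1 + u p) else 1) := by split_ifs <;> positivity
            have h4 : 0 ≤ (if p ∈ Rᶜ then (1 + u p) else 1) := by split_ifs <;> positivity
            exact mul_nonneg (mul_nonneg h3 h4) (hψ p)
          · refine pw hϑ hD (hM p) ?_ ?_ (h0 p 2 le_rfl) (hbM p) _ _
            · simpa using h0 p 0 (by norm_num)
            · simpa using h0 p 1 (by norm_num)
      _ = _ := by
        rw [Finset.prod_mul_distrib, Finset.prod_mul_distrib, Finset.prod_ite_mem, Finset.prod_ite_mem,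
          Finset.univ_inter, Finset.univ_inter, Finset.prod_const, Finset.prod_const, Finset.card_univ]
  have hMR : 0 ≤ ∏ p ∈ Rᶜ, M p := Finset.prod_nonneg fun p _ => hM p
  have hR1 : 1 ≤ ∏ p ∈ R, (b * M p) := by
    calc (1 : ℝ) = ∏ p ∈ R, 1 := by simp
      _ ≤ _ := Finset.prod_le_prod (fun p _ => zero_le_one) fun p _ => h1 p
  have hRc : 0 ≤ ∏ p ∈ Rᶜ, (b * M p) := Finset.prod_nonneg fun p _ => mul_nonneg hb (hM p)
  have hcR : A.card + B.card = Rᶜ.card := by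
    rw [Finset.card_compl]; omega
  calc _ ≤ (∏ p, (if p ∈ A then ϑ * (1 + u p) else 1)) * (∏ p ∈ Rᶜ, (1 + u p)) * (∏ p, ψ p) * b ^ B.card := by
        have : 0 ≤ ∏ p, (if p ∈ A then ϑ * (1 + u p) else 1) :=
          Finset.prod_nonneg fun p _ => by have := hu p; split_ifs <;> positivity
        have h5 : 0 ≤ ∏ p ∈ B, δ p := Finset.prod_nonneg fun p _ => hδ p
        gcongr
    _ ≤ ((2 * D) ^ Fintype.card ι * b ^ A.card * ∏ p ∈ Rᶜ, M p) * b ^ B.card := by gcongr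
    _ = (2 * D) ^ Fintype.card ι * ∏ p ∈ Rᶜ, (b * M p) := by
      rw [Finset.prod_mul_distrib, Finset.prod_const, ← hcR, pow_add]; ring
    _ ≤ (2 * D) ^ Fintype.card ι * ((∏ p ∈ Rᶜ, (b * M p)) * ∏ p ∈ R, (b * M p)) := by
      have : 0 ≤ (2 * D) ^ Fintype.card ι := by positivity
      exact mul_le_mul_of_nonneg_left (le_mul_of_one_le_right hRc hR1) this
    _ = _ := by rw [Finset.prod_compl_mul_prod]

end AMA

open AMA in
theorem t_AMA : M_AMA := by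
  intro PRM LEB LED r Φ B hr hI hW m C₁ C₂ C₃ hm hC hC₂ hC₃
  obtain ⟨CB, hCB, hB⟩ := LEB r Φ
  obtain ⟨CD, hCD, hD⟩ := LED r Φ B hr hI hW C₃ hC₃
  have hP := PRM r Φ B hr hI hW
  have hC₁ : 0 ≤ C₁ := by
    refine le_trans ?_ (hC.abs 0 0 0 le_rfl)
    positivity
  set n := Fintype.card {p // p ∈ pos Φ} with hn
  set D := C₂ * (2 + C₃) ^ 2 with hDd
  have hD0 : 0 ≤ D := by positivity
  refine ⟨CD * CB * (2 ^ n * (2 * D) ^ n) + C₁ ^ n, by positivity, ?_⟩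
  intro J x M₀ jm ψ ν₁ ν₂ fp f
  have hb0 : 0 < bx' x := lt_of_lt_of_le (by positivity) (hP.bge J x)
  have hX : (0 : ℝ) < 2 ^ J := by positivity
  have hth : 0 < th x := hP.tpos J x
  have hsq : 0 < √(th x) := Real.sqrt_pos.2 hth
  have hth1 : th x ≤ 1 := (hP.tle J x).trans (by
    rw [div_le_one hX]; exact one_le_pow₀ (by norm_num))
  have hM0 : 1 ≤ M₀ := by
    rw [fp.m0, le_div_iff₀ hsq, one_mul]
    exact Real.sqrt_le_one.2 hth1
  have hbM0 : 1 ≤ bx' x * M₀ := by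
    rw [fp.m0, mul_one_div, le_div_iff₀ hsq, one_mul]
    rw [Real.sqrt_le_left hb0.le]
    unfold th
    rw [div_le_iff₀ hX]
    have := hP.bge J x
    rw [div_le_iff₀ hX] at this
    nlinarith
  have hfs : ∀ j : ℕ, M₀ ≤ fs M₀ jm j := fun j => by
    unfold fs
    exact le_mul_of_one_le_left (by linarith) (one_le_pow₀ (by norm_num))
  have hfs2 : ∀ j : ℕ, fs M₀ jm j ≤ 2 * 2 ^ J := fun j => by
    refine le_trans ?_ fp.hi
    unfold fs
    gcongr
    · norm_num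
    · exact min_le_right _ _
  constructor
  · intro jj l hl
    have hϑu : ∀ p : {p // p ∈ pos Φ}, th x * |((p.1.2 ⬝ᵥ l : ℤ) : ℝ)| ≤ C₃ := fun p => by
      calc th x * |((p.1.2 ⬝ᵥ l : ℤ) : ℝ)| ≤ th x * (C₃ * 2 ^ J) := by gcongr; exact hl p
        _ = C₃ * bx' x := by unfold th; field_simp
        _ ≤ C₃ * 1 := by gcongr; exact hP.ble J x
        _ = C₃ := mul_one _
    have h1 := hD (th x) (fc f 0) l hth.le hth1 hϑu
    have h2 := hB f l
    have hW1 : |1 / ((WF Φ).card : ℝ)| ≤ 1 := by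
      rw [abs_of_nonneg (by positivity)]
      rcases Nat.eq_zero_or_pos (WF Φ).card with h | h
      · rw [h]; simp
      · rw [div_le_one (by exact_mod_cast h)]
        exact_mod_cast h
    have hcard : (fc f 0).card + (fc f 1).card + (fc f 2).card = n := by
      have h3 : n = ∑ i : Fin 3, (fc f i).card := by
        rw [hn, ← Finset.card_univ]
        exact Finset.card_eq_sum_card_fiberwise (fun p _ => Finset.mem_coe.2 (Finset.mem_univ (f p)))
      rw [h3, Fin.sum_univ_three]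
    have hone : ∀ p : {p // p ∈ pos Φ}, ∀ i ≤ 2,
        |ψ p (jj p) (p.1.2 ⬝ᵥ l)| * (1 + |((p.1.2 ⬝ᵥ l : ℤ) : ℝ)|) ^ i ≤ D * fs M₀ jm (jj p).val ^ i := by
      intro p i hi
      refine one hm hi hC₃ (hM0.trans (hfs _)) (abs_nonneg _) (fp.fcf.bd p (jj p) _) (abs_nonneg _) ?_
      by_cases hj : (jj p).val ≤ jm
      · exact Or.inr (fp.fcf.hi p (jj p) _ hj)
      · left
        have h3 : fs M₀ jm (jj p).val = 2 ^ jm * M₀ := by
          unfold fs; rw [min_eq_right (by omega)]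
        rw [h3]
        calc |((p.1.2 ⬝ᵥ l : ℤ) : ℝ)| ≤ C₃ * 2 ^ J := hl p
          _ ≤ C₃ * (2 ^ jm * M₀) := by gcongr; exact fp.lo
          _ ≤ (1 + C₃) * (2 ^ jm * M₀) := by
            gcongr
            linarith
    have hψ0 : 0 ≤ ∏ p : {p // p ∈ pos Φ}, |ψ p (jj p) (p.1.2 ⬝ᵥ l)| := Finset.prod_nonneg fun p _ => abs_nonneg _
    have hδ0 : 0 ≤ ∏ p ∈ fc f 2, dl x p := Finset.prod_nonneg fun p _ => (hP.dpos J x p).le
    have hA0 : 0 ≤ ∏ p ∈ fc f 0, (th x * |((p.1.2 ⬝ᵥ l : ℤ) : ℝ)|) :=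
      Finset.prod_nonneg fun p _ => by positivity
    have hR : ∀ R ∈ (Finset.univ : Finset {p // p ∈ pos Φ}).powerset.filter (fun R => R.card = (fc f 1).card),
        (∏ p ∈ fc f 0, (th x * |((p.1.2 ⬝ᵥ l : ℤ) : ℝ)|)) * (∏ p ∈ Rᶜ, (1 + |((p.1.2 ⬝ᵥ l : ℤ) : ℝ)|)) *
          (∏ p, |ψ p (jj p) (p.1.2 ⬝ᵥ l)|) * ∏ p ∈ fc f 2, dl x p ≤
        (2 * D) ^ n * ∏ p, (bx' x * fs M₀ jm (jj p).val) := by
      intro R hR
      have hRc := (Finset.mem_filter.1 hR).2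
      refine comb (fc f 0) (fc f 2) R hth.le hb0.le hD0 (fun p => by linarith [hfs (jj p).val]) (fun p => abs_nonneg _)
        (fun p => abs_nonneg _) hone (fun p => ?_) (fun p => ?_) (fun p => (hP.dpos J x p).le) (hP.dle J x) (by omega)
      · calc th x * fs M₀ jm (jj p).val ≤ th x * (2 * 2 ^ J) := by gcongr; exact hfs2 _
          _ = 2 * bx' x := by unfold th; field_simp
      · exact hbM0.trans (mul_le_mul_of_nonneg_left (hfs _) hb0.le)
    have hfin : 0 ≤ ∏ p : {p // p ∈ pos Φ}, (bx' x * fs M₀ jm (jj p).val) :=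
      Finset.prod_nonneg fun p _ => mul_nonneg hb0.le (by linarith [hfs (jj p).val])
    have habs : |am Φ (th x) f l * pj' ψ jj l| ≤
        (CD * ∏ p ∈ fc f 0, (th x * |((p.1.2 ⬝ᵥ l : ℤ) : ℝ)|)) *
        (CB * ∑ R ∈ (Finset.univ : Finset {p // p ∈ pos Φ}).powerset.filter (fun R => R.card = (fc f 1).card),
          ∏ p ∈ Rᶜ, (1 + |((p.1.2 ⬝ᵥ l : ℤ) : ℝ)|)) * ∏ p, |ψ p (jj p) (p.1.2 ⬝ᵥ l)| := by
      unfold am pj'
      rw [abs_mul, Finset.abs_prod, abs_mul, abs_mul]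
      refine mul_le_mul_of_nonneg_right ?_ hψ0
      calc _ ≤ 1 * ((CD * ∏ p ∈ fc f 0, (th x * |((p.1.2 ⬝ᵥ l : ℤ) : ℝ)|)) *
        (CB * ∑ R ∈ (Finset.univ : Finset {p // p ∈ pos Φ}).powerset.filter (fun R => R.card = (fc f 1).card),
          ∏ p ∈ Rᶜ, (1 + |((p.1.2 ⬝ᵥ l : ℤ) : ℝ)|))) :=
            mul_le_mul hW1 (mul_le_mul h1 h2 (abs_nonneg _) (by positivity)) (by positivity) zero_le_one
        _ = _ := one_mul _
    calc |am Φ (th x) f l * pj' ψ jj l| * ∏ p ∈ fc f 2, dl x p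
        ≤ ((CD * ∏ p ∈ fc f 0, (th x * |((p.1.2 ⬝ᵥ l : ℤ) : ℝ)|)) *
          (CB * ∑ R ∈ (Finset.univ : Finset {p // p ∈ pos Φ}).powerset.filter (fun R => R.card = (fc f 1).card),
          ∏ p ∈ Rᶜ, (1 + |((p.1.2 ⬝ᵥ l : ℤ) : ℝ)|)) * ∏ p, |ψ p (jj p) (p.1.2 ⬝ᵥ l)|) * ∏ p ∈ fc f 2, dl x p :=
          mul_le_mul_of_nonneg_right habs hδ0
      _ = CD * CB * ∑ R ∈ (Finset.univ : Finset {p // p ∈ pos Φ}).powerset.filter (fun R => R.card = (fc f 1).card),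
          ((∏ p ∈ fc f 0, (th x * |((p.1.2 ⬝ᵥ l : ℤ) : ℝ)|)) * (∏ p ∈ Rᶜ, (1 + |((p.1.2 ⬝ᵥ l : ℤ) : ℝ)|)) *
          (∏ p, |ψ p (jj p) (p.1.2 ⬝ᵥ l)|) * ∏ p ∈ fc f 2, dl x p) := by
        rw [← Finset.sum_mul, ← Finset.sum_mul, ← Finset.mul_sum]; ring
      _ ≤ CD * CB * ∑ R ∈ (Finset.univ : Finset {p // p ∈ pos Φ}).powerset.filter (fun R => R.card = (fc f 1).card),
          ((2 * D) ^ n * ∏ p, (bx' x * fs M₀ jm (jj p).val)) := by
        exact mul_le_mul_of_nonneg_left (Finset.sum_le_sum hR) (by positivity)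
      _ ≤ CD * CB * (2 ^ n * ((2 * D) ^ n * ∏ p, (bx' x * fs M₀ jm (jj p).val))) := by
        rw [Finset.sum_const, nsmul_eq_mul]
        have h4 : ((((Finset.univ : Finset {p // p ∈ pos Φ}).powerset.filter
            (fun R => R.card = (fc f 1).card)).card : ℕ) : ℝ) ≤ 2 ^ n := by
          have h5 := Finset.card_filter_le (Finset.univ : Finset {p // p ∈ pos Φ}).powerset
            (fun R => R.card = (fc f 1).card)
          rw [Finset.card_powerset, Finset.card_univ] at h5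
          exact_mod_cast h5
        gcongr
      _ = CD * CB * (2 ^ n * (2 * D) ^ n) * ∏ p, (bx' x * fs M₀ jm (jj p).val) := by ring
      _ ≤ (CD * CB * (2 ^ n * (2 * D) ^ n) + C₁ ^ n) * ∏ p, (bx' x * fs M₀ jm (jj p).val) := by
        gcongr
        have : 0 ≤ C₁ ^ n := by positivity
        linarith
  · intro K
    have hδ0 : 0 ≤ ∏ p ∈ fc f 2, dl x p := Finset.prod_nonneg fun p _ => (hP.dpos J x p).le
    have e1 : ∑ k ∈ kB Φ K, ‖cx m J x f k‖ = ∏ p : {p // p ∈ pos Φ}, ∑ k ∈ Finset.Icc (-(K : ℤ)) K,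
        ‖if f p = 2 then cf m J (x p).val k - cf m J (x p).val (k - 1) else cf m J (x p).val k‖ := by
      unfold kB cx
      rw [Finset.prod_univ_sum]
      exact Finset.sum_congr rfl fun k _ => norm_prod _ _
    have e2 : ∏ p ∈ fc f 2, dl x p = ∏ p : {p // p ∈ pos Φ}, if f p = 2 then dl x p else 1 := by
      unfold fc
      rw [Finset.prod_filter]
    calc ∑ k ∈ kB Φ K, ‖cx m J x f k‖ ≤ ∏ p : {p // p ∈ pos Φ}, (C₁ * if f p = 2 then dl x p else 1) := by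
          rw [e1]
          refine Finset.prod_le_prod (fun p _ => Finset.sum_nonneg fun k _ => norm_nonneg _) fun p _ => ?_
          have hx : (x p).val ≤ J := by omega
          by_cases h2 : f p = 2
          · simp only [h2, if_true]
            have := hC.var J (x p).val K hx
            unfold dl
            rw [mul_one_div]
            exact this
          · simp only [h2, if_false]
            rw [mul_one]
            exact hC.abs J (x p).val K hx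
      _ = C₁ ^ n * ∏ p ∈ fc f 2, dl x p := by
        rw [Finset.prod_mul_distrib, Finset.prod_const, Finset.card_univ, e2]
      _ ≤ (CD * CB * (2 ^ n * (2 * D) ^ n) + C₁ ^ n) * ∏ p ∈ fc f 2, dl x p := by
        gcongr
        have : 0 ≤ CD * CB * (2 ^ n * (2 * D) ^ n) := by positivity
        linarith

end

end STZ3
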