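import Pool.Agent.STZ3.StM

/-!
# AMB: bounds for the weights of the frequency cutoffs
-/

set_option autoImplicit false

namespace STZ3

open STZ LGR MeasureTheory Matrix Filter

open scoped ComplexConjugate Matrix Real Topology

noncomputable section

namespace AMB

/-- one factor, small frequencies -/
theorem fac {C a ϑ M u : ℝ} {m : ℕ} (hm : 1 ≤ m) (hC : 0 ≤ C) (hϑ : 0 < ϑ) (hM : 0 < M)
    (hb : |a| ≤ C) (hlo : ϑ * M ^ 2 = 1 ∨ |a| * M ^ (2 * m) ≤ C * |u| ^ (2 * m)) :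
    a ^ 2 * (1 + ϑ * M ^ 2) ≤ 2 * C ^ 2 * (1 + ϑ * u ^ 2) := by
  have ha2 : a ^ 2 ≤ C ^ 2 := by
    rw [← sq_abs]
    exact pow_le_pow_left₀ (abs_nonneg a) hb 2
  have hu : 0 ≤ ϑ * u ^ 2 := mul_nonneg hϑ.le (sq_nonneg u)
  have hC2 : 0 ≤ C ^ 2 := sq_nonneg C
  rcases hlo with h1 | h1
  · rw [h1]
    nlinarith
  · by_cases hMu : M ≤ |u|
    · have h2 : M ^ 2 ≤ u ^ 2 := by
        rw [← sq_abs u]
        exact pow_le_pow_left₀ hM.le hMu 2
      have h3 : 1 + ϑ * M ^ 2 ≤ 1 + ϑ * u ^ 2 := by nlinarith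
      have h4 : 0 ≤ 1 + ϑ * M ^ 2 := by positivity
      calc a ^ 2 * (1 + ϑ * M ^ 2) ≤ C ^ 2 * (1 + ϑ * M ^ 2) := mul_le_mul_of_nonneg_right ha2 h4
        _ ≤ C ^ 2 * (1 + ϑ * u ^ 2) := mul_le_mul_of_nonneg_left h3 hC2
        _ ≤ 2 * C ^ 2 * (1 + ϑ * u ^ 2) := by nlinarith
    · push Not at hMu
      have hr0 : 0 ≤ |u| / M := div_nonneg (abs_nonneg u) hM.le
      have hr1 : |u| / M ≤ 1 := (div_le_one hM).2 hMu.le
      have h2 : |a| ≤ C * (|u| / M) ^ (2 * m) := by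
        rw [div_pow, mul_div_assoc', le_div_iff₀ (pow_pos hM _)]
        exact h1
      have h3 : (|u| / M) ^ (2 * m) ≤ |u| / M := by
        calc (|u| / M) ^ (2 * m) ≤ (|u| / M) ^ 1 := pow_le_pow_of_le_one hr0 hr1 (by omega)
          _ = |u| / M := pow_one _
      have h4 : |a| ≤ C * (|u| / M) := h2.trans (mul_le_mul_of_nonneg_left h3 hC)
      have h5 : a ^ 2 ≤ C ^ 2 * (u ^ 2 / M ^ 2) := by
        rw [← sq_abs a, ← sq_abs u, ← div_pow, ← mul_pow]
        exact pow_le_pow_left₀ (abs_nonneg a) h4 2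
      have h6 : 0 ≤ 1 + ϑ * M ^ 2 := by positivity
      have h7 : u ^ 2 / M ^ 2 ≤ 1 := by
        rw [← sq_abs u, ← div_pow]
        exact pow_le_one₀ hr0 hr1
      have h8 : u ^ 2 / M ^ 2 * (1 + ϑ * M ^ 2) = u ^ 2 / M ^ 2 + ϑ * u ^ 2 := by
        field_simp
      calc a ^ 2 * (1 + ϑ * M ^ 2) ≤ C ^ 2 * (u ^ 2 / M ^ 2) * (1 + ϑ * M ^ 2) :=
            mul_le_mul_of_nonneg_right h5 h6
        _ = C ^ 2 * (u ^ 2 / M ^ 2 + ϑ * u ^ 2) := by rw [mul_assoc, h8]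
        _ ≤ C ^ 2 * (1 + ϑ * u ^ 2) := mul_le_mul_of_nonneg_left (by linarith) hC2
        _ ≤ 2 * C ^ 2 * (1 + ϑ * u ^ 2) := by nlinarith

theorem fs_pos {M₀ : ℝ} (h : 0 < M₀) (jm j : ℕ) : 0 < fs M₀ jm j := by
  unfold fs
  positivity

theorem fs_le {M₀ : ℝ} (h : 0 < M₀) (jm j : ℕ) : fs M₀ jm j ≤ 2 ^ jm * M₀ := by
  unfold fs
  exact mul_le_mul_of_nonneg_right (pow_le_pow_right₀ (by norm_num) (min_le_right _ _)) h.le

theorem fs_cmp {M₀ L : ℝ} (h : 0 < M₀) (hL : 0 ≤ L) (jm j j' : ℕ) (hj : |(j : ℝ) - j'| ≤ L) :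
    fs M₀ jm j ^ 2 ≤ (4 : ℝ) ^ L * fs M₀ jm j' ^ 2 := by
  have h1 : ((min j jm : ℕ) : ℝ) ≤ (min j' jm : ℕ) + L := by
    have h2 := (abs_le.1 hj).2
    rcases le_total j' jm with h3 | h3
    · rw [min_eq_left h3]
      have : ((min j jm : ℕ) : ℝ) ≤ j := by exact_mod_cast min_le_left j jm
      linarith
    · rw [min_eq_right h3]
      have : ((min j jm : ℕ) : ℝ) ≤ jm := by exact_mod_cast min_le_right j jm
      linarith
  have h2 : (2 : ℝ) ^ (min j jm) ≤ (2 : ℝ) ^ L * 2 ^ (min j' jm) := by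
    rw [← Real.rpow_natCast, ← Real.rpow_natCast, ← Real.rpow_add (by norm_num)]
    exact Real.rpow_le_rpow_of_exponent_le (by norm_num) (by linarith)
  have h4 : (4 : ℝ) ^ L = ((2 : ℝ) ^ L) ^ 2 := by
    rw [← Real.rpow_natCast, ← Real.rpow_mul (by norm_num), mul_comm, Real.rpow_mul (by norm_num)]
    norm_num
  unfold fs
  rw [h4, ← mul_pow, ← mul_assoc]
  exact pow_le_pow_left₀ (by positivity) (mul_le_mul_of_nonneg_right h2 h.le) 2

end AMB

theorem t_AMB : M_AMB := by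
  intro hPRM r Φ B hr hI hW m C₂ hm hC₂
  have hP := hPRM r Φ B hr hI hW
  refine ⟨(2 * C₂ ^ 2) ^ (pos Φ).card, by positivity, ?_⟩
  intro J x M₀ jm ψ ν₁ ν₂ hFP jj
  have hϑ : 0 < th x := hP.tpos J x
  have hsq : 0 < √(th x) := Real.sqrt_pos.2 hϑ
  have hM₀ : 0 < M₀ := by
    rw [hFP.m0]
    positivity
  have hϑM : th x * M₀ ^ 2 = 1 := by
    rw [hFP.m0, div_pow, one_pow, Real.sq_sqrt hϑ.le]
    field_simp
  have hcard : Fintype.card {p // p ∈ pos Φ} = (pos Φ).card := Fintype.card_coe _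
  have hM : ∀ j : ℕ, 0 < fs M₀ jm j := AMB.fs_pos hM₀ jm
  have hone : ∀ j : ℕ, 0 < 1 + th x * fs M₀ jm j ^ 2 := by
    intro j
    have := hM j
    positivity
  have hb0 : 0 < bx' x := lt_of_lt_of_le (by positivity) (hP.bge J x)
  refine ⟨?_, ?_, ?_, ?_, ?_⟩
  · intro l
    have h1 : ∀ p : {p // p ∈ pos Φ}, ψ p (jj p) (p.1.2 ⬝ᵥ l) ^ 2 ≤
        (2 * C₂ ^ 2) * (1 / (1 + th x * fs M₀ jm (jj p).val ^ 2)) *
          (1 + th x * ((p.1.2 ⬝ᵥ l : ℤ) : ℝ) ^ 2) := by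
      intro p
      have h2 := AMB.fac (a := ψ p (jj p) (p.1.2 ⬝ᵥ l)) (u := ((p.1.2 ⬝ᵥ l : ℤ) : ℝ))
        (M := fs M₀ jm (jj p).val) hm hC₂ hϑ (hM _) (hFP.fcf.bd p (jj p) _) (by
          rcases Nat.eq_zero_or_pos (jj p).val with h0 | h0
          · left
            rw [h0]
            unfold fs
            rw [Nat.zero_min, pow_zero, one_mul]
            exact hϑM
          · right
            exact hFP.fcf.lo p (jj p) _ h0)
      have h3 : (2 * C₂ ^ 2) * (1 / (1 + th x * fs M₀ jm (jj p).val ^ 2)) *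
          (1 + th x * ((p.1.2 ⬝ᵥ l : ℤ) : ℝ) ^ 2) = (2 * C₂ ^ 2 *
          (1 + th x * ((p.1.2 ⬝ᵥ l : ℤ) : ℝ) ^ 2)) / (1 + th x * fs M₀ jm (jj p).val ^ 2) := by
        ring
      rw [h3, le_div_iff₀ (hone _)]
      exact h2
    unfold pj'
    rw [← Finset.prod_pow]
    refine (Finset.prod_le_prod (fun p _ => sq_nonneg _) fun p _ => h1 p).trans (le_of_eq ?_)
    rw [Finset.prod_mul_distrib, Finset.prod_mul_distrib, Finset.prod_const, Finset.card_univ,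
      hcard, Finset.prod_coe_sort (pos Φ) (fun p => 1 + th x * ((p.2 ⬝ᵥ l : ℤ) : ℝ) ^ 2)]
  · have h1 : 0 ≤ ∏ p, (bx' x * fs M₀ jm (jj p).val) :=
      Finset.prod_nonneg fun p _ => (mul_pos hb0 (hM _)).le
    have h2 : (∏ p, (bx' x * fs M₀ jm (jj p).val)) *
        √(∏ p, 1 / (1 + th x * fs M₀ jm (jj p).val ^ 2)) =
        √(∏ p, ((bx' x * fs M₀ jm (jj p).val) ^ 2 * (1 / (1 + th x * fs M₀ jm (jj p).val ^ 2)))) := by
      rw [Finset.prod_mul_distrib (f := fun p => (bx' x * fs M₀ jm (jj p).val) ^ 2),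
        Finset.prod_pow, Real.sqrt_mul (sq_nonneg _), Real.sqrt_sq h1]
    rw [h2]
    have h3 : ∏ p : {p // p ∈ pos Φ}, ((bx' x * fs M₀ jm (jj p).val) ^ 2 *
        (1 / (1 + th x * fs M₀ jm (jj p).val ^ 2))) ≤ (2 ^ J * bx' x) ^ (pos Φ).card := by
      rw [← hcard, ← Finset.card_univ, ← Finset.prod_const]
      refine Finset.prod_le_prod (fun p _ => ?_) fun p _ => ?_
      · have := hone (jj p).val
        positivity
      · rw [mul_one_div, div_le_iff₀ (hone _)]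
        have h4 : 2 ^ J * th x = bx' x := by
          unfold th
          field_simp
        have h5 : (2 : ℝ) ^ J * bx' x * (1 + th x * fs M₀ jm (jj p).val ^ 2) =
            2 ^ J * bx' x + (bx' x * fs M₀ jm (jj p).val) ^ 2 := by
          have h6 : (2 : ℝ) ^ J * bx' x * (1 + th x * fs M₀ jm (jj p).val ^ 2) =
            2 ^ J * bx' x + bx' x * (2 ^ J * th x) * fs M₀ jm (jj p).val ^ 2 := by ring
          rw [h6, h4]
          ring
        rw [h5]
        have : 0 < (2 : ℝ) ^ J * bx' x := by positivity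
        linarith
    refine (Real.sqrt_le_sqrt h3).trans (le_of_eq ?_)
    have h7 : 0 ≤ (2 : ℝ) ^ J * bx' x := by positivity
    rw [Real.sqrt_eq_rpow, ← Real.rpow_natCast, ← Real.rpow_mul h7]
    congr 1
    ring
  · apply Finset.prod_le_one
    · intro p _
      have := hone (jj p).val
      positivity
    · intro p _
      rw [div_le_one (hone _)]
      have := hM (jj p).val
      have : 0 ≤ th x * fs M₀ jm (jj p).val ^ 2 := by positivity
      linarith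
  · have h1 : (2 : ℝ) ^ (-(2 * (pos Φ).card * J : ℝ)) = (1 / (2 : ℝ) ^ (2 * J)) ^ (pos Φ).card := by
      rw [Real.rpow_neg (by norm_num), one_div, inv_pow, ← pow_mul, ← Real.rpow_natCast]
      congr 2
      push_cast
      ring
    rw [h1, ← _root_.one_div_pow, ← mul_pow, ← hcard, ← Finset.card_univ, ← Finset.prod_const]
    refine Finset.prod_le_prod (fun p _ => by positivity) fun p _ => ?_
    rw [div_mul_div_comm, one_mul]
    apply one_div_le_one_div_of_le (hone _)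
    have h2 : fs M₀ jm (jj p).val ≤ 2 * 2 ^ J := (AMB.fs_le hM₀ jm _).trans hFP.hi
    have h3 : fs M₀ jm (jj p).val ^ 2 ≤ (2 * 2 ^ J) ^ 2 := pow_le_pow_left₀ (hM _).le h2 2
    have h4 : th x ≤ 1 / 2 ^ J := hP.tle J x
    have h5 : th x ≤ 1 := h4.trans (by
      rw [div_le_one (by positivity)]
      exact one_le_pow₀ (by norm_num))
    have h6 : th x * fs M₀ jm (jj p).val ^ 2 ≤ 1 * (2 * 2 ^ J) ^ 2 :=
      mul_le_mul h5 h3 (sq_nonneg _) zero_le_one
    have h7 : (1 : ℝ) ≤ 2 ^ (2 * J) := one_le_pow₀ (by norm_num)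
    have h8 : ((2 : ℝ) * 2 ^ J) ^ 2 = 4 * 2 ^ (2 * J) := by
      rw [mul_pow, ← pow_mul, mul_comm J 2]
      norm_num
    rw [h8] at h6
    linarith
  · intro j' L hL hj
    have h0 : (4 : ℝ) ^ (L * (pos Φ).card) = ((4 : ℝ) ^ L) ^ (pos Φ).card := by
      rw [Real.rpow_mul (by norm_num), Real.rpow_natCast]
    rw [h0, ← hcard, ← Finset.card_univ, ← Finset.prod_const, ← Finset.prod_mul_distrib]
    refine Finset.prod_le_prod (fun p _ => ?_) fun p _ => ?_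
    · have := hone (j' p).val
      positivity
    · rw [mul_one_div, div_le_div_iff₀ (hone _) (hone _), one_mul]
      have h1 := AMB.fs_cmp hM₀ hL jm (jj p).val (j' p).val (hj p)
      have h2 : (1 : ℝ) ≤ (4 : ℝ) ^ L := Real.one_le_rpow (by norm_num) hL
      have h3 := mul_le_mul_of_nonneg_left h1 hϑ.le
      linarith

end

end STZ3
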