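import Pool.Agent.STZ3.StD3

/-!
# AMC: bounds for the symbols and for the coefficients of the chain packets
-/

namespace STZ3

open STZ LGR MeasureTheory Matrix Filter

open scoped ComplexConjugate Matrix Real Topology

noncomputable section

namespace AMC

theorem one {C₂ C₃ M ψ u : ℝ} {m i : ℕ} (hm : 1 ≤ m) (hi : i ≤ 2) (hC₃ : 0 ≤ C₃) (hM : 1 ≤ M)
    (hψ : 0 ≤ ψ) (hψC : ψ ≤ C₂) (hu : 0 ≤ u)
    (h : u ≤ (1 + C₃) * M ∨ ψ * u ^ (2 * m) ≤ C₂ * M ^ (2 * m)) :
    ψ * (1 + u) ^ i ≤ C₂ * (2 + C₃) ^ 2 * M ^ i := by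
  have hC₂ : 0 ≤ C₂ := hψ.trans hψC
  have hMi : 0 ≤ M ^ i := by positivity
  by_cases h1 : u ≤ (1 + C₃) * M
  · have h2 : 1 + u ≤ (2 + C₃) * M := by nlinarith
    calc ψ * (1 + u) ^ i ≤ C₂ * ((2 + C₃) * M) ^ i := by gcongr
      _ = C₂ * (2 + C₃) ^ i * M ^ i := by rw [mul_pow]; ring
      _ ≤ C₂ * (2 + C₃) ^ 2 * M ^ i := by
        gcongr
        linarith
  · have h2 := h.resolve_left h1
    rw [not_le] at h1
    have h3 : M ≤ u := by nlinarith
    have h4 : ψ * u ^ i ≤ C₂ * M ^ i := by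
      have hp : 0 < M ^ (2 * m - i) := by positivity
      have e1 : 2 * m = i + (2 * m - i) := by omega
      refine le_of_mul_le_mul_right ?_ hp
      calc ψ * u ^ i * M ^ (2 * m - i) ≤ ψ * u ^ i * u ^ (2 * m - i) := by gcongr
        _ = ψ * u ^ (2 * m) := by rw [mul_assoc, ← pow_add, ← e1]
        _ ≤ C₂ * M ^ (2 * m) := h2
        _ = C₂ * M ^ i * M ^ (2 * m - i) := by rw [mul_assoc, ← pow_add, ← e1]
    have h5 : 1 + u ≤ 2 * u := by linarith
    calc ψ * (1 + u) ^ i ≤ ψ * (2 * u) ^ i := by gcongr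
      _ = 2 ^ i * (ψ * u ^ i) := by rw [mul_pow]; ring
      _ ≤ 2 ^ i * (C₂ * M ^ i) := by gcongr
      _ ≤ (2 + C₃) ^ 2 * (C₂ * M ^ i) := by
        gcongr
        calc (2 : ℝ) ^ i ≤ 2 ^ 2 := by gcongr; norm_num
          _ ≤ (2 + C₃) ^ 2 := by gcongr; linarith
      _ = C₂ * (2 + C₃) ^ 2 * M ^ i := by ring


theorem comb {ι : Type} [Fintype ι] [DecidableEq ι] (R : Finset ι) {D : ℝ} {M u ψ : ι → ℝ}
    (hu : ∀ p, 0 ≤ u p) (hψ : ∀ p, 0 ≤ ψ p)
    (h0 : ∀ p, ∀ i ≤ 2, ψ p * (1 + u p) ^ i ≤ D * M p ^ i) :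
    (∏ p ∈ Rᶜ, (1 + u p)) * (∏ p, ψ p) ≤ D ^ Fintype.card ι * ∏ p ∈ Rᶜ, M p := by
  have e2 : (∏ p ∈ Rᶜ, (1 + u p)) = ∏ p, (if p ∈ Rᶜ then 1 + u p else 1) := by
    rw [Finset.prod_ite_mem, Finset.univ_inter]
  rw [e2, ← Finset.prod_mul_distrib]
  calc _ ≤ ∏ p : ι, (D * (if p ∈ Rᶜ then M p else 1)) := by
        refine Finset.prod_le_prod (fun p _ => ?_) fun p _ => ?_
        · have := hu p
          have h4 : 0 ≤ (if p ∈ Rᶜ then (1 + u p) else 1) := by split_ifs <;> positivity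
          exact mul_nonneg h4 (hψ p)
        · split_ifs
          · have := h0 p 1 (by norm_num)
            simp only [pow_one] at this
            linarith
          · have := h0 p 0 (by norm_num)
            simpa using this
    _ = _ := by
      rw [Finset.prod_mul_distrib, Finset.prod_ite_mem, Finset.univ_inter, Finset.prod_const, Finset.card_univ]

theorem cmp {ι : Type} [Fintype ι] [DecidableEq ι] (f : ι → Fin 3) (R : Finset ι) {e : ℝ} {M d : ι → ℝ}
    (he : 0 < e) (hd : ∀ p, e ≤ d p) (hM : ∀ p, 1 / e ≤ M p)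
    (hR : R.card = (Finset.univ.filter fun p => f p = 1).card) :
    (∏ p ∈ Finset.univ.filter (fun p => f p = 0), d p) * (∏ p ∈ Finset.univ.filter (fun p => f p = 2), d p) *
      ∏ p ∈ Rᶜ, M p ≤ (∏ p, d p) * ∏ p, M p := by
  have hM0 : ∀ p, 0 ≤ M p := fun p => le_trans (by positivity) (hM p)
  have hd0 : ∀ p, 0 ≤ d p := fun p => he.le.trans (hd p)
  have e1 : ∏ p, d p = (∏ p ∈ Finset.univ.filter (fun p => f p = 0), d p) *
      (∏ p ∈ Finset.univ.filter (fun p => f p = 1), d p) * ∏ p ∈ Finset.univ.filter (fun p => f p = 2), d p := by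
    rw [← Finset.prod_fiberwise Finset.univ f d, Fin.prod_univ_three]
  have e2 : ∏ p, M p = (∏ p ∈ Rᶜ, M p) * ∏ p ∈ R, M p := (Finset.prod_compl_mul_prod R M).symm
  have e3 : e ^ R.card ≤ ∏ p ∈ Finset.univ.filter (fun p => f p = 1), d p := by
    rw [hR, ← Finset.prod_const]
    exact Finset.prod_le_prod (fun p _ => he.le) fun p _ => hd p
  have e4 : (1 / e) ^ R.card ≤ ∏ p ∈ R, M p := by
    rw [← Finset.prod_const]
    exact Finset.prod_le_prod (fun p _ => by positivity) fun p _ => hM p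
  have e5 : 1 ≤ (∏ p ∈ Finset.univ.filter (fun p => f p = 1), d p) * ∏ p ∈ R, M p := by
    calc (1 : ℝ) = e ^ R.card * (1 / e) ^ R.card := by
          rw [← mul_pow, mul_one_div, div_self he.ne', one_pow]
      _ ≤ _ := mul_le_mul e3 e4 (by positivity) (Finset.prod_nonneg fun p _ => hd0 p)
  have hL : 0 ≤ (∏ p ∈ Finset.univ.filter (fun p => f p = 0), d p) *
      (∏ p ∈ Finset.univ.filter (fun p => f p = 2), d p) * ∏ p ∈ Rᶜ, M p :=
    mul_nonneg (mul_nonneg (Finset.prod_nonneg fun p _ => hd0 p) (Finset.prod_nonneg fun p _ => hd0 p))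
      (Finset.prod_nonneg fun p _ => hM0 p)
  rw [e1, e2]
  calc _ ≤ ((∏ p ∈ Finset.univ.filter (fun p => f p = 0), d p) *
      (∏ p ∈ Finset.univ.filter (fun p => f p = 2), d p) * ∏ p ∈ Rᶜ, M p) *
        ((∏ p ∈ Finset.univ.filter (fun p => f p = 1), d p) * ∏ p ∈ R, M p) := le_mul_of_one_le_right hL e5
    _ = _ := by ring

end AMC

open AMC in
theorem t_AMC : M_AMC := by
  intro PRM RGM LEB ESD Φ B hI hW hA m C₁ C₂ C₃ hm hC hC₂ hC₃
  obtain ⟨CB, hCB, hB⟩ := LEB 2 Φ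
  obtain ⟨CD, hCD, hD⟩ := ESD Φ B hI hW hA C₃ hC₃
  have hP := PRM 2 Φ B (by norm_num) hI hW
  have hC₁ : 0 ≤ C₁ := by
    refine le_trans ?_ (hC.abs 0 0 0 le_rfl)
    positivity
  set n := Fintype.card {p // p ∈ pos Φ} with hn
  have hn3 : n = 3 := by rw [hn, Fintype.card_coe]; exact hA.card
  set D := C₂ * (2 + C₃) ^ 2 with hDd
  have hD0 : 0 ≤ D := by positivity
  refine ⟨CD * CB * (2 ^ n * D ^ n) + C₁ ^ n, by positivity, ?_⟩
  intro ε J a x R₀ M₀ jm L ψ ν₁ ν₂ hε hRG fp f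
  have hb0 : 0 < bx' x := lt_of_lt_of_le (by positivity) (hP.bge J x)
  have hX : (0 : ℝ) < 2 ^ J := by positivity
  have hδa : 0 < dl x a := hP.dpos J x a
  have hδa1 : dl x a ≤ 1 := (hP.dle J x a).trans (hP.ble J x)
  have hM0 : ∀ p, 1 / dl x a ≤ M₀ p := fun p => by
    by_cases hp : p = a
    · subst hp
      rw [fp.ma]
      have h1 : √(tc p x) ≤ dl x p := by
        rw [Real.sqrt_le_left hδa.le]
        unfold tc
        rw [div_le_iff₀ hX]
        have := hP.dge J x p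
        rw [div_le_iff₀ hX] at this
        nlinarith
      have h2 : 0 < √(tc p x) := by
        apply Real.sqrt_pos.2
        unfold tc
        positivity
      exact one_div_le_one_div_of_le h2 h1
    · rw [fp.mp p hp]
      have h1 : (1 : ℝ) ≤ (2 : ℝ) ^ (8 * ε * J) := Real.one_le_rpow (by norm_num) (by positivity)
      have h2 : 0 < 1 / dl x a := by positivity
      calc 1 / dl x a = 1 * (1 / dl x a) := (one_mul _).symm
        _ ≤ (2 : ℝ) ^ (8 * ε * J) * max (1 / √(th x)) (1 / dl x a) :=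
          mul_le_mul h1 (le_max_right _ _) h2.le (by positivity)
  have h1M : 1 ≤ 1 / dl x a := by rw [le_div_iff₀ hδa, one_mul]; exact hδa1
  have hfs : ∀ p (j : ℕ), M₀ p ≤ fs (M₀ p) (jm p) j := fun p j => by
    have := hM0 p
    unfold fs
    exact le_mul_of_one_le_left (by linarith) (one_le_pow₀ (by norm_num))
  set d : {p // p ∈ pos Φ} → ℝ := fun p => if p = a then dl x a else bx' x with hd
  have hdge : ∀ p, dl x a ≤ d p := fun p => by
    simp only [hd]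
    split_ifs
    · exact le_rfl
    · exact hP.dle J x a
  have hdδ : ∀ p, dl x p ≤ d p := fun p => by
    simp only [hd]
    split_ifs with h
    · rw [h]
    · exact hP.dle J x p
  have hd0 : ∀ p, 0 ≤ d p := fun p => hδa.le.trans (hdge p)
  have hdp : ∏ p, d p = dl x a * bx' x ^ 2 := by
    rw [← Finset.mul_prod_erase Finset.univ d (Finset.mem_univ a)]
    have h1 : d a = dl x a := by simp [hd]
    rw [h1]
    congr 1
    have h2 : ∀ p ∈ Finset.univ.erase a, d p = bx' x := fun p hp => by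
      simp [hd, Finset.ne_of_mem_erase hp]
    rw [Finset.prod_congr rfl h2, Finset.prod_const, Finset.card_erase_of_mem (Finset.mem_univ a), Finset.card_univ,
      ← hn, hn3]
  constructor
  · intro jj l hl
    have h1 := hD J a x (fc f 0) l hl
    have h2 := hB f l
    have hW1 : |1 / ((WF Φ).card : ℝ)| ≤ 1 := by
      rw [abs_of_nonneg (by positivity)]
      rcases Nat.eq_zero_or_pos (WF Φ).card with h | h
      · rw [h]; simp
      · rw [div_le_one (by exact_mod_cast h)]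
        exact_mod_cast h
    have hone : ∀ p : {p // p ∈ pos Φ}, ∀ i ≤ 2,
        |ψ p (jj p) (p.1.2 ⬝ᵥ l)| * (1 + |((p.1.2 ⬝ᵥ l : ℤ) : ℝ)|) ^ i ≤ D * fs (M₀ p) (jm p) (jj p).val ^ i := by
      intro p i hi
      refine one hm hi hC₃ (h1M.trans ((hM0 p).trans (hfs p _))) (abs_nonneg _) (fp.fcf.bd p (jj p) _)
        (abs_nonneg _) ?_
      by_cases hj : (jj p).val ≤ jm p
      · exact Or.inr (fp.fcf.hi p (jj p) _ hj)
      · left
        have h3 : fs (M₀ p) (jm p) (jj p).val = 2 ^ jm p * M₀ p := by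
          unfold fs; rw [min_eq_right (by omega)]
        rw [h3]
        have h4 : 0 ≤ 2 ^ jm p * M₀ p := hX.le.trans (fp.lo p)
        calc |((p.1.2 ⬝ᵥ l : ℤ) : ℝ)| ≤ C₃ * 2 ^ J := hl p
          _ ≤ C₃ * (2 ^ jm p * M₀ p) := by gcongr; exact fp.lo p
          _ ≤ (1 + C₃) * (2 ^ jm p * M₀ p) := by
            gcongr
            linarith
    have hψ0 : 0 ≤ ∏ p : {p // p ∈ pos Φ}, |ψ p (jj p) (p.1.2 ⬝ᵥ l)| := Finset.prod_nonneg fun p _ => abs_nonneg _
    have hδ0 : 0 ≤ ∏ p ∈ fc f 2, dl x p := Finset.prod_nonneg fun p _ => (hP.dpos J x p).le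
    have hδ1 : ∏ p ∈ fc f 2, dl x p ≤ ∏ p ∈ fc f 2, d p :=
      Finset.prod_le_prod (fun p _ => (hP.dpos J x p).le) fun p _ => hdδ p
    have hA0 : 0 ≤ ∏ p ∈ fc f 0, d p := Finset.prod_nonneg fun p _ => hd0 p
    have hR : ∀ R ∈ (Finset.univ : Finset {p // p ∈ pos Φ}).powerset.filter (fun R => R.card = (fc f 1).card),
        (∏ p ∈ fc f 0, d p) * (∏ p ∈ Rᶜ, (1 + |((p.1.2 ⬝ᵥ l : ℤ) : ℝ)|)) *
          (∏ p, |ψ p (jj p) (p.1.2 ⬝ᵥ l)|) * ∏ p ∈ fc f 2, dl x p ≤
        D ^ n * Ac a x M₀ jm jj := by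
      intro R hR
      have hRc := (Finset.mem_filter.1 hR).2
      have h3 := comb R (M := fun p => fs (M₀ p) (jm p) (jj p).val) (fun p => abs_nonneg (((p.1.2 ⬝ᵥ l : ℤ) : ℝ)))
        (fun p => abs_nonneg (ψ p (jj p) (p.1.2 ⬝ᵥ l))) hone
      have h4 := cmp f R (M := fun p => fs (M₀ p) (jm p) (jj p).val) (d := d) hδa hdge
        (fun p => (hM0 p).trans (hfs p _)) hRc
      unfold Ac
      rw [← hdp]
      calc _ = (∏ p ∈ fc f 0, d p) * (∏ p ∈ fc f 2, dl x p) *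
            ((∏ p ∈ Rᶜ, (1 + |((p.1.2 ⬝ᵥ l : ℤ) : ℝ)|)) * ∏ p, |ψ p (jj p) (p.1.2 ⬝ᵥ l)|) := by ring
        _ ≤ (∏ p ∈ fc f 0, d p) * (∏ p ∈ fc f 2, d p) *
            (D ^ n * ∏ p ∈ Rᶜ, fs (M₀ p) (jm p) (jj p).val) := by
          have h5 : 0 ≤ (∏ p ∈ Rᶜ, (1 + |((p.1.2 ⬝ᵥ l : ℤ) : ℝ)|)) * ∏ p, |ψ p (jj p) (p.1.2 ⬝ᵥ l)| := by
            refine mul_nonneg (Finset.prod_nonneg fun p _ => by positivity) hψ0
          exact mul_le_mul (mul_le_mul_of_nonneg_left hδ1 hA0) h3 h5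
            (mul_nonneg hA0 (Finset.prod_nonneg fun p _ => hd0 p))
        _ = D ^ n * ((∏ p ∈ fc f 0, d p) * (∏ p ∈ fc f 2, d p) *
            ∏ p ∈ Rᶜ, fs (M₀ p) (jm p) (jj p).val) := by ring
        _ ≤ _ := mul_le_mul_of_nonneg_left h4 (by positivity)
    have hfin : 0 ≤ Ac a x M₀ jm jj := by
      unfold Ac
      refine mul_nonneg (by positivity) (Finset.prod_nonneg fun p _ => ?_)
      linarith [hfs p (jj p).val, hM0 p]
    have habs : |amc Φ a (th x) (tc a x) f l * pj' ψ jj l| ≤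
        (CD * ∏ p ∈ fc f 0, d p) *
        (CB * ∑ R ∈ (Finset.univ : Finset {p // p ∈ pos Φ}).powerset.filter (fun R => R.card = (fc f 1).card),
          ∏ p ∈ Rᶜ, (1 + |((p.1.2 ⬝ᵥ l : ℤ) : ℝ)|)) * ∏ p, |ψ p (jj p) (p.1.2 ⬝ᵥ l)| := by
      unfold amc pj'
      rw [abs_mul, Finset.abs_prod, abs_mul, abs_mul]
      refine mul_le_mul_of_nonneg_right ?_ hψ0
      calc _ ≤ 1 * ((CD * ∏ p ∈ fc f 0, d p) *
        (CB * ∑ R ∈ (Finset.univ : Finset {p // p ∈ pos Φ}).powerset.filter (fun R => R.card = (fc f 1).card),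
          ∏ p ∈ Rᶜ, (1 + |((p.1.2 ⬝ᵥ l : ℤ) : ℝ)|))) :=
            mul_le_mul hW1 (mul_le_mul h1 h2 (abs_nonneg _) (by positivity)) (by positivity) zero_le_one
        _ = _ := one_mul _
    calc |amc Φ a (th x) (tc a x) f l * pj' ψ jj l| * ∏ p ∈ fc f 2, dl x p
        ≤ ((CD * ∏ p ∈ fc f 0, d p) *
          (CB * ∑ R ∈ (Finset.univ : Finset {p // p ∈ pos Φ}).powerset.filter (fun R => R.card = (fc f 1).card),
          ∏ p ∈ Rᶜ, (1 + |((p.1.2 ⬝ᵥ l : ℤ) : ℝ)|)) * ∏ p, |ψ p (jj p) (p.1.2 ⬝ᵥ l)|) * ∏ p ∈ fc f 2, dl x p :=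
          mul_le_mul_of_nonneg_right habs hδ0
      _ = CD * CB * ∑ R ∈ (Finset.univ : Finset {p // p ∈ pos Φ}).powerset.filter (fun R => R.card = (fc f 1).card),
          ((∏ p ∈ fc f 0, d p) * (∏ p ∈ Rᶜ, (1 + |((p.1.2 ⬝ᵥ l : ℤ) : ℝ)|)) *
          (∏ p, |ψ p (jj p) (p.1.2 ⬝ᵥ l)|) * ∏ p ∈ fc f 2, dl x p) := by
        rw [← Finset.sum_mul, ← Finset.sum_mul, ← Finset.mul_sum]; ring
      _ ≤ CD * CB * ∑ R ∈ (Finset.univ : Finset {p // p ∈ pos Φ}).powerset.filter (fun R => R.card = (fc f 1).card),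
          (D ^ n * Ac a x M₀ jm jj) := by
        exact mul_le_mul_of_nonneg_left (Finset.sum_le_sum hR) (by positivity)
      _ ≤ CD * CB * (2 ^ n * (D ^ n * Ac a x M₀ jm jj)) := by
        rw [Finset.sum_const, nsmul_eq_mul]
        have h4 : ((((Finset.univ : Finset {p // p ∈ pos Φ}).powerset.filter
            (fun R => R.card = (fc f 1).card)).card : ℕ) : ℝ) ≤ 2 ^ n := by
          have h5 := Finset.card_filter_le (Finset.univ : Finset {p // p ∈ pos Φ}).powerset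
            (fun R => R.card = (fc f 1).card)
          rw [Finset.card_powerset, Finset.card_univ] at h5
          exact_mod_cast h5
        gcongr
      _ = CD * CB * (2 ^ n * D ^ n) * Ac a x M₀ jm jj := by ring
      _ ≤ (CD * CB * (2 ^ n * D ^ n) + C₁ ^ n) * Ac a x M₀ jm jj := by
        gcongr
        have : 0 ≤ C₁ ^ n := by positivity
        linarith
  · intro K
    have hδ0 : 0 ≤ ∏ p ∈ fc f 2, dl x p := Finset.prod_nonneg fun p _ => (hP.dpos J x p).le
    have e1 : ∑ k ∈ kB Φ K, ‖cx m J x f k‖ = ∏ p : {p // p ∈ pos Φ}, ∑ k ∈ Finset.Icc (-(K : ℤ)) K,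
        ‖if f p = 2 then cf m J (x p).val k - cf m J (x p).val (k - 1) else cf m J (x p).val k‖ := by
      unfold kB cx
      rw [Finset.prod_univ_sum]
      exact Finset.sum_congr rfl fun k _ => norm_prod _ _
    have e2 : ∏ p ∈ fc f 2, dl x p = ∏ p : {p // p ∈ pos Φ}, if f p = 2 then dl x p else 1 := by
      unfold fc
      rw [Finset.prod_filter]
    calc ∑ k ∈ kB Φ K, ‖cx m J x f k‖ ≤ ∏ p : {p // p ∈ pos Φ}, (C₁ * if f p = 2 then dl x p else 1) := by
          rw [e1]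
          refine Finset.prod_le_prod (fun p _ => Finset.sum_nonneg fun k _ => norm_nonneg _) fun p _ => ?_
          have hx : (x p).val ≤ J := by omega
          by_cases h2 : f p = 2
          · simp only [h2, if_true]
            have := hC.var J (x p).val K hx
            unfold dl
            rw [mul_one_div]
            exact this
          · simp only [h2, if_false]
            rw [mul_one]
            exact hC.abs J (x p).val K hx
      _ = C₁ ^ n * ∏ p ∈ fc f 2, dl x p := by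
        rw [Finset.prod_mul_distrib, Finset.prod_const, Finset.card_univ, e2]
      _ ≤ (CD * CB * (2 ^ n * D ^ n) + C₁ ^ n) * ∏ p ∈ fc f 2, dl x p := by
        gcongr
        have : 0 ≤ CD * CB * (2 ^ n * D ^ n) := by positivity
        linarith

end

end STZ3
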