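import Pool.Agent.STZ3.StP

/-!
# Compact simple groups of rank two: module ANT (helper45)

Anticoncentration of a product of linear forms under the standard Gaussian measure.
-/

namespace STZ3

open STZ LGR MeasureTheory Matrix Filter

open scoped ComplexConjugate Matrix Real Topology

noncomputable section

namespace ANT

open ProbabilityTheory

open scoped NNReal ENNReal

/-- continuous functions of exponential growth -/
def EG {r : ℕ} (G : (Fin r → ℝ) → ℝ) : Prop :=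
  Continuous G ∧ ∃ C c : ℝ, 0 ≤ C ∧ 0 ≤ c ∧ ∀ ξ, |G ξ| ≤ C * Real.exp (c * ∑ i, |ξ i|)

theorem EG.int {r : ℕ} {G : (Fin r → ℝ) → ℝ} (h : EG G) : Integrable G (ga r) := by
  obtain ⟨hc, C, c, hC, hc0, hb⟩ := h
  have h1 : Integrable (fun x : ℝ => Real.exp (c * |x|)) (gaussianReal 0 1) :=
    integrable_exp_mul_abs (X := fun x : ℝ => x) (integrable_exp_mul_gaussianReal c)
      (integrable_exp_mul_gaussianReal (-c))
  have h2 : Integrable (fun ξ : Fin r → ℝ => ∏ i, Real.exp (c * |ξ i|)) (ga r) :=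
    Integrable.fintype_prod (f := fun _ (x : ℝ) => Real.exp (c * |x|)) fun i => h1
  refine (h2.const_mul C).mono' hc.aestronglyMeasurable (ae_of_all _ fun ξ => ?_)
  rw [Real.norm_eq_abs, ← Real.exp_sum, ← Finset.mul_sum]
  exact hb ξ

theorem EG.const {r : ℕ} (a : ℝ) : EG (fun _ : Fin r → ℝ => a) :=
  ⟨continuous_const, |a|, 0, abs_nonneg a, le_rfl, fun ξ => by simp⟩

theorem EG.mul {r : ℕ} {G G' : (Fin r → ℝ) → ℝ} (h : EG G) (h' : EG G') :
    EG (fun ξ => G ξ * G' ξ) := by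
  obtain ⟨hc, C, c, hC, hc0, hb⟩ := h
  obtain ⟨hc', C', c', hC', hc0', hb'⟩ := h'
  refine ⟨hc.mul hc', C * C', c + c', mul_nonneg hC hC', add_nonneg hc0 hc0', fun ξ => ?_⟩
  rw [abs_mul, add_mul, Real.exp_add]
  calc |G ξ| * |G' ξ| ≤ (C * Real.exp (c * ∑ i, |ξ i|)) * (C' * Real.exp (c' * ∑ i, |ξ i|)) :=
        mul_le_mul (hb ξ) (hb' ξ) (abs_nonneg _) (by positivity)
    _ = _ := by ring

theorem EG.prod {r : ℕ} {ι : Type} (s : Finset ι) (G : ι → (Fin r → ℝ) → ℝ)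
    (h : ∀ i ∈ s, EG (G i)) : EG (fun ξ => ∏ i ∈ s, G i ξ) := by
  classical
  induction s using Finset.induction_on with
  | empty => simpa using EG.const (r := r) 1
  | insert a s ha ih =>
    simp only [Finset.prod_insert ha]
    exact (h a (Finset.mem_insert_self a s)).mul
      (ih fun i hi => h i (Finset.mem_insert_of_mem hi))

theorem EG.add {r : ℕ} {G G' : (Fin r → ℝ) → ℝ} (h : EG G) (h' : EG G') :
    EG (fun ξ => G ξ + G' ξ) := by
  obtain ⟨hc, C, c, hC, hc0, hb⟩ := h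
  obtain ⟨hc', C', c', hC', hc0', hb'⟩ := h'
  refine ⟨hc.add hc', C + C', c + c', add_nonneg hC hC', add_nonneg hc0 hc0', fun ξ => ?_⟩
  have hs : 0 ≤ ∑ i, |ξ i| := Finset.sum_nonneg fun i _ => abs_nonneg _
  have e1 : Real.exp (c * ∑ i, |ξ i|) ≤ Real.exp ((c + c') * ∑ i, |ξ i|) := by
    apply Real.exp_le_exp.2
    nlinarith
  have e2 : Real.exp (c' * ∑ i, |ξ i|) ≤ Real.exp ((c + c') * ∑ i, |ξ i|) := by
    apply Real.exp_le_exp.2
    nlinarith
  calc |G ξ + G' ξ| ≤ |G ξ| + |G' ξ| := abs_add_le _ _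
    _ ≤ C * Real.exp (c * ∑ i, |ξ i|) + C' * Real.exp (c' * ∑ i, |ξ i|) :=
        add_le_add (hb ξ) (hb' ξ)
    _ ≤ C * Real.exp ((c + c') * ∑ i, |ξ i|) + C' * Real.exp ((c + c') * ∑ i, |ξ i|) :=
        add_le_add (mul_le_mul_of_nonneg_left e1 hC) (mul_le_mul_of_nonneg_left e2 hC')
    _ = _ := by ring

theorem lin_bd {r : ℕ} (ξ u : Fin r → ℝ) : |∑ i, ξ i * u i| ≤ (∑ i, |u i|) * ∑ i, |ξ i| := by
  refine (Finset.abs_sum_le_sum_abs _ _).trans ?_
  rw [Finset.mul_sum]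
  refine Finset.sum_le_sum fun i _ => ?_
  rw [abs_mul, mul_comm]
  refine mul_le_mul_of_nonneg_right ?_ (abs_nonneg _)
  exact Finset.single_le_sum (f := fun i => |u i|) (fun j _ => abs_nonneg _) (Finset.mem_univ i)

theorem EG.lin {r : ℕ} (u : Fin r → ℝ) : EG (fun ξ => ∑ i, ξ i * u i) := by
  have hu : 0 ≤ ∑ i, |u i| := Finset.sum_nonneg fun i _ => abs_nonneg _
  refine ⟨by fun_prop, ∑ i, |u i|, 1, hu, zero_le_one, fun ξ => (lin_bd ξ u).trans ?_⟩
  refine mul_le_mul_of_nonneg_left ?_ hu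
  rw [one_mul]
  have := Real.add_one_le_exp (∑ i, |ξ i|)
  linarith

/-- the image of a weight -/
def zv {r : ℕ} (z : Matrix (Fin r) (Fin r) ℝ) (v : Fin r → ℤ) (l : Fin r) : ℝ :=
  ∑ i, z l i * (v i : ℝ)

theorem lf_eq {r : ℕ} (z : Matrix (Fin r) (Fin r) ℝ) (v : Fin r → ℤ) (ξ : Fin r → ℝ) :
    lf z v ξ = ∑ l, ξ l * zv z v l := rfl

theorem lf_add {r : ℕ} (z : Matrix (Fin r) (Fin r) ℝ) (v : Fin r → ℤ) (ξ η : Fin r → ℝ) :
    lf z v (ξ + η) = lf z v ξ + lf z v η := by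
  rw [lf_eq, lf_eq, lf_eq, ← Finset.sum_add_distrib]
  refine Finset.sum_congr rfl fun l _ => ?_
  rw [Pi.add_apply, add_mul]

theorem zv_ne {r : ℕ} {Φ : RT r} {z : Matrix (Fin r) (Fin r) ℝ} (hz : ZM Φ z)
    (v : Fin r → ℤ) (hv : 0 < v ⬝ᵥ ((rd Φ).A *ᵥ v)) : zv z v ≠ 0 := by
  intro h0
  have h1 : ((v ⬝ᵥ ((rd Φ).A *ᵥ v) : ℤ) : ℝ) =
      ∑ i, ∑ j, (v i : ℝ) * (((rd Φ).A i j : ℝ) * (v j : ℝ)) := by
    simp only [dotProduct, mulVec, Int.cast_sum, Int.cast_mul, Finset.mul_sum]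
  have h2 : ∀ i j, (v i : ℝ) * (((rd Φ).A i j : ℝ) * (v j : ℝ)) =
      ∑ l, 2 * ((z l i * (v i : ℝ)) * (z l j * (v j : ℝ))) := by
    intro i j
    have h3 : ((rd Φ).A i j : ℝ) = ∑ l, 2 * (z l i * z l j) := by
      rw [← Finset.mul_sum, hz i j]
      ring
    rw [h3, Finset.sum_mul, Finset.mul_sum]
    refine Finset.sum_congr rfl fun l _ => ?_
    ring
  have h4 : ((v ⬝ᵥ ((rd Φ).A *ᵥ v) : ℤ) : ℝ) = 2 * ∑ l, zv z v l * zv z v l := by
    rw [h1]
    simp only [h2]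
    calc ∑ i, ∑ j, ∑ l, 2 * ((z l i * (v i : ℝ)) * (z l j * (v j : ℝ)))
        = ∑ i, ∑ l, ∑ j, 2 * ((z l i * (v i : ℝ)) * (z l j * (v j : ℝ))) :=
          Finset.sum_congr rfl fun j _ => Finset.sum_comm
      _ = ∑ l, ∑ i, ∑ j, 2 * ((z l i * (v i : ℝ)) * (z l j * (v j : ℝ))) := Finset.sum_comm
      _ = 2 * ∑ l, zv z v l * zv z v l := by
          rw [Finset.mul_sum]
          refine Finset.sum_congr rfl fun l _ => ?_
          unfold zv
          rw [Finset.sum_mul_sum, Finset.mul_sum]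
          refine Finset.sum_congr rfl fun j _ => ?_
          rw [Finset.mul_sum]
  have h5 : (0 : ℝ) < ((v ⬝ᵥ ((rd Φ).A *ᵥ v) : ℤ) : ℝ) := by exact_mod_cast hv
  rw [h4, h0] at h5
  simp at h5

/-- the law of a linear form -/
theorem law {r : ℕ} (u : Fin r → ℝ) (hu : u ≠ 0) : ∃ v : ℝ≥0, v ≠ 0 ∧
    (ga r).map (fun ξ => ∑ i, ξ i * u i) = gaussianReal 0 v := by
  set L : StrongDual ℝ (EuclideanSpace ℝ (Fin r)) := innerSL ℝ (WithLp.toLp 2 u) with hL
  have hn : ‖L‖ ≠ 0 := by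
    rw [hL, innerSL_apply_norm, norm_ne_zero_iff]
    intro h
    exact hu (by simpa using h)
  refine ⟨(‖L‖ ^ 2).toNNReal, ?_, ?_⟩
  · have : 0 < ‖L‖ ^ 2 := by positivity
    exact (Real.toNNReal_pos.2 this).ne'
  · have h1 : (fun ξ : Fin r → ℝ => ∑ i, ξ i * u i) = L ∘ (WithLp.toLp 2) := by
      ext ξ
      simp [hL, PiLp.inner_apply]
    rw [h1, ← Measure.map_map (by fun_prop) (by fun_prop)]
    unfold ga
    rw [map_pi_eq_stdGaussian, IsGaussian.map_eq_gaussianReal, variance_dual_stdGaussian,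
      integral_strongDual_stdGaussian]

theorem pdf_le (m : ℝ) (v : ℝ≥0) (x : ℝ) : gaussianPDFReal m v x ≤ (√(2 * π * v))⁻¹ := by
  unfold gaussianPDFReal
  refine mul_le_of_le_one_right (by positivity) ?_
  rw [Real.exp_le_one_iff]
  have : 0 ≤ (x - m) ^ 2 / (2 * v) := by positivity
  have h2 : -(x - m) ^ 2 / (2 * (v : ℝ)) = -((x - m) ^ 2 / (2 * v)) := by ring
  rw [h2]
  linarith

/-- the mass of an interval -/
theorem icc_le (m : ℝ) {v : ℝ≥0} (hv : v ≠ 0) {a b : ℝ} (hab : a ≤ b) :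
    (gaussianReal m v).real (Set.Icc a b) ≤ (√(2 * π * v))⁻¹ * (b - a) := by
  rw [measureReal_def, gaussianReal_apply_eq_integral m hv, ENNReal.toReal_ofReal
    (integral_nonneg fun x => gaussianPDFReal_nonneg m v x)]
  calc ∫ x in Set.Icc a b, gaussianPDFReal m v x
      ≤ ∫ x in Set.Icc a b, (√(2 * π * v))⁻¹ := by
        refine setIntegral_mono_on (integrable_gaussianPDFReal m v).integrableOn ?_
          measurableSet_Icc fun x _ => pdf_le m v x
        exact integrableOn_const (by simp)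
    _ = (√(2 * π * v))⁻¹ * (b - a) := by
        rw [setIntegral_const, smul_eq_mul, measureReal_def, Real.volume_Icc,
          ENNReal.toReal_ofReal (by linarith)]
        ring

/-- anticoncentration in dimension one -/
theorem one {v : ℝ≥0} (hv : v ≠ 0) {δ : ℝ} (hδ : 0 < δ) : ∃ ε : ℝ, 0 < ε ∧ ∀ b : ℝ,
    (gaussianReal 0 v).real {x | |x + b| ≤ ε * (1 + |b|)} ≤ δ := by
  set M := ∫ x, |x| ∂(gaussianReal 0 v) with hM
  have hM0 : 0 ≤ M := integral_nonneg fun x => abs_nonneg x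
  set K := M / δ + 1 with hK
  have hK1 : 1 ≤ K := by
    have : 0 ≤ M / δ := by positivity
    linarith
  have hint : Integrable (fun x : ℝ => |x|) (gaussianReal 0 v) := by
    have := (memLp_id_gaussianReal (μ := 0) (v := v) 1)
    rw [ENNReal.coe_one, memLp_one_iff_integrable] at this
    simpa using this.abs
  have hT : (gaussianReal 0 v).real {x | K ≤ |x|} ≤ δ := by
    have h1 := mul_meas_ge_le_integral_of_nonneg (ae_of_all _ fun x : ℝ => abs_nonneg x) hint K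
    have h2 : M ≤ K * δ := by
      rw [hK, add_mul, div_mul_cancel₀ _ hδ.ne']
      linarith
    have h3 : K * (gaussianReal 0 v).real {x | K ≤ |x|} ≤ K * δ := h1.trans h2
    exact le_of_mul_le_mul_left h3 (by linarith)
  set D := (√(2 * π * v))⁻¹ with hD
  have hv0 : (0 : ℝ) < v := lt_of_le_of_ne v.2 (by
    intro h
    exact hv (by ext; exact h.symm))
  have hD0 : 0 < D := by positivity
  refine ⟨min (1 / 2) (δ / (4 * D * (K + 1))), ?_, fun b => ?_⟩
  · refine lt_min (by norm_num) ?_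
    have : 0 < K + 1 := by linarith
    positivity
  set ε := min (1 / 2) (δ / (4 * D * (K + 1))) with hε
  have hε1 : ε ≤ 1 / 2 := min_le_left _ _
  have hε2 : ε ≤ δ / (4 * D * (K + 1)) := min_le_right _ _
  have hb0 := abs_nonneg b
  have hε0 : 0 < ε := by
    refine lt_min (by norm_num) ?_
    have : 0 < K + 1 := by linarith
    positivity
  rcases le_or_gt |b| (2 * K + 1) with hb | hb
  · have hs : {x : ℝ | |x + b| ≤ ε * (1 + |b|)} ⊆
        Set.Icc (-b - ε * (1 + |b|)) (-b + ε * (1 + |b|)) := by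
      intro x hx
      have hx' := abs_le.1 (show |x + b| ≤ ε * (1 + |b|) from hx)
      exact ⟨by linarith [hx'.1], by linarith [hx'.2]⟩
    refine (measureReal_mono hs).trans ((icc_le 0 hv ?_).trans ?_)
    · have : 0 ≤ ε * (1 + |b|) := by positivity
      linarith
    · have hK2 : 0 < 4 * D * (K + 1) := by
        have : 0 < K + 1 := by linarith
        positivity
      have h4 : ε * (4 * D * (K + 1)) ≤ δ := by
        rw [le_div_iff₀ hK2] at hε2
        exact hε2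
      have h5 : D * (ε * (1 + |b|)) ≤ D * (ε * (2 * K + 2)) := by
        refine mul_le_mul_of_nonneg_left (mul_le_mul_of_nonneg_left ?_ hε0.le) hD0.le
        linarith
      nlinarith
  · refine (measureReal_mono ?_).trans hT
    intro x hx
    have hx' : |x + b| ≤ ε * (1 + |b|) := hx
    have h6 : |b| ≤ |x + b| + |x| := by
      have := abs_sub (x + b) x
      simpa using this
    have h7 : ε * (1 + |b|) ≤ 1 / 2 * (1 + |b|) :=
      mul_le_mul_of_nonneg_right hε1 (by positivity)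
    show K ≤ |x|
    linarith

/-- anticoncentration of a linear form -/
theorem form {r : ℕ} (u : Fin r → ℝ) (hu : u ≠ 0) {δ : ℝ} (hδ : 0 < δ) : ∃ ε : ℝ, 0 < ε ∧
    ∀ b : ℝ, (ga r).real {ξ | |∑ i, ξ i * u i + b| ≤ ε * (1 + |b|)} ≤ δ := by
  obtain ⟨v, hv, hl⟩ := law u hu
  obtain ⟨ε, hε, h⟩ := one hv hδ
  refine ⟨ε, hε, fun b => ?_⟩
  have h1 := h b
  rw [← hl, measureReal_def, Measure.map_apply (by fun_prop)] at h1
  · exact h1
  · exact measurableSet_le (by fun_prop) (by fun_prop)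

/-- the main estimate, for a finite family of nonzero linear forms -/
theorem main {r : ℕ} {ι : Type} (s : Finset ι) (u : ι → Fin r → ℝ) (hu : ∀ p ∈ s, u p ≠ 0) :
    ∃ c : ℝ, 0 < c ∧ ∀ b : ι → ℝ, c * ∏ p ∈ s, (1 + b p ^ 2) ≤
      ∫ ξ, ∏ p ∈ s, (∑ i, ξ i * u p i + b p) ^ 2 ∂(ga r) := by
  have hpr : IsProbabilityMeasure (ga r) := by unfold ga; infer_instance
  set n : ℝ := (s.card : ℝ) with hn
  have hn0 : 0 ≤ n := Nat.cast_nonneg _
  have hδ : 0 < 1 / (2 * (n + 1)) := by positivity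
  have hex : ∀ p, ∃ ε : ℝ, p ∈ s → 0 < ε ∧ ∀ b : ℝ,
      (ga r).real {ξ | |∑ i, ξ i * u p i + b| ≤ ε * (1 + |b|)} ≤ 1 / (2 * (n + 1)) := by
    intro p
    by_cases hpp : p ∈ s
    · obtain ⟨ε, h⟩ := form (u p) (hu p hpp) hδ
      exact ⟨ε, fun _ => h⟩
    · exact ⟨0, fun h => absurd h hpp⟩
  choose ε hε using hex
  have hP : 0 < ∏ p ∈ s, ε p ^ 2 :=
    Finset.prod_pos fun p hpp => pow_pos (hε p hpp).1 2
  refine ⟨(1 / 2) * ∏ p ∈ s, ε p ^ 2, by positivity, fun b => ?_⟩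
  have hi : Integrable (fun ξ => ∏ p ∈ s, (∑ i, ξ i * u p i + b p) ^ 2) (ga r) := by
    refine EG.int (EG.prod s (fun p ξ => (∑ i, ξ i * u p i + b p) ^ 2) fun p _ => ?_)
    have h1 : EG (fun ξ : Fin r → ℝ => ∑ i, ξ i * u p i + b p) := (EG.lin (u p)).add (EG.const (b p))
    have h2 := h1.mul h1
    have h3 : (fun ξ : Fin r → ℝ => (∑ i, ξ i * u p i + b p) ^ 2) =
        fun ξ => (∑ i, ξ i * u p i + b p) * (∑ i, ξ i * u p i + b p) := by
      funext ξ
      exact pow_two _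
    rw [h3]
    exact h2
  have hnn : ∀ ξ : Fin r → ℝ, 0 ≤ ∏ p ∈ s, (∑ i, ξ i * u p i + b p) ^ 2 := fun ξ =>
    Finset.prod_nonneg fun p _ => sq_nonneg _
  obtain ⟨T, hT⟩ : ∃ T, T = ∏ p ∈ s, (ε p ^ 2 * (1 + (b p) ^ 2)) := ⟨_, rfl⟩
  have hT0 : 0 ≤ T := by
    rw [hT]
    exact Finset.prod_nonneg fun p _ => by positivity
  have hm := mul_meas_ge_le_integral_of_nonneg (ae_of_all _ hnn) hi T
  set Bd := ⋃ p ∈ s, {ξ : Fin r → ℝ | |∑ i, ξ i * u p i + b p| ≤ ε p * (1 + |b p|)} with hBd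
  have hBm : MeasurableSet Bd := by
    refine Finset.measurableSet_biUnion _ fun p _ => ?_
    exact measurableSet_le (by fun_prop) (by fun_prop)
  have hB1 : (ga r).real Bd ≤ 1 / 2 := by
    refine (measureReal_biUnion_finset_le _ _).trans ?_
    refine (Finset.sum_le_sum fun p hpp => (hε p hpp).2 _).trans ?_
    rw [Finset.sum_const, nsmul_eq_mul, ← hn, mul_one_div, div_le_div_iff₀ (by positivity)
      (by norm_num)]
    linarith
  have hG : (1 : ℝ) / 2 ≤ (ga r).real Bdᶜ := by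
    rw [probReal_compl_eq_one_sub hBm]
    linarith
  have hsub : Bdᶜ ⊆ {ξ | T ≤ ∏ p ∈ s, (∑ i, ξ i * u p i + b p) ^ 2} := by
    intro ξ hξ
    show T ≤ ∏ p ∈ s, (∑ i, ξ i * u p i + b p) ^ 2
    rw [hT]
    refine Finset.prod_le_prod (fun p _ => by positivity) fun p hpp => ?_
    have h1 : ¬ |∑ i, ξ i * u p i + b p| ≤ ε p * (1 + |b p|) := by
      intro h
      exact hξ (Set.mem_biUnion (Finset.mem_coe.2 hpp) h)
    rw [not_le] at h1
    have hε0 := (hε p hpp).1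
    rw [← sq_abs (∑ i, ξ i * u p i + b p), ← sq_abs (b p)]
    have ha := abs_nonneg (b p)
    calc ε p ^ 2 * (1 + |b p| ^ 2) ≤ (ε p * (1 + |b p|)) ^ 2 := by
          rw [mul_pow]
          refine mul_le_mul_of_nonneg_left ?_ (by positivity)
          nlinarith
      _ ≤ _ := by
          refine pow_le_pow_left₀ (by positivity) h1.le 2
  calc (1 / 2) * (∏ p ∈ s, ε p ^ 2) * ∏ p ∈ s, (1 + (b p) ^ 2)
      = T * (1 / 2) := by rw [hT, Finset.prod_mul_distrib]; ring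
    _ ≤ T * (ga r).real {ξ | T ≤ ∏ p ∈ s, (∑ i, ξ i * u p i + b p) ^ 2} :=
        mul_le_mul_of_nonneg_left (hG.trans (measureReal_mono hsub)) hT0
    _ ≤ _ := hm

end ANT

theorem t_ANT : M_ANT := by
  intro hQ r Φ B _ hI hW z hz
  obtain ⟨-, -, -, -, -, -, hp⟩ := hQ r Φ B hI hW
  obtain ⟨c, hc, h⟩ := ANT.main (pos Φ) (fun p => ANT.zv z p.1) fun p hpp =>
    ANT.zv_ne hz _ (hp p (Finset.mem_filter.1 hpp).1).1
  refine ⟨c, hc, fun η => ?_⟩
  have h1 := h fun p => lf z p.1 η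
  have h2 : ∀ ξ : Fin r → ℝ, ∏ p ∈ pos Φ, (lf z p.1 (ξ + η)) ^ 2 =
      ∏ p ∈ pos Φ, (∑ i, ξ i * ANT.zv z p.1 i + lf z p.1 η) ^ 2 := by
    intro ξ
    refine Finset.prod_congr rfl fun p _ => ?_
    rw [ANT.lf_add, ANT.lf_eq z p.1 ξ]
  simp only [h2]
  exact h1

end

end STZ3
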