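import Pool.Agent.STZ3.StD3

/-!
# Module ATW: the root system with three positive roots
-/

namespace STZ3

open STZ LGR MeasureTheory Matrix Filter

open scoped ComplexConjugate Matrix Real Topology

noncomputable section

namespace ATW

theorem nd_eq (θ : ℝ) : nd θ = ‖(θ : UnitAddCircle)‖ := by
  rw [UnitAddCircle.norm_eq]
  rfl

theorem nd_neg (θ : ℝ) : nd (-θ) = nd θ := by
  rw [nd_eq, nd_eq, AddCircle.coe_neg, norm_neg]

theorem nd_add (x y : ℝ) : nd (x + y) ≤ nd x + nd y := by
  rw [nd_eq, nd_eq, nd_eq, AddCircle.coe_add]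
  exact norm_add_le _ _

/-- the three numbers `x`, `y`, `x + y` -/
theorem nd_three (x y : ℝ) : nd (x + y) ≤ nd x + nd y ∧ nd x ≤ nd (x + y) + nd y ∧
    nd y ≤ nd (x + y) + nd x := by
  refine ⟨nd_add x y, ?_, ?_⟩
  · have h := nd_add (x + y) (-y)
    rwa [nd_neg, add_neg_cancel_right] at h
  · have h := nd_add (x + y) (-x)
    rwa [nd_neg, add_comm x y, add_neg_cancel_right, add_comm y x] at h

/-- the explicit roots -/
theorem roots {Φ : RT 2} {B : Matrix (Fin 2) (Fin 2) ℤ} (h : IRD Φ B) (hW : WFF Φ B)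
    (hc : (pos Φ).card = 3) : ∀ p ∈ pos Φ, p = (![2, -1], ![1, 0]) ∨ p = (![-1, 2], ![0, 1]) ∨
      p = (![1, 1], ![1, 1]) := by
  classical
  -- the simple roots
  have b00 : B 0 0 = 2 := by
    have := h.two _ (h.base 0)
    simpa using this
  have b11 : B 1 1 = 2 := by
    have := h.two _ (h.base 1)
    simpa using this
  have hs : ∀ i : Fin 2, ((B i, Pi.single i 1) : (Fin 2 → ℤ) × (Fin 2 → ℤ)) ∈ pos Φ := by
    intro i
    refine Finset.mem_filter.2 ⟨h.base i, fun j => ?_⟩
    by_cases hij : j = i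
    · subst hij; simp
    · simp [Pi.single_eq_of_ne hij]
  have hne : ((B 0, Pi.single 0 1) : (Fin 2 → ℤ) × (Fin 2 → ℤ)) ≠ (B 1, Pi.single 1 1) := by
    intro h0
    have h1 := congrFun (congrArg Prod.snd h0) 0
    simp at h1
  -- the third root
  obtain ⟨t, ht, ht0, ht1, hall⟩ : ∃ t ∈ pos Φ, t ≠ (B 0, Pi.single 0 1) ∧
      t ≠ (B 1, Pi.single 1 1) ∧ ∀ p ∈ pos Φ, p = (B 0, Pi.single 0 1) ∨
        p = (B 1, Pi.single 1 1) ∨ p = t := by
    obtain ⟨x, y, z, hxy, hxz, hyz, he⟩ := Finset.card_eq_three.1 hc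
    have h0 := hs 0
    have h1 := hs 1
    rw [he] at h0 h1
    have hm : ∀ p, p ∈ pos Φ ↔ p = x ∨ p = y ∨ p = z := by
      intro p
      rw [he]
      simp
    simp only [Finset.mem_insert, Finset.mem_singleton] at h0 h1
    set s0 : (Fin 2 → ℤ) × (Fin 2 → ℤ) := (B 0, Pi.single 0 1) with hs0
    set s1 : (Fin 2 → ℤ) × (Fin 2 → ℤ) := (B 1, Pi.single 1 1) with hs1
    rcases h0 with h0 | h0 | h0 <;> rcases h1 with h1 | h1 | h1
    · exact absurd (h0.trans h1.symm) hne
    · exact ⟨z, (hm z).2 (by simp), by rw [h0]; exact hxz.symm, by rw [h1]; exact hyz.symm,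
        fun p hp => by rcases (hm p).1 hp with h2 | h2 | h2 <;> simp [h0, h1, h2]⟩
    · exact ⟨y, (hm y).2 (by simp), by rw [h0]; exact hxy.symm, by rw [h1]; exact hyz,
        fun p hp => by rcases (hm p).1 hp with h2 | h2 | h2 <;> simp [h0, h1, h2]⟩
    · exact ⟨z, (hm z).2 (by simp), by rw [h0]; exact hyz.symm, by rw [h1]; exact hxz.symm,
        fun p hp => by rcases (hm p).1 hp with h2 | h2 | h2 <;> simp [h0, h1, h2]⟩
    · exact absurd (h0.trans h1.symm) hne
    · exact ⟨x, (hm x).2 (by simp), by rw [h0]; exact hxy, by rw [h1]; exact hxz,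
        fun p hp => by rcases (hm p).1 hp with h2 | h2 | h2 <;> simp [h0, h1, h2]⟩
    · exact ⟨y, (hm y).2 (by simp), by rw [h0]; exact hyz, by rw [h1]; exact hxy.symm,
        fun p hp => by rcases (hm p).1 hp with h2 | h2 | h2 <;> simp [h0, h1, h2]⟩
    · exact ⟨x, (hm x).2 (by simp), by rw [h0]; exact hxz, by rw [h1]; exact hxy,
        fun p hp => by rcases (hm p).1 hp with h2 | h2 | h2 <;> simp [h0, h1, h2]⟩
    · exact absurd (h0.trans h1.symm) hne
  -- the reflected simple roots
  have q1 := hW.simp 0 _ (hs 1) hne.symm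
  have q0 := hW.simp 1 _ (hs 0) hne
  have e1 : (Pi.single 1 1 : Fin 2 → ℤ) ⬝ᵥ B 0 = B 0 1 := by simp
  have e0 : (Pi.single 0 1 : Fin 2 → ℤ) ⬝ᵥ B 1 = B 1 0 := by simp
  simp only [e1] at q1
  simp only [e0] at q0
  have key : B 0 1 = -1 ∧ B 1 0 = -1 ∧ t = (B 1 + B 0, Pi.single 1 1 + Pi.single 0 1) := by
    by_cases hu : B 0 1 = 0
    · -- reducible
      exfalso
      have hv : B 1 0 = 0 := by
        rcases h.red _ (h.base 1) _ (Finset.mem_filter.1 q1).1 1 1 one_ne_zero
          (Or.inr (by simp [hu])) with h1 | h1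
        · have h2 := congrFun (congrArg Prod.fst h1) 0
          simp only [Pi.sub_apply, Pi.smul_apply, smul_eq_mul, b00] at h2
          omega
        · have h2 := congrFun (congrArg Prod.snd h1) 1
          simp [hu] at h2
      obtain ⟨-, htp, -, n, hn, hn0⟩ := hW.ppos t ht
      have h2 := h.two t (Finset.mem_filter.1 ht).1
      have t0 : t.1 0 = 2 * n 0 := by
        rw [hn]
        simp [Fin.sum_univ_two, b00, hv]
        ring
      have t1 : t.1 1 = 2 * n 1 := by
        rw [hn]
        simp [Fin.sum_univ_two, b11, hu]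
        ring
      have h3 : t.2 0 * t.1 0 + t.2 1 * t.1 1 = 2 := by
        rw [← h2]
        simp [dotProduct, Fin.sum_univ_two]
      rw [t0, t1] at h3
      have h4 : t.2 0 * n 0 + t.2 1 * n 1 = 1 := by linarith
      have p0 : 0 ≤ t.2 0 * n 0 := mul_nonneg (htp 0) (hn0 0)
      have p1 : 0 ≤ t.2 1 * n 1 := mul_nonneg (htp 1) (hn0 1)
      have r0 := (Finset.mem_filter.1 (hW.simp 0 t ht ht0)).2 0
      have r1 := (Finset.mem_filter.1 (hW.simp 1 t ht ht1)).2 1
      simp [dotProduct, Fin.sum_univ_two, b00, hu] at r0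
      simp [dotProduct, Fin.sum_univ_two, b11, hv] at r1
      have s0 : t.2 0 = 0 := by
        have := htp 0
        linarith
      have s1 : t.2 1 = 0 := by
        have := htp 1
        linarith
      rw [s0, s1] at h4
      simp at h4
    · have hq1 : t = (B 1 - B 1 0 • B 0, Pi.single 1 1 - B 0 1 • Pi.single 0 1) := by
        rcases hall _ q1 with h1 | h1 | h1
        · have h2 := congrFun (congrArg Prod.snd h1) 1
          simp at h2
        · have h2 := congrFun (congrArg Prod.snd h1) 0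
          simp at h2
          exact absurd h2 hu
        · exact h1.symm
      have hq0 : t = (B 0 - B 0 1 • B 1, Pi.single 0 1 - B 1 0 • Pi.single 1 1) := by
        rcases hall _ q0 with h1 | h1 | h1
        · exfalso
          have h2 := congrFun (congrArg Prod.fst h1) 1
          simp [b11] at h2
          exact hu h2
        · have h2 := congrFun (congrArg Prod.snd h1) 0
          simp at h2
        · exact h1.symm
      have h3 := hq1.symm.trans hq0
      have h4 := congrFun (congrArg Prod.snd h3) 0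
      have h5 := congrFun (congrArg Prod.snd h3) 1
      simp at h4 h5
      have h6 : B 0 1 = -1 := by omega
      have h7 : B 1 0 = -1 := by omega
      refine ⟨h6, h7, ?_⟩
      rw [hq1, h6, h7]
      simp
  obtain ⟨hu, hv, htt⟩ := key
  have f0 : B 0 = ![2, -1] := by
    ext i
    fin_cases i
    · exact b00
    · exact hu
  have f1 : B 1 = ![-1, 2] := by
    ext i
    fin_cases i
    · exact hv
    · exact b11
  have g0 : (Pi.single 0 1 : Fin 2 → ℤ) = ![1, 0] := by
    ext i
    fin_cases i <;> simp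
  have g1 : (Pi.single 1 1 : Fin 2 → ℤ) = ![0, 1] := by
    ext i
    fin_cases i <;> simp
  intro p hp
  rcases hall p hp with h1 | h1 | h1
  · left
    rw [h1, f0, g0]
  · right; left
    rw [h1, f1, g1]
  · right; right
    rw [h1, htt, f0, f1, g0, g1]
    simp

/-- the values of the roots -/
theorem dzv (θ : Fin 2 → ℝ) : dz ![2, -1] θ = 2 * θ 0 - θ 1 ∧ dz ![-1, 2] θ = -θ 0 + 2 * θ 1 ∧
    dz ![1, 1] θ = θ 0 + θ 1 := by
  simp only [dz, Fin.sum_univ_two]
  refine ⟨?_, ?_, ?_⟩ <;> simp <;> ring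

end ATW

open ATW in
/-- ATW -/
theorem t_ATW : S_ATW := by
  intro Φ B h hW hc
  have hr := ATW.roots h hW hc
  refine ⟨hc, ?_, ?_, ?_, ?_, ?_⟩
  · intro p hp q hq s hs hpq hps hqs θ
    obtain ⟨v0, v1, v2⟩ := ATW.dzv θ
    obtain ⟨n0, n1, n2⟩ := ATW.nd_three (2 * θ 0 - θ 1) (-θ 0 + 2 * θ 1)
    have e : 2 * θ 0 - θ 1 + (-θ 0 + 2 * θ 1) = θ 0 + θ 1 := by ring
    rw [e, ← v0, ← v1, ← v2] at n0 n1 n2
    rcases hr p hp with rfl | rfl | rfl <;> rcases hr q hq with rfl | rfl | rfl <;>
      rcases hr s hs with rfl | rfl | rfl <;> first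
        | exact absurd rfl hpq
        | exact absurd rfl hps
        | exact absurd rfl hqs
        | (dsimp only; linarith)
  · intro p hp q hq s hs hpq hps hqs l
    have w0 : (![1, 0] : Fin 2 → ℤ) ⬝ᵥ l = l 0 := by simp [dotProduct, Fin.sum_univ_two]
    have w1 : (![0, 1] : Fin 2 → ℤ) ⬝ᵥ l = l 1 := by simp [dotProduct, Fin.sum_univ_two]
    have w2 : (![1, 1] : Fin 2 → ℤ) ⬝ᵥ l = l 0 + l 1 := by simp [dotProduct, Fin.sum_univ_two]
    have a2 := abs_add_le (l 0) (l 1)
    have a0 := abs_add_le (l 0 + l 1) (-l 1)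
    have a1 := abs_add_le (l 0 + l 1) (-l 0)
    rw [abs_neg, add_neg_cancel_right] at a0
    rw [abs_neg, add_comm (l 0) (l 1), add_neg_cancel_right, add_comm (l 1) (l 0)] at a1
    rcases hr p hp with rfl | rfl | rfl <;> rcases hr q hq with rfl | rfl | rfl <;>
      rcases hr s hs with rfl | rfl | rfl <;> first
        | exact absurd rfl hpq
        | exact absurd rfl hps
        | exact absurd rfl hqs
        | (dsimp only; simp only [w0, w1, w2]; linarith)
  · intro p hp q hq hpq
    rcases hr p hp with rfl | rfl | rfl <;> rcases hr q hq with rfl | rfl | rfl <;> first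
        | exact absurd rfl hpq
        | simp [dotProduct, Fin.sum_univ_two]
  · intro a ha p hp q hq hap haq hpq l
    rcases hr a ha with rfl | rfl | rfl <;> rcases hr p hp with rfl | rfl | rfl <;>
      rcases hr q hq with rfl | rfl | rfl <;> first
        | exact absurd rfl hap
        | exact absurd rfl haq
        | exact absurd rfl hpq
        | (refine abs_eq_abs.2 ?_; simp [dotProduct, Fin.sum_univ_two]; done)
        | (refine abs_eq_abs.2 ?_; simp [dotProduct, Fin.sum_univ_two]; omega)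
  · intro p hp i
    rcases hr p hp with rfl | rfl | rfl <;> fin_cases i <;> simp

end

end STZ3
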