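import Pool.Agent.STZ3.StQ
import Pool.Agent.STZ.GEO
import Pool.Agent.STZ.CDIF

/-!
# AVG: averages of the square of the denominator over small boxes (6.3)
-/

set_option autoImplicit false

namespace STZ3

open STZ LGR MeasureTheory Matrix Filter

open scoped ComplexConjugate Matrix Real Topology

noncomputable section

namespace AVG

theorem nd_add (x y : ℝ) : nd (x + y) ≤ nd x + nd y := by
  rw [CDIF.nd_eq, CDIF.nd_eq, CDIF.nd_eq, AddCircle.coe_add]
  exact norm_add_le _ _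

theorem nd_sub (x y : ℝ) : nd (x - y) ≤ nd x + nd y := by
  rw [CDIF.nd_eq, CDIF.nd_eq, CDIF.nd_eq, AddCircle.coe_sub]
  exact norm_sub_le _ _

theorem nd_le_abs (x : ℝ) : nd x ≤ |x| := by
  have h := round_le x 0
  simpa [nd] using h

theorem nd_small {x : ℝ} (h0 : 0 ≤ x) (h1 : x < 1 / 2) : nd x = x := by
  have h : round x = 0 := by
    rw [round_eq_zero_iff]
    constructor
    · linarith
    · exact h1
  unfold nd
  rw [h]
  simp [abs_of_nonneg h0]

/-- packing -/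
theorem pack {r J : ℕ} {A Q : Set (Fin r → ℝ)} (hA : MeasurableSet A) (t : ℕ → Fin r → ℝ)
    (hsub : ∀ j < J, ∀ z, z - t j ∈ A → z ∈ Q)
    (hdis : ∀ j < J, ∀ k < J, j < k → ∀ z, z - t j ∈ A → z - t k ∈ A → False) :
    (J : ENNReal) * volume A ≤ volume Q := by
  have h1 : ∀ j, volume ((fun z => z - t j) ⁻¹' A) = volume A := by
    intro j
    have h2 := measure_preimage_add_right (volume : Measure (Fin r → ℝ)) (-t j) A
    rw [← h2]
    rfl
  have hm : ∀ j ∈ Finset.range J, MeasurableSet ((fun z => z - t j) ⁻¹' A) := fun j _ =>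
    (measurable_id.sub_const (t j)) hA
  have hd : (↑(Finset.range J) : Set ℕ).PairwiseDisjoint fun j => (fun z => z - t j) ⁻¹' A := by
    intro j hj k hk hne
    have hj' : j < J := Finset.mem_range.1 hj
    have hk' : k < J := Finset.mem_range.1 hk
    refine Set.disjoint_left.2 fun z hz hz' => ?_
    rcases lt_or_gt_of_ne hne with h | h
    · exact hdis j hj' k hk' h z hz hz'
    · exact hdis k hk' j hj' h z hz' hz
  have h3 := measure_biUnion_finset (μ := (volume : Measure (Fin r → ℝ))) hd hm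
  rw [Finset.sum_congr rfl fun j _ => h1 j, Finset.sum_const, Finset.card_range,
    nsmul_eq_mul] at h3
  rw [← h3]
  refine measure_mono fun z hz => ?_
  obtain ⟨j, hj, hz⟩ := Set.mem_iUnion₂.1 hz
  exact hsub j (Finset.mem_range.1 hj) z hz

theorem dz_add {r : ℕ} (κ : Fin r → ℤ) (x y : Fin r → ℝ) : dz κ (x + y) = dz κ x + dz κ y := by
  unfold dz
  rw [← Finset.sum_add_distrib]
  refine Finset.sum_congr rfl fun i _ => ?_
  rw [Pi.add_apply]
  ring

theorem dz_abs {r : ℕ} (κ : Fin r → ℤ) (x : Fin r → ℝ) (ρ : ℝ) (h : ∀ i, |x i| ≤ ρ) :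
    |dz κ x| ≤ (∑ i, |(κ i : ℝ)|) * ρ := by
  unfold dz
  refine (Finset.abs_sum_le_sum_abs _ _).trans ?_
  rw [Finset.sum_mul]
  refine Finset.sum_le_sum fun i _ => ?_
  rw [abs_mul]
  exact mul_le_mul_of_nonneg_left (h i) (abs_nonneg _)

/-- the bad set -/
def bs {r : ℕ} (κ : Fin r → ℤ) (ε ρ : ℝ) (η : Fin r → ℝ) : Set (Fin r → ℝ) :=
  {ζ | ζ ∈ Set.Icc (fun _ : Fin r => -ρ) (fun _ => ρ) ∧
    nd (dz κ (η + ζ)) ≤ ε * (ρ + nd (dz κ η))}

theorem bs_meas {r : ℕ} (κ : Fin r → ℤ) (ε ρ : ℝ) (η : Fin r → ℝ) :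
    MeasurableSet (bs κ ε ρ η) := by
  have h1 : Continuous fun ζ : Fin r → ℝ => nd (dz κ (η + ζ)) :=
    CDIF.nd_cont.comp ((CDIF.dz_cont κ).comp (continuous_const.add continuous_id))
  exact (isClosed_Icc.inter (isClosed_le h1 continuous_const)).measurableSet

theorem bad {r : ℕ} (κ : Fin r → ℤ) (hκ : κ ≠ 0) (J : ℕ) (hJ : 1 ≤ J) :
    ∃ ε : ℝ, 0 < ε ∧ ∀ (ρ : ℝ) (η : Fin r → ℝ), 0 < ρ → ρ ≤ 1 →
      (J : ENNReal) * volume (bs κ ε ρ η) ≤
        volume (Set.Icc (fun _ : Fin r => -(2 * ρ)) (fun _ => 2 * ρ)) := by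
  obtain ⟨i, hi⟩ : ∃ i, κ i ≠ 0 := by
    by_contra h
    push Not at h
    exact hκ (funext h)
  have hi1 : (1 : ℝ) ≤ |(κ i : ℝ)| := by
    have h1 : (1 : ℤ) ≤ |κ i| := Int.one_le_abs hi
    have h2 : ((1 : ℤ) : ℝ) ≤ ((|κ i| : ℤ) : ℝ) := by exact_mod_cast h1
    rw [Int.cast_one, Int.cast_abs] at h2
    exact h2
  have hi0 : (κ i : ℝ) ≠ 0 := by exact_mod_cast hi
  set S : ℝ := ∑ i, |(κ i : ℝ)| with hS
  have hS1 : 1 ≤ S := hi1.trans (Finset.single_le_sum (f := fun i => |(κ i : ℝ)|)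
    (fun _ _ => abs_nonneg _) (Finset.mem_univ i))
  have hJ1 : (1 : ℝ) ≤ J := by exact_mod_cast hJ
  set ε : ℝ := 1 / (6 * J * (1 + 2 * S)) with hε
  have hε0 : 0 < ε := by positivity
  have hε1 : ε * (6 * J * (1 + 2 * S)) = 1 := by
    rw [hε]
    field_simp
  have hε3 : ε * 18 ≤ 1 := by
    rw [← hε1]
    refine mul_le_mul_of_nonneg_left ?_ hε0.le
    nlinarith
  refine ⟨ε, hε0, fun ρ η hρ hρ1 => ?_⟩
  set y := dz κ η with hy
  have hy0 : 0 ≤ nd y := CDIF.nd_nonneg y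
  rcases le_or_gt (2 * S * ρ) (nd y) with hc | hc
  · -- the set is empty
    have h1 : bs κ ε ρ η = ∅ := by
      rw [Set.eq_empty_iff_forall_notMem]
      rintro ζ ⟨h2, h3⟩
      rw [dz_add, ← hy] at h3
      have h4 : |dz κ ζ| ≤ S * ρ := dz_abs κ ζ ρ fun j => abs_le.2 ⟨h2.1 j, h2.2 j⟩
      have h5 : nd y ≤ nd (y + dz κ ζ) + nd (dz κ ζ) := by
        have h6 := nd_sub (y + dz κ ζ) (dz κ ζ)
        rwa [add_sub_cancel_right] at h6
      have h6 := nd_le_abs (dz κ ζ)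
      have h7 : ρ ≤ S * ρ := by nlinarith
      have h8 : 0 < nd y := lt_of_lt_of_le (by positivity) hc
      nlinarith
    rw [h1, measure_empty, mul_zero]
    exact zero_le
  · -- packing
    set δ : ℝ := ε * (ρ + nd y) with hδ
    have hδ0 : 0 < δ := by positivity
    have hδ1 : 3 * J * δ ≤ ρ / 2 := by
      have h1 : δ ≤ ε * ((1 + 2 * S) * ρ) := by
        refine mul_le_mul_of_nonneg_left ?_ hε0.le
        nlinarith
      have h2 : 3 * J * (ε * ((1 + 2 * S) * ρ)) = ρ / 2 := by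
        have h3 : 3 * J * (ε * ((1 + 2 * S) * ρ)) = (ε * (6 * J * (1 + 2 * S))) * (ρ / 2) := by ring
        rw [h3, hε1, one_mul]
      calc 3 * J * δ ≤ 3 * J * (ε * ((1 + 2 * S) * ρ)) :=
            mul_le_mul_of_nonneg_left h1 (by positivity)
        _ = ρ / 2 := h2
    set t : ℕ → Fin r → ℝ := fun j => Pi.single i (3 * δ * j / κ i) with ht
    have htL : ∀ j, dz κ (t j) = 3 * δ * j := by
      intro j
      unfold dz
      rw [Finset.sum_eq_single i]
      · simp only [ht, Pi.single_eq_same]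
        field_simp
      · intro k _ hk
        simp [ht, Pi.single_eq_of_ne hk]
      · intro h
        exact absurd (Finset.mem_univ i) h
    have hta : ∀ j < J, ∀ k, |t j k| ≤ ρ / 2 := by
      intro j hj k
      have hjJ : (j : ℝ) ≤ J := by exact_mod_cast hj.le
      by_cases hk : k = i
      · subst hk
        simp only [ht, Pi.single_eq_same]
        rw [abs_div, abs_of_nonneg (by positivity : (0 : ℝ) ≤ 3 * δ * j)]
        rw [div_le_iff₀ (by positivity)]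
        calc 3 * δ * j ≤ 3 * δ * J := by gcongr
          _ = 3 * J * δ := by ring
          _ ≤ ρ / 2 := hδ1
          _ = ρ / 2 * 1 := (mul_one _).symm
          _ ≤ ρ / 2 * |(κ k : ℝ)| := mul_le_mul_of_nonneg_left hi1 (by positivity)
      · simp only [ht, Pi.single_eq_of_ne hk, abs_zero]
        positivity
    refine pack (bs_meas κ ε ρ η) t ?_ ?_
    · intro j hj z hz
      have h1 := hz.1
      constructor
      · intro k
        have h2 := h1.1 k
        have h3 := (abs_le.1 (hta j hj k)).1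
        have h4 : -ρ ≤ z k - t j k := h2
        show -(2 * ρ) ≤ z k
        linarith
      · intro k
        have h2 := h1.2 k
        have h3 := (abs_le.1 (hta j hj k)).2
        have h4 : z k - t j k ≤ ρ := h2
        show z k ≤ 2 * ρ
        linarith
    · intro j hj k hk hjk z hz hz'
      have h1 : nd (dz κ (η + (z - t j))) ≤ δ := hz.2
      have h2 : nd (dz κ (η + (z - t k))) ≤ δ := hz'.2
      have h3 : dz κ (η + (z - t j)) - dz κ (η + (z - t k)) = 3 * δ * (k - j) := by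
        have e1 : η + (z - t j) = (η + (z - t k)) + (t k - t j) := by abel
        have e2 : dz κ (t k - t j) + dz κ (t j) = dz κ (t k) := by
          rw [← dz_add, sub_add_cancel]
        rw [e1, dz_add, add_sub_cancel_left]
        rw [htL, htL] at e2
        linarith
      have h4 := nd_sub (dz κ (η + (z - t j))) (dz κ (η + (z - t k)))
      rw [h3] at h4
      have hjk' : (1 : ℝ) ≤ (k : ℝ) - j := by
        have : (j : ℝ) + 1 ≤ k := by exact_mod_cast hjk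
        linarith
      have hkJ : (k : ℝ) - j < J := by
        have h5 : (k : ℝ) < J := by exact_mod_cast hk
        have h6 : (0 : ℝ) ≤ j := Nat.cast_nonneg j
        linarith
      have h5 : 3 * δ * (k - j) < 1 / 2 := by
        calc 3 * δ * (k - j) < 3 * δ * J := by
              refine mul_lt_mul_of_pos_left hkJ (by positivity)
          _ = 3 * J * δ := by ring
          _ ≤ ρ / 2 := hδ1
          _ ≤ 1 / 2 := by linarith
      have h6 : 0 ≤ 3 * δ * ((k : ℝ) - j) := by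
        have : (0 : ℝ) ≤ (k : ℝ) - j := by linarith
        positivity
      rw [nd_small h6 h5] at h4
      nlinarith

/-- the norm of the denominator -/
theorem at_norm (hDE : S_DENO) {r : ℕ} {Φ : RT r} {B : Matrix (Fin r) (Fin r) ℤ} (hI : IRD Φ B)
    (hW : WFF Φ B) (θ : Fin r → ℝ) :
    ‖AT (rd Φ) 1 θ‖ ^ 2 = ∏ p ∈ pos Φ, ‖1 - eu (dz p.1 θ)‖ ^ 2 := by
  rw [hDE r Φ B hI hW θ, norm_mul, GEO.norm_eu, one_mul, norm_prod, ← Finset.prod_pow]
  refine Finset.prod_congr rfl fun p _ => ?_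
  congr 1
  have h1 : 1 - eu (-(dz p.1 θ)) = -(eu (-(dz p.1 θ)) * (1 - eu (dz p.1 θ))) := by
    have h2 : eu (-(dz p.1 θ)) * eu (dz p.1 θ) = 1 := by
      rw [← GEO.eu_add, neg_add_cancel]
      have := GEO.eu_int 0
      simpa using this
    rw [mul_sub, mul_one, h2]
    ring
  rw [h1, norm_neg, norm_mul, GEO.norm_eu, one_mul]

theorem vol_box {r : ℕ} {ρ : ℝ} (hρ : 0 < ρ) :
    volume (Set.Icc (fun _ : Fin r => -ρ) (fun _ => ρ)) = ENNReal.ofReal ((2 * ρ) ^ r) := by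
  rw [Real.volume_Icc_pi]
  have e1 : ∀ i : Fin r, ENNReal.ofReal ((fun _ : Fin r => ρ) i - (fun _ : Fin r => -ρ) i) =
      ENNReal.ofReal (2 * ρ) := by
    intro i
    congr 1
    ring
  rw [Finset.prod_congr rfl fun i _ => e1 i, Finset.prod_const, Finset.card_univ,
    Fintype.card_fin, ENNReal.ofReal_pow (by positivity)]

theorem factor {ρ y x ε : ℝ} (hρ : 0 < ρ) (hρ1 : ρ ≤ 1) (hε : 0 < ε)
    (h : ε * (ρ + nd y) ≤ nd x) :
    16 * ε ^ 2 / (8 * π ^ 2) * (ρ ^ 2 + (1 + ρ) * ‖1 - eu y‖ ^ 2) ≤ ‖1 - eu x‖ ^ 2 := by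
  have h0 : 0 ≤ nd y := CDIF.nd_nonneg y
  have h1 := CDIF.one_sub_eu y
  have h2 := GEO.lower x
  have hpi : 1 ≤ π ^ 2 := by nlinarith [Real.pi_gt_three]
  have h3 : ρ ^ 2 + (1 + ρ) * ‖1 - eu y‖ ^ 2 ≤ 8 * π ^ 2 * (ρ + nd y) ^ 2 := by
    have h4 : ‖1 - eu y‖ ^ 2 ≤ (2 * π * nd y) ^ 2 := pow_le_pow_left₀ (norm_nonneg _) h1 2
    have h5 : (1 + ρ) * ‖1 - eu y‖ ^ 2 ≤ 2 * (2 * π * nd y) ^ 2 :=
      mul_le_mul (by linarith) h4 (by positivity) (by norm_num)
    have h6 : ρ ^ 2 ≤ 8 * π ^ 2 * ρ ^ 2 := by nlinarith [sq_nonneg ρ]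
    have h7 : 0 ≤ 8 * π ^ 2 * (2 * ρ * nd y) := by positivity
    nlinarith
  have h5 : (4 * (ε * (ρ + nd y))) ^ 2 ≤ ‖1 - eu x‖ ^ 2 := by
    refine pow_le_pow_left₀ (by positivity) ?_ 2
    linarith
  calc 16 * ε ^ 2 / (8 * π ^ 2) * (ρ ^ 2 + (1 + ρ) * ‖1 - eu y‖ ^ 2)
      ≤ 16 * ε ^ 2 / (8 * π ^ 2) * (8 * π ^ 2 * (ρ + nd y) ^ 2) :=
        mul_le_mul_of_nonneg_left h3 (by positivity)
    _ = (4 * (ε * (ρ + nd y))) ^ 2 := by
        field_simp
        ring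
    _ ≤ ‖1 - eu x‖ ^ 2 := h5

end AVG

theorem t_AVG : M_AVG := by
  intro hDE r Φ B hr hI hW
  classical
  set n := (pos Φ).card with hn
  set J : ℕ := 2 * (n + 1) * 2 ^ r with hJ
  have hJ1 : 1 ≤ J := Nat.one_le_iff_ne_zero.2 (by positivity)
  have hne : ∀ p ∈ pos Φ, p.1 ≠ 0 := by
    intro p hp h0
    have h1 := hI.two p (Finset.mem_of_mem_filter p hp)
    rw [h0, dotProduct_zero] at h1
    norm_num at h1
  have hex : ∀ p : (Fin r → ℤ) × (Fin r → ℤ), ∃ ε : ℝ, 0 < ε ∧ (p ∈ pos Φ →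
      ∀ (ρ : ℝ) (η : Fin r → ℝ), 0 < ρ → ρ ≤ 1 →
      (J : ENNReal) * volume (AVG.bs p.1 ε ρ η) ≤
        volume (Set.Icc (fun _ : Fin r => -(2 * ρ)) (fun _ => 2 * ρ))) := by
    intro p
    by_cases hp : p ∈ pos Φ
    · obtain ⟨ε, h1, h2⟩ := AVG.bad p.1 (hne p hp) J hJ1
      exact ⟨ε, h1, fun _ => h2⟩
    · exact ⟨1, one_pos, fun h => absurd h hp⟩
  choose ε hε0 hεb using hex
  refine ⟨1 / 2 * ∏ p ∈ pos Φ, (16 * ε p ^ 2 / (8 * π ^ 2)), ?_, ?_⟩
  · have h1 : 0 < ∏ p ∈ pos Φ, (16 * ε p ^ 2 / (8 * π ^ 2)) :=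
      Finset.prod_pos fun p _ => by
        have := hε0 p
        positivity
    positivity
  intro ρ η hρ hρ1
  set Q : Set (Fin r → ℝ) := Set.Icc (fun _ : Fin r => -ρ) (fun _ => ρ) with hQ
  set Bad : Set (Fin r → ℝ) := ⋃ p ∈ pos Φ, AVG.bs p.1 (ε p) ρ η with hBad
  have hQv : volume.real Q = (2 * ρ) ^ r := by
    rw [Measure.real, hQ, AVG.vol_box hρ, ENNReal.toReal_ofReal (by positivity)]
  have hQt : volume Q ≠ ⊤ := by
    rw [hQ, AVG.vol_box hρ]
    exact ENNReal.ofReal_ne_top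
  have hbv : ∀ p ∈ pos Φ, volume.real (AVG.bs p.1 (ε p) ρ η) ≤
      (2 * ρ) ^ r / (2 * (n + 1)) := by
    intro p hp
    have h1 := hεb p hp ρ η hρ hρ1
    have h2ρ : (0 : ℝ) < 2 * ρ := by positivity
    rw [AVG.vol_box h2ρ] at h1
    have h2 := ENNReal.toReal_mono ENNReal.ofReal_ne_top h1
    rw [ENNReal.toReal_mul, ENNReal.toReal_natCast, ENNReal.toReal_ofReal (by positivity)] at h2
    have h3 : (J : ℝ) = 2 * (n + 1) * 2 ^ r := by
      rw [hJ]
      push_cast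
      ring
    rw [h3] at h2
    have h4 : (2 * (2 * ρ)) ^ r = 2 ^ r * (2 * ρ) ^ r := mul_pow _ _ _
    rw [h4] at h2
    rw [le_div_iff₀ (by positivity)]
    have h5 : (0 : ℝ) < 2 ^ r := by positivity
    have h6 : 2 ^ r * (volume.real (AVG.bs p.1 (ε p) ρ η) * (2 * (n + 1))) ≤
        2 ^ r * (2 * ρ) ^ r := by
      calc _ = 2 * (n + 1) * 2 ^ r * volume.real (AVG.bs p.1 (ε p) ρ η) := by ring
        _ ≤ _ := h2
    exact le_of_mul_le_mul_left h6 h5
  have hBm : MeasurableSet Bad :=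
    Finset.measurableSet_biUnion _ fun p _ => AVG.bs_meas _ _ _ _
  have hBv : volume.real Bad ≤ (2 * ρ) ^ r / 2 := by
    calc volume.real Bad ≤ ∑ p ∈ pos Φ, volume.real (AVG.bs p.1 (ε p) ρ η) :=
          measureReal_biUnion_finset_le _ _
      _ ≤ ∑ _p ∈ pos Φ, (2 * ρ) ^ r / (2 * (n + 1)) := Finset.sum_le_sum hbv
      _ = n * ((2 * ρ) ^ r / (2 * (n + 1))) := by
          rw [Finset.sum_const, nsmul_eq_mul]
      _ ≤ (n + 1) * ((2 * ρ) ^ r / (2 * (n + 1))) := by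
          gcongr
          linarith
      _ = (2 * ρ) ^ r / 2 := by
          field_simp
  have hGv : (2 * ρ) ^ r / 2 ≤ volume.real (Q \ Bad) := by
    have h1 : volume.real Q ≤ volume.real (Q \ Bad) + volume.real Bad := by
      have h2 : Q ⊆ (Q \ Bad) ∪ Bad := fun z hz => by
        by_cases h : z ∈ Bad
        · exact Or.inr h
        · exact Or.inl ⟨hz, h⟩
      refine (measureReal_mono h2 ?_).trans (measureReal_union_le _ _)
      have h3 : (Q \ Bad) ∪ Bad ⊆ Q := by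
        rintro z (hz | hz)
        · exact hz.1
        · obtain ⟨p, _, hz⟩ := Set.mem_iUnion₂.1 hz
          exact hz.1
      exact ne_top_of_le_ne_top hQt (measure_mono h3)
    rw [hQv] at h1
    linarith
  have hcont : Continuous fun ζ : Fin r → ℝ => ‖AT (rd Φ) 1 (η + ζ)‖ ^ 2 := by
    have h1 : Continuous (AT (rd Φ) (1 : Fin r → ℤ)) := by
      unfold AT eu dz
      fun_prop
    exact (h1.comp (continuous_const.add continuous_id)).norm.pow 2
  have hint : IntegrableOn (fun ζ : Fin r → ℝ => ‖AT (rd Φ) 1 (η + ζ)‖ ^ 2) Q :=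
    hcont.continuousOn.integrableOn_compact isCompact_Icc
  set m : ℝ := ∏ p ∈ pos Φ, (16 * ε p ^ 2 / (8 * π ^ 2) *
    (ρ ^ 2 + (1 + ρ) * ‖1 - eu (dz p.1 η)‖ ^ 2)) with hm
  have hm0 : 0 ≤ m := Finset.prod_nonneg fun p _ => by positivity
  have hlow : ∀ ζ ∈ Q \ Bad, m ≤ ‖AT (rd Φ) 1 (η + ζ)‖ ^ 2 := by
    intro ζ hζ
    rw [AVG.at_norm hDE hI hW, hm]
    refine Finset.prod_le_prod (fun p _ => by positivity) fun p hp => ?_
    refine AVG.factor hρ hρ1 (hε0 p) ?_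
    by_contra hcon
    push Not at hcon
    exact hζ.2 (Set.mem_iUnion₂.2 ⟨p, hp, ⟨hζ.1, hcon.le⟩⟩)
  have hI2 : m * ((2 * ρ) ^ r / 2) ≤
      ∫ ζ in Q, ‖AT (rd Φ) 1 (η + ζ)‖ ^ 2 := by
    have hGm : MeasurableSet (Q \ Bad) := measurableSet_Icc.diff hBm
    calc m * ((2 * ρ) ^ r / 2) ≤ m * volume.real (Q \ Bad) :=
          mul_le_mul_of_nonneg_left hGv hm0
      _ = ∫ _ in Q \ Bad, m := by
          rw [setIntegral_const, smul_eq_mul, mul_comm]
      _ ≤ ∫ ζ in Q \ Bad, ‖AT (rd Φ) 1 (η + ζ)‖ ^ 2 := by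
          refine setIntegral_mono_on ?_ (hint.mono_set Set.sdiff_subset) hGm hlow
          refine integrableOn_const ?_
          exact ne_top_of_le_ne_top hQt (measure_mono Set.sdiff_subset)
      _ ≤ ∫ ζ in Q, ‖AT (rd Φ) 1 (η + ζ)‖ ^ 2 := by
          refine setIntegral_mono_set hint (Eventually.of_forall fun ζ => by positivity) ?_
          exact (Set.sdiff_subset).eventuallyLE
  have h2ρ : (0 : ℝ) < (2 * ρ) ^ r := by positivity
  rw [Real.rpow_neg (by positivity), Real.rpow_natCast, inv_mul_eq_div, le_div_iff₀ h2ρ]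
  calc (1 / 2 * ∏ p ∈ pos Φ, (16 * ε p ^ 2 / (8 * π ^ 2))) *
        (∏ p ∈ pos Φ, (ρ ^ 2 + (1 + ρ) * ‖1 - eu (dz p.1 η)‖ ^ 2)) * (2 * ρ) ^ r
      = m * ((2 * ρ) ^ r / 2) := by
        rw [hm, Finset.prod_mul_distrib]
        ring
    _ ≤ _ := hI2

end

end STZ3
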