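import Pool.Agent.STZ3.StS
import Pool.Agent.STZ.TTX

/-!
# Module BII: the bound (II)
-/

set_option autoImplicit false
set_option linter.unusedSectionVars false

namespace STZ3

open STZ LGR MeasureTheory Matrix Filter

open scoped ComplexConjugate Matrix Real Topology

noncomputable section

namespace BII

/-- Bessel's inequality for the Fourier series on `[0, 1]` -/
theorem bes {h : ℝ → ℂ} (hh : Continuous h) (S : Finset ℤ) :
    ∑ n ∈ S, ‖∫ t in (0 : ℝ)..1, eu (-(t * n)) * h t‖ ^ 2 ≤ ∫ t in (0 : ℝ)..1, ‖h t‖ ^ 2 := by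
  have hL2 : MemLp h 2 (volume.restrict (Set.Ioc (0 : ℝ) 1)) := by
    obtain ⟨C, hC⟩ := isCompact_Icc.exists_bound_of_continuousOn
      (hh.continuousOn (s := Set.Icc (0 : ℝ) 1))
    refine MemLp.of_bound hh.aestronglyMeasurable C ?_
    rw [ae_restrict_iff' measurableSet_Ioc]
    exact Filter.Eventually.of_forall fun x hx => hC x (Set.Ioc_subset_Icc_self hx)
  have h1 := hasSum_sq_fourierCoeffOn (zero_lt_one : (0 : ℝ) < 1) hL2
  have h2 := sum_le_hasSum S (fun i _ => by positivity) h1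
  have h3 : ∀ n : ℤ, ‖fourierCoeffOn (zero_lt_one : (0 : ℝ) < 1) h n‖ =
      ‖∫ t in (0 : ℝ)..1, eu (-(t * n)) * h t‖ := by
    intro n
    rw [fourierCoeffOn_eq_integral]
    simp only [sub_zero, div_one, one_smul]
    congr 1
    refine intervalIntegral.integral_congr fun t _ => ?_
    simp only [smul_eq_mul]
    congr 1
    rw [fourier_coe_apply, eu]
    congr 1
    push_cast
    ring
  simp only [h3] at h2
  simpa using h2

section

variable {M : Type} [TopologicalSpace M] [CompactSpace M] [T2Space M]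
  [SecondCountableTopology M] [MeasurableSpace M] [BorelSpace M] (μ : Measure M)
  [IsProbabilityMeasure μ] {ι : Type} {K : ι → M → M → ℂ}

open TTX

/-- the projections of `G` are jointly continuous -/
theorem jc_Pr (hK : Ker μ K) (S : Finset ι) {G : ℝ → M → ℂ} (hG : JC G) :
    JC fun t => Pr μ K S (G t) := by
  unfold JC Pr
  refine continuous_finsetSum S fun a _ => ?_
  refine par μ (f := fun (w : ℝ × M) (y : M) => K a w.2 y * G w.1 y) ?_
  refine Continuous.mul ?_ ?_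
  · exact (hK.cont a).comp (f := fun z : (ℝ × M) × M => (z.1.2, z.2)) (by fun_prop)
  · exact Continuous.comp (g := fun z : ℝ × M => G z.1 z.2) hG
      (f := fun z : (ℝ × M) × M => (z.1.1, z.2)) (by fun_prop)

/-- the projection of the time integral -/
theorem Pr_vt (hK : Ker μ K) (i : ι) {G : ℝ → M → ℂ} (hG : JC G) (φ : ℤ) (x : M) :
    Pr μ K {i} (vt φ G) x = vt φ (fun t => Pr μ K {i} (G t)) x := by
  unfold Pr
  simp only [Finset.sum_singleton]
  have hf : JC fun s y => K i x y * (eu (-(s * φ)) * G s y) := by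
    unfold JC
    refine Continuous.mul ?_ (jc_eu' hG φ)
    exact (hK.cont i).comp (f := fun z : ℝ × M => (x, z.2)) (by fun_prop)
  have h2 := swapT μ hf
  have h3 : ∀ y, ∫ s in (0 : ℝ)..1, K i x y * (eu (-(s * φ)) * G s y) = K i x y * vt φ G y := by
    intro y
    unfold vt
    rw [← intervalIntegral.integral_const_mul]
  simp only [h3] at h2
  rw [← h2]
  unfold vt
  refine intervalIntegral.integral_congr fun s _ => ?_
  simp only
  rw [← integral_const_mul]
  refine integral_congr_ae (Filter.Eventually.of_forall fun y => ?_)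
  simp only
  ring

/-- Bessel's inequality for one projection -/
theorem bes_i {g : ℝ → M → ℂ} (hg : JC g) (S : Finset ℤ) :
    ∑ n ∈ S, nsq μ (vt n g) ≤ ∫ t in (0 : ℝ)..1, nsq μ (g t) := by
  have h1 : JC fun t x => ((‖g t x‖ ^ 2 : ℝ) : ℂ) := by
    unfold JC at *
    fun_prop
  have h2 : ∫ t in (0 : ℝ)..1, nsq μ (g t) = ∫ x, (∫ t in (0 : ℝ)..1, ‖g t x‖ ^ 2) ∂μ := by
    unfold nsq
    refine intervalIntegral_integral_swap ?_
    rw [Set.uIoc_of_le zero_le_one]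
    have hc : IsCompact ((Set.Icc (0 : ℝ) 1) ×ˢ (Set.univ : Set M)) :=
      isCompact_Icc.prod isCompact_univ
    have h1 : IntegrableOn (Function.uncurry fun t x => ‖g t x‖ ^ 2)
        ((Set.Icc (0 : ℝ) 1) ×ˢ (Set.univ : Set M)) ((volume : Measure ℝ).prod μ) := by
      have h2 : Continuous (Function.uncurry fun t x => ‖g t x‖ ^ 2) := by
        have h3 : Continuous fun z : ℝ × M => g z.1 z.2 := hg
        exact h3.norm.pow 2
      exact h2.continuousOn.integrableOn_compact hc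
    have h2 := h1.mono_set (Set.prod_mono Set.Ioc_subset_Icc_self (Set.subset_univ Set.univ))
    have e : ((volume : Measure ℝ).restrict (Set.Ioc 0 1)).prod μ =
        ((volume : Measure ℝ).prod μ).restrict ((Set.Ioc (0 : ℝ) 1) ×ˢ (Set.univ : Set M)) := by
      rw [← Measure.prod_restrict, Measure.restrict_univ]
    rw [e]
    exact h2
  have hv : ∀ n : ℤ, Continuous fun x => ‖vt n g x‖ ^ 2 := fun n => (vt_cont hg n).norm.pow 2
  have h3 : ∑ n ∈ S, nsq μ (vt n g) = ∫ x, ∑ n ∈ S, ‖vt n g x‖ ^ 2 ∂μ := by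
    unfold nsq
    rw [integral_finsetSum]
    intro n _
    exact integ μ (hv n)
  rw [h2, h3]
  refine integral_mono (integ μ (continuous_finsetSum S fun n _ => hv n)) (integ μ ?_) fun x => ?_
  · refine intervalIntegral.continuous_parametric_intervalIntegral_of_continuous'
      (f := fun (x : M) (t : ℝ) => ‖g t x‖ ^ 2) ?_ 0 1
    have h4 : Continuous fun z : M × ℝ => g z.2 z.1 :=
      Continuous.comp (g := fun z : ℝ × M => g z.1 z.2) hg
        (f := fun z : M × ℝ => (z.2, z.1)) (by fun_prop)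
    exact h4.norm.pow 2
  · exact bes (sec hg x) S

/-- the form of a kernel whose multipliers have bounded Fourier coefficients -/
theorem form (hK : Ker μ K) (hF : KBF μ K) (F : Finset ι) (S : ι → Finset ℤ) (mh : ι → ℤ → ℂ)
    (A : ℝ) (hA : 0 ≤ A) (hmh : ∀ i ∈ F, ∀ n ∈ S i, ‖mh i n‖ ≤ A) {G : ℝ → M → ℂ} (hG : JC G)
    (hG1 : ∀ t y, ‖G t y‖ ≤ 1) :
    ‖∫ t in (0 : ℝ)..1, ∫ s in (0 : ℝ)..1, ∫ x, conj (G t x) *
      ∫ y, (∑ i ∈ F, (∑ n ∈ S i, mh i n * eu ((t - s) * n)) * K i x y) * G s y ∂μ ∂μ‖ ≤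
      A * ∫ t in (0 : ℝ)..1, ∫ x, ‖G t x‖ ∂μ := by
  have e1 : ∀ t s : ℝ, ∫ x, conj (G t x) *
      ∫ y, (∑ i ∈ F, (∑ n ∈ S i, mh i n * eu ((t - s) * n)) * K i x y) * G s y ∂μ ∂μ =
      ∑ i ∈ F, ∑ n ∈ S i, mh i n * (eu ((t - s) * n) * bf μ (K i) (G s) (G t)) := by
    intro t s
    have h := bf_sum μ F (fun i => ∑ n ∈ S i, mh i n * eu ((t - s) * n)) K
      (fun i _ => hK.cont i) (sec' hG s) (sec' hG t)
    unfold bf at h
    rw [h]
    refine Finset.sum_congr rfl fun i _ => ?_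
    rw [Finset.sum_mul]
    refine Finset.sum_congr rfl fun n _ => ?_
    unfold bf
    ring
  have hc2 : ∀ i, Continuous fun z : ℝ × ℝ => bf μ (K i) (G z.2) (G z.1) := by
    intro i
    refine bf_cont μ (X := ℝ × ℝ) (k := fun _ => K i) (u := fun z => G z.2) (v := fun z => G z.1)
      ?_ ?_ ?_
    · exact (hK.cont i).comp (f := fun z : (ℝ × ℝ) × M × M => (z.2.1, z.2.2)) (by fun_prop)
    · exact Continuous.comp (g := fun z : ℝ × M => G z.1 z.2) hG
        (f := fun z : (ℝ × ℝ) × M => (z.1.2, z.2)) (by fun_prop)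
    · exact Continuous.comp (g := fun z : ℝ × M => G z.1 z.2) hG
        (f := fun z : (ℝ × ℝ) × M => (z.1.1, z.2)) (by fun_prop)
  have hc3 : ∀ i (n : ℤ), Continuous fun z : ℝ × ℝ =>
      mh i n * (eu ((z.1 - z.2) * n) * bf μ (K i) (G z.2) (G z.1)) := by
    intro i n
    exact continuous_const.mul ((eu_cont.comp (by fun_prop)).mul (hc2 i))
  have e2 : ∫ t in (0 : ℝ)..1, ∫ s in (0 : ℝ)..1,
      ∑ i ∈ F, ∑ n ∈ S i, mh i n * (eu ((t - s) * n) * bf μ (K i) (G s) (G t)) =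
      ∑ i ∈ F, ∑ n ∈ S i, mh i n * bf μ (K i) (vt n G) (vt n G) := by
    have h1 : ∀ t : ℝ, ∫ s in (0 : ℝ)..1,
        ∑ i ∈ F, ∑ n ∈ S i, mh i n * (eu ((t - s) * n) * bf μ (K i) (G s) (G t)) =
        ∑ i ∈ F, ∑ n ∈ S i, ∫ s in (0 : ℝ)..1,
          mh i n * (eu ((t - s) * n) * bf μ (K i) (G s) (G t)) := by
      intro t
      rw [intervalIntegral.integral_finsetSum]
      · refine Finset.sum_congr rfl fun i _ => ?_
        rw [intervalIntegral.integral_finsetSum]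
        intro n _
        exact ((hc3 i n).comp (f := fun s : ℝ => (t, s)) (by fun_prop)).intervalIntegrable _ _
      · intro i _
        exact (continuous_finsetSum _ fun n _ =>
          (hc3 i n).comp (f := fun s : ℝ => (t, s)) (by fun_prop)).intervalIntegrable _ _
    simp only [h1]
    have hc4 : ∀ i (n : ℤ), Continuous fun t : ℝ => ∫ s in (0 : ℝ)..1,
        mh i n * (eu ((t - s) * n) * bf μ (K i) (G s) (G t)) := by
      intro i n
      exact intervalIntegral.continuous_parametric_intervalIntegral_of_continuous'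
        (f := fun (t : ℝ) (s : ℝ) => mh i n * (eu ((t - s) * n) * bf μ (K i) (G s) (G t)))
        (hc3 i n) 0 1
    rw [intervalIntegral.integral_finsetSum]
    · refine Finset.sum_congr rfl fun i _ => ?_
      rw [intervalIntegral.integral_finsetSum]
      · refine Finset.sum_congr rfl fun n _ => ?_
        rw [bf_vt μ (hK.cont i) hG n, ← intervalIntegral.integral_const_mul]
        refine intervalIntegral.integral_congr fun t _ => ?_
        exact intervalIntegral.integral_const_mul _ _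
      · intro n _
        exact (hc4 i n).intervalIntegrable _ _
    · intro i _
      exact (continuous_finsetSum _ fun n _ => hc4 i n).intervalIntegrable _ _
  have e3 : ∀ i (n : ℤ), bf μ (K i) (vt n G) (vt n G) =
      ((nsq μ (vt n fun t => Pr μ K {i} (G t)) : ℝ) : ℂ) := by
    intro i n
    have h1 := hF.inn {i} (vt n G) (vt_cont hG n)
    have h2 : Pr μ K {i} (vt n G) = vt n (fun t => Pr μ K {i} (G t)) :=
      funext fun x => Pr_vt μ hK i hG n x
    rw [← h2, ← h1]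
    unfold bf Pr
    simp only [Finset.sum_singleton]
  simp only [e1]
  rw [e2]
  have h4 : ∀ i ∈ F, ‖∑ n ∈ S i, mh i n * bf μ (K i) (vt n G) (vt n G)‖ ≤
      A * ∫ t in (0 : ℝ)..1, nsq μ (Pr μ K {i} (G t)) := by
    intro i hi
    refine (norm_sum_le _ _).trans ?_
    refine le_trans ?_ (mul_le_mul_of_nonneg_left (bes_i μ (jc_Pr μ hK {i} hG) (S i)) hA)
    rw [Finset.mul_sum]
    refine Finset.sum_le_sum fun n hn => ?_
    have h5 : 0 ≤ nsq μ (vt n fun t => Pr μ K {i} (G t)) := integral_nonneg fun x => by positivity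
    rw [norm_mul, e3, Complex.norm_real, Real.norm_of_nonneg h5]
    exact mul_le_mul_of_nonneg_right (hmh i hi n hn) h5
  refine (norm_sum_le _ _).trans ((Finset.sum_le_sum h4).trans ?_)
  rw [← Finset.mul_sum]
  refine mul_le_mul_of_nonneg_left ?_ hA
  have hcn : ∀ (S : Finset ι), Continuous fun t => nsq μ (Pr μ K S (G t)) := by
    intro S
    unfold nsq
    refine par μ (f := fun t x => ‖Pr μ K S (G t) x‖ ^ 2) ?_
    have h5 : Continuous fun z : ℝ × M => Pr μ K S (G z.1) z.2 := jc_Pr μ hK S hG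
    exact h5.norm.pow 2
  rw [← intervalIntegral.integral_finsetSum]
  · refine intervalIntegral.integral_mono_on zero_le_one ?_ ?_ fun t _ => ?_
    · exact (continuous_finsetSum _ fun i _ => hcn {i}).intervalIntegrable _ _
    · refine (par μ (f := fun t x => ‖G t x‖) ?_).intervalIntegrable _ _
      have h5 : Continuous fun z : ℝ × M => G z.1 z.2 := hG
      exact h5.norm
    · rw [← hF.pyth F (G t) (sec' hG t)]
      exact (hF.bess F (G t) (sec' hG t)).trans (nsq_le μ (sec' hG t) (hG1 t))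
  · intro i _
    exact (hcn {i}).intervalIntegrable _ _

end

/-- two positive roots are linearly independent -/
theorem indep {r : ℕ} {Φ : RT r} {B : Matrix (Fin r) (Fin r) ℤ} (hI : IRD Φ B) (hW : WFF Φ B)
    {p q : (Fin r → ℤ) × (Fin r → ℤ)} (hp : p ∈ pos Φ) (hq : q ∈ pos Φ) (hpq : p ≠ q) {a b : ℤ}
    (h : a • p.1 + b • q.1 = 0) : a = 0 ∧ b = 0 := by
  have key : ∀ p q : (Fin r → ℤ) × (Fin r → ℤ), p ∈ pos Φ → q ∈ pos Φ → p ≠ q → ∀ a b : ℤ,
      a • p.1 = b • q.1 → a = 0 := by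
    intro p q hp hq hpq a b h
    by_contra ha
    obtain ⟨hp1, hp2, hp3, -⟩ := hW.ppos p hp
    obtain ⟨hq1, hq2, hq3, -⟩ := hW.ppos q hq
    rcases hI.red p hp1 q hq1 a b ha (Or.inl h) with h1 | h1
    · exact hpq h1.symm
    · apply hq3
      funext i
      have h2 := hp2 i
      have h3 := hq2 i
      rw [h1] at h3
      simp only [Pi.neg_apply] at h3
      rw [h1]
      simp only [Pi.neg_apply, Pi.zero_apply]
      omega
  have h1 : a • p.1 = (-b) • q.1 := by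
    rw [neg_smul]
    exact eq_neg_of_add_eq_zero_left h
  have h2 : b • q.1 = (-a) • p.1 := by
    rw [neg_smul]
    exact eq_neg_of_add_eq_zero_right h
  exact ⟨key p q hp hq hpq a _ h1, key q p hq hp hpq.symm b _ h2⟩

/-- the sum over the representations of a vector as a combination of the roots -/
theorem comb {P : Type} [Fintype P] [DecidableEq P] {r : ℕ} (v : P → Fin r → ℤ) (p₁ p₂ : P)
    (hne : p₁ ≠ p₂) (hv : ∀ a b : ℤ, a • v p₁ + b • v p₂ = 0 → a = 0 ∧ b = 0) (f : P → ℤ → ℝ)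
    (hf : ∀ p k, 0 ≤ f p k) (K : ℕ) (a₁ a₂ D : ℝ) (hD : 1 ≤ D) (h₁ : ∀ k, f p₁ k ≤ a₁)
    (h₂ : ∀ k, f p₂ k ≤ a₂) (hs : ∀ p, ∑ k ∈ Finset.Icc (-(K : ℤ)) K, f p k ≤ D)
    (κ : Fin r → ℤ) :
    ∑ k ∈ (Fintype.piFinset fun _ : P => Finset.Icc (-(K : ℤ)) K).filter
      (fun k => ∑ p, k p • v p = κ), ∏ p, f p (k p) ≤ a₁ * a₂ * D ^ Fintype.card P := by
  classical
  have ha₁ : 0 ≤ a₁ := (hf p₁ 0).trans (h₁ 0)
  have ha₂ : 0 ≤ a₂ := (hf p₂ 0).trans (h₂ 0)
  set A := (Fintype.piFinset fun _ : P => Finset.Icc (-(K : ℤ)) K).filter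
      (fun k => ∑ p, k p • v p = κ) with hA
  let g : P → ℤ → ℝ := fun p j => if p = p₁ ∨ p = p₂ then 1 else f p j
  let φ : (P → ℤ) → P → ℤ := fun k p => if p = p₁ ∨ p = p₂ then 0 else k p
  let T : P → Finset ℤ := fun p => if p = p₁ ∨ p = p₂ then {0} else Finset.Icc (-(K : ℤ)) K
  have hg0 : ∀ p j, 0 ≤ g p j := by
    intro p j
    simp only [g]
    split_ifs
    · exact zero_le_one
    · exact hf p j
  have e1 : ∀ k : P → ℤ, ∏ p, f p (k p) ≤ a₁ * a₂ * ∏ p, g p (φ k p) := by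
    intro k
    have e2 : ∏ p, f p (k p) = f p₁ (k p₁) * (f p₂ (k p₂) *
        ∏ p ∈ (Finset.univ.erase p₁).erase p₂, f p (k p)) := by
      rw [← Finset.mul_prod_erase Finset.univ _ (Finset.mem_univ p₁),
        ← Finset.mul_prod_erase (Finset.univ.erase p₁) _
          (Finset.mem_erase.mpr ⟨hne.symm, Finset.mem_univ p₂⟩)]
    have e3 : ∏ p, g p (φ k p) = ∏ p ∈ (Finset.univ.erase p₁).erase p₂, f p (k p) := by
      rw [← Finset.mul_prod_erase Finset.univ _ (Finset.mem_univ p₁),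
        ← Finset.mul_prod_erase (Finset.univ.erase p₁) _
          (Finset.mem_erase.mpr ⟨hne.symm, Finset.mem_univ p₂⟩)]
      have e4 : g p₁ (φ k p₁) = 1 := by simp [g]
      have e5 : g p₂ (φ k p₂) = 1 := by simp [g]
      rw [e4, e5, one_mul, one_mul]
      refine Finset.prod_congr rfl fun p hp => ?_
      rw [Finset.mem_erase, Finset.mem_erase] at hp
      have h3 : ¬ (p = p₁ ∨ p = p₂) := by
        rintro (h | h)
        · exact hp.2.1 h
        · exact hp.1 h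
      simp only [g, φ, if_neg h3]
    rw [e2, e3, mul_assoc]
    have h3 : 0 ≤ ∏ p ∈ (Finset.univ.erase p₁).erase p₂, f p (k p) :=
      Finset.prod_nonneg fun p _ => hf p _
    exact mul_le_mul (h₁ _) (mul_le_mul_of_nonneg_right (h₂ _) h3)
      (mul_nonneg (hf _ _) h3) ha₁
  have hinj : Set.InjOn φ (A : Set (P → ℤ)) := by
    intro k hk k' hk' h
    rw [Finset.mem_coe, hA, Finset.mem_filter] at hk hk'
    have h3 : ∀ p, p ≠ p₁ → p ≠ p₂ → k p = k' p := by
      intro p h4 h5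
      have h6 := congrFun h p
      have h7 : ¬ (p = p₁ ∨ p = p₂) := by
        rintro (h | h)
        · exact h4 h
        · exact h5 h
      simpa only [φ, if_neg h7] using h6
    have h4 : ∑ p, (k p - k' p) • v p = 0 := by
      simp only [sub_smul, Finset.sum_sub_distrib]
      rw [hk.2, hk'.2, sub_self]
    rw [← Finset.add_sum_erase Finset.univ _ (Finset.mem_univ p₁),
        ← Finset.add_sum_erase (Finset.univ.erase p₁) _
          (Finset.mem_erase.mpr ⟨hne.symm, Finset.mem_univ p₂⟩)] at h4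
    have h5 : ∑ p ∈ (Finset.univ.erase p₁).erase p₂, (k p - k' p) • v p = 0 := by
      refine Finset.sum_eq_zero fun p hp => ?_
      rw [Finset.mem_erase, Finset.mem_erase] at hp
      rw [h3 p hp.2.1 hp.1, sub_self, zero_smul]
    rw [h5, add_zero] at h4
    obtain ⟨h6, h7⟩ := hv _ _ h4
    funext p
    by_cases h8 : p = p₁
    · rw [h8]; exact sub_eq_zero.mp h6
    · by_cases h9 : p = p₂
      · rw [h9]; exact sub_eq_zero.mp h7
      · exact h3 p h8 h9
  calc ∑ k ∈ A, ∏ p, f p (k p) ≤ ∑ k ∈ A, a₁ * a₂ * ∏ p, g p (φ k p) :=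
        Finset.sum_le_sum fun k _ => e1 k
    _ = a₁ * a₂ * ∑ k ∈ A, ∏ p, g p (φ k p) := by rw [Finset.mul_sum]
    _ = a₁ * a₂ * ∑ k ∈ A.image φ, ∏ p, g p (k p) := by rw [Finset.sum_image hinj]
    _ ≤ a₁ * a₂ * ∑ k ∈ Fintype.piFinset T, ∏ p, g p (k p) := by
        refine mul_le_mul_of_nonneg_left ?_ (mul_nonneg ha₁ ha₂)
        refine Finset.sum_le_sum_of_subset_of_nonneg ?_ fun k _ _ =>
          Finset.prod_nonneg fun p _ => hg0 p _
        intro k' hk'
        obtain ⟨k, hk, rfl⟩ := Finset.mem_image.mp hk'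
        rw [hA, Finset.mem_filter, Fintype.mem_piFinset] at hk
        rw [Fintype.mem_piFinset]
        intro p
        simp only [T, φ]
        split_ifs
        · exact Finset.mem_singleton_self 0
        · exact hk.1 p
    _ = a₁ * a₂ * ∏ p, ∑ j ∈ T p, g p j := by rw [Finset.prod_univ_sum]
    _ ≤ a₁ * a₂ * ∏ _p : P, D := by
        refine mul_le_mul_of_nonneg_left ?_ (mul_nonneg ha₁ ha₂)
        refine Finset.prod_le_prod (fun p _ => Finset.sum_nonneg fun j _ => hg0 p j) fun p _ => ?_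
        by_cases h3 : p = p₁ ∨ p = p₂
        · simp only [T, g, if_pos h3, Finset.sum_singleton]
          exact hD
        · simp only [T, g, if_neg h3]
          exact hs p
    _ = a₁ * a₂ * D ^ Fintype.card P := by rw [Finset.prod_const, Finset.card_univ]

/-- the bound of the coefficients -/
theorem coef {Φ : RT 2} {B : Matrix (Fin 2) (Fin 2) ℤ} (hI : IRD Φ B) (hW : WFF Φ B) {m : ℕ}
    {C₁ D CR ε : ℝ} (hC : CFF m C₁) (hD : 1 ≤ D) (hCD : C₁ ≤ D) (hCR : 0 ≤ CR)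
    (hR : ∀ (X : ℕ) (k : ℤ) (S : Finset (Fin 2 → ℤ)), 1 ≤ X →
      (∀ l ∈ S, (rd Φ).Q l = k ∧ ∀ i, |l i| ≤ X) → (S.card : ℝ) ≤ CR * (X : ℝ) ^ ε)
    (J : ℕ) (q : (Fin 2 → ℤ) → ℝ) (x : {p // p ∈ pos Φ} → Fin (J + 1))
    (p₁ p₂ : {p // p ∈ pos Φ}) (hq : QH Φ (2 ^ J) q) (hne : p₁ ≠ p₂) (K : ℕ) (ν : Fin 2 → ℤ)
    (n : ℤ) :
    ∑ k ∈ (kB Φ K).filter (fun k => -(rd Φ).Q (ν - rs (pos Φ) k) = n),
      (∏ p, ‖cf m J (x p).val (k p)‖) * q (ν - rs (pos Φ) k) ≤
      CR * (2 : ℝ) ^ (ε * J) * (D / 2 ^ (x p₁).val * (D / 2 ^ (x p₂).val) *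
        D ^ Fintype.card {p // p ∈ pos Φ}) := by
  classical
  set E : ℝ := D / 2 ^ (x p₁).val * (D / 2 ^ (x p₂).val) * D ^ Fintype.card {p // p ∈ pos Φ}
    with hE
  have hE0 : 0 ≤ E := by positivity
  set A := (kB Φ K).filter (fun k => -(rd Φ).Q (ν - rs (pos Φ) k) = n ∧
    q (ν - rs (pos Φ) k) ≠ 0) with hA
  have hx : ∀ p, (x p).val ≤ J := fun p => Nat.lt_succ_iff.mp (x p).isLt
  have h1 : ∑ k ∈ (kB Φ K).filter (fun k => -(rd Φ).Q (ν - rs (pos Φ) k) = n),
      (∏ p, ‖cf m J (x p).val (k p)‖) * q (ν - rs (pos Φ) k) ≤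
      ∑ k ∈ A, ∏ p, ‖cf m J (x p).val (k p)‖ := by
    rw [hA, ← Finset.filter_filter, Finset.sum_filter (fun k => q (ν - rs (pos Φ) k) ≠ 0)]
    refine Finset.sum_le_sum fun k _ => ?_
    have h2 : 0 ≤ ∏ p, ‖cf m J (x p).val (k p)‖ := Finset.prod_nonneg fun p _ => norm_nonneg _
    split_ifs with h3
    · exact mul_le_of_le_one_right h2 (hq.le _)
    · rw [not_not.mp h3, mul_zero]
  have h2 : ∑ k ∈ A, ∏ p, ‖cf m J (x p).val (k p)‖ =
      ∑ l ∈ A.image (fun k => ν - rs (pos Φ) k), ∑ k ∈ A.filter (fun k => ν - rs (pos Φ) k = l),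
        ∏ p, ‖cf m J (x p).val (k p)‖ :=
    (Finset.sum_fiberwise_of_maps_to (fun k hk => Finset.mem_image_of_mem _ hk) _).symm
  have h3 : ∀ l ∈ A.image (fun k => ν - rs (pos Φ) k),
      ∑ k ∈ A.filter (fun k => ν - rs (pos Φ) k = l), ∏ p, ‖cf m J (x p).val (k p)‖ ≤ E := by
    intro l _
    have h4 := comb (fun p : {p // p ∈ pos Φ} => p.1.1) p₁ p₂ hne
      (fun a b h => indep hI hW p₁.2 p₂.2 (fun h => hne (Subtype.ext h)) h)
      (fun p k => ‖cf m J (x p).val k‖) (fun p k => norm_nonneg _) K (D / 2 ^ (x p₁).val)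
      (D / 2 ^ (x p₂).val) D hD
      (fun k => (hC.sup J _ k (hx p₁)).trans (div_le_div_of_nonneg_right hCD (by positivity)))
      (fun k => (hC.sup J _ k (hx p₂)).trans (div_le_div_of_nonneg_right hCD (by positivity)))
      (fun p => (hC.abs J _ K (hx p)).trans hCD) (ν - l)
    refine le_trans (Finset.sum_le_sum_of_subset_of_nonneg ?_ fun k _ _ =>
      Finset.prod_nonneg fun p _ => norm_nonneg _) h4
    intro k hk
    rw [Finset.mem_filter, hA, Finset.mem_filter] at hk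
    rw [Finset.mem_filter]
    refine ⟨hk.1.1, ?_⟩
    have h5 : rs (pos Φ) k = ν - l := by rw [← hk.2]; abel
    exact h5
  have h4 : ((A.image (fun k => ν - rs (pos Φ) k)).card : ℝ) ≤ CR * (2 : ℝ) ^ (ε * J) := by
    have h5 := hR (2 ^ J) (-n) (A.image (fun k => ν - rs (pos Φ) k)) Nat.one_le_two_pow (by
      intro l hl
      obtain ⟨k, hk, rfl⟩ := Finset.mem_image.mp hl
      rw [hA, Finset.mem_filter] at hk
      refine ⟨by rw [← hk.2.1, neg_neg], fun i => ?_⟩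
      have h6 : (B i, Pi.single i 1) ∈ pos Φ := by
        unfold pos
        rw [Finset.mem_filter]
        refine ⟨hI.base i, fun j => ?_⟩
        simp only [Pi.single_apply]
        split_ifs <;> norm_num
      have h7 := hq.supp _ hk.2.2 _ h6
      simp only [single_dotProduct, one_mul] at h7
      exact h7)
    refine h5.trans (le_of_eq ?_)
    congr 1
    push_cast
    rw [← Real.rpow_natCast, ← Real.rpow_mul (by norm_num)]
    congr 1
    ring
  calc _ ≤ ∑ k ∈ A, ∏ p, ‖cf m J (x p).val (k p)‖ := h1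
    _ = _ := h2
    _ ≤ ∑ l ∈ A.image (fun k => ν - rs (pos Φ) k), E := Finset.sum_le_sum h3
    _ = ((A.image (fun k => ν - rs (pos Φ) k)).card : ℝ) * E := by
        rw [Finset.sum_const, nsmul_eq_mul]
    _ ≤ CR * (2 : ℝ) ^ (ε * J) * E := mul_le_mul_of_nonneg_right h4 hE0

/-- the Fourier coefficients of the multiplier -/
def mh (Φ : RT 2) (m J : ℕ) (q : (Fin 2 → ℤ) → ℝ) (x : {p // p ∈ pos Φ} → Fin (J + 1))
    (l : Fin 2 → ℤ) (n : ℤ) : ℂ :=
  (1 / ((WF Φ).card : ℂ)) * ∑ w ∈ WF Φ, ∑ k ∈ (kB Φ (2 * m ^ 2 * 2 ^ J)).filter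
    (fun k => -(rd Φ).Q (w *ᵥ l - rs (pos Φ) k) = n),
      (∏ p, cf m J (x p).val (k p)) * (q (w *ᵥ l - rs (pos Φ) k) : ℂ)

/-- the frequencies of the multiplier -/
def sS (Φ : RT 2) (m J : ℕ) (l : Fin 2 → ℤ) : Finset ℤ :=
  (WF Φ).biUnion fun w => (kB Φ (2 * m ^ 2 * 2 ^ J)).image
    fun k => -(rd Φ).Q (w *ᵥ l - rs (pos Φ) k)

theorem wa_eq (Φ : RT 2) (m J : ℕ) (q : (Fin 2 → ℤ) → ℝ)
    (x : {p // p ∈ pos Φ} → Fin (J + 1)) (l : Fin 2 → ℤ) (t : ℝ) :
    wa Φ (nx Φ m J q x t) l = ∑ n ∈ sS Φ m J l, mh Φ m J q x l n * eu (t * n) := by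
  unfold wa mh nx
  simp only [mul_assoc]
  rw [← Finset.mul_sum]
  congr 1
  simp only [Finset.sum_mul]
  conv_rhs => rw [Finset.sum_comm]
  refine Finset.sum_congr rfl fun w hw => ?_
  have h1 := Finset.sum_fiberwise_of_maps_to (s := kB Φ (2 * m ^ 2 * 2 ^ J)) (t := sS Φ m J l)
    (g := fun k => -(rd Φ).Q (w *ᵥ l - rs (pos Φ) k))
    (fun k hk => Finset.mem_biUnion.mpr ⟨w, hw, Finset.mem_image_of_mem _ hk⟩)
    (fun k : {p // p ∈ pos Φ} → ℤ =>
      ((∏ p, cf m J (x p).val (k p)) * gt Φ q t (w *ᵥ l - rs (pos Φ) k) : ℂ))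
  simp only [mul_assoc] at h1
  rw [← h1]
  refine Finset.sum_congr rfl fun n _ => ?_
  refine Finset.sum_congr rfl fun k hk => ?_
  rw [Finset.mem_filter] at hk
  unfold gt
  rw [mul_assoc, ← hk.2]
  congr 3
  push_cast
  ring

theorem mh_le {Φ : RT 2} {B : Matrix (Fin 2) (Fin 2) ℤ} (hI : IRD Φ B) (hW : WFF Φ B) {m : ℕ}
    {C₁ D CR ε : ℝ} (hC : CFF m C₁) (hD : 1 ≤ D) (hCD : C₁ ≤ D) (hCR : 0 ≤ CR)
    (hR : ∀ (X : ℕ) (k : ℤ) (S : Finset (Fin 2 → ℤ)), 1 ≤ X →
      (∀ l ∈ S, (rd Φ).Q l = k ∧ ∀ i, |l i| ≤ X) → (S.card : ℝ) ≤ CR * (X : ℝ) ^ ε)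
    (J : ℕ) (q : (Fin 2 → ℤ) → ℝ) (x : {p // p ∈ pos Φ} → Fin (J + 1))
    (p₁ p₂ : {p // p ∈ pos Φ}) (hq : QH Φ (2 ^ J) q) (hne : p₁ ≠ p₂) (l : Fin 2 → ℤ) (n : ℤ) :
    ‖mh Φ m J q x l n‖ ≤
      CR * (2 : ℝ) ^ (ε * J) * (D / 2 ^ (x p₁).val * (D / 2 ^ (x p₂).val) *
        D ^ Fintype.card {p // p ∈ pos Φ}) := by
  have hc : (0 : ℝ) < ((WF Φ).card : ℝ) := by
    exact_mod_cast Finset.card_pos.mpr ⟨1, hW.one⟩
  unfold mh
  rw [norm_mul]
  have h1 : ‖(1 / ((WF Φ).card : ℂ))‖ = 1 / ((WF Φ).card : ℝ) := by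
    rw [norm_div, norm_one, Complex.norm_natCast]
  rw [h1, one_div, inv_mul_le_iff₀ hc]
  refine (norm_sum_le _ _).trans ?_
  rw [← nsmul_eq_mul]
  refine Finset.sum_le_card_nsmul _ _ _ fun w _ => ?_
  refine (norm_sum_le _ _).trans ?_
  refine le_trans (le_of_eq ?_) (coef hI hW hC hD hCD hCR hR J q x p₁ p₂ hq hne
    (2 * m ^ 2 * 2 ^ J) (w *ᵥ l) n)
  refine Finset.sum_congr rfl fun k _ => ?_
  rw [norm_mul, norm_prod, Complex.norm_real, Real.norm_of_nonneg (hq.nn _)]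

end BII

theorem t_BII : M_BII := by
  intro hKB hKE hWF hCH hRQ N H Φ B Hc E c k d hX μ _ _ χ hχ m C₁ ε hm hC hε
  obtain ⟨X, hfr⟩ := hX.frame
  have hI := hX.lrd.ird
  have hW := hWF 2 Φ B hI
  obtain ⟨hirr, -⟩ := hCH N H 2 Φ B Hc E c k d X hX.one_le hX.closed hX.conn hX.lrd hX.kc hfr χ hχ
  have hcs : CompactSpace H := isCompact_iff_compactSpace.1 hX.closed.isCompact
  have hsc : SecondCountableTopology H :=
    TopologicalSpace.Subtype.secondCountableTopology (H : Set (SU N))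
  obtain ⟨hker, -⟩ := hKE H μ (IX Hc) χ hirr
  have hkbf := hKB H μ (IX Hc) (KK χ) hker
  obtain ⟨CR, hCR, hR⟩ := hRQ Φ B hI hW ε hε
  set D : ℝ := max 1 C₁ with hD
  have hD1 : 1 ≤ D := le_max_left _ _
  have hCD : C₁ ≤ D := le_max_right _ _
  refine ⟨CR * (D * D * D ^ Fintype.card {p // p ∈ pos Φ}), by positivity, ?_⟩
  intro J q x F G p₁ p₂ hq hne hG hG1
  have h1 := BII.form μ hker hkbf F (fun i => BII.sS Φ m J (wG i.1))
    (fun i n => BII.mh Φ m J q x (wG i.1) n)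
    (CR * (2 : ℝ) ^ (ε * J) * (D / 2 ^ (x p₁).val * (D / 2 ^ (x p₂).val) *
        D ^ Fintype.card {p // p ∈ pos Φ})) (by positivity)
    (fun i _ n _ => BII.mh_le hI hW hC hD1 hCD hCR hR J q x p₁ p₂ hq hne (wG i.1) n) hG hG1
  unfold BF mG
  simp only [BII.wa_eq]
  refine h1.trans (le_of_eq ?_)
  ring

end

end STZ3
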