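import Pool.Agent.STZ3.StQ

/-!
# BOH: Bohr sets
-/

namespace STZ3

open STZ LGR MeasureTheory Matrix Filter

open scoped ComplexConjugate Matrix Real Topology

noncomputable section

namespace BOH

theorem nd_eq (θ : ℝ) : nd θ = ‖(θ : UnitAddCircle)‖ := by
  rw [nd, UnitAddCircle.norm_eq]

theorem nd_cont : Continuous nd := by
  have h : nd = fun θ : ℝ => ‖(θ : UnitAddCircle)‖ := funext nd_eq
  rw [h]
  exact continuous_norm.comp (AddCircle.continuous_mk' 1)

theorem nd_add_int (θ : ℝ) (n : ℤ) : nd (θ + n) = nd θ := by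
  unfold nd
  rw [round_add_intCast]
  push_cast
  congr 1
  ring

/-- on the unit interval one of the end points is at the distance `nd` or less -/
theorem nd_or {y : ℝ} (h0 : 0 ≤ y) (h1 : y ≤ 1) : y ≤ nd y ∨ 1 - y ≤ nd y := by
  unfold nd
  rcases le_or_gt (round y) 0 with h | h
  · left
    have h2 : ((round y : ℤ) : ℝ) ≤ 0 := by exact_mod_cast h
    rw [abs_of_nonneg (by linarith)]
    linarith
  · right
    have h2 : (1 : ℝ) ≤ ((round y : ℤ) : ℝ) := by exact_mod_cast h
    rw [abs_of_nonpos (by linarith)]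
    linarith

theorem dz_cont {r : ℕ} (κ : Fin r → ℤ) : Continuous (dz κ) := by
  unfold dz
  fun_prop

/-- the cut-off function: `1` for `y ≤ ρ`, `0` for `y ≥ ρ + ε` -/
def hh (ρ ε y : ℝ) : ℝ := max 0 (min 1 ((ρ + ε - y) / ε))

theorem hh_cont (ρ ε : ℝ) : Continuous (hh ρ ε) := by
  unfold hh
  fun_prop

theorem hh_nonneg (ρ ε y : ℝ) : 0 ≤ hh ρ ε y := le_max_left _ _

theorem hh_le_one (ρ ε y : ℝ) : hh ρ ε y ≤ 1 := max_le zero_le_one (min_le_left _ _)

theorem hh_one {ρ ε y : ℝ} (hε : 0 < ε) (hy : y ≤ ρ) : hh ρ ε y = 1 := by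
  unfold hh
  have h : 1 ≤ (ρ + ε - y) / ε := by
    rw [le_div_iff₀ hε]
    linarith
  rw [min_eq_left h]
  exact max_eq_right zero_le_one

theorem hh_zero {ρ ε y : ℝ} (hε : 0 < ε) (hy : ρ + ε < y) : hh ρ ε y = 0 := by
  unfold hh
  have h : (ρ + ε - y) / ε ≤ 0 := div_nonpos_of_nonpos_of_nonneg (by linarith) hε.le
  exact max_eq_left ((min_le_right _ _).trans h)

/-- the integral in one variable -/
theorem int_one {ρ ε : ℝ} (hρ : 0 ≤ ρ) (hε : 0 < ε) :
    ∫ y in Set.Icc (0 : ℝ) 1, hh ρ ε (nd y) ≤ 2 * (ρ + ε) := by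
  set s : Set ℝ := Set.Icc 0 (ρ + ε) ∪ Set.Icc (1 - (ρ + ε)) 1 with hs
  have hsm : MeasurableSet s := measurableSet_Icc.union measurableSet_Icc
  have hsv : volume s ≤ ENNReal.ofReal (2 * (ρ + ε)) := by
    refine (measure_union_le _ _).trans ?_
    rw [Real.volume_Icc, Real.volume_Icc, ← ENNReal.ofReal_add (by linarith) (by linarith)]
    exact ENNReal.ofReal_le_ofReal (by linarith)
  have hsf : volume s ≠ ⊤ := ne_top_of_le_ne_top ENNReal.ofReal_ne_top hsv
  have h1 : ∫ y in Set.Icc (0 : ℝ) 1, hh ρ ε (nd y) ≤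
      ∫ y in Set.Icc (0 : ℝ) 1, s.indicator (fun _ => (1 : ℝ)) y := by
    refine setIntegral_mono_on ?_ ?_ measurableSet_Icc ?_
    · exact ((hh_cont ρ ε).comp nd_cont).integrableOn_Icc
    · exact (integrableOn_const (by simp)).indicator hsm
    · intro y hy
      by_cases hys : y ∈ s
      · rw [Set.indicator_of_mem hys]
        exact hh_le_one _ _ _
      · rw [Set.indicator_of_notMem hys]
        have : hh ρ ε (nd y) = 0 := by
          apply hh_zero hε
          rw [hs] at hys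
          simp only [Set.mem_union, Set.mem_Icc, not_or, not_and, not_le] at hys
          rcases nd_or hy.1 hy.2 with h | h
          · exact lt_of_lt_of_le (hys.1 hy.1) h
          · by_contra hc
            push Not at hc
            have := hys.2 (by linarith)
            linarith [hy.2]
        exact this.le
  refine h1.trans ?_
  rw [setIntegral_indicator hsm, setIntegral_const, smul_eq_mul, mul_one]
  have h2 : volume.real (Set.Icc 0 1 ∩ s) ≤ volume.real s :=
    measureReal_mono Set.inter_subset_right hsf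
  refine h2.trans ?_
  exact ENNReal.toReal_le_of_le_ofReal (by linarith) hsv

theorem int_prod {r : ℕ} (f : ℝ → ℝ) :
    ∫ θ in Set.Icc (0 : Fin r → ℝ) 1, ∏ i, f (θ i) = (∫ y in Set.Icc (0 : ℝ) 1, f y) ^ r := by
  have h1 : (volume : Measure (Fin r → ℝ)).restrict (Set.Icc 0 1) =
      Measure.pi fun _ => (volume : Measure ℝ).restrict (Set.Icc 0 1) := by
    have h2 : Set.Icc (0 : Fin r → ℝ) 1 = Set.univ.pi fun _ => Set.Icc (0 : ℝ) 1 := by
      rw [Set.pi_univ_Icc]
      rfl
    rw [h2, volume_pi, Measure.restrict_pi_pi]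
  rw [h1, integral_fintype_prod_eq_pow (ι := Fin r) f, Fintype.card_fin]

theorem main {r : ℕ} (B : Matrix (Fin r) (Fin r) ℤ) (hB : B.det ≠ 0) (hT : S_TORB)
    {ρ : ℝ} (hρ : 0 ≤ ρ) {ε : ℝ} (hε : 0 < ε) (A : Set (Fin r → ℝ)) (hA : A ⊆ Set.Icc 0 1)
    (hAm : MeasurableSet A) (hA' : ∀ θ ∈ A, ∀ i, nd (dz (B i) θ) ≤ ρ) :
    volume.real A ≤ (2 * (ρ + ε)) ^ r := by
  set g : (Fin r → ℝ) → ℝ := fun θ => ∏ i, hh ρ ε (nd (θ i)) with hg
  have hgc : Continuous g := by
    rw [hg]
    exact continuous_finsetProd _ fun i _ =>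
      ((hh_cont ρ ε).comp nd_cont).comp (continuous_apply i)
  have hgn : ∀ θ, 0 ≤ g θ := fun θ => Finset.prod_nonneg fun i _ => hh_nonneg _ _ _
  have hgc' : Continuous fun θ : Fin r → ℝ => g (fun i => dz (B i) θ) :=
    hgc.comp (continuous_pi fun i => dz_cont (B i))
  have h1 : volume.real A ≤ ∫ θ in Set.Icc (0 : Fin r → ℝ) 1, g (fun i => dz (B i) θ) := by
    have e1 : volume.real A = ∫ θ in Set.Icc (0 : Fin r → ℝ) 1, A.indicator (fun _ => (1 : ℝ)) θ := by
      rw [setIntegral_indicator hAm, setIntegral_const, smul_eq_mul, mul_one,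
        Set.inter_eq_right.2 hA]
    rw [e1]
    refine setIntegral_mono_on ?_ ?_ measurableSet_Icc ?_
    · refine (integrableOn_const ?_).indicator hAm
      exact (isCompact_Icc.measure_lt_top).ne
    · exact hgc'.integrableOn_Icc
    · intro θ _
      by_cases hθ : θ ∈ A
      · rw [Set.indicator_of_mem hθ]
        have : g (fun i => dz (B i) θ) = 1 := by
          rw [hg]
          exact Finset.prod_eq_one fun i _ => hh_one hε (hA' θ hθ i)
        rw [this]
      · rw [Set.indicator_of_notMem hθ]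
        exact hgn _
  rw [hT r B hB g hgc (by
    intro θ n
    rw [hg]
    simp only [nd_add_int]), hg, int_prod (fun y => hh ρ ε (nd y))] at h1
  refine h1.trans ?_
  exact pow_le_pow_left₀ (integral_nonneg fun y => hh_nonneg _ _ _) (int_one hρ hε) r

end BOH

open BOH in
theorem t_BOH : M_BOH := by
  intro hT r Φ B hr hI hW ρ hρ
  set A : Set (Fin r → ℝ) := {θ : Fin r → ℝ | θ ∈ Set.Icc 0 1 ∧ ∀ p ∈ pos Φ, nd (dz p.1 θ) ≤ ρ}
    with hA
  have hcl : IsClosed A := by
    have e : A = Set.Icc 0 1 ∩ ⋂ p ∈ pos Φ, {θ | nd (dz p.1 θ) ≤ ρ} := by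
      ext θ
      simp [hA]
    rw [e]
    refine isClosed_Icc.inter (isClosed_biInter fun p _ => ?_)
    exact isClosed_le (nd_cont.comp (dz_cont p.1)) continuous_const
  have hpos : ∀ i, (B i, (Pi.single i 1 : Fin r → ℤ)) ∈ pos Φ := by
    intro i
    rw [pos, Finset.mem_filter]
    refine ⟨hI.base i, fun j => ?_⟩
    by_cases h : j = i
    · rw [h]; simp
    · simp [Pi.single_eq_of_ne h]
  have h1 : ∀ ε : ℝ, 0 < ε → volume.real A ≤ (2 * (ρ + ε)) ^ r := by
    intro ε hε
    refine main B hI.det hT hρ hε A (fun θ h => h.1) hcl.measurableSet ?_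
    intro θ h i
    have h2 : ∀ p ∈ pos Φ, nd (dz p.1 θ) ≤ ρ := by
      rw [hA] at h
      exact h.2
    have h3 := h2 _ (hpos i)
    exact h3
  have hlim : Tendsto (fun ε : ℝ => (2 * (ρ + ε)) ^ r) (𝓝[>] 0) (𝓝 ((2 * (ρ + 0)) ^ r)) := by
    have : Continuous fun ε : ℝ => (2 * (ρ + ε)) ^ r := by fun_prop
    exact (this.tendsto 0).mono_left nhdsWithin_le_nhds
  rw [add_zero] at hlim
  refine ge_of_tendsto hlim ?_
  filter_upwards [self_mem_nhdsWithin] with ε hε
  exact h1 ε hε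

end

end STZ3
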