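import Pool.Agent.STZ3.StC3

/-!
# BRC: the bilinear form for the chain packets
-/

namespace STZ3

open STZ LGR MeasureTheory Matrix Filter

open scoped ComplexConjugate Matrix Real Topology

noncomputable section

namespace BRC

/-- as in TAI -/
theorem yr_mem {N : ℕ} {H : Subgroup (SU N)} {r : ℕ} {Φ : RT r} {B : Matrix (Fin r) (Fin r) ℤ}
    {Hc : Fin r → MT N} {E : (Fin r → ℤ) × (Fin r → ℤ) → MT N} (hl : LIF H)
    (hL : LRD H Φ B Hc E) (c : ℝ) (a : {p // p ∈ pos Φ} × Bool) : yr Φ E c a ∈ lie H := by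
  unfold yr
  have hp : a.1.1 ∈ Φ := by
    have := a.1.2
    unfold pos at this
    exact (Finset.mem_filter.1 this).1
  have h1 := hL.emem _ hp
  refine hl.smul _ _ ?_
  split_ifs
  · exact h1.1
  · exact h1.2

theorem sq_exp (x : ℝ) : (((Real.exp (-x) : ℝ) : ℂ)) ^ 2 = ((Real.exp (-(2 * x)) : ℝ) : ℂ) := by
  rw [← Complex.ofReal_pow, ← Real.exp_nat_mul]
  congr 2
  push_cast
  ring

end BRC

open BRC in
/-- The bilinear form for the chain packets. -/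
theorem t_BRC : M_BRC := by
  intro hlieb _ _ hsyk hstr hhmc htrc hbra N H r Φ B Hc E c k d hCX μ _ _ χ hχ a t₁ t₂ κ ht₁ ht₂ hκ nf T F hT hF
    G₁ G₂ h₁ h₂
  have hcl := hCX.closed
  have hl : LIF H := hlieb N H hcl
  have hsym : κ.map Inv.inv = κ := hsyk N H hcl _ _ κ
    (fun b => hl.smul _ _ (yr_mem hl hCX.lrd c b)) hκ
  refine hbra N H r Φ B Hc E c k d hCX μ χ hχ κ hκ.prob hsym (lc Φ a.1 t₁ t₂ nf) nf T F ?_ hT hF G₁ G₂ h₁ h₂
  intro n σ l hirr hp hw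
  obtain ⟨U, ν, x, m, τ, hws⟩ := hstr N H r Φ B Hc E c k d hCX a n σ hp
  refine ⟨U, ν, fun j => Real.exp (-(ec Φ a.1 l t₁ t₂ (ν j) (x j))), hws.wt,
    hhmc N H r Φ B Hc E c k d hCX a t₁ t₂ κ ht₁ ht₂ hκ n σ l U ν x m τ hirr hp hw hws, ?_⟩
  simp only [sq_exp]
  exact htrc N H r Φ B Hc E c k d hCX a n σ l U ν x m τ hw hws.wt hws.stg t₁ t₂ nf

end

end STZ3
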