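import Pool.Agent.STZ3.StP

/-!
# STZ3, module TAI: tails of the packet measures and of the heat measures

`MOM` and the Markov inequality.
-/

namespace STZ3

open STZ LGR MeasureTheory Matrix Filter

open scoped ComplexConjugate Matrix Real Topology

noncomputable section

namespace TAI

theorem ps_nonneg {N : ℕ} {H : Subgroup (SU N)} (g : H) : 0 ≤ ps g :=
  Finset.sum_nonneg fun _ _ => Finset.sum_nonneg fun _ _ => by positivity

theorem hs2_nonneg {N : ℕ} (Y : MT N) : 0 ≤ hs2 Y :=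
  Finset.sum_nonneg fun _ _ => Finset.sum_nonneg fun _ _ => by positivity

theorem ps_cont {N : ℕ} {H : Subgroup (SU N)} : Continuous (ps : H → ℝ) := by
  unfold ps
  refine continuous_finset_sum _ fun i _ => continuous_finset_sum _ fun j _ => ?_
  have h1 : Continuous fun g : H => g.1.1 := continuous_subtype_val.comp continuous_subtype_val
  have h2 : Continuous fun g : H => g.1.1 i j := h1.matrix_elem i j
  exact ((h2.sub continuous_const).norm).pow 2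

theorem entry_le {N : ℕ} (g : SU N) (i j : Fin N) : ‖g.1 i j‖ ≤ 1 :=
  entry_norm_bound_of_unitary (Matrix.mem_specialUnitaryGroup_iff.1 g.2).1 i j

theorem ps_le {N : ℕ} {H : Subgroup (SU N)} (g : H) : ps g ≤ 4 * (N : ℝ) ^ 2 := by
  unfold ps
  have h : ∀ i j : Fin N, ‖g.1.1 i j - (1 : MT N) i j‖ ^ 2 ≤ 4 := by
    intro i j
    have h1 : ‖g.1.1 i j‖ ≤ 1 := entry_le g.1 i j
    have h2 : ‖(1 : MT N) i j‖ ≤ 1 := by
      have := entry_le (1 : SU N) i j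
      simpa using this
    have h3 := norm_sub_le (g.1.1 i j) ((1 : MT N) i j)
    have h4 := norm_nonneg (g.1.1 i j - (1 : MT N) i j)
    nlinarith
  calc ∑ i, ∑ j, ‖g.1.1 i j - (1 : MT N) i j‖ ^ 2 ≤ ∑ _i : Fin N, ∑ _j : Fin N, (4 : ℝ) :=
        Finset.sum_le_sum fun i _ => Finset.sum_le_sum fun j _ => h i j
    _ = 4 * (N : ℝ) ^ 2 := by
        simp only [Finset.sum_const, Finset.card_univ, Fintype.card_fin, nsmul_eq_mul]
        ring

theorem hs2_smul {N : ℕ} (s : ℝ) (Y : MT N) : hs2 (((s : ℝ) : ℂ) • Y) = s ^ 2 * hs2 Y := by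
  unfold hs2
  rw [Finset.mul_sum]
  refine Finset.sum_congr rfl fun i _ => ?_
  rw [Finset.mul_sum]
  refine Finset.sum_congr rfl fun j _ => ?_
  rw [Matrix.smul_apply, norm_smul, Complex.norm_real, mul_pow, Real.norm_eq_abs, sq_abs]

theorem sum_hs2 {N : ℕ} {ι : Type} [Fintype ι] (Y : ι → MT N) {t : ℝ} (ht : 0 ≤ t) :
    ∑ a, hs2 (((√t : ℝ) : ℂ) • Y a) = t * ∑ a, hs2 (Y a) := by
  rw [Finset.mul_sum]
  refine Finset.sum_congr rfl fun a _ => ?_
  rw [hs2_smul, Real.sq_sqrt ht]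

theorem integ {N : ℕ} {H : Subgroup (SU N)} (κ : Measure H) [IsProbabilityMeasure κ] (j : ℕ) :
    Integrable (fun x : H => ps x ^ j) κ := by
  refine Integrable.of_bound (C := (4 * (N : ℝ) ^ 2) ^ j)
    ((ps_cont.pow j).measurable.aestronglyMeasurable) (Eventually.of_forall fun x => ?_)
  rw [Real.norm_eq_abs, abs_of_nonneg (pow_nonneg (ps_nonneg x) j)]
  exact pow_le_pow_left₀ (ps_nonneg x) (ps_le x) j

theorem markov {N : ℕ} {H : Subgroup (SU N)} (κ : Measure H) [IsProbabilityMeasure κ] (j : ℕ)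
    {ρ : ℝ} (hρ : 0 < ρ) :
    (ρ ^ 2) ^ j * κ.real {z : H | ρ ^ 2 ≤ ps z} ≤ ∫ x, ps x ^ j ∂κ := by
  have h1 := mul_meas_ge_le_integral_of_nonneg (μ := κ) (f := fun x : H => ps x ^ j)
    (Eventually.of_forall fun x => pow_nonneg (ps_nonneg x) j) (integ κ j) ((ρ ^ 2) ^ j)
  refine le_trans (mul_le_mul_of_nonneg_left ?_ (by positivity)) h1
  refine measureReal_mono (fun z hz => ?_) (measure_ne_top _ _)
  have hz' : ρ ^ 2 ≤ ps z := hz
  show (ρ ^ 2) ^ j ≤ ps z ^ j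
  exact pow_le_pow_left₀ (by positivity) hz' j

theorem main (hmom : S_MOM) {N : ℕ} {H : Subgroup (SU N)} (hcl : IsClosed (H : Set (SU N)))
    (ι : Type) [Fintype ι] (j : ℕ) (K : ℝ) (hK : 0 ≤ K) :
    ∃ C : ℝ, 0 ≤ C ∧ ∀ (ϑ : ℝ) (Y : ι → MT N) (κ : Measure H), 0 < ϑ → (∀ a, Y a ∈ lie H) →
      HM H Y κ → ∑ a, hs2 (Y a) ≤ ϑ * K →
      ∀ ρ : ℝ, 0 < ρ → κ.real {z | ρ ^ 2 ≤ ps z} ≤ C * (ϑ / ρ ^ 2) ^ j := by
  obtain ⟨C₀, hC₀, hm⟩ := hmom N H hcl ι j
  set K' : ℝ := K + 1 with hK'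
  have hK'0 : 0 < K' := by rw [hK']; linarith
  set M : ℝ := 4 * ((N : ℝ) ^ 2 + 1) with hM
  have hM0 : 0 < M := by rw [hM]; positivity
  refine ⟨C₀ * K' ^ j + (K' * M) ^ j, by positivity, ?_⟩
  intro ϑ Y κ hϑ hY hκ hs ρ hρ
  haveI := hκ.prob
  have hρ2 : 0 < ρ ^ 2 := by positivity
  have hs' : ∑ a, hs2 (Y a) ≤ K' * ϑ := by
    rw [hK']; nlinarith
  by_cases h1 : K' * ϑ ≤ 1
  · have h2 := hm Y κ hY hκ (K' * ϑ) hs' h1
    have h3 := markov κ j hρ
    have h4 : κ.real {z : H | ρ ^ 2 ≤ ps z} ≤ C₀ * (K' * ϑ) ^ j / (ρ ^ 2) ^ j := by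
      rw [le_div_iff₀ (by positivity)]
      linarith [h2, h3, mul_comm ((ρ ^ 2) ^ j) (κ.real {z : H | ρ ^ 2 ≤ ps z})]
    have h5 : C₀ * (K' * ϑ) ^ j / (ρ ^ 2) ^ j = C₀ * K' ^ j * (ϑ / ρ ^ 2) ^ j := by
      rw [mul_pow, div_pow]; ring
    rw [h5] at h4
    have h6 : 0 ≤ (K' * M) ^ j * (ϑ / ρ ^ 2) ^ j := by positivity
    nlinarith [h4, h6]
  · have h1' : 1 ≤ K' * ϑ := le_of_lt (not_le.1 h1)
    have h6 : 0 ≤ C₀ * K' ^ j * (ϑ / ρ ^ 2) ^ j := by positivity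
    by_cases h2 : ρ ^ 2 ≤ M
    · have h3 : 1 ≤ K' * M * (ϑ / ρ ^ 2) := by
        have h31 : 1 ≤ M / ρ ^ 2 := by rw [le_div_iff₀ hρ2]; linarith
        have h32 : K' * M * (ϑ / ρ ^ 2) = (K' * ϑ) * (M / ρ ^ 2) := by ring
        rw [h32]
        nlinarith
      have h4 : 1 ≤ (K' * M) ^ j * (ϑ / ρ ^ 2) ^ j := by
        rw [← mul_pow]; exact one_le_pow₀ h3
      have h5 : κ.real {z : H | ρ ^ 2 ≤ ps z} ≤ 1 := measureReal_le_one
      nlinarith
    · have h3 : {z : H | ρ ^ 2 ≤ ps z} = ∅ := by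
        ext z
        simp only [Set.mem_setOf_eq, Set.mem_empty_iff_false, iff_false, not_le]
        have h31 := ps_le z
        have h32 : M < ρ ^ 2 := not_le.1 h2
        rw [hM] at h32
        linarith
      rw [h3]
      simp only [measureReal_empty]
      positivity

theorem tr_skew {N : ℕ} {X : MT N} (h : Xᴴ = -X) : -(X * X).trace = (hs2 X : ℂ) := by
  have h1 : X * X = -(X * Xᴴ) := by rw [h]; simp
  rw [h1, Matrix.trace_neg, neg_neg]
  unfold hs2 Matrix.trace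
  push_cast
  refine Finset.sum_congr rfl fun i _ => ?_
  rw [Matrix.diag_apply, Matrix.mul_apply]
  refine Finset.sum_congr rfl fun k _ => ?_
  rw [Matrix.conjTranspose_apply]
  have := Complex.mul_conj (X i k)
  rw [Complex.star_def, this, Complex.normSq_eq_norm_sq]
  push_cast
  ring

theorem frame_hs2 {N : ℕ} {H : Subgroup (SU N)} {c : ℝ} (hc : 0 < c) {d : ℕ}
    {X : Fin d → MT N} (hX : FrameH H c X) (a : Fin d) : hs2 (X a) = 1 / c := by
  have h1 := hX.orth a a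
  have hsk : (X a)ᴴ = -(X a) := ((hX.mem a).1).1
  have h2 := tr_skew hsk
  rw [if_pos rfl] at h1
  have h3 : (c : ℂ) * (hs2 (X a) : ℂ) = 1 := by
    rw [← h2, ← h1]; ring
  have h4 : c * hs2 (X a) = 1 := by exact_mod_cast h3
  field_simp
  linarith

theorem yr_mem {N : ℕ} {H : Subgroup (SU N)} {r : ℕ} {Φ : RT r} {B : Matrix (Fin r) (Fin r) ℤ}
    {Hc : Fin r → MT N} {E : (Fin r → ℤ) × (Fin r → ℤ) → MT N} (hl : LIF H)
    (hL : LRD H Φ B Hc E) (c : ℝ) (a : {p // p ∈ pos Φ} × Bool) : yr Φ E c a ∈ lie H := by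
  unfold yr
  have hp : a.1.1 ∈ Φ := by
    have := a.1.2
    unfold pos at this
    exact (Finset.mem_filter.1 this).1
  have h1 := hL.emem _ hp
  refine hl.smul _ _ ?_
  split_ifs
  · exact h1.1
  · exact h1.2

end TAI

open TAI in
/-- Tails of the packet measures and of the heat measures. -/
theorem t_TAI : M_TAI := by
  intro hlieb _ _ hmom N H r Φ B Hc E c k d hCX j
  have hl : LIF H := hlieb N H hCX.closed
  have hc : 0 < c := hCX.kc.cpos
  have hk : 0 < k := hCX.kc.kpos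
  have hK1 : 0 ≤ (∑ a, hs2 (yr Φ E c a)) / k :=
    div_nonneg (Finset.sum_nonneg fun a _ => hs2_nonneg _) hk.le
  have hK2 : 0 ≤ ((d : ℝ) * (1 / c)) / k := by positivity
  obtain ⟨C₁, hC₁, h₁⟩ := main hmom hCX.closed ({p // p ∈ pos Φ} × Bool) j _ hK1
  obtain ⟨C₂, hC₂, h₂⟩ := main hmom hCX.closed (Fin d) j _ hK2
  refine ⟨C₁ + C₂, by positivity, ?_⟩
  intro ϑ κ hϑ _ hor ρ hρ
  have hϑk : 0 ≤ ϑ / k := by positivity
  have hpw : 0 ≤ (ϑ / ρ ^ 2) ^ j := by positivity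
  rcases hor with hP | ⟨X, hX, hG⟩
  · have h3 := h₁ ϑ _ κ hϑ (fun a => hl.smul _ _ (yr_mem hl hCX.lrd c a)) hP
      (by rw [sum_hs2 _ hϑk]; exact le_of_eq (by ring)) ρ hρ
    nlinarith [mul_nonneg hC₂ hpw]
  · have h3 := h₂ ϑ _ κ hϑ (fun a => hl.smul _ _ (hX.mem a)) hG
      (by
        rw [sum_hs2 _ hϑk, Finset.sum_congr rfl fun a _ => frame_hs2 hc hX a]
        simp only [Finset.sum_const, Finset.card_univ, Fintype.card_fin, nsmul_eq_mul]
        exact le_of_eq (by ring)) ρ hρ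
    nlinarith [mul_nonneg hC₁ hpw]

end

end STZ3
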