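import Pool.Agent.STZ3.StP
import Pool.Agent.STZ3.TAI
import Pool.Agent.LGR.CHIF

/-!
# Module BRP: the bilinear form (7.1)
-/

namespace STZ3

open STZ LGR MeasureTheory Matrix Filter

open scoped ComplexConjugate Matrix Real Topology

noncomputable section

namespace BRP

/-- continuous and bounded -/
def BC {X : Type*} [TopologicalSpace X] (f : X → ℂ) : Prop :=
  Continuous f ∧ ∃ C : ℝ, ∀ x, ‖f x‖ ≤ C

section bc

variable {X Y : Type*} [TopologicalSpace X] [TopologicalSpace Y]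

lemma BC.comp {f : X → ℂ} (hf : BC f) {g : Y → X} (hg : Continuous g) : BC (fun y => f (g y)) := by
  obtain ⟨h1, C, hC⟩ := hf
  exact ⟨h1.comp hg, C, fun y => hC (g y)⟩

lemma BC.mul {f g : X → ℂ} (hf : BC f) (hg : BC g) : BC (fun x => f x * g x) := by
  obtain ⟨h1, C, hC⟩ := hf
  obtain ⟨h2, D, hD⟩ := hg
  refine ⟨h1.mul h2, C * D, fun x => ?_⟩
  rw [norm_mul]
  exact mul_le_mul (hC x) (hD x) (norm_nonneg _) ((norm_nonneg _).trans (hC x))

lemma BC.conj {f : X → ℂ} (hf : BC f) : BC (fun x => conj (f x)) := by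
  obtain ⟨h1, C, hC⟩ := hf
  refine ⟨Complex.continuous_conj.comp h1, C, fun x => ?_⟩
  rw [RCLike.norm_conj]
  exact hC x

lemma BC.of_compact [CompactSpace X] {f : X → ℂ} (hf : Continuous f) : BC f := by
  obtain ⟨C, hC⟩ := (isCompact_univ (X := X)).exists_bound_of_continuousOn hf.continuousOn
  exact ⟨hf, C, fun x => hC x (Set.mem_univ x)⟩

variable [SecondCountableTopology X] [SecondCountableTopology Y] [MeasurableSpace X]
  [MeasurableSpace Y] [BorelSpace X] [BorelSpace Y]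

omit [SecondCountableTopology Y] [MeasurableSpace X] [BorelSpace X] in
lemma BC.int (ν : Measure Y) [IsFiniteMeasure ν] {f : X → Y → ℂ}
    (hf : BC (fun p : X × Y => f p.1 p.2)) : BC (fun x => ∫ y, f x y ∂ν) := by
  obtain ⟨h1, C, hC⟩ := hf
  have h2 : ∀ x, Continuous (f x) := fun x => h1.comp (by fun_prop : Continuous fun y => (x, y))
  refine ⟨?_, C * ν.real Set.univ, fun x => ?_⟩
  · refine continuous_of_dominated (bound := fun _ => C)
      (fun x => (h2 x).aestronglyMeasurable) (fun x => ?_) (integrable_const _) ?_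
    · exact Eventually.of_forall fun y => hC (x, y)
    · exact Eventually.of_forall fun y =>
        h1.comp (by fun_prop : Continuous fun x => (x, y))
  · exact norm_integral_le_of_norm_le_const (Eventually.of_forall fun y => hC (x, y))

lemma BC.swap (μ : Measure X) (ν : Measure Y) [IsFiniteMeasure μ] [IsFiniteMeasure ν]
    {f : X → Y → ℂ} (hf : BC (fun p : X × Y => f p.1 p.2)) :
    ∫ x, ∫ y, f x y ∂ν ∂μ = ∫ y, ∫ x, f x y ∂μ ∂ν := by
  obtain ⟨h1, C, hC⟩ := hf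
  refine integral_integral_swap ?_
  exact Integrable.of_bound h1.aestronglyMeasurable C (Eventually.of_forall fun p => hC p)

end bc

section abs

variable {G : Type} [Group G] [TopologicalSpace G] [IsTopologicalGroup G] [CompactSpace G]
  [T2Space G] [SecondCountableTopology G] [MeasurableSpace G] [BorelSpace G] {r : ℕ}

omit [CompactSpace G] [T2Space G] [SecondCountableTopology G] in
lemma int_inv (κ : Measure G) (hκ : κ.map Inv.inv = κ) (f : G → ℂ) (hf : Continuous f) :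
    ∫ z, f z ∂κ = ∫ z, f z⁻¹ ∂κ := by
  conv_lhs => rw [← hκ]
  rw [integral_map continuous_inv.measurable.aemeasurable hf.aestronglyMeasurable]

omit [T2Space G] in
lemma inner (μ : Measure G) [IsProbabilityMeasure μ] [μ.IsMulRightInvariant] (κ : Measure G)
    [IsProbabilityMeasure κ] (hκ : κ.map Inv.inv = κ) (t : (Fin r → ℝ) → G) (ht : Continuous t)
    (Λ : (Fin r → ℝ) → ℂ) (hΛ : BC Λ) (G₁ G₂ : G → ℂ) (h₁ : Continuous G₁) (h₂ : Continuous G₂)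
    (h : G) :
    ∫ z, ∫ z', (∫ θ in Set.Icc (0 : Fin r → ℝ) 1,
      Λ θ * ∫ g', conj (G₂ (g' * (h * z * t θ * z' * h⁻¹))) * G₁ g' ∂μ) ∂κ ∂κ =
    ∫ g, (∫ θ in Set.Icc (0 : Fin r → ℝ) 1, Λ θ *
      ((∫ z, G₁ (g * z * h⁻¹) ∂κ) * conj (∫ z, G₂ (g * t θ * z * h⁻¹) ∂κ))) ∂μ := by
  set ν : Measure (Fin r → ℝ) := volume.restrict (Set.Icc (0 : Fin r → ℝ) 1) with hν
  have hνf : IsFiniteMeasure ν := isFiniteMeasure_restrict.2 isCompact_Icc.measure_lt_top.ne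
  have b₁ : BC G₁ := BC.of_compact h₁
  have b₂ : BC G₂ := BC.of_compact h₂
  set Ψ : G → G → (Fin r → ℝ) → G → ℂ := fun z z' θ g =>
    Λ θ * (conj (G₂ (g * t θ * z' * h⁻¹)) * G₁ (g * z⁻¹ * h⁻¹)) with hΨ
  have bΨ : BC (fun p : G × G × (Fin r → ℝ) × G => Ψ p.1 p.2.1 p.2.2.1 p.2.2.2) := by
    refine BC.mul (hΛ.comp (by fun_prop)) (BC.mul (BC.conj (b₂.comp ?_)) (b₁.comp ?_))
    · fun_prop
    · fun_prop
  have e1 : ∀ z z' θ, Λ θ * ∫ g', conj (G₂ (g' * (h * z * t θ * z' * h⁻¹))) * G₁ g' ∂μ =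
      ∫ g, Ψ z z' θ g ∂μ := by
    intro z z' θ
    rw [← integral_mul_right_eq_self (fun g' => conj (G₂ (g' * (h * z * t θ * z' * h⁻¹))) * G₁ g')
      (z⁻¹ * h⁻¹), ← integral_const_mul]
    apply integral_congr_ae
    refine Eventually.of_forall fun g => ?_
    simp only [hΨ]
    have e2 : g * (z⁻¹ * h⁻¹) * (h * z * t θ * z' * h⁻¹) = g * t θ * z' * h⁻¹ := by group
    rw [e2, ← mul_assoc g]
  simp only [e1]
  have s1 : ∫ z, ∫ z', ∫ θ, ∫ g, Ψ z z' θ g ∂μ ∂ν ∂κ ∂κ =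
      ∫ z, ∫ z', ∫ g, ∫ θ, Ψ z z' θ g ∂ν ∂μ ∂κ ∂κ := by
    congr 1
    funext z
    congr 1
    funext z'
    exact BC.swap ν μ (bΨ.comp (g := fun p : (Fin r → ℝ) × G => (z, z', p.1, p.2)) (by fun_prop))
  have s2 : ∫ z, ∫ z', ∫ g, ∫ θ, Ψ z z' θ g ∂ν ∂μ ∂κ ∂κ =
      ∫ z, ∫ g, ∫ z', ∫ θ, Ψ z z' θ g ∂ν ∂κ ∂μ ∂κ := by
    congr 1
    funext z
    exact BC.swap κ μ (BC.int ν (f := fun (p : G × G) θ => Ψ z p.1 θ p.2)
      (bΨ.comp (g := fun p : (G × G) × (Fin r → ℝ) => (z, p.1.1, p.2, p.1.2)) (by fun_prop)))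
  have s3 : ∫ z, ∫ g, ∫ z', ∫ θ, Ψ z z' θ g ∂ν ∂κ ∂μ ∂κ =
      ∫ z, ∫ g, ∫ θ, ∫ z', Ψ z z' θ g ∂κ ∂ν ∂μ ∂κ := by
    congr 1
    funext z
    congr 1
    funext g
    exact BC.swap κ ν (bΨ.comp (g := fun p : G × (Fin r → ℝ) => (z, p.1, p.2, g)) (by fun_prop))
  have s4 : ∫ z, ∫ g, ∫ θ, ∫ z', Ψ z z' θ g ∂κ ∂ν ∂μ ∂κ =
      ∫ g, ∫ z, ∫ θ, ∫ z', Ψ z z' θ g ∂κ ∂ν ∂κ ∂μ := by
    refine BC.swap κ μ (BC.int ν (f := fun (p : G × G) θ => ∫ z', Ψ p.1 z' θ p.2 ∂κ) ?_)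
    exact BC.int κ (f := fun (p : (G × G) × (Fin r → ℝ)) z' => Ψ p.1.1 z' p.2 p.1.2)
      (bΨ.comp (g := fun p : ((G × G) × (Fin r → ℝ)) × G => (p.1.1.1, p.2, p.1.2, p.1.1.2))
        (by fun_prop))
  have s5 : ∫ g, ∫ z, ∫ θ, ∫ z', Ψ z z' θ g ∂κ ∂ν ∂κ ∂μ =
      ∫ g, ∫ θ, ∫ z, ∫ z', Ψ z z' θ g ∂κ ∂κ ∂ν ∂μ := by
    congr 1
    funext g
    exact BC.swap κ ν (BC.int κ (f := fun (p : G × (Fin r → ℝ)) z' => Ψ p.1 z' p.2 g)
      (bΨ.comp (g := fun p : (G × (Fin r → ℝ)) × G => (p.1.1, p.2, p.1.2, g)) (by fun_prop)))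
  rw [s1, s2, s3, s4, s5]
  congr 1
  funext g
  congr 1
  funext θ
  rw [int_inv κ hκ (fun z => G₁ (g * z * h⁻¹)) (by fun_prop), ← integral_conj,
    mul_comm (∫ z, G₁ (g * z⁻¹ * h⁻¹) ∂κ)]
  have e3 : ∀ z, ∫ z', Ψ z z' θ g ∂κ =
      (Λ θ * ∫ z', conj (G₂ (g * t θ * z' * h⁻¹)) ∂κ) * G₁ (g * z⁻¹ * h⁻¹) := by
    intro z
    simp only [hΨ, ← mul_assoc]
    rw [integral_mul_const, integral_const_mul]
  simp only [e3]
  rw [integral_const_mul, mul_assoc]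

omit [T2Space G] in
/-- the abstract form -/
theorem abs (μ : Measure G) [IsProbabilityMeasure μ] [μ.IsMulLeftInvariant]
    [μ.IsMulRightInvariant] (κ : Measure G) [IsProbabilityMeasure κ] (hκ : κ.map Inv.inv = κ)
    (t : (Fin r → ℝ) → G) (ht : Continuous t) (Λ : (Fin r → ℝ) → ℂ) (hΛ : BC Λ) (k : G → ℂ)
    (hk : Continuous k) (hkc : ∀ h x, k (h * x * h⁻¹) = k x)
    (hidm : ∀ f : G → ℂ, Continuous f → ∫ x, f x * k x ∂μ =
      ∫ h, ∫ z, ∫ z', (∫ θ in Set.Icc (0 : Fin r → ℝ) 1,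
        Λ θ * f (h * z * t θ * z' * h⁻¹)) ∂κ ∂κ ∂μ)
    (G₁ G₂ : G → ℂ) (h₁ : Continuous G₁) (h₂ : Continuous G₂) :
    ∫ g, conj (G₂ g) * ∫ g', k (g * g'⁻¹) * G₁ g' ∂μ ∂μ =
      ∫ h, ∫ g, (∫ θ in Set.Icc (0 : Fin r → ℝ) 1, Λ θ *
        ((∫ z, G₁ (g * z * h⁻¹) ∂κ) * conj (∫ z, G₂ (g * t θ * z * h⁻¹) ∂κ))) ∂μ ∂μ := by
  have b₁ : BC G₁ := BC.of_compact h₁
  have b₂ : BC G₂ := BC.of_compact h₂
  have bk : BC k := BC.of_compact hk
  set f : G → ℂ := fun u => ∫ g', conj (G₂ (g' * u)) * G₁ g' ∂μ with hf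
  have bf : BC f := BC.int μ (f := fun u g' => conj (G₂ (g' * u)) * G₁ g')
    (BC.mul (BC.conj (b₂.comp (by fun_prop))) (b₁.comp (by fun_prop)))
  have e1 : ∫ g, conj (G₂ g) * ∫ g', k (g * g'⁻¹) * G₁ g' ∂μ ∂μ = ∫ x, f x * k x ∂μ := by
    calc ∫ g, conj (G₂ g) * ∫ g', k (g * g'⁻¹) * G₁ g' ∂μ ∂μ
        = ∫ g, ∫ g', conj (G₂ g) * (k (g * g'⁻¹) * G₁ g') ∂μ ∂μ := by
          simp only [integral_const_mul]
      _ = ∫ g', ∫ g, conj (G₂ g) * (k (g * g'⁻¹) * G₁ g') ∂μ ∂μ :=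
          BC.swap μ μ (f := fun g g' => conj (G₂ g) * (k (g * g'⁻¹) * G₁ g'))
            (BC.mul (BC.conj (b₂.comp (by fun_prop)))
              (BC.mul (bk.comp (by fun_prop)) (b₁.comp (by fun_prop))))
      _ = ∫ g', ∫ u, conj (G₂ (g' * u)) * (k u * G₁ g') ∂μ ∂μ := by
          congr 1
          funext g'
          rw [← integral_mul_left_eq_self (fun g => conj (G₂ g) * (k (g * g'⁻¹) * G₁ g')) g']
          simp only [hkc]
      _ = ∫ u, ∫ g', conj (G₂ (g' * u)) * (k u * G₁ g') ∂μ ∂μ :=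
          BC.swap μ μ (f := fun g' u => conj (G₂ (g' * u)) * (k u * G₁ g'))
            (BC.mul (BC.conj (b₂.comp (by fun_prop)))
              (BC.mul (bk.comp (by fun_prop)) (b₁.comp (by fun_prop))))
      _ = ∫ x, f x * k x ∂μ := by
          congr 1
          funext u
          rw [hf, ← integral_mul_const]
          congr 1
          funext g'
          ring
  rw [e1, hidm f bf.1]
  congr 1
  funext h
  exact inner μ κ hκ t ht Λ hΛ G₁ G₂ h₁ h₂ h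

end abs

end BRP

open BRP in
/-- The bilinear form. -/
theorem t_BRP : M_BRP := by
  intro hhaar hlieb htauf hsyk hidm N H r Φ B Hc E c k d hCX μ _ _ χ hχ ϑ κ hϑ hκ nf T F hT hF
    G₁ G₂ h₁ h₂
  have hcl := hCX.closed
  have hcs : CompactSpace H := isCompact_iff_compactSpace.1 hcl.isCompact
  have hsc : SecondCountableTopology H :=
    TopologicalSpace.Subtype.secondCountableTopology (H : Set (SU N))
  obtain ⟨hright, -, -⟩ := hhaar H μ
  have hl : LIF H := hlieb N H hcl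
  have hta := htauf N H r Φ B Hc E hcl hCX.lrd
  have hprob : IsProbabilityMeasure κ := hκ.prob
  have hsym : κ.map Inv.inv = κ := hsyk N H hcl _ _ κ
    (fun a => hl.smul _ _ (TAI.yr_mem hl hCX.lrd c a)) hκ
  have htt : Continuous (tt H Hc) := by
    have e : tt H Hc = fun θ => (⟨ta Hc θ, hta.mem θ⟩ : H) := by
      funext θ
      unfold tt
      rw [dif_pos (hta.mem θ)]
    rw [e]
    exact hta.cont.subtype_mk _
  have hΛ : BC (fun θ : Fin r → ℝ => ∑ m ∈ T, lm Φ ϑ nf m * eu (dz m θ)) := by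
    refine ⟨?_, ∑ m ∈ T, ‖lm Φ ϑ nf m‖, fun θ => ?_⟩
    · unfold eu dz
      fun_prop
    · refine (norm_sum_le _ _).trans (Finset.sum_le_sum fun m _ => ?_)
      rw [norm_mul]
      have : ‖eu (dz m θ)‖ = 1 := by
        unfold eu
        rw [Complex.norm_exp]
        simp
      rw [this, mul_one]
  have hcc : ∀ i : IX Hc, Continuous (χ i) ∧ ∀ h x : H, χ i (h * x * h⁻¹) = χ i x := by
    intro i
    obtain ⟨n, σ, -, -, -, hch⟩ := hχ i
    have e : χ i = σ.ch := funext fun g => (hch g).symm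
    rw [e]
    exact ⟨CHIF.ch_cont σ, fun h x => CHIF.ch_conj σ h x⟩
  have hk : Continuous (fun x : H => ∑ i ∈ F, wa Φ nf (wG i.1) * (χ i 1 * χ i x)) := by
    refine continuous_finsetSum _ fun i _ => ?_
    exact continuous_const.mul (continuous_const.mul (hcc i).1)
  exact BRP.abs μ κ hsym (tt H Hc) htt _ hΛ
    (fun x : H => ∑ i ∈ F, wa Φ nf (wG i.1) * (χ i 1 * χ i x)) hk
    (fun h x => by simp only [(hcc _).2])
    (hidm N H r Φ B Hc E c k d hCX μ χ hχ ϑ κ hϑ hκ nf T F hT hF) G₁ G₂ h₁ h₂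

end

end STZ3
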