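import Pool.Agent.STZ3.StF

/-!
# BXB: the bound for one tuple
-/

namespace STZ3

open STZ LGR MeasureTheory Matrix Filter

open scoped ComplexConjugate Matrix Real Topology

noncomputable section

namespace BXB

lemma interp {T a U V s t : ℝ} (ha : 0 ≤ a) (hU : 0 ≤ U) (hV : 0 ≤ V) (hs : 0 < s) (ht : 0 < t)
    (hst : s + t = 1) (h1 : T ≤ a + U) (h2 : T ≤ V) : T ≤ a + U ^ s * V ^ t := by
  by_cases h : T ≤ a
  · have : 0 ≤ U ^ s * V ^ t := by positivity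
    linarith
  · push Not at h
    have h3 : 0 < T - a := by linarith
    have h4 : T - a ≤ U := by linarith
    have h5 : T - a ≤ V := by linarith
    have h6 : T - a = (T - a) ^ s * (T - a) ^ t := by
      rw [← Real.rpow_add h3, hst, Real.rpow_one]
    have h7 : (T - a) ^ s * (T - a) ^ t ≤ U ^ s * V ^ t :=
      mul_le_mul (Real.rpow_le_rpow h3.le h4 hs.le) (Real.rpow_le_rpow h3.le h5 ht.le)
        (by positivity) (by positivity)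
    linarith

lemma core {n : ℕ} (hn : 1 ≤ n) {T a CI CB CN P Q R D S g : ℝ} (ha : 0 ≤ a) (hCI : 0 ≤ CI)
    (hCB : 0 ≤ CB) (hCN : 0 ≤ CN) (hP : 0 ≤ P) (hQ : 0 ≤ Q) (hR : 0 ≤ R) (hD : 0 ≤ D) (hS : 0 ≤ S)
    (hg : 0 ≤ g) (h1 : T ≤ a + CI * P * R * g ^ ((3 : ℝ) / 2)) (h2 : T ≤ CB * Q * D * g)
    (h3 : R ^ 4 * D ^ n ≤ CN * S) :
    T ≤ a + (CI ^ (4 / ((n : ℝ) + 4)) * CB ^ ((n : ℝ) / (n + 4)) * CN ^ (1 / ((n : ℝ) + 4))) *
      (P ^ (4 / ((n : ℝ) + 4)) * Q ^ ((n : ℝ) / (n + 4)) * S ^ (1 / ((n : ℝ) + 4))) *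
      g ^ (1 + 2 / ((n : ℝ) + 4)) := by
  have hn0 : (0 : ℝ) < n := by exact_mod_cast hn
  set s : ℝ := 4 / ((n : ℝ) + 4) with hs
  set t : ℝ := (n : ℝ) / (n + 4) with ht
  have hs0 : 0 < s := by positivity
  have ht0 : 0 < t := by positivity
  have hst : s + t = 1 := by
    rw [hs, ht]; field_simp; ring
  have h4 := interp ha (U := CI * P * R * g ^ ((3 : ℝ) / 2)) (V := CB * Q * D * g) (by positivity)
    (by positivity) hs0 ht0 hst h1 h2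
  refine h4.trans ?_
  have e1 : (CI * P * R * g ^ ((3 : ℝ) / 2)) ^ s * (CB * Q * D * g) ^ t =
      (CI ^ s * CB ^ t) * (P ^ s * Q ^ t) * (R ^ s * D ^ t) * ((g ^ ((3 : ℝ) / 2)) ^ s * g ^ t) := by
    rw [Real.mul_rpow (by positivity) (by positivity), Real.mul_rpow (by positivity) hR,
      Real.mul_rpow hCI hP, Real.mul_rpow (by positivity) hg, Real.mul_rpow (by positivity) hD,
      Real.mul_rpow hCB hQ]
    ring
  have e2 : (g ^ ((3 : ℝ) / 2)) ^ s * g ^ t = g ^ (1 + 2 / ((n : ℝ) + 4)) := by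
    rw [← Real.rpow_mul hg, ← Real.rpow_add_of_nonneg hg (by positivity) ht0.le]
    congr 1
    rw [hs, ht]; field_simp; ring
  have e3 : R ^ s * D ^ t = (R ^ 4 * D ^ n) ^ (1 / ((n : ℝ) + 4)) := by
    rw [Real.mul_rpow (by positivity) (by positivity), ← Real.rpow_natCast R, ← Real.rpow_natCast D,
      ← Real.rpow_mul hR, ← Real.rpow_mul hD]
    congr 2
    · rw [hs]; push_cast; ring
    · rw [ht]; ring
  have e4 : R ^ s * D ^ t ≤ CN ^ (1 / ((n : ℝ) + 4)) * S ^ (1 / ((n : ℝ) + 4)) := by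
    rw [e3, ← Real.mul_rpow hCN hS]
    exact Real.rpow_le_rpow (by positivity) h3 (by positivity)
  rw [e1, e2]
  have h5 : (CI ^ s * CB ^ t) * (P ^ s * Q ^ t) * (R ^ s * D ^ t) * g ^ (1 + 2 / ((n : ℝ) + 4)) ≤
      (CI ^ s * CB ^ t) * (P ^ s * Q ^ t) * (CN ^ (1 / ((n : ℝ) + 4)) * S ^ (1 / ((n : ℝ) + 4))) *
        g ^ (1 + 2 / ((n : ℝ) + 4)) :=
    mul_le_mul_of_nonneg_right (mul_le_mul_of_nonneg_left e4 (by positivity)) (by positivity)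
  linarith

end BXB

open BXB in
theorem t_BXB : M_BXB := by
  intro hWF hCFA hPRM hBII hIPR hNUM N H Φ B Hc E c k d hX hcard μ _ _ χ hχ ε hε
  have hI := hX.lrd.ird
  have hW := hWF 2 Φ B hI
  have hPR := hPRM 2 Φ B (by norm_num) hI hW
  obtain ⟨K, hK, hIPR1⟩ := hIPR N H Φ B Hc E c k d hX μ χ hχ
  obtain ⟨CN, hCN, hNUM1⟩ := hNUM Φ B hI hW hcard
  set n : ℕ := (pos Φ).card with hn
  have hn4 : (4 : ℝ) ≤ n := by exact_mod_cast hcard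
  set ε' : ℝ := min ε 1 with hε'
  have hε'0 : 0 < ε' := lt_min hε one_pos
  have hε'1 : ε' ≤ 1 := min_le_right _ _
  have hε'ε : ε' ≤ ε := min_le_left _ _
  set ε₁ : ℝ := ε' / (2 * (K + 8 * n + 1)) with hε₁
  have hden : 0 < 2 * (K + 8 * n + 1) := by positivity
  have hε₁0 : 0 < ε₁ := by positivity
  have hε₁8 : ε₁ ≤ 1 / 8 := by
    rw [hε₁, div_le_div_iff₀ hden (by norm_num)]
    nlinarith
  have hε₁m : (K + 8 * n + 1) * ε₁ = ε' / 2 := by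
    rw [hε₁]; field_simp
  obtain ⟨m, hm1, hm⟩ : ∃ m : ℕ, 1 ≤ m ∧ (n : ℝ) + 3 + 4 ≤ 2 * ε₁ * m := by
    refine ⟨⌈((n : ℝ) + 7) / (2 * ε₁)⌉₊, Nat.one_le_ceil_iff.2 (by positivity), ?_⟩
    have h1 := Nat.le_ceil (((n : ℝ) + 7) / (2 * ε₁))
    rw [div_le_iff₀ (by positivity)] at h1
    linarith
  obtain ⟨C₁, hC₁, hCF⟩ := hCFA m hm1
  obtain ⟨CI, hCI, hIPR2⟩ := hIPR1 m C₁ ε₁ 4 hm1 hCF hε₁0 hε₁8 (by norm_num) hm
  obtain ⟨CB, hCB, hBII1⟩ := hBII N H Φ B Hc E c k d hX μ χ hχ m C₁ ε₁ hm1 hCF hε₁0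
  set C0 : ℝ := CI ^ (4 / ((n : ℝ) + 4)) * CB ^ ((n : ℝ) / (n + 4)) * CN ^ (1 / ((n : ℝ) + 4))
    with hC0
  have hC00 : 0 ≤ C0 := by positivity
  refine ⟨m, C₁, CI + C0, hm1, hCF, by positivity, ?_⟩
  intro J q x F G hJ hq hF hG hG1
  have hmG : 0 ≤ mG μ G :=
    intervalIntegral.integral_nonneg zero_le_one fun t _ => integral_nonneg fun y => norm_nonneg _
  set g : ℝ := mG μ G with hg
  have hJ0 : (0 : ℝ) ≤ J := Nat.cast_nonneg _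
  obtain ⟨hempty, hbd⟩ := hIPR2 J q x F G hJ hq hF hG hG1
  have hone : (1 : ℝ) ≤ (2 : ℝ) ^ (ε * J) := Real.one_le_rpow (by norm_num) (by positivity)
  have hlast : CI * (2 : ℝ) ^ (-(4 * J : ℝ)) * g ≤
      (CI + C0) * (2 : ℝ) ^ (ε * J) * ((2 : ℝ) ^ (-(4 * J : ℝ)) * g) := by
    have h1 : 0 ≤ (2 : ℝ) ^ (-(4 * J : ℝ)) * g := by positivity
    have h2 : CI ≤ (CI + C0) * (2 : ℝ) ^ (ε * J) := by nlinarith
    calc CI * (2 : ℝ) ^ (-(4 * J : ℝ)) * g = CI * ((2 : ℝ) ^ (-(4 * J : ℝ)) * g) := by ring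
      _ ≤ _ := mul_le_mul_of_nonneg_right h2 h1
  by_cases hs : shl ε₁ x = ∅
  · refine (hempty hs).trans (hlast.trans ?_)
    have h3 : 0 ≤ (2 : ℝ) ^ (2 * (n : ℝ) / (n + 4) * J) * g ^ (1 + 2 / ((n : ℝ) + 4)) := by
      positivity
    refine mul_le_mul_of_nonneg_left ?_ (by positivity)
    linarith
  obtain ⟨p₁, p₂, hp, hnum⟩ := hNUM1 ε₁ J x hε₁0 hε₁8 hJ hs
  have hb := hBII1 J q x F G p₁ p₂ hq hp hG hG1
  set R : ℝ := (2 ^ J * bx' x) ^ ((n : ℝ) / 2) /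
    ∏ p : {p // p ∈ pos Φ}, max (dl x p) (ro ε₁ x) with hR
  have hbx : 0 ≤ bx' x := le_trans (by positivity) (hPR.bge J x)
  have hR0 : 0 ≤ R := by
    apply div_nonneg
    · positivity
    · exact Finset.prod_nonneg fun p _ => le_trans (hPR.dpos J x p).le (le_max_left _ _)
  have hD0 : 0 ≤ dl x p₁ * dl x p₂ := mul_nonneg (hPR.dpos J x p₁).le (hPR.dpos J x p₂).le
  have hb' : ‖BF μ χ F (fun t i => wa Φ (nx Φ m J q x t) (wG i.1)) G‖ ≤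
      CB * (2 : ℝ) ^ (ε₁ * J) * (dl x p₁ * dl x p₂) * g := by
    refine hb.trans (le_of_eq ?_)
    unfold dl
    ring
  have hc := core (n := n) (by omega) (a := CI * (2 : ℝ) ^ (-(4 * J : ℝ)) * g) (by positivity) hCI
    hCB hCN (P := (2 : ℝ) ^ (K * ε₁ * J)) (by positivity) (Q := (2 : ℝ) ^ (ε₁ * J)) (by positivity)
    hR0 hD0 (S := (2 : ℝ) ^ ((2 * (n : ℝ) + 8 * n * ε₁) * J)) (by positivity) hmG hbd hb' hnum
  refine hc.trans ?_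
  have hexp : ((2 : ℝ) ^ (K * ε₁ * J)) ^ (4 / ((n : ℝ) + 4)) *
      ((2 : ℝ) ^ (ε₁ * J)) ^ ((n : ℝ) / (n + 4)) *
      ((2 : ℝ) ^ ((2 * (n : ℝ) + 8 * n * ε₁) * J)) ^ (1 / ((n : ℝ) + 4)) ≤
      (2 : ℝ) ^ (ε * J) * (2 : ℝ) ^ (2 * (n : ℝ) / (n + 4) * J) := by
    rw [← Real.rpow_mul (by norm_num), ← Real.rpow_mul (by norm_num), ← Real.rpow_mul (by norm_num),
      ← Real.rpow_add (by norm_num), ← Real.rpow_add (by norm_num), ← Real.rpow_add (by norm_num)]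
    apply Real.rpow_le_rpow_of_exponent_le (by norm_num)
    have hn40 : (0 : ℝ) < (n : ℝ) + 4 := by linarith
    have i1 : 4 / ((n : ℝ) + 4) ≤ 1 := by rw [div_le_one hn40]; linarith
    have i2 : (n : ℝ) / (n + 4) ≤ 1 := by rw [div_le_one hn40]; linarith
    have i3 : 8 * (n : ℝ) / (n + 4) ≤ 8 * n := by
      rw [div_le_iff₀ hn40]; nlinarith
    have e : K * ε₁ * J * (4 / ((n : ℝ) + 4)) + ε₁ * J * ((n : ℝ) / (n + 4)) +
        (2 * (n : ℝ) + 8 * n * ε₁) * J * (1 / ((n : ℝ) + 4)) =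
        (K * (4 / ((n : ℝ) + 4)) + (n : ℝ) / (n + 4) + 8 * (n : ℝ) / (n + 4)) * ε₁ * J +
          2 * (n : ℝ) / (n + 4) * J := by
      field_simp
      ring
    rw [e]
    have h4 : (K * (4 / ((n : ℝ) + 4)) + (n : ℝ) / (n + 4) + 8 * (n : ℝ) / (n + 4)) ≤
        K + 8 * n + 1 := by
      have := mul_le_mul_of_nonneg_left i1 hK
      linarith
    have h5 : (K * (4 / ((n : ℝ) + 4)) + (n : ℝ) / (n + 4) + 8 * (n : ℝ) / (n + 4)) * ε₁ ≤ ε := by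
      have := mul_le_mul_of_nonneg_right h4 hε₁0.le
      linarith
    have h6 := mul_le_mul_of_nonneg_right h5 hJ0
    linarith
  have hmain : C0 * (((2 : ℝ) ^ (K * ε₁ * J)) ^ (4 / ((n : ℝ) + 4)) *
      ((2 : ℝ) ^ (ε₁ * J)) ^ ((n : ℝ) / (n + 4)) *
      ((2 : ℝ) ^ ((2 * (n : ℝ) + 8 * n * ε₁) * J)) ^ (1 / ((n : ℝ) + 4))) *
      g ^ (1 + 2 / ((n : ℝ) + 4)) ≤
      (CI + C0) * (2 : ℝ) ^ (ε * J) *
        ((2 : ℝ) ^ (2 * (n : ℝ) / (n + 4) * J) * g ^ (1 + 2 / ((n : ℝ) + 4))) := by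
    calc _ ≤ C0 * ((2 : ℝ) ^ (ε * J) * (2 : ℝ) ^ (2 * (n : ℝ) / (n + 4) * J)) *
          g ^ (1 + 2 / ((n : ℝ) + 4)) :=
          mul_le_mul_of_nonneg_right (mul_le_mul_of_nonneg_left hexp hC00) (by positivity)
      _ ≤ (CI + C0) * ((2 : ℝ) ^ (ε * J) * (2 : ℝ) ^ (2 * (n : ℝ) / (n + 4) * J)) *
          g ^ (1 + 2 / ((n : ℝ) + 4)) := by
          refine mul_le_mul_of_nonneg_right (mul_le_mul_of_nonneg_right ?_ (by positivity))
            (by positivity)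
          linarith
      _ = _ := by ring
  calc _ ≤ (CI + C0) * (2 : ℝ) ^ (ε * J) * ((2 : ℝ) ^ (-(4 * J : ℝ)) * g) +
        (CI + C0) * (2 : ℝ) ^ (ε * J) *
        ((2 : ℝ) ^ (2 * (n : ℝ) / (n + 4) * J) * g ^ (1 + 2 / ((n : ℝ) + 4))) :=
        add_le_add hlast hmain
    _ = _ := by ring

end

end STZ3
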