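import Pool.Agent.STZ3.StD3

/-!
# BXC: the bound for one tuple (three positive roots)
-/

namespace STZ3

open STZ LGR MeasureTheory Matrix Filter

open scoped ComplexConjugate Matrix Real Topology

noncomputable section

namespace BXC

lemma interp {T a U V s t : ℝ} (ha : 0 ≤ a) (hU : 0 ≤ U) (hV : 0 ≤ V) (hs : 0 < s) (ht : 0 < t)
    (hst : s + t = 1) (h1 : T ≤ a + U) (h2 : T ≤ V) : T ≤ a + U ^ s * V ^ t := by
  by_cases h : T ≤ a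
  · have : 0 ≤ U ^ s * V ^ t := by positivity
    linarith
  · push Not at h
    have h3 : 0 < T - a := by linarith
    have h4 : T - a ≤ U := by linarith
    have h5 : T - a ≤ V := by linarith
    have h6 : T - a = (T - a) ^ s * (T - a) ^ t := by
      rw [← Real.rpow_add h3, hst, Real.rpow_one]
    have h7 : (T - a) ^ s * (T - a) ^ t ≤ U ^ s * V ^ t :=
      mul_le_mul (Real.rpow_le_rpow h3.le h4 hs.le) (Real.rpow_le_rpow h3.le h5 ht.le)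
        (by positivity) (by positivity)
    linarith

lemma core {T a CI CB CN P Q R D S g : ℝ} (ha : 0 ≤ a) (hCI : 0 ≤ CI)
    (hCB : 0 ≤ CB) (hCN : 0 ≤ CN) (hP : 0 ≤ P) (hQ : 0 ≤ Q) (hR : 0 ≤ R) (hD : 0 ≤ D) (hS : 0 ≤ S)
    (hg : 0 ≤ g) (h1 : T ≤ a + CI * P * R * g ^ ((3 : ℝ) / 2)) (h2 : T ≤ CB * Q * D * g)
    (h3 : R ^ 4 * D ^ 3 ≤ CN * S) :
    T ≤ a + (CI ^ ((4 : ℝ) / 7) * CB ^ ((3 : ℝ) / 7) * CN ^ ((1 : ℝ) / 7)) *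
      (P ^ ((4 : ℝ) / 7) * Q ^ ((3 : ℝ) / 7) * S ^ ((1 : ℝ) / 7)) *
      g ^ ((9 : ℝ) / 7) := by
  have h4 := interp ha (U := CI * P * R * g ^ ((3 : ℝ) / 2)) (V := CB * Q * D * g) (by positivity)
    (by positivity) (s := 4 / 7) (t := 3 / 7) (by norm_num) (by norm_num) (by norm_num) h1 h2
  refine h4.trans ?_
  have e1 : (CI * P * R * g ^ ((3 : ℝ) / 2)) ^ ((4 : ℝ) / 7) * (CB * Q * D * g) ^ ((3 : ℝ) / 7) =
      (CI ^ ((4 : ℝ) / 7) * CB ^ ((3 : ℝ) / 7)) * (P ^ ((4 : ℝ) / 7) * Q ^ ((3 : ℝ) / 7)) *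
      (R ^ ((4 : ℝ) / 7) * D ^ ((3 : ℝ) / 7)) *
      ((g ^ ((3 : ℝ) / 2)) ^ ((4 : ℝ) / 7) * g ^ ((3 : ℝ) / 7)) := by
    rw [Real.mul_rpow (by positivity) (by positivity), Real.mul_rpow (by positivity) hR,
      Real.mul_rpow hCI hP, Real.mul_rpow (by positivity) hg, Real.mul_rpow (by positivity) hD,
      Real.mul_rpow hCB hQ]
    ring
  have e2 : (g ^ ((3 : ℝ) / 2)) ^ ((4 : ℝ) / 7) * g ^ ((3 : ℝ) / 7) = g ^ ((9 : ℝ) / 7) := by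
    rw [← Real.rpow_mul hg, ← Real.rpow_add_of_nonneg hg (by norm_num) (by norm_num)]
    congr 1
    norm_num
  have e3 : R ^ ((4 : ℝ) / 7) * D ^ ((3 : ℝ) / 7) = (R ^ 4 * D ^ 3) ^ ((1 : ℝ) / 7) := by
    rw [Real.mul_rpow (by positivity) (by positivity), ← Real.rpow_natCast R, ← Real.rpow_natCast D,
      ← Real.rpow_mul hR, ← Real.rpow_mul hD]
    congr 2 <;> norm_num
  have e4 : R ^ ((4 : ℝ) / 7) * D ^ ((3 : ℝ) / 7) ≤ CN ^ ((1 : ℝ) / 7) * S ^ ((1 : ℝ) / 7) := by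
    rw [e3, ← Real.mul_rpow hCN hS]
    exact Real.rpow_le_rpow (by positivity) h3 (by norm_num)
  rw [e1, e2]
  have h5 : (CI ^ ((4 : ℝ) / 7) * CB ^ ((3 : ℝ) / 7)) * (P ^ ((4 : ℝ) / 7) * Q ^ ((3 : ℝ) / 7)) *
      (R ^ ((4 : ℝ) / 7) * D ^ ((3 : ℝ) / 7)) * g ^ ((9 : ℝ) / 7) ≤
      (CI ^ ((4 : ℝ) / 7) * CB ^ ((3 : ℝ) / 7)) * (P ^ ((4 : ℝ) / 7) * Q ^ ((3 : ℝ) / 7)) *
      (CN ^ ((1 : ℝ) / 7) * S ^ ((1 : ℝ) / 7)) * g ^ ((9 : ℝ) / 7) :=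
    mul_le_mul_of_nonneg_right (mul_le_mul_of_nonneg_left e4 (by positivity)) (by positivity)
  linarith

lemma fin_bd {K ε ε₁ J CI C0 C g T : ℝ} (hK : 0 ≤ K) (hε : 0 ≤ ε) (hε₁ : 0 < ε₁)
    (hm : (K + 301) * ε₁ ≤ ε) (hJ : 0 ≤ J) (hg : 0 ≤ g) (hCI : 0 ≤ CI) (hC0 : 0 ≤ C0)
    (hC : CI + C0 ≤ C)
    (h : T ≤ CI * (2 : ℝ) ^ (-(4 * J)) * g + C0 * (((2 : ℝ) ^ (K * ε₁ * J)) ^ ((4 : ℝ) / 7) *
      ((2 : ℝ) ^ (ε₁ * J)) ^ ((3 : ℝ) / 7) * ((2 : ℝ) ^ ((6 + 300 * ε₁) * J)) ^ ((1 : ℝ) / 7)) *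
      g ^ ((9 : ℝ) / 7)) :
    T ≤ C * (2 : ℝ) ^ (ε * J) *
      ((2 : ℝ) ^ ((6 : ℝ) / 7 * J) * g ^ ((9 : ℝ) / 7) + (2 : ℝ) ^ (-(4 * J)) * g) := by
  have hone : (1 : ℝ) ≤ (2 : ℝ) ^ (ε * J) := Real.one_le_rpow (by norm_num) (by positivity)
  have hlast : CI * (2 : ℝ) ^ (-(4 * J)) * g ≤
      C * (2 : ℝ) ^ (ε * J) * ((2 : ℝ) ^ (-(4 * J)) * g) := by
    have h1 : 0 ≤ (2 : ℝ) ^ (-(4 * J)) * g := by positivity
    have h2 : CI ≤ C * (2 : ℝ) ^ (ε * J) := by nlinarith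
    calc CI * (2 : ℝ) ^ (-(4 * J)) * g = CI * ((2 : ℝ) ^ (-(4 * J)) * g) := by ring
      _ ≤ _ := mul_le_mul_of_nonneg_right h2 h1
  have hexp : ((2 : ℝ) ^ (K * ε₁ * J)) ^ ((4 : ℝ) / 7) *
      ((2 : ℝ) ^ (ε₁ * J)) ^ ((3 : ℝ) / 7) * ((2 : ℝ) ^ ((6 + 300 * ε₁) * J)) ^ ((1 : ℝ) / 7) ≤
      (2 : ℝ) ^ (ε * J) * (2 : ℝ) ^ ((6 : ℝ) / 7 * J) := by
    rw [← Real.rpow_mul (by norm_num), ← Real.rpow_mul (by norm_num), ← Real.rpow_mul (by norm_num),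
      ← Real.rpow_add (by norm_num), ← Real.rpow_add (by norm_num), ← Real.rpow_add (by norm_num)]
    apply Real.rpow_le_rpow_of_exponent_le (by norm_num)
    have e : K * ε₁ * J * (4 / 7) + ε₁ * J * (3 / 7) + (6 + 300 * ε₁) * J * (1 / 7) =
        ((4 / 7) * K + 3 / 7 + 300 / 7) * ε₁ * J + 6 / 7 * J := by
      ring
    rw [e]
    have h4 : (4 / 7) * K + 3 / 7 + 300 / 7 ≤ K + 301 := by linarith
    have h5 : ((4 / 7) * K + 3 / 7 + 300 / 7) * ε₁ ≤ ε :=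
      (mul_le_mul_of_nonneg_right h4 hε₁.le).trans hm
    have h6 := mul_le_mul_of_nonneg_right h5 hJ
    linarith
  have hmain : C0 * (((2 : ℝ) ^ (K * ε₁ * J)) ^ ((4 : ℝ) / 7) *
      ((2 : ℝ) ^ (ε₁ * J)) ^ ((3 : ℝ) / 7) * ((2 : ℝ) ^ ((6 + 300 * ε₁) * J)) ^ ((1 : ℝ) / 7)) *
      g ^ ((9 : ℝ) / 7) ≤
      C * (2 : ℝ) ^ (ε * J) * ((2 : ℝ) ^ ((6 : ℝ) / 7 * J) * g ^ ((9 : ℝ) / 7)) := by
    calc _ ≤ C0 * ((2 : ℝ) ^ (ε * J) * (2 : ℝ) ^ ((6 : ℝ) / 7 * J)) * g ^ ((9 : ℝ) / 7) :=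
          mul_le_mul_of_nonneg_right (mul_le_mul_of_nonneg_left hexp hC0) (by positivity)
      _ ≤ C * ((2 : ℝ) ^ (ε * J) * (2 : ℝ) ^ ((6 : ℝ) / 7 * J)) * g ^ ((9 : ℝ) / 7) := by
          refine mul_le_mul_of_nonneg_right (mul_le_mul_of_nonneg_right ?_ (by positivity))
            (by positivity)
          linarith
      _ = _ := by ring
  calc T ≤ _ := h
    _ ≤ C * (2 : ℝ) ^ (ε * J) * ((2 : ℝ) ^ (-(4 * J)) * g) +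
        C * (2 : ℝ) ^ (ε * J) * ((2 : ℝ) ^ ((6 : ℝ) / 7 * J) * g ^ ((9 : ℝ) / 7)) :=
        add_le_add hlast hmain
    _ = _ := by ring

end BXC

open BXC in
theorem t_BXC : M_BXC := by
  intro hWF hCFA hPRM hBII hIPR hATW hIPC hNUC N H Φ B Hc E c k d hX hcard μ _ _ χ hχ ε hε
  have hI := hX.lrd.ird
  have hW := hWF 2 Φ B hI
  have hA := hATW Φ B hI hW hcard
  have hPR := hPRM 2 Φ B (by norm_num) hI hW
  obtain ⟨K₁, hK₁, hIPR1⟩ := hIPR N H Φ B Hc E c k d hX μ χ hχ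
  obtain ⟨K₂, hK₂, hIPC1⟩ := hIPC N H Φ B Hc E c k d hX hA μ χ hχ
  obtain ⟨CN, hCN, hNUC1⟩ := hNUC Φ B hI hW hA
  set K : ℝ := K₁ + K₂ with hKdef
  have hK : 0 ≤ K := by positivity
  set ε' : ℝ := min ε 1 with hε'
  have hε'0 : 0 < ε' := lt_min hε one_pos
  have hε'1 : ε' ≤ 1 := min_le_right _ _
  have hε'ε : ε' ≤ ε := min_le_left _ _
  set ε₁ : ℝ := ε' / (K + 301) with hε₁
  have hden : 0 < K + 301 := by positivity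
  have hε₁0 : 0 < ε₁ := by positivity
  have hε₁8 : ε₁ ≤ 1 / 8 := by
    rw [hε₁, div_le_div_iff₀ hden (by norm_num)]
    linarith
  have hε₁m : (K + 301) * ε₁ ≤ ε := by
    have : (K + 301) * ε₁ = ε' := by rw [hε₁]; field_simp
    linarith
  obtain ⟨m, hm1, hm⟩ : ∃ m : ℕ, 1 ≤ m ∧ (10 : ℝ) ≤ 2 * ε₁ * m := by
    refine ⟨⌈(10 : ℝ) / (2 * ε₁)⌉₊, Nat.one_le_ceil_iff.2 (by positivity), ?_⟩
    have h1 := Nat.le_ceil ((10 : ℝ) / (2 * ε₁))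
    rw [div_le_iff₀ (by positivity)] at h1
    linarith
  have hcard' : (((pos Φ).card : ℕ) : ℝ) = 3 := by rw [hcard]; norm_num
  obtain ⟨C₁, hC₁, hCF⟩ := hCFA m hm1
  obtain ⟨CI, hCI, hIPR2⟩ := hIPR1 m C₁ ε₁ 4 hm1 hCF hε₁0 hε₁8 (by norm_num)
    (by rw [hcard']; linarith)
  obtain ⟨CJ, hCJ, hIPC2⟩ := hIPC1 m C₁ ε₁ 4 hm1 hCF hε₁0 (by linarith) (by norm_num) (by linarith)
  obtain ⟨CB, hCB, hBII1⟩ := hBII N H Φ B Hc E c k d hX μ χ hχ m C₁ ε₁ hm1 hCF hε₁0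
  set C0 : ℝ := CI ^ ((4 : ℝ) / 7) * CB ^ ((3 : ℝ) / 7) * CN ^ ((1 : ℝ) / 7) with hC0
  set C0' : ℝ := CJ ^ ((4 : ℝ) / 7) * CB ^ ((3 : ℝ) / 7) * CN ^ ((1 : ℝ) / 7) with hC0'
  have hC00 : 0 ≤ C0 := by positivity
  have hC00' : 0 ≤ C0' := by positivity
  refine ⟨m, C₁, (CI + C0) + (CJ + C0'), hm1, hCF, by positivity, ?_⟩
  intro J q x F G hJ hq hF hG hG1
  have hmG : 0 ≤ mG μ G :=
    intervalIntegral.integral_nonneg zero_le_one fun t _ => integral_nonneg fun y => norm_nonneg _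
  set g : ℝ := mG μ G with hg
  have hJ0 : (0 : ℝ) ≤ J := Nat.cast_nonneg _
  have hbx : 0 ≤ bx' x := le_trans (by positivity) (hPR.bge J x)
  have hb' : ∀ p₁ p₂ : {p // p ∈ pos Φ}, p₁ ≠ p₂ →
      ‖BF μ χ F (fun t i => wa Φ (nx Φ m J q x t) (wG i.1)) G‖ ≤
      CB * (2 : ℝ) ^ (ε₁ * J) * (dl x p₁ * dl x p₂) * g := by
    intro p₁ p₂ hp
    refine (hBII1 J q x F G p₁ p₂ hq.qh hp hG hG1).trans (le_of_eq ?_)
    unfold dl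
    ring
  rcases hNUC1 ε₁ J x hε₁0 hε₁8 hJ with ⟨a, p₂, hap, hRG, hnum⟩ | hsec
  · have hbd := hIPC2 J q a x F G hJ hq hRG hF hG hG1
    have hR0 : 0 ≤ Lb a x / (dl x a * bx' x ^ 2) := by
      have h1 := (hPR.dpos J x a).le
      have h2 : 0 ≤ Lb a x := by
        unfold Lb
        positivity
      positivity
    have hD0 : 0 ≤ dl x a * dl x p₂ := mul_nonneg (hPR.dpos J x a).le (hPR.dpos J x p₂).le
    have hnum' : (Lb a x / (dl x a * bx' x ^ 2)) ^ 4 * (dl x a * dl x p₂) ^ 3 ≤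
        CN * (2 : ℝ) ^ ((6 + 300 * ε₁) * J) := by
      refine hnum.trans (mul_le_mul_of_nonneg_left ?_ hCN)
      apply Real.rpow_le_rpow_of_exponent_le (by norm_num)
      have : 0 ≤ 300 * ε₁ * (J : ℝ) := by positivity
      linarith
    have hc := core (a := CJ * (2 : ℝ) ^ (-(4 * J : ℝ)) * g) (by positivity) hCJ
      hCB hCN (P := (2 : ℝ) ^ (K₂ * ε₁ * J)) (by positivity) (Q := (2 : ℝ) ^ (ε₁ * J))
      (by positivity) hR0 hD0 (S := (2 : ℝ) ^ ((6 + 300 * ε₁) * J)) (by positivity) hmG hbd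
      (hb' a p₂ hap) hnum'
    refine fin_bd (K := K₂) hK₂ hε.le hε₁0 ?_ hJ0 hmG hCJ hC00' ?_ hc
    · refine le_trans (mul_le_mul_of_nonneg_right ?_ hε₁0.le) hε₁m
      linarith
    · linarith
  · obtain ⟨hempty, hbd⟩ := hIPR2 J q x F G hJ hq.qh hF hG hG1
    by_cases hs : shl ε₁ x = ∅
    · refine fin_bd (K := K₁) hK₁ hε.le hε₁0 ?_ hJ0 hmG hCI hC00 ?_ ?_
      · refine le_trans (mul_le_mul_of_nonneg_right ?_ hε₁0.le) hε₁m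
        linarith
      · linarith
      · refine (hempty hs).trans (le_add_of_nonneg_right (by positivity))
    obtain ⟨p₁, p₂, hp, hnum⟩ := hsec hs
    have hR0 : 0 ≤ (2 ^ J * bx' x) ^ (((pos Φ).card : ℝ) / 2) /
        ∏ p : {p // p ∈ pos Φ}, max (dl x p) (ro ε₁ x) := by
      apply div_nonneg
      · positivity
      · exact Finset.prod_nonneg fun p _ => le_trans (hPR.dpos J x p).le (le_max_left _ _)
    have hD0 : 0 ≤ dl x p₁ * dl x p₂ := mul_nonneg (hPR.dpos J x p₁).le (hPR.dpos J x p₂).le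
    have hc := core (a := CI * (2 : ℝ) ^ (-(4 * J : ℝ)) * g) (by positivity) hCI
      hCB hCN (P := (2 : ℝ) ^ (K₁ * ε₁ * J)) (by positivity) (Q := (2 : ℝ) ^ (ε₁ * J))
      (by positivity) hR0 hD0 (S := (2 : ℝ) ^ ((6 + 300 * ε₁) * J)) (by positivity) hmG hbd
      (hb' p₁ p₂ hp) hnum
    refine fin_bd (K := K₁) hK₁ hε.le hε₁0 ?_ hJ0 hmG hCI hC00 ?_ hc
    · refine le_trans (mul_le_mul_of_nonneg_right ?_ hε₁0.le) hε₁m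
      linarith
    · linarith

end

end STZ3
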