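import Pool.Agent.STZ3.StS
import Pool.Agent.STZ.GEO

/-!
# STZ3, module CFB: bounds of the spatial cutoffs for complex arguments (F3)
-/

namespace STZ3

open STZ LGR MeasureTheory Matrix Filter

open scoped ComplexConjugate Matrix Real Topology

noncomputable section

namespace CFB

/-- the sum over `|k| ≤ M` -/
def D (f : ℤ → ℂ) (M : ℕ) : ℂ := ∑ k ∈ Finset.Icc (-(M : ℤ)) M, f k

/-- the weighted sum -/
def T (f : ℤ → ℂ) (M : ℕ) : ℂ :=
  ∑ k ∈ Finset.Icc (-(M : ℤ)) M, (((M : ℝ) - |(k : ℝ)| : ℝ) : ℂ) * f k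

theorem Icc_succ (M : ℕ) : Finset.Icc (-((M + 1 : ℕ) : ℤ)) ((M + 1 : ℕ) : ℤ) =
    insert (-((M : ℤ) + 1)) (insert ((M : ℤ) + 1) (Finset.Icc (-(M : ℤ)) M)) := by
  ext k
  simp only [Finset.mem_Icc, Finset.mem_insert]
  push_cast
  omega

theorem D_zero (f : ℤ → ℂ) : D f 0 = f 0 := by simp [D]

theorem D_succ (f : ℤ → ℂ) (M : ℕ) :
    D f (M + 1) = f (-((M : ℤ) + 1)) + (f ((M : ℤ) + 1) + D f M) := by
  unfold D
  rw [Icc_succ, Finset.sum_insert, Finset.sum_insert]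
  · simp only [Finset.mem_Icc, not_and, not_le]
    omega
  · simp only [Finset.mem_insert, Finset.mem_Icc, not_or, not_and, not_le]
    omega

theorem T_zero (f : ℤ → ℂ) : T f 0 = 0 := by simp [T]

theorem T_succ (f : ℤ → ℂ) (M : ℕ) : T f (M + 1) = T f M + D f M := by
  unfold T D
  rw [Icc_succ, Finset.sum_insert, Finset.sum_insert, ← Finset.sum_add_distrib]
  · have h1 : |(((-((M : ℤ) + 1) : ℤ)) : ℝ)| = (M : ℝ) + 1 := by
      push_cast
      rw [abs_neg, abs_of_nonneg (by positivity)]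
    have h2 : |((((M : ℤ) + 1 : ℤ)) : ℝ)| = (M : ℝ) + 1 := by
      push_cast
      rw [abs_of_nonneg (by positivity)]
    rw [h1, h2]
    push_cast
    rw [sub_self, zero_mul, zero_mul, zero_add, zero_add]
    refine Finset.sum_congr rfl fun k _ => ?_
    ring
  · simp only [Finset.mem_Icc, not_and, not_le]
    omega
  · simp only [Finset.mem_insert, Finset.mem_Icc, not_or, not_and, not_le]
    omega

theorem T_add (f g : ℤ → ℂ) (M : ℕ) : T (fun k => f k + g k) M = T f M + T g M := by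
  unfold T
  rw [← Finset.sum_add_distrib]
  exact Finset.sum_congr rfl fun k _ => by ring

theorem T_smul (a : ℂ) (f : ℤ → ℂ) (M : ℕ) : T (fun k => a * f k) M = a * T f M := by
  unfold T
  rw [Finset.mul_sum]
  exact Finset.sum_congr rfl fun k _ => by ring

theorem D_one (M : ℕ) : D (fun _ => 1) M = 2 * M + 1 := by
  induction M with
  | zero => rw [D_zero]; simp
  | succ M ih => rw [D_succ, ih]; push_cast; ring

theorem T_one (M : ℕ) : T (fun _ => 1) M = (M : ℂ) ^ 2 := by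
  induction M with
  | zero => rw [T_zero]; simp
  | succ M ih => rw [T_succ, ih, D_one]; push_cast; ring

theorem D_id (M : ℕ) : D (fun k => (k : ℂ)) M = 0 := by
  induction M with
  | zero => rw [D_zero]; simp
  | succ M ih => rw [D_succ, ih]; push_cast; ring

theorem T_id (M : ℕ) : T (fun k => (k : ℂ)) M = 0 := by
  induction M with
  | zero => rw [T_zero]
  | succ M ih => rw [T_succ, ih, D_id, add_zero]

theorem D_pow {q : ℂ} (hq : q ≠ 0) (M : ℕ) :
    (q - 1) * D (fun k => q ^ k) M = q ^ (M + 1) - (q ^ M)⁻¹ := by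
  induction M with
  | zero => rw [D_zero]; simp
  | succ M ih =>
    rw [D_succ, mul_add, mul_add, ih, _root_.zpow_neg]
    have h1 : q ^ ((M : ℤ) + 1) = q ^ (M + 1) := by
      rw [← zpow_natCast]; push_cast; rfl
    rw [h1]
    have h2 : q ^ M ≠ 0 := pow_ne_zero M hq
    rw [pow_succ, pow_succ, pow_succ]
    field_simp
    ring

theorem T_pow {q : ℂ} (hq : q ≠ 0) (M : ℕ) :
    (q - 1) ^ 2 * T (fun k => q ^ k) M * q ^ M = q * (q ^ M - 1) ^ 2 := by
  induction M with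
  | zero => rw [T_zero]; simp
  | succ M ih =>
    have h1 := D_pow hq M
    have h2 : q ^ M ≠ 0 := pow_ne_zero M hq
    have h3 : (q - 1) * D (fun k => q ^ k) M * q ^ M = q ^ (M + 1) * q ^ M - 1 := by
      rw [h1, sub_mul, inv_mul_cancel₀ h2]
    rw [T_succ, pow_succ q M] at *
    linear_combination q * ih + (q - 1) * q * h3

theorem sum_real (M : ℕ) :
    ∑ k ∈ Finset.Icc (-(M : ℤ)) M, ((M : ℝ) - |(k : ℝ)|) = (M : ℝ) ^ 2 := by
  have h := T_one M
  unfold T at h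
  simp only [mul_one] at h
  exact_mod_cast h

theorem T_bd (f : ℤ → ℂ) (M : ℕ) (K : ℝ) (hf : ∀ k : ℤ, |(k : ℝ)| ≤ M → ‖f k‖ ≤ K) :
    ‖T f M‖ ≤ (M : ℝ) ^ 2 * K := by
  unfold T
  refine le_trans (norm_sum_le _ _) ?_
  rw [← sum_real, Finset.sum_mul]
  refine Finset.sum_le_sum fun k hk => ?_
  have h1 : |(k : ℝ)| ≤ M := by
    rw [Finset.mem_Icc] at hk
    rw [abs_le]
    exact ⟨by exact_mod_cast hk.1, by exact_mod_cast hk.2⟩
  rw [norm_mul, Complex.norm_real, Real.norm_eq_abs, abs_of_nonneg (sub_nonneg.2 h1)]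
  exact mul_le_mul_of_nonneg_left (hf k h1) (sub_nonneg.2 h1)

theorem sg_eq (M : ℕ) (z : ℂ) :
    sg M z = T (fun k => Complex.exp (2 * π * Complex.I * k * z)) M / (M : ℂ) ^ 2 := by
  unfold sg T
  rw [Finset.sum_div]
  refine Finset.sum_congr rfl fun k _ => ?_
  push_cast
  ring

theorem exp_eq (z : ℂ) (k : ℤ) : Complex.exp (2 * π * Complex.I * k * z) =
    Complex.exp (2 * π * Complex.I * z) ^ k := by
  rw [← Complex.exp_int_mul]
  congr 1
  ring

theorem norm_exp' (z : ℂ) (k : ℤ) :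
    ‖Complex.exp (2 * π * Complex.I * k * z)‖ = Real.exp (-(2 * π * k * z.im)) := by
  rw [Complex.norm_exp]
  congr 1
  have h1 : (2 * π * Complex.I * k * z : ℂ) = ((2 * π * (k : ℝ) : ℝ) : ℂ) * (Complex.I * z) := by
    push_cast; ring
  rw [h1, Complex.re_ofReal_mul]
  simp

theorem norm_exp_le (z : ℂ) (k : ℤ) {M : ℕ} {κ : ℝ} (hk : |(k : ℝ)| ≤ M)
    (hM : M * |z.im| ≤ κ) : ‖Complex.exp (2 * π * Complex.I * k * z)‖ ≤ Real.exp (2 * π * κ) := by
  rw [norm_exp']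
  apply Real.exp_le_exp.2
  have h1 : -((k : ℝ) * z.im) ≤ |(k : ℝ)| * |z.im| := by
    rw [← abs_mul]; exact neg_le_abs _
  have h2 : |(k : ℝ)| * |z.im| ≤ M * |z.im| := mul_le_mul_of_nonneg_right hk (abs_nonneg _)
  have h3 : -((k : ℝ) * z.im) ≤ κ := by linarith
  nlinarith [Real.pi_pos]

theorem sg_le {M : ℕ} (hM : 1 ≤ M) {z : ℂ} {κ : ℝ} (hz : M * |z.im| ≤ κ) :
    ‖sg M z‖ ≤ Real.exp (2 * π * κ) := by
  have hM0 : (0 : ℝ) < M := by exact_mod_cast hM
  rw [sg_eq, norm_div, norm_pow, Complex.norm_natCast, div_le_iff₀ (by positivity),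
    mul_comm (Real.exp _)]
  exact T_bd _ M _ fun k hk => norm_exp_le z k hk hz

/-- the decay of the Fejér kernel -/
theorem sg_decay {M : ℕ} (hM : 1 ≤ M) {z : ℂ} {κ : ℝ} (hz : M * |z.im| ≤ κ) :
    ‖sg M z‖ * (1 + M * nd z.re) ^ 2 ≤ 4 * Real.exp (12 * π * κ) := by
  have hM0 : (0 : ℝ) < M := by exact_mod_cast hM
  have hM1 : (1 : ℝ) ≤ M := by exact_mod_cast hM
  have hnd : 0 ≤ nd z.re := abs_nonneg _
  have hv : |z.im| ≤ κ := by nlinarith [abs_nonneg z.im]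
  have hκ : 0 ≤ κ := le_trans (abs_nonneg _) hv
  have hsg := sg_le hM hz
  have hpi := Real.pi_pos
  by_cases h : M * nd z.re ≤ 1
  · have h1 : (1 + M * nd z.re) ^ 2 ≤ 4 := by nlinarith [mul_nonneg hM0.le hnd]
    have h2 : Real.exp (2 * π * κ) ≤ Real.exp (12 * π * κ) := by
      apply Real.exp_le_exp.2
      nlinarith [mul_nonneg hpi.le hκ]
    have h3 := Real.exp_pos (12 * π * κ)
    have h4 := norm_nonneg (sg M z)
    calc ‖sg M z‖ * (1 + M * nd z.re) ^ 2 ≤ Real.exp (12 * π * κ) * 4 :=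
          mul_le_mul (le_trans hsg h2) h1 (by positivity) h3.le
      _ = _ := by ring
  · have h' : 1 ≤ M * nd z.re := (not_le.1 h).le
    set q := Complex.exp (2 * π * Complex.I * z) with hq
    have hq0 : q ≠ 0 := Complex.exp_ne_zero _
    have h1 : T (fun k => Complex.exp (2 * π * Complex.I * k * z)) M = T (fun k => q ^ k) M := by
      congr 1
      funext k
      exact exp_eq z k
    have h2 := T_pow hq0 M
    have hqn : ‖q‖ = Real.exp (-(2 * π * z.im)) := by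
      have := norm_exp' z 1
      simpa using this
    have habs : -(z.im) ≤ |z.im| := neg_le_abs _
    have habs' : z.im ≤ |z.im| := le_abs_self _
    have hql : Real.exp (-(2 * π * κ)) ≤ ‖q‖ := by
      rw [hqn]
      apply Real.exp_le_exp.2
      nlinarith
    have hqu : ‖q‖ ≤ Real.exp (2 * π * κ) := by
      rw [hqn]
      apply Real.exp_le_exp.2
      nlinarith
    have hqM : ‖q ^ M‖ = Real.exp (-(2 * π * M * z.im)) := by
      have := norm_exp' z (M : ℤ)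
      rw [exp_eq, zpow_natCast] at this
      simpa using this
    have h5 : M * z.im ≤ κ := le_trans (mul_le_mul_of_nonneg_left habs' hM0.le) hz
    have h6 : -(M * z.im) ≤ κ := by
      rw [← mul_neg]; exact le_trans (mul_le_mul_of_nonneg_left habs hM0.le) hz
    have hqMl : Real.exp (-(2 * π * κ)) ≤ ‖q ^ M‖ := by
      rw [hqM]
      apply Real.exp_le_exp.2
      nlinarith
    have hqMu : ‖q ^ M‖ ≤ Real.exp (2 * π * κ) := by
      rw [hqM]
      apply Real.exp_le_exp.2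
      nlinarith
    -- lower bound of `q - 1`
    have hlow : Real.exp (-(2 * π * κ)) * (16 * nd z.re ^ 2) ≤ ‖q - 1‖ ^ 2 := by
      have e1 : q = ((Real.exp (-(2 * π * z.im)) : ℝ) : ℂ) * eu z.re := by
        rw [hq, eu, Complex.ofReal_exp, ← Complex.exp_add]
        congr 1
        apply Complex.ext
        · simp
        · simp
      set ρ := Real.exp (-(2 * π * z.im)) with hρ
      have hρ0 : 0 < ρ := Real.exp_pos _
      have e2 : ‖eu z.re‖ = 1 := GEO.norm_eu _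
      have e3 : 4 * nd z.re ≤ ‖1 - eu z.re‖ := GEO.lower _
      have e4 : ‖q - 1‖ ^ 2 = (ρ - 1) ^ 2 + ρ * ‖1 - eu z.re‖ ^ 2 := by
        have e5 : (eu z.re).re ^ 2 + (eu z.re).im ^ 2 = 1 := by
          have := Complex.sq_norm (eu z.re)
          rw [e2, Complex.normSq_apply] at this
          nlinarith
        rw [Complex.sq_norm, Complex.sq_norm, Complex.normSq_apply, Complex.normSq_apply, e1]
        simp only [Complex.sub_re, Complex.sub_im, Complex.re_ofReal_mul, Complex.im_ofReal_mul,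
          Complex.one_re, Complex.one_im]
        nlinarith
      have e6 : (4 * nd z.re) ^ 2 ≤ ‖1 - eu z.re‖ ^ 2 := pow_le_pow_left₀ (by positivity) e3 2
      have e7 : Real.exp (-(2 * π * κ)) ≤ ρ := by rw [← hqn]; exact hql
      rw [e4]
      have e8 : 0 ≤ ‖1 - eu z.re‖ ^ 2 := by positivity
      nlinarith [sq_nonneg (ρ - 1), mul_le_mul e7 e6 (by positivity) hρ0.le]
    -- upper bound of the product
    have h7 : ‖q - 1‖ ^ 2 * ‖T (fun k => q ^ k) M‖ * ‖q ^ M‖ = ‖q‖ * ‖q ^ M - 1‖ ^ 2 := by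
      have := congrArg norm h2
      simpa only [norm_mul, norm_pow] using this
    have hE1 : 1 ≤ Real.exp (2 * π * κ) := Real.one_le_exp (by positivity)
    have h8 : ‖q ^ M - 1‖ ≤ 2 * Real.exp (2 * π * κ) := by
      have := norm_sub_le (q ^ M) 1
      rw [norm_one] at this
      linarith
    set E := Real.exp (2 * π * κ) with hE
    have hE0 : 0 < E := Real.exp_pos _
    have hEi : Real.exp (-(2 * π * κ)) = E⁻¹ := by rw [Real.exp_neg]
    rw [hEi] at hlow hqMl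
    have h9 : (E⁻¹ * (16 * nd z.re ^ 2)) * ‖T (fun k => q ^ k) M‖ * E⁻¹ ≤ E * (2 * E) ^ 2 := by
      calc (E⁻¹ * (16 * nd z.re ^ 2)) * ‖T (fun k => q ^ k) M‖ * E⁻¹
          ≤ ‖q - 1‖ ^ 2 * ‖T (fun k => q ^ k) M‖ * ‖q ^ M‖ := by
            apply mul_le_mul _ hqMl (by positivity) (by positivity)
            exact mul_le_mul_of_nonneg_right hlow (norm_nonneg _)
        _ = ‖q‖ * ‖q ^ M - 1‖ ^ 2 := h7
        _ ≤ E * (2 * E) ^ 2 := by
            apply mul_le_mul hqu _ (by positivity) hE0.le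
            exact pow_le_pow_left₀ (norm_nonneg _) h8 2
    have h10 : nd z.re ^ 2 * ‖T (fun k => q ^ k) M‖ * 16 ≤ 4 * E ^ 5 := by
      have h11 : nd z.re ^ 2 * ‖T (fun k => q ^ k) M‖ * 16 =
          ((E⁻¹ * (16 * nd z.re ^ 2)) * ‖T (fun k => q ^ k) M‖ * E⁻¹) * E ^ 2 := by
        field_simp
      rw [h11]
      calc _ ≤ (E * (2 * E) ^ 2) * E ^ 2 := mul_le_mul_of_nonneg_right h9 (by positivity)
        _ = 4 * E ^ 5 := by ring
    have h12 : ‖sg M z‖ * (M : ℝ) ^ 2 = ‖T (fun k => q ^ k) M‖ := by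
      rw [sg_eq, h1, norm_div, norm_pow, Complex.norm_natCast, div_mul_cancel₀]
      positivity
    have h13 : (1 + M * nd z.re) ^ 2 ≤ 4 * (M ^ 2 * nd z.re ^ 2) := by nlinarith
    have h14 : E ^ 6 = Real.exp (12 * π * κ) := by
      rw [hE, ← Real.exp_nat_mul]
      congr 1
      push_cast
      ring
    rw [← h14]
    calc ‖sg M z‖ * (1 + M * nd z.re) ^ 2 ≤ ‖sg M z‖ * (4 * (M ^ 2 * nd z.re ^ 2)) :=
          mul_le_mul_of_nonneg_left h13 (norm_nonneg _)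
      _ = 4 * (nd z.re ^ 2 * ‖T (fun k => q ^ k) M‖) := by rw [← h12]; ring
      _ ≤ E ^ 5 := by linarith
      _ ≤ 4 * E ^ 6 := by
          have h15 : E ^ 5 ≤ E ^ 6 := pow_le_pow_right₀ hE1 (by norm_num)
          have h16 : 0 < E ^ 6 := by positivity
          linarith

theorem sg_shift (M : ℕ) (z : ℂ) (n : ℤ) : sg M (z - n) = sg M z := by
  rw [sg_eq, sg_eq]
  congr 2
  funext k
  have h1 : (2 * π * Complex.I * k * (z - n) : ℂ) =
      2 * π * Complex.I * k * z - ((k * n : ℤ) : ℂ) * (2 * π * Complex.I) := by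
    push_cast; ring
  rw [h1, Complex.exp_sub, Complex.exp_int_mul_two_pi_mul_I, div_one]

theorem quad (w : ℂ) : ‖Complex.exp w - 1 - w‖ ≤ ‖w‖ ^ 2 * Real.exp ‖w‖ := by
  have h := Complex.norm_exp_sub_sum_le_norm_mul_exp w 2
  have h2 : (∑ m ∈ Finset.range 2, w ^ m / (m.factorial : ℂ)) = 1 + w := by
    rw [Finset.sum_range_succ, Finset.sum_range_succ]
    simp
  rw [h2, ← sub_sub] at h
  exact h

/-- the distance of the Fejér kernel to `1`, near `0` -/
theorem one_sub_sg_aux {M : ℕ} (hM : 1 ≤ M) {z : ℂ} (hz : M * ‖z‖ ≤ 1) :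
    ‖1 - sg M z‖ ≤ (4 * π ^ 2 * Real.exp (2 * π)) * (M * ‖z‖) ^ 2 := by
  have hM0 : (0 : ℝ) < M := by exact_mod_cast hM
  have hMc : (M : ℂ) ^ 2 ≠ 0 := by
    have : (M : ℂ) ≠ 0 := by exact_mod_cast hM0.ne'
    exact pow_ne_zero 2 this
  have h1 : 1 - sg M z = -(T (fun k => Complex.exp (2 * π * Complex.I * k * z) - 1 -
      2 * π * Complex.I * k * z) M / (M : ℂ) ^ 2) := by
    have h2 : T (fun k => Complex.exp (2 * π * Complex.I * k * z) - 1 -
        2 * π * Complex.I * k * z) M = T (fun k => Complex.exp (2 * π * Complex.I * k * z)) M -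
        (M : ℂ) ^ 2 := by
      have h3 : (fun k : ℤ => Complex.exp (2 * π * Complex.I * k * z) - 1 -
          2 * π * Complex.I * k * z) = fun k : ℤ => Complex.exp (2 * π * Complex.I * k * z) +
          ((-1 : ℂ) * (1 : ℂ) + (-(2 * π * Complex.I * z)) * (k : ℂ)) := by
        funext k; ring
      rw [h3, T_add, T_add (fun _ => (-1 : ℂ) * (1 : ℂ)), T_smul (-1) (fun _ => 1), T_one,
        T_smul (-(2 * π * Complex.I * z)) (fun k => (k : ℂ)), T_id]
      ring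
    rw [h2, sg_eq]
    generalize T (fun k : ℤ => Complex.exp (2 * π * Complex.I * k * z)) M = t
    rw [sub_div, div_self hMc]
    ring
  rw [h1, norm_neg, norm_div, norm_pow, Complex.norm_natCast, div_le_iff₀ (by positivity),
    mul_comm _ ((M : ℝ) ^ 2)]
  refine T_bd _ M _ fun k hk => ?_
  refine le_trans (quad _) ?_
  have h3 : ‖(2 * π * Complex.I * k * z : ℂ)‖ = 2 * π * (|(k : ℝ)| * ‖z‖) := by
    rw [norm_mul, norm_mul, norm_mul, norm_mul, Complex.norm_I, Complex.norm_real,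
      Complex.norm_intCast, Real.norm_eq_abs, abs_of_pos Real.pi_pos]
    simp
    ring
  have h4 : |(k : ℝ)| * ‖z‖ ≤ M * ‖z‖ := mul_le_mul_of_nonneg_right hk (norm_nonneg _)
  have h5 : 0 ≤ |(k : ℝ)| * ‖z‖ := by positivity
  rw [h3]
  have hpi := Real.pi_pos
  have h6 : Real.exp (2 * π * (|(k : ℝ)| * ‖z‖)) ≤ Real.exp (2 * π) := by
    apply Real.exp_le_exp.2
    nlinarith
  have h7 : (2 * π * (|(k : ℝ)| * ‖z‖)) ^ 2 ≤ 4 * π ^ 2 * (M * ‖z‖) ^ 2 := by
    have h8 : (|(k : ℝ)| * ‖z‖) ^ 2 ≤ (M * ‖z‖) ^ 2 := pow_le_pow_left₀ h5 h4 2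
    have h9 : (2 * π * (|(k : ℝ)| * ‖z‖)) ^ 2 = 4 * π ^ 2 * (|(k : ℝ)| * ‖z‖) ^ 2 := by ring
    rw [h9]
    exact mul_le_mul_of_nonneg_left h8 (by positivity)
  calc _ ≤ (4 * π ^ 2 * (M * ‖z‖) ^ 2) * Real.exp (2 * π) :=
        mul_le_mul h7 h6 (Real.exp_pos _).le (by positivity)
    _ = _ := by ring

/-- the distance of the Fejér kernel to `1` -/
theorem one_sub_sg {M : ℕ} (hM : 1 ≤ M) {z : ℂ} {κ : ℝ} (hz : M * |z.im| ≤ κ) :
    ‖1 - sg M z‖ ≤ (4 * π ^ 2 * Real.exp (2 * π) + (1 + Real.exp (2 * π * κ))) *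
      (M * (nd z.re + |z.im|)) ^ 2 := by
  have hM0 : (0 : ℝ) < M := by exact_mod_cast hM
  have hnd : 0 ≤ nd z.re := abs_nonneg _
  have h0 : 0 ≤ M * (nd z.re + |z.im|) := by positivity
  by_cases h : M * (nd z.re + |z.im|) ≤ 1
  · have h1 : ‖z - (round z.re : ℤ)‖ ≤ nd z.re + |z.im| := by
      refine le_trans (Complex.norm_le_abs_re_add_abs_im _) ?_
      simp [nd]
    have h2 : M * ‖z - (round z.re : ℤ)‖ ≤ M * (nd z.re + |z.im|) :=
      mul_le_mul_of_nonneg_left h1 hM0.le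
    have h3 := one_sub_sg_aux hM (z := z - (round z.re : ℤ)) (le_trans h2 h)
    rw [sg_shift] at h3
    have h4 : (M * ‖z - (round z.re : ℤ)‖) ^ 2 ≤ (M * (nd z.re + |z.im|)) ^ 2 :=
      pow_le_pow_left₀ (by positivity) h2 2
    have h5 : 0 ≤ (1 + Real.exp (2 * π * κ)) * (M * (nd z.re + |z.im|)) ^ 2 := by positivity
    have h6 : (4 * π ^ 2 * Real.exp (2 * π)) * (M * ‖z - (round z.re : ℤ)‖) ^ 2 ≤
        (4 * π ^ 2 * Real.exp (2 * π)) * (M * (nd z.re + |z.im|)) ^ 2 :=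
      mul_le_mul_of_nonneg_left h4 (by positivity)
    linarith
  · have h' : 1 ≤ (M * (nd z.re + |z.im|)) ^ 2 := one_le_pow₀ (not_le.1 h).le
    have h1 := norm_sub_le (1 : ℂ) (sg M z)
    rw [norm_one] at h1
    have h2 := sg_le hM hz
    have h3 : 0 ≤ 4 * π ^ 2 * Real.exp (2 * π) := by positivity
    have h4 : 0 ≤ 1 + Real.exp (2 * π * κ) := by positivity
    nlinarith [mul_le_mul_of_nonneg_left h' h4, mul_le_mul_of_nonneg_left h' h3]

/-- `1 - a ^ m` -/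
theorem one_sub_pow (a : ℂ) (m : ℕ) {K : ℝ} (hK : 1 ≤ K) (ha : ‖a‖ ≤ K) :
    ‖1 - a ^ m‖ ≤ ‖1 - a‖ * (m * K ^ m) := by
  have h1 : 1 - a ^ m = (1 - a) * ∑ i ∈ Finset.range m, a ^ i := by
    have := geom_sum_mul a m
    linear_combination this
  rw [h1, norm_mul]
  refine mul_le_mul_of_nonneg_left ?_ (norm_nonneg _)
  refine le_trans (norm_sum_le _ _) ?_
  calc ∑ i ∈ Finset.range m, ‖a ^ i‖ ≤ ∑ _i ∈ Finset.range m, K ^ m := by
        refine Finset.sum_le_sum fun i hi => ?_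
        rw [norm_pow]
        calc ‖a‖ ^ i ≤ K ^ i := pow_le_pow_left₀ (norm_nonneg _) ha i
          _ ≤ K ^ m := pow_le_pow_right₀ hK (Finset.mem_range.1 hi).le
    _ = m * K ^ m := by simp

/-- bounds of `sM` -/
theorem sM_bds (m : ℕ) (κ : ℝ) : ∃ C₁ C₂ : ℝ, 0 ≤ C₁ ∧ 0 ≤ C₂ ∧
    ∀ (M : ℕ) (z : ℂ), 1 ≤ M → M * |z.im| ≤ κ →
      ‖sM m M z‖ * (1 + M * nd z.re) ^ (2 * m) ≤ C₁ ∧
      ‖1 - sM m M z‖ ≤ C₂ * (M * (nd z.re + |z.im|)) ^ (2 * m) := by
  set E := Real.exp (2 * π * max κ 0) with hE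
  have hE1 : 1 ≤ E := by
    apply Real.one_le_exp
    have := le_max_right κ 0
    have := Real.pi_pos
    positivity
  set A := 4 * Real.exp (12 * π * κ) with hA
  set B := 4 * π ^ 2 * Real.exp (2 * π) + (1 + Real.exp (2 * π * κ)) with hB
  have hA0 : 0 ≤ A := by positivity
  have hB0 : 0 ≤ B := by positivity
  refine ⟨A ^ m * (m * (1 + E ^ m) ^ m), (B * (m * E ^ m)) ^ m, by positivity, by positivity,
    fun M z hM hz => ?_⟩
  have hsgE : ‖sg M z‖ ≤ E := by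
    refine le_trans (sg_le hM hz) (Real.exp_le_exp.2 ?_)
    have := le_max_left κ 0
    have := Real.pi_pos
    nlinarith
  have hM0 : (0 : ℝ) < M := by exact_mod_cast hM
  have hnd : 0 ≤ nd z.re := abs_nonneg _
  constructor
  · have h1 : sM m M z = 1 - (1 - sg M z ^ m) ^ m := rfl
    have h2 : ‖1 - sg M z ^ m‖ ≤ 1 + E ^ m := by
      have h3 := norm_sub_le (1 : ℂ) (sg M z ^ m)
      rw [norm_one, norm_pow] at h3
      have h4 : ‖sg M z‖ ^ m ≤ E ^ m := pow_le_pow_left₀ (norm_nonneg _) hsgE m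
      linarith
    have hEm : 0 ≤ E ^ m := by positivity
    have h3 := one_sub_pow (1 - sg M z ^ m) m (K := 1 + E ^ m) (by linarith) h2
    rw [sub_sub_cancel, norm_pow] at h3
    have h4 := sg_decay hM hz
    rw [← hA] at h4
    have h5 : ‖sg M z‖ ^ m * (1 + M * nd z.re) ^ (2 * m) ≤ A ^ m := by
      rw [pow_mul, ← mul_pow]
      exact pow_le_pow_left₀ (by positivity) h4 m
    rw [h1]
    calc ‖1 - (1 - sg M z ^ m) ^ m‖ * (1 + M * nd z.re) ^ (2 * m)
        ≤ (‖sg M z‖ ^ m * (m * (1 + E ^ m) ^ m)) * (1 + M * nd z.re) ^ (2 * m) :=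
          mul_le_mul_of_nonneg_right h3 (by positivity)
      _ = (‖sg M z‖ ^ m * (1 + M * nd z.re) ^ (2 * m)) * (m * (1 + E ^ m) ^ m) := by ring
      _ ≤ A ^ m * (m * (1 + E ^ m) ^ m) := mul_le_mul_of_nonneg_right h5 (by positivity)
  · have h1 : 1 - sM m M z = (1 - sg M z ^ m) ^ m := by
      unfold sM; ring
    rw [h1, norm_pow, pow_mul, ← mul_pow]
    refine pow_le_pow_left₀ (norm_nonneg _) ?_ m
    have h2 := one_sub_pow (sg M z) m hE1 hsgE
    have h3 := one_sub_sg hM hz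
    rw [← hB] at h3
    calc ‖1 - sg M z ^ m‖ ≤ ‖1 - sg M z‖ * (m * E ^ m) := h2
      _ ≤ (B * (M * (nd z.re + |z.im|)) ^ 2) * (m * E ^ m) :=
          mul_le_mul_of_nonneg_right h3 (by positivity)
      _ = B * (m * E ^ m) * (M * (nd z.re + |z.im|)) ^ 2 := by ring

end CFB

open CFB in
/-- Bounds of the spatial cutoffs (F3). -/
theorem t_CFB : S_CFB := by
  intro m κ _ hκ
  obtain ⟨C₁, C₂, hC₁, hC₂, hb⟩ := sM_bds m κ
  refine ⟨2 * C₁ + C₂ * (1 + 2 ^ (2 * m)) * (1 + κ) ^ (2 * m), by positivity, ?_⟩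
  intro J x z hx hz
  have hnd : 0 ≤ nd z.re := abs_nonneg _
  have hJ : (0 : ℝ) < 2 ^ J := by positivity
  have hv : ∀ i : ℕ, i ≤ J → ((2 ^ i : ℕ) : ℝ) * |z.im| ≤ κ := by
    intro i hi
    have h1 : (2 : ℝ) ^ i ≤ 2 ^ J := pow_le_pow_right₀ (by norm_num) hi
    have h2 : (2 : ℝ) ^ J * |z.im| ≤ κ := by
      rw [le_div_iff₀ hJ] at hz
      linarith
    push_cast
    exact le_trans (mul_le_mul_of_nonneg_right h1 (abs_nonneg _)) h2
  have hrest : 0 ≤ C₂ * (1 + 2 ^ (2 * m)) * (1 + κ) ^ (2 * m) := by positivity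
  constructor
  · by_cases hxJ : x < J
    · have h1 := (hb (2 ^ x) z Nat.one_le_two_pow (hv x hx)).1
      have h2 := (hb (2 ^ (x + 1)) z Nat.one_le_two_pow (hv (x + 1) hxJ)).1
      push_cast at h1 h2
      have h3 : fx m J x z = sM m (2 ^ x) z - sM m (2 ^ (x + 1)) z := by
        unfold fx; rw [if_pos hxJ]
      have h4 : ‖fx m J x z‖ ≤ ‖sM m (2 ^ x) z‖ + ‖sM m (2 ^ (x + 1)) z‖ := by
        rw [h3]; exact norm_sub_le _ _
      have h5 : (1 + (2 : ℝ) ^ x * nd z.re) ^ (2 * m) ≤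
          (1 + (2 : ℝ) ^ (x + 1) * nd z.re) ^ (2 * m) := by
        apply pow_le_pow_left₀ (by positivity)
        have h6 : (2 : ℝ) ^ x ≤ 2 ^ (x + 1) := pow_le_pow_right₀ (by norm_num) (Nat.le_succ x)
        nlinarith
      have h6 : ‖sM m (2 ^ (x + 1)) z‖ * (1 + (2 : ℝ) ^ x * nd z.re) ^ (2 * m) ≤ C₁ :=
        le_trans (mul_le_mul_of_nonneg_left h5 (norm_nonneg _)) h2
      have h7 : ‖fx m J x z‖ * (1 + (2 : ℝ) ^ x * nd z.re) ^ (2 * m) ≤
          (‖sM m (2 ^ x) z‖ + ‖sM m (2 ^ (x + 1)) z‖) * (1 + (2 : ℝ) ^ x * nd z.re) ^ (2 * m) :=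
        mul_le_mul_of_nonneg_right h4 (by positivity)
      rw [add_mul] at h7
      linarith
    · have hxe : x = J := le_antisymm hx (not_lt.1 hxJ)
      have h1 := (hb (2 ^ J) z Nat.one_le_two_pow (hv J le_rfl)).1
      push_cast at h1
      have h3 : fx m J x z = sM m (2 ^ J) z := by
        unfold fx; rw [if_neg hxJ]
      rw [h3, hxe]
      linarith
  · intro hxJ
    have h1 := (hb (2 ^ x) z Nat.one_le_two_pow (hv x hx)).2
    have h2 := (hb (2 ^ (x + 1)) z Nat.one_le_two_pow (hv (x + 1) hxJ)).2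
    push_cast at h1 h2
    have h3 : fx m J x z = (1 - sM m (2 ^ (x + 1)) z) - (1 - sM m (2 ^ x) z) := by
      unfold fx; rw [if_pos hxJ]; ring
    have h4 : ‖fx m J x z‖ ≤ ‖1 - sM m (2 ^ (x + 1)) z‖ + ‖1 - sM m (2 ^ x) z‖ := by
      rw [h3]; exact norm_sub_le _ _
    have h5 : (2 : ℝ) ^ x * (nd z.re + |z.im|) ≤ (1 + κ) * (2 ^ x * (nd z.re + 1 / 2 ^ J)) := by
      have h6 : nd z.re + |z.im| ≤ (1 + κ) * (nd z.re + 1 / 2 ^ J) := by
        have h7 : κ / 2 ^ J = κ * (1 / 2 ^ J) := by ring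
        rw [h7] at hz
        have h8 : (0 : ℝ) < 1 / 2 ^ J := by positivity
        nlinarith [mul_nonneg hκ hnd]
      have h7 : (0 : ℝ) < 2 ^ x := by positivity
      nlinarith [mul_le_mul_of_nonneg_left h6 h7.le]
    have h6 : ((2 : ℝ) ^ x * (nd z.re + |z.im|)) ^ (2 * m) ≤
        (1 + κ) ^ (2 * m) * (2 ^ x * (nd z.re + 1 / 2 ^ J)) ^ (2 * m) := by
      rw [← mul_pow]
      exact pow_le_pow_left₀ (by positivity) h5 _
    have h7 : ((2 : ℝ) ^ (x + 1) * (nd z.re + |z.im|)) ^ (2 * m) =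
        2 ^ (2 * m) * ((2 : ℝ) ^ x * (nd z.re + |z.im|)) ^ (2 * m) := by
      rw [← mul_pow]; congr 1; ring
    rw [h7] at h2
    have h8 : 0 ≤ 2 * C₁ * (2 ^ x * (nd z.re + 1 / 2 ^ J)) ^ (2 * m) := by positivity
    have h9 : C₂ * (1 + 2 ^ (2 * m)) * ((2 : ℝ) ^ x * (nd z.re + |z.im|)) ^ (2 * m) ≤
        C₂ * (1 + 2 ^ (2 * m)) * ((1 + κ) ^ (2 * m) * (2 ^ x * (nd z.re + 1 / 2 ^ J)) ^ (2 * m)) :=
      mul_le_mul_of_nonneg_left h6 (by positivity)
    linarith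

end

end STZ3
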