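import Pool.Agent.STZ3.StD3

/-!
# An irreducible root system of rank two has at least three positive roots (module CR3)
-/

namespace STZ3

open STZ LGR MeasureTheory Matrix Filter

open scoped ComplexConjugate Matrix Real Topology

noncomputable section

namespace CR3

theorem main (Φ : RT 2) (B : Matrix (Fin 2) (Fin 2) ℤ) (hI : IRD Φ B) (hW : WFF Φ B) : 3 ≤ (pos Φ).card := by
  by_contra hlt
  have hlt' : (pos Φ).card ≤ 2 := by omega
  set p0 : (Fin 2 → ℤ) × (Fin 2 → ℤ) := (B 0, Pi.single 0 1) with hp0
  set p1 : (Fin 2 → ℤ) × (Fin 2 → ℤ) := (B 1, Pi.single 1 1) with hp1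
  have hm : ∀ i : Fin 2, (B i, (Pi.single i 1 : Fin 2 → ℤ)) ∈ pos Φ := by
    intro i
    refine Finset.mem_filter.2 ⟨hI.base i, fun j => ?_⟩
    show (0 : ℤ) ≤ (Pi.single i 1 : Fin 2 → ℤ) j
    by_cases h : j = i
    · subst h; simp
    · simp [Pi.single_eq_of_ne h]
  have h0 : p0 ∈ pos Φ := hm 0
  have h1 : p1 ∈ pos Φ := hm 1
  have hne : p0 ≠ p1 := by
    intro h
    have := congrFun (congrArg Prod.snd h) 0
    simp [hp0, hp1] at this
  have hsub : ({p0, p1} : Finset _) ⊆ pos Φ := by
    intro q hq
    rcases Finset.mem_insert.1 hq with h | h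
    · exact h ▸ h0
    · exact (Finset.mem_singleton.1 h) ▸ h1
  have hcard : ({p0, p1} : Finset ((Fin 2 → ℤ) × (Fin 2 → ℤ))).card = 2 := Finset.card_pair hne
  have heq : ({p0, p1} : Finset _) = pos Φ := Finset.eq_of_subset_of_card_le hsub (by rw [hcard]; exact hlt')
  have hor : ∀ q ∈ pos Φ, q = p0 ∨ q = p1 := by
    intro q hq
    rw [← heq] at hq
    rcases Finset.mem_insert.1 hq with h | h
    · exact Or.inl h
    · exact Or.inr (Finset.mem_singleton.1 h)
  -- the reflected pairs
  have e01 : B 0 1 = 0 := by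
    have h := hor _ (hW.simp 0 p1 h1 hne.symm)
    rcases h with h | h
    · have := congrFun (congrArg Prod.snd h) 1
      simp [hp0, hp1] at this
    · have := congrFun (congrArg Prod.snd h) 0
      simpa [hp0, hp1, Fin.sum_univ_two, dotProduct] using this
  have e10 : B 1 0 = 0 := by
    have h := hor _ (hW.simp 1 p0 h0 hne)
    rcases h with h | h
    · have := congrFun (congrArg Prod.snd h) 1
      simpa [hp0, hp1, Fin.sum_univ_two, dotProduct] using this
    · have := congrFun (congrArg Prod.snd h) 0
      simp [hp0, hp1] at this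
  -- the invariant line
  let V : Submodule ℂ (Fin 2 → ℂ) :=
    { carrier := {v | v 1 = 0}
      add_mem' := by
        intro a b ha hb
        show a 1 + b 1 = 0
        rw [show a 1 = 0 from ha, show b 1 = 0 from hb, add_zero]
      zero_mem' := rfl
      smul_mem' := by
        intro c a ha
        show c * a 1 = 0
        rw [show a 1 = 0 from ha, mul_zero] }
  have hV : ∀ v : Fin 2 → ℂ, v ∈ V ↔ v 1 = 0 := fun v => Iff.rfl
  have hinv : ∀ p ∈ Φ, ∀ v ∈ V, (fun i => v i - (∑ j, (p.2 j : ℂ) * v j) * (p.1 i : ℂ)) ∈ V := by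
    intro p hp v hv
    rw [hV] at hv ⊢
    show v 1 - (∑ j, (p.2 j : ℂ) * v j) * (p.1 1 : ℂ) = 0
    have hz : (∑ j, (p.2 j : ℂ) * v j) * (p.1 1 : ℂ) = 0 := by
      by_cases hpp : p ∈ pos Φ
      · rcases hor p hpp with h | h
        · have : p.1 1 = 0 := by rw [h]; exact e01
          rw [this]; simp
        · have h2 : p.2 0 = 0 := by rw [h]; simp [hp1]
          rw [Fin.sum_univ_two, h2, hv]; simp
      · have hnp : (-p.1, -p.2) ∈ pos Φ := by
          by_contra hcon
          exact hpp ((hW.dich p hp).2 hcon)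
        rcases hor _ hnp with h | h
        · have h3 : -p.1 = B 0 := congrArg Prod.fst h
          have h4 : -(p.1 1) = 0 := by
            have := congrFun h3 1
            rw [← e01, ← this]; rfl
          have : p.1 1 = 0 := by omega
          rw [this]; simp
        · have h3 : -p.2 = (Pi.single 1 1 : Fin 2 → ℤ) := congrArg Prod.snd h
          have h4 : -(p.2 0) = 0 := by
            have := congrFun h3 0
            simpa using this
          have h2 : p.2 0 = 0 := by omega
          rw [Fin.sum_univ_two, h2, hv]; simp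
    rw [hz, hv, sub_zero]
  rcases hI.irr V hinv with h | h
  · have hmem : (Pi.single 0 1 : Fin 2 → ℂ) ∈ V := by
      rw [hV]; simp
    rw [h, Submodule.mem_bot] at hmem
    have := congrFun hmem 0
    simp at this
  · have hmem : (Pi.single 1 1 : Fin 2 → ℂ) ∈ V := by
      rw [h]; exact Submodule.mem_top
    rw [hV] at hmem
    simp at hmem

end CR3

theorem t_CR3 : S_CR3 := CR3.main

end

end STZ3
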