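import Pool.Agent.STZ3.StS

/-!
# Covering (module CVR)
-/

namespace STZ3

open STZ LGR MeasureTheory Matrix Filter

open scoped ComplexConjugate Matrix Real Topology Pointwise

noncomputable section

namespace CVR

theorem span_int {r : ℕ} {x : Fin r → ℝ}
    (hx : x ∈ Submodule.span ℤ (Set.range (Pi.basisFun ℝ (Fin r)))) :
    ∃ n : Fin r → ℤ, x = fun j => (n j : ℝ) := by
  rw [Module.Basis.mem_span_iff_repr_mem] at hx
  choose n hn using hx
  refine ⟨n, ?_⟩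
  funext j
  simpa using (hn j).symm

theorem per_lint {r : ℕ} (g : (Fin r → ℝ) → ENNReal)
    (hg : ∀ (θ : Fin r → ℝ) (n : Fin r → ℤ), g (θ + fun j => (n j : ℝ)) = g θ) (ζ : Fin r → ℝ) :
    ∫⁻ θ in Set.Icc (0 : Fin r → ℝ) 1, g (θ + ζ) = ∫⁻ θ in Set.Icc (0 : Fin r → ℝ) 1, g θ := by
  set b := Pi.basisFun ℝ (Fin r) with hb
  have hF := ZSpan.isAddFundamentalDomain' b (volume : Measure (Fin r → ℝ))
  have hs : ZSpan.fundamentalDomain b = Set.pi Set.univ fun _ => Set.Ico (0 : ℝ) 1 :=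
    ZSpan.fundamentalDomain_pi_basisFun
  have hae : ZSpan.fundamentalDomain b =ᵐ[volume] Set.Icc (0 : Fin r → ℝ) 1 := by
    rw [hs]
    exact Measure.univ_pi_Ico_ae_eq_Icc
  rw [← setLIntegral_congr hae, ← setLIntegral_congr hae]
  have hT := hF.vadd_of_comm (G' := Fin r → ℝ) ζ
  have hcn : Countable (Submodule.span ℤ (Set.range b)).toAddSubgroup :=
    inferInstanceAs (Countable (Submodule.span ℤ (Set.range b)))
  have h1 : ∫⁻ θ in ζ +ᵥ ZSpan.fundamentalDomain b, g θ =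
      ∫⁻ θ in ZSpan.fundamentalDomain b, g θ := by
    refine hT.setLIntegral_eq hF g ?_
    rintro ⟨x, hx⟩ θ
    obtain ⟨n, hn⟩ := span_int (r := r) hx
    show g (x + θ) = g θ
    rw [hn, add_comm]
    exact hg θ n
  rw [← h1]
  have h2 := (measurePreserving_vadd ζ (volume : Measure (Fin r → ℝ))).setLIntegral_comp_emb
    (measurableEmbedding_const_vadd ζ) g (ZSpan.fundamentalDomain b)
  rw [Set.image_vadd] at h2
  rw [← h2]
  refine lintegral_congr fun θ => ?_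
  rw [vadd_eq_add, add_comm]

theorem nd_le_int (x : ℝ) (n : ℤ) : nd x ≤ |x - n| := round_le x n

theorem nd_add_int (θ : ℝ) (n : ℤ) : nd (θ + n) = nd θ := by
  unfold nd
  rw [round_add_intCast]
  push_cast
  congr 1
  ring

theorem nd_cont : Continuous nd := by
  have h : nd = fun θ : ℝ => ‖(θ : UnitAddCircle)‖ := by
    funext θ
    rw [UnitAddCircle.norm_eq]
    rfl
  rw [h]
  exact continuous_norm.comp (AddCircle.continuous_mk' 1)

theorem dz_add {r : ℕ} (l : Fin r → ℤ) (θ ζ : Fin r → ℝ) : dz l (θ + ζ) = dz l θ + dz l ζ := by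
  unfold dz
  rw [← Finset.sum_add_distrib]
  exact Finset.sum_congr rfl fun i _ => by rw [Pi.add_apply, mul_add]

theorem dz_neg {r : ℕ} (l : Fin r → ℤ) (θ : Fin r → ℝ) : dz l (-θ) = -dz l θ := by
  unfold dz
  rw [← Finset.sum_neg_distrib]
  exact Finset.sum_congr rfl fun i _ => by rw [Pi.neg_apply, mul_neg]

theorem dz_int {r : ℕ} (l : Fin r → ℤ) (n : Fin r → ℤ) :
    dz l (fun j => (n j : ℝ)) = ((∑ i, l i * n i : ℤ) : ℝ) := by
  unfold dz
  push_cast
  rfl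

theorem dz_cont {r : ℕ} (l : Fin r → ℤ) : Continuous (dz l) := by
  unfold dz
  fun_prop

/-- the periodic set -/
def Bt {r : ℕ} (Φ : RT r) (δ : {p // p ∈ pos Φ} → ℝ) : Set (Fin r → ℝ) :=
  {θ | ∀ p : {p // p ∈ pos Φ}, nd (dz p.1.1 θ) ≤ δ p}

theorem meas_Bt {r : ℕ} (Φ : RT r) (δ : {p // p ∈ pos Φ} → ℝ) : MeasurableSet (Bt Φ δ) := by
  have h : Bt Φ δ = ⋂ p : {p // p ∈ pos Φ}, {θ : Fin r → ℝ | nd (dz p.1.1 θ) ≤ δ p} := by
    ext θ
    rw [Set.mem_iInter]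
    rfl
  rw [h]
  refine IsClosed.measurableSet (isClosed_iInter fun p => ?_)
  have h1 : Continuous fun θ : Fin r → ℝ => nd (dz p.1.1 θ) := nd_cont.comp (dz_cont p.1.1)
  exact isClosed_le h1 continuous_const

theorem vol_shift {r : ℕ} (Φ : RT r) (δ : {p // p ∈ pos Φ} → ℝ) (ζ : Fin r → ℝ) :
    volume (Set.Icc (0 : Fin r → ℝ) 1 ∩ {θ | θ + ζ ∈ Bt Φ δ}) =
      volume (Set.Icc (0 : Fin r → ℝ) 1 ∩ Bt Φ δ) := by
  have hm := meas_Bt Φ δ
  have h := per_lint (r := r) (Set.indicator (Bt Φ δ) 1) (by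
    intro θ n
    have h1 : θ + (fun j => (n j : ℝ)) ∈ Bt Φ δ ↔ θ ∈ Bt Φ δ := by
      refine forall_congr' fun p => ?_
      rw [dz_add, dz_int, nd_add_int]
    by_cases h2 : θ ∈ Bt Φ δ
    · rw [Set.indicator_of_mem h2, Set.indicator_of_mem (h1.2 h2)]
      rfl
    · rw [Set.indicator_of_notMem h2, Set.indicator_of_notMem fun h3 => h2 (h1.1 h3)]) ζ
  have e1 : ∀ θ : Fin r → ℝ, Set.indicator (Bt Φ δ) (1 : (Fin r → ℝ) → ENNReal) (θ + ζ) =
      Set.indicator {θ | θ + ζ ∈ Bt Φ δ} 1 θ := by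
    intro θ
    by_cases h2 : θ + ζ ∈ Bt Φ δ
    · rw [Set.indicator_of_mem h2, Set.indicator_of_mem (show θ ∈ {θ | θ + ζ ∈ Bt Φ δ} from h2)]
      rfl
    · rw [Set.indicator_of_notMem h2,
        Set.indicator_of_notMem (show θ ∉ {θ | θ + ζ ∈ Bt Φ δ} from h2)]
  simp_rw [e1] at h
  have hm2 : MeasurableSet {θ : Fin r → ℝ | θ + ζ ∈ Bt Φ δ} :=
    hm.preimage (measurable_id.add_const ζ)
  rw [lintegral_indicator_one hm2, lintegral_indicator_one hm,
    Measure.restrict_apply hm2, Measure.restrict_apply hm] at h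
  rw [Set.inter_comm, h, Set.inter_comm]

end CVR

open CVR in
theorem t_CVR : S_CVR := by
  classical
  intro r Φ δ K hδ hK
  set A : Set (Fin r → ℝ) :=
    {θ : Fin r → ℝ | θ ∈ Set.Icc 0 1 ∧ ∀ p : {p // p ∈ pos Φ}, nd (dz p.1.1 θ) ≤ K * δ p} with hA
  set B : Set (Fin r → ℝ) :=
    {θ : Fin r → ℝ | θ ∈ Set.Icc 0 1 ∧ ∀ p : {p // p ∈ pos Φ}, nd (dz p.1.1 θ) ≤ δ p} with hB
  have hBe : B = Set.Icc (0 : Fin r → ℝ) 1 ∩ Bt Φ δ := rfl
  set M : ℕ := ⌊2 * K⌋₊ + 1 with hM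
  set v : {p // p ∈ pos Φ} → (Fin r → ℝ) → ℝ := fun p θ => dz p.1.1 θ - round (dz p.1.1 θ) with hv
  have hvn : ∀ p θ, |v p θ| = nd (dz p.1.1 θ) := fun p θ => rfl
  set fl : {p // p ∈ pos Φ} → (Fin r → ℝ) → ℕ := fun p θ => ⌊(v p θ + K * δ p) / δ p⌋₊ with hfl
  have hnn : ∀ θ ∈ A, ∀ p, 0 ≤ (v p θ + K * δ p) / δ p := by
    intro θ hθ p
    have h1 := hθ.2 p
    rw [← hvn] at h1
    exact div_nonneg (by linarith [(abs_le.1 h1).1]) (hδ p).le
  have hlt : ∀ θ ∈ A, ∀ p, fl p θ < M := by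
    intro θ hθ p
    have h1 := hθ.2 p
    rw [← hvn] at h1
    have h2 : (v p θ + K * δ p) / δ p ≤ 2 * K := by
      rw [div_le_iff₀ (hδ p)]
      linarith [(abs_le.1 h1).2]
    have h3 : fl p θ ≤ ⌊2 * K⌋₊ := Nat.floor_le_floor h2
    omega
  have hsub : A ⊆ ⋃ c : {p // p ∈ pos Φ} → Fin M, {θ | θ ∈ A ∧ ∀ p, fl p θ = c p} := by
    intro θ hθ
    rw [Set.mem_iUnion]
    exact ⟨fun p => ⟨fl p θ, hlt θ hθ p⟩, hθ, fun p => rfl⟩
  have hcell : ∀ c : {p // p ∈ pos Φ} → Fin M,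
      volume {θ | θ ∈ A ∧ ∀ p, fl p θ = c p} ≤ volume B := by
    intro c
    by_cases he : ∃ θ₀, θ₀ ∈ A ∧ ∀ p, fl p θ₀ = c p
    · obtain ⟨θ₀, h0, hc0⟩ := he
      rw [hBe, ← vol_shift Φ δ (-θ₀)]
      refine measure_mono ?_
      rintro θ ⟨hθ, hcθ⟩
      refine ⟨hθ.1, fun p => ?_⟩
      rw [dz_add, dz_neg]
      have h1 := hnn θ hθ p
      have h2 := hnn θ₀ h0 p
      have h3 : fl p θ = fl p θ₀ := by rw [hcθ p, hc0 p]
      have h4 := Nat.floor_le h1
      have h5 := Nat.lt_floor_add_one ((v p θ + K * δ p) / δ p)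
      have h6 := Nat.floor_le h2
      have h7 := Nat.lt_floor_add_one ((v p θ₀ + K * δ p) / δ p)
      have h8 : (⌊(v p θ + K * δ p) / δ p⌋₊ : ℝ) = (⌊(v p θ₀ + K * δ p) / δ p⌋₊ : ℝ) := by
        exact_mod_cast h3
      have h9 : |v p θ - v p θ₀| ≤ δ p := by
        have h10 : (v p θ + K * δ p) / δ p - (v p θ₀ + K * δ p) / δ p = (v p θ - v p θ₀) / δ p := by
          rw [← sub_div]
          congr 1
          ring
        have h11 : |(v p θ - v p θ₀) / δ p| ≤ 1 := by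
          rw [← h10, abs_le]
          constructor <;> linarith
        rw [abs_div, abs_of_pos (hδ p), div_le_one (hδ p)] at h11
        exact h11
      refine (nd_le_int _ (round (dz p.1.1 θ) - round (dz p.1.1 θ₀))).trans ?_
      have h12 : dz p.1.1 θ + -dz p.1.1 θ₀ - ((round (dz p.1.1 θ) - round (dz p.1.1 θ₀) : ℤ) : ℝ) =
          v p θ - v p θ₀ := by
        rw [hv]
        push_cast
        ring
      rw [h12]
      exact h9
    · have h1 : {θ | θ ∈ A ∧ ∀ p, fl p θ = c p} = ∅ := by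
        ext θ
        constructor
        · intro h
          exact (he ⟨θ, h⟩).elim
        · intro h
          exact h.elim
      rw [h1, measure_empty]
      exact bot_le
  have hle : volume A ≤ (Fintype.card ({p // p ∈ pos Φ} → Fin M) : ENNReal) * volume B := by
    refine (measure_mono hsub).trans ((measure_iUnion_fintype_le _ _).trans ?_)
    refine (Finset.sum_le_sum fun c _ => hcell c).trans ?_
    rw [Finset.sum_const, Finset.card_univ, nsmul_eq_mul]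
  have hfin : ∀ S : Set (Fin r → ℝ), S ⊆ Set.Icc 0 1 → volume S ≠ ⊤ := fun S hS =>
    ne_top_of_le_ne_top (isCompact_Icc.measure_lt_top (μ := volume)).ne (measure_mono hS)
  have hBf : volume B ≠ ⊤ := hfin B fun θ hθ => hθ.1
  have hreal : volume.real A ≤ (Fintype.card ({p // p ∈ pos Φ} → Fin M) : ℝ) * volume.real B := by
    have h1 := ENNReal.toReal_mono (ENNReal.mul_ne_top (ENNReal.natCast_ne_top _) hBf) hle
    rw [ENNReal.toReal_mul, ENNReal.toReal_natCast] at h1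
    exact h1
  refine hreal.trans ?_
  refine mul_le_mul_of_nonneg_right ?_ measureReal_nonneg
  rw [Fintype.card_fun, Fintype.card_fin, Fintype.card_coe]
  push_cast
  refine pow_le_pow_left₀ (by positivity) ?_ _
  rw [hM]
  push_cast
  have h1 := Nat.floor_le (show 0 ≤ 2 * K by linarith)
  linarith

end

end STZ3
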