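import Pool.Agent.STZ3.StM
import Pool.Agent.STZ.CDIF

/-!
# Compact simple groups of rank two: module DCP, the decomposition (7.4)
-/

namespace STZ3

open STZ LGR MeasureTheory Matrix Filter

open scoped ComplexConjugate Matrix Real Topology

noncomputable section

namespace DCP

section level

variable {X Y ι : Type} [TopologicalSpace X] [FirstCountableTopology X] [LocallyCompactSpace X]
  [TopologicalSpace Y] [MeasurableSpace Y] [OpensMeasurableSpace Y] [T2Space Y]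

omit [T2Space Y] in
/-- an integral over a compact set, depending continuously on parameters -/
theorem lvl_cont (ν : Measure Y) [IsLocallyFiniteMeasure ν] {K : Set Y} (hK : IsCompact K)
    (f : X → Y → ℂ) (hf : Continuous fun z : X × Y => f z.1 z.2) :
    Continuous fun x => ∫ y in K, f x y ∂ν :=
  continuous_parametric_integral_of_continuous (f := f) hf hK

omit [FirstCountableTopology X] [LocallyCompactSpace X] in
/-- an integral over a compact set of a linear combination -/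
theorem lvl_sum (ν : Measure Y) [IsLocallyFiniteMeasure ν] {K : Set Y} (hK : IsCompact K)
    (T : Finset ι) (c : ι → ℂ) (f : ι → X → Y → ℂ)
    (hf : ∀ l, Continuous fun z : X × Y => f l z.1 z.2) (x : X) :
    ∫ y in K, ∑ l ∈ T, c l * f l x y ∂ν = ∑ l ∈ T, c l * ∫ y in K, f l x y ∂ν := by
  have h1 : ∀ l, Continuous fun y => f l x y := fun l =>
    (hf l).comp (continuous_const.prodMk continuous_id)
  rw [integral_finsetSum]
  · simp_rw [integral_const_mul]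
  · intro l _
    exact (ContinuousOn.integrableOn_compact hK
      (continuous_const.mul (h1 l)).continuousOn)

end level

/-- the five integrals -/
def I5 {M : Type} [MeasurableSpace M] {r : ℕ} (μ : Measure M)
    (F : ℝ → ℝ → M → M → (Fin r → ℝ) → ℂ) : ℂ :=
  ∫ t in Set.Icc (0 : ℝ) 1, ∫ s in Set.Icc (0 : ℝ) 1, ∫ h in Set.univ, ∫ g in Set.univ,
    (∫ θ in Set.Icc (0 : Fin r → ℝ) 1, F t s h g θ) ∂μ ∂μ

theorem I5_sum {M ι : Type} [TopologicalSpace M] [CompactSpace M] [T2Space M]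
    [SecondCountableTopology M] [MeasurableSpace M] [BorelSpace M] {r : ℕ} (μ : Measure M)
    [IsFiniteMeasure μ] (T : Finset ι) (c : ι → ℂ) (f : ι → ℝ → ℝ → M → M → (Fin r → ℝ) → ℂ)
    (hf : ∀ l, Continuous fun z : (((ℝ × ℝ) × M) × M) × (Fin r → ℝ) =>
      f l z.1.1.1.1 z.1.1.1.2 z.1.1.2 z.1.2 z.2) :
    I5 μ (fun t s h g θ => ∑ l ∈ T, c l * f l t s h g θ) = ∑ l ∈ T, c l * I5 μ (f l) := by
  -- the levels
  have c1 : ∀ l, Continuous fun z : (((ℝ × ℝ) × M) × M) =>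
      ∫ θ in Set.Icc (0 : Fin r → ℝ) 1, f l z.1.1.1 z.1.1.2 z.1.2 z.2 θ := fun l =>
    lvl_cont volume isCompact_Icc
      (fun (z : (((ℝ × ℝ) × M) × M)) θ => f l z.1.1.1 z.1.1.2 z.1.2 z.2 θ) (hf l)
  have c2 : ∀ l, Continuous fun z : ((ℝ × ℝ) × M) => ∫ g in Set.univ,
      (∫ θ in Set.Icc (0 : Fin r → ℝ) 1, f l z.1.1 z.1.2 z.2 g θ) ∂μ := fun l =>
    lvl_cont μ isCompact_univ
      (fun (z : ((ℝ × ℝ) × M)) g => ∫ θ in Set.Icc (0 : Fin r → ℝ) 1, f l z.1.1 z.1.2 z.2 g θ) (c1 l)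
  have c3 : ∀ l, Continuous fun z : (ℝ × ℝ) => ∫ h in Set.univ, ∫ g in Set.univ,
      (∫ θ in Set.Icc (0 : Fin r → ℝ) 1, f l z.1 z.2 h g θ) ∂μ ∂μ := fun l =>
    lvl_cont μ isCompact_univ (fun (z : (ℝ × ℝ)) h => ∫ g in Set.univ,
      (∫ θ in Set.Icc (0 : Fin r → ℝ) 1, f l z.1 z.2 h g θ) ∂μ) (c2 l)
  have c4 : ∀ l, Continuous fun t : ℝ => ∫ s in Set.Icc (0 : ℝ) 1, ∫ h in Set.univ,
      ∫ g in Set.univ, (∫ θ in Set.Icc (0 : Fin r → ℝ) 1, f l t s h g θ) ∂μ ∂μ := fun l =>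
    lvl_cont volume isCompact_Icc (fun (t : ℝ) (s : ℝ) => ∫ h in Set.univ, ∫ g in Set.univ,
      (∫ θ in Set.Icc (0 : Fin r → ℝ) 1, f l t s h g θ) ∂μ ∂μ) (c3 l)
  have e1 : ∀ z : (((ℝ × ℝ) × M) × M), ∫ θ in Set.Icc (0 : Fin r → ℝ) 1,
      ∑ l ∈ T, c l * f l z.1.1.1 z.1.1.2 z.1.2 z.2 θ = ∑ l ∈ T, c l *
      ∫ θ in Set.Icc (0 : Fin r → ℝ) 1, f l z.1.1.1 z.1.1.2 z.1.2 z.2 θ := fun z =>
    lvl_sum volume isCompact_Icc T c
      (fun l (z : (((ℝ × ℝ) × M) × M)) θ => f l z.1.1.1 z.1.1.2 z.1.2 z.2 θ) hf z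
  have e2 : ∀ z : ((ℝ × ℝ) × M), ∫ g in Set.univ, ∑ l ∈ T, c l *
      (∫ θ in Set.Icc (0 : Fin r → ℝ) 1, f l z.1.1 z.1.2 z.2 g θ) ∂μ = ∑ l ∈ T, c l *
      ∫ g in Set.univ, (∫ θ in Set.Icc (0 : Fin r → ℝ) 1, f l z.1.1 z.1.2 z.2 g θ) ∂μ := fun z =>
    lvl_sum μ isCompact_univ T c (fun l (z : ((ℝ × ℝ) × M)) g =>
      ∫ θ in Set.Icc (0 : Fin r → ℝ) 1, f l z.1.1 z.1.2 z.2 g θ) c1 z
  have e3 : ∀ z : (ℝ × ℝ), ∫ h in Set.univ, ∑ l ∈ T, c l * (∫ g in Set.univ,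
      (∫ θ in Set.Icc (0 : Fin r → ℝ) 1, f l z.1 z.2 h g θ) ∂μ) ∂μ = ∑ l ∈ T, c l *
      ∫ h in Set.univ, ∫ g in Set.univ,
        (∫ θ in Set.Icc (0 : Fin r → ℝ) 1, f l z.1 z.2 h g θ) ∂μ ∂μ := fun z =>
    lvl_sum μ isCompact_univ T c (fun l (z : (ℝ × ℝ)) h => ∫ g in Set.univ,
      (∫ θ in Set.Icc (0 : Fin r → ℝ) 1, f l z.1 z.2 h g θ) ∂μ) c2 z
  have e4 : ∀ t : ℝ, ∫ s in Set.Icc (0 : ℝ) 1, ∑ l ∈ T, c l * (∫ h in Set.univ,
      ∫ g in Set.univ, (∫ θ in Set.Icc (0 : Fin r → ℝ) 1, f l t s h g θ) ∂μ ∂μ) =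
      ∑ l ∈ T, c l * ∫ s in Set.Icc (0 : ℝ) 1, ∫ h in Set.univ,
      ∫ g in Set.univ, (∫ θ in Set.Icc (0 : Fin r → ℝ) 1, f l t s h g θ) ∂μ ∂μ := fun t =>
    lvl_sum volume isCompact_Icc T c (fun l (t : ℝ) (s : ℝ) => ∫ h in Set.univ,
      ∫ g in Set.univ, (∫ θ in Set.Icc (0 : Fin r → ℝ) 1, f l t s h g θ) ∂μ ∂μ) c3 t
  have e5 := lvl_sum volume isCompact_Icc T c (K := Set.Icc (0 : ℝ) 1)
    (fun l (_ : Unit) (t : ℝ) => ∫ s in Set.Icc (0 : ℝ) 1, ∫ h in Set.univ,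
      ∫ g in Set.univ, (∫ θ in Set.Icc (0 : Fin r → ℝ) 1, f l t s h g θ) ∂μ ∂μ)
    (fun l => (c4 l).comp continuous_snd) ()
  unfold I5
  refine Eq.trans ?_ e5
  refine integral_congr_ae (Eventually.of_forall fun t => ?_)
  refine Eq.trans ?_ (e4 t)
  refine integral_congr_ae (Eventually.of_forall fun s => ?_)
  refine Eq.trans ?_ (e3 (t, s))
  refine integral_congr_ae (Eventually.of_forall fun h => ?_)
  refine Eq.trans ?_ (e2 ((t, s), h))
  refine integral_congr_ae (Eventually.of_forall fun g => ?_)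
  exact e1 (((t, s), h), g)

theorem TX_eq {N : ℕ} {H : Subgroup (SU N)} {r : ℕ} (Hc : Fin r → MT N) (μ : Measure H)
    (ker : ℝ → (Fin r → ℝ) → ℂ) (V W : ℝ → H → H → ℂ) :
    TX Hc μ ker V W = I5 μ (fun t s h g θ =>
      ker (t - s) θ * (V s h g * conj (W t h (g * tt H Hc θ)))) := by
  unfold TX I5
  simp only [intervalIntegral.integral_of_le zero_le_one, ← integral_Icc_eq_integral_Ioc,
    Measure.restrict_univ]

/-- the factors of the tuples add up to `1` -/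
theorem sum_pj {r : ℕ} {Φ : RT r} {L : ℕ} (ψ : {p // p ∈ pos Φ} → Fin (L + 2) → ℤ → ℝ)
    (hψ : ∀ p u, ∑ j, ψ p j u = 1) (l : Fin r → ℤ) :
    ∑ jj : {p // p ∈ pos Φ} → Fin (L + 2), pj' ψ jj l = 1 := by
  unfold pj'
  have h1 := Finset.prod_univ_sum (fun _ : {p // p ∈ pos Φ} => (Finset.univ : Finset (Fin (L + 2))))
    (fun p j => ψ p j (p.1.2 ⬝ᵥ l))
  rw [Fintype.piFinset_univ] at h1
  rw [← h1]
  exact Finset.prod_eq_one fun p _ => hψ p _

end DCP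

open DCP in
/-- DCP; the additional hypothesis `S_PSF` gives the continuity of `tt`. -/
theorem t_DCP : M_DCP := by
  intro hPSF hVCN hPLA N H r Φ B Hc E c k d hCX μ _ _ m C₂ R M₀ jm L ψ ν₁ ν₂ hF a T V W ha hV hW
  have hcl := hCX.closed
  have hcs : CompactSpace H := isCompact_iff_compactSpace.1 hcl.isCompact
  have hsec : SecondCountableTopology H :=
    inferInstanceAs (SecondCountableTopology ((H : Set (SU N)) : Type))
  obtain ⟨CP, hCP, P⟩ := hPSF N H r Φ B Hc E c k d hCX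
  have htc := P.tcont
  have hV' : Continuous fun z : ℝ × H × H => V z.1 z.2.1 z.2.2 := hV
  have hW' : Continuous fun z : ℝ × H × H => W z.1 z.2.1 z.2.2 := hW
  set base : (Fin r → ℤ) → ℝ → ℝ → H → H → (Fin r → ℝ) → ℂ := fun l t s h g θ =>
    a (t - s) l * eu (dz l θ) * (V s h g * conj (W t h (g * tt H Hc θ))) with hbase
  have hb : ∀ l, Continuous fun z : (((ℝ × ℝ) × H) × H) × (Fin r → ℝ) =>
      base l z.1.1.1.1 z.1.1.1.2 z.1.1.2 z.1.2 z.2 := by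
    intro l
    have c1 : Continuous fun z : (((ℝ × ℝ) × H) × H) × (Fin r → ℝ) =>
        a (z.1.1.1.1 - z.1.1.1.2) l := (ha l).comp (by fun_prop)
    have c2 : Continuous fun z : (((ℝ × ℝ) × H) × H) × (Fin r → ℝ) => eu (dz l z.2) :=
      CDIF.eu_cont.comp ((CDIF.dz_cont l).comp continuous_snd)
    have c3 : Continuous fun z : (((ℝ × ℝ) × H) × H) × (Fin r → ℝ) =>
        V z.1.1.1.2 z.1.1.2 z.1.2 :=
      hV'.comp (by fun_prop : Continuous fun z : (((ℝ × ℝ) × H) × H) × (Fin r → ℝ) =>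
        ((z.1.1.1.2, z.1.1.2, z.1.2) : ℝ × H × H))
    have c4 : Continuous fun z : (((ℝ × ℝ) × H) × H) × (Fin r → ℝ) =>
        W z.1.1.1.1 z.1.1.2 (z.1.2 * tt H Hc z.2) :=
      hW'.comp (by fun_prop : Continuous fun z : (((ℝ × ℝ) × H) × H) × (Fin r → ℝ) =>
        ((z.1.1.1.1, z.1.1.2, z.1.2 * tt H Hc z.2) : ℝ × H × H))
    exact (c1.mul c2).mul (c3.mul (Complex.continuous_conj.comp c4))
  have hexp : ∀ Ψ : (Fin r → ℤ) → ℝ,
      TX Hc μ (km a T Ψ) V W = ∑ l ∈ T, (Ψ l : ℂ) * I5 μ (base l) := by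
    intro Ψ
    rw [TX_eq, ← I5_sum μ T (fun l => (Ψ l : ℂ)) base hb]
    congr 1
    funext t s h g θ
    unfold km
    rw [Finset.sum_mul]
    refine Finset.sum_congr rfl fun l _ => ?_
    simp only [hbase]
    ring
  have hpla : ∀ j₁ j₂ j₃ : {p // p ∈ pos Φ} → Fin (L + 2),
      TX Hc μ (km a T (pj' ψ j₂)) (po Hc (ν₁ j₁) (ν₂ j₁) V) (po Hc (ν₁ j₃) (ν₂ j₃) W) =
        TX Hc μ (km a T fun l => pj' ψ j₂ l * (pj' ψ j₁ l * pj' ψ j₃ l)) V W := by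
    intro j₁ j₂ j₃
    unfold TX
    refine intervalIntegral.integral_congr fun t _ => ?_
    refine intervalIntegral.integral_congr fun s _ => ?_
    refine integral_congr_ae (Eventually.of_forall fun h => ?_)
    have h1 := (hPLA N H r Φ B Hc E c k d hCX μ T (fun l => a (t - s) l * (pj' ψ j₂ l : ℂ))
      (V s h) (W t h) (hV'.comp (by fun_prop : Continuous fun g : H => ((s, h, g) : ℝ × H × H)))
      (hW'.comp (by fun_prop : Continuous fun g : H => ((t, h, g) : ℝ × H × H)))).1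
      (ν₁ j₁) (ν₂ j₁) (ν₁ j₃) (ν₂ j₃) (pj' ψ j₁) (pj' ψ j₃) (hF.fin₁ _) (hF.fin₂ _)
      (hF.fin₁ _) (hF.fin₂ _) (hF.tr j₁) (hF.tr j₃)
    refine Eq.trans h1 ?_
    refine integral_congr_ae (Eventually.of_forall fun g => ?_)
    refine integral_congr_ae (Eventually.of_forall fun θ => ?_)
    simp only [km]
    congr 1
    refine Finset.sum_congr rfl fun l _ => ?_
    push_cast
    ring
  have hs : ∀ l, ∑ j : {p // p ∈ pos Φ} → Fin (L + 2), pj' ψ j l = 1 := sum_pj ψ hF.sum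
  have hs3 : ∀ l, ∑ j₁ : {p // p ∈ pos Φ} → Fin (L + 2), ∑ j₂ : {p // p ∈ pos Φ} → Fin (L + 2),
      ∑ j₃ : {p // p ∈ pos Φ} → Fin (L + 2), pj' ψ j₂ l * (pj' ψ j₁ l * pj' ψ j₃ l) = 1 := by
    intro l
    simp_rw [← Finset.mul_sum, hs, mul_one, ← Finset.sum_mul, hs, one_mul]
    exact hs l
  simp_rw [hpla, hexp]
  rw [Finset.sum_congr rfl fun j₁ _ => Finset.sum_congr rfl fun j₂ _ => Finset.sum_comm]
  rw [Finset.sum_congr rfl fun j₁ _ => Finset.sum_comm]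
  rw [Finset.sum_comm]
  refine Finset.sum_congr rfl fun l _ => ?_
  simp_rw [← Finset.sum_mul]
  congr 1
  have h2 := congrArg (fun x : ℝ => (x : ℂ)) (hs3 l)
  push_cast at h2
  push_cast
  exact h2.symm

end

end STZ3
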