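import Pool.Agent.STZ3.StQ

/-!
# DET: the function `det ((1 + ρ) - Ad g) / ρ^r`
-/

set_option autoImplicit false

namespace STZ3

open STZ LGR MeasureTheory Matrix Filter

open scoped ComplexConjugate Matrix Real Topology

noncomputable section

namespace DET

/-! ### the adjoint representation in a frame -/

/-- the coefficients in the frame -/
def cf {N d : ℕ} (c : ℝ) (X : Fin d → MT N) (Y : MT N) (a : Fin d) : ℂ := -(c : ℂ) * (X a * Y).trace

theorem cf_sum {N d : ℕ} {c : ℝ} {X : Fin d → MT N}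
    (hX : ∀ a b, -(c : ℂ) * (X a * X b).trace = if a = b then 1 else 0) (y : Fin d → ℂ) (a : Fin d) :
    cf c X (∑ b, y b • X b) a = y a := by
  unfold cf
  rw [Finset.mul_sum, Matrix.trace_sum, Finset.mul_sum]
  have h1 : ∀ b, -(c : ℂ) * (X a * y b • X b).trace = if a = b then y b else 0 := by
    intro b
    rw [Matrix.mul_smul, Matrix.trace_smul, smul_eq_mul]
    have h2 := hX a b
    by_cases h : a = b
    · rw [if_pos h] at h2 ⊢
      linear_combination (y b) * h2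
    · rw [if_neg h] at h2 ⊢
      linear_combination (y b) * h2
  rw [Finset.sum_congr rfl fun b _ => h1 b]
  simp

theorem cf_sub {N d : ℕ} (c : ℝ) (X : Fin d → MT N) (Y Z : MT N) (a : Fin d) :
    cf c X (Y - Z) a = cf c X Y a - cf c X Z a := by
  unfold cf
  rw [Matrix.mul_sub, Matrix.trace_sub]
  ring

theorem cf_smul {N d : ℕ} (c : ℝ) (X : Fin d → MT N) (s : ℂ) (Y : MT N) (a : Fin d) :
    cf c X (s • Y) a = s * cf c X Y a := by
  unfold cf
  rw [Matrix.mul_smul, Matrix.trace_smul, smul_eq_mul]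
  ring

/-- the matrix of `Ad g` -/
def am {N d : ℕ} {H : Subgroup (SU N)} (c : ℝ) (X : Fin d → MT N) (g : H) : Matrix (Fin d) (Fin d) ℝ :=
  Matrix.of fun a b => (cf c X (g.1.1 * X b * g.1.1ᴴ) a).re

section

variable {N d : ℕ} {H : Subgroup (SU N)} {c : ℝ} {X : Fin d → MT N}

theorem mem_cf (hF : FrameH H c X) {Y : MT N} (hY : Y ∈ lie H) :
    Y = ∑ a, cf c X Y a • X a ∧ ∀ a, cf c X Y a = ((cf c X Y a).re : ℂ) := by
  obtain ⟨y, hy⟩ := hF.span Y hY
  have h1 : ∀ a, cf c X Y a = (y a : ℂ) := by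
    intro a
    conv_lhs => rw [hy]
    exact cf_sum hF.orth (fun b => (y b : ℂ)) a
  refine ⟨?_, fun a => ?_⟩
  · conv_lhs => rw [hy]
    exact Finset.sum_congr rfl fun a _ => by rw [h1]
  · rw [h1, Complex.ofReal_re]

theorem am_spec (hL : LIF H) (hF : FrameH H c X) (g : H) (b : Fin d) :
    g.1.1 * X b * g.1.1ᴴ = ∑ a, ((am c X g a b : ℝ) : ℂ) • X a := by
  have h := mem_cf hF (hL.ad g.1 g.2 (X b) (hF.mem b))
  conv_lhs => rw [h.1]
  refine Finset.sum_congr rfl fun a _ => ?_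
  rw [h.2 a]
  rfl

theorem am_eq (hF : FrameH H c X) (g : H) (b : Fin d) (y : Fin d → ℝ)
    (h : g.1.1 * X b * g.1.1ᴴ = ∑ a, ((y a : ℝ) : ℂ) • X a) (a : Fin d) : am c X g a b = y a := by
  have h1 : am c X g a b = (cf c X (g.1.1 * X b * g.1.1ᴴ) a).re := rfl
  rw [h1, h, cf_sum hF.orth, Complex.ofReal_re]

theorem gl (g : H) : g.1.1 * g.1.1ᴴ = 1 := by
  have h := (Matrix.mem_specialUnitaryGroup_iff.1 g.1.2).1
  exact (Matrix.mem_unitaryGroup_iff.1 h)

theorem gr (g : H) : g.1.1ᴴ * g.1.1 = 1 := by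
  have h := (Matrix.mem_specialUnitaryGroup_iff.1 g.1.2).1
  exact (Matrix.mem_unitaryGroup_iff'.1 h)

theorem am_mul (hL : LIF H) (hF : FrameH H c X) (g h : H) : am c X (g * h) = am c X g * am c X h := by
  ext a b
  refine am_eq hF (g * h) b (fun a => (am c X g * am c X h) a b) ?_ a
  have e1 : (g * h).1.1 = g.1.1 * h.1.1 := rfl
  have e2 : (g * h).1.1 * X b * (g * h).1.1ᴴ = g.1.1 * (h.1.1 * X b * h.1.1ᴴ) * g.1.1ᴴ := by
    rw [e1, Matrix.conjTranspose_mul]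
    simp only [Matrix.mul_assoc]
  rw [e2, am_spec hL hF h b, Finset.mul_sum, Finset.sum_mul]
  have e3 : ∀ e : Fin d, g.1.1 * ((am c X h e b : ℝ) : ℂ) • X e * g.1.1ᴴ =
      ∑ a, ((((am c X h e b : ℝ) : ℂ)) * ((am c X g a e : ℝ) : ℂ)) • X a := by
    intro e
    rw [Matrix.mul_smul, Matrix.smul_mul, am_spec hL hF g e, Finset.smul_sum]
    exact Finset.sum_congr rfl fun a _ => by rw [smul_smul]
  rw [Finset.sum_congr rfl fun e _ => e3 e, Finset.sum_comm]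
  refine Finset.sum_congr rfl fun a _ => ?_
  rw [← Finset.sum_smul, Matrix.mul_apply]
  push_cast
  congr 1
  exact Finset.sum_congr rfl fun e _ => mul_comm _ _

theorem am_one (hF : FrameH H c X) : am c X (1 : H) = 1 := by
  ext a b
  refine am_eq hF 1 b (fun a => (1 : Matrix (Fin d) (Fin d) ℝ) a b) ?_ a
  have e1 : (1 : H).1.1 = (1 : MT N) := rfl
  rw [e1, Matrix.conjTranspose_one, Matrix.one_mul, Matrix.mul_one]
  simp [Matrix.one_apply]

theorem am_orth (hL : LIF H) (hF : FrameH H c X) (g : H) : (am c X g)ᵀ * am c X g = 1 := by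
  ext a b
  have h1 := hF.orth a b
  have h2 : (X a * X b).trace = ((g.1.1 * X a * g.1.1ᴴ) * (g.1.1 * X b * g.1.1ᴴ)).trace := by
    have e1 : (g.1.1 * X a * g.1.1ᴴ) * (g.1.1 * X b * g.1.1ᴴ) = g.1.1 * (X a * X b) * g.1.1ᴴ := by
      calc (g.1.1 * X a * g.1.1ᴴ) * (g.1.1 * X b * g.1.1ᴴ)
          = g.1.1 * X a * (g.1.1ᴴ * g.1.1) * X b * g.1.1ᴴ := by simp only [Matrix.mul_assoc]
        _ = g.1.1 * (X a * X b) * g.1.1ᴴ := by
            rw [gr, Matrix.mul_one]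
            simp only [Matrix.mul_assoc]
    rw [e1, Matrix.trace_mul_cycle, ← Matrix.mul_assoc, gr, Matrix.one_mul]
  rw [h2, am_spec hL hF g a, Finset.sum_mul, Matrix.trace_sum, Finset.mul_sum] at h1
  have h3 : ∀ e : Fin d, -(c : ℂ) * (((am c X g e a : ℝ) : ℂ) • X e * (g.1.1 * X b * g.1.1ᴴ)).trace =
      (((am c X g e a * am c X g e b : ℝ)) : ℂ) := by
    intro e
    have h4 := (mem_cf hF (hL.ad g.1 g.2 (X b) (hF.mem b))).2 e
    have h5 : am c X g e b = (cf c X (g.1.1 * X b * g.1.1ᴴ) e).re := rfl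
    rw [h5]
    push_cast
    rw [← h4]
    unfold cf
    rw [Matrix.smul_mul, Matrix.trace_smul, smul_eq_mul]
    ring
  rw [Finset.sum_congr rfl fun e _ => h3 e, ← Complex.ofReal_sum] at h1
  rw [Matrix.mul_apply, Matrix.one_apply]
  simp only [Matrix.transpose_apply]
  by_cases h : a = b
  · rw [if_pos h] at h1 ⊢
    exact_mod_cast h1
  · rw [if_neg h] at h1 ⊢
    exact_mod_cast h1

theorem am_orth' (hL : LIF H) (hF : FrameH H c X) (g : H) : am c X g * (am c X g)ᵀ = 1 :=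
  mul_eq_one_comm.1 (am_orth hL hF g)

theorem am_cont : Continuous (am (H := H) c X) := by
  refine continuous_matrix fun a b => ?_
  have h1 : Continuous fun g : H => g.1.1 := continuous_subtype_val.comp continuous_subtype_val
  have h2 : Continuous fun g : H => (X a * (g.1.1 * X b * g.1.1ᴴ)).trace := by
    refine Continuous.matrix_trace ?_
    exact continuous_const.matrix_mul ((h1.matrix_mul continuous_const).matrix_mul h1.matrix_conjTranspose)
  exact Complex.continuous_re.comp (continuous_const.mul h2)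

end

/-! ### linear algebra -/

/-- an orthogonal matrix preserves the length -/
theorem nrm {d : ℕ} {U : Matrix (Fin d) (Fin d) ℝ} (hU : Uᵀ * U = 1) (v : Fin d → ℝ) :
    (U *ᵥ v) ⬝ᵥ (U *ᵥ v) = v ⬝ᵥ v := by
  rw [Matrix.dotProduct_mulVec, Matrix.vecMul_mulVec, hU, Matrix.vecMul_one]

theorem dp_nn {d : ℕ} (v : Fin d → ℝ) : 0 ≤ v ⬝ᵥ v := by
  unfold dotProduct
  exact Finset.sum_nonneg fun i _ => mul_self_nonneg _

/-- the lower bound -/
theorem low {d : ℕ} {U : Matrix (Fin d) (Fin d) ℝ} (hU : Uᵀ * U = 1) (z s : ℝ) (hs : 0 ≤ s) (v : Fin d → ℝ) :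
    (z - s) * (v ⬝ᵥ v) ≤ v ⬝ᵥ ((z • (1 : Matrix (Fin d) (Fin d) ℝ) - s • U) *ᵥ v) := by
  rw [Matrix.sub_mulVec, Matrix.smul_mulVec, Matrix.smul_mulVec, Matrix.one_mulVec, dotProduct_sub,
    dotProduct_smul, dotProduct_smul, smul_eq_mul, smul_eq_mul]
  have h1 : v ⬝ᵥ (U *ᵥ v) ≤ v ⬝ᵥ v := by
    have h2 := dp_nn (v - U *ᵥ v)
    rw [sub_dotProduct, dotProduct_sub, dotProduct_sub, nrm hU, dotProduct_comm (U *ᵥ v) v] at h2
    linarith
  nlinarith

theorem det_ne {d : ℕ} {U : Matrix (Fin d) (Fin d) ℝ} (hU : Uᵀ * U = 1) (z s : ℝ) (hs : 0 ≤ s) (hz : s < z) :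
    (z • (1 : Matrix (Fin d) (Fin d) ℝ) - s • U).det ≠ 0 := by
  intro h
  obtain ⟨v, hv, h2⟩ := Matrix.exists_mulVec_eq_zero_iff.2 h
  have h3 := low hU z s hs v
  rw [h2, dotProduct_zero] at h3
  have h4 : v ⬝ᵥ v = 0 := le_antisymm (by nlinarith) (dp_nn v)
  exact hv (dotProduct_self_eq_zero.1 h4)

theorem det_pos' {d : ℕ} {U : Matrix (Fin d) (Fin d) ℝ} (hU : Uᵀ * U = 1) (z : ℝ) (hz : 1 < z) :
    0 < (z • (1 : Matrix (Fin d) (Fin d) ℝ) - U).det := by
  by_contra hneg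
  have hneg' := not_lt.1 hneg
  have hc : ContinuousOn (fun s : ℝ => (z • (1 : Matrix (Fin d) (Fin d) ℝ) - s • U).det) (Set.Icc 0 1) := by
    refine Continuous.continuousOn ?_
    refine Continuous.matrix_det ?_
    exact continuous_const.sub (continuous_id.smul continuous_const)
  have h0 : (fun s : ℝ => (z • (1 : Matrix (Fin d) (Fin d) ℝ) - s • U).det) 0 = z ^ d := by
    simp
  have h1 : (fun s : ℝ => (z • (1 : Matrix (Fin d) (Fin d) ℝ) - s • U).det) 1 ≤ 0 := by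
    simpa using hneg'
  have h2 := intermediate_value_Icc' (zero_le_one' ℝ) hc
  have h3 : (0 : ℝ) ∈ Set.Icc ((fun s : ℝ => (z • (1 : Matrix (Fin d) (Fin d) ℝ) - s • U).det) 1)
      ((fun s : ℝ => (z • (1 : Matrix (Fin d) (Fin d) ℝ) - s • U).det) 0) := by
    refine ⟨h1, ?_⟩
    rw [h0]
    positivity
  obtain ⟨s, hs, h4⟩ := h2 h3
  exact det_ne hU z s hs.1 (lt_of_le_of_lt hs.2 hz) h4

theorem dp_le {d : ℕ} (v : Fin d → ℝ) (i : Fin d) : v i ^ 2 ≤ v ⬝ᵥ v := by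
  unfold dotProduct
  have h := Finset.single_le_sum (f := fun i => v i * v i) (fun i _ => mul_self_nonneg (v i)) (Finset.mem_univ i)
  simpa [sq] using h

/-- entries of the inverse -/
theorem inv_le {d : ℕ} {U : Matrix (Fin d) (Fin d) ℝ} (hU : Uᵀ * U = 1) (ρ : ℝ) (hρ : 0 < ρ) (i j : Fin d) :
    |((1 + ρ) • (1 : Matrix (Fin d) (Fin d) ℝ) - U)⁻¹ i j| ≤ 1 / ρ := by
  set W := ((1 + ρ) • (1 : Matrix (Fin d) (Fin d) ℝ) - U) with hW
  have hdet : IsUnit W.det := by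
    have := det_ne hU (1 + ρ) 1 zero_le_one (by linarith)
    rw [one_smul] at this
    exact isUnit_iff_ne_zero.2 this
  set v : Fin d → ℝ := fun i => W⁻¹ i j with hv
  have h1 : W *ᵥ v = Pi.single j 1 := by
    have h2 : W * W⁻¹ = 1 := Matrix.mul_nonsing_inv _ hdet
    ext k
    have h3 := congrFun (congrFun h2 k) j
    rw [Matrix.mul_apply] at h3
    unfold Matrix.mulVec dotProduct
    rw [h3, Matrix.one_apply, Pi.single_apply]
  have h2 := low hU (1 + ρ) 1 zero_le_one v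
  rw [one_smul, ← hW, h1] at h2
  have h3 : v ⬝ᵥ Pi.single j 1 = v j := by simp
  rw [h3] at h2
  have h4 := dp_le v j
  have h5 : (1 + ρ - 1) * (v ⬝ᵥ v) = ρ * (v ⬝ᵥ v) := by ring
  rw [h5] at h2
  have h6 := dp_nn v
  have h7 : v ⬝ᵥ v ≤ (1 / ρ) ^ 2 := by
    by_contra h8
    have h9 := not_le.1 h8
    have h10 : 0 < v ⬝ᵥ v := lt_of_le_of_lt (sq_nonneg _) h9
    have h11 : (ρ * (v ⬝ᵥ v)) ^ 2 ≤ v ⬝ᵥ v := by
      calc (ρ * (v ⬝ᵥ v)) ^ 2 ≤ (v j) ^ 2 := by
            apply pow_le_pow_left₀ (by positivity) h2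
        _ ≤ v ⬝ᵥ v := h4
    have h12 : ρ ^ 2 * (v ⬝ᵥ v) ≤ 1 := by
      have : ρ ^ 2 * (v ⬝ᵥ v) * (v ⬝ᵥ v) ≤ 1 * (v ⬝ᵥ v) := by nlinarith
      exact le_of_mul_le_mul_right this h10
    have h13 : v ⬝ᵥ v ≤ (1 / ρ) ^ 2 := by
      rw [div_pow, one_pow, le_div_iff₀ (by positivity)]
      linarith
    exact h8 h13
  have h8 : v i ^ 2 ≤ (1 / ρ) ^ 2 := (dp_le v i).trans h7
  exact abs_le_of_sq_le_sq h8 (by positivity)

/-- entries of an orthogonal matrix -/
theorem ent_le {d : ℕ} {U : Matrix (Fin d) (Fin d) ℝ} (hU : Uᵀ * U = 1) (i j : Fin d) : |U i j| ≤ 1 := by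
  have h := congrFun (congrFun hU j) j
  rw [Matrix.mul_apply, Matrix.one_apply_eq] at h
  simp only [Matrix.transpose_apply] at h
  have h2 := Finset.single_le_sum (f := fun i => U i j * U i j) (fun i _ => mul_self_nonneg (U i j))
    (Finset.mem_univ i)
  rw [h] at h2
  exact abs_le_one_iff_mul_self_le_one.2 h2

/-- the comparison of determinants -/
theorem cmp {d : ℕ} {U V : Matrix (Fin d) (Fin d) ℝ} (hU : Uᵀ * U = 1) (ρ K : ℝ) (hρ : 0 < ρ)
    (hV : ∀ i j, |(1 - V) i j| ≤ K * ρ) :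
    ((1 + ρ) • (1 : Matrix (Fin d) (Fin d) ℝ) - U * V).det ≤
      (d.factorial * (1 + d * d * K) ^ d) * ((1 + ρ) • (1 : Matrix (Fin d) (Fin d) ℝ) - U).det := by
  set W := ((1 + ρ) • (1 : Matrix (Fin d) (Fin d) ℝ) - U) with hW
  have hpos : 0 < W.det := det_pos' hU (1 + ρ) (by linarith)
  have hdet : IsUnit W.det := isUnit_iff_ne_zero.2 hpos.ne'
  have h1 : (1 + ρ) • (1 : Matrix (Fin d) (Fin d) ℝ) - U * V = W * (1 + W⁻¹ * (U * (1 - V))) := by
    rw [Matrix.mul_add, Matrix.mul_one, ← Matrix.mul_assoc, Matrix.mul_nonsing_inv _ hdet, Matrix.one_mul,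
      Matrix.mul_sub, Matrix.mul_one, hW]
    abel
  rw [h1, Matrix.det_mul, mul_comm]
  refine mul_le_mul_of_nonneg_right ?_ hpos.le
  have h2 : ∀ i j, |(1 + W⁻¹ * (U * (1 - V))) i j| ≤ 1 + d * d * K := by
    intro i j
    rw [Matrix.add_apply]
    have h3 : |(1 : Matrix (Fin d) (Fin d) ℝ) i j| ≤ 1 := by
      rw [Matrix.one_apply]
      split_ifs <;> simp
    have h4 : |(W⁻¹ * (U * (1 - V))) i j| ≤ d * d * K := by
      rw [Matrix.mul_apply]
      refine (Finset.abs_sum_le_sum_abs _ _).trans ?_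
      have h5 : ∀ k : Fin d, |W⁻¹ i k * (U * (1 - V)) k j| ≤ d * K := by
        intro k
        rw [abs_mul]
        have h6 : |(U * (1 - V)) k j| ≤ d * (K * ρ) := by
          rw [Matrix.mul_apply]
          refine (Finset.abs_sum_le_sum_abs _ _).trans ?_
          refine (Finset.sum_le_card_nsmul _ _ (K * ρ) fun l _ => ?_).trans ?_
          · rw [abs_mul]
            calc |U k l| * |(1 - V) l j| ≤ 1 * (K * ρ) :=
                  mul_le_mul (ent_le hU k l) (hV l j) (abs_nonneg _) zero_le_one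
              _ = K * ρ := one_mul _
          · simp
        calc |W⁻¹ i k| * |(U * (1 - V)) k j| ≤ (1 / ρ) * (d * (K * ρ)) :=
              mul_le_mul (inv_le hU ρ hρ i k) h6 (abs_nonneg _) (by positivity)
          _ = d * K := by field_simp
      refine (Finset.sum_le_card_nsmul _ _ (d * K) fun k _ => h5 k).trans ?_
      simp [mul_assoc]
    exact (abs_add_le _ _).trans (by linarith)
  have h3 := Matrix.det_le (abv := (AbsoluteValue.abs : AbsoluteValue ℝ ℝ)) h2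
  rw [Fintype.card_fin, nsmul_eq_mul] at h3
  exact (le_abs_self _).trans h3

/-! ### the distance from `1` -/

/-- entries of a unitary matrix -/
theorem u_le {N : ℕ} {H : Subgroup (SU N)} (g : H) (i j : Fin N) : ‖g.1.1 i j‖ ≤ 1 := by
  have h := congrFun (congrFun (gl g) i) i
  rw [Matrix.mul_apply, Matrix.one_apply_eq] at h
  have h1 : ∀ k, g.1.1 i k * g.1.1ᴴ k i = ((‖g.1.1 i k‖ ^ 2 : ℝ) : ℂ) := by
    intro k
    rw [Matrix.conjTranspose_apply, Complex.star_def, Complex.mul_conj']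
    push_cast
    rfl
  rw [Finset.sum_congr rfl fun k _ => h1 k, ← Complex.ofReal_sum] at h
  have h2 : ∑ k, ‖g.1.1 i k‖ ^ 2 = 1 := by exact_mod_cast h
  have h3 := Finset.single_le_sum (f := fun k => ‖g.1.1 i k‖ ^ 2) (fun k _ => sq_nonneg _) (Finset.mem_univ j)
  rw [h2] at h3
  have h4 : ‖g.1.1 i j‖ ^ 2 ≤ 1 ^ 2 := by simpa using h3
  exact (abs_le_of_sq_le_sq h4 zero_le_one |> fun h => (le_abs_self _).trans h)

theorem ps_le {N : ℕ} {H : Subgroup (SU N)} (g : H) (ρ : ℝ) (hρ : 0 < ρ) (h : ps g ≤ 4 * ρ ^ 2) (i j : Fin N) :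
    ‖(g.1.1 - 1) i j‖ ≤ 2 * ρ := by
  have h1 : ‖(g.1.1 - 1) i j‖ ^ 2 ≤ ps g := by
    unfold ps
    have h2 := Finset.single_le_sum (f := fun i => ∑ j, ‖g.1.1 i j - (1 : MT N) i j‖ ^ 2)
      (fun i _ => Finset.sum_nonneg fun j _ => sq_nonneg _) (Finset.mem_univ i)
    have h3 := Finset.single_le_sum (f := fun j => ‖g.1.1 i j - (1 : MT N) i j‖ ^ 2)
      (fun j _ => sq_nonneg _) (Finset.mem_univ j)
    exact h3.trans h2
  have h2 : ‖(g.1.1 - 1) i j‖ ^ 2 ≤ (2 * ρ) ^ 2 := h1.trans (h.trans (by ring_nf; rfl))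
  exact (le_abs_self _).trans (abs_le_of_sq_le_sq h2 (by positivity))

/-- bound for entries of a product -/
theorem mul_ent {N : ℕ} (A B : MT N) (a b : ℝ) (ha : 0 ≤ a) (hA : ∀ i j, ‖A i j‖ ≤ a) (hB : ∀ i j, ‖B i j‖ ≤ b)
    (i j : Fin N) : ‖(A * B) i j‖ ≤ N * (a * b) := by
  rw [Matrix.mul_apply]
  refine (norm_sum_le _ _).trans ?_
  refine (Finset.sum_le_card_nsmul _ _ (a * b) fun k _ => ?_).trans ?_
  · rw [norm_mul]
    exact mul_le_mul (hA i k) (hB k j) (norm_nonneg _) ha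
  · simp

theorem am_near {N d : ℕ} {H : Subgroup (SU N)} {c : ℝ} {X : Fin d → MT N} (hF : FrameH H c X) :
    ∃ K : ℝ, 0 ≤ K ∧ ∀ (ρ : ℝ) (g : H), 0 < ρ → ρ ≤ 1 → ps g ≤ 4 * ρ ^ 2 →
      ∀ a b, |(1 - am c X g) a b| ≤ K * ρ := by
  set x : ℝ := ∑ a, ∑ i, ∑ j, ‖X a i j‖ with hx
  have hx0 : 0 ≤ x := by positivity
  have hxl : ∀ a i j, ‖X a i j‖ ≤ x := by
    intro a i j
    have h1 := Finset.single_le_sum (f := fun a => ∑ i, ∑ j, ‖X a i j‖) (fun i _ => by positivity) (Finset.mem_univ a)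
    have h2 := Finset.single_le_sum (f := fun i => ∑ j, ‖X a i j‖) (fun i _ => by positivity) (Finset.mem_univ i)
    have h3 := Finset.single_le_sum (f := fun j => ‖X a i j‖) (fun i _ => by positivity) (Finset.mem_univ j)
    exact h3.trans (h2.trans h1)
  refine ⟨|c| * (N * (N * (x * (N * (N * (2 * x * 1)) + N * (x * 2))))), by positivity, ?_⟩
  intro ρ g hρ hρ1 hps a b
  have hu := ps_le g ρ hρ hps
  have hu' : ∀ i j, ‖(g.1.1 - 1)ᴴ i j‖ ≤ 2 * ρ := by
    intro i j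
    rw [Matrix.conjTranspose_apply, norm_star]
    exact hu j i
  have hg' : ∀ i j, ‖g.1.1ᴴ i j‖ ≤ 1 := by
    intro i j
    rw [Matrix.conjTranspose_apply, norm_star]
    exact u_le g j i
  have e1 : g.1.1 * X b * g.1.1ᴴ - X b = (g.1.1 - 1) * X b * g.1.1ᴴ + X b * (g.1.1 - 1)ᴴ := by
    rw [Matrix.conjTranspose_sub, Matrix.conjTranspose_one, Matrix.sub_mul, Matrix.sub_mul, Matrix.mul_sub,
      Matrix.one_mul, Matrix.mul_one]
    abel
  have e2 : ((1 - am c X g) a b : ℝ) = -(cf c X (g.1.1 * X b * g.1.1ᴴ - X b) a).re := by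
    rw [cf_sub, Complex.sub_re, Matrix.sub_apply, ← am_one hF]
    have e3 : am c X (1 : H) a b = (cf c X (X b) a).re := by
      have : am c X (1 : H) a b = (cf c X ((1 : MT N) * X b * (1 : MT N)ᴴ) a).re := rfl
      rw [this, Matrix.conjTranspose_one, Matrix.one_mul, Matrix.mul_one]
    rw [e3]
    have e4 : am c X g a b = (cf c X (g.1.1 * X b * g.1.1ᴴ) a).re := rfl
    rw [e4]
    ring
  rw [e2, abs_neg]
  refine (Complex.abs_re_le_norm _).trans ?_
  rw [e1]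
  unfold cf
  rw [norm_mul, norm_neg, Complex.norm_real, Real.norm_eq_abs]
  have b1 : ∀ i j, ‖((g.1.1 - 1) * X b * g.1.1ᴴ + X b * (g.1.1 - 1)ᴴ : MT N) i j‖ ≤
      N * (N * (2 * ρ * x) * 1) + N * (x * (2 * ρ)) := by
    intro i j
    rw [Matrix.add_apply]
    refine (norm_add_le _ _).trans (add_le_add ?_ ?_)
    · refine mul_ent _ _ (N * (2 * ρ * x)) 1 (by positivity) ?_ hg' i j
      exact mul_ent _ _ (2 * ρ) x (by positivity) hu (hxl b)
    · exact mul_ent _ _ x (2 * ρ) hx0 (hxl b) hu' i j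
  have b2 : ‖(X a * ((g.1.1 - 1) * X b * g.1.1ᴴ + X b * (g.1.1 - 1)ᴴ)).trace‖ ≤
      N * (N * (x * (N * (N * (2 * ρ * x) * 1) + N * (x * (2 * ρ))))) := by
    unfold Matrix.trace
    refine (norm_sum_le _ _).trans ?_
    refine (Finset.sum_le_card_nsmul _ _ (N * (x * (N * (N * (2 * ρ * x) * 1) + N * (x * (2 * ρ)))))
      fun k _ => ?_).trans ?_
    · exact mul_ent _ _ x _ hx0 (hxl a) b1 k k
    · simp
  calc |c| * ‖(X a * ((g.1.1 - 1) * X b * g.1.1ᴴ + X b * (g.1.1 - 1)ᴴ)).trace‖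
      ≤ |c| * (N * (N * (x * (N * (N * (2 * ρ * x) * 1) + N * (x * (2 * ρ)))))) :=
        mul_le_mul_of_nonneg_left b2 (abs_nonneg _)
    _ = |c| * (N * (N * (x * (N * (N * (2 * x * 1)) + N * (x * 2))))) * ρ := by ring

/-! ### the torus -/

/-- a product over the roots -/
theorem prod_roots {r : ℕ} {Φ : RT r} {B : Matrix (Fin r) (Fin r) ℤ} (hW : WFF Φ B) {M : Type} [CommMonoid M]
    (f : (Fin r → ℤ) × (Fin r → ℤ) → M) : ∏ p ∈ Φ, f p = ∏ p ∈ pos Φ, (f p * f (-p.1, -p.2)) := by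
  classical
  rw [Finset.prod_mul_distrib]
  unfold pos
  rw [← Finset.prod_filter_mul_prod_filter_not Φ (fun p => ∀ i, 0 ≤ p.2 i) f]
  congr 1
  refine Finset.prod_nbij' (fun p => (-p.1, -p.2)) (fun p => (-p.1, -p.2)) ?_ ?_ ?_ ?_ ?_
  · intro p hp
    rw [Finset.mem_filter] at hp
    have h1 : p ∉ pos Φ := fun h => hp.2 (Finset.mem_filter.1 h).2
    have h2 := hW.neg p hp.1
    by_contra h3
    exact h1 ((hW.dich p hp.1).2 h3)
  · intro p hp
    have hp' := Finset.mem_filter.1 hp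
    rw [Finset.mem_filter]
    refine ⟨hW.neg p hp'.1, fun h => ?_⟩
    exact (hW.dich p hp'.1).1 hp (Finset.mem_filter.2 ⟨hW.neg p hp'.1, h⟩)
  · intro p _
    simp
  · intro p _
    simp
  · intro p _
    simp

theorem card_roots {r : ℕ} {Φ : RT r} {B : Matrix (Fin r) (Fin r) ℤ} (hW : WFF Φ B) :
    Φ.card = 2 * (pos Φ).card := by
  have h := prod_roots hW (M := Multiplicative ℕ) (fun _ => Multiplicative.ofAdd 1)
  rw [Finset.prod_const, Finset.prod_const] at h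
  have h2 := congrArg Multiplicative.toAdd h
  simpa [mul_comm] using h2

theorem eu_sq (ρ y : ℝ) : (((1 + ρ : ℝ) : ℂ) - eu y) * (((1 + ρ : ℝ) : ℂ) - eu (-y)) =
    ((ρ ^ 2 + (1 + ρ) * ‖1 - eu y‖ ^ 2 : ℝ) : ℂ) := by
  have h1 : eu (-y) = conj (eu y) := by
    unfold eu
    rw [← Complex.exp_conj]
    congr 1
    have e1 : (2 * (π : ℂ) * (y : ℂ) * Complex.I) = ((2 * π * y : ℝ) : ℂ) * Complex.I := by
      push_cast
      ring
    rw [e1, map_mul, Complex.conj_ofReal, Complex.conj_I]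
    push_cast
    ring
  have h2 : eu y * conj (eu y) = 1 := by
    rw [← h1]
    unfold eu
    rw [← Complex.exp_add]
    simp
  have h3 : (‖1 - eu y‖ : ℂ) ^ 2 = (1 - eu y) * (1 - conj (eu y)) := by
    rw [← map_one (starRingEnd ℂ), ← map_sub, map_one, Complex.mul_conj']
  rw [h1]
  push_cast
  rw [h3]
  linear_combination (-(ρ : ℂ)) * h2

/-- the index set of the complex basis -/
abbrev JX {r : ℕ} (Φ : RT r) : Type := Fin r ⊕ {p // p ∈ Φ}

/-- the complex basis -/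
def yb {N r : ℕ} (Φ : RT r) (Hc : Fin r → MT N) (E : (Fin r → ℤ) × (Fin r → ℤ) → MT N) : JX Φ → MT N
  | Sum.inl j => Hc j
  | Sum.inr p => E p.1

/-- the eigenvalues -/
def ev {r : ℕ} (Φ : RT r) (θ : Fin r → ℝ) : JX Φ → ℂ
  | Sum.inl _ => 1
  | Sum.inr p => eu (dz p.1.1 θ)

theorem sum_roots {r : ℕ} {Φ : RT r} {B : Matrix (Fin r) (Fin r) ℤ} (hW : WFF Φ B) {A : Type} [AddCommMonoid A]
    (f : (Fin r → ℤ) × (Fin r → ℤ) → A) : ∑ p ∈ Φ, f p = ∑ p ∈ pos Φ, (f p + f (-p.1, -p.2)) :=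
  prod_roots hW (M := Multiplicative A) f

theorem cf_add {N d : ℕ} (c : ℝ) (X : Fin d → MT N) (Y Z : MT N) (a : Fin d) :
    cf c X (Y + Z) a = cf c X Y a + cf c X Z a := by
  unfold cf
  rw [Matrix.mul_add, Matrix.trace_add]
  ring

theorem cf_sum' {N d : ℕ} (c : ℝ) (X : Fin d → MT N) {ι : Type} (s : Finset ι) (y : ι → ℂ) (Y : ι → MT N)
    (a : Fin d) : cf c X (∑ i ∈ s, y i • Y i) a = ∑ i ∈ s, y i * cf c X (Y i) a := by
  classical
  induction s using Finset.induction_on with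
  | empty =>
    unfold cf
    simp
  | insert i s hi ih => rw [Finset.sum_insert hi, Finset.sum_insert hi, cf_add, cf_smul, ih]

/-- `Y` is a combination of the frame -/
def Sp {N d : ℕ} (c : ℝ) (X : Fin d → MT N) (Y : MT N) : Prop := Y = ∑ a, cf c X Y a • X a

theorem sp_add {N d : ℕ} {c : ℝ} {X : Fin d → MT N} {Y Z : MT N} (hY : Sp c X Y) (hZ : Sp c X Z) :
    Sp c X (Y + Z) := by
  unfold Sp at *
  conv_lhs => rw [hY, hZ]
  rw [← Finset.sum_add_distrib]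
  exact Finset.sum_congr rfl fun a _ => by rw [cf_add, add_smul]

theorem sp_smul {N d : ℕ} {c : ℝ} {X : Fin d → MT N} {Y : MT N} (s : ℂ) (hY : Sp c X Y) : Sp c X (s • Y) := by
  unfold Sp at *
  conv_lhs => rw [hY]
  rw [Finset.smul_sum]
  exact Finset.sum_congr rfl fun a _ => by rw [cf_smul, smul_smul]

section

variable {N d r : ℕ} {H : Subgroup (SU N)} {c : ℝ} {X : Fin d → MT N} {Φ : RT r}
  {B : Matrix (Fin r) (Fin r) ℤ} {Hc : Fin r → MT N} {E : (Fin r → ℤ) × (Fin r → ℤ) → MT N}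

theorem sp_yb (hF : FrameH H c X) (hD : LRD H Φ B Hc E) (j : JX Φ) : Sp c X (yb Φ Hc E j) := by
  rcases j with j | p
  · have h1 : yb Φ Hc E (Sum.inl j) = (-Complex.I) • (Complex.I • Hc j) := by
      rw [smul_smul]
      have : -Complex.I * Complex.I = 1 := by
        rw [neg_mul, Complex.I_mul_I, neg_neg]
      rw [this, one_smul]
      rfl
    rw [h1]
    exact sp_smul _ (mem_cf hF (hD.mem j)).1
  · have h1 : yb Φ Hc E (Sum.inr p) = (1 / 2 : ℂ) • ((E p.1 - (E p.1)ᴴ) + (-Complex.I) •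
        (Complex.I • (E p.1 + (E p.1)ᴴ))) := by
      rw [smul_smul]
      have : -Complex.I * Complex.I = 1 := by
        rw [neg_mul, Complex.I_mul_I, neg_neg]
      rw [this, one_smul]
      have h2 : (E p.1 - (E p.1)ᴴ) + (E p.1 + (E p.1)ᴴ) = (2 : ℂ) • E p.1 := by
        rw [two_smul]
        abel
      rw [h2, smul_smul]
      norm_num
      rfl
    rw [h1]
    exact sp_smul _ (sp_add (mem_cf hF (hD.emem p.1 p.2).1).1 (sp_smul _ (mem_cf hF (hD.emem p.1 p.2).2).1))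

theorem ex_Q (hW : WFF Φ B) (hD : LRD H Φ B Hc E) {Y : MT N} (hY : Y ∈ lie H) :
    ∃ q : JX Φ → ℂ, Y = ∑ j, q j • yb Φ Hc E j := by
  classical
  obtain ⟨x, z, h⟩ := hD.span Y hY
  refine ⟨fun j => Sum.elim (fun j => (x j : ℂ) * Complex.I)
    (fun p : {p // p ∈ Φ} => if p.1 ∈ pos Φ then z p.1 else -conj (z (-p.1.1, -p.1.2))) j, ?_⟩
  rw [Fintype.sum_sum_type]
  have h1 : ∑ p : {p // p ∈ Φ}, (Sum.elim (fun j => (x j : ℂ) * Complex.I)
      (fun p : {p // p ∈ Φ} => if p.1 ∈ pos Φ then z p.1 else -conj (z (-p.1.1, -p.1.2))) (Sum.inr p)) •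
        yb Φ Hc E (Sum.inr p) = ∑ p ∈ Φ, (if p ∈ pos Φ then z p else -conj (z (-p.1, -p.2))) • E p := by
    rw [← Finset.sum_coe_sort Φ]
    rfl
  rw [h1, sum_roots hW]
  conv_lhs => rw [h]
  congr 1
  refine Finset.sum_congr rfl fun p hp => ?_
  have hpΦ : p ∈ Φ := (hW.ppos p hp).1
  have h2 : ((-p.1, -p.2) : (Fin r → ℤ) × (Fin r → ℤ)) ∉ pos Φ := (hW.dich p hpΦ).1 hp
  rw [if_pos hp, if_neg h2, hD.star p hpΦ]
  simp only [neg_neg]
  rw [neg_smul, ← sub_eq_add_neg]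

theorem t_yb (hT : TAF H Φ Hc E) (hD : LRD H Φ B Hc E) (θ : Fin r → ℝ) (j : JX Φ) :
    (ta Hc θ).1 * yb Φ Hc E j * (ta Hc θ).1ᴴ = ev Φ θ j • yb Φ Hc E j := by
  rcases j with j | p
  · have h1 : Commute (Hc j) (ta Hc θ).1 := by
      rw [hT.coe]
      refine Commute.exp_right ?_
      unfold hx
      refine Commute.sum_right _ _ _ fun i _ => ?_
      refine Commute.smul_right ?_ _
      exact hD.comm j i
    have h2 : (ta Hc θ).1 * (ta Hc θ).1ᴴ = 1 := gl (⟨ta Hc θ, hT.mem θ⟩ : H)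
    have h3 : yb Φ Hc E (Sum.inl j) = Hc j := rfl
    have h4 : ev Φ θ (Sum.inl j) = 1 := rfl
    rw [h3, h4, one_smul, ← h1.eq, Matrix.mul_assoc, h2, Matrix.mul_one]
  · exact hT.Ade p.1 p.2 θ

theorem det_tor (hL : LIF H) (hW : WFF Φ B) (hT : TAF H Φ Hc E) (hD : LRD H Φ B Hc E) (hF : FrameH H c X)
    (hd : d = 2 * (pos Φ).card + r) (g : H) (θ : Fin r → ℝ) (hg : g.1 = ta Hc θ) (ρ : ℝ) :
    ((1 + ρ) • (1 : Matrix (Fin d) (Fin d) ℝ) - am c X g).det =
      ρ ^ r * ∏ p ∈ pos Φ, (ρ ^ 2 + (1 + ρ) * ‖1 - eu (dz p.1 θ)‖ ^ 2) := by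
  classical
  set P : Matrix (Fin d) (JX Φ) ℂ := Matrix.of fun a j => cf c X (yb Φ Hc E j) a with hP
  choose q hq using fun a : Fin d => ex_Q hW hD (hF.mem a)
  set Q : Matrix (JX Φ) (Fin d) ℂ := Matrix.of fun j a => q a j with hQ
  have hPQ : P * Q = 1 := by
    ext a b
    rw [Matrix.mul_apply]
    have h1 : cf c X (X b) a = ∑ j, P a j * Q j b := by
      conv_lhs => rw [hq b]
      rw [cf_sum']
      refine Finset.sum_congr rfl fun j _ => ?_
      rw [mul_comm]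
      rfl
    rw [← h1, Matrix.one_apply]
    exact hF.orth a b
  have hcard : Fintype.card (Fin d) = Fintype.card (JX Φ) := by
    rw [Fintype.card_sum, Fintype.card_fin, Fintype.card_fin, Fintype.card_coe, card_roots hW, hd]
    ring
  have hQP : Q * P = 1 := (Matrix.mul_eq_one_comm_of_equiv (Fintype.card_eq.mp hcard).some).1 hPQ
  set D : Matrix (JX Φ) (JX Φ) ℂ := Matrix.diagonal (ev Φ θ) with hDg
  set U : Matrix (Fin d) (Fin d) ℂ := (am c X g).map (Complex.ofRealHom : ℝ →+* ℂ) with hU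
  have hUP : U * P = P * D := by
    ext a j
    rw [hDg, Matrix.mul_diagonal, Matrix.mul_apply]
    have h1 := t_yb hT hD θ j
    have h2 := sp_yb hF hD j
    have h3 : cf c X ((ta Hc θ).1 * yb Φ Hc E j * (ta Hc θ).1ᴴ) a = ev Φ θ j * P a j := by
      rw [h1, cf_smul]
      rfl
    have h4 : cf c X ((ta Hc θ).1 * yb Φ Hc E j * (ta Hc θ).1ᴴ) a = ∑ b, P b j * cf c X (g.1.1 * X b * g.1.1ᴴ) a := by
      rw [← cf_sum' c X Finset.univ (fun b => P b j) (fun b => g.1.1 * X b * g.1.1ᴴ) a]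
      congr 1
      unfold Sp at h2
      rw [hg]
      conv_lhs => rw [h2]
      rw [Finset.mul_sum, Finset.sum_mul]
      refine Finset.sum_congr rfl fun b _ => ?_
      rw [Matrix.mul_smul, Matrix.smul_mul]
      rfl
    rw [mul_comm (P a j), ← h3, h4]
    refine Finset.sum_congr rfl fun b _ => ?_
    rw [mul_comm]
    congr 1
    exact ((mem_cf hF (hL.ad g.1 g.2 (X b) (hF.mem b))).2 a).symm
  have h1 : ((((1 + ρ) • (1 : Matrix (Fin d) (Fin d) ℝ) - am c X g).det : ℝ) : ℂ) =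
      ((((1 + ρ : ℝ) : ℂ)) • (1 : Matrix (Fin d) (Fin d) ℂ) - U).det := by
    have h2 := RingHom.map_det Complex.ofRealHom ((1 + ρ) • (1 : Matrix (Fin d) (Fin d) ℝ) - am c X g)
    have h3 : Complex.ofRealHom.mapMatrix ((1 + ρ) • (1 : Matrix (Fin d) (Fin d) ℝ) - am c X g) =
        ((((1 + ρ : ℝ) : ℂ)) • (1 : Matrix (Fin d) (Fin d) ℂ) - U) := by
      ext a b
      by_cases hab : a = b <;> simp [hU, hab]
    rw [h3] at h2
    exact h2
  have h2 : ((((1 + ρ : ℝ) : ℂ)) • (1 : Matrix (Fin d) (Fin d) ℂ) - U) =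
      P * ((((1 + ρ : ℝ) : ℂ)) • (1 : Matrix (JX Φ) (JX Φ) ℂ) - D) * Q := by
    rw [Matrix.mul_sub, Matrix.sub_mul, Matrix.mul_smul, Matrix.mul_one, Matrix.smul_mul, hPQ, ← hUP,
      Matrix.mul_assoc, hPQ, Matrix.mul_one]
  have h3 : ((((1 + ρ : ℝ) : ℂ)) • (1 : Matrix (JX Φ) (JX Φ) ℂ) - D) =
      Matrix.diagonal fun j => ((1 + ρ : ℝ) : ℂ) - ev Φ θ j := by
    rw [hDg, Matrix.smul_one_eq_diagonal, Matrix.diagonal_sub]
  have h4 : ((((1 + ρ) • (1 : Matrix (Fin d) (Fin d) ℝ) - am c X g).det : ℝ) : ℂ) =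
      ((ρ ^ r * ∏ p ∈ pos Φ, (ρ ^ 2 + (1 + ρ) * ‖1 - eu (dz p.1 θ)‖ ^ 2) : ℝ) : ℂ) := by
    rw [h1, h2, Matrix.det_conj_of_mul_eq_one hPQ hQP, h3, Matrix.det_diagonal, Fintype.prod_sum_type]
    have h5 : ∏ p : {p // p ∈ Φ}, (((1 + ρ : ℝ) : ℂ) - ev Φ θ (Sum.inr p)) =
        ∏ p ∈ Φ, (((1 + ρ : ℝ) : ℂ) - eu (dz p.1 θ)) := by
      rw [← Finset.prod_coe_sort Φ]
      rfl
    rw [h5, prod_roots hW, Complex.ofReal_mul, Complex.ofReal_prod]
    congr 1
    · simp [ev]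
    · refine Finset.prod_congr rfl fun p _ => ?_
      rw [← eu_sq]
      congr 3
      unfold dz
      simp
  exact_mod_cast h4

end

end DET

open DET in
theorem t_DET : M_DET := by
  intro hLIEB hWFAC hTAUF hADFR hPSF N H r Φ B Hc E c k d hC
  obtain ⟨X, hF⟩ := hC.frame
  have hL := hLIEB N H hC.closed
  have hW := hWFAC r Φ B hC.lrd.ird
  have hT := hTAUF N H r Φ B Hc E hC.closed hC.lrd
  have hd := (hADFR N H r Φ B Hc E c k d X hC.closed hC.lrd hC.kc hF).1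
  obtain ⟨C₀, -, hPS⟩ := hPSF N H r Φ B Hc E c k d hC
  obtain ⟨K, hK, hnear⟩ := am_near hF
  refine ⟨d.factorial * (1 + d * d * K) ^ d, ?_, ?_⟩
  · have h1 : (1 : ℝ) ≤ d.factorial := by exact_mod_cast Nat.one_le_iff_ne_zero.2 (Nat.factorial_ne_zero d)
    have h2 : (1 : ℝ) ≤ (1 + d * d * K) ^ d := one_le_pow₀ (by
      have : (0 : ℝ) ≤ d * d * K := by positivity
      linarith)
    nlinarith
  intro ρ hρ hρ1
  refine ⟨fun g => ((1 + ρ) • (1 : Matrix (Fin d) (Fin d) ℝ) - am c X g).det / ρ ^ r, ?_, ?_, ?_, ?_⟩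
  · exact (Continuous.matrix_det (continuous_const.sub am_cont)).div_const _
  · intro θ
    have h1 := det_tor hL hW hT hC.lrd hF hd (tt H Hc θ) θ (hPS.tcoe θ) ρ
    show _ / _ = _
    rw [h1, mul_div_cancel_left₀ _ (pow_ne_zero _ hρ.ne')]
  · intro g h
    show _ / _ = _ / _
    congr 1
    have h1 : am c X h * am c X h⁻¹ = 1 := by rw [← am_mul hL hF, mul_inv_cancel, am_one hF]
    have h2 : am c X h⁻¹ * am c X h = 1 := by rw [← am_mul hL hF, inv_mul_cancel, am_one hF]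
    have h3 : (1 + ρ) • (1 : Matrix (Fin d) (Fin d) ℝ) - am c X (h * g * h⁻¹) =
        am c X h * ((1 + ρ) • (1 : Matrix (Fin d) (Fin d) ℝ) - am c X g) * am c X h⁻¹ := by
      rw [am_mul hL hF, am_mul hL hF, Matrix.mul_sub, Matrix.sub_mul, Matrix.mul_smul, Matrix.mul_one,
        Matrix.smul_mul, h1]
    rw [h3, Matrix.det_conj_of_mul_eq_one h1 h2]
  · intro g g' hp
    show _ / _ ≤ _ * (_ / _)
    have h1 : am c X g' = am c X g * am c X (g⁻¹ * g') := by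
      rw [← am_mul hL hF, mul_inv_cancel_left]
    have h2 := cmp (am_orth hL hF g) ρ K hρ (hnear ρ (g⁻¹ * g') hρ hρ1 hp)
    rw [← h1] at h2
    rw [← mul_div_assoc]
    exact div_le_div_of_nonneg_right h2 (by positivity)

end

end STZ3
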