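import Pool.Agent.STZ3.StD3

/-!
# The groups `SU(3)`, `PSU(3)`: module DGC (helper76)

The lemmas before the main theorem are those of module DGB (helper52), for the chain packets.
-/

namespace STZ3

open STZ LGR MeasureTheory Matrix Filter

open scoped ComplexConjugate Matrix Real Topology

noncomputable section

namespace DGC

/-- bounded measurable functions -/
def BM {α : Type} [MeasurableSpace α] (f : α → ℂ) : Prop := Measurable f ∧ ∃ B : ℝ, ∀ z, ‖f z‖ ≤ B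

theorem BM.int {α : Type} [MeasurableSpace α] {f : α → ℂ} (h : BM f) (μ : Measure α) [IsFiniteMeasure μ] :
    Integrable f μ := by
  obtain ⟨hm, B, hB⟩ := h
  exact Integrable.of_bound hm.aestronglyMeasurable B (ae_of_all _ hB)

theorem sum_int {α : Type} [MeasurableSpace α] {ι : Type} (s : Finset ι) (μ : Measure α) [IsFiniteMeasure μ]
    (f : ι → α → ℂ) (hf : ∀ i ∈ s, BM (f i)) : ∫ z, (∑ i ∈ s, f i z) ∂μ = ∑ i ∈ s, ∫ z, f i z ∂μ :=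
  integral_finsetSum s fun i hi => (hf i hi).int μ

/-- the inner integral -/
def JJ {α β : Type} [MeasurableSpace α] [MeasurableSpace β] (ν : Measure β) (f : α × β → ℂ) (a : α) : ℂ :=
  ∫ b, f (a, b) ∂ν

theorem BM.inner {α β : Type} [MeasurableSpace α] [MeasurableSpace β] {f : α × β → ℂ} (h : BM f)
    (ν : Measure β) [IsFiniteMeasure ν] : BM (JJ ν f) := by
  obtain ⟨hm, B, hB⟩ := h
  refine ⟨?_, B * ν.real Set.univ, fun a => ?_⟩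
  · exact (hm.stronglyMeasurable.integral_prod_right' (ν := ν)).measurable
  · exact norm_integral_le_of_norm_le_const (ae_of_all _ fun b => hB _)

theorem JJ_sum {α β ι : Type} [MeasurableSpace α] [MeasurableSpace β] (ν : Measure β) [IsFiniteMeasure ν]
    (s : Finset ι) (f : ι → α × β → ℂ) (hf : ∀ i ∈ s, BM (f i)) :
    JJ ν (fun z => ∑ i ∈ s, f i z) = fun a => ∑ i ∈ s, JJ ν (f i) a := by
  funext a
  unfold JJ
  refine sum_int s ν (fun i b => f i (a, b)) fun i hi => ?_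
  obtain ⟨hm, B, hB⟩ := hf i hi
  exact ⟨hm.comp measurable_prodMk_left, B, fun z => hB _⟩

instance : IsFiniteMeasure ((volume : Measure (Fin 2 → ℝ)).restrict (Set.Icc 0 1)) :=
  ⟨by rw [Measure.restrict_apply_univ]; exact isCompact_Icc.measure_lt_top⟩

/-- the sixfold integral -/
theorem nest_sum {G ι : Type} [MeasurableSpace G] (μ : Measure G) [IsFiniteMeasure μ] (s : Finset ι)
    (f : ι → ((((G × G) × ℝ) × ℝ) × (Fin 2 → ℝ)) × (Fin 2 → ℝ) → ℂ) (hf : ∀ i ∈ s, BM (f i)) :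
    ∫ h, ∫ g, (∫ t in (0 : ℝ)..1, ∫ s' in (0 : ℝ)..1, ∫ φ in Set.Icc (0 : Fin 2 → ℝ) 1,
      ∫ θ in Set.Icc (0 : Fin 2 → ℝ) 1, ∑ i ∈ s, f i (((((h, g), t), s'), φ), θ)) ∂μ ∂μ =
    ∑ i ∈ s, ∫ h, ∫ g, (∫ t in (0 : ℝ)..1, ∫ s' in (0 : ℝ)..1, ∫ φ in Set.Icc (0 : Fin 2 → ℝ) 1,
      ∫ θ in Set.Icc (0 : Fin 2 → ℝ) 1, f i (((((h, g), t), s'), φ), θ)) ∂μ ∂μ := by
  simp_rw [intervalIntegral.integral_of_le (zero_le_one (α := ℝ))]
  set P : Measure (Fin 2 → ℝ) := (volume : Measure (Fin 2 → ℝ)).restrict (Set.Icc 0 1) with hP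
  set l : Measure ℝ := (volume : Measure ℝ).restrict (Set.Ioc 0 1) with hl
  have h1 : ∀ i ∈ s, BM (JJ P (f i)) := fun i hi => (hf i hi).inner P
  have h2 : ∀ i ∈ s, BM (JJ P (JJ P (f i))) := fun i hi => (h1 i hi).inner P
  have h3 : ∀ i ∈ s, BM (JJ l (JJ P (JJ P (f i)))) := fun i hi => (h2 i hi).inner l
  have h4 : ∀ i ∈ s, BM (JJ l (JJ l (JJ P (JJ P (f i))))) := fun i hi => (h3 i hi).inner l
  have h5 : ∀ i ∈ s, BM (JJ μ (JJ l (JJ l (JJ P (JJ P (f i)))))) := fun i hi => (h4 i hi).inner μ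
  change ∫ h, JJ μ (JJ l (JJ l (JJ P (JJ P fun z => ∑ i ∈ s, f i z)))) h ∂μ =
    ∑ i ∈ s, ∫ h, JJ μ (JJ l (JJ l (JJ P (JJ P (f i))))) h ∂μ
  rw [JJ_sum P s f hf, JJ_sum P s _ h1, JJ_sum l s _ h2, JJ_sum l s _ h3, JJ_sum μ s _ h4, sum_int s μ _ h5]

theorem qrt {x : ℝ} (hx : 0 ≤ x) : x ^ ((1 : ℝ) / 4) = √(√x) := by
  rw [Real.sqrt_eq_rpow, Real.sqrt_eq_rpow, ← Real.rpow_mul hx]
  norm_num

theorem qrt_mul {x y : ℝ} (hx : 0 ≤ x) : √(√(x * y)) = √(√x) * √(√y) := by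
  rw [Real.sqrt_mul hx, Real.sqrt_mul (Real.sqrt_nonneg _)]

theorem qrt_sq {x : ℝ} : √(√x) * √(√x) = √x := Real.mul_self_sqrt (Real.sqrt_nonneg _)

/-- the numbers -/
theorem num {Qv Sv Jv LV LW s₀ j₀ l₀ P P₁ P₃ m : ℝ} (hQ : 0 < Qv) (hS0 : 0 ≤ Sv) (hs0 : 0 ≤ s₀) (hj0 : 0 ≤ j₀)
    (hl0 : 0 ≤ l₀) (hP : 0 < P) (hP₁ : 0 ≤ P₁) (hP₃ : 0 ≤ P₃) (hm : 0 ≤ m) (hS : Sv ≤ s₀ * Qv)
    (hJ : Jv ≤ j₀ * Qv * (1 / P) ^ 2 * m ^ 2) (hLV0 : 0 ≤ LV) (hLW0 : 0 ≤ LW) (hLV : LV ≤ l₀ * P₁ * m)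
    (hLW : LW ≤ l₀ * P₃ * m) :
    1 / Qv * (√Jv * ((Qv * LV) ^ ((1 : ℝ) / 4) * (Sv * LW) ^ ((1 : ℝ) / 4))) ≤
      √j₀ * √l₀ * s₀ ^ ((1 : ℝ) / 4) * (1 / P) * (√(√P₁) * √(√P₃)) * m ^ ((3 : ℝ) / 2) := by
  have e1 : √Jv ≤ √j₀ * √Qv * (1 / P) * m := by
    calc √Jv ≤ √(j₀ * Qv * (1 / P) ^ 2 * m ^ 2) := Real.sqrt_le_sqrt hJ
      _ = √j₀ * √Qv * (1 / P) * m := by
          rw [Real.sqrt_mul (by positivity), Real.sqrt_mul (by positivity), Real.sqrt_mul hj0,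
            Real.sqrt_sq (by positivity), Real.sqrt_sq hm]
  have e2 : (Qv * LV) ^ ((1 : ℝ) / 4) ≤ √(√Qv) * (√(√l₀) * √(√P₁) * √(√m)) := by
    have h : Qv * LV ≤ Qv * (l₀ * P₁ * m) := mul_le_mul_of_nonneg_left hLV hQ.le
    rw [qrt (by positivity)]
    refine (Real.sqrt_le_sqrt (Real.sqrt_le_sqrt h)).trans (le_of_eq ?_)
    rw [qrt_mul hQ.le, qrt_mul (by positivity), qrt_mul hl0]
  have e3 : (Sv * LW) ^ ((1 : ℝ) / 4) ≤ √(√s₀) * √(√Qv) * (√(√l₀) * √(√P₃) * √(√m)) := by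
    have h : Sv * LW ≤ s₀ * Qv * (l₀ * P₃ * m) := mul_le_mul hS hLW hLW0 (by positivity)
    rw [qrt (by positivity)]
    refine (Real.sqrt_le_sqrt (Real.sqrt_le_sqrt h)).trans (le_of_eq ?_)
    rw [qrt_mul (by positivity), qrt_mul hs0, qrt_mul (by positivity), qrt_mul hl0]
  have e5 : m * √m = m ^ ((3 : ℝ) / 2) := by
    rw [Real.sqrt_eq_rpow]
    nth_rewrite 1 [← Real.rpow_one m]
    rw [← Real.rpow_add_of_nonneg hm (by norm_num) (by norm_num)]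
    norm_num
  have e6 : √Qv * √Qv = Qv := Real.mul_self_sqrt hQ.le
  calc 1 / Qv * (√Jv * ((Qv * LV) ^ ((1 : ℝ) / 4) * (Sv * LW) ^ ((1 : ℝ) / 4)))
      ≤ 1 / Qv * (√j₀ * √Qv * (1 / P) * m * (√(√Qv) * (√(√l₀) * √(√P₁) * √(√m)) *
          (√(√s₀) * √(√Qv) * (√(√l₀) * √(√P₃) * √(√m))))) := by
        refine mul_le_mul_of_nonneg_left ?_ (by positivity)
        exact mul_le_mul e1 (mul_le_mul e2 e3 (by positivity) (by positivity)) (by positivity) (by positivity)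
    _ = 1 / Qv * (√Qv * (√(√Qv) * √(√Qv))) * √j₀ * (√(√l₀) * √(√l₀)) * √(√s₀) * (1 / P) *
          (√(√P₁) * √(√P₃)) * (m * (√(√m) * √(√m))) := by ring
    _ = _ := by
        rw [qrt_sq, qrt_sq, qrt_sq, e6, e5, qrt hs0, one_div, inv_mul_cancel₀ hQ.ne', one_mul]

/-- the two `L²` factors -/
theorem two {A P₁ P₃ L : ℝ} (hA : 0 ≤ A) (h₁ : A * √P₁ ≤ L) (h₃ : A * √P₃ ≤ L) :
    A * (√(√P₁) * √(√P₃)) ≤ L := by
  have hL : 0 ≤ L := (mul_nonneg hA (Real.sqrt_nonneg _)).trans h₁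
  have a1 : √A * √(√P₁) ≤ √L := by
    rw [← Real.sqrt_mul hA]
    exact Real.sqrt_le_sqrt h₁
  have a3 : √A * √(√P₃) ≤ √L := by
    rw [← Real.sqrt_mul hA]
    exact Real.sqrt_le_sqrt h₃
  calc A * (√(√P₁) * √(√P₃)) = (√A * √A) * (√(√P₁) * √(√P₃)) := by rw [Real.mul_self_sqrt hA]
    _ = (√A * √(√P₁)) * (√A * √(√P₃)) := by ring
    _ ≤ √L * √L := mul_le_mul a1 a3 (by positivity) (by positivity)
    _ = L := Real.mul_self_sqrt hL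

/-- the powers of `X` -/
theorem pw {J : ℕ} (a b : ℝ) : (2 : ℝ) ^ (a * J) * (2 : ℝ) ^ (b * J) = (2 : ℝ) ^ ((a + b) * J) := by
  rw [← Real.rpow_add (by norm_num)]
  ring_nf

theorem Xpow (J : ℕ) (ε : ℝ) : (((2 ^ J : ℕ) : ℝ)) ^ ε = (2 : ℝ) ^ (ε * J) := by
  push_cast
  rw [← Real.rpow_natCast, ← Real.rpow_mul (by norm_num)]
  ring_nf

/-! ### the kernel -/

variable {r : ℕ} {Φ : RT r}

theorem km_cont {a : ℝ → (Fin r → ℤ) → ℂ} (T : Finset (Fin r → ℤ)) (Ψ : (Fin r → ℤ) → ℝ)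
    (ha : ∀ l, Continuous fun τ => a τ l) : Continuous fun z : ℝ × (Fin r → ℝ) => km a T Ψ z.1 z.2 := by
  unfold km
  refine continuous_finsetSum _ fun l _ => ?_
  refine ((((ha l).comp continuous_fst).mul continuous_const).mul ?_)
  unfold eu dz
  fun_prop

theorem eu_int (x : ℝ) (n : ℤ) : eu (x + n) = eu x := by
  unfold eu
  have : (2 * π * ((x + n : ℝ) : ℂ) * Complex.I : ℂ) = 2 * π * (x : ℂ) * Complex.I + n * (2 * π * Complex.I) := by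
    push_cast
    ring
  rw [this, Complex.exp_add, Complex.exp_int_mul_two_pi_mul_I, mul_one]

theorem km_per {a : ℝ → (Fin r → ℤ) → ℂ} (T : Finset (Fin r → ℤ)) (Ψ : (Fin r → ℤ) → ℝ) (τ : ℝ)
    (θ : Fin r → ℝ) (n : Fin r → ℤ) : km a T Ψ τ (θ + fun i => (n i : ℝ)) = km a T Ψ τ θ := by
  unfold km
  refine Finset.sum_congr rfl fun l _ => ?_
  congr 1
  have : dz l (θ + fun i => (n i : ℝ)) = dz l θ + ((∑ i, l i * n i : ℤ) : ℝ) := by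
    unfold dz
    push_cast
    rw [← Finset.sum_add_distrib]
    refine Finset.sum_congr rfl fun i _ => ?_
    simp only [Pi.add_apply]
    ring
  rw [this, eu_int]

/-- the frequencies which occur -/
theorem freq (Φ : RT r) (m : ℕ) : ∃ C : ℝ, 0 ≤ C ∧ ∀ (J : ℕ) (q : (Fin r → ℤ) → ℝ), QH Φ (2 ^ J) q →
    ∀ k ∈ kB Φ (2 * m ^ 2 * 2 ^ J + 1), ∀ l : Fin r → ℤ, q (l + 1 - rs (pos Φ) k) ≠ 0 →
    ∀ p : {p // p ∈ pos Φ}, |((p.1.2 ⬝ᵥ l : ℤ) : ℝ)| ≤ C * 2 ^ J := by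
  set A : ℝ := ∑ p : {p // p ∈ pos Φ}, ∑ p' : {p // p ∈ pos Φ}, |((p.1.2 ⬝ᵥ p'.1.1 : ℤ) : ℝ)| with hA
  set A1 : ℝ := ∑ p : {p // p ∈ pos Φ}, |((p.1.2 ⬝ᵥ (1 : Fin r → ℤ) : ℤ) : ℝ)| with hA1
  have hA0 : 0 ≤ A := Finset.sum_nonneg fun _ _ => Finset.sum_nonneg fun _ _ => abs_nonneg _
  have hA10 : 0 ≤ A1 := Finset.sum_nonneg fun _ _ => abs_nonneg _
  refine ⟨1 + A1 + A * (2 * (m : ℝ) ^ 2 + 1), add_nonneg (add_nonneg zero_le_one hA10)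
    (mul_nonneg hA0 (by positivity)), fun J q hq k hk l hl p => ?_⟩
  have h1 := hq.supp _ hl p.1 p.2
  have h1' : |((p.1.2 ⬝ᵥ (l + 1 - rs (pos Φ) k) : ℤ) : ℝ)| ≤ 2 ^ J := by
    have h0 := (Int.cast_le (R := ℝ)).2 h1
    rw [Int.cast_abs, Int.cast_natCast, Nat.cast_pow, Nat.cast_ofNat] at h0
    exact h0
  have h2 : p.1.2 ⬝ᵥ l = p.1.2 ⬝ᵥ (l + 1 - rs (pos Φ) k) - p.1.2 ⬝ᵥ (1 : Fin r → ℤ) +
      ∑ p', k p' * (p.1.2 ⬝ᵥ p'.1.1) := by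
    have h3 : p.1.2 ⬝ᵥ rs (pos Φ) k = ∑ p', k p' * (p.1.2 ⬝ᵥ p'.1.1) := by
      unfold rs
      rw [dotProduct_sum]
      refine Finset.sum_congr rfl fun p' _ => ?_
      rw [dotProduct_smul, smul_eq_mul]
    rw [dotProduct_sub, dotProduct_add, h3]
    ring
  have hJ1 : (1 : ℝ) ≤ 2 ^ J := one_le_pow₀ (by norm_num)
  have h4 : |((∑ p', k p' * (p.1.2 ⬝ᵥ p'.1.1) : ℤ) : ℝ)| ≤ A * ((2 * (m : ℝ) ^ 2 + 1) * 2 ^ J) := by
    rw [Int.cast_sum]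
    refine (Finset.abs_sum_le_sum_abs _ _).trans ?_
    have h5 : ∀ p' : {p // p ∈ pos Φ}, |((k p' * (p.1.2 ⬝ᵥ p'.1.1) : ℤ) : ℝ)| ≤
        |((p.1.2 ⬝ᵥ p'.1.1 : ℤ) : ℝ)| * ((2 * (m : ℝ) ^ 2 + 1) * 2 ^ J) := by
      intro p'
      rw [Int.cast_mul, abs_mul, mul_comm]
      refine mul_le_mul_of_nonneg_left ?_ (abs_nonneg _)
      have h6 := Fintype.mem_piFinset.1 hk p'
      rw [Finset.mem_Icc] at h6
      have h7 : |(k p' : ℝ)| ≤ ((2 * m ^ 2 * 2 ^ J + 1 : ℕ) : ℝ) := by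
        rw [abs_le]
        constructor
        · have := h6.1
          have h8 : ((-(((2 * m ^ 2 * 2 ^ J + 1 : ℕ) : ℤ)) : ℤ) : ℝ) ≤ (k p' : ℝ) := by exact_mod_cast this
          push_cast at h8 ⊢
          linarith
        · exact_mod_cast h6.2
      refine h7.trans ?_
      push_cast
      nlinarith
    calc ∑ p' : {p // p ∈ pos Φ}, |((k p' * (p.1.2 ⬝ᵥ p'.1.1) : ℤ) : ℝ)|
        ≤ ∑ p' : {p // p ∈ pos Φ}, |((p.1.2 ⬝ᵥ p'.1.1 : ℤ) : ℝ)| * ((2 * (m : ℝ) ^ 2 + 1) * 2 ^ J) :=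
          Finset.sum_le_sum fun p' _ => h5 p'
      _ = (∑ p' : {p // p ∈ pos Φ}, |((p.1.2 ⬝ᵥ p'.1.1 : ℤ) : ℝ)|) * ((2 * (m : ℝ) ^ 2 + 1) * 2 ^ J) := by
          rw [Finset.sum_mul]
      _ ≤ A * ((2 * (m : ℝ) ^ 2 + 1) * 2 ^ J) := by
          refine mul_le_mul_of_nonneg_right ?_ (by positivity)
          exact Finset.single_le_sum (f := fun p : {p // p ∈ pos Φ} =>
            ∑ p' : {p // p ∈ pos Φ}, |((p.1.2 ⬝ᵥ p'.1.1 : ℤ) : ℝ)|)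
            (fun _ _ => Finset.sum_nonneg fun _ _ => abs_nonneg _) (Finset.mem_univ p)
  have h9 : |((p.1.2 ⬝ᵥ (1 : Fin r → ℤ) : ℤ) : ℝ)| ≤ A1 :=
    Finset.single_le_sum (f := fun p : {p // p ∈ pos Φ} => |((p.1.2 ⬝ᵥ (1 : Fin r → ℤ) : ℤ) : ℝ)|)
      (fun _ _ => abs_nonneg _) (Finset.mem_univ p)
  rw [h2, Int.cast_add, Int.cast_sub]
  have h10 := abs_add_le (((p.1.2 ⬝ᵥ (l + 1 - rs (pos Φ) k) : ℤ) : ℝ) - ((p.1.2 ⬝ᵥ (1 : Fin r → ℤ) : ℤ) : ℝ))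
    ((∑ p' : {p // p ∈ pos Φ}, k p' * (p.1.2 ⬝ᵥ p'.1.1) : ℤ) : ℝ)
  have h11 := abs_sub (((p.1.2 ⬝ᵥ (l + 1 - rs (pos Φ) k) : ℤ) : ℝ)) ((p.1.2 ⬝ᵥ (1 : Fin r → ℤ) : ℤ) : ℝ)
  have h12 : A1 ≤ A1 * 2 ^ J := le_mul_of_one_le_right hA10 hJ1
  calc _ ≤ _ := h10
    _ ≤ 2 ^ J + A1 * 2 ^ J + A * ((2 * (m : ℝ) ^ 2 + 1) * 2 ^ J) := by linarith
    _ = _ := by ring

/-! ### the error term -/

section Err

variable {G : Type} [Group G] [TopologicalSpace G] [IsTopologicalGroup G] [CompactSpace G]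
  [SecondCountableTopology G] [MeasurableSpace G] [BorelSpace G] (μ : Measure G)
  [IsProbabilityMeasure μ]

instance : IsProbabilityMeasure ((volume : Measure (Fin 2 → ℝ)).restrict (Set.Icc 0 1)) :=
  ⟨by
    rw [Measure.restrict_apply_univ, Real.volume_Icc_pi]
    simp⟩

instance : IsProbabilityMeasure ((volume : Measure ℝ).restrict (Set.Ioc 0 1)) :=
  ⟨by
    rw [Measure.restrict_apply_univ, Real.volume_Ioc]
    simp⟩

/-- the error term -/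
theorem err (τ : (Fin 2 → ℝ) → G) {V W : ℝ → G → G → ℂ} (hV : J3 V) {b B : ℝ}
    (hVb : ∀ t h g, ‖V t h g‖ ≤ b) (hWb : ∀ t h g, ‖W t h g‖ ≤ B) (L : ℝ → ℝ)
    (hL : Integrable L ((volume : Measure ℝ).restrict (Set.Ioc 0 1)))
    (hVL : ∀ s, ∫ h, ∫ g, ‖V s h g‖ ∂μ ∂μ ≤ L s) :
    ∫ t in (0 : ℝ)..1, ∫ s in (0 : ℝ)..1, ∫ h, ∫ g, (∫ θ in Set.Icc (0 : Fin 2 → ℝ) 1,
        ‖V s h g‖ * ‖W t h (g * τ θ)‖) ∂μ ∂μ ≤ B * ∫ s in (0 : ℝ)..1, L s := by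
  have hB : 0 ≤ B := (norm_nonneg _).trans (hWb 0 1 1)
  have hVc : ∀ s, Continuous fun z : G × G => ‖V s z.1 z.2‖ := fun s =>
    (hV.comp (continuous_const.prodMk continuous_id)).norm
  have hVi : ∀ s, Integrable (fun z : G × G => ‖V s z.1 z.2‖) (μ.prod μ) := fun s =>
    Integrable.of_bound (hVc s).measurable.aestronglyMeasurable b (ae_of_all _ fun z => by
      rw [norm_norm]
      exact hVb _ _ _)
  have h1 : ∀ t s h g, ∫ θ in Set.Icc (0 : Fin 2 → ℝ) 1, ‖V s h g‖ * ‖W t h (g * τ θ)‖ ≤ ‖V s h g‖ * B := by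
    intro t s h g
    calc ∫ θ in Set.Icc (0 : Fin 2 → ℝ) 1, ‖V s h g‖ * ‖W t h (g * τ θ)‖
        ≤ ∫ _ in Set.Icc (0 : Fin 2 → ℝ) 1, ‖V s h g‖ * B := by
          refine integral_mono_of_nonneg (ae_of_all _ fun _ => by positivity) (integrable_const _)
            (ae_of_all _ fun θ => ?_)
          exact mul_le_mul_of_nonneg_left (hWb _ _ _) (norm_nonneg _)
      _ = ‖V s h g‖ * B := by
          rw [integral_const]
          simp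
  have h2 : ∀ t s h, ∫ g, (∫ θ in Set.Icc (0 : Fin 2 → ℝ) 1, ‖V s h g‖ * ‖W t h (g * τ θ)‖) ∂μ ≤
      (∫ g, ‖V s h g‖ ∂μ) * B := by
    intro t s h
    rw [← integral_mul_const]
    refine integral_mono_of_nonneg (ae_of_all _ fun _ => integral_nonneg fun _ => by positivity) ?_
      (ae_of_all _ fun g => h1 t s h g)
    have hc : Continuous fun g : G => ‖V s h g‖ := (hVc s).comp (continuous_const.prodMk continuous_id)
    exact (Integrable.of_bound hc.measurable.aestronglyMeasurable b (ae_of_all _ fun z => by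
      rw [norm_norm]
      exact hVb _ _ _)).mul_const _
  have h3 : ∀ t s, ∫ h, ∫ g, (∫ θ in Set.Icc (0 : Fin 2 → ℝ) 1, ‖V s h g‖ * ‖W t h (g * τ θ)‖) ∂μ ∂μ ≤
      L s * B := by
    intro t s
    refine le_trans ?_ (mul_le_mul_of_nonneg_right (hVL s) hB)
    rw [← integral_mul_const]
    refine integral_mono_of_nonneg (ae_of_all _ fun _ => integral_nonneg fun _ =>
      integral_nonneg fun _ => by positivity) ?_ (ae_of_all _ fun h => h2 t s h)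
    exact (hVi s).integral_prod_left.mul_const _
  have h4 : ∀ t, ∫ s in (0 : ℝ)..1, ∫ h, ∫ g, (∫ θ in Set.Icc (0 : Fin 2 → ℝ) 1,
      ‖V s h g‖ * ‖W t h (g * τ θ)‖) ∂μ ∂μ ≤ B * ∫ s in (0 : ℝ)..1, L s := by
    intro t
    rw [intervalIntegral.integral_of_le zero_le_one, intervalIntegral.integral_of_le zero_le_one,
      ← integral_const_mul]
    refine integral_mono_of_nonneg (ae_of_all _ fun _ => integral_nonneg fun _ =>
      integral_nonneg fun _ => integral_nonneg fun _ => by positivity) (hL.const_mul _)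
      (ae_of_all _ fun s => ?_)
    have := h3 t s
    rw [mul_comm] at this
    exact this
  rw [intervalIntegral.integral_of_le zero_le_one]
  calc _ ≤ ∫ _ in Set.Ioc (0 : ℝ) 1, B * ∫ s in (0 : ℝ)..1, L s := by
        refine integral_mono_of_nonneg (ae_of_all _ fun t => ?_) (integrable_const _)
          (ae_of_all _ fun t => h4 t)
        exact intervalIntegral.integral_nonneg zero_le_one fun _ _ => integral_nonneg fun _ =>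
          integral_nonneg fun _ => integral_nonneg fun _ => by positivity
    _ = _ := by
        rw [integral_const]
        simp

/-- the bounded measurable function of six variables -/
theorem six {τ : (Fin 2 → ℝ) → G} (hτ : Continuous τ) {V W : ℝ → G → G → ℂ} (hV : J3 V) (hW : J3 W) {b B : ℝ}
    (hVb : ∀ t h g, ‖V t h g‖ ≤ b) (hWb : ∀ t h g, ‖W t h g‖ ≤ B) {Q S : Set (Fin 2 → ℝ)}
    (hQ : MeasurableSet Q) (hS : MeasurableSet S) {k : ℝ → (Fin 2 → ℝ) → ℂ} {K : ℝ}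
    (hk : Continuous fun z : ℝ × (Fin 2 → ℝ) => k z.1 z.2) (hkb : ∀ t θ, ‖k t θ‖ ≤ K) :
    BM fun z : ((((G × G) × ℝ) × ℝ) × (Fin 2 → ℝ)) × (Fin 2 → ℝ) =>
      k (z.1.1.1.2 - z.1.1.2) (z.2 - z.1.2) *
        (Q.indicator (fun φ => V z.1.1.2 z.1.1.1.1.1 (z.1.1.1.1.2 * τ φ)) z.1.2 *
          conj (S.indicator (fun θ => W z.1.1.1.2 z.1.1.1.1.1 (z.1.1.1.1.2 * τ θ)) z.2)) := by
  have hb : 0 ≤ b := (norm_nonneg _).trans (hVb 0 1 1)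
  have hB : 0 ≤ B := (norm_nonneg _).trans (hWb 0 1 1)
  have hK : 0 ≤ K := (norm_nonneg _).trans (hkb 0 0)
  refine ⟨?_, K * (b * B), fun z => ?_⟩
  · refine Measurable.mul ?_ (Measurable.mul ?_ ?_)
    · have : Continuous fun z : ((((G × G) × ℝ) × ℝ) × (Fin 2 → ℝ)) × (Fin 2 → ℝ) =>
          k (z.1.1.1.2 - z.1.1.2) (z.2 - z.1.2) :=
        hk.comp ((by fun_prop : Continuous fun z : ((((G × G) × ℝ) × ℝ) × (Fin 2 → ℝ)) × (Fin 2 → ℝ) =>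
          (z.1.1.1.2 - z.1.1.2, z.2 - z.1.2)))
      exact this.measurable
    · have e : (fun z : ((((G × G) × ℝ) × ℝ) × (Fin 2 → ℝ)) × (Fin 2 → ℝ) =>
          Q.indicator (fun φ => V z.1.1.2 z.1.1.1.1.1 (z.1.1.1.1.2 * τ φ)) z.1.2) =
          ({z : ((((G × G) × ℝ) × ℝ) × (Fin 2 → ℝ)) × (Fin 2 → ℝ) | z.1.2 ∈ Q}).indicator
            (fun z => V z.1.1.2 z.1.1.1.1.1 (z.1.1.1.1.2 * τ z.1.2)) := by
        funext z
        by_cases h : z.1.2 ∈ Q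
        · rw [Set.indicator_of_mem h, Set.indicator_of_mem (by exact h)]
        · rw [Set.indicator_of_notMem h, Set.indicator_of_notMem (by exact h)]
      rw [e]
      refine Measurable.indicator ?_ ?_
      · have : Continuous fun z : ((((G × G) × ℝ) × ℝ) × (Fin 2 → ℝ)) × (Fin 2 → ℝ) =>
            V z.1.1.2 z.1.1.1.1.1 (z.1.1.1.1.2 * τ z.1.2) :=
          hV.comp ((by fun_prop : Continuous fun z : ((((G × G) × ℝ) × ℝ) × (Fin 2 → ℝ)) × (Fin 2 → ℝ) =>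
            (z.1.1.2, z.1.1.1.1.1, z.1.1.1.1.2 * τ z.1.2)))
        exact this.measurable
      · exact (measurable_snd.comp measurable_fst) hQ
    · have e : (fun z : ((((G × G) × ℝ) × ℝ) × (Fin 2 → ℝ)) × (Fin 2 → ℝ) =>
          S.indicator (fun θ => W z.1.1.1.2 z.1.1.1.1.1 (z.1.1.1.1.2 * τ θ)) z.2) =
          ({z : ((((G × G) × ℝ) × ℝ) × (Fin 2 → ℝ)) × (Fin 2 → ℝ) | z.2 ∈ S}).indicator
            (fun z => W z.1.1.1.2 z.1.1.1.1.1 (z.1.1.1.1.2 * τ z.2)) := by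
        funext z
        by_cases h : z.2 ∈ S
        · rw [Set.indicator_of_mem h, Set.indicator_of_mem (by exact h)]
        · rw [Set.indicator_of_notMem h, Set.indicator_of_notMem (by exact h)]
      have hm : Measurable fun z : ((((G × G) × ℝ) × ℝ) × (Fin 2 → ℝ)) × (Fin 2 → ℝ) =>
          S.indicator (fun θ => W z.1.1.1.2 z.1.1.1.1.1 (z.1.1.1.1.2 * τ θ)) z.2 := by
        rw [e]
        refine Measurable.indicator ?_ ?_
        · have : Continuous fun z : ((((G × G) × ℝ) × ℝ) × (Fin 2 → ℝ)) × (Fin 2 → ℝ) =>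
              W z.1.1.1.2 z.1.1.1.1.1 (z.1.1.1.1.2 * τ z.2) :=
            hW.comp ((by fun_prop : Continuous fun z : ((((G × G) × ℝ) × ℝ) × (Fin 2 → ℝ)) × (Fin 2 → ℝ) =>
              (z.1.1.1.2, z.1.1.1.1.1, z.1.1.1.1.2 * τ z.2)))
          exact this.measurable
        · exact measurable_snd hS
      exact Complex.continuous_conj.measurable.comp hm
  · rw [norm_mul, norm_mul]
    refine mul_le_mul (hkb _ _) (mul_le_mul ?_ ?_ (norm_nonneg _) hb) (by positivity) hK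
    · by_cases h : z.1.2 ∈ Q
      · rw [Set.indicator_of_mem h]
        exact hVb _ _ _
      · rw [Set.indicator_of_notMem h, norm_zero]
        exact hb
    · rw [RCLike.norm_conj]
      by_cases h : z.2 ∈ S
      · rw [Set.indicator_of_mem h]
        exact hWb _ _ _
      · rw [Set.indicator_of_notMem h, norm_zero]
        exact hB

end Err

/-! ### the pieces of the kernel -/

theorem norm_eu (x : ℝ) : ‖eu x‖ = 1 := by
  unfold eu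
  rw [Complex.norm_exp]
  simp

theorem gt_le {q : (Fin r → ℤ) → ℝ} {X : ℕ} (hq : QH Φ X q) (t : ℝ) (l : Fin r → ℤ) : ‖gt Φ q t l‖ ≤ 1 := by
  unfold gt
  rw [norm_mul, norm_eu, mul_one, Complex.norm_real, Real.norm_of_nonneg (hq.nn l)]
  exact hq.le l

theorem tker_cont (q : (Fin r → ℤ) → ℝ) (aa : (Fin r → ℤ) → ℂ) (cc : ({p // p ∈ pos Φ} → ℤ) → ℂ)
    (T : Finset (Fin r → ℤ)) (KB : Finset ({p // p ∈ pos Φ} → ℤ)) :
    Continuous fun z : ℝ × (Fin r → ℝ) => tker Φ q aa cc T KB z.1 z.2 := by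
  unfold tker gt eu dz
  fun_prop

theorem tker_bd {q : (Fin r → ℤ) → ℝ} {X : ℕ} (hq : QH Φ X q) (aa : (Fin r → ℤ) → ℂ)
    (cc : ({p // p ∈ pos Φ} → ℤ) → ℂ) (T : Finset (Fin r → ℤ)) (KB : Finset ({p // p ∈ pos Φ} → ℤ)) (t : ℝ)
    (θ : Fin r → ℝ) : ‖tker Φ q aa cc T KB t θ‖ ≤ ∑ l ∈ T, ‖aa l‖ * ∑ k ∈ KB, ‖cc k‖ := by
  unfold tker
  refine (norm_sum_le _ _).trans (Finset.sum_le_sum fun l _ => ?_)
  rw [norm_mul, norm_mul, norm_eu, mul_one]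
  refine mul_le_mul_of_nonneg_left ?_ (norm_nonneg _)
  refine (norm_sum_le _ _).trans (Finset.sum_le_sum fun k _ => ?_)
  rw [norm_mul]
  exact mul_le_of_le_one_right (norm_nonneg _) (gt_le hq _ _)

theorem km_eq {m J : ℕ} {q : (Fin r → ℤ) → ℝ} {a : {p // p ∈ pos Φ}} {x : {p // p ∈ pos Φ} → Fin (J + 1)}
    (T : Finset (Fin r → ℤ)) (Ψ : (Fin r → ℤ) → ℝ)
    (h : ∀ (τ : ℝ) (l : Fin r → ℤ), lac Φ m J q a x τ l = ∑ f : {p // p ∈ pos Φ} → Fin 3,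
      (amc Φ a (th x) (tc a x) f l : ℂ) *
      ∑ k ∈ kB Φ (2 * m ^ 2 * 2 ^ J + 1), cx m J x f k * gt Φ q τ (l + 1 - rs (pos Φ) k)) (τ : ℝ) (θ : Fin r → ℝ) :
    km (lac Φ m J q a x) T Ψ τ θ = ∑ f : {p // p ∈ pos Φ} → Fin 3,
      tker Φ q (fun l => ((amc Φ a (th x) (tc a x) f l * Ψ l : ℝ) : ℂ)) (cx m J x f) T
        (kB Φ (2 * m ^ 2 * 2 ^ J + 1)) τ θ := by
  unfold km tker
  rw [Finset.sum_comm]
  refine Finset.sum_congr rfl fun l _ => ?_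
  rw [h, Finset.sum_mul, Finset.sum_mul]
  refine Finset.sum_congr rfl fun f _ => ?_
  simp only [Complex.ofReal_mul]
  ring

theorem dl_pos {J : ℕ} (x : {p // p ∈ pos Φ} → Fin (J + 1)) (p : {p // p ∈ pos Φ}) : 0 < dl x p := by
  unfold dl
  positivity

/-- powers of two -/
theorem two_rpow_le {a b : ℝ} (h : a ≤ b) : (2 : ℝ) ^ a ≤ (2 : ℝ) ^ b :=
  Real.rpow_le_rpow_of_exponent_le (by norm_num) h

theorem two_rpow_one {a : ℝ} (h : 0 ≤ a) : (1 : ℝ) ≤ (2 : ℝ) ^ a := Real.one_le_rpow (by norm_num) h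

/-- the exponents -/
theorem expo {J : ℕ} {ε j0 l0 : ℝ} (hε : 0 ≤ ε) (hj0 : 0 ≤ j0) (hl0 : 0 ≤ l0) :
    (2 : ℝ) ^ (ε * J) * (√(j0 * (2 : ℝ) ^ (24 * ε * J)) * √l0 *
      ((16 : ℝ) ^ 3 * (2 : ℝ) ^ (9 * ε * J)) ^ ((1 : ℝ) / 4)) * (2 : ℝ) ^ (11 * ε * J) ≤
    √j0 * √l0 * ((16 : ℝ) ^ 3) ^ ((1 : ℝ) / 4) * (2 : ℝ) ^ (27 * ε * J) := by
  have h1 : √((2 : ℝ) ^ (24 * ε * J)) = (2 : ℝ) ^ (12 * ε * J) := by
    rw [Real.sqrt_eq_rpow, ← Real.rpow_mul (by norm_num)]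
    congr 1
    ring
  have h3 : ((2 : ℝ) ^ (9 * ε * J)) ^ ((1 : ℝ) / 4) = (2 : ℝ) ^ (9 / 4 * ε * J) := by
    rw [← Real.rpow_mul (by norm_num)]
    congr 1
    ring
  rw [Real.sqrt_mul hj0, Real.mul_rpow (by positivity) (by positivity), h1, h3]
  have h4 : (2 : ℝ) ^ (ε * J) * (2 : ℝ) ^ (12 * ε * J) * (2 : ℝ) ^ (9 / 4 * ε * J) * (2 : ℝ) ^ (11 * ε * J) ≤
      (2 : ℝ) ^ (27 * ε * J) := by
    rw [← Real.rpow_add (by norm_num), ← Real.rpow_add (by norm_num), ← Real.rpow_add (by norm_num)]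
    refine two_rpow_le ?_
    have h5 : 0 ≤ ε * J := by positivity
    nlinarith
  calc _ = √j0 * √l0 * ((16 : ℝ) ^ 3) ^ ((1 : ℝ) / 4) * ((2 : ℝ) ^ (ε * J) * (2 : ℝ) ^ (12 * ε * J) *
        (2 : ℝ) ^ (9 / 4 * ε * J) * (2 : ℝ) ^ (11 * ε * J)) := by ring
    _ ≤ _ := mul_le_mul_of_nonneg_left h4 (by positivity)

/-- an upper bound of the square from a bound of the root -/
theorem sq_of_sqrt {t ε c y : ℝ} {J : ℕ} (ht : 0 < t) (h : √t ≤ (2 : ℝ) ^ (-(c * ε * J)) * y) :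
    t ≤ (2 : ℝ) ^ (-(2 * c * ε * J)) * y ^ 2 := by
  have h0 : 0 ≤ √t := Real.sqrt_nonneg _
  calc t = √t ^ 2 := (Real.sq_sqrt ht.le).symm
    _ ≤ ((2 : ℝ) ^ (-(c * ε * J)) * y) ^ 2 := pow_le_pow_left₀ h0 h 2
    _ = _ := by
        rw [mul_pow, ← Real.rpow_natCast, ← Real.rpow_mul (by norm_num)]
        congr 2
        push_cast
        ring

/-- the parameters of JSC -/
theorem par {J j : ℕ} {t₁ t₂ ε δ b d η : ℝ} (ht₁ : 0 < t₁) (ht₂ : 0 < t₂) (hδ : 0 < δ) (hb : 0 < b) (hb1 : b ≤ 1)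
    (hε : 0 < ε) (h₂ : √t₂ ≤ (2 : ℝ) ^ (-(6 * ε * J)) * δ) (h₁ : √t₁ ≤ (2 : ℝ) ^ (-(18 * ε * J)) * b)
    (htg : 1 / 2 ^ J ≤ √t₁) (hd : 0 ≤ d) (hj : d ≤ 26 * ε * j) (hη : (2 : ℝ) ^ (-(8 * ε * J)) ≤ η) :
    t₂ ≤ η * ((2 : ℝ) ^ (-(2 * ε * J)) * δ) ^ 2 ∧ t₁ ≤ η * ((2 : ℝ) ^ (-(5 * ε * J)) * b) ^ 2 ∧
    (1 / ((2 : ℝ) ^ (-(2 * ε * J)) * δ) ^ 2) * (1 / ((2 : ℝ) ^ (-(5 * ε * J)) * b) ^ 4 +
      t₁ ^ (-(d / 2)) * (t₁ / ((2 : ℝ) ^ (-(5 * ε * J)) * b) ^ 2) ^ j) ≤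
      2 * (2 : ℝ) ^ (24 * ε * J) * (1 / (δ * b ^ 2)) ^ 2 := by
  have hJ0 : (0 : ℝ) ≤ J := Nat.cast_nonneg _
  have hεJ : 0 ≤ ε * J := by positivity
  have p2 : ∀ (y : ℝ) (n : ℕ), ((2 : ℝ) ^ y) ^ n = (2 : ℝ) ^ (y * n) := fun y n => by
    rw [← Real.rpow_natCast, ← Real.rpow_mul (by norm_num)]
  have k2 := sq_of_sqrt ht₂ h₂
  have k1 := sq_of_sqrt ht₁ h₁
  have m2 : t₂ ≤ η * ((2 : ℝ) ^ (-(2 * ε * J)) * δ) ^ 2 := by
    calc t₂ ≤ (2 : ℝ) ^ (-(2 * 6 * ε * J)) * δ ^ 2 := k2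
      _ = (2 : ℝ) ^ (-(8 * ε * J)) * ((2 : ℝ) ^ (-(2 * ε * J)) * δ) ^ 2 := by
          rw [mul_pow, p2, ← mul_assoc, ← Real.rpow_add (by norm_num)]
          congr 2
          push_cast
          ring
      _ ≤ _ := mul_le_mul_of_nonneg_right hη (by positivity)
  have m1' : t₁ ≤ (2 : ℝ) ^ (-(26 * ε * J)) * ((2 : ℝ) ^ (-(5 * ε * J)) * b) ^ 2 := by
    calc t₁ ≤ (2 : ℝ) ^ (-(2 * 18 * ε * J)) * b ^ 2 := k1
      _ = (2 : ℝ) ^ (-(26 * ε * J)) * ((2 : ℝ) ^ (-(5 * ε * J)) * b) ^ 2 := by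
          rw [mul_pow, p2, ← mul_assoc, ← Real.rpow_add (by norm_num)]
          congr 2
          push_cast
          ring
  have m1 : t₁ ≤ η * ((2 : ℝ) ^ (-(5 * ε * J)) * b) ^ 2 := by
    refine m1'.trans (mul_le_mul_of_nonneg_right ?_ (by positivity))
    refine le_trans (two_rpow_le ?_) hη
    nlinarith
  refine ⟨m2, m1, ?_⟩
  set m : ℝ := (2 : ℝ) ^ (-(5 * ε * J)) * b with hm
  have hm0 : 0 < m := by positivity
  have hm1 : m ≤ 1 := by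
    have h3 : (2 : ℝ) ^ (-(5 * ε * J)) ≤ 1 := Real.rpow_le_one_of_one_le_of_nonpos (by norm_num) (by nlinarith)
    calc m ≤ 1 * 1 := mul_le_mul h3 hb1 hb.le zero_le_one
      _ = 1 := one_mul 1
  have h3 : (2 : ℝ) ^ (-(2 * J) : ℝ) ≤ t₁ := by
    have h4 : (1 / 2 ^ J : ℝ) ^ 2 ≤ t₁ := by
      calc (1 / 2 ^ J : ℝ) ^ 2 ≤ √t₁ ^ 2 := pow_le_pow_left₀ (by positivity) htg 2
        _ = t₁ := Real.sq_sqrt ht₁.le
    refine le_trans (le_of_eq ?_) h4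
    rw [Real.rpow_neg (by norm_num), mul_comm, Real.rpow_mul (by norm_num), Real.rpow_natCast]
    norm_num
  have h5 : t₁ ^ (-(d / 2)) ≤ (2 : ℝ) ^ (d * J) := by
    calc t₁ ^ (-(d / 2)) ≤ ((2 : ℝ) ^ (-(2 * J) : ℝ)) ^ (-(d / 2)) :=
          Real.rpow_le_rpow_of_nonpos (by positivity) h3 (by linarith)
      _ = (2 : ℝ) ^ (d * J) := by
          rw [← Real.rpow_mul (by norm_num)]
          congr 1
          ring
  have h6 : (t₁ / m ^ 2) ^ j ≤ (2 : ℝ) ^ (-(26 * ε * j * J)) := by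
    have h7 : t₁ / m ^ 2 ≤ (2 : ℝ) ^ (-(26 * ε * J)) := by
      rw [div_le_iff₀ (by positivity)]
      exact m1'
    calc (t₁ / m ^ 2) ^ j ≤ ((2 : ℝ) ^ (-(26 * ε * J))) ^ j := pow_le_pow_left₀ (by positivity) h7 j
      _ = _ := by
          rw [p2]
          congr 1
          ring
  have h8 : t₁ ^ (-(d / 2)) * (t₁ / m ^ 2) ^ j ≤ 1 / m ^ 4 := by
    have h9 : t₁ ^ (-(d / 2)) * (t₁ / m ^ 2) ^ j ≤ 1 := by
      calc t₁ ^ (-(d / 2)) * (t₁ / m ^ 2) ^ j ≤ (2 : ℝ) ^ (d * J) * (2 : ℝ) ^ (-(26 * ε * j * J)) :=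
            mul_le_mul h5 h6 (by positivity) (by positivity)
        _ = (2 : ℝ) ^ (d * J + -(26 * ε * j * J)) := (Real.rpow_add (by norm_num) _ _).symm
        _ ≤ 1 := Real.rpow_le_one_of_one_le_of_nonpos (by norm_num) (by nlinarith)
    refine h9.trans ?_
    rw [le_div_iff₀ (by positivity), one_mul]
    exact pow_le_one₀ hm0.le hm1
  have h10 : (1 / ((2 : ℝ) ^ (-(2 * ε * J)) * δ) ^ 2) * (1 / m ^ 4) =
      (2 : ℝ) ^ (24 * ε * J) * (1 / (δ * b ^ 2)) ^ 2 := by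
    have a1 : ((2 : ℝ) ^ (-(2 * ε * J))) ^ 2 * ((2 : ℝ) ^ (-(5 * ε * J))) ^ 4 = ((2 : ℝ) ^ (24 * ε * J))⁻¹ := by
      rw [p2, p2, ← Real.rpow_add (by norm_num), ← Real.rpow_neg (by norm_num)]
      congr 1
      push_cast
      ring
    have a2 : ((2 : ℝ) ^ (-(2 * ε * J)) * δ) ^ 2 * m ^ 4 = ((2 : ℝ) ^ (24 * ε * J))⁻¹ * (δ * b ^ 2) ^ 2 := by
      rw [← a1, hm]
      ring
    rw [one_div_mul_one_div, a2, one_div, mul_inv, inv_inv, one_div, inv_pow]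
  calc _ ≤ (1 / ((2 : ℝ) ^ (-(2 * ε * J)) * δ) ^ 2) * (1 / m ^ 4 + 1 / m ^ 4) := by gcongr
    _ = 2 * ((1 / ((2 : ℝ) ^ (-(2 * ε * J)) * δ) ^ 2) * (1 / m ^ 4)) := by ring
    _ = _ := by rw [h10]; ring

end DGC

open DGC in
theorem t_DGC : M_DGC := by
  intro hWF hPSF hPRM hRGM hLMC hKOC hVCN hCLL hKHO hJSC hL2C hLAC hAMC hSTS hABC hSEC N H Φ B Hc E c k d hCX hA2 μ _ _
  have hI := hCX.lrd.ird
  have hW := hWF 2 Φ B hI
  have hPR := hPRM 2 Φ B (by norm_num) hI hW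
  have hRX := hRGM 2 Φ B (by norm_num) hI hW
  have hcard : (pos Φ).card = 3 := hA2.card
  have hcs : CompactSpace H := isCompact_iff_compactSpace.1 hCX.closed.isCompact
  have hsc : SecondCountableTopology H :=
    inferInstanceAs (SecondCountableTopology ((H : Set (SU N)) : Type))
  refine ⟨27, by positivity, fun m C₁ C₂ ε A hm hCFF hC₂ hε hA hmA => ?_⟩
  obtain ⟨K', Cm, hCm, hLM⟩ := hLMC 2 Φ B (by norm_num) hI hW m C₁ hm hCFF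
  obtain ⟨Ck, hCk, hKO⟩ := hKOC 2 Φ B (by norm_num) hI hW m C₁ C₂ ε A hm hCFF hC₂ hε hA
    (by rw [hcard]; push_cast; linarith)
  obtain ⟨J₁, hSE⟩ := hSEC Φ B hI hW hA2 ε C₂ hε hC₂
  obtain ⟨Ch, hCh, hKH⟩ := hKHO N H Φ B Hc E c k d hCX μ ε hε
  obtain ⟨j', hj'⟩ := exists_nat_ge ((d : ℝ) / (26 * ε))
  set j : ℕ := j' + 1 with hjdef
  obtain ⟨Cj, η₀, hCj, hη₀, hJS⟩ := hJSC N H 2 Φ B Hc E c k d hCX μ j C₂ (by omega) hC₂
  obtain ⟨Cl, hCl, hL2⟩ := hL2C N H 2 Φ B Hc E c k d hCX μ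
  obtain ⟨C₃, hC₃, hfr⟩ := freq Φ m
  obtain ⟨Ca, hCa, hAM⟩ := hAMC Φ B hI hW hA2 m C₁ C₂ C₃ hm hCFF hC₂ hC₃
  obtain ⟨Cb, hCb, hST⟩ := hSTS Φ B hI hW hA2 m C₂ ε hm hC₂ hε (by linarith)
  have hj : (d : ℝ) ≤ 26 * ε * j := by
    rw [div_le_iff₀ (by positivity)] at hj'
    rw [hjdef]
    push_cast
    nlinarith
  obtain ⟨J₂, hJ₂⟩ : ∃ J₂ : ℕ, ∀ J : ℕ, J₂ ≤ J → (2 : ℝ) ^ (-(8 * ε * J)) ≤ η₀ := by
    have h1 : Tendsto (fun J : ℕ => (2 : ℝ) ^ (-(8 * ε * J))) atTop (𝓝 0) := by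
      have h2 : Tendsto (fun J : ℕ => -(8 * ε * (J : ℝ))) atTop atBot :=
        tendsto_neg_atTop_atBot.comp (tendsto_natCast_atTop_atTop.const_mul_atTop (by positivity))
      have h3 : Tendsto (fun y : ℝ => (2 : ℝ) ^ y) atBot (𝓝 0) := tendsto_rpow_atBot_of_base_gt_one _ (by norm_num)
      exact h3.comp h2
    obtain ⟨J₂, h⟩ := eventually_atTop.1 (h1.eventually (ge_mem_nhds hη₀))
    exact ⟨J₂, h⟩
  set J₀ : ℕ := max J₁ J₂ with hJ₀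
  set Cs : ℝ := √(2 * Cj) * √(Cl * Cb) * ((16 : ℝ) ^ 3) ^ ((1 : ℝ) / 4) with hCs
  have hCs0 : 0 ≤ Cs := by positivity
  set Cf : ℝ := (Fintype.card ({p // p ∈ pos Φ} → Fin 3) : ℝ) * (Ch * Ca ^ 2 * Cs) with hCf
  have hCf0 : 0 ≤ Cf := by positivity
  set C0 : ℝ := Ck * (2 ^ (J₀ * 5) * (2 : ℝ) ^ (A * J₀)) * (2 * C₂) ^ 2 with hC0
  have hC00 : 0 ≤ C0 := by positivity
  refine ⟨Ck * (2 * C₂) ^ 2 + C0 + Cf, by positivity, ?_⟩
  intro J q a x R M₀ jm L ψ ν₁ ν₂ T κ G j₁ j₂ j₃ hJ hq hRG hFP hT hPC hG hG1 hLG hj1 hj3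
  have hprob : IsProbabilityMeasure κ := by
    have h : HM H _ κ := hPC
    exact h.prob
  have hFM : ∀ jj, FM C₂ R (pj' ψ jj) (ν₁ jj) (ν₂ jj) := fun jj =>
    ⟨hFP.fcf.fin₁ jj, hFP.fcf.fin₂ jj, hFP.fcf.mass₁ jj, hFP.fcf.mass₂ jj, hFP.fcf.supp₁ jj,
      hFP.fcf.supp₂ jj, hFP.fcf.tr jj⟩
  obtain ⟨hvn, hpo⟩ := hVCN N H 2 Φ B Hc E c k d hCX μ
  obtain ⟨-, hvJ', hvb, hvL⟩ := hvn κ (ro ε x) G hprob hG
  have hvJ : J3 (vw κ G) := hvJ'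
  have hv1 : ∀ t h g, ‖vw κ G t h g‖ ≤ 1 := fun t h g => (hvb 1 hG1 t h g).2
  have hpo' : ∀ jj, J3 (po Hc (ν₁ jj) (ν₂ jj) (vw κ G)) ∧
      (∀ t h g, ‖po Hc (ν₁ jj) (ν₂ jj) (vw κ G) t h g‖ ≤ 2 * C₂) ∧
      ∀ t, ∫ h, ∫ g, ‖po Hc (ν₁ jj) (ν₂ jj) (vw κ G) t h g‖ ∂μ ∂μ ≤
        2 * C₂ * ∫ y, ‖G t y‖ ∂μ := by
    intro jj
    obtain ⟨h1, h2, h3⟩ := hpo (ν₁ jj) (ν₂ jj) _ (hFP.fcf.fin₁ jj) (hFP.fcf.fin₂ jj) hvJ
    have hmass : (ν₁ jj).real Set.univ + (ν₂ jj).real Set.univ ≤ 2 * C₂ := by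
      linarith [hFP.fcf.mass₁ jj, hFP.fcf.mass₂ jj]
    have hmass0 : 0 ≤ (ν₁ jj).real Set.univ + (ν₂ jj).real Set.univ := by positivity
    refine ⟨h1, fun t h g => (h2 1 hv1 t h g).trans (by linarith), fun t => ?_⟩
    refine (h3 t).1.trans ?_
    refine mul_le_mul hmass ((hvL t).2.1) ?_ (by positivity)
    exact integral_nonneg fun _ => integral_nonneg fun _ => norm_nonneg _
  obtain ⟨hVJ, hVb, hVL⟩ := hpo' j₁
  obtain ⟨hWJ, hWb, hWL⟩ := hpo' j₃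
  set V := po Hc (ν₁ j₁) (ν₂ j₁) (vw κ G) with hVdef
  set W := po Hc (ν₁ j₃) (ν₂ j₃) (vw κ G) with hWdef
  set ker := km (lac Φ m J q a x) T (pj' ψ j₂) with hker
  have hkc : Continuous fun z : ℝ × (Fin 2 → ℝ) => ker z.1 z.2 := km_cont T _ fun l => hLM.cont J q a x l
  have hkp : ∀ τ θ (n : Fin 2 → ℤ), ker τ (θ + fun i => (n i : ℝ)) = ker τ θ := fun τ θ n => km_per T _ τ θ n
  have hKO2 := hKO J q a x T R (pj' ψ j₂) (ν₁ j₂) (ν₂ j₂) hJ hq hRG hT (hFM j₂) hFP.rr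
  have hkb : ∀ τ θ, ‖ker τ θ‖ ≤ Ck * 2 ^ (J * 5) := fun τ θ => by
    have h := (hKO2 τ θ).1
    rw [hcard] at h
    exact h
  have hmG0 : 0 ≤ mG μ G := by
    unfold mG
    exact intervalIntegral.integral_nonneg zero_le_one fun _ _ => integral_nonneg fun _ => norm_nonneg _
  -- the error term
  have hGi : Integrable (fun s => ∫ y, ‖G s y‖ ∂μ) ((volume : Measure ℝ).restrict (Set.Ioc 0 1)) := by
    have hi : Integrable (fun z : ℝ × H => ‖G z.1 z.2‖) (((volume : Measure ℝ).restrict (Set.Ioc 0 1)).prod μ) :=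
      Integrable.of_bound (Continuous.norm hG).measurable.aestronglyMeasurable 1 (ae_of_all _ fun z => by
        rw [norm_norm]
        exact hG1 _ _)
    exact hi.integral_prod_left
  have hLi : Integrable (fun s => 2 * C₂ * ∫ y, ‖G s y‖ ∂μ) ((volume : Measure ℝ).restrict (Set.Ioc 0 1)) :=
    hGi.const_mul _
  have hE : ∫ t in (0 : ℝ)..1, ∫ s in (0 : ℝ)..1, ∫ h, ∫ g, (∫ θ in Set.Icc (0 : Fin 2 → ℝ) 1,
      ‖V s h g‖ * ‖W t h (g * tt H Hc θ)‖) ∂μ ∂μ ≤ (2 * C₂) ^ 2 * mG μ G := by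
    refine (err μ (tt H Hc) hVJ hVb hWb (fun s => 2 * C₂ * ∫ y, ‖G s y‖ ∂μ) hLi hVL).trans (le_of_eq ?_)
    rw [intervalIntegral.integral_const_mul]
    unfold mG
    ring
  have hX1 : (1 : ℝ) ≤ 2 ^ J := one_le_pow₀ (by norm_num)
  have hδ0 : 0 < dl x a := dl_pos x a
  have hb0 : 0 < bx' x := hδ0.trans_le (hPR.dle J x _)
  set P : ℝ := dl x a * bx' x ^ 2 with hP
  have hP0 : 0 < P := by positivity
  have hLb0 : 0 ≤ Lb a x := by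
    unfold Lb
    exact mul_nonneg (by positivity) (le_max_of_le_left (Real.sqrt_nonneg _))
  have hsec : 0 ≤ (2 : ℝ) ^ (27 * ε * J) * (Lb a x / P) * mG μ G ^ ((3 : ℝ) / 2) := by positivity
  have hAJ : 0 ≤ (2 : ℝ) ^ (-(A * J)) * mG μ G := by positivity
  rcases lt_or_ge J J₀ with hJJ | hJJ
  · -- small scales
    have h1 := hCLL N H 2 Φ B Hc E c k d hCX μ ker V W (Set.Icc 0 1) ∅ (Ck * 2 ^ (J * 5)) hkc hkp hVJ hWJ
      measurableSet_Icc MeasurableSet.empty subset_rfl (Set.empty_subset _)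
      (by
        rw [Measure.real, Real.volume_Icc_pi]
        simp) (by positivity) (fun φ _ θ _ _ τ => hkb τ _)
    have h2 : ∫ h, ∫ g, (∫ t in (0 : ℝ)..1, ∫ s in (0 : ℝ)..1,
        ∫ φ in Set.Icc (0 : Fin 2 → ℝ) 1, ∫ θ in Set.Icc (0 : Fin 2 → ℝ) 1,
          ker (t - s) (θ - φ) * (uq Hc (Set.Icc 0 1) V h g s φ * conj (uq Hc ∅ W h g t θ))) ∂μ ∂μ = 0 := by
      simp [uq]
    rw [h2, norm_zero, mul_zero, zero_add] at h1
    have h3 : Ck * 2 ^ (J * 5) * ((2 * C₂) ^ 2 * mG μ G) ≤ C0 * ((2 : ℝ) ^ (-(A * J)) * mG μ G) := by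
      have h4 : (2 : ℝ) ^ (J * 5) ≤ 2 ^ (J₀ * 5) :=
        pow_le_pow_right₀ (by norm_num) (Nat.mul_le_mul_right _ hJJ.le)
      have h5 : (1 : ℝ) ≤ (2 : ℝ) ^ (A * J₀) * (2 : ℝ) ^ (-(A * J)) := by
        rw [← Real.rpow_add (by norm_num)]
        refine Real.one_le_rpow (by norm_num) ?_
        have : (J : ℝ) ≤ J₀ := by exact_mod_cast hJJ.le
        nlinarith
      calc Ck * 2 ^ (J * 5) * ((2 * C₂) ^ 2 * mG μ G)
          ≤ Ck * 2 ^ (J₀ * 5) * ((2 * C₂) ^ 2 * mG μ G) := by gcongr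
        _ ≤ Ck * 2 ^ (J₀ * 5) * ((2 * C₂) ^ 2 * mG μ G) * ((2 : ℝ) ^ (A * J₀) * (2 : ℝ) ^ (-(A * J))) :=
            le_mul_of_one_le_right (by positivity) h5
        _ = _ := by rw [hC0]; ring
    calc ‖TX Hc μ ker V W‖ ≤ Ck * 2 ^ (J * 5) * ((2 * C₂) ^ 2 * mG μ G) :=
          h1.trans (mul_le_mul_of_nonneg_left hE (by positivity))
      _ ≤ C0 * ((2 : ℝ) ^ (-(A * J)) * mG μ G) := h3
      _ ≤ _ := by
          have h6 : 0 ≤ Ck * (2 * C₂) ^ 2 := by positivity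
          nlinarith [mul_nonneg h6 hAJ, mul_nonneg hCf0 hAJ, mul_nonneg (add_nonneg (add_nonneg h6 hC00) hCf0) hsec]
  · -- large scales
    obtain ⟨hQm, hSm, hQ0, hSQ, hout, hin⟩ := hSE J a x ((le_max_left _ _).trans hJJ) hRG
    have hη := hJ₂ J ((le_max_right _ _).trans hJJ)
    set Q : Set (Fin 2 → ℝ) := qcc ε x with hQdef
    set S : Set (Fin 2 → ℝ) := Set.Icc (0 : Fin 2 → ℝ) 1 ∩ skc 4 ε x with hSdef
    have hQs : Q ⊆ Set.Icc 0 1 := fun θ h => h.1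
    have hSs : S ⊆ Set.Icc 0 1 := fun θ h => h.1
    have h1 := hCLL N H 2 Φ B Hc E c k d hCX μ ker V W Q S (Ck * (2 : ℝ) ^ (-(A * J))) hkc hkp hVJ hWJ
      hQm hSm hQs hSs hQ0 (by positivity)
      (fun φ hφ θ hθ hθS τ => (hKO2 τ (θ - φ)).2 (hout φ hφ θ fun h => hθS ⟨hθ, h⟩))
    set I := ∫ h, ∫ g, (∫ t in (0 : ℝ)..1, ∫ s in (0 : ℝ)..1,
        ∫ φ in Set.Icc (0 : Fin 2 → ℝ) 1, ∫ θ in Set.Icc (0 : Fin 2 → ℝ) 1,
          ker (t - s) (θ - φ) * (uq Hc Q V h g s φ * conj (uq Hc S W h g t θ))) ∂μ ∂μ with hIdef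
    -- the sum over the pieces
    obtain ⟨C₀', -, hps⟩ := hPSF N H 2 Φ B Hc E c k d hCX
    set tk : ({p // p ∈ pos Φ} → Fin 3) → ℝ → (Fin 2 → ℝ) → ℂ := fun f =>
      tker Φ q (fun l => ((amc Φ a (th x) (tc a x) f l * pj' ψ j₂ l : ℝ) : ℂ)) (cx m J x f) T
        (kB Φ (2 * m ^ 2 * 2 ^ J + 1)) with htk
    have hsum : I = ∑ f, ∫ h, ∫ g, (∫ t in (0 : ℝ)..1, ∫ s in (0 : ℝ)..1,
        ∫ φ in Set.Icc (0 : Fin 2 → ℝ) 1, ∫ θ in Set.Icc (0 : Fin 2 → ℝ) 1,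
          tk f (t - s) (θ - φ) * (uq Hc Q V h g s φ * conj (uq Hc S W h g t θ))) ∂μ ∂μ := by
      have e : ∀ (h g : H) (t s : ℝ) (φ θ : Fin 2 → ℝ),
          ker (t - s) (θ - φ) * (uq Hc Q V h g s φ * conj (uq Hc S W h g t θ)) =
          ∑ f, tk f (t - s) (θ - φ) * (uq Hc Q V h g s φ * conj (uq Hc S W h g t θ)) := by
        intro h g t s φ θ
        rw [hker, km_eq T (pj' ψ j₂) (hLAC 2 Φ B (by norm_num) hI hW m C₁ hm hCFF J q a x), Finset.sum_mul]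
      rw [hIdef]
      simp_rw [e]
      exact nest_sum μ Finset.univ (fun f z => tk f (z.1.1.1.2 - z.1.1.2) (z.2 - z.1.2) *
        (Q.indicator (fun φ => V z.1.1.2 z.1.1.1.1.1 (z.1.1.1.1.2 * tt H Hc φ)) z.1.2 *
          conj (S.indicator (fun θ => W z.1.1.1.2 z.1.1.1.1.1 (z.1.1.1.1.2 * tt H Hc θ)) z.2)))
        (fun f _ => six hps.tcont hVJ hWJ hVb hWb hQm hSm (tker_cont q _ _ T _) (tker_bd hq _ _ T _))
    -- the norms
    set M : ℝ := Ac a x M₀ jm j₂ with hM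
    obtain ⟨b1, b2, b3, hMnn⟩ := hABC Φ B hI hW hA2 m C₂ ε J a x R M₀ jm L ψ ν₁ ν₂ j₁ j₂ hε hJ hRG hFP
    obtain ⟨c1, c2, c3, -⟩ := hABC Φ B hI hW hA2 m C₂ ε J a x R M₀ jm L ψ ν₁ ν₂ j₃ j₂ hε hJ hRG hFP
    have hL1 := b2 hLG hj1
    have hL3 := c2 hLG hj3
    have hM1 := b1 hL1 hj1
    have hM3 := c1 hL3 hj3
    set P₁ : ℝ := bbc a x M₀ jm j₁ with hP₁
    set P₃ : ℝ := bbc a x M₀ jm j₃ with hP₃
    set JV : ℝ := ∫ h, ∫ g, (∫ t in (0 : ℝ)..1, ∫ φ in Q, ‖V t h (g * tt H Hc φ)‖) *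
      (∫ t in (0 : ℝ)..1, ∫ θ in S, ‖W t h (g * tt H Hc θ)‖) ∂μ ∂μ with hJV
    set LV : ℝ := ∫ t in (0 : ℝ)..1, ∫ h, ∫ g, ‖V t h g‖ ^ 2 ∂μ ∂μ with hLV
    set LW : ℝ := ∫ t in (0 : ℝ)..1, ∫ h, ∫ g, ‖W t h g‖ ^ 2 ∂μ ∂μ with hLW
    have hLV0 : 0 ≤ LV := intervalIntegral.integral_nonneg zero_le_one fun _ _ =>
      integral_nonneg fun _ => integral_nonneg fun _ => by positivity
    have hLW0 : 0 ≤ LW := intervalIntegral.integral_nonneg zero_le_one fun _ _ =>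
      integral_nonneg fun _ => integral_nonneg fun _ => by positivity
    set R' : ℝ := √JV * ((volume.real Q * LV) ^ ((1 : ℝ) / 4) * (volume.real S * LW) ^ ((1 : ℝ) / 4)) with hR'
    have hR0 : 0 ≤ R' := by
      have : 0 ≤ volume.real S := measureReal_nonneg
      positivity
    have hf : ∀ f : {p // p ∈ pos Φ} → Fin 3, ‖∫ h, ∫ g, (∫ t in (0 : ℝ)..1, ∫ s in (0 : ℝ)..1,
        ∫ φ in Set.Icc (0 : Fin 2 → ℝ) 1, ∫ θ in Set.Icc (0 : Fin 2 → ℝ) 1,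
          tk f (t - s) (θ - φ) * (uq Hc Q V h g s φ * conj (uq Hc S W h g t θ))) ∂μ ∂μ‖ ≤
        Ch * Ca ^ 2 * (2 : ℝ) ^ (ε * J) * M * R' := by
      intro f
      obtain ⟨a1, a2⟩ := hAM ε J a x R M₀ jm L ψ ν₁ ν₂ hε hRG hFP f
      have hD0 : 0 < ∏ p ∈ fc f 2, dl x p := Finset.prod_pos fun p _ => dl_pos x p
      have h2 := hKH (2 ^ J) q (fun l => ((amc Φ a (th x) (tc a x) f l * pj' ψ j₂ l : ℝ) : ℂ)) (cx m J x f) T
        (kB Φ (2 * m ^ 2 * 2 ^ J + 1)) (Ca * M / ∏ p ∈ fc f 2, dl x p) (2 * C₂) V W Q S Nat.one_le_two_pow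
        (by positivity) hq (fun l _ k' hk' hql => by
          rw [Complex.norm_real, Real.norm_eq_abs, le_div_iff₀ hD0]
          exact a1 j₂ l (hfr J q hq k' hk' l hql)) hVJ hWJ hVb hWb hQm hSm hQs hSs
      refine h2.trans ?_
      rw [Xpow]
      have h3 := a2 (2 * m ^ 2 * 2 ^ J + 1)
      calc Ch * (2 : ℝ) ^ (ε * J) * (Ca * M / ∏ p ∈ fc f 2, dl x p) *
            (∑ k ∈ kB Φ (2 * m ^ 2 * 2 ^ J + 1), ‖cx m J x f k‖) * R'
          ≤ Ch * (2 : ℝ) ^ (ε * J) * (Ca * M / ∏ p ∈ fc f 2, dl x p) * (Ca * ∏ p ∈ fc f 2, dl x p) * R' := by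
            refine mul_le_mul_of_nonneg_right (mul_le_mul_of_nonneg_left h3 ?_) hR0
            positivity
        _ = Ch * Ca ^ 2 * (2 : ℝ) ^ (ε * J) * M * R' * ((∏ p ∈ fc f 2, dl x p) / ∏ p ∈ fc f 2, dl x p) := by ring
        _ = _ := by rw [div_self hD0.ne', mul_one]
    have hI1 : ‖I‖ ≤ (Fintype.card ({p // p ∈ pos Φ} → Fin 3) : ℝ) * (Ch * Ca ^ 2 * (2 : ℝ) ^ (ε * J) * M * R') := by
      rw [hsum]
      refine (norm_sum_le _ _).trans ?_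
      refine (Finset.sum_le_sum fun f _ => hf f).trans ?_
      rw [Finset.sum_const, nsmul_eq_mul, Finset.card_univ]
    -- the numbers
    obtain ⟨htc0, htct⟩ := hRX.tp J a x
    have hth0 := hPR.tpos J x
    have hth2 := hPR.half J x hJ
    obtain ⟨p1, p2, p3⟩ := par (J := J) (j := j) (d := (d : ℝ)) (η := η₀) hth0 htc0 hδ0 hb0 (hPR.ble J x) hε
      (hRX.ta J ε a x hRG) (hRX.tb J ε a x hRG) (hPR.tge J x) (Nat.cast_nonneg d) hj hη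
    have hJV1 : JV ≤ 2 * Cj * (2 : ℝ) ^ (24 * ε * J) * volume.real Q * (1 / P) ^ 2 * mG μ G ^ 2 := by
      have h2 := hJS a (th x) (tc a x) ((2 : ℝ) ^ (-(2 * ε * J)) * dl x a) ((2 : ℝ) ^ (-(5 * ε * J)) * bx' x) R κ
        (ν₁ j₁) (ν₂ j₁) (ν₁ j₃) (ν₂ j₃) (pj' ψ j₁) (pj' ψ j₃) Q S G htc0 htct hth2 (by positivity) (by positivity)
        p1 p2 hPC (hFM j₁) (hFM j₃) hQm hSm hQs hSs (fun φ hφ θ hθ s hs => hin φ hφ θ hθ.2 s fun i =>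
          (hs i).trans (mul_le_mul_of_nonneg_left hFP.rr (by positivity))) hG hG1
      refine h2.trans ?_
      rw [hcard]
      have h3 : 0 ≤ volume.real Q := hQ0.le
      calc _ ≤ Cj * volume.real Q * (2 * (2 : ℝ) ^ (24 * ε * J) * (1 / P) ^ 2) * mG μ G ^ 2 := by
            refine mul_le_mul_of_nonneg_right (mul_le_mul_of_nonneg_left p3 (by positivity)) (by positivity)
        _ = _ := by ring
    have hL : ∀ jj : {p // p ∈ pos Φ} → Fin (L + 2), LGp (1 - 2 * ε) J M₀ jm jj → 0 < bbc a x M₀ jm jj →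
        ∫ t in (0 : ℝ)..1, ∫ h, ∫ g, ‖po Hc (ν₁ jj) (ν₂ jj) (vw κ G) t h g‖ ^ 2 ∂μ ∂μ ≤
          Cl * Cb * bbc a x M₀ jm jj * mG μ G := by
      intro jj hLjj hbb
      have hfin1 := hFP.fcf.fin₁ jj
      have hfin2 := hFP.fcf.fin₂ jj
      have h2 : ∀ t, ∫ h, ∫ g, ‖po Hc (ν₁ jj) (ν₂ jj) (vw κ G) t h g‖ ^ 2 ∂μ ∂μ ≤
          Cl * (Cb * bbc a x M₀ jm jj) * ∫ y, ‖G t y‖ ∂μ := by
        intro t
        have hGt : Continuous (G t) := by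
          have h : Continuous fun z : ℝ × H => G z.1 z.2 := hG
          exact h.comp (continuous_const.prodMk continuous_id)
        have h3 := hL2 a (th x) (tc a x) κ hth0 (by linarith) htc0.le hPC (ν₁ jj) (ν₂ jj) hfin1 hfin2
          (Cb * bbc a x M₀ jm jj) (by positivity) (fun τ hτ => by
            have h4 := hST J a x R M₀ jm L ψ ν₁ ν₂ jj τ hJ hRG hFP hLjj hτ
            refine le_trans (le_of_eq (Finset.sum_congr rfl fun i _ => ?_)) h4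
            congr 1
            have h5 := (hFM jj).tr (τ - (i : ℤ) • a.1.1)
            rw [h5, Complex.norm_real, Real.norm_eq_abs, sq_abs]) (G t) hGt
        refine h3.trans (mul_le_mul_of_nonneg_left ?_ (by positivity))
        refine integral_mono_of_nonneg (ae_of_all _ fun _ => by positivity) ?_ (ae_of_all _ fun y => ?_)
        · exact Integrable.of_bound hGt.norm.measurable.aestronglyMeasurable 1 (ae_of_all _ fun z => by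
            rw [norm_norm]
            exact hG1 _ _)
        · have h6 := hG1 t y
          have h7 := norm_nonneg (G t y)
          change ‖G t y‖ ^ 2 ≤ ‖G t y‖
          nlinarith
      have h8 : ∫ t in (0 : ℝ)..1, ∫ h, ∫ g, ‖po Hc (ν₁ jj) (ν₂ jj) (vw κ G) t h g‖ ^ 2 ∂μ ∂μ ≤
          ∫ t in (0 : ℝ)..1, Cl * (Cb * bbc a x M₀ jm jj) * ∫ y, ‖G t y‖ ∂μ := by
        rw [intervalIntegral.integral_of_le zero_le_one, intervalIntegral.integral_of_le zero_le_one]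
        exact integral_mono_of_nonneg (ae_of_all _ fun _ => integral_nonneg fun _ => integral_nonneg fun _ => by
          positivity) (hGi.const_mul _) (ae_of_all _ fun t => h2 t)
      refine h8.trans (le_of_eq ?_)
      rw [intervalIntegral.integral_const_mul]
      unfold mG
      ring
    have hnum := num (m := mG μ G) (P₁ := P₁) (P₃ := P₃) (P := P) (s₀ := (16 : ℝ) ^ 3 * (2 : ℝ) ^ (9 * ε * J))
      (j₀ := 2 * Cj * (2 : ℝ) ^ (24 * ε * J))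
      (l₀ := Cl * Cb) hQ0 measureReal_nonneg
      (by positivity) (by positivity) (by positivity) hP0 b3.le c3.le hmG0 hSQ hJV1 hLV0 hLW0 (hL j₁ hL1 b3)
      (hL j₃ hL3 c3)
    have hexpo := expo (J := J) (ε := ε) (j0 := 2 * Cj) (l0 := Cl * Cb) hε.le (by positivity) (by positivity)
    have htwo := two hMnn hM1 hM3
    have hmain : 1 / volume.real Q * ‖I‖ ≤ Cf * ((2 : ℝ) ^ (27 * ε * J) *
        (Lb a x / P) * mG μ G ^ ((3 : ℝ) / 2)) := by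
      set Nf : ℝ := (Fintype.card ({p // p ∈ pos Φ} → Fin 3) : ℝ) with hNf
      have hNf0 : 0 ≤ Nf := Nat.cast_nonneg _
      set a' := √(2 * Cj * (2 : ℝ) ^ (24 * ε * J)) with ha
      set b' := √(Cl * Cb) with hb
      set e := ((16 : ℝ) ^ 3 * (2 : ℝ) ^ (9 * ε * J)) ^ ((1 : ℝ) / 4) with he
      set y := mG μ G ^ ((3 : ℝ) / 2) with hy
      set w := √(√P₁) * √(√P₃) with hw
      have hw0 : 0 ≤ w := by positivity
      have hy0 : 0 ≤ y := by positivity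
      have ha0 : 0 ≤ a' := Real.sqrt_nonneg _
      have hb0 : 0 ≤ b' := Real.sqrt_nonneg _
      have he0 : 0 ≤ e := by positivity
      have hP' : 0 ≤ 1 / P := by positivity
      have hQ' : 0 ≤ 1 / volume.real Q := by positivity
      calc 1 / volume.real Q * ‖I‖
          ≤ 1 / volume.real Q * (Nf * (Ch * Ca ^ 2 * (2 : ℝ) ^ (ε * J) * M * R')) :=
            mul_le_mul_of_nonneg_left hI1 hQ'
        _ = Nf * (Ch * Ca ^ 2) * (2 : ℝ) ^ (ε * J) * M * (1 / volume.real Q * R') := by ring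
        _ ≤ Nf * (Ch * Ca ^ 2) * (2 : ℝ) ^ (ε * J) * M * (a' * b' * e * (1 / P) * w * y) := by
            refine mul_le_mul_of_nonneg_left hnum ?_
            positivity
        _ = Nf * (Ch * Ca ^ 2) * ((2 : ℝ) ^ (ε * J) * (a' * b' * e)) * (M * w) * (1 / P) * y := by ring
        _ ≤ Nf * (Ch * Ca ^ 2) * ((2 : ℝ) ^ (ε * J) * (a' * b' * e)) * ((2 : ℝ) ^ (11 * ε * J) * Lb a x) *
              (1 / P) * y := by
            refine mul_le_mul_of_nonneg_right (mul_le_mul_of_nonneg_right (mul_le_mul_of_nonneg_left htwo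
              (by positivity)) hP') hy0
        _ = Nf * (Ch * Ca ^ 2) * ((2 : ℝ) ^ (ε * J) * (a' * b' * e) * (2 : ℝ) ^ (11 * ε * J)) * (Lb a x *
              (1 / P) * y) := by ring
        _ ≤ Nf * (Ch * Ca ^ 2) * (Cs * (2 : ℝ) ^ (27 * ε * J)) * (Lb a x * (1 / P) * y) := by
            refine mul_le_mul_of_nonneg_right (mul_le_mul_of_nonneg_left hexpo (by positivity)) (by positivity)
        _ = _ := by
            rw [hCf]
            ring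
    have hmain2 : Ck * (2 : ℝ) ^ (-(A * J)) * ∫ t in (0 : ℝ)..1, ∫ s in (0 : ℝ)..1, ∫ h, ∫ g,
        (∫ θ in Set.Icc (0 : Fin 2 → ℝ) 1, ‖V s h g‖ * ‖W t h (g * tt H Hc θ)‖) ∂μ ∂μ ≤
        Ck * (2 * C₂) ^ 2 * ((2 : ℝ) ^ (-(A * J)) * mG μ G) := by
      refine (mul_le_mul_of_nonneg_left hE (by positivity)).trans (le_of_eq ?_)
      ring
    have h6 : 0 ≤ Ck * (2 * C₂) ^ 2 := by positivity
    refine (h1.trans (add_le_add hmain hmain2)).trans ?_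
    have g1 := mul_nonneg hC00 hAJ
    have g2 := mul_nonneg hCf0 hAJ
    have g3 := mul_nonneg hC00 hsec
    have g4 := mul_nonneg h6 hsec
    linarith

end

end STZ3
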