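import Pool.Agent.STZ3.StP

/-!
# Module DNR (helper50): the denominator formula for real exponentials
-/

namespace STZ3

open STZ LGR MeasureTheory Matrix Filter

open scoped ComplexConjugate Matrix Real Topology

noncomputable section

namespace DNR

open Classical in
/-- A linear functional applied to a relation between trigonometric monomials. -/
theorem lin {r : ℕ} (hTP : S_TPOL) {ι : Type} (s : Finset ι) (c : ι → ℂ) (m : ι → Fin r → ℤ)
    (h : ∀ θ : Fin r → ℝ, ∑ i ∈ s, c i * eu (dz (m i) θ) = 0) (F : (Fin r → ℤ) → ℂ) :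
    ∑ i ∈ s, c i * F (m i) = 0 := by
  have key : ∀ G : (Fin r → ℤ) → ℂ, ∑ i ∈ s, c i * G (m i) =
      ∑ μ ∈ s.image m, (∑ i ∈ s with m i = μ, c i) * G μ := by
    intro G
    rw [← Finset.sum_fiberwise_of_maps_to (t := s.image m) (g := m)
      (fun i hi => Finset.mem_image_of_mem m hi)]
    refine Finset.sum_congr rfl fun μ _ => ?_
    rw [Finset.sum_mul]
    refine Finset.sum_congr rfl fun i hi => ?_
    rw [(Finset.mem_filter.1 hi).2]
  have h0 := (hTP r).2 (s.image m) (fun μ => ∑ i ∈ s with m i = μ, c i) fun θ => by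
    rw [← key fun μ => eu (dz μ θ)]
    exact h θ
  rw [key F]
  refine Finset.sum_eq_zero fun μ hμ => ?_
  rw [h0 μ hμ, zero_mul]

/-- Expansion of the product for a character `e`. -/
theorem expand {r : ℕ} (e : (Fin r → ℤ) → ℂ) (hadd : ∀ a b, e (a + b) = e a * e b)
    (h0 : e 0 = 1) (s : Finset ((Fin r → ℤ) × (Fin r → ℤ))) :
    e 1 * ∏ p ∈ s, (1 - e (-p.1)) = ∑ S ∈ s.powerset, (-1 : ℂ) ^ S.card * e (1 - ∑ p ∈ S, p.1) := by
  classical
  have h1 : ∀ S : Finset ((Fin r → ℤ) × (Fin r → ℤ)), ∏ p ∈ S, -e (-p.1) =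
      (-1 : ℂ) ^ S.card * e (-∑ p ∈ S, p.1) := by
    intro S
    induction S using Finset.induction_on with
    | empty => simp [h0]
    | insert q S hq ih =>
      rw [Finset.prod_insert hq, ih, Finset.card_insert_of_notMem hq, Finset.sum_insert hq,
        neg_add, hadd, pow_succ]
      ring
  have h2 : ∏ p ∈ s, (1 - e (-p.1)) = ∏ p ∈ s, (1 + -e (-p.1)) := by
    refine Finset.prod_congr rfl fun p _ => ?_
    ring
  rw [h2, Finset.prod_one_add, Finset.mul_sum]
  refine Finset.sum_congr rfl fun S _ => ?_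
  rw [h1, sub_eq_add_neg, hadd]
  ring

end DNR

open DNR in
theorem t_DNR : M_DNR := by
  classical
  intro hR hD hTP r Φ B hI hW x
  -- the complex form
  have eu_add : ∀ (θ : Fin r → ℝ) (a b : Fin r → ℤ),
      eu (dz (a + b) θ) = eu (dz a θ) * eu (dz b θ) := by
    intro θ a b
    have h : dz (a + b) θ = dz a θ + dz b θ := by
      unfold dz
      rw [← Finset.sum_add_distrib]
      refine Finset.sum_congr rfl fun i _ => ?_
      rw [Pi.add_apply, Int.cast_add, add_mul]
    rw [h]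
    unfold eu
    rw [← Complex.exp_add]
    congr 1
    push_cast
    ring
  have eu_zero : ∀ θ : Fin r → ℝ, eu (dz (0 : Fin r → ℤ) θ) = 1 := by
    intro θ
    simp [dz, eu]
  have dz_neg : ∀ (a : Fin r → ℤ) (θ : Fin r → ℝ), dz (-a) θ = -dz a θ := by
    intro a θ
    unfold dz
    rw [← Finset.sum_neg_distrib]
    refine Finset.sum_congr rfl fun i _ => ?_
    rw [Pi.neg_apply, Int.cast_neg, neg_mul]
  have dz_one : ∀ θ : Fin r → ℝ, dz (1 : Fin r → ℤ) θ = ∑ i, θ i := by
    intro θ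
    unfold dz
    refine Finset.sum_congr rfl fun i _ => ?_
    rw [Pi.one_apply, Int.cast_one, one_mul]
  set E : (Fin r → ℤ) → ℂ := fun μ => ((Real.exp (∑ i, (μ i : ℝ) * x i) : ℝ) : ℂ) with hE
  have E_add : ∀ a b, E (a + b) = E a * E b := by
    intro a b
    have h : ∑ i, ((a + b) i : ℝ) * x i = ∑ i, (a i : ℝ) * x i + ∑ i, (b i : ℝ) * x i := by
      rw [← Finset.sum_add_distrib]
      refine Finset.sum_congr rfl fun i _ => ?_
      rw [Pi.add_apply, Int.cast_add, add_mul]
    simp only [hE]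
    rw [h, Real.exp_add]
    push_cast
    rfl
  have E_zero : E 0 = 1 := by simp [hE]
  have h1 := lin hTP ((WF Φ).disjSum (pos Φ).powerset)
    (Sum.elim (fun w => (w.det : ℂ)) (fun S => -(-1 : ℂ) ^ S.card))
    (Sum.elim (fun w => w *ᵥ 1) (fun S => 1 - ∑ p ∈ S, p.1)) (fun θ => by
      rw [Finset.sum_disjSum]
      simp only [Sum.elim_inl, Sum.elim_inr, neg_mul, Finset.sum_neg_distrib]
      have h2 := hD r Φ B hI hW θ
      have h3 := expand (fun a => eu (dz a θ)) (eu_add θ) (eu_zero θ) (pos Φ)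
      simp only [dz_neg, dz_one] at h3
      rw [← h3, ← h2]
      unfold AT
      have h4 : (rd Φ).W = WF Φ := rfl
      rw [h4]
      ring) E
  rw [Finset.sum_disjSum] at h1
  simp only [Sum.elim_inl, Sum.elim_inr, neg_mul, Finset.sum_neg_distrib] at h1
  rw [← expand E E_add E_zero (pos Φ)] at h1
  -- back to the real numbers
  have h5 : (((∑ w ∈ WF Φ, (w.det : ℝ) *
      Real.exp (∑ i, ((w *ᵥ (1 : Fin r → ℤ)) i : ℝ) * x i) : ℝ)) : ℂ) =
      ((Real.exp (∑ i, ((1 : Fin r → ℤ) i : ℝ) * x i) * ∏ p ∈ pos Φ,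
        (1 - Real.exp (∑ i, ((-p.1) i : ℝ) * x i)) : ℝ) : ℂ) := by
    rw [Complex.ofReal_sum, Complex.ofReal_mul, Complex.ofReal_prod]
    simp only [Complex.ofReal_mul, Complex.ofReal_intCast, Complex.ofReal_sub,
      Complex.ofReal_one]
    have h6 := h1
    simp only [hE] at h6
    linear_combination h6
  have h7 := Complex.ofReal_injective h5
  rw [h7]
  have hsum : ∑ i, ((1 : Fin r → ℤ) i : ℝ) * x i =
      ∑ p ∈ pos Φ, (∑ i, (p.1 i : ℝ) * x i) / 2 := by
    have h8 := (hR r Φ B hI hW).1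
    have h9 : ∀ i, ∑ p ∈ pos Φ, (p.1 i : ℝ) = 2 := by
      intro i
      have := congrFun h8 i
      rw [Finset.sum_apply] at this
      exact_mod_cast this
    rw [← Finset.sum_div, Finset.sum_comm, eq_div_iff two_ne_zero, Finset.sum_mul]
    refine Finset.sum_congr rfl fun i _ => ?_
    rw [← Finset.sum_mul, h9 i, Pi.one_apply, Int.cast_one]
    ring
  rw [hsum, Real.exp_sum, ← Finset.prod_mul_distrib]
  refine Finset.prod_congr rfl fun p _ => ?_
  have hneg : ∑ i, ((-p.1) i : ℝ) * x i = -(∑ i, (p.1 i : ℝ) * x i) := by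
    rw [← Finset.sum_neg_distrib]
    refine Finset.sum_congr rfl fun i _ => ?_
    rw [Pi.neg_apply, Int.cast_neg, neg_mul]
  rw [hneg, mul_sub, mul_one, ← Real.exp_add]
  congr 2
  ring

end

end STZ3
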