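import Pool.Agent.STZ3.StmtsT3

/-!
# The entries of the powers of the matrix of the pairs of cells
-/

namespace STZ3

open STZ LGR MeasureTheory Matrix Filter

open scoped ComplexConjugate Matrix Real Topology

noncomputable section

namespace ENT

/-- Bezout for the cofactors of the least common multiple. -/
lemma bezout {ι : Type} [DecidableEq ι] (q : ι → ℕ) (S : Finset ι) (hq : ∀ s, 0 < q s) :
    ∃ (c : ι → ℤ) (c0 : ℤ),
      c0 * ((S.lcm q : ℕ) : ℤ) + ∑ s ∈ S, c s * ((S.lcm q / q s : ℕ) : ℤ) = 1 := by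
  induction S using Finset.induction_on with
  | empty => exact ⟨fun _ => 0, 1, by simp⟩
  | insert t S ht ih =>
    obtain ⟨c, c0, hc⟩ := ih
    have hl0 : S.lcm q ≠ 0 := by
      rw [Ne, Finset.lcm_eq_zero_iff]
      rintro ⟨s, -, hs⟩
      exact (hq s).ne' hs
    have hlcm : (insert t S).lcm q = Nat.lcm (q t) (S.lcm q) := Finset.lcm_insert
    set l := S.lcm q with hl
    have hlpos : 0 < l := Nat.pos_of_ne_zero hl0
    set g := Nat.gcd (q t) l with hg
    have hgpos : 0 < g := Nat.gcd_pos_of_pos_left _ (hq t)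
    obtain ⟨u, hu⟩ : g ∣ q t := Nat.gcd_dvd_left _ _
    obtain ⟨v, hv⟩ : g ∣ l := Nat.gcd_dvd_right _ _
    have hcop : Nat.Coprime u v := by
      have h1 := Nat.coprime_div_gcd_div_gcd (m := q t) (n := l) hgpos
      rw [← hg] at h1
      have h2 : q t / g = u := by rw [hu, Nat.mul_div_cancel_left _ hgpos]
      have h3 : l / g = v := by rw [hv, Nat.mul_div_cancel_left _ hgpos]
      rwa [h2, h3] at h1
    have hL : Nat.lcm (q t) l = l * u := by
      have h1 : g * Nat.lcm (q t) l = q t * l := Nat.gcd_mul_lcm _ _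
      have h2 : g * Nat.lcm (q t) l = g * (l * u) := by
        rw [h1]
        calc q t * l = (g * u) * l := by rw [← hu]
          _ = g * (l * u) := by ring
      exact Nat.eq_of_mul_eq_mul_left hgpos h2
    obtain ⟨x, y, hxy⟩ : ∃ x y : ℤ, x * u + y * v = 1 := by
      have h1 : IsCoprime (u : ℤ) (v : ℤ) := Nat.isCoprime_iff_coprime.2 hcop
      obtain ⟨x, y, h⟩ := h1
      exact ⟨x, y, h⟩
    refine ⟨fun s => if s = t then y else x * c s, x * c0, ?_⟩
    rw [hlcm, hL, Finset.sum_insert ht]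
    have e1 : ∑ s ∈ S, (if s = t then y else x * c s) * ((l * u / q s : ℕ) : ℤ) =
        x * u * ∑ s ∈ S, c s * ((l / q s : ℕ) : ℤ) := by
      rw [Finset.mul_sum]
      refine Finset.sum_congr rfl fun s hs => ?_
      have hst : s ≠ t := fun h => ht (h ▸ hs)
      rw [if_neg hst]
      have hd : q s ∣ l := Finset.dvd_lcm hs
      have h1 : l * u / q s = l / q s * u := by
        obtain ⟨w, hw⟩ := hd
        rw [hw, Nat.mul_div_cancel_left _ (hq s), mul_assoc, Nat.mul_div_cancel_left _ (hq s)]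
      rw [h1]
      push_cast
      ring
    have e2 : l * u / q t = v := by
      have h1 : l * u = q t * v := by
        calc l * u = (g * v) * u := by rw [← hv]
          _ = (g * u) * v := by ring
          _ = q t * v := by rw [← hu]
      rw [h1, Nat.mul_div_cancel_left _ (hq t)]
    have e3 : (fun s => if s = t then y else x * c s) t = y := if_pos rfl
    rw [e1, e2, e3, Nat.cast_mul]
    linear_combination (x * (u : ℤ)) * hc + hxy

/-- The number of the numerators with a given value of the sum. -/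
lemma count {n : ℕ} (q : Fin n → ℕ) (hq : ∀ s, 0 < q s) (A : Finset (Fin n → ℤ)) (V : ℤ)
    (hA : ∀ a ∈ A, (∀ s, -(4 * (q s : ℤ)) ≤ a s ∧ a s ≤ 4 * (q s : ℤ)) ∧
      ∑ s, a s * ((Finset.univ.lcm q / q s : ℕ) : ℤ) = V) :
    A.card * Finset.univ.lcm q ≤ 9 ^ n * ∏ s, q s := by
  classical
  obtain ⟨c, c0, hc⟩ := bezout q Finset.univ hq
  set l := Finset.univ.lcm q with hl
  have hd : ∀ s, q s ∣ l := fun s => Finset.dvd_lcm (Finset.mem_univ s)
  have hmod : ∀ (r : ℕ), ∑ s, (((r : ℤ) * c s) % (q s : ℤ)) * ((l / q s : ℕ) : ℤ) ≡ r [ZMOD l] := by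
    intro r
    have h1 : ∀ s, (((r : ℤ) * c s) % (q s : ℤ)) * ((l / q s : ℕ) : ℤ) ≡
        (r : ℤ) * c s * ((l / q s : ℕ) : ℤ) [ZMOD l] := by
      intro s
      have e : (l : ℤ) = (q s : ℤ) * ((l / q s : ℕ) : ℤ) := by
        rw [← Nat.cast_mul, Nat.mul_div_cancel' (hd s)]
      rw [Int.modEq_iff_dvd]
      refine ⟨((r : ℤ) * c s) / (q s : ℤ), ?_⟩
      have h2 := Int.emod_add_mul_ediv ((r : ℤ) * c s) (q s : ℤ)
      rw [e]
      linear_combination (-((l / q s : ℕ) : ℤ)) * h2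
    have h3 : ∑ s, (((r : ℤ) * c s) % (q s : ℤ)) * ((l / q s : ℕ) : ℤ) ≡
        ∑ s, (r : ℤ) * c s * ((l / q s : ℕ) : ℤ) [ZMOD l] := by
      rw [Int.modEq_iff_dvd, ← Finset.sum_sub_distrib]
      exact Finset.dvd_sum fun s _ => (Int.modEq_iff_dvd.1 (h1 s))
    have h4 : ∑ s, (r : ℤ) * c s * ((l / q s : ℕ) : ℤ) = r - (r : ℤ) * c0 * l := by
      have h5 : ∑ s, (r : ℤ) * c s * ((l / q s : ℕ) : ℤ) = r * ∑ s, c s * ((l / q s : ℕ) : ℤ) := by
        rw [Finset.mul_sum]
        exact Finset.sum_congr rfl fun s _ => by ring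
      rw [h5]
      linear_combination (r : ℤ) * hc
    rw [h4] at h3
    refine h3.trans ?_
    rw [Int.modEq_iff_dvd]
    exact ⟨(r : ℤ) * c0, by ring⟩
  have hcard : (A ×ˢ Finset.range l).card ≤
      (Fintype.piFinset fun s => Finset.Ico (-(4 * (q s : ℤ))) (5 * (q s : ℤ))).card := by
    refine Finset.card_le_card_of_injOn
      (fun p s => p.1 s + ((p.2 : ℤ) * c s) % (q s : ℤ)) ?_ ?_
    · intro p hp
      have hp' := Finset.mem_product.1 (Finset.mem_coe.1 hp)
      rw [Finset.mem_coe, Fintype.mem_piFinset]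
      intro s
      have h1 := (hA p.1 hp'.1).1 s
      have hq' : (0 : ℤ) < q s := by exact_mod_cast hq s
      have h2 := Int.emod_nonneg ((p.2 : ℤ) * c s) hq'.ne'
      have h3 := Int.emod_lt_of_pos ((p.2 : ℤ) * c s) hq'
      rw [Finset.mem_Ico]
      constructor
      · show -(4 * (q s : ℤ)) ≤ p.1 s + ((p.2 : ℤ) * c s) % (q s : ℤ)
        linarith [h1.1]
      · show p.1 s + ((p.2 : ℤ) * c s) % (q s : ℤ) < 5 * (q s : ℤ)
        linarith [h1.2]
    · intro p hp p' hp' h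
      have hp1 := Finset.mem_product.1 (Finset.mem_coe.1 hp)
      have hp2 := Finset.mem_product.1 (Finset.mem_coe.1 hp')
      have hs : ∀ s, p.1 s + ((p.2 : ℤ) * c s) % (q s : ℤ) =
          p'.1 s + ((p'.2 : ℤ) * c s) % (q s : ℤ) := fun s => congrFun h s
      have e1 := (hA p.1 hp1.1).2
      have e2 := (hA p'.1 hp2.1).2
      have e3 : ∑ s, (((p.2 : ℤ) * c s) % (q s : ℤ)) * ((l / q s : ℕ) : ℤ) =
          ∑ s, (((p'.2 : ℤ) * c s) % (q s : ℤ)) * ((l / q s : ℕ) : ℤ) := by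
        have e4 : ∑ s, (p.1 s + ((p.2 : ℤ) * c s) % (q s : ℤ)) * ((l / q s : ℕ) : ℤ) =
            ∑ s, (p'.1 s + ((p'.2 : ℤ) * c s) % (q s : ℤ)) * ((l / q s : ℕ) : ℤ) :=
          Finset.sum_congr rfl fun s _ => by rw [hs s]
        simp only [add_mul, Finset.sum_add_distrib] at e4
        linarith
      have e5 : ((p.2 : ℕ) : ℤ) ≡ (p'.2 : ℕ) [ZMOD l] := by
        have h1 := hmod p.2
        have h2 := hmod p'.2
        rw [e3] at h1
        exact h1.symm.trans h2
      have e6 : p.2 = p'.2 := by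
        have h1 : p.2 ≡ p'.2 [MOD l] := (Int.natCast_modEq_iff).1 e5
        exact Nat.ModEq.eq_of_lt_of_lt h1 (Finset.mem_range.1 hp1.2) (Finset.mem_range.1 hp2.2)
      refine Prod.ext ?_ e6
      funext s
      have h1 := hs s
      rw [e6] at h1
      linarith
  rw [Finset.card_product, Finset.card_range, Fintype.card_piFinset] at hcard
  refine hcard.trans (le_of_eq ?_)
  have h1 : ∀ s, (Finset.Ico (-(4 * (q s : ℤ))) (5 * (q s : ℤ))).card = 9 * q s := by
    intro s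
    rw [Int.card_Ico]
    have : 5 * (q s : ℤ) - -(4 * (q s : ℤ)) = ((9 * q s : ℕ) : ℤ) := by push_cast; ring
    rw [this, Int.toNat_natCast]
  rw [Finset.prod_congr rfl fun s _ => h1 s, Finset.prod_mul_distrib, Finset.prod_const,
    Finset.card_univ, Fintype.card_fin]

/-- At most seven cells are near a point. -/
lemma seven (L : ℕ) (z : ℝ) :
    ∑ k : Fin L, (if |z - (k.val : ℝ)| ≤ 3 then (1 : ℝ) else 0) ≤ 7 := by
  classical
  rw [← Finset.sum_filter, Finset.sum_const, nsmul_eq_mul, mul_one]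
  have h1 : (Finset.univ.filter fun k : Fin L => |z - (k.val : ℝ)| ≤ 3).card ≤
      (Finset.Icc ⌈z - 3⌉ ⌊z + 3⌋).card := by
    refine Finset.card_le_card_of_injOn (fun k => ((k.val : ℕ) : ℤ)) ?_ ?_
    · intro k hk
      have hk' := (Finset.mem_filter.1 (Finset.mem_coe.1 hk)).2
      have h2 := abs_le.1 hk'
      rw [Finset.mem_coe, Finset.mem_Icc]
      constructor
      · rw [Int.ceil_le]
        push_cast
        linarith [h2.2]
      · rw [Int.le_floor]
        push_cast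
        linarith [h2.1]
    · intro k _ k' _ h
      have h' : ((k.val : ℕ) : ℤ) = ((k'.val : ℕ) : ℤ) := h
      exact Fin.ext (by exact_mod_cast h')
  have h2 : (Finset.Icc ⌈z - 3⌉ ⌊z + 3⌋).card ≤ 7 := by
    rw [Int.card_Icc]
    have h3 : ⌊z + 3⌋ + 1 - ⌈z - 3⌉ ≤ 7 := by
      have h4 : (⌊z + 3⌋ : ℝ) ≤ z + 3 := Int.floor_le _
      have h5 : z - 3 ≤ (⌈z - 3⌉ : ℝ) := Int.le_ceil _
      have h6 : ((⌊z + 3⌋ + 1 - ⌈z - 3⌉ : ℤ) : ℝ) ≤ ((7 : ℤ) : ℝ) := by
        push_cast
        linarith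
      exact_mod_cast h6
    omega
  have h3 := h1.trans h2
  exact_mod_cast h3

/-- the tuples of the denominators and numerators -/
def P (R n : ℕ) : Finset ((Fin n → ℕ) × (Fin n → ℤ)) :=
  Fintype.piFinset (fun _ => Finset.Ico R (2 * R)) ×ˢ
    Fintype.piFinset (fun _ => Finset.Icc (-(4 * (R : ℤ))) (4 * (R : ℤ)))

/-- the sum of the fractions -/
def F {n : ℕ} (p : (Fin n → ℕ) × (Fin n → ℤ)) : ℝ := ∑ s, (p.2 s : ℝ) / (p.1 s : ℝ)

lemma sum_P_succ (R n : ℕ) (g : (Fin (n + 1) → ℕ) × (Fin (n + 1) → ℤ) → ℝ) :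
    ∑ p ∈ P R (n + 1), g p =
      ∑ c ∈ Finset.Ico R (2 * R) ×ˢ Finset.Icc (-(4 * (R : ℤ))) (4 * (R : ℤ)),
        ∑ p ∈ P R n, g (Fin.cons c.1 p.1, Fin.cons c.2 p.2) := by
  classical
  rw [← Finset.sum_product']
  refine Finset.sum_nbij' (fun p => ((p.1 0, p.2 0), (Fin.tail p.1, Fin.tail p.2)))
    (fun c => (Fin.cons c.1.1 c.2.1, Fin.cons c.1.2 c.2.2)) ?_ ?_ ?_ ?_ ?_
  · intro p hp
    have hp' := Finset.mem_product.1 hp
    have h1 := Fintype.mem_piFinset.1 hp'.1
    have h2 := Fintype.mem_piFinset.1 hp'.2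
    refine Finset.mem_product.2 ⟨Finset.mem_product.2 ⟨h1 0, h2 0⟩, Finset.mem_product.2 ⟨?_, ?_⟩⟩
    · exact Fintype.mem_piFinset.2 fun s => h1 s.succ
    · exact Fintype.mem_piFinset.2 fun s => h2 s.succ
  · intro c hc
    have hc' := Finset.mem_product.1 hc
    have hc1 := Finset.mem_product.1 hc'.1
    have hc2 := Finset.mem_product.1 hc'.2
    have h1 := Fintype.mem_piFinset.1 hc2.1
    have h2 := Fintype.mem_piFinset.1 hc2.2
    refine Finset.mem_product.2 ⟨Fintype.mem_piFinset.2 fun s => ?_,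
      Fintype.mem_piFinset.2 fun s => ?_⟩
    · refine Fin.cases ?_ (fun s => ?_) s
      · exact hc1.1
      · exact h1 s
    · refine Fin.cases ?_ (fun s => ?_) s
      · exact hc1.2
      · exact h2 s
  · intro p _
    exact Prod.ext (Fin.cons_self_tail p.1) (Fin.cons_self_tail p.2)
  · intro c _
    rfl
  · intro p _
    have : (Fin.cons (p.1 0) (Fin.tail p.1), Fin.cons (p.2 0) (Fin.tail p.2)) = p :=
      Prod.ext (Fin.cons_self_tail p.1) (Fin.cons_self_tail p.2)
    exact congrArg g this.symm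

lemma F_cons {n : ℕ} (c : ℕ × ℤ) (p : (Fin n → ℕ) × (Fin n → ℤ)) :
    F ((Fin.cons c.1 p.1, Fin.cons c.2 p.2) : (Fin (n + 1) → ℕ) × (Fin (n + 1) → ℤ)) =
      (c.2 : ℝ) / (c.1 : ℝ) + F p := by
  unfold F
  rw [Fin.sum_univ_succ]
  rfl

/-- The entries of the matrix are at most the sum of the indicator functions. -/
lemma entry (R L : ℕ) (hL : 3 ≤ L) (i k : Fin L) :
    cM R L i k ≤ ∑ c ∈ Finset.Ico R (2 * R) ×ˢ Finset.Icc (-(4 * (R : ℤ))) (4 * (R : ℤ)),
      (if |((i.val : ℝ) - (k.val : ℝ)) / L - (c.2 : ℝ) / (c.1 : ℝ)| ≤ 3 / L then (1 : ℝ) else 0) := by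
  classical
  have hnn : ∀ c ∈ Finset.Ico R (2 * R) ×ˢ Finset.Icc (-(4 * (R : ℤ))) (4 * (R : ℤ)),
      (0 : ℝ) ≤ (if |((i.val : ℝ) - (k.val : ℝ)) / L - (c.2 : ℝ) / (c.1 : ℝ)| ≤ 3 / L
        then (1 : ℝ) else 0) := by
    intro c _
    split_ifs
    · exact zero_le_one
    · exact le_refl _
  have hLr : (3 : ℝ) ≤ L := by exact_mod_cast hL
  have hL0 : (0 : ℝ) < L := by linarith
  by_cases h : nr R (3 / L) (((i.val : ℝ) - (k.val : ℝ)) / L)
  · have h0 : cM R L i k = 1 := if_pos h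
    rw [h0]
    obtain ⟨q, a, h1, h2, h3⟩ := h
    have hq0 : 0 < q := by
      rcases Nat.eq_zero_or_pos q with h4 | h4
      · omega
      · exact h4
    have hqr : (0 : ℝ) < q := by exact_mod_cast hq0
    have hx : |((i.val : ℝ) - (k.val : ℝ)) / L| ≤ 1 := by
      rw [abs_div, abs_of_pos hL0, div_le_one hL0, abs_le]
      have hi : (i.val : ℝ) < L := by exact_mod_cast i.isLt
      have hk : (k.val : ℝ) < L := by exact_mod_cast k.isLt
      have hi0 : (0 : ℝ) ≤ (i.val : ℝ) := Nat.cast_nonneg _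
      have hk0 : (0 : ℝ) ≤ (k.val : ℝ) := Nat.cast_nonneg _
      constructor <;> linarith
    have h3L : (3 : ℝ) / L ≤ 1 := by rw [div_le_one hL0]; exact hLr
    have ha : |(a : ℝ) / q| ≤ 2 := by
      have e : (a : ℝ) / q = ((i.val : ℝ) - (k.val : ℝ)) / L -
          (((i.val : ℝ) - (k.val : ℝ)) / L - (a : ℝ) / q) := by ring
      rw [e]
      refine (abs_sub _ _).trans ?_
      linarith
    have ha' : |(a : ℝ)| ≤ 4 * R := by
      rw [abs_div, abs_of_pos hqr, div_le_iff₀ hqr] at ha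
      have h4 : (q : ℝ) ≤ 2 * R := by exact_mod_cast h2.le
      linarith
    have ha'' : -(4 * (R : ℤ)) ≤ a ∧ a ≤ 4 * (R : ℤ) := by
      have h4 := abs_le.1 ha'
      constructor
      · exact_mod_cast h4.1
      · exact_mod_cast h4.2
    have hmem : ((q, a) : ℕ × ℤ) ∈ Finset.Ico R (2 * R) ×ˢ
        Finset.Icc (-(4 * (R : ℤ))) (4 * (R : ℤ)) :=
      Finset.mem_product.2 ⟨Finset.mem_Ico.2 ⟨h1, h2⟩, Finset.mem_Icc.2 ha''⟩
    have h5 := Finset.single_le_sum hnn hmem
    refine le_trans (le_of_eq ?_) h5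
    exact (if_pos h3).symm
  · have h0 : cM R L i k = 0 := if_neg h
    rw [h0]
    exact Finset.sum_nonneg hnn

lemma cM_nonneg (R L : ℕ) (i k : Fin L) : 0 ≤ cM R L i k := by
  classical
  by_cases h : nr R (3 / L) (((i.val : ℝ) - (k.val : ℝ)) / L)
  · have h0 : cM R L i k = 1 := if_pos h
    rw [h0]
    exact zero_le_one
  · have h0 : cM R L i k = 0 := if_neg h
    rw [h0]

/-- The entries of the powers are at most the number of the tuples of fractions. -/
lemma path (R L : ℕ) (hL : 3 ≤ L) (n : ℕ) : ∀ i j : Fin L,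
    (cM R L ^ n) i j ≤ 7 ^ n * ∑ p ∈ P R n,
      (if |F p - ((i.val : ℝ) - (j.val : ℝ)) / L| ≤ 3 * n / L then (1 : ℝ) else 0) := by
  have hLr : (3 : ℝ) ≤ L := by exact_mod_cast hL
  have hL0 : (0 : ℝ) < L := by linarith
  induction n with
  | zero =>
    intro i j
    rw [pow_zero, pow_zero, one_mul]
    have hnn : ∀ p ∈ P R 0, (0 : ℝ) ≤ (if |F p - ((i.val : ℝ) - (j.val : ℝ)) / L| ≤
        3 * ((0 : ℕ) : ℝ) / L then (1 : ℝ) else 0) := by
      intro c _
      split_ifs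
      · exact zero_le_one
      · exact le_refl _
    by_cases h : i = j
    · subst h
      rw [Matrix.one_apply_eq]
      have hmem : ((Fin.elim0, Fin.elim0) : (Fin 0 → ℕ) × (Fin 0 → ℤ)) ∈ P R 0 :=
        Finset.mem_product.2 ⟨Fintype.mem_piFinset.2 fun s => s.elim0,
          Fintype.mem_piFinset.2 fun s => s.elim0⟩
      have h5 := Finset.single_le_sum hnn hmem
      refine le_trans (le_of_eq ?_) h5
      rw [if_pos]
      simp [F]
    · rw [Matrix.one_apply_ne h]
      exact Finset.sum_nonneg hnn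
  | succ n ih =>
    intro i j
    rw [pow_succ', Matrix.mul_apply]
    set T := Finset.Ico R (2 * R) ×ˢ Finset.Icc (-(4 * (R : ℤ))) (4 * (R : ℤ)) with hT
    set b : ℕ × ℤ → Fin L → ℝ := fun c k =>
      (if |((i.val : ℝ) - (k.val : ℝ)) / L - (c.2 : ℝ) / (c.1 : ℝ)| ≤ 3 / L then (1 : ℝ) else 0)
      with hb
    set w : (Fin n → ℕ) × (Fin n → ℤ) → Fin L → ℝ := fun p k =>
      (if |F p - ((k.val : ℝ) - (j.val : ℝ)) / L| ≤ 3 * n / L then (1 : ℝ) else 0) with hw
    have hb0 : ∀ c k, 0 ≤ b c k := by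
      intro c k
      simp only [hb]
      split_ifs
      · exact zero_le_one
      · exact le_refl _
    have hw0 : ∀ c k, 0 ≤ w c k := by
      intro c k
      simp only [hw]
      split_ifs
      · exact zero_le_one
      · exact le_refl _
    have h1 : ∀ k, cM R L i k * (cM R L ^ n) k j ≤
        ∑ c ∈ T, ∑ p ∈ P R n, 7 ^ n * (b c k * w p k) := by
      intro k
      have h2 : cM R L i k * (cM R L ^ n) k j ≤ cM R L i k * (7 ^ n * ∑ p ∈ P R n, w p k) :=
        mul_le_mul_of_nonneg_left (ih k j) (cM_nonneg R L i k)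
      have h3 : cM R L i k * (7 ^ n * ∑ p ∈ P R n, w p k) ≤
          (∑ c ∈ T, b c k) * (7 ^ n * ∑ p ∈ P R n, w p k) := by
        refine mul_le_mul_of_nonneg_right (entry R L hL i k) ?_
        exact mul_nonneg (by positivity) (Finset.sum_nonneg fun p _ => hw0 p k)
      refine h2.trans (h3.trans (le_of_eq ?_))
      rw [Finset.sum_mul]
      refine Finset.sum_congr rfl fun c _ => ?_
      rw [Finset.mul_sum, Finset.mul_sum]
      refine Finset.sum_congr rfl fun p _ => ?_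
      ring
    refine (Finset.sum_le_sum fun k _ => h1 k).trans ?_
    rw [sum_P_succ, Finset.sum_comm, Finset.mul_sum]
    refine Finset.sum_le_sum fun c _ => ?_
    rw [Finset.sum_comm, Finset.mul_sum]
    refine Finset.sum_le_sum fun p _ => ?_
    rw [← Finset.mul_sum, pow_succ, mul_assoc]
    refine mul_le_mul_of_nonneg_left ?_ (by positivity)
    rw [F_cons]
    split_ifs with hif
    · rw [mul_one]
      have h7 := seven L ((i.val : ℝ) - L * ((c.2 : ℝ) / (c.1 : ℝ)))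
      refine le_trans (Finset.sum_le_sum fun k _ => ?_) h7
      have hbk : b c k ≤ (if |((i.val : ℝ) - L * ((c.2 : ℝ) / (c.1 : ℝ))) - (k.val : ℝ)| ≤ 3
          then (1 : ℝ) else 0) := by
        simp only [hb]
        by_cases hx : |((i.val : ℝ) - (k.val : ℝ)) / L - (c.2 : ℝ) / (c.1 : ℝ)| ≤ 3 / L
        · rw [if_pos hx, if_pos]
          have e : ((i.val : ℝ) - L * ((c.2 : ℝ) / (c.1 : ℝ))) - (k.val : ℝ) =
              L * (((i.val : ℝ) - (k.val : ℝ)) / L - (c.2 : ℝ) / (c.1 : ℝ)) := by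
            rw [mul_sub, mul_div_cancel₀ _ hL0.ne']
            ring
          rw [e, abs_mul, abs_of_pos hL0]
          calc (L : ℝ) * |((i.val : ℝ) - (k.val : ℝ)) / L - (c.2 : ℝ) / (c.1 : ℝ)|
              ≤ L * (3 / L) := mul_le_mul_of_nonneg_left hx hL0.le
            _ = 3 := mul_div_cancel₀ _ hL0.ne'
        · rw [if_neg hx]
          split_ifs
          · exact zero_le_one
          · exact le_refl _
      have hwk : w p k ≤ 1 := by
        simp only [hw]
        split_ifs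
        · exact le_refl _
        · exact zero_le_one
      calc b c k * w p k ≤ b c k * 1 := mul_le_mul_of_nonneg_left hwk (hb0 c k)
        _ = b c k := mul_one _
        _ ≤ _ := hbk
    · rw [mul_zero]
      refine le_of_eq (Finset.sum_eq_zero fun k _ => ?_)
      simp only [hb, hw]
      by_cases hx : |((i.val : ℝ) - (k.val : ℝ)) / L - (c.2 : ℝ) / (c.1 : ℝ)| ≤ 3 / L
      · by_cases hy : |F p - ((k.val : ℝ) - (j.val : ℝ)) / L| ≤ 3 * n / L
        · exfalso
          apply hif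
          have e : (c.2 : ℝ) / (c.1 : ℝ) + F p - ((i.val : ℝ) - (j.val : ℝ)) / L =
              (F p - ((k.val : ℝ) - (j.val : ℝ)) / L) -
              (((i.val : ℝ) - (k.val : ℝ)) / L - (c.2 : ℝ) / (c.1 : ℝ)) := by
            field_simp
            ring
          rw [e]
          refine (abs_sub _ _).trans ?_
          have e2 : (3 : ℝ) * ((n + 1 : ℕ) : ℝ) / L = 3 * n / L + 3 / L := by
            push_cast
            ring
          rw [e2]
          exact add_le_add hy hx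
        · rw [if_neg hy, mul_zero]
      · rw [if_neg hx, zero_mul]

/-- The number of the numerators near a point. -/
lemma near (R L n : ℕ) (hR : 1 ≤ R) (hL : 6 * n * (2 * R) ^ n < L) (q : Fin n → ℕ)
    (hq : ∀ s, R ≤ q s ∧ q s < 2 * R) (x : ℝ) :
    ∑ a ∈ Fintype.piFinset (fun _ : Fin n => Finset.Icc (-(4 * (R : ℤ))) (4 * (R : ℤ))),
      (if |F (q, a) - x| ≤ 3 * n / L then (1 : ℝ) else 0) ≤
      (18 * (R : ℝ)) ^ n * (1 / ((Finset.univ.lcm q : ℕ) : ℝ)) := by
  classical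
  rw [← Finset.sum_filter, Finset.sum_const, nsmul_eq_mul, mul_one]
  set A := (Fintype.piFinset (fun _ : Fin n => Finset.Icc (-(4 * (R : ℤ))) (4 * (R : ℤ)))).filter
    (fun a => |F (q, a) - x| ≤ 3 * n / L) with hA
  have hq0 : ∀ s, 0 < q s := fun s => by have := (hq s).1; omega
  set l := Finset.univ.lcm q with hl
  have hl0 : 0 < l := by
    refine Nat.pos_of_ne_zero ?_
    rw [hl, Ne, Finset.lcm_eq_zero_iff]
    rintro ⟨s, -, hs⟩
    exact (hq0 s).ne' hs
  have hd : ∀ s, q s ∣ l := fun s => Finset.dvd_lcm (Finset.mem_univ s)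
  have hprod : ∏ s, q s ≤ (2 * R) ^ n := by
    calc ∏ s, q s ≤ ∏ _s : Fin n, (2 * R) := Finset.prod_le_prod' fun s _ => (hq s).2.le
      _ = (2 * R) ^ n := by rw [Finset.prod_const, Finset.card_univ, Fintype.card_fin]
  have hlp : l ≤ ∏ s, q s := by
    refine Nat.le_of_dvd (Finset.prod_pos fun s _ => hq0 s) ?_
    exact Finset.lcm_dvd fun s hs => Finset.dvd_prod_of_mem q hs
  have hl2 : l ≤ (2 * R) ^ n := hlp.trans hprod
  have hLpos : (0 : ℝ) < L := by
    have : 0 < L := by omega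
    exact_mod_cast this
  have hlr : (0 : ℝ) < l := by exact_mod_cast hl0
  have hF : ∀ a : Fin n → ℤ, (l : ℝ) * F (q, a) =
      ((∑ s, a s * ((l / q s : ℕ) : ℤ) : ℤ) : ℝ) := by
    intro a
    unfold F
    rw [Finset.mul_sum, Int.cast_sum]
    refine Finset.sum_congr rfl fun s _ => ?_
    rw [Int.cast_mul, Int.cast_natCast]
    have hqs : ((q s : ℕ) : ℝ) ≠ 0 := by exact_mod_cast (hq0 s).ne'
    have e : ((l / q s : ℕ) : ℝ) = (l : ℝ) / (q s : ℝ) := Nat.cast_div (hd s) hqs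
    rw [e]
    field_simp
  have heq : ∀ a ∈ A, ∀ a' ∈ A, ∑ s, a s * ((l / q s : ℕ) : ℤ) = ∑ s, a' s * ((l / q s : ℕ) : ℤ) := by
    intro a ha a' ha'
    have h1 := (Finset.mem_filter.1 ha).2
    have h2 := (Finset.mem_filter.1 ha').2
    have h3 : |F (q, a) - F (q, a')| ≤ 6 * n / L := by
      have e : F (q, a) - F (q, a') = (F (q, a) - x) - (F (q, a') - x) := by ring
      rw [e]
      refine (abs_sub _ _).trans ?_
      have e2 : (6 : ℝ) * n / L = 3 * n / L + 3 * n / L := by ring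
      rw [e2]
      exact add_le_add h1 h2
    have h4 : |((∑ s, a s * ((l / q s : ℕ) : ℤ) - ∑ s, a' s * ((l / q s : ℕ) : ℤ) : ℤ) : ℝ)| < 1 := by
      rw [Int.cast_sub, ← hF a, ← hF a', ← mul_sub, abs_mul, abs_of_pos hlr]
      calc (l : ℝ) * |F (q, a) - F (q, a')| ≤ l * (6 * n / L) :=
            mul_le_mul_of_nonneg_left h3 hlr.le
        _ = (6 * n * l) / L := by ring
        _ < 1 := by
          rw [div_lt_one hLpos]
          have h5 : 6 * n * l ≤ 6 * n * (2 * R) ^ n := Nat.mul_le_mul_left _ hl2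
          exact_mod_cast lt_of_le_of_lt h5 hL
    have h5 : |∑ s, a s * ((l / q s : ℕ) : ℤ) - ∑ s, a' s * ((l / q s : ℕ) : ℤ)| < 1 := by
      exact_mod_cast h4
    have h6 := Int.abs_lt_one_iff.1 h5
    linarith
  have hcount : A.card * l ≤ 9 ^ n * ∏ s, q s := by
    rcases A.eq_empty_or_nonempty with hE | ⟨a₀, ha₀⟩
    · rw [hE, Finset.card_empty, zero_mul]
      exact Nat.zero_le _
    · refine count q hq0 A (∑ s, a₀ s * ((l / q s : ℕ) : ℤ)) fun a ha => ⟨fun s => ?_,
        heq a ha a₀ ha₀⟩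
      have h1 := Fintype.mem_piFinset.1 (Finset.mem_filter.1 ha).1 s
      have h2 := Finset.mem_Icc.1 h1
      have h3 : (R : ℤ) ≤ q s := by exact_mod_cast (hq s).1
      constructor
      · linarith [h2.1]
      · linarith [h2.2]
  have h7 : A.card * l ≤ (18 * R) ^ n := by
    refine hcount.trans ?_
    calc 9 ^ n * ∏ s, q s ≤ 9 ^ n * (2 * R) ^ n := Nat.mul_le_mul_left _ hprod
      _ = (18 * R) ^ n := by rw [← mul_pow]; congr 1; ring
  have h8 : (A.card : ℝ) * l ≤ (18 * (R : ℝ)) ^ n := by exact_mod_cast h7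
  rw [mul_one_div, le_div_iff₀ hlr]
  exact h8

end ENT

open ENT in
theorem t_ENT : M_ENT := by
  intro hLCB n ε hn hε
  obtain ⟨C, hC, hlcm⟩ := hLCB n ε hε
  refine ⟨6 * n * 2 ^ n + 1, 126 ^ n * C, by positivity, ?_⟩
  intro R L hR hL i j
  have hRn : 1 ≤ R ^ n := Nat.one_le_pow _ _ hR
  have hL1 : 6 * n * (2 * R) ^ n < L := by
    have h1 : (6 * n * 2 ^ n + 1) * R ^ n = 6 * n * (2 * R) ^ n + R ^ n := by
      rw [mul_pow]
      ring
    omega
  have hL3 : 3 ≤ L := by
    have h1 : 1 ≤ (2 * R) ^ n := Nat.one_le_pow _ _ (by omega)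
    have h2 : 6 * 1 * 1 ≤ 6 * n * (2 * R) ^ n :=
      Nat.mul_le_mul (Nat.mul_le_mul_left 6 hn) h1
    omega
  have hRr : (0 : ℝ) < R := by exact_mod_cast hR
  refine (path R L hL3 n i j).trans ?_
  have h1 : ∑ p ∈ P R n,
      (if |F p - ((i.val : ℝ) - (j.val : ℝ)) / L| ≤ 3 * n / L then (1 : ℝ) else 0) ≤
      ∑ q ∈ Fintype.piFinset (fun _ : Fin n => Finset.Ico R (2 * R)),
        (18 * (R : ℝ)) ^ n * (1 / ((Finset.univ.lcm q : ℕ) : ℝ)) := by
    unfold P
    rw [Finset.sum_product]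
    refine Finset.sum_le_sum fun q hq => ?_
    have hq' : ∀ s, R ≤ q s ∧ q s < 2 * R := fun s =>
      Finset.mem_Ico.1 (Fintype.mem_piFinset.1 hq s)
    exact near R L n hR hL1 q hq' _
  rw [← Finset.mul_sum] at h1
  have h2 := hlcm R hR
  calc (7 : ℝ) ^ n * ∑ p ∈ P R n,
      (if |F p - ((i.val : ℝ) - (j.val : ℝ)) / L| ≤ 3 * n / L then (1 : ℝ) else 0)
      ≤ 7 ^ n * ((18 * (R : ℝ)) ^ n *
        ∑ q ∈ Fintype.piFinset (fun _ : Fin n => Finset.Ico R (2 * R)),
          (1 : ℝ) / ((Finset.univ.lcm q : ℕ) : ℝ)) :=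
        mul_le_mul_of_nonneg_left h1 (by positivity)
    _ ≤ 7 ^ n * ((18 * (R : ℝ)) ^ n * (C * (R : ℝ) ^ ε)) := by
        refine mul_le_mul_of_nonneg_left ?_ (by positivity)
        exact mul_le_mul_of_nonneg_left h2 (by positivity)
    _ = 126 ^ n * C * (R : ℝ) ^ ((n : ℝ) + ε) := by
        rw [Real.rpow_add hRr, Real.rpow_natCast, mul_pow]
        have e : (126 : ℝ) ^ n = 7 ^ n * 18 ^ n := by
          rw [← mul_pow]
          norm_num
        rw [e]
        ring

end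

end STZ3
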