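import Pool.Agent.STZ3.StD3

/-!
# ESD: mixed differences of the exponential factor (helper80)

`Good d U K F`: all mixed differences of the function `F` of sets (subsets of `U`) are bounded by `K` times the product of
the numbers `d p`. This is stable under products; the exponential of a quadratic function of the set is a product of functions
`S ↦ if R ⊆ S then y else 1`.
-/

set_option autoImplicit false

namespace STZ3

open STZ LGR MeasureTheory Matrix Filter

open scoped ComplexConjugate Matrix Real Topology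

noncomputable section

namespace ESD

variable {ι : Type} [DecidableEq ι]

theorem cd_insert {p : ι} {A : Finset ι} (hp : p ∉ A) (T : Finset ι) (F : Finset ι → ℝ) :
    cd (insert p A) T F = cd A T F - cd A (insert p T) F := by
  unfold cd
  rw [Finset.sum_powerset_insert hp, sub_eq_add_neg, ← Finset.sum_neg_distrib]
  congr 1
  refine Finset.sum_congr rfl fun S hS => ?_
  have hpS : p ∉ S := fun h => hp (Finset.mem_powerset.1 hS h)
  rw [Finset.card_insert_of_notMem hpS, pow_succ, Finset.insert_union, Finset.union_insert]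
  ring

theorem cd_empty (T : Finset ι) (F : Finset ι → ℝ) : cd ∅ T F = F T := by
  unfold cd
  simp

theorem cd_add (A T : Finset ι) (F G : Finset ι → ℝ) :
    cd A T (fun S => F S + G S) = cd A T F + cd A T G := by
  unfold cd
  rw [← Finset.sum_add_distrib]
  exact Finset.sum_congr rfl fun S _ => by ring

/-- all mixed differences are small -/
def Good (d : ι → ℝ) (U : Finset ι) (K : ℝ) (F : Finset ι → ℝ) : Prop :=
  ∀ A T : Finset ι, A ⊆ U → T ⊆ U → Disjoint A T → |cd A T F| ≤ K * ∏ p ∈ A, d p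

theorem Good.sub {d : ι → ℝ} {U U' : Finset ι} {K : ℝ} {F : Finset ι → ℝ} (h : Good d U K F)
    (hU : U' ⊆ U) : Good d U' K F := fun A T hA hT hd => h A T (hA.trans hU) (hT.trans hU) hd

theorem Good.mono {d : ι → ℝ} (hd : ∀ p, 0 ≤ d p) {U : Finset ι} {K K' : ℝ}
    {F : Finset ι → ℝ} (h : Good d U K F) (hK : K ≤ K') : Good d U K' F := fun A T hA hT hdj =>
  (h A T hA hT hdj).trans (mul_le_mul_of_nonneg_right hK (Finset.prod_nonneg fun p _ => hd p))

theorem Good.shift {d : ι → ℝ} {U : Finset ι} {K : ℝ} {F : Finset ι → ℝ} (h : Good d U K F)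
    {p : ι} (hp : p ∈ U) : Good d (U.erase p) K (fun S => F (insert p S)) := by
  intro A T hA hT hd
  have h1 : cd A T (fun S => F (insert p S)) = cd A (insert p T) F := by
    unfold cd
    refine Finset.sum_congr rfl fun S _ => ?_
    rw [Finset.union_insert]
  rw [h1]
  refine h A (insert p T) (hA.trans (Finset.erase_subset _ _))
    (Finset.insert_subset hp (hT.trans (Finset.erase_subset _ _))) ?_
  rw [Finset.disjoint_insert_right]
  exact ⟨fun h => (Finset.mem_erase.1 (hA h)).1 rfl, hd⟩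

theorem Good.diff {d : ι → ℝ} {U : Finset ι} {K : ℝ} {F : Finset ι → ℝ} (h : Good d U K F)
    {p : ι} (hp : p ∈ U) : Good d (U.erase p) (K * d p) (fun S => F S - F (insert p S)) := by
  intro A T hA hT hd
  have hpA : p ∉ A := fun h => (Finset.mem_erase.1 (hA h)).1 rfl
  have hpT : p ∉ T := fun h => (Finset.mem_erase.1 (hT h)).1 rfl
  have h1 : cd A T (fun S => F S - F (insert p S)) = cd (insert p A) T F := by
    rw [cd_insert hpA]
    unfold cd
    rw [← Finset.sum_sub_distrib]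
    refine Finset.sum_congr rfl fun S _ => ?_
    rw [Finset.union_insert]
    ring
  rw [h1]
  refine (h (insert p A) T (Finset.insert_subset hp (hA.trans (Finset.erase_subset _ _)))
    (hT.trans (Finset.erase_subset _ _)) ?_).trans (le_of_eq ?_)
  · rw [Finset.disjoint_insert_left]
    exact ⟨hpT, hd⟩
  · rw [Finset.prod_insert hpA]
    ring

/-- the product rule -/
theorem mul_aux (d : ι → ℝ) (A : Finset ι) : ∀ (U T : Finset ι) (K K' : ℝ)
    (F G : Finset ι → ℝ), Good d U K F → Good d U K' G → A ⊆ U → T ⊆ U → Disjoint A T →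
    |cd A T (fun S => F S * G S)| ≤ 2 ^ A.card * (K * K') * ∏ p ∈ A, d p := by
  induction A using Finset.induction_on with
  | empty =>
    intro U T K K' F G hF hG hA hT hd
    have h1 := hF ∅ T hA hT hd
    have h2 := hG ∅ T hA hT hd
    rw [cd_empty] at h1 h2 ⊢
    rw [Finset.prod_empty, mul_one] at h1 h2
    rw [abs_mul]
    simp only [Finset.card_empty, pow_zero, one_mul, Finset.prod_empty, mul_one]
    exact mul_le_mul h1 h2 (abs_nonneg _) ((abs_nonneg _).trans h1)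
  | insert p A hp ih =>
    intro U T K K' F G hF hG hA hT hd
    rw [Finset.disjoint_insert_left] at hd
    obtain ⟨hpU, hAU⟩ := Finset.insert_subset_iff.1 hA
    have hA' : A ⊆ U.erase p := Finset.subset_erase.2 ⟨hAU, hp⟩
    have hT' : T ⊆ U.erase p := Finset.subset_erase.2 ⟨hT, hd.1⟩
    have h1 := ih (U.erase p) T (K * d p) K' (fun S => F S - F (insert p S)) G (hF.diff hpU)
      (hG.sub (Finset.erase_subset _ _)) hA' hT' hd.2
    have h2 := ih (U.erase p) T K (K' * d p) (fun S => F (insert p S))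
      (fun S => G S - G (insert p S)) (hF.shift hpU) (hG.diff hpU) hA' hT' hd.2
    have h3 : cd (insert p A) T (fun S => F S * G S) =
        cd A T (fun S => (F S - F (insert p S)) * G S) +
          cd A T (fun S => F (insert p S) * (G S - G (insert p S))) := by
      rw [cd_insert hp, ← cd_add]
      unfold cd
      rw [← Finset.sum_sub_distrib]
      refine Finset.sum_congr rfl fun S _ => ?_
      rw [Finset.union_insert]
      ring
    rw [h3]
    refine (abs_add_le _ _).trans ((add_le_add h1 h2).trans (le_of_eq ?_))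
    rw [Finset.card_insert_of_notMem hp, Finset.prod_insert hp, pow_succ]
    ring

theorem Good.mul [Fintype ι] {d : ι → ℝ} (hd : ∀ p, 0 ≤ d p) {U : Finset ι} {K K' : ℝ}
    (hK : 0 ≤ K) (hK' : 0 ≤ K') {F G : Finset ι → ℝ} (hF : Good d U K F) (hG : Good d U K' G) :
    Good d U (2 ^ Fintype.card ι * (K * K')) (fun S => F S * G S) := by
  intro A T hA hT hdj
  refine (mul_aux d A U T K K' F G hF hG hA hT hdj).trans ?_
  refine mul_le_mul_of_nonneg_right ?_ (Finset.prod_nonneg fun p _ => hd p)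
  refine mul_le_mul_of_nonneg_right ?_ (mul_nonneg hK hK')
  exact pow_le_pow_right₀ one_le_two (Finset.card_le_univ A)

/-- the elementary functions -/
def el (R : Finset ι) (y : ℝ) (S : Finset ι) : ℝ := if R ⊆ S then y else 1

theorem cd_el (R : Finset ι) (y : ℝ) (A : Finset ι) : ∀ T : Finset ι, Disjoint A T →
    cd A T (el R y) = if A = ∅ then el R y T else
      if A ⊆ R ∧ R ⊆ A ∪ T then (-1 : ℝ) ^ A.card * (y - 1) else 0 := by
  induction A using Finset.induction_on with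
  | empty =>
    intro T _
    rw [cd_empty, if_pos rfl]
  | insert p A hp ih =>
    intro T hd
    rw [Finset.disjoint_insert_left] at hd
    have hd2 : Disjoint A (insert p T) := by
      rw [Finset.disjoint_insert_right]
      exact ⟨hp, hd.2⟩
    rw [cd_insert hp, ih T hd.2, ih (insert p T) hd2, if_neg (Finset.insert_ne_empty p A),
      Finset.card_insert_of_notMem hp]
    have hpT := hd.1
    rcases A.eq_empty_or_nonempty with rfl | hA
    · rw [if_pos rfl, if_pos rfl]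
      simp only [insert_empty_eq, Finset.singleton_subset_iff, Finset.card_empty, zero_add, pow_one]
      unfold el
      have e1 : ({p} : Finset ι) ∪ T = insert p T := rfl
      rw [e1]
      by_cases h1 : p ∈ R
      · have h2 : ¬ R ⊆ T := fun h => hpT (h h1)
        rw [if_neg h2]
        by_cases h3 : R ⊆ insert p T
        · rw [if_pos h3, if_pos ⟨h1, h3⟩]
          ring
        · rw [if_neg h3, if_neg fun h => h3 h.2]
          ring
      · have h2 : R ⊆ insert p T ↔ R ⊆ T := by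
          rw [Finset.subset_insert_iff, Finset.erase_eq_of_notMem h1]
        rw [if_neg fun h : p ∈ R ∧ R ⊆ insert p T => h1 h.1]
        simp only [h2]
        ring
    · rw [if_neg hA.ne_empty, if_neg hA.ne_empty]
      have e1 : A ∪ insert p T = insert p A ∪ T := by
        rw [Finset.union_insert, Finset.insert_union]
      have e2 : insert p A ∪ T = insert p (A ∪ T) := Finset.insert_union _ _ _
      rw [e1]
      by_cases h1 : p ∈ R
      · have h2 : ¬ (A ⊆ R ∧ R ⊆ A ∪ T) := by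
          rintro ⟨-, h⟩
          rcases Finset.mem_union.1 (h h1) with h | h
          · exact hp h
          · exact hpT h
        rw [if_neg h2]
        by_cases h3 : A ⊆ R ∧ R ⊆ insert p A ∪ T
        · rw [if_pos h3, if_pos ⟨Finset.insert_subset h1 h3.1, h3.2⟩, pow_succ]
          ring
        · rw [if_neg h3, if_neg fun h => h3 ⟨(Finset.subset_insert _ _).trans h.1, h.2⟩]
          ring
      · have h2 : R ⊆ insert p A ∪ T ↔ R ⊆ A ∪ T := by
          rw [e2, Finset.subset_insert_iff, Finset.erase_eq_of_notMem h1]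
        rw [if_neg fun h : insert p A ⊆ R ∧ R ⊆ insert p A ∪ T =>
          h1 (h.1 (Finset.mem_insert_self _ _))]
        simp only [h2]
        ring

theorem good_el {d : ι → ℝ} (hd : ∀ p, 0 ≤ d p) (hd1 : ∀ p, d p ≤ 1) (U R : Finset ι) {K y : ℝ}
    (hK : 1 ≤ K) (hy : |y| ≤ K) (hy1 : |y - 1| ≤ K * ∏ p ∈ R, d p) : Good d U K (el R y) := by
  intro A T _ _ hdj
  have hP : 0 ≤ ∏ p ∈ A, d p := Finset.prod_nonneg fun p _ => hd p
  have hK0 : 0 ≤ K := by linarith
  rw [cd_el R y A T hdj]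
  split
  · rename_i h
    subst h
    rw [Finset.prod_empty, mul_one]
    unfold el
    split
    · exact hy
    · rw [abs_one]
      exact hK
  · split
    · rename_i h
      rw [abs_mul, abs_pow, abs_neg, abs_one, one_pow, one_mul]
      refine hy1.trans (mul_le_mul_of_nonneg_left ?_ hK0)
      rw [← Finset.prod_sdiff h.1]
      exact mul_le_of_le_one_left hP (Finset.prod_le_one (fun p _ => hd p) fun p _ => hd1 p)
    · rw [abs_zero]
      exact mul_nonneg hK0 hP

theorem good_prod [Fintype ι] {d : ι → ℝ} (hd : ∀ p, 0 ≤ d p) (hd1 : ∀ p, d p ≤ 1)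
    (U : Finset ι) {κ : Type} [DecidableEq κ] (s : Finset κ) {K : ℝ} (hK : 1 ≤ K)
    (F : κ → Finset ι → ℝ) (hF : ∀ i, Good d U K (F i)) :
    Good d U ((2 ^ Fintype.card ι * K) ^ s.card) (fun S => ∏ i ∈ s, F i S) := by
  induction s using Finset.induction_on with
  | empty =>
    have h1 : (fun S : Finset ι => ∏ i ∈ (∅ : Finset κ), F i S) = el ∅ 1 := by
      funext S
      unfold el
      simp
    rw [h1]
    refine good_el hd hd1 U ∅ ?_ ?_ ?_ <;> simp
  | insert i s hi ih =>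
    have h1 : (fun S : Finset ι => ∏ j ∈ insert i s, F j S) =
        fun S => F i S * ∏ j ∈ s, F j S := by
      funext S
      rw [Finset.prod_insert hi]
    rw [h1]
    have h2 := (hF i).mul hd (by linarith) (by positivity) ih
    have h3 : 2 ^ Fintype.card ι * (K * (2 ^ Fintype.card ι * K) ^ s.card) =
        (2 ^ Fintype.card ι * K) ^ (insert i s).card := by
      rw [Finset.card_insert_of_notMem hi, pow_succ]
      ring
    rw [h3] at h2
    exact h2

theorem exp_sub {v w : ℝ} (h : |v| ≤ w) : |Real.exp v - 1| ≤ w * Real.exp w := by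
  have hw : 0 ≤ w := (abs_nonneg v).trans h
  have h1 : |v| * Real.exp |v| ≤ w * Real.exp w :=
    mul_le_mul h (Real.exp_le_exp.2 h) (Real.exp_pos _).le hw
  refine le_trans ?_ h1
  rcases le_total 0 v with hv | hv
  · rw [abs_of_nonneg hv]
    have h2 : 1 ≤ Real.exp v := Real.one_le_exp hv
    rw [abs_of_nonneg (by linarith)]
    have h3 := Real.add_one_le_exp (-v)
    have h4 : Real.exp v * Real.exp (-v) = 1 := by rw [← Real.exp_add]; simp
    have h5 : Real.exp v * (-v + 1) ≤ 1 :=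
      (mul_le_mul_of_nonneg_left h3 (Real.exp_pos v).le).trans (le_of_eq h4)
    linarith
  · have h2 : Real.exp v ≤ 1 := Real.exp_le_one_iff.2 hv
    rw [abs_of_nonpos (by linarith : Real.exp v - 1 ≤ 0)]
    have h3 := Real.add_one_le_exp v
    have h4 : 1 ≤ Real.exp |v| := Real.one_le_exp (abs_nonneg _)
    have h5 : |v| ≤ |v| * Real.exp |v| := le_mul_of_one_le_right (abs_nonneg _) h4
    rw [abs_of_nonpos hv] at h5 ⊢
    linarith

/-- the constant for the elementary factors -/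
def kc (C : ℝ) : ℝ := (1 + C) * Real.exp C

theorem one_le_kc {C : ℝ} (hC : 0 ≤ C) : 1 ≤ kc C := by
  unfold kc
  have h := Real.one_le_exp hC
  nlinarith

theorem good_exp {d : ι → ℝ} (hd : ∀ p, 0 ≤ d p) (hd1 : ∀ p, d p ≤ 1) (U R : Finset ι) {C v : ℝ}
    (hC : 0 ≤ C) (hv : |v| ≤ C * ∏ p ∈ R, d p) : Good d U (kc C) (el R (Real.exp v)) := by
  have hP1 : ∏ p ∈ R, d p ≤ 1 := Finset.prod_le_one (fun p _ => hd p) fun p _ => hd1 p
  have hP0 : 0 ≤ ∏ p ∈ R, d p := Finset.prod_nonneg fun p _ => hd p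
  have hvC : |v| ≤ C := hv.trans (mul_le_of_le_one_right hC hP1)
  have he : 0 < Real.exp C := Real.exp_pos _
  refine good_el hd hd1 U R (one_le_kc hC) ?_ ?_
  · rw [abs_of_pos (Real.exp_pos _)]
    have h1 : Real.exp v ≤ Real.exp C := Real.exp_le_exp.2 ((le_abs_self v).trans hvC)
    unfold kc
    nlinarith
  · refine (exp_sub hv).trans ?_
    have h1 : Real.exp (C * ∏ p ∈ R, d p) ≤ Real.exp C :=
      Real.exp_le_exp.2 (mul_le_of_le_one_right hC hP1)
    calc (C * ∏ p ∈ R, d p) * Real.exp (C * ∏ p ∈ R, d p)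
        ≤ (C * ∏ p ∈ R, d p) * Real.exp C :=
          mul_le_mul_of_nonneg_left h1 (mul_nonneg hC hP0)
      _ = C * Real.exp C * ∏ p ∈ R, d p := by ring
      _ ≤ kc C * ∏ p ∈ R, d p := by
          refine mul_le_mul_of_nonneg_right ?_ hP0
          unfold kc
          nlinarith

/-- the constant -/
def KF (n : ℕ) (C : ℝ) : ℝ :=
  2 ^ n * (kc C * (2 ^ n * ((2 ^ n * kc C) ^ n * (2 ^ n * kc C) ^ (n * n))))

/-- mixed differences of the exponential of a quadratic function -/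
theorem quad [Fintype ι] {d : ι → ℝ} (hd : ∀ p, 0 ≤ d p) (hd1 : ∀ p, d p ≤ 1) {C : ℝ}
    (hC : 0 ≤ C) {c₀ : ℝ} {u : ι → ℝ} {g : ι → ι → ℝ} (h0 : |c₀| ≤ C)
    (hu : ∀ p, |u p| ≤ C * d p) (hg : ∀ p q, |g p q| ≤ C * ∏ x ∈ ({p, q} : Finset ι), d x)
    (A T : Finset ι) (hdj : Disjoint A T) :
    |cd A T (fun S => Real.exp (c₀ + ∑ p ∈ S, u p + ∑ p ∈ S, ∑ q ∈ S, g p q))| ≤
      KF (Fintype.card ι) C * ∏ p ∈ A, d p := by
  have hk := one_le_kc hC
  have g1 : Good d Finset.univ (kc C) (el ∅ (Real.exp c₀)) :=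
    good_exp hd hd1 _ ∅ hC (by rw [Finset.prod_empty, mul_one]; exact h0)
  have g2 := good_prod hd hd1 Finset.univ (Finset.univ : Finset ι) hk
    (fun p => el {p} (Real.exp (u p)))
    (fun p => good_exp hd hd1 _ {p} hC (by rw [Finset.prod_singleton]; exact hu p))
  have g3 := good_prod hd hd1 Finset.univ (Finset.univ : Finset (ι × ι)) hk
    (fun x => el {x.1, x.2} (Real.exp (g x.1 x.2)))
    (fun x => good_exp hd hd1 _ {x.1, x.2} hC (hg x.1 x.2))
  rw [Finset.card_univ] at g2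
  rw [Finset.card_univ, Fintype.card_prod] at g3
  have g4 := g1.mul hd (by linarith) (by positivity) (g2.mul hd (by positivity) (by positivity) g3)
  have h5 := g4 A T (Finset.subset_univ _) (Finset.subset_univ _) hdj
  have h6 : (fun S : Finset ι => Real.exp (c₀ + ∑ p ∈ S, u p + ∑ p ∈ S, ∑ q ∈ S, g p q)) =
      fun S => el ∅ (Real.exp c₀) S * ((∏ p ∈ (Finset.univ : Finset ι), el {p} (Real.exp (u p)) S) *
        ∏ x ∈ (Finset.univ : Finset (ι × ι)), el {x.1, x.2} (Real.exp (g x.1 x.2)) S) := by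
    funext S
    have e1 : el ∅ (Real.exp c₀) S = Real.exp c₀ := if_pos (Finset.empty_subset _)
    have e2 : ∏ p ∈ (Finset.univ : Finset ι), el {p} (Real.exp (u p)) S =
        Real.exp (∑ p ∈ S, u p) := by
      rw [Real.exp_sum]
      unfold el
      simp only [Finset.singleton_subset_iff]
      rw [Finset.prod_ite_mem, Finset.univ_inter]
    have e3 : ∏ x ∈ (Finset.univ : Finset (ι × ι)), el {x.1, x.2} (Real.exp (g x.1 x.2)) S =
        Real.exp (∑ p ∈ S, ∑ q ∈ S, g p q) := by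
      rw [Real.exp_sum, Fintype.prod_prod_type]
      have e4 : ∀ p, ∏ q, el {p, q} (Real.exp (g p q)) S =
          if p ∈ S then Real.exp (∑ q ∈ S, g p q) else 1 := by
        intro p
        unfold el
        simp only [Finset.insert_subset_iff, Finset.singleton_subset_iff]
        by_cases hp : p ∈ S
        · rw [if_pos hp, Real.exp_sum]
          simp only [hp, true_and]
          rw [Finset.prod_ite_mem, Finset.univ_inter]
        · rw [if_neg hp]
          simp only [hp, false_and, if_false]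
          exact Finset.prod_const_one
      simp only [e4]
      rw [Finset.prod_ite_mem, Finset.univ_inter]
    rw [e1, e2, e3, Real.exp_add, Real.exp_add]
    ring
  rw [h6]
  exact h5

/-! ### the exponent -/

section form

variable {r : ℕ}

theorem ip_add_left (Φ : RT r) (x y z : Fin r → ℤ) : ip Φ (x + y) z = ip Φ x z + ip Φ y z := by
  unfold ip
  rw [add_dotProduct]
  push_cast
  ring

theorem ip_add_right (Φ : RT r) (x y z : Fin r → ℤ) : ip Φ x (y + z) = ip Φ x y + ip Φ x z := by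
  unfold ip
  rw [Matrix.mulVec_add, dotProduct_add]
  push_cast
  ring

theorem ip_neg_left (Φ : RT r) (x z : Fin r → ℤ) : ip Φ (-x) z = -ip Φ x z := by
  unfold ip
  rw [neg_dotProduct]
  push_cast
  ring

theorem ip_neg_right (Φ : RT r) (x z : Fin r → ℤ) : ip Φ x (-z) = -ip Φ x z := by
  unfold ip
  rw [Matrix.mulVec_neg, dotProduct_neg]
  push_cast
  ring

theorem ip_sum_left (Φ : RT r) {κ : Type} (s : Finset κ) (f : κ → Fin r → ℤ) (z : Fin r → ℤ) :
    ip Φ (∑ i ∈ s, f i) z = ∑ i ∈ s, ip Φ (f i) z := by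
  classical
  induction s using Finset.induction_on with
  | empty =>
    unfold ip
    simp
  | insert i s hi ih => rw [Finset.sum_insert hi, Finset.sum_insert hi, ip_add_left, ih]

theorem ip_sum_right (Φ : RT r) {κ : Type} (s : Finset κ) (f : κ → Fin r → ℤ) (z : Fin r → ℤ) :
    ip Φ z (∑ i ∈ s, f i) = ∑ i ∈ s, ip Φ z (f i) := by
  classical
  induction s using Finset.induction_on with
  | empty =>
    unfold ip
    simp
  | insert i s hi ih => rw [Finset.sum_insert hi, Finset.sum_insert hi, ip_add_right, ih]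

/-- facts on the form -/
structure FF' (Φ : RT r) : Prop where
  sym : ∀ x y, ip Φ x y = ip Φ y x
  two : ∀ x, ((rd Φ).Q x : ℝ) = ip Φ x x / 2
  root : ∀ p ∈ pos Φ, ∀ l, ip Φ p.1 l = ((p.2 ⬝ᵥ l : ℤ) : ℝ) * ((rd Φ).Q p.1 : ℝ)
  one : ∀ l, ip Φ l 1 = ∑ p ∈ pos Φ, 2 * (((p.2 ⬝ᵥ l : ℤ) : ℝ) * ((p.2 ⬝ᵥ (1 : Fin r → ℤ) : ℤ) : ℝ))

theorem ff {Φ : RT r} {B : Matrix (Fin r) (Fin r) ℤ} (hQ : S_QUAD) (hI : IRD Φ B)
    (hF : WFF Φ B) : FF' Φ := by
  obtain ⟨-, hqf, hsym, htwo, -, -, hroot⟩ := hQ r Φ B hI hF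
  have h1 : ∀ x, ((rd Φ).Q x : ℝ) = ip Φ x x / 2 := by
    intro x
    have h := htwo x
    unfold ip
    rw [h]
    push_cast
    ring
  refine ⟨?_, h1, ?_, ?_⟩
  · intro x y
    unfold ip
    have h : x ⬝ᵥ ((rd Φ).A *ᵥ y) = y ⬝ᵥ ((rd Φ).A *ᵥ x) := by
      rw [Matrix.dotProduct_mulVec, dotProduct_comm, ← Matrix.mulVec_transpose, hsym]
    rw [h]
  · intro p hp l
    have h := (hroot p (hF.ppos p hp).1).2 l
    have h2 := htwo p.1
    rw [h2] at h
    have h3 : p.1 ⬝ᵥ ((rd Φ).A *ᵥ l) = (p.2 ⬝ᵥ l) * (rd Φ).Q p.1 := by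
      have : 2 * (p.1 ⬝ᵥ ((rd Φ).A *ᵥ l)) = 2 * ((p.2 ⬝ᵥ l) * (rd Φ).Q p.1) := by
        rw [h]
        ring
      exact mul_left_cancel₀ two_ne_zero this
    unfold ip
    rw [h3]
    push_cast
    ring
  · intro l
    have h := hqf.polar l 1
    have h2 : l ⬝ᵥ ((rd Φ).A *ᵥ 1) = ∑ p ∈ pos Φ, 2 * ((p.2 ⬝ᵥ l) * (p.2 ⬝ᵥ (1 : Fin r → ℤ))) := by
      have h3 : l ⬝ᵥ ((rd Φ).A *ᵥ 1) = (rd Φ).Q (l + 1) - (rd Φ).Q l - (rd Φ).Q 1 := by
        rw [h]
        ring
      rw [h3]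
      show ∑ p ∈ pos Φ, (p.2 ⬝ᵥ (l + 1)) ^ 2 - ∑ p ∈ pos Φ, (p.2 ⬝ᵥ l) ^ 2 -
        ∑ p ∈ pos Φ, (p.2 ⬝ᵥ (1 : Fin r → ℤ)) ^ 2 = _
      rw [← Finset.sum_sub_distrib, ← Finset.sum_sub_distrib]
      refine Finset.sum_congr rfl fun p _ => ?_
      rw [dotProduct_add]
      ring
    unfold ip
    rw [h2]
    push_cast
    rfl

/-- the exponent as a quadratic function of the set -/
theorem es_eq {Φ : RT r} (hf : FF' Φ) (a : {p // p ∈ pos Φ}) (t₁ t₂ : ℝ)
    (S : Finset {p // p ∈ pos Φ}) (m : Fin r → ℤ) :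
    es Φ a.1 t₁ t₂ (S.image Subtype.val) m =
      (t₂ * ip Φ a.1.1 m + 2 * t₁ * ip Φ m 1 - t₁ * ip Φ a.1.1 m) +
      (∑ p ∈ S, (-2 * t₁ * (ip Φ m p.1.1 + ip Φ 1 p.1.1) +
        if p = a then (2 * t₁ - 2 * t₂) * ip Φ a.1.1 m else 0)) +
      ∑ p ∈ S, ∑ q ∈ S, t₁ * ip Φ p.1.1 q.1.1 := by
  have hsum : ∑ p ∈ S.image Subtype.val, p.1 = ∑ p ∈ S, p.1.1 :=
    Finset.sum_image fun x _ y _ h => Subtype.ext h
  have hmem : a.1 ∈ S.image Subtype.val ↔ a ∈ S := by
    rw [Finset.mem_image]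
    constructor
    · rintro ⟨b, hb, h⟩
      rwa [← Subtype.ext h]
    · exact fun h => ⟨a, h, rfl⟩
  set σ : Fin r → ℤ := ∑ p ∈ S, p.1.1 with hσ
  have e1 : ∑ p ∈ S, ∑ q ∈ S, t₁ * ip Φ p.1.1 q.1.1 = t₁ * ip Φ σ σ := by
    rw [hσ, ip_sum_left, Finset.mul_sum]
    refine Finset.sum_congr rfl fun p _ => ?_
    rw [ip_sum_right, Finset.mul_sum]
  have e2 : ∑ p ∈ S, (-2 * t₁ * (ip Φ m p.1.1 + ip Φ 1 p.1.1) +
      if p = a then (2 * t₁ - 2 * t₂) * ip Φ a.1.1 m else 0) =
      -2 * t₁ * (ip Φ m σ + ip Φ 1 σ) +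
        if a ∈ S then (2 * t₁ - 2 * t₂) * ip Φ a.1.1 m else 0 := by
    rw [Finset.sum_add_distrib, Finset.sum_ite_eq', ← Finset.mul_sum, Finset.sum_add_distrib,
      hσ, ip_sum_right, ip_sum_right]
  have e3 : ((rd Φ).Q (m + 1 - σ) : ℝ) = ((rd Φ).Q m : ℝ) + (rd Φ).Q 1 + ip Φ σ σ / 2 +
      ip Φ m 1 - ip Φ m σ - ip Φ 1 σ := by
    rw [hf.two, hf.two, hf.two, sub_eq_add_neg]
    simp only [ip_add_left, ip_add_right, ip_neg_left, ip_neg_right]
    rw [hf.sym 1 m, hf.sym σ m, hf.sym σ 1]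
    ring
  unfold es
  rw [hsum, e1, e2, e3]
  by_cases h : a ∈ S
  · rw [if_pos (hmem.2 h), if_pos h]
    have e4 : CL Φ a.1 (m - a.1.1) = ((rd Φ).Q m : ℝ) - ip Φ a.1.1 m / 2 := by
      unfold CL
      rw [hf.two, hf.two, sub_eq_add_neg]
      simp only [ip_add_left, ip_add_right, ip_neg_left, ip_neg_right]
      rw [hf.sym m a.1.1]
      ring
    rw [e4]
    ring
  · rw [if_neg fun h' => h (hmem.1 h'), if_neg h, sub_zero]
    unfold CL
    ring

end form

theorem KF_nonneg (n : ℕ) {C : ℝ} (hC : 0 ≤ C) : 0 ≤ KF n C := by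
  have hk : 0 ≤ kc C := by linarith [one_le_kc hC]
  unfold KF
  positivity

end ESD

open ESD in
theorem t_ESD : M_ESD := by
  intro hQ hPRM Φ B hI hF _ C₀ hC₀
  have hf := ff hQ hI hF
  have hP : PRF Φ := hPRM 2 Φ B (by norm_num) hI hF
  set M₁ : ℝ := ∑ p ∈ pos Φ, (|((rd Φ).Q p.1 : ℝ)| + |ip Φ 1 p.1| +
    |((p.2 ⬝ᵥ (1 : Fin 2 → ℤ) : ℤ) : ℝ)|) with hM₁
  set M₂ : ℝ := ∑ p ∈ pos Φ, ∑ q ∈ pos Φ, |ip Φ p.1 q.1| with hM₂
  have hM₁0 : 0 ≤ M₁ := Finset.sum_nonneg fun _ _ => by positivity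
  have hM₂0 : 0 ≤ M₂ := Finset.sum_nonneg fun _ _ => Finset.sum_nonneg fun _ _ => abs_nonneg _
  set M : ℝ := M₁ + M₂ with hM
  have hM0 : 0 ≤ M := by linarith
  have bM : ∀ p ∈ pos Φ, |((rd Φ).Q p.1 : ℝ)| + |ip Φ 1 p.1| +
      |((p.2 ⬝ᵥ (1 : Fin 2 → ℤ) : ℤ) : ℝ)| ≤ M := by
    intro p hp
    have h := Finset.single_le_sum (f := fun p : (Fin 2 → ℤ) × (Fin 2 → ℤ) =>
      |((rd Φ).Q p.1 : ℝ)| + |ip Φ 1 p.1| + |((p.2 ⬝ᵥ (1 : Fin 2 → ℤ) : ℤ) : ℝ)|)
      (fun _ _ => by positivity) hp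
    have h2 : |((rd Φ).Q p.1 : ℝ)| + |ip Φ 1 p.1| +
      |((p.2 ⬝ᵥ (1 : Fin 2 → ℤ) : ℤ) : ℝ)| ≤ M₁ := h
    linarith
  have bQ : ∀ p ∈ pos Φ, |((rd Φ).Q p.1 : ℝ)| ≤ M := fun p hp => by
    have := bM p hp
    have := abs_nonneg (ip Φ 1 p.1)
    have := abs_nonneg (((p.2 ⬝ᵥ (1 : Fin 2 → ℤ) : ℤ) : ℝ))
    linarith
  have bI : ∀ p ∈ pos Φ, |ip Φ 1 p.1| ≤ M := fun p hp => by
    have := bM p hp
    have := abs_nonneg ((rd Φ).Q p.1 : ℝ)
    have := abs_nonneg (((p.2 ⬝ᵥ (1 : Fin 2 → ℤ) : ℤ) : ℝ))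
    linarith
  have bS : ∑ p ∈ pos Φ, |((p.2 ⬝ᵥ (1 : Fin 2 → ℤ) : ℤ) : ℝ)| ≤ M := by
    have h : ∑ p ∈ pos Φ, |((p.2 ⬝ᵥ (1 : Fin 2 → ℤ) : ℤ) : ℝ)| ≤ M₁ := by
      refine Finset.sum_le_sum fun p _ => ?_
      have := abs_nonneg (ip Φ 1 p.1)
      have := abs_nonneg ((rd Φ).Q p.1 : ℝ)
      linarith
    linarith
  have bP : ∀ p ∈ pos Φ, ∀ q ∈ pos Φ, |ip Φ p.1 q.1| ≤ M := by
    intro p hp q hq
    have h1 := Finset.single_le_sum (f := fun q : (Fin 2 → ℤ) × (Fin 2 → ℤ) => |ip Φ p.1 q.1|)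
      (fun _ _ => abs_nonneg _) hq
    have h2 := Finset.single_le_sum (f := fun p : (Fin 2 → ℤ) × (Fin 2 → ℤ) =>
      ∑ q ∈ pos Φ, |ip Φ p.1 q.1|) (fun _ _ => Finset.sum_nonneg fun _ _ => abs_nonneg _) hp
    have h3 : |ip Φ p.1 q.1| ≤ M₂ := h1.trans h2
    linarith
  set C : ℝ := 6 * (C₀ + 1) * M with hCdef
  have hC : 0 ≤ C := by positivity
  refine ⟨KF (Fintype.card {p // p ∈ pos Φ}) C, KF_nonneg _ hC, fun J a x A l hl => ?_⟩
  set d : {p // p ∈ pos Φ} → ℝ := fun p => if p = a then dl x a else bx' x with hd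
  set X : ℝ := (2 : ℝ) ^ J with hX
  have hX0 : 0 < X := by positivity
  have hX1 : 1 ≤ X := one_le_pow₀ one_le_two
  have hδ0 : 0 < dl x a := hP.dpos J x a
  have hδb : dl x a ≤ bx' x := hP.dle J x a
  have hδX : 1 / X ≤ dl x a := hP.dge J x a
  have hb1 : bx' x ≤ 1 := hP.ble J x
  have hb0 : 0 < bx' x := hδ0.trans_le hδb
  have hbX : 1 / X ≤ bx' x := hP.bge J x
  have hd0 : ∀ p, 0 ≤ d p := fun p => by
    simp only [hd]
    split <;> linarith
  have hd1 : ∀ p, d p ≤ 1 := fun p => by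
    simp only [hd]
    split <;> linarith
  have hdX : ∀ p, 1 / X ≤ d p := fun p => by
    simp only [hd]
    split <;> linarith
  have ht1 : th x = bx' x / X := rfl
  have ht2 : tc a x = dl x a / X := rfl
  have ht10 : 0 < th x := hP.tpos J x
  have ht20 : 0 < tc a x := by rw [ht2]; positivity
  have ht1X : th x * X = bx' x := by rw [ht1]; field_simp
  have ht2X : tc a x * X = dl x a := by rw [ht2]; field_simp
  have ht1le : th x ≤ 1 / X := hP.tle J x
  -- the values of the form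
  have bl : ∀ p : {p // p ∈ pos Φ}, |ip Φ p.1.1 l| ≤ C₀ * X * M := by
    intro p
    rw [hf.root p.1 p.2 l, abs_mul]
    exact mul_le_mul (hl p) (bQ p.1 p.2) (abs_nonneg _) (by positivity)
  have b1 : |ip Φ l 1| ≤ 2 * (C₀ * X * M) := by
    rw [hf.one l]
    refine (Finset.abs_sum_le_sum_abs _ _).trans ?_
    calc ∑ p ∈ pos Φ, |2 * (((p.2 ⬝ᵥ l : ℤ) : ℝ) * ((p.2 ⬝ᵥ (1 : Fin 2 → ℤ) : ℤ) : ℝ))|
        ≤ ∑ p ∈ pos Φ, 2 * (C₀ * X * |((p.2 ⬝ᵥ (1 : Fin 2 → ℤ) : ℤ) : ℝ)|) := by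
          refine Finset.sum_le_sum fun p hp => ?_
          rw [abs_mul, abs_mul, abs_two]
          exact mul_le_mul_of_nonneg_left
            (mul_le_mul_of_nonneg_right (hl ⟨p, hp⟩) (abs_nonneg _)) (by norm_num)
      _ = 2 * (C₀ * X * ∑ p ∈ pos Φ, |((p.2 ⬝ᵥ (1 : Fin 2 → ℤ) : ℤ) : ℝ)|) := by
          rw [Finset.mul_sum, Finset.mul_sum]
      _ ≤ 2 * (C₀ * X * M) :=
          mul_le_mul_of_nonneg_left (mul_le_mul_of_nonneg_left bS (by positivity)) (by norm_num)
  have hCM : 0 ≤ C₀ * M := mul_nonneg hC₀ hM0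
  -- the three bounds
  have h0 : |tc a x * ip Φ a.1.1 l + 2 * th x * ip Φ l 1 - th x * ip Φ a.1.1 l| ≤ C := by
    have e1 : |tc a x * ip Φ a.1.1 l| ≤ C₀ * M := by
      rw [abs_mul, abs_of_pos ht20]
      calc tc a x * |ip Φ a.1.1 l| ≤ tc a x * (C₀ * X * M) :=
            mul_le_mul_of_nonneg_left (bl a) ht20.le
        _ = dl x a * (C₀ * M) := by rw [← ht2X]; ring
        _ ≤ 1 * (C₀ * M) := mul_le_mul_of_nonneg_right (hδb.trans hb1) hCM
        _ = C₀ * M := one_mul _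
    have e2 : |2 * th x * ip Φ l 1| ≤ 4 * (C₀ * M) := by
      rw [abs_mul, abs_of_pos (by linarith : 0 < 2 * th x)]
      calc 2 * th x * |ip Φ l 1| ≤ 2 * th x * (2 * (C₀ * X * M)) :=
            mul_le_mul_of_nonneg_left b1 (by linarith)
        _ = bx' x * (4 * (C₀ * M)) := by rw [← ht1X]; ring
        _ ≤ 1 * (4 * (C₀ * M)) := mul_le_mul_of_nonneg_right hb1 (by linarith)
        _ = 4 * (C₀ * M) := one_mul _
    have e3 : |th x * ip Φ a.1.1 l| ≤ C₀ * M := by
      rw [abs_mul, abs_of_pos ht10]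
      calc th x * |ip Φ a.1.1 l| ≤ th x * (C₀ * X * M) :=
            mul_le_mul_of_nonneg_left (bl a) ht10.le
        _ = bx' x * (C₀ * M) := by rw [← ht1X]; ring
        _ ≤ 1 * (C₀ * M) := mul_le_mul_of_nonneg_right hb1 hCM
        _ = C₀ * M := one_mul _
    refine (abs_sub _ _).trans ?_
    have e4 := abs_add_le (tc a x * ip Φ a.1.1 l) (2 * th x * ip Φ l 1)
    have e5 : C = 6 * (C₀ * M) + 6 * M := by rw [hCdef]; ring
    linarith
  have hu : ∀ p : {p // p ∈ pos Φ}, |-2 * th x * (ip Φ l p.1.1 + ip Φ 1 p.1.1) +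
      if p = a then (2 * th x - 2 * tc a x) * ip Φ a.1.1 l else 0| ≤ C * d p := by
    intro p
    have e5 : C = 6 * (C₀ * M) + 6 * M := by rw [hCdef]; ring
    by_cases hp : p = a
    · subst hp
      have hdp : d p = dl x p := if_pos rfl
      rw [if_pos rfl, hf.sym l p.1.1, hdp]
      have e1 : -2 * th x * (ip Φ p.1.1 l + ip Φ 1 p.1.1) + (2 * th x - 2 * tc p x) * ip Φ p.1.1 l =
          -(2 * (th x * ip Φ 1 p.1.1) + 2 * (tc p x * ip Φ p.1.1 l)) := by ring
      rw [e1, abs_neg]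
      have e2 : |th x * ip Φ 1 p.1.1| ≤ M * dl x p := by
        rw [abs_mul, abs_of_pos ht10, mul_comm]
        exact mul_le_mul (bI p.1 p.2) (ht1le.trans hδX) ht10.le hM0
      have e3 : |tc p x * ip Φ p.1.1 l| ≤ C₀ * M * dl x p := by
        rw [abs_mul, abs_of_pos ht20]
        calc tc p x * |ip Φ p.1.1 l| ≤ tc p x * (C₀ * X * M) :=
              mul_le_mul_of_nonneg_left (bl p) ht20.le
          _ = C₀ * M * dl x p := by rw [← ht2X]; ring
      refine (abs_add_le _ _).trans ?_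
      have e6 : 0 ≤ M * dl x p := by positivity
      have e7 : 0 ≤ C₀ * M * dl x p := by positivity
      have e8 : |2 * (th x * ip Φ 1 p.1.1)| = 2 * |th x * ip Φ 1 p.1.1| := by
        rw [abs_mul 2, abs_two]
      have e9 : |2 * (tc p x * ip Φ p.1.1 l)| = 2 * |tc p x * ip Φ p.1.1 l| := by
        rw [abs_mul 2, abs_two]
      have e10 : C * dl x p = 6 * (C₀ * M * dl x p) + 6 * (M * dl x p) := by rw [e5]; ring
      rw [e8, e9, e10]
      linarith
    · have hdp : d p = bx' x := if_neg hp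
      rw [if_neg hp, add_zero, hf.sym l p.1.1, hdp]
      have e1 : -2 * th x * (ip Φ p.1.1 l + ip Φ 1 p.1.1) =
          -(2 * (th x * ip Φ p.1.1 l) + 2 * (th x * ip Φ 1 p.1.1)) := by ring
      rw [e1, abs_neg]
      have e2 : |th x * ip Φ 1 p.1.1| ≤ M * bx' x := by
        rw [abs_mul, abs_of_pos ht10, mul_comm]
        exact mul_le_mul (bI p.1 p.2) (ht1le.trans hbX) ht10.le hM0
      have e3 : |th x * ip Φ p.1.1 l| ≤ C₀ * M * bx' x := by
        rw [abs_mul, abs_of_pos ht10]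
        calc th x * |ip Φ p.1.1 l| ≤ th x * (C₀ * X * M) :=
              mul_le_mul_of_nonneg_left (bl p) ht10.le
          _ = C₀ * M * bx' x := by rw [← ht1X]; ring
      refine (abs_add_le _ _).trans ?_
      have e6 : 0 ≤ M * bx' x := by positivity
      have e7 : 0 ≤ C₀ * M * bx' x := by positivity
      have e8 : |2 * (th x * ip Φ 1 p.1.1)| = 2 * |th x * ip Φ 1 p.1.1| := by
        rw [abs_mul 2, abs_two]
      have e9 : |2 * (th x * ip Φ p.1.1 l)| = 2 * |th x * ip Φ p.1.1 l| := by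
        rw [abs_mul 2, abs_two]
      have e10 : C * bx' x = 6 * (C₀ * M * bx' x) + 6 * (M * bx' x) := by rw [e5]; ring
      rw [e8, e9, e10]
      linarith
  have hg : ∀ p q : {p // p ∈ pos Φ}, |th x * ip Φ p.1.1 q.1.1| ≤
      C * ∏ y ∈ ({p, q} : Finset {p // p ∈ pos Φ}), d y := by
    intro p q
    have hCM' : M ≤ C := by
      have e5 : C = 6 * (C₀ * M) + 6 * M := by rw [hCdef]; ring
      linarith
    have e1 : th x ≤ ∏ y ∈ ({p, q} : Finset {p // p ∈ pos Φ}), d y := by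
      by_cases hpq : p = q
      · subst hpq
        rw [Finset.pair_eq_singleton, Finset.prod_singleton]
        exact ht1le.trans (hdX p)
      · rw [Finset.prod_pair hpq, ht1, div_eq_mul_one_div]
        by_cases hp : p = a
        · have hq : q ≠ a := fun h => hpq (hp.trans h.symm)
          have e2 : d q = bx' x := if_neg hq
          rw [e2, mul_comm]
          exact mul_le_mul_of_nonneg_right (hdX p) hb0.le
        · have e2 : d p = bx' x := if_neg hp
          rw [e2]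
          exact mul_le_mul_of_nonneg_left (hdX q) hb0.le
    rw [abs_mul, abs_of_pos ht10, mul_comm]
    exact mul_le_mul ((bP p.1 p.2 q.1 q.2).trans hCM') e1 ht10.le hC
  have h1 := quad (d := d) hd0 hd1 hC h0 hu hg A Aᶜ disjoint_compl_right
  have h2 : (fun S : Finset {p // p ∈ pos Φ} =>
      Real.exp (es Φ a.1 (th x) (tc a x) (S.image Subtype.val) l)) =
      fun S => Real.exp ((tc a x * ip Φ a.1.1 l + 2 * th x * ip Φ l 1 - th x * ip Φ a.1.1 l) +
        (∑ p ∈ S, (-2 * th x * (ip Φ l p.1.1 + ip Φ 1 p.1.1) +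
          if p = a then (2 * th x - 2 * tc a x) * ip Φ a.1.1 l else 0)) +
        ∑ p ∈ S, ∑ q ∈ S, th x * ip Φ p.1.1 q.1.1) := by
    funext S
    rw [es_eq hf]
  rw [h2]
  exact h1

end

end STZ3
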