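import Pool.Agent.STZ3.StP

/-!
# Module EXI: existence of the heat measures
-/

set_option autoImplicit false

namespace STZ3

open STZ LGR MeasureTheory Matrix Filter

open scoped ComplexConjugate Matrix Real Topology BoundedContinuousFunction

noncomputable section

namespace EXI

section Conv

variable {G : Type} [Group G] [TopologicalSpace G] [IsTopologicalGroup G] [CompactSpace G]
  [T2Space G] [SecondCountableTopology G] [MeasurableSpace G] [BorelSpace G]

/-- The convolution powers of a measure. -/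
def pw (ν : Measure G) : ℕ → Measure G
  | 0 => Measure.dirac 1
  | k + 1 => pw ν k ∗ₘ ν

instance pw_prob (ν : Measure G) [IsProbabilityMeasure ν] (k : ℕ) :
    IsProbabilityMeasure (pw ν k) := by
  induction k with
  | zero => unfold pw; infer_instance
  | succ k ih => unfold pw; infer_instance

theorem integ {f : G → ℂ} (hf : Continuous f) (μ : Measure G) [IsFiniteMeasure μ] :
    Integrable f μ :=
  hf.integrable_of_hasCompactSupport (HasCompactSupport.of_compactSpace _)

/-- The integral of a representation for a convolution power. -/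
theorem int_pw {n : ℕ} (σ : Rep G (Fin n)) (ν : Measure G) [IsProbabilityMeasure ν] (k : ℕ)
    (i j : Fin n) :
    ∫ x, σ.ρ x i j ∂(pw ν k) = ((Matrix.of fun i j => ∫ x, σ.ρ x i j ∂ν) ^ k) i j := by
  have hc : ∀ i j, Continuous fun x => σ.ρ x i j := fun i j => σ.cont.matrix_elem i j
  induction k generalizing i j with
  | zero =>
    unfold pw
    rw [integral_dirac, map_one, pow_zero]
  | succ k ih =>
    unfold pw
    rw [integral_mconv (integ (hc i j) _), pow_succ, Matrix.mul_apply]
    have h1 : ∀ x, ∫ y, σ.ρ (x * y) i j ∂ν = ∑ l, σ.ρ x i l * ∫ y, σ.ρ y l j ∂ν := by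
      intro x
      have h2 : ∀ y, σ.ρ (x * y) i j = ∑ l, σ.ρ x i l * σ.ρ y l j := by
        intro y
        rw [map_mul, Matrix.mul_apply]
      simp only [h2]
      rw [integral_finsetSum _ fun l _ => (integ (hc l j) ν).const_mul _]
      refine Finset.sum_congr rfl fun l _ => ?_
      rw [integral_const_mul]
    simp only [h1]
    rw [integral_finsetSum _ fun l _ => (integ (hc i l) _).mul_const _]
    refine Finset.sum_congr rfl fun l _ => ?_
    rw [integral_mul_const, ih]
    rfl

/-- The average of finitely many point masses. -/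
def av {ι : Type} [Fintype ι] (g : ι → G) : Measure G :=
  (Fintype.card ι : ENNReal)⁻¹ • ∑ s, Measure.dirac (g s)

instance av_prob {ι : Type} [Fintype ι] [Nonempty ι] (g : ι → G) :
    IsProbabilityMeasure (av g) := by
  constructor
  unfold av
  rw [Measure.smul_apply, Measure.finsetSum_apply]
  simp only [measure_univ, Finset.sum_const, Finset.card_univ, smul_eq_mul, nsmul_eq_mul, mul_one]
  exact ENNReal.inv_mul_cancel (by simp) (by simp)

theorem int_av {ι : Type} [Fintype ι] [Nonempty ι] (g : ι → G) {f : G → ℂ} (hf : Continuous f) :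
    ∫ x, f x ∂(av g) = (1 / (Fintype.card ι : ℂ)) * ∑ s, f (g s) := by
  unfold av
  rw [integral_smul_measure, integral_finsetSum_measure fun s _ => integ hf _]
  simp only [integral_dirac]
  rw [ENNReal.toReal_inv, ENNReal.toReal_natCast, one_div]
  rw [Complex.real_smul]
  push_cast
  rfl

end Conv

section Lie

variable {N : ℕ} {H : Subgroup (SU N)}

/-- the sign -/
def sg (b : Bool) : ℝ := if b then 1 else -1

theorem sg_cast (b : Bool) : ((sg b : ℝ) : ℂ) = if b then (1 : ℂ) else -1 := by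
  cases b <;> simp [sg]

theorem sum_mem (hL : LIF H) {q : ℕ} (Y : Fin q → MT N) (hY : ∀ a, Y a ∈ lie H) (c : Fin q → ℝ)
    (S : Finset (Fin q)) : ∑ a ∈ S, ((c a : ℝ) : ℂ) • Y a ∈ lie H := by
  classical
  induction S using Finset.induction_on with
  | empty =>
    rw [Finset.sum_empty]
    exact hL.zero
  | insert a S ha ih =>
    rw [Finset.sum_insert ha]
    exact hL.add _ (hL.smul _ _ (hY a)) _ ih

theorem dr_zero {n : ℕ} {σ : Rep H (Fin n)} (hD : DRF σ) (hL : LIF H) :
    dr σ (0 : MT N) = 0 := by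
  have h := hD.smul 0 hL.zero 0
  rw [smul_zero] at h
  rw [h]
  simp

theorem dr_sum (hL : LIF H) {n : ℕ} {σ : Rep H (Fin n)} (hD : DRF σ) {q : ℕ} (Y : Fin q → MT N)
    (hY : ∀ a, Y a ∈ lie H) (c : Fin q → ℝ) (S : Finset (Fin q)) :
    dr σ (∑ a ∈ S, ((c a : ℝ) : ℂ) • Y a) = ∑ a ∈ S, ((c a : ℝ) : ℂ) • dr σ (Y a) := by
  classical
  induction S using Finset.induction_on with
  | empty =>
    rw [Finset.sum_empty, Finset.sum_empty]
    exact dr_zero hD hL
  | insert a S ha ih =>
    rw [Finset.sum_insert ha, Finset.sum_insert ha,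
      hD.add _ (hL.smul _ _ (hY a)) _ (sum_mem hL Y hY c S), hD.smul _ (hY a), ih]

end Lie

end EXI

open EXI in
theorem t_EXI : M_EXI := by
  intro hLIEB _ _ _ hDREP hTRM N H hH ι _ Y hY
  have hcs : CompactSpace H := isCompact_iff_compactSpace.mp hH.isCompact
  have hsc : SecondCountableTopology H :=
    TopologicalSpace.Subtype.secondCountableTopology (H : Set (SU N))
  have hL : LIF H := hLIEB N H hH
  let q := Fintype.card ι
  let e : ι ≃ Fin q := Fintype.equivFin ι
  let Y' : Fin q → MT N := fun a => Y (e.symm a)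
  have hY' : ∀ a, Y' a ∈ lie H := fun a => hY _
  let g : ℕ → (Fin q → Bool) → H := fun m s =>
    exH H (∑ a, ((sg (s a) : ℝ) : ℂ) • Y' a) (√(2 / (m : ℝ)))
  let κ : ℕ → ProbabilityMeasure H := fun m => ⟨pw (av (g m)) m, inferInstance⟩
  -- a cluster point
  let u : Ultrafilter ℕ := Ultrafilter.of atTop
  have hu : (u : Filter ℕ) ≤ atTop := Ultrafilter.of_le atTop
  obtain ⟨κ₀, -, hκ⟩ := isCompact_univ.ultrafilter_le_nhds (u.map κ) (by simp)
  have hκ' : Tendsto κ u (𝓝 κ₀) := hκ
  refine ⟨κ₀, ⟨inferInstance, fun n σ hσ i j => ?_⟩⟩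
  have hD : DRF σ := hDREP N H n σ hH hσ
  have hc : Continuous fun x => σ.ρ x i j := σ.cont.matrix_elem i j
  let f : H →ᵇ ℂ := BoundedContinuousFunction.mkOfCompact ⟨fun x => σ.ρ x i j, hc⟩
  have h1 : Tendsto (fun m => ∫ x, σ.ρ x i j ∂(κ m : Measure H)) u
      (𝓝 (∫ x, σ.ρ x i j ∂(κ₀ : Measure H))) :=
    (ProbabilityMeasure.tendsto_iff_forall_integral_rclike_tendsto ℂ).1 hκ' f
  have h2 : ∀ m : ℕ, ∫ x, σ.ρ x i j ∂(κ m : Measure H) = (((1 / 2 ^ q : ℂ) • ∑ s : Fin q → Bool,
      NormedSpace.exp ((√(2 / (m : ℝ)) : ℂ) • ∑ a, (if s a then (1 : ℂ) else -1) •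
        dr σ (Y' a))) ^ m) i j := by
    intro m
    show ∫ x, σ.ρ x i j ∂(pw (av (g m)) m) = _
    rw [int_pw σ (av (g m)) m i j]
    have hA : (Matrix.of fun k l => ∫ x, σ.ρ x k l ∂(av (g m))) =
        (1 / 2 ^ q : ℂ) • ∑ s : Fin q → Bool, NormedSpace.exp ((√(2 / (m : ℝ)) : ℂ) •
          ∑ a, (if s a then (1 : ℂ) else -1) • dr σ (Y' a)) := by
      ext k l
      rw [Matrix.of_apply, int_av (g m) (σ.cont.matrix_elem k l), Matrix.smul_apply,
        Matrix.sum_apply, smul_eq_mul]
      have hcard : (Fintype.card (Fin q → Bool) : ℂ) = 2 ^ q := by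
        simp
      rw [hcard]
      congr 1
      refine Finset.sum_congr rfl fun s _ => ?_
      show σ.ρ (exH H (∑ a, ((sg (s a) : ℝ) : ℂ) • Y' a) (√(2 / (m : ℝ)))) k l = _
      rw [hD.ex _ (sum_mem hL Y' hY' (fun a => sg (s a)) Finset.univ),
        dr_sum hL hD Y' hY' (fun a => sg (s a)) Finset.univ]
      simp only [sg_cast]
    rw [hA]
  have h3 : Tendsto (fun m => ∫ x, σ.ρ x i j ∂(κ m : Measure H)) u
      (𝓝 ((NormedSpace.exp (∑ a, dr σ (Y' a) * dr σ (Y' a))) i j)) := by
    simp only [h2]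
    exact (hTRM n q (fun a => dr σ (Y' a)) i j).mono_left hu
  have h4 : ∑ a, dr σ (Y' a) * dr σ (Y' a) = ∑ a, dr σ (Y a) * dr σ (Y a) :=
    Equiv.sum_comp e.symm fun a => dr σ (Y a) * dr σ (Y a)
  rw [h4] at h3
  exact tendsto_nhds_unique h1 h3

end

end STZ3
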