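import Pool.Agent.STZ3.StF

/-!
# FAR: the positive roots of rank two
-/

namespace STZ3

open STZ LGR MeasureTheory Matrix Filter

open scoped ComplexConjugate Matrix Real Topology

noncomputable section

namespace FAR

/-- simple coordinates of a root and of its coroot -/
abbrev Q4 : Type := ℤ × ℤ × ℤ × ℤ

/-- the reflection in the first simple root -/
def sA (a b : ℤ) (x : Q4) : Q4 := (-x.1 - b * x.2.1, x.2.1, -x.2.2.1 - a * x.2.2.2, x.2.2.2)

/-- the reflection in the second simple root -/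
def sB (a b : ℤ) (x : Q4) : Q4 := (x.1, -x.2.1 - a * x.1, x.2.2.1, -x.2.2.2 - b * x.2.2.1)

def e0 : Q4 := (1, 0, 1, 0)

def e1 : Q4 := (0, 1, 0, 1)

/-- the determinant in the simple coordinates -/
def dt (x y : Q4) : ℤ := x.1 * y.2.1 - x.2.1 * y.1

/-- the finite conditions on a list of roots -/
structure CL (a b : ℤ) (S : Finset Q4) : Prop where
  m0 : e0 ∈ S
  m1 : e1 ∈ S
  cA : ∀ x ∈ S, x ≠ e0 → sA a b x ∈ S
  cB : ∀ x ∈ S, x ≠ e1 → sB a b x ∈ S

/-- the further conditions -/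
structure CM (a b : ℤ) (S : Finset Q4) : Prop where
  inj : ∀ x ∈ S, ∀ y ∈ S, x.2.2 = y.2.2 → x = y
  nn : ∀ x ∈ S, 0 ≤ x.2.2.1 + x.2.2.2
  dn : ∀ x ∈ S, x = e0 ∨ x = e1 ∨
    (sA a b x ∈ S ∧ sA a b x ≠ e0 ∧ (sA a b x).2.2.1 + (sA a b x).2.2.2 < x.2.2.1 + x.2.2.2) ∨
    (sB a b x ∈ S ∧ sB a b x ≠ e1 ∧ (sB a b x).2.2.1 + (sB a b x).2.2.2 < x.2.2.1 + x.2.2.2)
  bd : ∀ x ∈ S, ∀ y ∈ S, |dt x y| ≤ 9
  far : ∀ T ∈ S.powerset, S.card < 2 * T.card → ∃ x ∈ T, ∃ y ∈ T, dt x y = 1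
  ev : Even S.card

/-- the root with the given coordinates -/
def em (B : Matrix (Fin 2) (Fin 2) ℤ) (x : Q4) : (Fin 2 → ℤ) × (Fin 2 → ℤ) :=
  (x.1 • B 0 + x.2.1 • B 1, ![x.2.2.1, x.2.2.2])

def L0 : Finset Q4 := {(1, 0, 1, 0), (0, 1, 0, 1)}

def L1 : Finset Q4 := {(1, 0, 1, 0), (0, 1, 0, 1), (1, 1, 1, 1)}

def L2 : Finset Q4 := {(1, 0, 1, 0), (0, 1, 0, 1), (1, 1, 1, 2), (2, 1, 1, 1)}

def L2' : Finset Q4 := {(1, 0, 1, 0), (0, 1, 0, 1), (1, 1, 2, 1), (1, 2, 1, 1)}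

def L3 : Finset Q4 := {(1, 0, 1, 0), (0, 1, 0, 1), (1, 1, 1, 3), (3, 1, 1, 1), (2, 1, 2, 3), (3, 2, 1, 2)}

def L3' : Finset Q4 := {(0, 1, 0, 1), (1, 0, 1, 0), (1, 1, 3, 1), (1, 3, 1, 1), (1, 2, 3, 2), (2, 3, 2, 1)}

theorem c0 : CL 0 0 L0 := ⟨by decide, by decide, by decide, by decide⟩

theorem c1 : CL (-1) (-1) L1 := ⟨by decide, by decide, by decide, by decide⟩

theorem c2 : CL (-1) (-2) L2 := ⟨by decide, by decide, by decide, by decide⟩

theorem c2' : CL (-2) (-1) L2' := ⟨by decide, by decide, by decide, by decide⟩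

theorem c3 : CL (-1) (-3) L3 := ⟨by decide, by decide, by decide, by decide⟩

theorem c3' : CL (-3) (-1) L3' := ⟨by decide, by decide, by decide, by decide⟩

theorem m2 : CM (-1) (-2) L2 := ⟨by decide, by decide, by decide, by decide, by decide, by decide⟩

theorem m2' : CM (-2) (-1) L2' := ⟨by decide, by decide, by decide, by decide, by decide, by decide⟩

theorem m3 : CM (-1) (-3) L3 := ⟨by decide, by decide, by decide, by decide, by decide, by decide⟩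

theorem m3' : CM (-3) (-1) L3' := ⟨by decide, by decide, by decide, by decide, by decide, by decide⟩

/-! ### the two reflections -/

variable {Φ : RT 2} {B : Matrix (Fin 2) (Fin 2) ℤ}

theorem em_e0 : em B e0 = (B 0, Pi.single 0 1) := by
  unfold em e0
  ext i
  · simp
  · fin_cases i <;> simp

theorem em_e1 : em B e1 = (B 1, Pi.single 1 1) := by
  unfold em e1
  ext i
  · simp
  · fin_cases i <;> simp

theorem B00 (hI : IRD Φ B) (i : Fin 2) : B i i = 2 := by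
  have h := hI.two _ (hI.base i)
  simpa using h

theorem sA_em (hI : IRD Φ B) (x : Q4) :
    ((em B x).1 - (em B x).1 0 • B 0,
      (em B x).2 - ((em B x).2 ⬝ᵥ B 0) • (Pi.single 0 1 : Fin 2 → ℤ)) =
      em B (sA (B 0 1) (B 1 0) x) := by
  have h0 := B00 hI 0
  unfold em sA
  ext i
  · simp only [Pi.sub_apply, Pi.add_apply, Pi.smul_apply, smul_eq_mul]
    rw [h0]
    ring
  · fin_cases i
    · simp [dotProduct, Fin.sum_univ_two, h0]
      ring
    · simp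

theorem sB_em (hI : IRD Φ B) (x : Q4) :
    ((em B x).1 - (em B x).1 1 • B 1,
      (em B x).2 - ((em B x).2 ⬝ᵥ B 1) • (Pi.single 1 1 : Fin 2 → ℤ)) =
      em B (sB (B 0 1) (B 1 0) x) := by
  have h0 := B00 hI 1
  unfold em sB
  ext i
  · simp only [Pi.sub_apply, Pi.add_apply, Pi.smul_apply, smul_eq_mul]
    rw [h0]
    ring
  · fin_cases i
    · simp
    · simp [dotProduct, Fin.sum_univ_two, h0]
      ring

theorem sA_sA (a b : ℤ) (x : Q4) : sA a b (sA a b x) = x := by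
  obtain ⟨x1, x2, x3, x4⟩ := x
  unfold sA
  exact Prod.ext (by ring) (Prod.ext rfl (Prod.ext (by ring) rfl))

theorem sB_sB (a b : ℤ) (x : Q4) : sB a b (sB a b x) = x := by
  obtain ⟨x1, x2, x3, x4⟩ := x
  unfold sB
  exact Prod.ext rfl (Prod.ext (by ring) (Prod.ext rfl (by ring)))

theorem pos_simple (hI : IRD Φ B) (i : Fin 2) : (B i, (Pi.single i 1 : Fin 2 → ℤ)) ∈ pos Φ := by
  rw [pos, Finset.mem_filter]
  refine ⟨hI.base i, fun j => ?_⟩
  by_cases h : j = i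
  · rw [h]; simp
  · simp [Pi.single_eq_of_ne h]

/-- the positive roots are in the list -/
theorem sub (hI : IRD Φ B) (hW : WFF Φ B) {S : Finset Q4} (hS : CL (B 0 1) (B 1 0) S) :
    ∀ (n : ℕ) (p : (Fin 2 → ℤ) × (Fin 2 → ℤ)), p ∈ pos Φ → (p.2 0 + p.2 1).toNat ≤ n →
      ∃ x ∈ S, p = em B x := by
  intro n
  induction n using Nat.strong_induction_on with
  | _ n ih =>
    intro p hp hn
    by_cases h0 : p = (B 0, Pi.single 0 1)
    · exact ⟨e0, hS.m0, by rw [em_e0]; exact h0⟩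
    by_cases h1 : p = (B 1, Pi.single 1 1)
    · exact ⟨e1, hS.m1, by rw [em_e1]; exact h1⟩
    obtain ⟨hpΦ, hpn, -, m, hm, hmn⟩ := hW.ppos p hp
    have h2 := hI.two p hpΦ
    rw [Fin.sum_univ_two] at hm
    have h3 : m 0 * (p.2 ⬝ᵥ B 0) + m 1 * (p.2 ⬝ᵥ B 1) = 2 := by
      rw [← h2, hm, dotProduct_add, dotProduct_smul, dotProduct_smul, smul_eq_mul, smul_eq_mul]
    have h4 : 0 < p.2 ⬝ᵥ B 0 ∨ 0 < p.2 ⬝ᵥ B 1 := by
      by_contra hc
      push Not at hc
      have := mul_nonneg (hmn 0) (neg_nonneg.2 hc.1)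
      have := mul_nonneg (hmn 1) (neg_nonneg.2 hc.2)
      linarith
    rcases h4 with h4 | h4
    · have h5 := hW.simp 0 p hp h0
      set p' : (Fin 2 → ℤ) × (Fin 2 → ℤ) := (p.1 - p.1 0 • B 0, p.2 - (p.2 ⬝ᵥ B 0) • Pi.single 0 1)
        with hp'
      have h6 : p'.2 0 + p'.2 1 = p.2 0 + p.2 1 - p.2 ⬝ᵥ B 0 := by
        rw [hp']
        simp
        ring
      have h7 : 0 ≤ p'.2 0 + p'.2 1 := by
        have := (hW.ppos p' h5).2.1
        linarith [this 0, this 1]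
      obtain ⟨y, hy, hy'⟩ := ih (p'.2 0 + p'.2 1).toNat (by omega) p' h5 le_rfl
      have h8 : p = em B (sA (B 0 1) (B 1 0) y) := by
        rw [← sA_em hI y, ← hy', hp']
        have hb := B00 hI 0
        ext i
        · simp only [Pi.sub_apply, Pi.smul_apply, smul_eq_mul]
          rw [hb]
          ring
        · simp only [Pi.sub_apply, Pi.smul_apply, smul_eq_mul, sub_dotProduct, smul_dotProduct,
            single_dotProduct]
          rw [hb]
          ring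
      refine ⟨_, hS.cA y hy ?_, h8⟩
      intro hye
      rw [hye] at h8
      have h9 := hpn 0
      rw [h8] at h9
      unfold em sA e0 at h9
      simp at h9
    · have h5 := hW.simp 1 p hp h1
      set p' : (Fin 2 → ℤ) × (Fin 2 → ℤ) := (p.1 - p.1 1 • B 1, p.2 - (p.2 ⬝ᵥ B 1) • Pi.single 1 1)
        with hp'
      have h6 : p'.2 0 + p'.2 1 = p.2 0 + p.2 1 - p.2 ⬝ᵥ B 1 := by
        rw [hp']
        simp
        ring
      have h7 : 0 ≤ p'.2 0 + p'.2 1 := by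
        have := (hW.ppos p' h5).2.1
        linarith [this 0, this 1]
      obtain ⟨y, hy, hy'⟩ := ih (p'.2 0 + p'.2 1).toNat (by omega) p' h5 le_rfl
      have h8 : p = em B (sB (B 0 1) (B 1 0) y) := by
        rw [← sB_em hI y, ← hy', hp']
        have hb := B00 hI 1
        ext i
        · simp only [Pi.sub_apply, Pi.smul_apply, smul_eq_mul]
          rw [hb]
          ring
        · simp only [Pi.sub_apply, Pi.smul_apply, smul_eq_mul, sub_dotProduct, smul_dotProduct,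
            single_dotProduct]
          rw [hb]
          ring
      refine ⟨_, hS.cB y hy ?_, h8⟩
      intro hye
      rw [hye] at h8
      have h9 := hpn 1
      rw [h8] at h9
      unfold em sB e1 at h9
      simp at h9

theorem em_inj {x y : Q4} (h : em B x = em B y) : x.2.2 = y.2.2 := by
  have h2 := congrArg Prod.snd h
  unfold em at h2
  have h3 := congrFun h2 0
  have h4 := congrFun h2 1
  simp at h3 h4
  exact Prod.ext h3 h4

/-- the list consists of positive roots -/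
theorem sup (hI : IRD Φ B) (hW : WFF Φ B) {S : Finset Q4} (hS : CL (B 0 1) (B 1 0) S)
    (hM : CM (B 0 1) (B 1 0) S) :
    ∀ (n : ℕ) (x : Q4), x ∈ S → (x.2.2.1 + x.2.2.2).toNat ≤ n → em B x ∈ pos Φ := by
  intro n
  induction n using Nat.strong_induction_on with
  | _ n ih =>
    intro x hx hn
    rcases hM.dn x hx with h | h | ⟨h1, h2, h3⟩ | ⟨h1, h2, h3⟩
    · rw [h, em_e0]; exact pos_simple hI 0
    · rw [h, em_e1]; exact pos_simple hI 1
    · have h4 := hM.nn _ h1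
      have h5 := ih ((sA (B 0 1) (B 1 0) x).2.2.1 + (sA (B 0 1) (B 1 0) x).2.2.2).toNat
        (by omega) _ h1 le_rfl
      have h6 := hW.simp 0 _ h5 (by
        intro h7
        rw [← em_e0] at h7
        exact h2 (hM.inj _ h1 _ hS.m0 (em_inj h7)))
      rw [sA_em hI, sA_sA] at h6
      exact h6
    · have h4 := hM.nn _ h1
      have h5 := ih ((sB (B 0 1) (B 1 0) x).2.2.1 + (sB (B 0 1) (B 1 0) x).2.2.2).toNat
        (by omega) _ h1 le_rfl
      have h6 := hW.simp 1 _ h5 (by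
        intro h7
        rw [← em_e1] at h7
        exact h2 (hM.inj _ h1 _ hS.m1 (em_inj h7)))
      rw [sB_em hI, sB_sB] at h6
      exact h6

/-! ### the distance from the integers -/

theorem nd_eq (θ : ℝ) : nd θ = ‖(θ : UnitAddCircle)‖ := by
  rw [UnitAddCircle.norm_eq]
  rfl

theorem nd_comb (k l : ℤ) (x y : ℝ) :
    nd (k * x + l * y) ≤ |(k : ℝ)| * nd x + |(l : ℝ)| * nd y := by
  rw [nd_eq, nd_eq x, nd_eq y]
  have h : ((k * x + l * y : ℝ) : UnitAddCircle) =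
      k • ((x : ℝ) : UnitAddCircle) + l • ((y : ℝ) : UnitAddCircle) := by
    rw [AddCircle.coe_add, ← zsmul_eq_mul, ← zsmul_eq_mul, AddCircle.coe_zsmul,
      AddCircle.coe_zsmul]
  rw [h]
  refine (norm_add_le _ _).trans (add_le_add ?_ ?_)
  · refine (norm_zsmul_le _ _).trans (le_of_eq ?_)
    rw [Int.norm_eq_abs]
  · refine (norm_zsmul_le _ _).trans (le_of_eq ?_)
    rw [Int.norm_eq_abs]

/-- the conclusion for a given list -/
theorem concl (hI : IRD Φ B) (hW : WFF Φ B) {S : Finset Q4} (hS : CL (B 0 1) (B 1 0) S)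
    (hM : CM (B 0 1) (B 1 0) S) :
    Even (pos Φ).card ∧ ∃ C : ℝ, 1 ≤ C ∧ ∀ (θ : Fin 2 → ℝ) (η : ℝ) (T : Finset {p // p ∈ pos Φ}),
    (pos Φ).card < 2 * T.card → (∀ p ∈ T, nd (dz p.1.1 θ) ≤ η) → ∀ p ∈ pos Φ, nd (dz p.1 θ) ≤ C * η := by
  classical
  have himg : pos Φ = S.image (em B) := by
    ext p
    rw [Finset.mem_image]
    constructor
    · intro hp
      obtain ⟨x, hx, hpx⟩ := sub hI hW hS _ p hp le_rfl
      exact ⟨x, hx, hpx.symm⟩
    · rintro ⟨x, hx, rfl⟩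
      exact sup hI hW hS hM _ x hx le_rfl
  have hcard : (pos Φ).card = S.card := by
    rw [himg]
    refine Finset.card_image_of_injOn ?_
    intro x hx y hy hxy
    exact hM.inj x hx y hy (em_inj hxy)
  refine ⟨by rw [hcard]; exact hM.ev, 18, by norm_num, ?_⟩
  intro θ η T hT hη p hp
  set T' : Finset Q4 := S.filter (fun x => ∃ p ∈ T, p.1 = em B x) with hT'
  have h1 : T.card ≤ T'.card := by
    have h2 : T.map (Function.Embedding.subtype _) ⊆ T'.image (em B) := by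
      intro q hq
      rw [Finset.mem_map] at hq
      obtain ⟨q', hq', rfl⟩ := hq
      obtain ⟨x, hx, hqx⟩ := sub hI hW hS _ q'.1 q'.2 le_rfl
      rw [Finset.mem_image]
      exact ⟨x, Finset.mem_filter.2 ⟨hx, q', hq', hqx⟩, hqx.symm⟩
    calc T.card = (T.map (Function.Embedding.subtype _)).card := (Finset.card_map _).symm
      _ ≤ (T'.image (em B)).card := Finset.card_le_card h2
      _ ≤ T'.card := Finset.card_image_le
  obtain ⟨x, hx, y, hy, hxy⟩ := hM.far T' (Finset.mem_powerset.2 (Finset.filter_subset _ _))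
    (by omega)
  obtain ⟨hxS, qx, hqx, ex⟩ := Finset.mem_filter.1 hx
  obtain ⟨hyS, qy, hqy, ey⟩ := Finset.mem_filter.1 hy
  obtain ⟨z, hz, rfl⟩ := sub hI hW hS _ p hp le_rfl
  have kx := hη qx hqx
  have ky := hη qy hqy
  rw [ex] at kx
  rw [ey] at ky
  have hcomb : dz (em B z).1 θ = (dt z y : ℝ) * dz (em B x).1 θ + (dt x z : ℝ) * dz (em B y).1 θ := by
    unfold dt at hxy
    have hz1 : z.1 = dt z y * x.1 + dt x z * y.1 := by
      unfold dt
      linear_combination (-z.1) * hxy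
    have hz2 : z.2.1 = dt z y * x.2.1 + dt x z * y.2.1 := by
      unfold dt
      linear_combination (-z.2.1) * hxy
    unfold dz
    rw [Finset.mul_sum, Finset.mul_sum, ← Finset.sum_add_distrib]
    refine Finset.sum_congr rfl fun i _ => ?_
    have e : (em B z).1 i = dt z y * (em B x).1 i + dt x z * (em B y).1 i := by
      unfold em
      simp only [Pi.add_apply, Pi.smul_apply, smul_eq_mul]
      rw [hz1, hz2]
      ring
    rw [e]
    push_cast
    ring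
  rw [hcomb]
  refine (nd_comb _ _ _ _).trans ?_
  have b1 : |(dt z y : ℝ)| ≤ 9 := by exact_mod_cast hM.bd z hz y hyS
  have b2 : |(dt x z : ℝ)| ≤ 9 := by exact_mod_cast hM.bd x hxS z hz
  have n1 : 0 ≤ nd (dz (em B x).1 θ) := abs_nonneg _
  have n2 : 0 ≤ nd (dz (em B y).1 θ) := abs_nonneg _
  have k1 : |(dt z y : ℝ)| * nd (dz (em B x).1 θ) ≤ 9 * η :=
    mul_le_mul b1 kx n1 (by norm_num)
  have k2 : |(dt x z : ℝ)| * nd (dz (em B y).1 θ) ≤ 9 * η :=
    mul_le_mul b2 ky n2 (by norm_num)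
  linarith

theorem quad_exp (A : Matrix (Fin 2) (Fin 2) ℤ) (u u' : Fin 2 → ℤ) (X Y Z : ℤ)
    (hX : u ⬝ᵥ (A *ᵥ u) = X) (hY : u' ⬝ᵥ (A *ᵥ u') = Y) (hZ : u ⬝ᵥ (A *ᵥ u') = Z)
    (hZ' : u' ⬝ᵥ (A *ᵥ u) = Z) :
    (Y • u - Z • u') ⬝ᵥ (A *ᵥ (Y • u - Z • u')) = Y * (X * Y - Z * Z) := by
  rw [mulVec_sub, mulVec_smul, mulVec_smul, sub_dotProduct, smul_dotProduct,
    smul_dotProduct, dotProduct_sub, dotProduct_sub, dotProduct_smul, dotProduct_smul,
    dotProduct_smul, dotProduct_smul, hX, hY, hZ, hZ']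
  simp only [smul_eq_mul]
  ring

theorem Q_ge (hI : IRD Φ B) (v : Fin 2 → ℤ) : (v 0) ^ 2 ≤ (rd Φ).Q v := by
  have h1 : ((Pi.single 0 1 : Fin 2 → ℤ) ⬝ᵥ v) ^ 2 = (v 0) ^ 2 := by
    rw [single_dotProduct, one_mul]
  have h2 := Finset.single_le_sum (f := fun p : (Fin 2 → ℤ) × (Fin 2 → ℤ) => (p.2 ⬝ᵥ v) ^ 2)
    (s := pos Φ) (fun _ _ => sq_nonneg _) (pos_simple hI 0)
  have h3 : (rd Φ).Q v = ∑ p ∈ pos Φ, (p.2 ⬝ᵥ v) ^ 2 := rfl
  rw [h3, ← h1]
  exact h2

/-- the entries of the Cartan matrix -/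
theorem entries (hI : IRD Φ B) (hW : WFF Φ B) (hQ : S_QUAD) :
    B 0 1 ≤ 0 ∧ B 1 0 ≤ 0 ∧ (B 0 1 = 0 ↔ B 1 0 = 0) ∧ B 0 1 * B 1 0 < 4 := by
  obtain ⟨-, -, hsym, hQ2, -, -, hp⟩ := hQ 2 Φ B hI hW
  have b0 := B00 hI 0
  have b1 := B00 hI 1
  obtain ⟨hX, hX2⟩ := hp _ (hI.base 0)
  obtain ⟨hY, hY2⟩ := hp _ (hI.base 1)
  have hX3 := hX2 (B 1)
  have hY3 := hY2 (B 0)
  simp only [single_dotProduct, one_mul] at hX hX3 hY hY3
  have hZ' : B 1 ⬝ᵥ ((rd Φ).A *ᵥ B 0) = B 0 ⬝ᵥ ((rd Φ).A *ᵥ B 1) := by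
    rw [dotProduct_mulVec, ← mulVec_transpose, hsym, dotProduct_comm]
  rw [hZ'] at hY3
  obtain ⟨X, hXd⟩ : ∃ X, B 0 ⬝ᵥ ((rd Φ).A *ᵥ B 0) = X := ⟨_, rfl⟩
  obtain ⟨Y, hYd⟩ : ∃ X, B 1 ⬝ᵥ ((rd Φ).A *ᵥ B 1) = X := ⟨_, rfl⟩
  obtain ⟨Z, hZd⟩ : ∃ X, B 0 ⬝ᵥ ((rd Φ).A *ᵥ B 1) = X := ⟨_, rfl⟩
  rw [hXd] at hX hX3
  rw [hYd] at hY hY3
  rw [hZd] at hX3 hY3 hZ'
  have hvv := quad_exp (rd Φ).A (B 0) (B 1) X Y Z hXd hYd hZd hZ'
  have hdet : B 0 1 * B 1 0 ≠ 4 := by
    intro h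
    apply hI.det
    rw [Matrix.det_fin_two, b0, b1]
    linarith
  refine ⟨?_, ?_, ?_, ?_⟩
  · have h := hI.refl _ (hI.base 0) _ (hI.base 1)
    rcases hI.sgn _ h with ⟨n, -, hn⟩ | ⟨n, -, hn⟩
    · have := (hn 0).2
      simp at this
      exact this
    · have := (hn 1).2
      simp at this
  · have h := hI.refl _ (hI.base 1) _ (hI.base 0)
    rcases hI.sgn _ h with ⟨n, -, hn⟩ | ⟨n, -, hn⟩
    · have := (hn 1).2
      simp at this
      exact this
    · have := (hn 0).2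
      simp at this
  · constructor
    · intro h
      rw [h, zero_mul] at hY3
      rw [hY3] at hX3
      rcases mul_eq_zero.1 hX3.symm with h' | h'
      · exact h'
      · exact absurd h' hX.ne'
    · intro h
      rw [h, zero_mul] at hX3
      rw [hX3] at hY3
      rcases mul_eq_zero.1 hY3.symm with h' | h'
      · exact h'
      · exact absurd h' hY.ne'
  · obtain ⟨v, hv⟩ : ∃ v : Fin 2 → ℤ, v = Y • B 0 - Z • B 1 := ⟨_, rfl⟩
    rw [← hv] at hvv
    have hv0 : v 0 ≠ 0 := by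
      intro h
      rw [hv] at h
      simp only [Pi.sub_apply, Pi.smul_apply, smul_eq_mul] at h
      rw [b0] at h
      have h' : Y * (4 - B 0 1 * B 1 0) = 0 := by linear_combination 2 * h + B 1 0 * hY3
      rcases mul_eq_zero.1 h' with h' | h'
      · exact hY.ne' h'
      · apply hdet
        linarith
    have hQv := Q_ge hI v
    have h2 := hQ2 v
    rw [hvv] at h2
    have h3 : 0 < (v 0) ^ 2 := by positivity
    have h4 : 0 < Y * (X * Y - Z * Z) := by linarith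
    have h5 : 0 < X * Y - Z * Z := (mul_pos_iff_of_pos_left hY).1 h4
    have h6 : 4 * (Z * Z) = (B 0 1 * B 1 0) * (X * Y) := by
      linear_combination (2 * Z) * hX3 + (B 1 0 * X) * hY3
    have h7 : 0 < (4 - B 0 1 * B 1 0) * (X * Y) := by linarith
    have h8 : 0 < X * Y := mul_pos hX hY
    have h9 : 0 < 4 - B 0 1 * B 1 0 := (mul_pos_iff_of_pos_right h8).1 h7
    linarith

theorem concl' (hI : IRD Φ B) (hW : WFF Φ B) {a b : ℤ} (ha : B 0 1 = a) (hb : B 1 0 = b)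
    {S : Finset Q4} (hS : CL a b S) (hM : CM a b S) :
    Even (pos Φ).card ∧ ∃ C : ℝ, 1 ≤ C ∧ ∀ (θ : Fin 2 → ℝ) (η : ℝ) (T : Finset {p // p ∈ pos Φ}),
    (pos Φ).card < 2 * T.card → (∀ p ∈ T, nd (dz p.1.1 θ) ≤ η) → ∀ p ∈ pos Φ, nd (dz p.1 θ) ≤ C * η := by
  subst ha
  subst hb
  exact concl hI hW hS hM

theorem card_le' (hI : IRD Φ B) (hW : WFF Φ B) {a b : ℤ} (ha : B 0 1 = a) (hb : B 1 0 = b)
    {S : Finset Q4} (hS : CL a b S) : (pos Φ).card ≤ S.card := by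
  classical
  subst ha
  subst hb
  have : pos Φ ⊆ S.image (em B) := by
    intro p hp
    obtain ⟨x, hx, hpx⟩ := sub hI hW hS _ p hp le_rfl
    exact Finset.mem_image.2 ⟨x, hx, hpx.symm⟩
  exact (Finset.card_le_card this).trans Finset.card_image_le

end FAR

open FAR in
theorem t_FAR : M_FAR := by
  intro hQ Φ B hI hW hn
  obtain ⟨h1, h2, h3, h4⟩ := entries hI hW hQ
  obtain ⟨a, ha⟩ : ∃ a, B 0 1 = a := ⟨_, rfl⟩
  obtain ⟨b, hb⟩ : ∃ b, B 1 0 = b := ⟨_, rfl⟩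
  rw [ha] at h1 h3 h4
  rw [hb] at h2 h3 h4
  by_cases h0 : a = 0
  · have h0' := h3.1 h0
    subst h0
    subst h0'
    have := card_le' hI hW ha hb c0
    have h5 : L0.card = 2 := by decide
    omega
  have h0' : b ≠ 0 := fun h => h0 (h3.2 h)
  have ha1 : a ≤ -1 := by omega
  have hb1 : b ≤ -1 := by omega
  have ha3 : -3 ≤ a := by nlinarith
  have hb3 : -3 ≤ b := by nlinarith
  have hcase : (a = -1 ∧ b = -1) ∨ (a = -1 ∧ b = -2) ∨ (a = -2 ∧ b = -1) ∨ (a = -1 ∧ b = -3) ∨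
      (a = -3 ∧ b = -1) := by
    clear ha hb
    interval_cases a <;> interval_cases b <;> simp_all
  rcases hcase with ⟨rfl, rfl⟩ | ⟨rfl, rfl⟩ | ⟨rfl, rfl⟩ | ⟨rfl, rfl⟩ | ⟨rfl, rfl⟩
  · have := card_le' hI hW ha hb c1
    have h5 : L1.card = 3 := by decide
    omega
  · exact concl' hI hW ha hb c2 m2
  · exact concl' hI hW ha hb c2' m2'
  · exact concl' hI hW ha hb c3 m3
  · exact concl' hI hW ha hb c3' m3'

end

end STZ3
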