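import Pool.Agent.STZ3.StD3

/-!
# The frequency cutoffs for the chain packets: module FPX
-/

namespace STZ3

open STZ LGR MeasureTheory Matrix Filter

open scoped ComplexConjugate Matrix Real Topology

noncomputable section

namespace FPX

/-- the number of doublings -/
theorem dbl (J : ℕ) (M : ℝ) (h1 : 1 ≤ M) (h2 : M ≤ 2 ^ J) :
    ∃ j : ℕ, j ≤ J ∧ (2 : ℝ) ^ J ≤ 2 ^ j * M ∧ 2 ^ j * M ≤ 2 * 2 ^ J := by
  classical
  have hex : ∃ j : ℕ, (2 : ℝ) ^ J ≤ 2 ^ j * M :=
    ⟨J, le_mul_of_one_le_right (by positivity) h1⟩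
  refine ⟨Nat.find hex, ?_, Nat.find_spec hex, ?_⟩
  · exact Nat.find_min' hex (le_mul_of_one_le_right (by positivity) h1)
  · rcases Nat.eq_zero_or_pos (Nat.find hex) with h0 | h0
    · rw [h0, pow_zero, one_mul]
      have : (0 : ℝ) < 2 ^ J := by positivity
      linarith
    · have h3 := Nat.find_min hex (Nat.sub_one_lt_of_lt h0)
      rw [not_le] at h3
      have h4 : (2 : ℝ) ^ (Nat.find hex) = 2 * 2 ^ (Nat.find hex - 1) := by
        rw [← pow_succ']
        congr 1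
        omega
      rw [h4, mul_assoc]
      linarith

end FPX

open FPX in
theorem t_FPX : M_FPX := by
  intro hFRQ hPRM hRGM r Φ B hr hΦ hW m hm
  obtain ⟨C, hC, hF⟩ := hFRQ r Φ B hΦ m hm
  have hP := hPRM r Φ B hr hΦ hW
  have hR := hRGM r Φ B hr hΦ hW
  refine ⟨C, hC, ?_⟩
  intro ε J a x hε hJ hRG
  classical
  have hX0 : (0 : ℝ) < 2 ^ J := by positivity
  have hX1 : (1 : ℝ) ≤ 2 ^ J := one_le_pow₀ one_le_two
  have hδ0 : 0 < dl x a := hP.dpos J x a
  have hδ1 : dl x a ≤ 1 := (hP.dle J x a).trans (hP.ble J x)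
  have hδX : 1 / 2 ^ J ≤ dl x a := hP.dge J x a
  obtain ⟨htc0, htcth⟩ := hR.tp J a x
  have htc1 : tc a x ≤ 1 := by
    refine htcth.trans ((hP.tle J x).trans ?_)
    rw [div_le_one hX0]
    exact hX1
  have hs0 : 0 < √(tc a x) := Real.sqrt_pos.2 htc0
  have hs1 : √(tc a x) ≤ 1 := Real.sqrt_le_one.2 htc1
  have hsX : 1 / 2 ^ J ≤ √(tc a x) := by
    refine Real.le_sqrt_of_sq_le ?_
    unfold tc
    rw [sq, div_eq_mul_inv (dl x a), ← one_div]
    exact mul_le_mul_of_nonneg_right hδX (by positivity)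
  have hE : ∀ u : ℝ, 0 ≤ u → (1 : ℝ) ≤ 2 ^ (u * J) := fun u hu =>
    Real.one_le_rpow one_le_two (by positivity)
  set m2 : ℝ := max (1 / √(th x)) (1 / dl x a) with hm2
  have hm2δ : 1 / dl x a ≤ m2 := le_max_right _ _
  have hm21 : 1 ≤ m2 := by
    refine le_trans ?_ hm2δ
    rw [le_div_iff₀ hδ0, one_mul]
    exact hδ1
  have hm20 : 0 < m2 := by linarith
  set M₀ : {p // p ∈ pos Φ} → ℝ := fun p =>
    if p = a then 1 / √(tc a x) else (2 : ℝ) ^ (8 * ε * J) * m2 with hM₀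
  have hMa : M₀ a = 1 / √(tc a x) := by
    rw [hM₀]
    exact if_pos rfl
  have hMp : ∀ p, p ≠ a → M₀ p = (2 : ℝ) ^ (8 * ε * J) * m2 := by
    intro p hp
    rw [hM₀]
    exact if_neg hp
  have h1 : ∀ p, 1 ≤ M₀ p := by
    intro p
    by_cases hp : p = a
    · rw [hp, hMa, le_div_iff₀ hs0, one_mul]
      exact hs1
    · rw [hMp p hp]
      exact one_le_mul_of_one_le_of_one_le (hE _ (by positivity)) hm21
  have h2 : ∀ p, M₀ p ≤ 2 ^ J := by
    intro p
    by_cases hp : p = a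
    · rw [hp, hMa, div_le_iff₀ hs0]
      rw [div_le_iff₀ hX0] at hsX
      linarith
    · rw [hMp p hp]
      calc (2 : ℝ) ^ (8 * ε * J) * m2 ≤ (2 : ℝ) ^ (8 * ε * J) * (2 : ℝ) ^ ((1 - 12 * ε) * J) :=
            mul_le_mul_of_nonneg_left (hR.lump J ε a x hε hRG) (by positivity)
        _ = (2 : ℝ) ^ ((1 - 4 * ε) * J) := by
          rw [← Real.rpow_add two_pos]
          congr 1
          ring
        _ ≤ (2 : ℝ) ^ (J : ℝ) := by
          refine Real.rpow_le_rpow_of_exponent_le one_le_two ?_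
          have : 0 ≤ ε * J := by positivity
          linarith
        _ = 2 ^ J := Real.rpow_natCast _ _
  choose jm hjm1 hjm2 hjm3 using fun p => dbl J (M₀ p) (h1 p) (h2 p)
  set R : ℝ := (2 : ℝ) ^ (-(3 * ε * J)) * dl x a with hRd
  have h3 : ∀ p, 1 / M₀ p ≤ R := by
    intro p
    by_cases hp : p = a
    · rw [hp, hMa, one_div_one_div]
      refine (hR.ta J ε a x hRG).trans ?_
      refine mul_le_mul_of_nonneg_right ?_ hδ0.le
      refine Real.rpow_le_rpow_of_exponent_le one_le_two ?_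
      have : 0 ≤ ε * J := by positivity
      linarith
    · rw [hMp p hp, one_div, mul_inv, ← Real.rpow_neg two_pos.le]
      refine mul_le_mul ?_ ?_ (by positivity) (by positivity)
      · refine Real.rpow_le_rpow_of_exponent_le one_le_two ?_
        have : 0 ≤ ε * J := by positivity
        linarith
      · rw [inv_le_comm₀ hm20 hδ0, ← one_div]
        exact hm2δ
  obtain ⟨ψ, ν₁, ν₂, hfcf⟩ := hF M₀ jm J R h1 hjm1 h3
  exact ⟨R, M₀, jm, J, ψ, ν₁, ν₂,
    { fcf := hfcf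
      ma := hMa
      mp := hMp
      lo := hjm2
      hi := hjm3
      num := hjm1
      numL := Nat.le_succ J
      rr := le_rfl }⟩

end

end STZ3
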