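import Pool.Agent.STZ3.StC3

/-!
# STZ3, module GLB: the lower bound from the group to the Levi subgroup
-/

namespace STZ3

open STZ LGR MeasureTheory Matrix Filter

open scoped ComplexConjugate Matrix Real Topology

noncomputable section

namespace GLB

variable {r : ℕ} {Φ : RT r} {B : Matrix (Fin r) (Fin r) ℤ}

theorem dR_eq (Φ : RT r) (l : Fin r → ℤ) :
    dR Φ l = ((rd Φ).dim l : ℝ) / ((rd Φ).dim 1 : ℝ) := by
  unfold dR rd
  push_cast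
  rfl

theorem dim_one (hW : WFF Φ B) : ((rd Φ).dim 1 : ℤ) ≠ 0 := by
  show (∏ p ∈ pos Φ, (p.2 ⬝ᵥ (1 : Fin r → ℤ))) ≠ 0
  refine Finset.prod_ne_zero_iff.2 fun p hp => ?_
  obtain ⟨-, h1, h2, -⟩ := hW.ppos p hp
  have h3 : p.2 ⬝ᵥ (1 : Fin r → ℤ) = ∑ i, p.2 i := by simp [dotProduct]
  rw [h3]
  intro h0
  apply h2
  have h4 := (Finset.sum_eq_zero_iff_of_nonneg fun i _ => h1 i).1 h0
  funext i
  exact h4 i (Finset.mem_univ i)

theorem det_sq (hW : WFF Φ B) {w : Matrix (Fin r) (Fin r) ℤ} (hw : w ∈ WF Φ) :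
    (w.det : ℝ) * (w.det : ℝ) = 1 := by
  rcases hW.det w hw with h | h <;> rw [h] <;> norm_num

end GLB

open GLB in
/-- The lower bound. -/
theorem t_GLB : M_GLB := by
  intro hwf hqd hrv htrl hglh N H r Φ B Hc E c k d hCX
  have hird := hCX.lrd.ird
  have hW : WFF Φ B := hwf r Φ B hird
  obtain ⟨q1, -, -, -, -, -, -⟩ := hqd r Φ B hird hW
  have hRV := hrv r Φ B hCX.one_le hird
  have hD1 : (((rd Φ).dim 1 : ℤ) : ℝ) ≠ 0 := by exact_mod_cast dim_one hW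
  obtain ⟨c0, hc0, hG⟩ := hglh r Φ B hCX.one_le hird hW
  have hQ1 : (0 : ℝ) ≤ (rd Φ).Q 1 := by
    have : (0 : ℤ) ≤ (rd Φ).Q 1 := by
      show (0 : ℤ) ≤ ∑ p ∈ pos Φ, (p.2 ⬝ᵥ (1 : Fin r → ℤ)) ^ 2
      exact Finset.sum_nonneg fun _ _ => sq_nonneg _
    exact_mod_cast this
  refine ⟨(WF Φ).card * Real.exp (2 * (rd Φ).Q 1) / c0, by positivity, ?_⟩
  intro a n σ l U μ x m τ hH hWT hST t ht ht1
  set F : (Fin r → ℤ) → ℂ := fun ν => ((Real.exp (2 * t * (rd Φ).Q ν) * dR Φ ν : ℝ) : ℂ) with hF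
  have htr := htrl N H r Φ B Hc E c k d hCX a n σ l U μ x m τ hH hWT hST F
  have hdl : dR Φ l = (n : ℝ) := by
    rw [dR_eq, div_eq_iff hD1]
    have h1 := hH.dim
    have h2 : ((n : ℝ) * (((rd Φ).dim 1 : ℤ) : ℝ)) = (((rd Φ).dim l : ℤ) : ℝ) := by
      exact_mod_cast h1
    exact h2.symm
  have hw1 : ∀ w ∈ WF Φ, (w.det : ℂ) * F (w *ᵥ l) =
      ((Real.exp (2 * t * (rd Φ).Q l) * n : ℝ) : ℂ) := by
    intro w hw
    have h1 : dR Φ (w *ᵥ l) = (w.det : ℝ) * (n : ℝ) := by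
      rw [dR_eq]
      have h2 : (rd Φ).dim (w *ᵥ l) = w.det * (rd Φ).dim l := hRV.danti w hw l
      rw [h2, ← hdl, dR_eq]
      push_cast
      ring
    have h3 : (w.det : ℝ) * (Real.exp (2 * t * ((rd Φ).Q (w *ᵥ l) : ℝ)) * dR Φ (w *ᵥ l)) =
        Real.exp (2 * t * (rd Φ).Q l) * n := by
      rw [h1, q1 w hw]
      linear_combination (Real.exp (2 * t * (rd Φ).Q l) * n) * det_sq hW hw
    have h4 : (w.det : ℂ) = (((w.det : ℤ) : ℝ) : ℂ) := (Complex.ofReal_intCast _).symm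
    rw [hF, h4, ← Complex.ofReal_mul, h3]
  rw [Finset.sum_congr rfl hw1, Finset.sum_const, nsmul_eq_mul] at htr
  have hre := congrArg Complex.re htr
  rw [Complex.re_sum] at hre
  have hre2 : ((((WF Φ).card : ℕ) : ℂ) * ((Real.exp (2 * t * (rd Φ).Q l) * n : ℝ) : ℂ)).re =
      (WF Φ).card * (Real.exp (2 * t * (rd Φ).Q l) * n) := by
    rw [← Complex.ofReal_natCast, ← Complex.ofReal_mul, Complex.ofReal_re]
  rw [hre2] at hre
  simp only [Complex.sub_re] at hre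
  have hsum : ∑ s, c0 * Real.exp (2 * t * CL Φ a.1 (τ s)) * (((a.1.2 ⬝ᵥ τ s : ℤ) : ℝ) + 1) *
      ∏ p ∈ (pos Φ).erase a.1, (1 + t * ((p.2 ⬝ᵥ τ s : ℤ) : ℝ) ^ 2) ≤
      (WF Φ).card * (Real.exp (2 * t * (rd Φ).Q l) * n) := by
    rw [← hre]
    refine Finset.sum_le_sum fun s _ => ?_
    exact hG a.1 a.2 t (τ s) ht ht1 (hST.nn s)
  have hkey : ∑ s, Real.exp (-(2 * t * (((rd Φ).Q l : ℝ) - (rd Φ).Q 1 - CL Φ a.1 (τ s)))) *
      (((a.1.2 ⬝ᵥ τ s : ℤ) : ℝ) + 1) *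
      ∏ p ∈ (pos Φ).erase a.1, (1 + t * ((p.2 ⬝ᵥ τ s : ℤ) : ℝ) ^ 2) =
      (Real.exp (2 * t * (rd Φ).Q 1) * Real.exp (-(2 * t * (rd Φ).Q l)) / c0) *
      ∑ s, c0 * Real.exp (2 * t * CL Φ a.1 (τ s)) * (((a.1.2 ⬝ᵥ τ s : ℤ) : ℝ) + 1) *
      ∏ p ∈ (pos Φ).erase a.1, (1 + t * ((p.2 ⬝ᵥ τ s : ℤ) : ℝ) ^ 2) := by
    rw [Finset.mul_sum]
    refine Finset.sum_congr rfl fun s _ => ?_
    have h1 : Real.exp (-(2 * t * (((rd Φ).Q l : ℝ) - (rd Φ).Q 1 - CL Φ a.1 (τ s)))) =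
        Real.exp (2 * t * (rd Φ).Q 1) * Real.exp (-(2 * t * (rd Φ).Q l)) *
          Real.exp (2 * t * CL Φ a.1 (τ s)) := by
      rw [← Real.exp_add, ← Real.exp_add]
      congr 1
      ring
    rw [h1]
    field_simp
  rw [hkey]
  have hle := mul_le_mul_of_nonneg_left hsum
    (by positivity : 0 ≤ Real.exp (2 * t * (rd Φ).Q 1) * Real.exp (-(2 * t * (rd Φ).Q l)) / c0)
  refine hle.trans ?_
  have h2 : Real.exp (-(2 * t * (rd Φ).Q l)) * Real.exp (2 * t * (rd Φ).Q l) = 1 := by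
    rw [← Real.exp_add, neg_add_cancel, Real.exp_zero]
  have h3 : Real.exp (2 * t * (rd Φ).Q 1) * Real.exp (-(2 * t * (rd Φ).Q l)) / c0 *
      ((WF Φ).card * (Real.exp (2 * t * (rd Φ).Q l) * n)) =
      (WF Φ).card * Real.exp (2 * t * (rd Φ).Q 1) / c0 * n := by
    linear_combination (Real.exp (2 * t * (rd Φ).Q 1) / c0 * (WF Φ).card * n) * h2
  rw [h3]
  have h4 : Real.exp (2 * t * (rd Φ).Q 1) ≤ Real.exp (2 * (rd Φ).Q 1) := by
    apply Real.exp_le_exp.2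
    nlinarith
  gcongr

end

end STZ3
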