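import Pool.Agent.STZ3.StC3

/-!
# Compact simple groups of rank two: module GLH (helper14)
-/

namespace STZ3

open STZ LGR MeasureTheory Matrix Filter

open scoped ComplexConjugate Matrix Real Topology

noncomputable section

namespace GLH

open ProbabilityTheory

open scoped NNReal ENNReal

/-- the density of the Gaussian measure -/
theorem ga_eq (r : ℕ) : ga r = (volume : Measure (Fin r → ℝ)).withDensity
    (fun ξ => ENNReal.ofReal (∏ i, gaussianPDFReal 0 1 (ξ i))) := by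
  unfold ga
  refine Measure.pi_eq fun s hs => ?_
  have hint : Integrable (fun ξ : Fin r → ℝ => ∏ i, gaussianPDFReal 0 1 (ξ i)) :=
    Integrable.fintype_prod (f := fun _ => gaussianPDFReal 0 1) (μ := fun _ => volume)
      fun i => integrable_gaussianPDFReal 0 1
  rw [withDensity_apply _ (MeasurableSet.univ_pi hs), ← ofReal_integral_eq_lintegral_ofReal
    hint.restrict (ae_of_all _ fun ξ => Finset.prod_nonneg fun i _ =>
      gaussianPDFReal_nonneg 0 1 (ξ i)), volume_pi, Measure.restrict_pi_pi,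
    integral_fintype_prod_eq_prod (fun _ => gaussianPDFReal 0 1), ENNReal.ofReal_prod_of_nonneg]
  · refine Finset.prod_congr rfl fun i _ => ?_
    rw [gaussianReal_apply_eq_integral 0 one_ne_zero]
  · intro i _
    exact integral_nonneg fun x => gaussianPDFReal_nonneg 0 1 x

theorem int_eq {r : ℕ} (F : (Fin r → ℝ) → ℝ) :
    ∫ ξ, F ξ ∂(ga r) = ∫ ξ, (∏ i, gaussianPDFReal 0 1 (ξ i)) * F ξ := by
  rw [ga_eq, integral_withDensity_eq_integral_toReal_smul]
  · refine integral_congr_ae (ae_of_all _ fun ξ => ?_)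
    simp only [smul_eq_mul]
    rw [ENNReal.toReal_ofReal (Finset.prod_nonneg fun i _ => gaussianPDFReal_nonneg 0 1 (ξ i))]
  · refine ENNReal.measurable_ofReal.comp ?_
    exact Finset.measurable_prod _ fun i _ =>
      (measurable_gaussianPDFReal 0 1).comp (measurable_pi_apply i)
  · exact ae_of_all _ fun _ => ENNReal.ofReal_lt_top

/-- translation of the Gaussian measure -/
theorem trans {r : ℕ} (F : (Fin r → ℝ) → ℝ) (η : Fin r → ℝ) :
    ∫ ξ, F (ξ + η) ∂(ga r) =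
      ∫ ξ, F ξ * Real.exp (∑ i, ξ i * η i - (∑ i, η i ^ 2) / 2) ∂(ga r) := by
  rw [int_eq, int_eq]
  have h1 := integral_add_right_eq_self (μ := (volume : Measure (Fin r → ℝ)))
    (fun ξ : Fin r → ℝ => (∏ i, gaussianPDFReal 0 1 (ξ i - η i)) * F ξ) η
  simp only [Pi.add_apply, add_sub_cancel_right] at h1
  rw [h1]
  refine integral_congr_ae (ae_of_all _ fun ξ => ?_)
  simp only
  have h2 : ∀ i, gaussianPDFReal 0 1 (ξ i - η i) =
      gaussianPDFReal 0 1 (ξ i) * Real.exp (ξ i * η i - η i ^ 2 / 2) := by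
    intro i
    simp only [gaussianPDFReal, NNReal.coe_one, sub_zero, mul_one]
    have e : Real.exp (-(ξ i - η i) ^ 2 / 2) =
        Real.exp (-(ξ i) ^ 2 / 2) * Real.exp (ξ i * η i - η i ^ 2 / 2) := by
      rw [← Real.exp_add]
      congr 1
      ring
    rw [e]
    ring
  have h3 : ∏ i, gaussianPDFReal 0 1 (ξ i - η i) =
      (∏ i, gaussianPDFReal 0 1 (ξ i)) *
        Real.exp (∑ i, ξ i * η i - (∑ i, η i ^ 2) / 2) := by
    simp only [h2]
    rw [Finset.prod_mul_distrib, ← Real.exp_sum, Finset.sum_sub_distrib, Finset.sum_div]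
  rw [h3]
  ring

/-- continuous functions of exponential growth -/
def EG {r : ℕ} (G : (Fin r → ℝ) → ℝ) : Prop :=
  Continuous G ∧ ∃ C c : ℝ, 0 ≤ C ∧ 0 ≤ c ∧ ∀ ξ, |G ξ| ≤ C * Real.exp (c * ∑ i, |ξ i|)

theorem EG.int {r : ℕ} {G : (Fin r → ℝ) → ℝ} (h : EG G) : Integrable G (ga r) := by
  obtain ⟨hc, C, c, hC, hc0, hb⟩ := h
  have h1 : Integrable (fun x : ℝ => Real.exp (c * |x|)) (gaussianReal 0 1) :=
    integrable_exp_mul_abs (X := fun x : ℝ => x) (integrable_exp_mul_gaussianReal c)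
      (integrable_exp_mul_gaussianReal (-c))
  have h2 : Integrable (fun ξ : Fin r → ℝ => ∏ i, Real.exp (c * |ξ i|)) (ga r) :=
    Integrable.fintype_prod (f := fun _ (x : ℝ) => Real.exp (c * |x|)) fun i => h1
  refine (h2.const_mul C).mono' hc.aestronglyMeasurable (ae_of_all _ fun ξ => ?_)
  rw [Real.norm_eq_abs, ← Real.exp_sum, ← Finset.mul_sum]
  exact hb ξ

theorem EG.const {r : ℕ} (a : ℝ) : EG (fun _ : Fin r → ℝ => a) :=
  ⟨continuous_const, |a|, 0, abs_nonneg a, le_rfl, fun ξ => by simp⟩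

theorem EG.mul {r : ℕ} {G G' : (Fin r → ℝ) → ℝ} (h : EG G) (h' : EG G') :
    EG (fun ξ => G ξ * G' ξ) := by
  obtain ⟨hc, C, c, hC, hc0, hb⟩ := h
  obtain ⟨hc', C', c', hC', hc0', hb'⟩ := h'
  refine ⟨hc.mul hc', C * C', c + c', mul_nonneg hC hC', add_nonneg hc0 hc0', fun ξ => ?_⟩
  rw [abs_mul, add_mul, Real.exp_add]
  calc |G ξ| * |G' ξ| ≤ (C * Real.exp (c * ∑ i, |ξ i|)) * (C' * Real.exp (c' * ∑ i, |ξ i|)) :=
        mul_le_mul (hb ξ) (hb' ξ) (abs_nonneg _) (by positivity)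
    _ = _ := by ring

theorem EG.add {r : ℕ} {G G' : (Fin r → ℝ) → ℝ} (h : EG G) (h' : EG G') :
    EG (fun ξ => G ξ + G' ξ) := by
  obtain ⟨hc, C, c, hC, hc0, hb⟩ := h
  obtain ⟨hc', C', c', hC', hc0', hb'⟩ := h'
  refine ⟨hc.add hc', C + C', c + c', add_nonneg hC hC', add_nonneg hc0 hc0', fun ξ => ?_⟩
  have hs : 0 ≤ ∑ i, |ξ i| := Finset.sum_nonneg fun i _ => abs_nonneg _
  have e1 : Real.exp (c * ∑ i, |ξ i|) ≤ Real.exp ((c + c') * ∑ i, |ξ i|) := by
    apply Real.exp_le_exp.2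
    nlinarith
  have e2 : Real.exp (c' * ∑ i, |ξ i|) ≤ Real.exp ((c + c') * ∑ i, |ξ i|) := by
    apply Real.exp_le_exp.2
    nlinarith
  calc |G ξ + G' ξ| ≤ |G ξ| + |G' ξ| := abs_add_le _ _
    _ ≤ C * Real.exp (c * ∑ i, |ξ i|) + C' * Real.exp (c' * ∑ i, |ξ i|) :=
        add_le_add (hb ξ) (hb' ξ)
    _ ≤ C * Real.exp ((c + c') * ∑ i, |ξ i|) + C' * Real.exp ((c + c') * ∑ i, |ξ i|) :=
        add_le_add (mul_le_mul_of_nonneg_left e1 hC) (mul_le_mul_of_nonneg_left e2 hC')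
    _ = _ := by ring

theorem EG.prod {r : ℕ} {ι : Type} (s : Finset ι) (G : ι → (Fin r → ℝ) → ℝ)
    (h : ∀ i ∈ s, EG (G i)) : EG (fun ξ => ∏ i ∈ s, G i ξ) := by
  classical
  induction s using Finset.induction_on with
  | empty => simpa using EG.const (r := r) 1
  | insert a s ha ih =>
    simp only [Finset.prod_insert ha]
    exact (h a (Finset.mem_insert_self a s)).mul
      (ih fun i hi => h i (Finset.mem_insert_of_mem hi))

theorem EG.shift {r : ℕ} {G : (Fin r → ℝ) → ℝ} (h : EG G) (η : Fin r → ℝ) :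
    EG (fun ξ => G (ξ + η)) := by
  obtain ⟨hc, C, c, hC, hc0, hb⟩ := h
  refine ⟨hc.comp (by fun_prop), C * Real.exp (c * ∑ i, |η i|), c, by positivity, hc0,
    fun ξ => (hb _).trans ?_⟩
  rw [mul_assoc, ← Real.exp_add]
  refine mul_le_mul_of_nonneg_left (Real.exp_le_exp.2 ?_) hC
  rw [← mul_add, ← Finset.sum_add_distrib]
  refine mul_le_mul_of_nonneg_left (Finset.sum_le_sum fun i _ => ?_) hc0
  rw [Pi.add_apply, add_comm |η i|]
  exact abs_add_le _ _

theorem lin_bd {r : ℕ} (ξ u : Fin r → ℝ) : |∑ i, ξ i * u i| ≤ (∑ i, |u i|) * ∑ i, |ξ i| := by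
  refine (Finset.abs_sum_le_sum_abs _ _).trans ?_
  rw [Finset.mul_sum]
  refine Finset.sum_le_sum fun i _ => ?_
  rw [abs_mul, mul_comm]
  refine mul_le_mul_of_nonneg_right ?_ (abs_nonneg _)
  exact Finset.single_le_sum (f := fun i => |u i|) (fun j _ => abs_nonneg _) (Finset.mem_univ i)

theorem EG.lin {r : ℕ} (u : Fin r → ℝ) : EG (fun ξ => ∑ i, ξ i * u i) := by
  have hu : 0 ≤ ∑ i, |u i| := Finset.sum_nonneg fun i _ => abs_nonneg _
  refine ⟨by fun_prop, ∑ i, |u i|, 1, hu, zero_le_one, fun ξ => (lin_bd ξ u).trans ?_⟩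
  refine mul_le_mul_of_nonneg_left ?_ hu
  rw [one_mul]
  have := Real.add_one_le_exp (∑ i, |ξ i|)
  linarith

theorem EG.expl {r : ℕ} (u : Fin r → ℝ) (b : ℝ) :
    EG (fun ξ => Real.exp (b * ∑ i, ξ i * u i)) := by
  have hu : 0 ≤ ∑ i, |u i| := Finset.sum_nonneg fun i _ => abs_nonneg _
  refine ⟨by fun_prop, 1, |b| * ∑ i, |u i|, zero_le_one, by positivity, fun ξ => ?_⟩
  rw [Real.abs_exp, one_mul, Real.exp_le_exp, mul_assoc]
  calc b * ∑ i, ξ i * u i ≤ |b * ∑ i, ξ i * u i| := le_abs_self _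
    _ = |b| * |∑ i, ξ i * u i| := abs_mul _ _
    _ ≤ |b| * ((∑ i, |u i|) * ∑ i, |ξ i|) :=
        mul_le_mul_of_nonneg_left (lin_bd ξ u) (abs_nonneg b)

/-- the image of a weight -/
def zv {r : ℕ} (z : Matrix (Fin r) (Fin r) ℝ) (v : Fin r → ℤ) (l : Fin r) : ℝ :=
  ∑ i, z l i * (v i : ℝ)

theorem lf_eq {r : ℕ} (z : Matrix (Fin r) (Fin r) ℝ) (v : Fin r → ℤ) (ξ : Fin r → ℝ) :
    lf z v ξ = ∑ l, ξ l * zv z v l := rfl

theorem zv_dot {r : ℕ} {Φ : RT r} {z : Matrix (Fin r) (Fin r) ℝ} (hz : ZM Φ z)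
    (v w : Fin r → ℤ) : ∑ l, zv z w l * zv z v l = ip Φ v w / 2 := by
  have h1 : ip Φ v w = ∑ i, ∑ j, (v i : ℝ) * (((rd Φ).A i j : ℝ) * (w j : ℝ)) := by
    unfold ip
    simp only [dotProduct, mulVec, Int.cast_sum, Int.cast_mul, Finset.mul_sum]
  have h2 : ∀ i j, (v i : ℝ) * (((rd Φ).A i j : ℝ) * (w j : ℝ)) =
      ∑ l, 2 * ((z l j * (w j : ℝ)) * (z l i * (v i : ℝ))) := by
    intro i j
    have h3 : ((rd Φ).A i j : ℝ) = ∑ l, 2 * (z l i * z l j) := by
      rw [← Finset.mul_sum, hz i j]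
      ring
    rw [h3, Finset.sum_mul, Finset.mul_sum]
    refine Finset.sum_congr rfl fun l _ => ?_
    ring
  have h4 : ip Φ v w = 2 * ∑ l, zv z w l * zv z v l := by
    rw [h1]
    simp only [h2]
    rw [Finset.sum_comm]
    calc ∑ j, ∑ i, ∑ l, 2 * ((z l j * (w j : ℝ)) * (z l i * (v i : ℝ)))
        = ∑ j, ∑ l, ∑ i, 2 * ((z l j * (w j : ℝ)) * (z l i * (v i : ℝ))) :=
          Finset.sum_congr rfl fun j _ => Finset.sum_comm
      _ = ∑ l, ∑ j, ∑ i, 2 * ((z l j * (w j : ℝ)) * (z l i * (v i : ℝ))) := Finset.sum_comm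
      _ = 2 * ∑ l, zv z w l * zv z v l := by
          rw [Finset.mul_sum]
          refine Finset.sum_congr rfl fun l _ => ?_
          unfold zv
          rw [Finset.sum_mul_sum, Finset.mul_sum]
          refine Finset.sum_congr rfl fun j _ => ?_
          rw [Finset.mul_sum]
  rw [h4]
  ring

theorem zv_add {r : ℕ} (z : Matrix (Fin r) (Fin r) ℝ) (v w : Fin r → ℤ) (l : Fin r) :
    zv z (v + w) l = zv z v l + zv z w l := by
  unfold zv
  rw [← Finset.sum_add_distrib]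
  refine Finset.sum_congr rfl fun i _ => ?_
  rw [Pi.add_apply, Int.cast_add, mul_add]

theorem lf_add {r : ℕ} (z : Matrix (Fin r) (Fin r) ℝ) (v w : Fin r → ℤ) (ξ : Fin r → ℝ) :
    lf z (v + w) ξ = lf z v ξ + lf z w ξ := by
  rw [lf_eq, lf_eq, lf_eq, ← Finset.sum_add_distrib]
  refine Finset.sum_congr rfl fun l _ => ?_
  rw [zv_add, mul_add]

theorem lf_scale {r : ℕ} {Φ : RT r} {z : Matrix (Fin r) (Fin r) ℝ} (hz : ZM Φ z)
    (a : ℝ) (v w : Fin r → ℤ) : lf z v (fun l => a * zv z w l) = a * (ip Φ v w / 2) := by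
  rw [lf_eq, ← zv_dot hz v w, Finset.mul_sum]
  refine Finset.sum_congr rfl fun l _ => ?_
  ring

/-- translation by a multiple of a weight -/
theorem trans' {r : ℕ} {Φ : RT r} {z : Matrix (Fin r) (Fin r) ℝ} (hz : ZM Φ z)
    (F : (Fin r → ℝ) → ℝ) (a : ℝ) (v : Fin r → ℤ) :
    ∫ ξ, F (ξ + fun l => a * zv z v l) ∂(ga r) =
      Real.exp (-(a ^ 2 * ip Φ v v / 4)) * ∫ ξ, F ξ * Real.exp (a * lf z v ξ) ∂(ga r) := by
  rw [trans, ← integral_const_mul]
  refine integral_congr_ae (ae_of_all _ fun ξ => ?_)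
  simp only
  have h1 : ∑ i, ξ i * (a * zv z v i) = a * lf z v ξ := by
    rw [lf_eq, Finset.mul_sum]
    refine Finset.sum_congr rfl fun l _ => ?_
    ring
  have h2 : ∑ i, (a * zv z v i) ^ 2 = a ^ 2 * (ip Φ v v / 2) := by
    rw [← zv_dot hz v v, Finset.mul_sum]
    refine Finset.sum_congr rfl fun l _ => ?_
    ring
  rw [h1, h2, mul_left_comm, ← Real.exp_add]
  congr 2
  ring

/-- `y (e^(a y/2) - e^(-a y/2)) ≥ a y²` -/
theorem sinh_bd {a : ℝ} (ha : 0 ≤ a) (y : ℝ) :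
    a * y ^ 2 ≤ y * (Real.exp (a * y / 2) - Real.exp (-(a * y / 2))) := by
  have h1 : Real.exp (a * y / 2) - Real.exp (-(a * y / 2)) = 2 * Real.sinh (a * y / 2) := by
    rw [Real.sinh_eq]
    ring
  rw [h1]
  rcases le_total 0 y with hy | hy
  · have h2 : a * y / 2 ≤ Real.sinh (a * y / 2) := Real.self_le_sinh_iff.2 (by positivity)
    nlinarith [mul_le_mul_of_nonneg_left h2 hy]
  · have h2 : Real.sinh (a * y / 2) ≤ a * y / 2 :=
      Real.sinh_le_self_iff.2 (by nlinarith [mul_nonneg ha (neg_nonneg.2 hy)])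
    nlinarith [mul_le_mul_of_nonneg_left h2 (neg_nonneg.2 hy)]

theorem zv_ne {r : ℕ} {Φ : RT r} {z : Matrix (Fin r) (Fin r) ℝ} (hz : ZM Φ z)
    (v : Fin r → ℤ) (hv : 0 < v ⬝ᵥ ((rd Φ).A *ᵥ v)) : zv z v ≠ 0 := by
  intro h0
  have h1 : ((v ⬝ᵥ ((rd Φ).A *ᵥ v) : ℤ) : ℝ) =
      ∑ i, ∑ j, (v i : ℝ) * (((rd Φ).A i j : ℝ) * (v j : ℝ)) := by
    simp only [dotProduct, mulVec, Int.cast_sum, Int.cast_mul, Finset.mul_sum]
  have h2 : ∀ i j, (v i : ℝ) * (((rd Φ).A i j : ℝ) * (v j : ℝ)) =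
      ∑ l, 2 * ((z l i * (v i : ℝ)) * (z l j * (v j : ℝ))) := by
    intro i j
    have h3 : ((rd Φ).A i j : ℝ) = ∑ l, 2 * (z l i * z l j) := by
      rw [← Finset.mul_sum, hz i j]
      ring
    rw [h3, Finset.sum_mul, Finset.mul_sum]
    refine Finset.sum_congr rfl fun l _ => ?_
    ring
  have h4 : ((v ⬝ᵥ ((rd Φ).A *ᵥ v) : ℤ) : ℝ) = 2 * ∑ l, zv z v l * zv z v l := by
    rw [h1]
    simp only [h2]
    calc ∑ i, ∑ j, ∑ l, 2 * ((z l i * (v i : ℝ)) * (z l j * (v j : ℝ)))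
        = ∑ i, ∑ l, ∑ j, 2 * ((z l i * (v i : ℝ)) * (z l j * (v j : ℝ))) :=
          Finset.sum_congr rfl fun j _ => Finset.sum_comm
      _ = ∑ l, ∑ i, ∑ j, 2 * ((z l i * (v i : ℝ)) * (z l j * (v j : ℝ))) := Finset.sum_comm
      _ = 2 * ∑ l, zv z v l * zv z v l := by
          rw [Finset.mul_sum]
          refine Finset.sum_congr rfl fun l _ => ?_
          unfold zv
          rw [Finset.sum_mul_sum, Finset.mul_sum]
          refine Finset.sum_congr rfl fun j _ => ?_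
          rw [Finset.mul_sum]
  have h5 : (0 : ℝ) < ((v ⬝ᵥ ((rd Φ).A *ᵥ v) : ℤ) : ℝ) := by exact_mod_cast hv
  rw [h4, h0] at h5
  simp at h5

/-- the law of a linear form -/
theorem law {r : ℕ} (u : Fin r → ℝ) (hu : u ≠ 0) : ∃ v : ℝ≥0, v ≠ 0 ∧
    (ga r).map (fun ξ => ∑ i, ξ i * u i) = gaussianReal 0 v := by
  set L : StrongDual ℝ (EuclideanSpace ℝ (Fin r)) := innerSL ℝ (WithLp.toLp 2 u) with hL
  have hn : ‖L‖ ≠ 0 := by
    rw [hL, innerSL_apply_norm, norm_ne_zero_iff]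
    intro h
    exact hu (by simpa using h)
  refine ⟨(‖L‖ ^ 2).toNNReal, ?_, ?_⟩
  · have : 0 < ‖L‖ ^ 2 := by positivity
    exact (Real.toNNReal_pos.2 this).ne'
  · have h1 : (fun ξ : Fin r → ℝ => ∑ i, ξ i * u i) = L ∘ (WithLp.toLp 2) := by
      ext ξ
      simp [hL, PiLp.inner_apply]
    rw [h1, ← Measure.map_map (by fun_prop) (by fun_prop)]
    unfold ga
    rw [map_pi_eq_stdGaussian, IsGaussian.map_eq_gaussianReal, variance_dual_stdGaussian,
      integral_strongDual_stdGaussian]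

theorem pdf_le (m : ℝ) (v : ℝ≥0) (x : ℝ) : gaussianPDFReal m v x ≤ (√(2 * π * v))⁻¹ := by
  unfold gaussianPDFReal
  refine mul_le_of_le_one_right (by positivity) ?_
  rw [Real.exp_le_one_iff]
  have : 0 ≤ (x - m) ^ 2 / (2 * v) := by positivity
  have h2 : -(x - m) ^ 2 / (2 * (v : ℝ)) = -((x - m) ^ 2 / (2 * v)) := by ring
  rw [h2]
  linarith

/-- the mass of an interval -/
theorem icc_le (m : ℝ) {v : ℝ≥0} (hv : v ≠ 0) {a b : ℝ} (hab : a ≤ b) :
    (gaussianReal m v).real (Set.Icc a b) ≤ (√(2 * π * v))⁻¹ * (b - a) := by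
  rw [measureReal_def, gaussianReal_apply_eq_integral m hv, ENNReal.toReal_ofReal
    (integral_nonneg fun x => gaussianPDFReal_nonneg m v x)]
  calc ∫ x in Set.Icc a b, gaussianPDFReal m v x
      ≤ ∫ x in Set.Icc a b, (√(2 * π * v))⁻¹ := by
        refine setIntegral_mono_on (integrable_gaussianPDFReal m v).integrableOn ?_
          measurableSet_Icc fun x _ => pdf_le m v x
        exact integrableOn_const (by simp)
    _ = (√(2 * π * v))⁻¹ * (b - a) := by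
        rw [setIntegral_const, smul_eq_mul, measureReal_def, Real.volume_Icc,
          ENNReal.toReal_ofReal (by linarith)]
        ring

/-- anticoncentration in dimension one -/
theorem one {v : ℝ≥0} (hv : v ≠ 0) {δ : ℝ} (hδ : 0 < δ) : ∃ ε : ℝ, 0 < ε ∧ ∀ b : ℝ,
    (gaussianReal 0 v).real {x | |x + b| ≤ ε * (1 + |b|)} ≤ δ := by
  set M := ∫ x, |x| ∂(gaussianReal 0 v) with hM
  have hM0 : 0 ≤ M := integral_nonneg fun x => abs_nonneg x
  set K := M / δ + 1 with hK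
  have hK1 : 1 ≤ K := by
    have : 0 ≤ M / δ := by positivity
    linarith
  have hint : Integrable (fun x : ℝ => |x|) (gaussianReal 0 v) := by
    have := (memLp_id_gaussianReal (μ := 0) (v := v) 1)
    rw [ENNReal.coe_one, memLp_one_iff_integrable] at this
    simpa using this.abs
  have hT : (gaussianReal 0 v).real {x | K ≤ |x|} ≤ δ := by
    have h1 := mul_meas_ge_le_integral_of_nonneg (ae_of_all _ fun x : ℝ => abs_nonneg x) hint K
    have h2 : M ≤ K * δ := by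
      rw [hK, add_mul, div_mul_cancel₀ _ hδ.ne']
      linarith
    have h3 : K * (gaussianReal 0 v).real {x | K ≤ |x|} ≤ K * δ := h1.trans h2
    exact le_of_mul_le_mul_left h3 (by linarith)
  set D := (√(2 * π * v))⁻¹ with hD
  have hv0 : (0 : ℝ) < v := lt_of_le_of_ne v.2 (by
    intro h
    exact hv (by ext; exact h.symm))
  have hD0 : 0 < D := by positivity
  refine ⟨min (1 / 2) (δ / (4 * D * (K + 1))), ?_, fun b => ?_⟩
  · refine lt_min (by norm_num) ?_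
    have : 0 < K + 1 := by linarith
    positivity
  set ε := min (1 / 2) (δ / (4 * D * (K + 1))) with hε
  have hε1 : ε ≤ 1 / 2 := min_le_left _ _
  have hε2 : ε ≤ δ / (4 * D * (K + 1)) := min_le_right _ _
  have hb0 := abs_nonneg b
  have hε0 : 0 < ε := by
    refine lt_min (by norm_num) ?_
    have : 0 < K + 1 := by linarith
    positivity
  rcases le_or_gt |b| (2 * K + 1) with hb | hb
  · have hs : {x : ℝ | |x + b| ≤ ε * (1 + |b|)} ⊆
        Set.Icc (-b - ε * (1 + |b|)) (-b + ε * (1 + |b|)) := by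
      intro x hx
      have hx' := abs_le.1 (show |x + b| ≤ ε * (1 + |b|) from hx)
      exact ⟨by linarith [hx'.1], by linarith [hx'.2]⟩
    refine (measureReal_mono hs).trans ((icc_le 0 hv ?_).trans ?_)
    · have : 0 ≤ ε * (1 + |b|) := by positivity
      linarith
    · have hK2 : 0 < 4 * D * (K + 1) := by
        have : 0 < K + 1 := by linarith
        positivity
      have h4 : ε * (4 * D * (K + 1)) ≤ δ := by
        rw [le_div_iff₀ hK2] at hε2
        exact hε2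
      have h5 : D * (ε * (1 + |b|)) ≤ D * (ε * (2 * K + 2)) := by
        refine mul_le_mul_of_nonneg_left (mul_le_mul_of_nonneg_left ?_ hε0.le) hD0.le
        linarith
      nlinarith
  · refine (measureReal_mono ?_).trans hT
    intro x hx
    have hx' : |x + b| ≤ ε * (1 + |b|) := hx
    have h6 : |b| ≤ |x + b| + |x| := by
      have := abs_sub (x + b) x
      simpa using this
    have h7 : ε * (1 + |b|) ≤ 1 / 2 * (1 + |b|) :=
      mul_le_mul_of_nonneg_right hε1 (by positivity)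
    show K ≤ |x|
    linarith

/-- anticoncentration of a linear form -/
theorem form {r : ℕ} (u : Fin r → ℝ) (hu : u ≠ 0) {δ : ℝ} (hδ : 0 < δ) : ∃ ε : ℝ, 0 < ε ∧
    ∀ b : ℝ, (ga r).real {ξ | |∑ i, ξ i * u i + b| ≤ ε * (1 + |b|)} ≤ δ := by
  obtain ⟨v, hv, hl⟩ := law u hu
  obtain ⟨ε, hε, h⟩ := one hv hδ
  refine ⟨ε, hε, fun b => ?_⟩
  have h1 := h b
  rw [← hl, measureReal_def, Measure.map_apply (by fun_prop)] at h1
  · exact h1
  · exact measurableSet_le (by fun_prop) (by fun_prop)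

/-- a dominated continuous function -/
theorem EG.of_le {r : ℕ} {G G' : (Fin r → ℝ) → ℝ} (h : EG G) (hc : Continuous G')
    (hle : ∀ ξ, |G' ξ| ≤ |G ξ|) : EG G' := by
  obtain ⟨-, C, c, hC, hc0, hb⟩ := h
  exact ⟨hc, C, c, hC, hc0, fun ξ => (hle ξ).trans (hb ξ)⟩

/-- `v ↦ lf z v ξ` as a homomorphism -/
def lfh {r : ℕ} (z : Matrix (Fin r) (Fin r) ℝ) (ξ : Fin r → ℝ) : (Fin r → ℤ) →+ ℝ where
  toFun v := lf z v ξ
  map_zero' := by simp [lf]
  map_add' v w := lf_add z v w ξ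

theorem lfh_apply {r : ℕ} (z : Matrix (Fin r) (Fin r) ℝ) (ξ : Fin r → ℝ) (v : Fin r → ℤ) :
    lfh z ξ v = lf z v ξ := rfl

theorem lf_add' {r : ℕ} (z : Matrix (Fin r) (Fin r) ℝ) (v : Fin r → ℤ) (ξ η : Fin r → ℝ) :
    lf z v (ξ + η) = lf z v ξ + lf z v η := by
  rw [lf_eq, lf_eq, lf_eq, ← Finset.sum_add_distrib]
  refine Finset.sum_congr rfl fun l _ => ?_
  rw [Pi.add_apply, add_mul]

/-- the lower bound of an integral by anticoncentration -/
theorem low {r : ℕ} {ι : Type} (s : Finset ι) (u : ι → Fin r → ℝ) (hu : ∀ p ∈ s, u p ≠ 0) :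
    ∃ ε : ℝ, 0 < ε ∧ ∀ (b : ι → ℝ) (G : (Fin r → ℝ) → ℝ) (T : ℝ), Integrable G (ga r) →
      (∀ ξ, 0 ≤ G ξ) → 0 ≤ T →
      (∀ ξ, (∀ p ∈ s, ε * (1 + |b p|) < |∑ i, ξ i * u p i + b p|) → T ≤ G ξ) →
      T / 2 ≤ ∫ ξ, G ξ ∂(ga r) := by
  have hpr : IsProbabilityMeasure (ga r) := by unfold ga; infer_instance
  set n : ℝ := (s.card : ℝ) with hn
  have hn0 : 0 ≤ n := Nat.cast_nonneg _
  have hδ : 0 < 1 / (2 * (n + 1)) := by positivity
  have hex : ∀ p, ∃ ε : ℝ, 0 < ε ∧ (p ∈ s → ∀ b : ℝ,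
      (ga r).real {ξ | |∑ i, ξ i * u p i + b| ≤ ε * (1 + |b|)} ≤ 1 / (2 * (n + 1))) := by
    intro p
    by_cases hpp : p ∈ s
    · obtain ⟨ε, h1, h2⟩ := form (u p) (hu p hpp) hδ
      exact ⟨ε, h1, fun _ => h2⟩
    · exact ⟨1, one_pos, fun h => absurd h hpp⟩
  choose ε hε0 hε using hex
  have hmin : 0 < ∏ p ∈ s, min 1 (ε p) := Finset.prod_pos fun p _ => lt_min one_pos (hε0 p)
  have hle : ∀ p ∈ s, ∏ q ∈ s, min 1 (ε q) ≤ ε p := by
    classical
    intro p hp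
    rw [← Finset.mul_prod_erase s _ hp]
    have h1 : ∏ q ∈ s.erase p, min 1 (ε q) ≤ 1 :=
      Finset.prod_le_one (fun q _ => (lt_min one_pos (hε0 q)).le) fun q _ => min_le_left _ _
    exact (mul_le_of_le_one_right (lt_min one_pos (hε0 p)).le h1).trans (min_le_right _ _)
  refine ⟨∏ p ∈ s, min 1 (ε p), hmin, fun b G T hG hG0 hT hTG => ?_⟩
  set Bd := ⋃ p ∈ s, {ξ : Fin r → ℝ | |∑ i, ξ i * u p i + b p| ≤ ε p * (1 + |b p|)} with hBd
  have hBm : MeasurableSet Bd := by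
    refine Finset.measurableSet_biUnion _ fun p _ => ?_
    exact measurableSet_le (by fun_prop) (by fun_prop)
  have hB1 : (ga r).real Bd ≤ 1 / 2 := by
    refine (measureReal_biUnion_finset_le _ _).trans ?_
    refine (Finset.sum_le_sum fun p hpp => hε p hpp _).trans ?_
    rw [Finset.sum_const, nsmul_eq_mul, ← hn, mul_one_div, div_le_div_iff₀ (by positivity)
      (by norm_num)]
    linarith
  have hGb : (1 : ℝ) / 2 ≤ (ga r).real Bdᶜ := by
    rw [probReal_compl_eq_one_sub hBm]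
    linarith
  have hsub : Bdᶜ ⊆ {ξ | T ≤ G ξ} := by
    intro ξ hξ
    refine hTG ξ fun p hpp => ?_
    have h1 : ¬ |∑ i, ξ i * u p i + b p| ≤ ε p * (1 + |b p|) := by
      intro h
      exact hξ (Set.mem_biUnion (Finset.mem_coe.2 hpp) h)
    rw [not_le] at h1
    exact (mul_le_mul_of_nonneg_right (hle p hpp) (by positivity)).trans_lt h1
  have hm := mul_meas_ge_le_integral_of_nonneg (ae_of_all _ hG0) hG T
  calc T / 2 = T * (1 / 2) := by ring
    _ ≤ T * (ga r).real {ξ | T ≤ G ξ} :=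
        mul_le_mul_of_nonneg_left (hGb.trans (measureReal_mono hsub)) hT
    _ ≤ _ := hm

/-- `y (1 - e^(-u y)) ≥ u y²/(1 + u |y|)` -/
theorem exp_bd {u : ℝ} (hu : 0 ≤ u) (y : ℝ) :
    u * y ^ 2 / (1 + u * |y|) ≤ y * (1 - Real.exp (-(u * y))) := by
  rcases le_total 0 y with hy | hy
  · have h1 : 0 < 1 + u * |y| := by positivity
    rw [abs_of_nonneg hy] at h1 ⊢
    rw [div_le_iff₀ h1]
    have h2 : (1 + u * y) * Real.exp (-(u * y)) ≤ 1 := by
      rw [Real.exp_neg, ← div_eq_mul_inv, div_le_one (Real.exp_pos _)]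
      have := Real.add_one_le_exp (u * y)
      linarith
    nlinarith [mul_le_mul_of_nonneg_left h2 hy]
  · have h1 : 0 < 1 + u * |y| := by positivity
    rw [abs_of_nonpos hy] at h1 ⊢
    have h2 : -(u * y) + 1 ≤ Real.exp (-(u * y)) := Real.add_one_le_exp _
    have h3 : u * y ^ 2 / (1 + u * -y) ≤ u * y ^ 2 := by
      refine div_le_self (by positivity) ?_
      nlinarith [mul_nonneg hu (neg_nonneg.2 hy)]
    refine h3.trans ?_
    nlinarith [mul_le_mul_of_nonneg_left h2 (neg_nonneg.2 hy)]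

/-- `y ↦ u y²/(1 + u |y|)` is increasing in `|y|` -/
theorem g_mono {u : ℝ} (hu : 0 ≤ u) {y y' : ℝ} (hy : 0 ≤ y) (h : y ≤ |y'|) :
    u * y ^ 2 / (1 + u * y) ≤ u * y' ^ 2 / (1 + u * |y'|) := by
  have h0 := abs_nonneg y'
  rw [← sq_abs y']
  set w := |y'|
  rw [div_le_div_iff₀ (by positivity) (by positivity)]
  have h1 : y ^ 2 ≤ w ^ 2 := pow_le_pow_left₀ hy h 2
  have h2 : 0 ≤ u * y * w * (w - y) := by
    have := sub_nonneg.2 h
    positivity
  nlinarith [mul_le_mul_of_nonneg_left h1 hu, mul_nonneg hu h2]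

theorem numA {b k y ya Lp : ℝ} (hb : 0 < b) (hb2 : b ≤ 2) (hk : 0 < k)
    (h1 : Lp = b * (k * (y + ya / 2))) : b * |y| / 2 ≤ |Lp| / (2 * k) + |ya| / 2 := by
  have h3 : b * y = Lp / k - b * ya / 2 := by
    rw [h1]
    field_simp
    ring
  have h4 : |b * y| ≤ |Lp / k| + |b * ya / 2| := by
    rw [h3]
    exact abs_sub _ _
  have e1 : |b * y| = b * |y| := by rw [abs_mul, abs_of_pos hb]
  have e2 : |Lp / k| = |Lp| / k := by rw [abs_div, abs_of_pos hk]
  have e3 : |b * ya / 2| = b * |ya| / 2 := by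
    rw [abs_div, abs_mul, abs_of_pos hb, abs_of_pos (by norm_num : (0 : ℝ) < 2)]
  rw [e1, e2, e3] at h4
  have h5 : b * |ya| ≤ 2 * |ya| := mul_le_mul_of_nonneg_right hb2 (abs_nonneg _)
  have h6 : |Lp| / (2 * k) = |Lp| / k / 2 := by
    field_simp
  rw [h6]
  linarith

end GLH

open GLH in
theorem t_GLH : M_GLH := by
  intro hR hQ hH _ r Φ B hr hI hW
  classical
  obtain ⟨q1, q2, q3, q4, q5, q6, q7⟩ := hQ r Φ B hI hW
  obtain ⟨⟨z, hz⟩, hh⟩ := hH r Φ B hr hI hW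
  replace hh := hh z hz
  obtain ⟨hrho, -, -⟩ := hR r Φ B hI hW
  -- the constants
  set kp : ((Fin r → ℤ) × (Fin r → ℤ)) → ℝ :=
    fun p => ((p.1 ⬝ᵥ ((rd Φ).A *ᵥ p.1) : ℤ) : ℝ) / 4 with hkp
  have hkpos : ∀ p ∈ pos Φ, 0 < kp p := by
    intro p hp
    have h1 := (q7 p (hW.ppos p hp).1).1
    have h2 : (0 : ℝ) < ((p.1 ⬝ᵥ ((rd Φ).A *ᵥ p.1) : ℤ) : ℝ) := by exact_mod_cast h1
    simp only [hkp]
    positivity
  have hpq : ∀ p ∈ pos Φ, ∀ v, ip Φ p.1 v / 2 = kp p * ((p.2 ⬝ᵥ v : ℤ) : ℝ) := by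
    intro p hp v
    have h1 := (q7 p (hW.ppos p hp).1).2 v
    have h2 : (2 : ℝ) * ((p.1 ⬝ᵥ ((rd Φ).A *ᵥ v) : ℤ) : ℝ) =
        ((p.2 ⬝ᵥ v : ℤ) : ℝ) * ((p.1 ⬝ᵥ ((rd Φ).A *ᵥ p.1) : ℤ) : ℝ) := by exact_mod_cast h1
    simp only [hkp, ip]
    linear_combination (1 / 4) * h2
  have h1pos : ∀ p ∈ pos Φ, (0 : ℝ) < ((p.2 ⬝ᵥ (1 : Fin r → ℤ) : ℤ) : ℝ) := by
    intro p hp
    obtain ⟨-, g2, g3, -⟩ := hW.ppos p hp
    have h1 : 0 < p.2 ⬝ᵥ (1 : Fin r → ℤ) := by
      rw [dotProduct_one]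
      obtain ⟨i, hi⟩ := Function.ne_iff.1 g3
      exact Finset.sum_pos' (fun i _ => g2 i) ⟨i, Finset.mem_univ i, lt_of_le_of_ne (g2 i) (Ne.symm hi)⟩
    exact_mod_cast h1
  set K : ℝ := (∏ p ∈ pos Φ, kp p) * ∏ p ∈ pos Φ, ((p.2 ⬝ᵥ (1 : Fin r → ℤ) : ℤ) : ℝ) with hK
  have hKpos : 0 < K := mul_pos (Finset.prod_pos hkpos) (Finset.prod_pos h1pos)
  have hdR : ∀ v, ∏ p ∈ pos Φ, (ip Φ p.1 v / 2) = K * dR Φ v := by
    intro v
    rw [Finset.prod_congr rfl fun p hp => hpq p hp v, Finset.prod_mul_distrib]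
    unfold dR
    rw [hK, mul_assoc, mul_div_cancel₀ _ (Finset.prod_pos h1pos).ne']
  have hipQ : ∀ v, ip Φ v v = 2 * (((rd Φ).Q v : ℤ) : ℝ) := by
    intro v
    unfold ip
    rw [q4 v]
    push_cast
    ring
  have hQ0 : ∀ v, (0 : ℝ) ≤ (((rd Φ).Q v : ℤ) : ℝ) := by
    intro v
    have h1 : 0 ≤ (rd Φ).Q v := by
      show 0 ≤ ∑ p ∈ pos Φ, (p.2 ⬝ᵥ v) ^ 2
      exact Finset.sum_nonneg fun p _ => sq_nonneg _
    exact_mod_cast h1
  obtain ⟨ε, hε, hlow⟩ := low (pos Φ) (fun p => zv z p.1)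
    fun p hp => zv_ne hz _ (q7 p (hW.ppos p hp).1).1
  have key : ∀ a ∈ pos Φ, ∃ c : ℝ, 0 < c ∧ ∀ (t : ℝ) (τ : Fin r → ℤ), 0 < t → t ≤ 1 →
      0 ≤ a.2 ⬝ᵥ τ →
      c * Real.exp (2 * t * CL Φ a τ) * (((a.2 ⬝ᵥ τ : ℤ) : ℝ) + 1) *
        ∏ p ∈ (pos Φ).erase a, (1 + t * ((p.2 ⬝ᵥ τ : ℤ) : ℝ) ^ 2) ≤
      (FF Φ a (fun ν => ((Real.exp (2 * t * (rd Φ).Q ν) * dR Φ ν : ℝ) : ℂ)) τ).re -
        (FF Φ a (fun ν => ((Real.exp (2 * t * (rd Φ).Q ν) * dR Φ ν : ℝ) : ℂ))
          (τ - (a.2 ⬝ᵥ τ + 1) • a.1)).re := by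
    intro a ha
    have hka := hkpos a ha
    set E := (pos Φ).erase a with hE
    have hEs : ∀ p ∈ E, p ∈ pos Φ := fun p hp => Finset.mem_of_mem_erase hp
    set mp : ((Fin r → ℤ) × (Fin r → ℤ)) → ℝ :=
      fun p => 1 + 1 / (2 * kp p) + |((p.2 ⬝ᵥ a.1 : ℤ) : ℝ)| / 2 with hmp
    have hmp1 : ∀ p ∈ E, 1 ≤ mp p := by
      intro p hp
      have h1 := hkpos p (hEs p hp)
      have h2 : 0 ≤ 1 / (2 * kp p) := by positivity
      have h3 := abs_nonneg ((p.2 ⬝ᵥ a.1 : ℤ) : ℝ)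
      simp only [hmp]
      linarith
    have hmpE : 0 < ∏ p ∈ E, (ε ^ 2 / mp p ^ 2) := Finset.prod_pos fun p hp => by
      have := hmp1 p hp
      positivity
    refine ⟨(∏ p ∈ E, (ε ^ 2 / mp p ^ 2)) * (ε ^ 2 / (1 + ε / kp a)) / (2 * K), by positivity, ?_⟩
    intro t τ ht ht1 hτ
    obtain ⟨b, hb, hb2⟩ : ∃ b : ℝ, 0 < b ∧ b ^ 2 = 4 * t := by
      refine ⟨2 * √t, by positivity, ?_⟩
      rw [mul_pow, Real.sq_sqrt ht.le]
      ring
    set x : ℤ := a.2 ⬝ᵥ τ + 1 with hx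
    have hxr : (x : ℝ) = ((a.2 ⬝ᵥ τ : ℤ) : ℝ) + 1 := by rw [hx]; push_cast; ring
    have hx1 : (1 : ℝ) ≤ x := by
      have h1 : (1 : ℤ) ≤ x := by rw [hx]; linarith
      exact_mod_cast h1
    set P : (Fin r → ℝ) → ℝ := fun ξ => ∏ p ∈ pos Φ, lf z p.1 ξ with hP
    set T : (Fin r → ℤ) → (Fin r → ℝ) → ℝ := fun v ξ => Real.exp (b * lf z v ξ) with hTdef
    have egL : ∀ v : Fin r → ℤ, EG (fun ξ => lf z v ξ) := fun v => EG.lin _
    have egP : EG P := EG.prod _ _ fun p _ => egL _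
    have egT : ∀ v, EG (T v) := fun v => EG.expl _ _
    have eghalf : ∀ (s : ℝ) (v : Fin r → ℤ), EG (fun ξ => Real.exp (s * lf z v ξ)) := by
      intro s v
      exact EG.expl _ _
    -- one term
    have hterm : ∀ v : Fin r → ℤ, b ^ (pos Φ).card * (K * (Real.exp (2 * t * (rd Φ).Q v) * dR Φ v)) =
        ∫ ξ, P ξ * T v ξ ∂(ga r) := by
      intro v
      have h1 := hh fun l => b * zv z v l
      rw [trans' hz (fun ξ => ∏ p ∈ pos Φ, lf z p.1 ξ) b v] at h1
      have h2 : ∏ p ∈ pos Φ, lf z p.1 (fun l => b * zv z v l) = b ^ (pos Φ).card * (K * dR Φ v) := by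
        rw [Finset.prod_congr rfl fun p _ => lf_scale hz b p.1 v, Finset.prod_mul_distrib,
          Finset.prod_const, hdR]
      rw [h2, hipQ, hb2] at h1
      have h3 : Real.exp (2 * t * (rd Φ).Q v) * Real.exp (-(4 * t * (2 * ((rd Φ).Q v : ℝ)) / 4)) = 1 := by
        rw [← Real.exp_add, Real.exp_eq_one_iff]
        ring
      calc b ^ (pos Φ).card * (K * (Real.exp (2 * t * (rd Φ).Q v) * dR Φ v))
          = Real.exp (2 * t * (rd Φ).Q v) * (b ^ (pos Φ).card * (K * dR Φ v)) := by ring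
        _ = (Real.exp (2 * t * (rd Φ).Q v) * Real.exp (-(4 * t * (2 * ((rd Φ).Q v : ℝ)) / 4))) *
            ∫ ξ, P ξ * T v ξ ∂(ga r) := by rw [← h1]; ring
        _ = _ := by rw [h3, one_mul]
    set S : (Fin r → ℝ) → ℝ := fun ξ => ∏ p ∈ E,
      (lf z p.1 ξ * (Real.exp (b * lf z p.1 ξ / 2) - Real.exp (-(b * lf z p.1 ξ / 2)))) with hS
    have egS : EG S := by
      refine EG.prod _ _ fun p _ => (egL _).mul ?_
      have e1 := eghalf (b / 2) p.1
      have e2 := (EG.const (r := r) (-1)).mul (eghalf (-(b / 2)) p.1)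
      have e3 := e1.add e2
      have e4 : (fun ξ : Fin r → ℝ => Real.exp (b * lf z p.1 ξ / 2) -
          Real.exp (-(b * lf z p.1 ξ / 2))) = fun ξ : Fin r → ℝ => Real.exp (b / 2 * lf z p.1 ξ) +
          -1 * Real.exp (-(b / 2) * lf z p.1 ξ) := by
        funext ξ
        rw [show b / 2 * lf z p.1 ξ = b * lf z p.1 ξ / 2 by ring,
          show -(b / 2) * lf z p.1 ξ = -(b * lf z p.1 ξ / 2) by ring]
        ring
      rw [e4]
      exact e3
    set FFr : (Fin r → ℤ) → ℝ := fun σ => ∑ U ∈ E.powerset, (-1 : ℝ) ^ U.card *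
      (Real.exp (2 * t * (rd Φ).Q (σ + 1 - ∑ p ∈ U, p.1)) * dR Φ (σ + 1 - ∑ p ∈ U, p.1)) with hFFr
    have hre : ∀ σ, (FF Φ a (fun ν => ((Real.exp (2 * t * (rd Φ).Q ν) * dR Φ ν : ℝ) : ℂ)) σ).re =
        FFr σ := by
      intro σ
      have h1 : FF Φ a (fun ν => ((Real.exp (2 * t * (rd Φ).Q ν) * dR Φ ν : ℝ) : ℂ)) σ =
          ((FFr σ : ℝ) : ℂ) := by
        unfold FF
        simp only [hFFr]
        push_cast
        rfl
      rw [h1, Complex.ofReal_re]
    have hrho1 : ∀ ξ, 2 * lf z 1 ξ = lf z a.1 ξ + ∑ p ∈ E, lf z p.1 ξ := by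
      intro ξ
      have h1 : lfh z ξ (∑ p ∈ pos Φ, p.1) = ∑ p ∈ pos Φ, lf z p.1 ξ := map_sum _ _ _
      have h2 : (fun _ : Fin r => (2 : ℤ)) = 1 + 1 := by funext i; rfl
      rw [hrho, h2, map_add, lfh_apply, ← Finset.add_sum_erase _ _ ha] at h1
      linarith
    -- the pointwise identity
    have hpt : ∀ (σ : Fin r → ℤ) (ξ : Fin r → ℝ), ∑ U ∈ E.powerset, (-1 : ℝ) ^ U.card *
        (P ξ * T (σ + 1 - ∑ p ∈ U, p.1) ξ) =
        lf z a.1 ξ * S ξ * Real.exp (b * (lf z σ ξ + lf z a.1 ξ / 2)) := by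
      intro σ ξ
      have h1 : ∀ U ∈ E.powerset, (-1 : ℝ) ^ U.card * (P ξ * T (σ + 1 - ∑ p ∈ U, p.1) ξ) =
          P ξ * Real.exp (b * lf z σ ξ) * Real.exp (b * lf z 1 ξ) *
            ((∏ p ∈ U, (-Real.exp (-(b * lf z p.1 ξ)))) * ∏ _p ∈ E \ U, (1 : ℝ)) := by
        intro U _
        have h2 : lf z (σ + 1 - ∑ p ∈ U, p.1) ξ = lf z σ ξ + lf z 1 ξ - ∑ p ∈ U, lf z p.1 ξ := by
          rw [← lfh_apply, map_sub, map_add, map_sum]
          rfl
        have h3 : ∏ p ∈ U, (-Real.exp (-(b * lf z p.1 ξ))) =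
            (-1 : ℝ) ^ U.card * Real.exp (-(b * ∑ p ∈ U, lf z p.1 ξ)) := by
          have h4 : ∀ p : (Fin r → ℤ) × (Fin r → ℤ), -Real.exp (-(b * lf z p.1 ξ)) =
              (-1) * Real.exp (-(b * lf z p.1 ξ)) := fun p => by ring
          simp only [h4]
          rw [Finset.prod_mul_distrib, Finset.prod_const, ← Real.exp_sum, Finset.sum_neg_distrib,
            ← Finset.mul_sum]
        simp only [hTdef]
        rw [h2, h3, Finset.prod_const_one, mul_one]
        have h5 : Real.exp (b * (lf z σ ξ + lf z 1 ξ - ∑ p ∈ U, lf z p.1 ξ)) =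
            Real.exp (b * lf z σ ξ) * Real.exp (b * lf z 1 ξ) *
              Real.exp (-(b * ∑ p ∈ U, lf z p.1 ξ)) := by
          rw [← Real.exp_add, ← Real.exp_add]
          congr 1
          ring
        rw [h5]
        ring
      rw [Finset.sum_congr rfl h1, ← Finset.mul_sum, ← Finset.prod_add]
      have h6 : P ξ = lf z a.1 ξ * ∏ p ∈ E, lf z p.1 ξ := by
        simp only [hP]
        rw [← Finset.mul_prod_erase _ _ ha]
      have h7 : Real.exp (b * lf z 1 ξ) = Real.exp (b * (lf z a.1 ξ / 2)) *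
          ∏ p ∈ E, Real.exp (b * lf z p.1 ξ / 2) := by
        rw [← Real.exp_sum, ← Real.exp_add]
        congr 1
        have h8 := hrho1 ξ
        have h9 : ∑ p ∈ E, b * lf z p.1 ξ / 2 = b / 2 * ∑ p ∈ E, lf z p.1 ξ := by
          rw [Finset.mul_sum]
          exact Finset.sum_congr rfl fun p _ => by ring
        rw [h9]
        linear_combination (b / 2) * h8
      have h10 : S ξ = (∏ p ∈ E, lf z p.1 ξ) * ((∏ p ∈ E, Real.exp (b * lf z p.1 ξ / 2)) *
          ∏ p ∈ E, (-Real.exp (-(b * lf z p.1 ξ)) + 1)) := by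
        simp only [hS]
        rw [← Finset.prod_mul_distrib, ← Finset.prod_mul_distrib]
        refine Finset.prod_congr rfl fun p _ => ?_
        have h11 : Real.exp (b * lf z p.1 ξ / 2) * Real.exp (-(b * lf z p.1 ξ)) =
            Real.exp (-(b * lf z p.1 ξ / 2)) := by
          rw [← Real.exp_add]
          congr 1
          ring
        rw [← h11]
        ring
      rw [h6, h7, h10, mul_add, Real.exp_add]
      ring
    have hFF : ∀ σ : Fin r → ℤ, b ^ (pos Φ).card * (K * FFr σ) =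
        ∫ ξ, lf z a.1 ξ * S ξ * Real.exp (b * (lf z σ ξ + lf z a.1 ξ / 2)) ∂(ga r) := by
      intro σ
      simp only [← hpt σ]
      rw [integral_finsetSum]
      · simp only [hFFr]
        rw [Finset.mul_sum, Finset.mul_sum]
        refine Finset.sum_congr rfl fun U _ => ?_
        rw [integral_const_mul, ← hterm]
        ring
      · intro U _
        exact ((egP.mul (egT _)).int).const_mul _
    -- the exponential weight
    have hw : ∀ (σ : Fin r → ℤ), EG fun ξ => Real.exp (b * (lf z σ ξ + lf z a.1 ξ / 2)) := by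
      intro σ
      have h1 := (eghalf b σ).mul (eghalf (b / 2) a.1)
      have h2 : (fun ξ : Fin r → ℝ => Real.exp (b * (lf z σ ξ + lf z a.1 ξ / 2))) =
          fun ξ => Real.exp (b * lf z σ ξ) * Real.exp (b / 2 * lf z a.1 ξ) := by
        funext ξ
        rw [← Real.exp_add]
        congr 1
        ring
      rw [h2]
      exact h1
    have hdiff : b ^ (pos Φ).card * (K * (FFr τ - FFr (τ - x • a.1))) =
        ∫ ξ, S ξ * (lf z a.1 ξ * (1 - Real.exp (-(b * x * lf z a.1 ξ)))) *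
          Real.exp (b * (lf z τ ξ + lf z a.1 ξ / 2)) ∂(ga r) := by
      rw [mul_sub, mul_sub, hFF, hFF, ← integral_sub]
      · refine integral_congr_ae (ae_of_all _ fun ξ => ?_)
        simp only
        have h1 : lf z (τ - x • a.1) ξ = lf z τ ξ - x * lf z a.1 ξ := by
          rw [← lfh_apply, map_sub, map_zsmul, zsmul_eq_mul]
          rfl
        have h2 : Real.exp (b * (lf z τ ξ - x * lf z a.1 ξ + lf z a.1 ξ / 2)) =
            Real.exp (-(b * x * lf z a.1 ξ)) * Real.exp (b * (lf z τ ξ + lf z a.1 ξ / 2)) := by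
          rw [← Real.exp_add]
          congr 1
          ring
        rw [h1, h2]
        ring
      · exact (((egL _).mul egS).mul (hw _)).int
      · exact (((egL _).mul egS).mul (hw _)).int
    -- the lower bound of the integrand
    set u : ℝ := b * x with hu
    have hu0 : 0 < u := mul_pos hb (by linarith)
    set g : (Fin r → ℝ) → ℝ := fun ξ => u * lf z a.1 ξ ^ 2 / (1 + u * |lf z a.1 ξ|) with hg
    have hlfc : ∀ v : Fin r → ℤ, Continuous fun ξ : Fin r → ℝ => lf z v ξ := fun v => (egL v).1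
    have egg : EG g := by
      refine EG.of_le (egL a.1) ?_ fun ξ => ?_
      · simp only [hg]
        refine Continuous.div (by have := hlfc a.1; fun_prop) (by have := hlfc a.1; fun_prop) fun ξ => ?_
        have : 0 < 1 + u * |lf z a.1 ξ| := by positivity
        exact this.ne'
      · have h1 : 0 ≤ |lf z a.1 ξ| := abs_nonneg _
        simp only [hg]
        rw [abs_of_nonneg (by positivity), div_le_iff₀ (by positivity), ← sq_abs]
        nlinarith
    have eg2 : EG (fun ξ : Fin r → ℝ => ∏ p ∈ E, lf z p.1 ξ ^ 2) := by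
      refine EG.prod _ _ fun p _ => ?_
      have e1 := (egL p.1).mul (egL p.1)
      simpa only [sq] using e1
    set G : (Fin r → ℝ) → ℝ := fun ξ => b ^ E.card * (∏ p ∈ E, lf z p.1 ξ ^ 2) * g ξ with hG
    have egG : EG G := ((EG.const (b ^ E.card)).mul eg2).mul egg
    have hg0 : ∀ ξ, 0 ≤ g ξ := fun ξ => by
      simp only [hg]
      positivity
    have hG0 : ∀ ξ, 0 ≤ G ξ := fun ξ => by
      simp only [hG]
      exact mul_nonneg (mul_nonneg (by positivity) (Finset.prod_nonneg fun p _ => sq_nonneg _)) (hg0 ξ)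
    have hSge : ∀ ξ, b ^ E.card * (∏ p ∈ E, lf z p.1 ξ ^ 2) ≤ S ξ := by
      intro ξ
      simp only [hS]
      rw [← Finset.prod_const, ← Finset.prod_mul_distrib]
      refine Finset.prod_le_prod (fun p _ => by positivity) fun p _ => ?_
      exact sinh_bd hb.le _
    have hgle : ∀ ξ, g ξ ≤ lf z a.1 ξ * (1 - Real.exp (-(b * x * lf z a.1 ξ))) :=
      fun ξ => exp_bd hu0.le _
    have egR : EG fun ξ => S ξ * (lf z a.1 ξ * (1 - Real.exp (-(b * x * lf z a.1 ξ)))) := by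
      refine egS.mul ((egL a.1).mul ?_)
      have h1 := (EG.const (r := r) 1).add ((EG.const (r := r) (-1)).mul (eghalf (-(b * x)) a.1))
      have h2 : (fun ξ : Fin r → ℝ => 1 - Real.exp (-(b * x * lf z a.1 ξ))) =
          fun ξ => 1 + -1 * Real.exp (-(b * x) * lf z a.1 ξ) := by
        funext ξ
        rw [show -(b * x) * lf z a.1 ξ = -(b * x * lf z a.1 ξ) by ring]
        ring
      rw [h2]
      exact h1
    have hle1 : ∫ ξ, G ξ * Real.exp (b * (lf z τ ξ + lf z a.1 ξ / 2)) ∂(ga r) ≤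
        b ^ (pos Φ).card * (K * (FFr τ - FFr (τ - x • a.1))) := by
      rw [hdiff]
      refine integral_mono ((egG.mul (hw τ)).int) ((egR.mul (hw τ)).int) fun ξ => ?_
      simp only
      refine mul_le_mul_of_nonneg_right ?_ (Real.exp_pos _).le
      simp only [hG]
      refine mul_le_mul (hSge ξ) (hgle ξ) (hg0 ξ) ?_
      exact le_trans (mul_nonneg (by positivity) (Finset.prod_nonneg fun p _ => sq_nonneg _)) (hSge ξ)
    -- translation
    set η : Fin r → ℝ := fun l => b * (zv z τ l + zv z a.1 l / 2) with hη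
    have hη1 : ∀ ξ, ∑ i, ξ i * η i = b * (lf z τ ξ + lf z a.1 ξ / 2) := by
      intro ξ
      rw [lf_eq, lf_eq, Finset.sum_div, ← Finset.sum_add_distrib, Finset.mul_sum]
      refine Finset.sum_congr rfl fun i _ => ?_
      simp only [hη]
      ring
    have hη2 : ∀ v : Fin r → ℤ, lf z v η = b * (ip Φ v τ / 2 + ip Φ v a.1 / 4) := by
      intro v
      have h1 : ip Φ v τ / 2 + ip Φ v a.1 / 4 = ∑ l, (zv z τ l + zv z a.1 l / 2) * zv z v l := by
        have h2 := zv_dot hz v τ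
        have h3 := zv_dot hz v a.1
        have h4 : ip Φ v a.1 / 4 = (∑ l, zv z a.1 l * zv z v l) / 2 := by
          rw [h3]
          ring
        rw [← h2, h4, Finset.sum_div, ← Finset.sum_add_distrib]
        refine Finset.sum_congr rfl fun l _ => ?_
        ring
      rw [h1, lf_eq, Finset.mul_sum]
      refine Finset.sum_congr rfl fun l _ => ?_
      simp only [hη]
      ring
    have hη3 : (∑ i, η i ^ 2) / 2 = 2 * t * (CL Φ a τ + (rd Φ).Q a.1 / 4) := by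
      have h1 : ∑ i, η i ^ 2 = b * (lf z τ η + lf z a.1 η / 2) := by
        rw [← hη1]
        exact Finset.sum_congr rfl fun i _ => by ring
      have hsym : ip Φ τ a.1 = ip Φ a.1 τ := by
        have h2 := zv_dot hz τ a.1
        have h3 := zv_dot hz a.1 τ
        have h4 : ∑ l, zv z a.1 l * zv z τ l = ∑ l, zv z τ l * zv z a.1 l :=
          Finset.sum_congr rfl fun l _ => mul_comm _ _
        rw [h2, h3] at h4
        linarith
      rw [h1, hη2, hη2, hsym, hipQ, hipQ]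
      unfold CL
      linear_combination (((rd Φ).Q τ : ℝ) + ip Φ a.1 τ / 2 + (rd Φ).Q a.1 / 4) / 2 * hb2
    have htr : ∫ ξ, G ξ * Real.exp (b * (lf z τ ξ + lf z a.1 ξ / 2)) ∂(ga r) =
        Real.exp (2 * t * (CL Φ a τ + (rd Φ).Q a.1 / 4)) * ∫ ξ, G (ξ + η) ∂(ga r) := by
      rw [trans, ← integral_const_mul]
      refine integral_congr_ae (ae_of_all _ fun ξ => ?_)
      simp only
      rw [hη1, hη3, mul_left_comm, ← Real.exp_add]
      congr 2
      ring
    -- anticoncentration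
    set T₀ : ℝ := b ^ E.card * (∏ p ∈ E, (ε * (1 + |lf z p.1 η|)) ^ 2) *
      (u * (ε * (1 + |lf z a.1 η|)) ^ 2 / (1 + u * (ε * (1 + |lf z a.1 η|)))) with hT₀
    have hT₀0 : 0 ≤ T₀ := by
      simp only [hT₀]
      have : 0 ≤ ∏ p ∈ E, (ε * (1 + |lf z p.1 η|)) ^ 2 := Finset.prod_nonneg fun p _ => sq_nonneg _
      positivity
    have hanti : T₀ / 2 ≤ ∫ ξ, G (ξ + η) ∂(ga r) := by
      refine hlow (fun p => lf z p.1 η) (fun ξ => G (ξ + η)) T₀ (egG.shift η).int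
        (fun ξ => hG0 _) hT₀0 fun ξ hξ => ?_
      have h1 : ∀ p ∈ pos Φ, ε * (1 + |lf z p.1 η|) ≤ |lf z p.1 (ξ + η)| := by
        intro p hp
        rw [lf_add']
        exact (hξ p hp).le
      simp only [hG, hg, hT₀]
      refine mul_le_mul ?_ (g_mono hu0.le (by positivity) (h1 a ha)) (by positivity) ?_
      · refine mul_le_mul_of_nonneg_left ?_ (by positivity)
        refine Finset.prod_le_prod (fun p _ => sq_nonneg _) fun p hp => ?_
        rw [← sq_abs (lf z p.1 (ξ + η))]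
        exact pow_le_pow_left₀ (by positivity) (h1 p (hEs p hp)) 2
      · exact mul_nonneg (by positivity) (Finset.prod_nonneg fun p _ => sq_nonneg _)
    -- the numbers
    have hLp : ∀ p ∈ pos Φ, lf z p.1 η =
        b * (kp p * (((p.2 ⬝ᵥ τ : ℤ) : ℝ) + ((p.2 ⬝ᵥ a.1 : ℤ) : ℝ) / 2)) := by
      intro p hp
      have h1 := hpq p hp τ
      have h2 := hpq p hp a.1
      rw [hη2, h1]
      have h3 : ip Φ p.1 a.1 / 4 = kp p * (((p.2 ⬝ᵥ a.1 : ℤ) : ℝ) / 2) := by
        linear_combination (1 / 2) * h2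
      rw [h3]
      ring
    have hLa : lf z a.1 η = kp a * u := by
      rw [hLp a ha, hI.two a (hW.ppos a ha).1, hu, hxr]
      push_cast
      ring
    have hb2' : b ≤ 2 := by nlinarith
    have hA : ∀ p ∈ E, ε ^ 2 / mp p ^ 2 * (1 + t * ((p.2 ⬝ᵥ τ : ℤ) : ℝ) ^ 2) ≤
        (ε * (1 + |lf z p.1 η|)) ^ 2 := by
      intro p hp
      have hk := hkpos p (hEs p hp)
      have hm := hmp1 p hp
      set y : ℝ := ((p.2 ⬝ᵥ τ : ℤ) : ℝ) with hy
      set ya : ℝ := ((p.2 ⬝ᵥ a.1 : ℤ) : ℝ) with hya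
      set Lp : ℝ := lf z p.1 η with hLpd
      have h1 : Lp = b * (kp p * (y + ya / 2)) := hLp p (hEs p hp)
      have h2 : b * |y| / 2 ≤ |Lp| / (2 * kp p) + |ya| / 2 := by
        exact numA hb hb2' hk h1
      have h7 : 1 + b * |y| / 2 ≤ mp p * (1 + |Lp|) := by
        have h8 := abs_nonneg Lp
        have h9 : 0 ≤ 1 / (2 * kp p) := by positivity
        have h10 : 0 ≤ |ya| / 2 := by positivity
        have h11 : mp p = 1 + 1 / (2 * kp p) + |ya| / 2 := rfl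
        have h12 : |Lp| / (2 * kp p) = 1 / (2 * kp p) * |Lp| := by ring
        rw [h11]
        rw [h12] at h2
        nlinarith [mul_nonneg h10 h8]
      have h13 : 1 + t * y ^ 2 ≤ (mp p * (1 + |Lp|)) ^ 2 := by
        have h14 : 1 + t * y ^ 2 ≤ (1 + b * |y| / 2) ^ 2 := by
          have h15 : t * y ^ 2 = (b * |y| / 2) ^ 2 := by
            rw [div_pow, mul_pow, sq_abs, hb2]
            ring
          have h16 : 0 ≤ b * |y| / 2 := by positivity
          rw [h15]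
          nlinarith
        exact h14.trans (pow_le_pow_left₀ (by positivity) h7 2)
      rw [div_mul_eq_mul_div, div_le_iff₀ (by positivity)]
      calc ε ^ 2 * (1 + t * y ^ 2) ≤ ε ^ 2 * (mp p * (1 + |Lp|)) ^ 2 :=
            mul_le_mul_of_nonneg_left h13 (by positivity)
        _ = _ := by ring
    have hB : ε ^ 2 / (1 + ε / kp a) * u ≤
        u * (ε * (1 + |lf z a.1 η|)) ^ 2 / (1 + u * (ε * (1 + |lf z a.1 η|))) := by
      rw [hLa, abs_of_pos (by positivity), div_mul_eq_mul_div,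
        div_le_div_iff₀ (by positivity) (by positivity)]
      have h1 : 1 + u * (ε * (1 + kp a * u)) ≤ (1 + kp a * u) ^ 2 * (1 + ε / kp a) := by
        have h2 : u * (ε * (1 + kp a * u)) ≤ (1 + kp a * u) ^ 2 * (ε / kp a) := by
          have h3 : u * (ε * (1 + kp a * u)) = (kp a * u) * (1 + kp a * u) * (ε / kp a) := by
            field_simp
          rw [h3]
          refine mul_le_mul_of_nonneg_right ?_ (by positivity)
          have h4 : 0 < kp a * u := by positivity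
          nlinarith
        have h5 : 1 ≤ (1 + kp a * u) ^ 2 := by
          have h4 : 0 < kp a * u := by positivity
          nlinarith
        linarith
      calc ε ^ 2 * u * (1 + u * (ε * (1 + kp a * u)))
          ≤ ε ^ 2 * u * ((1 + kp a * u) ^ 2 * (1 + ε / kp a)) :=
            mul_le_mul_of_nonneg_left h1 (by positivity)
        _ = _ := by ring
    have hprodA : (∏ p ∈ E, (ε ^ 2 / mp p ^ 2)) * ∏ p ∈ E, (1 + t * ((p.2 ⬝ᵥ τ : ℤ) : ℝ) ^ 2) ≤
        ∏ p ∈ E, (ε * (1 + |lf z p.1 η|)) ^ 2 := by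
      rw [← Finset.prod_mul_distrib]
      exact Finset.prod_le_prod (fun p _ => by positivity) hA
    have hPE : 0 ≤ ∏ p ∈ E, (1 + t * ((p.2 ⬝ᵥ τ : ℤ) : ℝ) ^ 2) :=
      Finset.prod_nonneg fun p _ => by positivity
    have hT1 : b ^ E.card * ((∏ p ∈ E, (ε ^ 2 / mp p ^ 2)) *
        ∏ p ∈ E, (1 + t * ((p.2 ⬝ᵥ τ : ℤ) : ℝ) ^ 2)) * (ε ^ 2 / (1 + ε / kp a) * u) ≤ T₀ := by
      simp only [hT₀]
      refine mul_le_mul (mul_le_mul_of_nonneg_left hprodA (by positivity)) hB (by positivity) ?_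
      exact mul_nonneg (by positivity) (Finset.prod_nonneg fun p _ => sq_nonneg _)
    have hcard : b ^ (pos Φ).card = b ^ E.card * b := by
      rw [← pow_succ, hE, Finset.card_erase_add_one ha]
    have hexp : Real.exp (2 * t * CL Φ a τ) ≤ Real.exp (2 * t * (CL Φ a τ + (rd Φ).Q a.1 / 4)) := by
      apply Real.exp_le_exp.2
      have h1 := hQ0 a.1
      have h2 : 0 ≤ t * ((rd Φ).Q a.1 : ℝ) := by positivity
      nlinarith
    rw [hre, hre]
    have hfin : Real.exp (2 * t * CL Φ a τ) * ((b ^ E.card * ((∏ p ∈ E, (ε ^ 2 / mp p ^ 2)) *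
        ∏ p ∈ E, (1 + t * ((p.2 ⬝ᵥ τ : ℤ) : ℝ) ^ 2)) * (ε ^ 2 / (1 + ε / kp a) * u)) / 2) ≤
        b ^ (pos Φ).card * (K * (FFr τ - FFr (τ - x • a.1))) := by
      refine le_trans ?_ hle1
      rw [htr]
      refine mul_le_mul hexp ((div_le_div_of_nonneg_right hT1 (by norm_num)).trans hanti) ?_
        (Real.exp_pos _).le
      have : 0 ≤ ∏ p ∈ E, (ε ^ 2 / mp p ^ 2) := hmpE.le
      positivity
    have hbn : 0 < b ^ (pos Φ).card * K := by positivity
    refine le_of_mul_le_mul_left ?_ hbn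
    refine le_trans (le_of_eq ?_) (hfin.trans (le_of_eq (by ring)))
    rw [hcard, ← hxr, hu]
    field_simp
  -- all roots
  choose! c hc0 hc using key
  refine ⟨∏ a ∈ pos Φ, min 1 (c a), Finset.prod_pos fun a ha => lt_min one_pos (hc0 a ha), ?_⟩
  intro a ha t τ ht ht1 hτ
  refine le_trans ?_ (hc a ha t τ ht ht1 hτ)
  have h1 : ∏ q ∈ pos Φ, min 1 (c q) ≤ c a := by
    rw [← Finset.mul_prod_erase (pos Φ) _ ha]
    have h1 : ∏ q ∈ (pos Φ).erase a, min 1 (c q) ≤ 1 :=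
      Finset.prod_le_one (fun q hq => (lt_min one_pos (hc0 q (Finset.mem_of_mem_erase hq))).le)
        fun q _ => min_le_left _ _
    exact (mul_le_of_le_one_right (lt_min one_pos (hc0 a ha)).le h1).trans (min_le_right _ _)
  have h2 : (0 : ℝ) ≤ ((a.2 ⬝ᵥ τ : ℤ) : ℝ) + 1 := by
    have : (0 : ℝ) ≤ ((a.2 ⬝ᵥ τ : ℤ) : ℝ) := by exact_mod_cast hτ
    linarith
  have h3 : 0 ≤ ∏ p ∈ (pos Φ).erase a, (1 + t * ((p.2 ⬝ᵥ τ : ℤ) : ℝ) ^ 2) :=
    Finset.prod_nonneg fun p _ => by positivity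
  exact mul_le_mul_of_nonneg_right (mul_le_mul_of_nonneg_right
    (mul_le_mul_of_nonneg_right h1 (Real.exp_pos _).le) h2) h3

end

end STZ3
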