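import Pool.Agent.STZ3.StmtsT3

set_option autoImplicit false

namespace STZ3

open STZ LGR MeasureTheory Matrix Filter

open scoped ComplexConjugate Matrix Real Topology

noncomputable section

namespace GTA

/-- the logarithm is small -/
lemma logsmall (ε : ℝ) (hε : 0 < ε) : ∃ J₀ : ℕ, ∀ J : ℕ, J₀ ≤ J →
    1 + Real.log ((2 : ℝ) ^ J) ≤ ε * ((2 : ℝ) ^ J) ^ (2 / 5 : ℝ) := by
  have h1 : Tendsto (fun J : ℕ => (2 : ℝ) ^ J) atTop atTop :=
    tendsto_pow_atTop_atTop_of_one_lt (by norm_num)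
  have h2 := (isLittleO_log_rpow_atTop (r := (2 / 5 : ℝ)) (by norm_num)).def (half_pos hε)
  have h3 := h1.eventually h2
  have h4 : Tendsto (fun x : ℝ => x ^ (2 / 5 : ℝ)) atTop atTop := tendsto_rpow_atTop (by norm_num)
  have h5 := h1.eventually (h4.eventually_ge_atTop (2 / ε))
  obtain ⟨J₀, hJ₀⟩ := eventually_atTop.1 (h3.and h5)
  refine ⟨J₀, fun J hJ => ?_⟩
  obtain ⟨h6, h7⟩ := hJ₀ J hJ
  have hX : (0 : ℝ) < (2 : ℝ) ^ J := by positivity
  have hX1 : (1 : ℝ) ≤ (2 : ℝ) ^ J := one_le_pow₀ (by norm_num)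
  have hY : (0 : ℝ) < ((2 : ℝ) ^ J) ^ (2 / 5 : ℝ) := Real.rpow_pos_of_pos hX _
  rw [Real.norm_of_nonneg (Real.log_nonneg hX1), Real.norm_of_nonneg hY.le] at h6
  have h8 : 1 ≤ ε / 2 * ((2 : ℝ) ^ J) ^ (2 / 5 : ℝ) := by
    have := mul_le_mul_of_nonneg_left h7 (half_pos hε).le
    calc (1 : ℝ) = ε / 2 * (2 / ε) := by field_simp
      _ ≤ _ := this
  linarith

end GTA

open GTA in
theorem t_GTA : M_GTA := by
  intro hW c σ a K hc hσ hσ1 ha hK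
  obtain ⟨C₀, hC₀, hWS⟩ := hW c σ hc hσ hσ1
  -- a constant at least one
  set C1 : ℝ := max C₀ 1 with hC1d
  have hC1 : 1 ≤ C1 := le_max_right _ _
  have hC1p : 0 < C1 := by linarith
  set C : ℝ := max (2 * C1) (2 * C1 / a) with hCd
  have hC2 : 2 * C1 ≤ C := le_max_left _ _
  have hC3 : 2 * C1 / a ≤ C := le_max_right _ _
  have hC : 1 ≤ C := by linarith
  have hCp : 0 < C := by linarith
  set ε : ℝ := min (a / (2 * C1)) (1 / (C * K)) with hεd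
  have hε : 0 < ε := by positivity
  have hε1 : ε ≤ a / (2 * C1) := min_le_left _ _
  have hε2 : ε ≤ 1 / (C * K) := min_le_right _ _
  obtain ⟨J₀, hJ₀⟩ := logsmall ε hε
  refine ⟨C, J₀, hC, ?_⟩
  intro J Λ τ hJ hΛ hΛX hlow
  have hlog := hJ₀ J hJ
  have hcR : (1 : ℝ) ≤ c := by exact_mod_cast hc
  -- the scale
  set X : ℝ := (2 : ℝ) ^ J with hXd
  have hXp : 0 < X := by positivity
  have hX1 : 1 ≤ X := one_le_pow₀ (by norm_num)
  have hXc : (((2 ^ J : ℕ)) : ℝ) = X := by rw [hXd]; push_cast; rfl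
  have hlogn : 0 ≤ Real.log X := Real.log_nonneg hX1
  have hΛp : 0 < Λ := by linarith
  -- Λ² ≤ X^(1/5)
  have hΛ2 : Λ ^ 2 ≤ X ^ (1 / 5 : ℝ) := by
    have h1 : (Λ ^ 2) ^ 5 ≤ X := by
      calc (Λ ^ 2) ^ 5 = Λ ^ 10 := by ring
        _ ≤ X := hΛX
    have h2 : ((Λ ^ 2) ^ 5) ^ (1 / 5 : ℝ) ≤ X ^ (1 / 5 : ℝ) :=
      Real.rpow_le_rpow (by positivity) h1 (by norm_num)
    have h3 : ((Λ ^ 2) ^ 5) ^ (1 / 5 : ℝ) = Λ ^ 2 := by
      rw [← Real.rpow_natCast (Λ ^ 2) 5, ← Real.rpow_mul (by positivity)]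
      norm_num
    rwa [h3] at h2
  set Y : ℝ := X ^ (1 / 5 : ℝ) with hYd
  have hYp : 0 < Y := Real.rpow_pos_of_pos hXp _
  have hY1 : 1 ≤ Y := Real.one_le_rpow hX1 (by norm_num)
  have hY5 : Y ^ 5 = X := by
    rw [hYd, ← Real.rpow_natCast, ← Real.rpow_mul hXp.le]; norm_num
  have hY2 : X ^ (2 / 5 : ℝ) = Y ^ 2 := by
    rw [hYd, ← Real.rpow_natCast, ← Real.rpow_mul hXp.le]; norm_num
  rw [hY2] at hlog
  -- Dirichlet
  obtain ⟨ρ, hρ1, hρ2⟩ := Real.exists_rat_abs_sub_le_and_den_le τ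
    (n := 2 * c * 2 ^ J) (by positivity)
  have hq : (0 : ℝ) < ρ.den := by exact_mod_cast ρ.pos
  have hq1 : (1 : ℝ) ≤ ρ.den := by exact_mod_cast ρ.pos
  set q : ℝ := (ρ.den : ℝ) with hqd
  have hcX : 0 < 2 * (c : ℝ) * X := by positivity
  have hu : |τ - ρ| ≤ 1 / (q * (2 * c * X)) := by
    refine hρ1.trans ?_
    apply one_div_le_one_div_of_le (by positivity)
    push_cast
    rw [← hXd]
    nlinarith
  set u : ℝ := |τ - ρ| with hud
  have hu0 : 0 ≤ u := abs_nonneg _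
  -- the estimate at all scales R ≤ X with q ≤ 2 c R
  have key : ∀ y : ℕ, y ≤ J → q ≤ 2 * c * (2 : ℝ) ^ y →
      WW (2 ^ y) c τ ≤ C1 * ((2 : ℝ) ^ y * (1 + Real.log ((2 : ℝ) ^ y)) +
        ((2 : ℝ) ^ y) ^ 2 / q * (1 + ((2 : ℝ) ^ y) ^ 2 * u) ^ (-σ)) := by
    intro y hy hqy
    have h1 : ρ.den ≤ 2 * c * 2 ^ y := by
      have : (ρ.den : ℝ) ≤ ((2 * c * 2 ^ y : ℕ) : ℝ) := by push_cast; exact hqy
      exact_mod_cast this
    have hyX : (2 : ℝ) ^ y ≤ X := pow_le_pow_right₀ (by norm_num) hy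
    have h2 : |τ - ρ| ≤ 1 / (ρ.den * (2 * c * ((2 ^ y : ℕ) : ℝ))) := by
      refine hu.trans ?_
      apply one_div_le_one_div_of_le (by positivity)
      push_cast
      gcongr
    have h3 := hWS (2 ^ y) τ ρ Nat.one_le_two_pow h1 h2
    push_cast at h3
    refine h3.trans ?_
    have hlogy : 0 ≤ Real.log ((2 : ℝ) ^ y) := Real.log_nonneg (one_le_pow₀ (by norm_num))
    have h4 : 0 ≤ (1 + ((2 : ℝ) ^ y) ^ 2 * u) ^ (-σ) := Real.rpow_nonneg (by positivity) _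
    apply mul_le_mul_of_nonneg_right (le_max_left _ _)
    positivity
  -- the top scale
  have htop := key J le_rfl (by
    have : (ρ.den : ℝ) ≤ ((2 * c * 2 ^ J : ℕ) : ℝ) := by exact_mod_cast hρ2
    push_cast at this
    exact this)
  rw [← hXd] at htop
  set P : ℝ := 1 + X ^ 2 * u with hPd
  have hP1 : 1 ≤ P := by rw [hPd]; nlinarith [mul_nonneg (sq_nonneg X) hu0]
  have hPp : 0 < P := by linarith
  have hPs : 0 < P ^ σ := Real.rpow_pos_of_pos hPp _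
  have hPn : P ^ (-σ) = (P ^ σ)⁻¹ := Real.rpow_neg hPp.le σ
  rw [hPn] at htop
  have hWlow : a / Λ ^ 2 * X ^ 2 ≤ WW (2 ^ J) c τ := by
    rw [le_div_iff₀ (by positivity)] at hlow
    exact hlow
  have hfirst : C1 * (X * (1 + Real.log X)) ≤ 1 / 2 * (a / Λ ^ 2 * X ^ 2) := by
    have h1 : 1 + Real.log X ≤ a / (2 * C1) * Y ^ 2 :=
      hlog.trans (mul_le_mul_of_nonneg_right hε1 (by positivity))
    have h2 : Y ^ 2 ≤ X / Λ ^ 2 := by
      rw [le_div_iff₀ (by positivity)]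
      calc Y ^ 2 * Λ ^ 2 ≤ Y ^ 2 * Y := by gcongr
        _ = Y ^ 3 := by ring
        _ ≤ Y ^ 5 := pow_le_pow_right₀ hY1 (by norm_num)
        _ = X := hY5
    calc C1 * (X * (1 + Real.log X)) ≤ C1 * (X * (a / (2 * C1) * (X / Λ ^ 2))) := by
          gcongr
          exact h1.trans (by gcongr)
      _ = 1 / 2 * (a / Λ ^ 2 * X ^ 2) := by field_simp
  have h3 : WW (2 ^ J) c τ ≤ 2 * C1 * (X ^ 2 / q * (P ^ σ)⁻¹) := by
    have : C1 * (X * (1 + Real.log X) + X ^ 2 / q * (P ^ σ)⁻¹) =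
      C1 * (X * (1 + Real.log X)) + C1 * (X ^ 2 / q * (P ^ σ)⁻¹) := by ring
    linarith
  have h2 : q * P ^ σ ≤ 2 * C1 / a * Λ ^ 2 := by
    have h4 := hWlow.trans h3
    have h5 : a / Λ ^ 2 * X ^ 2 * (q * P ^ σ) ≤ 2 * C1 * X ^ 2 := by
      calc a / Λ ^ 2 * X ^ 2 * (q * P ^ σ) ≤ 2 * C1 * (X ^ 2 / q * (P ^ σ)⁻¹) * (q * P ^ σ) := by
            gcongr
        _ = 2 * C1 * X ^ 2 := by field_simp
    have h6 : (q * P ^ σ) = (a / Λ ^ 2 * X ^ 2 * (q * P ^ σ)) / (a / Λ ^ 2 * X ^ 2) := by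
      field_simp
    rw [h6]
    calc (a / Λ ^ 2 * X ^ 2 * (q * P ^ σ)) / (a / Λ ^ 2 * X ^ 2)
        ≤ 2 * C1 * X ^ 2 / (a / Λ ^ 2 * X ^ 2) := by gcongr
      _ = 2 * C1 / a * Λ ^ 2 := by field_simp
  have h2' : q * P ^ σ ≤ C * Λ ^ 2 := h2.trans (by gcongr)
  have hPs1 : 1 ≤ P ^ σ := Real.one_le_rpow hP1 hσ.le
  have h1' : q ≤ C * Λ ^ 2 := by nlinarith
  refine ⟨ρ, h1', h2', ?_, ?_⟩
  · rw [hPn]
    exact h3.trans (by gcongr)
  · intro y hy hyK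
    -- the scale R = 2^y
    set R : ℝ := (2 : ℝ) ^ y with hRd
    have hRp : 0 < R := by positivity
    have hR1 : 1 ≤ R := one_le_pow₀ (by norm_num)
    have hRX : R ≤ X := pow_le_pow_right₀ (by norm_num) hy
    have hXR : X = (2 : ℝ) ^ (J - y) * R := by
      rw [hXd, hRd, ← pow_add, Nat.sub_add_cancel hy]
    have hRlow : Y ^ 3 ≤ K * R := by
      have h4 : X ≤ K * Λ ^ 4 * R := by
        rw [hXR]; gcongr
      have h5 : Λ ^ 4 ≤ Y ^ 2 := by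
        calc Λ ^ 4 = (Λ ^ 2) ^ 2 := by ring
          _ ≤ Y ^ 2 := by gcongr
      have h6 : X ≤ K * Y ^ 2 * R := h4.trans (by gcongr)
      rw [← hY5] at h6
      have h7 : Y ^ 2 * Y ^ 3 ≤ Y ^ 2 * (K * R) := by
        calc Y ^ 2 * Y ^ 3 = Y ^ 5 := by ring
          _ ≤ K * Y ^ 2 * R := h6
          _ = Y ^ 2 * (K * R) := by ring
      exact le_of_mul_le_mul_left h7 (by positivity)
    have hmain : C * Y * (1 + Real.log X) ≤ R := by
      have h4 : 1 + Real.log X ≤ 1 / (C * K) * Y ^ 2 :=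
        hlog.trans (mul_le_mul_of_nonneg_right hε2 (by positivity))
      calc C * Y * (1 + Real.log X) ≤ C * Y * (1 / (C * K) * Y ^ 2) := by gcongr
        _ = Y ^ 3 / K := by field_simp
        _ ≤ K * R / K := by gcongr
        _ = R := by field_simp
    have hqR : q ≤ R := by
      calc q ≤ C * Λ ^ 2 := h1'
        _ ≤ C * Y := by gcongr
        _ ≤ C * Y * (1 + Real.log X) := le_mul_of_one_le_right (by positivity) (by linarith)
        _ ≤ R := hmain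
    have hy1 := key y hy (by
      calc q ≤ R := hqR
        _ ≤ 2 * c * R := le_mul_of_one_le_left hRp.le (by linarith))
    rw [← hRd] at hy1
    set Q : ℝ := 1 + R ^ 2 * u with hQd
    have hQ1 : 1 ≤ Q := by rw [hQd]; nlinarith [mul_nonneg (sq_nonneg R) hu0]
    have hQp : 0 < Q := by linarith
    have hQP : Q ≤ P := by rw [hQd, hPd]; gcongr
    have hQs : 0 < Q ^ σ := Real.rpow_pos_of_pos hQp _
    have hQn : Q ^ (-σ) = (Q ^ σ)⁻¹ := Real.rpow_neg hQp.le σ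
    rw [hQn] at hy1 ⊢
    have h4 : R * (1 + Real.log R) ≤ R ^ 2 / q * (Q ^ σ)⁻¹ := by
      have h5 : (q * Q ^ σ) * (1 + Real.log R) ≤ R := by
        calc (q * Q ^ σ) * (1 + Real.log R) ≤ (q * P ^ σ) * (1 + Real.log X) := by
              gcongr
              linarith [Real.log_nonneg hR1]
          _ ≤ (C * Λ ^ 2) * (1 + Real.log X) := by gcongr
          _ ≤ (C * Y) * (1 + Real.log X) := by gcongr
          _ ≤ R := hmain
      have h6 : R ^ 2 / q * (Q ^ σ)⁻¹ = R * (R / (q * Q ^ σ)) := by field_simp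
      rw [h6]
      apply mul_le_mul_of_nonneg_left _ hRp.le
      rw [le_div_iff₀ (by positivity)]
      linarith
    calc WW (2 ^ y) c τ ≤ C1 * (R * (1 + Real.log R) + R ^ 2 / q * (Q ^ σ)⁻¹) := hy1
      _ ≤ C1 * (R ^ 2 / q * (Q ^ σ)⁻¹ + R ^ 2 / q * (Q ^ σ)⁻¹) := by gcongr
      _ = 2 * C1 * (R ^ 2 / q * (Q ^ σ)⁻¹) := by ring
      _ ≤ C * (R ^ 2 / q * (Q ^ σ)⁻¹) := by gcongr

end

end STZ3
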