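import Pool.Agent.STZ3.StC3

/-!
# Module GTI: the Gaussian identities of the chain packets   (helper4)
-/

namespace STZ3

open STZ LGR MeasureTheory Matrix Filter

open scoped ComplexConjugate Matrix Real Topology

noncomputable section

namespace GTI

/-! ### exponentials -/

theorem eu_cont : Continuous eu := by
  unfold eu
  fun_prop

theorem dz_cont {r : ℕ} (m : Fin r → ℤ) : Continuous (dz m) := by
  unfold dz
  fun_prop

theorem eu_add (a b : ℝ) : eu (a + b) = eu a * eu b := by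
  unfold eu
  rw [← Complex.exp_add]
  congr 1
  push_cast
  ring

theorem eu_norm (x : ℝ) : ‖eu x‖ = 1 := by
  have h : (2 * π * x * Complex.I : ℂ) = ((2 * π * x : ℝ) : ℂ) * Complex.I := by push_cast; ring
  rw [eu, h, Complex.norm_exp_ofReal_mul_I]

theorem dz_sub_smul {r : ℕ} (τ a : Fin r → ℤ) (i : ℤ) (θ : Fin r → ℝ) :
    dz (τ - i • a) θ = dz τ θ - i * dz a θ := by
  unfold dz
  rw [Finset.mul_sum, ← Finset.sum_sub_distrib]
  refine Finset.sum_congr rfl fun j _ => ?_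
  rw [Pi.sub_apply, Pi.smul_apply, smul_eq_mul]
  push_cast
  ring

theorem al_eu {r : ℕ} (a : (Fin r → ℤ) × (Fin r → ℤ)) (θ : Fin r → ℝ) :
    ((al a θ : ℝ) : ℂ) = (eu (-(dz a.1 θ / 2)) - eu (dz a.1 θ / 2)) * Complex.I / 2 := by
  unfold al eu
  rw [Complex.ofReal_sin, Complex.sin]
  have e1 : (-((π * dz a.1 θ : ℝ) : ℂ) * Complex.I : ℂ) =
      2 * π * ((-(dz a.1 θ / 2) : ℝ) : ℂ) * Complex.I := by push_cast; ring
  have e2 : (((π * dz a.1 θ : ℝ) : ℂ) * Complex.I : ℂ) =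
      2 * π * ((dz a.1 θ / 2 : ℝ) : ℂ) * Complex.I := by push_cast; ring
  rw [e1, e2]

theorem al_cont {r : ℕ} (a : (Fin r → ℤ) × (Fin r → ℤ)) : Continuous (al a) := by
  unfold al
  exact Real.continuous_sin.comp (continuous_const.mul (dz_cont _))

theorem al_le {r : ℕ} (a : (Fin r → ℤ) × (Fin r → ℤ)) (θ : Fin r → ℝ) : ‖((al a θ : ℝ) : ℂ)‖ ≤ 1 := by
  rw [Complex.norm_real, Real.norm_eq_abs]
  exact Real.abs_sin_le_one _

/-- the telescoping sum -/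
theorem tele {r : ℕ} (a : (Fin r → ℤ) × (Fin r → ℤ)) (τ : Fin r → ℤ) (n : ℕ) (θ : Fin r → ℝ) :
    ((al a θ : ℝ) : ℂ) * ∑ i ∈ Finset.range (n + 1), eu (dz (τ - (i : ℤ) • a.1) θ) =
      (eu (dz (τ - ((n : ℤ) + 1) • a.1) θ + dz a.1 θ / 2) - eu (dz τ θ + dz a.1 θ / 2)) *
        Complex.I / 2 := by
  have h1 : ∀ i ∈ Finset.range (n + 1), ((al a θ : ℝ) : ℂ) * eu (dz (τ - (i : ℤ) • a.1) θ) =
      eu (dz (τ - ((i + 1 : ℕ) : ℤ) • a.1) θ + dz a.1 θ / 2) * Complex.I / 2 -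
        eu (dz (τ - (i : ℤ) • a.1) θ + dz a.1 θ / 2) * Complex.I / 2 := by
    intro i _
    have e1 : dz (τ - ((i + 1 : ℕ) : ℤ) • a.1) θ + dz a.1 θ / 2 =
        -(dz a.1 θ / 2) + dz (τ - (i : ℤ) • a.1) θ := by
      rw [dz_sub_smul, dz_sub_smul]
      push_cast
      ring
    have e2 : dz (τ - (i : ℤ) • a.1) θ + dz a.1 θ / 2 =
        dz a.1 θ / 2 + dz (τ - (i : ℤ) • a.1) θ := add_comm _ _
    rw [e1, e2, eu_add, eu_add, al_eu]
    ring
  rw [Finset.mul_sum, Finset.sum_congr rfl h1, Finset.sum_range_sub (fun i : ℕ =>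
    eu (dz (τ - (i : ℤ) • a.1) θ + dz a.1 θ / 2) * Complex.I / 2)]
  have e3 : τ - ((0 : ℕ) : ℤ) • a.1 = τ := by simp
  rw [e3]
  push_cast
  ring

/-! ### bounded linear functionals -/

/-- a bounded linear functional on the continuous functions -/
structure BL {G : Type} [TopologicalSpace G] (L : (G → ℂ) → ℂ) (C : ℝ) : Prop where
  add : ∀ f g : G → ℂ, Continuous f → Continuous g → L (fun x => f x + g x) = L f + L g
  smul : ∀ (a : ℂ) (f : G → ℂ), Continuous f → L (fun x => a * f x) = a * L f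
  bd : ∀ (f : G → ℂ) (M : ℝ), Continuous f → (∀ x, ‖f x‖ ≤ M) → ‖L f‖ ≤ C * M

theorem BL.ev {G : Type} [TopologicalSpace G] (x : G) : BL (fun f : G → ℂ => f x) 1 :=
  ⟨fun _ _ _ _ => rfl, fun _ _ _ => rfl, fun f M _ h => by rw [one_mul]; exact h x⟩

theorem BL.mul {G : Type} [TopologicalSpace G] {L : (G → ℂ) → ℂ} {C : ℝ} (h : BL L C) (c : ℂ) :
    BL (fun f => c * L f) (‖c‖ * C) := by
  refine ⟨fun f g hf hg => ?_, fun a f hf => ?_, fun f M hf hM => ?_⟩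
  · rw [h.add f g hf hg]
    ring
  · rw [h.smul a f hf]
    ring
  · rw [norm_mul, mul_assoc]
    exact mul_le_mul_of_nonneg_left (h.bd f M hf hM) (norm_nonneg _)

theorem BL.mono {G : Type} [TopologicalSpace G] [Nonempty G] {L : (G → ℂ) → ℂ} {C C' : ℝ}
    (h : BL L C) (hC : C ≤ C') : BL L C' := by
  refine ⟨h.add, h.smul, fun f M hf hM => (h.bd f M hf hM).trans ?_⟩
  obtain ⟨x⟩ := (inferInstance : Nonempty G)
  exact mul_le_mul_of_nonneg_right hC ((norm_nonneg _).trans (hM x))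

theorem BL.sub {G : Type} [TopologicalSpace G] {L L' : (G → ℂ) → ℂ} {C C' : ℝ}
    (h : BL L C) (h' : BL L' C') : BL (fun f => L f - L' f) (C + C') := by
  refine ⟨fun f g hf hg => ?_, fun a f hf => ?_, fun f M hf hM => ?_⟩
  · rw [h.add f g hf hg, h'.add f g hf hg]
    ring
  · rw [h.smul a f hf, h'.smul a f hf]
    ring
  · rw [add_mul]
    exact (norm_sub_le _ _).trans (add_le_add (h.bd f M hf hM) (h'.bd f M hf hM))

theorem BL.int {G : Type} [TopologicalSpace G] [CompactSpace G] {X : Type} [MeasurableSpace X]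
    (ν : Measure X) [IsProbabilityMeasure ν] {L : X → (G → ℂ) → ℂ} {C : ℝ} (h : ∀ x, BL (L x) C)
    (hm : ∀ f : G → ℂ, Continuous f → AEStronglyMeasurable (fun x => L x f) ν) :
    BL (fun f => ∫ x, L x f ∂ν) C := by
  have hi : ∀ f : G → ℂ, Continuous f → Integrable (fun x => L x f) ν := by
    intro f hf
    obtain ⟨M, hM⟩ := (isCompact_univ (X := G)).exists_bound_of_continuousOn hf.continuousOn
    exact Integrable.of_bound (hm f hf) (C * M)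
      (Eventually.of_forall fun x => (h x).bd f M hf fun y => hM y (Set.mem_univ _))
  refine ⟨fun f g hf hg => ?_, fun a f hf => ?_, fun f M hf hM => ?_⟩
  · rw [← integral_add (hi f hf) (hi g hg)]
    exact integral_congr_ae (Eventually.of_forall fun x => (h x).add f g hf hg)
  · rw [← integral_const_mul]
    exact integral_congr_ae (Eventually.of_forall fun x => (h x).smul a f hf)
  · have h5 := norm_integral_le_of_norm_le_const (μ := ν) (f := fun x => L x f)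
      (C := C * M) (Eventually.of_forall fun x => (h x).bd f M hf hM)
    rw [probReal_univ, mul_one] at h5
    exact h5

theorem BL.sum {G : Type} [TopologicalSpace G] {L : (G → ℂ) → ℂ} {C : ℝ} (h : BL L C)
    {ι : Type} (s : Finset ι) (a : ι → ℂ) (f : ι → G → ℂ) (hf : ∀ k, Continuous (f k)) :
    L (fun g => ∑ k ∈ s, a k * f k g) = ∑ k ∈ s, a k * L (f k) := by
  classical
  induction s using Finset.induction_on with
  | empty =>
    have h1 := h.bd (fun _ => 0) 0 continuous_const (fun _ => by simp)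
    rw [mul_zero] at h1
    simpa using norm_le_zero_iff.1 h1
  | insert b s hb ih =>
    rw [Finset.sum_insert hb, ← ih, ← h.smul _ _ (hf b)]
    have h1 := h.add (fun x => a b * f b x) (fun g => ∑ k ∈ s, a k * f k g)
      (continuous_const.mul (hf b)) (continuous_finsetSum _ fun k _ => continuous_const.mul (hf k))
    rw [← h1]
    congr 1
    funext g
    rw [Finset.sum_insert hb]

theorem ch_cont {G : Type} [Group G] [TopologicalSpace G] {n : ℕ} (σ : Rep G (Fin n)) :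
    Continuous σ.ch := by
  have h : Continuous fun g => (σ.ρ g).trace := σ.cont.matrix_trace
  exact h

/-- it is enough to consider characters -/
theorem dens (hDC : S_DENC) {N : ℕ} {H : Subgroup (SU N)} (hcl : IsClosed (H : Set (SU N)))
    {L : (H → ℂ) → ℂ} {C : ℝ} (h : BL L C)
    (h0 : ∀ (n : ℕ) (σ : Rep H (Fin n)), σ.Irr → PRep σ → L σ.ch = 0) (f : H → ℂ)
    (hf : Continuous f) (hcf : ∀ g h, f (h * g * h⁻¹) = f g) : L f = 0 := by
  have key : ∀ ε : ℝ, 0 < ε → ‖L f‖ ≤ C * ε := by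
    intro ε hε
    obtain ⟨m, M, σ, a, h1, h2, h3⟩ := hDC N H hcl f hf hcf ε hε
    have hc : Continuous fun g => ∑ k, a k * (σ k).ch g :=
      continuous_finsetSum _ fun k _ => continuous_const.mul (ch_cont (σ k))
    have e1 : L (fun g => ∑ k, a k * (σ k).ch g) = 0 := by
      rw [h.sum Finset.univ a (fun k => (σ k).ch) fun k => ch_cont (σ k)]
      exact Finset.sum_eq_zero fun k _ => by rw [h0 _ (σ k) (h1 k) (h2 k), mul_zero]
    have hd : Continuous fun g => f g - ∑ k, a k * (σ k).ch g := hf.sub hc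
    have e2 := h.add _ _ hd hc
    have e3 : (fun x => f x - ∑ k, a k * (σ k).ch x + ∑ k, a k * (σ k).ch x) = f := by
      funext x
      ring
    rw [e3, e1, add_zero] at e2
    rw [e2]
    exact h.bd _ _ hd h3
  by_contra hne
  have hp : 0 < ‖L f‖ := norm_pos_iff.2 hne
  have hC : 0 < |C| + 1 := by positivity
  have h1 := key (‖L f‖ / (2 * (|C| + 1))) (by positivity)
  have h2 : C * (‖L f‖ / (2 * (|C| + 1))) ≤ (|C| + 1) * (‖L f‖ / (2 * (|C| + 1))) :=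
    mul_le_mul_of_nonneg_right ((le_abs_self C).trans (by linarith)) (by positivity)
  have h3 : (|C| + 1) * (‖L f‖ / (2 * (|C| + 1))) = ‖L f‖ / 2 := by
    field_simp
  linarith

/-! ### the double average -/

theorem cont_int {X Y : Type} [TopologicalSpace X] [FirstCountableTopology X] [LocallyCompactSpace X]
    [TopologicalSpace Y] [CompactSpace Y] [SecondCountableTopology Y] [MeasurableSpace Y]
    [BorelSpace Y] (ν : Measure Y) [IsFiniteMeasure ν] {f : X → Y → ℂ}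
    (hf : Continuous (Function.uncurry f)) : Continuous fun x => ∫ y, f x y ∂ν := by
  have h := continuous_parametric_integral_of_continuous (μ := ν) hf isCompact_univ
  simpa only [Measure.restrict_univ] using h

/-- the double average -/
def PP {G : Type} [Group G] [MeasurableSpace G] (κ : Measure G) (g : G) (f : G → ℂ) : ℂ :=
  ∫ y, ∫ y', f (y * g * y') ∂κ ∂κ

section PPs

variable {G : Type} [Group G] [TopologicalSpace G] [IsTopologicalGroup G] [CompactSpace G]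
  [T2Space G] [SecondCountableTopology G] [MeasurableSpace G] [BorelSpace G]
  (κ : Measure G) [IsProbabilityMeasure κ]

omit [T2Space G] in
theorem PP_in [LocallyCompactSpace G] {f : G → ℂ} (hf : Continuous f) :
    Continuous fun x : G × G => ∫ y', f (x.1 * x.2 * y') ∂κ := by
  refine cont_int κ ?_
  have h : Continuous fun p : (G × G) × G => f (p.1.1 * p.1.2 * p.2) := by fun_prop
  exact h

theorem PP_cont {f : G → ℂ} (hf : Continuous f) : Continuous fun g => PP κ g f := by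
  have h1 := PP_in κ hf
  have h2 : Continuous (Function.uncurry fun (g : G) (y : G) => ∫ y', f (y * g * y') ∂κ) := by
    have h3 : Continuous fun p : G × G => ((p.2, p.1) : G × G) := by fun_prop
    exact h1.comp h3
  exact cont_int κ h2

theorem PP_BL (g : G) : BL (fun f : G → ℂ => PP κ g f) 1 := by
  unfold PP
  refine BL.int κ (fun y => BL.int κ (fun y' => BL.ev (y * g * y')) ?_) ?_
  · intro f hf
    have h : Continuous fun y' => f (y * g * y') := by fun_prop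
    exact h.aestronglyMeasurable
  · intro f hf
    have h1 := (PP_in κ hf).comp (by fun_prop : Continuous fun y : G => ((y, g) : G × G))
    exact h1.aestronglyMeasurable

end PPs

/-! ### matrices -/

theorem int_mul {Y : Type} [MeasurableSpace Y] (ν : Measure Y) {n : ℕ}
    (S : Y → Matrix (Fin n) (Fin n) ℂ) (hS : ∀ i j, Integrable (fun y => S y i j) ν)
    (A B : Matrix (Fin n) (Fin n) ℂ) (a b : Fin n) :
    Integrable (fun y => (A * S y * B) a b) ν ∧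
    ∫ y, (A * S y * B) a b ∂ν = (A * (Matrix.of fun i j => ∫ y, S y i j ∂ν) * B) a b := by
  simp only [Matrix.mul_apply, Matrix.of_apply, Finset.sum_mul]
  refine ⟨integrable_finsetSum _ fun j _ => integrable_finsetSum _ fun i _ =>
    ((hS i j).const_mul _).mul_const _, ?_⟩
  rw [integral_finsetSum _ fun j _ => integrable_finsetSum _ fun i _ =>
    ((hS i j).const_mul _).mul_const _]
  refine Finset.sum_congr rfl fun j _ => ?_
  rw [integral_finsetSum _ fun i _ => ((hS i j).const_mul _).mul_const _]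
  refine Finset.sum_congr rfl fun i _ => ?_
  rw [integral_mul_const, integral_const_mul]

theorem int_tr {Y : Type} [MeasurableSpace Y] (ν : Measure Y) {n : ℕ}
    (S : Y → Matrix (Fin n) (Fin n) ℂ) (hS : ∀ i j, Integrable (fun y => S y i j) ν)
    (A B : Matrix (Fin n) (Fin n) ℂ) :
    ∫ y, (A * S y * B).trace ∂ν = (A * (Matrix.of fun i j => ∫ y, S y i j ∂ν) * B).trace := by
  simp only [Matrix.trace, Matrix.diag]
  rw [integral_finsetSum _ fun a _ => (int_mul ν S hS A B a a).1]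
  exact Finset.sum_congr rfl fun a _ => (int_mul ν S hS A B a a).2

theorem PP_ch {G : Type} [Group G] [TopologicalSpace G] [CompactSpace G]
    [MeasurableSpace G] [BorelSpace G] (κ : Measure G) [IsProbabilityMeasure κ] {n : ℕ}
    (σ : Rep G (Fin n)) (g : G) :
    PP κ g σ.ch = ((Matrix.of fun i j => ∫ x, σ.ρ x i j ∂κ) * σ.ρ g *
      (Matrix.of fun i j => ∫ x, σ.ρ x i j ∂κ)).trace := by
  have hS : ∀ i j, Integrable (fun y => σ.ρ y i j) κ := fun i j =>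
    (σ.cont.matrix_elem i j).integrable_of_hasCompactSupport (HasCompactSupport.of_compactSpace _)
  set K : Matrix (Fin n) (Fin n) ℂ := Matrix.of fun i j => ∫ x, σ.ρ x i j ∂κ with hK
  have h1 : ∀ y, ∫ y', σ.ch (y * g * y') ∂κ = (1 * σ.ρ y * (σ.ρ g * K)).trace := by
    intro y
    have h2 := int_tr κ (fun y' => σ.ρ y') hS (σ.ρ y * σ.ρ g) 1
    have e : ∀ y', σ.ch (y * g * y') = (σ.ρ y * σ.ρ g * σ.ρ y' * 1).trace := by
      intro y'
      rw [Rep.ch, map_mul, map_mul, Matrix.mul_one]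
    simp only [e]
    rw [h2, ← hK, Matrix.mul_one, Matrix.one_mul, Matrix.mul_assoc]
  unfold PP
  simp only [h1]
  rw [int_tr κ (fun y => σ.ρ y) hS 1 (σ.ρ g * K), ← hK, Matrix.one_mul, Matrix.mul_assoc]

theorem trKDK {n : ℕ} {U : Matrix (Fin n) (Fin n) ℂ} (hU : Uᴴ * U = 1) (e l : Fin n → ℂ) :
    ((U * Matrix.diagonal e * Uᴴ) * (U * Matrix.diagonal l * Uᴴ) * (U * Matrix.diagonal e * Uᴴ)).trace =
      ∑ k, e k * l k * e k := by
  have h1 : (U * Matrix.diagonal e * Uᴴ) * (U * Matrix.diagonal l * Uᴴ) * (U * Matrix.diagonal e * Uᴴ) =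
      U * Matrix.diagonal (fun k => e k * l k * e k) * Uᴴ := by
    have h2 : ∀ a b : Fin n → ℂ, (U * Matrix.diagonal a * Uᴴ) * (U * Matrix.diagonal b * Uᴴ) =
        U * Matrix.diagonal (fun k => a k * b k) * Uᴴ := by
      intro a b
      calc (U * Matrix.diagonal a * Uᴴ) * (U * Matrix.diagonal b * Uᴴ)
          = U * Matrix.diagonal a * (Uᴴ * U) * Matrix.diagonal b * Uᴴ := by
            simp only [Matrix.mul_assoc]
        _ = U * (Matrix.diagonal a * Matrix.diagonal b) * Uᴴ := by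
            rw [hU]
            simp only [Matrix.mul_assoc, Matrix.one_mul]
        _ = _ := by rw [Matrix.diagonal_mul_diagonal]
    rw [h2, h2]
  rw [h1, Matrix.trace_mul_comm, ← Matrix.mul_assoc, hU, Matrix.one_mul, Matrix.trace_diagonal]

/-! ### the quadratic form -/

theorem Qsub {r : ℕ} {Φ : RT r} {B : Matrix (Fin r) (Fin r) ℤ} (hQ : S_QUAD) (hI : IRD Φ B)
    (hW : WFF Φ B) {a : (Fin r → ℤ) × (Fin r → ℤ)} (ha : a ∈ pos Φ) (τ : Fin r → ℤ) (i : ℤ) :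
    ((rd Φ).Q (τ - i • a.1) : ℝ) = (rd Φ).Q τ - i * ((a.2 ⬝ᵥ τ : ℤ) : ℝ) * (rd Φ).Q a.1 +
      i ^ 2 * (rd Φ).Q a.1 ∧ ip Φ a.1 τ = ((a.2 ⬝ᵥ τ : ℤ) : ℝ) * (rd Φ).Q a.1 := by
  obtain ⟨-, -, hsym, h2, -, -, hr⟩ := hQ r Φ B hI hW
  have haΦ : a ∈ Φ := (hW.ppos a ha).1
  have h3 := (hr a haΦ).2 τ
  rw [h2 a.1] at h3
  have h4 : a.1 ⬝ᵥ ((rd Φ).A *ᵥ τ) = (a.2 ⬝ᵥ τ) * (rd Φ).Q a.1 := by linarith
  have h5 : τ ⬝ᵥ ((rd Φ).A *ᵥ a.1) = a.1 ⬝ᵥ ((rd Φ).A *ᵥ τ) := by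
    rw [Matrix.dotProduct_mulVec, ← Matrix.mulVec_transpose, hsym, dotProduct_comm]
  have h6 := h2 (τ - i • a.1)
  rw [Matrix.mulVec_sub, Matrix.mulVec_smul, sub_dotProduct, dotProduct_sub, dotProduct_sub,
    dotProduct_smul, dotProduct_smul, smul_dotProduct, smul_dotProduct, h2 τ, h2 a.1, h5, h4] at h6
  simp only [smul_eq_mul] at h6
  have h7 : (rd Φ).Q (τ - i • a.1) = (rd Φ).Q τ - i * (a.2 ⬝ᵥ τ) * (rd Φ).Q a.1 +
      i ^ 2 * (rd Φ).Q a.1 := by linarith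
  refine ⟨?_, ?_⟩
  · rw [h7]
    push_cast
    ring
  · unfold ip
    rw [h4]
    push_cast
    ring

theorem dsub {r : ℕ} {Φ : RT r} {B : Matrix (Fin r) (Fin r) ℤ} (hI : IRD Φ B)
    (hW : WFF Φ B) {a : (Fin r → ℤ) × (Fin r → ℤ)} (ha : a ∈ pos Φ) (τ : Fin r → ℤ) (i : ℤ) :
    a.2 ⬝ᵥ (τ - i • a.1) = a.2 ⬝ᵥ τ - 2 * i := by
  rw [dotProduct_sub, dotProduct_smul, hI.two a (hW.ppos a ha).1, smul_eq_mul]
  ring

/-- the exponent on a string -/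
theorem ec_str {r : ℕ} {Φ : RT r} {B : Matrix (Fin r) (Fin r) ℤ} (hQ : S_QUAD) (hI : IRD Φ B)
    (hW : WFF Φ B) {a : (Fin r → ℤ) × (Fin r → ℤ)} (ha : a ∈ pos Φ) (l τ : Fin r → ℤ) (i : ℤ)
    (t₁ t₂ : ℝ) :
    ec Φ a l t₁ t₂ (τ - i • a.1) (a.2 ⬝ᵥ τ + 1) =
      t₁ * ((rd Φ).Q l - (rd Φ).Q 1 - CL Φ a τ) + t₂ * (CL Φ a τ - (rd Φ).Q (τ - i • a.1)) := by
  obtain ⟨h1, h2⟩ := Qsub hQ hI hW ha τ i
  unfold ec cq qa CL
  push_cast
  rw [h1, h2, dsub hI hW ha τ i]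
  push_cast
  ring

theorem CL_top {r : ℕ} {Φ : RT r} {B : Matrix (Fin r) (Fin r) ℤ} (hQ : S_QUAD) (hI : IRD Φ B)
    (hW : WFF Φ B) {a : (Fin r → ℤ) × (Fin r → ℤ)} (ha : a ∈ pos Φ) (τ : Fin r → ℤ) :
    CL Φ a (τ - (a.2 ⬝ᵥ τ + 1) • a.1) = CL Φ a τ := by
  obtain ⟨h1, h2⟩ := Qsub hQ hI hW ha τ (a.2 ⬝ᵥ τ + 1)
  have h3 := (Qsub hQ hI hW ha (τ - (a.2 ⬝ᵥ τ + 1) • a.1) 0).2
  unfold CL
  rw [h1, h2, h3, dsub hI hW ha]
  push_cast
  ring

/-! ### the heat flow -/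

instance ga_prob (r : ℕ) : IsProbabilityMeasure (ga r) := by
  unfold ga
  infer_instance

theorem gy_cont {r : ℕ} (z : Matrix (Fin r) (Fin r) ℝ) (s : ℝ) : Continuous (gy z s) := by
  unfold gy
  fun_prop

theorem eu_int {r : ℕ} (z : Matrix (Fin r) (Fin r) ℝ) (s : ℝ) (θ : Fin r → ℝ) {f : (Fin r → ℝ) → ℝ}
    (hf : Continuous f) : Integrable (fun ξ => eu (f (θ + gy z s ξ))) (ga r) := by
  have hc : Continuous fun ξ => eu (f (θ + gy z s ξ)) :=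
    eu_cont.comp (hf.comp (continuous_const.add (gy_cont z s)))
  exact Integrable.of_bound hc.aestronglyMeasurable 1
    (Eventually.of_forall fun s => (eu_norm _).le)

/-- one string -/
def YY {r : ℕ} (a : (Fin r → ℤ) × (Fin r → ℤ)) (τ : Fin r → ℤ) (θ : Fin r → ℝ) : ℂ :=
  ((al a θ : ℝ) : ℂ) * ∑ i ∈ Finset.range ((a.2 ⬝ᵥ τ).toNat + 1), eu (dz (τ - (i : ℤ) • a.1) θ)

theorem YY_eq {r : ℕ} {a : (Fin r → ℤ) × (Fin r → ℤ)} {τ : Fin r → ℤ} (hn : 0 ≤ a.2 ⬝ᵥ τ)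
    (θ : Fin r → ℝ) : YY a τ θ = (Complex.I / 2) *
      (eu (dz (τ - (a.2 ⬝ᵥ τ + 1) • a.1) θ + dz a.1 θ / 2) - eu (dz τ θ + dz a.1 θ / 2)) := by
  unfold YY
  rw [tele, Int.toNat_of_nonneg hn]
  ring

theorem YY_heat {r : ℕ} {Φ : RT r} {B : Matrix (Fin r) (Fin r) ℤ} (hQ : S_QUAD) (hI : IRD Φ B)
    (hW : WFF Φ B) {z : Matrix (Fin r) (Fin r) ℝ} (hT : THF Φ z)
    {a : (Fin r → ℤ) × (Fin r → ℤ)} (ha : a ∈ pos Φ) {τ : Fin r → ℤ} (hn : 0 ≤ a.2 ⬝ᵥ τ)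
    {s : ℝ} (hs : 0 ≤ s) (θ : Fin r → ℝ) :
    Integrable (fun ξ => YY a τ (θ + gy z s ξ)) (ga r) ∧
    ∫ ξ, YY a τ (θ + gy z s ξ) ∂(ga r) =
      ((Real.exp (-(s * (CL Φ a τ + (rd Φ).Q a.1 / 4))) : ℝ) : ℂ) * YY a τ θ := by
  have i1 : ∀ m : Fin r → ℤ, Integrable (fun ξ => eu (dz m (θ + gy z s ξ) +
      dz a.1 (θ + gy z s ξ) / 2)) (ga r) := by
    intro m
    exact eu_int z s θ (f := fun θ => dz m θ + dz a.1 θ / 2)
      ((dz_cont m).add ((dz_cont a.1).div_const 2))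
  simp only [YY_eq hn]
  refine ⟨((i1 _).sub (i1 _)).const_mul _, ?_⟩
  rw [integral_const_mul, integral_sub (i1 _) (i1 _), hT.half s hs _ a ha θ, hT.half s hs _ a ha θ]
  have e1 : ((rd Φ).Q (τ - (a.2 ⬝ᵥ τ + 1) • a.1) : ℝ) + ip Φ a.1 (τ - (a.2 ⬝ᵥ τ + 1) • a.1) / 2 =
      CL Φ a τ := CL_top hQ hI hW ha τ
  have e2 : ((rd Φ).Q τ : ℝ) + ip Φ a.1 τ / 2 = CL Φ a τ := rfl
  rw [e1, e2]
  ring

/-! ### the characters -/

section Rps

variable {N : ℕ} {H : Subgroup (SU N)} {r : ℕ} {Φ : RT r} {B : Matrix (Fin r) (Fin r) ℤ}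
  {Hc : Fin r → MT N} {E : (Fin r → ℤ) × (Fin r → ℤ) → MT N} {c k : ℝ} {d : ℕ}

theorem tt_coe (T : TAF H Φ Hc E) (θ : Fin r → ℝ) : tt H Hc θ = ⟨ta Hc θ, T.mem θ⟩ := by
  unfold tt
  rw [dif_pos (T.mem θ)]

theorem tt_cont (T : TAF H Φ Hc E) : Continuous (tt H Hc) := by
  have e : tt H Hc = fun θ => ⟨ta Hc θ, T.mem θ⟩ := funext fun θ => tt_coe T θ
  rw [e]
  exact T.cont.subtype_mk _

/-- the double average of a character on the torus -/
theorem PPs (hWF : S_WFAC) (hQ : S_QUAD) (hHM : S_HMC) (hX : CX H Φ B Hc E c k d)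
    (T : TAF H Φ Hc E) (a : {p // p ∈ pos Φ}) {t₁ t₂ : ℝ} {κ : Measure H} (h1 : 0 ≤ t₁) (h2 : 0 ≤ t₂)
    (hκ : PC H Φ E c k a t₁ t₂ κ) {n : ℕ} {σ : Rep H (Fin n)} {l : Fin r → ℤ}
    {U : Matrix (Fin n) (Fin n) ℂ} {μ : Fin n → Fin r → ℤ} {x : Fin n → ℤ} {m : ℕ}
    {τ : Fin m → Fin r → ℤ} (hσ : σ.Irr) (hp : PRep σ) (hl : HWR Φ Hc c k d σ l)
    (hS : WS Φ Hc E c k a σ U μ x τ) (θ : Fin r → ℝ) :
    PP κ (tt H Hc θ) σ.ch = ∑ s, ((Real.exp (-(2 * t₁ * ((rd Φ).Q l - (rd Φ).Q 1 - CL Φ a.1 (τ s)))) : ℝ) : ℂ) *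
      ∑ i ∈ Finset.range ((a.1.2 ⬝ᵥ τ s).toNat + 1),
        ((Real.exp (-(2 * t₂ * (CL Φ a.1 (τ s) - (rd Φ).Q (τ s - (i : ℤ) • a.1.1)))) : ℝ) : ℂ) *
          eu (dz (τ s - (i : ℤ) • a.1.1) θ) := by
  have hcs : CompactSpace H := isCompact_iff_compactSpace.1 hX.closed.isCompact
  have hκp : IsProbabilityMeasure κ := hκ.prob
  have hI := hX.lrd.ird
  have hW := hWF r Φ B hI
  have hK : (Matrix.of fun i j => ∫ y, σ.ρ y i j ∂κ) =
      U * Matrix.diagonal (fun j => ((Real.exp (-(ec Φ a.1 l t₁ t₂ (μ j) (x j))) : ℝ) : ℂ)) * Uᴴ := by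
    ext i j
    rw [Matrix.of_apply]
    exact hHM N H r Φ B Hc E c k d hX a t₁ t₂ κ h1 h2 hκ n σ l U μ x m τ hσ hp hl hS i j
  rw [PP_ch, hK, hS.wt.tor (tt H Hc θ) θ (by rw [tt_coe T]), trKDK hS.wt.ru]
  rw [hS.stg.str (fun m y => ((Real.exp (-(ec Φ a.1 l t₁ t₂ m y)) : ℝ) : ℂ) * eu (dz m θ) *
    ((Real.exp (-(ec Φ a.1 l t₁ t₂ m y)) : ℝ) : ℂ))]
  refine Finset.sum_congr rfl fun s _ => ?_
  rw [Finset.mul_sum]
  refine Finset.sum_congr rfl fun i _ => ?_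
  rw [ec_str hQ hI hW a.2]
  have e1 : Real.exp (-(2 * t₁ * ((rd Φ).Q l - (rd Φ).Q 1 - CL Φ a.1 (τ s)))) *
      Real.exp (-(2 * t₂ * (CL Φ a.1 (τ s) - (rd Φ).Q (τ s - (i : ℤ) • a.1.1)))) =
      Real.exp (-(t₁ * ((rd Φ).Q l - (rd Φ).Q 1 - CL Φ a.1 (τ s)) +
        t₂ * (CL Φ a.1 (τ s) - (rd Φ).Q (τ s - (i : ℤ) • a.1.1)))) *
      Real.exp (-(t₁ * ((rd Φ).Q l - (rd Φ).Q 1 - CL Φ a.1 (τ s)) +
        t₂ * (CL Φ a.1 (τ s) - (rd Φ).Q (τ s - (i : ℤ) • a.1.1)))) := by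
    rw [← Real.exp_add, ← Real.exp_add]
    congr 1
    ring
  have e2 := congrArg (Complex.ofReal : ℝ → ℂ) e1
  rw [Complex.ofReal_mul, Complex.ofReal_mul] at e2
  rw [← mul_assoc, e2]
  ring

/-- the case `t₂ = 0` -/
theorem PPz (hWF : S_WFAC) (hQ : S_QUAD) (hHM : S_HMC) (hX : CX H Φ B Hc E c k d)
    (T : TAF H Φ Hc E) (a : {p // p ∈ pos Φ}) {t₁ : ℝ} {κ : Measure H} (h1 : 0 ≤ t₁)
    (hκ : PC H Φ E c k a t₁ 0 κ) {n : ℕ} {σ : Rep H (Fin n)} {l : Fin r → ℤ}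
    {U : Matrix (Fin n) (Fin n) ℂ} {μ : Fin n → Fin r → ℤ} {x : Fin n → ℤ} {m : ℕ}
    {τ : Fin m → Fin r → ℤ} (hσ : σ.Irr) (hp : PRep σ) (hl : HWR Φ Hc c k d σ l)
    (hS : WS Φ Hc E c k a σ U μ x τ) (θ : Fin r → ℝ) :
    ((al a.1 θ : ℝ) : ℂ) * PP κ (tt H Hc θ) σ.ch =
      ∑ s, ((Real.exp (-(2 * t₁ * ((rd Φ).Q l - (rd Φ).Q 1 - CL Φ a.1 (τ s)))) : ℝ) : ℂ) *
        YY a.1 (τ s) θ := by
  rw [PPs hWF hQ hHM hX T a h1 le_rfl hκ hσ hp hl hS, Finset.mul_sum]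
  refine Finset.sum_congr rfl fun s _ => ?_
  have e : ∀ i ∈ Finset.range ((a.1.2 ⬝ᵥ τ s).toNat + 1),
      ((Real.exp (-(2 * 0 * (CL Φ a.1 (τ s) - (rd Φ).Q (τ s - (i : ℤ) • a.1.1)))) : ℝ) : ℂ) *
        eu (dz (τ s - (i : ℤ) • a.1.1) θ) = eu (dz (τ s - (i : ℤ) • a.1.1) θ) := by
    intro i _
    simp
  rw [Finset.sum_congr rfl e]
  unfold YY
  ring

/-- the heat flow of the case `t₂ = 0` -/
theorem PPh (hWF : S_WFAC) (hQ : S_QUAD) (hHM : S_HMC) (hX : CX H Φ B Hc E c k d)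
    (T : TAF H Φ Hc E) {z : Matrix (Fin r) (Fin r) ℝ} (hT : THF Φ z)
    (a : {p // p ∈ pos Φ}) {t₁ : ℝ} {κ : Measure H} (h1 : 0 ≤ t₁)
    (hκ : PC H Φ E c k a t₁ 0 κ) {n : ℕ} {σ : Rep H (Fin n)} {l : Fin r → ℤ}
    {U : Matrix (Fin n) (Fin n) ℂ} {μ : Fin n → Fin r → ℤ} {x : Fin n → ℤ} {m : ℕ}
    {τ : Fin m → Fin r → ℤ} (hσ : σ.Irr) (hp : PRep σ) (hl : HWR Φ Hc c k d σ l)
    (hS : WS Φ Hc E c k a σ U μ x τ) {v : ℝ} (hv : 0 ≤ v) (θ : Fin r → ℝ) :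
    ∫ ξ, ((al a.1 (θ + gy z v ξ) : ℝ) : ℂ) * PP κ (tt H Hc (θ + gy z v ξ)) σ.ch ∂(ga r) =
      ∑ s, ((Real.exp (-(2 * t₁ * ((rd Φ).Q l - (rd Φ).Q 1 - CL Φ a.1 (τ s)))) : ℝ) : ℂ) *
        (((Real.exp (-(v * (CL Φ a.1 (τ s) + (rd Φ).Q a.1.1 / 4))) : ℝ) : ℂ) * YY a.1 (τ s) θ) := by
  have hI := hX.lrd.ird
  have hW := hWF r Φ B hI
  have hh := fun s => YY_heat hQ hI hW hT a.2 (hS.stg.nn s) hv θ
  simp only [PPz hWF hQ hHM hX T a h1 hκ hσ hp hl hS]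
  rw [integral_finsetSum _ fun s _ => (hh s).1.const_mul _]
  refine Finset.sum_congr rfl fun s _ => ?_
  rw [integral_const_mul, (hh s).2]

/-- the first identity for a character -/
theorem main1 (hWF : S_WFAC) (hQ : S_QUAD) (hHM : S_HMC) (hX : CX H Φ B Hc E c k d)
    (T : TAF H Φ Hc E) {z : Matrix (Fin r) (Fin r) ℝ} (hT : THF Φ z)
    (a : {p // p ∈ pos Φ}) {t₁ t₂ : ℝ} {κ κ' : Measure H} (h1 : 0 ≤ t₁) (h2 : 0 ≤ t₂)
    (hκ : PC H Φ E c k a t₁ t₂ κ) (hκ' : PC H Φ E c k a t₁ 0 κ')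
    {n : ℕ} {σ : Rep H (Fin n)} {l : Fin r → ℤ}
    {U : Matrix (Fin n) (Fin n) ℂ} {μ : Fin n → Fin r → ℤ} {x : Fin n → ℤ} {m : ℕ}
    {τ : Fin m → Fin r → ℤ} (hσ : σ.Irr) (hp : PRep σ) (hl : HWR Φ Hc c k d σ l)
    (hS : WS Φ Hc E c k a σ U μ x τ) (θ : Fin r → ℝ) :
    ((al a.1 θ : ℝ) : ℂ) * ∫ ξ, PP κ (tt H Hc (θ + gy z (2 * t₂) ξ)) σ.ch ∂(ga r) =
      ((Real.exp (2 * t₂ * ((rd Φ).Q a.1.1 / 4)) : ℝ) : ℂ) *
        ∫ ξ, ((al a.1 (θ + gy z (2 * t₂) ξ) : ℝ) : ℂ) *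
          PP κ' (tt H Hc (θ + gy z (2 * t₂) ξ)) σ.ch ∂(ga r) := by
  have hv : 0 ≤ 2 * t₂ := by linarith
  rw [PPh hWF hQ hHM hX T hT a h1 hκ' hσ hp hl hS hv]
  have i1 : ∀ m : Fin r → ℤ, Integrable (fun ξ => eu (dz m (θ + gy z (2 * t₂) ξ))) (ga r) :=
    fun m => eu_int z (2 * t₂) θ (dz_cont m)
  simp only [PPs hWF hQ hHM hX T a h1 h2 hκ hσ hp hl hS]
  rw [integral_finsetSum _ fun s _ => (integrable_finsetSum _ fun i _ =>
    (i1 _).const_mul _).const_mul _, Finset.mul_sum, Finset.mul_sum]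
  refine Finset.sum_congr rfl fun s _ => ?_
  rw [integral_const_mul, integral_finsetSum _ fun i _ => (i1 _).const_mul _]
  have e : ∀ i ∈ Finset.range ((a.1.2 ⬝ᵥ τ s).toNat + 1),
      ∫ ξ, ((Real.exp (-(2 * t₂ * (CL Φ a.1 (τ s) - (rd Φ).Q (τ s - (i : ℤ) • a.1.1)))) : ℝ) : ℂ) *
        eu (dz (τ s - (i : ℤ) • a.1.1) (θ + gy z (2 * t₂) ξ)) ∂(ga r) =
      ((Real.exp (-(2 * t₂ * CL Φ a.1 (τ s))) : ℝ) : ℂ) * eu (dz (τ s - (i : ℤ) • a.1.1) θ) := by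
    intro i _
    rw [integral_const_mul, hT.expo _ hv, ← mul_assoc, ← Complex.ofReal_mul, ← Real.exp_add]
    congr 3
    ring
  rw [Finset.sum_congr rfl e, ← Finset.mul_sum]
  have e1 : Real.exp (-(2 * t₂ * CL Φ a.1 (τ s))) = Real.exp (2 * t₂ * ((rd Φ).Q a.1.1 / 4)) *
      Real.exp (-(2 * t₂ * (CL Φ a.1 (τ s) + (rd Φ).Q a.1.1 / 4))) := by
    rw [← Real.exp_add]
    congr 1
    ring
  rw [e1, Complex.ofReal_mul]
  unfold YY
  ring

/-- the second identity for a character -/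
theorem main2 (hWF : S_WFAC) (hQ : S_QUAD) (hHM : S_HMC) (hHF : S_HMF) (hX : CX H Φ B Hc E c k d)
    (T : TAF H Φ Hc E) {z : Matrix (Fin r) (Fin r) ℝ} (hT : THF Φ z)
    (a : {p // p ∈ pos Φ}) {t₁ : ℝ} {κ' ϖ : Measure H} (h1 : 0 < t₁)
    (hκ' : PC H Φ E c k a t₁ 0 κ') (hϖ : GM H c k d (2 * t₁) ϖ)
    {n : ℕ} {σ : Rep H (Fin n)} {l : Fin r → ℤ}
    {U : Matrix (Fin n) (Fin n) ℂ} {μ : Fin n → Fin r → ℤ} {x : Fin n → ℤ} {m : ℕ}
    {τ : Fin m → Fin r → ℤ} (hσ : σ.Irr) (hp : PRep σ) (hl : HWR Φ Hc c k d σ l)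
    (hS : WS Φ Hc E c k a σ U μ x τ) (θ : Fin r → ℝ) :
    ∫ ξ, ((al a.1 (θ + gy z (2 * t₁) ξ) : ℝ) : ℂ) *
        PP κ' (tt H Hc (θ + gy z (2 * t₁) ξ)) σ.ch ∂(ga r) =
      ((Real.exp (-(2 * t₁ * ((rd Φ).Q a.1.1 / 4))) : ℝ) : ℂ) *
        (((al a.1 θ : ℝ) : ℂ) * ∫ x, σ.ch (tt H Hc θ * x) ∂ϖ) := by
  have hcs : CompactSpace H := isCompact_iff_compactSpace.1 hX.closed.isCompact
  have hv : 0 < 2 * t₁ := by linarith
  rw [PPh hWF hQ hHM hX T hT a h1.le hκ' hσ hp hl hS hv.le]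
  obtain ⟨X, hXF, hXH⟩ := id hϖ
  have hϖp : IsProbabilityMeasure ϖ := hXH.prob
  have hK : (Matrix.of fun i j => ∫ y, σ.ρ y i j ∂ϖ) =
      ((Real.exp (-(2 * t₁ * (((rd Φ).Q l : ℝ) - (rd Φ).Q 1))) : ℝ) : ℂ) •
        (1 : Matrix (Fin n) (Fin n) ℂ) := by
    ext i j
    rw [Matrix.of_apply, hHF N H r Φ B Hc E c k d hX (2 * t₁) ϖ hv hϖ n σ l hσ hp hl i j,
      Matrix.smul_apply, Matrix.one_apply, smul_eq_mul, mul_ite, mul_one, mul_zero]
  have hch : ∫ x, σ.ch (tt H Hc θ * x) ∂ϖ =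
      ((Real.exp (-(2 * t₁ * (((rd Φ).Q l : ℝ) - (rd Φ).Q 1))) : ℝ) : ℂ) * σ.ch (tt H Hc θ) := by
    have e : ∀ x, σ.ch (tt H Hc θ * x) = (σ.ρ (tt H Hc θ) * σ.ρ x * 1).trace := by
      intro x
      rw [Rep.ch, map_mul, Matrix.mul_one]
    simp only [e]
    rw [int_tr ϖ (fun x => σ.ρ x) (fun i j =>
      (σ.cont.matrix_elem i j).integrable_of_hasCompactSupport (HasCompactSupport.of_compactSpace _)),
      hK, Matrix.mul_one, Matrix.mul_smul, Matrix.mul_one, Matrix.trace_smul, smul_eq_mul]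
    rfl
  have hY : ((al a.1 θ : ℝ) : ℂ) * σ.ch (tt H Hc θ) = ∑ s, YY a.1 (τ s) θ := by
    have e1 : σ.ch (tt H Hc θ) = ∑ j, eu (dz (μ j) θ) := by
      rw [Rep.ch, hS.wt.tor (tt H Hc θ) θ (by rw [tt_coe T]), Matrix.trace_mul_comm,
        ← Matrix.mul_assoc, hS.wt.ru, Matrix.one_mul, Matrix.trace_diagonal]
    rw [e1, hS.stg.str (fun m _ => eu (dz m θ)), Finset.mul_sum]
    rfl
  rw [hch, mul_left_comm ((al a.1 θ : ℝ) : ℂ), hY, Finset.mul_sum, Finset.mul_sum]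
  refine Finset.sum_congr rfl fun s _ => ?_
  rw [← mul_assoc, ← mul_assoc, ← Complex.ofReal_mul, ← Complex.ofReal_mul, ← Real.exp_add,
    ← Real.exp_add]
  congr 3
  ring

end Rps

theorem PP_real {G : Type} [Group G] [MeasurableSpace G] (κ : Measure G) (g : G) (φ : G → ℝ) :
    PP κ g (fun x => ((φ x : ℝ) : ℂ)) = ((∫ y, ∫ y', φ (y * g * y') ∂κ ∂κ : ℝ) : ℂ) := by
  unfold PP
  simp only [integral_complex_ofReal]

theorem TH_real {r : ℕ} (z : Matrix (Fin r) (Fin r) ℝ) (s : ℝ) (f : (Fin r → ℝ) → ℝ)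
    (θ : Fin r → ℝ) : ((TH z s f θ : ℝ) : ℂ) = ∫ ξ, ((f (θ + gy z s ξ) : ℝ) : ℂ) ∂(ga r) := by
  unfold TH
  rw [integral_complex_ofReal]

end GTI

theorem t_GTI : M_GTI := by
  intro hLB hWF hQ hTA hPF hDC hNR hHF hST hHM hTG N H r Φ B Hc E c k d hX z hz a t₁ t₂ κ κ' ϖ
    h1 h2 hκ hκ' hϖ φ hφ hcφ
  have hcs : CompactSpace H := isCompact_iff_compactSpace.1 hX.closed.isCompact
  have hsc : SecondCountableTopology H :=
    TopologicalSpace.Subtype.secondCountableTopology (H : Set (SU N))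
  have T : TAF H Φ Hc E := hTA N H r Φ B Hc E hX.closed hX.lrd
  have hI := hX.lrd.ird
  have hW := hWF r Φ B hI
  have hT : THF Φ z := hTG r Φ B hX.one_le hI hW z hz
  have htc : Continuous (tt H Hc) := GTI.tt_cont T
  have hκp : IsProbabilityMeasure κ := hκ.prob
  have hκp' : IsProbabilityMeasure κ' := hκ'.prob
  have hϖp : IsProbabilityMeasure ϖ := hϖ.choose_spec.2.prob
  obtain ⟨X, hXF⟩ := hX.frame
  have hφc : Continuous fun x => ((φ x : ℝ) : ℂ) := Complex.continuous_ofReal.comp hφ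
  have hcl : ∀ g h : H, ((φ (h * g * h⁻¹) : ℝ) : ℂ) = ((φ g : ℝ) : ℂ) := by
    intro g h
    rw [hcφ]
  have hrep : ∀ (n : ℕ) (σ : Rep H (Fin n)), σ.Irr → PRep σ → ∃ (l : Fin r → ℤ)
      (U : Matrix (Fin n) (Fin n) ℂ) (μ : Fin n → Fin r → ℤ) (x : Fin n → ℤ) (m : ℕ)
      (τ : Fin m → Fin r → ℤ), HWR Φ Hc c k d σ l ∧ WS Φ Hc E c k a σ U μ x τ := by
    intro n σ hσ hp
    obtain ⟨l, hl⟩ := hNR N H r Φ B Hc E c k d X hX.one_le hX.closed hX.conn hX.lrd hX.kc hXF n σ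
      hσ hp
    obtain ⟨U, μ, x, m, τ, hS⟩ := hST N H r Φ B Hc E c k d hX a n σ hp
    exact ⟨l, U, μ, x, m, τ, hl, hS⟩
  -- the functionals
  have bW : ∀ (s : ℝ) (θ : Fin r → ℝ) (ν : Measure H) [IsProbabilityMeasure ν]
      (g : (Fin r → ℝ) → ℂ), Continuous g → (∀ θ, ‖g θ‖ ≤ 1) →
      GTI.BL (fun f : H → ℂ => ∫ ξ, g (θ + gy z s ξ) *
        GTI.PP ν (tt H Hc (θ + gy z s ξ)) f ∂(ga r)) 1 := by
    intro s θ ν _ g hg hg1
    have hyc : Continuous fun ξ => θ + gy z s ξ := continuous_const.add (GTI.gy_cont z s)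
    refine GTI.BL.int (ga r) (fun ξ => ((GTI.PP_BL ν _).mul _).mono ?_) ?_
    · rw [mul_one]
      exact hg1 _
    · intro f hf
      exact ((hg.comp hyc).mul ((GTI.PP_cont ν hf).comp (htc.comp hyc))).aestronglyMeasurable
  have hal : Continuous fun θ => ((al a.1 θ : ℝ) : ℂ) :=
    Complex.continuous_ofReal.comp (GTI.al_cont a.1)
  refine ⟨fun θ => ?_, fun θ => ?_⟩
  · have b1 := (bW (2 * t₂) θ κ (fun _ => 1) continuous_const (fun _ => by simp)).mul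
      ((al a.1 θ : ℝ) : ℂ)
    have b2 := (bW (2 * t₂) θ κ' _ hal (fun θ => GTI.al_le a.1 θ)).mul
      ((Real.exp (2 * t₂ * ((rd Φ).Q a.1.1 / 4)) : ℝ) : ℂ)
    have key := GTI.dens hDC hX.closed (b1.sub b2) (fun n σ hσ hp => by
      obtain ⟨l, U, μ, x, m, τ, hl, hS⟩ := hrep n σ hσ hp
      simp only [one_mul]
      exact sub_eq_zero.2 (GTI.main1 hWF hQ hHM hX T hT a h1.le h2 hκ hκ' hσ hp hl hS θ))
      _ hφc hcl
    have k2 := sub_eq_zero.1 key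
    apply Complex.ofReal_injective
    rw [Complex.ofReal_mul, Complex.ofReal_mul, GTI.TH_real, GTI.TH_real]
    simp only [one_mul, GTI.PP_real] at k2
    simp only [Complex.ofReal_mul]
    exact k2
  · have b1 := bW (2 * t₁) θ κ' _ hal (fun θ => GTI.al_le a.1 θ)
    have b3 : GTI.BL (fun f : H → ℂ => ∫ x, f (tt H Hc θ * x) ∂ϖ) 1 :=
      GTI.BL.int ϖ (fun x => GTI.BL.ev (tt H Hc θ * x))
        (fun f hf => (hf.comp (continuous_const.mul continuous_id)).aestronglyMeasurable)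
    have b2 := (b3.mul ((al a.1 θ : ℝ) : ℂ)).mul
      ((Real.exp (-(2 * t₁ * ((rd Φ).Q a.1.1 / 4))) : ℝ) : ℂ)
    have key := GTI.dens hDC hX.closed (b1.sub b2) (fun n σ hσ hp => by
      obtain ⟨l, U, μ, x, m, τ, hl, hS⟩ := hrep n σ hσ hp
      exact sub_eq_zero.2 (GTI.main2 hWF hQ hHM hHF hX T hT a h1 hκ' hϖ hσ hp hl hS θ))
      _ hφc hcl
    have k2 := sub_eq_zero.1 key
    apply Complex.ofReal_injective
    rw [Complex.ofReal_mul, Complex.ofReal_mul, GTI.TH_real]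
    simp only [GTI.PP_real, integral_complex_ofReal] at k2
    simp only [Complex.ofReal_mul]
    rw [integral_complex_ofReal] at *
    exact k2

end

end STZ3
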