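import Pool.Agent.STZ3.StP
import Pool.Agent.LGR.CHIF
import Pool.Agent.LGR.TPOL

/-!
# HKM: the heat kernel is the density of the heat measure
-/

namespace STZ3

open STZ LGR MeasureTheory Matrix Filter

open scoped ComplexConjugate Matrix Real Topology

noncomputable section

namespace HKM

section basics

variable {G : Type} [Group G] [TopologicalSpace G] {ι : Type} [Fintype ι] [DecidableEq ι]

/-- the complex conjugate representation -/
def cjR (R : Rep G ι) : Rep G ι where
  ρ :=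
    { toFun := fun g => (R.ρ g).map (starRingEnd ℂ)
      map_one' := by
        rw [map_one]
        exact Matrix.map_one _ (map_zero _) (map_one _)
      map_mul' := fun g h => by
        rw [map_mul, Matrix.map_mul] }
  cont := by
    refine continuous_pi fun i => continuous_pi fun j => ?_
    exact Complex.continuous_conj.comp
      ((continuous_apply j).comp ((continuous_apply i).comp R.cont))
  unit := fun g => by
    show (R.ρ g⁻¹).map (starRingEnd ℂ) = ((R.ρ g).map (starRingEnd ℂ))ᴴ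
    rw [R.unit]
    rfl

lemma cjR_apply (R : Rep G ι) (g : G) (i j : ι) : (cjR R).ρ g i j = conj (R.ρ g i j) := rfl

lemma cjR_ch (R : Rep G ι) (g : G) : (cjR R).ch g = conj (R.ch g) := by
  unfold Rep.ch Matrix.trace
  rw [map_sum]
  rfl

lemma cjR_irr {R : Rep G ι} (h : R.Irr) : (cjR R).Irr := by
  refine ⟨h.1, fun X hX => ?_⟩
  have h1 : ∀ g, X.map (starRingEnd ℂ) * R.ρ g = R.ρ g * X.map (starRingEnd ℂ) := by
    intro g
    have h2 := congrArg (fun Y : Matrix ι ι ℂ => Y.map (starRingEnd ℂ)) (hX g)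
    simp only [Matrix.map_mul] at h2
    have h3 : ((cjR R).ρ g).map (starRingEnd ℂ) = R.ρ g := by
      ext i j
      rw [Matrix.map_apply, cjR_apply, Complex.conj_conj]
    rw [h3] at h2
    exact h2
  obtain ⟨c, hc⟩ := h.2 _ h1
  refine ⟨conj c, ?_⟩
  ext i j
  have h2 := congrFun (congrFun hc i) j
  rw [Matrix.map_apply, Matrix.smul_apply, smul_eq_mul] at h2
  have h3 := congrArg (starRingEnd ℂ) h2
  rw [Complex.conj_conj, map_mul] at h3
  rw [h3, Matrix.smul_apply, smul_eq_mul]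
  congr 1
  by_cases hij : i = j
  · subst hij
    simp
  · simp [hij]

lemma ent_le (R : Rep G ι) (g : G) (i j : ι) : ‖R.ρ g i j‖ ≤ 1 := by
  have h1 : R.ρ g * (R.ρ g)ᴴ = 1 := by
    rw [← R.unit, ← map_mul, mul_inv_cancel, map_one]
  have h2 := congrFun (congrFun h1 i) i
  rw [Matrix.mul_apply, Matrix.one_apply_eq] at h2
  have h3 : ∑ j, ((‖R.ρ g i j‖ ^ 2 : ℝ) : ℂ) = 1 := by
    rw [← h2]
    refine Finset.sum_congr rfl fun j _ => ?_
    rw [Matrix.conjTranspose_apply, Complex.star_def, Complex.mul_conj, Complex.normSq_eq_norm_sq]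
  have h4 : ∑ j, ‖R.ρ g i j‖ ^ 2 = 1 := by exact_mod_cast h3
  have h5 : ‖R.ρ g i j‖ ^ 2 ≤ 1 := by
    rw [← h4]
    exact Finset.single_le_sum (f := fun j => ‖R.ρ g i j‖ ^ 2) (fun _ _ => sq_nonneg _)
      (Finset.mem_univ j)
  exact (sq_le_one_iff₀ (norm_nonneg _)).1 h5

lemma ch_one (R : Rep G ι) : R.ch 1 = (Fintype.card ι : ℂ) := by
  unfold Rep.ch
  rw [map_one, Matrix.trace_one]

lemma ch_le (R : Rep G ι) (g : G) : ‖R.ch g‖ ≤ ‖R.ch 1‖ := by
  rw [ch_one]
  unfold Rep.ch Matrix.trace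
  refine (norm_sum_le _ _).trans ?_
  have h1 : ∀ i ∈ (Finset.univ : Finset ι), ‖(R.ρ g).diag i‖ ≤ 1 := fun i _ => ent_le R g i i
  refine (Finset.sum_le_sum h1).trans ?_
  simp

lemma ent_cont (R : Rep G ι) (i j : ι) : Continuous fun g => R.ρ g i j := R.cont.matrix_elem i j

end basics

/-- Schur: the integral of an entry against an irreducible character -/
lemma int_ent {G : Type} [Group G] [TopologicalSpace G] [IsTopologicalGroup G]
    [CompactSpace G] [T2Space G] [SecondCountableTopology G] [MeasurableSpace G] [BorelSpace G]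
    (hS : S_SCHUR) (μ : Measure G) [IsProbabilityMeasure μ] [μ.IsMulLeftInvariant] {n n' : ℕ}
    {σ : Rep G (Fin n)} {τ : Rep G (Fin n')} (hσ : σ.Irr) (hτ : τ.Irr) (p q : Fin n) :
    ((∀ g, σ.ch g = conj (τ.ch g)) → ∫ x, σ.ρ x p q * τ.ch x ∂μ = if p = q then 1 / (n : ℂ) else 0) ∧
    (¬ (∀ g, σ.ch g = conj (τ.ch g)) → ∫ x, σ.ρ x p q * τ.ch x ∂μ = 0) := by
  obtain ⟨s1, s2⟩ := hS G μ (Fin n) σ hσ
  have hint : ∀ f : G → ℂ, Continuous f → Integrable f μ := fun f hf =>
    hf.integrable_of_hasCompactSupport (HasCompactSupport.of_compactSpace _)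
  refine ⟨fun h => ?_, fun h => ?_⟩
  · have e : (fun x => σ.ρ x p q * τ.ch x) = fun x => ∑ a, σ.ρ x p q * conj (σ.ρ x a a) := by
      funext x
      rw [← Finset.mul_sum, ← map_sum]
      congr 1
      have h1 := congrArg (starRingEnd ℂ) (h x)
      rw [Complex.conj_conj] at h1
      exact h1.symm
    have hi : ∀ a ∈ (Finset.univ : Finset (Fin n)),
        Integrable (fun x => σ.ρ x p q * conj (σ.ρ x a a)) μ := fun a _ => hint _
      ((ent_cont σ p q).mul (Complex.continuous_conj.comp (ent_cont σ a a)))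
    rw [e, integral_finset_sum _ hi]
    have e2 : ∀ a, ∫ x, σ.ρ x p q * conj (σ.ρ x a a) ∂μ =
        if p = a ∧ q = a then 1 / (n : ℂ) else 0 := by
      intro a
      rw [s1 p q a a, Fintype.card_fin]
    simp only [e2]
    by_cases hpq : p = q
    · subst hpq
      rw [if_pos rfl, Finset.sum_eq_single p]
      · rw [if_pos ⟨rfl, rfl⟩]
      · intro b _ hb
        rw [if_neg (fun h => hb h.1.symm)]
      · intro hb
        exact absurd (Finset.mem_univ _) hb
    · rw [if_neg hpq]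
      refine Finset.sum_eq_zero fun a _ => ?_
      rw [if_neg]
      rintro ⟨rfl, h2⟩
      exact hpq h2.symm
  · rcases s2 (Fin n') (cjR τ) (cjR_irr hτ) with h1 | h1
    · exact absurd (fun g => (h1 g).trans (cjR_ch τ g)) h
    · have e : (fun x => σ.ρ x p q * τ.ch x) =
          fun x => ∑ a, σ.ρ x p q * conj ((cjR τ).ρ x a a) := by
        funext x
        rw [← Finset.mul_sum]
        congr 1
        unfold Rep.ch Matrix.trace
        refine Finset.sum_congr rfl fun a _ => ?_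
        rw [cjR_apply, Complex.conj_conj]
        rfl
      have hi : ∀ a ∈ (Finset.univ : Finset (Fin n')),
          Integrable (fun x => σ.ρ x p q * conj ((cjR τ).ρ x a a)) μ := fun a _ => hint _
        ((ent_cont σ p q).mul (Complex.continuous_conj.comp (ent_cont (cjR τ) a a)))
      rw [e, integral_finset_sum _ hi]
      exact Finset.sum_eq_zero fun a _ => h1 p q a a

section group

variable {N : ℕ} {H : Subgroup (SU N)}

lemma dH_conj (X : MT N) (f : H → ℂ) : dH X (fun g => conj (f g)) = fun g => conj (dH X f g) := by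
  funext g
  unfold dH
  exact deriv.star

lemma lapH_conj {d : ℕ} (X : Fin d → MT N) (f : H → ℂ) (g : H) :
    lapH X (fun g => conj (f g)) g = conj (lapH X f g) := by
  unfold lapH
  rw [map_sum]
  refine Finset.sum_congr rfl fun a _ => ?_
  rw [dH_conj, dH_conj]

lemma Q_eq {r : ℕ} {Φ : RT r} {Hc : Fin r → MT N} {c k : ℝ} {d : ℕ} (hk : 0 < k)
    {X : Fin d → MT N} (hX : FrameH H c X) {n : ℕ} {σ : Rep H (Fin n)} (hσ : σ.Irr)
    {l l' : Fin r → ℤ} (h : HWR Φ Hc c k d σ l) (h' : HWR Φ Hc c k d (cjR σ) l') :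
    ((rd Φ).Q l' : ℝ) = (rd Φ).Q l := by
  have e1 := (h.eig X hX).2.2 1
  have e2 := (h'.eig X hX).2.2 1
  have hch : (cjR σ).ch = fun g => conj (σ.ch g) := funext fun g => cjR_ch σ g
  rw [hch, lapH_conj, e1] at e2
  beta_reduce at e2
  have hn : σ.ch 1 = (n : ℂ) := by rw [ch_one, Fintype.card_fin]
  have hn0 : (n : ℂ) ≠ 0 := by
    obtain ⟨i⟩ := hσ.1
    have : 0 < n := i.pos
    exact_mod_cast this.ne'
  rw [hn, map_mul, map_neg, Complex.conj_ofReal, Complex.conj_natCast] at e2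
  have e3 := neg_injective (mul_right_cancel₀ hn0 e2)
  have e4 : k * (((rd Φ).Q l : ℝ) - (rd Φ).Q 1) = k * (((rd Φ).Q l' : ℝ) - (rd Φ).Q 1) := by
    exact_mod_cast e3
  have e5 := mul_left_cancel₀ hk.ne' e4
  linarith

end group

/-- a nonnegative continuous function with integral `0` is `0` -/
lemma zero_of_sq {G : Type} [TopologicalSpace G] [CompactSpace G] [MeasurableSpace G] [BorelSpace G]
    (μ : Measure G) [IsProbabilityMeasure μ] [μ.IsOpenPosMeasure] {u : G → ℝ} (hu : Continuous u)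
    (h : ∫ x, u x * u x ∂μ ≤ 0) (x : G) : u x = 0 := by
  have hc : Continuous fun x => u x * u x := hu.mul hu
  have hi : Integrable (fun x => u x * u x) μ :=
    hc.integrable_of_hasCompactSupport (HasCompactSupport.of_compactSpace _)
  have h0 : ∫ x, u x * u x ∂μ = 0 := le_antisymm h (integral_nonneg fun x => mul_self_nonneg _)
  rw [integral_eq_zero_iff_of_nonneg (fun x => mul_self_nonneg _) hi] at h0
  have h2 : (fun x => u x * u x) = 0 := (Continuous.ae_eq_iff_eq μ hc continuous_const).mp h0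
  exact mul_self_eq_zero.1 (congrFun h2 x)

end HKM

open HKM

theorem t_HKM : M_HKM := by
  intro hHA hSC hLI _ _ hTA hCJ hDN hRV hAT hPF _ _ _ hNR hUN hEX hHM hHK
    N H r Φ B Hc E c k d hCX μ _ _ χ hχ s hs
  have hcl := hCX.closed
  have hcn := hCX.conn
  have hL := hCX.lrd
  have hKC := hCX.kc
  obtain ⟨X, hX⟩ := hCX.frame
  have hV : RV (rd Φ) (pos Φ) := hRV r Φ B hCX.one_le hL.ird
  have hA : ATV (rd Φ) (pos Φ) := hAT r (rd Φ) (pos Φ) hV
  have hT : TAF H Φ Hc E := hTA N H r Φ B Hc E hcl hL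
  have hcs : CompactSpace H := isCompact_iff_compactSpace.1 hcl.isCompact
  have hsc : SecondCountableTopology H :=
    TopologicalSpace.Subtype.secondCountableTopology (H : Set (SU N))
  have hdr := CHIF.dense_reg hDN hV hA
  have hDd : Dense (CHIF.DN H (rd Φ) Hc) :=
    CHIF.dense_DN hT.mem hT.cont hdr (hCJ N H r Φ B Hc E hcl hcn hL)
  obtain ⟨kc, ks, -⟩ := hHK N H r Φ B Hc E c k d hCX χ hχ
  have hint : ∀ f : H → ℂ, Continuous f → Integrable f μ := fun f hf =>
    hf.integrable_of_hasCompactSupport (HasCompactSupport.of_compactSpace _)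
  have hkc : Continuous (hk Φ χ s) := kc s hs
  -- different indices, different characters
  have hinj : ∀ a b : IX Hc, (∀ g, χ a g = χ b g) → a = b := by
    intro a b hab
    obtain ⟨n, σ, -, -, h1, h2⟩ := hχ a
    obtain ⟨n', σ', -, -, h1', h2'⟩ := hχ b
    refine Subtype.ext (CHIF.wG_inj (CHIF.at_inj t_TPOL hV.W_one hV.free (CHIF.reg_wG _)
      (CHIF.reg_wG _) fun θ => ?_))
    have e1 := h1.wcf ⟨ta Hc θ, hT.mem θ⟩ θ rfl
    have e2 := h1'.wcf ⟨ta Hc θ, hT.mem θ⟩ θ rfl
    rw [← e1, ← e2, h2, h2', hab]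
  have hcount : Countable (IX Hc) := by unfold IX; infer_instance
  have hχc : ∀ i, Continuous (χ i) := by
    intro i
    obtain ⟨n, σ, -, -, -, h2⟩ := hχ i
    have : χ i = σ.ch := funext fun g => (h2 g).symm
    rw [this]
    exact CHIF.ch_cont σ
  -- the integrals of the entries
  have hent : ∀ (n : ℕ) (σ : Rep H (Fin n)) (l : Fin r → ℤ), σ.Irr → PRep σ →
      HWR Φ Hc c k d σ l → ∀ p q, ∫ x, σ.ρ x p q * hk Φ χ s x ∂μ =
        if p = q then ((Real.exp (-(s * (((rd Φ).Q l : ℝ) - (rd Φ).Q 1))) : ℝ) : ℂ) else 0 := by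
    intro n σ l hσ hσp hl p q
    set e : IX Hc → ℂ := fun i =>
      ((Real.exp (-(s * (((rd Φ).Q (wG i.1) : ℝ) - (rd Φ).Q 1))) : ℝ) : ℂ) with he
    have hi : ∀ i, Integrable (fun x => σ.ρ x p q * (e i * (χ i 1 * χ i x))) μ := fun i =>
      hint _ ((ent_cont σ p q).mul (continuous_const.mul (continuous_const.mul (hχc i))))
    have hb : ∀ i, ∫ x, ‖σ.ρ x p q * (e i * (χ i 1 * χ i x))‖ ∂μ ≤ ‖e i * (χ i 1 * χ i 1)‖ := by
      intro i
      have h1 : ∀ x, ‖σ.ρ x p q * (e i * (χ i 1 * χ i x))‖ ≤ ‖e i * (χ i 1 * χ i 1)‖ := by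
        intro x
        obtain ⟨n', τ, -, -, -, h2⟩ := hχ i
        rw [norm_mul, norm_mul, norm_mul, norm_mul, norm_mul]
        have h3 : ‖χ i x‖ ≤ ‖χ i 1‖ := by
          rw [← h2, ← h2]
          exact ch_le τ x
        have h4 := ent_le σ x p q
        calc ‖σ.ρ x p q‖ * (‖e i‖ * (‖χ i 1‖ * ‖χ i x‖))
            ≤ 1 * (‖e i‖ * (‖χ i 1‖ * ‖χ i 1‖)) := by gcongr
          _ = ‖e i‖ * (‖χ i 1‖ * ‖χ i 1‖) := one_mul _
      refine (integral_mono (hi i).norm (integrable_const _) h1).trans ?_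
      simp
    have hsum : Summable fun i => ∫ x, ‖σ.ρ x p q * (e i * (χ i 1 * χ i x))‖ ∂μ :=
      Summable.of_nonneg_of_le (fun i => integral_nonneg fun x => norm_nonneg _) hb (ks s hs 1)
    have hex := integral_tsum_of_summable_integral_norm hi hsum
    have htm : (fun x => ∑' i, σ.ρ x p q * (e i * (χ i 1 * χ i x))) =
        fun x => σ.ρ x p q * hk Φ χ s x := by
      funext x
      rw [tsum_mul_left]
      rfl
    rw [htm] at hex
    rw [← hex]
    -- the index of the conjugate representation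
    have hσp' : PRep (cjR σ) := fun i j => (hPF N H hcl).cj _ (hσp i j)
    obtain ⟨l', hl'⟩ := hNR N H r Φ B Hc E c k d X hCX.one_le hcl hcn hL hKC hX n (cjR σ)
      (cjR_irr hσ) hσp'
    have hw := CHIF.wG_un hl'.reg
    have htr : ∀ z : Fin r → ℝ, ta Hc z = 1 → eu (dz (wG (CHIF.un l') - 1) z) = 1 := by
      intro z hz
      rw [hw]
      exact hl'.triv z hz
    set i₀ : IX Hc := ⟨CHIF.un l', htr⟩ with hi₀
    have hχ0 : ∀ g, χ i₀ g = conj (σ.ch g) := by
      intro g
      obtain ⟨n', σ', -, -, h1, h2⟩ := hχ i₀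
      have h3 : HWR Φ Hc c k d σ' l' := by
        have h4 := h1
        rw [hi₀] at h4
        change HWR Φ Hc c k d σ' (wG (CHIF.un l')) at h4
        rw [hw] at h4
        exact h4
      rw [← h2, CHIF.ch_eq hDd h3 hl' g, cjR_ch]
    have hval : ∀ i, ∫ x, σ.ρ x p q * (e i * (χ i 1 * χ i x)) ∂μ =
        e i * χ i 1 * ∫ x, σ.ρ x p q * χ i x ∂μ := by
      intro i
      rw [← integral_const_mul]
      refine integral_congr_ae (ae_of_all _ fun x => ?_)
      show σ.ρ x p q * (e i * (χ i 1 * χ i x)) = e i * χ i 1 * (σ.ρ x p q * χ i x)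
      ring
    have hne : ∀ i, i ≠ i₀ → ∫ x, σ.ρ x p q * (e i * (χ i 1 * χ i x)) ∂μ = 0 := by
      intro i hii
      obtain ⟨n', τ, hτ, -, -, h2⟩ := hχ i
      rw [hval i]
      have h3 : (fun x => σ.ρ x p q * χ i x) = fun x => σ.ρ x p q * τ.ch x := by
        funext x
        rw [h2]
      rw [h3, (int_ent hSC μ hσ hτ p q).2, mul_zero]
      intro hcon
      refine hii (hinj i i₀ fun g => ?_)
      rw [hχ0, hcon g, Complex.conj_conj, h2]
    rw [tsum_eq_single i₀ hne, hval i₀]
    have h0 : ∫ x, σ.ρ x p q * χ i₀ x ∂μ = if p = q then 1 / (n : ℂ) else 0 := by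
      obtain ⟨n', τ, hτ, -, -, h2⟩ := hχ i₀
      have h3 : (fun x => σ.ρ x p q * χ i₀ x) = fun x => σ.ρ x p q * τ.ch x := by
        funext x
        rw [h2]
      rw [h3]
      refine (int_ent hSC μ hσ hτ p q).1 fun g => ?_
      rw [h2, hχ0, Complex.conj_conj]
    have hn0 : (n : ℂ) ≠ 0 := by
      obtain ⟨i⟩ := hσ.1
      have : 0 < n := i.pos
      exact_mod_cast this.ne'
    have hχ1 : χ i₀ 1 = (n : ℂ) := by
      rw [hχ0, ch_one, Fintype.card_fin, Complex.conj_natCast]
    have he0 : e i₀ = ((Real.exp (-(s * (((rd Φ).Q l : ℝ) - (rd Φ).Q 1))) : ℝ) : ℂ) := by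
      have h1 : e i₀ = ((Real.exp (-(s * (((rd Φ).Q (wG (CHIF.un l')) : ℝ) -
        (rd Φ).Q 1))) : ℝ) : ℂ) := rfl
      rw [h1, hw, Q_eq hKC.kpos hX hσ hl hl']
    rw [h0, hχ1, he0]
    split_ifs with hpq
    · field_simp
    · ring
  -- the identity of the measures
  have hmain : ∀ ϖ : Measure H, GM H c k d s ϖ → ∀ f : H → ℂ, Continuous f →
      ∫ x, f x ∂ϖ = ∫ x, f x * hk Φ χ s x ∂μ := by
    intro ϖ hϖ f hf
    have hprob : IsProbabilityMeasure ϖ := by
      obtain ⟨X', hX', h⟩ := hϖ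
      exact h.prob
    have hintϖ : ∀ f : H → ℂ, Continuous f → Integrable f ϖ := fun f hf =>
      hf.integrable_of_hasCompactSupport (HasCompactSupport.of_compactSpace _)
    have hU := hUN N H hcl (fun f => ∫ x, f x ∂ϖ - ∫ x, f x * hk Φ χ s x ∂μ)
      (1 + ∫ x, ‖hk Φ χ s x‖ ∂μ) ?_ ?_ ?_ ?_ f hf
    · exact sub_eq_zero.1 hU
    · intro f g hf hg
      have e1 : (fun x => (f x + g x) * hk Φ χ s x) =
          fun x => f x * hk Φ χ s x + g x * hk Φ χ s x := by
        funext x
        ring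
      rw [e1, integral_add (hintϖ f hf) (hintϖ g hg),
        integral_add (hint (fun x => f x * hk Φ χ s x) (hf.mul hkc))
          (hint (fun x => g x * hk Φ χ s x) (hg.mul hkc))]
      ring
    · intro a f hf
      have e1 : (fun x => a * f x * hk Φ χ s x) = fun x => a * (f x * hk Φ χ s x) := by
        funext x
        ring
      rw [e1, integral_const_mul, integral_const_mul]
      ring
    · intro f M hf hM
      have h1 : ‖∫ x, f x ∂ϖ‖ ≤ M := by
        have := norm_integral_le_of_norm_le_const (μ := ϖ) (ae_of_all _ hM)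
        simpa using this
      have h2 : ‖∫ x, f x * hk Φ χ s x ∂μ‖ ≤ M * ∫ x, ‖hk Φ χ s x‖ ∂μ := by
        refine (norm_integral_le_integral_norm _).trans ?_
        rw [← integral_const_mul]
        refine integral_mono (hint (fun x => f x * hk Φ χ s x) (hf.mul hkc)).norm
          ((hint _ hkc).norm.const_mul M) fun x => ?_
        show ‖f x * hk Φ χ s x‖ ≤ M * ‖hk Φ χ s x‖
        rw [norm_mul]
        exact mul_le_mul_of_nonneg_right (hM x) (norm_nonneg _)
      refine (norm_sub_le _ _).trans ((add_le_add h1 h2).trans (le_of_eq ?_))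
      ring
    · intro n σ hσ hσp i j
      obtain ⟨l, hl⟩ := hNR N H r Φ B Hc E c k d X hCX.one_le hcl hcn hL hKC hX n σ hσ hσp
      rw [hHM N H r Φ B Hc E c k d hCX s ϖ hs hϖ n σ l hσ hσp hl i j, hent n σ l hσ hσp hl i j,
        sub_self]
  refine ⟨?_, hmain⟩
  obtain ⟨ϖ, hϖ⟩ := hEX N H hcl (Fin d) (fun a => ((√(s / k) : ℝ) : ℂ) • X a)
    (fun a => (hLI N H hcl).smul _ _ (hX.mem a))
  have hGM : GM H c k d s ϖ := ⟨X, hX, hϖ⟩
  have hprob : IsProbabilityMeasure ϖ := hϖ.prob
  have hpos : μ.IsOpenPosMeasure := (hHA H μ).2.2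
  have him : ∀ x, (hk Φ χ s x).im = 0 := by
    have hc : Continuous fun x => (hk Φ χ s x).im := Complex.continuous_im.comp hkc
    refine zero_of_sq μ hc (le_of_eq ?_)
    have hcf : Continuous fun x => (((hk Φ χ s x).im : ℝ) : ℂ) := Complex.continuous_ofReal.comp hc
    have h1 := hmain ϖ hGM _ hcf
    have h2 := congrArg Complex.im h1
    rw [integral_complex_ofReal, Complex.ofReal_im] at h2
    have h3 := integral_im (𝕜 := ℂ)
      (hint (fun x => (((hk Φ χ s x).im : ℝ) : ℂ) * hk Φ χ s x) (hcf.mul hkc))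
    have h4 : ∀ z : ℂ, RCLike.im (((z.im : ℝ) : ℂ) * z) = z.im * z.im := fun z => by
      show ((((z.im : ℝ) : ℂ)) * z).im = z.im * z.im
      simp
    simp only [h4] at h3
    rw [h3]
    exact h2.symm
  intro x
  refine ⟨him x, ?_⟩
  have hreal : ∀ x, hk Φ χ s x = (((hk Φ χ s x).re : ℝ) : ℂ) := fun x =>
    Complex.ext (by simp) (by rw [him x]; simp)
  set v : H → ℝ := fun x => (hk Φ χ s x).re with hv
  have hvc : Continuous v := Complex.continuous_re.comp hkc
  set w : H → ℝ := fun x => max (-v x) 0 with hw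
  have hwc : Continuous w := hvc.neg.max continuous_const
  have hcf : Continuous fun x => ((w x : ℝ) : ℂ) := Complex.continuous_ofReal.comp hwc
  have h1 := hmain ϖ hGM _ hcf
  have h2 : (fun x => ((w x : ℝ) : ℂ) * hk Φ χ s x) = fun x => ((-(w x * w x) : ℝ) : ℂ) := by
    funext y
    rw [hreal y, ← Complex.ofReal_mul]
    congr 1
    show max (-v y) 0 * v y = -(max (-v y) 0 * max (-v y) 0)
    rcases le_total (-v y) 0 with h | h
    · rw [max_eq_right h]
      ring
    · rw [max_eq_left h]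
      ring
  rw [h2, integral_complex_ofReal, integral_complex_ofReal] at h1
  have h3 : ∫ y, w y ∂ϖ = ∫ y, -(w y * w y) ∂μ := by exact_mod_cast h1
  rw [integral_neg] at h3
  have h4 : 0 ≤ ∫ y, w y ∂ϖ := integral_nonneg fun y => le_max_right _ _
  have h5 := zero_of_sq μ hwc (by linarith) x
  have h6 : -v x ≤ w x := le_max_left _ _
  rw [h5] at h6
  show 0 ≤ v x
  linarith

end

end STZ3
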