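import Pool.Agent.STZ3.StP

/-!
# Compact simple groups of rank two: the heat kernel (HKS)
-/

set_option autoImplicit false

namespace STZ3

open STZ LGR MeasureTheory Matrix Filter

open scoped ComplexConjugate Matrix Real Topology

noncomputable section

namespace HKS

/-- the one-dimensional Gaussian sum -/
theorem sum1 {b : ℝ} (hb : 0 < b) (t : Finset ℕ) :
    ∑ m ∈ t, Real.exp (-b * ((m : ℝ) + 1) ^ 2) ≤ √(π / b) := by
  obtain ⟨n, hn⟩ : ∃ n, t ⊆ Finset.range n := ⟨t.sup id + 1, fun m hm =>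
    Finset.mem_range.2 (Nat.lt_succ_of_le (Finset.le_sup (f := id) hm))⟩
  have h1 : ∑ m ∈ t, Real.exp (-b * ((m : ℝ) + 1) ^ 2) ≤
      ∑ m ∈ Finset.range n, Real.exp (-b * ((m : ℝ) + 1) ^ 2) :=
    Finset.sum_le_sum_of_subset_of_nonneg hn fun _ _ _ => (Real.exp_pos _).le
  have h2 : AntitoneOn (fun x : ℝ => Real.exp (-b * x ^ 2)) (Set.Icc (0 : ℝ) (0 + (n : ℝ))) := by
    intro x hx y hy hxy
    apply Real.exp_le_exp.2
    have hx0 : 0 ≤ x := hx.1
    have h3 : x ^ 2 ≤ y ^ 2 := pow_le_pow_left₀ hx0 hxy 2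
    nlinarith
  have h3 := AntitoneOn.sum_le_integral h2
  have h4 : (∑ i ∈ Finset.range n, Real.exp (-b * ((0 : ℝ) + ((i + 1 : ℕ) : ℝ)) ^ 2)) =
      ∑ m ∈ Finset.range n, Real.exp (-b * ((m : ℝ) + 1) ^ 2) := by
    refine Finset.sum_congr rfl fun m _ => ?_
    push_cast
    rw [zero_add]
  have h5 : ∫ x in (0 : ℝ)..(0 + (n : ℝ)), Real.exp (-b * x ^ 2) ≤
      ∫ x : ℝ, Real.exp (-b * x ^ 2) := by
    rw [intervalIntegral.integral_of_le (by positivity)]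
    exact setIntegral_le_integral (integrable_exp_neg_mul_sq hb)
      (Filter.Eventually.of_forall fun x => (Real.exp_pos _).le)
  rw [integral_gaussian] at h5
  exact h1.trans ((h4 ▸ h3).trans h5)

/-- the `r`-dimensional Gaussian sum -/
theorem sumr {r : ℕ} {b : ℝ} (hb : 0 < b) (S : Finset (Fin r → ℕ)) :
    ∑ a ∈ S, Real.exp (-b * ∑ j, ((a j : ℝ) + 1) ^ 2) ≤ √(π / b) ^ r := by
  have h1 : S ⊆ Fintype.piFinset fun j => S.image fun a => a j := by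
    intro a ha
    rw [Fintype.mem_piFinset]
    intro j
    exact Finset.mem_image_of_mem _ ha
  have h2 : ∀ a : Fin r → ℕ, Real.exp (-b * ∑ j, ((a j : ℝ) + 1) ^ 2) =
      ∏ j, Real.exp (-b * ((a j : ℝ) + 1) ^ 2) := by
    intro a
    rw [← Real.exp_sum, Finset.mul_sum]
  calc ∑ a ∈ S, Real.exp (-b * ∑ j, ((a j : ℝ) + 1) ^ 2)
      = ∑ a ∈ S, ∏ j, Real.exp (-b * ((a j : ℝ) + 1) ^ 2) :=
        Finset.sum_congr rfl fun a _ => h2 a
    _ ≤ ∑ a ∈ Fintype.piFinset (fun j => (S.image (fun a : Fin r → ℕ => a j) : Finset ℕ)),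
          ∏ j, Real.exp (-b * (((a j : ℕ) : ℝ) + 1) ^ 2) :=
        Finset.sum_le_sum_of_subset_of_nonneg h1 fun _ _ _ =>
          Finset.prod_nonneg fun _ _ => (Real.exp_pos _).le
    _ = ∏ j, ∑ m ∈ (S.image (fun a : Fin r → ℕ => a j) : Finset ℕ),
          Real.exp (-b * (((m : ℕ) : ℝ) + 1) ^ 2) :=
        (Finset.prod_univ_sum (fun j => (S.image (fun a : Fin r → ℕ => a j) : Finset ℕ))
          (fun _ (m : ℕ) => Real.exp (-b * ((m : ℝ) + 1) ^ 2))).symm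
    _ ≤ ∏ _j : Fin r, √(π / b) :=
        Finset.prod_le_prod (fun _ _ => Finset.sum_nonneg fun _ _ => (Real.exp_pos _).le)
          fun j _ => sum1 hb _
    _ = √(π / b) ^ r := by simp

/-- `y² exp(-s y²/2) ≤ 2/s` -/
theorem sqexp {s : ℝ} (hs : 0 < s) (y : ℝ) : y ^ 2 * Real.exp (-(s / 2) * y ^ 2) ≤ 2 / s := by
  have h1 : s / 2 * y ^ 2 ≤ Real.exp (s / 2 * y ^ 2) := by
    have := Real.add_one_le_exp (s / 2 * y ^ 2)
    linarith
  have h2 : Real.exp (-(s / 2) * y ^ 2) = (Real.exp (s / 2 * y ^ 2))⁻¹ := by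
    rw [← Real.exp_neg]
    congr 1
    ring
  rw [h2, ← div_eq_mul_inv, div_le_div_iff₀ (Real.exp_pos _) hs]
  nlinarith

/-- the norm of a character -/
theorem norm_ch {G : Type} [Group G] [TopologicalSpace G] {n : ℕ} (σ : Rep G (Fin n)) (g : G) :
    ‖σ.ch g‖ ≤ n := by
  have hu : σ.ρ g ∈ Matrix.unitaryGroup (Fin n) ℂ := by
    rw [Matrix.mem_unitaryGroup_iff]
    show σ.ρ g * (σ.ρ g)ᴴ = 1
    rw [← σ.unit, ← map_mul, mul_inv_cancel, map_one]
  unfold Rep.ch Matrix.trace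
  refine (norm_sum_le _ _).trans ?_
  calc ∑ i, ‖(σ.ρ g).diag i‖ ≤ ∑ _i : Fin n, (1 : ℝ) :=
        Finset.sum_le_sum fun i _ => entry_norm_bound_of_unitary hu i i
    _ = n := by simp

theorem ch_one {G : Type} [Group G] [TopologicalSpace G] {n : ℕ} (σ : Rep G (Fin n)) :
    σ.ch 1 = (n : ℂ) := by
  unfold Rep.ch
  rw [map_one, Matrix.trace_one, Fintype.card_fin]

theorem cont_ch {G : Type} [Group G] [TopologicalSpace G] {n : ℕ} (σ : Rep G (Fin n)) :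
    Continuous σ.ch := by
  unfold Rep.ch
  exact σ.cont.matrix_trace

end HKS

open HKS

theorem t_HKS : M_HKS := by
  intro hLIEB hWFAC hQUAD hTAUF hADFR N H r Φ B Hc E c k d hCX χ hχ
  obtain ⟨X, hX⟩ := hCX.frame
  have hd : d = 2 * (pos Φ).card + r :=
    (hADFR N H r Φ B Hc E c k d X hCX.closed hCX.lrd hCX.kc hX).1
  have hW : WFF Φ B := hWFAC r Φ B hCX.lrd.ird
  set n := (pos Φ).card with hn
  -- the quadratic form is at least the sum of the squares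
  have hQ : ∀ l : Fin r → ℤ, ∑ j, (l j : ℝ) ^ 2 ≤ ((rd Φ).Q l : ℝ) := by
    intro l
    have h1 : ((rd Φ).Q l : ℝ) = ∑ p ∈ pos Φ, ((p.2 ⬝ᵥ l : ℤ) : ℝ) ^ 2 := by
      show ((∑ p ∈ pos Φ, (p.2 ⬝ᵥ l) ^ 2 : ℤ) : ℝ) = _
      push_cast
      rfl
    rw [h1]
    have h2 : Set.InjOn (fun j : Fin r => (B j, (Pi.single j 1 : Fin r → ℤ)))
        (↑(Finset.univ : Finset (Fin r)) : Set (Fin r)) := by
      intro i _ j _ hij
      have h3 := congrArg (fun p : (Fin r → ℤ) × (Fin r → ℤ) => p.2 i) hij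
      simp only [Pi.single_eq_same] at h3
      by_contra hne
      rw [Pi.single_eq_of_ne hne] at h3
      exact one_ne_zero h3
    have h3 : (Finset.univ : Finset (Fin r)).image (fun j : Fin r => (B j, (Pi.single j 1 : Fin r → ℤ)))
        ⊆ pos Φ := by
      intro p hp
      obtain ⟨j, -, rfl⟩ := Finset.mem_image.1 hp
      refine Finset.mem_filter.2 ⟨hCX.lrd.ird.base j, fun i => ?_⟩
      show 0 ≤ (Pi.single j 1 : Fin r → ℤ) i
      by_cases hij : i = j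
      · subst hij
        rw [Pi.single_eq_same]
        exact zero_le_one
      · rw [Pi.single_eq_of_ne hij]
    have h4 : ∑ j, (l j : ℝ) ^ 2 = ∑ p ∈ (Finset.univ : Finset (Fin r)).image
        (fun j : Fin r => (B j, (Pi.single j 1 : Fin r → ℤ))), ((p.2 ⬝ᵥ l : ℤ) : ℝ) ^ 2 := by
      rw [Finset.sum_image h2]
      refine Finset.sum_congr rfl fun j _ => ?_
      rw [single_one_dotProduct]
    rw [h4]
    exact Finset.sum_le_sum_of_subset_of_nonneg h3 fun _ _ _ => sq_nonneg _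
  -- the terms
  have hterm : ∀ (s : ℝ), 0 < s → ∀ (i : IX Hc) (x : H),
      ‖((Real.exp (-(s * (((rd Φ).Q (wG i.1) : ℝ) - (rd Φ).Q 1))) : ℝ) : ℂ) * (χ i 1 * χ i x)‖ ≤
        Real.exp (s * ((rd Φ).Q 1 : ℝ)) * (2 / s) ^ n *
          Real.exp (-(s / 2) * ∑ j, ((i.1 j : ℝ) + 1) ^ 2) := by
    intro s hs i x
    obtain ⟨m, σ, -, -, hwr, hch⟩ := hχ i
    have hm : (m : ℤ) ≤ ∏ p ∈ pos Φ, (p.2 ⬝ᵥ wG i.1) := by
      have h1 : (m : ℤ) * (∏ p ∈ pos Φ, (p.2 ⬝ᵥ (1 : Fin r → ℤ))) = ∏ p ∈ pos Φ, (p.2 ⬝ᵥ wG i.1) := by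
        have h2 := hwr.dim
        exact_mod_cast h2
      have h3 : (1 : ℤ) ≤ ∏ p ∈ pos Φ, (p.2 ⬝ᵥ (1 : Fin r → ℤ)) := by
        refine Finset.prod_induction _ (fun z : ℤ => 1 ≤ z) (fun a b ha hb => ?_) le_rfl ?_
        · nlinarith
        · intro p hp
          obtain ⟨-, h4, h5, -⟩ := hW.ppos p hp
          have h6 : 0 ≤ p.2 ⬝ᵥ (1 : Fin r → ℤ) := by
            rw [dotProduct_one]
            exact Finset.sum_nonneg fun i _ => h4 i
          rcases h6.lt_or_eq with h7 | h7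
          · exact h7
          · exfalso
            apply h5
            rw [dotProduct_one] at h7
            funext i
            exact (Finset.sum_eq_zero_iff_of_nonneg fun i _ => h4 i).1 h7.symm i (Finset.mem_univ i)
      rw [← h1]
      have h4 : (0 : ℤ) ≤ m := Int.natCast_nonneg m
      nlinarith
    have hmR : (m : ℝ) ≤ ∏ p ∈ pos Φ, ((p.2 ⬝ᵥ wG i.1 : ℤ) : ℝ) := by
      have h1 : ((m : ℤ) : ℝ) ≤ ((∏ p ∈ pos Φ, (p.2 ⬝ᵥ wG i.1) : ℤ) : ℝ) := by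
        exact_mod_cast hm
      rw [Int.cast_prod] at h1
      exact_mod_cast h1
    have h1 : ‖χ i 1 * χ i x‖ ≤ ∏ p ∈ pos Φ, ((p.2 ⬝ᵥ wG i.1 : ℤ) : ℝ) ^ 2 := by
      rw [norm_mul, ← hch, ← hch, ch_one, Finset.prod_pow]
      have h2 : ‖(m : ℂ)‖ = m := by simp
      rw [h2, sq]
      exact mul_le_mul hmR ((norm_ch σ x).trans hmR) (norm_nonneg _)
        ((Nat.cast_nonneg m).trans hmR)
    have h3 : ((rd Φ).Q (wG i.1) : ℝ) = ∑ p ∈ pos Φ, ((p.2 ⬝ᵥ wG i.1 : ℤ) : ℝ) ^ 2 := by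
      show ((∑ p ∈ pos Φ, (p.2 ⬝ᵥ wG i.1) ^ 2 : ℤ) : ℝ) = _
      push_cast
      rfl
    have h4 : Real.exp (-(s / 2) * ((rd Φ).Q (wG i.1) : ℝ)) *
        ∏ p ∈ pos Φ, ((p.2 ⬝ᵥ wG i.1 : ℤ) : ℝ) ^ 2 ≤ (2 / s) ^ n := by
      rw [h3, Finset.mul_sum, Real.exp_sum, ← Finset.prod_mul_distrib, hn, ← Finset.prod_const]
      refine Finset.prod_le_prod (fun p _ => by positivity) fun p _ => ?_
      rw [mul_comm]
      exact sqexp hs _
    have h5 : Real.exp (-(s / 2) * ((rd Φ).Q (wG i.1) : ℝ)) ≤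
        Real.exp (-(s / 2) * ∑ j, ((i.1 j : ℝ) + 1) ^ 2) := by
      apply Real.exp_le_exp.2
      have h6 := hQ (wG i.1)
      have h7 : ∑ j, ((wG i.1 j : ℤ) : ℝ) ^ 2 = ∑ j, ((i.1 j : ℝ) + 1) ^ 2 := by
        refine Finset.sum_congr rfl fun j _ => ?_
        unfold wG
        push_cast
        rfl
      rw [h7] at h6
      have h8 : (0 : ℝ) < s / 2 := by positivity
      nlinarith
    rw [norm_mul, Complex.norm_real, Real.norm_of_nonneg (Real.exp_pos _).le]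
    have h6 : Real.exp (-(s * (((rd Φ).Q (wG i.1) : ℝ) - (rd Φ).Q 1))) =
        Real.exp (s * ((rd Φ).Q 1 : ℝ)) * (Real.exp (-(s / 2) * ((rd Φ).Q (wG i.1) : ℝ)) *
          Real.exp (-(s / 2) * ((rd Φ).Q (wG i.1) : ℝ))) := by
      rw [← Real.exp_add, ← Real.exp_add]
      congr 1
      ring
    rw [h6]
    calc _ ≤ Real.exp (s * ((rd Φ).Q 1 : ℝ)) * (Real.exp (-(s / 2) * ((rd Φ).Q (wG i.1) : ℝ)) *
          Real.exp (-(s / 2) * ((rd Φ).Q (wG i.1) : ℝ))) *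
            ∏ p ∈ pos Φ, ((p.2 ⬝ᵥ wG i.1 : ℤ) : ℝ) ^ 2 :=
          mul_le_mul_of_nonneg_left h1 (by positivity)
      _ = Real.exp (s * ((rd Φ).Q 1 : ℝ)) * ((Real.exp (-(s / 2) * ((rd Φ).Q (wG i.1) : ℝ)) *
            ∏ p ∈ pos Φ, ((p.2 ⬝ᵥ wG i.1 : ℤ) : ℝ) ^ 2) *
          Real.exp (-(s / 2) * ((rd Φ).Q (wG i.1) : ℝ))) := by ring
      _ ≤ Real.exp (s * ((rd Φ).Q 1 : ℝ)) * ((2 / s) ^ n *
          Real.exp (-(s / 2) * ∑ j, ((i.1 j : ℝ) + 1) ^ 2)) := by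
          refine mul_le_mul_of_nonneg_left ?_ (Real.exp_pos _).le
          exact mul_le_mul h4 h5 (Real.exp_pos _).le (by positivity)
      _ = _ := by ring
  -- the sum of the bounds
  have hsum : ∀ (s : ℝ), 0 < s → ∀ S : Finset (IX Hc),
      ∑ i ∈ S, Real.exp (s * ((rd Φ).Q 1 : ℝ)) * (2 / s) ^ n *
          Real.exp (-(s / 2) * ∑ j, ((i.1 j : ℝ) + 1) ^ 2) ≤
        Real.exp (s * ((rd Φ).Q 1 : ℝ)) * (2 / s) ^ n * √(π / (s / 2)) ^ r := by
    intro s hs S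
    rw [← Finset.mul_sum]
    refine mul_le_mul_of_nonneg_left ?_ (by positivity)
    classical
    have h1 : Set.InjOn (fun i : IX Hc => i.1) (↑S : Set (IX Hc)) :=
      fun a _ b _ hab => Subtype.ext hab
    have h2 := sumr (b := s / 2) (by positivity) (S.image fun i : IX Hc => i.1)
    rw [Finset.sum_image h1] at h2
    exact h2
  have hsb : ∀ (s : ℝ), 0 < s → Summable fun i : IX Hc =>
      Real.exp (s * ((rd Φ).Q 1 : ℝ)) * (2 / s) ^ n *
          Real.exp (-(s / 2) * ∑ j, ((i.1 j : ℝ) + 1) ^ 2) := fun s hs =>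
    summable_of_sum_le (fun i => by positivity) (hsum s hs)
  refine ⟨fun s hs => ?_, fun s hs x => ?_, ?_⟩
  · unfold hk
    refine continuous_tsum (fun i => ?_) (hsb s hs) fun i x => hterm s hs i x
    obtain ⟨m, σ, -, -, -, hch⟩ := hχ i
    have h1 : χ i = σ.ch := funext fun g => (hch g).symm
    have h2 : Continuous (χ i) := h1 ▸ cont_ch σ
    exact continuous_const.mul (continuous_const.mul h2)
  · exact Summable.of_nonneg_of_le (fun i => norm_nonneg _) (fun i => hterm s hs i x) (hsb s hs)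
  · refine ⟨Real.exp ((rd Φ).Q 1 : ℝ) * 2 ^ n * √(2 * π) ^ r, by positivity, ?_⟩
    intro s hs hs1 x
    have hQ1 : (0 : ℝ) ≤ ((rd Φ).Q 1 : ℝ) :=
      (Finset.sum_nonneg fun j _ => sq_nonneg _).trans (hQ 1)
    have h1 : ‖hk Φ χ s x‖ ≤ Real.exp (s * ((rd Φ).Q 1 : ℝ)) * (2 / s) ^ n * √(π / (s / 2)) ^ r := by
      unfold hk
      refine (norm_tsum_le_tsum_norm ?_).trans ?_
      · exact Summable.of_nonneg_of_le (fun i => norm_nonneg _) (fun i => hterm s hs i x) (hsb s hs)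
      · refine Real.tsum_le_of_sum_le (fun i => norm_nonneg _) fun S => ?_
        exact (Finset.sum_le_sum fun i _ => hterm s hs i x).trans (hsum s hs S)
    refine h1.trans ?_
    have h2 : Real.exp (s * ((rd Φ).Q 1 : ℝ)) ≤ Real.exp ((rd Φ).Q 1 : ℝ) := by
      apply Real.exp_le_exp.2
      nlinarith
    have h3 : √(π / (s / 2)) = √(2 * π) * s ^ (-(1 / 2 : ℝ)) := by
      have h4 : π / (s / 2) = 2 * π * s⁻¹ := by
        field_simp
      rw [h4, Real.sqrt_mul (by positivity), Real.rpow_neg hs.le, ← Real.sqrt_eq_rpow,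
        Real.sqrt_inv]
    have h5 : (2 / s) ^ n * √(π / (s / 2)) ^ r = 2 ^ n * √(2 * π) ^ r * s ^ (-((d : ℝ) / 2)) := by
      have h6 : (2 / s) ^ n = 2 ^ n * s ^ (-(n : ℝ)) := by
        rw [div_pow, Real.rpow_neg hs.le, Real.rpow_natCast, div_eq_mul_inv]
      have h7 : (s ^ (-(1 / 2 : ℝ))) ^ r = s ^ (-(r : ℝ) / 2) := by
        rw [← Real.rpow_natCast, ← Real.rpow_mul hs.le]
        congr 1
        ring
      have h8 : s ^ (-((d : ℝ) / 2)) = s ^ (-(n : ℝ)) * s ^ (-(r : ℝ) / 2) := by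
        rw [← Real.rpow_add hs]
        congr 1
        rw [hd]
        push_cast
        ring
      rw [h6, h3, mul_pow, h7, h8]
      ring
    rw [mul_assoc, h5]
    calc Real.exp (s * ((rd Φ).Q 1 : ℝ)) * (2 ^ n * √(2 * π) ^ r * s ^ (-((d : ℝ) / 2)))
        ≤ Real.exp ((rd Φ).Q 1 : ℝ) * (2 ^ n * √(2 * π) ^ r * s ^ (-((d : ℝ) / 2))) :=
          mul_le_mul_of_nonneg_right h2 (by positivity)
      _ = _ := by ring

end

end STZ3
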