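import Pool.Agent.STZ3.StP

/-!
# HKT: decay of the heat kernel of the group
-/

set_option autoImplicit false

namespace STZ3

open STZ LGR MeasureTheory Matrix Filter

open scoped ComplexConjugate Matrix Real Topology

noncomputable section

namespace HKT

/-! ### the function `ps` -/

theorem hs2_eq {N : ℕ} (Y : MT N) : ∑ i, ∑ j, ‖Y i j‖ ^ 2 = (Y * Yᴴ).trace.re := by
  rw [Matrix.trace, Complex.re_sum]
  refine Finset.sum_congr rfl fun i _ => ?_
  rw [Matrix.diag_apply, Matrix.mul_apply, Complex.re_sum]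
  refine Finset.sum_congr rfl fun j _ => ?_
  rw [Matrix.conjTranspose_apply, Complex.star_def, Complex.mul_conj, Complex.normSq_eq_norm_sq]
  norm_cast

theorem hs2_mul {N : ℕ} (Y U : MT N) (hU : U * Uᴴ = 1) :
    ∑ i, ∑ j, ‖(Y * U) i j‖ ^ 2 = ∑ i, ∑ j, ‖Y i j‖ ^ 2 := by
  rw [hs2_eq, hs2_eq, Matrix.conjTranspose_mul]
  have : Y * U * (Uᴴ * Yᴴ) = Y * (U * Uᴴ) * Yᴴ := by
    simp only [Matrix.mul_assoc]
  rw [this, hU, Matrix.mul_one]

theorem unit_mul {N : ℕ} {H : Subgroup (SU N)} (g : H) : g.1.1 * (g.1.1)ᴴ = 1 := by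
  have h := g.1.2
  rw [Matrix.mem_specialUnitaryGroup_iff] at h
  exact Matrix.mem_unitaryGroup_iff.1 h.1

theorem ps_mul {N : ℕ} {H : Subgroup (SU N)} (u y : H) : ps (u * y) ≤ 2 * (ps u + ps y) := by
  have h1 : (u * y).1.1 = u.1.1 * y.1.1 := rfl
  have h2 : ∀ i j, (u * y).1.1 i j - (1 : MT N) i j
      = ((u.1.1 - 1) * y.1.1) i j + (y.1.1 i j - (1 : MT N) i j) := by
    intro i j
    rw [h1, Matrix.sub_mul, Matrix.one_mul, Matrix.sub_apply]
    ring
  have h3 : ps u = ∑ i, ∑ j, ‖((u.1.1 - 1) * y.1.1) i j‖ ^ 2 := by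
    rw [hs2_mul _ _ (unit_mul y)]
    rfl
  have h4 : ∀ a b : ℂ, ‖a + b‖ ^ 2 ≤ 2 * ‖a‖ ^ 2 + 2 * ‖b‖ ^ 2 := by
    intro a b
    have := norm_add_le a b
    have h5 : ‖a + b‖ ^ 2 ≤ (‖a‖ + ‖b‖) ^ 2 := by gcongr
    nlinarith [sq_nonneg (‖a‖ - ‖b‖)]
  rw [h3]
  unfold ps
  rw [← Finset.sum_add_distrib, Finset.mul_sum]
  refine Finset.sum_le_sum fun i _ => ?_
  rw [← Finset.sum_add_distrib, Finset.mul_sum]
  refine Finset.sum_le_sum fun j _ => ?_
  rw [h2]
  linarith [h4 (((u.1.1 - 1) * y.1.1) i j) (y.1.1 i j - (1 : MT N) i j)]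

theorem ps_cont {N : ℕ} {H : Subgroup (SU N)} : Continuous (ps : H → ℝ) := by
  unfold ps
  refine continuous_finsetSum _ fun i _ => continuous_finsetSum _ fun j _ => ?_
  have h : Continuous fun g : H => g.1.1 i j :=
    (continuous_subtype_val.comp continuous_subtype_val).matrix_elem i j
  exact (h.sub continuous_const).norm.pow 2

/-! ### the cut-off -/

/-- a continuous function which is `1` where `ρ²/4 ≤ ps` and `0` where `ps < ρ²/16` -/
def cut {N : ℕ} {H : Subgroup (SU N)} (ρ : ℝ) (z : H) : ℝ :=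
  min 1 (max 0 ((ps z - ρ ^ 2 / 16) * (16 / (3 * ρ ^ 2))))

theorem cut_cont {N : ℕ} {H : Subgroup (SU N)} (ρ : ℝ) : Continuous (cut ρ : H → ℝ) :=
  continuous_const.min (continuous_const.max ((ps_cont.sub continuous_const).mul continuous_const))

theorem cut_nonneg {N : ℕ} {H : Subgroup (SU N)} (ρ : ℝ) (z : H) : 0 ≤ cut ρ z :=
  le_min zero_le_one (le_max_left _ _)

theorem cut_le {N : ℕ} {H : Subgroup (SU N)} {ρ : ℝ} (hρ : 0 < ρ) (z : H) :
    cut ρ z ≤ Set.indicator {z : H | (ρ / 4) ^ 2 ≤ ps z} (fun _ => (1 : ℝ)) z := by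
  by_cases h : z ∈ {z : H | (ρ / 4) ^ 2 ≤ ps z}
  · rw [Set.indicator_of_mem h]
    exact min_le_left _ _
  · rw [Set.indicator_of_notMem h]
    have h1 : ps z < (ρ / 4) ^ 2 := not_le.1 h
    refine (min_le_right _ _).trans ?_
    rw [max_le_iff]
    refine ⟨le_rfl, ?_⟩
    apply mul_nonpos_of_nonpos_of_nonneg
    · nlinarith
    · positivity

theorem cut_eq_one {N : ℕ} {H : Subgroup (SU N)} {ρ : ℝ} (hρ : 0 < ρ) {z : H}
    (h : ρ ^ 2 / 4 ≤ ps z) : cut ρ z = 1 := by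
  unfold cut
  apply min_eq_left
  apply le_max_of_le_right
  have h1 : 3 * ρ ^ 2 / 16 ≤ ps z - ρ ^ 2 / 16 := by linarith
  calc (1 : ℝ) = (3 * ρ ^ 2 / 16) * (16 / (3 * ρ ^ 2)) := by field_simp
    _ ≤ _ := by gcongr

theorem cut_add {N : ℕ} {H : Subgroup (SU N)} {ρ : ℝ} (hρ : 0 < ρ) {u y : H}
    (h : ρ ^ 2 ≤ ps (u * y)) : 1 ≤ cut ρ u + cut ρ y := by
  have h1 := ps_mul u y
  by_cases h2 : ρ ^ 2 / 4 ≤ ps u
  · rw [cut_eq_one hρ h2]
    linarith [cut_nonneg ρ y]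
  · have h3 : ρ ^ 2 / 4 ≤ ps y := by
      push Not at h2
      linarith
    rw [cut_eq_one hρ h3]
    linarith [cut_nonneg ρ u]

/-! ### characters -/

theorem ch_bound {G : Type} [Group G] [TopologicalSpace G] {n : ℕ} (σ : Rep G (Fin n)) (g : G) :
    ‖σ.ch g‖ ≤ ‖σ.ch 1‖ := by
  have h1 : σ.ch 1 = n := by
    unfold Rep.ch
    rw [map_one, Matrix.trace_one, Fintype.card_fin]
  rw [h1, Complex.norm_natCast]
  unfold Rep.ch
  have hU : σ.ρ g ∈ Matrix.unitaryGroup (Fin n) ℂ := by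
    rw [Matrix.mem_unitaryGroup_iff]
    have : star (σ.ρ g) = σ.ρ g⁻¹ := (σ.unit g).symm
    rw [this, ← map_mul, mul_inv_cancel, map_one]
  calc ‖(σ.ρ g).trace‖ = ‖∑ i, σ.ρ g i i‖ := rfl
    _ ≤ ∑ i : Fin n, ‖σ.ρ g i i‖ := norm_sum_le _ _
    _ ≤ ∑ _i : Fin n, (1 : ℝ) := Finset.sum_le_sum fun i _ => entry_norm_bound_of_unitary hU i i
    _ = n := by simp

/-! ### convolution -/

theorem conv {G : Type} [Group G] [TopologicalSpace G] [IsTopologicalGroup G]
    [CompactSpace G] [T2Space G] [SecondCountableTopology G] [MeasurableSpace G] [BorelSpace G]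
    (μ : Measure G) [IsProbabilityMeasure μ] {ι : Type} [Countable ι] (χ : ι → G → ℂ)
    (hχc : ∀ i, Continuous (χ i)) (hK : Ker μ (KK χ)) (hb : ∀ i g, ‖χ i g‖ ≤ ‖χ i 1‖) (e : ι → ℂ)
    (hs : Summable fun i => ‖e i * (χ i 1 * χ i 1)‖)
    (hc : Continuous fun x => ∑' i, e i * (χ i 1 * χ i x)) (x : G) :
    ∫ y, (∑' i, e i * (χ i 1 * χ i (x * y⁻¹))) * (∑' i, e i * (χ i 1 * χ i y)) ∂μ =
      ∑' i, (e i * e i) * (χ i 1 * χ i x) := by
  classical
  have hint : ∀ f : G → ℂ, Continuous f → Integrable f μ := fun f hf =>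
    hf.integrable_of_hasCompactSupport (HasCompactSupport.of_compactSpace _)
  set h : G → ℂ := fun y => ∑' i, e i * (χ i 1 * χ i y) with hh
  have hterm : ∀ i y, ‖e i * (χ i 1 * χ i y)‖ ≤ ‖e i * (χ i 1 * χ i 1)‖ := by
    intro i y
    rw [norm_mul, norm_mul, norm_mul, norm_mul]
    gcongr
    exact hb i y
  obtain ⟨M, hM⟩ : ∃ M : ℝ, ∀ y, ‖h y‖ ≤ M := by
    obtain ⟨M, hM⟩ := (isCompact_range hc.norm).bddAbove
    exact ⟨M, fun y => hM ⟨y, rfl⟩⟩
  have hM0 : 0 ≤ M := (norm_nonneg _).trans (hM 1)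
  -- the inner integral
  have inner : ∀ i, ∫ y, (χ i 1 * χ i (x * y⁻¹)) * h y ∂μ = e i * (χ i 1 * χ i x) := by
    intro i
    have hci : Continuous fun y : G => χ i 1 * χ i (x * y⁻¹) :=
      continuous_const.mul ((hχc i).comp (continuous_const.mul continuous_inv))
    have hF : ∀ j, Integrable (fun y => (χ i 1 * χ i (x * y⁻¹)) * (e j * (χ j 1 * χ j y))) μ :=
      fun j => hint _ (hci.mul (continuous_const.mul (continuous_const.mul (hχc j))))
    have hbd : ∀ j, ∫ y, ‖(χ i 1 * χ i (x * y⁻¹)) * (e j * (χ j 1 * χ j y))‖ ∂μ ≤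
        (‖χ i 1‖ * ‖χ i 1‖) * ‖e j * (χ j 1 * χ j 1)‖ := by
      intro j
      have h1 : ∀ y, ‖(χ i 1 * χ i (x * y⁻¹)) * (e j * (χ j 1 * χ j y))‖ ≤
          (‖χ i 1‖ * ‖χ i 1‖) * ‖e j * (χ j 1 * χ j 1)‖ := by
        intro y
        rw [norm_mul]
        apply mul_le_mul _ (hterm j y) (norm_nonneg _) (by positivity)
        rw [norm_mul]
        gcongr
        exact hb i _
      have h2 := integral_mono (μ := μ) (hF j).norm (integrable_const
        ((‖χ i 1‖ * ‖χ i 1‖) * ‖e j * (χ j 1 * χ j 1)‖)) h1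
      simpa using h2
    have hS := hasSum_integral_of_summable_integral_norm hF
      (Summable.of_nonneg_of_le (fun j => integral_nonneg fun y => norm_nonneg _) hbd
        (hs.mul_left _))
    have e1 : ∀ y, ∑' j, (χ i 1 * χ i (x * y⁻¹)) * (e j * (χ j 1 * χ j y)) =
        (χ i 1 * χ i (x * y⁻¹)) * h y := fun y => tsum_mul_left
    simp only [e1] at hS
    rw [← hS.tsum_eq]
    have e2 : ∀ j, ∫ y, (χ i 1 * χ i (x * y⁻¹)) * (e j * (χ j 1 * χ j y)) ∂μ =
        if j = i then e i * (χ i 1 * χ i x) else 0 := by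
      intro j
      have e3 : ∀ y, (χ i 1 * χ i (x * y⁻¹)) * (e j * (χ j 1 * χ j y)) =
          e j * (KK χ i x y * KK χ j y 1) := by
        intro y
        simp only [KK, inv_one, mul_one]
        ring
      simp only [e3]
      rw [integral_const_mul]
      by_cases hij : j = i
      · subst hij
        rw [if_pos rfl, hK.rep]
        simp only [KK, inv_one, mul_one]
      · rw [if_neg hij, hK.orth i j x 1 (fun h => hij h.symm), mul_zero]
    simp only [e2]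
    exact tsum_ite_eq i _
  have hF : ∀ i, Integrable (fun y => (e i * (χ i 1 * χ i (x * y⁻¹))) * h y) μ := fun i =>
    hint _ ((continuous_const.mul (continuous_const.mul
      ((hχc i).comp (continuous_const.mul continuous_inv)))).mul hc)
  have hbd : ∀ i, ∫ y, ‖(e i * (χ i 1 * χ i (x * y⁻¹))) * h y‖ ∂μ ≤
      ‖e i * (χ i 1 * χ i 1)‖ * M := by
    intro i
    have h1 : ∀ y, ‖(e i * (χ i 1 * χ i (x * y⁻¹))) * h y‖ ≤ ‖e i * (χ i 1 * χ i 1)‖ * M := by
      intro y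
      rw [norm_mul]
      exact mul_le_mul (hterm i _) (hM y) (norm_nonneg _) (norm_nonneg _)
    have h2 := integral_mono (μ := μ) (hF i).norm (integrable_const
      (‖e i * (χ i 1 * χ i 1)‖ * M)) h1
    simpa using h2
  have hS := hasSum_integral_of_summable_integral_norm hF
    (Summable.of_nonneg_of_le (fun j => integral_nonneg fun y => norm_nonneg _) hbd
      (hs.mul_right _))
  have e1 : ∀ y, ∑' i, (e i * (χ i 1 * χ i (x * y⁻¹))) * h y =
      (∑' i, e i * (χ i 1 * χ i (x * y⁻¹))) * h y := fun y => tsum_mul_right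
  simp only [e1] at hS
  rw [← hS.tsum_eq]
  refine tsum_congr fun i => ?_
  have e4 : ∀ y, (e i * (χ i 1 * χ i (x * y⁻¹))) * h y = e i * ((χ i 1 * χ i (x * y⁻¹)) * h y) :=
    fun y => by ring
  simp only [e4]
  rw [integral_const_mul, inner i]
  ring

end HKT

open HKT in
theorem t_HKT : M_HKT := by
  intro hHAAR _ hKERI hLIEB _ hCHIF hTAI hEXI _ hHKS hHKM N H r Φ B Hc E c k d hCX χ hχ j
  have hcl := hCX.closed
  have hcs : CompactSpace H := isCompact_iff_compactSpace.1 hcl.isCompact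
  have hsec : SecondCountableTopology H :=
    inferInstanceAs (SecondCountableTopology ((H : Set (SU N)) : Type))
  have hcnt : Countable (IX Hc) := inferInstanceAs (Countable {a : Fin r → ℕ //
    ∀ z : Fin r → ℝ, ta Hc z = 1 → eu (dz (wG a - 1) z) = 1})
  obtain ⟨X, hX⟩ := hCX.frame
  -- the invariant measure
  let μ : Measure H := Measure.haarMeasure ⊤
  have hμ1 : IsProbabilityMeasure μ := by
    refine ⟨?_⟩
    have := Measure.haarMeasure_self (K₀ := (⊤ : TopologicalSpace.PositiveCompacts H))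
    simpa using this
  have hμ2 : μ.IsMulLeftInvariant := inferInstanceAs (Measure.haarMeasure ⊤).IsMulLeftInvariant
  obtain ⟨hμ3, hμ4, -⟩ := hHAAR H μ
  obtain ⟨hIrr, -, -⟩ := hCHIF N H r Φ B Hc E c k d X hCX.one_le hcl hCX.conn hCX.lrd hCX.kc hX χ hχ
  obtain ⟨hKer, -⟩ := hKERI H μ (IX Hc) χ hIrr
  obtain ⟨hcont, hsum, C₁, hC₁, hsup⟩ := hHKS N H r Φ B Hc E c k d hCX χ hχ
  obtain ⟨C₂, hC₂, htail⟩ := hTAI N H r Φ B Hc E c k d hCX j
  have hχc : ∀ i, Continuous (χ i) := by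
    intro i
    obtain ⟨n, σ, -, -, -, h⟩ := hχ i
    have : χ i = fun g => (σ.ρ g).trace := by
      funext g; exact (h g).symm
    rw [this]
    exact σ.cont.matrix_trace
  have hχb : ∀ i g, ‖χ i g‖ ≤ ‖χ i 1‖ := by
    intro i g
    obtain ⟨n, σ, -, -, -, h⟩ := hχ i
    rw [← h g, ← h 1]
    exact ch_bound σ g
  refine ⟨2 * C₁ * C₂ * 16 ^ j, by positivity, ?_⟩
  intro s ρ hs hs2 hρ x hx
  have hs1 : s ≤ 1 := by linarith
  obtain ⟨hre, hmeas⟩ := hHKM N H r Φ B Hc E c k d hCX μ χ hχ s hs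
  -- the convolution
  have hconv : ∫ y, hk Φ χ s (x * y⁻¹) * hk Φ χ s y ∂μ = hk Φ χ (2 * s) x := by
    have h1 := conv μ χ hχc hKer hχb
      (fun i => ((Real.exp (-(s * (((rd Φ).Q (wG i.1) : ℝ) - (rd Φ).Q 1))) : ℝ) : ℂ))
      (hsum s hs 1) (hcont s hs) x
    have h2 : hk Φ χ (2 * s) x = ∑' i : IX Hc,
        (((Real.exp (-(s * (((rd Φ).Q (wG i.1) : ℝ) - (rd Φ).Q 1))) : ℝ) : ℂ) *
        ((Real.exp (-(s * (((rd Φ).Q (wG i.1) : ℝ) - (rd Φ).Q 1))) : ℝ) : ℂ)) *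
          (χ i 1 * χ i x) := by
      unfold hk
      refine tsum_congr fun i => ?_
      rw [← Complex.ofReal_mul, ← Real.exp_add]
      congr 4
      ring
    rw [h2, ← h1]
    rfl
  -- the heat measure
  obtain ⟨ϖ, hϖ⟩ := hEXI N H hcl (Fin d) (fun a => ((√(s / k) : ℝ) : ℂ) • X a)
    (fun a => (hLIEB N H hcl).smul _ _ (hX.mem a))
  have hGM : GM H c k d s ϖ := ⟨X, hX, hϖ⟩
  have hϖp : IsProbabilityMeasure ϖ := hϖ.prob
  have hint : ∀ f : H → ℝ, Continuous f → Integrable f μ := fun f hf =>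
    hf.integrable_of_hasCompactSupport (HasCompactSupport.of_compactSpace _)
  have hintϖ : ∀ f : H → ℝ, Continuous f → Integrable f ϖ := fun f hf =>
    hf.integrable_of_hasCompactSupport (HasCompactSupport.of_compactSpace _)
  set h : H → ℝ := fun y => (hk Φ χ s y).re with hh
  have hcon : Continuous h := Complex.continuous_re.comp (hcont s hs)
  have hval : ∀ y, hk Φ χ s y = (h y : ℂ) := fun y =>
    Complex.ext rfl (by rw [(hre y).1, Complex.ofReal_im])
  have h0 : ∀ y, 0 ≤ h y := fun y => (hre y).2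
  have hM : ∀ y, h y ≤ C₁ * s ^ (-((d : ℝ) / 2)) := fun y =>
    (Complex.re_le_norm _).trans (hsup s hs hs1 y)
  set M : ℝ := C₁ * s ^ (-((d : ℝ) / 2)) with hMd
  have hM0 : 0 ≤ M := (h0 1).trans (hM 1)
  -- the tail
  have htl : ∫ y, cut ρ y * h y ∂μ ≤ C₂ * 16 ^ j * (s / ρ ^ 2) ^ j := by
    have e1 := hmeas ϖ hGM (fun y => ((cut ρ y : ℝ) : ℂ))
      (Complex.continuous_ofReal.comp (cut_cont ρ))
    have e2 : ∫ y, ((cut ρ y : ℝ) : ℂ) * hk Φ χ s y ∂μ = ((∫ y, cut ρ y * h y ∂μ : ℝ) : ℂ) := by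
      rw [← integral_complex_ofReal]
      refine integral_congr_ae (Eventually.of_forall fun y => ?_)
      simp only
      rw [hval y]
      push_cast
      rfl
    rw [e2, integral_complex_ofReal] at e1
    have e3 : ∫ y, cut ρ y * h y ∂μ = ∫ y, cut ρ y ∂ϖ := (Complex.ofReal_injective e1).symm
    rw [e3]
    have hms : MeasurableSet {z : H | (ρ / 4) ^ 2 ≤ ps z} :=
      (isClosed_le continuous_const ps_cont).measurableSet
    have e4 : ∫ y, cut ρ y ∂ϖ ≤
        ∫ y, Set.indicator {z : H | (ρ / 4) ^ 2 ≤ ps z} (fun _ => (1 : ℝ)) y ∂ϖ :=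
      integral_mono (hintϖ _ (cut_cont ρ)) ((integrable_const (1 : ℝ)).indicator hms)
        (fun y => cut_le hρ y)
    rw [integral_indicator_const _ hms, smul_eq_mul, mul_one] at e4
    have e5 := htail s ϖ hs hs1 (Or.inr hGM) (ρ / 4) (by positivity)
    have e6 : C₂ * (s / (ρ / 4) ^ 2) ^ j = C₂ * 16 ^ j * (s / ρ ^ 2) ^ j := by
      have : s / (ρ / 4) ^ 2 = 16 * (s / ρ ^ 2) := by
        field_simp
        ring
      rw [this, mul_pow]
      ring
    linarith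
  have hinv : ∫ y, cut ρ (x * y⁻¹) * h (x * y⁻¹) ∂μ = ∫ y, cut ρ y * h y ∂μ := by
    have := integral_div_left_eq_self (fun y => cut ρ y * h y) μ x
    simpa only [div_eq_mul_inv] using this
  have hc1 : Continuous fun y : H => cut ρ y * h y := (cut_cont ρ).mul hcon
  have hxy : Continuous fun y : H => x * y⁻¹ := continuous_const.mul continuous_inv
  have hc2 : Continuous fun y : H => cut ρ (x * y⁻¹) * h (x * y⁻¹) := hc1.comp hxy
  have hc3 : Continuous fun y : H => M * (cut ρ y * h y) := continuous_const.mul hc1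
  have hc4 : Continuous fun y : H => M * (cut ρ (x * y⁻¹) * h (x * y⁻¹)) :=
    continuous_const.mul hc2
  have hpt : ∀ y, ‖hk Φ χ s (x * y⁻¹) * hk Φ χ s y‖ ≤
      M * (cut ρ (x * y⁻¹) * h (x * y⁻¹)) + M * (cut ρ y * h y) := by
    intro y
    rw [hval, hval, ← Complex.ofReal_mul, Complex.norm_real, Real.norm_eq_abs,
      abs_of_nonneg (mul_nonneg (h0 _) (h0 _))]
    have hx' : ρ ^ 2 ≤ ps ((x * y⁻¹) * y) := by
      rw [inv_mul_cancel_right]
      exact hx
    have b1 := cut_add hρ hx'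
    have b2 := mul_nonneg (h0 (x * y⁻¹)) (h0 y)
    have b3 : cut ρ (x * y⁻¹) * h (x * y⁻¹) * h y ≤ cut ρ (x * y⁻¹) * h (x * y⁻¹) * M :=
      mul_le_mul_of_nonneg_left (hM y) (mul_nonneg (cut_nonneg _ _) (h0 _))
    have b4 : cut ρ y * h y * h (x * y⁻¹) ≤ cut ρ y * h y * M :=
      mul_le_mul_of_nonneg_left (hM _) (mul_nonneg (cut_nonneg _ _) (h0 _))
    have b5 := mul_le_mul_of_nonneg_right b1 b2
    linarith
  rw [← hconv]
  calc ‖∫ y, hk Φ χ s (x * y⁻¹) * hk Φ χ s y ∂μ‖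
      ≤ ∫ y, ‖hk Φ χ s (x * y⁻¹) * hk Φ χ s y‖ ∂μ := norm_integral_le_integral_norm _
    _ ≤ ∫ y, (M * (cut ρ (x * y⁻¹) * h (x * y⁻¹)) + M * (cut ρ y * h y)) ∂μ := by
        apply integral_mono _ _ hpt
        · exact hint _ (((hcont s hs).comp hxy).mul (hcont s hs)).norm
        · exact hint _ (hc4.add hc3)
    _ = 2 * M * ∫ y, cut ρ y * h y ∂μ := by
        rw [integral_add (hint _ hc4) (hint _ hc3), integral_const_mul, integral_const_mul, hinv]
        ring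
    _ ≤ 2 * M * (C₂ * 16 ^ j * (s / ρ ^ 2) ^ j) := by
        apply mul_le_mul_of_nonneg_left htl
        positivity
    _ = 2 * C₁ * C₂ * 16 ^ j * (s ^ (-((d : ℝ) / 2)) * (s / ρ ^ 2) ^ j) := by
        rw [hMd]; ring

end

end STZ3
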