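import Pool.Agent.STZ3.StP

/-!
# HMF: the heat measure of the group in an irreducible representation
-/

set_option autoImplicit false

namespace STZ3

open STZ LGR MeasureTheory Matrix Filter

open scoped ComplexConjugate Matrix Real Topology

noncomputable section

namespace HMF

/-- the Laplacian of a matrix entry at the point `1` is the entry of the Casimir element -/
theorem lap_entry {N : ℕ} {H : Subgroup (SU N)} {n d : ℕ} (σ : Rep H (Fin n)) (hD : DRF σ)
    (X : Fin d → MT N) (hX : ∀ a, X a ∈ lie H)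
    (hd : ∀ (i j : Fin n) (a : Fin d),
      DifferentiableAt ℝ (fun t : ℝ => σ.ρ (1 * exH H (X a) t) i j) 0) (i j : Fin n) :
    lapH X (fun g => σ.ρ g i j) 1 = (∑ a, dr σ (X a) * dr σ (X a)) i j := by
  unfold lapH
  rw [Matrix.sum_apply]
  refine Finset.sum_congr rfl fun a _ => ?_
  have h1 : dH (X a) (fun g => σ.ρ g i j) = fun g => ∑ p, σ.ρ g i p * dr σ (X a) p j := by
    funext g
    rw [hD.d (X a) (hX a) g i j, Matrix.mul_apply]
  rw [h1]
  have h2 : HasDerivAt (fun t : ℝ => ∑ p, σ.ρ (1 * exH H (X a) t) i p * dr σ (X a) p j)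
      (∑ p, dr σ (X a) i p * dr σ (X a) p j) 0 := by
    apply HasDerivAt.fun_sum
    intro p _
    exact ((hd i p a).hasDerivAt).mul_const _
  rw [Matrix.mul_apply]
  exact h2.deriv

/-- the exponential of a scalar matrix -/
theorem exp_scalar {n : ℕ} (z : ℂ) (i j : Fin n) :
    (NormedSpace.exp (z • (1 : Matrix (Fin n) (Fin n) ℂ))) i j =
      if i = j then Complex.exp z else 0 := by
  have h1 : z • (1 : Matrix (Fin n) (Fin n) ℂ) = Matrix.diagonal fun _ => z := by
    rw [← Matrix.diagonal_one, ← Matrix.diagonal_smul]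
    congr 1
    funext k
    simp
  rw [h1, Matrix.exp_diagonal, Matrix.diagonal_apply]
  congr 1
  rw [Pi.coe_exp, ← Complex.exp_eq_exp_ℂ]

end HMF

theorem t_HMF : M_HMF := by
  intro hDREP N H r Φ B Hc E c k d hCX s ϖ hs hGM n σ l hirr hprep hHW i j
  obtain ⟨X, hX, hHM⟩ := hGM
  have hD : DRF σ := hDREP N H n σ hCX.closed hprep
  have hk : 0 < k := hCX.kc.kpos
  have hE := (hHW.eig X hX).1
  rw [hHM.coef n σ hprep i j]
  -- the Casimir element
  have hC : (∑ a, dr σ (X a) * dr σ (X a)) =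
      (-((k * (((rd Φ).Q l : ℝ) - (rd Φ).Q 1) : ℝ) : ℂ)) • (1 : Matrix (Fin n) (Fin n) ℂ) := by
    ext p q
    rw [← HMF.lap_entry σ hD X hX.mem (fun i j a => (hE i j).1.1.diff (X a) (hX.mem a) 1) p q,
      (hE p q).2 1, Matrix.smul_apply, smul_eq_mul]
    show _ * σ.ρ 1 p q = _
    rw [map_one]
  have hsq : ((√(s / k) : ℝ) : ℂ) * ((√(s / k) : ℝ) : ℂ) = ((s / k : ℝ) : ℂ) := by
    rw [← Complex.ofReal_mul, Real.mul_self_sqrt (div_nonneg hs.le hk.le)]
  have hS : (∑ a, dr σ (((√(s / k) : ℝ) : ℂ) • X a) * dr σ (((√(s / k) : ℝ) : ℂ) • X a)) =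
      (((-(s * (((rd Φ).Q l : ℝ) - (rd Φ).Q 1)) : ℝ) : ℂ)) • (1 : Matrix (Fin n) (Fin n) ℂ) := by
    have h1 : ∀ a, dr σ (((√(s / k) : ℝ) : ℂ) • X a) * dr σ (((√(s / k) : ℝ) : ℂ) • X a) =
        ((s / k : ℝ) : ℂ) • (dr σ (X a) * dr σ (X a)) := by
      intro a
      rw [hD.smul (X a) (hX.mem a) (√(s / k)), Matrix.smul_mul, Matrix.mul_smul, smul_smul, hsq]
    rw [Finset.sum_congr rfl fun a _ => h1 a, ← Finset.smul_sum, hC, smul_smul]
    congr 1
    push_cast
    have hk' : (k : ℂ) ≠ 0 := by exact_mod_cast hk.ne'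
    field_simp
  rw [hS, HMF.exp_scalar]
  congr 1
  rw [Complex.ofReal_exp]

end

end STZ3
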