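import Pool.Agent.STZ3.StP
import Pool.Agent.LGR.CHIF

/-!
# Module IDM: the identity of measures   (helper76)
-/

namespace STZ3

open STZ LGR MeasureTheory Matrix Filter

open scoped ComplexConjugate Matrix Real Topology

noncomputable section

namespace IDM

theorem eu_cont : Continuous eu := by
  unfold eu
  fun_prop

theorem dz_cont {r : ℕ} (m : Fin r → ℤ) : Continuous (dz m) := by
  unfold dz
  fun_prop

theorem eu_add (a b : ℝ) : eu (a + b) = eu a * eu b := by
  unfold eu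
  rw [← Complex.exp_add]
  congr 1
  push_cast
  ring

theorem eu_conj (a : ℝ) : conj (eu a) = eu (-a) := by
  unfold eu
  rw [← Complex.exp_conj]
  congr 1
  simp only [map_mul, Complex.conj_ofReal, Complex.conj_I, map_ofNat]
  push_cast
  ring

theorem dz_add {r : ℕ} (a b : Fin r → ℤ) (θ : Fin r → ℝ) : dz (a + b) θ = dz a θ + dz b θ := by
  unfold dz
  rw [← Finset.sum_add_distrib]
  refine Finset.sum_congr rfl fun i _ => ?_
  rw [Pi.add_apply, Int.cast_add, add_mul]

theorem dz_neg {r : ℕ} (a : Fin r → ℤ) (θ : Fin r → ℝ) : dz (-a) θ = -dz a θ := by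
  unfold dz
  rw [← Finset.sum_neg_distrib]
  refine Finset.sum_congr rfl fun i _ => ?_
  rw [Pi.neg_apply, Int.cast_neg, neg_mul]

/-! ### iterated integrals -/

theorem cont_int {X Y : Type} [TopologicalSpace X] [FirstCountableTopology X] [LocallyCompactSpace X]
    [TopologicalSpace Y] [CompactSpace Y] [SecondCountableTopology Y] [MeasurableSpace Y]
    [BorelSpace Y] (ν : Measure Y) [IsFiniteMeasure ν] {f : X → Y → ℂ}
    (hf : Continuous (Function.uncurry f)) : Continuous fun x => ∫ y, f x y ∂ν := by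
  have h := continuous_parametric_integral_of_continuous (μ := ν) hf isCompact_univ
  simpa only [Measure.restrict_univ] using h

section Iter

variable {r : ℕ} {G : Type} [Group G] [TopologicalSpace G] [MeasurableSpace G]
  (P : (Fin r → ℝ) → ℂ) (q : (Fin r → ℝ) → G) (μ κ : Measure G)

/-- the integral over the torus -/
def J4 (f : G → ℂ) (h z z' : G) : ℂ :=
  ∫ θ in Set.Icc (0 : Fin r → ℝ) 1, P θ * f (h * z * q θ * z' * h⁻¹)

def J3 (f : G → ℂ) (h z : G) : ℂ := ∫ z', J4 P q f h z z' ∂κ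

def J2 (f : G → ℂ) (h : G) : ℂ := ∫ z, J3 P q κ f h z ∂κ

def J1 (f : G → ℂ) : ℂ := ∫ h, J2 P q κ f h ∂μ

variable {P q}

omit [TopologicalSpace G] in
theorem J1_smul (a : ℂ) (f : G → ℂ) :
    J1 P q μ κ (fun x => a * f x) = a * J1 P q μ κ f := by
  have h4 : ∀ h z z', J4 P q (fun x => a * f x) h z z' = a * J4 P q f h z z' := by
    intro h z z'
    unfold J4
    rw [← integral_const_mul]
    refine integral_congr_ae (Filter.Eventually.of_forall fun θ => ?_)
    simp only
    ring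
  have h3 : ∀ h z, J3 P q κ (fun x => a * f x) h z = a * J3 P q κ f h z := by
    intro h z
    unfold J3
    rw [← integral_const_mul]
    simp only [h4]
  have h2 : ∀ h, J2 P q κ (fun x => a * f x) h = a * J2 P q κ f h := by
    intro h
    unfold J2
    rw [← integral_const_mul]
    simp only [h3]
  unfold J1
  rw [← integral_const_mul]
  simp only [h2]

omit [TopologicalSpace G] in
theorem J1_bound [IsProbabilityMeasure κ] [IsProbabilityMeasure μ] {A M : ℝ}
    (hA : ∀ θ, ‖P θ‖ ≤ A) {f : G → ℂ} (hf : ∀ x, ‖f x‖ ≤ M) : ‖J1 P q μ κ f‖ ≤ A * M := by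
  have hvol : (volume : Measure (Fin r → ℝ)).real (Set.Icc (0 : Fin r → ℝ) 1) = 1 := by
    rw [Measure.real, Real.volume_Icc_pi_toReal]
    · simp
    · intro i
      simp
  have h4 : ∀ h z z', ‖J4 P q f h z z'‖ ≤ A * M := by
    intro h z z'
    unfold J4
    have h5 := norm_setIntegral_le_of_norm_le_const (μ := volume)
      (s := Set.Icc (0 : Fin r → ℝ) 1) (C := A * M)
      (f := fun θ => P θ * f (h * z * q θ * z' * h⁻¹)) (isCompact_Icc.measure_lt_top)
      (fun θ _ => by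
        rw [norm_mul]
        exact mul_le_mul (hA θ) (hf _) (norm_nonneg _) ((norm_nonneg _).trans (hA θ)))
    rw [hvol, mul_one] at h5
    exact h5
  have h3 : ∀ h z, ‖J3 P q κ f h z‖ ≤ A * M := by
    intro h z
    have h5 := norm_integral_le_of_norm_le_const (μ := κ) (f := fun z' => J4 P q f h z z')
      (C := A * M) (Filter.Eventually.of_forall fun z' => h4 h z z')
    rw [probReal_univ, mul_one] at h5
    exact h5
  have h2 : ∀ h, ‖J2 P q κ f h‖ ≤ A * M := by
    intro h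
    have h5 := norm_integral_le_of_norm_le_const (μ := κ) (f := fun z => J3 P q κ f h z)
      (C := A * M) (Filter.Eventually.of_forall fun z => h3 h z)
    rw [probReal_univ, mul_one] at h5
    exact h5
  have h5 := norm_integral_le_of_norm_le_const (μ := μ) (f := fun h => J2 P q κ f h)
    (C := A * M) (Filter.Eventually.of_forall fun h => h2 h)
  rw [probReal_univ, mul_one] at h5
  exact h5

variable [IsTopologicalGroup G]

omit [MeasurableSpace G] in
theorem argc (hq : Continuous q) {f : G → ℂ} (hf : Continuous f) :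
    Continuous (fun x : (G × G × G) × (Fin r → ℝ) =>
      f (x.1.1 * x.1.2.1 * q x.2 * x.1.2.2 * x.1.1⁻¹)) := by
  refine hf.comp ?_
  have h1 : Continuous fun x : (G × G × G) × (Fin r → ℝ) => x.1.1 := continuous_fst.fst
  have h2 : Continuous fun x : (G × G × G) × (Fin r → ℝ) => x.1.2.1 := continuous_fst.snd.fst
  have h3 : Continuous fun x : (G × G × G) × (Fin r → ℝ) => x.1.2.2 := continuous_fst.snd.snd
  have h4 : Continuous fun x : (G × G × G) × (Fin r → ℝ) => q x.2 := hq.comp continuous_snd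
  exact (((h1.mul h2).mul h4).mul h3).mul h1.inv

omit [MeasurableSpace G] in
theorem int4 (hP : Continuous P) (hq : Continuous q) {f : G → ℂ} (hf : Continuous f) (h z z' : G) :
    IntegrableOn (fun θ => P θ * f (h * z * q θ * z' * h⁻¹)) (Set.Icc (0 : Fin r → ℝ) 1) := by
  have h1 : Continuous fun θ => f (h * z * q θ * z' * h⁻¹) :=
    hf.comp (((continuous_const.mul hq).mul continuous_const).mul continuous_const)
  exact (hP.mul h1).integrableOn_Icc

variable [CompactSpace G] [T2Space G] [SecondCountableTopology G]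

omit [MeasurableSpace G] [T2Space G] [CompactSpace G] in
theorem J4_cont [LocallyCompactSpace G] (hP : Continuous P) (hq : Continuous q) {f : G → ℂ}
    (hf : Continuous f) :
    Continuous fun x : G × G × G => J4 P q f x.1 x.2.1 x.2.2 := by
  have h1 : Continuous (Function.uncurry fun (x : G × G × G) (θ : Fin r → ℝ) =>
      P θ * f (x.1 * x.2.1 * q θ * x.2.2 * x.1⁻¹)) :=
    (hP.comp continuous_snd).mul (argc hq hf)
  exact continuous_parametric_integral_of_continuous h1 isCompact_Icc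

variable [BorelSpace G]

theorem J3_cont [IsFiniteMeasure κ] (hP : Continuous P) (hq : Continuous q) {f : G → ℂ}
    (hf : Continuous f) : Continuous fun x : G × G => J3 P q κ f x.1 x.2 := by
  have h1 : Continuous (Function.uncurry fun (x : G × G) (z' : G) => J4 P q f x.1 x.2 z') := by
    have h2 : Continuous fun y : (G × G) × G => ((y.1.1, y.1.2, y.2) : G × G × G) := by fun_prop
    exact (J4_cont hP hq hf).comp h2
  exact cont_int κ h1

theorem J2_cont [IsFiniteMeasure κ] (hP : Continuous P) (hq : Continuous q) {f : G → ℂ}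
    (hf : Continuous f) : Continuous fun x : G => J2 P q κ f x := by
  have h1 : Continuous (Function.uncurry fun (x : G) (z : G) => J3 P q κ f x z) :=
    J3_cont κ hP hq hf
  exact cont_int κ h1

omit [Group G] [IsTopologicalGroup G] [T2Space G] [SecondCountableTopology G] in
theorem integ {f : G → ℂ} (hf : Continuous f) (μ : Measure G) [IsFiniteMeasure μ] :
    Integrable f μ :=
  hf.integrable_of_hasCompactSupport (HasCompactSupport.of_compactSpace _)

theorem J1_add [IsFiniteMeasure κ] [IsFiniteMeasure μ] (hP : Continuous P) (hq : Continuous q)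
    {f g : G → ℂ} (hf : Continuous f) (hg : Continuous g) :
    J1 P q μ κ (fun x => f x + g x) = J1 P q μ κ f + J1 P q μ κ g := by
  have h4 : ∀ h z z', J4 P q (fun x => f x + g x) h z z' = J4 P q f h z z' + J4 P q g h z z' := by
    intro h z z'
    unfold J4
    rw [← integral_add (int4 hP hq hf h z z') (int4 hP hq hg h z z')]
    refine integral_congr_ae (Filter.Eventually.of_forall fun θ => ?_)
    simp only
    ring
  have h3 : ∀ h z, J3 P q κ (fun x => f x + g x) h z = J3 P q κ f h z + J3 P q κ g h z := by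
    intro h z
    unfold J3
    have e : ∀ {f : G → ℂ}, Continuous f → Continuous fun z' => J4 P q f h z z' := fun hf =>
      (J4_cont hP hq hf).comp (by fun_prop : Continuous fun z' : G => ((h, z, z') : G × G × G))
    rw [← integral_add (integ (e hf) κ) (integ (e hg) κ)]
    simp only [h4]
  have h2 : ∀ h, J2 P q κ (fun x => f x + g x) h = J2 P q κ f h + J2 P q κ g h := by
    intro h
    unfold J2
    have e : ∀ {f : G → ℂ}, Continuous f → Continuous fun z => J3 P q κ f h z := fun hf =>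
      (J3_cont κ hP hq hf).comp (by fun_prop : Continuous fun z : G => ((h, z) : G × G))
    rw [← integral_add (integ (e hf) κ) (integ (e hg) κ)]
    simp only [h3]
  unfold J1
  rw [← integral_add (integ (J2_cont κ hP hq hf) μ) (integ (J2_cont κ hP hq hg) μ)]
  simp only [h2]

/-! ### representations -/

theorem int_mul {Y : Type} [MeasurableSpace Y] (ν : Measure Y) {n : ℕ}
    (S : Y → Matrix (Fin n) (Fin n) ℂ) (hS : ∀ i j, Integrable (fun y => S y i j) ν)
    (A B : Matrix (Fin n) (Fin n) ℂ) (a b : Fin n) :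
    ∫ y, (A * S y * B) a b ∂ν = (A * (Matrix.of fun i j => ∫ y, S y i j ∂ν) * B) a b := by
  simp only [Matrix.mul_apply, Matrix.of_apply, Finset.sum_mul]
  rw [integral_finsetSum _ fun j _ => integrable_finsetSum _ fun i _ =>
    ((hS i j).const_mul _).mul_const _]
  refine Finset.sum_congr rfl fun j _ => ?_
  rw [integral_finsetSum _ fun i _ => ((hS i j).const_mul _).mul_const _]
  refine Finset.sum_congr rfl fun i _ => ?_
  rw [integral_mul_const, integral_const_mul]

omit [IsTopologicalGroup G] [T2Space G] [SecondCountableTopology G] in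
theorem J1_rep [IsProbabilityMeasure κ] [IsProbabilityMeasure μ] (hP : Continuous P)
    (hq : Continuous q) {n : ℕ} (R : Rep G (Fin n))
    (hS : ∀ i j k l, ∫ g, R.ρ g i j * conj (R.ρ g k l) ∂μ =
      if i = k ∧ j = l then 1 / (Fintype.card (Fin n) : ℂ) else 0) (a b : Fin n) :
    J1 P q μ κ (fun x => R.ρ x a b) =
      if a = b then ((Matrix.of fun i j => ∫ x, R.ρ x i j ∂κ) *
        (Matrix.of fun i j => ∫ θ in Set.Icc (0 : Fin r → ℝ) 1, P θ * R.ρ (q θ) i j) *
        (Matrix.of fun i j => ∫ x, R.ρ x i j ∂κ)).trace / n else 0 := by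
  have hce : ∀ i j, Continuous fun g => R.ρ g i j := fun i j => R.cont.matrix_elem i j
  set K : Matrix (Fin n) (Fin n) ℂ := Matrix.of fun i j => ∫ x, R.ρ x i j ∂κ with hK
  set D : Matrix (Fin n) (Fin n) ℂ := Matrix.of fun i j =>
    ∫ θ in Set.Icc (0 : Fin r → ℝ) 1, P θ * R.ρ (q θ) i j with hD
  have h4 : ∀ h z z', J4 P q (fun x => R.ρ x a b) h z z' =
      ((R.ρ h * R.ρ z * D) * R.ρ z' * R.ρ h⁻¹) a b := by
    intro h z z'
    unfold J4
    have e1 : ∀ θ, P θ * R.ρ (h * z * q θ * z' * h⁻¹) a b =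
        ((R.ρ h * R.ρ z) * (P θ • R.ρ (q θ)) * (R.ρ z' * R.ρ h⁻¹)) a b := by
      intro θ
      rw [Matrix.mul_smul, Matrix.smul_mul, Matrix.smul_apply, smul_eq_mul]
      congr 2
      simp only [map_mul, Matrix.mul_assoc]
    simp only [e1]
    rw [int_mul _ (fun θ => P θ • R.ρ (q θ)) (fun i j => by
      have h5 : Continuous fun θ => P θ * R.ρ (q θ) i j := hP.mul ((hce i j).comp hq)
      exact h5.integrableOn_Icc)]
    rw [← Matrix.mul_assoc]
    rfl
  have h3 : ∀ h z, J3 P q κ (fun x => R.ρ x a b) h z =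
      (R.ρ h * R.ρ z * (D * K * R.ρ h⁻¹)) a b := by
    intro h z
    unfold J3
    simp only [h4]
    rw [int_mul κ (fun z' => R.ρ z') (fun i j => integ (hce i j) κ)]
    simp only [Matrix.mul_assoc]
    rfl
  have h2 : ∀ h, J2 P q κ (fun x => R.ρ x a b) h = (R.ρ h * (K * D * K) * R.ρ h⁻¹) a b := by
    intro h
    unfold J2
    simp only [h3]
    rw [int_mul κ (fun z => R.ρ z) (fun i j => integ (hce i j) κ)]
    simp only [Matrix.mul_assoc]
    rfl
  unfold J1
  simp only [h2]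
  have e2 : ∀ h, (R.ρ h * (K * D * K) * R.ρ h⁻¹) a b =
      ∑ j, ∑ i, (K * D * K) i j * (R.ρ h a i * conj (R.ρ h b j)) := by
    intro h
    rw [R.unit, Matrix.mul_apply]
    refine Finset.sum_congr rfl fun j _ => ?_
    rw [Matrix.mul_apply, Finset.sum_mul, Matrix.conjTranspose_apply]
    refine Finset.sum_congr rfl fun i _ => ?_
    rw [starRingEnd_apply]
    ring
  simp only [e2]
  have hi : ∀ i j, Integrable (fun h => (K * D * K) i j * (R.ρ h a i * conj (R.ρ h b j))) μ := by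
    intro i j
    exact integ (continuous_const.mul ((hce a i).mul (Complex.continuous_conj.comp (hce b j)))) μ
  rw [integral_finsetSum _ fun j _ => integrable_finsetSum _ fun i _ => hi i j]
  have e3 : ∀ j, ∫ h, ∑ i, (K * D * K) i j * (R.ρ h a i * conj (R.ρ h b j)) ∂μ =
      if a = b then (K * D * K) j j / n else 0 := by
    intro j
    rw [integral_finsetSum _ fun i _ => hi i j, Finset.sum_eq_single j]
    · rw [integral_const_mul, hS]
      by_cases hab : a = b
      · rw [if_pos ⟨hab, rfl⟩, if_pos hab, Fintype.card_fin]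
        ring
      · rw [if_neg fun h => hab h.1, if_neg hab, mul_zero]
    · intro i _ hij
      rw [integral_const_mul, hS, if_neg fun h => hij h.2, mul_zero]
    · intro h
      exact absurd (Finset.mem_univ j) h
  simp only [e3]
  by_cases hab : a = b
  · simp only [if_pos hab]
    rw [← Finset.sum_div]
    rfl
  · simp only [if_neg hab]
    exact Finset.sum_const_zero

end Iter

/-! ### the conjugate representation -/

/-- the conjugate representation -/
def cjR {G : Type} [Group G] [TopologicalSpace G] {n : ℕ} (σ : Rep G (Fin n)) : Rep G (Fin n) where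
  ρ := ((starRingEnd ℂ).mapMatrix : Matrix (Fin n) (Fin n) ℂ →+* Matrix (Fin n) (Fin n) ℂ).toMonoidHom.comp σ.ρ
  cont := by
    have h : Continuous fun g => (σ.ρ g).map (starRingEnd ℂ) := σ.cont.matrix_map Complex.continuous_conj
    exact h
  unit := by
    intro g
    show (σ.ρ g⁻¹).map (starRingEnd ℂ) = ((σ.ρ g).map (starRingEnd ℂ))ᴴ
    rw [σ.unit]
    rfl

section Cj

variable {G : Type} [Group G] [TopologicalSpace G] {n : ℕ} (σ : Rep G (Fin n))

theorem cj_ρ (g : G) : (cjR σ).ρ g = (σ.ρ g).map (starRingEnd ℂ) := rfl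

theorem cj_apply (g : G) (i j : Fin n) : (cjR σ).ρ g i j = conj (σ.ρ g i j) := rfl

theorem cj_ch (g : G) : (cjR σ).ch g = conj (σ.ch g) := by
  unfold Rep.ch Matrix.trace
  rw [map_sum]
  rfl

theorem cj_irr (h : σ.Irr) : (cjR σ).Irr := by
  refine ⟨h.1, fun X hX => ?_⟩
  obtain ⟨c, hc⟩ := h.2 (X.map (starRingEnd ℂ)) fun g => by
    have h1 := congrArg (fun Y : Matrix (Fin n) (Fin n) ℂ => Y.map (starRingEnd ℂ)) (hX g)
    simp only [Matrix.map_mul, cj_ρ, Matrix.map_map] at h1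
    have e : (starRingEnd ℂ : ℂ → ℂ) ∘ (starRingEnd ℂ) = id := by
      funext z
      simp
    rw [e, Matrix.map_id] at h1
    exact h1
  refine ⟨conj c, ?_⟩
  ext i j
  have h1 := congrFun (congrFun hc i) j
  rw [Matrix.map_apply] at h1
  rw [← Complex.conj_conj (X i j), h1]
  simp only [Matrix.smul_apply, smul_eq_mul, map_mul]
  congr 1
  by_cases hij : i = j
  · rw [hij, Matrix.one_apply_eq, map_one]
  · rw [Matrix.one_apply_ne hij, map_zero]

end Cj

theorem cj_prep {N : ℕ} {H : Subgroup (SU N)} (hP : PFF H) {n : ℕ} {σ : Rep H (Fin n)} (h : PRep σ) :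
    PRep (cjR σ) := fun i j => hP.cj _ (h i j)

theorem cj_wt {N : ℕ} {H : Subgroup (SU N)} {r : ℕ} {Hc : Fin r → MT N} {n : ℕ} {σ : Rep H (Fin n)}
    {U : Matrix (Fin n) (Fin n) ℂ} {m : Fin n → Fin r → ℤ} (h : WT Hc σ U m) :
    WT Hc (cjR σ) (U.map (starRingEnd ℂ)) (fun j => -m j) := by
  have e1 : (U.map (starRingEnd ℂ))ᴴ = Uᴴ.map (starRingEnd ℂ) := rfl
  have e0 : (1 : Matrix (Fin n) (Fin n) ℂ).map (starRingEnd ℂ) = 1 :=
    Matrix.map_one _ (map_zero _) (map_one _)
  refine ⟨?_, ?_, ?_⟩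
  · rw [e1, ← Matrix.map_mul, h.lu, e0]
  · rw [e1, ← Matrix.map_mul, h.ru, e0]
  · intro g θ hg
    rw [cj_ρ, h.tor g θ hg, e1, Matrix.map_mul, Matrix.map_mul]
    congr 2
    ext i j
    rw [Matrix.map_apply]
    by_cases hij : i = j
    · rw [hij, Matrix.diagonal_apply_eq, Matrix.diagonal_apply_eq, eu_conj, dz_neg]
    · rw [Matrix.diagonal_apply_ne _ hij, Matrix.diagonal_apply_ne _ hij, map_zero]

/-! ### the integrals in a representation -/

theorem norm_eu (x : ℝ) : ‖eu x‖ = 1 := by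
  unfold eu
  have e : (2 * π * x * Complex.I : ℂ) = ((2 * π * x : ℝ) : ℂ) * Complex.I := by
    push_cast
    ring
  rw [e, Complex.norm_exp_ofReal_mul_I]

/-- the torus polynomial -/
def PT {r : ℕ} (l : (Fin r → ℤ) → ℂ) (T : Finset (Fin r → ℤ)) (θ : Fin r → ℝ) : ℂ :=
  ∑ m ∈ T, l m * eu (dz m θ)

theorem PT_cont {r : ℕ} (l : (Fin r → ℤ) → ℂ) (T : Finset (Fin r → ℤ)) : Continuous (PT l T) := by
  unfold PT
  exact continuous_finsetSum _ fun m _ => continuous_const.mul (eu_cont.comp (dz_cont m))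

theorem PT_bound {r : ℕ} (l : (Fin r → ℤ) → ℂ) (T : Finset (Fin r → ℤ)) (θ : Fin r → ℝ) :
    ‖PT l T θ‖ ≤ ∑ m ∈ T, ‖l m‖ := by
  unfold PT
  refine (norm_sum_le _ _).trans (Finset.sum_le_sum fun m _ => ?_)
  rw [norm_mul, norm_eu, mul_one]

theorem PT_int {r : ℕ} (hTP : S_TPOL) (l : (Fin r → ℤ) → ℂ) (T : Finset (Fin r → ℤ))
    (hT : ∀ m, l m ≠ 0 → m ∈ T) (v : Fin r → ℤ) :
    ∫ θ in Set.Icc (0 : Fin r → ℝ) 1, PT l T θ * eu (dz v θ) = l (-v) := by
  unfold PT
  have e1 : ∀ θ : Fin r → ℝ, (∑ m ∈ T, l m * eu (dz m θ)) * eu (dz v θ) =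
      ∑ m ∈ T, l m * eu (dz (m + v) θ) := by
    intro θ
    rw [Finset.sum_mul]
    refine Finset.sum_congr rfl fun m _ => ?_
    rw [dz_add, eu_add]
    ring
  simp only [e1]
  have e3 : ∀ m ∈ T, IntegrableOn (fun θ => l m * eu (dz (m + v) θ)) (Set.Icc (0 : Fin r → ℝ) 1) := by
    intro m _
    have h1 : Continuous fun θ => l m * eu (dz (m + v) θ) :=
      continuous_const.mul (eu_cont.comp (dz_cont (m + v)))
    exact h1.integrableOn_Icc
  rw [integral_finsetSum _ e3]
  have e2 : ∀ m, ∫ θ in Set.Icc (0 : Fin r → ℝ) 1, l m * eu (dz (m + v) θ) =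
      if m = -v then l m else 0 := by
    intro m
    rw [integral_const_mul, (hTP r).1]
    by_cases h : m = -v
    · rw [if_pos h, if_pos (by rw [h, neg_add_cancel]), mul_one]
    · rw [if_neg h, if_neg (fun h' => h (eq_neg_of_add_eq_zero_left h')), mul_zero]
  simp only [e2]
  rw [Finset.sum_ite_eq']
  by_cases h : -v ∈ T
  · rw [if_pos h]
  · rw [if_neg h]
    by_contra h1
    exact h (hT _ (Ne.symm h1))

/-- the trace of `K D K` -/
theorem trKDK {n : ℕ} {U : Matrix (Fin n) (Fin n) ℂ} (hU : Uᴴ * U = 1) (e l : Fin n → ℂ) :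
    ((U * Matrix.diagonal e * Uᴴ) * (U * Matrix.diagonal l * Uᴴ) * (U * Matrix.diagonal e * Uᴴ)).trace =
      ∑ k, e k * l k * e k := by
  have h1 : (U * Matrix.diagonal e * Uᴴ) * (U * Matrix.diagonal l * Uᴴ) * (U * Matrix.diagonal e * Uᴴ) =
      U * Matrix.diagonal (fun k => e k * l k * e k) * Uᴴ := by
    have h2 : ∀ a b : Fin n → ℂ, (U * Matrix.diagonal a * Uᴴ) * (U * Matrix.diagonal b * Uᴴ) =
        U * Matrix.diagonal (fun k => a k * b k) * Uᴴ := by
      intro a b
      calc (U * Matrix.diagonal a * Uᴴ) * (U * Matrix.diagonal b * Uᴴ)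
          = U * Matrix.diagonal a * (Uᴴ * U) * Matrix.diagonal b * Uᴴ := by
            simp only [Matrix.mul_assoc]
        _ = U * (Matrix.diagonal a * Matrix.diagonal b) * Uᴴ := by
            rw [hU]
            simp only [Matrix.mul_assoc, Matrix.one_mul]
        _ = _ := by rw [Matrix.diagonal_mul_diagonal]
    rw [h2, h2]
  rw [h1, Matrix.trace_mul_comm, ← Matrix.mul_assoc, hU, Matrix.one_mul, Matrix.trace_diagonal]

theorem D_eq {N : ℕ} {H : Subgroup (SU N)} {r : ℕ} {Hc : Fin r → MT N} {n : ℕ} {σ : Rep H (Fin n)}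
    {U : Matrix (Fin n) (Fin n) ℂ} {m : Fin n → Fin r → ℤ} (h : WT Hc σ U m) (hTP : S_TPOL)
    (hmem : ∀ θ, ta Hc θ ∈ H) (l : (Fin r → ℤ) → ℂ) (T : Finset (Fin r → ℤ))
    (hT : ∀ m, l m ≠ 0 → m ∈ T) :
    (Matrix.of fun i j => ∫ θ in Set.Icc (0 : Fin r → ℝ) 1, PT l T θ * σ.ρ (tt H Hc θ) i j) =
      U * Matrix.diagonal (fun k => l (-m k)) * Uᴴ := by
  have htt : ∀ θ, (tt H Hc θ).1 = ta Hc θ := by
    intro θ
    unfold tt
    rw [dif_pos (hmem θ)]
  ext i j
  rw [Matrix.of_apply]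
  have e1 : ∀ θ, PT l T θ * σ.ρ (tt H Hc θ) i j =
      (U * (Matrix.diagonal fun k => PT l T θ * eu (dz (m k) θ)) * Uᴴ) i j := by
    intro θ
    rw [h.tor _ θ (htt θ)]
    have e2 : (Matrix.diagonal fun k => PT l T θ * eu (dz (m k) θ)) =
        PT l T θ • Matrix.diagonal fun k => eu (dz (m k) θ) := by
      rw [← Matrix.diagonal_smul]
      rfl
    rw [e2, Matrix.mul_smul, Matrix.smul_mul, Matrix.smul_apply, smul_eq_mul]
  simp only [e1]
  rw [int_mul _ (fun θ => Matrix.diagonal fun k => PT l T θ * eu (dz (m k) θ))]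
  · have e3 : (Matrix.of fun i j => ∫ θ in Set.Icc (0 : Fin r → ℝ) 1,
        (Matrix.diagonal fun k => PT l T θ * eu (dz (m k) θ)) i j) =
        (Matrix.diagonal fun k => l (-m k) : Matrix (Fin n) (Fin n) ℂ) := by
      ext a b
      rw [Matrix.of_apply]
      by_cases hab : a = b
      · rw [hab, Matrix.diagonal_apply_eq]
        simp only [Matrix.diagonal_apply_eq]
        exact PT_int hTP l T hT (m b)
      · rw [Matrix.diagonal_apply_ne _ hab]
        simp only [Matrix.diagonal_apply_ne _ hab]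
        exact integral_zero _ _
    rw [e3]
  · intro a b
    by_cases hab : a = b
    · rw [hab]
      simp only [Matrix.diagonal_apply_eq]
      have h1 : Continuous fun θ => PT l T θ * eu (dz (m b) θ) :=
        (PT_cont l T).mul (eu_cont.comp (dz_cont (m b)))
      exact h1.integrableOn_Icc
    · simp only [Matrix.diagonal_apply_ne _ hab]
      exact integrable_zero _ _ _

/-- the right side for an entry of a representation -/
theorem right {N : ℕ} {H : Subgroup (SU N)} {r : ℕ} {Φ : RT r} {B : Matrix (Fin r) (Fin r) ℤ}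
    {Hc : Fin r → MT N} {E : (Fin r → ℤ) × (Fin r → ℤ) → MT N} {c k : ℝ} {d : ℕ}
    (hSC : S_SCHUR) (hTP : S_TPOL) (hHM : S_HMV) (hTR : S_TRF)
    (hX : CX H Φ B Hc E c k d) (hT : TAF H Φ Hc E) (hPF : PFF H)
    (μ : Measure H) [IsProbabilityMeasure μ] [μ.IsMulLeftInvariant]
    {ϑ : ℝ} {κ : Measure H} (hϑ : 0 < ϑ) (hκ : PM H Φ E c k ϑ κ) (nf : (Fin r → ℤ) → ℂ)
    (T : Finset (Fin r → ℤ)) (hlT : ∀ m, lm Φ ϑ nf m ≠ 0 → m ∈ T)
    {n : ℕ} {σ : Rep H (Fin n)} (hσ : σ.Irr) (hσp : PRep σ) {l l' : Fin r → ℤ}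
    (hl : HWR Φ Hc c k d σ l) (hl' : HWR Φ Hc c k d (cjR σ) l') {U : Matrix (Fin n) (Fin n) ℂ}
    {m : Fin n → Fin r → ℤ} (hW : WT Hc σ U m) (a b : Fin n) :
    J1 (PT (lm Φ ϑ nf) T) (tt H Hc) μ κ (fun x => σ.ρ x a b) =
      if a = b then wa Φ nf l' else 0 := by
  have hcs : CompactSpace H := isCompact_iff_compactSpace.1 hX.closed.isCompact
  have hsc : SecondCountableTopology H :=
    TopologicalSpace.Subtype.secondCountableTopology (H : Set (SU N))
  have hκp : IsProbabilityMeasure κ := hκ.prob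
  have htc : Continuous (tt H Hc) := by
    have e : tt H Hc = fun θ => (⟨ta Hc θ, hT.mem θ⟩ : H) := by
      funext θ
      unfold tt
      rw [dif_pos (hT.mem θ)]
    rw [e]
    exact hT.cont.subtype_mk _
  have hS := (hSC H μ (Fin n) σ hσ).1
  rw [J1_rep μ κ (PT_cont _ T) htc σ hS a b, D_eq hW hTP hT.mem _ T hlT]
  have hK : (Matrix.of fun i j => ∫ x, σ.ρ x i j ∂κ) =
      U * Matrix.diagonal (fun j => ((Real.exp (-(ϑ * cq Φ l (m j))) : ℝ) : ℂ)) * Uᴴ := by
    ext i j
    exact hHM N H r Φ B Hc E c k d hX ϑ κ hϑ hκ n σ l U m hσ hσp hl hW i j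
  have hW' := cj_wt hW
  have hK' : ∀ i j, ∫ x, (cjR σ).ρ x i j ∂κ = (U.map (starRingEnd ℂ) *
      Matrix.diagonal (fun j => ((Real.exp (-(ϑ * cq Φ l' (-m j))) : ℝ) : ℂ)) *
      (U.map (starRingEnd ℂ))ᴴ) i j :=
    hHM N H r Φ B Hc E c k d hX ϑ κ hϑ hκ n (cjR σ) l' _ _ (cj_irr σ hσ) (cj_prep hPF hσp) hl' hW'
  have hexp : ∀ j, ((Real.exp (-(ϑ * cq Φ l' (-m j))) : ℝ) : ℂ) =
      ((Real.exp (-(ϑ * cq Φ l (m j))) : ℝ) : ℂ) := by
    have h1 : U.map (starRingEnd ℂ) *
        Matrix.diagonal (fun j => ((Real.exp (-(ϑ * cq Φ l' (-m j))) : ℝ) : ℂ)) *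
        (U.map (starRingEnd ℂ))ᴴ = U.map (starRingEnd ℂ) *
        Matrix.diagonal (fun j => ((Real.exp (-(ϑ * cq Φ l (m j))) : ℝ) : ℂ)) *
        (U.map (starRingEnd ℂ))ᴴ := by
      ext i j
      rw [← hK']
      have h2 : ∫ x, (cjR σ).ρ x i j ∂κ = conj (∫ x, σ.ρ x i j ∂κ) := by
        rw [← integral_conj]
        rfl
      have h3 : ∫ x, σ.ρ x i j ∂κ =
        (U * Matrix.diagonal (fun j => ((Real.exp (-(ϑ * cq Φ l (m j))) : ℝ) : ℂ)) * Uᴴ) i j :=
        congrFun (congrFun hK i) j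
      rw [h2, h3]
      have e1 : (U.map (starRingEnd ℂ))ᴴ = Uᴴ.map (starRingEnd ℂ) := rfl
      have e2 : (Matrix.diagonal (fun j => ((Real.exp (-(ϑ * cq Φ l (m j))) : ℝ) : ℂ)) :
          Matrix (Fin n) (Fin n) ℂ) = (Matrix.diagonal
            (fun j => ((Real.exp (-(ϑ * cq Φ l (m j))) : ℝ) : ℂ))).map (starRingEnd ℂ) := by
        rw [Matrix.diagonal_map (map_zero _)]
        congr 1
        funext j
        exact (Complex.conj_ofReal _).symm
      rw [e1]
      conv_rhs => rw [e2]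
      rw [← Matrix.map_mul, ← Matrix.map_mul]
      rfl
    have h2 := congrArg (fun Y => (U.map (starRingEnd ℂ))ᴴ * Y * U.map (starRingEnd ℂ)) h1
    have h3 : ∀ Δ : Matrix (Fin n) (Fin n) ℂ, (U.map (starRingEnd ℂ))ᴴ *
        (U.map (starRingEnd ℂ) * Δ * (U.map (starRingEnd ℂ))ᴴ) * U.map (starRingEnd ℂ) = Δ := by
      intro Δ
      calc (U.map (starRingEnd ℂ))ᴴ * (U.map (starRingEnd ℂ) * Δ * (U.map (starRingEnd ℂ))ᴴ) *
            U.map (starRingEnd ℂ)
          = ((U.map (starRingEnd ℂ))ᴴ * U.map (starRingEnd ℂ)) * Δ *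
            ((U.map (starRingEnd ℂ))ᴴ * U.map (starRingEnd ℂ)) := by
            simp only [Matrix.mul_assoc]
        _ = Δ := by rw [hW'.ru, Matrix.one_mul, Matrix.mul_one]
    rw [h3, h3] at h2
    intro j
    exact congrFun (Matrix.diagonal_injective h2) j
  by_cases hab : a = b
  · rw [if_pos hab, if_pos hab, hK, trKDK hW.ru]
    have h1 := hTR N H r Φ B Hc E c k d hX n (cjR σ) l' _ _ hl' hW' ϑ nf
    have h2 : ∑ j, ((Real.exp (-(ϑ * cq Φ l (m j))) : ℝ) : ℂ) * lm Φ ϑ nf (-m j) *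
        ((Real.exp (-(ϑ * cq Φ l (m j))) : ℝ) : ℂ) = (n : ℂ) * wa Φ nf l' := by
      rw [← h1]
      refine Finset.sum_congr rfl fun j _ => ?_
      rw [← hexp j]
      have h3 : Real.exp (-(2 * ϑ * cq Φ l' (-m j))) =
          Real.exp (-(ϑ * cq Φ l' (-m j))) * Real.exp (-(ϑ * cq Φ l' (-m j))) := by
        rw [← Real.exp_add]
        congr 1
        ring
      rw [h3, Complex.ofReal_mul]
      ring
    rw [h2]
    have hn : (n : ℂ) ≠ 0 := by
      obtain ⟨x⟩ := hσ.1
      have := x.pos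
      exact Nat.cast_ne_zero.2 (by omega)
    exact mul_div_cancel_left₀ _ hn
  · rw [if_neg hab, if_neg hab]

/-! ### the left side -/

/-- the coefficient of a character in an entry -/
theorem coefc {G : Type} [Group G] [TopologicalSpace G] [IsTopologicalGroup G]
    [CompactSpace G] [T2Space G] [SecondCountableTopology G] [MeasurableSpace G] [BorelSpace G]
    (μ : Measure G) [IsProbabilityMeasure μ] [μ.IsMulLeftInvariant] (hSC : S_SCHUR)
    {n n' : ℕ} {σ : Rep G (Fin n)} {τ : Rep G (Fin n')} (hσ : σ.Irr) (hτ : τ.Irr) (a b : Fin n) :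
    ((∀ g, τ.ch g = (cjR σ).ch g) → ∫ g, σ.ρ g a b * τ.ch g ∂μ = if a = b then 1 / (n : ℂ) else 0) ∧
    ((¬ ∀ g, τ.ch g = (cjR σ).ch g) → ∫ g, σ.ρ g a b * τ.ch g ∂μ = 0) := by
  have hce : ∀ i j, Continuous fun g => σ.ρ g i j := fun i j => σ.cont.matrix_elem i j
  have hce' : ∀ i j, Continuous fun g => τ.ρ g i j := fun i j => τ.cont.matrix_elem i j
  obtain ⟨h1, h2⟩ := hSC G μ (Fin n) σ hσ
  constructor
  · intro h
    have e1 : ∀ g, σ.ρ g a b * τ.ch g = ∑ k, σ.ρ g a b * conj (σ.ρ g k k) := by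
      intro g
      rw [h g, cj_ch, ← Finset.mul_sum]
      unfold Rep.ch Matrix.trace
      rw [map_sum]
      rfl
    simp only [e1]
    have hi : ∀ k ∈ (Finset.univ : Finset (Fin n)),
        Integrable (fun g => σ.ρ g a b * conj (σ.ρ g k k)) μ := fun k _ =>
      integ ((hce a b).mul (Complex.continuous_conj.comp (hce k k))) μ
    rw [integral_finsetSum _ hi]
    simp only [h1]
    by_cases hab : a = b
    · rw [if_pos hab, Finset.sum_eq_single a]
      · rw [if_pos ⟨rfl, hab.symm⟩, Fintype.card_fin]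
      · intro k _ hk
        rw [if_neg fun h => hk h.1.symm]
      · intro h
        exact absurd (Finset.mem_univ a) h
    · rw [if_neg hab]
      refine Finset.sum_eq_zero fun k _ => ?_
      rw [if_neg fun h => hab (h.1.trans h.2.symm)]
  · intro h
    rcases h2 (Fin n') (cjR τ) (cj_irr τ hτ) with h3 | h3
    · exact absurd (fun g => by rw [cj_ch, h3 g, cj_ch, Complex.conj_conj]) h
    · have e1 : ∀ g, σ.ρ g a b * τ.ch g = ∑ k, σ.ρ g a b * conj ((cjR τ).ρ g k k) := by
        intro g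
        rw [← Finset.mul_sum]
        unfold Rep.ch Matrix.trace
        congr 1
        refine Finset.sum_congr rfl fun k _ => ?_
        rw [cj_apply, Complex.conj_conj]
        rfl
      simp only [e1]
      have hce2 : ∀ k, Continuous fun g => conj ((cjR τ).ρ g k k) := fun k =>
        Complex.continuous_conj.comp ((cjR τ).cont.matrix_elem k k)
      have hi : ∀ k ∈ (Finset.univ : Finset (Fin n')),
          Integrable (fun g => σ.ρ g a b * conj ((cjR τ).ρ g k k)) μ := fun k _ =>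
        integ ((hce a b).mul (hce2 k)) μ
      rw [integral_finsetSum _ hi]
      exact Finset.sum_eq_zero fun k _ => h3 a b k k

theorem ch_one {G : Type} [Group G] [TopologicalSpace G] {n : ℕ} (σ : Rep G (Fin n)) :
    σ.ch 1 = n := by
  unfold Rep.ch
  rw [map_one, Matrix.trace_one, Fintype.card_fin]

/-- the left side for an entry of a representation -/
theorem left {N : ℕ} {H : Subgroup (SU N)} {r : ℕ} {Φ : RT r} {B : Matrix (Fin r) (Fin r) ℤ}
    {Hc : Fin r → MT N} {E : (Fin r → ℤ) × (Fin r → ℤ) → MT N} {c k : ℝ} {d : ℕ}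
    (hSC : S_SCHUR) (hCJ : S_CONJ) (hDN : S_DENV) (hRV : S_RVOF) (hAT : S_ATFV) (hTP : S_TPOL)
    (hX : CX H Φ B Hc E c k d) (hT : TAF H Φ Hc E)
    (μ : Measure H) [IsProbabilityMeasure μ] [μ.IsMulLeftInvariant] {χ : IX Hc → H → ℂ}
    (hχ : CHI Φ Hc c k d χ) (w : (Fin r → ℤ) → ℂ) (F : Finset (IX Hc))
    (hF : ∀ i : IX Hc, w (wG i.1) ≠ 0 → i ∈ F)
    {n : ℕ} {σ : Rep H (Fin n)} (hσ : σ.Irr) {l' : Fin r → ℤ}
    (hl' : HWR Φ Hc c k d (cjR σ) l') (a b : Fin n) :
    ∫ x, σ.ρ x a b * ∑ i ∈ F, w (wG i.1) * (χ i 1 * χ i x) ∂μ = if a = b then w l' else 0 := by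
  classical
  have hcs : CompactSpace H := isCompact_iff_compactSpace.1 hX.closed.isCompact
  have hsc : SecondCountableTopology H :=
    TopologicalSpace.Subtype.secondCountableTopology (H : Set (SU N))
  have hV : RV (rd Φ) (pos Φ) := hRV r Φ B hX.one_le hX.lrd.ird
  have hA : ATV (rd Φ) (pos Φ) := hAT r (rd Φ) (pos Φ) hV
  have hdr := CHIF.dense_reg hDN hV hA
  have hDd : Dense (CHIF.DN H (rd Φ) Hc) :=
    CHIF.dense_DN hT.mem hT.cont hdr (hCJ N H r Φ B Hc E hX.closed hX.conn hX.lrd)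
  have hw := CHIF.wG_un hl'.reg
  set i₀ : IX Hc := ⟨CHIF.un l', fun z hz => by rw [hw]; exact hl'.triv z hz⟩ with hi₀
  have hχc : ∀ i, Continuous (χ i) := by
    intro i
    obtain ⟨n', σ', -, -, -, h2⟩ := hχ i
    have e : χ i = σ'.ch := by
      funext g
      rw [h2]
    rw [e]
    exact CHIF.ch_cont σ'
  have hce : Continuous fun g => σ.ρ g a b := σ.cont.matrix_elem a b
  -- the integral with one character
  have key : ∀ i, ∫ x, σ.ρ x a b * χ i x ∂μ = if i = i₀ then (if a = b then 1 / (n : ℂ) else 0) else 0 := by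
    intro i
    obtain ⟨n', τ, hτ, -, h1, h2⟩ := hχ i
    have e : ∀ x, χ i x = τ.ch x := fun x => (h2 x).symm
    simp only [e]
    obtain ⟨c1, c2⟩ := coefc μ hSC hσ hτ a b
    by_cases hi : i = i₀
    · rw [if_pos hi]
      refine c1 (CHIF.ch_eq hDd (l := l') ?_ hl')
      have h4 := h1
      rw [hi, hi₀] at h4
      rw [hw] at h4
      exact h4
    · rw [if_neg hi]
      refine c2 fun h => hi ?_
      refine Subtype.ext (CHIF.wG_inj (CHIF.at_inj hTP hV.W_one hV.free (CHIF.reg_wG _)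
        (CHIF.reg_wG _) fun θ => ?_))
      have e1 := h1.wcf ⟨ta Hc θ, hT.mem θ⟩ θ rfl
      have e2 := hl'.wcf ⟨ta Hc θ, hT.mem θ⟩ θ rfl
      rw [hi₀, hw, ← e1, ← e2, h]
  have hone : χ i₀ 1 = n := by
    obtain ⟨n', τ, hτ, -, h1, h2⟩ := hχ i₀
    have h4 := h1
    rw [hi₀] at h4
    rw [hw] at h4
    rw [← h2, CHIF.ch_eq hDd h4 hl' 1, ch_one]
  have hsum : ∀ x, σ.ρ x a b * ∑ i ∈ F, w (wG i.1) * (χ i 1 * χ i x) =
      ∑ i ∈ F, (w (wG i.1) * χ i 1) * (σ.ρ x a b * χ i x) := by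
    intro x
    rw [Finset.mul_sum]
    refine Finset.sum_congr rfl fun i _ => ?_
    ring
  have hi : ∀ i ∈ F, Integrable (fun x => (w (wG i.1) * χ i 1) * (σ.ρ x a b * χ i x)) μ := by
    intro i _
    have h1 : Continuous fun x => (w (wG i.1) * χ i 1) * (σ.ρ x a b * χ i x) :=
      continuous_const.mul (hce.mul (hχc i))
    exact integ h1 μ
  have e0 : ∫ x, σ.ρ x a b * ∑ i ∈ F, w (wG i.1) * (χ i 1 * χ i x) ∂μ =
      ∑ i ∈ F, (w (wG i.1) * χ i 1) * (if i = i₀ then (if a = b then 1 / (n : ℂ) else 0) else 0) := by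
    calc ∫ x, σ.ρ x a b * ∑ i ∈ F, w (wG i.1) * (χ i 1 * χ i x) ∂μ
        = ∫ x, ∑ i ∈ F, (w (wG i.1) * χ i 1) * (σ.ρ x a b * χ i x) ∂μ :=
          integral_congr_ae (Filter.Eventually.of_forall hsum)
      _ = ∑ i ∈ F, ∫ x, (w (wG i.1) * χ i 1) * (σ.ρ x a b * χ i x) ∂μ := integral_finsetSum _ hi
      _ = _ := by
          refine Finset.sum_congr rfl fun i _ => ?_
          rw [integral_const_mul, key]
  rw [e0]
  have hn : (n : ℂ) ≠ 0 := by
    obtain ⟨x⟩ := hσ.1
    have := x.pos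
    exact Nat.cast_ne_zero.2 (by omega)
  by_cases hab : a = b
  · simp only [if_pos hab]
    have e : ∀ i ∈ F, (w (wG i.1) * χ i 1) * (if i = i₀ then 1 / (n : ℂ) else 0) =
        if i = i₀ then w l' else 0 := by
      intro i _
      by_cases hi : i = i₀
      · rw [if_pos hi, if_pos hi, hi, hone]
        have e3 : wG i₀.1 = l' := hw
        rw [e3, mul_assoc, mul_one_div_cancel hn, mul_one]
      · rw [if_neg hi, if_neg hi, mul_zero]
    rw [Finset.sum_congr rfl e, Finset.sum_ite_eq']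
    by_cases h0 : i₀ ∈ F
    · rw [if_pos h0]
    · rw [if_neg h0]
      by_contra h1
      refine h0 (hF i₀ ?_)
      have e3 : wG i₀.1 = l' := hw
      rw [e3]
      exact Ne.symm h1
  · simp only [if_neg hab]
    refine Finset.sum_eq_zero fun i _ => ?_
    rw [ite_self, mul_zero]

end IDM

theorem t_IDM : M_IDM := by
  intro hSC hWF hCM hTA hCJ hDN hRV hAT hTP hPF hDR hCA hTS hNR hUN hHM hTR
    N H r Φ B Hc E c k d hX μ _ _ χ hχ ϑ κ hϑ hκ nf T F hlT hF f hf
  have hcs : CompactSpace H := isCompact_iff_compactSpace.1 hX.closed.isCompact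
  have hsc : SecondCountableTopology H :=
    TopologicalSpace.Subtype.secondCountableTopology (H : Set (SU N))
  have hκp : IsProbabilityMeasure κ := hκ.prob
  have hT : TAF H Φ Hc E := hTA N H r Φ B Hc E hX.closed hX.lrd
  have hPFF : PFF H := hPF N H hX.closed
  have htc : Continuous (tt H Hc) := by
    have e : tt H Hc = fun θ => (⟨ta Hc θ, hT.mem θ⟩ : H) := by
      funext θ
      unfold tt
      rw [dif_pos (hT.mem θ)]
    rw [e]
    exact hT.cont.subtype_mk _
  have hχc : ∀ i, Continuous (χ i) := by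
    intro i
    obtain ⟨n', σ', -, -, -, h2⟩ := hχ i
    have e : χ i = σ'.ch := by
      funext g
      rw [h2]
    rw [e]
    exact CHIF.ch_cont σ'
  set S : H → ℂ := fun x => ∑ i ∈ F, wa Φ nf (wG i.1) * (χ i 1 * χ i x) with hS
  have hSc : Continuous S := by
    rw [hS]
    exact continuous_finsetSum _ fun i _ => continuous_const.mul (continuous_const.mul (hχc i))
  obtain ⟨A, hA⟩ := isCompact_univ.exists_bound_of_continuousOn (hSc.continuousOn (s := Set.univ))
  obtain ⟨X, hXF⟩ := hX.frame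
  have key := hUN N H hX.closed
    (fun f => ∫ x, f x * S x ∂μ - IDM.J1 (IDM.PT (lm Φ ϑ nf) T) (tt H Hc) μ κ f)
    (A + ∑ m ∈ T, ‖lm Φ ϑ nf m‖) ?_ ?_ ?_ ?_ f hf
  · have h1 := sub_eq_zero.1 key
    exact h1
  · intro f g hf hg
    simp only
    rw [IDM.J1_add μ κ (IDM.PT_cont _ T) htc hf hg]
    have e : ∫ x, (f x + g x) * S x ∂μ = ∫ x, f x * S x ∂μ + ∫ x, g x * S x ∂μ := by
      have i1 : Integrable (fun x => f x * S x) μ := IDM.integ (hf.mul hSc) μ
      have i2 : Integrable (fun x => g x * S x) μ := IDM.integ (hg.mul hSc) μ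
      rw [← integral_add i1 i2]
      simp only [add_mul]
    rw [e]
    ring
  · intro a f hf
    simp only
    rw [IDM.J1_smul]
    have e : ∫ x, (a * f x) * S x ∂μ = a * ∫ x, f x * S x ∂μ := by
      rw [← integral_const_mul]
      simp only [mul_assoc]
    rw [e]
    ring
  · intro f M hf hM
    have hM0 : 0 ≤ M := (norm_nonneg _).trans (hM 1)
    have h1 := norm_integral_le_of_norm_le_const (μ := μ) (f := fun x => f x * S x)
      (C := A * M) (Filter.Eventually.of_forall fun x => by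
        rw [norm_mul, mul_comm]
        exact mul_le_mul (hA x (Set.mem_univ x)) (hM x) (norm_nonneg _)
          ((norm_nonneg _).trans (hA x (Set.mem_univ x))))
    rw [probReal_univ, mul_one] at h1
    have h2 := IDM.J1_bound (P := IDM.PT (lm Φ ϑ nf) T) (q := tt H Hc) μ κ
      (fun θ => IDM.PT_bound (lm Φ ϑ nf) T θ) hM
    calc ‖∫ x, f x * S x ∂μ - IDM.J1 (IDM.PT (lm Φ ϑ nf) T) (tt H Hc) μ κ f‖
        ≤ A * M + (∑ m ∈ T, ‖lm Φ ϑ nf m‖) * M := (norm_sub_le _ _).trans (add_le_add h1 h2)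
      _ = (A + ∑ m ∈ T, ‖lm Φ ϑ nf m‖) * M := by ring
  · intro n σ hσ hσp a b
    obtain ⟨l, hl⟩ := hNR N H r Φ B Hc E c k d X hX.one_le hX.closed hX.conn hX.lrd hX.kc hXF n σ hσ hσp
    obtain ⟨l', hl'⟩ := hNR N H r Φ B Hc E c k d X hX.one_le hX.closed hX.conn hX.lrd hX.kc hXF n
      (IDM.cjR σ) (IDM.cj_irr σ hσ) (IDM.cj_prep hPFF hσp)
    obtain ⟨U, m, hU1, hU2, hU3⟩ := hTS N H r Φ B Hc E hX.closed hX.lrd n σ hσp
    have hR := IDM.right hSC hTP hHM hTR hX hT hPFF μ hϑ hκ nf T hlT hσ hσp hl hl'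
      ⟨hU1, hU2, hU3⟩ a b
    have hL := IDM.left hSC hCJ hDN hRV hAT hTP hX hT μ hχ (wa Φ nf) F hF hσ hl' a b
    simp only
    rw [hR, sub_eq_zero]
    exact hL

end

end STZ3
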