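import Pool.Agent.STZ3.StD3
import Pool.Agent.STZ.TTX

/-!
# Module IPC: the bound (I'') for the chain packets
-/

set_option autoImplicit false
set_option linter.unusedSectionVars false

namespace STZ3

open STZ LGR MeasureTheory Matrix Filter

open scoped ComplexConjugate Matrix Real Topology

noncomputable section

namespace IPC

/-- a power of `J + 3` is at most `C 2^(ε J)` -/
theorem cnt (k : ℕ) {ε : ℝ} (hε : 0 < ε) :
    ∃ C : ℝ, 0 ≤ C ∧ ∀ J : ℕ, ((J : ℝ) + 3) ^ k ≤ C * (2 : ℝ) ^ (ε * J) := by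
  have hl : 0 < Real.log 2 := Real.log_pos (by norm_num)
  refine ⟨(k.factorial : ℝ) / (ε * Real.log 2) ^ k * (2 : ℝ) ^ (3 * ε), by positivity, fun J => ?_⟩
  have h1 := Real.pow_div_factorial_le_exp (x := ε * Real.log 2 * ((J : ℝ) + 3)) (by positivity) k
  have h2 : Real.exp (ε * Real.log 2 * ((J : ℝ) + 3)) = (2 : ℝ) ^ (3 * ε) * (2 : ℝ) ^ (ε * J) := by
    rw [← Real.rpow_add (by norm_num), Real.rpow_def_of_pos (by norm_num)]
    congr 1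
    ring
  rw [h2, mul_pow, div_le_iff₀ (by positivity)] at h1
  have h3 : ((J : ℝ) + 3) ^ k = (ε * Real.log 2) ^ k * ((J : ℝ) + 3) ^ k / (ε * Real.log 2) ^ k := by
    field_simp
  rw [h3, div_le_iff₀ (by positivity)]
  refine h1.trans (le_of_eq ?_)
  have h4 : (ε * Real.log 2) ^ k ≠ 0 := by positivity
  field_simp

section

open TTX

variable {N : ℕ} {H : Subgroup (SU N)} [CompactSpace H] [SecondCountableTopology H]
  (μ : Measure H) [IsProbabilityMeasure μ]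

/-- continuity of the inner integrals -/
theorem c2 {f : ℝ → H → H → ℝ} (hf : Continuous fun z : ℝ × H × H => f z.1 z.2.1 z.2.2) :
    Continuous fun z : ℝ × H => ∫ g, f z.1 z.2 g ∂μ := by
  refine par μ (f := fun (w : ℝ × H) (g : H) => f w.1 w.2 g) ?_
  exact hf.comp (f := fun z : (ℝ × H) × H => (z.1.1, z.1.2, z.2)) (by fun_prop)

theorem c3 {f : ℝ → H → H → ℝ} (hf : Continuous fun z : ℝ × H × H => f z.1 z.2.1 z.2.2) :
    Continuous fun t : ℝ => ∫ h, ∫ g, f t h g ∂μ ∂μ :=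
  par μ (f := fun (t : ℝ) (h : H) => ∫ g, f t h g ∂μ) (c2 μ hf)

/-- monotonicity of the double integral -/
theorem mono2 {f f' : ℝ → H → H → ℝ} (hf : Continuous fun z : ℝ × H × H => f z.1 z.2.1 z.2.2)
    (hf' : Continuous fun z : ℝ × H × H => f' z.1 z.2.1 z.2.2) (t : ℝ)
    (h : ∀ x y, f t x y ≤ f' t x y) :
    ∫ x, ∫ y, f t x y ∂μ ∂μ ≤ ∫ x, ∫ y, f' t x y ∂μ ∂μ := by
  have e1 : ∀ {f : ℝ → H → H → ℝ}, (Continuous fun z : ℝ × H × H => f z.1 z.2.1 z.2.2) →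
      ∀ x, Continuous fun y => f t x y := by
    intro f hf x
    exact hf.comp (f := fun y : H => (t, x, y)) (by fun_prop)
  have e2 : ∀ {f : ℝ → H → H → ℝ}, (Continuous fun z : ℝ × H × H => f z.1 z.2.1 z.2.2) →
      Continuous fun x => ∫ y, f t x y ∂μ := by
    intro f hf
    exact (c2 μ hf).comp (f := fun x : H => (t, x)) (by fun_prop)
  refine integral_mono (integ μ (e2 hf)) (integ μ (e2 hf')) fun x => ?_
  exact integral_mono (integ μ (e1 hf x)) (integ μ (e1 hf' x)) fun y => h x y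

theorem yr_mem {N : ℕ} {H : Subgroup (SU N)} {r : ℕ} {Φ : RT r} {B : Matrix (Fin r) (Fin r) ℤ}
    {Hc : Fin r → MT N} {E : (Fin r → ℤ) × (Fin r → ℤ) → MT N} (hl : LIF H)
    (hL : LRD H Φ B Hc E) (c : ℝ) (a : {p // p ∈ pos Φ} × Bool) : yr Φ E c a ∈ lie H := by
  unfold yr
  have hp : a.1.1 ∈ Φ := by
    have := a.1.2
    unfold pos at this
    exact (Finset.mem_filter.1 this).1
  have h1 := hL.emem _ hp
  refine hl.smul _ _ ?_
  split_ifs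
  · exact h1.1
  · exact h1.2

/-- sum over the triples -/
theorem sum3 {ι : Type} [Fintype ι] (f : ι → ι → ι → ℂ) (b : ℝ)
    (h : ∀ i j k, ‖f i j k‖ ≤ b) :
    ‖∑ i, ∑ j, ∑ k, f i j k‖ ≤ (Fintype.card ι : ℝ) ^ 3 * b := by
  have h1 : ∀ i j, ‖∑ k, f i j k‖ ≤ (Fintype.card ι : ℝ) * b := by
    intro i j
    refine (norm_sum_le _ _).trans ?_
    refine (Finset.sum_le_card_nsmul _ _ _ fun k _ => h i j k).trans (le_of_eq ?_)
    rw [Finset.card_univ, nsmul_eq_mul]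
  have h2 : ∀ i, ‖∑ j, ∑ k, f i j k‖ ≤ (Fintype.card ι : ℝ) * ((Fintype.card ι : ℝ) * b) := by
    intro i
    refine (norm_sum_le _ _).trans ?_
    refine (Finset.sum_le_card_nsmul _ _ _ fun j _ => h1 i j).trans (le_of_eq ?_)
    rw [Finset.card_univ, nsmul_eq_mul]
  refine (norm_sum_le _ _).trans ?_
  refine (Finset.sum_le_card_nsmul _ _ _ fun i _ => h2 i).trans (le_of_eq ?_)
  rw [Finset.card_univ, nsmul_eq_mul]
  ring

end

end IPC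

theorem t_IPC : M_IPC := by
  intro hLIE hWF hTAU hPSF hPRM hRGM hLMC hEXI hFPX hVCN hNRC hDCP hOFD hSMK hSMJ hDGC
  intro N H Φ B Hc E c k d hX hA2 μ _ _ χ hχ
  have hI := hX.lrd.ird
  have hW := hWF 2 Φ B hI
  have hP := hPRM 2 Φ B hX.one_le hI hW
  have hcs : CompactSpace H := isCompact_iff_compactSpace.1 hX.closed.isCompact
  have hsc : SecondCountableTopology H :=
    TopologicalSpace.Subtype.secondCountableTopology (H : Set (SU N))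
  obtain ⟨K₀, hK₀, hD⟩ := hDGC N H Φ B Hc E c k d hX hA2 μ
  refine ⟨K₀ + 1, by linarith, ?_⟩
  intro m C₁ ε A hm hC hε hε1 hA hmA
  obtain ⟨C₂, hC₂, hF⟩ := hFPX 2 Φ B hX.one_le hI hW m hm
  have hC₂0 : 0 ≤ C₂ := by linarith
  obtain ⟨K', CL, hCL, hL⟩ := hLMC 2 Φ B hX.one_le hI hW m C₁ hm hC
  obtain ⟨CD, hCD, hDG⟩ := hD m C₁ C₂ ε (A + 1) hm hC hC₂0 hε (by linarith) (by linarith)
  obtain ⟨CO, hCO, hOF⟩ := hOFD N H 2 Φ B Hc E c k d hX μ m C₂ hm hC₂0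
  obtain ⟨CJ, hCJ, hSJ⟩ := hSMJ Φ B hI hW hA2 m C₁ C₂ ε (A + 1) hm hC hC₂0 hε (by linarith) (by
    rw [hA2.card]
    push_cast
    linarith)
  obtain ⟨hVC, hPO⟩ := hVCN N H 2 Φ B Hc E c k d hX μ
  have hn : (pos Φ).card = 3 := hA2.card
  obtain ⟨CC, hCC, hcnt⟩ := IPC.cnt 9 hε
  refine ⟨CC * (CD + CO * CL + 4 * C₂ ^ 2 * CJ), by positivity, ?_⟩
  intro J q a x F G hJ hq hR hF0 hG hG1
  obtain ⟨R, M₀, jm, L, ψ, ν₁, ν₂, hFP⟩ := hF ε J a x hε hJ hR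
  set T : Finset (Fin 2 → ℤ) := cb 2 (K' * 2 ^ J) with hT
  have hlaT : ∀ τ l, lac Φ m J q a x τ l ≠ 0 → l ∈ T := fun τ l h => hL.supp J q a x τ l hq.qh h
  obtain ⟨κ, hκ⟩ := hEXI N H hX.closed _ (fun b : {p // p ∈ pos Φ} × Bool =>
      ((√((if b.1 = a then tc a x else th x) / k) : ℝ) : ℂ) • yr Φ E c b)
    (fun b => (hLIE N H hX.closed).smul _ _ (IPC.yr_mem (hLIE N H hX.closed) hX.lrd c b))
  have hPM : PC H Φ E c k a (th x) (tc a x) κ := hκ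
  have hκp := hκ.prob
  obtain ⟨-, hVJ, hVb, hVi⟩ := hVC κ 1 G hκp hG
  set V : ℝ → H → H → ℂ := vw κ G with hV
  have hVJ' : J3 V := hVJ
  have hV1 : ∀ t h g, ‖V t h g‖ ≤ 1 := fun t h g => (hVb 1 hG1 t h g).2
  have hVn : Continuous fun z : ℝ × H × H => ‖V z.1 z.2.1 z.2.2‖ := hVJ'.norm
  have hmG : ∫ t in (0 : ℝ)..1, ∫ h, ∫ g, ‖V t h g‖ ∂μ ∂μ ≤ mG μ G := by
    unfold mG
    refine intervalIntegral.integral_mono_on zero_le_one ?_ ?_ fun t _ => (hVi t).2.1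
    · exact (IPC.c3 μ (f := fun t h g => ‖V t h g‖) hVn).intervalIntegrable _ _
    · refine (TTX.par μ (f := fun t x => ‖G t x‖) ?_).intervalIntegrable _ _
      have h5 : Continuous fun z : ℝ × H => G z.1 z.2 := hG
      exact h5.norm
  have hmG0 : 0 ≤ mG μ G := by
    unfold mG
    exact intervalIntegral.integral_nonneg zero_le_one fun t _ => integral_nonneg fun y => norm_nonneg _
  have hVn2 : Continuous fun z : ℝ × H × H => ‖V z.1 z.2.1 z.2.2‖ ^ 2 := hVn.pow 2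
  have hV2 : ∫ t in (0 : ℝ)..1, ∫ h, ∫ g, ‖V t h g‖ ^ 2 ∂μ ∂μ ≤ mG μ G := by
    refine le_trans ?_ hmG
    refine intervalIntegral.integral_mono_on zero_le_one ?_ ?_ fun t _ => ?_
    · exact (IPC.c3 μ (f := fun t h g => ‖V t h g‖ ^ 2) hVn2).intervalIntegrable _ _
    · exact (IPC.c3 μ (f := fun t h g => ‖V t h g‖) hVn).intervalIntegrable _ _
    · refine IPC.mono2 μ (f := fun t h g => ‖V t h g‖ ^ 2) (f' := fun t h g => ‖V t h g‖)
        hVn2 hVn t fun h g => ?_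
      have h1 := hV1 t h g
      have h2 := norm_nonneg (V t h g)
      nlinarith
  have hV20 : 0 ≤ ∫ t in (0 : ℝ)..1, ∫ h, ∫ g, ‖V t h g‖ ^ 2 ∂μ ∂μ :=
    intervalIntegral.integral_nonneg zero_le_one fun t _ =>
      integral_nonneg fun h => integral_nonneg fun g => by positivity
  have hcont : ∀ l, Continuous fun τ => lac Φ m J q a x τ l := fun l => hL.cont J q a x l
  have hN1 := hNRC N H 2 Φ B Hc E c k d hX μ χ hχ m J q a x T F κ G hlaT hF0 hPM hG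
  rw [← hV] at hN1
  have hdec := hDCP N H 2 Φ B Hc E c k d hX μ m C₂ R M₀ jm L ψ
    ν₁ ν₂ hFP.fcf (lac Φ m J q a x) T V V hcont hVJ' hVJ'
  have hM0 : ∀ p, 0 < M₀ p := by
    intro p
    have h1 := hFP.lo p
    have h2 : (0 : ℝ) < 2 ^ jm p * M₀ p := lt_of_lt_of_le (by positivity) h1
    exact pos_of_mul_pos_right h2 (by positivity)
  set Z : ℝ := Lb a x / (dl x a * bx' x ^ 2) with hZ
  have hZ0 : 0 ≤ Z := by
    have hb : 0 ≤ bx' x := le_trans (by positivity) (hP.bge J x)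
    have hd : 0 ≤ dl x a := (hP.dpos J x a).le
    refine div_nonneg ?_ (by positivity)
    unfold Lb
    have h1 : 0 ≤ max (√(bx' x * 2 ^ J)) (bx' x / dl x a) := le_max_of_le_left (Real.sqrt_nonneg _)
    positivity
  have hm32 : 0 ≤ mG μ G ^ ((3 : ℝ) / 2) := Real.rpow_nonneg hmG0 _
  have hJ0 : (0 : ℝ) ≤ J := Nat.cast_nonneg J
  have h0 : (0 : ℝ) ≤ (2 : ℝ) ^ (-((A + 1) * J)) := by positivity
  have h0' : (0 : ℝ) ≤ (2 : ℝ) ^ (K₀ * ε * J) := by positivity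
  -- the L² bound of the pieces
  have hpo : ∀ j : {p // p ∈ pos Φ} → Fin (L + 2), J3 (po Hc (ν₁ j) (ν₂ j) V) ∧
      √(∫ t in (0 : ℝ)..1, ∫ h, ∫ g, ‖po Hc (ν₁ j) (ν₂ j) V t h g‖ ^ 2 ∂μ ∂μ) ≤
        2 * C₂ * √(mG μ G) := by
    intro j
    have hf1 := hFP.fcf.fin₁ j
    have hf2 := hFP.fcf.fin₂ j
    obtain ⟨hj1, -, hj3⟩ := hPO (ν₁ j) (ν₂ j) V hf1 hf2 hVJ'
    refine ⟨hj1, ?_⟩
    have hj1n : Continuous fun z : ℝ × H × H => ‖po Hc (ν₁ j) (ν₂ j) V z.1 z.2.1 z.2.2‖ ^ 2 :=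
      (Continuous.norm (f := fun z : ℝ × H × H => po Hc (ν₁ j) (ν₂ j) V z.1 z.2.1 z.2.2) hj1).pow 2
    have hmass : (ν₁ j).real Set.univ + (ν₂ j).real Set.univ ≤ 2 * C₂ := by
      have h1 := hFP.fcf.mass₁ j
      have h2 := hFP.fcf.mass₂ j
      linarith
    have hmass0 : 0 ≤ (ν₁ j).real Set.univ + (ν₂ j).real Set.univ := by positivity
    have h6 : ∫ t in (0 : ℝ)..1, ∫ h, ∫ g, ‖po Hc (ν₁ j) (ν₂ j) V t h g‖ ^ 2 ∂μ ∂μ ≤
        (2 * C₂) ^ 2 * mG μ G := by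
      calc ∫ t in (0 : ℝ)..1, ∫ h, ∫ g, ‖po Hc (ν₁ j) (ν₂ j) V t h g‖ ^ 2 ∂μ ∂μ
          ≤ ∫ t in (0 : ℝ)..1, (2 * C₂) ^ 2 * ∫ h, ∫ g, ‖V t h g‖ ^ 2 ∂μ ∂μ := by
            refine intervalIntegral.integral_mono_on zero_le_one ?_ ?_ fun t _ => ?_
            · exact (IPC.c3 μ (f := fun t h g => ‖po Hc (ν₁ j) (ν₂ j) V t h g‖ ^ 2)
                hj1n).intervalIntegrable _ _
            · exact (continuous_const.mul
                (IPC.c3 μ (f := fun t h g => ‖V t h g‖ ^ 2) hVn2)).intervalIntegrable _ _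
            · refine (hj3 t).2.trans ?_
              refine mul_le_mul_of_nonneg_right (pow_le_pow_left₀ hmass0 hmass 2) ?_
              exact integral_nonneg fun h => integral_nonneg fun g => by positivity
        _ = (2 * C₂) ^ 2 * ∫ t in (0 : ℝ)..1, ∫ h, ∫ g, ‖V t h g‖ ^ 2 ∂μ ∂μ :=
            intervalIntegral.integral_const_mul _ _
        _ ≤ (2 * C₂) ^ 2 * mG μ G := mul_le_mul_of_nonneg_left hV2 (by positivity)
    calc √(∫ t in (0 : ℝ)..1, ∫ h, ∫ g, ‖po Hc (ν₁ j) (ν₂ j) V t h g‖ ^ 2 ∂μ ∂μ)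
        ≤ √((2 * C₂) ^ 2 * mG μ G) := Real.sqrt_le_sqrt h6
      _ = 2 * C₂ * √(mG μ G) := by
          rw [Real.sqrt_mul (by positivity), Real.sqrt_sq (by positivity)]
  -- the bound for every triple
  have hb : ∀ j₁ j₂ j₃ : {p // p ∈ pos Φ} → Fin (L + 2),
      ‖TX Hc μ (km (lac Φ m J q a x) T (pj' ψ j₂)) (po Hc (ν₁ j₁) (ν₂ j₁) V)
        (po Hc (ν₁ j₃) (ν₂ j₃) V)‖ ≤
      (CD + CO * CL + 4 * C₂ ^ 2 * CJ) * (2 : ℝ) ^ (-((A + 1) * J)) * mG μ G +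
        CD * (2 : ℝ) ^ (K₀ * ε * J) * Z * mG μ G ^ ((3 : ℝ) / 2) := by
    intro j₁ j₂ j₃
    have g1 : 0 ≤ CD * (2 : ℝ) ^ (-((A + 1) * J)) * mG μ G := by positivity
    have g2 : 0 ≤ CO * CL * (2 : ℝ) ^ (-((A + 1) * J)) * mG μ G := by positivity
    have g3 : 0 ≤ 4 * C₂ ^ 2 * CJ * (2 : ℝ) ^ (-((A + 1) * J)) * mG μ G := by positivity
    have g4 : 0 ≤ CD * (2 : ℝ) ^ (K₀ * ε * J) * Z * mG μ G ^ ((3 : ℝ) / 2) := by positivity
    by_cases hj : (∃ p, ε * J < |((j₁ p).val : ℝ) - (j₂ p).val|) ∨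
        ∃ p, ε * J < |((j₃ p).val : ℝ) - (j₂ p).val|
    · have h1 := hOF R M₀ jm L ψ ν₁ ν₂ hM0 hFP.fcf (lac Φ m J q a x) T V V j₁ j₂ j₃
        (CL * 2 ^ (J * (pos Φ).card)) (ε * J) hcont (by positivity)
        (fun τ l _ => hL.bd J q a x τ l hq.qh) hVJ' hVJ' (by positivity) hj
      have h2 : √(∫ t in (0 : ℝ)..1, ∫ h, ∫ g, ‖V t h g‖ ^ 2 ∂μ ∂μ) *
          √(∫ t in (0 : ℝ)..1, ∫ h, ∫ g, ‖V t h g‖ ^ 2 ∂μ ∂μ) ≤ mG μ G := by
        rw [Real.mul_self_sqrt hV20]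
        exact hV2
      have h3 : (2 : ℝ) ^ (J * (pos Φ).card) * (2 : ℝ) ^ (-(2 * m * (ε * J))) ≤
          (2 : ℝ) ^ (-((A + 1) * J)) := by
        have h4 : ((2 : ℝ) ^ (J * (pos Φ).card) : ℝ) = (2 : ℝ) ^ ((J : ℝ) * 3) := by
          rw [hn, ← Real.rpow_natCast]
          push_cast
          rfl
        rw [h4, ← Real.rpow_add (by norm_num)]
        refine Real.rpow_le_rpow_of_exponent_le (by norm_num) ?_
        nlinarith
      calc _ ≤ _ := h1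
        _ ≤ CO * (CL * 2 ^ (J * (pos Φ).card)) * (2 : ℝ) ^ (-(2 * m * (ε * J))) * mG μ G :=
            mul_le_mul_of_nonneg_left h2 (by positivity)
        _ = CO * CL * (2 ^ (J * (pos Φ).card) * (2 : ℝ) ^ (-(2 * m * (ε * J)))) * mG μ G := by ring
        _ ≤ CO * CL * (2 : ℝ) ^ (-((A + 1) * J)) * mG μ G := by
            refine mul_le_mul_of_nonneg_right (mul_le_mul_of_nonneg_left h3 (by positivity)) hmG0
        _ ≤ _ := by linarith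
    · push Not at hj
      by_cases hLG : LGp (1 - ε) J M₀ jm j₂
      · have h1 := hDG J q a x R M₀ jm L ψ ν₁ ν₂ T κ G j₁ j₂ j₃ hJ hq.qh hR hFP hlaT hPM hG hG1
          hLG hj.1 hj.2
        rw [← hV, ← hZ] at h1
        linarith
      · have hs := hSJ J q a x R M₀ jm L ψ ν₁ ν₂ j₂ hJ hq hR hFP hLG
        have h1 := hSMK N H 2 Φ B Hc E c k d hX μ (lac Φ m J q a x) T (pj' ψ j₂)
          (po Hc (ν₁ j₁) (ν₂ j₁) V) (po Hc (ν₁ j₃) (ν₂ j₃) V) (CJ * (2 : ℝ) ^ (-((A + 1) * J)))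
          (by positivity) hcont (fun τ l _ => hs τ l) (hpo j₁).1 (hpo j₃).1
        have h2 : √(∫ t in (0 : ℝ)..1, ∫ h, ∫ g, ‖po Hc (ν₁ j₁) (ν₂ j₁) V t h g‖ ^ 2 ∂μ ∂μ) *
            √(∫ t in (0 : ℝ)..1, ∫ h, ∫ g, ‖po Hc (ν₁ j₃) (ν₂ j₃) V t h g‖ ^ 2 ∂μ ∂μ) ≤
            (2 * C₂ * √(mG μ G)) * (2 * C₂ * √(mG μ G)) :=
          mul_le_mul (hpo j₁).2 (hpo j₃).2 (Real.sqrt_nonneg _) (by positivity)
        have h3 : (2 * C₂ * √(mG μ G)) * (2 * C₂ * √(mG μ G)) = 4 * C₂ ^ 2 * mG μ G := by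
          have := Real.mul_self_sqrt hmG0
          linear_combination (4 * C₂ ^ 2) * this
        rw [h3] at h2
        calc _ ≤ _ := h1
          _ ≤ CJ * (2 : ℝ) ^ (-((A + 1) * J)) * (4 * C₂ ^ 2 * mG μ G) :=
              mul_le_mul_of_nonneg_left h2 (by positivity)
          _ ≤ _ := by linarith
  have h8 := IPC.sum3 _ _ hb
  rw [← hdec, ← hN1] at h8
  have hcard : (Fintype.card ({p // p ∈ pos Φ} → Fin (L + 2)) : ℝ) ^ 3 ≤
      CC * (2 : ℝ) ^ (ε * J) := by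
    refine le_trans ?_ (hcnt J)
    rw [Fintype.card_fun, Fintype.card_fin, Fintype.card_coe, hn]
    push_cast
    rw [← pow_mul]
    refine pow_le_pow_left₀ (by positivity) ?_ _
    have : (L : ℝ) ≤ J + 1 := by exact_mod_cast hFP.numL
    linarith
  have hb0 : 0 ≤ (CD + CO * CL + 4 * C₂ ^ 2 * CJ) * (2 : ℝ) ^ (-((A + 1) * J)) * mG μ G +
        CD * (2 : ℝ) ^ (K₀ * ε * J) * Z * mG μ G ^ ((3 : ℝ) / 2) := by positivity
  have h9 := h8.trans (mul_le_mul_of_nonneg_right hcard hb0)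
  have h10 : (2 : ℝ) ^ (ε * J) * (2 : ℝ) ^ (-((A + 1) * J)) ≤ (2 : ℝ) ^ (-(A * J)) := by
    rw [← Real.rpow_add (by norm_num)]
    refine Real.rpow_le_rpow_of_exponent_le (by norm_num) ?_
    nlinarith
  have h11 : (2 : ℝ) ^ (ε * J) * (2 : ℝ) ^ (K₀ * ε * J) = (2 : ℝ) ^ ((K₀ + 1) * ε * J) := by
    rw [← Real.rpow_add (by norm_num)]
    congr 1
    ring
  set D : ℝ := CD + CO * CL + 4 * C₂ ^ 2 * CJ with hDdef
  have hD0 : 0 ≤ D := by positivity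
  have hCDD : CD ≤ D := by
    have g1 : 0 ≤ CO * CL := by positivity
    have g2 : 0 ≤ 4 * C₂ ^ 2 * CJ := by positivity
    linarith
  have e1 : CC * (2 : ℝ) ^ (ε * J) * (D * (2 : ℝ) ^ (-((A + 1) * J)) * mG μ G +
        CD * (2 : ℝ) ^ (K₀ * ε * J) * Z * mG μ G ^ ((3 : ℝ) / 2)) =
        CC * D * ((2 : ℝ) ^ (ε * J) * (2 : ℝ) ^ (-((A + 1) * J))) * mG μ G +
        CC * CD * ((2 : ℝ) ^ (ε * J) * (2 : ℝ) ^ (K₀ * ε * J)) * Z * mG μ G ^ ((3 : ℝ) / 2) := by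
      ring
  rw [e1, h11] at h9
  have h13 := mul_le_mul_of_nonneg_right
    (mul_le_mul_of_nonneg_left h10 (by positivity : 0 ≤ CC * D)) hmG0
  have h14 : CC * CD * (2 : ℝ) ^ ((K₀ + 1) * ε * J) * Z * mG μ G ^ ((3 : ℝ) / 2) ≤
      CC * D * (2 : ℝ) ^ ((K₀ + 1) * ε * J) * Z * mG μ G ^ ((3 : ℝ) / 2) := by
    gcongr
  linarith

end

end STZ3
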