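import Pool.Agent.STZ3.StM
import Pool.Agent.STZ.TTX

/-!
# Module IPR: the bound (I')
-/

set_option autoImplicit false
set_option linter.unusedSectionVars false

namespace STZ3

open STZ LGR MeasureTheory Matrix Filter

open scoped ComplexConjugate Matrix Real Topology

noncomputable section

namespace IPR

/-- a power of `J + 2` is at most `C 2^(ε J)` -/
theorem cnt (k : ℕ) {ε : ℝ} (hε : 0 < ε) :
    ∃ C : ℝ, 0 ≤ C ∧ ∀ J : ℕ, ((J : ℝ) + 2) ^ k ≤ C * (2 : ℝ) ^ (ε * J) := by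
  have hl : 0 < Real.log 2 := Real.log_pos (by norm_num)
  refine ⟨(k.factorial : ℝ) / (ε * Real.log 2) ^ k * (2 : ℝ) ^ (2 * ε), by positivity, fun J => ?_⟩
  have h1 := Real.pow_div_factorial_le_exp (x := ε * Real.log 2 * ((J : ℝ) + 2)) (by positivity) k
  have h2 : Real.exp (ε * Real.log 2 * ((J : ℝ) + 2)) = (2 : ℝ) ^ (2 * ε) * (2 : ℝ) ^ (ε * J) := by
    rw [← Real.rpow_add (by norm_num), Real.rpow_def_of_pos (by norm_num)]
    congr 1
    ring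
  rw [h2, mul_pow, div_le_iff₀ (by positivity)] at h1
  have h3 : ((J : ℝ) + 2) ^ k = (ε * Real.log 2) ^ k * ((J : ℝ) + 2) ^ k / (ε * Real.log 2) ^ k := by
    field_simp
  rw [h3, div_le_iff₀ (by positivity)]
  refine h1.trans (le_of_eq ?_)
  have h4 : (ε * Real.log 2) ^ k ≠ 0 := by positivity
  field_simp

/-- the last index of the frequency cutoffs -/
theorem jmex {J : ℕ} {M₀ : ℝ} (h1 : 1 ≤ M₀) (h2 : M₀ ≤ 2 ^ J) :
    ∃ jm : ℕ, jm ≤ J ∧ 2 ^ J ≤ 2 ^ jm * M₀ ∧ 2 ^ jm * M₀ ≤ 2 * 2 ^ J := by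
  have hex : ∃ jm : ℕ, (2 : ℝ) ^ J ≤ 2 ^ jm * M₀ := ⟨J, le_mul_of_one_le_right (by positivity) h1⟩
  classical
  refine ⟨Nat.find hex, Nat.find_min' hex (le_mul_of_one_le_right (by positivity) h1),
    Nat.find_spec hex, ?_⟩
  rcases Nat.eq_zero_or_pos (Nat.find hex) with h | h
  · rw [h, pow_zero, one_mul]
    have : (0 : ℝ) < 2 ^ J := by positivity
    linarith
  · obtain ⟨j, hj⟩ := Nat.exists_eq_succ_of_ne_zero h.ne'
    have h3 := Nat.find_min hex (m := j) (by rw [hj]; exact Nat.lt_succ_self j)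
    rw [not_le] at h3
    rw [hj, pow_succ]
    linarith

section

open TTX

variable {N : ℕ} {H : Subgroup (SU N)} [CompactSpace H] [SecondCountableTopology H]
  (μ : Measure H) [IsProbabilityMeasure μ]

/-- continuity of the inner integrals -/
theorem c2 {f : ℝ → H → H → ℝ} (hf : Continuous fun z : ℝ × H × H => f z.1 z.2.1 z.2.2) :
    Continuous fun z : ℝ × H => ∫ g, f z.1 z.2 g ∂μ := by
  refine par μ (f := fun (w : ℝ × H) (g : H) => f w.1 w.2 g) ?_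
  exact hf.comp (f := fun z : (ℝ × H) × H => (z.1.1, z.1.2, z.2)) (by fun_prop)

theorem c3 {f : ℝ → H → H → ℝ} (hf : Continuous fun z : ℝ × H × H => f z.1 z.2.1 z.2.2) :
    Continuous fun t : ℝ => ∫ h, ∫ g, f t h g ∂μ ∂μ :=
  par μ (f := fun (t : ℝ) (h : H) => ∫ g, f t h g ∂μ) (c2 μ hf)

/-- monotonicity of the double integral -/
theorem mono2 {f f' : ℝ → H → H → ℝ} (hf : Continuous fun z : ℝ × H × H => f z.1 z.2.1 z.2.2)
    (hf' : Continuous fun z : ℝ × H × H => f' z.1 z.2.1 z.2.2) (t : ℝ)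
    (h : ∀ x y, f t x y ≤ f' t x y) :
    ∫ x, ∫ y, f t x y ∂μ ∂μ ≤ ∫ x, ∫ y, f' t x y ∂μ ∂μ := by
  have e1 : ∀ {f : ℝ → H → H → ℝ}, (Continuous fun z : ℝ × H × H => f z.1 z.2.1 z.2.2) →
      ∀ x, Continuous fun y => f t x y := by
    intro f hf x
    exact hf.comp (f := fun y : H => (t, x, y)) (by fun_prop)
  have e2 : ∀ {f : ℝ → H → H → ℝ}, (Continuous fun z : ℝ × H × H => f z.1 z.2.1 z.2.2) →
      Continuous fun x => ∫ y, f t x y ∂μ := by
    intro f hf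
    exact (c2 μ hf).comp (f := fun x : H => (t, x)) (by fun_prop)
  refine integral_mono (integ μ (e2 hf)) (integ μ (e2 hf')) fun x => ?_
  exact integral_mono (integ μ (e1 hf x)) (integ μ (e1 hf' x)) fun y => h x y

/-- the trivial bound of the form -/
theorem tx_small {Hc : Fin 2 → MT N} {ker : ℝ → (Fin 2 → ℝ) → ℂ} {V W : ℝ → H → H → ℂ} {η : ℝ}
    (hη : 0 ≤ η) (hk : ∀ τ θ, ‖ker τ θ‖ ≤ η) (hV : J3 V) (hW : ∀ t h g, ‖W t h g‖ ≤ 1) :
    ‖TX Hc μ ker V W‖ ≤ η * ∫ s in (0 : ℝ)..1, ∫ h, ∫ g, ‖V s h g‖ ∂μ ∂μ := by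
  have hVn : Continuous fun z : ℝ × H × H => ‖V z.1 z.2.1 z.2.2‖ := hV.norm
  have hVη : Continuous fun z : ℝ × H × H => η * ‖V z.1 z.2.1 z.2.2‖ := continuous_const.mul hVn
  have e1 : ∀ t s h g, ‖∫ θ in Set.Icc (0 : Fin 2 → ℝ) 1,
      ker (t - s) θ * (V s h g * conj (W t h (g * tt H Hc θ)))‖ ≤ η * ‖V s h g‖ := by
    intro t s h g
    have hvol : (volume : Measure (Fin 2 → ℝ)).real (Set.Icc 0 1) = 1 := by
      rw [Measure.real, Real.volume_Icc_pi]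
      simp
    have h1 := norm_setIntegral_le_of_norm_le_const (μ := (volume : Measure (Fin 2 → ℝ)))
      (s := Set.Icc (0 : Fin 2 → ℝ) 1) (C := η * ‖V s h g‖)
      (f := fun θ => ker (t - s) θ * (V s h g * conj (W t h (g * tt H Hc θ))))
      (isCompact_Icc.measure_lt_top) (fun θ _ => by
        rw [norm_mul, norm_mul, RCLike.norm_conj]
        have h2 := hk (t - s) θ
        have h3 := hW t h (g * tt H Hc θ)
        have h4 : ‖V s h g‖ * ‖W t h (g * tt H Hc θ)‖ ≤ ‖V s h g‖ :=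
          mul_le_of_le_one_right (norm_nonneg _) h3
        exact mul_le_mul h2 h4 (by positivity) hη)
    rw [hvol, mul_one] at h1
    exact h1
  have e2 : ∀ t s, ‖∫ h, ∫ g, (∫ θ in Set.Icc (0 : Fin 2 → ℝ) 1,
      ker (t - s) θ * (V s h g * conj (W t h (g * tt H Hc θ)))) ∂μ ∂μ‖ ≤
      ∫ h, ∫ g, η * ‖V s h g‖ ∂μ ∂μ := by
    intro t s
    refine norm_integral_le_of_norm_le (integ μ ?_) (Filter.Eventually.of_forall fun h => ?_)
    · exact (c2 μ (f := fun s h g => η * ‖V s h g‖) hVη).comp (f := fun x : H => (s, x))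
        (by fun_prop)
    · refine norm_integral_le_of_norm_le (integ μ ?_) (Filter.Eventually.of_forall fun g => ?_)
      · exact hVη.comp (f := fun y : H => (s, h, y)) (by fun_prop)
      · exact e1 t s h g
  have e3 : ∀ t, ‖∫ s in (0 : ℝ)..1, ∫ h, ∫ g, (∫ θ in Set.Icc (0 : Fin 2 → ℝ) 1,
      ker (t - s) θ * (V s h g * conj (W t h (g * tt H Hc θ)))) ∂μ ∂μ‖ ≤
      ∫ s in (0 : ℝ)..1, ∫ h, ∫ g, η * ‖V s h g‖ ∂μ ∂μ := by
    intro t
    refine intervalIntegral.norm_integral_le_of_norm_le zero_le_one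
      (Filter.Eventually.of_forall fun s _ => e2 t s) ?_
    exact (c3 μ (f := fun s h g => η * ‖V s h g‖) hVη).intervalIntegrable _ _
  unfold TX
  have h4 := intervalIntegral.norm_integral_le_of_norm_le_const (a := (0 : ℝ)) (b := 1)
    (C := ∫ s in (0 : ℝ)..1, ∫ h, ∫ g, η * ‖V s h g‖ ∂μ ∂μ)
    (f := fun t => ∫ s in (0 : ℝ)..1, ∫ h, ∫ g, (∫ θ in Set.Icc (0 : Fin 2 → ℝ) 1,
      ker (t - s) θ * (V s h g * conj (W t h (g * tt H Hc θ)))) ∂μ ∂μ) (fun t _ => e3 t)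
  rw [sub_zero, abs_one, mul_one] at h4
  refine h4.trans (le_of_eq ?_)
  rw [← intervalIntegral.integral_const_mul]
  refine intervalIntegral.integral_congr fun s _ => ?_
  simp only [integral_const_mul]

theorem yr_mem {N : ℕ} {H : Subgroup (SU N)} {r : ℕ} {Φ : RT r} {B : Matrix (Fin r) (Fin r) ℤ}
    {Hc : Fin r → MT N} {E : (Fin r → ℤ) × (Fin r → ℤ) → MT N} (hl : LIF H)
    (hL : LRD H Φ B Hc E) (c : ℝ) (a : {p // p ∈ pos Φ} × Bool) : yr Φ E c a ∈ lie H := by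
  unfold yr
  have hp : a.1.1 ∈ Φ := by
    have := a.1.2
    unfold pos at this
    exact (Finset.mem_filter.1 this).1
  have h1 := hL.emem _ hp
  refine hl.smul _ _ ?_
  split_ifs
  · exact h1.1
  · exact h1.2

/-- sum over the triples -/
theorem sum3 {ι : Type} [Fintype ι] (f : ι → ι → ι → ℂ) (b : ℝ)
    (h : ∀ i j k, ‖f i j k‖ ≤ b) :
    ‖∑ i, ∑ j, ∑ k, f i j k‖ ≤ (Fintype.card ι : ℝ) ^ 3 * b := by
  have h1 : ∀ i j, ‖∑ k, f i j k‖ ≤ (Fintype.card ι : ℝ) * b := by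
    intro i j
    refine (norm_sum_le _ _).trans ?_
    refine (Finset.sum_le_card_nsmul _ _ _ fun k _ => h i j k).trans (le_of_eq ?_)
    rw [Finset.card_univ, nsmul_eq_mul]
  have h2 : ∀ i, ‖∑ j, ∑ k, f i j k‖ ≤ (Fintype.card ι : ℝ) * ((Fintype.card ι : ℝ) * b) := by
    intro i
    refine (norm_sum_le _ _).trans ?_
    refine (Finset.sum_le_card_nsmul _ _ _ fun j _ => h1 i j).trans (le_of_eq ?_)
    rw [Finset.card_univ, nsmul_eq_mul]
  refine (norm_sum_le _ _).trans ?_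
  refine (Finset.sum_le_card_nsmul _ _ _ fun i _ => h2 i).trans (le_of_eq ?_)
  rw [Finset.card_univ, nsmul_eq_mul]
  ring

end

end IPR

theorem t_IPR : M_IPR := by
  intro hLIE hWF hTAU hPRM hLMB hEXI hFRQ hKOF hVCN hNRP hDCP hOFD hDGB
  intro N H Φ B Hc E c k d hX μ _ _ χ hχ
  have hI := hX.lrd.ird
  have hW := hWF 2 Φ B hI
  have hP := hPRM 2 Φ B hX.one_le hI hW
  have hcs : CompactSpace H := isCompact_iff_compactSpace.1 hX.closed.isCompact
  have hsc : SecondCountableTopology H :=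
    TopologicalSpace.Subtype.secondCountableTopology (H : Set (SU N))
  obtain ⟨K₀, hK₀, hD⟩ := hDGB N H Φ B Hc E c k d hX μ
  refine ⟨K₀ + 1, by linarith, ?_⟩
  intro m C₁ ε A hm hC hε hε8 hA hmA
  obtain ⟨C₂, hC₂, hF⟩ := hFRQ 2 Φ B hI m hm
  obtain ⟨K', CL, hCL, hL⟩ := hLMB 2 Φ B hX.one_le hI hW m C₁ hm hC
  obtain ⟨CK, hCK, hK⟩ := hKOF 2 Φ B hX.one_le hI hW m C₁ 0 ε A hm hC le_rfl hε hε8 hA (by
    push_cast
    linarith)
  obtain ⟨CN, hCN, hNR⟩ := hNRP N H 2 Φ B Hc E c k d hX μ χ hχ m C₁ ε A hm hC hε hε8 hA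
  obtain ⟨CD, hCD, hDG⟩ := hD m C₁ C₂ ε (A + 1) hm hC (by linarith) hε hε8 (by linarith)
    (by linarith)
  obtain ⟨CO, hCO, hOF⟩ := hOFD N H 2 Φ B Hc E c k d hX μ m C₂ hm (by linarith)
  obtain ⟨hVC, -⟩ := hVCN N H 2 Φ B Hc E c k d hX μ
  set n := (pos Φ).card with hn
  obtain ⟨CC, hCC, hcnt⟩ := IPR.cnt (3 * n) hε
  refine ⟨CN + CK + CC * (CD + CO * CL), by positivity, ?_⟩
  intro J q x F G hJ hq hF0 hG hG1
  set T : Finset (Fin 2 → ℤ) := cb 2 (K' * 2 ^ J) with hT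
  have hlaT : ∀ τ l, la Φ m J q x τ l ≠ 0 → l ∈ T := fun τ l h => hL.supp J q x τ l hq h
  obtain ⟨κ, hκ⟩ := hEXI N H hX.closed _ (fun a => ((√(th x / k) : ℝ) : ℂ) • yr Φ E c a)
    (fun a => (hLIE N H hX.closed).smul _ _ (IPR.yr_mem (hLIE N H hX.closed) hX.lrd c a))
  have hPM : PM H Φ E c k (th x) κ := hκ
  have hκp := hκ.prob
  obtain ⟨hVJ, -, hVb, hVi⟩ := hVC κ (ro ε x) G hκp hG
  set V := vn κ (ro ε x) G with hV
  have hV1 : ∀ t h g, ‖V t h g‖ ≤ 1 := fun t h g => (hVb 1 hG1 t h g).1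
  have hVn : Continuous fun z : ℝ × H × H => ‖V z.1 z.2.1 z.2.2‖ := hVJ.norm
  have hmG : ∫ t in (0 : ℝ)..1, ∫ h, ∫ g, ‖V t h g‖ ∂μ ∂μ ≤ mG μ G := by
    unfold mG
    refine intervalIntegral.integral_mono_on zero_le_one ?_ ?_ fun t _ => (hVi t).1
    · exact (IPR.c3 μ (f := fun t h g => ‖V t h g‖) hVn).intervalIntegrable _ _
    · refine (TTX.par μ (f := fun t x => ‖G t x‖) ?_).intervalIntegrable _ _
      have h5 : Continuous fun z : ℝ × H => G z.1 z.2 := hG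
      exact h5.norm
  have hmG0 : 0 ≤ mG μ G := by
    unfold mG
    exact intervalIntegral.integral_nonneg zero_le_one fun t _ => integral_nonneg fun y => norm_nonneg _
  have hV2 : ∫ t in (0 : ℝ)..1, ∫ h, ∫ g, ‖V t h g‖ ^ 2 ∂μ ∂μ ≤ mG μ G := by
    refine le_trans ?_ hmG
    have hVn2 : Continuous fun z : ℝ × H × H => ‖V z.1 z.2.1 z.2.2‖ ^ 2 := hVn.pow 2
    refine intervalIntegral.integral_mono_on zero_le_one ?_ ?_ fun t _ => ?_
    · exact (IPR.c3 μ (f := fun t h g => ‖V t h g‖ ^ 2) hVn2).intervalIntegrable _ _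
    · exact (IPR.c3 μ (f := fun t h g => ‖V t h g‖) hVn).intervalIntegrable _ _
    · refine IPR.mono2 μ (f := fun t h g => ‖V t h g‖ ^ 2) (f' := fun t h g => ‖V t h g‖)
        hVn2 hVn t fun h g => ?_
      have h1 := hV1 t h g
      have h2 := norm_nonneg (V t h g)
      nlinarith
  have hN1 := hNR J q x T F κ G hJ hq hlaT hF0 hPM hG hG1
  rw [← hV] at hN1
  have hXA : (0 : ℝ) ≤ (2 : ℝ) ^ (-(A * J)) := by positivity
  have htri : ‖BF μ χ F (fun t i => wa Φ (nx Φ m J q x t) (wG i.1)) G‖ ≤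
      CN * (2 : ℝ) ^ (-(A * J)) * mG μ G + ‖TX Hc μ (km (la Φ m J q x) T fun _ => 1) V V‖ := by
    have h1 := norm_add_le (BF μ χ F (fun t i => wa Φ (nx Φ m J q x t) (wG i.1)) G -
        TX Hc μ (km (la Φ m J q x) T fun _ => 1) V V) (TX Hc μ (km (la Φ m J q x) T fun _ => 1) V V)
    rw [sub_add_cancel] at h1
    linarith
  refine ⟨fun hsh => ?_, ?_⟩
  · have h1 : ∀ τ θ, ‖km (la Φ m J q x) T (fun _ => 1) τ θ‖ ≤ CK * (2 : ℝ) ^ (-(A * J)) :=
      fun τ θ => (hK J q x T hJ hq hlaT).1 τ θ (by rw [hsh]; exact Set.notMem_empty θ)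
    have h2 := IPR.tx_small μ (Hc := Hc) (η := CK * (2 : ℝ) ^ (-(A * J))) (by positivity) h1 hVJ hV1
    have h3 : CK * (2 : ℝ) ^ (-(A * J)) * ∫ t in (0 : ℝ)..1, ∫ h, ∫ g, ‖V t h g‖ ∂μ ∂μ ≤
        CK * (2 : ℝ) ^ (-(A * J)) * mG μ G := mul_le_mul_of_nonneg_left hmG (by positivity)
    have h4 : 0 ≤ CC * (CD + CO * CL) * (2 : ℝ) ^ (-(A * J)) * mG μ G := by positivity
    calc _ ≤ _ := htri
      _ ≤ CN * (2 : ℝ) ^ (-(A * J)) * mG μ G + CK * (2 : ℝ) ^ (-(A * J)) * mG μ G := by linarith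
      _ ≤ (CN + CK + CC * (CD + CO * CL)) * (2 : ℝ) ^ (-(A * J)) * mG μ G := by linarith
  · -- the frequency cutoffs
    have htp := hP.tpos J x
    have hsq : 0 < √(th x) := Real.sqrt_pos.mpr htp
    set M₀ : ℝ := 1 / √(th x) with hM₀
    have hM1 : 1 ≤ M₀ := by
      rw [hM₀, le_div_iff₀ hsq, one_mul]
      refine Real.sqrt_le_one.mpr ?_
      refine (hP.tle J x).trans ?_
      rw [div_le_one (by positivity)]
      exact one_le_pow₀ (by norm_num)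
    have hM2 : M₀ ≤ 2 ^ J := by
      rw [hM₀, div_le_iff₀ hsq]
      have h1 := hP.tge J x
      rw [div_le_iff₀ (by positivity)] at h1
      linarith
    obtain ⟨jm, hjm, hlo, hhi⟩ := IPR.jmex hM1 hM2
    obtain ⟨ψ, ν₁, ν₂, hfcf⟩ := hF (fun _ => M₀) (fun _ => jm) jm (√(th x)) (fun _ => hM1)
      (fun _ => le_rfl) (fun _ => by rw [hM₀, one_div_one_div])
    have hFP : FP x m C₂ M₀ jm ψ ν₁ ν₂ := ⟨hfcf, hM₀, hlo, hhi, by omega⟩
    have hcont : ∀ l, Continuous fun τ => la Φ m J q x τ l := fun l => hL.cont J q x l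
    have hdec := hDCP N H 2 Φ B Hc E c k d hX μ m C₂ (√(th x)) (fun _ => M₀) (fun _ => jm) jm ψ
      ν₁ ν₂ hfcf (la Φ m J q x) T V V hcont hVJ hVJ
    set Z : ℝ := (2 ^ J * bx' x) ^ ((n : ℝ) / 2) /
      ∏ p : {p // p ∈ pos Φ}, max (dl x p) (ro ε x) with hZ
    have hZ0 : 0 ≤ Z := by
      have hb : 0 ≤ bx' x := le_trans (by positivity) (hP.bge J x)
      refine div_nonneg (Real.rpow_nonneg (by positivity) _) (Finset.prod_nonneg fun p _ => ?_)
      exact (hP.dpos J x p).le.trans (le_max_left _ _)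
    have hm32 : 0 ≤ mG μ G ^ ((3 : ℝ) / 2) := Real.rpow_nonneg hmG0 _
    -- the bound for every triple
    have hb : ∀ j₁ j₂ j₃ : {p // p ∈ pos Φ} → Fin (jm + 2),
        ‖TX Hc μ (km (la Φ m J q x) T (pj' ψ j₂)) (po Hc (ν₁ j₁) (ν₂ j₁) V)
          (po Hc (ν₁ j₃) (ν₂ j₃) V)‖ ≤
        (CD + CO * CL) * (2 : ℝ) ^ (-((A + 1) * J)) * mG μ G +
          CD * (2 : ℝ) ^ (K₀ * ε * J) * Z * mG μ G ^ ((3 : ℝ) / 2) := by
      intro j₁ j₂ j₃
      have h0 : (0 : ℝ) ≤ (2 : ℝ) ^ (-((A + 1) * J)) := by positivity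
      have h0' : (0 : ℝ) ≤ (2 : ℝ) ^ (K₀ * ε * J) := by positivity
      by_cases hj : (∃ p, ε * J < |((j₁ p).val : ℝ) - (j₂ p).val|) ∨
          ∃ p, ε * J < |((j₃ p).val : ℝ) - (j₂ p).val|
      · have h1 := hOF (√(th x)) (fun _ => M₀) (fun _ => jm) jm ψ ν₁ ν₂
          (fun _ => lt_of_lt_of_le one_pos hM1) hfcf (la Φ m J q x) T V V j₁ j₂ j₃
          (CL * 2 ^ (J * n)) (ε * J) hcont (by positivity) (fun τ l _ => hL.bd J q x τ l hq) hVJ hVJ
          (by positivity) hj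
        have h2 : √(∫ t in (0 : ℝ)..1, ∫ h, ∫ g, ‖V t h g‖ ^ 2 ∂μ ∂μ) *
            √(∫ t in (0 : ℝ)..1, ∫ h, ∫ g, ‖V t h g‖ ^ 2 ∂μ ∂μ) ≤ mG μ G := by
          rw [Real.mul_self_sqrt]
          · exact hV2
          · exact intervalIntegral.integral_nonneg zero_le_one fun t _ =>
              integral_nonneg fun h => integral_nonneg fun g => by positivity
        have h3 : (2 : ℝ) ^ (J * n) * (2 : ℝ) ^ (-(2 * m * (ε * J))) ≤
            (2 : ℝ) ^ (-((A + 1) * J)) := by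
          have h4 : ((2 : ℝ) ^ (J * n) : ℝ) = (2 : ℝ) ^ ((J : ℝ) * n) := by
            rw [← Real.rpow_natCast]
            push_cast
            rfl
          rw [h4, ← Real.rpow_add (by norm_num)]
          refine Real.rpow_le_rpow_of_exponent_le (by norm_num) ?_
          have h5 : (0 : ℝ) ≤ J := Nat.cast_nonneg J
          nlinarith
        calc _ ≤ _ := h1
          _ ≤ CO * (CL * 2 ^ (J * n)) * (2 : ℝ) ^ (-(2 * m * (ε * J))) * mG μ G :=
              mul_le_mul_of_nonneg_left h2 (by positivity)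
          _ = CO * CL * (2 ^ (J * n) * (2 : ℝ) ^ (-(2 * m * (ε * J)))) * mG μ G := by ring
          _ ≤ CO * CL * (2 : ℝ) ^ (-((A + 1) * J)) * mG μ G := by
              refine mul_le_mul_of_nonneg_right (mul_le_mul_of_nonneg_left h3 (by positivity)) hmG0
          _ ≤ _ := by
              have h6 : 0 ≤ CD * (2 : ℝ) ^ (-((A + 1) * J)) * mG μ G := by positivity
              have h7 : 0 ≤ CD * (2 : ℝ) ^ (K₀ * ε * J) * Z * mG μ G ^ ((3 : ℝ) / 2) := by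
                positivity
              linarith
      · push Not at hj
        have h1 := hDG J q x M₀ jm ψ ν₁ ν₂ T κ G j₁ j₂ j₃ hJ hq hFP hlaT hPM hG hG1 hj.1 hj.2
        rw [← hV, ← hZ] at h1
        have h6 : 0 ≤ CO * CL * (2 : ℝ) ^ (-((A + 1) * J)) * mG μ G := by positivity
        linarith
    have h8 := IPR.sum3 _ _ hb
    rw [← hdec] at h8
    have hcard : (Fintype.card ({p // p ∈ pos Φ} → Fin (jm + 2)) : ℝ) ^ 3 ≤
        CC * (2 : ℝ) ^ (ε * J) := by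
      refine le_trans ?_ (hcnt J)
      rw [Fintype.card_fun, Fintype.card_fin, Fintype.card_coe, ← hn]
      push_cast
      rw [← pow_mul, mul_comm n 3]
      refine pow_le_pow_left₀ (by positivity) ?_ _
      have : (jm : ℝ) ≤ J := by exact_mod_cast hjm
      linarith
    have hb0 : 0 ≤ (CD + CO * CL) * (2 : ℝ) ^ (-((A + 1) * J)) * mG μ G +
          CD * (2 : ℝ) ^ (K₀ * ε * J) * Z * mG μ G ^ ((3 : ℝ) / 2) := by positivity
    have h9 := h8.trans (mul_le_mul_of_nonneg_right hcard hb0)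
    have hJ0 : (0 : ℝ) ≤ J := Nat.cast_nonneg J
    have h10 : (2 : ℝ) ^ (ε * J) * (2 : ℝ) ^ (-((A + 1) * J)) ≤ (2 : ℝ) ^ (-(A * J)) := by
      rw [← Real.rpow_add (by norm_num)]
      refine Real.rpow_le_rpow_of_exponent_le (by norm_num) ?_
      nlinarith
    have h11 : (2 : ℝ) ^ (ε * J) * (2 : ℝ) ^ (K₀ * ε * J) = (2 : ℝ) ^ ((K₀ + 1) * ε * J) := by
      rw [← Real.rpow_add (by norm_num)]
      congr 1
      ring
    have h12 : CC * (2 : ℝ) ^ (ε * J) * ((CD + CO * CL) * (2 : ℝ) ^ (-((A + 1) * J)) * mG μ G +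
          CD * (2 : ℝ) ^ (K₀ * ε * J) * Z * mG μ G ^ ((3 : ℝ) / 2)) ≤
        CC * (CD + CO * CL) * (2 : ℝ) ^ (-(A * J)) * mG μ G +
          CC * CD * (2 : ℝ) ^ ((K₀ + 1) * ε * J) * Z * mG μ G ^ ((3 : ℝ) / 2) := by
      have e1 : CC * (2 : ℝ) ^ (ε * J) * ((CD + CO * CL) * (2 : ℝ) ^ (-((A + 1) * J)) * mG μ G +
          CD * (2 : ℝ) ^ (K₀ * ε * J) * Z * mG μ G ^ ((3 : ℝ) / 2)) =
          CC * (CD + CO * CL) * ((2 : ℝ) ^ (ε * J) * (2 : ℝ) ^ (-((A + 1) * J))) * mG μ G +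
          CC * CD * ((2 : ℝ) ^ (ε * J) * (2 : ℝ) ^ (K₀ * ε * J)) * Z * mG μ G ^ ((3 : ℝ) / 2) := by
        ring
      rw [e1, h11]
      have h13 := mul_le_mul_of_nonneg_right
        (mul_le_mul_of_nonneg_left h10 (by positivity : 0 ≤ CC * (CD + CO * CL))) hmG0
      linarith
    have h14 : 0 ≤ CK * (2 : ℝ) ^ (-(A * J)) * mG μ G := by positivity
    have h15 : 0 ≤ (CN + CK + CC * (CO * CL)) * (2 : ℝ) ^ ((K₀ + 1) * ε * J) * Z *
        mG μ G ^ ((3 : ℝ) / 2) := by positivity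
    calc _ ≤ _ := htri
      _ ≤ CN * (2 : ℝ) ^ (-(A * J)) * mG μ G + (CC * (CD + CO * CL) * (2 : ℝ) ^ (-(A * J)) * mG μ G +
          CC * CD * (2 : ℝ) ^ ((K₀ + 1) * ε * J) * Z * mG μ G ^ ((3 : ℝ) / 2)) := by linarith
      _ ≤ _ := by linarith

end

end STZ3
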