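import Pool.Agent.STZ3.StC3
import Pool.Agent.STZ.Base
import Pool.Agent.STZ.GEO
import Pool.Agent.STZ.CDIF

/-!
# The `L¹` bound for the chain packets: module JBC
-/

set_option autoImplicit false

namespace STZ3

open STZ LGR MeasureTheory Matrix Filter

open scoped ComplexConjugate Matrix Real Topology Pointwise

noncomputable section

namespace JBC

/-! ### elementary facts -/

theorem nd_int (x : ℝ) (k : ℤ) : nd (x + k) = nd x := by
  unfold nd
  rw [round_add_intCast]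
  push_cast
  congr 1
  ring

theorem nd_sub (x y : ℝ) : nd (x - y) ≤ nd x + nd y := by
  rw [CDIF.nd_eq, CDIF.nd_eq, CDIF.nd_eq, AddCircle.coe_sub]
  exact norm_sub_le _ _

theorem nd_le_abs (x : ℝ) : nd x ≤ |x| := by
  have h := round_le x 0
  simpa [nd] using h

theorem nd_low (x w : ℝ) : nd x - |w| ≤ nd (x + w) := by
  have h1 := nd_sub (x + w) w
  rw [add_sub_cancel_right] at h1
  linarith [nd_le_abs w]

theorem nd_sin (x : ℝ) : 2 * nd x ≤ |Real.sin (π * x)| := by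
  have h1 : |Real.sin (π * x)| = Real.sin (π * nd x) := by
    have h2 : π * x = π * (x - round x) + (round x : ℤ) * π := by ring
    have h3 : |x - round x| ≤ 1 / 2 := abs_sub_round x
    rw [h2, Real.sin_add_int_mul_pi, abs_mul, abs_neg_one_zpow, one_mul]
    unfold nd
    have h4 : π * |x - round x| = |π * (x - round x)| := by
      rw [abs_mul, abs_of_pos Real.pi_pos]
    rw [h4]
    have h5 : |π * (x - round x)| ≤ π / 2 := by
      rw [← h4]
      nlinarith [Real.pi_pos]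
    rcases abs_cases (π * (x - round x)) with ⟨h6, h7⟩ | ⟨h6, h7⟩
    · rw [h6]
      refine abs_of_nonneg (Real.sin_nonneg_of_nonneg_of_le_pi h7 ?_)
      rw [h6] at h5
      linarith [Real.pi_pos]
    · rw [h6, Real.sin_neg]
      refine abs_of_nonpos ?_
      rw [h6] at h5
      exact Real.sin_nonpos_of_nonpos_of_neg_pi_le h7.le (by linarith [Real.pi_pos])
  rw [h1]
  have h2 : 0 ≤ nd x := CDIF.nd_nonneg x
  have h3 : nd x ≤ 1 / 2 := abs_sub_round x
  have h4 := Real.mul_le_sin (x := π * nd x) (by positivity) (by nlinarith [Real.pi_pos])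
  have h5 : 2 / π * (π * nd x) = 2 * nd x := by
    field_simp
  linarith

theorem dz_add {r : ℕ} (κ : Fin r → ℤ) (x y : Fin r → ℝ) : dz κ (x + y) = dz κ x + dz κ y := by
  unfold dz
  rw [← Finset.sum_add_distrib]
  refine Finset.sum_congr rfl fun i _ => ?_
  rw [Pi.add_apply]
  ring

theorem dz_int {r : ℕ} (κ n : Fin r → ℤ) :
    dz κ (fun i => (n i : ℝ)) = ((∑ i, κ i * n i : ℤ) : ℝ) := by
  unfold dz
  push_cast
  rfl

theorem dz_abs {r : ℕ} (κ : Fin r → ℤ) (x : Fin r → ℝ) (ρ : ℝ) (h : ∀ i, |x i| ≤ ρ) :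
    |dz κ x| ≤ (∑ i, |(κ i : ℝ)|) * ρ := by
  unfold dz
  refine (Finset.abs_sum_le_sum_abs _ _).trans ?_
  rw [Finset.sum_mul]
  refine Finset.sum_le_sum fun i _ => ?_
  rw [abs_mul]
  exact mul_le_mul_of_nonneg_left (h i) (abs_nonneg _)

section tor

variable {r : ℕ} {Φ : RT r}

/-- periodic functions -/
def Per (f : (Fin r → ℝ) → ℝ) : Prop := ∀ θ (n : Fin r → ℤ), f (θ + fun i => (n i : ℝ)) = f θ

/-- continuous bounded functions -/
def CB (f : (Fin r → ℝ) → ℝ) : Prop := Continuous f ∧ ∃ C, ∀ θ, |f θ| ≤ C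

theorem CB.mul {f g : (Fin r → ℝ) → ℝ} (hf : CB f) (hg : CB g) : CB fun θ => f θ * g θ := by
  obtain ⟨h1, C, hC⟩ := hf
  obtain ⟨h2, D, hD⟩ := hg
  refine ⟨h1.mul h2, C * D, fun θ => ?_⟩
  rw [abs_mul]
  exact mul_le_mul (hC θ) (hD θ) (abs_nonneg _) ((abs_nonneg _).trans (hC θ))

theorem CB.const_mul {f : (Fin r → ℝ) → ℝ} (hf : CB f) (c : ℝ) : CB fun θ => c * f θ := by
  obtain ⟨h1, C, hC⟩ := hf
  refine ⟨continuous_const.mul h1, |c| * C, fun θ => ?_⟩
  rw [abs_mul]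
  exact mul_le_mul_of_nonneg_left (hC θ) (abs_nonneg _)

theorem CB.add {f g : (Fin r → ℝ) → ℝ} (hf : CB f) (hg : CB g) : CB fun θ => f θ + g θ := by
  obtain ⟨h1, C, hC⟩ := hf
  obtain ⟨h2, D, hD⟩ := hg
  refine ⟨h1.add h2, C + D, fun θ => ?_⟩
  exact (abs_add_le _ _).trans (add_le_add (hC θ) (hD θ))

theorem CB.on {f : (Fin r → ℝ) → ℝ} (hf : CB f) (a b : Fin r → ℝ) :
    IntegrableOn f (Set.Icc a b) :=
  hf.1.continuousOn.integrableOn_compact isCompact_Icc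

theorem al_shift (a : (Fin r → ℤ) × (Fin r → ℤ)) (θ : Fin r → ℝ) (n : Fin r → ℤ) :
    al a (θ + fun i => (n i : ℝ)) = (-1) ^ (∑ i, a.1 i * n i) * al a θ := by
  unfold al
  rw [dz_add, dz_int, mul_add, mul_comm π ((∑ i, a.1 i * n i : ℤ) : ℝ), Real.sin_add_int_mul_pi]

theorem al_cb (a : (Fin r → ℤ) × (Fin r → ℤ)) : CB (al a) := by
  refine ⟨?_, 1, fun θ => Real.abs_sin_le_one _⟩
  unfold al
  exact Real.continuous_sin.comp (continuous_const.mul (CDIF.dz_cont a.1))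

theorem sgn_sq (k : ℤ) : ((-1 : ℝ) ^ k) * (-1) ^ k = 1 := by
  rw [← mul_zpow]
  simp

theorem al_mul (a : (Fin r → ℤ) × (Fin r → ℤ)) (θ θ' : Fin r → ℝ) (n : Fin r → ℤ) :
    al a (θ + fun i => (n i : ℝ)) * al a (θ' + fun i => (n i : ℝ)) = al a θ * al a θ' := by
  rw [al_shift, al_shift]
  linear_combination (al a θ * al a θ') * sgn_sq (∑ i, a.1 i * n i)

theorem ch_01 (m v : ℝ) : 0 ≤ ch m v ∧ ch m v ≤ 1 := by
  unfold ch
  constructor
  · exact le_max_left _ _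
  · exact max_le zero_le_one (min_le_left _ _)

theorem et_01 (a : (Fin r → ℤ) × (Fin r → ℤ)) (m : ℝ) (θ : Fin r → ℝ) :
    0 ≤ et Φ a m θ ∧ et Φ a m θ ≤ 1 := by
  unfold et
  constructor
  · exact Finset.prod_nonneg fun p _ => (ch_01 _ _).1
  · exact Finset.prod_le_one (fun p _ => (ch_01 _ _).1) fun p _ => (ch_01 _ _).2

theorem et_cont (a : (Fin r → ℤ) × (Fin r → ℤ)) (m : ℝ) : Continuous (et Φ a m) := by
  unfold et ch
  refine continuous_finsetProd _ fun p _ => ?_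
  exact continuous_const.max (continuous_const.min
    (((CDIF.nd_cont.comp (CDIF.dz_cont p.1)).div_const _).sub continuous_const))

theorem et_cb (a : (Fin r → ℤ) × (Fin r → ℤ)) (m : ℝ) : CB (et Φ a m) := by
  refine ⟨et_cont a m, 1, fun θ => ?_⟩
  rw [abs_of_nonneg (et_01 a m θ).1]
  exact (et_01 a m θ).2

theorem et_per (a : (Fin r → ℤ) × (Fin r → ℤ)) (m : ℝ) : Per (et Φ a m) := by
  intro θ n
  unfold et ch
  refine Finset.prod_congr rfl fun p _ => ?_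
  rw [dz_add, dz_int, nd_int]

/-! ### the heat flow -/

variable {z : Matrix (Fin r) (Fin r) ℝ}

theorem th_cb (T : THF Φ z) (s : ℝ) {f : (Fin r → ℝ) → ℝ} (hf : CB f) : CB (TH z s f) := by
  obtain ⟨h1, C, hC⟩ := hf
  refine ⟨T.cont s f h1 ⟨C, hC⟩, C, fun θ => ?_⟩
  have hp : IsProbabilityMeasure (ga r) := by
    unfold ga
    infer_instance
  have h2 := norm_integral_le_of_norm_le_const (μ := ga r) (f := fun ξ => f (θ + gy z s ξ))
    (C := C) (Eventually.of_forall fun ξ => hC _)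
  rw [probReal_univ, mul_one] at h2
  exact h2

theorem th_nn (s : ℝ) {f : (Fin r → ℝ) → ℝ} (hf : ∀ θ, 0 ≤ f θ) (θ : Fin r → ℝ) :
    0 ≤ TH z s f θ := integral_nonneg fun _ => hf _

theorem th_per (s : ℝ) {f : (Fin r → ℝ) → ℝ} (hf : Per f) : Per (TH z s f) := by
  intro θ n
  unfold TH
  refine integral_congr_ae (Eventually.of_forall fun ξ => ?_)
  show f ((θ + fun i => (n i : ℝ)) + gy z s ξ) = f (θ + gy z s ξ)
  rw [add_right_comm, hf]

theorem adj (T : THF Φ z) (s : ℝ) {f g : (Fin r → ℝ) → ℝ} (hf : CB f) (hg : CB g)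
    (h : ∀ (n : Fin r → ℤ) (θ θ' : Fin r → ℝ),
      f (θ + fun i => (n i : ℝ)) * g (θ' + fun i => (n i : ℝ)) = f θ * g θ') :
    ∫ θ in Set.Icc (0 : Fin r → ℝ) 1, f θ * TH z s g θ =
      ∫ θ in Set.Icc (0 : Fin r → ℝ) 1, TH z s f θ * g θ :=
  T.adj s f g hf.1 hf.2 hg.1 hg.2 h

theorem ico_ae (a : Fin r → ℝ) :
    (Set.pi Set.univ fun i => Set.Ico (a i) (a i + 1)) =ᵐ[volume] Set.Icc a (fun i => a i + 1) :=
  Measure.univ_pi_Ico_ae_eq_Icc

theorem per_int {G : (Fin r → ℝ) → ℝ} (hG : Per G) (a : Fin r → ℝ) :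
    ∫ θ in Set.Icc a (fun i => a i + 1), G θ = ∫ θ in Set.Icc (0 : Fin r → ℝ) 1, G θ := by
  have hfd := ZSpan.isAddFundamentalDomain' (Pi.basisFun ℝ (Fin r)) (volume : Measure (Fin r → ℝ))
  have hfa := hfd.vadd_of_comm a
  have h0 : (ZSpan.fundamentalDomain (Pi.basisFun ℝ (Fin r))) =
      Set.pi Set.univ fun i => Set.Ico ((0 : Fin r → ℝ) i) ((0 : Fin r → ℝ) i + 1) := by
    ext x
    simp [ZSpan.mem_fundamentalDomain, Set.mem_pi]
  have h1 : (a +ᵥ (ZSpan.fundamentalDomain (Pi.basisFun ℝ (Fin r)))) =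
      Set.pi Set.univ fun i => Set.Ico (a i) (a i + 1) := by
    rw [h0]
    ext x
    rw [Set.mem_vadd_set_iff_neg_vadd_mem]
    simp only [Set.mem_pi, Set.mem_univ, forall_true_left, Set.mem_Ico, vadd_eq_add, Pi.add_apply,
      Pi.neg_apply, Pi.zero_apply, zero_add]
    refine forall_congr' fun i => ?_
    constructor
    · rintro ⟨h1, h2⟩
      constructor <;> linarith
    · rintro ⟨h1, h2⟩
      constructor <;> linarith
  have hcount : Countable (Submodule.span ℤ (Set.range (Pi.basisFun ℝ (Fin r)))).toAddSubgroup :=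
    (inferInstance : Countable (Submodule.span ℤ (Set.range (Pi.basisFun ℝ (Fin r)))))
  have h2 := hfa.setIntegral_eq hfd (f := G) (by
    intro g x
    have hg : ∃ n : Fin r → ℤ, (g : Fin r → ℝ) = fun j => (n j : ℝ) := by
      have h3 : (g : Fin r → ℝ) ∈ Submodule.span ℤ (Set.range (Pi.basisFun ℝ (Fin r))) := g.2
      rw [Module.Basis.mem_span_iff_repr_mem] at h3
      choose n hn using h3
      refine ⟨n, ?_⟩
      funext j
      have h4 := hn j
      simpa using h4.symm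
    obtain ⟨n, hn⟩ := hg
    have h5 : g +ᵥ x = x + fun j => (n j : ℝ) := by
      rw [← hn]
      exact add_comm _ _
    rw [h5, hG])
  rw [h1, h0] at h2
  rw [setIntegral_congr_set (ico_ae a), setIntegral_congr_set (ico_ae 0)] at h2
  rw [h2]
  simp only [Pi.zero_apply, zero_add]
  rfl

/-- the estimate on the torus -/
theorem torus (T : THF Φ z) {a : (Fin r → ℤ) × (Fin r → ℤ)} (ha : a ∈ pos Φ)
    {t₁ t₂ m ma Ck ε : ℝ} (ht₁ : 0 ≤ t₁) (hma : 0 < ma) (hCk : 0 ≤ Ck)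
    (hkey : ∀ θ, al a θ * TH z (2 * t₂) (fun θ' => al a θ' * et Φ a (m / 4) θ') θ ≤
      Ck * (al a θ * TH z (2 * t₁) (fun θ' => al a θ' * et Φ a (m / 32) θ') θ) +
        Ck * ε * al a θ ^ 2)
    {P f g : (Fin r → ℝ) → ℝ} (hP : CB P) (hf : CB f) (hg : CB g)
    (hPp : Per P) (hfp : Per f)
    (hP0 : ∀ θ, 0 ≤ P θ) (hf0 : ∀ θ, 0 ≤ f θ) (hg0 : ∀ θ, 0 ≤ g θ)
    (h1 : ∀ θ, al a θ * TH z (2 * t₂) P θ =
      Real.exp (2 * t₂ * ((rd Φ).Q a.1 / 4)) * TH z (2 * t₂) (fun θ' => al a θ' * f θ') θ)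
    (h2 : ∀ θ, TH z (2 * t₁) (fun θ' => al a θ' * f θ') θ =
      Real.exp (-(2 * t₁ * ((rd Φ).Q a.1 / 4))) * (al a θ * g θ))
    {S : Set (Fin r → ℝ)} {b : Fin r → ℝ} (hS : MeasurableSet S)
    (hSb : S ⊆ Set.Icc b (fun i => b i + 1))
    (hlow : ∀ θ ∈ S, ma ^ 2 / 2 ≤
      TH z (2 * t₂) (fun θ' => (al a θ' * al a θ') * et Φ a (m / 4) θ') θ) :
    ∫ θ in S, P θ ≤ 2 / ma ^ 2 * (Real.exp (2 * t₂ * ((rd Φ).Q a.1 / 4)) *
      (Ck * (∫ θ in Set.Icc (0 : Fin r → ℝ) 1, (al a θ * al a θ) * et Φ a (m / 32) θ * g θ) +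
        Ck * ε * ∫ θ in Set.Icc (0 : Fin r → ℝ) 1, (al a θ * al a θ) * g θ)) := by
  have hQ0 : (0 : ℝ) ≤ (rd Φ).Q a.1 := by
    have h3 : (0 : ℤ) ≤ (rd Φ).Q a.1 := Finset.sum_nonneg fun p _ => sq_nonneg _
    exact_mod_cast h3
  set E : ℝ := Real.exp (2 * t₂ * ((rd Φ).Q a.1 / 4)) with hE
  set E' : ℝ := Real.exp (-(2 * t₁ * ((rd Φ).Q a.1 / 4))) with hE'
  have hE0 : 0 < E := Real.exp_pos _
  have hE'0 : 0 < E' := Real.exp_pos _
  have hE'1 : E' ≤ 1 := by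
    rw [hE', Real.exp_le_one_iff]
    have : 0 ≤ 2 * t₁ * ((rd Φ).Q a.1 / 4) := by positivity
    linarith
  have cal : CB (al a) := al_cb a
  have cal2 : CB fun θ => al a θ * al a θ := cal.mul cal
  have ce1 : CB (et Φ a (m / 4)) := et_cb a _
  have ce2 : CB (et Φ a (m / 32)) := et_cb a _
  have cae1 : CB fun θ => al a θ * et Φ a (m / 4) θ := cal.mul ce1
  have cae2 : CB fun θ => al a θ * et Φ a (m / 32) θ := cal.mul ce2
  have c2e1 : CB fun θ => (al a θ * al a θ) * et Φ a (m / 4) θ := cal2.mul ce1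
  have caf : CB fun θ => al a θ * f θ := cal.mul hf
  have cag : CB fun θ => al a θ * g θ := cal.mul hg
  have pal2 : Per fun θ => al a θ * al a θ := fun θ n => al_mul a θ θ n
  have p2e1 : Per fun θ => (al a θ * al a θ) * et Φ a (m / 4) θ := by
    intro θ n
    show (al a _ * al a _) * et Φ a (m / 4) _ = _
    rw [al_mul, et_per]
  set W : (Fin r → ℝ) → ℝ := TH z (2 * t₂) (fun θ' => (al a θ' * al a θ') * et Φ a (m / 4) θ')
    with hW
  have cW : CB W := th_cb T _ c2e1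
  have pW : Per W := th_per _ p2e1
  have hW0 : ∀ θ, 0 ≤ W θ := th_nn _ fun θ => mul_nonneg (mul_self_nonneg _) (et_01 a _ θ).1
  have cWP : CB fun θ => W θ * P θ := cW.mul hP
  -- step 1
  have s1 : ∫ θ in S, P θ ≤ 2 / ma ^ 2 * ∫ θ in Set.Icc (0 : Fin r → ℝ) 1, W θ * P θ := by
    have i1 : IntegrableOn (fun θ => 2 / ma ^ 2 * (W θ * P θ)) (Set.Icc b (fun i => b i + 1)) :=
      (cWP.const_mul _).on _ _
    calc ∫ θ in S, P θ ≤ ∫ θ in S, 2 / ma ^ 2 * (W θ * P θ) := by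
          refine setIntegral_mono_on ((hP.on _ _).mono_set hSb) (i1.mono_set hSb) hS fun θ hθ => ?_
          have h3 := hlow θ hθ
          have h4 : 1 ≤ 2 / ma ^ 2 * W θ := by
            rw [div_mul_eq_mul_div, le_div_iff₀ (by positivity)]
            linarith
          calc P θ = 1 * P θ := (one_mul _).symm
            _ ≤ (2 / ma ^ 2 * W θ) * P θ := mul_le_mul_of_nonneg_right h4 (hP0 θ)
            _ = _ := by ring
      _ ≤ ∫ θ in Set.Icc b (fun i => b i + 1), 2 / ma ^ 2 * (W θ * P θ) := by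
          refine setIntegral_mono_set i1 (Eventually.of_forall fun θ => ?_) hSb.eventuallyLE
          exact mul_nonneg (by positivity) (mul_nonneg (hW0 θ) (hP0 θ))
      _ = 2 / ma ^ 2 * ∫ θ in Set.Icc b (fun i => b i + 1), W θ * P θ := integral_const_mul _ _
      _ = _ := by
          rw [per_int (G := fun θ => W θ * P θ) (fun θ n => by
            show W _ * P _ = W θ * P θ
            rw [pW, hPp]) b]
  -- step 2
  have s2 : ∫ θ in Set.Icc (0 : Fin r → ℝ) 1, W θ * P θ =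
      E * ∫ θ in Set.Icc (0 : Fin r → ℝ) 1,
        (al a θ * TH z (2 * t₂) (fun θ' => al a θ' * et Φ a (m / 4) θ') θ) * f θ := by
    have e1 := adj T (2 * t₂) c2e1 hP (fun n θ θ' => by
      show ((al a _ * al a _) * et Φ a (m / 4) _) * P _ = _
      rw [al_mul, et_per, hPp])
    rw [← e1]
    have e2 : ∀ θ, (al a θ * al a θ) * et Φ a (m / 4) θ * TH z (2 * t₂) P θ =
        E * ((al a θ * et Φ a (m / 4) θ) * TH z (2 * t₂) (fun θ' => al a θ' * f θ') θ) := by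
      intro θ
      calc (al a θ * al a θ) * et Φ a (m / 4) θ * TH z (2 * t₂) P θ
          = (al a θ * et Φ a (m / 4) θ) * (al a θ * TH z (2 * t₂) P θ) := by ring
        _ = _ := by
          rw [h1]
          ring
    simp only [e2]
    rw [integral_const_mul]
    congr 1
    have e3 := adj T (2 * t₂) cae1 caf (fun n θ θ' => by
      show (al a _ * et Φ a (m / 4) _) * (al a _ * f _) = _
      rw [et_per, hfp]
      linear_combination (et Φ a (m / 4) θ * f θ') * al_mul a θ θ' n)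
    rw [e3]
    refine integral_congr_ae (Eventually.of_forall fun θ => ?_)
    show TH z (2 * t₂) (fun θ' => al a θ' * et Φ a (m / 4) θ') θ * (al a θ * f θ) = _
    ring
  have cT1 : CB (TH z (2 * t₂) fun θ' => al a θ' * et Φ a (m / 4) θ') := th_cb T _ cae1
  have cT2 : CB (TH z (2 * t₁) fun θ' => al a θ' * et Φ a (m / 32) θ') := th_cb T _ cae2
  -- step 3
  have s3 : ∫ θ in Set.Icc (0 : Fin r → ℝ) 1,
        (al a θ * TH z (2 * t₂) (fun θ' => al a θ' * et Φ a (m / 4) θ') θ) * f θ ≤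
      Ck * (∫ θ in Set.Icc (0 : Fin r → ℝ) 1,
        (al a θ * TH z (2 * t₁) (fun θ' => al a θ' * et Φ a (m / 32) θ') θ) * f θ) +
      Ck * ε * ∫ θ in Set.Icc (0 : Fin r → ℝ) 1, (al a θ * al a θ) * f θ := by
    rw [← integral_const_mul, ← integral_const_mul, ← integral_add]
    · refine setIntegral_mono (((cal.mul cT1).mul hf).on _ _) ?_ fun θ => ?_
      · exact ((((cal.mul cT2).mul hf).const_mul Ck).add ((cal2.mul hf).const_mul (Ck * ε))).on _ _
      · have h3 := mul_le_mul_of_nonneg_right (hkey θ) (hf0 θ)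
        refine h3.trans (le_of_eq ?_)
        ring
    · exact (((cal.mul cT2).mul hf).const_mul Ck).on _ _
    · exact ((cal2.mul hf).const_mul (Ck * ε)).on _ _
  -- step 4
  have s4 : ∫ θ in Set.Icc (0 : Fin r → ℝ) 1,
        (al a θ * TH z (2 * t₁) (fun θ' => al a θ' * et Φ a (m / 32) θ') θ) * f θ ≤
      ∫ θ in Set.Icc (0 : Fin r → ℝ) 1, (al a θ * al a θ) * et Φ a (m / 32) θ * g θ := by
    have e3 := adj T (2 * t₁) cae2 caf (fun n θ θ' => by
      show (al a _ * et Φ a (m / 32) _) * (al a _ * f _) = _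
      rw [et_per, hfp]
      linear_combination (et Φ a (m / 32) θ * f θ') * al_mul a θ θ' n)
    have e4 : ∫ θ in Set.Icc (0 : Fin r → ℝ) 1,
        (al a θ * TH z (2 * t₁) (fun θ' => al a θ' * et Φ a (m / 32) θ') θ) * f θ =
        ∫ θ in Set.Icc (0 : Fin r → ℝ) 1,
          (al a θ * et Φ a (m / 32) θ) * TH z (2 * t₁) (fun θ' => al a θ' * f θ') θ := by
      rw [e3]
      refine integral_congr_ae (Eventually.of_forall fun θ => ?_)
      show (al a θ * TH z (2 * t₁) (fun θ' => al a θ' * et Φ a (m / 32) θ') θ) * f θ =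
        TH z (2 * t₁) (fun θ' => al a θ' * et Φ a (m / 32) θ') θ * (al a θ * f θ)
      ring
    rw [e4]
    refine setIntegral_mono ((cae2.mul (th_cb T _ caf)).on _ _)
      (((cal2.mul ce2).mul hg).on _ _) fun θ => ?_
    show (al a θ * et Φ a (m / 32) θ) * TH z (2 * t₁) (fun θ' => al a θ' * f θ') θ ≤
      (al a θ * al a θ) * et Φ a (m / 32) θ * g θ
    rw [h2]
    have h3 : 0 ≤ (al a θ * al a θ) * et Φ a (m / 32) θ * g θ :=
      mul_nonneg (mul_nonneg (mul_self_nonneg _) (et_01 a _ θ).1) (hg0 θ)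
    calc (al a θ * et Φ a (m / 32) θ) * (E' * (al a θ * g θ))
        = E' * ((al a θ * al a θ) * et Φ a (m / 32) θ * g θ) := by ring
      _ ≤ 1 * ((al a θ * al a θ) * et Φ a (m / 32) θ * g θ) := mul_le_mul_of_nonneg_right hE'1 h3
      _ = _ := one_mul _
  -- step 5
  have s5 : ∫ θ in Set.Icc (0 : Fin r → ℝ) 1, (al a θ * al a θ) * f θ =
      ∫ θ in Set.Icc (0 : Fin r → ℝ) 1, (al a θ * al a θ) * g θ := by
    have e3 := adj T (2 * t₁) cal caf (fun n θ θ' => by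
      show al a _ * (al a _ * f _) = _
      rw [hfp]
      linear_combination (f θ') * al_mul a θ θ' n)
    have e4 : ∀ θ, TH z (2 * t₁) (al a) θ = E' * al a θ := fun θ =>
      T.al (2 * t₁) (by linarith) a ha θ
    have e5 : ∫ θ in Set.Icc (0 : Fin r → ℝ) 1, TH z (2 * t₁) (al a) θ * (al a θ * f θ) =
        E' * ∫ θ in Set.Icc (0 : Fin r → ℝ) 1, (al a θ * al a θ) * f θ := by
      rw [← integral_const_mul]
      refine integral_congr_ae (Eventually.of_forall fun θ => ?_)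
      show TH z (2 * t₁) (al a) θ * (al a θ * f θ) = E' * ((al a θ * al a θ) * f θ)
      rw [e4]
      ring
    have e6 : ∫ θ in Set.Icc (0 : Fin r → ℝ) 1,
        al a θ * TH z (2 * t₁) (fun θ' => al a θ' * f θ') θ =
        E' * ∫ θ in Set.Icc (0 : Fin r → ℝ) 1, (al a θ * al a θ) * g θ := by
      rw [← integral_const_mul]
      refine integral_congr_ae (Eventually.of_forall fun θ => ?_)
      show al a θ * TH z (2 * t₁) (fun θ' => al a θ' * f θ') θ = E' * ((al a θ * al a θ) * g θ)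
      rw [h2]
      ring
    rw [e5, e6] at e3
    exact (mul_left_cancel₀ hE'0.ne' e3).symm
  refine s1.trans (mul_le_mul_of_nonneg_left ?_ (by positivity))
  rw [s2]
  refine mul_le_mul_of_nonneg_left ?_ hE0.le
  refine s3.trans ?_
  rw [s5]
  exact add_le_add (mul_le_mul_of_nonneg_left s4 hCk) le_rfl

/-! ### the lower bound -/

theorem ga_prob : IsProbabilityMeasure (ga r) := by
  unfold ga
  infer_instance

theorem gy_int (s : ℝ) (j : Fin r) : Integrable (fun ξ => gy z s ξ j) (ga r) := by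
  unfold gy ga
  refine Integrable.const_mul ?_ _
  refine integrable_finsetSum _ fun l _ => ?_
  refine Integrable.mul_const ?_ _
  have h1 : Integrable (fun x : ℝ => x) (ProbabilityTheory.gaussianReal 0 1) :=
    (ProbabilityTheory.memLp_id_gaussianReal 1).integrable le_rfl
  exact integrable_comp_eval (μ := fun _ : Fin r => ProbabilityTheory.gaussianReal 0 1) (i := l) h1

theorem gy_cont (s : ℝ) (j : Fin r) : Continuous (fun ξ => gy z s ξ j) := by
  unfold gy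
  fun_prop

theorem prob (T : THF Φ z) : ∃ C : ℝ, 0 ≤ C ∧ ∀ s R : ℝ, 0 ≤ s → 0 < R →
    (ga r).real {ξ | ∃ i, R < |gy z s ξ i|} ≤ C * (s / R ^ 2) := by
  have hp : IsProbabilityMeasure (ga r) := ga_prob
  obtain ⟨C, hC, h⟩ := T.tail 1 le_rfl
  refine ⟨C, hC, fun s R hs hR => ?_⟩
  have h1 := h s R hs hR
  rw [pow_one] at h1
  refine le_trans ?_ h1
  have hi : Integrable (fun ξ => 1 + (∑ i, |gy z s ξ i|) / R) (ga r) := by
    refine (integrable_const _).add (Integrable.div_const ?_ _)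
    exact integrable_finsetSum _ fun i _ => (gy_int s i).abs
  have hm : MeasurableSet {ξ : Fin r → ℝ | ∃ i, R < |gy z s ξ i|} := by
    have e : {ξ : Fin r → ℝ | ∃ i, R < |gy z s ξ i|} = ⋃ i, {ξ | R < |gy z s ξ i|} := by
      ext ξ
      simp
    rw [e]
    exact MeasurableSet.iUnion fun i =>
      (isOpen_lt continuous_const (gy_cont s i).abs).measurableSet
  calc (ga r).real {ξ | ∃ i, R < |gy z s ξ i|}
      = ∫ ξ in {ξ | ∃ i, R < |gy z s ξ i|}, (1 : ℝ) ∂(ga r) := by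
        rw [setIntegral_const, smul_eq_mul, mul_one]
    _ ≤ _ := by
        refine setIntegral_mono_on (integrable_const _).integrableOn hi.integrableOn hm
          fun ξ _ => ?_
        have h2 : 0 ≤ (∑ i, |gy z s ξ i|) / R :=
          div_nonneg (Finset.sum_nonneg fun i _ => abs_nonneg _) hR.le
        linarith

theorem ch_one {m v : ℝ} (hm : 0 < m) (h : 2 * m ≤ nd v) : ch m v = 1 := by
  have h1 : 1 ≤ nd v / m - 1 := by
    rw [le_sub_iff_add_le, le_div_iff₀ hm]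
    linarith
  unfold ch
  rw [min_eq_left h1, max_eq_right zero_le_one]

theorem low (T : THF Φ z) (a : (Fin r → ℤ) × (Fin r → ℤ)) (ha : a ∈ pos Φ) :
    ∃ η₀ : ℝ, 0 < η₀ ∧ ∀ t m ma : ℝ, 0 ≤ t → 0 < m → 0 < ma → t ≤ η₀ * ma ^ 2 →
      t ≤ η₀ * m ^ 2 → ∀ θ : Fin r → ℝ, ma ≤ nd (dz a.1 θ) →
      (∀ p ∈ (pos Φ).erase a, m ≤ nd (dz p.1 θ)) →
      ma ^ 2 / 2 ≤ TH z (2 * t) (fun θ' => (al a θ' * al a θ') * et Φ a (m / 4) θ') θ := by
  have hp : IsProbabilityMeasure (ga r) := ga_prob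
  obtain ⟨C, hC, hCt⟩ := prob T
  set K : ℝ := 1 + ∑ p ∈ pos Φ, ∑ i, |(p.1 i : ℝ)| with hK
  have hK1 : 1 ≤ K := by
    have : 0 ≤ ∑ p ∈ pos Φ, ∑ i, |(p.1 i : ℝ)| :=
      Finset.sum_nonneg fun p _ => Finset.sum_nonneg fun i _ => abs_nonneg _
    linarith
  have hKp : ∀ p ∈ pos Φ, ∑ i, |(p.1 i : ℝ)| ≤ K := by
    intro p hp
    have h1 := Finset.single_le_sum (f := fun p : (Fin r → ℤ) × (Fin r → ℤ) =>
      ∑ i, |(p.1 i : ℝ)|) (fun p _ => Finset.sum_nonneg fun i _ => abs_nonneg _) hp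
    have h2 : ∑ i, |(p.1 i : ℝ)| ≤ ∑ p ∈ pos Φ, ∑ i, |(p.1 i : ℝ)| := h1
    linarith
  refine ⟨1 / (16 * K ^ 2 * (C + 1)), by positivity, ?_⟩
  intro t m ma ht hm hma h1 h2 θ h3 h4
  set R : ℝ := min ma m / (2 * K) with hR
  have hmin : 0 < min ma m := lt_min hma hm
  have hR0 : 0 < R := by positivity
  have hKR : K * R = min ma m / 2 := by
    rw [hR]
    field_simp
  have htR : t ≤ 1 / (16 * K ^ 2 * (C + 1)) * (min ma m) ^ 2 := by
    rcases min_choice ma m with h | h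
    · rw [h]
      exact h1
    · rw [h]
      exact h2
  have hpr : (ga r).real {ξ | ∃ i, R < |gy z (2 * t) ξ i|} ≤ 1 / 2 := by
    refine (hCt (2 * t) R (by linarith) hR0).trans ?_
    have e1 : 2 * t / R ^ 2 = 8 * K ^ 2 * t / (min ma m) ^ 2 := by
      rw [hR]
      field_simp
      ring
    have e2 : 2 * t / R ^ 2 ≤ 1 / (2 * (C + 1)) := by
      rw [e1, div_le_iff₀ (by positivity)]
      calc 8 * K ^ 2 * t ≤ 8 * K ^ 2 * (1 / (16 * K ^ 2 * (C + 1)) * (min ma m) ^ 2) :=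
            mul_le_mul_of_nonneg_left htR (by positivity)
        _ = _ := by
          field_simp
          ring
    calc C * (2 * t / R ^ 2) ≤ C * (1 / (2 * (C + 1))) := mul_le_mul_of_nonneg_left e2 hC
      _ ≤ 1 / 2 := by
        rw [mul_one_div, div_le_div_iff₀ (by positivity) (by norm_num)]
        linarith
  set G : Set (Fin r → ℝ) := {ξ | ∀ i, |gy z (2 * t) ξ i| ≤ R} with hG
  have hGm : MeasurableSet G := by
    have e : G = ⋂ i, {ξ | |gy z (2 * t) ξ i| ≤ R} := by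
      ext ξ
      simp [hG]
    rw [e]
    exact MeasurableSet.iInter fun i =>
      (isClosed_le (gy_cont _ i).abs continuous_const).measurableSet
  have hGc : Gᶜ = {ξ | ∃ i, R < |gy z (2 * t) ξ i|} := by
    ext ξ
    simp [hG]
  have hG2 : 1 / 2 ≤ (ga r).real G := by
    have h5 := probReal_compl_eq_one_sub (μ := ga r) hGm
    rw [hGc] at h5
    linarith
  have c2e1 : CB fun θ => (al a θ * al a θ) * et Φ a (m / 4) θ :=
    ((al_cb a).mul (al_cb a)).mul (et_cb a _)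
  have hint := T.int (2 * t) (fun θ => (al a θ * al a θ) * et Φ a (m / 4) θ) θ c2e1.1 c2e1.2
  have hnn : ∀ θ, 0 ≤ (al a θ * al a θ) * et Φ a (m / 4) θ := fun θ =>
    mul_nonneg (mul_self_nonneg _) (et_01 a _ θ).1
  have hpt : ∀ ξ ∈ G, ma ^ 2 ≤ (al a (θ + gy z (2 * t) ξ) * al a (θ + gy z (2 * t) ξ)) *
      et Φ a (m / 4) (θ + gy z (2 * t) ξ) := by
    intro ξ hξ
    have h5 : ∀ p ∈ pos Φ, nd (dz p.1 θ) - min ma m / 2 ≤
        nd (dz p.1 (θ + gy z (2 * t) ξ)) := by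
      intro p hp
      have h6 := nd_low (dz p.1 θ) (dz p.1 (gy z (2 * t) ξ))
      have h7 : |dz p.1 (gy z (2 * t) ξ)| ≤ min ma m / 2 := by
        rw [← hKR]
        exact (dz_abs p.1 _ R hξ).trans (mul_le_mul_of_nonneg_right (hKp p hp) hR0.le)
      rw [dz_add]
      linarith
    have h6 : et Φ a (m / 4) (θ + gy z (2 * t) ξ) = 1 := by
      unfold et
      refine Finset.prod_eq_one fun p hp => ch_one (by positivity) ?_
      have h7 := h5 p (Finset.mem_of_mem_erase hp)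
      have h8 := h4 p hp
      have h9 := min_le_right ma m
      linarith
    have h7 : ma ≤ |al a (θ + gy z (2 * t) ξ)| := by
      have h8 := nd_sin (dz a.1 (θ + gy z (2 * t) ξ))
      have h9 := h5 a ha
      have h10 := min_le_left ma m
      show ma ≤ |Real.sin (π * dz a.1 (θ + gy z (2 * t) ξ))|
      linarith
    rw [h6, mul_one, ← sq, ← sq_abs (al a _)]
    exact pow_le_pow_left₀ hma.le h7 2
  calc ma ^ 2 / 2 = ma ^ 2 * (1 / 2) := by ring
    _ ≤ ma ^ 2 * (ga r).real G := mul_le_mul_of_nonneg_left hG2 (by positivity)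
    _ = ∫ _ in G, ma ^ 2 ∂(ga r) := by
        rw [setIntegral_const, smul_eq_mul, mul_comm]
    _ ≤ ∫ ξ in G, (al a (θ + gy z (2 * t) ξ) * al a (θ + gy z (2 * t) ξ)) *
          et Φ a (m / 4) (θ + gy z (2 * t) ξ) ∂(ga r) :=
        setIntegral_mono_on (integrable_const _).integrableOn hint.integrableOn hGm hpt
    _ ≤ ∫ ξ, (al a (θ + gy z (2 * t) ξ) * al a (θ + gy z (2 * t) ξ)) *
          et Φ a (m / 4) (θ + gy z (2 * t) ξ) ∂(ga r) :=
        setIntegral_le_integral hint (Eventually.of_forall fun ξ => hnn _)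

end tor

section grp

variable {G : Type} [Group G] [TopologicalSpace G] [IsTopologicalGroup G] [CompactSpace G]
  [T2Space G] [SecondCountableTopology G] [MeasurableSpace G] [BorelSpace G] {r : ℕ}

omit [Group G] [IsTopologicalGroup G] [T2Space G] [SecondCountableTopology G]
  [MeasurableSpace G] [BorelSpace G] in
theorem bdd (f : G → ℝ) (hf : Continuous f) : ∃ C : ℝ, ∀ x, |f x| ≤ C := by
  obtain ⟨C, hC⟩ := (isCompact_univ (X := G)).exists_bound_of_continuousOn hf.continuousOn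
  exact ⟨C, fun x => hC x (Set.mem_univ x)⟩

theorem rint {X : Type} [TopologicalSpace X] [CompactSpace X] [MeasurableSpace X]
    [OpensMeasurableSpace X] (μ : Measure X) [IsFiniteMeasure μ]
    {f : X → ℝ} (hf : Continuous f) : Integrable f μ :=
  hf.integrable_of_hasCompactSupport (HasCompactSupport.of_compactSpace _)

omit [Group G] [IsTopologicalGroup G] in
/-- integrals depending on a parameter -/
theorem par {X : Type} [TopologicalSpace X] [FirstCountableTopology X] [LocallyCompactSpace X]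
    (κ : Measure G) [IsFiniteMeasure κ] (f : X → G → ℝ) (hf : Continuous fun p : X × G => f p.1 p.2) :
    Continuous fun x => ∫ y, f x y ∂κ := by
  have h1 := continuous_parametric_integral_of_continuous (μ := κ) (X := X)
    (f := f) hf (isCompact_univ (X := G))
  rwa [Measure.restrict_univ] at h1

/-- the correlation -/
def wf (μ : Measure G) (f₁ f₂ : G → ℝ) (v : G) : ℝ := ∫ g, f₁ g * f₂ (g * v) ∂μ

/-- the class function -/
def cf (μ : Measure G) (f₁ f₂ : G → ℝ) (u : G) : ℝ := ∫ h, wf μ f₁ f₂ (h * u * h⁻¹) ∂μ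

theorem wf_cont (μ : Measure G) [IsFiniteMeasure μ] {f₁ f₂ : G → ℝ} (h1 : Continuous f₁)
    (h2 : Continuous f₂) : Continuous (wf μ f₁ f₂) := by
  refine par μ (fun v g => f₁ g * f₂ (g * v)) ?_
  exact (h1.comp continuous_snd).mul (h2.comp (continuous_snd.mul continuous_fst))

theorem cf_cont (μ : Measure G) [IsFiniteMeasure μ] {f₁ f₂ : G → ℝ} (h1 : Continuous f₁)
    (h2 : Continuous f₂) : Continuous (cf μ f₁ f₂) := by
  refine par μ (fun u h => wf μ f₁ f₂ (h * u * h⁻¹)) ?_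
  exact (wf_cont μ h1 h2).comp ((continuous_snd.mul continuous_fst).mul continuous_snd.inv)

omit [TopologicalSpace G] [IsTopologicalGroup G] [CompactSpace G] [T2Space G]
  [SecondCountableTopology G] [BorelSpace G] in
theorem wf_nn (μ : Measure G) {f₁ f₂ : G → ℝ} (h1 : ∀ x, 0 ≤ f₁ x) (h2 : ∀ x, 0 ≤ f₂ x) (v : G) :
    0 ≤ wf μ f₁ f₂ v := integral_nonneg fun _ => mul_nonneg (h1 _) (h2 _)

omit [TopologicalSpace G] [IsTopologicalGroup G] [CompactSpace G] [T2Space G]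
  [SecondCountableTopology G] [BorelSpace G] in
theorem cf_nn (μ : Measure G) {f₁ f₂ : G → ℝ} (h1 : ∀ x, 0 ≤ f₁ x) (h2 : ∀ x, 0 ≤ f₂ x) (v : G) :
    0 ≤ cf μ f₁ f₂ v := integral_nonneg fun _ => wf_nn μ h1 h2 _

omit [CompactSpace G] [T2Space G] [SecondCountableTopology G] in
theorem cf_cls (μ : Measure G) [μ.IsMulRightInvariant] (f₁ f₂ : G → ℝ) (x u : G) :
    cf μ f₁ f₂ (x * u * x⁻¹) = cf μ f₁ f₂ u := by
  unfold cf
  rw [← integral_mul_right_eq_self (fun h => wf μ f₁ f₂ (h * u * h⁻¹)) x]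
  refine integral_congr_ae (Eventually.of_forall fun h => ?_)
  show wf μ f₁ f₂ (h * (x * u * x⁻¹) * h⁻¹) = wf μ f₁ f₂ (h * x * u * (h * x)⁻¹)
  congr 1
  group

theorem of_int {X : Type} [TopologicalSpace X] [CompactSpace X] [MeasurableSpace X]
    [OpensMeasurableSpace X] (μ : Measure X) [IsFiniteMeasure μ] {f : X → ℝ} (hf : Continuous f)
    (h0 : ∀ x, 0 ≤ f x) : ∫⁻ x, ENNReal.ofReal (f x) ∂μ = ENNReal.ofReal (∫ x, f x ∂μ) :=
  (ofReal_integral_eq_lintegral_ofReal (rint μ hf) (Eventually.of_forall h0)).symm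

/-- the integral of the class function -/
theorem cf_int (μ : Measure G) [IsProbabilityMeasure μ] [μ.IsMulLeftInvariant]
    [μ.IsMulRightInvariant] {f₁ f₂ : G → ℝ} (h1 : Continuous f₁) (h2 : Continuous f₂) :
    ∫ u, cf μ f₁ f₂ u ∂μ = (∫ x, f₁ x ∂μ) * ∫ x, f₂ x ∂μ := by
  have hw := wf_cont μ h1 h2
  unfold cf
  rw [integral_integral_swap]
  · have e1 : ∀ h : G, ∫ u, wf μ f₁ f₂ (h * u * h⁻¹) ∂μ = ∫ u, wf μ f₁ f₂ u ∂μ := by
      intro h
      have e2 : ∀ u, h * u * h⁻¹ = h * (u * h⁻¹) := fun u => mul_assoc _ _ _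
      simp only [e2]
      rw [integral_mul_right_eq_self (fun u => wf μ f₁ f₂ (h * u)) h⁻¹]
      exact integral_mul_left_eq_self (fun u => wf μ f₁ f₂ u) h
    simp only [e1]
    rw [integral_const, probReal_univ, one_smul]
    unfold wf
    rw [integral_integral_swap]
    · have e3 : ∀ g : G, ∫ v, f₁ g * f₂ (g * v) ∂μ = f₁ g * ∫ x, f₂ x ∂μ := by
        intro g
        rw [integral_const_mul]
        congr 1
        exact integral_mul_left_eq_self (fun v => f₂ v) g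
      simp only [e3]
      rw [integral_mul_const]
    · refine rint (μ.prod μ) ?_
      exact (h1.comp continuous_snd).mul (h2.comp (continuous_snd.mul continuous_fst))
  · refine rint (μ.prod μ) ?_
    exact hw.comp ((continuous_snd.mul continuous_fst).mul continuous_snd.inv)

omit [CompactSpace G] [T2Space G] [SecondCountableTopology G] in
/-- substitution `g ↦ g h z⁻¹` -/
theorem subst1 (μ : Measure G) [μ.IsMulRightInvariant] (F1 F2 : G → ENNReal) (h z z' s : G) :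
    ∫⁻ g, F1 (g * z * h⁻¹) * F2 (g * s * z' * h⁻¹) ∂μ =
      ∫⁻ g, F1 g * F2 (g * (h * z⁻¹ * s * z' * h⁻¹)) ∂μ := by
  rw [← lintegral_mul_right_eq_self (μ := μ) (fun g => F1 (g * z * h⁻¹) * F2 (g * s * z' * h⁻¹))
    (h * z⁻¹)]
  refine lintegral_congr fun g => ?_
  have e1 : g * (h * z⁻¹) * z * h⁻¹ = g := by group
  have e2 : g * (h * z⁻¹) * s * z' * h⁻¹ = g * (h * z⁻¹ * s * z' * h⁻¹) := by group
  rw [e1, e2]

omit [CompactSpace G] [T2Space G] in
/-- the left side is an integral of the class function -/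
theorem swap (μ κ : Measure G) [IsProbabilityMeasure μ]
    [μ.IsMulRightInvariant] [IsProbabilityMeasure κ] (hκ : κ.map Inv.inv = κ)
    (t : (Fin r → ℝ) → G) (ht : Measurable t) (S : Set (Fin r → ℝ))
    (F1 F2 : G → ENNReal) (hF1 : Measurable F1) (hF2 : Measurable F2) :
    ∫⁻ h, ∫⁻ g, (∫⁻ θ in S, (∫⁻ z, F1 (g * z * h⁻¹) ∂κ) *
      (∫⁻ z, F2 (g * t θ * z * h⁻¹) ∂κ)) ∂μ ∂μ =
      ∫⁻ θ in S, ∫⁻ z, ∫⁻ z', (∫⁻ h, (∫⁻ g, F1 g * F2 (g * (h * (z * t θ * z') * h⁻¹)) ∂μ) ∂μ)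
        ∂κ ∂κ := by
  set Ψ : G → ENNReal := fun u => ∫⁻ g, F1 g * F2 (g * u) ∂μ with hΨ
  have hΨm : Measurable Ψ := by
    refine Measurable.lintegral_prod_right' (f := fun p : G × G => F1 p.2 * F2 (p.2 * p.1)) ?_
    exact (hF1.comp measurable_snd).mul (hF2.comp (measurable_snd.mul measurable_fst))
  -- step 1
  have step1 : ∀ h, ∫⁻ g, (∫⁻ θ in S, (∫⁻ z, F1 (g * z * h⁻¹) ∂κ) *
      (∫⁻ z, F2 (g * t θ * z * h⁻¹) ∂κ)) ∂μ =
      ∫⁻ θ in S, ∫⁻ z, ∫⁻ z', Ψ (h * z⁻¹ * t θ * z' * h⁻¹) ∂κ ∂κ := by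
    intro h
    have e1 : ∀ g, (∫⁻ θ in S, (∫⁻ z, F1 (g * z * h⁻¹) ∂κ) *
      (∫⁻ z, F2 (g * t θ * z * h⁻¹) ∂κ)) =
        ∫⁻ θ in S, ∫⁻ z, ∫⁻ z', F1 (g * z * h⁻¹) * F2 (g * t θ * z' * h⁻¹) ∂κ ∂κ := by
      intro g
      refine lintegral_congr fun θ => ?_
      rw [← lintegral_mul_const]
      · refine lintegral_congr fun z => ?_
        rw [lintegral_const_mul]
        exact hF2.comp (by fun_prop)
      · exact hF1.comp (by fun_prop)
    simp_rw [e1]
    have m0 : Measurable fun p : G × ((Fin r → ℝ) × (G × G)) =>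
        F1 (p.1 * p.2.2.1 * h⁻¹) * F2 (p.1 * t p.2.1 * p.2.2.2 * h⁻¹) := by
      refine (hF1.comp (by fun_prop)).mul (hF2.comp ?_)
      have : Measurable fun p : G × ((Fin r → ℝ) × (G × G)) => t p.2.1 :=
        ht.comp (by fun_prop)
      fun_prop
    rw [lintegral_lintegral_swap]
    · refine lintegral_congr fun θ => ?_
      rw [lintegral_lintegral_swap]
      · refine lintegral_congr fun z => ?_
        rw [lintegral_lintegral_swap]
        · refine lintegral_congr fun z' => ?_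
          exact subst1 μ F1 F2 h z z' (t θ)
        · exact (m0.comp (by fun_prop : Measurable fun q : G × G => (q.1, (θ, (z, q.2))))).aemeasurable
      · refine Measurable.aemeasurable ?_
        refine Measurable.lintegral_prod_right' (f := fun q : (G × G) × G =>
          F1 (q.1.1 * q.1.2 * h⁻¹) * F2 (q.1.1 * t θ * q.2 * h⁻¹)) ?_
        exact m0.comp (by fun_prop : Measurable fun q : (G × G) × G => (q.1.1, (θ, (q.1.2, q.2))))
    · refine Measurable.aemeasurable ?_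
      refine Measurable.lintegral_prod_right' (f := fun q : (G × (Fin r → ℝ)) × G =>
          ∫⁻ z', F1 (q.1.1 * q.2 * h⁻¹) * F2 (q.1.1 * t q.1.2 * z' * h⁻¹) ∂κ) ?_
      refine Measurable.lintegral_prod_right' (f := fun q : ((G × (Fin r → ℝ)) × G) × G =>
          F1 (q.1.1.1 * q.1.2 * h⁻¹) * F2 (q.1.1.1 * t q.1.1.2 * q.2 * h⁻¹)) ?_
      exact m0.comp (by fun_prop : Measurable fun q : ((G × (Fin r → ℝ)) × G) × G =>
        (q.1.1.1, (q.1.1.2, (q.1.2, q.2))))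
  rw [lintegral_congr step1]
  -- step 2
  have step2 : ∀ h θ, ∫⁻ z, ∫⁻ z', Ψ (h * z⁻¹ * t θ * z' * h⁻¹) ∂κ ∂κ =
      ∫⁻ z, ∫⁻ z', Ψ (h * (z * t θ * z') * h⁻¹) ∂κ ∂κ := by
    intro h θ
    have m1 : Measurable fun z => ∫⁻ z', Ψ (h * (z * t θ * z') * h⁻¹) ∂κ := by
      refine Measurable.lintegral_prod_right' (f := fun q : G × G =>
        Ψ (h * (q.1 * t θ * q.2) * h⁻¹)) ?_
      exact hΨm.comp (by fun_prop)
    conv_rhs => rw [← hκ]
    rw [lintegral_map _ measurable_inv]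
    · refine lintegral_congr fun z => ?_
      rw [hκ]
      refine lintegral_congr fun z' => ?_
      congr 1
      group
    · rw [hκ]; exact m1
  simp_rw [step2]
  -- step 3
  have m2 : Measurable fun p : G × ((Fin r → ℝ) × (G × G)) =>
      Ψ (p.1 * (p.2.2.1 * t p.2.1 * p.2.2.2) * p.1⁻¹) := by
    refine hΨm.comp ?_
    have : Measurable fun p : G × ((Fin r → ℝ) × (G × G)) => t p.2.1 :=
      ht.comp (by fun_prop)
    fun_prop
  rw [lintegral_lintegral_swap]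
  · refine lintegral_congr fun θ => ?_
    rw [lintegral_lintegral_swap]
    · refine lintegral_congr fun z => ?_
      rw [lintegral_lintegral_swap]
      exact (m2.comp (by fun_prop : Measurable fun q : G × G => (q.1, (θ, (z, q.2))))).aemeasurable
    · refine Measurable.aemeasurable ?_
      refine Measurable.lintegral_prod_right' (f := fun q : (G × G) × G =>
        Ψ (q.1.1 * (q.1.2 * t θ * q.2) * q.1.1⁻¹)) ?_
      exact m2.comp (by fun_prop : Measurable fun q : (G × G) × G => (q.1.1, (θ, (q.1.2, q.2))))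
  · refine Measurable.aemeasurable ?_
    refine Measurable.lintegral_prod_right' (f := fun q : (G × (Fin r → ℝ)) × G =>
        ∫⁻ z', Ψ (q.1.1 * (q.2 * t q.1.2 * z') * q.1.1⁻¹) ∂κ) ?_
    refine Measurable.lintegral_prod_right' (f := fun q : ((G × (Fin r → ℝ)) × G) × G =>
        Ψ (q.1.1.1 * (q.1.2 * t q.1.1.2 * q.2) * q.1.1.1⁻¹)) ?_
    exact m2.comp (by fun_prop : Measurable fun q : ((G × (Fin r → ℝ)) × G) × G =>
      (q.1.1.1, (q.1.1.2, (q.1.2, q.2))))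

/-- the double packet of a class function -/
def PP (κ : Measure G) (φ : G → ℝ) (v : G) : ℝ := ∫ y, ∫ y', φ (y * v * y') ∂κ ∂κ

theorem pp_cont (κ : Measure G) [IsFiniteMeasure κ] {φ : G → ℝ} (hφ : Continuous φ) :
    Continuous (PP κ φ) := by
  have h1 : Continuous fun p : G × G => ∫ y', φ (p.2 * p.1 * y') ∂κ := by
    refine par κ (fun (p : G × G) y' => φ (p.2 * p.1 * y')) ?_
    exact hφ.comp (((continuous_snd.comp continuous_fst).mul
      (continuous_fst.comp continuous_fst)).mul continuous_snd)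
  exact par κ (fun v y => ∫ y', φ (y * v * y') ∂κ) h1

omit [TopologicalSpace G] [IsTopologicalGroup G] [CompactSpace G] [T2Space G]
  [SecondCountableTopology G] [BorelSpace G] in
theorem pp_nn (κ : Measure G) {φ : G → ℝ} (hφ : ∀ x, 0 ≤ φ x) (v : G) : 0 ≤ PP κ φ v :=
  integral_nonneg fun _ => integral_nonneg fun _ => hφ _

/-- the left side for real functions -/
theorem swap' (μ κ : Measure G) [IsProbabilityMeasure μ]
    [μ.IsMulRightInvariant] [IsProbabilityMeasure κ] (hκ : κ.map Inv.inv = κ)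
    (t : (Fin r → ℝ) → G) (ht : Continuous t) (S : Set (Fin r → ℝ)) (b : Fin r → ℝ)
    (hSb : S ⊆ Set.Icc b (fun i => b i + 1)) {f₁ f₂ : G → ℝ} (h1 : Continuous f₁)
    (h2 : Continuous f₂) (p1 : ∀ x, 0 ≤ f₁ x) (p2 : ∀ x, 0 ≤ f₂ x) :
    ∫ h, ∫ g, (∫ θ in S, (∫ y, f₁ (g * y * h⁻¹) ∂κ) * (∫ y, f₂ (g * t θ * y * h⁻¹) ∂κ)) ∂μ ∂μ ≤
      ∫ θ in S, PP κ (cf μ f₁ f₂) (t θ) := by
  have hφ := cf_cont μ h1 h2
  have hφ0 := cf_nn μ p1 p2
  have hP := pp_cont κ hφ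
  have hP0 := pp_nn κ hφ0
  have hint : IntegrableOn (fun θ => PP κ (cf μ f₁ f₂) (t θ)) S :=
    ((hP.comp ht).continuousOn.integrableOn_compact isCompact_Icc).mono_set hSb
  have hR0 : 0 ≤ ∫ θ in S, PP κ (cf μ f₁ f₂) (t θ) := integral_nonneg fun θ => hP0 _
  rw [← ENNReal.ofReal_le_ofReal_iff hR0]
  have hor : ∀ {α : Type} [MeasurableSpace α] (ν : Measure α) (f : α → ℝ),
      ENNReal.ofReal (∫ x, f x ∂ν) ≤ ∫⁻ x, ENNReal.ofReal (f x) ∂ν := by
    intro α _ ν f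
    by_cases hf : Integrable f ν
    · rw [integral_eq_lintegral_pos_part_sub_lintegral_neg_part hf]
      refine le_trans (ENNReal.ofReal_le_ofReal (sub_le_self _ ENNReal.toReal_nonneg)) ?_
      exact ENNReal.ofReal_toReal_le
    · rw [integral_undef hf]
      simp
  have hm := swap μ κ hκ t ht.measurable S (fun x => ENNReal.ofReal (f₁ x))
    (fun x => ENNReal.ofReal (f₂ x)) h1.measurable.ennreal_ofReal h2.measurable.ennreal_ofReal
  have e1 : ∀ v : G, ∫⁻ g, ENNReal.ofReal (f₁ g) * ENNReal.ofReal (f₂ (g * v)) ∂μ =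
      ENNReal.ofReal (wf μ f₁ f₂ v) := by
    intro v
    have h3 := of_int μ (f := fun g => f₁ g * f₂ (g * v))
      (h1.mul (h2.comp (continuous_id.mul continuous_const))) fun g => mul_nonneg (p1 _) (p2 _)
    rw [wf, ← h3]
    refine lintegral_congr fun g => ?_
    rw [ENNReal.ofReal_mul (p1 _)]
  have e2 : ∀ u : G, ∫⁻ h, (∫⁻ g, ENNReal.ofReal (f₁ g) *
      ENNReal.ofReal (f₂ (g * (h * u * h⁻¹))) ∂μ) ∂μ = ENNReal.ofReal (cf μ f₁ f₂ u) := by
    intro u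
    have h3 := of_int μ (f := fun h => wf μ f₁ f₂ (h * u * h⁻¹))
      ((wf_cont μ h1 h2).comp ((continuous_id.mul continuous_const).mul continuous_inv))
      fun h => wf_nn μ p1 p2 _
    rw [cf, ← h3]
    exact lintegral_congr fun h => e1 _
  have e3 : ∀ v : G, ∫⁻ z, ∫⁻ z', ENNReal.ofReal (cf μ f₁ f₂ (z * v * z')) ∂κ ∂κ =
      ENNReal.ofReal (PP κ (cf μ f₁ f₂) v) := by
    intro v
    have h4 : Continuous fun z => ∫ z', cf μ f₁ f₂ (z * v * z') ∂κ := by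
      refine par κ (fun (z : G) z' => cf μ f₁ f₂ (z * v * z')) ?_
      exact hφ.comp ((continuous_fst.mul continuous_const).mul continuous_snd)
    have h3 := of_int κ (f := fun z => ∫ z', cf μ f₁ f₂ (z * v * z') ∂κ) h4
      fun z => integral_nonneg fun _ => hφ0 _
    rw [PP, ← h3]
    refine lintegral_congr fun z => ?_
    exact of_int κ (f := fun z' => cf μ f₁ f₂ (z * v * z'))
      (hφ.comp (continuous_const.mul continuous_id)) fun _ => hφ0 _
  have e4 : ∫⁻ θ in S, ENNReal.ofReal (PP κ (cf μ f₁ f₂) (t θ)) =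
      ENNReal.ofReal (∫ θ in S, PP κ (cf μ f₁ f₂) (t θ)) :=
    (ofReal_integral_eq_lintegral_ofReal hint (Eventually.of_forall fun θ => hP0 _)).symm
  simp only [e2, e3, e4] at hm
  rw [← hm]
  refine (hor μ _).trans (lintegral_mono fun h => ?_)
  refine (hor μ _).trans (lintegral_mono fun g => ?_)
  refine (hor _ _).trans (lintegral_mono fun θ => ?_)
  dsimp only
  rw [ENNReal.ofReal_mul (integral_nonneg fun z => p1 _)]
  exact mul_le_mul' (hor _ _) (hor _ _)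

/-! ### the heat measure -/

/-- the average over the heat measure -/
def psi (ϖ : Measure G) (φ : G → ℝ) (x : G) : ℝ := ∫ y, φ (x * y) ∂ϖ

theorem psi_cont (ϖ : Measure G) [IsFiniteMeasure ϖ] {φ : G → ℝ} (hφ : Continuous φ) :
    Continuous (psi ϖ φ) :=
  par ϖ (fun x y => φ (x * y)) (hφ.comp (continuous_fst.mul continuous_snd))

omit [CompactSpace G] [T2Space G] [SecondCountableTopology G] in
theorem psi_cls (μ ϖ : Measure G) [IsProbabilityMeasure μ] [μ.IsMulLeftInvariant]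
    [μ.IsMulRightInvariant] {kr : G → ℝ} (hkc : ∀ h x, kr (h * x * h⁻¹) = kr x)
    (hk : ∀ f : G → ℝ, Continuous f → ∫ x, f x ∂ϖ = ∫ x, f x * kr x ∂μ) {φ : G → ℝ}
    (hφ : Continuous φ) (hc : ∀ h x, φ (h * x * h⁻¹) = φ x) (h x : G) :
    psi ϖ φ (h * x * h⁻¹) = psi ϖ φ x := by
  unfold psi
  rw [hk (fun y => φ (h * x * h⁻¹ * y)) (hφ.comp (continuous_const.mul continuous_id)),
    hk (fun y => φ (x * y)) (hφ.comp (continuous_const.mul continuous_id))]
  rw [← integral_mul_left_eq_self (fun y => φ (h * x * h⁻¹ * y) * kr y) h]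
  rw [← integral_mul_right_eq_self (fun y => φ (h * x * h⁻¹ * (h * y)) * kr (h * y)) h⁻¹]
  refine integral_congr_ae (Eventually.of_forall fun y => ?_)
  show φ (h * x * h⁻¹ * (h * (y * h⁻¹))) * kr (h * (y * h⁻¹)) = φ (x * y) * kr y
  have e1 : h * x * h⁻¹ * (h * (y * h⁻¹)) = h * (x * y) * h⁻¹ := by group
  rw [e1, ← mul_assoc h y h⁻¹, hc, hkc]

omit [T2Space G] in
theorem psi_int (μ ϖ : Measure G) [IsProbabilityMeasure μ] [μ.IsMulRightInvariant]
    [IsProbabilityMeasure ϖ] {φ : G → ℝ} (hφ : Continuous φ) :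
    ∫ x, psi ϖ φ x ∂μ = ∫ x, φ x ∂μ := by
  unfold psi
  rw [integral_integral_swap]
  · have e1 : ∀ y : G, ∫ x, φ (x * y) ∂μ = ∫ x, φ x ∂μ := fun y =>
      integral_mul_right_eq_self (fun x => φ x) y
    simp only [e1]
    rw [integral_const, probReal_univ, one_smul]
  · exact rint (μ.prod ϖ) (hφ.comp (continuous_fst.mul continuous_snd))

omit [T2Space G] [SecondCountableTopology G] in
theorem psi_bd (μ ϖ : Measure G) [IsProbabilityMeasure μ] [μ.IsMulLeftInvariant] {kr : G → ℝ}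
    (hkr : Continuous kr)
    (hk : ∀ f : G → ℝ, Continuous f → ∫ x, f x ∂ϖ = ∫ x, f x * kr x ∂μ) {K : ℝ}
    (hK : ∀ x, kr x ≤ K) {φ : G → ℝ} (hφ : Continuous φ) (h0 : ∀ x, 0 ≤ φ x) (v : G) :
    psi ϖ φ v ≤ K * ∫ x, φ x ∂μ := by
  unfold psi
  have hc : Continuous fun y => φ (v * y) := hφ.comp (continuous_const.mul continuous_id)
  rw [hk _ hc]
  calc ∫ x, φ (v * x) * kr x ∂μ ≤ ∫ x, φ (v * x) * K ∂μ := by
        refine integral_mono (rint μ (hc.mul hkr)) (rint μ (hc.mul continuous_const)) fun x => ?_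
        exact mul_le_mul_of_nonneg_left (hK x) (h0 _)
    _ = K * ∫ x, φ x ∂μ := by
        rw [integral_mul_const, mul_comm]
        congr 1
        exact integral_mul_left_eq_self (fun x => φ x) v

omit [IsTopologicalGroup G] [T2Space G] [SecondCountableTopology G] in
/-- Weyl's integration formula for a continuous class function -/
theorem wif (μ : Measure G) [IsProbabilityMeasure μ] (t : (Fin r → ℝ) → G) (ht : Continuous t)
    (A : (Fin r → ℝ) → ℝ) (hA : Continuous A) (hA0 : ∀ θ, 0 ≤ A θ)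
    (hW : ∀ f : G → ENNReal, Measurable f → ∫⁻ x, f x ∂μ = ∫⁻ h,
      (∫⁻ θ in Set.Icc (0 : Fin r → ℝ) 1, ENNReal.ofReal (A θ) * f (h * t θ * h⁻¹)) ∂μ)
    (ψ : G → ℝ) (hψ : Continuous ψ) (h0 : ∀ x, 0 ≤ ψ x) (hc : ∀ h x, ψ (h * x * h⁻¹) = ψ x) :
    ∫ x, ψ x ∂μ = ∫ θ in Set.Icc (0 : Fin r → ℝ) 1, A θ * ψ (t θ) := by
  have h1 := hW (fun x => ENNReal.ofReal (ψ x)) hψ.measurable.ennreal_ofReal
  simp only [hc] at h1
  rw [lintegral_const, measure_univ, mul_one, of_int μ hψ h0] at h1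
  have h2 : ∫⁻ θ in Set.Icc (0 : Fin r → ℝ) 1, ENNReal.ofReal (A θ) * ENNReal.ofReal (ψ (t θ)) =
      ENNReal.ofReal (∫ θ in Set.Icc (0 : Fin r → ℝ) 1, A θ * ψ (t θ)) := by
    rw [ofReal_integral_eq_lintegral_ofReal]
    · refine lintegral_congr fun θ => ?_
      rw [ENNReal.ofReal_mul (hA0 _)]
    · exact (hA.mul (hψ.comp ht)).continuousOn.integrableOn_compact isCompact_Icc
    · exact Eventually.of_forall fun θ => mul_nonneg (hA0 _) (h0 _)
  rw [h2] at h1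
  exact (ENNReal.ofReal_eq_ofReal_iff (integral_nonneg fun x => h0 x)
    (integral_nonneg fun θ => mul_nonneg (hA0 _) (h0 _))).1 h1

end grp

/-! ### the denominator -/

theorem at_cont {r : ℕ} (D : RD r) (l : Fin r → ℤ) : Continuous (AT D l) := by
  unfold AT eu dz
  fun_prop

theorem at_norm (hDE : S_DENO) {r : ℕ} {Φ : RT r} {B : Matrix (Fin r) (Fin r) ℤ} (hI : IRD Φ B)
    (hW : WFF Φ B) (θ : Fin r → ℝ) :
    ‖AT (rd Φ) 1 θ‖ ^ 2 = ∏ p ∈ pos Φ, ‖1 - eu (dz p.1 θ)‖ ^ 2 := by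
  rw [hDE r Φ B hI hW θ, norm_mul, GEO.norm_eu, one_mul, norm_prod, ← Finset.prod_pow]
  refine Finset.prod_congr rfl fun p _ => ?_
  congr 1
  have h1 : 1 - eu (-(dz p.1 θ)) = -(eu (-(dz p.1 θ)) * (1 - eu (dz p.1 θ))) := by
    have h2 : eu (-(dz p.1 θ)) * eu (dz p.1 θ) = 1 := by
      rw [← GEO.eu_add, neg_add_cancel]
      have := GEO.eu_int 0
      simpa using this
    rw [mul_sub, mul_one, h2]
    ring
  rw [h1, norm_neg, norm_mul, GEO.norm_eu, one_mul]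

theorem eu_sin (y : ℝ) : ‖1 - eu y‖ ^ 2 = 4 * (Real.sin (π * y) * Real.sin (π * y)) := by
  have h4 : ‖1 - eu y‖ = ‖2 * Real.sin (π * y)‖ := by
    have h5 := Complex.norm_exp_I_mul_ofReal_sub_one (2 * π * y)
    rw [norm_sub_rev]
    have h6 : eu y = Complex.exp (Complex.I * ((2 * π * y : ℝ) : ℂ)) := by
      unfold eu
      congr 1
      push_cast
      ring
    rw [h6, h5]
    congr 3
    ring
  rw [h4, Real.norm_eq_abs, sq_abs]
  ring

theorem ch_zero {m v : ℝ} (hm : 0 < m) (h : nd v < m) : ch m v = 0 := by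
  have h1 : nd v / m - 1 ≤ 0 := by
    rw [sub_nonpos, div_le_one hm]
    exact h.le
  unfold ch
  rw [min_eq_right (h1.trans zero_le_one), max_eq_left h1]

theorem pt (hDE : S_DENO) {r : ℕ} {Φ : RT r} {B : Matrix (Fin r) (Fin r) ℤ} (hI : IRD Φ B)
    (hW : WFF Φ B) {a : (Fin r → ℤ) × (Fin r → ℤ)} (ha : a ∈ pos Φ) {m : ℝ} (hm : 0 < m)
    (θ : Fin r → ℝ) :
    (al a θ * al a θ) * et Φ a (m / 32) θ ≤
      1 / 4 * (8 / m) ^ (2 * ((pos Φ).card - 1)) * ‖AT (rd Φ) 1 θ‖ ^ 2 := by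
  have hR : 0 ≤ 1 / 4 * (8 / m) ^ (2 * ((pos Φ).card - 1)) * ‖AT (rd Φ) 1 θ‖ ^ 2 := by positivity
  by_cases h : ∀ p ∈ (pos Φ).erase a, m / 32 ≤ nd (dz p.1 θ)
  · have h1 : (al a θ * al a θ) * et Φ a (m / 32) θ ≤ al a θ * al a θ :=
      mul_le_of_le_one_right (mul_self_nonneg _) (et_01 a _ θ).2
    refine h1.trans ?_
    rw [at_norm hDE hI hW, ← Finset.mul_prod_erase _ _ ha, eu_sin]
    have h2 : (m / 8) ^ (2 * ((pos Φ).card - 1)) ≤
        ∏ p ∈ (pos Φ).erase a, ‖1 - eu (dz p.1 θ)‖ ^ 2 := by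
      rw [pow_mul, ← Finset.card_erase_of_mem ha, ← Finset.prod_const]
      refine Finset.prod_le_prod (fun p _ => by positivity) fun p hp => ?_
      refine pow_le_pow_left₀ (by positivity) ?_ 2
      have h3 := h p hp
      have h4 := GEO.lower (dz p.1 θ)
      linarith
    have h5 : (8 / m) ^ (2 * ((pos Φ).card - 1)) * (m / 8) ^ (2 * ((pos Φ).card - 1)) = 1 := by
      rw [← mul_pow]
      have : 8 / m * (m / 8) = 1 := by field_simp
      rw [this, one_pow]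
    have h6 : 1 ≤ (8 / m) ^ (2 * ((pos Φ).card - 1)) *
        ∏ p ∈ (pos Φ).erase a, ‖1 - eu (dz p.1 θ)‖ ^ 2 := by
      rw [← h5]
      exact mul_le_mul_of_nonneg_left h2 (by positivity)
    calc al a θ * al a θ = (al a θ * al a θ) * 1 := (mul_one _).symm
      _ ≤ (al a θ * al a θ) * ((8 / m) ^ (2 * ((pos Φ).card - 1)) *
        ∏ p ∈ (pos Φ).erase a, ‖1 - eu (dz p.1 θ)‖ ^ 2) :=
          mul_le_mul_of_nonneg_left h6 (mul_self_nonneg _)
      _ = _ := by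
        unfold al
        ring
  · push Not at h
    obtain ⟨p, hp, h1⟩ := h
    have h2 : et Φ a (m / 32) θ = 0 := by
      unfold et
      exact Finset.prod_eq_zero hp (ch_zero (by positivity) h1)
    rw [h2, mul_zero]
    exact hR

open Classical in
/-- the bound for one root -/
theorem one_a (hHAAR : S_HAAR) (hLIEB : S_LIEB) (hWFAC : S_WFAC) (hDENO : S_DENO)
    (hGXOC : S_GXOC) (hEXI : S_EXI) (hSYK : S_SYK) (hHRM : S_HRM) (hHKS : S_HKS) (hHKM : S_HKM)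
    (hPSF : S_PSF) (hWIF : S_WIF) (hTHG : S_THG) (hKEY : S_KEY) (hGTI : S_GTI)
    {N : ℕ} {H : Subgroup (SU N)} {r : ℕ} {Φ : RT r} {B : Matrix (Fin r) (Fin r) ℤ}
    {Hc : Fin r → MT N} {E : (Fin r → ℤ) × (Fin r → ℤ) → MT N} {c k : ℝ} {d : ℕ}
    (hCX : CX H Φ B Hc E c k d) (μ : Measure H) [IsProbabilityMeasure μ] [μ.IsMulLeftInvariant]
    (j : ℕ) (hj : 1 ≤ j) (a : {p // p ∈ pos Φ}) : ∃ C η₀ : ℝ, 0 ≤ C ∧ 0 < η₀ ∧
    ∀ (t₁ t₂ : ℝ) (κ : Measure H), 0 < t₂ → t₂ ≤ t₁ → t₁ ≤ 1 / 2 → PC H Φ E c k a t₁ t₂ κ →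
    ∀ ma m : ℝ, 0 < ma → 0 < m → t₂ ≤ η₀ * ma ^ 2 → t₁ ≤ η₀ * m ^ 2 →
    ∀ (S : Set (Fin r → ℝ)) (b : Fin r → ℝ), MeasurableSet S → S ⊆ Set.Icc b (fun i => b i + 1) →
      (∀ θ ∈ S, ma ≤ nd (dz a.1.1 θ) ∧ ∀ p ∈ (pos Φ).erase a.1, m ≤ nd (dz p.1 θ)) →
    ∀ f₁ f₂ : H → ℝ, Continuous f₁ → Continuous f₂ → (∀ x, 0 ≤ f₁ x) → (∀ x, 0 ≤ f₂ x) →
      ∫ h, ∫ g, (∫ θ in S, (∫ y, f₁ (g * y * h⁻¹) ∂κ) * (∫ y, f₂ (g * tt H Hc θ * y * h⁻¹) ∂κ)) ∂μ ∂μ ≤
        C * ((1 / ma ^ 2) * (1 / m ^ (2 * ((pos Φ).card - 1)) +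
          t₁ ^ (-((d : ℝ) / 2)) * (t₁ / m ^ 2) ^ j) * ((∫ x, f₁ x ∂μ) * ∫ x, f₂ x ∂μ)) := by
  have hcl := hCX.closed
  have hcs : CompactSpace H := isCompact_iff_compactSpace.1 hcl.isCompact
  have hsec : SecondCountableTopology H :=
    inferInstanceAs (SecondCountableTopology ((H : Set (SU N)) : Type))
  obtain ⟨hR, hI, hO⟩ := hHAAR H μ
  obtain ⟨X, hX⟩ := hCX.frame
  obtain ⟨⟨χ, hχ⟩, -⟩ := hGXOC N H r Φ B Hc E c k d X hCX.one_le hCX.closed hCX.conn hCX.lrd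
    hCX.kc hX
  obtain ⟨CP, hCP, P⟩ := hPSF N H r Φ B Hc E c k d hCX
  have hird := hCX.lrd.ird
  have hwf := hWFAC r Φ B hird
  obtain ⟨⟨z, hz⟩, -⟩ := hHRM r Φ B hCX.one_le hird hwf
  have T : THF Φ z := hTHG r Φ B hCX.one_le hird hwf z hz
  obtain ⟨hkc, -, CH, hCH, hCHb⟩ := hHKS N H r Φ B Hc E c k d hCX χ hχ
  have hlie := hLIEB N H hcl
  obtain ⟨CK, ηK, hCK, hηK, hkey⟩ := hKEY r Φ B hCX.one_le hird hwf z hz a.1 a.2 j hj
  obtain ⟨ηL, hηL, hlow⟩ := low T a.1 a.2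
  set n : ℕ := (pos Φ).card with hn
  set cw : ℝ := ((WF Φ).card : ℝ) with hcw
  have hcw0 : 0 < cw := by
    have h1 : 0 < (WF Φ).card := Finset.card_pos.2 ⟨1, hwf.one⟩
    rw [hcw]
    exact_mod_cast h1
  set q : ℝ := ((rd Φ).Q a.1.1 : ℝ) / 4 with hq
  have hq0 : 0 ≤ q := by
    have h3 : (0 : ℤ) ≤ (rd Φ).Q a.1.1 := Finset.sum_nonneg fun p _ => sq_nonneg _
    have h4 : (0 : ℝ) ≤ (rd Φ).Q a.1.1 := by exact_mod_cast h3
    positivity
  have hyr : ∀ b : {p // p ∈ pos Φ} × Bool, yr Φ E c b ∈ lie H := by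
    intro b
    unfold yr
    refine hlie.smul _ _ ?_
    have hp : b.1.1 ∈ Φ := (Finset.mem_filter.1 b.1.2).1
    split_ifs
    · exact (hCX.lrd.emem _ hp).1
    · exact (hCX.lrd.emem _ hp).2
  refine ⟨2 * Real.exp q * CK * (1 / 4 * 8 ^ (2 * (n - 1)) * cw + 512 ^ j * CH),
    min ηL (ηK / 512), by positivity, by positivity, ?_⟩
  intro t₁ t₂ κ ht₂ ht21 ht₁ hκ ma m hma hm hma2 hm2 S b hS hSb hSm f₁ f₂ hf₁ hf₂ p1 p2
  have ht₁0 : 0 < t₁ := lt_of_lt_of_le ht₂ ht21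
  have hκp : IsProbabilityMeasure κ := hκ.prob
  have hκi : κ.map Inv.inv = κ := hSYK N H hcl _ _ κ (fun b => hlie.smul _ _ (hyr b)) hκ
  obtain ⟨κ', hκ'⟩ := hEXI N H hcl ({p // p ∈ pos Φ} × Bool)
    (fun b => ((√((if b.1 = a then 0 else t₁) / k) : ℝ) : ℂ) • yr Φ E c b)
    (fun b => hlie.smul _ _ (hyr b))
  have hκ'p : IsProbabilityMeasure κ' := hκ'.prob
  obtain ⟨ϖ, hϖ⟩ := hEXI N H hcl (Fin d) (fun a => ((√(2 * t₁ / k) : ℝ) : ℂ) • X a)
    (fun a => hlie.smul _ _ (hX.mem a))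
  have hGM : GM H c k d (2 * t₁) ϖ := ⟨X, hX, hϖ⟩
  have hϖp : IsProbabilityMeasure ϖ := hϖ.prob
  -- the heat kernel
  set kk : H → ℂ := hk Φ χ (2 * t₁) with hkk
  have hkkc : Continuous kk := hkc (2 * t₁) (by linarith)
  obtain ⟨hk0, hk1⟩ := hHKM N H r Φ B Hc E c k d hCX μ χ hχ (2 * t₁) (by linarith)
  rw [← hkk] at hk0 hk1
  have hkr : Continuous fun x => (kk x).re := Complex.continuous_re.comp hkkc
  have hkre : ∀ f : H → ℝ, Continuous f → ∫ x, f x ∂ϖ = ∫ x, f x * (kk x).re ∂μ := by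
    intro f hf
    have h1 := hk1 ϖ hGM (fun x => (f x : ℂ)) (Complex.continuous_ofReal.comp hf)
    have h2 : ∀ x, (f x : ℂ) * kk x = ((f x * (kk x).re : ℝ) : ℂ) := by
      intro x
      apply Complex.ext
      · simp [(hk0 x).1]
      · simp [(hk0 x).1]
    simp_rw [h2] at h1
    rw [integral_complex_ofReal, integral_complex_ofReal] at h1
    exact_mod_cast h1
  have hkcl : ∀ h x : H, (kk (h * x * h⁻¹)).re = (kk x).re := by
    intro h x
    congr 1
    rw [hkk]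
    unfold hk
    refine tsum_congr fun i => ?_
    have h3 : χ i (h * x * h⁻¹) = χ i x := by
      obtain ⟨n, σ, -, -, -, hσ⟩ := hχ i
      rw [← hσ, ← hσ, Rep.ch, Rep.ch, map_mul, map_mul, Matrix.trace_mul_comm, ← mul_assoc,
        ← map_mul, inv_mul_cancel, map_one, one_mul]
    rw [h3]
  have hkb : ∀ x, (kk x).re ≤ CH * t₁ ^ (-((d : ℝ) / 2)) := by
    intro x
    refine (Complex.re_le_norm _).trans ((hCHb (2 * t₁) (by linarith) (by linarith) x).trans ?_)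
    refine mul_le_mul_of_nonneg_left ?_ hCH
    exact Real.rpow_le_rpow_of_nonpos ht₁0 (by linarith) (by
      have : (0 : ℝ) ≤ d := Nat.cast_nonneg d
      linarith)
  -- the class function
  set φ : H → ℝ := cf μ f₁ f₂ with hφd
  have hφ : Continuous φ := cf_cont μ hf₁ hf₂
  have hφ0 : ∀ x, 0 ≤ φ x := cf_nn μ p1 p2
  have hφc : ∀ h x : H, φ (h * x * h⁻¹) = φ x := cf_cls μ f₁ f₂
  have hφi : ∫ u, φ u ∂μ = (∫ x, f₁ x ∂μ) * ∫ x, f₂ x ∂μ := cf_int μ hf₁ hf₂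
  set I : ℝ := (∫ x, f₁ x ∂μ) * ∫ x, f₂ x ∂μ with hI
  have hI0 : 0 ≤ I := mul_nonneg (integral_nonneg p1) (integral_nonneg p2)
  have htper : ∀ (θ : Fin r → ℝ) (n : Fin r → ℤ),
      tt H Hc (θ + fun i => (n i : ℝ)) = tt H Hc θ := fun θ n => by rw [P.tadd, P.tint, mul_one]
  have hCBt : ∀ f : H → ℝ, Continuous f → CB fun θ => f (tt H Hc θ) := by
    intro f hf
    obtain ⟨C, hC⟩ := bdd f hf
    exact ⟨hf.comp P.tcont, C, fun θ => hC _⟩
  have hG := hGTI N H r Φ B Hc E c k d hCX z hz a t₁ t₂ κ κ' ϖ ht₁0 ht₂.le hκ hκ' hGM φ hφ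
    (fun g h => hφc h g)
  set ε : ℝ := (2 * t₁ / (m / 16) ^ 2) ^ j with hε
  have hηK2 : t₁ ≤ ηK / 512 * m ^ 2 := hm2.trans
    (mul_le_mul_of_nonneg_right (min_le_right _ _) (by positivity))
  have htor := torus T a.2 (t₁ := t₁) (t₂ := t₂) (m := m) (ma := ma) (Ck := CK) (ε := ε)
    ht₁0.le hma hCK (fun θ => by
      have h1 := hkey (2 * t₁) (2 * t₂) (m / 16) (by linarith) (by linarith) (by linarith)
        (by positivity) (by
          calc 2 * t₁ ≤ 2 * (ηK / 512 * m ^ 2) := by linarith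
            _ = ηK * (m / 16) ^ 2 := by ring) θ
      have e1 : 4 * (m / 16) = m / 4 := by ring
      have e2 : m / 16 / 2 = m / 32 := by ring
      rw [e1, e2] at h1
      exact h1)
    (P := fun θ => PP κ φ (tt H Hc θ)) (f := fun θ => PP κ' φ (tt H Hc θ))
    (g := fun θ => psi ϖ φ (tt H Hc θ))
    (hCBt _ (pp_cont κ hφ)) (hCBt _ (pp_cont κ' hφ)) (hCBt _ (psi_cont ϖ hφ))
    (fun θ n => by
      show PP κ φ _ = PP κ φ _
      rw [htper])
    (fun θ n => by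
      show PP κ' φ _ = PP κ' φ _
      rw [htper])
    (fun θ => pp_nn κ hφ0 _) (fun θ => pp_nn κ' hφ0 _) (fun θ => integral_nonneg fun _ => hφ0 _)
    (fun θ => hG.1 θ) (fun θ => hG.2 θ) hS hSb
    (fun θ hθ => hlow t₂ m ma ht₂.le hm hma
      (hma2.trans (mul_le_mul_of_nonneg_right (min_le_left _ _) (by positivity)))
      ((ht21.trans hm2).trans (mul_le_mul_of_nonneg_right (min_le_left _ _) (by positivity)))
      θ (hSm θ hθ).1 (hSm θ hθ).2)
  have hsw := swap' μ κ hκi (tt H Hc) P.tcont S b hSb hf₁ hf₂ p1 p2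
  refine hsw.trans (htor.trans ?_)
  -- the two integrals
  have hψ := psi_cont ϖ hφ
  have hψ0 : ∀ x, 0 ≤ psi ϖ φ x := fun x => integral_nonneg fun _ => hφ0 _
  have hψc : ∀ h x : H, psi ϖ φ (h * x * h⁻¹) = psi ϖ φ x := psi_cls μ ϖ hkcl hkre hφ hφc
  have hψi : ∫ x, psi ϖ φ x ∂μ = I := by rw [psi_int μ ϖ hφ, hφi]
  have hA : Continuous fun θ => ‖AT (rd Φ) 1 θ‖ ^ 2 / cw :=
    ((at_cont (rd Φ) 1).norm.pow 2).div_const _
  have hw := wif μ (tt H Hc) P.tcont (fun θ => ‖AT (rd Φ) 1 θ‖ ^ 2 / cw) hA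
    (fun θ => by positivity) (fun f hf => hWIF N H r Φ B Hc E c k d hCX μ f hf)
    (psi ϖ φ) hψ hψ0 hψc
  rw [hψi] at hw
  have i1 : ∫ θ in Set.Icc (0 : Fin r → ℝ) 1,
      (al a.1 θ * al a.1 θ) * et Φ a.1 (m / 32) θ * psi ϖ φ (tt H Hc θ) ≤
      1 / 4 * (8 / m) ^ (2 * (n - 1)) * cw * I := by
    have c1 : CB fun θ => (al a.1 θ * al a.1 θ) * et Φ a.1 (m / 32) θ * psi ϖ φ (tt H Hc θ) :=
      (((al_cb _).mul (al_cb _)).mul (et_cb _ _)).mul (hCBt _ hψ)
    have c2 : Continuous fun θ => (1 / 4 * (8 / m) ^ (2 * (n - 1)) * cw) *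
        (‖AT (rd Φ) 1 θ‖ ^ 2 / cw * psi ϖ φ (tt H Hc θ)) :=
      continuous_const.mul (hA.mul (hψ.comp P.tcont))
    rw [hw, ← integral_const_mul]
    refine setIntegral_mono (c1.on _ _) (c2.continuousOn.integrableOn_compact isCompact_Icc)
      fun θ => ?_
    have h1 := mul_le_mul_of_nonneg_right (pt hDENO hird hwf a.2 hm θ) (hψ0 (tt H Hc θ))
    refine h1.trans (le_of_eq ?_)
    rw [← hn]
    field_simp
  have i2 : ∫ θ in Set.Icc (0 : Fin r → ℝ) 1, (al a.1 θ * al a.1 θ) * psi ϖ φ (tt H Hc θ) ≤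
      CH * t₁ ^ (-((d : ℝ) / 2)) * I := by
    have c1 : CB fun θ => (al a.1 θ * al a.1 θ) * psi ϖ φ (tt H Hc θ) :=
      ((al_cb _).mul (al_cb _)).mul (hCBt _ hψ)
    calc ∫ θ in Set.Icc (0 : Fin r → ℝ) 1, (al a.1 θ * al a.1 θ) * psi ϖ φ (tt H Hc θ)
        ≤ ∫ θ in Set.Icc (0 : Fin r → ℝ) 1, CH * t₁ ^ (-((d : ℝ) / 2)) * I := by
          refine setIntegral_mono (c1.on _ _)
            (continuous_const.continuousOn.integrableOn_compact isCompact_Icc) fun θ => ?_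
          have h1 := psi_bd μ ϖ hkr hkre hkb hφ hφ0 (tt H Hc θ)
          rw [hφi] at h1
          have h2 : al a.1 θ * al a.1 θ ≤ 1 := by
            have h3 : |al a.1 θ| ≤ 1 := Real.abs_sin_le_one _
            rw [← abs_mul_abs_self]
            exact mul_le_one₀ h3 (abs_nonneg _) h3
          exact (mul_le_of_le_one_left (hψ0 _) h2).trans h1
      _ = CH * t₁ ^ (-((d : ℝ) / 2)) * I := by
          rw [setIntegral_const, Measure.real, Real.volume_Icc_pi]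
          simp
  have hE : Real.exp (2 * t₂ * ((rd Φ).Q a.1.1 / 4)) ≤ Real.exp q := by
    rw [Real.exp_le_exp, ← hq]
    have h1 : 2 * t₂ ≤ 1 := by linarith
    nlinarith
  have hε0 : 0 ≤ ε := by positivity
  have hεe : ε = 512 ^ j * (t₁ / m ^ 2) ^ j := by
    rw [hε, ← mul_pow]
    congr 1
    field_simp
    norm_num
  have hkm : (8 / m) ^ (2 * (n - 1)) = 8 ^ (2 * (n - 1)) * (1 / m ^ (2 * (n - 1))) := by
    rw [div_pow]
    ring
  have hpow : 0 ≤ t₁ ^ (-((d : ℝ) / 2)) := Real.rpow_nonneg ht₁0.le _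
  have hfin : CK * (∫ θ in Set.Icc (0 : Fin r → ℝ) 1,
        (al a.1 θ * al a.1 θ) * et Φ a.1 (m / 32) θ * psi ϖ φ (tt H Hc θ)) +
      CK * ε * ∫ θ in Set.Icc (0 : Fin r → ℝ) 1, (al a.1 θ * al a.1 θ) * psi ϖ φ (tt H Hc θ) ≤
      CK * (1 / 4 * (8 / m) ^ (2 * (n - 1)) * cw * I) +
        CK * ε * (CH * t₁ ^ (-((d : ℝ) / 2)) * I) :=
    add_le_add (mul_le_mul_of_nonneg_left i1 hCK) (mul_le_mul_of_nonneg_left i2 (by positivity))
  have hfin0 : 0 ≤ CK * (1 / 4 * (8 / m) ^ (2 * (n - 1)) * cw * I) +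
        CK * ε * (CH * t₁ ^ (-((d : ℝ) / 2)) * I) := by positivity
  have hfin2 : CK * (1 / 4 * (8 / m) ^ (2 * (n - 1)) * cw * I) +
        CK * ε * (CH * t₁ ^ (-((d : ℝ) / 2)) * I) ≤
      CK * (1 / 4 * 8 ^ (2 * (n - 1)) * cw + 512 ^ j * CH) *
        ((1 / m ^ (2 * (n - 1)) + t₁ ^ (-((d : ℝ) / 2)) * (t₁ / m ^ 2) ^ j) * I) := by
    rw [hkm, hεe]
    set u : ℝ := 1 / m ^ (2 * (n - 1)) with hu
    set v : ℝ := t₁ ^ (-((d : ℝ) / 2)) with hv
    set w : ℝ := (t₁ / m ^ 2) ^ j with hw'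
    have hu0 : 0 ≤ u := by positivity
    have hw0 : 0 ≤ w := by positivity
    have e1 : CK * (1 / 4 * 8 ^ (2 * (n - 1)) * cw + 512 ^ j * CH) * ((u + v * w) * I) =
        (CK * (1 / 4 * (8 ^ (2 * (n - 1)) * u) * cw * I) + CK * (512 ^ j * w) * (CH * v * I)) +
        (CK * (1 / 4 * 8 ^ (2 * (n - 1)) * cw * (v * w) * I) + CK * (512 ^ j * CH * u * I)) := by
      ring
    rw [e1]
    have : 0 ≤ CK * (1 / 4 * 8 ^ (2 * (n - 1)) * cw * (v * w) * I) +
      CK * (512 ^ j * CH * u * I) := by positivity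
    linarith
  calc 2 / ma ^ 2 * (Real.exp (2 * t₂ * ((rd Φ).Q a.1.1 / 4)) *
      (CK * (∫ θ in Set.Icc (0 : Fin r → ℝ) 1,
        (al a.1 θ * al a.1 θ) * et Φ a.1 (m / 32) θ * psi ϖ φ (tt H Hc θ)) +
      CK * ε * ∫ θ in Set.Icc (0 : Fin r → ℝ) 1, (al a.1 θ * al a.1 θ) * psi ϖ φ (tt H Hc θ)))
      ≤ 2 / ma ^ 2 * (Real.exp q *
        (CK * (1 / 4 * 8 ^ (2 * (n - 1)) * cw + 512 ^ j * CH) *
        ((1 / m ^ (2 * (n - 1)) + t₁ ^ (-((d : ℝ) / 2)) * (t₁ / m ^ 2) ^ j) * I))) := by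
        refine mul_le_mul_of_nonneg_left ?_ (by positivity)
        calc _ ≤ Real.exp (2 * t₂ * ((rd Φ).Q a.1.1 / 4)) *
              (CK * (1 / 4 * (8 / m) ^ (2 * (n - 1)) * cw * I) +
                CK * ε * (CH * t₁ ^ (-((d : ℝ) / 2)) * I)) :=
              mul_le_mul_of_nonneg_left hfin (Real.exp_pos _).le
          _ ≤ Real.exp q * (CK * (1 / 4 * (8 / m) ^ (2 * (n - 1)) * cw * I) +
                CK * ε * (CH * t₁ ^ (-((d : ℝ) / 2)) * I)) :=
              mul_le_mul_of_nonneg_right hE hfin0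
          _ ≤ _ := mul_le_mul_of_nonneg_left hfin2 (Real.exp_pos _).le
    _ = _ := by ring

end JBC

/-- uniform constants -/
theorem JBC.unif {ι : Type} [Fintype ι] (p : ι → ℝ → ℝ → Prop)
    (hmono : ∀ a C C' η η', 0 ≤ C → C ≤ C' → 0 < η' → η' ≤ η → p a C η → p a C' η')
    (h : ∀ a, ∃ C η : ℝ, 0 ≤ C ∧ 0 < η ∧ p a C η) :
    ∃ C η : ℝ, 0 ≤ C ∧ 0 < η ∧ ∀ a, p a C η := by
  choose C η h1 h2 h3 using h
  have h4 : 0 ≤ ∑ a, 1 / η a := Finset.sum_nonneg fun a _ => (one_div_pos.2 (h2 a)).le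
  have h5 : 0 < 1 + ∑ a, 1 / η a := by linarith
  refine ⟨∑ a, C a, 1 / (1 + ∑ a, 1 / η a), Finset.sum_nonneg fun a _ => h1 a,
    one_div_pos.2 h5, fun a => ?_⟩
  refine hmono a (C a) _ (η a) _ (h1 a) ?_ (one_div_pos.2 h5) ?_ (h3 a)
  · exact Finset.single_le_sum (f := C) (fun b _ => h1 b) (Finset.mem_univ a)
  · have h6 : 1 / η a ≤ ∑ a, 1 / η a := Finset.single_le_sum (f := fun a => 1 / η a)
      (fun b _ => (one_div_pos.2 (h2 b)).le) (Finset.mem_univ a)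
    rw [one_div_le h5 (h2 a)]
    linarith

theorem t_JBC : M_JBC := by
  intro hHAAR hLIEB hWFAC hDENO hTAUF hGXOC hUNI hEXI hSYK hHMF hHRM hHKS hHKM hPSF hWIF hTHG
    hKEY hGTI N H r Φ B Hc E c k d hCX μ _ _ j hj
  have h1 := JBC.one_a hHAAR hLIEB hWFAC hDENO hGXOC hEXI hSYK hHRM hHKS hHKM hPSF hWIF hTHG hKEY
    hGTI hCX μ j hj
  obtain ⟨C, η, hC, hη, h2⟩ := JBC.unif _ (by
    intro a C C' η η' hC hCC hη' hηη h t₁ t₂ κ a1 a2 a3 a4 ma m b1 b2 b3 b4 S b c1 c2 c3 f₁ f₂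
      d1 d2 d3 d4
    have h5 := h t₁ t₂ κ a1 a2 a3 a4 ma m b1 b2
      (b3.trans (mul_le_mul_of_nonneg_right hηη (by positivity)))
      (b4.trans (mul_le_mul_of_nonneg_right hηη (by positivity))) S b c1 c2 c3 f₁ f₂ d1 d2 d3 d4
    refine h5.trans (mul_le_mul_of_nonneg_right hCC ?_)
    have i1 : 0 ≤ ∫ x, f₁ x ∂μ := integral_nonneg d3
    have i2 : 0 ≤ ∫ x, f₂ x ∂μ := integral_nonneg d4
    have i3 : 0 < t₁ := lt_of_lt_of_le a1 a2
    positivity) h1
  refine ⟨C, η, hC, hη, fun a t₁ t₂ κ a1 a2 a3 a4 ma m b1 b2 b3 b4 S b c1 c2 c3 f₁ f₂ d1 d2 d3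
    d4 => ?_⟩
  refine (h2 a t₁ t₂ κ a1 a2 a3 a4 ma m b1 b2 b3 b4 S b c1 c2 c3 f₁ f₂ d1 d2 d3 d4).trans
    (le_of_eq ?_)
  ring

end

end STZ3
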