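import Pool.Agent.STZ3.StD3

/-!
# Compact simple groups of rank two: module JSC, the `L¹` norm on the cells for the chain packets
-/

namespace STZ3

open STZ LGR MeasureTheory Matrix Filter

open scoped ComplexConjugate Matrix Real Topology

noncomputable section

namespace JSC

theorem ofReal_integral_le {α : Type*} [MeasurableSpace α] (μ : Measure α) (f : α → ℝ) :
    ENNReal.ofReal (∫ x, f x ∂μ) ≤ ∫⁻ x, ENNReal.ofReal (f x) ∂μ := by
  by_cases hf : Integrable f μ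
  · rw [integral_eq_lintegral_pos_part_sub_lintegral_neg_part hf]
    refine le_trans (ENNReal.ofReal_le_ofReal (sub_le_self _ ENNReal.toReal_nonneg)) ?_
    exact ENNReal.ofReal_toReal_le
  · rw [integral_undef hf]
    simp

section bm

variable {X Y Z : Type*} [MeasurableSpace X] [MeasurableSpace Y] [MeasurableSpace Z]
  {E : Type*} [NormedAddCommGroup E] [NormedSpace ℝ E]

/-- bounded measurable functions -/
def BM {X : Type*} [MeasurableSpace X] {E : Type*} [NormedAddCommGroup E] (f : X → E) : Prop :=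
  StronglyMeasurable f ∧ ∃ C : ℝ, ∀ x, ‖f x‖ ≤ C

omit [NormedSpace ℝ E] in
theorem BM.integrable {f : X → E} (hf : BM f) (ν : Measure X) [IsFiniteMeasure ν] :
    Integrable f ν := by
  obtain ⟨h, C, hC⟩ := hf
  exact Integrable.of_bound h.aestronglyMeasurable C (Eventually.of_forall hC)

omit [NormedSpace ℝ E] in
theorem BM.comp {f : X → E} (hf : BM f) {g : Y → X} (hg : Measurable g) : BM fun y => f (g y) := by
  obtain ⟨h, C, hC⟩ := hf
  exact ⟨h.comp_measurable hg, C, fun y => hC _⟩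

theorem BM.int {f : X × Y → E} (hf : BM f) (ν : Measure Y) [IsFiniteMeasure ν] :
    BM fun x => ∫ y, f (x, y) ∂ν := by
  obtain ⟨h, C, hC⟩ := hf
  exact ⟨h.integral_prod_right', C * ν.real Set.univ,
    fun x => norm_integral_le_of_norm_le_const (Eventually.of_forall fun y => hC _)⟩

theorem BM.smul {f : X → ℝ} {g : X → E} (hf : BM f) (hg : BM g) : BM fun x => f x • g x := by
  obtain ⟨h1, C1, hC1⟩ := hf
  obtain ⟨h2, C2, hC2⟩ := hg
  refine ⟨h1.smul h2, |C1| * |C2|, fun x => ?_⟩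
  rw [norm_smul]
  exact mul_le_mul ((hC1 x).trans (le_abs_self _)) ((hC2 x).trans (le_abs_self _)) (norm_nonneg _)
    (abs_nonneg _)

end bm

theorem bdd {G : Type} [TopologicalSpace G] [CompactSpace G] (f : G → ℝ) (hf : Continuous f) :
    ∃ C : ℝ, ∀ x, ‖f x‖ ≤ C := by
  obtain ⟨C, hC⟩ := (isCompact_univ (X := G)).exists_bound_of_continuousOn hf.continuousOn
  exact ⟨C, fun x => hC x (Set.mem_univ x)⟩

section abs

variable {G : Type} [Group G] [TopologicalSpace G] [IsTopologicalGroup G]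
  [SecondCountableTopology G] [MeasurableSpace G] [BorelSpace G] {r : ℕ}

theorem main (μ : Measure G) [IsProbabilityMeasure μ] [μ.IsMulRightInvariant] (ℓ : Measure ℝ)
    [IsFiniteMeasure ℓ] (m m' : Measure (Fin r → ℝ)) [IsFiniteMeasure m] [IsFiniteMeasure m']
    (T : (Fin r → ℝ) → G) (hT : Continuous T) (tadd : ∀ x y, T (x + y) = T x * T y)
    (a : ℝ × G × G → ENNReal) (ha : Measurable a) (Q S B : Set (Fin r → ℝ))
    (hQ : MeasurableSet Q) (hm : ∀ᵐ s ∂m, s ∈ B) (hm' : ∀ᵐ s ∂m', s ∈ B) (K : ENNReal)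
    (n : ℝ → ENNReal) (hn : Measurable n)
    (hb : ∀ t t', ∀ φ ∈ Q, ∀ s ∈ B, ∀ s' ∈ B,
      ∫⁻ h, ∫⁻ g, (∫⁻ θ in S, a (t, h, g) * a (t', h, g * T (θ + (s' - φ - s)))) ∂μ ∂μ ≤
        K * (n t * n t')) :
    ∫⁻ h, ∫⁻ g, (∫⁻ t, (∫⁻ φ in Q, ∫⁻ s, a (t, h, g * T φ * T s) ∂m) ∂ℓ) *
      (∫⁻ t, (∫⁻ θ in S, ∫⁻ s, a (t, h, g * T θ * T s) ∂m') ∂ℓ) ∂μ ∂μ ≤
      K * (volume Q * m Set.univ * m' Set.univ) * (∫⁻ t, n t ∂ℓ) ^ 2 := by
  classical
  set q : Measure (Fin r → ℝ) := volume.restrict Q with hq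
  set p : Measure (Fin r → ℝ) := volume.restrict S with hp
  set M1 : Measure (ℝ × (Fin r → ℝ) × (Fin r → ℝ)) := ℓ.prod (q.prod m) with hM1
  set M2 : Measure (ℝ × (Fin r → ℝ)) := ℓ.prod m' with hM2
  set u : (ℝ × (Fin r → ℝ) × (Fin r → ℝ)) × (G × G) → ENNReal :=
    fun z => a (z.1.1, z.2.1, z.2.2 * T z.1.2.1 * T z.1.2.2) with hu
  set w0 : ((ℝ × (Fin r → ℝ)) × (G × G)) × (Fin r → ℝ) → ENNReal :=
    fun z => a (z.1.1.1, z.1.2.1, z.1.2.2 * T z.2 * T z.1.1.2) with hw0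
  set w : (ℝ × (Fin r → ℝ)) × (G × G) → ENNReal := fun z => ∫⁻ θ, w0 (z, θ) ∂p with hw
  have mu' : Measurable u := ha.comp (by
    have : Continuous fun z : (ℝ × (Fin r → ℝ) × (Fin r → ℝ)) × (G × G) =>
      (z.1.1, z.2.1, z.2.2 * T z.1.2.1 * T z.1.2.2) := by fun_prop
    exact this.measurable)
  have mw0 : Measurable w0 := ha.comp (by
    have : Continuous fun z : ((ℝ × (Fin r → ℝ)) × (G × G)) × (Fin r → ℝ) =>
      (z.1.1.1, z.1.2.1, z.1.2.2 * T z.2 * T z.1.1.2) := by fun_prop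
    exact this.measurable)
  have mw : Measurable w := mw0.lintegral_prod_right'
  have e1 : ∀ h g, ∫⁻ t, (∫⁻ φ in Q, ∫⁻ s, a (t, h, g * T φ * T s) ∂m) ∂ℓ =
      ∫⁻ x, u (x, (h, g)) ∂M1 := by
    intro h g
    have m1 : Measurable fun x : ℝ × (Fin r → ℝ) × (Fin r → ℝ) => u (x, (h, g)) :=
      mu'.comp (by fun_prop)
    rw [hM1, lintegral_prod _ m1.aemeasurable]
    refine lintegral_congr fun t => ?_
    have m2 : Measurable fun y : (Fin r → ℝ) × (Fin r → ℝ) => u ((t, y), (h, g)) :=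
      mu'.comp (by fun_prop)
    rw [lintegral_prod _ m2.aemeasurable]
  have e2 : ∀ h g, ∫⁻ t, (∫⁻ θ in S, ∫⁻ s, a (t, h, g * T θ * T s) ∂m') ∂ℓ =
      ∫⁻ y, w (y, (h, g)) ∂M2 := by
    intro h g
    have m1 : Measurable fun x : ℝ × (Fin r → ℝ) => w (x, (h, g)) := mw.comp (by fun_prop)
    rw [hM2, lintegral_prod _ m1.aemeasurable]
    refine lintegral_congr fun t => ?_
    rw [lintegral_lintegral_swap]
    have m2 : Measurable fun y : (Fin r → ℝ) × (Fin r → ℝ) => w0 (((t, y.2), (h, g)), y.1) :=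
      mw0.comp (by fun_prop)
    exact m2.aemeasurable
  have mx : ∀ z, Measurable fun x => u (x, z) := fun z => mu'.comp (by fun_prop)
  have my : ∀ z, Measurable fun x => w (x, z) := fun z => mw.comp (by fun_prop)
  have muI : Measurable fun z => ∫⁻ x, u (x, z) ∂M1 := mu'.lintegral_prod_left'
  have mwI : Measurable fun z => ∫⁻ x, w (x, z) ∂M2 := mw.lintegral_prod_left'
  have e3 : ∫⁻ h, ∫⁻ g, (∫⁻ t, (∫⁻ φ in Q, ∫⁻ s, a (t, h, g * T φ * T s) ∂m) ∂ℓ) *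
      (∫⁻ t, (∫⁻ θ in S, ∫⁻ s, a (t, h, g * T θ * T s) ∂m') ∂ℓ) ∂μ ∂μ =
      ∫⁻ z, (∫⁻ x, ∫⁻ y, u (x, z) * w (y, z) ∂M2 ∂M1) ∂(μ.prod μ) := by
    have e4 : ∀ z, ∫⁻ x, ∫⁻ y, u (x, z) * w (y, z) ∂M2 ∂M1 =
        (∫⁻ x, u (x, z) ∂M1) * ∫⁻ y, w (y, z) ∂M2 := by
      intro z
      rw [← lintegral_mul_const _ (mx z)]
      refine lintegral_congr fun x => ?_
      rw [lintegral_const_mul _ (my z)]
    simp_rw [e4]
    have m3 : Measurable fun z => (∫⁻ x, u (x, z) ∂M1) * ∫⁻ y, w (y, z) ∂M2 := muI.mul mwI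
    rw [lintegral_prod _ m3.aemeasurable]
    simp_rw [e1, e2]
  rw [e3]
  have e5 : ∫⁻ z, (∫⁻ x, ∫⁻ y, u (x, z) * w (y, z) ∂M2 ∂M1) ∂(μ.prod μ) =
      ∫⁻ x, ∫⁻ y, (∫⁻ z, u (x, z) * w (y, z) ∂(μ.prod μ)) ∂M2 ∂M1 := by
    have mF : Measurable fun v : ((G × G) × (ℝ × (Fin r → ℝ) × (Fin r → ℝ))) × (ℝ × (Fin r → ℝ)) =>
        u (v.1.2, v.1.1) * w (v.2, v.1.1) :=
      (mu'.comp (by fun_prop)).mul (mw.comp (by fun_prop))
    rw [lintegral_lintegral_swap (mF.lintegral_prod_right').aemeasurable]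
    refine lintegral_congr fun x => ?_
    rw [lintegral_lintegral_swap]
    have m2 : Measurable fun v : (G × G) × (ℝ × (Fin r → ℝ)) => u (x, v.1) * w (v.2, v.1) :=
      (mu'.comp (by fun_prop)).mul (mw.comp (by fun_prop))
    exact m2.aemeasurable
  rw [e5]
  -- the inner integral
  have e6 : ∀ x y, ∫⁻ z, u (x, z) * w (y, z) ∂(μ.prod μ) =
      ∫⁻ h, ∫⁻ g, (∫⁻ θ in S, a (x.1, h, g) *
        a (y.1, h, g * T (θ + (y.2 - x.2.1 - x.2.2)))) ∂μ ∂μ := by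
    intro x y
    have m1 : Measurable fun z : G × G => u (x, z) * w (y, z) :=
      (mu'.comp (by fun_prop)).mul (mw.comp (by fun_prop))
    rw [lintegral_prod _ m1.aemeasurable]
    refine lintegral_congr fun h => ?_
    have h1 := lintegral_mul_right_eq_self (μ := μ)
      (fun g => ∫⁻ θ in S, a (x.1, h, g) * a (y.1, h, g * T (θ + (y.2 - x.2.1 - x.2.2))))
      (T x.2.1 * T x.2.2)
    rw [← h1]
    refine lintegral_congr fun g => ?_
    rw [lintegral_const_mul]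
    · rw [← mul_assoc]
      refine congrArg (fun c => u (x, (h, g)) * c) ?_
      simp only [hw]
      refine lintegral_congr fun θ => ?_
      simp only [hw0]
      rw [mul_assoc, mul_assoc, mul_assoc, ← tadd, ← tadd, ← tadd]
      refine congrArg (fun c => a (y.1, h, g * T c)) ?_
      abel
    · refine ha.comp ?_
      have : Continuous fun θ : Fin r → ℝ =>
        (y.1, h, g * (T x.2.1 * T x.2.2) * T (θ + (y.2 - x.2.1 - x.2.2))) := by fun_prop
      exact this.measurable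
  have hM1ae : ∀ᵐ x ∂M1, x.2.1 ∈ Q ∧ x.2.2 ∈ B := by
    have h1 : ∀ᵐ v ∂(q.prod m), v.1 ∈ Q :=
      Measure.quasiMeasurePreserving_fst.ae (ae_restrict_mem hQ)
    have h2 : ∀ᵐ v ∂(q.prod m), v.2 ∈ B := Measure.quasiMeasurePreserving_snd.ae hm
    exact Measure.quasiMeasurePreserving_snd.ae
      (p := fun v : (Fin r → ℝ) × (Fin r → ℝ) => v.1 ∈ Q ∧ v.2 ∈ B) (h1.and h2)
  have hM2ae : ∀ᵐ x ∂M2, x.2 ∈ B := Measure.quasiMeasurePreserving_snd.ae hm'
  have e7 : ∫⁻ x, ∫⁻ y, (∫⁻ z, u (x, z) * w (y, z) ∂(μ.prod μ)) ∂M2 ∂M1 ≤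
      ∫⁻ x, ∫⁻ y, K * (n x.1 * n y.1) ∂M2 ∂M1 := by
    refine lintegral_mono_ae ?_
    filter_upwards [hM1ae] with x hx
    refine lintegral_mono_ae ?_
    filter_upwards [hM2ae] with y hy
    rw [e6]
    exact hb _ _ _ hx.1 _ hx.2 _ hy
  refine e7.trans (le_of_eq ?_)
  have mn1 : Measurable fun y : ℝ × (Fin r → ℝ) => n y.1 := hn.comp measurable_fst
  have mn2 : Measurable fun y : ℝ × (Fin r → ℝ) × (Fin r → ℝ) => n y.1 := hn.comp measurable_fst
  have e8 : ∀ x : ℝ × (Fin r → ℝ) × (Fin r → ℝ), ∫⁻ y, K * (n x.1 * n y.1) ∂M2 =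
      n x.1 * (K * ∫⁻ y, n y.1 ∂M2) := by
    intro x
    have : ∀ y : ℝ × (Fin r → ℝ), K * (n x.1 * n y.1) = (n x.1 * K) * n y.1 := fun y => by ring
    simp_rw [this]
    rw [lintegral_const_mul _ mn1, mul_assoc]
  simp_rw [e8]
  rw [lintegral_mul_const _ mn2]
  have e9 : ∫⁻ x, n x.1 ∂M1 = (∫⁻ t, n t ∂ℓ) * (volume Q * m Set.univ) := by
    rw [hM1, lintegral_prod _ mn2.aemeasurable]
    simp only [lintegral_const]
    rw [lintegral_mul_const _ hn, ← Set.univ_prod_univ, Measure.prod_prod, hq,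
      Measure.restrict_apply_univ]
  have e10 : ∫⁻ x, n x.1 ∂M2 = (∫⁻ t, n t ∂ℓ) * m' Set.univ := by
    rw [hM2, lintegral_prod _ mn1.aemeasurable]
    simp only [lintegral_const]
    rw [lintegral_mul_const _ hn]
  rw [e9, e10]
  ring

end abs


section conv

variable {G : Type} [Group G] [TopologicalSpace G] [IsTopologicalGroup G] [CompactSpace G]
  [SecondCountableTopology G] [MeasurableSpace G] [BorelSpace G] {r : ℕ}

theorem bm_ofReal {X Y : Type*} [MeasurableSpace X] [MeasurableSpace Y] {f : X × Y → ℝ}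
    (hf : BM f) (h0 : ∀ x, 0 ≤ f x) (ν : Measure Y) [IsFiniteMeasure ν] (x : X) :
    ENNReal.ofReal (∫ y, f (x, y) ∂ν) = ∫⁻ y, ENNReal.ofReal (f (x, y)) ∂ν :=
  ofReal_integral_eq_lintegral_ofReal
    ((hf.comp (g := fun y : Y => (x, y)) (by fun_prop)).integrable ν)
    (Eventually.of_forall fun y => h0 _)

theorem conv (μ κ : Measure G) [IsProbabilityMeasure μ] [IsProbabilityMeasure κ] (D : Set G)
    (T : (Fin r → ℝ) → G) (hT : Continuous T) (S : Set (Fin r → ℝ)) (hS : volume S ≠ ⊤)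
    (f₁ f₂ : G → ℝ) (h1 : Continuous f₁) (h2 : Continuous f₂) (p1 : ∀ x, 0 ≤ f₁ x)
    (p2 : ∀ x, 0 ≤ f₂ x) :
    ∫⁻ h, ∫⁻ g, (∫⁻ θ in S, (∫⁻ z in D, ENNReal.ofReal (f₁ (g * z * h⁻¹)) ∂κ) *
      (∫⁻ z in D, ENNReal.ofReal (f₂ (g * T θ * z * h⁻¹)) ∂κ)) ∂μ ∂μ =
    ENNReal.ofReal (∫ h, ∫ g, (∫ θ in S, (∫ z in D, f₁ (g * z * h⁻¹) ∂κ) *
      (∫ z in D, f₂ (g * T θ * z * h⁻¹) ∂κ)) ∂μ ∂μ) := by
  have hfin : IsFiniteMeasure (volume.restrict S) := isFiniteMeasure_restrict.2 hS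
  obtain ⟨C1, hC1⟩ := bdd f₁ h1
  obtain ⟨C2, hC2⟩ := bdd f₂ h2
  have b1 : BM fun x : (G × G) × G => f₁ (x.1.2 * x.2 * x.1.1⁻¹) :=
    ⟨(h1.comp (by fun_prop)).stronglyMeasurable, C1, fun x => hC1 _⟩
  have b2 : BM fun x : ((G × G) × (Fin r → ℝ)) × G => f₂ (x.1.1.2 * T x.1.2 * x.2 * x.1.1.1⁻¹) :=
    ⟨(h2.comp (by fun_prop)).stronglyMeasurable, C2, fun x => hC2 _⟩
  have c1 := b1.int (κ.restrict D)
  have c2 := b2.int (κ.restrict D)
  have c3 : BM fun x : (G × G) × (Fin r → ℝ) => (∫ z in D, f₁ (x.1.2 * z * x.1.1⁻¹) ∂κ) *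
      (∫ z in D, f₂ (x.1.2 * T x.2 * z * x.1.1⁻¹) ∂κ) :=
    (c1.comp (g := fun x : (G × G) × (Fin r → ℝ) => x.1) (by fun_prop)).smul c2
  have n3 : ∀ x : (G × G) × (Fin r → ℝ), 0 ≤ (∫ z in D, f₁ (x.1.2 * z * x.1.1⁻¹) ∂κ) *
      (∫ z in D, f₂ (x.1.2 * T x.2 * z * x.1.1⁻¹) ∂κ) := fun x =>
    mul_nonneg (integral_nonneg fun z => p1 _) (integral_nonneg fun z => p2 _)
  have c4 := c3.int (volume.restrict S)
  have n4 : ∀ x : G × G, 0 ≤ ∫ θ in S, (∫ z in D, f₁ (x.2 * z * x.1⁻¹) ∂κ) *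
      (∫ z in D, f₂ (x.2 * T θ * z * x.1⁻¹) ∂κ) := fun x =>
    integral_nonneg fun θ => n3 (x, θ)
  have c5 := c4.int μ
  have n5 : ∀ x : G, 0 ≤ ∫ g, (∫ θ in S, (∫ z in D, f₁ (g * z * x⁻¹) ∂κ) *
      (∫ z in D, f₂ (g * T θ * z * x⁻¹) ∂κ)) ∂μ := fun x => integral_nonneg fun g => n4 (x, g)
  rw [ofReal_integral_eq_lintegral_ofReal (c5.integrable μ) (Eventually.of_forall n5)]
  refine lintegral_congr fun h => ?_
  have e1 := bm_ofReal c4 n4 μ h
  simp only at e1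
  rw [e1]
  refine lintegral_congr fun g => ?_
  have e2 := bm_ofReal c3 n3 (volume.restrict S) (h, g)
  simp only at e2
  rw [e2]
  refine lintegral_congr fun θ => ?_
  rw [ENNReal.ofReal_mul (integral_nonneg fun z => p1 _)]
  have e3 := bm_ofReal b1 (fun x => p1 _) (κ.restrict D) (h, g)
  have e4 := bm_ofReal b2 (fun x => p2 _) (κ.restrict D) ((h, g), θ)
  simp only at e3 e4
  rw [e3, e4]

theorem shift (S : Set (Fin r → ℝ)) (hS : MeasurableSet S) (F : (Fin r → ℝ) → ENNReal)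
    (c : Fin r → ℝ) :
    ∫⁻ θ in S, F (θ + c) = ∫⁻ θ in {θ | θ - c ∈ S}, F θ := by
  have hS' : MeasurableSet {θ : Fin r → ℝ | θ - c ∈ S} :=
    hS.preimage (f := fun θ : Fin r → ℝ => θ - c) (by fun_prop)
  rw [← lintegral_indicator hS, ← lintegral_indicator hS',
    ← lintegral_add_right_eq_self (fun θ => {θ : Fin r → ℝ | θ - c ∈ S}.indicator F θ) c]
  refine lintegral_congr fun θ => ?_
  by_cases h : θ ∈ S
  · rw [Set.indicator_of_mem h, Set.indicator_of_mem]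
    show θ + c - c ∈ S
    rwa [add_sub_cancel_right]
  · rw [Set.indicator_of_notMem h, Set.indicator_of_notMem]
    show θ + c - c ∉ S
    rwa [add_sub_cancel_right]

end conv

end JSC

open JSC in
theorem t_JSC : M_JSC := by
  intro hHAAR hPSF hJBC _ N H r Φ B Hc E c k d hCX μ _ _ j C₂ hj hC₂
  classical
  have hcl := hCX.closed
  have hcs : CompactSpace H := isCompact_iff_compactSpace.1 hcl.isCompact
  have hsec : SecondCountableTopology H :=
    inferInstanceAs (SecondCountableTopology ((H : Set (SU N)) : Type))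
  obtain ⟨hR, -, -⟩ := hHAAR H μ
  obtain ⟨CP, hCP, P⟩ := hPSF N H r Φ B Hc E c k d hCX
  obtain ⟨CJ, η₀, hCJ, hη₀, hJ⟩ := hJBC N H r Φ B Hc E c k d hCX μ j hj
  refine ⟨CJ * (2 * C₂) ^ 2, η₀, by positivity, hη₀, ?_⟩
  intro a₀ t₁ t₂ ma m₀ R κ ν₁ ν₂ ν₃ ν₄ Ψ Ψ' Q S G ht₂ ht12 ht₁ hma0 hm0 hη₂ hη₁ hκ h12 h34 hQ hS
    hQ1 hS1 hF hG hG1
  have hκp : IsProbabilityMeasure κ := hκ.prob
  have i1 := h12.fin₁
  have i2 := h12.fin₂
  have i3 := h34.fin₁
  have i4 := h34.fin₂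
  have ht1 : 0 < t₁ := ht₂.trans_le ht12
  set ℓ : Measure ℝ := volume.restrict (Set.Ioc (0 : ℝ) 1) with hℓdef
  have hℓ : IsFiniteMeasure ℓ := isFiniteMeasure_restrict.2 (by simp)
  set B₀ : ℝ := (1 / ma ^ 2) * (1 / m₀ ^ (2 * ((pos Φ).card - 1)) +
    t₁ ^ (-((d : ℝ) / 2)) * (t₁ / m₀ ^ 2) ^ j) with hB₀
  have hB₀0 : 0 ≤ B₀ := by positivity
  -- the function `a`
  set a : ℝ × H × H → ENNReal :=
    fun x => ∫⁻ z, ENNReal.ofReal ‖G x.1 (x.2.2 * z * x.2.1⁻¹)‖ ∂κ with ha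
  have hma : Measurable a := by
    refine Measurable.lintegral_prod_right'
      (f := fun x : (ℝ × H × H) × H => ENNReal.ofReal ‖G x.1.1 (x.1.2.2 * x.2 * x.1.2.1⁻¹)‖) ?_
    have h1 : Continuous fun x : (ℝ × H × H) × H => G x.1.1 (x.1.2.2 * x.2 * x.1.2.1⁻¹) :=
      hG.comp (f := fun x : (ℝ × H × H) × H => (x.1.1, x.1.2.2 * x.2 * x.1.2.1⁻¹)) (by fun_prop)
    exact h1.norm.measurable.ennreal_ofReal
  set n : ℝ → ENNReal := fun t => ENNReal.ofReal (∫ x, ‖G t x‖ ∂μ) with hn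
  have hGc : ∀ t, Continuous fun x => ‖G t x‖ := fun t =>
    (hG.comp (f := fun x : H => (t, x)) (by fun_prop)).norm
  have hbm : BM fun x : ℝ × H => ‖G x.1 x.2‖ :=
    ⟨(Continuous.norm hG).stronglyMeasurable, 1, fun x => by rw [norm_norm]; exact hG1 _ _⟩
  have hbm1 : BM fun t => ∫ x, ‖G t x‖ ∂μ := hbm.int μ
  have hmn : Measurable n := hbm1.1.measurable.ennreal_ofReal
  -- the set of the shifts
  set Bs : Set (Fin r → ℝ) := {s | ∀ i, |s i| ≤ C₂ * R} with hBs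
  have hae : ∀ ν : Measure (Fin r → ℝ), ν {s | ∃ i, C₂ * R < |s i|} = 0 → ∀ᵐ s ∂ν, s ∈ Bs := by
    intro ν hν
    rw [ae_iff]
    refine measure_mono_null ?_ hν
    intro s hs
    simp only [hBs, Set.mem_ofPred_eq, not_forall, not_le] at hs ⊢
    exact hs
  have hm : ∀ᵐ s ∂(ν₁ + ν₂), s ∈ Bs := by
    rw [ae_add_measure_iff]
    exact ⟨hae _ h12.supp₁, hae _ h12.supp₂⟩
  have hm' : ∀ᵐ s ∂(ν₃ + ν₄), s ∈ Bs := by
    rw [ae_add_measure_iff]
    exact ⟨hae _ h34.supp₁, hae _ h34.supp₂⟩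
  have hmain := main μ ℓ (ν₁ + ν₂) (ν₃ + ν₄) (tt H Hc) P.tcont P.tadd a hma Q S Bs hQ hm hm'
    (ENNReal.ofReal (CJ * B₀)) n hmn (by
      intro t t' φ hφ s hs s' hs'
      set v : Fin r → ℝ := s' - φ - s with hv
      have e1 : ∀ h g : H, ∫⁻ θ in S, a (t, h, g) * a (t', h, g * tt H Hc (θ + v)) =
          ∫⁻ θ in {θ | θ - v ∈ S}, a (t, h, g) * a (t', h, g * tt H Hc θ) := fun h g =>
        shift S hS (fun θ => a (t, h, g) * a (t', h, g * tt H Hc θ)) v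
      simp_rw [e1]
      have hsub : {θ | θ - v ∈ S} ⊆ Set.Icc v (fun i => v i + 1) := by
        intro θ hθ
        have h1 := hS1 hθ
        refine ⟨fun i => ?_, fun i => ?_⟩
        · have := h1.1 i
          simp only [Pi.zero_apply, Pi.sub_apply] at this
          linarith
        · have := h1.2 i
          simp only [Pi.one_apply, Pi.sub_apply] at this
          linarith
      have hfin : volume {θ : Fin r → ℝ | θ - v ∈ S} ≠ ⊤ :=
        ((measure_mono hsub).trans_lt isCompact_Icc.measure_lt_top).ne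
      have h1 := conv μ κ Set.univ (tt H Hc) P.tcont {θ | θ - v ∈ S} hfin (fun x => ‖G t x‖)
        (fun x => ‖G t' x‖) (hGc t) (hGc t') (fun x => norm_nonneg _) (fun x => norm_nonneg _)
      simp only [Measure.restrict_univ] at h1
      simp only [ha]
      rw [h1, hn, ← ENNReal.ofReal_mul (integral_nonneg fun x => norm_nonneg _),
        ← ENNReal.ofReal_mul (by positivity)]
      refine ENNReal.ofReal_le_ofReal ?_
      have h5 := hJ a₀ t₁ t₂ κ ht₂ ht12 ht₁ hκ ma m₀ hma0 hm0 hη₂ hη₁ {θ | θ - v ∈ S} v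
        (hS.preimage (f := fun θ : Fin r → ℝ => θ - v) (by fun_prop)) hsub ?_ _ _ (hGc t)
        (hGc t') (fun x => norm_nonneg _) (fun x => norm_nonneg _)
      · rw [hB₀, ← mul_assoc CJ]
        exact h5
      intro θ hθ
      have h2 := hF φ hφ (θ - v) hθ (s' - s) (fun i => by
        have h3 := hs i
        have h4 := hs' i
        rw [Pi.sub_apply]
        have := abs_sub (s' i) (s i)
        linarith)
      have e2 : θ - v - φ + (s' - s) = θ := by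
        rw [hv]; abel
      rwa [e2] at h2)
  -- the left side
  have hpo : ∀ (ν ν' : Measure (Fin r → ℝ)) (t : ℝ) (h g : H),
      ENNReal.ofReal ‖po Hc ν ν' (vw κ G) t h g‖ ≤
        ∫⁻ s, a (t, h, g * tt H Hc s) ∂(ν + ν') := by
    intro ν ν' t h g
    have h1 : ∀ g : H, ‖vw κ G t h g‖ₑ ≤ a (t, h, g) := by
      intro g
      refine (enorm_integral_le_lintegral_enorm _).trans (le_of_eq ?_)
      refine lintegral_congr fun z => ?_
      rw [ofReal_norm]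
    rw [ofReal_norm]
    unfold po PO
    refine (enorm_sub_le).trans ?_
    rw [lintegral_add_measure]
    refine add_le_add ?_ ?_
    · exact (enorm_integral_le_lintegral_enorm _).trans (lintegral_mono fun s => h1 _)
    · exact (enorm_integral_le_lintegral_enorm _).trans (lintegral_mono fun s => h1 _)
  have hin : ∀ (ν ν' : Measure (Fin r → ℝ)) (A : Set (Fin r → ℝ)) (h g : H),
      ENNReal.ofReal (∫ t in (0 : ℝ)..1, ∫ φ in A,
        ‖po Hc ν ν' (vw κ G) t h (g * tt H Hc φ)‖) ≤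
      ∫⁻ t, (∫⁻ φ in A, ∫⁻ s, a (t, h, g * tt H Hc φ * tt H Hc s) ∂(ν + ν')) ∂ℓ := by
    intro ν ν' A h g
    rw [intervalIntegral.integral_of_le zero_le_one]
    refine (ofReal_integral_le _ _).trans (lintegral_mono fun t => ?_)
    refine (ofReal_integral_le _ _).trans (lintegral_mono fun φ => ?_)
    exact hpo ν ν' t h _
  have hlhs : ENNReal.ofReal (∫ h, ∫ g,
      (∫ t in (0 : ℝ)..1, ∫ φ in Q, ‖po Hc ν₁ ν₂ (vw κ G) t h (g * tt H Hc φ)‖) *
      (∫ t in (0 : ℝ)..1, ∫ θ in S, ‖po Hc ν₃ ν₄ (vw κ G) t h (g * tt H Hc θ)‖) ∂μ ∂μ) ≤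
      ∫⁻ h, ∫⁻ g, (∫⁻ t, (∫⁻ φ in Q, ∫⁻ s, a (t, h, g * tt H Hc φ * tt H Hc s) ∂(ν₁ + ν₂)) ∂ℓ) *
      (∫⁻ t, (∫⁻ θ in S, ∫⁻ s, a (t, h, g * tt H Hc θ * tt H Hc s) ∂(ν₃ + ν₄)) ∂ℓ) ∂μ ∂μ := by
    refine (ofReal_integral_le μ _).trans (lintegral_mono fun h => ?_)
    refine (ofReal_integral_le μ _).trans (lintegral_mono fun g => ?_)
    rw [ENNReal.ofReal_mul (intervalIntegral.integral_nonneg zero_le_one fun t _ =>
      integral_nonneg fun φ => norm_nonneg _)]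
    exact mul_le_mul' (hin ν₁ ν₂ Q h g) (hin ν₃ ν₄ S h g)
  have hfinal := hlhs.trans hmain
  -- the right side
  have hQv : volume Q ≠ ⊤ := ((measure_mono hQ1).trans_lt isCompact_Icc.measure_lt_top).ne
  have hmass : ∀ (Ψ : (Fin r → ℤ) → ℝ) (ν ν' : Measure (Fin r → ℝ)), FM C₂ R Ψ ν ν' →
      (ν + ν') Set.univ ≤ ENNReal.ofReal (2 * C₂) := by
    intro Ψ ν ν' h
    have j1 := h.fin₁
    have j2 := h.fin₂
    rw [Measure.add_apply, two_mul, ENNReal.ofReal_add hC₂ hC₂]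
    refine add_le_add ?_ ?_
    · rw [ENNReal.le_ofReal_iff_toReal_le (measure_ne_top _ _) hC₂]
      exact h.mass₁
    · rw [ENNReal.le_ofReal_iff_toReal_le (measure_ne_top _ _) hC₂]
      exact h.mass₂
  have hnI : ∫⁻ t, n t ∂ℓ = ENNReal.ofReal (mG μ G) := by
    unfold mG
    rw [intervalIntegral.integral_of_le zero_le_one,
      ofReal_integral_eq_lintegral_ofReal (hbm1.integrable ℓ)
        (Eventually.of_forall fun t => integral_nonneg fun x => norm_nonneg _)]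
  have hmG : 0 ≤ mG μ G := intervalIntegral.integral_nonneg zero_le_one fun t _ =>
    integral_nonneg fun x => norm_nonneg _
  rw [hnI] at hfinal
  have hR0 : 0 ≤ CJ * (2 * C₂) ^ 2 * volume.real Q * B₀ * mG μ G ^ 2 := by positivity
  rw [← ENNReal.ofReal_le_ofReal_iff hR0]
  refine hfinal.trans ?_
  have e3 : CJ * (2 * C₂) ^ 2 * volume.real Q * B₀ * mG μ G ^ 2 =
      (CJ * B₀) * (volume.real Q * (2 * C₂) * (2 * C₂)) * mG μ G ^ 2 := by ring
  have e4 : ENNReal.ofReal (volume.real Q * (2 * C₂) * (2 * C₂)) =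
      volume Q * ENNReal.ofReal (2 * C₂) * ENNReal.ofReal (2 * C₂) := by
    rw [ENNReal.ofReal_mul (by positivity), ENNReal.ofReal_mul (by positivity), measureReal_def,
      ENNReal.ofReal_toReal hQv]
  have e5 : ENNReal.ofReal ((CJ * B₀) * (volume.real Q * (2 * C₂) * (2 * C₂)) * mG μ G ^ 2) =
      ENNReal.ofReal (CJ * B₀) * (volume Q * ENNReal.ofReal (2 * C₂) * ENNReal.ofReal (2 * C₂)) *
        ENNReal.ofReal (mG μ G) ^ 2 := by
    rw [ENNReal.ofReal_mul (by positivity), ENNReal.ofReal_mul (p := CJ * B₀) (by positivity), e4,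
      ENNReal.ofReal_pow hmG]
  rw [e3, e5]
  gcongr
  · exact hmass _ _ _ h12
  · exact hmass _ _ _ h34

end

end STZ3
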