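import Pool.Agent.STZ3.L4D

/-!
# Compact simple groups of rank two: module K4B (helper26)
-/

namespace STZ3

open STZ LGR MeasureTheory Matrix Filter

open scoped ComplexConjugate Matrix Real Topology

noncomputable section

namespace K4B

/-- jointly measurable bounded functions -/
structure Nc (F : ℝ → (Fin 2 → ℝ) → ℂ) : Prop where
  meas : Measurable (fun z : ℝ × (Fin 2 → ℝ) => F z.1 z.2)
  bd : ∃ b, ∀ t θ, ‖F t θ‖ ≤ b

theorem Nc.sec {F : ℝ → (Fin 2 → ℝ) → ℂ} (hF : Nc F) (t : ℝ) :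
    Integrable (fun θ => F t θ) ((volume : Measure (Fin 2 → ℝ)).restrict (Set.Icc 0 1)) := by
  obtain ⟨b, hb⟩ := hF.bd
  exact Integrable.of_bound (hF.meas.comp (measurable_const.prodMk measurable_id)).aestronglyMeasurable b
    (ae_of_all _ fun θ => hb t θ)

theorem Nc.tm {F : ℝ → (Fin 2 → ℝ) → ℂ} (hF : Nc F) :
    Integrable (fun z : ℝ × (Fin 2 → ℝ) => F z.1 z.2) L4D.tm := by
  obtain ⟨b, hb⟩ := hF.bd
  exact Integrable.of_bound hF.meas.aestronglyMeasurable b (ae_of_all _ fun z => hb z.1 z.2)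

theorem Nc.out {F : ℝ → (Fin 2 → ℝ) → ℂ} (hF : Nc F) :
    Integrable (fun t => ∫ θ in Set.Icc (0 : Fin 2 → ℝ) 1, F t θ) ((volume : Measure ℝ).restrict (Set.Ioc 0 1)) := by
  have := hF.tm
  unfold L4D.tm at this
  exact this.integral_prod_left

theorem conj_int {μ : Measure ℝ} {f : ℝ → ℂ} (hf : Integrable f μ) : Integrable (fun x => conj (f x)) μ := by
  refine ⟨Complex.continuous_conj.comp_aestronglyMeasurable hf.1, ?_⟩
  have := hf.2
  refine this.congr' (ae_of_all _ fun x => ?_)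
  simp

theorem conj_int' {μ : Measure (Fin 2 → ℝ)} {f : (Fin 2 → ℝ) → ℂ} (hf : Integrable f μ) :
    Integrable (fun x => conj (f x)) μ := by
  refine ⟨Complex.continuous_conj.comp_aestronglyMeasurable hf.1, ?_⟩
  have := hf.2
  refine this.congr' (ae_of_all _ fun x => ?_)
  simp

theorem four {ι : Type} (I : Finset ι) (c : ι → ℂ) (F G : ι → ℝ → (Fin 2 → ℝ) → ℂ) (hF : ∀ i, Nc (F i))
    (hG : ∀ i, Nc (G i)) :
    ∫ t in (0 : ℝ)..1, ∫ s in (0 : ℝ)..1, ∫ φ in Set.Icc (0 : Fin 2 → ℝ) 1, ∫ θ in Set.Icc (0 : Fin 2 → ℝ) 1,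
        ∑ i ∈ I, c i * (F i s φ * conj (G i t θ)) =
      ∑ i ∈ I, c i * ((∫ s in (0 : ℝ)..1, ∫ φ in Set.Icc (0 : Fin 2 → ℝ) 1, F i s φ) *
        conj (∫ t in (0 : ℝ)..1, ∫ θ in Set.Icc (0 : Fin 2 → ℝ) 1, G i t θ)) := by
  have h1 : ∀ t s φ, ∫ θ in Set.Icc (0 : Fin 2 → ℝ) 1, ∑ i ∈ I, c i * (F i s φ * conj (G i t θ)) =
      ∑ i ∈ I, c i * (F i s φ * conj (∫ θ in Set.Icc (0 : Fin 2 → ℝ) 1, G i t θ)) := by
    intro t s φ
    rw [integral_finsetSum _ fun i _ => (((conj_int' ((hG i).sec t)).const_mul _).const_mul _)]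
    refine Finset.sum_congr rfl fun i _ => ?_
    rw [integral_const_mul, integral_const_mul, integral_conj]
  have h2 : ∀ t s, ∫ φ in Set.Icc (0 : Fin 2 → ℝ) 1,
      ∑ i ∈ I, c i * (F i s φ * conj (∫ θ in Set.Icc (0 : Fin 2 → ℝ) 1, G i t θ)) =
      ∑ i ∈ I, c i * ((∫ φ in Set.Icc (0 : Fin 2 → ℝ) 1, F i s φ) *
        conj (∫ θ in Set.Icc (0 : Fin 2 → ℝ) 1, G i t θ)) := by
    intro t s
    rw [integral_finsetSum _ fun i _ => ((((hF i).sec s).mul_const _).const_mul _)]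
    refine Finset.sum_congr rfl fun i _ => ?_
    rw [integral_const_mul, integral_mul_const]
  simp only [h1, h2, intervalIntegral.integral_of_le zero_le_one]
  have h3 : ∀ t, ∫ s in Set.Ioc (0 : ℝ) 1,
      ∑ i ∈ I, c i * ((∫ φ in Set.Icc (0 : Fin 2 → ℝ) 1, F i s φ) *
        conj (∫ θ in Set.Icc (0 : Fin 2 → ℝ) 1, G i t θ)) =
      ∑ i ∈ I, c i * ((∫ s in Set.Ioc (0 : ℝ) 1, ∫ φ in Set.Icc (0 : Fin 2 → ℝ) 1, F i s φ) *
        conj (∫ θ in Set.Icc (0 : Fin 2 → ℝ) 1, G i t θ)) := by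
    intro t
    rw [integral_finsetSum _ fun i _ => (((hF i).out.mul_const _).const_mul _)]
    refine Finset.sum_congr rfl fun i _ => ?_
    rw [integral_const_mul, integral_mul_const]
  simp only [h3]
  rw [integral_finsetSum _ fun i _ => (((conj_int (hG i).out).const_mul _).const_mul _)]
  refine Finset.sum_congr rfl fun i _ => ?_
  rw [integral_const_mul, integral_const_mul, integral_conj]

theorem l_bd {Φ : RT 2} {B : Matrix (Fin 2) (Fin 2) ℤ} (hI : IRD Φ B) {X : ℕ} {q : (Fin 2 → ℤ) → ℝ}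
    (hq : QH Φ X q) {l : Fin 2 → ℤ} (hl : q l ≠ 0) (i : Fin 2) : |l i| ≤ X := by
  have h1 : (B i, Pi.single i 1) ∈ pos Φ := by
    unfold pos
    rw [Finset.mem_filter]
    refine ⟨hI.base i, fun j => ?_⟩
    simp only
    by_cases hj : j = i
    · subst hj; simp
    · rw [Pi.single_eq_of_ne hj]
  have h2 := hq.supp l hl _ h1
  simpa using h2

theorem kern (Φ : RT 2) (q : (Fin 2 → ℤ) → ℝ) (aa : (Fin 2 → ℤ) → ℂ) (cc : ({p // p ∈ pos Φ} → ℤ) → ℂ)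
    (T : Finset (Fin 2 → ℤ)) (KB : Finset ({p // p ∈ pos Φ} → ℤ)) (u w : ℝ → (Fin 2 → ℝ) → ℂ)
    (t s : ℝ) (φ θ : Fin 2 → ℝ) :
    tker Φ q aa cc T KB (t - s) (θ - φ) * (u s φ * conj (w t θ)) =
      ∑ i ∈ T ×ˢ KB, (aa i.1 * cc i.2 * (q (i.1 + 1 - rs (pos Φ) i.2) : ℂ)) *
        ((u s φ * eu (s * ((rd Φ).Q (i.1 + 1 - rs (pos Φ) i.2) : ℝ) - dz i.1 φ)) *
          conj (w t θ * eu (t * ((rd Φ).Q (i.1 + 1 - rs (pos Φ) i.2) : ℝ) - dz i.1 θ))) := by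
  unfold tker
  rw [Finset.sum_product, Finset.sum_mul]
  refine Finset.sum_congr rfl fun l _ => ?_
  rw [Finset.mul_sum, Finset.sum_mul, Finset.sum_mul]
  refine Finset.sum_congr rfl fun k _ => ?_
  simp only
  unfold gt
  have hd : dz l (θ - φ) = dz l θ - dz l φ := by
    unfold dz
    rw [← Finset.sum_sub_distrib]
    refine Finset.sum_congr rfl fun i _ => ?_
    rw [Pi.sub_apply, mul_sub]
  rw [map_mul, L4D.conj_eu]
  have h1 : eu (-((t - s) * ((rd Φ).Q (l + 1 - rs (pos Φ) k) : ℝ))) * eu (dz l (θ - φ)) =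
      eu (s * ((rd Φ).Q (l + 1 - rs (pos Φ) k) : ℝ) - dz l φ) *
        eu (-(t * ((rd Φ).Q (l + 1 - rs (pos Φ) k) : ℝ) - dz l θ)) := by
    rw [← L4D.eu_add, ← L4D.eu_add, hd]
    congr 1
    ring
  linear_combination (aa l * cc k * (q (l + 1 - rs (pos Φ) k) : ℂ) * u s φ * conj (w t θ)) * h1

end K4B

open K4B in
theorem t_K4B : M_K4B := by
  intro hL Φ B hI hW ε hε
  obtain ⟨C, hC, h⟩ := hL Φ B hI hW ε hε
  refine ⟨C, hC, fun X q aa cc T KB A b u w hX hA hq haa hum hub hwm hwb => ?_⟩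
  set Kt := Set.Icc (0 : Fin 2 → ℝ) 1 with hKt
  set F : (Fin 2 → ℤ) × ({p // p ∈ pos Φ} → ℤ) → (ℝ → (Fin 2 → ℝ) → ℂ) → ℝ → (Fin 2 → ℝ) → ℂ :=
    fun i v s φ => v s φ * eu (s * ((rd Φ).Q (i.1 + 1 - rs (pos Φ) i.2) : ℝ) - dz i.1 φ) with hF
  have hNc : ∀ (v : ℝ → (Fin 2 → ℝ) → ℂ), Measurable (fun z : ℝ × (Fin 2 → ℝ) => v z.1 z.2) →
      (∀ t θ, ‖v t θ‖ ≤ b) → ∀ i, Nc (F i v) := by
    intro v hv hvb i
    refine ⟨?_, b, fun t θ => ?_⟩
    · simp only [hF]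
      refine hv.mul (Continuous.measurable ?_)
      unfold eu dz
      fun_prop
    · simp only [hF]
      rw [norm_mul, L4D.norm_eu, mul_one]
      exact hvb t θ
  simp only [kern Φ q aa cc T KB u w]
  have h4 := four (T ×ˢ KB) (fun i => aa i.1 * cc i.2 * (q (i.1 + 1 - rs (pos Φ) i.2) : ℂ))
    (fun i => F i u) (fun i => F i w) (hNc u hum hub) (hNc w hwm hwb)
  simp only [hF] at h4
  rw [h4]
  -- the coefficients
  set Y : (ℝ → (Fin 2 → ℝ) → ℂ) → (Fin 2 → ℤ) → ({p // p ∈ pos Φ} → ℤ) → ℂ := fun v l k =>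
    ∫ s in (0 : ℝ)..1, ∫ φ in Kt, v s φ * eu (s * ((rd Φ).Q (l + 1 - rs (pos Φ) k) : ℝ) - dz l φ) with hY
  set U : (ℝ → (Fin 2 → ℝ) → ℂ) → ℝ := fun v =>
    ∫ t in (0 : ℝ)..1, ∫ θ in Kt, ‖v t θ‖ ^ ((4 : ℝ) / 3) with hU
  have hU0 : ∀ v, 0 ≤ U v := by
    intro v
    simp only [hU]
    refine intervalIntegral.integral_nonneg zero_le_one fun t _ => ?_
    exact integral_nonneg fun θ => by positivity
  have hX0 : (0 : ℝ) < X := by exact_mod_cast hX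
  have hL2 : ∀ (v : ℝ → (Fin 2 → ℝ) → ℂ), Measurable (fun z : ℝ × (Fin 2 → ℝ) => v z.1 z.2) →
      (∀ t θ, ‖v t θ‖ ≤ b) → ∀ k, ∑ l ∈ T.filter (fun l => q (l + 1 - rs (pos Φ) k) ≠ 0), ‖Y v l k‖ ^ 2 ≤
        C * (X : ℝ) ^ ε * U v ^ ((3 : ℝ) / 2) := by
    intro v hv hvb k
    classical
    have h1 := h X (rs (pos Φ) k - 1)
      ((T.filter (fun l => q (l + 1 - rs (pos Φ) k) ≠ 0)).image fun l => l + 1 - rs (pos Φ) k) v b hX ?_ hv hvb
    · rw [Finset.sum_image] at h1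
      · refine le_trans (le_of_eq ?_) h1
        refine Finset.sum_congr rfl fun l _ => ?_
        have e : l + 1 - rs (pos Φ) k + (rs (pos Φ) k - 1) = l := by abel
        rw [e]
      · intro a _ a' _ haa'
        simp only at haa'
        have := congrArg (fun z => z + rs (pos Φ) k - 1) haa'
        simpa using this
    · intro l hl i
      rw [Finset.mem_image] at hl
      obtain ⟨l', hl', rfl⟩ := hl
      exact l_bd hI hq (Finset.mem_filter.1 hl').2 i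
  rw [Finset.sum_product_right]
  have hk : ∀ k ∈ KB, ‖∑ l ∈ T, aa l * cc k * (q (l + 1 - rs (pos Φ) k) : ℂ) * (Y u l k * conj (Y w l k))‖ ≤
      ‖cc k‖ * (A * (C * (X : ℝ) ^ ε * (U u ^ ((3 : ℝ) / 4) * U w ^ ((3 : ℝ) / 4)))) := by
    intro k hkK
    have h5 : ∑ l ∈ T, aa l * cc k * (q (l + 1 - rs (pos Φ) k) : ℂ) * (Y u l k * conj (Y w l k)) =
        ∑ l ∈ T.filter (fun l => q (l + 1 - rs (pos Φ) k) ≠ 0),
          aa l * cc k * (q (l + 1 - rs (pos Φ) k) : ℂ) * (Y u l k * conj (Y w l k)) := by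
      symm
      apply Finset.sum_filter_of_ne
      intro l _ hne hq0
      apply hne
      rw [hq0]
      simp
    rw [h5]
    calc ‖∑ l ∈ T.filter (fun l => q (l + 1 - rs (pos Φ) k) ≠ 0),
          aa l * cc k * (q (l + 1 - rs (pos Φ) k) : ℂ) * (Y u l k * conj (Y w l k))‖
        ≤ ∑ l ∈ T.filter (fun l => q (l + 1 - rs (pos Φ) k) ≠ 0), ‖cc k‖ * A * (‖Y u l k‖ * ‖Y w l k‖) := by
          refine (norm_sum_le _ _).trans (Finset.sum_le_sum fun l hl => ?_)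
          rw [Finset.mem_filter] at hl
          rw [norm_mul, norm_mul, norm_mul, norm_mul, Complex.norm_conj, Complex.norm_real,
            Real.norm_of_nonneg (hq.nn _)]
          have h6 := haa l hl.1 k hkK hl.2
          have h7 : ‖aa l‖ * ‖cc k‖ * q (l + 1 - rs (pos Φ) k) ≤ ‖cc k‖ * A := by
            calc ‖aa l‖ * ‖cc k‖ * q (l + 1 - rs (pos Φ) k) ≤ ‖aa l‖ * ‖cc k‖ * 1 :=
                  mul_le_mul_of_nonneg_left (hq.le _) (by positivity)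
              _ = ‖cc k‖ * ‖aa l‖ := by ring
              _ ≤ _ := mul_le_mul_of_nonneg_left h6 (norm_nonneg _)
          exact mul_le_mul_of_nonneg_right h7 (by positivity)
      _ = ‖cc k‖ * A * ∑ l ∈ T.filter (fun l => q (l + 1 - rs (pos Φ) k) ≠ 0), ‖Y u l k‖ * ‖Y w l k‖ := by
          rw [Finset.mul_sum]
      _ ≤ ‖cc k‖ * A * (√(∑ l ∈ T.filter (fun l => q (l + 1 - rs (pos Φ) k) ≠ 0), ‖Y u l k‖ ^ 2) *
            √(∑ l ∈ T.filter (fun l => q (l + 1 - rs (pos Φ) k) ≠ 0), ‖Y w l k‖ ^ 2)) := by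
          refine mul_le_mul_of_nonneg_left ?_ (by positivity)
          exact Real.sum_mul_le_sqrt_mul_sqrt _ _ _
      _ ≤ ‖cc k‖ * A * (√(C * (X : ℝ) ^ ε * U u ^ ((3 : ℝ) / 2)) * √(C * (X : ℝ) ^ ε * U w ^ ((3 : ℝ) / 2))) := by
          refine mul_le_mul_of_nonneg_left ?_ (by positivity)
          exact mul_le_mul (Real.sqrt_le_sqrt (hL2 u hum hub k)) (Real.sqrt_le_sqrt (hL2 w hwm hwb k))
            (Real.sqrt_nonneg _) (Real.sqrt_nonneg _)
      _ = ‖cc k‖ * (A * (C * (X : ℝ) ^ ε * (U u ^ ((3 : ℝ) / 4) * U w ^ ((3 : ℝ) / 4)))) := by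
          have hs : ∀ v, √(C * (X : ℝ) ^ ε * U v ^ ((3 : ℝ) / 2)) = √(C * (X : ℝ) ^ ε) * U v ^ ((3 : ℝ) / 4) := by
            intro v
            rw [Real.sqrt_mul (by positivity)]
            congr 1
            rw [Real.sqrt_eq_rpow, ← Real.rpow_mul (hU0 v)]
            norm_num
          rw [hs, hs]
          have := Real.mul_self_sqrt (show 0 ≤ C * (X : ℝ) ^ ε by positivity)
          linear_combination (‖cc k‖ * A * (U u ^ ((3 : ℝ) / 4) * U w ^ ((3 : ℝ) / 4))) * this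
  refine (norm_sum_le _ _).trans ((Finset.sum_le_sum hk).trans (le_of_eq ?_))
  rw [← Finset.sum_mul]
  ring

end

end STZ3
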