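import Pool.Agent.STZ3.StC3

/-!
# KEY: comparison of the heat flows at two times (helper80)
-/

set_option autoImplicit false

namespace STZ3

open STZ LGR MeasureTheory Matrix Filter

open scoped ComplexConjugate Matrix Real Topology

noncomputable section

namespace KEY

theorem nd_eq (θ : ℝ) : nd θ = ‖(θ : UnitAddCircle)‖ := by
  rw [UnitAddCircle.norm_eq]
  rfl

theorem nd_cont : Continuous nd := by
  have h : nd = fun θ : ℝ => ‖(θ : UnitAddCircle)‖ := funext nd_eq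
  rw [h]
  exact continuous_norm.comp (AddCircle.continuous_mk' 1)

theorem nd_neg (θ : ℝ) : nd (-θ) = nd θ := by
  rw [nd_eq, nd_eq, AddCircle.coe_neg, norm_neg]

theorem nd_add_int (θ : ℝ) (n : ℤ) : nd (θ + n) = nd θ := by
  unfold nd
  rw [round_add_intCast]
  congr 1
  push_cast
  ring

theorem nd_le_abs (x : ℝ) : nd x ≤ |x| := by
  have h := round_le x 0
  simpa [nd] using h

theorem nd_lip (x y : ℝ) : |nd x - nd y| ≤ |x - y| := by
  have h1 : |nd x - nd y| ≤ nd (x - y) := by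
    rw [nd_eq, nd_eq, nd_eq, AddCircle.coe_sub]
    exact abs_norm_sub_norm_le _ _
  exact h1.trans (nd_le_abs _)

/-! ### the cutoff -/

theorem ch_nonneg (m v : ℝ) : 0 ≤ ch m v := le_max_left _ _

theorem ch_le_one (m v : ℝ) : ch m v ≤ 1 := max_le zero_le_one (min_le_left _ _)

theorem ch_zero {m v : ℝ} (hm : 0 < m) (h : nd v ≤ m) : ch m v = 0 := by
  unfold ch
  have h1 : nd v / m - 1 ≤ 0 := by
    have := (div_le_one hm).2 h
    linarith
  exact max_eq_left ((min_le_right _ _).trans h1)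

theorem ch_one {m v : ℝ} (hm : 0 < m) (h : 2 * m ≤ nd v) : ch m v = 1 := by
  unfold ch
  have h1 : 1 ≤ nd v / m - 1 := by
    have : 2 ≤ nd v / m := by
      rw [le_div_iff₀ hm]
      linarith
    linarith
  rw [min_eq_left h1]
  exact max_eq_right zero_le_one

theorem ch_cont (m : ℝ) : Continuous (ch m) := by
  unfold ch
  exact continuous_const.max (continuous_const.min ((nd_cont.div_const _).sub continuous_const))

theorem ch_neg (m v : ℝ) : ch m (-v) = ch m v := by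
  unfold ch
  rw [nd_neg]

theorem ch_add_int (m v : ℝ) (n : ℤ) : ch m (v + n) = ch m v := by
  unfold ch
  rw [nd_add_int]

theorem ch_lip {m : ℝ} (hm : 0 < m) (v w : ℝ) : |ch m v - ch m w| ≤ |v - w| / m := by
  unfold ch
  have h1 : |max 0 (min 1 (nd v / m - 1)) - max 0 (min 1 (nd w / m - 1))| ≤
      |min 1 (nd v / m - 1) - min 1 (nd w / m - 1)| := by
    have := abs_max_sub_max_le_max (0 : ℝ) (min 1 (nd v / m - 1)) 0 (min 1 (nd w / m - 1))
    simpa using this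
  have h2 : |min 1 (nd v / m - 1) - min 1 (nd w / m - 1)| ≤
      |(nd v / m - 1) - (nd w / m - 1)| := by
    have := abs_min_sub_min_le_max (1 : ℝ) (nd v / m - 1) 1 (nd w / m - 1)
    simpa using this
  refine (h1.trans h2).trans ?_
  have h3 : (nd v / m - 1) - (nd w / m - 1) = (nd v - nd w) / m := by ring
  rw [h3, abs_div, abs_of_pos hm]
  exact div_le_div_of_nonneg_right (nd_lip v w) hm.le

/-- products of numbers in `[0, 1]` -/
theorem prod_lip {ι : Type} [DecidableEq ι] (s : Finset ι) (f g : ι → ℝ)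
    (hf : ∀ i, 0 ≤ f i ∧ f i ≤ 1) (hg : ∀ i, 0 ≤ g i ∧ g i ≤ 1) :
    |∏ i ∈ s, f i - ∏ i ∈ s, g i| ≤ ∑ i ∈ s, |f i - g i| := by
  induction s using Finset.induction_on with
  | empty => simp
  | insert i s hi ih =>
    rw [Finset.prod_insert hi, Finset.prod_insert hi, Finset.sum_insert hi]
    have h1 : 0 ≤ ∏ i ∈ s, f i := Finset.prod_nonneg fun i _ => (hf i).1
    have h2 : ∏ i ∈ s, f i ≤ 1 := Finset.prod_le_one (fun i _ => (hf i).1) fun i _ => (hf i).2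
    have h3 : f i * ∏ i ∈ s, f i - g i * ∏ i ∈ s, g i =
        (f i - g i) * ∏ i ∈ s, f i + g i * (∏ i ∈ s, f i - ∏ i ∈ s, g i) := by ring
    rw [h3]
    refine (abs_add_le _ _).trans (add_le_add ?_ ?_)
    · rw [abs_mul, abs_of_nonneg h1]
      exact mul_le_of_le_one_right (abs_nonneg _) h2
    · rw [abs_mul, abs_of_nonneg (hg i).1]
      refine le_trans (mul_le_of_le_one_left (abs_nonneg _) (hg i).2) ih

variable {r : ℕ}

theorem dz_add (κ : Fin r → ℤ) (θ θ' : Fin r → ℝ) : dz κ (θ + θ') = dz κ θ + dz κ θ' := by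
  simp only [dz, Pi.add_apply, mul_add]
  rw [Finset.sum_add_distrib]

theorem dz_cont (κ : Fin r → ℤ) : Continuous (dz κ) := by
  unfold dz
  fun_prop

theorem et_nonneg (Φ : RT r) (a : (Fin r → ℤ) × (Fin r → ℤ)) (m : ℝ) (θ : Fin r → ℝ) :
    0 ≤ et Φ a m θ := Finset.prod_nonneg fun _ _ => ch_nonneg _ _

theorem et_le_one (Φ : RT r) (a : (Fin r → ℤ) × (Fin r → ℤ)) (m : ℝ) (θ : Fin r → ℝ) :
    et Φ a m θ ≤ 1 := Finset.prod_le_one (fun _ _ => ch_nonneg _ _) fun _ _ => ch_le_one _ _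

theorem et_cont (Φ : RT r) (a : (Fin r → ℤ) × (Fin r → ℤ)) (m : ℝ) :
    Continuous (et Φ a m) := by
  unfold et
  exact continuous_finsetProd _ fun p _ => (ch_cont m).comp (dz_cont p.1)

/-- the Lipschitz constant in the direction `a.2` -/
def LL (Φ : RT r) (a : (Fin r → ℤ) × (Fin r → ℤ)) : ℝ :=
  ∑ p ∈ (pos Φ).erase a, |dz p.1 (fun i => (a.2 i : ℝ))|

theorem LL_nonneg (Φ : RT r) (a : (Fin r → ℤ) × (Fin r → ℤ)) : 0 ≤ LL Φ a :=
  Finset.sum_nonneg fun _ _ => abs_nonneg _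

theorem et_lip (Φ : RT r) (a : (Fin r → ℤ) × (Fin r → ℤ)) {m : ℝ} (hm : 0 < m)
    (θ : Fin r → ℝ) (w : ℝ) :
    |et Φ a m (θ + fun i => w * (a.2 i : ℝ)) - et Φ a m θ| ≤ LL Φ a * |w| / m := by
  unfold et
  refine (prod_lip _ _ _ (fun p => ⟨ch_nonneg _ _, ch_le_one _ _⟩)
    (fun p => ⟨ch_nonneg _ _, ch_le_one _ _⟩)).trans ?_
  unfold LL
  rw [Finset.sum_mul, Finset.sum_div]
  refine Finset.sum_le_sum fun p _ => (ch_lip hm _ _).trans (le_of_eq ?_)
  have h1 : dz p.1 (θ + fun i => w * (a.2 i : ℝ)) - dz p.1 θ =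
      dz p.1 (fun i => (a.2 i : ℝ)) * w := by
    rw [dz_add, add_sub_cancel_left]
    unfold dz
    rw [Finset.sum_mul]
    exact Finset.sum_congr rfl fun i _ => by ring
  rw [h1, abs_mul]

/-! ### the reflection -/

/-- the reflection of a root -/
def sr (a p : (Fin r → ℤ) × (Fin r → ℤ)) : (Fin r → ℤ) × (Fin r → ℤ) :=
  (p.1 - (a.2 ⬝ᵥ p.1) • a.1, p.2 - (p.2 ⬝ᵥ a.1) • a.2)

open Classical in
/-- the positive one of the roots `± s_a p` -/
def sp (Φ : RT r) (a p : (Fin r → ℤ) × (Fin r → ℤ)) : (Fin r → ℤ) × (Fin r → ℤ) :=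
  if sr a p ∈ pos Φ then sr a p else (-(sr a p).1, -(sr a p).2)

theorem sr_sr {a : (Fin r → ℤ) × (Fin r → ℤ)} (ha : a.2 ⬝ᵥ a.1 = 2)
    (p : (Fin r → ℤ) × (Fin r → ℤ)) : sr a (sr a p) = p := by
  unfold sr
  refine Prod.ext ?_ ?_
  · simp only
    rw [dotProduct_sub, dotProduct_smul, ha]
    funext i
    simp only [Pi.sub_apply, Pi.smul_apply, smul_eq_mul]
    ring
  · simp only
    rw [sub_dotProduct, smul_dotProduct, ha]
    funext i
    simp only [Pi.sub_apply, Pi.smul_apply, smul_eq_mul]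
    ring

theorem sr_neg (a p : (Fin r → ℤ) × (Fin r → ℤ)) :
    sr a (-p.1, -p.2) = (-(sr a p).1, -(sr a p).2) := by
  unfold sr
  refine Prod.ext ?_ ?_
  · simp only
    rw [dotProduct_neg]
    funext i
    simp only [Pi.sub_apply, Pi.smul_apply, smul_eq_mul, Pi.neg_apply]
    ring
  · simp only
    rw [neg_dotProduct]
    funext i
    simp only [Pi.sub_apply, Pi.smul_apply, smul_eq_mul, Pi.neg_apply]
    ring

theorem sr_self {a : (Fin r → ℤ) × (Fin r → ℤ)} (ha : a.2 ⬝ᵥ a.1 = 2) :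
    sr a a = (-a.1, -a.2) := by
  unfold sr
  rw [ha]
  refine Prod.ext ?_ ?_
  · funext i
    simp only [Pi.sub_apply, Pi.smul_apply, smul_eq_mul, Pi.neg_apply]
    ring
  · funext i
    simp only [Pi.sub_apply, Pi.smul_apply, smul_eq_mul, Pi.neg_apply]
    ring

theorem nn (p : (Fin r → ℤ) × (Fin r → ℤ)) : (-(-p.1), -(-p.2)) = p := by
  refine Prod.ext ?_ ?_ <;> simp

theorem sp_mem {Φ : RT r} {B : Matrix (Fin r) (Fin r) ℤ} (hI : IRD Φ B) (hF : WFF Φ B)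
    {a p : (Fin r → ℤ) × (Fin r → ℤ)} (ha : a ∈ pos Φ) (hp : p ∈ pos Φ) : sp Φ a p ∈ pos Φ := by
  have hs : sr a p ∈ Φ := hI.refl a (hF.ppos a ha).1 p (hF.ppos p hp).1
  unfold sp
  split
  · assumption
  · rename_i h
    by_contra h2
    exact h ((hF.dich _ hs).2 h2)

theorem sp_sp {Φ : RT r} {B : Matrix (Fin r) (Fin r) ℤ} (hI : IRD Φ B) (hF : WFF Φ B)
    {a p : (Fin r → ℤ) × (Fin r → ℤ)} (ha : a ∈ pos Φ) (hp : p ∈ pos Φ) :
    sp Φ a (sp Φ a p) = p := by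
  have ha2 : a.2 ⬝ᵥ a.1 = 2 := hI.two a (hF.ppos a ha).1
  have hpΦ := (hF.ppos p hp).1
  have hnp : (-p.1, -p.2) ∉ pos Φ := (hF.dich p hpΦ).1 hp
  by_cases h : sr a p ∈ pos Φ
  · have h1 : sp Φ a p = sr a p := if_pos h
    rw [h1]
    unfold sp
    rw [sr_sr ha2, if_pos hp]
  · have h1 : sp Φ a p = (-(sr a p).1, -(sr a p).2) := if_neg h
    rw [h1]
    unfold sp
    rw [sr_neg, sr_sr ha2, if_neg hnp, nn]

theorem sp_self {Φ : RT r} {B : Matrix (Fin r) (Fin r) ℤ} (hI : IRD Φ B) (hF : WFF Φ B)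
    {a : (Fin r → ℤ) × (Fin r → ℤ)} (ha : a ∈ pos Φ) : sp Φ a a = a := by
  have ha2 : a.2 ⬝ᵥ a.1 = 2 := hI.two a (hF.ppos a ha).1
  have hna : (-a.1, -a.2) ∉ pos Φ := (hF.dich a (hF.ppos a ha).1).1 ha
  unfold sp
  rw [sr_self ha2, if_neg hna, nn]

theorem sp_erase {Φ : RT r} {B : Matrix (Fin r) (Fin r) ℤ} (hI : IRD Φ B) (hF : WFF Φ B)
    {a p : (Fin r → ℤ) × (Fin r → ℤ)} (ha : a ∈ pos Φ) (hp : p ∈ (pos Φ).erase a) :
    sp Φ a p ∈ (pos Φ).erase a := by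
  obtain ⟨h1, h2⟩ := Finset.mem_erase.1 hp
  refine Finset.mem_erase.2 ⟨fun h => h1 ?_, sp_mem hI hF ha h2⟩
  rw [← sp_sp hI hF ha h2, h, sp_self hI hF ha]

theorem dz_ar (a p : (Fin r → ℤ) × (Fin r → ℤ)) (k : ℤ) (θ : Fin r → ℝ) :
    dz p.1 (ar a k θ) = dz (sr a p).1 θ + ((k * (a.2 ⬝ᵥ p.1) : ℤ) : ℝ) := by
  have h1 : dz p.1 (ar a k θ) = dz p.1 θ - (dz a.1 θ - k) * ((a.2 ⬝ᵥ p.1 : ℤ) : ℝ) := by
    unfold ar dotProduct
    simp only [dz]
    push_cast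
    rw [Finset.mul_sum, ← Finset.sum_sub_distrib]
    exact Finset.sum_congr rfl fun i _ => by ring
  have h2 : dz (sr a p).1 θ = dz p.1 θ - ((a.2 ⬝ᵥ p.1 : ℤ) : ℝ) * dz a.1 θ := by
    unfold sr
    simp only [dz, Pi.sub_apply, Pi.smul_apply, smul_eq_mul]
    push_cast
    rw [Finset.mul_sum, ← Finset.sum_sub_distrib]
    exact Finset.sum_congr rfl fun i _ => by ring
  rw [h1, h2]
  push_cast
  ring

theorem et_ar {Φ : RT r} {B : Matrix (Fin r) (Fin r) ℤ} (hI : IRD Φ B) (hF : WFF Φ B)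
    {a : (Fin r → ℤ) × (Fin r → ℤ)} (ha : a ∈ pos Φ) (m : ℝ) (k : ℤ) (θ : Fin r → ℝ) :
    et Φ a m (ar a k θ) = et Φ a m θ := by
  unfold et
  refine Finset.prod_nbij' (sp Φ a) (sp Φ a) (fun p hp => sp_erase hI hF ha hp)
    (fun p hp => sp_erase hI hF ha hp) (fun p hp => sp_sp hI hF ha (Finset.mem_erase.1 hp).2)
    (fun p hp => sp_sp hI hF ha (Finset.mem_erase.1 hp).2) (fun p hp => ?_)
  rw [dz_ar, ch_add_int]
  unfold sp
  split
  · rfl
  · have h1 : dz (-(sr a p).1) θ = -dz (sr a p).1 θ := by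
      simp only [dz, Pi.neg_apply, Int.cast_neg, neg_mul]
      rw [Finset.sum_neg_distrib]
    simp only
    rw [h1, ch_neg]

theorem al_ar {a : (Fin r → ℤ) × (Fin r → ℤ)} (ha : a.2 ⬝ᵥ a.1 = 2) (k : ℤ) (θ : Fin r → ℝ) :
    al a (ar a k θ) = -al a θ := by
  have h1 : dz a.1 (ar a k θ) = 2 * k - dz a.1 θ := by
    have h := dz_ar a a k θ
    rw [sr_self ha, ha] at h
    rw [h]
    have h1 : dz (-a.1) θ = -dz a.1 θ := by
      simp only [dz, Pi.neg_apply, Int.cast_neg, neg_mul]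
      rw [Finset.sum_neg_distrib]
    simp only
    rw [h1]
    push_cast
    ring
  unfold al
  rw [h1]
  have h2 : π * (2 * k - dz a.1 θ) = -(π * dz a.1 θ) + k * (2 * π) := by ring
  rw [h2, Real.sin_add_int_mul_two_pi, Real.sin_neg]

theorem al_cont (a : (Fin r → ℤ) × (Fin r → ℤ)) : Continuous (al a) := by
  unfold al
  exact Real.continuous_sin.comp (continuous_const.mul (dz_cont a.1))

theorem al_le (a : (Fin r → ℤ) × (Fin r → ℤ)) (θ : Fin r → ℝ) : |al a θ| ≤ 1 :=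
  Real.abs_sin_le_one _

theorem prod_le (a : (Fin r → ℤ) × (Fin r → ℤ)) {f : (Fin r → ℝ) → ℝ} (hf : ∀ θ, |f θ| ≤ 1)
    (θ : Fin r → ℝ) : |al a θ * f θ| ≤ 1 := by
  rw [abs_mul]
  exact mul_le_one₀ (al_le a θ) (abs_nonneg _) (hf θ)

theorem et_abs (Φ : RT r) (a : (Fin r → ℤ) × (Fin r → ℤ)) (m : ℝ) (θ : Fin r → ℝ) :
    |et Φ a m θ| ≤ 1 := by
  rw [abs_of_nonneg (et_nonneg Φ a m θ)]
  exact et_le_one Φ a m θ

theorem et_abs' (Φ : RT r) (a : (Fin r → ℤ) × (Fin r → ℤ)) (m : ℝ) (θ : Fin r → ℝ) :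
    |1 - et Φ a m θ| ≤ 1 := by
  rw [abs_of_nonneg (by linarith [et_le_one Φ a m θ])]
  linarith [et_nonneg Φ a m θ]

/-- the constant for small displacements -/
def cc (Φ : RT r) : ℝ := 1 / (1 + ∑ p ∈ pos Φ, ∑ i, |(p.1 i : ℝ)|)

theorem cc_den (Φ : RT r) : 0 < 1 + ∑ p ∈ pos Φ, ∑ i, |(p.1 i : ℝ)| := by
  have : 0 ≤ ∑ p ∈ pos Φ, ∑ i, |(p.1 i : ℝ)| :=
    Finset.sum_nonneg fun _ _ => Finset.sum_nonneg fun _ _ => abs_nonneg _
  linarith

theorem cc_pos (Φ : RT r) : 0 < cc Φ := div_pos one_pos (cc_den Φ)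

theorem dz_small {Φ : RT r} {p : (Fin r → ℤ) × (Fin r → ℤ)} (hp : p ∈ pos Φ) {m : ℝ}
    (hm : 0 < m) {y : Fin r → ℝ} (hy : ∀ i, |y i| ≤ cc Φ * m) : |dz p.1 y| ≤ m := by
  have h1 : |dz p.1 y| ≤ (∑ i, |(p.1 i : ℝ)|) * (cc Φ * m) := by
    unfold dz
    refine (Finset.abs_sum_le_sum_abs _ _).trans ?_
    rw [Finset.sum_mul]
    refine Finset.sum_le_sum fun i _ => ?_
    rw [abs_mul]
    exact mul_le_mul_of_nonneg_left (hy i) (abs_nonneg _)
  have h2 : ∑ i, |(p.1 i : ℝ)| ≤ ∑ p ∈ pos Φ, ∑ i, |(p.1 i : ℝ)| :=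
    Finset.single_le_sum (f := fun p : (Fin r → ℤ) × (Fin r → ℤ) => ∑ i, |(p.1 i : ℝ)|)
      (fun _ _ => Finset.sum_nonneg fun _ _ => abs_nonneg _) hp
  have h3 : (∑ i, |(p.1 i : ℝ)|) * cc Φ ≤ 1 := by
    unfold cc
    rw [mul_one_div, div_le_one (cc_den Φ)]
    linarith
  calc |dz p.1 y| ≤ ((∑ i, |(p.1 i : ℝ)|) * cc Φ) * m := by rw [mul_assoc]; exact h1
    _ ≤ 1 * m := mul_le_mul_of_nonneg_right h3 hm.le
    _ = m := one_mul m

theorem nd_move {Φ : RT r} {p : (Fin r → ℤ) × (Fin r → ℤ)} (hp : p ∈ pos Φ) {m : ℝ}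
    (hm : 0 < m) (θ : Fin r → ℝ) {y : Fin r → ℝ} (hy : ∀ i, |y i| ≤ cc Φ * m) :
    |nd (dz p.1 (θ + y)) - nd (dz p.1 θ)| ≤ m := by
  refine (nd_lip _ _).trans ?_
  rw [dz_add, add_sub_cancel_left]
  exact dz_small hp hm hy

end KEY

open KEY in
theorem t_KEY : M_KEY := by
  intro hTHG hPOS hTLE r Φ B hr hI hF z hz a ha j hj
  have T : THF Φ z := hTHG r Φ B hr hI hF z hz
  have ha2 : a.2 ⬝ᵥ a.1 = 2 := hI.two a (hF.ppos a ha).1
  have hL : 0 ≤ 2 * LL Φ a := by linarith [LL_nonneg Φ a]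
  obtain ⟨C₁, hC₁, h1⟩ := hTLE r Φ B hr hI hF z hz a ha (cc Φ) (2 * LL Φ a) 1 (cc_pos Φ) hL le_rfl
  obtain ⟨C₂, hC₂, h2⟩ := hTLE r Φ B hr hI hF z hz a ha (cc Φ) (2 * LL Φ a) j (cc_pos Φ) hL hj
  set q : ℝ := ((rd Φ).Q a.1 : ℝ) / 4 with hq
  have hQ : 0 ≤ (rd Φ).Q a.1 := Finset.sum_nonneg fun _ _ => sq_nonneg _
  have hq0 : 0 ≤ q := by
    have : (0 : ℝ) ≤ ((rd Φ).Q a.1 : ℝ) := by exact_mod_cast hQ
    rw [hq]
    linarith
  set e₀ : ℝ := Real.exp (-q) with he₀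
  have he₀0 : 0 < e₀ := Real.exp_pos _
  refine ⟨2 / e₀ + C₂, e₀ / (2 * (C₁ + 1)), by positivity, by positivity, ?_⟩
  intro s₁ s₂ m hs₂ hs₂₁ hs₁ hm hη θ
  have hs₁0 : 0 ≤ s₁ := hs₂.trans hs₂₁
  have hm2 : 0 < m ^ 2 := by positivity
  have hbd : ∀ f : (Fin r → ℝ) → ℝ, (∀ θ, |f θ| ≤ 1) → ∃ C, ∀ θ, |al a θ * f θ| ≤ C :=
    fun f hf => ⟨1, fun θ => prod_le a hf θ⟩
  -- positivity
  have posB : ∀ s m : ℝ, 0 ≤ s → 0 ≤ al a θ * TH z s (fun θ' => al a θ' * et Φ a m θ') θ := by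
    intro s m hs
    refine hPOS r Φ B hr hI hF z hz a ha s (fun θ' => al a θ' * et Φ a m θ') hs
      ((al_cont a).mul (et_cont Φ a m))
      (hbd _ (et_abs Φ a m)) (fun k θ => ?_) (fun θ => ?_) θ
    · show al a (ar a k θ) * et Φ a m (ar a k θ) = -(al a θ * et Φ a m θ)
      rw [al_ar ha2, et_ar hI hF ha]
      ring
    · show 0 ≤ al a θ * (al a θ * et Φ a m θ)
      rw [← mul_assoc]
      exact mul_nonneg (mul_self_nonneg _) (et_nonneg Φ a m θ)
  have posA : ∀ s m : ℝ, 0 ≤ s → 0 ≤ al a θ * TH z s (fun θ' => al a θ' * (1 - et Φ a m θ')) θ := by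
    intro s m hs
    refine hPOS r Φ B hr hI hF z hz a ha s (fun θ' => al a θ' * (1 - et Φ a m θ')) hs
      ((al_cont a).mul (continuous_const.sub (et_cont Φ a m)))
      (hbd _ (et_abs' Φ a m)) (fun k θ => ?_) (fun θ => ?_) θ
    · show al a (ar a k θ) * (1 - et Φ a m (ar a k θ)) = -(al a θ * (1 - et Φ a m θ))
      rw [al_ar ha2, et_ar hI hF ha]
      ring
    · show 0 ≤ al a θ * (al a θ * (1 - et Φ a m θ))
      rw [← mul_assoc]
      exact mul_nonneg (mul_self_nonneg _) (by linarith [et_le_one Φ a m θ])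
  have hsub : ∀ s m : ℝ, TH z s (fun θ' => al a θ' * (1 - et Φ a m θ')) θ =
      TH z s (al a) θ - TH z s (fun θ' => al a θ' * et Φ a m θ') θ := by
    intro s m
    unfold TH
    rw [← integral_sub (T.int s (al a) θ (al_cont a) ⟨1, al_le a⟩)
      (T.int s (fun θ' => al a θ' * et Φ a m θ') θ ((al_cont a).mul (et_cont Φ a m))
        (hbd _ (et_abs Φ a m)))]
    refine integral_congr_ae (Eventually.of_forall fun ξ => ?_)
    show al a (θ + gy z s ξ) * (1 - et Φ a m (θ + gy z s ξ)) = _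
    ring
  by_cases hR : ∀ p ∈ (pos Φ).erase a, 2 * m ≤ nd (dz p.1 θ)
  · -- the regular region
    have hA := posA s₂ (4 * m) hs₂
    rw [hsub, mul_sub, T.al s₂ hs₂ a ha θ] at hA
    have hB : al a θ * (Real.exp (-(s₂ * (((rd Φ).Q a.1 : ℝ) / 4))) * al a θ) ≤ al a θ ^ 2 := by
      have h3 : Real.exp (-(s₂ * (((rd Φ).Q a.1 : ℝ) / 4))) ≤ 1 := by
        rw [Real.exp_le_one_iff]
        have := mul_nonneg hs₂ hq0
        rw [hq] at this
        linarith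
      nlinarith [sq_nonneg (al a θ)]
    -- the tail
    have hT := h1 s₁ m (fun θ' => 1 - et Φ a (m / 2) θ') hs₁0 hm
      (continuous_const.sub (et_cont Φ a (m / 2))) (et_abs' Φ a (m / 2))
      (fun k θ => by rw [et_ar hI hF ha]) (fun θ w => ?_) θ (fun y hy => ?_)
    · rw [hsub, T.al s₁ hs₁0 a ha θ, pow_one] at hT
      set X := TH z s₁ (fun θ' => al a θ' * et Φ a (m / 2) θ') θ with hX
      set e₁ := Real.exp (-(s₁ * (((rd Φ).Q a.1 : ℝ) / 4))) with he₁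
      have h3 : e₀ ≤ e₁ := by
        rw [he₀, he₁]
        refine Real.exp_le_exp.2 ?_
        have := mul_le_mul_of_nonneg_right hs₁ hq0
        rw [hq] at this ⊢
        linarith
      have h4 : s₁ / m ^ 2 ≤ e₀ / (2 * (C₁ + 1)) := by
        rw [div_le_iff₀ hm2]
        exact hη
      have h5 : C₁ * (s₁ / m ^ 2) ≤ e₀ / 2 := by
        refine (mul_le_mul_of_nonneg_left h4 hC₁).trans ?_
        rw [← mul_div_assoc, div_le_div_iff₀ (by positivity) (by norm_num)]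
        nlinarith
      have h6 : al a θ * (e₁ * al a θ - X) ≤ C₁ * (s₁ / m ^ 2) * al a θ ^ 2 := by
        calc al a θ * (e₁ * al a θ - X) ≤ |al a θ| * |e₁ * al a θ - X| := by
              rw [← abs_mul]
              exact le_abs_self _
          _ ≤ |al a θ| * (C₁ * (s₁ / m ^ 2) * |al a θ|) :=
              mul_le_mul_of_nonneg_left hT (abs_nonneg _)
          _ = C₁ * (s₁ / m ^ 2) * |al a θ| ^ 2 := by ring
          _ = _ := by rw [sq_abs]
      have h7 : e₀ / 2 * al a θ ^ 2 ≤ al a θ * X := by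
        have h8 : C₁ * (s₁ / m ^ 2) * al a θ ^ 2 ≤ e₀ / 2 * al a θ ^ 2 :=
          mul_le_mul_of_nonneg_right h5 (sq_nonneg _)
        have h9 : e₀ * al a θ ^ 2 ≤ e₁ * al a θ ^ 2 :=
          mul_le_mul_of_nonneg_right h3 (sq_nonneg _)
        nlinarith
      have h10 : al a θ ^ 2 ≤ 2 / e₀ * (al a θ * X) := by
        rw [div_mul_eq_mul_div, le_div_iff₀ he₀0]
        linarith
      have h11 : 0 ≤ al a θ * X := posB s₁ (m / 2) hs₁0
      have h12 : 0 ≤ C₂ * (al a θ * X) := mul_nonneg hC₂ h11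
      have h13 : 0 ≤ (2 / e₀ + C₂) * (s₁ / m ^ 2) ^ j * al a θ ^ 2 := by positivity
      calc al a θ * TH z s₂ (fun θ' => al a θ' * et Φ a (4 * m) θ') θ ≤ al a θ ^ 2 := by linarith
        _ ≤ 2 / e₀ * (al a θ * X) := h10
        _ ≤ (2 / e₀ + C₂) * (al a θ * X) + (2 / e₀ + C₂) * (s₁ / m ^ 2) ^ j * al a θ ^ 2 := by
            linarith
    · have h3 := et_lip Φ a (m := m / 2) (by linarith) θ w
      have h4 : (1 - et Φ a (m / 2) (θ + fun i => w * (a.2 i : ℝ))) - (1 - et Φ a (m / 2) θ) =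
          -(et Φ a (m / 2) (θ + fun i => w * (a.2 i : ℝ)) - et Φ a (m / 2) θ) := by ring
      rw [h4, abs_neg]
      refine h3.trans (le_of_eq ?_)
      field_simp
    · show 1 - et Φ a (m / 2) (θ + y) = 0
      have h3 : et Φ a (m / 2) (θ + y) = 1 := by
        unfold et
        refine Finset.prod_eq_one fun p hp => ch_one (by linarith) ?_
        have h4 := abs_le.1 (nd_move (Finset.mem_erase.1 hp).2 hm θ hy)
        have h5 := hR p hp
        linarith [h4.1]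
      rw [h3, sub_self]
  · -- the singular region
    push Not at hR
    obtain ⟨p, hp, hpm⟩ := hR
    have hT := h2 s₂ m (fun θ' => et Φ a (4 * m) θ') hs₂ hm (et_cont Φ a (4 * m))
      (et_abs Φ a (4 * m)) (fun k θ => by rw [et_ar hI hF ha]) (fun θ w => ?_) θ (fun y hy => ?_)
    · have h3 : (s₂ / m ^ 2) ^ j ≤ (s₁ / m ^ 2) ^ j :=
        pow_le_pow_left₀ (by positivity) (div_le_div_of_nonneg_right hs₂₁ hm2.le) j
      have h4 : al a θ * TH z s₂ (fun θ' => al a θ' * et Φ a (4 * m) θ') θ ≤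
          C₂ * (s₁ / m ^ 2) ^ j * al a θ ^ 2 := by
        calc al a θ * TH z s₂ (fun θ' => al a θ' * et Φ a (4 * m) θ') θ
            ≤ |al a θ| * |TH z s₂ (fun θ' => al a θ' * et Φ a (4 * m) θ') θ| := by
              rw [← abs_mul]
              exact le_abs_self _
          _ ≤ |al a θ| * (C₂ * (s₂ / m ^ 2) ^ j * |al a θ|) :=
              mul_le_mul_of_nonneg_left hT (abs_nonneg _)
          _ = C₂ * (s₂ / m ^ 2) ^ j * |al a θ| ^ 2 := by ring
          _ ≤ C₂ * (s₁ / m ^ 2) ^ j * |al a θ| ^ 2 :=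
              mul_le_mul_of_nonneg_right (mul_le_mul_of_nonneg_left h3 hC₂) (sq_nonneg _)
          _ = _ := by rw [sq_abs]
      have h5 : 0 ≤ (2 / e₀ + C₂) *
          (al a θ * TH z s₁ (fun θ' => al a θ' * et Φ a (m / 2) θ') θ) :=
        mul_nonneg (by positivity) (posB s₁ (m / 2) hs₁0)
      have h6 : C₂ * (s₁ / m ^ 2) ^ j * al a θ ^ 2 ≤
          (2 / e₀ + C₂) * (s₁ / m ^ 2) ^ j * al a θ ^ 2 := by
        refine mul_le_mul_of_nonneg_right ?_ (sq_nonneg _)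
        refine mul_le_mul_of_nonneg_right ?_ (by positivity)
        have : 0 ≤ 2 / e₀ := by positivity
        linarith
      linarith
    · have h3 := et_lip Φ a (m := 4 * m) (by linarith) θ w
      refine h3.trans ?_
      refine div_le_div₀ (by positivity) ?_ hm (by linarith)
      have := mul_nonneg (LL_nonneg Φ a) (abs_nonneg w)
      linarith
    · show et Φ a (4 * m) (θ + y) = 0
      unfold et
      refine Finset.prod_eq_zero hp (ch_zero (by linarith) ?_)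
      have h4 := abs_le.1 (nd_move (Finset.mem_erase.1 hp).2 hm θ hy)
      linarith [h4.2]

end

end STZ3
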