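import Pool.Agent.STZ3.StD3

/-!
# The groups `SU(3)`, `PSU(3)`: module KOC (helper96)

The kernel of the chain packets is small outside of the shell (as KOF).
-/

set_option autoImplicit false

namespace STZ3

open STZ LGR MeasureTheory Matrix Filter

open scoped ComplexConjugate Matrix Real Topology

noncomputable section

namespace KOC

theorem nd_eq (θ : ℝ) : nd θ = ‖(θ : UnitAddCircle)‖ := by
  unfold nd
  rw [UnitAddCircle.norm_eq]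

theorem nd_add (x y : ℝ) : nd (x + y) ≤ nd x + nd y := by
  rw [nd_eq, nd_eq, nd_eq, AddCircle.coe_add]
  exact norm_add_le _ _

theorem nd_le_abs (x : ℝ) : nd x ≤ |x| := by
  have h := round_le x 0
  simpa [nd] using h

theorem nd_nn (x : ℝ) : 0 ≤ nd x := abs_nonneg _

/-- the distance to the integers is 1-Lipschitz -/
theorem nd_lip (x y : ℝ) : nd (x + y) ≤ nd x + |y| :=
  (nd_add x y).trans (add_le_add_right (nd_le_abs y) _)

theorem nd_lip' (x y : ℝ) : nd x - |y| ≤ nd (x + y) := by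
  have h := nd_lip (x + y) (-y)
  rw [add_neg_cancel_right, abs_neg] at h
  linarith

theorem eu_add (a b : ℝ) : eu (a + b) = eu a * eu b := by
  unfold eu
  rw [← Complex.exp_add]
  congr 1
  push_cast
  ring

theorem norm_eu (a : ℝ) : ‖eu a‖ = 1 := by
  unfold eu
  rw [show (2 * (π : ℂ) * (a : ℂ) * Complex.I) = ((2 * π * a : ℝ) : ℂ) * Complex.I by push_cast; ring]
  exact Complex.norm_exp_ofReal_mul_I _

theorem eu_cont {r : ℕ} (l : Fin r → ℤ) : Continuous fun s : Fin r → ℝ => eu (dz l s) := by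
  unfold eu dz
  fun_prop

theorem dz_add {r : ℕ} (l : Fin r → ℤ) (θ s : Fin r → ℝ) : dz l (θ + s) = dz l θ + dz l s := by
  unfold dz
  rw [← Finset.sum_add_distrib]
  refine Finset.sum_congr rfl fun i _ => ?_
  rw [Pi.add_apply, mul_add]

/-- the support of `nx` -/
theorem nx_supp {r : ℕ} {Φ : RT r} {B : Matrix (Fin r) (Fin r) ℤ} (hI : IRD Φ B) {m J : ℕ}
    {q : (Fin r → ℤ) → ℝ} {x : {p // p ∈ pos Φ} → Fin (J + 1)} {τ : ℝ} {ν : Fin r → ℤ}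
    (hq : QH Φ (2 ^ J) q) (h : nx Φ m J q x τ ν ≠ 0) :
    ∃ k ∈ kB Φ (2 * m ^ 2 * 2 ^ J), ∃ l ∈ cb r (2 ^ J), ν = l + rs (pos Φ) k := by
  unfold nx at h
  obtain ⟨k, hk, hne⟩ := Finset.exists_ne_zero_of_sum_ne_zero h
  refine ⟨k, hk, ν - rs (pos Φ) k, ?_, by abel⟩
  have h1 : gt Φ q τ (ν - rs (pos Φ) k) ≠ 0 := right_ne_zero_of_mul hne
  have h2 : q (ν - rs (pos Φ) k) ≠ 0 := by
    intro h0
    apply h1
    unfold gt
    rw [h0]
    simp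
  unfold cb
  rw [Fintype.mem_piFinset]
  intro i
  rw [Finset.mem_Icc]
  have h3 : (B i, Pi.single i 1) ∈ pos Φ := by
    refine Finset.mem_filter.2 ⟨hI.base i, fun j => ?_⟩
    show (0 : ℤ) ≤ (Pi.single i 1 : Fin r → ℤ) j
    by_cases hj : j = i
    · subst hj
      simp
    · rw [Pi.single_eq_of_ne hj]
  have h4 := hq.supp _ h2 _ h3
  rw [single_one_dotProduct] at h4
  have h5 := abs_le.1 h4
  push_cast at h5 ⊢
  exact ⟨h5.1, h5.2⟩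

/-- the shift of the term `S` -/
def kp {r : ℕ} (S : RT r) : Fin r → ℤ := 1 - ∑ p ∈ S, p.1

/-- the sign of the term `S` -/
def sn {r : ℕ} (a : (Fin r → ℤ) × (Fin r → ℤ)) (S : RT r) : ℝ := if a ∈ S then -1 else 1

/-- the exponent of the term `S` -/
def ys {r : ℕ} (Φ : RT r) (a : (Fin r → ℤ) × (Fin r → ℤ)) (t₁ t₂ : ℝ) (S : RT r) (i : Fin r) : ℝ :=
  (t₂ - t₁) * sn a S * ((((rd Φ).A *ᵥ a.1) i : ℤ) : ℝ) + 2 * t₁ * ((((rd Φ).A *ᵥ kp S) i : ℤ) : ℝ)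

/-- the constant of the term `S` -/
def cs {r : ℕ} (Φ : RT r) (t₁ : ℝ) (S : RT r) : ℝ :=
  2 * t₁ * (((rd Φ).Q (kp S) : ℝ) - (rd Φ).Q 1)

theorem ip_eq {r : ℕ} (Φ : RT r) (l y : Fin r → ℤ) :
    ip Φ l y = ∑ i, (l i : ℝ) * ((((rd Φ).A *ᵥ y) i : ℤ) : ℝ) := by
  unfold ip
  rw [dotProduct, Int.cast_sum]
  refine Finset.sum_congr rfl fun i _ => ?_
  push_cast
  rfl

theorem ip_comm {r : ℕ} {Φ : RT r} (hA : (rd Φ).Aᵀ = (rd Φ).A) (x y : Fin r → ℤ) :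
    ip Φ x y = ip Φ y x := by
  unfold ip
  congr 1
  rw [dotProduct_mulVec, ← mulVec_transpose, hA, dotProduct_comm]

theorem es_eq {r : ℕ} {Φ : RT r} (hQF : QF (rd Φ).Q (rd Φ).A) (hA : (rd Φ).Aᵀ = (rd Φ).A)
    (hQ : ∀ l, l ⬝ᵥ ((rd Φ).A *ᵥ l) = 2 * (rd Φ).Q l)
    (a : (Fin r → ℤ) × (Fin r → ℤ)) (t₁ t₂ : ℝ) (S : RT r) (l : Fin r → ℤ) :
    es Φ a t₁ t₂ S l = ∑ i, (l i : ℝ) * ys Φ a t₁ t₂ S i + cs Φ t₁ S := by
  have hpol : ∀ x y, ((rd Φ).Q (x + y) : ℝ) = (rd Φ).Q x + (rd Φ).Q y + ip Φ x y := by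
    intro x y
    have h := hQF.polar x y
    unfold ip
    exact_mod_cast h
  have hdiag : ∀ x, ip Φ x x = 2 * (rd Φ).Q x := by
    intro x
    have h := hQ x
    unfold ip
    exact_mod_cast h
  have hip2 : ∀ x y z, ip Φ x (y - z) = ip Φ x y - ip Φ x z := by
    intro x y z
    unfold ip
    rw [mulVec_sub, dotProduct_sub]
    push_cast
    rfl
  have hCL : CL Φ a (l - if a ∈ S then a.1 else 0) = (rd Φ).Q l + sn a S * ip Φ l a.1 / 2 := by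
    unfold CL sn
    by_cases h : a ∈ S
    · rw [if_pos h, if_pos h, hip2, hdiag, ip_comm hA a.1 l]
      have h1 := hpol (l - a.1) a.1
      rw [sub_add_cancel, ip_comm hA (l - a.1) a.1, hip2, hdiag, ip_comm hA a.1 l] at h1
      linarith
    · rw [if_neg h, if_neg h, sub_zero, ip_comm hA a.1 l]
      ring
  have hs : ∑ i, (l i : ℝ) * ys Φ a t₁ t₂ S i =
      (t₂ - t₁) * sn a S * ip Φ l a.1 + 2 * t₁ * ip Φ l (kp S) := by
    rw [ip_eq, ip_eq, Finset.mul_sum, Finset.mul_sum, ← Finset.sum_add_distrib]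
    refine Finset.sum_congr rfl fun i _ => ?_
    unfold ys
    ring
  have h2 := hpol l (kp S)
  have h3 : l + 1 - ∑ p ∈ S, p.1 = l + kp S := by
    unfold kp
    abel
  unfold es
  rw [hCL, hs, h3, h2]
  unfold cs
  ring

/-- the sum of KLO for the term `S` -/
def sw {r : ℕ} (Φ : RT r) (m J : ℕ) (q : (Fin r → ℤ) → ℝ) (a : {p // p ∈ pos Φ})
    (x : {p // p ∈ pos Φ} → Fin (J + 1)) (T : Finset (Fin r → ℤ)) (τ : ℝ) (θ : Fin r → ℝ) (S : RT r) : ℂ :=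
  ∑ l ∈ T, ((Real.exp (∑ i, (l i : ℝ) * ys Φ a.1 (th x) (tc a x) S i) * dR Φ (l + kp S) : ℝ) : ℂ) *
    nx Φ m J q x τ (l + kp S) * eu (dz l θ)

theorem lac_eq {r : ℕ} {Φ : RT r} (hQF : QF (rd Φ).Q (rd Φ).A) (hA : (rd Φ).Aᵀ = (rd Φ).A)
    (hQ : ∀ l, l ⬝ᵥ ((rd Φ).A *ᵥ l) = 2 * (rd Φ).Q l) (m J : ℕ) (q : (Fin r → ℤ) → ℝ)
    (a : {p // p ∈ pos Φ}) (x : {p // p ∈ pos Φ} → Fin (J + 1)) (τ : ℝ) (l : Fin r → ℤ) :
    lac Φ m J q a x τ l = (1 / ((WF Φ).card : ℂ)) * ∑ S ∈ (pos Φ).powerset,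
      ((-1) ^ S.card * (Real.exp (cs Φ (th x) S) : ℂ)) *
      (((Real.exp (∑ i, (l i : ℝ) * ys Φ a.1 (th x) (tc a x) S i) * dR Φ (l + kp S) : ℝ) : ℂ) *
        nx Φ m J q x τ (l + kp S)) := by
  unfold lac lc
  congr 1
  refine Finset.sum_congr rfl fun S _ => ?_
  have h3 : l + 1 - ∑ p ∈ S, p.1 = l + kp S := by
    unfold kp
    abel
  rw [es_eq hQF hA hQ, h3, Real.exp_add]
  push_cast
  ring

/-- the kernel is a combination of the sums of KLO -/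
theorem km_eq {r : ℕ} {Φ : RT r} (hQF : QF (rd Φ).Q (rd Φ).A) (hA : (rd Φ).Aᵀ = (rd Φ).A)
    (hQ : ∀ l, l ⬝ᵥ ((rd Φ).A *ᵥ l) = 2 * (rd Φ).Q l) (m J : ℕ) (q : (Fin r → ℤ) → ℝ)
    (a : {p // p ∈ pos Φ}) (x : {p // p ∈ pos Φ} → Fin (J + 1)) (T : Finset (Fin r → ℤ)) (τ : ℝ)
    (θ : Fin r → ℝ) :
    km (lac Φ m J q a x) T (fun _ => 1) τ θ = (1 / ((WF Φ).card : ℂ)) * ∑ S ∈ (pos Φ).powerset,
      ((-1) ^ S.card * (Real.exp (cs Φ (th x) S) : ℂ)) * sw Φ m J q a x T τ θ S := by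
  unfold km sw
  simp only [lac_eq hQF hA hQ, Complex.ofReal_one, mul_one, Finset.mul_sum, Finset.sum_mul]
  rw [Finset.sum_comm]
  refine Finset.sum_congr rfl fun w _ => Finset.sum_congr rfl fun l _ => ?_
  ring

theorem km_le {r : ℕ} {Φ : RT r} {B : Matrix (Fin r) (Fin r) ℤ} (hW : WFF Φ B)
    (hQF : QF (rd Φ).Q (rd Φ).A) (hA : (rd Φ).Aᵀ = (rd Φ).A)
    (hQ : ∀ l, l ⬝ᵥ ((rd Φ).A *ᵥ l) = 2 * (rd Φ).Q l) (m J : ℕ) (q : (Fin r → ℤ) → ℝ)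
    (a : {p // p ∈ pos Φ}) (x : {p // p ∈ pos Φ} → Fin (J + 1)) (T : Finset (Fin r → ℤ)) (τ : ℝ)
    (θ : Fin r → ℝ) (b G : ℝ) (hG : ∀ S ∈ (pos Φ).powerset, cs Φ (th x) S ≤ G)
    (h : ∀ S ∈ (pos Φ).powerset, ‖sw Φ m J q a x T τ θ S‖ ≤ b) :
    ‖km (lac Φ m J q a x) T (fun _ => 1) τ θ‖ ≤ 2 ^ (pos Φ).card * Real.exp G * b := by
  rw [km_eq hQF hA hQ, norm_mul]
  have hc : 1 ≤ (WF Φ).card := Finset.card_pos.2 ⟨1, hW.one⟩
  have hc' : (1 : ℝ) ≤ (WF Φ).card := by exact_mod_cast hc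
  have h1 : ‖∑ S ∈ (pos Φ).powerset, ((-1) ^ S.card * (Real.exp (cs Φ (th x) S) : ℂ)) *
      sw Φ m J q a x T τ θ S‖ ≤ 2 ^ (pos Φ).card * Real.exp G * b := by
    refine (norm_sum_le _ _).trans ?_
    refine (Finset.sum_le_sum (g := fun _ => Real.exp G * b) fun S hS => ?_).trans ?_
    · rw [norm_mul, norm_mul, norm_pow, norm_neg, norm_one, one_pow, one_mul, Complex.norm_real,
        Real.norm_eq_abs, abs_of_pos (Real.exp_pos _)]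
      exact mul_le_mul (Real.exp_le_exp.2 (hG S hS)) (h S hS) (norm_nonneg _) (Real.exp_pos _).le
    · rw [Finset.sum_const, nsmul_eq_mul, Finset.card_powerset]
      push_cast
      rw [mul_assoc]
  have h2 : ‖(1 / ((WF Φ).card : ℂ))‖ ≤ 1 := by
    rw [norm_div, norm_one, Complex.norm_natCast]
    exact (div_le_one (by linarith)).2 hc'
  calc ‖(1 / ((WF Φ).card : ℂ))‖ * ‖∑ S ∈ (pos Φ).powerset,
        ((-1) ^ S.card * (Real.exp (cs Φ (th x) S) : ℂ)) * sw Φ m J q a x T τ θ S‖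
      ≤ 1 * (2 ^ (pos Φ).card * Real.exp G * b) :=
        mul_le_mul h2 h1 (norm_nonneg _) zero_le_one
    _ = _ := one_mul _

theorem km_mono {r : ℕ} {a : ℝ → (Fin r → ℤ) → ℂ} {T T' : Finset (Fin r → ℤ)}
    {Ψ : (Fin r → ℤ) → ℝ} (hT : ∀ τ l, a τ l ≠ 0 → l ∈ T) (hTT : T ⊆ T') (τ : ℝ) (θ : Fin r → ℝ) :
    km a T Ψ τ θ = km a T' Ψ τ θ := by
  unfold km
  refine Finset.sum_subset hTT fun l _ hl => ?_
  have h0 : a τ l = 0 := by
    by_contra hne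
    exact hl (hT τ l hne)
  rw [h0]
  simp

/-- the kernel with a factor as a combination of translates -/
theorem km_int {r : ℕ} (a : ℝ → (Fin r → ℤ) → ℂ) (T : Finset (Fin r → ℤ)) {Ψ : (Fin r → ℤ) → ℝ}
    {C R : ℝ} {ν₁ ν₂ : Measure (Fin r → ℝ)} (h : FM C R Ψ ν₁ ν₂) (τ : ℝ) (θ : Fin r → ℝ) :
    km a T Ψ τ θ = ∫ s, km a T (fun _ => 1) τ (θ + s) ∂ν₁ - ∫ s, km a T (fun _ => 1) τ (θ + s) ∂ν₂ := by
  have hf₁ := h.fin₁
  have hf₂ := h.fin₂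
  have hint : ∀ (ν : Measure (Fin r → ℝ)) [IsFiniteMeasure ν] (l : Fin r → ℤ),
      Integrable (fun s => a τ l * (eu (dz l θ) * eu (dz l s))) ν := by
    intro ν _ l
    have h1 : Integrable (fun s : Fin r → ℝ => eu (dz l s)) ν :=
      (integrable_const (1 : ℝ)).mono' (eu_cont l).aestronglyMeasurable
        (ae_of_all _ fun s => (norm_eu _).le)
    exact (h1.const_mul _).const_mul _
  have e : ∀ s : Fin r → ℝ, km a T (fun _ => 1) τ (θ + s) =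
      ∑ l ∈ T, a τ l * (eu (dz l θ) * eu (dz l s)) := by
    intro s
    unfold km
    refine Finset.sum_congr rfl fun l _ => ?_
    rw [dz_add, eu_add, Complex.ofReal_one, mul_one]
  simp only [e]
  rw [integral_finsetSum _ fun l _ => hint ν₁ l, integral_finsetSum _ fun l _ => hint ν₂ l,
    ← Finset.sum_sub_distrib]
  unfold km
  refine Finset.sum_congr rfl fun l _ => ?_
  rw [integral_const_mul, integral_const_mul, integral_const_mul, integral_const_mul, ← h.tr l]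
  ring

theorem km_int_le {r : ℕ} (a : ℝ → (Fin r → ℤ) → ℂ) (T : Finset (Fin r → ℤ)) {Ψ : (Fin r → ℤ) → ℝ}
    {C R : ℝ} {ν₁ ν₂ : Measure (Fin r → ℝ)} (h : FM C R Ψ ν₁ ν₂) (τ : ℝ) (θ : Fin r → ℝ) (b : ℝ)
    (hb0 : 0 ≤ b)
    (hb : ∀ s : Fin r → ℝ, (∀ i, |s i| ≤ C * R) → ‖km a T (fun _ => 1) τ (θ + s)‖ ≤ b) :
    ‖km a T Ψ τ θ‖ ≤ 2 * C * b := by
  have hf₁ := h.fin₁
  have hf₂ := h.fin₂
  have key : ∀ (ν : Measure (Fin r → ℝ)) [IsFiniteMeasure ν], ν {s | ∃ i, C * R < |s i|} = 0 →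
      ν.real Set.univ ≤ C → ‖∫ s, km a T (fun _ => 1) τ (θ + s) ∂ν‖ ≤ b * C := by
    intro ν _ h0 hm
    refine (norm_integral_le_of_norm_le_const (C := b) ?_).trans
      (mul_le_mul_of_nonneg_left hm hb0)
    have h1 : ∀ᵐ s ∂ν, ¬ ∃ i, C * R < |s i| := by
      rw [ae_iff]
      simpa using h0
    filter_upwards [h1] with s hs
    push Not at hs
    exact hb s hs
  rw [km_int a T h]
  refine (norm_sub_le _ _).trans ?_
  have e1 := key ν₁ h.supp₁ h.mass₁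
  have e2 := key ν₂ h.supp₂ h.mass₂
  linarith

/-- powers of two -/
theorem two_pow {J n r m : ℕ} {ε A : ℝ} (h : (n : ℝ) + r + A ≤ 2 * ε * m) :
    (2 : ℝ) ^ (J * (n + r)) * ((2 : ℝ) ^ (-(ε * J))) ^ (2 * m) ≤ (2 : ℝ) ^ (-(A * J)) := by
  rw [← Real.rpow_natCast, ← Real.rpow_natCast, ← Real.rpow_mul (by norm_num),
    ← Real.rpow_add (by norm_num)]
  refine Real.rpow_le_rpow_of_exponent_le (by norm_num) ?_
  push_cast
  have hJ : (0 : ℝ) ≤ J := Nat.cast_nonneg _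
  nlinarith [mul_le_mul_of_nonneg_left h hJ]

/-- the bounds for one term outside of the shell -/
theorem out_le {r : ℕ} {Φ : RT r} {J m : ℕ} {a : {p // p ∈ pos Φ}}
    {x : {p // p ∈ pos Φ} → Fin (J + 1)} (hR : RGX Φ)
    (hJ : 1 ≤ J) {ε A C : ℝ} (hε : 0 < ε) (hC : 0 ≤ C) (hx : RG ε a x)
    (hA : ((pos Φ).card : ℝ) + r + A ≤ 2 * ε * m) {θ : Fin r → ℝ} (hθ : θ ∉ skc 1 ε x) (z : ℂ)
    (hz : ∀ p : {p // p ∈ pos Φ},
      ‖z‖ * (1 + 2 ^ (x p).val * nd (dz p.1.1 θ)) ^ (2 * m) ≤ C * (2 : ℝ) ^ (J * ((pos Φ).card + r)) ∧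
      ((x p).val < J →
        ‖z‖ ≤ C * (2 : ℝ) ^ (J * ((pos Φ).card + r)) *
          (2 ^ (x p).val * (nd (dz p.1.1 θ) + 1 / 2 ^ J)) ^ (2 * m))) :
    ‖z‖ ≤ C * 4 ^ m * (2 : ℝ) ^ (-(A * J)) := by
  have hJ0 : (0 : ℝ) < J := by exact_mod_cast (lt_of_lt_of_le one_pos hJ)
  have hp4 : (1 : ℝ) ≤ 4 ^ m := one_le_pow₀ (by norm_num)
  have hE : (0 : ℝ) < (2 : ℝ) ^ (-(ε * J)) := Real.rpow_pos_of_pos (by norm_num) _
  have hE' : (0 : ℝ) < (2 : ℝ) ^ (ε * J) := Real.rpow_pos_of_pos (by norm_num) _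
  have hEE : (2 : ℝ) ^ (-(ε * J)) * (2 : ℝ) ^ (ε * J) = 1 := by
    rw [← Real.rpow_add (by norm_num), neg_add_cancel, Real.rpow_zero]
  have hA2 := two_pow (J := J) hA
  have hAJ : (0 : ℝ) < (2 : ℝ) ^ (-(A * J)) := Real.rpow_pos_of_pos (by norm_num) _
  have hex : ∃ p : {p // p ∈ pos Φ},
      (2 : ℝ) ^ (ε * J) * dl x p < nd (dz p.1.1 θ) ∨
        nd (dz p.1.1 θ) < (2 : ℝ) ^ (-(ε * J)) * dl x p := by
    by_contra hcon
    push Not at hcon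
    refine hθ fun p => ⟨?_, ?_⟩
    · rw [one_mul]
      exact (hcon p).1
    · rw [one_mul]
      exact (hcon p).2
  obtain ⟨p, hp⟩ := hex
  have hdl : dl x p = 1 / 2 ^ (x p).val := rfl
  have h2p : (0 : ℝ) < 2 ^ (x p).val := by positivity
  rcases hp with hp | hp2
  · have h1 : (2 : ℝ) ^ (ε * J) ≤ 1 + 2 ^ (x p).val * nd (dz p.1.1 θ) := by
      have h3 : (2 : ℝ) ^ (x p).val * ((2 : ℝ) ^ (ε * J) * dl x p) ≤
          2 ^ (x p).val * nd (dz p.1.1 θ) := mul_le_mul_of_nonneg_left hp.le h2p.le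
      have h4 : (2 : ℝ) ^ (x p).val * ((2 : ℝ) ^ (ε * J) * dl x p) = (2 : ℝ) ^ (ε * J) := by
        rw [hdl]
        field_simp
      linarith
    have h5 : ‖z‖ * ((2 : ℝ) ^ (ε * J)) ^ (2 * m) ≤ C * (2 : ℝ) ^ (J * ((pos Φ).card + r)) :=
      (mul_le_mul_of_nonneg_left (pow_le_pow_left₀ hE'.le h1 _) (norm_nonneg z)).trans (hz p).1
    have h6 : ‖z‖ = ‖z‖ * ((2 : ℝ) ^ (ε * J)) ^ (2 * m) * ((2 : ℝ) ^ (-(ε * J))) ^ (2 * m) := by
      rw [mul_assoc, ← mul_pow, mul_comm ((2 : ℝ) ^ (ε * J)), hEE, one_pow, mul_one]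
    rw [h6]
    calc ‖z‖ * ((2 : ℝ) ^ (ε * J)) ^ (2 * m) * ((2 : ℝ) ^ (-(ε * J))) ^ (2 * m)
        ≤ C * (2 : ℝ) ^ (J * ((pos Φ).card + r)) * ((2 : ℝ) ^ (-(ε * J))) ^ (2 * m) :=
          mul_le_mul_of_nonneg_right h5 (by positivity)
      _ = C * ((2 : ℝ) ^ (J * ((pos Φ).card + r)) * ((2 : ℝ) ^ (-(ε * J))) ^ (2 * m)) := by ring
      _ ≤ C * (2 : ℝ) ^ (-(A * J)) := mul_le_mul_of_nonneg_left hA2 hC
      _ ≤ C * 4 ^ m * (2 : ℝ) ^ (-(A * J)) := by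
          refine mul_le_mul_of_nonneg_right ?_ hAJ.le
          exact le_mul_of_one_le_right hC hp4
  · have hlt := hR.xl J ε a x hJ hε hx p
    have hda := hR.da J ε a x hx
    have hmn := hx.mn p
    have h2 : (2 : ℝ) ^ (x p).val * (1 / 2 ^ J) ≤ (2 : ℝ) ^ (-(12 * ε * J)) := by
      have h1 : (2 : ℝ) ^ ((12 * ε - 1) * J) ≤ dl x p := hda.trans hmn
      have h3 : (2 : ℝ) ^ ((12 * ε - 1) * J) * 2 ^ (x p).val ≤ 1 := by
        rw [hdl, le_div_iff₀ h2p] at h1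
        exact h1
      have h4 : (2 : ℝ) ^ (-(12 * ε * J)) * (2 : ℝ) ^ ((12 * ε - 1) * J) = 1 / 2 ^ J := by
        rw [← Real.rpow_add (by norm_num)]
        have e : -(12 * ε * J) + (12 * ε - 1) * J = -(J : ℝ) := by ring
        rw [e, Real.rpow_neg (by norm_num), Real.rpow_natCast, one_div]
      calc (2 : ℝ) ^ (x p).val * (1 / 2 ^ J)
          = (2 : ℝ) ^ (-(12 * ε * J)) * ((2 : ℝ) ^ ((12 * ε - 1) * J) * 2 ^ (x p).val) := by
            rw [← h4]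
            ring
        _ ≤ (2 : ℝ) ^ (-(12 * ε * J)) := mul_le_of_le_one_right (by positivity) h3
    have h2' : (2 : ℝ) ^ (-(12 * ε * J)) ≤ (2 : ℝ) ^ (-(ε * J)) := by
      refine Real.rpow_le_rpow_of_exponent_le (by norm_num) ?_
      nlinarith [mul_pos hε hJ0]
    have h3 : (2 : ℝ) ^ (x p).val * (nd (dz p.1.1 θ) + 1 / 2 ^ J) ≤ 2 * (2 : ℝ) ^ (-(ε * J)) := by
      have h4 : (2 : ℝ) ^ (x p).val * nd (dz p.1.1 θ) ≤ (2 : ℝ) ^ (-(ε * J)) := by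
        have h5 := mul_le_mul_of_nonneg_left hp2.le h2p.le
        have h6 : (2 : ℝ) ^ (x p).val * ((2 : ℝ) ^ (-(ε * J)) * dl x p) = (2 : ℝ) ^ (-(ε * J)) := by
          rw [hdl]
          field_simp
        linarith
      rw [mul_add]
      linarith
    have h30 : 0 ≤ (2 : ℝ) ^ (x p).val * (nd (dz p.1.1 θ) + 1 / 2 ^ J) := by
      have := nd_nn (dz p.1.1 θ)
      positivity
    calc ‖z‖ ≤ C * (2 : ℝ) ^ (J * ((pos Φ).card + r)) *
          (2 ^ (x p).val * (nd (dz p.1.1 θ) + 1 / 2 ^ J)) ^ (2 * m) := (hz p).2 hlt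
      _ ≤ C * (2 : ℝ) ^ (J * ((pos Φ).card + r)) * (2 * (2 : ℝ) ^ (-(ε * J))) ^ (2 * m) :=
          mul_le_mul_of_nonneg_left (pow_le_pow_left₀ h30 h3 _) (by positivity)
      _ = C * 4 ^ m * ((2 : ℝ) ^ (J * ((pos Φ).card + r)) * ((2 : ℝ) ^ (-(ε * J))) ^ (2 * m)) := by
          rw [mul_pow, pow_mul (2 : ℝ) 2 m]
          norm_num
          ring
      _ ≤ _ := mul_le_mul_of_nonneg_left hA2 (by positivity)

/-- outside of the larger shell all the small translates are outside of the shell -/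
theorem shift_out {r : ℕ} {Φ : RT r} {J : ℕ} {x : {p // p ∈ pos Φ} → Fin (J + 1)}
    {ε D : ℝ} (hε : 0 < ε) (hD : 1 ≤ D)
    (hJD : 2 * D ≤ (2 : ℝ) ^ (ε * J)) {θ s : Fin r → ℝ} (hθ : θ ∉ skc 2 ε x)
    (hs : ∀ p : {p // p ∈ pos Φ}, |dz p.1.1 s| ≤ D * ((2 : ℝ) ^ (-(3 * ε * J)) * dl x p)) :
    θ + s ∉ skc 1 ε x := by
  intro hin
  apply hθ
  intro p
  have hJ0 : (0 : ℝ) ≤ J := Nat.cast_nonneg _
  have hE : (0 : ℝ) < (2 : ℝ) ^ (-(ε * J)) := Real.rpow_pos_of_pos (by norm_num) _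
  have hE' : (0 : ℝ) < (2 : ℝ) ^ (ε * J) := Real.rpow_pos_of_pos (by norm_num) _
  have hE1 : (1 : ℝ) ≤ (2 : ℝ) ^ (ε * J) := by linarith
  have hE2 : (2 : ℝ) ^ (-(ε * J)) ≤ 1 :=
    Real.rpow_le_one_of_one_le_of_nonpos (by norm_num) (by nlinarith [mul_nonneg hε.le hJ0])
  have hEE : (2 : ℝ) ^ (-(ε * J)) * (2 : ℝ) ^ (ε * J) = 1 := by
    rw [← Real.rpow_add (by norm_num), neg_add_cancel, Real.rpow_zero]
  obtain ⟨h1, h2⟩ := hin p
  have h33 : (2 : ℝ) ^ (-(3 * ε * J)) =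
      (2 : ℝ) ^ (-(ε * J)) * (2 : ℝ) ^ (-(ε * J)) * (2 : ℝ) ^ (-(ε * J)) := by
    rw [← Real.rpow_add (by norm_num), ← Real.rpow_add (by norm_num)]
    congr 1
    ring
  have hDE : D * (2 : ℝ) ^ (-(ε * J)) ≤ 1 / 2 := by
    have := mul_le_mul_of_nonneg_left hJD hE.le
    rw [hEE] at this
    linarith
  have hd0 : 0 < dl x p := by
    unfold dl
    positivity
  have hds : D * ((2 : ℝ) ^ (-(3 * ε * J)) * dl x p) ≤ 1 / 2 * ((2 : ℝ) ^ (-(ε * J)) * dl x p) := by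
    rw [h33]
    have h3 : (2 : ℝ) ^ (-(ε * J)) * ((2 : ℝ) ^ (-(ε * J)) * dl x p) ≤ (2 : ℝ) ^ (-(ε * J)) * dl x p :=
      mul_le_of_le_one_left (by positivity) hE2
    calc D * ((2 : ℝ) ^ (-(ε * J)) * (2 : ℝ) ^ (-(ε * J)) * (2 : ℝ) ^ (-(ε * J)) * dl x p)
        = (D * (2 : ℝ) ^ (-(ε * J))) * ((2 : ℝ) ^ (-(ε * J)) * ((2 : ℝ) ^ (-(ε * J)) * dl x p)) := by ring
      _ ≤ (1 / 2) * ((2 : ℝ) ^ (-(ε * J)) * dl x p) := mul_le_mul hDE h3 (by positivity) (by norm_num)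
  rw [dz_add, one_mul] at h1 h2
  have h5 := hs p
  have h7 : (2 : ℝ) ^ (-(ε * J)) * dl x p ≤ (2 : ℝ) ^ (ε * J) * dl x p :=
    mul_le_mul_of_nonneg_right (hE2.trans hE1) hd0.le
  constructor
  · have h3 := nd_lip' (dz p.1.1 θ) (dz p.1.1 s)
    have h6 : 0 < (2 : ℝ) ^ (-(ε * J)) * dl x p := by positivity
    nlinarith
  · have h4 := nd_lip (dz p.1.1 θ) (dz p.1.1 s)
    linarith

end KOC

open KOC in
theorem t_KOC : M_KOC := by
  intro hQUAD hPRM hRGM _ hKLO r Φ B hr hI hW m C₁ C₂ ε A hm hCFF hC₂ hε hA hnA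
  have hP := hPRM r Φ B hr hI hW
  have hR := hRGM r Φ B hr hI hW
  obtain ⟨-, hQF, hAT, hQQ, -⟩ := hQUAD r Φ B hI hW
  -- a bound for the vectors
  obtain ⟨M, hM0, hMκ, hMy, hMc⟩ : ∃ M : ℝ, 0 ≤ M ∧
      (∀ S ∈ (pos Φ).powerset, ∀ i, |(kp S i : ℝ)| ≤ M) ∧
      (∀ a : {p // p ∈ pos Φ}, ∀ S ∈ (pos Φ).powerset, ∀ i,
        2 * |((((rd Φ).A *ᵥ a.1.1) i : ℤ) : ℝ)| + 2 * |((((rd Φ).A *ᵥ kp S) i : ℤ) : ℝ)| ≤ M) ∧
      ∀ S ∈ (pos Φ).powerset, 2 * |((rd Φ).Q (kp S) : ℝ) - (rd Φ).Q 1| ≤ M := by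
    set f₁ : RT r → ℝ := fun S => ∑ i, |(kp S i : ℝ)| with hf₁
    set f₂ : {p // p ∈ pos Φ} → ℝ := fun a => ∑ i, 2 * |((((rd Φ).A *ᵥ a.1.1) i : ℤ) : ℝ)| with hf₂
    set f₃ : RT r → ℝ := fun S => ∑ i, 2 * |((((rd Φ).A *ᵥ kp S) i : ℤ) : ℝ)| with hf₃
    set f₄ : RT r → ℝ := fun S => 2 * |((rd Φ).Q (kp S) : ℝ) - (rd Φ).Q 1| with hf₄
    have h₁ : ∀ S, 0 ≤ f₁ S := fun S => by rw [hf₁]; positivity
    have h₂ : ∀ a, 0 ≤ f₂ a := fun a => by rw [hf₂]; positivity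
    have h₃ : ∀ S, 0 ≤ f₃ S := fun S => by rw [hf₃]; positivity
    have h₄ : ∀ S, 0 ≤ f₄ S := fun S => by rw [hf₄]; positivity
    have hs₁ : 0 ≤ ∑ S ∈ (pos Φ).powerset, f₁ S := Finset.sum_nonneg fun S _ => h₁ S
    have hs₂ : 0 ≤ ∑ a, f₂ a := Finset.sum_nonneg fun S _ => h₂ S
    have hs₃ : 0 ≤ ∑ S ∈ (pos Φ).powerset, f₃ S := Finset.sum_nonneg fun S _ => h₃ S
    have hs₄ : 0 ≤ ∑ S ∈ (pos Φ).powerset, f₄ S := Finset.sum_nonneg fun S _ => h₄ S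
    refine ⟨∑ S ∈ (pos Φ).powerset, f₁ S + ∑ a, f₂ a + ∑ S ∈ (pos Φ).powerset, f₃ S +
      ∑ S ∈ (pos Φ).powerset, f₄ S, by positivity, fun S hS i => ?_, fun a S hS i => ?_, fun S hS => ?_⟩
    · have e1 : |(kp S i : ℝ)| ≤ f₁ S :=
        Finset.single_le_sum (f := fun i => |(kp S i : ℝ)|) (fun _ _ => abs_nonneg _) (Finset.mem_univ i)
      have e2 : f₁ S ≤ ∑ S ∈ (pos Φ).powerset, f₁ S :=
        Finset.single_le_sum (f := f₁) (fun S _ => h₁ S) hS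
      linarith
    · have e1 : 2 * |((((rd Φ).A *ᵥ a.1.1) i : ℤ) : ℝ)| ≤ f₂ a :=
        Finset.single_le_sum (f := fun i => 2 * |((((rd Φ).A *ᵥ a.1.1) i : ℤ) : ℝ)|)
          (fun _ _ => by positivity) (Finset.mem_univ i)
      have e2 : f₂ a ≤ ∑ a, f₂ a :=
        Finset.single_le_sum (f := f₂) (fun S _ => h₂ S) (Finset.mem_univ a)
      have e3 : 2 * |((((rd Φ).A *ᵥ kp S) i : ℤ) : ℝ)| ≤ f₃ S :=
        Finset.single_le_sum (f := fun i => 2 * |((((rd Φ).A *ᵥ kp S) i : ℤ) : ℝ)|)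
          (fun _ _ => by positivity) (Finset.mem_univ i)
      have e4 : f₃ S ≤ ∑ S ∈ (pos Φ).powerset, f₃ S :=
        Finset.single_le_sum (f := f₃) (fun S _ => h₃ S) hS
      linarith
    · have e2 : f₄ S ≤ ∑ S ∈ (pos Φ).powerset, f₄ S :=
        Finset.single_le_sum (f := f₄) (fun S _ => h₄ S) hS
      linarith
  obtain ⟨C, hC, hK⟩ := hKLO r Φ B hr hI hW m C₁ M hm hCFF hM0
  -- the constant for the number of the terms
  set W : ℝ := 2 ^ (pos Φ).card * Real.exp M with hWdef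
  have hW0 : 0 < W := by positivity
  -- the constant for the shifts
  set D : ℝ := 1 + C₂ * ∑ p : {p // p ∈ pos Φ}, ∑ i, |(p.1.1 i : ℝ)| with hD
  have hD1 : 1 ≤ D := by
    have : 0 ≤ C₂ * ∑ p : {p // p ∈ pos Φ}, ∑ i, |(p.1.1 i : ℝ)| := by positivity
    linarith
  have hp4 : (1 : ℝ) ≤ 4 ^ m := one_le_pow₀ (by norm_num)
  set C' : ℝ := 2 * C₂ * (W * C) + 2 * C₂ * (W * (C * 4 ^ m)) + 2 * C₂ * (W * C) * (2 * D) ^ (2 * m) with hC'
  have hC'0 : 0 ≤ C' := by positivity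
  have hc2 : 2 * C₂ * (W * C) ≤ C' := by
    have h2 : 0 ≤ 2 * C₂ * (W * (C * 4 ^ m)) := by positivity
    have h3 : 0 ≤ 2 * C₂ * (W * C) * (2 * D) ^ (2 * m) := by positivity
    linarith
  have hc3 : 2 * C₂ * (W * (C * 4 ^ m)) ≤ C' := by
    have h2 : 0 ≤ 2 * C₂ * (W * C) := by positivity
    have h3 : 0 ≤ 2 * C₂ * (W * C) * (2 * D) ^ (2 * m) := by positivity
    linarith
  have hc4 : 2 * C₂ * (W * C) * (2 * D) ^ (2 * m) ≤ C' := by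
    have h2 : 0 ≤ 2 * C₂ * (W * C) := by positivity
    have h3 : 0 ≤ 2 * C₂ * (W * (C * 4 ^ m)) := by positivity
    linarith
  refine ⟨C', hC'0, fun J q a x T R Ψ ν₁ ν₂ hJ hq hx hT hFM hRR τ θ => ?_⟩
  have hJ0 : (0 : ℝ) < J := by exact_mod_cast (lt_of_lt_of_le one_pos hJ)
  have hAJ : (0 : ℝ) < (2 : ℝ) ^ (-(A * J)) := Real.rpow_pos_of_pos (by norm_num) _
  -- the larger set
  classical
  obtain ⟨T', hTT, hT'⟩ : ∃ T' : Finset (Fin r → ℤ), T ⊆ T' ∧ ∀ (τ : ℝ), ∀ S ∈ (pos Φ).powerset, ∀ l,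
      nx Φ m J q x τ (l + kp S) ≠ 0 → l ∈ T' := by
    refine ⟨T ∪ (pos Φ).powerset.biUnion fun S => (kB Φ (2 * m ^ 2 * 2 ^ J)).biUnion fun k =>
      (cb r (2 ^ J)).image fun l => l + rs (pos Φ) k - kp S, Finset.subset_union_left,
      fun τ S hS l hl => ?_⟩
    obtain ⟨k, hk, l', hl', e⟩ := nx_supp hI hq hl
    refine Finset.mem_union_right _ (Finset.mem_biUnion.2 ⟨S, hS, Finset.mem_biUnion.2
      ⟨k, hk, Finset.mem_image.2 ⟨l', hl', ?_⟩⟩⟩)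
    rw [← e]
    abel
  have hth0 := hP.tpos J x
  have hth := hP.tle J x
  have h2J : (1 : ℝ) / 2 ^ J ≤ 1 := by
    rw [div_le_one (by positivity)]
    exact one_le_pow₀ (by norm_num)
  have htc := hR.tp J a x
  have hcs : ∀ S ∈ (pos Φ).powerset, cs Φ (th x) S ≤ M := by
    intro S hS
    refine le_trans ?_ (hMc S hS)
    unfold cs
    have h1 : ((rd Φ).Q (kp S) : ℝ) - (rd Φ).Q 1 ≤ |((rd Φ).Q (kp S) : ℝ) - (rd Φ).Q 1| := le_abs_self _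
    have h2 : 0 ≤ |((rd Φ).Q (kp S) : ℝ) - (rd Φ).Q 1| := abs_nonneg _
    calc 2 * th x * (((rd Φ).Q (kp S) : ℝ) - (rd Φ).Q 1)
        ≤ 2 * th x * |((rd Φ).Q (kp S) : ℝ) - (rd Φ).Q 1| :=
          mul_le_mul_of_nonneg_left h1 (by positivity)
      _ ≤ 2 * 1 * |((rd Φ).Q (kp S) : ℝ) - (rd Φ).Q 1| :=
          mul_le_mul_of_nonneg_right (by linarith) h2
      _ = _ := by ring
  have hsw : ∀ (τ : ℝ) (θ : Fin r → ℝ), ∀ S ∈ (pos Φ).powerset, ∀ p : {p // p ∈ pos Φ},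
      ‖sw Φ m J q a x T' τ θ S‖ * (1 + 2 ^ (x p).val * nd (dz p.1.1 θ)) ^ (2 * m) ≤
          C * (2 : ℝ) ^ (J * ((pos Φ).card + r)) ∧
      ((x p).val < J → ‖sw Φ m J q a x T' τ θ S‖ ≤ C * (2 : ℝ) ^ (J * ((pos Φ).card + r)) *
          (2 ^ (x p).val * (nd (dz p.1.1 θ) + 1 / 2 ^ J)) ^ (2 * m)) := by
    intro τ θ S hS p
    refine hK J q x τ θ (ys Φ a.1 (th x) (tc a x) S) (kp S) T' hq ?_ (hMκ S hS) (hT' τ S hS) p
    intro i
    unfold ys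
    have hsn : |sn a.1 S| = 1 := by
      unfold sn
      split_ifs
      · rw [abs_neg, abs_one]
      · rw [abs_one]
    have h1 : |tc a x - th x| ≤ 2 * (1 / 2 ^ J) := by
      rw [abs_le]
      constructor <;> linarith [htc.1, htc.2]
    have h2 : |2 * th x| ≤ 2 * (1 / 2 ^ J) := by
      rw [abs_of_pos (by positivity)]
      linarith
    have h3 : 0 ≤ (1 : ℝ) / 2 ^ J := by positivity
    calc |(tc a x - th x) * sn a.1 S * ((((rd Φ).A *ᵥ a.1.1) i : ℤ) : ℝ) +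
          2 * th x * ((((rd Φ).A *ᵥ kp S) i : ℤ) : ℝ)|
        ≤ |tc a x - th x| * |((((rd Φ).A *ᵥ a.1.1) i : ℤ) : ℝ)| +
          |2 * th x| * |((((rd Φ).A *ᵥ kp S) i : ℤ) : ℝ)| := by
          refine (abs_add_le _ _).trans ?_
          rw [abs_mul, abs_mul, hsn, mul_one, abs_mul (2 * th x)]
      _ ≤ 2 * (1 / 2 ^ J) * |((((rd Φ).A *ᵥ a.1.1) i : ℤ) : ℝ)| +
          2 * (1 / 2 ^ J) * |((((rd Φ).A *ᵥ kp S) i : ℤ) : ℝ)| :=
          add_le_add (mul_le_mul_of_nonneg_right h1 (abs_nonneg _))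
            (mul_le_mul_of_nonneg_right h2 (abs_nonneg _))
      _ = (1 / 2 ^ J) * (2 * |((((rd Φ).A *ᵥ a.1.1) i : ℤ) : ℝ)| +
          2 * |((((rd Φ).A *ᵥ kp S) i : ℤ) : ℝ)|) := by ring
      _ ≤ (1 / 2 ^ J) * M := mul_le_mul_of_nonneg_left (hMy a S hS i) h3
      _ = M / 2 ^ J := by ring
  obtain ⟨p₀, -⟩ := hP.bat J x
  have hk1 : ∀ (τ : ℝ) (θ : Fin r → ℝ), ‖km (lac Φ m J q a x) T (fun _ => 1) τ θ‖ ≤
      W * (C * (2 : ℝ) ^ (J * ((pos Φ).card + r))) := by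
    intro τ θ
    rw [km_mono hT hTT]
    refine km_le hW hQF hAT hQQ m J q a x T' τ θ _ M hcs fun S hS => ?_
    refine le_trans ?_ (hsw τ θ S hS p₀).1
    refine le_mul_of_one_le_right (norm_nonneg _) (one_le_pow₀ ?_)
    have h1 := nd_nn (dz p₀.1.1 θ)
    have h2 : 0 ≤ (2 : ℝ) ^ (x p₀).val * nd (dz p₀.1.1 θ) := by positivity
    linarith
  have hk2 : ∀ (τ : ℝ) (θ : Fin r → ℝ), θ ∉ skc 1 ε x → ‖km (lac Φ m J q a x) T (fun _ => 1) τ θ‖ ≤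
      W * (C * 4 ^ m * (2 : ℝ) ^ (-(A * J))) := by
    intro τ θ hθ
    rw [km_mono hT hTT]
    exact km_le hW hQF hAT hQQ m J q a x T' τ θ _ M hcs fun S hS =>
      out_le hR hJ hε hC hx hnA hθ _ (hsw τ θ S hS)
  have hk3 : ‖km (lac Φ m J q a x) T Ψ τ θ‖ ≤
      2 * C₂ * (W * (C * (2 : ℝ) ^ (J * ((pos Φ).card + r)))) :=
    km_int_le _ T hFM τ θ _ (by positivity) fun s _ => hk1 τ (θ + s)
  refine ⟨hk3.trans ?_, fun hθ => ?_⟩
  · calc 2 * C₂ * (W * (C * (2 : ℝ) ^ (J * ((pos Φ).card + r))))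
        = 2 * C₂ * (W * C) * (2 : ℝ) ^ (J * ((pos Φ).card + r)) := by ring
      _ ≤ _ := mul_le_mul_of_nonneg_right hc2 (by positivity)
  · rcases le_or_gt (2 * D) ((2 : ℝ) ^ (ε * J)) with hbig | hsmall
    · refine (km_int_le _ T hFM τ θ (W * (C * 4 ^ m * (2 : ℝ) ^ (-(A * J)))) (by positivity)
        fun s hs => ?_).trans ?_
      · refine hk2 τ (θ + s) (shift_out hε hD1 hbig hθ fun p => ?_)
        have hdp := hP.dpos J x p
        have hda := hP.dpos J x a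
        have h3e : (0 : ℝ) < (2 : ℝ) ^ (-(3 * ε * J)) := Real.rpow_pos_of_pos (by norm_num) _
        have hRp : R ≤ (2 : ℝ) ^ (-(3 * ε * J)) * dl x p :=
          hRR.trans (mul_le_mul_of_nonneg_left (hx.mn p) h3e.le)
        have h1 : |dz p.1.1 s| ≤ ∑ i, |(p.1.1 i : ℝ)| * (C₂ * ((2 : ℝ) ^ (-(3 * ε * J)) * dl x p)) := by
          unfold dz
          refine (Finset.abs_sum_le_sum_abs _ _).trans (Finset.sum_le_sum fun i _ => ?_)
          rw [abs_mul]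
          exact mul_le_mul_of_nonneg_left ((hs i).trans (mul_le_mul_of_nonneg_left hRp hC₂))
            (abs_nonneg _)
        rw [← Finset.sum_mul] at h1
        have h2 : ∑ i, |(p.1.1 i : ℝ)| ≤ ∑ p : {p // p ∈ pos Φ}, ∑ i, |(p.1.1 i : ℝ)| :=
          Finset.single_le_sum (f := fun p : {p // p ∈ pos Φ} => ∑ i, |(p.1.1 i : ℝ)|)
            (fun p _ => Finset.sum_nonneg fun i _ => abs_nonneg _) (Finset.mem_univ p)
        have h30 : 0 ≤ (2 : ℝ) ^ (-(3 * ε * J)) * dl x p := by positivity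
        calc |dz p.1.1 s| ≤ (∑ i, |(p.1.1 i : ℝ)|) * (C₂ * ((2 : ℝ) ^ (-(3 * ε * J)) * dl x p)) := h1
          _ ≤ (∑ p : {p // p ∈ pos Φ}, ∑ i, |(p.1.1 i : ℝ)|) *
              (C₂ * ((2 : ℝ) ^ (-(3 * ε * J)) * dl x p)) :=
              mul_le_mul_of_nonneg_right h2 (by positivity)
          _ = (D - 1) * ((2 : ℝ) ^ (-(3 * ε * J)) * dl x p) := by
              rw [hD]
              ring
          _ ≤ D * ((2 : ℝ) ^ (-(3 * ε * J)) * dl x p) :=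
              mul_le_mul_of_nonneg_right (by linarith) h30
      · calc 2 * C₂ * (W * (C * 4 ^ m * (2 : ℝ) ^ (-(A * J))))
            = 2 * C₂ * (W * (C * 4 ^ m)) * (2 : ℝ) ^ (-(A * J)) := by ring
          _ ≤ _ := mul_le_mul_of_nonneg_right hc3 hAJ.le
    · refine hk3.trans ?_
      have hE : (0 : ℝ) < (2 : ℝ) ^ (-(ε * J)) := Real.rpow_pos_of_pos (by norm_num) _
      have hE' : (0 : ℝ) < (2 : ℝ) ^ (ε * J) := Real.rpow_pos_of_pos (by norm_num) _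
      have hEE : (2 : ℝ) ^ (-(ε * J)) * (2 : ℝ) ^ (ε * J) = 1 := by
        rw [← Real.rpow_add (by norm_num), neg_add_cancel, Real.rpow_zero]
      have h1 : (2 : ℝ) ^ (J * ((pos Φ).card + r)) ≤ (2 : ℝ) ^ (-(A * J)) * (2 * D) ^ (2 * m) := by
        have h2 := two_pow (J := J) hnA
        have h3 : (1 : ℝ) ≤ (2 * D * (2 : ℝ) ^ (-(ε * J))) ^ (2 * m) := by
          refine one_le_pow₀ ?_
          have h4 := mul_le_mul_of_nonneg_left hsmall.le hE.le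
          rw [hEE] at h4
          linarith
        rw [mul_pow] at h3
        have h5 : (0 : ℝ) < (2 : ℝ) ^ (J * ((pos Φ).card + r)) := by positivity
        calc (2 : ℝ) ^ (J * ((pos Φ).card + r))
            ≤ (2 : ℝ) ^ (J * ((pos Φ).card + r)) * ((2 * D) ^ (2 * m) * ((2 : ℝ) ^ (-(ε * J))) ^ (2 * m)) :=
              le_mul_of_one_le_right h5.le h3
          _ = ((2 : ℝ) ^ (J * ((pos Φ).card + r)) * ((2 : ℝ) ^ (-(ε * J))) ^ (2 * m)) * (2 * D) ^ (2 * m) := by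
              ring
          _ ≤ _ := mul_le_mul_of_nonneg_right h2 (by positivity)
      calc 2 * C₂ * (W * (C * (2 : ℝ) ^ (J * ((pos Φ).card + r))))
          ≤ 2 * C₂ * (W * (C * ((2 : ℝ) ^ (-(A * J)) * (2 * D) ^ (2 * m)))) :=
            mul_le_mul_of_nonneg_left (mul_le_mul_of_nonneg_left
              (mul_le_mul_of_nonneg_left h1 hC) hW0.le) (by positivity)
        _ = 2 * C₂ * (W * C) * (2 * D) ^ (2 * m) * (2 : ℝ) ^ (-(A * J)) := by ring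
        _ ≤ _ := mul_le_mul_of_nonneg_right hc4 hAJ.le

end

end STZ3
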