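import Pool.Agent.STZ3.StC3
import Pool.Agent.STZ3.L2W

/-!
# L2A: the square of the packet transform, abstract version (helper80)

The lemmas on compact groups are those of `L2W.lean`.
-/

set_option autoImplicit false

namespace STZ3

open STZ LGR MeasureTheory Matrix Filter

open scoped ComplexConjugate Matrix Real Topology

noncomputable section

namespace L2A

/-- there is an irreducible polynomial representation -/
theorem exists_irr (hTE : S_TENH) (hPF : S_PFFX) (hDP : S_DECP) {N : ℕ} {H : Subgroup (SU N)}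
    (hcl : IsClosed (H : Set (SU N))) : ∃ (n : ℕ) (σ : Rep H (Fin n)), σ.Irr ∧ PRep σ := by
  have hmem : (fun g : H => (∏ s : Fin 0, g.1.1 (Fin.elim0 s : Fin N) (Fin.elim0 s)) *
      ∏ s : Fin 0, conj (g.1.1 (Fin.elim0 s : Fin N) (Fin.elim0 s))) ∈ PF H :=
    (hPF N H hcl).mono 0 0 _ _ _ _
  have h1 := L2W.pf_span hTE hPF hDP hcl hmem
  by_contra hno
  have hES : L2W.ES H = ∅ := by
    rw [Set.eq_empty_iff_forall_notMem]
    rintro f ⟨n, σ, p, q, hσ, hσp, -⟩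
    exact hno ⟨n, σ, hσ, hσp⟩
  rw [hES, Submodule.span_empty, Submodule.mem_bot] at h1
  have h2 := congrFun h1 1
  simp at h2

end L2A

theorem t_L2A : M_L2A := by
  intro hSC hTE hWF hTA hPF hDP hTR hNR N H r Φ B Hc E c k d hX μ _ _ κ hκp ν₁ ν₂ hν₁ hν₂ b hDK F hF
  obtain ⟨X, hfr⟩ := hX.frame
  have T : TAF H Φ Hc E := hTA N H r Φ B Hc E hX.closed hX.lrd
  have hcs : CompactSpace H := isCompact_iff_compactSpace.1 hX.closed.isCompact
  have hsec : SecondCountableTopology H :=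
    TopologicalSpace.Subtype.secondCountableTopology (H : Set (SU N))
  have htc : Continuous (tt H Hc) := L2W.tt_cont T
  have hri : μ.IsMulRightInvariant := (t_HAAR H μ).1
  have hn0 : ∀ (n : ℕ) (σ : Rep H (Fin n)), σ.Irr → (0 : ℝ) < (n : ℝ) := by
    intro n σ hσ
    have hn : 0 < n := by
      obtain ⟨i⟩ := hσ.1
      exact i.pos
    exact_mod_cast hn
  have hb0 : 0 ≤ b := by
    obtain ⟨n, σ, hσ, hσp⟩ := L2A.exists_irr hTE hPF hDP hX.closed
    obtain ⟨l, hl⟩ := hNR N H r Φ B Hc E c k d X hX.one_le hX.closed hX.conn hX.lrd hX.kc hfr n σ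
      hσ hσp
    obtain ⟨U, m, e, -, -, h1⟩ := hDK n σ l hσ hσp hl
    have h2 : 0 ≤ b * n := le_trans (Finset.sum_nonneg fun j _ => by positivity) h1
    exact nonneg_of_mul_nonneg_left h2 (hn0 n σ hσ)
  set ω₁ := L2W.om Hc ν₁ κ with hω₁
  set ω₂ := L2W.om Hc ν₂ κ with hω₂
  have f1 : IsFiniteMeasure ω₁ := L2W.om_fin ν₁ κ
  have f2 : IsFiniteMeasure ω₂ := L2W.om_fin ν₂ κ
  -- the bound for one representation
  have hrep : ∀ (n : ℕ) (σ : Rep H (Fin n)), σ.Irr → PRep σ →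
      (∑ b', ∑ a', ‖L2W.MM ω₁ ω₂ σ a' b'‖ ^ 2) / (Fintype.card (Fin n) : ℝ) ≤ b := by
    intro n σ hσ hσp
    obtain ⟨l, hl⟩ := hNR N H r Φ B Hc E c k d X hX.one_le hX.closed hX.conn hX.lrd hX.kc hfr n σ
      hσ hσp
    obtain ⟨U, m, e, hW, hKe, hCb⟩ := hDK n σ l hσ hσp hl
    have hU2 := hW.ru
    have hce : ∀ i j, Continuous fun g => σ.ρ g i j := fun i j => σ.cont.matrix_elem i j
    set kk : Fin n → ℂ := fun j => ((e j : ℝ) : ℂ) with hkk
    set ps : Fin n → ℂ := fun j => ∫ s, eu (dz (m j) s) ∂ν₁ - ∫ s, eu (dz (m j) s) ∂ν₂ with hps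
    have hK : ∀ i j, ∫ x, σ.ρ x i j ∂κ = (U * Matrix.diagonal kk * Uᴴ) i j := hKe
    have hone : ∀ (ν : Measure (Fin r → ℝ)) [IsFiniteMeasure ν] (a e : Fin n),
        ∫ x, σ.ρ x a e ∂(L2W.om Hc ν κ) =
          (U * Matrix.diagonal (fun j => (∫ s, eu (dz (m j) s) ∂ν) * kk j) * Uᴴ) a e := by
      intro ν _ a e
      rw [L2W.om_int htc ν κ _ (hce a e)]
      have e1 : ∀ s, ∫ z, σ.ρ (tt H Hc s * z) a e ∂κ =
          ∑ q, σ.ρ (tt H Hc s) a q * (U * Matrix.diagonal kk * Uᴴ) q e := by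
        intro s
        have e2 : ∀ z, σ.ρ (tt H Hc s * z) a e = ∑ q, σ.ρ (tt H Hc s) a q * σ.ρ z q e := by
          intro z
          rw [map_mul, Matrix.mul_apply]
        simp only [e2]
        rw [integral_finsetSum _ fun q _ => (L2W.cint κ (hce q e)).const_mul _]
        refine Finset.sum_congr rfl fun q _ => ?_
        rw [integral_const_mul, hK]
      simp only [e1]
      have hi : ∀ q, Integrable (fun s => σ.ρ (tt H Hc s) a q) ν := by
        intro q
        obtain ⟨S, hS⟩ := (isCompact_univ (X := H)).exists_bound_of_continuousOn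
          (hce a q).continuousOn
        exact Integrable.of_bound ((hce a q).comp htc).aestronglyMeasurable S
          (Eventually.of_forall fun x => hS _ (Set.mem_univ _))
      rw [integral_finsetSum _ fun q _ => (hi q).mul_const _]
      have e3 : ∑ q, ∫ s, σ.ρ (tt H Hc s) a q * (U * Matrix.diagonal kk * Uᴴ) q e ∂ν =
          ((U * Matrix.diagonal (fun j => ∫ s, eu (dz (m j) s) ∂ν) * Uᴴ) *
            (U * Matrix.diagonal kk * Uᴴ)) a e := by
        rw [Matrix.mul_apply]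
        refine Finset.sum_congr rfl fun q _ => ?_
        rw [integral_mul_const, L2W.tor_int T hW ν a q]
      have e4 : U * Matrix.diagonal (fun j => ∫ s, eu (dz (m j) s) ∂ν) * Uᴴ *
            (U * Matrix.diagonal kk * Uᴴ) =
          U * Matrix.diagonal (fun j => (∫ s, eu (dz (m j) s) ∂ν) * kk j) * Uᴴ := by
        calc U * Matrix.diagonal (fun j => ∫ s, eu (dz (m j) s) ∂ν) * Uᴴ *
              (U * Matrix.diagonal kk * Uᴴ)
            = U * Matrix.diagonal (fun j => ∫ s, eu (dz (m j) s) ∂ν) * (Uᴴ * U) *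
              Matrix.diagonal kk * Uᴴ := by simp only [Matrix.mul_assoc]
          _ = U * (Matrix.diagonal (fun j => ∫ s, eu (dz (m j) s) ∂ν) * Matrix.diagonal kk) * Uᴴ := by
            rw [hU2, Matrix.mul_one]
            simp only [Matrix.mul_assoc]
          _ = _ := by rw [Matrix.diagonal_mul_diagonal]
      rw [e3, e4]
    have hMM : (fun a' b' => L2W.MM ω₁ ω₂ σ a' b') =
        U * Matrix.diagonal (fun j => ps j * kk j) * Uᴴ := by
      funext a' b'
      unfold L2W.MM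
      have e5 : (fun j => (∫ s, eu (dz (m j) s) ∂ν₁) * kk j - (∫ s, eu (dz (m j) s) ∂ν₂) * kk j) =
          fun j => ps j * kk j := by
        funext j
        simp only [hps]
        ring
      rw [hω₁, hω₂, hone ν₁, hone ν₂, ← Matrix.sub_apply, ← Matrix.sub_mul, ← Matrix.mul_sub,
        Matrix.diagonal_sub, e5]
    have e1 : ∑ b', ∑ a', ‖L2W.MM ω₁ ω₂ σ a' b'‖ ^ 2 = ∑ j, ‖ps j * kk j‖ ^ 2 :=
      L2W.hs_sum hU2 (fun j => ps j * kk j) hMM
    rw [e1, Fintype.card_fin, div_le_iff₀ (hn0 n σ hσ)]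
    refine le_trans (le_of_eq (Finset.sum_congr rfl fun j _ => ?_)) hCb
    rw [norm_mul, mul_pow, mul_comm]
    have h2 : ‖kk j‖ ^ 2 = e j ^ 2 := by
      simp only [hkk]
      rw [Complex.norm_real, Real.norm_eq_abs, sq_abs]
    rw [h2]
  -- the inequality for polynomial functions
  have hpol : ∀ P ∈ PF H, ∫ y : H × H, ‖L2W.Wt ω₁ ω₂ P y‖ ^ 2 ∂(μ.prod μ) ≤
      b * ∫ g, ‖P g‖ ^ 2 ∂μ := by
    intro P hP
    obtain ⟨m, a, f, hf⟩ := Submodule.mem_span_set'.1 (L2W.pf_span hTE hPF hDP hX.closed hP)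
    choose M σ p q h1 h2 h3 using fun k => (f k).2
    have hPe : P = fun g => ∑ k, a k * (σ k).ρ g (p k) (q k) := by
      funext g
      rw [← hf, Finset.sum_apply]
      refine Finset.sum_congr rfl fun k _ => ?_
      rw [Pi.smul_apply, smul_eq_mul, h3 k]
    rw [hPe]
    refine L2W.comb μ ω₁ ω₂ Finset.univ a (fun k g => (σ k).ρ g (p k) (q k))
      (fun k => (σ k).cont.matrix_elem _ _)
      (fun k => (∑ b', ∑ a', ‖L2W.MM ω₁ ω₂ (σ k) a' b'‖ ^ 2) / (Fintype.card (Fin (M k)) : ℝ))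
      b (fun k => hrep (M k) (σ k) (h1 k) (h2 k)) ?_
    intro k l
    exact L2W.main hSC μ ω₁ ω₂ (σ k) (h1 k) (p k) (q k) _ ((σ l).cont.matrix_elem _ _)
  have hfin := L2W.dens μ ω₁ ω₂ (b := b) hb0 F hF (by
    intro ε hε
    obtain ⟨P, hP1, hP2⟩ := (hPF N H hX.closed).dense F hF ε hε
    exact ⟨P, ((hPF N H hX.closed).c2 P hP1).1.cont, hP2, hpol P hP1⟩)
  have hcF : ∀ (h g : H) (ν : Measure (Fin r → ℝ)) [IsFiniteMeasure ν],
      ∫ s, VV κ h F (g * tt H Hc s) ∂ν = ∫ x, F (g * x * h⁻¹) ∂(L2W.om Hc ν κ) := by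
    intro h g ν _
    rw [L2W.om_int htc ν κ (fun x => F (g * x * h⁻¹))
      (hF.comp ((continuous_const.mul continuous_id).mul continuous_const))]
    refine integral_congr_ae (Eventually.of_forall fun s => ?_)
    show ∫ z, F (g * tt H Hc s * z * h⁻¹) ∂κ = ∫ z, F (g * (tt H Hc s * z) * h⁻¹) ∂κ
    refine integral_congr_ae (Eventually.of_forall fun z => ?_)
    show F (g * tt H Hc s * z * h⁻¹) = F (g * (tt H Hc s * z) * h⁻¹)
    rw [mul_assoc g (tt H Hc s) z]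
  have hWc : Continuous fun y : H × H => ‖L2W.Wt ω₁ ω₂ F y‖ ^ 2 :=
    (L2W.wt_cont ω₁ ω₂ hF).norm.pow 2
  have hWi : Integrable (fun y : H × H => ‖L2W.Wt ω₁ ω₂ F y‖ ^ 2) (μ.prod μ) :=
    hWc.integrable_of_hasCompactSupport (HasCompactSupport.of_compactSpace _)
  rw [integral_prod _ hWi] at hfin
  refine le_trans (le_of_eq ?_) hfin
  refine integral_congr_ae (Eventually.of_forall fun h => ?_)
  show ∫ g, ‖∫ s, VV κ h F (g * tt H Hc s) ∂ν₁ - ∫ s, VV κ h F (g * tt H Hc s) ∂ν₂‖ ^ 2 ∂μ =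
    ∫ g, ‖L2W.Wt ω₁ ω₂ F (h, g)‖ ^ 2 ∂μ
  refine integral_congr_ae (Eventually.of_forall fun g => ?_)
  show ‖∫ s, VV κ h F (g * tt H Hc s) ∂ν₁ - ∫ s, VV κ h F (g * tt H Hc s) ∂ν₂‖ ^ 2 =
    ‖L2W.Wt ω₁ ω₂ F (h, g)‖ ^ 2
  rw [hcF h g ν₁, hcF h g ν₂]
  rfl

end

end STZ3
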