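import Pool.Agent.STZ3.StC3

/-!
# STZ3, module L2C: the `L²` bound for the chain packets (helper84)
-/

set_option autoImplicit false

namespace STZ3

open STZ LGR MeasureTheory Matrix Filter

open scoped ComplexConjugate Matrix Real Topology

noncomputable section

namespace L2C

/-- the values of the form on an `a`-string -/
theorem ident {r : ℕ} {Φ : RT r} {a : (Fin r → ℤ) × (Fin r → ℤ)}
    (hsym : (rd Φ).Aᵀ = (rd Φ).A)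
    (hq : ∀ l, l ⬝ᵥ ((rd Φ).A *ᵥ l) = 2 * (rd Φ).Q l)
    (h2 : a.2 ⬝ᵥ a.1 = 2)
    (hr : ∀ l, 2 * (a.1 ⬝ᵥ ((rd Φ).A *ᵥ l)) = (a.2 ⬝ᵥ l) * (a.1 ⬝ᵥ ((rd Φ).A *ᵥ a.1)))
    (τ : Fin r → ℤ) (i : ℤ) :
    qa Φ a (τ - i • a.1) (a.2 ⬝ᵥ τ + 1) = CL Φ a τ - ((rd Φ).Q (τ - i • a.1) : ℝ) := by
  have e1 : a.1 ⬝ᵥ ((rd Φ).A *ᵥ τ) = (a.2 ⬝ᵥ τ) * (rd Φ).Q a.1 := by
    have h3 := hr τ
    rw [hq] at h3
    have h4 : 2 * (a.1 ⬝ᵥ ((rd Φ).A *ᵥ τ)) = 2 * ((a.2 ⬝ᵥ τ) * (rd Φ).Q a.1) := by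
      rw [h3]; ring
    exact mul_left_cancel₀ two_ne_zero h4
  have e2 : τ ⬝ᵥ ((rd Φ).A *ᵥ a.1) = a.1 ⬝ᵥ ((rd Φ).A *ᵥ τ) := by
    rw [Matrix.dotProduct_mulVec, ← Matrix.mulVec_transpose, hsym, dotProduct_comm]
  have e3 : (rd Φ).Q (τ - i • a.1) = (rd Φ).Q τ - i * ((a.2 ⬝ᵥ τ) * (rd Φ).Q a.1) +
      i ^ 2 * (rd Φ).Q a.1 := by
    have h3 := hq (τ - i • a.1)
    rw [Matrix.mulVec_sub, Matrix.mulVec_smul, sub_dotProduct, dotProduct_sub, dotProduct_sub,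
      smul_dotProduct, dotProduct_smul, smul_dotProduct, dotProduct_smul, hq, hq, e2, e1] at h3
    simp only [smul_eq_mul] at h3
    have h4 : 2 * (rd Φ).Q (τ - i • a.1) = 2 * ((rd Φ).Q τ - i * ((a.2 ⬝ᵥ τ) * (rd Φ).Q a.1) +
      i ^ 2 * (rd Φ).Q a.1) := by
      rw [← h3]; ring
    exact mul_left_cancel₀ two_ne_zero h4
  have e4 : a.2 ⬝ᵥ (τ - i • a.1) = a.2 ⬝ᵥ τ - 2 * i := by
    rw [dotProduct_sub, dotProduct_smul, h2, smul_eq_mul]; ring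
  unfold qa CL ip
  rw [e3, e4, e1]
  push_cast
  ring

/-- the exponent on an `a`-string -/
theorem ec_eq {r : ℕ} {Φ : RT r} {a : (Fin r → ℤ) × (Fin r → ℤ)} {l : Fin r → ℤ} (t₁ t₂ : ℝ)
    {m : Fin r → ℤ} {x : ℤ} {C : ℝ} (h : qa Φ a m x = C - ((rd Φ).Q m : ℝ)) :
    Real.exp (-(ec Φ a l t₁ t₂ m x)) ^ 2 =
      Real.exp (-(2 * t₁ * (((rd Φ).Q l : ℝ) - (rd Φ).Q 1 - C))) *
        Real.exp (-(2 * t₂ * (C - ((rd Φ).Q m : ℝ)))) := by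
  rw [← Real.exp_nat_mul, ← Real.exp_add]
  congr 1
  unfold ec cq
  rw [h]
  push_cast
  ring

end L2C

/-- The `L²` bound for the chain packets. -/
theorem t_L2C : M_L2C := by
  intro hwf hqd hstr hhmc hglb hl2a N H r Φ B Hc E c k d hCX μ _ _
  have hird := hCX.lrd.ird
  have hW : WFF Φ B := hwf r Φ B hird
  obtain ⟨q1, q2, q3, q4, q5, q6, q7⟩ := hqd r Φ B hird hW
  obtain ⟨C, hC0, hC⟩ := hglb N H r Φ B Hc E c k d hCX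
  refine ⟨C, hC0, ?_⟩
  intro a t₁ t₂ κ ht₁ ht₁' ht₂ hPC ν₁ ν₂ hν₁ hν₂ b hb hst
  have haΦ : a.1 ∈ Φ := (hW.ppos a.1 a.2).1
  refine hl2a N H r Φ B Hc E c k d hCX μ κ hPC.prob ν₁ ν₂ hν₁ hν₂ (C * b) ?_
  intro n σ l hirr hpr hhwr
  obtain ⟨U, ω, x, m, τ, hWS⟩ := hstr N H r Φ B Hc E c k d hCX a n σ hpr
  refine ⟨U, ω, fun j => Real.exp (-(ec Φ a.1 l t₁ t₂ (ω j) (x j))), hWS.wt, ?_, ?_⟩
  · exact hhmc N H r Φ B Hc E c k d hCX a t₁ t₂ κ ht₁.le ht₂ hPC n σ l U ω x m τ hirr hpr hhwr hWS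
  · set Ψ : (Fin r → ℤ) → ℝ := fun v =>
      ‖∫ s, eu (dz v s) ∂ν₁ - ∫ s, eu (dz v s) ∂ν₂‖ ^ 2 with hΨ
    show ∑ j, Real.exp (-(ec Φ a.1 l t₁ t₂ (ω j) (x j))) ^ 2 * Ψ (ω j) ≤ C * b * n
    have h1 : ∑ j, Real.exp (-(ec Φ a.1 l t₁ t₂ (ω j) (x j))) ^ 2 * Ψ (ω j) =
        ∑ s, ∑ i ∈ Finset.range ((a.1.2 ⬝ᵥ τ s).toNat + 1),
          Real.exp (-(ec Φ a.1 l t₁ t₂ (τ s - (i : ℤ) • a.1.1) (a.1.2 ⬝ᵥ τ s + 1))) ^ 2 *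
            Ψ (τ s - (i : ℤ) • a.1.1) := by
      have h2 := hWS.stg.str (fun v y => ((Real.exp (-(ec Φ a.1 l t₁ t₂ v y)) ^ 2 * Ψ v : ℝ) : ℂ))
      have h3 := congrArg Complex.re h2
      simp only [Complex.re_sum, Complex.ofReal_re] at h3
      exact h3
    have h4 : ∀ s, ∑ i ∈ Finset.range ((a.1.2 ⬝ᵥ τ s).toNat + 1),
          Real.exp (-(ec Φ a.1 l t₁ t₂ (τ s - (i : ℤ) • a.1.1) (a.1.2 ⬝ᵥ τ s + 1))) ^ 2 *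
            Ψ (τ s - (i : ℤ) • a.1.1) ≤
        b * (Real.exp (-(2 * t₁ * (((rd Φ).Q l : ℝ) - (rd Φ).Q 1 - CL Φ a.1 (τ s)))) *
          (((a.1.2 ⬝ᵥ τ s : ℤ) : ℝ) + 1) *
          ∏ p ∈ (pos Φ).erase a.1, (1 + t₁ * ((p.2 ⬝ᵥ τ s : ℤ) : ℝ) ^ 2)) := by
      intro s
      have h5 : ∀ i : ℕ, Real.exp (-(ec Φ a.1 l t₁ t₂ (τ s - (i : ℤ) • a.1.1)
            (a.1.2 ⬝ᵥ τ s + 1))) ^ 2 * Ψ (τ s - (i : ℤ) • a.1.1) =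
          Real.exp (-(2 * t₁ * (((rd Φ).Q l : ℝ) - (rd Φ).Q 1 - CL Φ a.1 (τ s)))) *
            (Real.exp (-(2 * t₂ * (CL Φ a.1 (τ s) - (rd Φ).Q (τ s - (i : ℤ) • a.1.1)))) *
              Ψ (τ s - (i : ℤ) • a.1.1)) := by
        intro i
        rw [L2C.ec_eq t₁ t₂ (L2C.ident q3 q4 (hird.two a.1 haΦ) (q7 a.1 haΦ).2 (τ s) (i : ℤ))]
        ring
      rw [Finset.sum_congr rfl fun i _ => h5 i, ← Finset.mul_sum]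
      have h6 := mul_le_mul_of_nonneg_left (hst (τ s) (hWS.stg.nn s))
        (Real.exp_nonneg (-(2 * t₁ * (((rd Φ).Q l : ℝ) - (rd Φ).Q 1 - CL Φ a.1 (τ s)))))
      refine h6.trans (le_of_eq ?_)
      ring
    rw [h1]
    calc ∑ s, ∑ i ∈ Finset.range ((a.1.2 ⬝ᵥ τ s).toNat + 1),
          Real.exp (-(ec Φ a.1 l t₁ t₂ (τ s - (i : ℤ) • a.1.1) (a.1.2 ⬝ᵥ τ s + 1))) ^ 2 *
            Ψ (τ s - (i : ℤ) • a.1.1)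
        ≤ ∑ s, b * (Real.exp (-(2 * t₁ * (((rd Φ).Q l : ℝ) - (rd Φ).Q 1 - CL Φ a.1 (τ s)))) *
          (((a.1.2 ⬝ᵥ τ s : ℤ) : ℝ) + 1) *
          ∏ p ∈ (pos Φ).erase a.1, (1 + t₁ * ((p.2 ⬝ᵥ τ s : ℤ) : ℝ) ^ 2)) :=
          Finset.sum_le_sum fun s _ => h4 s
      _ = b * ∑ s, (Real.exp (-(2 * t₁ * (((rd Φ).Q l : ℝ) - (rd Φ).Q 1 - CL Φ a.1 (τ s)))) *
          (((a.1.2 ⬝ᵥ τ s : ℤ) : ℝ) + 1) *
          ∏ p ∈ (pos Φ).erase a.1, (1 + t₁ * ((p.2 ⬝ᵥ τ s : ℤ) : ℝ) ^ 2)) := by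
          rw [Finset.mul_sum]
      _ ≤ b * (C * n) := mul_le_mul_of_nonneg_left
          (hC a n σ l U ω x m τ hhwr hWS.wt hWS.stg t₁ ht₁ ht₁') hb
      _ = C * b * n := by ring

end

end STZ3
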