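import Pool.Agent.STZ3.StM
import Pool.Agent.STZ.Base

/-!
# Compact simple groups of rank two: module L2N, the `L²` norm
-/

namespace STZ3

open STZ LGR MeasureTheory Matrix Filter

open scoped ComplexConjugate Matrix Real Topology

noncomputable section

namespace L2N

theorem int_cont {α : Type*} [TopologicalSpace α] [CompactSpace α] [MeasurableSpace α]
    [OpensMeasurableSpace α] (μ : Measure α) [IsFiniteMeasure μ]
    (f : α → ℝ) (hf : Continuous f) : Integrable f μ := by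
  obtain ⟨C, hC⟩ := (isCompact_univ (X := α)).exists_bound_of_continuousOn hf.continuousOn
  exact Integrable.of_bound hf.measurable.aestronglyMeasurable C
    (Eventually.of_forall fun x => hC x (Set.mem_univ x))

section

variable {M : Type} [TopologicalSpace M] [CompactSpace M] [SecondCountableTopology M]
  [MeasurableSpace M] [BorelSpace M]

theorem dbl (μ : Measure M) [IsFiniteMeasure μ] (f : M → M → ℝ)
    (hf : Continuous fun p : M × M => f p.1 p.2) :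
    ∫ h, ∫ g, f h g ∂μ ∂μ = ∫ p : M × M, f p.1 p.2 ∂(μ.prod μ) :=
  (integral_prod _ (int_cont (μ.prod μ) _ hf)).symm

theorem split (μ : Measure M) [IsFiniteMeasure μ] (a b c : M → M → ℂ)
    (hb : Continuous fun p : M × M => b p.1 p.2) (hc : Continuous fun p : M × M => c p.1 p.2)
    (h : ∀ x y, a x y = b x y - c x y) :
    ∫ x, ∫ y, ‖a x y‖ ^ 2 ∂μ ∂μ ≤ 2 * ∫ x, ∫ y, ‖b x y‖ ^ 2 ∂μ ∂μ + 2 * ∫ x, ∫ y, ‖c x y‖ ^ 2 ∂μ ∂μ := by
  have ha : Continuous fun p : M × M => a p.1 p.2 := by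
    simp_rw [h]
    exact hb.sub hc
  have ha2 : Continuous fun p : M × M => ‖a p.1 p.2‖ ^ 2 := ha.norm.pow 2
  have hb2 : Continuous fun p : M × M => ‖b p.1 p.2‖ ^ 2 := hb.norm.pow 2
  have hc2 : Continuous fun p : M × M => ‖c p.1 p.2‖ ^ 2 := hc.norm.pow 2
  have ib : Integrable (fun p : M × M => 2 * ‖b p.1 p.2‖ ^ 2) (μ.prod μ) :=
    (int_cont _ _ hb2).const_mul 2
  have ic : Integrable (fun p : M × M => 2 * ‖c p.1 p.2‖ ^ 2) (μ.prod μ) :=
    (int_cont _ _ hc2).const_mul 2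
  rw [dbl μ (fun x y => ‖a x y‖ ^ 2) ha2, dbl μ (fun x y => ‖b x y‖ ^ 2) hb2,
    dbl μ (fun x y => ‖c x y‖ ^ 2) hc2, ← integral_const_mul, ← integral_const_mul,
    ← integral_add ib ic]
  refine integral_mono (int_cont _ _ ha2) (ib.add ic) fun p => ?_
  simp only [h]
  have h1 := norm_sub_le (b p.1 p.2) (c p.1 p.2)
  have h2 := norm_nonneg (b p.1 p.2 - c p.1 p.2)
  nlinarith [sq_nonneg (‖b p.1 p.2‖ - ‖c p.1 p.2‖), norm_nonneg (b p.1 p.2),
    norm_nonneg (c p.1 p.2)]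

omit [CompactSpace M] in
theorem mono_t (μ : Measure M) [IsProbabilityMeasure μ] (G : ℝ → M → ℂ) (hG : JC G)
    (hb : ∀ t y, ‖G t y‖ ≤ 1) (A : ℝ → ℝ) (K : ℝ) (hA : ∀ t, 0 ≤ A t)
    (h : ∀ t, A t ≤ K * ∫ x, ‖G t x‖ ∂μ) :
    ∫ t in (0 : ℝ)..1, A t ≤ K * ∫ t in (0 : ℝ)..1, ∫ x, ‖G t x‖ ∂μ := by
  rw [← intervalIntegral.integral_const_mul, intervalIntegral.integral_of_le zero_le_one,
    intervalIntegral.integral_of_le zero_le_one]
  refine integral_mono_of_nonneg (Eventually.of_forall hA) ?_ (Eventually.of_forall h)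
  refine Integrable.const_mul ?_ K
  have hm : StronglyMeasurable fun t : ℝ => ∫ x, ‖G t x‖ ∂μ := by
    have h1 : Continuous fun z : ℝ × M => ‖G z.1 z.2‖ := (show Continuous fun z : ℝ × M =>
      G z.1 z.2 from hG).norm
    exact h1.stronglyMeasurable.integral_prod_right'
  refine Integrable.of_bound hm.aestronglyMeasurable 1 (Eventually.of_forall fun t => ?_)
  rw [Real.norm_of_nonneg (integral_nonneg fun x => norm_nonneg _)]
  have h2 : ∫ x, ‖G t x‖ ∂μ ≤ ∫ _x : M, (1 : ℝ) ∂μ := by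
    refine integral_mono_of_nonneg (Eventually.of_forall fun x => norm_nonneg _)
      (integrable_const _) (Eventually.of_forall fun x => hb t x)
  simpa using h2

omit [SecondCountableTopology M] in
theorem sq_le (μ : Measure M) [IsProbabilityMeasure μ] (F : M → ℂ) (hF : Continuous F)
    (hb : ∀ y, ‖F y‖ ≤ 1) : ∫ x, ‖F x‖ ^ 2 ∂μ ≤ ∫ x, ‖F x‖ ∂μ := by
  refine integral_mono (int_cont μ _ (hF.norm.pow 2)) (int_cont μ _ hF.norm) fun x => ?_
  simp only
  nlinarith [norm_nonneg (F x), hb x]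

end

end L2N

open L2N in
theorem t_L2N0 (hPSF : S_PSF) (hTAI : S_TAI) (hL2W : S_L2W) (hVCN : S_VCN) : S_L2N := by
  intro N H r Φ B Hc E c k d hCX μ _ _ j C₂ hC₂
  classical
  have hcl := hCX.closed
  have hcs : CompactSpace H := isCompact_iff_compactSpace.1 hcl.isCompact
  have hsec : SecondCountableTopology H :=
    inferInstanceAs (SecondCountableTopology ((H : Set (SU N)) : Type))
  obtain ⟨CP, hCP, P⟩ := hPSF N H r Φ B Hc E c k d hCX
  obtain ⟨CT, hCT, hT⟩ := hTAI N H r Φ B Hc E c k d hCX j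
  obtain ⟨CL, hCL, hL⟩ := hL2W N H r Φ B Hc E c k d hCX μ
  obtain ⟨hV1, hV2⟩ := hVCN N H r Φ B Hc E c k d hCX μ
  refine ⟨2 * CL + 8 * C₂ ^ 2 * CT, by positivity, ?_⟩
  intro ϑ ρ R b κ ν₁ ν₂ Ψ G hϑ hϑ' hρ hκ hFM hΨ hG hGb
  have hκp : IsProbabilityMeasure κ := hκ.prob
  have hf1 := hFM.fin₁
  have hf2 := hFM.fin₂
  obtain ⟨hv, hV, hbd, hW⟩ := hV1 κ ρ G hκp hG
  set V : ℝ → H → H → ℂ := fun t h g => VV κ h (G t) g with hVdef
  set v : ℝ → H → H → ℂ := vn κ ρ G with hvdef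
  set V' : ℝ → H → H → ℂ := fun t h g => V t h g - v t h g with hV'def
  have hJ' : J3 V' := Continuous.sub hV hv
  obtain ⟨hpV, -, -⟩ := hV2 ν₁ ν₂ V hf1 hf2 hV
  obtain ⟨hpV', -, hpb⟩ := hV2 ν₁ ν₂ V' hf1 hf2 hJ'
  -- linearity
  have hint : ∀ (U : ℝ → H → H → ℂ), J3 U → (∀ t h g, ‖U t h g‖ ≤ 1) → ∀ (ν : Measure (Fin r → ℝ)),
      IsFiniteMeasure ν → ∀ t h g, Integrable (fun s => U t h (g * tt H Hc s)) ν := by
    intro U hU hUb ν hν t h g
    have hc : Continuous fun s : Fin r → ℝ => U t h (g * tt H Hc s) := by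
      have h1 : Continuous fun s : Fin r → ℝ => ((t, h, g * tt H Hc s) : ℝ × H × H) := by
        have := P.tcont
        fun_prop
      have hU' : Continuous fun z : ℝ × H × H => U z.1 z.2.1 z.2.2 := hU
      exact hU'.comp h1
    exact Integrable.of_bound hc.aestronglyMeasurable 1 (Eventually.of_forall fun s => hUb _ _ _)
  have hb1 := hbd 1 hGb
  have hlin : ∀ t h g, po Hc ν₁ ν₂ v t h g = po Hc ν₁ ν₂ V t h g - po Hc ν₁ ν₂ V' t h g := by
    intro t h g
    have i1 := hint V hV (fun t h g => (hb1 t h g).2) ν₁ hf1 t h g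
    have i2 := hint V hV (fun t h g => (hb1 t h g).2) ν₂ hf2 t h g
    have i3 := hint v hv (fun t h g => (hb1 t h g).1) ν₁ hf1 t h g
    have i4 := hint v hv (fun t h g => (hb1 t h g).1) ν₂ hf2 t h g
    unfold po PO
    simp only [hV'def]
    rw [integral_sub i1 i3, integral_sub i2 i4]
    ring
  have hb0 : 0 ≤ b := by
    have h1 := hΨ 0
    have h2 : ∏ p ∈ pos Φ, (1 + ϑ * ((p.2 ⬝ᵥ (0 : Fin r → ℤ) : ℤ) : ℝ) ^ 2) = 1 := by
      refine Finset.prod_eq_one fun p _ => ?_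
      simp
    rw [h2, mul_one] at h1
    exact (sq_nonneg _).trans h1
  have hGc : ∀ t, Continuous (G t) := fun t =>
    (show Continuous fun z : ℝ × H => G z.1 z.2 from hG).comp
      (continuous_const.prodMk continuous_id)
  -- the estimate for every time
  have hmain : ∀ t, ∫ h, ∫ g, ‖po Hc ν₁ ν₂ v t h g‖ ^ 2 ∂μ ∂μ ≤
      ((2 * CL + 8 * C₂ ^ 2 * CT) * (b + (ϑ / ρ ^ 2) ^ j)) * ∫ x, ‖G t x‖ ∂μ := by
    intro t
    have hct : ∀ U : ℝ → H → H → ℂ, J3 U → Continuous fun p : H × H => U t p.1 p.2 := fun U hU =>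
      (show Continuous fun z : ℝ × H × H => U z.1 z.2.1 z.2.2 from hU).comp
        (by fun_prop : Continuous fun p : H × H => ((t, p.1, p.2) : ℝ × H × H))
    have h1 := split μ (fun h g => po Hc ν₁ ν₂ v t h g) (fun h g => po Hc ν₁ ν₂ V t h g)
      (fun h g => po Hc ν₁ ν₂ V' t h g) (hct _ hpV) (hct _ hpV') (hlin t)
    have h2 := hL ϑ κ hϑ (by linarith) hκ ν₁ ν₂ hf1 hf2 b (fun l => by
      rw [hFM.tr l, Complex.norm_real, Real.norm_eq_abs, sq_abs]
      exact hΨ l) (G t) (hGc t)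
    have h3 := (hpb t).2
    have h4 := (hW t).2.2.2
    have h5 := sq_le μ (G t) (hGc t) (hGb t)
    have h6 := hT ϑ κ hϑ (by linarith) (Or.inl hκ) ρ hρ
    set B₀ := ∫ x, ‖G t x‖ ∂μ with hB₀
    have hB0 : 0 ≤ B₀ := integral_nonneg fun x => norm_nonneg _
    have h7 : 0 ≤ κ.real {z | ρ ^ 2 ≤ ps z} := measureReal_nonneg
    have h8 : κ.real {z | ρ ^ 2 ≤ ps z} ≤ 1 := measureReal_le_one
    have hm1 := hFM.mass₁
    have hm2 := hFM.mass₂
    have hm3 : (0 : ℝ) ≤ ν₁.real Set.univ := measureReal_nonneg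
    have hm4 : (0 : ℝ) ≤ ν₂.real Set.univ := measureReal_nonneg
    set τ : ℝ := (ϑ / ρ ^ 2) ^ j with hτ
    have hτ0 : 0 ≤ τ := by positivity
    have e1 : ∫ h, ∫ g, ‖po Hc ν₁ ν₂ V t h g‖ ^ 2 ∂μ ∂μ ≤ CL * b * B₀ := by
      refine h2.trans ?_
      exact mul_le_mul_of_nonneg_left h5 (by positivity)
    have e2 : ∫ h, ∫ g, ‖po Hc ν₁ ν₂ V' t h g‖ ^ 2 ∂μ ∂μ ≤ 4 * C₂ ^ 2 * (CT * τ * B₀) := by
      refine h3.trans ?_
      have e3 : ∫ h, ∫ g, ‖V' t h g‖ ^ 2 ∂μ ∂μ ≤ CT * τ * B₀ := by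
        refine h4.trans ?_
        refine mul_le_mul ?_ h5 (integral_nonneg fun x => by positivity) (by positivity)
        nlinarith
      have e4 : (ν₁.real Set.univ + ν₂.real Set.univ) ^ 2 ≤ 4 * C₂ ^ 2 := by nlinarith
      exact mul_le_mul e4 e3 (integral_nonneg fun x => integral_nonneg fun y => by positivity)
        (by positivity)
    refine h1.trans ?_
    have e5 : 0 ≤ CL * τ * B₀ := by positivity
    have e6 : 0 ≤ C₂ ^ 2 * CT * b * B₀ := by positivity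
    nlinarith
  exact mono_t μ G hG hGb _ _ (fun t => integral_nonneg fun x => integral_nonneg fun y => by
    positivity) hmain

theorem t_L2N : M_L2N := t_L2N0

end

end STZ3
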