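import Pool.Agent.STZ3.StS

/-!
# Compact simple groups of rank two: module L4D (helper39)
-/

namespace STZ3

open STZ LGR MeasureTheory Matrix Filter

open scoped ComplexConjugate Matrix Real Topology

noncomputable section

namespace L4D

/-- the measure of the torus -/
def tm : Measure (ℝ × (Fin 2 → ℝ)) :=
  ((volume : Measure ℝ).restrict (Set.Ioc 0 1)).prod
    ((volume : Measure (Fin 2 → ℝ)).restrict (Set.Icc 0 1))

instance : IsFiniteMeasure ((volume : Measure (Fin 2 → ℝ)).restrict (Set.Icc 0 1)) :=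
  ⟨by rw [Measure.restrict_apply_univ]; exact isCompact_Icc.measure_lt_top⟩

instance : IsFiniteMeasure tm := by
  unfold tm
  infer_instance

theorem int_eq {E : Type} [NormedAddCommGroup E] [NormedSpace ℝ E]
    (F : ℝ → (Fin 2 → ℝ) → E) (hF : Integrable (fun z : ℝ × (Fin 2 → ℝ) => F z.1 z.2) tm) :
    ∫ t in (0 : ℝ)..1, ∫ θ in Set.Icc (0 : Fin 2 → ℝ) 1, F t θ = ∫ z, F z.1 z.2 ∂tm := by
  rw [intervalIntegral.integral_of_le zero_le_one]
  unfold tm at hF ⊢
  rw [integral_prod _ hF]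

theorem norm_eu (x : ℝ) : ‖eu x‖ = 1 := by
  unfold eu
  rw [Complex.norm_exp]
  simp

theorem conj_eu (x : ℝ) : conj (eu x) = eu (-x) := by
  unfold eu
  rw [← Complex.exp_conj]
  congr 1
  rw [map_mul, map_mul, map_mul, Complex.conj_ofReal, Complex.conj_ofReal, Complex.conj_I,
    map_ofNat]
  push_cast
  ring

theorem eu_add (x y : ℝ) : eu (x + y) = eu x * eu y := by
  unfold eu
  rw [← Complex.exp_add]
  congr 1
  push_cast
  ring

theorem dz_add (a b : Fin 2 → ℤ) (θ : Fin 2 → ℝ) : dz (a + b) θ = dz a θ + dz b θ := by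
  unfold dz
  rw [← Finset.sum_add_distrib]
  refine Finset.sum_congr rfl fun i _ => ?_
  rw [Pi.add_apply, Int.cast_add, add_mul]

end L4D

open L4D in
theorem t_L4D : M_L4D := by
  intro hL Φ B hI hW ε hε
  obtain ⟨C, hC, h⟩ := hL Φ B hI hW (2 * ε) (by positivity)
  refine ⟨√C, Real.sqrt_nonneg C, fun X k S u b hX hS hm hb => ?_⟩
  set e : (Fin 2 → ℤ) → ℝ × (Fin 2 → ℝ) → ℂ :=
    fun l z => eu (z.1 * ((rd Φ).Q l : ℝ) - dz (l + k) z.2) with he
  set a : (Fin 2 → ℤ) → ℂ := fun l => ∫ t in (0 : ℝ)..1, ∫ θ in Set.Icc (0 : Fin 2 → ℝ) 1,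
    u t θ * eu (t * ((rd Φ).Q l : ℝ) - dz (l + k) θ) with ha
  have hec : ∀ l, Continuous (e l) := by
    intro l
    simp only [he]
    unfold eu dz
    fun_prop
  have hui : MemLp (fun z : ℝ × (Fin 2 → ℝ) => u z.1 z.2) (ENNReal.ofReal (4 / 3)) tm :=
    MemLp.of_bound hm.aestronglyMeasurable b (ae_of_all _ fun z => hb z.1 z.2)
  have hue : ∀ l, Integrable (fun z : ℝ × (Fin 2 → ℝ) => u z.1 z.2 * e l z) tm := by
    intro l
    refine Integrable.of_bound (hm.mul (hec l).measurable).aestronglyMeasurable b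
      (ae_of_all _ fun z => ?_)
    rw [norm_mul, norm_eu, mul_one]
    exact hb z.1 z.2
  have hae : ∀ l, a l = ∫ z, u z.1 z.2 * e l z ∂tm := by
    intro l
    simp only [ha]
    exact int_eq (fun t θ => u t θ * eu (t * ((rd Φ).Q l : ℝ) - dz (l + k) θ)) (hue l)
  set W : ℝ × (Fin 2 → ℝ) → ℂ := fun z => ∑ l ∈ S, conj (a l) * e l z with hWdef
  have hWc : Continuous W := by
    simp only [hWdef]
    exact continuous_finsetSum _ fun l _ => continuous_const.mul (hec l)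
  have hWn : ∀ z, ‖W z‖ = ‖∑ l ∈ S, a l * eu (-(z.1 * ((rd Φ).Q l : ℝ)) + dz l z.2)‖ := by
    intro z
    have h1 : conj (W z) = eu (dz k z.2) *
        ∑ l ∈ S, a l * eu (-(z.1 * ((rd Φ).Q l : ℝ)) + dz l z.2) := by
      simp only [hWdef, he]
      rw [map_sum, Finset.mul_sum]
      refine Finset.sum_congr rfl fun l _ => ?_
      rw [map_mul, Complex.conj_conj, conj_eu, mul_left_comm, ← eu_add, dz_add]
      congr 2
      ring
    rw [← Complex.norm_conj, h1, norm_mul, norm_eu, one_mul]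
  have hWb : ∀ z, ‖W z‖ ≤ ∑ l ∈ S, ‖a l‖ := by
    intro z
    refine (norm_sum_le _ _).trans (Finset.sum_le_sum fun l _ => ?_)
    rw [norm_mul, norm_eu, mul_one, Complex.norm_conj]
  have hWi : MemLp W (ENNReal.ofReal 4) tm :=
    MemLp.of_bound hWc.aestronglyMeasurable _ (ae_of_all _ hWb)
  -- the fourth moment
  have h4 : ∫ z, ‖W z‖ ^ (4 : ℝ) ∂tm ≤ C * (X : ℝ) ^ (2 * ε) * (∑ l ∈ S, ‖a l‖ ^ 2) ^ 2 := by
    have h1 := h X a S hX hS
    rw [int_eq (fun t θ => ‖∑ l ∈ S, a l * eu (-(t * ((rd Φ).Q l : ℝ)) + dz l θ)‖ ^ 4)] at h1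
    · refine le_trans (le_of_eq ?_) h1
      refine integral_congr_ae (ae_of_all _ fun z => ?_)
      simp only
      rw [hWn z, show (4 : ℝ) = ((4 : ℕ) : ℝ) by norm_num, Real.rpow_natCast]
    · refine Integrable.of_bound (Continuous.aestronglyMeasurable ?_) ((∑ l ∈ S, ‖a l‖) ^ 4)
        (ae_of_all _ fun z => ?_)
      · unfold eu dz
        fun_prop
      · rw [← hWn z, norm_pow, norm_norm]
        exact pow_le_pow_left₀ (norm_nonneg _) (hWb z) 4
  have hA : ((∑ l ∈ S, ‖a l‖ ^ 2 : ℝ) : ℂ) = ∫ z, u z.1 z.2 * W z ∂tm := by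
    have h1 : ∀ z, u z.1 z.2 * W z = ∑ l ∈ S, conj (a l) * (u z.1 z.2 * e l z) := by
      intro z
      simp only [hWdef]
      rw [Finset.mul_sum]
      refine Finset.sum_congr rfl fun l _ => ?_
      ring
    simp only [h1]
    rw [integral_finsetSum _ fun l _ => (hue l).const_mul _]
    push_cast
    refine Finset.sum_congr rfl fun l _ => ?_
    rw [integral_const_mul, ← hae l, mul_comm, Complex.mul_conj, Complex.normSq_eq_norm_sq]
    push_cast
    rfl
  set A : ℝ := ∑ l ∈ S, ‖a l‖ ^ 2 with hAdef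
  have hA0 : 0 ≤ A := Finset.sum_nonneg fun l _ => by positivity
  set U : ℝ := ∫ t in (0 : ℝ)..1, ∫ θ in Set.Icc (0 : Fin 2 → ℝ) 1, ‖u t θ‖ ^ ((4 : ℝ) / 3) with hU
  have hUe : U = ∫ z, ‖u z.1 z.2‖ ^ ((4 : ℝ) / 3) ∂tm := by
    refine int_eq (fun t θ => ‖u t θ‖ ^ ((4 : ℝ) / 3)) ?_
    refine Integrable.of_bound (hm.norm.pow_const _).aestronglyMeasurable (b ^ ((4 : ℝ) / 3))
      (ae_of_all _ fun z => ?_)
    rw [Real.norm_of_nonneg (by positivity)]
    exact Real.rpow_le_rpow (norm_nonneg _) (hb z.1 z.2) (by norm_num)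
  have hU0 : 0 ≤ U := by
    rw [hUe]
    exact integral_nonneg fun z => by positivity
  have hle : A ≤ U ^ ((3 : ℝ) / 4) * (C * (X : ℝ) ^ (2 * ε) * A ^ 2) ^ ((1 : ℝ) / 4) := by
    have h1 : A ≤ ∫ z, ‖u z.1 z.2‖ * ‖W z‖ ∂tm := by
      calc A = ‖((A : ℝ) : ℂ)‖ := by rw [Complex.norm_real, Real.norm_of_nonneg hA0]
        _ = ‖∫ z, u z.1 z.2 * W z ∂tm‖ := by rw [hA]
        _ ≤ ∫ z, ‖u z.1 z.2 * W z‖ ∂tm := norm_integral_le_integral_norm _
        _ = _ := by simp only [norm_mul]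
    have hpq : (4 / 3 : ℝ).HolderConjugate 4 := by
      rw [Real.holderConjugate_iff]
      norm_num
    have h2 := integral_mul_norm_le_Lp_mul_Lq hpq hui hWi
    refine (h1.trans h2).trans ?_
    rw [← hUe, show (1 : ℝ) / (4 / 3) = 3 / 4 by norm_num]
    refine mul_le_mul_of_nonneg_left ?_ (Real.rpow_nonneg hU0 _)
    exact Real.rpow_le_rpow (integral_nonneg fun z => by positivity) h4 (by norm_num)
  have hX0 : (0 : ℝ) < X := by exact_mod_cast hX
  have hXe : (0 : ℝ) ≤ (X : ℝ) ^ ε := by positivity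
  rcases hA0.eq_or_lt with h0 | h0
  · rw [← h0]
    positivity
  -- fourth powers
  have h5 : A ^ 4 ≤ U ^ (3 : ℝ) * (C * (X : ℝ) ^ (2 * ε) * A ^ 2) := by
    have h6 := pow_le_pow_left₀ hA0 hle 4
    rw [mul_pow] at h6
    have h7 : (U ^ ((3 : ℝ) / 4)) ^ 4 = U ^ (3 : ℝ) := by
      rw [← Real.rpow_natCast, ← Real.rpow_mul hU0]
      norm_num
    have h8 : ((C * (X : ℝ) ^ (2 * ε) * A ^ 2) ^ ((1 : ℝ) / 4)) ^ 4 =
        C * (X : ℝ) ^ (2 * ε) * A ^ 2 := by
      rw [← Real.rpow_natCast, ← Real.rpow_mul (by positivity)]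
      norm_num
    rw [h7, h8] at h6
    exact h6
  have h9 : A ^ 2 ≤ C * (X : ℝ) ^ (2 * ε) * U ^ (3 : ℝ) := by
    have h10 : A ^ 2 * A ^ 2 ≤ (C * (X : ℝ) ^ (2 * ε) * U ^ (3 : ℝ)) * A ^ 2 := by
      calc A ^ 2 * A ^ 2 = A ^ 4 := by ring
        _ ≤ _ := h5
        _ = _ := by ring
    exact le_of_mul_le_mul_right h10 (by positivity)
  refine le_of_sq_le_sq ?_ (by positivity)
  refine h9.trans (le_of_eq ?_)
  rw [mul_pow, mul_pow, Real.sq_sqrt hC]
  congr 1
  · congr 1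
    rw [← Real.rpow_natCast, ← Real.rpow_mul hX0.le]
    congr 1
    push_cast
    ring
  · rw [← Real.rpow_natCast, ← Real.rpow_mul hU0]
    norm_num

end

end STZ3
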