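import Pool.Agent.STZ3.L4D

/-!
# Compact simple groups of rank two: module L4E (helper3)
-/

namespace STZ3

open STZ LGR MeasureTheory Matrix Filter

open scoped ComplexConjugate Matrix Real Topology

noncomputable section

namespace L4E

open L4D

theorem eu_zero : eu 0 = 1 := by
  unfold eu
  simp

/-- the integral over the time -/
theorem int_eu (n : ℤ) : ∫ t in (0 : ℝ)..1, eu (-(t * (n : ℝ))) = if n = 0 then 1 else 0 := by
  split_ifs with h
  · subst h
    simp [eu_zero]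
  · have hc : (-(2 * π * n * Complex.I) : ℂ) ≠ 0 := by
      refine neg_ne_zero.2 (mul_ne_zero (mul_ne_zero (mul_ne_zero two_ne_zero ?_) ?_)
        Complex.I_ne_zero)
      · exact_mod_cast Real.pi_ne_zero
      · exact_mod_cast h
    have h1 : ∀ t : ℝ, eu (-(t * (n : ℝ))) = Complex.exp (-(2 * π * n * Complex.I) * t) := by
      intro t
      unfold eu
      congr 1
      push_cast
      ring
    simp only [h1]
    rw [integral_exp_mul_complex hc]
    have h2 : Complex.exp (-(2 * π * n * Complex.I) * ((1 : ℝ) : ℂ)) = 1 := by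
      rw [Complex.exp_eq_one_iff]
      exact ⟨-n, by push_cast; ring⟩
    rw [h2]
    simp

/-- the characters of the torus of dimension three -/
def ch (τ : (Fin 2 → ℤ) × ℤ) (z : ℝ × (Fin 2 → ℝ)) : ℂ := eu (-(z.1 * (τ.2 : ℝ)) + dz τ.1 z.2)

theorem ch_cont (τ : (Fin 2 → ℤ) × ℤ) : Continuous (ch τ) := by
  unfold ch eu dz
  fun_prop

theorem ch_int (τ : (Fin 2 → ℤ) × ℤ) : Integrable (ch τ) tm := by
  refine Integrable.of_bound (ch_cont τ).aestronglyMeasurable 1 (ae_of_all _ fun z => ?_)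
  unfold ch
  rw [norm_eu]

theorem ch_mul (τ σ : (Fin 2 → ℤ) × ℤ) (z : ℝ × (Fin 2 → ℝ)) :
    ch τ z * ch σ z = ch (τ + σ) z := by
  unfold ch
  rw [← eu_add, Prod.fst_add, Prod.snd_add, dz_add]
  congr 1
  push_cast
  ring

theorem ch_conj (τ : (Fin 2 → ℤ) × ℤ) (z : ℝ × (Fin 2 → ℝ)) : conj (ch τ z) = ch (-τ) z := by
  unfold ch
  rw [conj_eu, Prod.fst_neg, Prod.snd_neg]
  congr 1
  unfold dz
  simp only [Pi.neg_apply, Int.cast_neg, neg_mul, Finset.sum_neg_distrib]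
  ring

theorem ch_orth (hT : S_TPOL) (τ : (Fin 2 → ℤ) × ℤ) :
    ∫ z, ch τ z ∂tm = if τ = 0 then 1 else 0 := by
  have h1 := int_eq (fun t θ => ch τ (t, θ)) (ch_int τ)
  have h2 : ∀ t : ℝ, ∫ θ in Set.Icc (0 : Fin 2 → ℝ) 1, ch τ (t, θ) =
      eu (-(t * (τ.2 : ℝ))) * (if τ.1 = 0 then 1 else 0) := by
    intro t
    rw [← (hT 2).1 τ.1, ← integral_const_mul]
    refine integral_congr_ae (ae_of_all _ fun θ => ?_)
    simp only [ch]
    rw [eu_add]
  have h3 : (fun z : ℝ × (Fin 2 → ℝ) => ch τ (z.1, z.2)) = ch τ := rfl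
  rw [show (∫ z, ch τ z ∂tm) = ∫ z : ℝ × (Fin 2 → ℝ), ch τ (z.1, z.2) ∂tm from rfl, ← h1]
  simp only [h2]
  rw [intervalIntegral.integral_mul_const, int_eu]
  by_cases ha : τ.2 = 0
  · by_cases hb : τ.1 = 0
    · rw [if_pos ha, if_pos hb, if_pos (Prod.ext hb ha), one_mul]
    · have hn : ¬ τ = 0 := fun h => hb (by rw [h]; rfl)
      rw [if_pos ha, if_neg hb, if_neg hn, mul_zero]
  · have hn : ¬ τ = 0 := fun h => ha (by rw [h]; rfl)
    rw [if_neg ha, if_neg hn, zero_mul]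

/-- Parseval's formula for trigonometric polynomials -/
theorem parseval (hT : S_TPOL) (T : Finset ((Fin 2 → ℤ) × ℤ)) (b : (Fin 2 → ℤ) × ℤ → ℂ) :
    ∫ z, ‖∑ τ ∈ T, b τ * ch τ z‖ ^ 2 ∂tm = ∑ τ ∈ T, ‖b τ‖ ^ 2 := by
  have h1 : ((∫ z, ‖∑ τ ∈ T, b τ * ch τ z‖ ^ 2 ∂tm : ℝ) : ℂ) =
      ((∑ τ ∈ T, ‖b τ‖ ^ 2 : ℝ) : ℂ) := by
    rw [← integral_complex_ofReal]
    have h2 : ∀ z, ((‖∑ τ ∈ T, b τ * ch τ z‖ ^ 2 : ℝ) : ℂ) =
        ∑ τ ∈ T, ∑ σ ∈ T, (b τ * conj (b σ)) * ch (τ + -σ) z := by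
      intro z
      have : ((‖∑ τ ∈ T, b τ * ch τ z‖ ^ 2 : ℝ) : ℂ) =
          (∑ τ ∈ T, b τ * ch τ z) * conj (∑ τ ∈ T, b τ * ch τ z) := by
        rw [Complex.mul_conj, Complex.normSq_eq_norm_sq]
      rw [this, map_sum, Finset.sum_mul_sum]
      refine Finset.sum_congr rfl fun τ _ => Finset.sum_congr rfl fun σ _ => ?_
      rw [map_mul, ch_conj, ← ch_mul]
      ring
    simp only [h2]
    rw [integral_finsetSum _ fun τ _ => integrable_finsetSum _ fun σ _ =>
      (ch_int _).const_mul _]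
    push_cast
    refine Finset.sum_congr rfl fun τ hτ => ?_
    rw [integral_finsetSum _ fun σ _ => (ch_int _).const_mul _]
    rw [Finset.sum_eq_single τ]
    · rw [integral_const_mul, ch_orth hT, if_pos (add_neg_cancel τ), mul_one, Complex.mul_conj,
        Complex.normSq_eq_norm_sq]
      push_cast
      rfl
    · intro σ _ hσ
      rw [integral_const_mul, ch_orth hT, if_neg, mul_zero]
      exact fun h => hσ (add_neg_eq_zero.1 h).symm
    · exact fun h => absurd hτ h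
  exact_mod_cast h1

/-- parallelogram law -/
theorem par {r : ℕ} (Φ : RT r) (l l' : Fin r → ℤ) :
    (rd Φ).Q (l - l') = 2 * ((rd Φ).Q l + (rd Φ).Q l') - (rd Φ).Q (l + l') := by
  simp only [rd]
  rw [← Finset.sum_add_distrib, Finset.mul_sum, ← Finset.sum_sub_distrib]
  refine Finset.sum_congr rfl fun p _ => ?_
  rw [dotProduct_sub, dotProduct_add]
  ring

end L4E

open L4D L4E in
theorem t_L4E : M_L4E := by
  intro _ hT hR Φ B hI hW ε hε
  obtain ⟨C, hC, hN⟩ := hR Φ B hI hW ε hε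
  refine ⟨C * 2 ^ ε, by positivity, fun X c S hX hS => ?_⟩
  classical
  set Q := (rd Φ).Q with hQ
  set f : (Fin 2 → ℤ) × (Fin 2 → ℤ) → (Fin 2 → ℤ) × ℤ := fun p => (p.1 + p.2, Q p.1 + Q p.2)
    with hf
  set P := S ×ˢ S with hP
  set T := P.image f with hTd
  set b : (Fin 2 → ℤ) × ℤ → ℂ := fun τ => ∑ p ∈ P with f p = τ, c p.1 * c p.2 with hb
  -- the square of `u`
  have hsq : ∀ z, (∑ l ∈ S, c l * ch (l, Q l) z) ^ 2 = ∑ τ ∈ T, b τ * ch τ z := by
    intro z
    rw [sq, Finset.sum_mul_sum, ← Finset.sum_product']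
    rw [← Finset.sum_fiberwise_of_maps_to (s := P) (t := T) (g := f)
      (fun p hp => Finset.mem_image_of_mem f hp)]
    refine Finset.sum_congr rfl fun τ _ => ?_
    rw [hb, Finset.sum_mul]
    refine Finset.sum_congr rfl fun p hp => ?_
    have h1 := (Finset.mem_filter.1 hp).2
    rw [← h1]
    have h2 := ch_mul (p.1, Q p.1) (p.2, Q p.2) z
    rw [Prod.mk_add_mk] at h2
    rw [hf]
    simp only
    rw [← h2]
    ring
  -- the number of pairs
  have hcard : ∀ τ, ((P.filter fun p => f p = τ).card : ℝ) ≤ C * 2 ^ ε * (X : ℝ) ^ ε := by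
    intro τ
    have h1 := hN (2 * X) (2 * τ.2 - Q τ.1)
      ((P.filter fun p => f p = τ).image fun p => p.1 - p.2) (by omega) (by
        intro l hl
        obtain ⟨p, hp, rfl⟩ := Finset.mem_image.1 hl
        obtain ⟨hp1, hp2⟩ := Finset.mem_filter.1 hp
        obtain ⟨h3, h4⟩ := Finset.mem_product.1 hp1
        rw [hf] at hp2
        constructor
        · rw [← hp2]
          exact par Φ p.1 p.2
        · intro i
          have h5 := hS _ h3 i
          have h6 := hS _ h4 i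
          rw [Pi.sub_apply]
          push_cast
          have h7 := abs_sub (p.1 i) (p.2 i)
          linarith)
    rw [Finset.card_image_of_injOn] at h1
    · refine h1.trans (le_of_eq ?_)
      push_cast
      rw [Real.mul_rpow (by norm_num) (by positivity), mul_assoc]
    · intro p hp q hq hpq
      have h3 := (Finset.mem_filter.1 (Finset.mem_coe.1 hp)).2
      have h4 := (Finset.mem_filter.1 (Finset.mem_coe.1 hq)).2
      rw [hf] at h3 h4
      simp only at hpq h3 h4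
      have h5 : p.1 + p.2 = q.1 + q.2 := by
        have := congrArg Prod.fst (h3.trans h4.symm)
        simpa using this
      have h6 : p.1 = q.1 := by
        funext i
        have h7 := congrFun hpq i
        have h8 := congrFun h5 i
        simp only [Pi.sub_apply, Pi.add_apply] at h7 h8
        omega
      have h9 : p.2 = q.2 := by
        rw [h6] at h5
        exact add_left_cancel h5
      exact Prod.ext h6 h9
  -- the fourth moment
  have hi : ∫ t in (0 : ℝ)..1, ∫ θ in Set.Icc (0 : Fin 2 → ℝ) 1,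
      ‖∑ l ∈ S, c l * eu (-(t * (Q l : ℝ)) + dz l θ)‖ ^ 4 = ∑ τ ∈ T, ‖b τ‖ ^ 2 := by
    rw [int_eq (fun t θ => ‖∑ l ∈ S, c l * eu (-(t * (Q l : ℝ)) + dz l θ)‖ ^ 4)]
    · rw [← parseval hT T b]
      refine integral_congr_ae (ae_of_all _ fun z => ?_)
      simp only
      rw [← hsq z, norm_pow, ← pow_mul]
      rfl
    · refine Integrable.of_bound (Continuous.aestronglyMeasurable ?_) ((∑ l ∈ S, ‖c l‖) ^ 4)
        (ae_of_all _ fun z => ?_)
      · unfold eu dz
        fun_prop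
      · rw [norm_pow, norm_norm]
        refine pow_le_pow_left₀ (norm_nonneg _) ?_ 4
        refine (norm_sum_le _ _).trans (Finset.sum_le_sum fun l _ => ?_)
        rw [norm_mul, norm_eu, mul_one]
  rw [hi]
  have hbb : ∀ τ, ‖b τ‖ ^ 2 ≤ C * 2 ^ ε * (X : ℝ) ^ ε *
      ∑ p ∈ P with f p = τ, ‖c p.1‖ ^ 2 * ‖c p.2‖ ^ 2 := by
    intro τ
    have h1 : ‖b τ‖ ≤ ∑ p ∈ P with f p = τ, ‖c p.1‖ * ‖c p.2‖ := by
      rw [hb]
      refine (norm_sum_le _ _).trans (le_of_eq (Finset.sum_congr rfl fun p _ => norm_mul _ _))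
    have h2 := sq_sum_le_card_mul_sum_sq (s := P.filter fun p => f p = τ)
      (f := fun p => ‖c p.1‖ * ‖c p.2‖)
    calc ‖b τ‖ ^ 2 ≤ (∑ p ∈ P with f p = τ, ‖c p.1‖ * ‖c p.2‖) ^ 2 :=
          pow_le_pow_left₀ (norm_nonneg _) h1 2
      _ ≤ _ := h2
      _ ≤ C * 2 ^ ε * (X : ℝ) ^ ε * ∑ p ∈ P with f p = τ, (‖c p.1‖ * ‖c p.2‖) ^ 2 :=
          mul_le_mul_of_nonneg_right (hcard τ) (Finset.sum_nonneg fun p _ => by positivity)
      _ = _ := by
          congr 1
          exact Finset.sum_congr rfl fun p _ => mul_pow _ _ _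
  calc ∑ τ ∈ T, ‖b τ‖ ^ 2 ≤ ∑ τ ∈ T, C * 2 ^ ε * (X : ℝ) ^ ε *
        ∑ p ∈ P with f p = τ, ‖c p.1‖ ^ 2 * ‖c p.2‖ ^ 2 := Finset.sum_le_sum fun τ _ => hbb τ
    _ = C * 2 ^ ε * (X : ℝ) ^ ε * ∑ p ∈ P, ‖c p.1‖ ^ 2 * ‖c p.2‖ ^ 2 := by
        rw [← Finset.mul_sum, Finset.sum_fiberwise_of_maps_to
          (fun p hp => Finset.mem_image_of_mem f hp)]
    _ = _ := by
        rw [sq (∑ l ∈ S, ‖c l‖ ^ 2), Finset.sum_mul_sum, ← Finset.sum_product']

end

end STZ3
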