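import Pool.Agent.STZ3.StD3

/-!
# Compact simple groups of rank two, chain packets: module LAC
-/

namespace STZ3

open STZ LGR MeasureTheory Matrix Filter

open scoped ComplexConjugate Matrix Real Topology

noncomputable section

namespace LAC

/-- the sets of positive roots -/
theorem sum_sets {r : ℕ} (Φ : RT r) (f : RT r → ℂ) :
    ∑ S ∈ (pos Φ).powerset, f S = ∑ T : Finset {p // p ∈ pos Φ}, f (T.image Subtype.val) := by
  symm
  refine Finset.sum_nbij' (fun T => T.image Subtype.val) (fun S => Finset.univ.filter fun p => p.1 ∈ S) ?_ ?_ ?_ ?_ ?_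
  · intro T _
    refine Finset.mem_powerset.2 fun p hp => ?_
    obtain ⟨p', _, rfl⟩ := Finset.mem_image.1 hp
    exact p'.2
  · intro S _
    exact Finset.mem_univ _
  · intro T _
    ext p
    constructor
    · intro hp
      obtain ⟨_, hp'⟩ := Finset.mem_filter.1 hp
      obtain ⟨p', hp'', he⟩ := Finset.mem_image.1 hp'
      rwa [Subtype.ext he] at hp''
    · intro hp
      exact Finset.mem_filter.2 ⟨Finset.mem_univ _, Finset.mem_image.2 ⟨p, hp, rfl⟩⟩
  · intro S hS
    have hS' := Finset.mem_powerset.1 hS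
    ext p
    constructor
    · intro hp
      obtain ⟨p', hp', rfl⟩ := Finset.mem_image.1 hp
      exact (Finset.mem_filter.1 hp').2
    · intro hp
      exact Finset.mem_image.2 ⟨⟨p, hS' hp⟩, Finset.mem_filter.2 ⟨Finset.mem_univ _, hp⟩, rfl⟩
  · intro T _
    rfl

end LAC

theorem t_LAC : M_LAC := by
  intro hLEA r Φ B hr hI hW m C₁ hm hC J q a x τ l
  have h2 := hLEA r Φ (fun S => Real.exp (es Φ a.1 (th x) (tc a x) (S.image Subtype.val) l)) (fun S => dR Φ (sh S l))
    (2 * m ^ 2 * 2 ^ J) (fun p => cf m J (x p).val) (gt Φ q τ) l (by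
      intro p k hk
      have hx : (x p).val ≤ J := Nat.lt_succ_iff.1 (x p).isLt
      refine hC.supp J (x p).val k hx (lt_of_le_of_lt ?_ hk)
      have h3 : 2 * m ^ 2 * 2 ^ (x p).val ≤ 2 * m ^ 2 * 2 ^ J :=
        Nat.mul_le_mul le_rfl (Nat.pow_le_pow_right (by norm_num) hx)
      exact_mod_cast h3)
  unfold lac lc
  rw [LAC.sum_sets]
  have h4 : ∀ T : Finset {p // p ∈ pos Φ}, (-1 : ℂ) ^ (T.image Subtype.val).card *
      (((Real.exp (es Φ a.1 (th x) (tc a x) (T.image Subtype.val) l) *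
        dR Φ (l + 1 - ∑ p ∈ T.image Subtype.val, p.1) : ℝ) : ℂ) *
          nx Φ m J q x τ (l + 1 - ∑ p ∈ T.image Subtype.val, p.1)) =
      (((-1 : ℝ) ^ T.card * (Real.exp (es Φ a.1 (th x) (tc a x) (T.image Subtype.val) l) * dR Φ (sh T l)) : ℝ) : ℂ) *
        ∑ k ∈ kB Φ (2 * m ^ 2 * 2 ^ J), (∏ p, cf m J (x p).val (k p)) * gt Φ q τ (sh T l - rs (pos Φ) k) := by
    intro T
    have hi : Set.InjOn (Subtype.val : {p // p ∈ pos Φ} → (Fin r → ℤ) × (Fin r → ℤ)) T :=
      Subtype.val_injective.injOn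
    rw [Finset.card_image_of_injOn hi, Finset.sum_image hi]
    change _ = _ * nx Φ m J q x τ (sh T l)
    unfold sh
    push_cast
    ring
  rw [Finset.sum_congr rfl fun T _ => h4 T, h2, Finset.mul_sum]
  refine Finset.sum_congr rfl fun f _ => ?_
  unfold amc
  rw [← mul_assoc]
  congr 1
  push_cast
  ring

end

end STZ3
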