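import Pool.Agent.STZ3.StM

/-!
# Compact simple groups of rank two: module LAF (helper9)
-/

namespace STZ3

open STZ LGR MeasureTheory Matrix Filter

open scoped ComplexConjugate Matrix Real Topology

noncomputable section

theorem t_LAF : M_LAF := by
  intro hLEA hLEC r Φ B hr hI hW m C₁ hm hC J q x τ l
  have h1 := (hLEC r Φ B hr hI hW).2 (th x) (nx Φ m J q x τ) l
  have h2 := hLEA r Φ (fun S => Real.exp (2 * th x * ip Φ l (sh S 0))) (fun S => dR Φ (sh S l))
    (2 * m ^ 2 * 2 ^ J) (fun p => cf m J (x p).val) (gt Φ q τ) l (by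
      intro p k hk
      have hx : (x p).val ≤ J := Nat.lt_succ_iff.1 (x p).isLt
      refine hC.supp J (x p).val k hx (lt_of_le_of_lt ?_ hk)
      have h3 : 2 * m ^ 2 * 2 ^ (x p).val ≤ 2 * m ^ 2 * 2 ^ J :=
        Nat.mul_le_mul le_rfl (Nat.pow_le_pow_right (by norm_num) hx)
      exact_mod_cast h3)
  unfold la
  rw [h1]
  unfold nx
  rw [h2, Finset.mul_sum]
  refine Finset.sum_congr rfl fun f _ => ?_
  unfold am
  rw [← mul_assoc]
  congr 1
  push_cast
  ring

end

end STZ3
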