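import Pool.Agent.STZ3.StD3

/-!
# Module LAN: the support of the multiplier of the chain packets
-/

namespace STZ3

open STZ LGR MeasureTheory Matrix Filter

open scoped ComplexConjugate Matrix Real Topology

noncomputable section

namespace LAN

/-- the size of the shifts -/
def sz1 (Φ : RT 2) : ℝ :=
  ∑ p ∈ pos Φ, (|((p.2 ⬝ᵥ (1 : Fin 2 → ℤ) : ℤ) : ℝ)| + ∑ q ∈ pos Φ, |((p.2 ⬝ᵥ q.1 : ℤ) : ℝ)|)

theorem sz1_nn (Φ : RT 2) : 0 ≤ sz1 Φ :=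
  Finset.sum_nonneg fun _ _ => add_nonneg (abs_nonneg _) (Finset.sum_nonneg fun _ _ => abs_nonneg _)

theorem sz1_le (Φ : RT 2) {p : (Fin 2 → ℤ) × (Fin 2 → ℤ)} (hp : p ∈ pos Φ) :
    |((p.2 ⬝ᵥ (1 : Fin 2 → ℤ) : ℤ) : ℝ)| + ∑ q ∈ pos Φ, |((p.2 ⬝ᵥ q.1 : ℤ) : ℝ)| ≤ sz1 Φ :=
  Finset.single_le_sum (f := fun p : (Fin 2 → ℤ) × (Fin 2 → ℤ) => |((p.2 ⬝ᵥ (1 : Fin 2 → ℤ) : ℤ) : ℝ)| +
    ∑ q ∈ pos Φ, |((p.2 ⬝ᵥ q.1 : ℤ) : ℝ)|)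
    (fun _ _ => add_nonneg (abs_nonneg _) (Finset.sum_nonneg fun _ _ => abs_nonneg _)) hp

/-- a term of the multiplier which is not zero -/
theorem term {Φ : RT 2} {m J : ℕ} {q : (Fin 2 → ℤ) → ℝ} {a : {p // p ∈ pos Φ}} {x : {p // p ∈ pos Φ} → Fin (J + 1)}
    {τ : ℝ} {l : Fin 2 → ℤ} (h : lac Φ m J q a x τ l ≠ 0) :
    ∃ S ∈ (pos Φ).powerset, ∃ k : {p // p ∈ pos Φ} → ℤ, (∀ p, cf m J (x p).val (k p) ≠ 0) ∧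
      q (l + 1 - ∑ p ∈ S, p.1 - rs (pos Φ) k) ≠ 0 := by
  unfold lac lc at h
  have h1 := right_ne_zero_of_mul h
  obtain ⟨S, hS, h2⟩ := Finset.exists_ne_zero_of_sum_ne_zero h1
  have h3 := right_ne_zero_of_mul (right_ne_zero_of_mul h2)
  unfold nx at h3
  obtain ⟨k, _, h4⟩ := Finset.exists_ne_zero_of_sum_ne_zero h3
  refine ⟨S, hS, k, fun p => ?_, ?_⟩
  · exact (Finset.prod_ne_zero_iff.1 (left_ne_zero_of_mul h4)) p (Finset.mem_univ p)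
  · have h5 := right_ne_zero_of_mul h4
    unfold gt at h5
    have h6 := left_ne_zero_of_mul h5
    intro h7
    apply h6
    rw [h7]
    simp

theorem dot_sum (v : Fin 2 → ℤ) (S : RT 2) : v ⬝ᵥ (∑ p ∈ S, p.1) = ∑ p ∈ S, v ⬝ᵥ p.1 := by
  rw [dotProduct_sum]

theorem dot_rs {Φ : RT 2} (v : Fin 2 → ℤ) (k : {p // p ∈ pos Φ} → ℤ) :
    v ⬝ᵥ rs (pos Φ) k = ∑ p : {p // p ∈ pos Φ}, k p * (v ⬝ᵥ p.1.1) := by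
  unfold rs
  rw [dotProduct_sum]
  refine Finset.sum_congr rfl fun p _ => ?_
  rw [dotProduct_smul, smul_eq_mul]

/-- the size of the difference -/
theorem diff_le {Φ : RT 2} {p : (Fin 2 → ℤ) × (Fin 2 → ℤ)} (hp : p ∈ pos Φ) {S : RT 2} (hS : S ∈ (pos Φ).powerset)
    (k : {p // p ∈ pos Φ} → ℤ) (l : Fin 2 → ℤ) {Y : ℝ} (hY : 0 ≤ Y) (hk : ∀ p, |((k p : ℤ) : ℝ)| ≤ Y) :
    |((p.2 ⬝ᵥ (l + 1 - ∑ p ∈ S, p.1 - rs (pos Φ) k) : ℤ) : ℝ)| ≤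
      |((p.2 ⬝ᵥ l : ℤ) : ℝ)| + (1 + Y) * sz1 Φ := by
  have h1 : ((p.2 ⬝ᵥ (l + 1 - ∑ p ∈ S, p.1 - rs (pos Φ) k) : ℤ) : ℝ) =
      ((p.2 ⬝ᵥ l : ℤ) : ℝ) + ((p.2 ⬝ᵥ (1 : Fin 2 → ℤ) : ℤ) : ℝ) - ∑ q ∈ S, ((p.2 ⬝ᵥ q.1 : ℤ) : ℝ) -
        ∑ q : {p // p ∈ pos Φ}, (k q : ℝ) * ((p.2 ⬝ᵥ q.1.1 : ℤ) : ℝ) := by
    rw [dotProduct_sub, dotProduct_sub, dotProduct_add, dot_sum, dot_rs]
    push_cast
    ring
  rw [h1]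
  have h2 : |∑ q ∈ S, ((p.2 ⬝ᵥ q.1 : ℤ) : ℝ)| ≤ ∑ q ∈ pos Φ, |((p.2 ⬝ᵥ q.1 : ℤ) : ℝ)| :=
    (Finset.abs_sum_le_sum_abs _ _).trans
      (Finset.sum_le_sum_of_subset_of_nonneg (Finset.mem_powerset.1 hS) fun _ _ _ => abs_nonneg _)
  have h3 : |∑ q : {p // p ∈ pos Φ}, (k q : ℝ) * ((p.2 ⬝ᵥ q.1.1 : ℤ) : ℝ)| ≤
      Y * ∑ q ∈ pos Φ, |((p.2 ⬝ᵥ q.1 : ℤ) : ℝ)| := by
    refine (Finset.abs_sum_le_sum_abs _ _).trans ?_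
    rw [Finset.mul_sum, ← Finset.sum_coe_sort (pos Φ)]
    refine Finset.sum_le_sum fun q _ => ?_
    rw [abs_mul]
    exact mul_le_mul_of_nonneg_right (hk q) (abs_nonneg _)
  have h4 := sz1_le Φ hp
  set u := ((p.2 ⬝ᵥ l : ℤ) : ℝ)
  set v := ((p.2 ⬝ᵥ (1 : Fin 2 → ℤ) : ℤ) : ℝ)
  set A := ∑ q ∈ S, ((p.2 ⬝ᵥ q.1 : ℤ) : ℝ)
  set B := ∑ q : {p // p ∈ pos Φ}, (k q : ℝ) * ((p.2 ⬝ᵥ q.1.1 : ℤ) : ℝ)
  set T := ∑ q ∈ pos Φ, |((p.2 ⬝ᵥ q.1 : ℤ) : ℝ)| with hT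
  have h5 : |u + v - A - B| ≤ |u| + |v| + |A| + |B| := by
    calc |u + v - A - B| ≤ |u + v - A| + |B| := abs_sub _ _
      _ ≤ |u + v| + |A| + |B| := by linarith [abs_sub (u + v) A]
      _ ≤ |u| + |v| + |A| + |B| := by linarith [abs_add_le u v]
  have h6 : 0 ≤ T := Finset.sum_nonneg fun _ _ => abs_nonneg _
  have h7 : Y * T ≤ Y * sz1 Φ := mul_le_mul_of_nonneg_left (by linarith [abs_nonneg v]) hY
  linarith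

end LAN

open LAN in
theorem t_LAN : M_LAN := by
  intro hRGM Φ B hI hW hA m C₁ ε hm hC hε
  have hR := hRGM 2 Φ B (by norm_num) hI hW
  have hs := sz1_nn Φ
  obtain ⟨J₁, hJ₁⟩ := pow_unbounded_of_one_lt (512 * sz1 Φ) (one_lt_two : (1 : ℝ) < 2)
  have h12 : (1 : ℝ) < (2 : ℝ) ^ (12 * ε) := Real.one_lt_rpow one_lt_two (by positivity)
  obtain ⟨J₂, hJ₂⟩ := pow_unbounded_of_one_lt (1024 * (m : ℝ) ^ 2 * sz1 Φ) h12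
  refine ⟨max J₁ J₂, ?_⟩
  intro J q a x τ l hJ hq hRG hne
  obtain ⟨S, hS, k, hk, hql⟩ := term hne
  set l' := l + 1 - ∑ p ∈ S, p.1 - rs (pos Φ) k with hl'
  -- the size of `k`
  have hY0 : (0 : ℝ) < (2 : ℝ) ^ ((1 - 12 * ε) * J) := by positivity
  have hkY : ∀ p, |((k p : ℤ) : ℝ)| ≤ 2 * (m : ℝ) ^ 2 * (2 : ℝ) ^ ((1 - 12 * ε) * J) := by
    intro p
    have h1 : |k p| ≤ 2 * (m : ℤ) ^ 2 * 2 ^ (x p).val := by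
      by_contra h
      push Not at h
      exact hk p (hC.supp J (x p).val (k p) (Nat.lt_succ_iff.1 (x p).2) h)
    have h2 : |((k p : ℤ) : ℝ)| ≤ 2 * (m : ℝ) ^ 2 * 2 ^ (x p).val := by
      have : ((|k p| : ℤ) : ℝ) ≤ ((2 * (m : ℤ) ^ 2 * 2 ^ (x p).val : ℤ) : ℝ) := by exact_mod_cast h1
      push_cast at this
      exact this
    have h3 : (2 : ℝ) ^ (x p).val ≤ (2 : ℝ) ^ ((1 - 12 * ε) * J) := by
      have h4 := (hR.da J ε a x hRG).trans (hRG.mn p)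
      unfold dl at h4
      have h5 : (2 : ℝ) ^ ((12 * ε - 1) * J) * (2 : ℝ) ^ ((1 - 12 * ε) * J) = 1 := by
        rw [← Real.rpow_add two_pos]
        have : (12 * ε - 1) * (J : ℝ) + (1 - 12 * ε) * J = 0 := by ring
        rw [this, Real.rpow_zero]
      have hx0 : (0 : ℝ) < 2 ^ (x p).val := by positivity
      rw [le_div_iff₀ hx0] at h4
      calc (2 : ℝ) ^ (x p).val = ((2 : ℝ) ^ ((12 * ε - 1) * J) * 2 ^ (x p).val) * (2 : ℝ) ^ ((1 - 12 * ε) * J) := by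
            rw [mul_comm ((2 : ℝ) ^ ((12 * ε - 1) * (J : ℝ))), mul_assoc, h5, mul_one]
        _ ≤ 1 * (2 : ℝ) ^ ((1 - 12 * ε) * J) := mul_le_mul_of_nonneg_right h4 hY0.le
        _ = _ := one_mul _
    exact h2.trans (mul_le_mul_of_nonneg_left h3 (by positivity))
  -- the difference is small
  have hb : ∀ p ∈ pos Φ, (2 : ℝ) ^ J ≤ 128 * |((p.2 ⬝ᵥ l' : ℤ) : ℝ)| → (2 : ℝ) ^ J ≤ 256 * |((p.2 ⬝ᵥ l : ℤ) : ℝ)| := by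
    intro p hp h1
    have h2 := diff_le hp hS k l (by positivity) hkY
    rw [← hl'] at h2
    have h3 : 512 * sz1 Φ ≤ 2 ^ J :=
      hJ₁.le.trans (pow_le_pow_right₀ one_le_two ((le_max_left _ _).trans hJ))
    have h4 : 1024 * (m : ℝ) ^ 2 * sz1 Φ ≤ (2 : ℝ) ^ (12 * ε * J) := by
      have : (2 : ℝ) ^ (12 * ε * J) = ((2 : ℝ) ^ (12 * ε)) ^ J := by
        rw [Real.rpow_mul two_pos.le, Real.rpow_natCast]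
      rw [this]
      exact hJ₂.le.trans (pow_le_pow_right₀ h12.le ((le_max_right _ _).trans hJ))
    have h5 : (2 : ℝ) ^ (12 * ε * J) * (2 : ℝ) ^ ((1 - 12 * ε) * J) = 2 ^ J := by
      rw [← Real.rpow_add two_pos, ← Real.rpow_natCast]
      congr 1
      ring
    have h6 : 1024 * (m : ℝ) ^ 2 * sz1 Φ * (2 : ℝ) ^ ((1 - 12 * ε) * J) ≤ 2 ^ J := by
      rw [← h5]
      exact mul_le_mul_of_nonneg_right h4 hY0.le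
    nlinarith
  -- one of the numbers is large
  obtain ⟨p, hp, h1⟩ := hq.an l' hql
  have hpR : (2 : ℝ) ^ J ≤ 64 * |((p.2 ⬝ᵥ l' : ℤ) : ℝ)| := by
    have : (((2 ^ J : ℕ) : ℤ) : ℝ) ≤ ((64 * |p.2 ⬝ᵥ l'| : ℤ) : ℝ) := by exact_mod_cast h1
    push_cast at this
    exact this
  -- the two others
  have hcard : ((pos Φ).erase p).card = 2 := by
    rw [Finset.card_erase_of_mem hp, hA.card]
  obtain ⟨r, s, hrs, hers⟩ := Finset.card_eq_two.1 hcard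
  have hr : r ∈ (pos Φ).erase p := by rw [hers]; simp
  have hs' : s ∈ (pos Φ).erase p := by rw [hers]; simp
  rw [Finset.mem_erase] at hr hs'
  have htri := hA.tri₂ p hp r hr.2 s hs'.2 hr.1.symm hs'.1.symm hrs l'
  have htri' : |((p.2 ⬝ᵥ l' : ℤ) : ℝ)| ≤ |((r.2 ⬝ᵥ l' : ℤ) : ℝ)| + |((s.2 ⬝ᵥ l' : ℤ) : ℝ)| := by
    have : ((|p.2 ⬝ᵥ l'| : ℤ) : ℝ) ≤ ((|r.2 ⬝ᵥ l'| + |s.2 ⬝ᵥ l'| : ℤ) : ℝ) := by exact_mod_cast htri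
    push_cast at this
    exact this
  have key : ∃ s ∈ pos Φ, s ≠ p ∧ (2 : ℝ) ^ J ≤ 128 * |((s.2 ⬝ᵥ l' : ℤ) : ℝ)| := by
    by_cases h : (2 : ℝ) ^ J ≤ 128 * |((r.2 ⬝ᵥ l' : ℤ) : ℝ)|
    · exact ⟨r, hr.2, hr.1, h⟩
    · refine ⟨s, hs'.2, hs'.1, ?_⟩
      push Not at h
      linarith
  obtain ⟨s, hs, hsp, h2⟩ := key
  have toZ : ∀ p : (Fin 2 → ℤ) × (Fin 2 → ℤ), (2 : ℝ) ^ J ≤ 256 * |((p.2 ⬝ᵥ l : ℤ) : ℝ)| →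
      (2 ^ J : ℤ) ≤ 256 * |p.2 ⬝ᵥ l| := by
    intro p h
    have : (((2 ^ J : ℤ)) : ℝ) ≤ ((256 * |p.2 ⬝ᵥ l| : ℤ) : ℝ) := by
      push_cast
      exact h
    exact_mod_cast this
  refine ⟨⟨p, hp⟩, ⟨s, hs⟩, ?_, toZ _ (hb p hp (by linarith [abs_nonneg (((p.2 ⬝ᵥ l' : ℤ) : ℝ))])),
    toZ _ (hb s hs h2)⟩
  intro h
  exact hsp (congrArg Subtype.val h).symm

end

end STZ3
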