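import Pool.Agent.STZ3.StmtsT3
import Pool.Agent.Lib_helper91.Div

/-!
# The sum of the reciprocals of the least common multiples (module LCB)
-/

namespace STZ3

open STZ LGR MeasureTheory Matrix Filter

open scoped ComplexConjugate Matrix Real Topology

noncomputable section

namespace LCB

open Finset

theorem lcm_le (n R : ℕ) (hR : 1 ≤ R) (q : Fin n → ℕ)
    (hq : q ∈ Fintype.piFinset (fun _ : Fin n => Finset.Ico R (2 * R))) :
    1 ≤ Finset.univ.lcm q ∧ Finset.univ.lcm q ≤ (2 * R) ^ n := by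
  rw [Fintype.mem_piFinset] at hq
  have hpos : ∀ i, 0 < q i := fun i => by
    have := Finset.mem_Ico.1 (hq i); omega
  have hprod : 0 < ∏ i, q i := Finset.prod_pos (fun i _ => hpos i)
  have hdvd : Finset.univ.lcm q ∣ ∏ i, q i :=
    Finset.lcm_dvd (fun i hi => Finset.dvd_prod_of_mem q hi)
  constructor
  · exact Nat.pos_of_ne_zero (fun h0 => by
      rw [h0, zero_dvd_iff] at hdvd
      omega)
  · refine (Nat.le_of_dvd hprod hdvd).trans ?_
    calc ∏ i, q i ≤ ∏ _i : Fin n, (2 * R) :=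
          Finset.prod_le_prod' (fun i _ => (Finset.mem_Ico.1 (hq i)).2.le)
      _ = (2 * R) ^ n := by simp

theorem sum_le (n R : ℕ) (hR : 1 ≤ R) :
    ∑ q ∈ Fintype.piFinset (fun _ : Fin n => Finset.Ico R (2 * R)),
      (1 : ℝ) / ((Finset.univ.lcm q : ℕ) : ℝ) ≤
    ∑ l ∈ Finset.Icc 1 ((2 * R) ^ n), (l.divisors.card : ℝ) ^ n * ((l : ℝ))⁻¹ := by
  classical
  rw [← Finset.sum_fiberwise_of_maps_to (g := fun q : Fin n → ℕ => Finset.univ.lcm q)
    (t := Finset.Icc 1 ((2 * R) ^ n)) (fun q hq => Finset.mem_Icc.2 (lcm_le n R hR q hq))]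
  apply Finset.sum_le_sum
  intro l hl
  have hl' := Finset.mem_Icc.1 hl
  have h1 : ∑ q ∈ (Fintype.piFinset (fun _ : Fin n => Finset.Ico R (2 * R))).filter
      (fun q => Finset.univ.lcm q = l), (1 : ℝ) / ((Finset.univ.lcm q : ℕ) : ℝ) =
      (((Fintype.piFinset (fun _ : Fin n => Finset.Ico R (2 * R))).filter
      (fun q => Finset.univ.lcm q = l)).card : ℝ) * ((l : ℝ))⁻¹ := by
    rw [← nsmul_eq_mul, ← Finset.sum_const]
    apply Finset.sum_congr rfl
    intro q hq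
    rw [(Finset.mem_filter.1 hq).2, one_div]
  rw [h1]
  apply mul_le_mul_of_nonneg_right _ (by positivity)
  have h2 : ((Fintype.piFinset (fun _ : Fin n => Finset.Ico R (2 * R))).filter
      (fun q => Finset.univ.lcm q = l)) ⊆ Fintype.piFinset (fun _ : Fin n => l.divisors) := by
    intro q hq
    rw [Fintype.mem_piFinset]
    intro i
    rw [Nat.mem_divisors]
    refine ⟨?_, by omega⟩
    have h3 := (Finset.mem_filter.1 hq).2
    rw [← h3]
    exact Finset.dvd_lcm (Finset.mem_univ i)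
  have h4 := Finset.card_le_card h2
  rw [Fintype.card_piFinset] at h4
  simp only [Finset.prod_const, Finset.card_univ, Fintype.card_fin] at h4
  exact_mod_cast h4

end LCB

theorem t_LCB : S_LCB := by
  intro n ε hε
  obtain ⟨L, hL⟩ := exists_nat_gt (2 * (n : ℝ) ^ 2 / ε)
  have hL0 : 0 < L := by
    have h1 : (0 : ℝ) ≤ 2 * (n : ℝ) ^ 2 / ε := by positivity
    have h2 : (0 : ℝ) < L := lt_of_le_of_lt h1 hL
    exact_mod_cast h2
  have hLr : (0 : ℝ) < L := by exact_mod_cast hL0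
  obtain ⟨D, hD1, hD⟩ := Pool.Agent.Lib_helper91.exists_divisor_bound L hL0
  have hδ : (n : ℝ) ^ 2 * (1 / L) ≤ ε / 2 := by
    rw [div_lt_iff₀ hε] at hL
    rw [mul_one_div, div_le_iff₀ hLr]
    linarith
  refine ⟨D ^ n * (1 + 2 * n / ε) * 2 ^ ε, by positivity, ?_⟩
  intro R hR
  have hRr : (1 : ℝ) ≤ R := by exact_mod_cast hR
  have h2R : (1 : ℝ) ≤ 2 * R := by linarith
  refine (LCB.sum_le n R hR).trans ?_
  -- the divisor bound
  have hM : ∀ l ∈ Finset.Icc 1 ((2 * R) ^ n), (l.divisors.card : ℝ) ^ n * ((l : ℝ))⁻¹ ≤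
      D ^ n * (2 * R : ℝ) ^ (ε / 2) * ((l : ℝ))⁻¹ := by
    intro l hl
    have hl' := Finset.mem_Icc.1 hl
    apply mul_le_mul_of_nonneg_right _ (by positivity)
    have h1 := hD l (by omega)
    have h2 : (l : ℝ) ≤ (2 * R : ℝ) ^ n := by exact_mod_cast hl'.2
    have h3 : (l : ℝ) ^ ((1 : ℝ) / L) ≤ ((2 * R : ℝ) ^ n) ^ ((1 : ℝ) / L) :=
      Real.rpow_le_rpow (by positivity) h2 (by positivity)
    have h4 : (l.divisors.card : ℝ) ≤ D * ((2 * R : ℝ) ^ n) ^ ((1 : ℝ) / L) :=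
      h1.trans (mul_le_mul_of_nonneg_left h3 (by linarith))
    have h5 : (l.divisors.card : ℝ) ^ n ≤ (D * ((2 * R : ℝ) ^ n) ^ ((1 : ℝ) / L)) ^ n :=
      pow_le_pow_left₀ (by positivity) h4 n
    refine h5.trans ?_
    rw [mul_pow]
    apply mul_le_mul_of_nonneg_left _ (by positivity)
    rw [← Real.rpow_natCast ((2 * R : ℝ)) n, ← Real.rpow_mul (by positivity),
      ← Real.rpow_natCast _ n, ← Real.rpow_mul (by positivity)]
    apply Real.rpow_le_rpow_of_exponent_le h2R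
    calc (n : ℝ) * (1 / L) * n = (n : ℝ) ^ 2 * (1 / L) := by ring
      _ ≤ ε / 2 := hδ
  refine (Finset.sum_le_sum hM).trans ?_
  rw [← Finset.mul_sum]
  have hH : ∑ l ∈ Finset.Icc 1 ((2 * R) ^ n), ((l : ℝ))⁻¹ ≤
      1 + Real.log (((2 * R) ^ n : ℕ) : ℝ) := by
    have h1 := harmonic_le_one_add_log ((2 * R) ^ n)
    rw [harmonic_eq_sum_Icc] at h1
    push_cast at h1 ⊢
    exact h1
  have hlog : Real.log (((2 * R) ^ n : ℕ) : ℝ) ≤ n * ((2 * R : ℝ) ^ (ε / 2) / (ε / 2)) := by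
    push_cast
    rw [Real.log_pow]
    apply mul_le_mul_of_nonneg_left _ (by positivity)
    exact Real.log_le_rpow_div (by positivity) (by positivity)
  have h1le : (1 : ℝ) ≤ (2 * R : ℝ) ^ (ε / 2) := Real.one_le_rpow h2R (by positivity)
  have hsum : ∑ l ∈ Finset.Icc 1 ((2 * R) ^ n), ((l : ℝ))⁻¹ ≤
      (1 + 2 * n / ε) * (2 * R : ℝ) ^ (ε / 2) := by
    refine hH.trans ?_
    have e : (n : ℝ) * ((2 * R : ℝ) ^ (ε / 2) / (ε / 2)) =
        2 * n / ε * (2 * R : ℝ) ^ (ε / 2) := by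
      field_simp
    rw [e] at hlog
    nlinarith
  refine (mul_le_mul_of_nonneg_left hsum (by positivity)).trans ?_
  have e1 : (2 * R : ℝ) ^ (ε / 2) * (2 * R : ℝ) ^ (ε / 2) = 2 ^ ε * (R : ℝ) ^ ε := by
    rw [← Real.rpow_add (by positivity), add_halves, Real.mul_rpow (by norm_num) (by positivity)]
  have e2 : D ^ n * (2 * R : ℝ) ^ (ε / 2) * ((1 + 2 * n / ε) * (2 * R : ℝ) ^ (ε / 2)) =
      D ^ n * (1 + 2 * n / ε) * ((2 * R : ℝ) ^ (ε / 2) * (2 * R : ℝ) ^ (ε / 2)) := by ring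
  rw [e2, e1]
  apply le_of_eq
  ring

end

end STZ3
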