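import Pool.Agent.STZ3.StS

/-!
# Compact simple groups of rank two: module LEA, the product rule (7.2)
-/

namespace STZ3

open STZ LGR MeasureTheory Matrix Filter

open scoped ComplexConjugate Matrix Real Topology

noncomputable section

namespace LEA

variable {ι : Type} [Fintype ι] [DecidableEq ι]

/-- the weight of the element `p` of the set `T` in the mixed difference -/
def wt (A A' T : Finset ι) (p : ι) : ℂ :=
  if p ∈ A then (if p ∈ T then -1 else 1) else
    if p ∈ A' then (if p ∈ T then 1 else 0) else (if p ∈ T then 0 else 1)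

theorem cd_eq (A A' : Finset ι) (hd : Disjoint A A') (F : Finset ι → ℂ) :
    ∑ S ∈ A.powerset, (-1 : ℂ) ^ S.card * F (S ∪ A') = ∑ T : Finset ι, (∏ p, wt A A' T p) * F T := by
  have hA : ∀ p ∈ A', p ∉ A := fun p hp hpA => Finset.disjoint_left.1 hd hpA hp
  have h1 : ∑ T : Finset ι, (∏ p, wt A A' T p) * F T =
      ∑ T ∈ A.powerset.image (fun S => S ∪ A'), (∏ p, wt A A' T p) * F T := by
    refine (Finset.sum_subset (Finset.subset_univ _) fun T _ hT => ?_).symm
    have h2 : ∃ p, wt A A' T p = 0 := by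
      by_contra hne
      push Not at hne
      apply hT
      refine Finset.mem_image.2 ⟨T \ A', ?_, ?_⟩
      · refine Finset.mem_powerset.2 fun p hp => ?_
        obtain ⟨hpT, hpA'⟩ := Finset.mem_sdiff.1 hp
        by_contra hpA
        exact hne p (by simp [wt, hpT, hpA', hpA])
      · refine Finset.sdiff_union_of_subset fun p hp => ?_
        by_contra hpT
        exact hne p (by simp [wt, hpT, hp, hA p hp])
    obtain ⟨p, hp⟩ := h2
    rw [Finset.prod_eq_zero (Finset.mem_univ p) hp, zero_mul]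
  rw [h1, Finset.sum_image]
  · refine Finset.sum_congr rfl fun S hS => ?_
    have hS' := Finset.mem_powerset.1 hS
    congr 1
    have h3 : ∀ p, wt A A' (S ∪ A') p = if p ∈ S then -1 else 1 := by
      intro p
      by_cases hpA : p ∈ A
      · have hpA' : p ∉ A' := fun h => hA p h hpA
        simp [wt, hpA, hpA']
      · have hpS : p ∉ S := fun h => hpA (hS' h)
        by_cases hpA' : p ∈ A'
        · simp [wt, hpA, hpA', hpS]
        · simp [wt, hpA, hpA', hpS]
    simp_rw [h3]
    rw [Finset.prod_ite]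
    simp
  · intro S hS S' hS' h
    have hS1 := Finset.mem_powerset.1 (Finset.mem_coe.1 hS)
    have hS2 := Finset.mem_powerset.1 (Finset.mem_coe.1 hS')
    simp only at h
    ext p
    have h4 := Finset.ext_iff.1 h p
    simp only [Finset.mem_union] at h4
    constructor
    · intro hp
      rcases h4.1 (Or.inl hp) with h5 | h5
      · exact h5
      · exact absurd (hS1 hp) (hA p h5)
    · intro hp
      rcases h4.2 (Or.inl hp) with h5 | h5
      · exact h5
      · exact absurd (hS2 hp) (hA p h5)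

/-- the weight of one element, for the three functions together -/
def W (i : Fin 3) (a b c : Prop) [Decidable a] [Decidable b] [Decidable c] : ℂ :=
  if i = 0 then (if a then -1 else 1) * (if b then 0 else 1) * (if c then 0 else 1) else
    if i = 1 then (if a then 1 else 0) * (if b then -1 else 1) * (if c then 0 else 1) else
      (if a then 1 else 0) * (if b then 1 else 0) * (if c then -1 else 1)

theorem W_sum (a b c : Prop) [Decidable a] [Decidable b] [Decidable c] :
    ∑ i : Fin 3, W i a b c = if (a ↔ b) ∧ (b ↔ c) then (if a then -1 else 1) else 0 := by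
  by_cases ha : a <;> by_cases hb : b <;> by_cases hc : c <;>
    simp [Fin.sum_univ_three, W, ha, hb, hc]

/-- the set of the `p` with `f p = i` -/
def fi (f : ι → Fin 3) (i : Fin 3) : Finset ι := Finset.univ.filter fun p => f p = i

theorem wt_prod (f : ι → Fin 3) (T₁ T₂ T₃ : Finset ι) (p : ι) :
    wt (fi f 0) (fi f 0)ᶜ T₁ p * wt (fi f 1) (fi f 2) T₂ p * wt (fi f 2) ∅ T₃ p =
      W (f p) (p ∈ T₁) (p ∈ T₂) (p ∈ T₃) := by
  have h : f p = 0 ∨ f p = 1 ∨ f p = 2 := by
    generalize f p = x
    fin_cases x <;> simp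
  rcases h with h | h | h <;> simp [wt, fi, W, h]

theorem prod_W (T₁ T₂ T₃ : Finset ι) :
    ∑ f : ι → Fin 3, ∏ p, W (f p) (p ∈ T₁) (p ∈ T₂) (p ∈ T₃) =
      if T₁ = T₂ then (if T₂ = T₃ then (-1 : ℂ) ^ T₁.card else 0) else 0 := by
  have h1 : ∑ f : ι → Fin 3, ∏ p, W (f p) (p ∈ T₁) (p ∈ T₂) (p ∈ T₃) =
      ∏ p, ∑ i : Fin 3, W i (p ∈ T₁) (p ∈ T₂) (p ∈ T₃) := by
    rw [Finset.prod_univ_sum, Fintype.piFinset_univ]
  rw [h1]
  simp_rw [W_sum]
  by_cases h12 : T₁ = T₂
  · subst h12
    by_cases h23 : T₁ = T₃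
    · subst h23
      simp only [if_true, and_self]
      rw [Finset.prod_ite]
      simp
    · rw [if_pos rfl, if_neg h23]
      have : ∃ p, ¬ (p ∈ T₁ ↔ p ∈ T₃) := by
        by_contra hne
        push Not at hne
        exact h23 (Finset.ext hne)
      obtain ⟨p, hp⟩ := this
      exact Finset.prod_eq_zero (Finset.mem_univ p) (if_neg fun h => hp h.2)
  · rw [if_neg h12]
    have : ∃ p, ¬ (p ∈ T₁ ↔ p ∈ T₂) := by
      by_contra hne
      push Not at hne
      exact h12 (Finset.ext hne)
    obtain ⟨p, hp⟩ := this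
    exact Finset.prod_eq_zero (Finset.mem_univ p) (if_neg fun h => hp h.1)

/-- the product rule for three functions of sets -/
theorem rule (E D n : Finset ι → ℂ) :
    ∑ S : Finset ι, (-1 : ℂ) ^ S.card * (E S * D S * n S) =
      ∑ f : ι → Fin 3, (∑ S ∈ (fi f 0).powerset, (-1 : ℂ) ^ S.card * E (S ∪ (fi f 0)ᶜ)) *
        (∑ S ∈ (fi f 1).powerset, (-1 : ℂ) ^ S.card * D (S ∪ fi f 2)) *
          ∑ S ∈ (fi f 2).powerset, (-1 : ℂ) ^ S.card * n (S ∪ ∅) := by
  have h1 : ∀ f : ι → Fin 3, (∑ S ∈ (fi f 0).powerset, (-1 : ℂ) ^ S.card * E (S ∪ (fi f 0)ᶜ)) *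
        (∑ S ∈ (fi f 1).powerset, (-1 : ℂ) ^ S.card * D (S ∪ fi f 2)) *
          ∑ S ∈ (fi f 2).powerset, (-1 : ℂ) ^ S.card * n (S ∪ ∅) =
      ∑ T₁ : Finset ι, ∑ T₂ : Finset ι, ∑ T₃ : Finset ι,
        (∏ p, W (f p) (p ∈ T₁) (p ∈ T₂) (p ∈ T₃)) * (E T₁ * D T₂ * n T₃) := by
    intro f
    have hd12 : Disjoint (fi f 1) (fi f 2) := by
      refine Finset.disjoint_left.2 fun p hp hp' => ?_
      simp only [fi, Finset.mem_filter, Finset.mem_univ, true_and] at hp hp'
      rw [hp] at hp'
      exact absurd hp' (by decide)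
    rw [cd_eq _ _ disjoint_compl_right, cd_eq _ _ hd12, cd_eq _ _ (Finset.disjoint_empty_right _)]
    rw [Finset.sum_mul_sum, Finset.sum_mul]
    refine Finset.sum_congr rfl fun T₁ _ => ?_
    rw [Finset.sum_mul]
    refine Finset.sum_congr rfl fun T₂ _ => ?_
    rw [Finset.mul_sum]
    refine Finset.sum_congr rfl fun T₃ _ => ?_
    simp_rw [← wt_prod, Finset.prod_mul_distrib]
    ring
  simp_rw [h1]
  rw [Finset.sum_comm]
  have h2 : ∀ T₁ : Finset ι, ∑ f : ι → Fin 3, ∑ T₂ : Finset ι, ∑ T₃ : Finset ι,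
        (∏ p, W (f p) (p ∈ T₁) (p ∈ T₂) (p ∈ T₃)) * (E T₁ * D T₂ * n T₃) =
      (-1 : ℂ) ^ T₁.card * (E T₁ * D T₁ * n T₁) := by
    intro T₁
    rw [Finset.sum_comm]
    have h3 : ∀ T₂ : Finset ι, ∑ f : ι → Fin 3, ∑ T₃ : Finset ι,
        (∏ p, W (f p) (p ∈ T₁) (p ∈ T₂) (p ∈ T₃)) * (E T₁ * D T₂ * n T₃) =
        if T₁ = T₂ then (-1 : ℂ) ^ T₁.card * (E T₁ * D T₁ * n T₁) else 0 := by
      intro T₂
      rw [Finset.sum_comm]
      simp_rw [← Finset.sum_mul, prod_W]
      by_cases h : T₁ = T₂
      · subst h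
        simp
      · simp [h]
    simp_rw [h3]
    simp
  simp_rw [h2]

end LEA

open LEA in
theorem t_LEA : S_LEA := by
  intro r Φ E D K cc g l hcc
  -- the shift of the summation index
  have hn : ∀ S : Finset {p // p ∈ pos Φ}, ∑ k ∈ kB Φ K, (∏ p, cc p (k p)) * g (sh S l - rs (pos Φ) k) =
      ∑ k ∈ kB Φ (K + 1), (∏ p, if p ∈ S then cc p (k p - 1) else cc p (k p)) *
        g (l + 1 - rs (pos Φ) k) := by
    intro S
    have h1 : ∑ k ∈ kB Φ K, (∏ p, cc p (k p)) * g (sh S l - rs (pos Φ) k) =
        ∑ k ∈ (kB Φ K).image (fun k p => if p ∈ S then k p + 1 else k p),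
          (∏ p, if p ∈ S then cc p (k p - 1) else cc p (k p)) * g (l + 1 - rs (pos Φ) k) := by
      rw [Finset.sum_image]
      · refine Finset.sum_congr rfl fun k _ => ?_
        congr 1
        · refine Finset.prod_congr rfl fun p _ => ?_
          by_cases hp : p ∈ S
          · simp [hp]
          · simp [hp]
        · congr 1
          have h2 : rs (pos Φ) (fun p => if p ∈ S then k p + 1 else k p) = rs (pos Φ) k + ∑ p ∈ S, p.1.1 := by
            have h3 : ∀ p : {p // p ∈ pos Φ}, (if p ∈ S then k p + 1 else k p) • p.1.1 =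
                k p • p.1.1 + if p ∈ S then p.1.1 else 0 := by
              intro p
              by_cases hp : p ∈ S
              · simp [hp, add_smul]
              · simp [hp]
            unfold rs
            rw [Finset.sum_congr rfl fun p _ => h3 p, Finset.sum_add_distrib]
            congr 1
            rw [← Finset.sum_filter, Finset.filter_univ_mem]
          rw [h2, sh]
          abel
      · intro k _ k' _ h
        ext p
        have h4 := congrFun h p
        simp only at h4
        by_cases hp : p ∈ S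
        · simpa [hp] using h4
        · simpa [hp] using h4
    rw [h1]
    refine Finset.sum_subset ?_ ?_
    · intro k hk
      obtain ⟨k', hk', rfl⟩ := Finset.mem_image.1 hk
      rw [kB, Fintype.mem_piFinset] at hk' ⊢
      intro p
      have h5 := Finset.mem_Icc.1 (hk' p)
      refine Finset.mem_Icc.2 ?_
      push_cast
      by_cases hp : p ∈ S
      · simp only [hp, if_true]
        constructor <;> linarith [h5.1, h5.2]
      · simp only [hp, if_false]
        constructor <;> linarith [h5.1, h5.2]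
    · intro k _ hk
      have h6 : ∃ p, (if p ∈ S then cc p (k p - 1) else cc p (k p)) = 0 := by
        by_contra hne
        push Not at hne
        apply hk
        refine Finset.mem_image.2 ⟨fun p => if p ∈ S then k p - 1 else k p, ?_, ?_⟩
        · rw [kB, Fintype.mem_piFinset]
          intro p
          have h7 := hne p
          rw [Finset.mem_Icc, ← abs_le]
          by_contra h8
          push Not at h8
          by_cases hp : p ∈ S
          · simp only [hp, if_true] at h7 h8
            exact h7 (hcc p _ h8)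
          · simp only [hp, if_false] at h7 h8
            exact h7 (hcc p _ h8)
        · ext p
          by_cases hp : p ∈ S
          · simp [hp]
          · simp [hp]
      obtain ⟨p, hp⟩ := h6
      rw [Finset.prod_eq_zero (Finset.mem_univ p) hp, zero_mul]
  have hL : ∀ S : Finset {p // p ∈ pos Φ}, (((-1 : ℝ) ^ S.card * (E S * D S) : ℝ) : ℂ) *
      ∑ k ∈ kB Φ K, (∏ p, cc p (k p)) * g (sh S l - rs (pos Φ) k) =
      (-1 : ℂ) ^ S.card * ((E S : ℂ) * (D S : ℂ) * ∑ k ∈ kB Φ (K + 1),
        (∏ p, if p ∈ S then cc p (k p - 1) else cc p (k p)) * g (l + 1 - rs (pos Φ) k)) := by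
    intro S
    rw [hn S]
    push_cast
    ring
  rw [Finset.sum_congr rfl fun S _ => hL S]
  rw [rule (fun S => (E S : ℂ)) (fun S => (D S : ℂ)) (fun S => ∑ k ∈ kB Φ (K + 1),
        (∏ p, if p ∈ S then cc p (k p - 1) else cc p (k p)) * g (l + 1 - rs (pos Φ) k))]
  refine Finset.sum_congr rfl fun f _ => ?_
  have hE : ((cd (fc f 0) (fc f 0)ᶜ E : ℝ) : ℂ) =
      ∑ S ∈ (fi f 0).powerset, (-1 : ℂ) ^ S.card * ((E (S ∪ (fi f 0)ᶜ) : ℝ) : ℂ) := by
    unfold cd
    push_cast
    rfl
  have hD : ((cd (fc f 1) (fc f 2) D : ℝ) : ℂ) =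
      ∑ S ∈ (fi f 1).powerset, (-1 : ℂ) ^ S.card * ((D (S ∪ fi f 2) : ℝ) : ℂ) := by
    unfold cd
    push_cast
    rfl
  have hN : ∑ S ∈ (fi f 2).powerset, (-1 : ℂ) ^ S.card * ∑ k ∈ kB Φ (K + 1),
      (∏ p, if p ∈ S ∪ ∅ then cc p (k p - 1) else cc p (k p)) * g (l + 1 - rs (pos Φ) k) =
      ∑ k ∈ kB Φ (K + 1), (∏ p, if f p = 2 then cc p (k p) - cc p (k p - 1) else cc p (k p)) *
        g (l + 1 - rs (pos Φ) k) := by
    simp_rw [Finset.mul_sum]
    rw [Finset.sum_comm]
    refine Finset.sum_congr rfl fun k _ => ?_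
    simp_rw [← mul_assoc]
    rw [← Finset.sum_mul]
    congr 1
    have h9 : ∀ p, (if f p = 2 then cc p (k p) - cc p (k p - 1) else cc p (k p)) =
        (if f p = 2 then -cc p (k p - 1) else 0) + cc p (k p) := by
      intro p
      by_cases hp : f p = 2
      · simp only [hp, if_true]
        ring
      · simp [hp]
    simp_rw [h9]
    rw [Finset.prod_add]
    refine Finset.sum_subset_zero_on_sdiff (Finset.powerset_mono.2 (Finset.subset_univ _)) ?_ ?_
    · intro T hT
      obtain ⟨_, hT2⟩ := Finset.mem_sdiff.1 hT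
      rw [Finset.mem_powerset, Finset.subset_iff] at hT2
      push Not at hT2
      obtain ⟨p, hp, hpf⟩ := hT2
      have : f p ≠ 2 := fun h => hpf (by simp [fi, h])
      rw [Finset.prod_eq_zero hp (if_neg this), zero_mul]
    · intro T hT
      have hT' := Finset.mem_powerset.1 hT
      have h10 : ∏ p ∈ T, (if f p = 2 then -cc p (k p - 1) else 0) = (-1 : ℂ) ^ T.card * ∏ p ∈ T, cc p (k p - 1) := by
        rw [← Finset.prod_const, ← Finset.prod_mul_distrib]
        refine Finset.prod_congr rfl fun p hp => ?_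
        have h11 : f p = 2 := by
          have := hT' hp
          simpa [fi] using this
        rw [if_pos h11]
        ring
      rw [h10, mul_assoc]
      congr 1
      rw [← Finset.prod_mul_prod_compl T]
      congr 1
      · refine Finset.prod_congr rfl fun p hp => ?_
        simp [hp]
      · rw [← Finset.compl_eq_univ_sdiff]
        refine Finset.prod_congr rfl fun p hp => ?_
        have : p ∉ T := Finset.mem_compl.1 hp
        simp [this]
  rw [hN]
  push_cast
  rw [hE, hD]

end

end STZ3
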