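import Pool.Agent.STZ3.StS

/-!
# Module SHU_LEB: mixed differences of the dimension polynomial (MP_bea16e_an)
-/

namespace STZ3

open STZ LGR MeasureTheory Matrix Filter

open scoped ComplexConjugate Matrix Real Topology

noncomputable section

namespace LEB

variable {ι κ : Type} [DecidableEq ι] [DecidableEq κ]

/-- the alternating sum of a product of affine functions of sets -/
def D (c : κ → ι → ℝ) (A : Finset ι) (Q : Finset κ) (a : κ → ℝ) : ℝ :=
  ∑ S ∈ A.powerset, (-1 : ℝ) ^ S.card * ∏ q ∈ Q, (a q + ∑ s ∈ S, c q s)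

/-- the elementary symmetric sum -/
def e (w : κ → ℝ) (k : ℕ) (Q : Finset κ) : ℝ :=
  ∑ R ∈ Q.powerset, if R.card = k then ∏ q ∈ Q \ R, w q else 0

theorem e_nonneg (w : κ → ℝ) (hw : ∀ q, 0 ≤ w q) (k : ℕ) (Q : Finset κ) : 0 ≤ e w k Q := by
  unfold e
  refine Finset.sum_nonneg fun R _ => ?_
  split_ifs
  · exact Finset.prod_nonneg fun q _ => hw q
  · exact le_rfl

theorem e_insert (w : κ → ℝ) (k : ℕ) (Q : Finset κ) (q0 : κ) (h : q0 ∉ Q) :
    e w k (insert q0 Q) = w q0 * e w k Q + ∑ R ∈ Q.powerset, if R.card + 1 = k then ∏ q ∈ Q \ R, w q else 0 := by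
  unfold e
  rw [Finset.sum_powerset_insert h, Finset.mul_sum]
  congr 1
  · refine Finset.sum_congr rfl fun R hR => ?_
    have hR' : q0 ∉ R := fun hq => h (Finset.mem_powerset.1 hR hq)
    rw [Finset.insert_sdiff_of_notMem _ hR', mul_ite, mul_zero]
    congr 1
    rw [Finset.prod_insert (fun hq => h (Finset.mem_sdiff.1 hq).1)]
  · refine Finset.sum_congr rfl fun R hR => ?_
    have hR' : q0 ∉ R := fun hq => h (Finset.mem_powerset.1 hR hq)
    rw [Finset.card_insert_of_notMem hR', Finset.insert_sdiff_insert, Finset.sdiff_insert_of_notMem h]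

theorem D_insert (c : κ → ι → ℝ) (A : Finset ι) (Q : Finset κ) (a : κ → ℝ) (q0 : κ) (h : q0 ∉ Q) :
    D c A (insert q0 Q) a =
      a q0 * D c A Q a - ∑ s ∈ A, c q0 s * D c (A.erase s) Q (fun q => a q + c q s) := by
  unfold D
  have h1 : ∀ S ∈ A.powerset, (-1 : ℝ) ^ S.card * ∏ q ∈ insert q0 Q, (a q + ∑ s ∈ S, c q s) =
      a q0 * ((-1 : ℝ) ^ S.card * ∏ q ∈ Q, (a q + ∑ s ∈ S, c q s)) +
      ∑ s ∈ A, if s ∈ S then c q0 s * ((-1 : ℝ) ^ S.card * ∏ q ∈ Q, (a q + ∑ s ∈ S, c q s)) else 0 := by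
    intro S hS
    have hSA : S ⊆ A := Finset.mem_powerset.1 hS
    rw [Finset.prod_insert h, ← Finset.sum_filter, ← Finset.sum_mul]
    have : A.filter (fun s => s ∈ S) = S := by
      ext s; simp only [Finset.mem_filter]; exact ⟨fun hh => hh.2, fun hh => ⟨hSA hh, hh⟩⟩
    rw [this]
    ring
  rw [Finset.sum_congr rfl h1, Finset.sum_add_distrib, ← Finset.mul_sum, sub_eq_add_neg, Finset.sum_comm,
    ← Finset.sum_neg_distrib]
  congr 1
  refine Finset.sum_congr rfl fun s hs => ?_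
  conv_lhs => rw [← Finset.insert_erase hs]
  rw [Finset.sum_powerset_insert (Finset.notMem_erase s A)]
  have h2 : ∀ S ∈ (A.erase s).powerset, s ∉ S := fun S hS hh =>
    Finset.notMem_erase s A (Finset.mem_powerset.1 hS hh)
  rw [Finset.sum_eq_zero (fun S hS => by rw [if_neg (h2 S hS)]), zero_add, Finset.mul_sum,
    ← Finset.sum_neg_distrib]
  refine Finset.sum_congr rfl fun S hS => ?_
  rw [if_pos (Finset.mem_insert_self s S), Finset.card_insert_of_notMem (h2 S hS)]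
  have h3 : ∀ q ∈ Q, (a q + ∑ s' ∈ insert s S, c q s') = (a q + c q s + ∑ s' ∈ S, c q s') := by
    intro q _
    rw [Finset.sum_insert (h2 S hS)]; ring
  rw [Finset.prod_congr rfl h3, pow_succ]
  ring

theorem D_le (c : κ → ι → ℝ) (w : κ → ℝ) (hw : ∀ q, 0 ≤ w q) (B : ℝ) (hB : 0 ≤ B) (Q : Finset κ) :
    ∀ (A : Finset ι) (a : κ → ℝ), (∀ q, ∑ s ∈ A, |c q s| ≤ B) → (∀ q, |a q| + ∑ s ∈ A, |c q s| ≤ B * w q) →
      |D c A Q a| ≤ B ^ Q.card * e w A.card Q := by
  induction Q using Finset.induction_on with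
  | empty =>
    intro A a _ _
    unfold D e
    simp only [Finset.prod_empty, mul_one, Finset.card_empty, pow_zero, Finset.powerset_empty,
      Finset.sum_singleton, Finset.empty_sdiff, one_mul]
    rcases Finset.eq_empty_or_nonempty A with h | h
    · subst h; simp
    · have h0 := Finset.sum_powerset_neg_one_pow_card_of_nonempty h
      have h1 : (∑ S ∈ A.powerset, (-1 : ℝ) ^ S.card) = 0 := by exact_mod_cast h0
      rw [h1, abs_zero]
      split_ifs <;> norm_num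
  | insert q0 Q h ih =>
    intro A a h1 h2
    rw [D_insert c A Q a q0 h, Finset.card_insert_of_notMem h, e_insert w _ Q q0 h]
    have hBQ : 0 ≤ B ^ Q.card := pow_nonneg hB _
    have e0 : 0 ≤ e w A.card Q := e_nonneg w hw _ _
    have ha : |a q0| ≤ B * w q0 := by
      have := h2 q0
      have h3 : 0 ≤ ∑ s ∈ A, |c q0 s| := Finset.sum_nonneg fun _ _ => abs_nonneg _
      linarith
    have t1 : |a q0 * D c A Q a| ≤ (B * w q0) * (B ^ Q.card * e w A.card Q) := by
      rw [abs_mul]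
      exact mul_le_mul ha (ih A a h1 h2) (abs_nonneg _) (mul_nonneg hB (hw q0))
    set E : ℝ := ∑ R ∈ Q.powerset, if R.card + 1 = A.card then ∏ q ∈ Q \ R, w q else 0 with hE
    have hE0 : 0 ≤ E := by
      refine Finset.sum_nonneg fun R _ => ?_
      split_ifs
      · exact Finset.prod_nonneg fun q _ => hw q
      · exact le_rfl
    have t2 : |∑ s ∈ A, c q0 s * D c (A.erase s) Q (fun q => a q + c q s)| ≤ B * (B ^ Q.card * E) := by
      refine (Finset.abs_sum_le_sum_abs _ _).trans ?_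
      calc ∑ s ∈ A, |c q0 s * D c (A.erase s) Q (fun q => a q + c q s)| ≤
          ∑ s ∈ A, |c q0 s| * (B ^ Q.card * E) := by
            refine Finset.sum_le_sum fun s hs => ?_
            rw [abs_mul]
            refine mul_le_mul_of_nonneg_left ?_ (abs_nonneg _)
            have hsub : ∀ q, |c q s| + ∑ s' ∈ A.erase s, |c q s'| = ∑ s' ∈ A, |c q s'| := fun q =>
              Finset.add_sum_erase A (fun s' => |c q s'|) hs
            refine (ih (A.erase s) (fun q => a q + c q s) (fun q => ?_) (fun q => ?_)).trans (le_of_eq ?_)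
            · have := hsub q
              have h4 := abs_nonneg (c q s)
              have h5 := h1 q
              linarith
            · have := hsub q
              have h4 := abs_add_le (a q) (c q s)
              have h5 := h2 q
              linarith
            · congr 1
              rw [hE]
              unfold e
              refine Finset.sum_congr rfl fun R _ => ?_
              have hc : (A.erase s).card + 1 = A.card := Finset.card_erase_add_one hs
              have : (R.card = (A.erase s).card) ↔ (R.card + 1 = A.card) := by omega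
              simp only [this]
        _ = (∑ s ∈ A, |c q0 s|) * (B ^ Q.card * E) := by rw [Finset.sum_mul]
        _ ≤ B * (B ^ Q.card * E) := mul_le_mul_of_nonneg_right (h1 q0) (mul_nonneg hBQ hE0)
    have t3 : |a q0 * D c A Q a - ∑ s ∈ A, c q0 s * D c (A.erase s) Q (fun q => a q + c q s)| ≤
        |a q0 * D c A Q a| + |∑ s ∈ A, c q0 s * D c (A.erase s) Q (fun q => a q + c q s)| := abs_sub _ _
    calc _ ≤ (B * w q0) * (B ^ Q.card * e w A.card Q) + B * (B ^ Q.card * E) := t3.trans (add_le_add t1 t2)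
      _ = B ^ (Q.card + 1) * (w q0 * e w A.card Q + E) := by rw [pow_succ]; ring

end LEB

open LEB in
theorem t_LEB : S_LEB := by
  intro r Φ
  set K : ℝ := ∑ q : {p // p ∈ pos Φ}, (|((q.1.2 ⬝ᵥ (1 : Fin r → ℤ) : ℤ) : ℝ)| +
    ∑ s : {p // p ∈ pos Φ}, |((q.1.2 ⬝ᵥ s.1.1 : ℤ) : ℝ)|) with hK
  set N : ℝ := ∏ p ∈ pos Φ, ((p.2 ⬝ᵥ (1 : Fin r → ℤ) : ℤ) : ℝ) with hN
  have hK0 : 0 ≤ K := by
    refine Finset.sum_nonneg fun q _ => add_nonneg (abs_nonneg _) (Finset.sum_nonneg fun s _ => abs_nonneg _)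
  have hKq : ∀ q : {p // p ∈ pos Φ}, |((q.1.2 ⬝ᵥ (1 : Fin r → ℤ) : ℤ) : ℝ)| +
      ∑ s : {p // p ∈ pos Φ}, |((q.1.2 ⬝ᵥ s.1.1 : ℤ) : ℝ)| ≤ K := by
    intro q
    rw [hK]
    exact Finset.single_le_sum (f := fun q : {p // p ∈ pos Φ} => (|((q.1.2 ⬝ᵥ (1 : Fin r → ℤ) : ℤ) : ℝ)| +
      ∑ s : {p // p ∈ pos Φ}, |((q.1.2 ⬝ᵥ s.1.1 : ℤ) : ℝ)|))
      (fun q _ => add_nonneg (abs_nonneg _) (Finset.sum_nonneg fun s _ => abs_nonneg _)) (Finset.mem_univ q)
  refine ⟨|N⁻¹| * (1 + K) ^ (Finset.univ : Finset {p // p ∈ pos Φ}).card,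
    mul_nonneg (abs_nonneg _) (pow_nonneg (by linarith) _), fun f l => ?_⟩
  set c : {p // p ∈ pos Φ} → {p // p ∈ pos Φ} → ℝ := fun q s => -((q.1.2 ⬝ᵥ s.1.1 : ℤ) : ℝ) with hc
  set a : {p // p ∈ pos Φ} → ℝ := fun q => ((q.1.2 ⬝ᵥ l : ℤ) : ℝ) + ((q.1.2 ⬝ᵥ (1 : Fin r → ℤ) : ℤ) : ℝ) +
    ∑ s ∈ fc f 2, c q s with ha
  set w : {p // p ∈ pos Φ} → ℝ := fun q => 1 + |((q.1.2 ⬝ᵥ l : ℤ) : ℝ)| with hw
  have hdisj : Disjoint (fc f 1) (fc f 2) := by
    rw [Finset.disjoint_left]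
    intro p h1 h2
    simp only [fc, Finset.mem_filter, Finset.mem_univ, true_and] at h1 h2
    rw [h1] at h2
    exact absurd h2 (by decide)
  have hD : cd (fc f 1) (fc f 2) (fun S => dR Φ (sh S l)) = N⁻¹ * D c (fc f 1) Finset.univ a := by
    unfold cd D
    rw [Finset.mul_sum]
    refine Finset.sum_congr rfl fun S hS => ?_
    have hSA : S ⊆ fc f 1 := Finset.mem_powerset.1 hS
    have hd2 : Disjoint S (fc f 2) := Finset.disjoint_of_subset_left hSA hdisj
    have hdR : dR Φ (sh (S ∪ fc f 2) l) = N⁻¹ * ∏ q : {p // p ∈ pos Φ}, (a q + ∑ s ∈ S, c q s) := by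
      unfold dR
      rw [← hN, div_eq_inv_mul]
      congr 1
      rw [← Finset.prod_coe_sort]
      refine Finset.prod_congr rfl fun q _ => ?_
      have : (q.1.2 ⬝ᵥ sh (S ∪ fc f 2) l : ℤ) = q.1.2 ⬝ᵥ l + q.1.2 ⬝ᵥ (1 : Fin r → ℤ) -
          (∑ s ∈ S, q.1.2 ⬝ᵥ s.1.1 + ∑ s ∈ fc f 2, q.1.2 ⬝ᵥ s.1.1) := by
        unfold sh
        rw [dotProduct_sub, dotProduct_add, dotProduct_sum, Finset.sum_union hd2]
      rw [this]
      simp only [ha, hc]
      push_cast
      rw [Finset.sum_neg_distrib, Finset.sum_neg_distrib]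
      ring
    beta_reduce
    rw [hdR]
    ring
  rw [hD, abs_mul]
  have hmain := D_le c w (fun q => by simp only [hw]; positivity) (1 + K) (by linarith) Finset.univ (fc f 1) a
    (fun q => by
      calc ∑ s ∈ fc f 1, |c q s| ≤ ∑ s : {p // p ∈ pos Φ}, |c q s| :=
            Finset.sum_le_sum_of_subset_of_nonneg (Finset.subset_univ _) fun _ _ _ => abs_nonneg _
        _ = ∑ s : {p // p ∈ pos Φ}, |((q.1.2 ⬝ᵥ s.1.1 : ℤ) : ℝ)| := by simp only [hc, abs_neg]
        _ ≤ 1 + K := by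
          have := hKq q
          have h2 := abs_nonneg ((q.1.2 ⬝ᵥ (1 : Fin r → ℤ) : ℤ) : ℝ)
          linarith)
    (fun q => by
      have h1 : |a q| ≤ |((q.1.2 ⬝ᵥ l : ℤ) : ℝ)| + |((q.1.2 ⬝ᵥ (1 : Fin r → ℤ) : ℤ) : ℝ)| +
          ∑ s ∈ fc f 2, |c q s| := by
        simp only [ha]
        refine (abs_add_le _ _).trans (add_le_add (abs_add_le _ _) (Finset.abs_sum_le_sum_abs _ _))
      have h2 : ∑ s ∈ fc f 1, |c q s| + ∑ s ∈ fc f 2, |c q s| ≤ ∑ s : {p // p ∈ pos Φ}, |c q s| := by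
        rw [← Finset.sum_union hdisj]
        exact Finset.sum_le_sum_of_subset_of_nonneg (Finset.subset_univ _) fun _ _ _ => abs_nonneg _
      have h3 : ∑ s : {p // p ∈ pos Φ}, |c q s| = ∑ s : {p // p ∈ pos Φ}, |((q.1.2 ⬝ᵥ s.1.1 : ℤ) : ℝ)| := by
        simp only [hc, abs_neg]
      have h4 := hKq q
      have h5 := abs_nonneg ((q.1.2 ⬝ᵥ l : ℤ) : ℝ)
      have h6 : (1 + K) * w q = 1 + |((q.1.2 ⬝ᵥ l : ℤ) : ℝ)| + K + K * |((q.1.2 ⬝ᵥ l : ℤ) : ℝ)| := by
        simp only [hw]; ring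
      have h7 : 0 ≤ K * |((q.1.2 ⬝ᵥ l : ℤ) : ℝ)| := mul_nonneg hK0 h5
      rw [h6]
      linarith)
  have he : e w (fc f 1).card Finset.univ =
      ∑ R ∈ (Finset.univ : Finset {p // p ∈ pos Φ}).powerset.filter (fun R => R.card = (fc f 1).card),
        ∏ p ∈ Rᶜ, (1 + |((p.1.2 ⬝ᵥ l : ℤ) : ℝ)|) := by
    unfold e
    rw [Finset.sum_filter]
    refine Finset.sum_congr rfl fun R _ => ?_
    rw [← Finset.compl_eq_univ_sdiff]
  rw [← he, mul_assoc]
  exact mul_le_mul_of_nonneg_left hmain (abs_nonneg _)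

end

end STZ3
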