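import Pool.Agent.STZ3.StS

/-!
# LEC: the denominator formula as an identity of coefficients
-/

namespace STZ3

open STZ LGR MeasureTheory Matrix Filter

open scoped ComplexConjugate Matrix Real Topology

noncomputable section

namespace LEC

theorem eu_add (x y : ℝ) : eu (x + y) = eu x * eu y := by
  unfold eu
  rw [← Complex.exp_add]
  congr 1
  push_cast
  ring

theorem eu_zero : eu 0 = 1 := by
  unfold eu
  simp

theorem eu_sum {ι : Type*} (s : Finset ι) (f : ι → ℝ) : ∏ i ∈ s, eu (f i) = eu (∑ i ∈ s, f i) := by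
  classical
  induction s using Finset.induction_on with
  | empty => rw [Finset.prod_empty, Finset.sum_empty, eu_zero]
  | insert a s ha ih => rw [Finset.prod_insert ha, Finset.sum_insert ha, eu_add, ih]

theorem dz_sub {r : ℕ} (κ κ' : Fin r → ℤ) (θ : Fin r → ℝ) : dz (κ - κ') θ = dz κ θ - dz κ' θ := by
  unfold dz
  rw [← Finset.sum_sub_distrib]
  refine Finset.sum_congr rfl fun i _ => ?_
  rw [Pi.sub_apply]
  push_cast
  ring

theorem dz_sum {r : ℕ} {ι : Type*} (s : Finset ι) (f : ι → Fin r → ℤ) (θ : Fin r → ℝ) :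
    dz (∑ i ∈ s, f i) θ = ∑ i ∈ s, dz (f i) θ := by
  unfold dz
  rw [Finset.sum_comm]
  refine Finset.sum_congr rfl fun i _ => ?_
  rw [Finset.sum_apply, Int.cast_sum, Finset.sum_mul]

/-- a vanishing exponential sum vanishes with any function instead of the exponentials -/
theorem van {r : ℕ} (hT : S_TPOL) {ι : Type*} (s : Finset ι) (c : ι → ℂ) (f : ι → Fin r → ℤ)
    (h : ∀ θ : Fin r → ℝ, ∑ i ∈ s, c i * eu (dz (f i) θ) = 0) (F : (Fin r → ℤ) → ℂ) :
    ∑ i ∈ s, c i * F (f i) = 0 := by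
  classical
  have key : ∀ G : (Fin r → ℤ) → ℂ, ∑ i ∈ s, c i * G (f i) =
      ∑ μ ∈ s.image f, (∑ i ∈ s with f i = μ, c i) * G μ := by
    intro G
    rw [← Finset.sum_fiberwise_of_maps_to (g := f) (t := s.image f)
      (fun i hi => Finset.mem_image_of_mem f hi)]
    refine Finset.sum_congr rfl fun μ _ => ?_
    rw [Finset.sum_mul]
    refine Finset.sum_congr rfl fun i hi => ?_
    rw [(Finset.mem_filter.1 hi).2]
  rw [key F]
  have h2 := (hT r).2 (s.image f) (fun μ => ∑ i ∈ s with f i = μ, c i) (by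
    intro θ
    have := h θ
    rw [key (fun μ => eu (dz μ θ))] at this
    exact this)
  refine Finset.sum_eq_zero fun μ hμ => ?_
  rw [h2 μ hμ, zero_mul]

/-- two families -/
theorem van2 {r : ℕ} (hT : S_TPOL) {ι κ : Type*} (s : Finset ι) (t : Finset κ) (c : ι → ℂ)
    (d : κ → ℂ) (f : ι → Fin r → ℤ) (g : κ → Fin r → ℤ)
    (h : ∀ θ : Fin r → ℝ, ∑ i ∈ s, c i * eu (dz (f i) θ) = ∑ j ∈ t, d j * eu (dz (g j) θ))
    (F : (Fin r → ℤ) → ℂ) : ∑ i ∈ s, c i * F (f i) = ∑ j ∈ t, d j * F (g j) := by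
  have h1 := van hT (s.disjSum t) (Sum.elim c fun j => -d j) (Sum.elim f g) (by
    intro θ
    rw [Finset.sum_disjSum]
    simp only [Sum.elim_inl, Sum.elim_inr, neg_mul, Finset.sum_neg_distrib]
    rw [h θ]
    ring) F
  rw [Finset.sum_disjSum] at h1
  simp only [Sum.elim_inl, Sum.elim_inr, neg_mul, Finset.sum_neg_distrib] at h1
  linear_combination h1

theorem expand {r : ℕ} (Φ : RT r) (θ : Fin r → ℝ) :
    eu (∑ i, θ i) * ∏ p ∈ pos Φ, (1 - eu (-(dz p.1 θ))) =
      ∑ S : Finset {p // p ∈ pos Φ}, (-1 : ℂ) ^ S.card * eu (dz (sh S 0) θ) := by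
  classical
  rw [← Finset.prod_coe_sort (pos Φ)]
  have h1 : ∏ p : {p // p ∈ pos Φ}, (1 - eu (-(dz p.1.1 θ))) =
      ∏ p : {p // p ∈ pos Φ}, (-eu (-(dz p.1.1 θ)) + 1) :=
    Finset.prod_congr rfl fun p _ => by ring
  rw [h1, Finset.prod_add, Finset.powerset_univ, Finset.mul_sum]
  refine Finset.sum_congr rfl fun S _ => ?_
  rw [Finset.prod_const_one, mul_one, Finset.prod_neg, eu_sum]
  have h2 : dz (sh S 0) θ = (∑ i, θ i) + ∑ p ∈ S, -(dz p.1.1 θ) := by
    unfold sh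
    rw [zero_add, dz_sub, dz_sum, Finset.sum_neg_distrib]
    unfold dz
    simp
    ring
  rw [h2, eu_add]
  ring

end LEC

open LEC in
theorem t_LEC : M_LEC := by
  intro hD hT r Φ B hr hI hW
  have first : ∀ F : (Fin r → ℤ) → ℂ, ∑ w ∈ WF Φ, (w.det : ℂ) * F (w *ᵥ 1) =
      ∑ S : Finset {p // p ∈ pos Φ}, (-1 : ℂ) ^ S.card * F (sh S 0) := by
    intro F
    refine van2 hT (WF Φ) Finset.univ (fun w => (w.det : ℂ)) (fun S => (-1 : ℂ) ^ S.card)
      (fun w => w *ᵥ 1) (fun S => sh S 0) ?_ F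
    intro θ
    rw [← expand Φ θ, ← hD r Φ B hI hW θ]
    rfl
  refine ⟨first, ?_⟩
  intro ϑ nf l
  unfold lm
  congr 1
  have h := first (fun ν => (((Real.exp (2 * ϑ * ip Φ l ν) * dR Φ (l + ν) : ℝ) : ℂ) * nf (l + ν)))
  rw [h]
  refine Finset.sum_congr rfl fun S _ => ?_
  have e : l + sh S 0 = sh S l := by
    unfold sh
    rw [zero_add, add_sub_assoc]
  rw [e]
  push_cast
  ring

end

end STZ3
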