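import Pool.Agent.STZ3.StS

/-!
# The mixed differences of the exponential factor (module SHU_LED)
-/

namespace STZ3

open STZ LGR MeasureTheory Matrix Filter

open scoped ComplexConjugate Matrix Real Topology

noncomputable section

namespace LED

variable {r : ℕ} {Φ : RT r}

theorem dot_A (l y : Fin r → ℤ) :
    l ⬝ᵥ ((rd Φ).A *ᵥ y) = ∑ p ∈ pos Φ, 2 * (p.2 ⬝ᵥ l) * (p.2 ⬝ᵥ y) := by
  simp only [dotProduct, mulVec, rd, Finset.sum_mul, Finset.mul_sum]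
  have h1 : ∀ i j : Fin r, ∑ p ∈ pos Φ, l i * (2 * p.2 i * p.2 j * y j) =
      ∑ p ∈ pos Φ, 2 * (p.2 i * l i) * (p.2 j * y j) := by
    intro i j
    apply Finset.sum_congr rfl
    intro p _
    ring
  calc ∑ i, ∑ j, ∑ p ∈ pos Φ, l i * (2 * p.2 i * p.2 j * y j)
      = ∑ i, ∑ j, ∑ p ∈ pos Φ, 2 * (p.2 i * l i) * (p.2 j * y j) := by simp only [h1]
    _ = ∑ i, ∑ p ∈ pos Φ, ∑ j, 2 * (p.2 i * l i) * (p.2 j * y j) := by
        apply Finset.sum_congr rfl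
        intro i _
        rw [Finset.sum_comm]
    _ = ∑ p ∈ pos Φ, ∑ i, ∑ j, 2 * (p.2 i * l i) * (p.2 j * y j) := by
        rw [Finset.sum_comm]
    _ = _ := by
        apply Finset.sum_congr rfl
        intro p _
        rw [Finset.sum_comm]

theorem ip_eq (l y : Fin r → ℤ) :
    ip Φ l y = ∑ p ∈ pos Φ, 2 * ((p.2 ⬝ᵥ l : ℤ) : ℝ) * ((p.2 ⬝ᵥ y : ℤ) : ℝ) := by
  unfold ip
  rw [dot_A]
  push_cast
  rfl

theorem ip_sub (l x y : Fin r → ℤ) : ip Φ l (x - y) = ip Φ l x - ip Φ l y := by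
  unfold ip
  rw [mulVec_sub, dotProduct_sub]
  push_cast
  rfl

theorem ip_zero (l : Fin r → ℤ) : ip Φ l 0 = 0 := by
  unfold ip
  simp

theorem ip_add (l x y : Fin r → ℤ) : ip Φ l (x + y) = ip Φ l x + ip Φ l y := by
  unfold ip
  rw [mulVec_add, dotProduct_add]
  push_cast
  rfl

theorem ip_sum {ι : Type} (l : Fin r → ℤ) (S : Finset ι) (f : ι → Fin r → ℤ) :
    ip Φ l (∑ p ∈ S, f p) = ∑ p ∈ S, ip Φ l (f p) := by
  classical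
  induction S using Finset.induction_on with
  | empty => simp [ip_zero]
  | insert a S ha ih => rw [Finset.sum_insert ha, Finset.sum_insert ha, ip_add, ih]

/-- the factor of the root `p` -/
def ef (Φ : RT r) (ϑ : ℝ) (l : Fin r → ℤ) (p : {p // p ∈ pos Φ}) : ℝ :=
  Real.exp (-(2 * ϑ * ip Φ l p.1.1))

theorem exp_sh (ϑ : ℝ) (l : Fin r → ℤ) (S : Finset {p // p ∈ pos Φ}) :
    Real.exp (2 * ϑ * ip Φ l (sh S 0)) = Real.exp (2 * ϑ * ip Φ l 1) * ∏ p ∈ S, ef Φ ϑ l p := by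
  unfold sh ef
  rw [← Real.exp_sum, ← Real.exp_add, zero_add, ip_sub, ip_sum]
  congr 1
  rw [Finset.sum_neg_distrib, ← Finset.mul_sum]
  ring

theorem cd_eq (ϑ : ℝ) (l : Fin r → ℤ) (A : Finset {p // p ∈ pos Φ}) :
    cd A Aᶜ (fun S => Real.exp (2 * ϑ * ip Φ l (sh S 0))) =
      Real.exp (2 * ϑ * ip Φ l 1) * (∏ p ∈ Aᶜ, ef Φ ϑ l p) * ∏ p ∈ A, (1 - ef Φ ϑ l p) := by
  unfold cd
  have h1 : ∏ p ∈ A, (1 - ef Φ ϑ l p) = ∑ S ∈ A.powerset, (-1 : ℝ) ^ S.card * ∏ p ∈ S, ef Φ ϑ l p := by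
    have h2 : ∀ p, 1 - ef Φ ϑ l p = -ef Φ ϑ l p + 1 := fun p => by ring
    simp only [h2]
    rw [Finset.prod_add]
    apply Finset.sum_congr rfl
    intro S _
    rw [Finset.prod_const_one, mul_one, Finset.prod_neg]
  rw [h1, Finset.mul_sum]
  apply Finset.sum_congr rfl
  intro S hS
  have hd : Disjoint S Aᶜ := by
    rw [Finset.disjoint_left]
    intro x hx hx'
    exact (Finset.mem_compl.1 hx') (Finset.mem_powerset.1 hS hx)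
  simp only []
  rw [exp_sh, Finset.prod_union hd]
  ring

theorem one_sub_exp (y : ℝ) : |1 - Real.exp (-y)| ≤ |y| * Real.exp |y| := by
  have h1 := Real.add_one_le_exp (-y)
  have h2 := Real.add_one_le_exp y
  have h3 : Real.exp (-y) * Real.exp y = 1 := by rw [← Real.exp_add]; simp
  have h4 : (0 : ℝ) < Real.exp (-y) := Real.exp_pos _
  have h5 : (1 : ℝ) ≤ Real.exp |y| := Real.one_le_exp (abs_nonneg _)
  have h6 : (0 : ℝ) ≤ |y| := abs_nonneg _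
  have h7 : Real.exp (-y) ≤ Real.exp |y| := Real.exp_le_exp.2 (neg_le_abs y)
  have h8 : y * Real.exp (-y) ≤ 1 - Real.exp (-y) := by nlinarith
  rw [abs_le]
  constructor
  · have h9 : -|y| ≤ y := neg_abs_le y
    have h10 : -|y| * Real.exp (-y) ≤ y * Real.exp (-y) := mul_le_mul_of_nonneg_right h9 h4.le
    have h11 : |y| * Real.exp (-y) ≤ |y| * Real.exp |y| := mul_le_mul_of_nonneg_left h7 h6
    linarith
  · have h9 : y ≤ |y| := le_abs_self y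
    have h11 : |y| * 1 ≤ |y| * Real.exp |y| := mul_le_mul_of_nonneg_left h5 h6
    linarith

/-- bound for `ϑ * ip l y` -/
def KBd (Φ : RT r) (C₀ : ℝ) (y : Fin r → ℤ) : ℝ :=
  ∑ p ∈ pos Φ, 2 * C₀ * |((p.2 ⬝ᵥ y : ℤ) : ℝ)|

theorem ip_le {C₀ ϑ : ℝ} (h0 : 0 ≤ ϑ) (l y : Fin r → ℤ)
    (h : ∀ p : {p // p ∈ pos Φ}, ϑ * |((p.1.2 ⬝ᵥ l : ℤ) : ℝ)| ≤ C₀) :
    |ϑ * ip Φ l y| ≤ KBd Φ C₀ y := by
  rw [ip_eq, Finset.mul_sum]
  refine (Finset.abs_sum_le_sum_abs _ _).trans ?_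
  unfold KBd
  apply Finset.sum_le_sum
  intro p hp
  have h1 := h ⟨p, hp⟩
  simp only at h1
  have h2 : |ϑ * (2 * ((p.2 ⬝ᵥ l : ℤ) : ℝ) * ((p.2 ⬝ᵥ y : ℤ) : ℝ))| =
      2 * (ϑ * |((p.2 ⬝ᵥ l : ℤ) : ℝ)|) * |((p.2 ⬝ᵥ y : ℤ) : ℝ)| := by
    rw [abs_mul, abs_mul, abs_mul, abs_of_nonneg h0, abs_of_pos (by norm_num : (0 : ℝ) < 2)]
    ring
  rw [h2]
  apply mul_le_mul_of_nonneg_right _ (abs_nonneg _)
  linarith

end LED

open LED in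
theorem t_LED : M_LED := by
  intro hQ r Φ B hr hI hW C₀ hC₀
  obtain ⟨-, -, hsym, -, -, -, hroot⟩ := hQ r Φ B hI hW
  set a : {p // p ∈ pos Φ} → ℝ := fun p => |((p.1.1 ⬝ᵥ ((rd Φ).A *ᵥ p.1.1) : ℤ) : ℝ)| with ha
  set K : {p // p ∈ pos Φ} → ℝ := fun p => KBd Φ C₀ p.1.1 with hK
  have hKn : ∀ y, 0 ≤ KBd Φ C₀ y := by
    intro y
    unfold KBd
    positivity
  refine ⟨Real.exp (2 * KBd Φ C₀ 1) * ∏ p : {p // p ∈ pos Φ}, (Real.exp (2 * K p) * (1 + a p)),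
    by positivity, ?_⟩
  intro ϑ A l h0 h1 hl
  rw [cd_eq, abs_mul, abs_mul, Finset.abs_prod, Finset.abs_prod, abs_of_pos (Real.exp_pos _)]
  -- the first factor
  have e1 : Real.exp (2 * ϑ * ip Φ l 1) ≤ Real.exp (2 * KBd Φ C₀ 1) := by
    apply Real.exp_le_exp.2
    have := le_abs_self (ϑ * ip Φ l 1)
    have := ip_le h0 l 1 hl
    linarith
  -- a factor of the complement
  have e2 : ∀ p : {p // p ∈ pos Φ}, |ef Φ ϑ l p| ≤ Real.exp (2 * K p) * (1 + a p) := by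
    intro p
    have h2 : |ef Φ ϑ l p| ≤ Real.exp (2 * K p) := by
      unfold ef
      rw [abs_of_pos (Real.exp_pos _)]
      apply Real.exp_le_exp.2
      have h3 := neg_abs_le (ϑ * ip Φ l p.1.1)
      have h4 := ip_le h0 l p.1.1 hl
      simp only [hK]
      linarith
    have h5 : (0 : ℝ) ≤ a p := abs_nonneg _
    calc |ef Φ ϑ l p| ≤ Real.exp (2 * K p) * 1 := by rw [mul_one]; exact h2
      _ ≤ _ := mul_le_mul_of_nonneg_left (by linarith) (Real.exp_pos _).le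
  -- a factor of `A`
  have e3 : ∀ p : {p // p ∈ pos Φ}, |1 - ef Φ ϑ l p| ≤
      (Real.exp (2 * K p) * (1 + a p)) * (ϑ * |((p.1.2 ⬝ᵥ l : ℤ) : ℝ)|) := by
    intro p
    have hp : p.1 ∈ Φ := (hW.ppos p.1 p.2).1
    obtain ⟨-, hlin⟩ := hroot p.1 hp
    have h2 := one_sub_exp (2 * ϑ * ip Φ l p.1.1)
    have h3 : 2 * ip Φ l p.1.1 = ((p.1.2 ⬝ᵥ l : ℤ) : ℝ) * ((p.1.1 ⬝ᵥ ((rd Φ).A *ᵥ p.1.1) : ℤ) : ℝ) := by
      have h4 := hlin l
      have h5 : p.1.1 ⬝ᵥ ((rd Φ).A *ᵥ l) = l ⬝ᵥ ((rd Φ).A *ᵥ p.1.1) := by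
        rw [dot_A, dot_A]
        apply Finset.sum_congr rfl
        intro q _
        ring
      rw [h5] at h4
      unfold ip
      exact_mod_cast h4
    have h6 : |2 * ϑ * ip Φ l p.1.1| = a p * (ϑ * |((p.1.2 ⬝ᵥ l : ℤ) : ℝ)|) := by
      have : 2 * ϑ * ip Φ l p.1.1 = ϑ * (2 * ip Φ l p.1.1) := by ring
      rw [this, h3, abs_mul, abs_mul, abs_of_nonneg h0]
      simp only [ha]
      ring
    have h7 : |2 * ϑ * ip Φ l p.1.1| ≤ 2 * K p := by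
      have := ip_le h0 l p.1.1 hl
      have h8 : |2 * ϑ * ip Φ l p.1.1| = 2 * |ϑ * ip Φ l p.1.1| := by
        rw [mul_assoc, abs_mul, abs_of_pos (by norm_num : (0 : ℝ) < 2)]
      rw [h8]
      simp only [hK]
      linarith
    have h9 : (0 : ℝ) ≤ a p := abs_nonneg _
    have h10 : 0 ≤ ϑ * |((p.1.2 ⬝ᵥ l : ℤ) : ℝ)| := by positivity
    unfold ef
    calc |1 - Real.exp (-(2 * ϑ * ip Φ l p.1.1))|
        ≤ |2 * ϑ * ip Φ l p.1.1| * Real.exp |2 * ϑ * ip Φ l p.1.1| := h2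
      _ ≤ |2 * ϑ * ip Φ l p.1.1| * Real.exp (2 * K p) :=
          mul_le_mul_of_nonneg_left (Real.exp_le_exp.2 h7) (abs_nonneg _)
      _ = Real.exp (2 * K p) * a p * (ϑ * |((p.1.2 ⬝ᵥ l : ℤ) : ℝ)|) := by rw [h6]; ring
      _ ≤ _ := by
          apply mul_le_mul_of_nonneg_right _ h10
          apply mul_le_mul_of_nonneg_left _ (Real.exp_pos _).le
          linarith
  have e4 : ∏ p ∈ Aᶜ, |ef Φ ϑ l p| ≤ ∏ p ∈ Aᶜ, (Real.exp (2 * K p) * (1 + a p)) :=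
    Finset.prod_le_prod (fun p _ => abs_nonneg _) (fun p _ => e2 p)
  have e5 : ∏ p ∈ A, |1 - ef Φ ϑ l p| ≤
      (∏ p ∈ A, (Real.exp (2 * K p) * (1 + a p))) * ∏ p ∈ A, (ϑ * |((p.1.2 ⬝ᵥ l : ℤ) : ℝ)|) := by
    rw [← Finset.prod_mul_distrib]
    exact Finset.prod_le_prod (fun p _ => abs_nonneg _) (fun p _ => e3 p)
  have e6 : (∏ p ∈ A, (Real.exp (2 * K p) * (1 + a p))) * ∏ p ∈ Aᶜ, (Real.exp (2 * K p) * (1 + a p)) =
      ∏ p : {p // p ∈ pos Φ}, (Real.exp (2 * K p) * (1 + a p)) := Finset.prod_mul_prod_compl A _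
  calc Real.exp (2 * ϑ * ip Φ l 1) * (∏ p ∈ Aᶜ, |ef Φ ϑ l p|) * ∏ p ∈ A, |1 - ef Φ ϑ l p|
      ≤ Real.exp (2 * KBd Φ C₀ 1) * (∏ p ∈ Aᶜ, (Real.exp (2 * K p) * (1 + a p))) *
        ((∏ p ∈ A, (Real.exp (2 * K p) * (1 + a p))) * ∏ p ∈ A, (ϑ * |((p.1.2 ⬝ᵥ l : ℤ) : ℝ)|)) := by
        gcongr
    _ = _ := by rw [← e6]; ring

end

end STZ3
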