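import Pool.Agent.STZ3.StmtsT3
import Pool.Agent.STZ.LEV

/-!
# Module LEW: from restricted weak type to strong type, two ranges of levels
-/

namespace STZ3

open STZ LGR MeasureTheory Matrix Filter

open scoped ComplexConjugate Matrix Real Topology

noncomputable section

namespace LEW

open STZ.LEV

variable {M : Type} [TopologicalSpace M] [CompactSpace M] [T2Space M] [SecondCountableTopology M]
  [MeasurableSpace M] [BorelSpace M] (μ : Measure M) [IsProbabilityMeasure μ]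

omit [T2Space M] in
/-- the test function of the level `l` -/
theorem test {U : ℝ → M → ℂ} (hU : JC U) {l : ℝ} (hl : 0 < l) :
    JR (fun t x => ph (‖U t x‖ / l)) ∧ 0 ≤ II μ (fun t x => ph (‖U t x‖ / l)) ∧
    ∃ G : ℝ → M → ℂ, JC G ∧ (∀ t x, ‖G t x‖ ≤ 1) ∧
      ∫ t in (0 : ℝ)..1, ∫ x, ‖G t x‖ ∂μ = II μ (fun t x => ph (‖U t x‖ / l)) ∧
      l * II μ (fun t x => ph (‖U t x‖ / l)) ≤
        ‖∫ t in (0 : ℝ)..1, ∫ x, conj (G t x) * U t x ∂μ‖ := by
  have hUn : JR (fun t x => ‖U t x‖) := Continuous.norm hU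
  have hc : JR (fun t x => ph (‖U t x‖ / l)) := ph_cont.comp (Continuous.div_const hUn l)
  set m : ℝ := II μ (fun t x => ph (‖U t x‖ / l)) with hm
  have hm0 : 0 ≤ m := by
    have := II_mono (μ := μ) (f := fun _ _ => 0) (continuous_const) hc fun t x => ph_nn _
    rwa [II_const] at this
  refine ⟨hc, hm0, ?_⟩
  set G : ℝ → M → ℂ := fun t x => ((ph (‖U t x‖ / l) / max ‖U t x‖ l : ℝ) : ℂ) * U t x with hGd
  have hGc : JC G := by
    have h1 : Continuous fun z : ℝ × M => ph (‖U z.1 z.2‖ / l) / max ‖U z.1 z.2‖ l := by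
      refine Continuous.div hc (Continuous.max hUn continuous_const) fun z => ?_
      exact (lt_of_lt_of_le hl (le_max_right _ _)).ne'
    exact (Complex.continuous_ofReal.comp h1).mul hU
  have hGn : ∀ t x, ‖G t x‖ = ph (‖U t x‖ / l) := by
    intro t x
    have hmx : 0 < max ‖U t x‖ l := lt_of_lt_of_le hl (le_max_right _ _)
    simp only [hGd, norm_mul, Complex.norm_real, Real.norm_eq_abs]
    rw [abs_of_nonneg (div_nonneg (ph_nn _) hmx.le)]
    rcases le_or_gt ‖U t x‖ l with h | h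
    · rw [ph_zero ((div_le_one hl).2 h)]; simp
    · rw [max_eq_left h.le]
      exact div_mul_cancel₀ _ (hl.trans h).ne'
  have hGU : ∀ t x, conj (G t x) * U t x = ((ph (‖U t x‖ / l) * ‖U t x‖ : ℝ) : ℂ) := by
    intro t x
    have h1 : conj (U t x) * U t x = ((‖U t x‖ ^ 2 : ℝ) : ℂ) := by
      rw [mul_comm, Complex.mul_conj, Complex.normSq_eq_norm_sq]
    have h2 : conj (G t x) * U t x =
        ((ph (‖U t x‖ / l) / max ‖U t x‖ l * ‖U t x‖ ^ 2 : ℝ) : ℂ) := by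
      simp only [hGd, map_mul, Complex.conj_ofReal]
      rw [mul_assoc, h1]
      push_cast
      ring
    rw [h2]
    congr 1
    rcases le_or_gt ‖U t x‖ l with h | h
    · rw [ph_zero ((div_le_one hl).2 h)]; simp
    · rw [max_eq_left h.le]
      have : ‖U t x‖ ≠ 0 := (hl.trans h).ne'
      field_simp
  have h2 : ∫ t in (0 : ℝ)..1, ∫ x, conj (G t x) * U t x ∂μ =
      ((II μ (fun t x => ph (‖U t x‖ / l) * ‖U t x‖) : ℝ) : ℂ) := by
    simp only [hGU, II]
    rw [← intervalIntegral.integral_ofReal]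
    congr 1
    funext t
    exact integral_ofReal
  refine ⟨G, hGc, fun t x => by rw [hGn]; exact ph_le _, by simp only [hGn, hm, II], ?_⟩
  have h4 : l * m ≤ II μ (fun t x => ph (‖U t x‖ / l) * ‖U t x‖) := by
    rw [hm, ← II_mul]
    refine II_mono (Continuous.mul continuous_const hc) (Continuous.mul hc hUn) fun t x => ?_
    rcases le_or_gt ‖U t x‖ l with h | h
    · rw [ph_zero ((div_le_one hl).2 h)]; simp
    · rw [mul_comm]
      exact mul_le_mul_of_nonneg_left h.le (ph_nn _)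
  rw [h2, Complex.norm_real, Real.norm_eq_abs]
  exact h4.trans (le_abs_self _)

/-- the geometric ratio -/
theorem ratio {a : ℝ} (ha : 0 < a) : 0 < (2 : ℝ) ^ (-a) ∧ (2 : ℝ) ^ (-a) < 1 :=
  ⟨Real.rpow_pos_of_pos (by norm_num) _,
    Real.rpow_lt_one_of_one_lt_of_neg (by norm_num) (by linarith)⟩

theorem half {a l : ℝ} (hl : 0 < l) : (l / 2) ^ a = (2 : ℝ) ^ (-a) * l ^ a := by
  rw [Real.div_rpow hl.le (by norm_num), Real.rpow_neg (by norm_num), div_eq_mul_inv, mul_comm]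

/-- the sum over all levels -/
theorem sum_all {a : ℝ} (ha : 0 < a) (K : ℕ) : ∀ {l : ℝ}, 0 < l →
    ∑ k ∈ Finset.range K, (l / 2 ^ k) ^ a ≤ l ^ a * (1 - (2 : ℝ) ^ (-a))⁻¹ := by
  obtain ⟨hr0, hr1⟩ := ratio ha
  have h3 : 0 < 1 - (2 : ℝ) ^ (-a) := by linarith
  induction K with
  | zero =>
    intro l hl
    rw [Finset.range_zero, Finset.sum_empty]
    positivity
  | succ K ih =>
    intro l hl
    rw [Finset.sum_range_succ']
    have h1 : ∀ k ∈ Finset.range K, (l / 2 ^ (k + 1)) ^ a = (l / 2 / 2 ^ k) ^ a := fun k _ => by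
      rw [pow_succ', div_div]
    rw [Finset.sum_congr rfl h1, pow_zero, div_one]
    have h2 := ih (l := l / 2) (by positivity)
    rw [half hl] at h2
    refine (add_le_add_left h2 _).trans (le_of_eq ?_)
    field_simp
    ring

/-- the sum over the levels up to `Λ` -/
theorem sum_low {a Λ : ℝ} (ha : 0 < a) (hΛ : 0 < Λ) (K : ℕ) : ∀ {l : ℝ}, 0 < l →
    ∑ k ∈ Finset.range K, (if l / 2 ^ k ≤ Λ then (l / 2 ^ k) ^ a else 0) ≤
      Λ ^ a * (1 - (2 : ℝ) ^ (-a))⁻¹ := by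
  obtain ⟨hr0, hr1⟩ := ratio ha
  have h3 : 0 < 1 - (2 : ℝ) ^ (-a) := by linarith
  induction K with
  | zero =>
    intro l hl
    rw [Finset.range_zero, Finset.sum_empty]
    positivity
  | succ K ih =>
    intro l hl
    by_cases h : l ≤ Λ
    · have h1 := sum_all ha (K + 1) hl
      refine (Finset.sum_le_sum fun k _ => ?_).trans (h1.trans ?_)
      · split_ifs
        · exact le_rfl
        · positivity
      · have h4 : l ^ a ≤ Λ ^ a := Real.rpow_le_rpow hl.le h ha.le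
        gcongr
    · rw [Finset.sum_range_succ', pow_zero, div_one, if_neg h, add_zero]
      have h1 : ∀ k ∈ Finset.range K,
          (if l / 2 ^ (k + 1) ≤ Λ then (l / 2 ^ (k + 1)) ^ a else 0) =
            if l / 2 / 2 ^ k ≤ Λ then (l / 2 / 2 ^ k) ^ a else 0 := fun k _ => by
        rw [pow_succ', div_div]
      rw [Finset.sum_congr rfl h1]
      exact ih (l := l / 2) (by positivity)

end LEW

open LEW STZ.LEV in
theorem t_LEW : S_LEW := by
  intro M _ _ _ _ _ _ μ _ p₁ p₂ p' hp1 hp1' hp2 hp2'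
  have hp'0 : 0 < p' := by linarith
  have a1 : 0 < p' - p₁ := by linarith
  have a2 : 0 < p' - p₂ := by linarith
  have a0 : 0 < p' - 2 := by linarith
  have r1 := ratio a1
  have r2 := ratio a2
  have r0 := ratio a0
  have c1 : 0 < (1 - (2 : ℝ) ^ (-(p' - p₁)))⁻¹ := inv_pos.2 (by linarith [r1.2])
  have c2 : 0 < (1 - (2 : ℝ) ^ (-(p' - p₂)))⁻¹ := inv_pos.2 (by linarith [r2.2])
  have c0 : 0 < (1 - (2 : ℝ) ^ (-(p' - 2)))⁻¹ := inv_pos.2 (by linarith [r0.2])
  set q1 := (1 - (2 : ℝ) ^ (-(p' - p₁)))⁻¹ with hq1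
  set q2 := (1 - (2 : ℝ) ^ (-(p' - p₂)))⁻¹ with hq2
  set q0 := (1 - (2 : ℝ) ^ (-(p' - 2)))⁻¹ with hq0
  refine ⟨4 ^ p' * (q0 + q1 + q2), by positivity, ?_⟩
  intro U Λ₁ Λ B₀ B₁ B₂ hU hΛ1 hB0 hB1 hB2 hb hG
  have hUn : JR (fun t x => ‖U t x‖) := Continuous.norm hU
  have hUp : JR (fun t x => ‖U t x‖ ^ p') :=
    Continuous.rpow_const hUn fun _ => Or.inr hp'0.le
  obtain ⟨x₀⟩ : Nonempty M := nonempty_of_isProbabilityMeasure μ
  have hΛ : 0 ≤ Λ := (norm_nonneg _).trans (hb 0 x₀)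
  rcases eq_or_lt_of_le hΛ with h0 | hΛ'
  · have h1 : ∀ t x, ‖U t x‖ ^ p' = 0 := by
      intro t x
      have h2 : ‖U t x‖ = 0 := le_antisymm (by rw [h0]; exact hb t x) (norm_nonneg _)
      rw [h2, Real.zero_rpow hp'0.ne']
    simp only [h1]
    simp only [integral_zero, intervalIntegral.integral_zero]
    positivity
  have weak : ∀ l : ℝ, 0 < l → (4 * l) ^ p' * II μ (fun t x => ph (‖U t x‖ / l)) ≤
      4 ^ p' * (B₁ * (if l ≤ Λ₁ then l ^ (p' - p₁) else 0) +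
        B₀ * (if l ≤ Λ₁ then l ^ (p' - 2) else 0) + B₂ * l ^ (p' - p₂)) := by
    intro l hl
    obtain ⟨-, hm0, G, hG1, hG2, hG3, hG4⟩ := test μ hU hl
    have h1 := hG l G hl hG1 hG2 (by rw [hG3]; exact hG4)
    rw [hG3] at h1
    set m := II μ (fun t x => ph (‖U t x‖ / l)) with hm
    rw [Real.mul_rpow (by norm_num) hl.le, mul_assoc]
    refine mul_le_mul_of_nonneg_left ?_ (by positivity)
    have e1 : l ^ p' = l ^ (p' - p₁) * l ^ p₁ := by
      rw [← Real.rpow_add hl]; congr 1; ring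
    have e2 : l ^ p' = l ^ (p' - p₂) * l ^ p₂ := by
      rw [← Real.rpow_add hl]; congr 1; ring
    have e3 : l ^ (p' - 2) = l ^ (p' - p₁) * l ^ (p₁ - 2) := by
      rw [← Real.rpow_add hl]; congr 1; ring
    have g1 : 0 < l ^ (p' - p₁) := Real.rpow_pos_of_pos hl _
    have g2 : 0 < l ^ (p' - p₂) := Real.rpow_pos_of_pos hl _
    by_cases h : l ≤ Λ₁
    · rw [if_pos h, if_pos h]
      have h2 := mul_le_mul_of_nonneg_left (h1.1 h) g1.le
      have h3 : l ^ p' * m ≤ l ^ (p' - p₁) * (B₁ + B₀ * l ^ (p₁ - 2)) := by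
        calc l ^ p' * m = l ^ (p' - p₁) * (m * l ^ p₁) := by rw [e1]; ring
          _ ≤ _ := h2
      have h4 : 0 ≤ B₂ * l ^ (p' - p₂) := by positivity
      rw [e3]
      linarith
    · rw [if_neg h, if_neg h, mul_zero, mul_zero, zero_add, zero_add]
      have h2 := mul_le_mul_of_nonneg_left (h1.2 (not_le.1 h).le) g2.le
      calc l ^ p' * m = l ^ (p' - p₂) * (m * l ^ p₂) := by rw [e2]; ring
        _ ≤ _ := h2
        _ = _ := mul_comm _ _
  have main : ∀ K : ℕ, II μ (fun t x => ‖U t x‖ ^ p') ≤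
      4 ^ p' * (q0 + q1 + q2) *
        (B₀ * Λ₁ ^ (p' - 2) + B₁ * Λ₁ ^ (p' - p₁) + B₂ * Λ ^ (p' - p₂)) +
      (Λ / 2 ^ K) ^ p' := by
    intro K
    have hk : ∀ k : ℕ, 0 < Λ / 2 ^ (k + 2) := fun k => by positivity
    have hJ : ∀ k : ℕ, JR (fun (t : ℝ) (x : M) =>
        (Λ / 2 ^ k) ^ p' * ph (‖U t x‖ / (Λ / 2 ^ (k + 2)))) := fun k =>
      Continuous.mul continuous_const (test μ hU (hk k)).1
    have hs := II_sum (μ := μ) K (fun k (t : ℝ) (x : M) =>
        (Λ / 2 ^ k) ^ p' * ph (‖U t x‖ / (Λ / 2 ^ (k + 2)))) hJ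
    have h1 : II μ (fun t x => ‖U t x‖ ^ p') ≤ II μ (fun t x =>
        (∑ k ∈ Finset.range K, (Λ / 2 ^ k) ^ p' * ph (‖U t x‖ / (Λ / 2 ^ (k + 2)))) +
          (Λ / 2 ^ K) ^ p') :=
      II_mono hUp (Continuous.add hs.1 continuous_const) fun t x =>
        point p' Λ _ hp'0 hΛ' (norm_nonneg _) (hb t x) K
    rw [II_add hs.1 (jconst _), II_const, hs.2] at h1
    refine h1.trans (add_le_add_left ?_ _)
    have h2 : ∀ k ∈ Finset.range K, II μ (fun (t : ℝ) (x : M) =>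
        (Λ / 2 ^ k) ^ p' * ph (‖U t x‖ / (Λ / 2 ^ (k + 2)))) ≤
        4 ^ p' * (B₁ * (if Λ / 4 / 2 ^ k ≤ Λ₁ then (Λ / 4 / 2 ^ k) ^ (p' - p₁) else 0) +
        B₀ * (if Λ / 4 / 2 ^ k ≤ Λ₁ then (Λ / 4 / 2 ^ k) ^ (p' - 2) else 0) +
          B₂ * (Λ / 4 / 2 ^ k) ^ (p' - p₂)) := by
      intro k _
      have e1 : Λ / 2 ^ (k + 2) = Λ / 4 / 2 ^ k := by
        rw [pow_add]; field_simp; norm_num
      have e2 : Λ / 2 ^ k = 4 * (Λ / 4 / 2 ^ k) := by field_simp
      rw [II_mul, e1, e2]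
      exact weak _ (by positivity)
    refine (Finset.sum_le_sum h2).trans ?_
    rw [← Finset.mul_sum, Finset.sum_add_distrib, Finset.sum_add_distrib, ← Finset.mul_sum,
      ← Finset.mul_sum, ← Finset.mul_sum, mul_assoc]
    refine mul_le_mul_of_nonneg_left ?_ (by positivity)
    have s1 := sum_low a1 hΛ1 K (l := Λ / 4) (by positivity)
    have s0 := sum_low a0 hΛ1 K (l := Λ / 4) (by positivity)
    have s2 := sum_all a2 K (l := Λ / 4) (by positivity)
    have s3 : (Λ / 4) ^ (p' - p₂) ≤ Λ ^ (p' - p₂) :=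
      Real.rpow_le_rpow (by positivity) (by linarith) a2.le
    have t1 := mul_le_mul_of_nonneg_left s1 hB1
    have t0 := mul_le_mul_of_nonneg_left s0 hB0
    have t2 := mul_le_mul_of_nonneg_left (s2.trans (mul_le_mul_of_nonneg_right s3 c2.le)) hB2
    have u1 : 0 ≤ B₁ * Λ₁ ^ (p' - p₁) := by positivity
    have u0 : 0 ≤ B₀ * Λ₁ ^ (p' - 2) := by positivity
    have u2 : 0 ≤ B₂ * Λ ^ (p' - p₂) := by positivity
    have v1 : 0 ≤ (B₁ * Λ₁ ^ (p' - p₁)) * (q0 + q2) := by positivity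
    have v0 : 0 ≤ (B₀ * Λ₁ ^ (p' - 2)) * (q1 + q2) := by positivity
    have v2 : 0 ≤ (B₂ * Λ ^ (p' - p₂)) * (q0 + q1) := by positivity
    linarith
  have hlim : Filter.Tendsto (fun K : ℕ => 4 ^ p' * (q0 + q1 + q2) *
        (B₀ * Λ₁ ^ (p' - 2) + B₁ * Λ₁ ^ (p' - p₁) + B₂ * Λ ^ (p' - p₂)) +
      (Λ / 2 ^ K) ^ p') Filter.atTop
      (nhds (4 ^ p' * (q0 + q1 + q2) *
        (B₀ * Λ₁ ^ (p' - 2) + B₁ * Λ₁ ^ (p' - p₁) + B₂ * Λ ^ (p' - p₂)) + 0)) := by
    refine tendsto_const_nhds.add ?_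
    have h1 : Filter.Tendsto (fun K : ℕ => Λ / 2 ^ K) Filter.atTop (nhds 0) := by
      have := (tendsto_pow_atTop_nhds_zero_of_lt_one (r := (1 / 2 : ℝ)) (by norm_num)
        (by norm_num)).const_mul Λ
      simp only [mul_zero, one_div, inv_pow] at this
      simpa [div_eq_mul_inv] using this
    have h2 := (Real.continuousAt_rpow_const 0 p' (Or.inr hp'0.le)).tendsto.comp h1
    simpa [Function.comp_def, Real.zero_rpow hp'0.ne'] using h2
  rw [add_zero] at hlim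
  exact ge_of_tendsto' hlim main

end

end STZ3
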