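import Pool.Agent.STZ3.StM

/-!
# LMB: the multiplier of the tuple `x`
-/

namespace STZ3

open STZ LGR MeasureTheory Matrix Filter

open scoped ComplexConjugate Matrix Real Topology

noncomputable section

namespace LMB

/-- the sum of the absolute values of the entries of the elements of `W` -/
def eW {r : ℕ} (W : Finset (Matrix (Fin r) (Fin r) ℤ)) : ℕ := ∑ w ∈ W, ∑ i, ∑ j, (w i j).natAbs

theorem mulVec_le {r : ℕ} {W : Finset (Matrix (Fin r) (Fin r) ℤ)} {w : Matrix (Fin r) (Fin r) ℤ}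
    (hw : w ∈ W) {l : Fin r → ℤ} {R : ℕ} (hl : ∀ i, |l i| ≤ (R : ℤ)) (i : Fin r) :
    |(w *ᵥ l) i| ≤ ((eW W * R : ℕ) : ℤ) := by
  have h1 : |(w *ᵥ l) i| ≤ ∑ j, |w i j| * |l j| := by
    unfold Matrix.mulVec dotProduct
    refine (Finset.abs_sum_le_sum_abs _ _).trans (le_of_eq ?_)
    exact Finset.sum_congr rfl fun j _ => abs_mul _ _
  have h2 : ∑ j, |w i j| * |l j| ≤ ∑ j, |w i j| * (R : ℤ) :=
    Finset.sum_le_sum fun j _ => mul_le_mul_of_nonneg_left (hl j) (abs_nonneg _)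
  rw [← Finset.sum_mul] at h2
  have h3 : ∑ j, |w i j| ≤ ((eW W : ℕ) : ℤ) := by
    unfold eW
    push_cast
    have h4 : ∑ j, |w i j| ≤ ∑ i, ∑ j, |w i j| :=
      Finset.single_le_sum (f := fun i => ∑ j, |w i j|)
        (fun i _ => Finset.sum_nonneg fun j _ => abs_nonneg _) (Finset.mem_univ i)
    have h5 : ∑ i, ∑ j, |w i j| ≤ ∑ w ∈ W, ∑ i, ∑ j, |w i j| :=
      Finset.single_le_sum (f := fun w : Matrix (Fin r) (Fin r) ℤ => ∑ i, ∑ j, |w i j|)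
        (fun w _ => Finset.sum_nonneg fun i _ => Finset.sum_nonneg fun j _ => abs_nonneg _) hw
    exact h4.trans h5
  push_cast
  exact h1.trans (h2.trans (mul_le_mul_of_nonneg_right h3 (Int.natCast_nonneg R)))

theorem mem_cb {r K : ℕ} {l : Fin r → ℤ} : l ∈ cb r K ↔ ∀ i, |l i| ≤ (K : ℤ) := by
  unfold cb
  rw [Fintype.mem_piFinset]
  constructor
  · intro h i
    exact abs_le.2 (Finset.mem_Icc.1 (h i))
  · intro h i
    exact Finset.mem_Icc.2 (abs_le.1 (h i))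

theorem norm_eu (t : ℝ) : ‖eu t‖ = 1 := by
  unfold eu
  have : (2 * π * t * Complex.I : ℂ) = ((2 * π * t : ℝ) : ℂ) * Complex.I := by push_cast; ring
  rw [this, Complex.norm_exp_ofReal_mul_I]

theorem norm_gt {r : ℕ} {Φ : RT r} {X : ℕ} {q : (Fin r → ℤ) → ℝ} (hq : QH Φ X q) (t : ℝ)
    (l : Fin r → ℤ) : ‖gt Φ q t l‖ ≤ 1 := by
  unfold gt
  rw [norm_mul, norm_eu, mul_one, Complex.norm_real, Real.norm_eq_abs, abs_of_nonneg (hq.nn l)]
  exact hq.le l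

theorem norm_nx {r : ℕ} {Φ : RT r} {m : ℕ} {C₁ : ℝ} (hC : CFF m C₁) {J : ℕ}
    {q : (Fin r → ℤ) → ℝ} (hq : QH Φ (2 ^ J) q) (x : {p // p ∈ pos Φ} → Fin (J + 1)) (t : ℝ)
    (ν : Fin r → ℤ) : ‖nx Φ m J q x t ν‖ ≤ C₁ ^ Fintype.card {p // p ∈ pos Φ} := by
  unfold nx kB
  refine (norm_sum_le _ _).trans ?_
  have h1 : ∀ k : {p // p ∈ pos Φ} → ℤ,
      ‖(∏ p, cf m J (x p).val (k p)) * gt Φ q t (ν - rs (pos Φ) k)‖ ≤
        ∏ p, ‖cf m J (x p).val (k p)‖ := by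
    intro k
    rw [norm_mul, norm_prod]
    exact mul_le_of_le_one_right (Finset.prod_nonneg fun p _ => norm_nonneg _) (norm_gt hq t _)
  refine (Finset.sum_le_sum fun k _ => h1 k).trans ?_
  have h2 := Finset.prod_univ_sum
    (fun _ : {p // p ∈ pos Φ} => Finset.Icc (-((2 * m ^ 2 * 2 ^ J : ℕ) : ℤ))
      ((2 * m ^ 2 * 2 ^ J : ℕ) : ℤ))
    (fun p k => ‖cf m J (x p).val k‖)
  rw [← h2]
  have h3 : ∏ _p : {p // p ∈ pos Φ}, C₁ = C₁ ^ Fintype.card {p // p ∈ pos Φ} := by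
    rw [Finset.prod_const, Finset.card_univ]
  rw [← h3]
  apply Finset.prod_le_prod
  · intro p _
    exact Finset.sum_nonneg fun k _ => norm_nonneg _
  · intro p _
    exact hC.abs J (x p).val (2 * m ^ 2 * 2 ^ J) (Nat.lt_succ_iff.1 (x p).isLt)

/-- a bound for the coroots -/
def eP {r : ℕ} (Φ : RT r) : ℕ := ∑ p ∈ pos Φ, ∑ i, (p.2 i).natAbs

theorem dot_le {r : ℕ} {Φ : RT r} {p : (Fin r → ℤ) × (Fin r → ℤ)} (hp : p ∈ pos Φ)
    {l : Fin r → ℤ} {R : ℕ} (hl : ∀ i, |l i| ≤ (R : ℤ)) :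
    |p.2 ⬝ᵥ l| ≤ ((eP Φ * R : ℕ) : ℤ) := by
  have h1 : |p.2 ⬝ᵥ l| ≤ ∑ j, |p.2 j| * |l j| := by
    unfold dotProduct
    refine (Finset.abs_sum_le_sum_abs _ _).trans (le_of_eq ?_)
    exact Finset.sum_congr rfl fun j _ => abs_mul _ _
  have h2 : ∑ j, |p.2 j| * |l j| ≤ ∑ j, |p.2 j| * (R : ℤ) :=
    Finset.sum_le_sum fun j _ => mul_le_mul_of_nonneg_left (hl j) (abs_nonneg _)
  rw [← Finset.sum_mul] at h2
  have h3 : ∑ j, |p.2 j| ≤ ((eP Φ : ℕ) : ℤ) := by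
    unfold eP
    push_cast
    exact Finset.single_le_sum (f := fun p : (Fin r → ℤ) × (Fin r → ℤ) => ∑ i, |p.2 i|)
        (fun p _ => Finset.sum_nonneg fun j _ => abs_nonneg _) hp
  push_cast
  exact h1.trans (h2.trans (mul_le_mul_of_nonneg_right h3 (Int.natCast_nonneg R)))

theorem dR_le {r : ℕ} {Φ : RT r} {l : Fin r → ℤ} {R : ℕ} (hl : ∀ i, |l i| ≤ (R : ℤ)) :
    |dR Φ l| ≤ ((eP Φ * R : ℕ) : ℝ) ^ (pos Φ).card := by
  unfold dR
  rw [abs_div]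
  have hnum : |∏ p ∈ pos Φ, ((p.2 ⬝ᵥ l : ℤ) : ℝ)| ≤ ((eP Φ * R : ℕ) : ℝ) ^ (pos Φ).card := by
    rw [Finset.abs_prod, ← Finset.prod_const]
    apply Finset.prod_le_prod
    · intro p _; exact abs_nonneg _
    · intro p hp
      have := dot_le hp hl
      have h2 : ((|p.2 ⬝ᵥ l| : ℤ) : ℝ) ≤ (((eP Φ * R : ℕ) : ℤ) : ℝ) := by exact_mod_cast this
      rw [Int.cast_abs] at h2
      exact h2.trans (le_of_eq (Int.cast_natCast _))
  have hden : |∏ p ∈ pos Φ, ((p.2 ⬝ᵥ (1 : Fin r → ℤ) : ℤ) : ℝ)| = 0 ∨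
      1 ≤ |∏ p ∈ pos Φ, ((p.2 ⬝ᵥ (1 : Fin r → ℤ) : ℤ) : ℝ)| := by
    have e : ∏ p ∈ pos Φ, ((p.2 ⬝ᵥ (1 : Fin r → ℤ) : ℤ) : ℝ) =
        ((∏ p ∈ pos Φ, (p.2 ⬝ᵥ (1 : Fin r → ℤ)) : ℤ) : ℝ) := by push_cast; rfl
    rw [e, ← Int.cast_abs]
    rcases eq_or_ne (∏ p ∈ pos Φ, (p.2 ⬝ᵥ (1 : Fin r → ℤ))) 0 with h | h
    · left; rw [h]; simp
    · right
      exact_mod_cast Int.one_le_abs h
  rcases hden with h | h
  · rw [h, div_zero]
    positivity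
  · exact (div_le_self (abs_nonneg _) h).trans hnum

/-- a bound for `A (w 1)` -/
def eA {r : ℕ} (Φ : RT r) : ℕ := ∑ w ∈ WF Φ, ∑ i, (((rd Φ).A *ᵥ (w *ᵥ 1)) i).natAbs

theorem ip_le {r : ℕ} {Φ : RT r} {w : Matrix (Fin r) (Fin r) ℤ} (hw : w ∈ WF Φ)
    {l : Fin r → ℤ} {R : ℕ} (hl : ∀ i, |l i| ≤ (R : ℤ)) :
    ip Φ l (w *ᵥ 1) ≤ ((eA Φ * R : ℕ) : ℝ) := by
  have h1 : |l ⬝ᵥ ((rd Φ).A *ᵥ (w *ᵥ 1))| ≤ ∑ j, |l j| * |((rd Φ).A *ᵥ (w *ᵥ 1)) j| := by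
    unfold dotProduct
    refine (Finset.abs_sum_le_sum_abs _ _).trans (le_of_eq ?_)
    exact Finset.sum_congr rfl fun j _ => abs_mul _ _
  have h2 : ∑ j, |l j| * |((rd Φ).A *ᵥ (w *ᵥ 1)) j| ≤
      ∑ j, (R : ℤ) * |((rd Φ).A *ᵥ (w *ᵥ 1)) j| :=
    Finset.sum_le_sum fun j _ => mul_le_mul_of_nonneg_right (hl j) (abs_nonneg _)
  rw [← Finset.mul_sum] at h2
  have h3 : ∑ j, |((rd Φ).A *ᵥ (w *ᵥ 1)) j| ≤ ((eA Φ : ℕ) : ℤ) := by
    unfold eA
    push_cast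
    exact Finset.single_le_sum (f := fun w : Matrix (Fin r) (Fin r) ℤ =>
        ∑ i, |((rd Φ).A *ᵥ (w *ᵥ 1)) i|)
        (fun p _ => Finset.sum_nonneg fun j _ => abs_nonneg _) hw
  have h4 : l ⬝ᵥ ((rd Φ).A *ᵥ (w *ᵥ 1)) ≤ ((eA Φ * R : ℕ) : ℤ) := by
    push_cast
    rw [mul_comm]
    exact (le_abs_self _).trans
      (h1.trans (h2.trans (mul_le_mul_of_nonneg_left h3 (Int.natCast_nonneg R))))
  unfold ip
  have h5 : ((l ⬝ᵥ ((rd Φ).A *ᵥ (w *ᵥ 1)) : ℤ) : ℝ) ≤ (((eA Φ * R : ℕ) : ℤ) : ℝ) := by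
    exact_mod_cast h4
  exact h5.trans (le_of_eq (Int.cast_natCast _))

end LMB

open LMB in
theorem t_LMB : M_LMB := by
  intro hPRM hNXS r Φ B hr hI hW m C₁ hm hC
  have hP := hPRM r Φ B hr hI hW
  obtain ⟨C₀, hN⟩ := hNXS r Φ B hr hI hW m C₁ hm hC
  set E : ℕ := eW (WF Φ) with hE
  -- supports
  have hone : ∀ i : Fin r, |(1 : Fin r → ℤ) i| ≤ ((1 : ℕ) : ℤ) := by intro i; simp
  have hnx : ∀ (J : ℕ) (q : (Fin r → ℤ) → ℝ), QH Φ (2 ^ J) q → ∀ x t ν,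
      nx Φ m J q x t ν ≠ 0 → ∀ i, |ν i| ≤ ((C₀ * 2 ^ J : ℕ) : ℤ) := by
    intro J q hq x t ν h i
    by_contra h'
    apply h
    apply hN.supp J q hq x t ν i
    push_cast at h'
    exact not_le.1 h'
  have hbox : ∀ (J : ℕ) (q : (Fin r → ℤ) → ℝ), QH Φ (2 ^ J) q → ∀ x t l, ∀ w ∈ WF Φ,
      nx Φ m J q x t (l + w *ᵥ 1) ≠ 0 → ∀ i, |l i| ≤ (((C₀ + E) * 2 ^ J : ℕ) : ℤ) := by
    intro J q hq x t l w hw h i
    have h1 := hnx J q hq x t _ h i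
    have h2 := mulVec_le hw hone i
    rw [← hE] at h2
    have h3 : |l i| ≤ |(l + w *ᵥ 1) i| + |(w *ᵥ (1 : Fin r → ℤ)) i| := by
      have : l i = (l + w *ᵥ 1) i - (w *ᵥ (1 : Fin r → ℤ)) i := by
        rw [Pi.add_apply]; ring
      calc |l i| = |(l + w *ᵥ 1) i - (w *ᵥ (1 : Fin r → ℤ)) i| := by rw [← this]
        _ ≤ _ := abs_sub _ _
    have h4 : (1 : ℤ) ≤ 2 ^ J := one_le_pow₀ (by norm_num)
    push_cast at h1 h2 ⊢
    have h5 : (E : ℤ) * 1 ≤ E * 2 ^ J := mul_le_mul_of_nonneg_left h4 (Int.natCast_nonneg E)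
    linarith
  have hterm : ∀ (J : ℕ) (q : (Fin r → ℤ) → ℝ) x t l,
      lm Φ (th x) (nx Φ m J q x t) l ≠ 0 → ∃ w ∈ WF Φ, nx Φ m J q x t (l + w *ᵥ 1) ≠ 0 := by
    intro J q x t l h
    by_contra h'
    push_neg at h'
    apply h
    unfold lm
    rw [Finset.sum_eq_zero, mul_zero]
    intro w hw
    rw [h' w hw, mul_zero, mul_zero]
  set K : ℕ := C₀ + E + E * C₀ with hK
  set Cb : ℝ := Real.exp (2 * (eA Φ * (C₀ + E) : ℕ)) * (((eP Φ * C₀ : ℕ) : ℝ) ^ (pos Φ).card) *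
    |C₁| ^ Fintype.card {p // p ∈ pos Φ} with hCb
  refine ⟨K, Cb, by rw [hCb]; positivity, ?_, ?_, ?_, ?_, ?_⟩
  · intro J q x τ l hq h
    obtain ⟨w, hw, hne⟩ := hterm J q x τ l h
    rw [mem_cb]
    intro i
    refine (hbox J q hq x τ l w hw hne i).trans ?_
    have : (C₀ + E) * 2 ^ J ≤ K * 2 ^ J := Nat.mul_le_mul_right _ (by rw [hK]; omega)
    exact_mod_cast this
  · intro J q x τ l hq
    have hcard : 0 < (WF Φ).card := Finset.card_pos.2 ⟨1, hW.one⟩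
    unfold lm
    rw [norm_mul, norm_div, norm_one, Complex.norm_natCast]
    have hw1 : ∀ w ∈ WF Φ, ‖(w.det : ℂ) *
        (((Real.exp (2 * (th x) * ip Φ l (w *ᵥ 1)) * dR Φ (l + w *ᵥ 1) : ℝ) : ℂ) *
          nx Φ m J q x τ (l + w *ᵥ 1))‖ ≤ Cb * 2 ^ (J * (pos Φ).card) := by
      intro w hw
      by_cases h0 : nx Φ m J q x τ (l + w *ᵥ 1) = 0
      · rw [h0, mul_zero, mul_zero, norm_zero]
        have : 0 ≤ Cb := by rw [hCb]; positivity
        positivity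
      · have hl := hbox J q hq x τ l w hw h0
        have hν := hnx J q hq x τ _ h0
        have hdet : ‖(w.det : ℂ)‖ = 1 := by
          rcases hW.det w hw with h | h <;> rw [h] <;> simp
        have hn := norm_nx hC hq x τ (l + w *ᵥ 1)
        have hn' : ‖nx Φ m J q x τ (l + w *ᵥ 1)‖ ≤ |C₁| ^ Fintype.card {p // p ∈ pos Φ} := by
          refine hn.trans ((le_abs_self _).trans (le_of_eq (abs_pow _ _)))
        have hd := dR_le (Φ := Φ) hν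
        have hip := ip_le hw hl
        have ht := hP.tle J x
        have ht0 := hP.tpos J x
        have h2J : (0 : ℝ) < 2 ^ J := by positivity
        have hexp : 2 * th x * ip Φ l (w *ᵥ 1) ≤ 2 * (eA Φ * (C₀ + E) : ℕ) := by
          have e1 : 2 * th x * ip Φ l (w *ᵥ 1) ≤
              2 * th x * ((eA Φ * ((C₀ + E) * 2 ^ J) : ℕ) : ℝ) :=
            mul_le_mul_of_nonneg_left hip (by positivity)
          have e2 : 2 * th x * ((eA Φ * ((C₀ + E) * 2 ^ J) : ℕ) : ℝ) ≤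
              2 * (1 / 2 ^ J) * ((eA Φ * ((C₀ + E) * 2 ^ J) : ℕ) : ℝ) := by
            apply mul_le_mul_of_nonneg_right _ (Nat.cast_nonneg _)
            linarith
          have e3 : 2 * (1 / 2 ^ J) * ((eA Φ * ((C₀ + E) * 2 ^ J) : ℕ) : ℝ) =
              2 * ((eA Φ * (C₀ + E) : ℕ) : ℝ) := by
            push_cast
            field_simp
          linarith
        rw [norm_mul, hdet, one_mul, norm_mul, Complex.norm_real, Real.norm_eq_abs, abs_mul,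
          abs_of_pos (Real.exp_pos _)]
        have hd' : |dR Φ (l + w *ᵥ 1)| ≤
            (((eP Φ * C₀ : ℕ) : ℝ) ^ (pos Φ).card) * 2 ^ (J * (pos Φ).card) := by
          refine hd.trans (le_of_eq ?_)
          rw [pow_mul, ← mul_pow]
          push_cast
          ring
        calc Real.exp (2 * th x * ip Φ l (w *ᵥ 1)) * |dR Φ (l + w *ᵥ 1)| *
              ‖nx Φ m J q x τ (l + w *ᵥ 1)‖
            ≤ (Real.exp (2 * (eA Φ * (C₀ + E) : ℕ)) *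
              ((((eP Φ * C₀ : ℕ) : ℝ) ^ (pos Φ).card) * 2 ^ (J * (pos Φ).card))) *
              |C₁| ^ Fintype.card {p // p ∈ pos Φ} := by
              apply mul_le_mul _ hn' (norm_nonneg _) (by positivity)
              apply mul_le_mul (Real.exp_le_exp.2 hexp) hd' (abs_nonneg _) (Real.exp_pos _).le
          _ = Cb * 2 ^ (J * (pos Φ).card) := by rw [hCb]; ring
    have hs := (norm_sum_le (WF Φ) (fun w => (w.det : ℂ) *
        (((Real.exp (2 * (th x) * ip Φ l (w *ᵥ 1)) * dR Φ (l + w *ᵥ 1) : ℝ) : ℂ) *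
          nx Φ m J q x τ (l + w *ᵥ 1)))).trans (Finset.sum_le_sum hw1)
    rw [Finset.sum_const, nsmul_eq_mul] at hs
    have hc : (0 : ℝ) < (WF Φ).card := by exact_mod_cast hcard
    rw [div_mul_eq_mul_div, one_mul, div_le_iff₀ hc, mul_comm (Cb * _)]
    exact hs
  · intro J q x τ ν hq h
    rw [mem_cb]
    have h1 : ∃ w ∈ WF Φ, nx Φ m J q x τ (w *ᵥ ν) ≠ 0 := by
      by_contra h'
      push_neg at h'
      apply h
      unfold wa
      rw [Finset.sum_eq_zero h', mul_zero]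
    obtain ⟨w, hw, hne⟩ := h1
    obtain ⟨w', hw', hinv, _⟩ := hW.inv w hw
    have h2 := hnx J q hq x τ _ hne
    intro i
    have h3 := mulVec_le hw' h2 i
    rw [Matrix.mulVec_mulVec, hinv, Matrix.one_mulVec, ← hE] at h3
    refine h3.trans ?_
    have : E * (C₀ * 2 ^ J) ≤ K * 2 ^ J := by
      rw [← mul_assoc]
      exact Nat.mul_le_mul_right _ (by rw [hK]; omega)
    exact_mod_cast this
  · intro J q x l
    unfold lm
    apply continuous_const.mul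
    apply continuous_finset_sum
    intro w _
    apply continuous_const.mul
    apply continuous_const.mul
    exact hN.cont J q x _
  · intro J q x ν
    unfold wa
    apply continuous_const.mul
    apply continuous_finset_sum
    intro w _
    exact hN.cont J q x _

end

end STZ3
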