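import Pool.Agent.STZ3.StD3

/-!
# LMC: the torus multiplier of the chain packets for the tuple `x`
-/

namespace STZ3

open STZ LGR MeasureTheory Matrix Filter

open scoped ComplexConjugate Matrix Real Topology

noncomputable section

namespace LMC

theorem mem_cb {r K : ℕ} {l : Fin r → ℤ} : l ∈ cb r K ↔ ∀ i, |l i| ≤ (K : ℤ) := by
  unfold cb
  rw [Fintype.mem_piFinset]
  constructor
  · intro h i
    exact abs_le.2 (Finset.mem_Icc.1 (h i))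
  · intro h i
    exact Finset.mem_Icc.2 (abs_le.1 (h i))

theorem norm_eu (t : ℝ) : ‖eu t‖ = 1 := by
  unfold eu
  have : (2 * π * t * Complex.I : ℂ) = ((2 * π * t : ℝ) : ℂ) * Complex.I := by push_cast; ring
  rw [this, Complex.norm_exp_ofReal_mul_I]

theorem norm_gt {r : ℕ} {Φ : RT r} {X : ℕ} {q : (Fin r → ℤ) → ℝ} (hq : QH Φ X q) (t : ℝ)
    (l : Fin r → ℤ) : ‖gt Φ q t l‖ ≤ 1 := by
  unfold gt
  rw [norm_mul, norm_eu, mul_one, Complex.norm_real, Real.norm_eq_abs, abs_of_nonneg (hq.nn l)]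
  exact hq.le l

theorem norm_nx {r : ℕ} {Φ : RT r} {m : ℕ} {C₁ : ℝ} (hC : CFF m C₁) {J : ℕ}
    {q : (Fin r → ℤ) → ℝ} (hq : QH Φ (2 ^ J) q) (x : {p // p ∈ pos Φ} → Fin (J + 1)) (t : ℝ)
    (ν : Fin r → ℤ) : ‖nx Φ m J q x t ν‖ ≤ C₁ ^ Fintype.card {p // p ∈ pos Φ} := by
  unfold nx kB
  refine (norm_sum_le _ _).trans ?_
  have h1 : ∀ k : {p // p ∈ pos Φ} → ℤ,
      ‖(∏ p, cf m J (x p).val (k p)) * gt Φ q t (ν - rs (pos Φ) k)‖ ≤
        ∏ p, ‖cf m J (x p).val (k p)‖ := by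
    intro k
    rw [norm_mul, norm_prod]
    exact mul_le_of_le_one_right (Finset.prod_nonneg fun p _ => norm_nonneg _) (norm_gt hq t _)
  refine (Finset.sum_le_sum fun k _ => h1 k).trans ?_
  have h2 := Finset.prod_univ_sum
    (fun _ : {p // p ∈ pos Φ} => Finset.Icc (-((2 * m ^ 2 * 2 ^ J : ℕ) : ℤ))
      ((2 * m ^ 2 * 2 ^ J : ℕ) : ℤ))
    (fun p k => ‖cf m J (x p).val k‖)
  rw [← h2]
  have h3 : ∏ _p : {p // p ∈ pos Φ}, C₁ = C₁ ^ Fintype.card {p // p ∈ pos Φ} := by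
    rw [Finset.prod_const, Finset.card_univ]
  rw [← h3]
  apply Finset.prod_le_prod
  · intro p _
    exact Finset.sum_nonneg fun k _ => norm_nonneg _
  · intro p _
    exact hC.abs J (x p).val (2 * m ^ 2 * 2 ^ J) (Nat.lt_succ_iff.1 (x p).isLt)

/-- a bound for the coroots -/
def eP {r : ℕ} (Φ : RT r) : ℕ := ∑ p ∈ pos Φ, ∑ i, (p.2 i).natAbs

theorem dot_le {r : ℕ} {Φ : RT r} {p : (Fin r → ℤ) × (Fin r → ℤ)} (hp : p ∈ pos Φ)
    {l : Fin r → ℤ} {R : ℕ} (hl : ∀ i, |l i| ≤ (R : ℤ)) :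
    |p.2 ⬝ᵥ l| ≤ ((eP Φ * R : ℕ) : ℤ) := by
  have h1 : |p.2 ⬝ᵥ l| ≤ ∑ j, |p.2 j| * |l j| := by
    unfold dotProduct
    refine (Finset.abs_sum_le_sum_abs _ _).trans (le_of_eq ?_)
    exact Finset.sum_congr rfl fun j _ => abs_mul _ _
  have h2 : ∑ j, |p.2 j| * |l j| ≤ ∑ j, |p.2 j| * (R : ℤ) :=
    Finset.sum_le_sum fun j _ => mul_le_mul_of_nonneg_left (hl j) (abs_nonneg _)
  rw [← Finset.sum_mul] at h2
  have h3 : ∑ j, |p.2 j| ≤ ((eP Φ : ℕ) : ℤ) := by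
    unfold eP
    push_cast
    exact Finset.single_le_sum (f := fun p : (Fin r → ℤ) × (Fin r → ℤ) => ∑ i, |p.2 i|)
        (fun p _ => Finset.sum_nonneg fun j _ => abs_nonneg _) hp
  push_cast
  exact h1.trans (h2.trans (mul_le_mul_of_nonneg_right h3 (Int.natCast_nonneg R)))

theorem dR_le {r : ℕ} {Φ : RT r} {l : Fin r → ℤ} {R : ℕ} (hl : ∀ i, |l i| ≤ (R : ℤ)) :
    |dR Φ l| ≤ ((eP Φ * R : ℕ) : ℝ) ^ (pos Φ).card := by
  unfold dR
  rw [abs_div]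
  have hnum : |∏ p ∈ pos Φ, ((p.2 ⬝ᵥ l : ℤ) : ℝ)| ≤ ((eP Φ * R : ℕ) : ℝ) ^ (pos Φ).card := by
    rw [Finset.abs_prod, ← Finset.prod_const]
    apply Finset.prod_le_prod
    · intro p _; exact abs_nonneg _
    · intro p hp
      have := dot_le hp hl
      have h2 : ((|p.2 ⬝ᵥ l| : ℤ) : ℝ) ≤ (((eP Φ * R : ℕ) : ℤ) : ℝ) := by exact_mod_cast this
      rw [Int.cast_abs] at h2
      exact h2.trans (le_of_eq (Int.cast_natCast _))
  have hden : |∏ p ∈ pos Φ, ((p.2 ⬝ᵥ (1 : Fin r → ℤ) : ℤ) : ℝ)| = 0 ∨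
      1 ≤ |∏ p ∈ pos Φ, ((p.2 ⬝ᵥ (1 : Fin r → ℤ) : ℤ) : ℝ)| := by
    have e : ∏ p ∈ pos Φ, ((p.2 ⬝ᵥ (1 : Fin r → ℤ) : ℤ) : ℝ) =
        ((∏ p ∈ pos Φ, (p.2 ⬝ᵥ (1 : Fin r → ℤ)) : ℤ) : ℝ) := by push_cast; rfl
    rw [e, ← Int.cast_abs]
    rcases eq_or_ne (∏ p ∈ pos Φ, (p.2 ⬝ᵥ (1 : Fin r → ℤ))) 0 with h | h
    · left; rw [h]; simp
    · right
      exact_mod_cast Int.one_le_abs h
  rcases hden with h | h
  · rw [h, div_zero]
    positivity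
  · exact (div_le_self (abs_nonneg _) h).trans hnum


/-- the shift of the term `S` -/
def sS {r : ℕ} (S : RT r) : Fin r → ℤ := 1 - ∑ p ∈ S, p.1

/-- a bound for the shifts -/
def eS {r : ℕ} (Φ : RT r) : ℕ := ∑ S ∈ (pos Φ).powerset, ∑ i, (sS S i).natAbs

theorem sS_le {r : ℕ} {Φ : RT r} {S : RT r} (hS : S ∈ (pos Φ).powerset) (i : Fin r) :
    |sS S i| ≤ ((eS Φ : ℕ) : ℤ) := by
  unfold eS
  push_cast
  have h4 : |sS S i| ≤ ∑ i, |sS S i| :=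
    Finset.single_le_sum (f := fun i => |sS S i|) (fun i _ => abs_nonneg _) (Finset.mem_univ i)
  have h5 : ∑ i, |sS S i| ≤ ∑ S ∈ (pos Φ).powerset, ∑ i, |sS S i| :=
    Finset.single_le_sum (f := fun S : RT r => ∑ i, |sS S i|)
      (fun S _ => Finset.sum_nonneg fun i _ => abs_nonneg _) hS
  exact h4.trans h5

/-- the absolute value of `l·v` -/
theorem dotv_le {r : ℕ} (v : Fin r → ℤ) {l : Fin r → ℤ} {R : ℕ} (hl : ∀ i, |l i| ≤ (R : ℤ)) :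
    |l ⬝ᵥ v| ≤ (((∑ i, (v i).natAbs) * R : ℕ) : ℤ) := by
  have h1 : |l ⬝ᵥ v| ≤ ∑ j, |l j| * |v j| := by
    unfold dotProduct
    refine (Finset.abs_sum_le_sum_abs _ _).trans (le_of_eq ?_)
    exact Finset.sum_congr rfl fun j _ => abs_mul _ _
  have h2 : ∑ j, |l j| * |v j| ≤ ∑ j, (R : ℤ) * |v j| :=
    Finset.sum_le_sum fun j _ => mul_le_mul_of_nonneg_right (hl j) (abs_nonneg _)
  rw [← Finset.mul_sum] at h2
  push_cast
  rw [mul_comm]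
  exact h1.trans h2

/-- a bound for `A a` and `A σ` -/
def eA {r : ℕ} (Φ : RT r) : ℕ := ∑ p ∈ pos Φ, ∑ i, (((rd Φ).A *ᵥ p.1) i).natAbs +
  ∑ S ∈ (pos Φ).powerset, ∑ i, (((rd Φ).A *ᵥ (sS S)) i).natAbs

theorem ip_le₁ {r : ℕ} {Φ : RT r} {p : (Fin r → ℤ) × (Fin r → ℤ)} (hp : p ∈ pos Φ)
    {l : Fin r → ℤ} {R : ℕ} (hl : ∀ i, |l i| ≤ (R : ℤ)) :
    |ip Φ l p.1| ≤ ((eA Φ * R : ℕ) : ℝ) := by
  have h := dotv_le ((rd Φ).A *ᵥ p.1) hl
  have h3 : ∑ i, (((rd Φ).A *ᵥ p.1) i).natAbs ≤ eA Φ := by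
    unfold eA
    refine le_add_right ?_
    exact Finset.single_le_sum
      (f := fun p : (Fin r → ℤ) × (Fin r → ℤ) => ∑ i, (((rd Φ).A *ᵥ p.1) i).natAbs)
      (fun _ _ => Nat.zero_le _) hp
  have h4 : |l ⬝ᵥ ((rd Φ).A *ᵥ p.1)| ≤ ((eA Φ * R : ℕ) : ℤ) :=
    h.trans (by exact_mod_cast Nat.mul_le_mul_right R h3)
  unfold ip
  rw [← Int.cast_abs]
  have h5 : ((|l ⬝ᵥ ((rd Φ).A *ᵥ p.1)| : ℤ) : ℝ) ≤ (((eA Φ * R : ℕ) : ℤ) : ℝ) := by
    exact_mod_cast h4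
  exact h5.trans (le_of_eq (Int.cast_natCast _))

theorem ip_le₂ {r : ℕ} {Φ : RT r} {S : RT r} (hS : S ∈ (pos Φ).powerset)
    {l : Fin r → ℤ} {R : ℕ} (hl : ∀ i, |l i| ≤ (R : ℤ)) :
    |ip Φ l (sS S)| ≤ ((eA Φ * R : ℕ) : ℝ) := by
  have h := dotv_le ((rd Φ).A *ᵥ (sS S)) hl
  have h3 : ∑ i, (((rd Φ).A *ᵥ (sS S)) i).natAbs ≤ eA Φ := by
    unfold eA
    refine le_add_left ?_
    exact Finset.single_le_sum
      (f := fun S : RT r => ∑ i, (((rd Φ).A *ᵥ (sS S)) i).natAbs)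
      (fun _ _ => Nat.zero_le _) hS
  have h4 : |l ⬝ᵥ ((rd Φ).A *ᵥ (sS S))| ≤ ((eA Φ * R : ℕ) : ℤ) :=
    h.trans (by exact_mod_cast Nat.mul_le_mul_right R h3)
  unfold ip
  rw [← Int.cast_abs]
  have h5 : ((|l ⬝ᵥ ((rd Φ).A *ᵥ (sS S))| : ℤ) : ℝ) ≤ (((eA Φ * R : ℕ) : ℤ) : ℝ) := by
    exact_mod_cast h4
  exact h5.trans (le_of_eq (Int.cast_natCast _))

/-- a bound for `Q σ`, `Q 1` -/
def eQ {r : ℕ} (Φ : RT r) : ℝ := ∑ S ∈ (pos Φ).powerset, |((rd Φ).Q (sS S) : ℝ)| + |((rd Φ).Q 1 : ℝ)|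

theorem eQ_nn {r : ℕ} (Φ : RT r) : 0 ≤ eQ Φ := by
  unfold eQ
  exact add_nonneg (Finset.sum_nonneg fun _ _ => abs_nonneg _) (abs_nonneg _)

theorem Q_le {r : ℕ} {Φ : RT r} {S : RT r} (hS : S ∈ (pos Φ).powerset) :
    |((rd Φ).Q (sS S) : ℝ)| + |((rd Φ).Q 1 : ℝ)| ≤ eQ Φ := by
  unfold eQ
  have h : |((rd Φ).Q (sS S) : ℝ)| ≤ ∑ S ∈ (pos Φ).powerset, |((rd Φ).Q (sS S) : ℝ)| :=
    Finset.single_le_sum (f := fun S : RT r => |((rd Φ).Q (sS S) : ℝ)|)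
      (fun _ _ => abs_nonneg _) hS
  linarith

/-- the form `ip` is the polar form of `Q` -/
theorem Q_add {r : ℕ} {Φ : RT r} (hF : QF (rd Φ).Q (rd Φ).A) (x y : Fin r → ℤ) :
    (((rd Φ).Q (x + y) : ℤ) : ℝ) = (rd Φ).Q x + (rd Φ).Q y + ip Φ x y := by
  rw [hF.polar x y]
  unfold ip
  push_cast
  rfl

theorem ip_comm {r : ℕ} {Φ : RT r} (hF : QF (rd Φ).Q (rd Φ).A) (x y : Fin r → ℤ) :
    ip Φ x y = ip Φ y x := by
  have h1 := Q_add hF x y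
  have h2 := Q_add hF y x
  rw [add_comm y x] at h2
  linarith

/-- the two cases of `CL` -/
theorem CL_eq {r : ℕ} {Φ : RT r} (hF : QF (rd Φ).Q (rd Φ).A)
    (hl : ∀ l, l ⬝ᵥ ((rd Φ).A *ᵥ l) = 2 * (rd Φ).Q l) (a : (Fin r → ℤ) × (Fin r → ℤ)) (S : RT r)
    (m : Fin r → ℤ) : ∃ e : ℝ, (e = 1 ∨ e = -1) ∧
      CL Φ a (m - if a ∈ S then a.1 else 0) = (rd Φ).Q m + e * (ip Φ m a.1 / 2) := by
  by_cases h : a ∈ S
  · refine ⟨-1, Or.inr rfl, ?_⟩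
    rw [if_pos h]
    unfold CL
    have h1 := Q_add hF (m - a.1) a.1
    rw [sub_add_cancel] at h1
    have h2 : ip Φ (m - a.1) a.1 = ip Φ m a.1 - 2 * (rd Φ).Q a.1 := by
      unfold ip
      rw [sub_dotProduct, hl a.1]
      push_cast
      ring
    rw [ip_comm hF a.1 (m - a.1), h2]
    rw [h2] at h1
    linarith
  · refine ⟨1, Or.inl rfl, ?_⟩
    rw [if_neg h, sub_zero]
    unfold CL
    rw [ip_comm hF a.1 m]
    ring

theorem es_le {r : ℕ} {Φ : RT r} (hF : QF (rd Φ).Q (rd Φ).A)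
    (hq : ∀ l, l ⬝ᵥ ((rd Φ).A *ᵥ l) = 2 * (rd Φ).Q l) {a : (Fin r → ℤ) × (Fin r → ℤ)}
    (ha : a ∈ pos Φ) {S : RT r} (hS : S ∈ (pos Φ).powerset) {l : Fin r → ℤ} {R : ℕ}
    (hl : ∀ i, |l i| ≤ (R : ℤ)) {t₁ t₂ t : ℝ} (h1 : 0 ≤ t₁) (h1' : t₁ ≤ t) (h2 : 0 ≤ t₂)
    (h2' : t₂ ≤ t) : es Φ a t₁ t₂ S l ≤ 2 * t * (2 * ((eA Φ * R : ℕ) : ℝ) + eQ Φ) := by
  obtain ⟨e, he, hC⟩ := CL_eq hF hq a S l
  have hA := ip_le₁ ha hl
  have hB := ip_le₂ hS hl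
  have hQ := Q_le hS
  have h3 : l + 1 - ∑ p ∈ S, p.1 = l + sS S := by
    unfold sS
    exact add_sub_assoc _ _ _
  unfold es
  rw [hC, h3, Q_add hF l (sS S)]
  set A := ((eA Φ * R : ℕ) : ℝ)
  set u := ip Φ l a.1
  set v := ip Φ l (sS S)
  have hA' := abs_le.1 hA
  have hB' := abs_le.1 hB
  have hq1 := abs_le.1 (le_refl |((rd Φ).Q (sS S) : ℝ)|)
  have hq2 := abs_le.1 (le_refl |((rd Φ).Q 1 : ℝ)|)
  have e1 : e * (u / 2) ≤ A / 2 := by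
    rcases he with h | h <;> rw [h] <;> linarith [hA'.1, hA'.2]
  have e2 : -(A / 2) ≤ e * (u / 2) := by
    rcases he with h | h <;> rw [h] <;> linarith [hA'.1, hA'.2]
  have e3 : ((rd Φ).Q l : ℝ) + e * (u / 2) - (rd Φ).Q l ≤ A / 2 := by linarith
  have e4 : ((rd Φ).Q l : ℝ) + (rd Φ).Q (sS S) + v - (rd Φ).Q 1 - ((rd Φ).Q l + e * (u / 2)) ≤
      3 / 2 * A + eQ Φ := by
    linarith [hB'.2, hq1.2, hq2.1]
  have hA0 : 0 ≤ A := Nat.cast_nonneg _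
  have hQ0 := eQ_nn Φ
  have e5 : 2 * t₂ * (((rd Φ).Q l : ℝ) + e * (u / 2) - (rd Φ).Q l) ≤ 2 * t * (A / 2) :=
    (mul_le_mul_of_nonneg_left e3 (by positivity)).trans
      (mul_le_mul_of_nonneg_right (by linarith) (by positivity))
  have e6 : 2 * t₁ * (((rd Φ).Q l : ℝ) + (rd Φ).Q (sS S) + v - (rd Φ).Q 1 -
      ((rd Φ).Q l + e * (u / 2))) ≤ 2 * t * (3 / 2 * A + eQ Φ) :=
    (mul_le_mul_of_nonneg_left e4 (by positivity)).trans
      (mul_le_mul_of_nonneg_right (by linarith) (by positivity))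
  linarith

end LMC

open LMC in
theorem t_LMC : M_LMC := by
  intro hQUAD hPRM hNXS r Φ B hr hI hW m C₁ hm hC
  obtain ⟨-, hF, -, hq2, -⟩ := hQUAD r Φ B hI hW
  have hP := hPRM r Φ B hr hI hW
  obtain ⟨C₀, hN⟩ := hNXS r Φ B hr hI hW m C₁ hm hC
  set E : ℕ := eS Φ with hE
  have hsh : ∀ (S : RT r) (l : Fin r → ℤ), l + 1 - ∑ p ∈ S, p.1 = l + sS S := by
    intro S l
    unfold sS
    exact add_sub_assoc _ _ _
  -- supports
  have hnx : ∀ (J : ℕ) (q : (Fin r → ℤ) → ℝ), QH Φ (2 ^ J) q → ∀ x t ν,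
      nx Φ m J q x t ν ≠ 0 → ∀ i, |ν i| ≤ ((C₀ * 2 ^ J : ℕ) : ℤ) := by
    intro J q hq x t ν h i
    by_contra h'
    apply h
    apply hN.supp J q hq x t ν i
    push_cast at h'
    exact not_le.1 h'
  have hbox : ∀ (J : ℕ) (q : (Fin r → ℤ) → ℝ), QH Φ (2 ^ J) q → ∀ x t l,
      ∀ S ∈ (pos Φ).powerset,
      nx Φ m J q x t (l + sS S) ≠ 0 → ∀ i, |l i| ≤ (((C₀ + E) * 2 ^ J : ℕ) : ℤ) := by
    intro J q hq x t l S hS h i
    have h1 := hnx J q hq x t _ h i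
    have h2 := sS_le hS i
    rw [← hE] at h2
    have h3 : |l i| ≤ |(l + sS S) i| + |sS S i| := by
      have : l i = (l + sS S) i - sS S i := by
        rw [Pi.add_apply]; ring
      calc |l i| = |(l + sS S) i - sS S i| := by rw [← this]
        _ ≤ _ := abs_sub _ _
    have h4 : (1 : ℤ) ≤ 2 ^ J := one_le_pow₀ (by norm_num)
    push_cast at h1 h2 ⊢
    have h5 : (E : ℤ) * 1 ≤ E * 2 ^ J := mul_le_mul_of_nonneg_left h4 (Int.natCast_nonneg E)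
    linarith
  have hterm : ∀ (J : ℕ) (q : (Fin r → ℤ) → ℝ) a x t l,
      lac Φ m J q a x t l ≠ 0 → ∃ S ∈ (pos Φ).powerset, nx Φ m J q x t (l + sS S) ≠ 0 := by
    intro J q a x t l h
    by_contra h'
    push_neg at h'
    apply h
    unfold lac lc
    rw [Finset.sum_eq_zero, mul_zero]
    intro S hS
    rw [hsh, h' S hS, mul_zero, mul_zero]
  set K : ℕ := C₀ + E with hK
  set Cb : ℝ := (2 : ℝ) ^ (pos Φ).card *
    (Real.exp (4 * (eA Φ * K : ℕ) + 2 * eQ Φ) * (((eP Φ * C₀ : ℕ) : ℝ) ^ (pos Φ).card) *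
    |C₁| ^ Fintype.card {p // p ∈ pos Φ}) with hCb
  set Cc : ℝ := (Real.exp (4 * (eA Φ * K : ℕ) + 2 * eQ Φ) * (((eP Φ * C₀ : ℕ) : ℝ) ^ (pos Φ).card) *
    |C₁| ^ Fintype.card {p // p ∈ pos Φ}) with hCc
  refine ⟨K, Cb, by rw [hCb]; positivity, ?_, ?_, ?_⟩
  · intro J q a x τ l hq h
    obtain ⟨S, hS, hne⟩ := hterm J q a x τ l h
    rw [mem_cb]
    intro i
    exact hbox J q hq x τ l S hS hne i
  · intro J q a x τ l hq
    have hcard : 0 < (WF Φ).card := Finset.card_pos.2 ⟨1, hW.one⟩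
    unfold lac lc
    rw [norm_mul, norm_div, norm_one, Complex.norm_natCast]
    have ht := hP.tle J x
    have ht0 := hP.tpos J x
    have h2J : (0 : ℝ) < 2 ^ J := by positivity
    have htc0 : 0 ≤ tc a x := by
      unfold tc
      exact div_nonneg (hP.dpos J x a).le h2J.le
    have htc : tc a x ≤ 1 / 2 ^ J := by
      unfold tc
      exact div_le_div_of_nonneg_right ((hP.dle J x a).trans (hP.ble J x)) h2J.le
    have hw1 : ∀ S ∈ (pos Φ).powerset, ‖((-1 : ℂ)) ^ S.card *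
        (((Real.exp (es Φ a.1 (th x) (tc a x) S l) * dR Φ (l + 1 - ∑ p ∈ S, p.1) : ℝ) : ℂ) *
          nx Φ m J q x τ (l + 1 - ∑ p ∈ S, p.1))‖ ≤ Cc * 2 ^ (J * (pos Φ).card) := by
      intro S hS
      rw [hsh]
      by_cases h0 : nx Φ m J q x τ (l + sS S) = 0
      · rw [h0, mul_zero, mul_zero, norm_zero]
        have : 0 ≤ Cc := by rw [hCc]; positivity
        positivity
      · have hl := hbox J q hq x τ l S hS h0
        have hν := hnx J q hq x τ _ h0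
        have hn := norm_nx hC hq x τ (l + sS S)
        have hn' : ‖nx Φ m J q x τ (l + sS S)‖ ≤ |C₁| ^ Fintype.card {p // p ∈ pos Φ} := by
          refine hn.trans ((le_abs_self _).trans (le_of_eq (abs_pow _ _)))
        have hd := dR_le (Φ := Φ) hν
        have hexp : es Φ a.1 (th x) (tc a x) S l ≤ 4 * (eA Φ * K : ℕ) + 2 * eQ Φ := by
          have e1 := es_le hF hq2 a.2 hS hl ht0.le ht htc0 htc
          have e2 : 2 * (1 / 2 ^ J) * (2 * ((eA Φ * (K * 2 ^ J) : ℕ) : ℝ) + eQ Φ) =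
              4 * ((eA Φ * K : ℕ) : ℝ) + 2 * (1 / 2 ^ J) * eQ Φ := by
            push_cast
            field_simp
            ring
          rw [e2] at e1
          have e3 : (1 : ℝ) / 2 ^ J ≤ 1 := by
            rw [div_le_one h2J]
            exact one_le_pow₀ (by norm_num)
          have e4 : 2 * (1 / 2 ^ J) * eQ Φ ≤ 2 * eQ Φ := by
            have := eQ_nn Φ
            have e5 : (1 / 2 ^ J) * eQ Φ ≤ 1 * eQ Φ := mul_le_mul_of_nonneg_right e3 this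
            linarith
          linarith
        have hd' : |dR Φ (l + sS S)| ≤
            (((eP Φ * C₀ : ℕ) : ℝ) ^ (pos Φ).card) * 2 ^ (J * (pos Φ).card) := by
          refine hd.trans (le_of_eq ?_)
          rw [pow_mul, ← mul_pow]
          push_cast
          ring
        rw [norm_mul, norm_pow, norm_neg, norm_one, one_pow, one_mul, norm_mul, Complex.norm_real,
          Real.norm_eq_abs, abs_mul, abs_of_pos (Real.exp_pos _)]
        calc Real.exp (es Φ a.1 (th x) (tc a x) S l) * |dR Φ (l + sS S)| *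
              ‖nx Φ m J q x τ (l + sS S)‖
            ≤ (Real.exp (4 * (eA Φ * K : ℕ) + 2 * eQ Φ) *
              ((((eP Φ * C₀ : ℕ) : ℝ) ^ (pos Φ).card) * 2 ^ (J * (pos Φ).card))) *
              |C₁| ^ Fintype.card {p // p ∈ pos Φ} := by
              apply mul_le_mul _ hn' (norm_nonneg _) (by positivity)
              apply mul_le_mul (Real.exp_le_exp.2 hexp) hd' (abs_nonneg _) (Real.exp_pos _).le
          _ = Cc * 2 ^ (J * (pos Φ).card) := by rw [hCc]; ring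
    have hs := (norm_sum_le ((pos Φ).powerset) (fun S => ((-1 : ℂ)) ^ S.card *
        (((Real.exp (es Φ a.1 (th x) (tc a x) S l) * dR Φ (l + 1 - ∑ p ∈ S, p.1) : ℝ) : ℂ) *
          nx Φ m J q x τ (l + 1 - ∑ p ∈ S, p.1)))).trans (Finset.sum_le_sum hw1)
    rw [Finset.sum_const, nsmul_eq_mul, Finset.card_powerset] at hs
    have hc : (1 : ℝ) ≤ (WF Φ).card := by exact_mod_cast hcard
    have hc' : 1 / ((WF Φ).card : ℝ) ≤ 1 := by
      rw [div_le_one (by linarith)]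
      exact hc
    have h0 : 0 ≤ 1 / ((WF Φ).card : ℝ) := by positivity
    calc 1 / ((WF Φ).card : ℝ) * _ ≤ 1 * _ := mul_le_mul_of_nonneg_right hc' (norm_nonneg _)
      _ ≤ (2 ^ (pos Φ).card : ℕ) * (Cc * 2 ^ (J * (pos Φ).card)) := by rw [one_mul]; exact hs
      _ = Cb * 2 ^ (J * (pos Φ).card) := by
        rw [hCb]
        push_cast
        ring
  · intro J q a x l
    unfold lac lc
    apply continuous_const.mul
    apply continuous_finset_sum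
    intro w _
    apply continuous_const.mul
    apply continuous_const.mul
    exact hN.cont J q x _

end

end STZ3
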