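import Pool.Agent.STZ3.StP

/-!
# Compact simple groups of rank two: module LWB (helper39)
-/

namespace STZ3

open STZ LGR MeasureTheory Matrix Filter

open scoped ComplexConjugate Matrix Real Topology

noncomputable section

namespace LWB

open ProbabilityTheory

/-- the density of the Gaussian measure -/
theorem ga_eq (r : ℕ) : ga r = (volume : Measure (Fin r → ℝ)).withDensity
    (fun ξ => ENNReal.ofReal (∏ i, gaussianPDFReal 0 1 (ξ i))) := by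
  unfold ga
  refine Measure.pi_eq fun s hs => ?_
  have hint : Integrable (fun ξ : Fin r → ℝ => ∏ i, gaussianPDFReal 0 1 (ξ i)) :=
    Integrable.fintype_prod (f := fun _ => gaussianPDFReal 0 1) (μ := fun _ => volume)
      fun i => integrable_gaussianPDFReal 0 1
  rw [withDensity_apply _ (MeasurableSet.univ_pi hs), ← ofReal_integral_eq_lintegral_ofReal
    hint.restrict (ae_of_all _ fun ξ => Finset.prod_nonneg fun i _ =>
      gaussianPDFReal_nonneg 0 1 (ξ i)), volume_pi, Measure.restrict_pi_pi,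
    integral_fintype_prod_eq_prod (fun _ => gaussianPDFReal 0 1), ENNReal.ofReal_prod_of_nonneg]
  · refine Finset.prod_congr rfl fun i _ => ?_
    rw [gaussianReal_apply_eq_integral 0 one_ne_zero]
  · intro i _
    exact integral_nonneg fun x => gaussianPDFReal_nonneg 0 1 x

theorem int_eq {r : ℕ} (F : (Fin r → ℝ) → ℝ) :
    ∫ ξ, F ξ ∂(ga r) = ∫ ξ, (∏ i, gaussianPDFReal 0 1 (ξ i)) * F ξ := by
  rw [ga_eq, integral_withDensity_eq_integral_toReal_smul]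
  · refine integral_congr_ae (ae_of_all _ fun ξ => ?_)
    simp only [smul_eq_mul]
    rw [ENNReal.toReal_ofReal (Finset.prod_nonneg fun i _ => gaussianPDFReal_nonneg 0 1 (ξ i))]
  · refine ENNReal.measurable_ofReal.comp ?_
    exact Finset.measurable_prod _ fun i _ =>
      (measurable_gaussianPDFReal 0 1).comp (measurable_pi_apply i)
  · exact ae_of_all _ fun _ => ENNReal.ofReal_lt_top

/-- translation of the Gaussian measure -/
theorem trans {r : ℕ} (F : (Fin r → ℝ) → ℝ) (η : Fin r → ℝ) :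
    ∫ ξ, F (ξ + η) ∂(ga r) =
      ∫ ξ, F ξ * Real.exp (∑ i, ξ i * η i - (∑ i, η i ^ 2) / 2) ∂(ga r) := by
  rw [int_eq, int_eq]
  have h1 := integral_add_right_eq_self (μ := (volume : Measure (Fin r → ℝ)))
    (fun ξ : Fin r → ℝ => (∏ i, gaussianPDFReal 0 1 (ξ i - η i)) * F ξ) η
  simp only [Pi.add_apply, add_sub_cancel_right] at h1
  rw [h1]
  refine integral_congr_ae (ae_of_all _ fun ξ => ?_)
  simp only
  have h2 : ∀ i, gaussianPDFReal 0 1 (ξ i - η i) =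
      gaussianPDFReal 0 1 (ξ i) * Real.exp (ξ i * η i - η i ^ 2 / 2) := by
    intro i
    simp only [gaussianPDFReal, NNReal.coe_one, sub_zero, mul_one]
    have e : Real.exp (-(ξ i - η i) ^ 2 / 2) =
        Real.exp (-(ξ i) ^ 2 / 2) * Real.exp (ξ i * η i - η i ^ 2 / 2) := by
      rw [← Real.exp_add]
      congr 1
      ring
    rw [e]
    ring
  have h3 : ∏ i, gaussianPDFReal 0 1 (ξ i - η i) =
      (∏ i, gaussianPDFReal 0 1 (ξ i)) *
        Real.exp (∑ i, ξ i * η i - (∑ i, η i ^ 2) / 2) := by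
    simp only [h2]
    rw [Finset.prod_mul_distrib, ← Real.exp_sum, Finset.sum_sub_distrib, Finset.sum_div]
  rw [h3]
  ring

/-- continuous functions of exponential growth -/
def EG {r : ℕ} (G : (Fin r → ℝ) → ℝ) : Prop :=
  Continuous G ∧ ∃ C c : ℝ, 0 ≤ C ∧ 0 ≤ c ∧ ∀ ξ, |G ξ| ≤ C * Real.exp (c * ∑ i, |ξ i|)

theorem EG.int {r : ℕ} {G : (Fin r → ℝ) → ℝ} (h : EG G) : Integrable G (ga r) := by
  obtain ⟨hc, C, c, hC, hc0, hb⟩ := h
  have h1 : Integrable (fun x : ℝ => Real.exp (c * |x|)) (gaussianReal 0 1) :=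
    integrable_exp_mul_abs (X := fun x : ℝ => x) (integrable_exp_mul_gaussianReal c)
      (integrable_exp_mul_gaussianReal (-c))
  have h2 : Integrable (fun ξ : Fin r → ℝ => ∏ i, Real.exp (c * |ξ i|)) (ga r) :=
    Integrable.fintype_prod (f := fun _ (x : ℝ) => Real.exp (c * |x|)) fun i => h1
  refine (h2.const_mul C).mono' hc.aestronglyMeasurable (ae_of_all _ fun ξ => ?_)
  rw [Real.norm_eq_abs, ← Real.exp_sum, ← Finset.mul_sum]
  exact hb ξ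

theorem EG.const {r : ℕ} (a : ℝ) : EG (fun _ : Fin r → ℝ => a) :=
  ⟨continuous_const, |a|, 0, abs_nonneg a, le_rfl, fun ξ => by simp⟩

theorem EG.mul {r : ℕ} {G G' : (Fin r → ℝ) → ℝ} (h : EG G) (h' : EG G') :
    EG (fun ξ => G ξ * G' ξ) := by
  obtain ⟨hc, C, c, hC, hc0, hb⟩ := h
  obtain ⟨hc', C', c', hC', hc0', hb'⟩ := h'
  refine ⟨hc.mul hc', C * C', c + c', mul_nonneg hC hC', add_nonneg hc0 hc0', fun ξ => ?_⟩
  rw [abs_mul, add_mul, Real.exp_add]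
  calc |G ξ| * |G' ξ| ≤ (C * Real.exp (c * ∑ i, |ξ i|)) * (C' * Real.exp (c' * ∑ i, |ξ i|)) :=
        mul_le_mul (hb ξ) (hb' ξ) (abs_nonneg _) (by positivity)
    _ = _ := by ring

theorem EG.add {r : ℕ} {G G' : (Fin r → ℝ) → ℝ} (h : EG G) (h' : EG G') :
    EG (fun ξ => G ξ + G' ξ) := by
  obtain ⟨hc, C, c, hC, hc0, hb⟩ := h
  obtain ⟨hc', C', c', hC', hc0', hb'⟩ := h'
  refine ⟨hc.add hc', C + C', c + c', add_nonneg hC hC', add_nonneg hc0 hc0', fun ξ => ?_⟩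
  have hs : 0 ≤ ∑ i, |ξ i| := Finset.sum_nonneg fun i _ => abs_nonneg _
  have e1 : Real.exp (c * ∑ i, |ξ i|) ≤ Real.exp ((c + c') * ∑ i, |ξ i|) := by
    apply Real.exp_le_exp.2
    nlinarith
  have e2 : Real.exp (c' * ∑ i, |ξ i|) ≤ Real.exp ((c + c') * ∑ i, |ξ i|) := by
    apply Real.exp_le_exp.2
    nlinarith
  calc |G ξ + G' ξ| ≤ |G ξ| + |G' ξ| := abs_add_le _ _
    _ ≤ C * Real.exp (c * ∑ i, |ξ i|) + C' * Real.exp (c' * ∑ i, |ξ i|) :=
        add_le_add (hb ξ) (hb' ξ)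
    _ ≤ C * Real.exp ((c + c') * ∑ i, |ξ i|) + C' * Real.exp ((c + c') * ∑ i, |ξ i|) :=
        add_le_add (mul_le_mul_of_nonneg_left e1 hC) (mul_le_mul_of_nonneg_left e2 hC')
    _ = _ := by ring

theorem EG.prod {r : ℕ} {ι : Type} (s : Finset ι) (G : ι → (Fin r → ℝ) → ℝ)
    (h : ∀ i ∈ s, EG (G i)) : EG (fun ξ => ∏ i ∈ s, G i ξ) := by
  classical
  induction s using Finset.induction_on with
  | empty => simpa using EG.const (r := r) 1
  | insert a s ha ih =>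
    simp only [Finset.prod_insert ha]
    exact (h a (Finset.mem_insert_self a s)).mul
      (ih fun i hi => h i (Finset.mem_insert_of_mem hi))

theorem EG.shift {r : ℕ} {G : (Fin r → ℝ) → ℝ} (h : EG G) (η : Fin r → ℝ) :
    EG (fun ξ => G (ξ + η)) := by
  obtain ⟨hc, C, c, hC, hc0, hb⟩ := h
  refine ⟨hc.comp (by fun_prop), C * Real.exp (c * ∑ i, |η i|), c, by positivity, hc0,
    fun ξ => (hb _).trans ?_⟩
  rw [mul_assoc, ← Real.exp_add]
  refine mul_le_mul_of_nonneg_left (Real.exp_le_exp.2 ?_) hC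
  rw [← mul_add, ← Finset.sum_add_distrib]
  refine mul_le_mul_of_nonneg_left (Finset.sum_le_sum fun i _ => ?_) hc0
  rw [Pi.add_apply, add_comm |η i|]
  exact abs_add_le _ _

theorem lin_bd {r : ℕ} (ξ u : Fin r → ℝ) : |∑ i, ξ i * u i| ≤ (∑ i, |u i|) * ∑ i, |ξ i| := by
  refine (Finset.abs_sum_le_sum_abs _ _).trans ?_
  rw [Finset.mul_sum]
  refine Finset.sum_le_sum fun i _ => ?_
  rw [abs_mul, mul_comm]
  refine mul_le_mul_of_nonneg_right ?_ (abs_nonneg _)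
  exact Finset.single_le_sum (f := fun i => |u i|) (fun j _ => abs_nonneg _) (Finset.mem_univ i)

theorem EG.lin {r : ℕ} (u : Fin r → ℝ) : EG (fun ξ => ∑ i, ξ i * u i) := by
  have hu : 0 ≤ ∑ i, |u i| := Finset.sum_nonneg fun i _ => abs_nonneg _
  refine ⟨by fun_prop, ∑ i, |u i|, 1, hu, zero_le_one, fun ξ => (lin_bd ξ u).trans ?_⟩
  refine mul_le_mul_of_nonneg_left ?_ hu
  rw [one_mul]
  have := Real.add_one_le_exp (∑ i, |ξ i|)
  linarith

theorem EG.expl {r : ℕ} (u : Fin r → ℝ) (b : ℝ) :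
    EG (fun ξ => Real.exp (b * ∑ i, ξ i * u i)) := by
  have hu : 0 ≤ ∑ i, |u i| := Finset.sum_nonneg fun i _ => abs_nonneg _
  refine ⟨by fun_prop, 1, |b| * ∑ i, |u i|, zero_le_one, by positivity, fun ξ => ?_⟩
  rw [Real.abs_exp, one_mul, Real.exp_le_exp, mul_assoc]
  calc b * ∑ i, ξ i * u i ≤ |b * ∑ i, ξ i * u i| := le_abs_self _
    _ = |b| * |∑ i, ξ i * u i| := abs_mul _ _
    _ ≤ |b| * ((∑ i, |u i|) * ∑ i, |ξ i|) :=
        mul_le_mul_of_nonneg_left (lin_bd ξ u) (abs_nonneg b)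

/-- the image of a weight -/
def zv {r : ℕ} (z : Matrix (Fin r) (Fin r) ℝ) (v : Fin r → ℤ) (l : Fin r) : ℝ :=
  ∑ i, z l i * (v i : ℝ)

theorem lf_eq {r : ℕ} (z : Matrix (Fin r) (Fin r) ℝ) (v : Fin r → ℤ) (ξ : Fin r → ℝ) :
    lf z v ξ = ∑ l, ξ l * zv z v l := rfl

theorem zv_dot {r : ℕ} {Φ : RT r} {z : Matrix (Fin r) (Fin r) ℝ} (hz : ZM Φ z)
    (v w : Fin r → ℤ) : ∑ l, zv z w l * zv z v l = ip Φ v w / 2 := by
  have h1 : ip Φ v w = ∑ i, ∑ j, (v i : ℝ) * (((rd Φ).A i j : ℝ) * (w j : ℝ)) := by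
    unfold ip
    simp only [dotProduct, mulVec, Int.cast_sum, Int.cast_mul, Finset.mul_sum]
  have h2 : ∀ i j, (v i : ℝ) * (((rd Φ).A i j : ℝ) * (w j : ℝ)) =
      ∑ l, 2 * ((z l j * (w j : ℝ)) * (z l i * (v i : ℝ))) := by
    intro i j
    have h3 : ((rd Φ).A i j : ℝ) = ∑ l, 2 * (z l i * z l j) := by
      rw [← Finset.mul_sum, hz i j]
      ring
    rw [h3, Finset.sum_mul, Finset.mul_sum]
    refine Finset.sum_congr rfl fun l _ => ?_
    ring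
  have h4 : ip Φ v w = 2 * ∑ l, zv z w l * zv z v l := by
    rw [h1]
    simp only [h2]
    rw [Finset.sum_comm]
    calc ∑ j, ∑ i, ∑ l, 2 * ((z l j * (w j : ℝ)) * (z l i * (v i : ℝ)))
        = ∑ j, ∑ l, ∑ i, 2 * ((z l j * (w j : ℝ)) * (z l i * (v i : ℝ))) :=
          Finset.sum_congr rfl fun j _ => Finset.sum_comm
      _ = ∑ l, ∑ j, ∑ i, 2 * ((z l j * (w j : ℝ)) * (z l i * (v i : ℝ))) := Finset.sum_comm
      _ = 2 * ∑ l, zv z w l * zv z v l := by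
          rw [Finset.mul_sum]
          refine Finset.sum_congr rfl fun l _ => ?_
          unfold zv
          rw [Finset.sum_mul_sum, Finset.mul_sum]
          refine Finset.sum_congr rfl fun j _ => ?_
          rw [Finset.mul_sum]
  rw [h4]
  ring

theorem zv_add {r : ℕ} (z : Matrix (Fin r) (Fin r) ℝ) (v w : Fin r → ℤ) (l : Fin r) :
    zv z (v + w) l = zv z v l + zv z w l := by
  unfold zv
  rw [← Finset.sum_add_distrib]
  refine Finset.sum_congr rfl fun i _ => ?_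
  rw [Pi.add_apply, Int.cast_add, mul_add]

theorem lf_add {r : ℕ} (z : Matrix (Fin r) (Fin r) ℝ) (v w : Fin r → ℤ) (ξ : Fin r → ℝ) :
    lf z (v + w) ξ = lf z v ξ + lf z w ξ := by
  rw [lf_eq, lf_eq, lf_eq, ← Finset.sum_add_distrib]
  refine Finset.sum_congr rfl fun l _ => ?_
  rw [zv_add, mul_add]

theorem lf_scale {r : ℕ} {Φ : RT r} {z : Matrix (Fin r) (Fin r) ℝ} (hz : ZM Φ z)
    (a : ℝ) (v w : Fin r → ℤ) : lf z v (fun l => a * zv z w l) = a * (ip Φ v w / 2) := by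
  rw [lf_eq, ← zv_dot hz v w, Finset.mul_sum]
  refine Finset.sum_congr rfl fun l _ => ?_
  ring

/-- translation by a multiple of a weight -/
theorem trans' {r : ℕ} {Φ : RT r} {z : Matrix (Fin r) (Fin r) ℝ} (hz : ZM Φ z)
    (F : (Fin r → ℝ) → ℝ) (a : ℝ) (v : Fin r → ℤ) :
    ∫ ξ, F (ξ + fun l => a * zv z v l) ∂(ga r) =
      Real.exp (-(a ^ 2 * ip Φ v v / 4)) * ∫ ξ, F ξ * Real.exp (a * lf z v ξ) ∂(ga r) := by
  rw [trans, ← integral_const_mul]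
  refine integral_congr_ae (ae_of_all _ fun ξ => ?_)
  simp only
  have h1 : ∑ i, ξ i * (a * zv z v i) = a * lf z v ξ := by
    rw [lf_eq, Finset.mul_sum]
    refine Finset.sum_congr rfl fun l _ => ?_
    ring
  have h2 : ∑ i, (a * zv z v i) ^ 2 = a ^ 2 * (ip Φ v v / 2) := by
    rw [← zv_dot hz v v, Finset.mul_sum]
    refine Finset.sum_congr rfl fun l _ => ?_
    ring
  rw [h1, h2, mul_left_comm, ← Real.exp_add]
  congr 2
  ring

/-- `y (e^(a y/2) - e^(-a y/2)) ≥ a y²` -/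
theorem sinh_bd {a : ℝ} (ha : 0 ≤ a) (y : ℝ) :
    a * y ^ 2 ≤ y * (Real.exp (a * y / 2) - Real.exp (-(a * y / 2))) := by
  have h1 : Real.exp (a * y / 2) - Real.exp (-(a * y / 2)) = 2 * Real.sinh (a * y / 2) := by
    rw [Real.sinh_eq]
    ring
  rw [h1]
  rcases le_total 0 y with hy | hy
  · have h2 : a * y / 2 ≤ Real.sinh (a * y / 2) := Real.self_le_sinh_iff.2 (by positivity)
    nlinarith [mul_le_mul_of_nonneg_left h2 hy]
  · have h2 : Real.sinh (a * y / 2) ≤ a * y / 2 :=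
      Real.sinh_le_self_iff.2 (by nlinarith [mul_nonneg ha (neg_nonneg.2 hy)])
    nlinarith [mul_le_mul_of_nonneg_left h2 (neg_nonneg.2 hy)]

end LWB

open LWB in
theorem t_LWB : M_LWB := by
  intro hQ hH hD hAn r Φ B hr hI hW
  obtain ⟨q1, q2, q3, q4, q5, q6, q7⟩ := hQ r Φ B hI hW
  obtain ⟨⟨z, hz⟩, hh⟩ := hH r Φ B hr hI hW
  replace hh := hh z hz
  obtain ⟨c0, hc0, hA⟩ := hAn r Φ B hr hI hW z hz
  -- the constants
  set kp : ((Fin r → ℤ) × (Fin r → ℤ)) → ℝ :=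
    fun p => ((p.1 ⬝ᵥ ((rd Φ).A *ᵥ p.1) : ℤ) : ℝ) / 4 with hkp
  have hkpos : ∀ p ∈ pos Φ, 0 < kp p := by
    intro p hp
    have h1 := (q7 p (hW.ppos p hp).1).1
    have h2 : (0 : ℝ) < ((p.1 ⬝ᵥ ((rd Φ).A *ᵥ p.1) : ℤ) : ℝ) := by exact_mod_cast h1
    simp only [hkp]
    positivity
  have hpq : ∀ p ∈ pos Φ, ∀ v, ip Φ p.1 v / 2 = kp p * ((p.2 ⬝ᵥ v : ℤ) : ℝ) := by
    intro p hp v
    have h1 := (q7 p (hW.ppos p hp).1).2 v
    have h2 : (2 : ℝ) * ((p.1 ⬝ᵥ ((rd Φ).A *ᵥ v) : ℤ) : ℝ) =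
        ((p.2 ⬝ᵥ v : ℤ) : ℝ) * ((p.1 ⬝ᵥ ((rd Φ).A *ᵥ p.1) : ℤ) : ℝ) := by exact_mod_cast h1
    simp only [hkp, ip]
    linear_combination (1 / 4) * h2
  have h1pos : ∀ p ∈ pos Φ, (0 : ℝ) < ((p.2 ⬝ᵥ (1 : Fin r → ℤ) : ℤ) : ℝ) := by
    intro p hp
    obtain ⟨-, g2, g3, -⟩ := hW.ppos p hp
    have h1 : 0 < p.2 ⬝ᵥ (1 : Fin r → ℤ) := by
      rw [dotProduct_one]
      obtain ⟨i, hi⟩ := Function.ne_iff.1 g3
      exact Finset.sum_pos' (fun i _ => g2 i) ⟨i, Finset.mem_univ i, lt_of_le_of_ne (g2 i) (Ne.symm hi)⟩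
    exact_mod_cast h1
  set K : ℝ := (∏ p ∈ pos Φ, kp p) * ∏ p ∈ pos Φ, ((p.2 ⬝ᵥ (1 : Fin r → ℤ) : ℤ) : ℝ) with hK
  have hKpos : 0 < K := mul_pos (Finset.prod_pos hkpos) (Finset.prod_pos h1pos)
  have hdR : ∀ v, ∏ p ∈ pos Φ, (ip Φ p.1 v / 2) = K * dR Φ v := by
    intro v
    rw [Finset.prod_congr rfl fun p hp => hpq p hp v, Finset.prod_mul_distrib]
    unfold dR
    rw [hK, mul_assoc, mul_div_cancel₀ _ (Finset.prod_pos h1pos).ne']
  have hWpos : (0 : ℝ) < ((WF Φ).card : ℝ) := by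
    exact_mod_cast Finset.card_pos.2 ⟨1, hW.one⟩
  have hmin : ∀ p ∈ pos Φ, 0 < min 1 (4 * kp p ^ 2) := by
    intro p hp
    have := hkpos p hp
    exact lt_min one_pos (by positivity)
  have hQ1 : (0 : ℝ) ≤ (((rd Φ).Q 1 : ℤ) : ℝ) := by
    have h1 : 0 ≤ (rd Φ).Q 1 := by
      show 0 ≤ ∑ p ∈ pos Φ, (p.2 ⬝ᵥ (1 : Fin r → ℤ)) ^ 2
      exact Finset.sum_nonneg fun p _ => sq_nonneg _
    exact_mod_cast h1
  have hipQ : ∀ v, ip Φ v v = 2 * (((rd Φ).Q v : ℤ) : ℝ) := by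
    intro v
    unfold ip
    rw [q4 v]
    push_cast
    ring
  refine ⟨Real.exp (-(2 * (((rd Φ).Q 1 : ℤ) : ℝ))) * c0 * (∏ p ∈ pos Φ, min 1 (4 * kp p ^ 2)) /
    (K * (WF Φ).card), ?_, ?_⟩
  · have := Finset.prod_pos hmin
    positivity
  intro ϑ m hϑ hϑ1
  obtain ⟨a, hapos, ha2⟩ : ∃ a : ℝ, 0 < a ∧ a ^ 2 = 4 * ϑ := by
    refine ⟨2 * √ϑ, by positivity, ?_⟩
    rw [mul_pow, Real.sq_sqrt hϑ.le]
    ring
  set P : (Fin r → ℝ) → ℝ := fun ξ => ∏ p ∈ pos Φ, lf z p.1 ξ with hP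
  set T : (Fin r → ℤ) → (Fin r → ℝ) → ℝ := fun v ξ => Real.exp (a * lf z v ξ) with hTdef
  have egP : EG P := EG.prod _ _ fun p _ => EG.lin _
  have egT : ∀ v, EG (T v) := fun v => EG.expl _ _
  -- one term
  have hterm : ∀ y : Fin r → ℤ, (rd Φ).Q y = (rd Φ).Q 1 →
      Real.exp (2 * ϑ * ip Φ m y) * (a ^ (pos Φ).card * (K * dR Φ (m + y))) =
        Real.exp (-(2 * ϑ * (((rd Φ).Q m : ℝ) + (rd Φ).Q 1))) * ∫ ξ, P ξ * T m ξ * T y ξ ∂(ga r) := by
    intro y hy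
    have h1 := hh fun l => a * zv z (m + y) l
    rw [trans' hz (fun ξ => ∏ p ∈ pos Φ, lf z p.1 ξ) a (m + y)] at h1
    have h2 : ∏ p ∈ pos Φ, lf z p.1 (fun l => a * zv z (m + y) l) =
        a ^ (pos Φ).card * (K * dR Φ (m + y)) := by
      rw [Finset.prod_congr rfl fun p _ => lf_scale hz a p.1 (m + y), Finset.prod_mul_distrib,
        Finset.prod_const, hdR]
    rw [h2] at h1
    rw [← h1, ← mul_assoc, ← Real.exp_add]
    have h3 : (((rd Φ).Q (m + y) : ℤ) : ℝ) = (rd Φ).Q m + (rd Φ).Q 1 + ip Φ m y := by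
      rw [q2.polar, hy]
      unfold ip
      push_cast
      ring
    have h4 : 2 * ϑ * ip Φ m y + -(a ^ 2 * ip Φ (m + y) (m + y) / 4) =
        -(2 * ϑ * (((rd Φ).Q m : ℝ) + (rd Φ).Q 1)) := by
      rw [ha2, hipQ, h3]
      ring
    rw [h4]
    congr 1
    refine integral_congr_ae (ae_of_all _ fun ξ => ?_)
    simp only [hP, hTdef]
    rw [lf_add, mul_add, Real.exp_add]
    ring
  -- the sum over the Weyl group
  set S : (Fin r → ℝ) → ℝ := fun ξ => ∏ p ∈ pos Φ,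
    (lf z p.1 ξ * (Real.exp (a * lf z p.1 ξ / 2) - Real.exp (-(a * lf z p.1 ξ / 2)))) with hS
  have egS : EG S := by
    refine EG.prod _ _ fun p _ => (EG.lin _).mul ?_
    have e1 : EG (fun ξ : Fin r → ℝ => Real.exp (a * lf z p.1 ξ / 2)) := by
      have e2 := EG.expl (zv z p.1) (a / 2)
      have e3 : (fun ξ : Fin r → ℝ => Real.exp (a * lf z p.1 ξ / 2)) =
          fun ξ : Fin r → ℝ => Real.exp (a / 2 * ∑ i, ξ i * zv z p.1 i) := by
        funext ξ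
        rw [lf_eq]
        congr 1
        ring
      rw [e3]
      exact e2
    have e4 : EG (fun ξ : Fin r → ℝ => -1 * Real.exp (-(a * lf z p.1 ξ / 2))) := by
      refine (EG.const (-1)).mul ?_
      have e2 := EG.expl (zv z p.1) (-(a / 2))
      have e3 : (fun ξ : Fin r → ℝ => Real.exp (-(a * lf z p.1 ξ / 2))) =
          fun ξ : Fin r → ℝ => Real.exp (-(a / 2) * ∑ i, ξ i * zv z p.1 i) := by
        funext ξ
        rw [lf_eq]
        congr 1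
        ring
      rw [e3]
      exact e2
    have e5 := e1.add e4
    have e6 : (fun ξ : Fin r → ℝ => Real.exp (a * lf z p.1 ξ / 2) -
        Real.exp (-(a * lf z p.1 ξ / 2))) = fun ξ : Fin r → ℝ => Real.exp (a * lf z p.1 ξ / 2) +
        -1 * Real.exp (-(a * lf z p.1 ξ / 2)) := by
      funext ξ
      ring
    rw [e6]
    exact e5
  have hden : ∀ ξ, P ξ * ∑ w ∈ WF Φ, (w.det : ℝ) * T (w *ᵥ 1) ξ = S ξ := by
    intro ξ
    have h1 := hD r Φ B hI hW fun i => a * ∑ l, ξ l * z l i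
    have h2 : ∀ v : Fin r → ℤ, ∑ i, (v i : ℝ) * (a * ∑ l, ξ l * z l i) = a * lf z v ξ := by
      intro v
      have e1 : ∀ i, (v i : ℝ) * (a * ∑ l, ξ l * z l i) = ∑ l, a * (ξ l * (z l i * (v i : ℝ))) := by
        intro i
        rw [Finset.mul_sum, Finset.mul_sum]
        refine Finset.sum_congr rfl fun l _ => ?_
        ring
      simp only [e1]
      rw [Finset.sum_comm]
      unfold lf
      rw [Finset.mul_sum]
      refine Finset.sum_congr rfl fun l _ => ?_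
      simp only [Finset.mul_sum]
    simp only [h2] at h1
    simp only [hP, hTdef, hS]
    rw [h1, ← Finset.prod_mul_distrib]
  have hsum : a ^ (pos Φ).card * (K * ((WF Φ).card * l1 Φ ϑ m)) =
      Real.exp (-(2 * ϑ * (((rd Φ).Q m : ℝ) + (rd Φ).Q 1))) * ∫ ξ, S ξ * T m ξ ∂(ga r) := by
    have h1 : ((WF Φ).card : ℝ) * l1 Φ ϑ m = ∑ w ∈ WF Φ, (w.det : ℝ) *
        (Real.exp (2 * ϑ * ip Φ m (w *ᵥ 1)) * dR Φ (m + w *ᵥ 1)) := by
      unfold l1
      rw [← mul_assoc, mul_one_div_cancel hWpos.ne', one_mul]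
    rw [h1, Finset.mul_sum, Finset.mul_sum]
    have h2 : ∀ w ∈ WF Φ, a ^ (pos Φ).card * (K * ((w.det : ℝ) *
        (Real.exp (2 * ϑ * ip Φ m (w *ᵥ 1)) * dR Φ (m + w *ᵥ 1)))) =
        Real.exp (-(2 * ϑ * (((rd Φ).Q m : ℝ) + (rd Φ).Q 1))) *
          ∫ ξ, (w.det : ℝ) * (P ξ * T m ξ * T (w *ᵥ 1) ξ) ∂(ga r) := by
      intro w hw
      have h3 := hterm (w *ᵥ 1) (q1 w hw 1)
      rw [integral_const_mul]
      linear_combination (w.det : ℝ) * h3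
    rw [Finset.sum_congr rfl h2, ← Finset.mul_sum, ← integral_finsetSum]
    · congr 1
      refine integral_congr_ae (ae_of_all _ fun ξ => ?_)
      simp only
      rw [← hden ξ, Finset.mul_sum, Finset.sum_mul]
      refine Finset.sum_congr rfl fun w _ => ?_
      ring
    · intro w _
      exact (((egP.mul (egT m)).mul (egT _)).int).const_mul _
  -- translation
  have htr : Real.exp (-(2 * ϑ * (((rd Φ).Q m : ℝ) + (rd Φ).Q 1))) * ∫ ξ, S ξ * T m ξ ∂(ga r) =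
      Real.exp (-(2 * ϑ * ((rd Φ).Q 1 : ℝ))) * ∫ ξ, S (ξ + fun l => a * zv z m l) ∂(ga r) := by
    rw [trans' hz S a m, ← mul_assoc, ← Real.exp_add]
    congr 2
    rw [ha2, hipQ]
    ring
  have hlow : a ^ (pos Φ).card * (c0 * ∏ p ∈ pos Φ, (1 + (a * (ip Φ p.1 m / 2)) ^ 2)) ≤
      ∫ ξ, S (ξ + fun l => a * zv z m l) ∂(ga r) := by
    have h1 := hA fun l => a * zv z m l
    simp only [lf_scale hz] at h1
    refine (mul_le_mul_of_nonneg_left h1 (pow_nonneg hapos.le _)).trans ?_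
    rw [← integral_const_mul]
    have egL : ∀ p : (Fin r → ℤ) × (Fin r → ℤ), EG (fun ξ => lf z p.1 ξ) := fun p => EG.lin _
    have eg1 : EG (fun ξ : Fin r → ℝ => ∏ p ∈ pos Φ, lf z p.1 ξ ^ 2) := by
      refine EG.prod _ _ fun p _ => ?_
      have e1 := (egL p).mul (egL p)
      simpa only [sq] using e1
    refine integral_mono ((eg1.shift _).int.const_mul _) (egS.shift _).int fun ξ => ?_
    simp only [hS]
    rw [← Finset.prod_const, ← Finset.prod_mul_distrib]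
    refine Finset.prod_le_prod (fun p _ => by positivity) fun p _ => ?_
    exact sinh_bd hapos.le _
  have hfin : a ^ (pos Φ).card * (Real.exp (-(2 * ϑ * ((rd Φ).Q 1 : ℝ))) *
      (c0 * ∏ p ∈ pos Φ, (1 + (a * (ip Φ p.1 m / 2)) ^ 2))) ≤
      a ^ (pos Φ).card * (K * ((WF Φ).card * l1 Φ ϑ m)) := by
    rw [hsum, htr]
    calc a ^ (pos Φ).card * (Real.exp (-(2 * ϑ * ((rd Φ).Q 1 : ℝ))) *
        (c0 * ∏ p ∈ pos Φ, (1 + (a * (ip Φ p.1 m / 2)) ^ 2)))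
        = Real.exp (-(2 * ϑ * ((rd Φ).Q 1 : ℝ))) * (a ^ (pos Φ).card *
          (c0 * ∏ p ∈ pos Φ, (1 + (a * (ip Φ p.1 m / 2)) ^ 2))) := by ring
      _ ≤ _ := mul_le_mul_of_nonneg_left hlow (Real.exp_pos _).le
  have hfin2 := le_of_mul_le_mul_left hfin (pow_pos hapos _)
  have hprod : (∏ p ∈ pos Φ, min 1 (4 * kp p ^ 2)) *
      ∏ p ∈ pos Φ, (1 + ϑ * ((p.2 ⬝ᵥ m : ℤ) : ℝ) ^ 2) ≤
      ∏ p ∈ pos Φ, (1 + (a * (ip Φ p.1 m / 2)) ^ 2) := by
    rw [← Finset.prod_mul_distrib]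
    refine Finset.prod_le_prod (fun p hp => ?_) fun p hp => ?_
    · have := hmin p hp
      positivity
    · rw [hpq p hp m, mul_pow, ha2]
      have e1 : min 1 (4 * kp p ^ 2) ≤ 1 := min_le_left _ _
      have e2 : min 1 (4 * kp p ^ 2) ≤ 4 * kp p ^ 2 := min_le_right _ _
      have e3 : 0 ≤ ϑ * ((p.2 ⬝ᵥ m : ℤ) : ℝ) ^ 2 := by positivity
      nlinarith [mul_le_mul_of_nonneg_right e2 e3]
  have hexp : Real.exp (-(2 * ((rd Φ).Q 1 : ℝ))) ≤ Real.exp (-(2 * ϑ * ((rd Φ).Q 1 : ℝ))) := by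
    apply Real.exp_le_exp.2
    nlinarith
  have hp0 : 0 ≤ ∏ p ∈ pos Φ, (1 + ϑ * ((p.2 ⬝ᵥ m : ℤ) : ℝ) ^ 2) :=
    Finset.prod_nonneg fun p _ => by positivity
  have hmin0 : 0 < ∏ p ∈ pos Φ, min 1 (4 * kp p ^ 2) := Finset.prod_pos hmin
  rw [div_mul_eq_mul_div, div_le_iff₀ (by positivity)]
  calc Real.exp (-(2 * (((rd Φ).Q 1 : ℤ) : ℝ))) * c0 * (∏ p ∈ pos Φ, min 1 (4 * kp p ^ 2)) *
        ∏ p ∈ pos Φ, (1 + ϑ * ((p.2 ⬝ᵥ m : ℤ) : ℝ) ^ 2)
      = Real.exp (-(2 * (((rd Φ).Q 1 : ℤ) : ℝ))) * (c0 * ((∏ p ∈ pos Φ, min 1 (4 * kp p ^ 2)) *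
        ∏ p ∈ pos Φ, (1 + ϑ * ((p.2 ⬝ᵥ m : ℤ) : ℝ) ^ 2))) := by ring
    _ ≤ Real.exp (-(2 * ϑ * ((rd Φ).Q 1 : ℝ))) * (c0 *
        ∏ p ∈ pos Φ, (1 + (a * (ip Φ p.1 m / 2)) ^ 2)) := by
        refine mul_le_mul hexp (mul_le_mul_of_nonneg_left hprod hc0.le) (by positivity)
          (Real.exp_pos _).le
    _ ≤ K * ((WF Φ).card * l1 Φ ϑ m) := hfin2
    _ = l1 Φ ϑ m * (K * (WF Φ).card) := by ring

end

end STZ3
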