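import Pool.Agent.STZ3.StF
import Pool.Agent.STZ.TTX

/-!
# Compact simple groups of rank two: module LWL, the low levels (helper26)
-/

namespace STZ3

open STZ LGR MeasureTheory Matrix Filter

open scoped ComplexConjugate Matrix Real Topology

noncomputable section

namespace LWL

open TTX

section

variable {M : Type} [TopologicalSpace M] [CompactSpace M] [T2Space M]
  [SecondCountableTopology M] [MeasurableSpace M] [BorelSpace M] (μ : Measure M)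
  [IsProbabilityMeasure μ] {ι : Type} {K : ι → M → M → ℂ}

theorem BFe (hK : Ker μ K) (F : Finset ι) (mu : ℝ → ι → ℂ) {G : ℝ → M → ℂ} (hG : JC G) :
    ∫ t in (0 : ℝ)..1, ∫ s in (0 : ℝ)..1, ∫ x, conj (G t x) *
      ∫ y, (∑ i ∈ F, mu (t - s) i * K i x y) * G s y ∂μ ∂μ =
    ∫ t in (0 : ℝ)..1, ∫ s in (0 : ℝ)..1, ∑ i ∈ F, mu (t - s) i * bf μ (K i) (G s) (G t) := by
  have h : ∀ t s : ℝ, ∫ x, conj (G t x) * ∫ y, (∑ i ∈ F, mu (t - s) i * K i x y) * G s y ∂μ ∂μ =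
      ∑ i ∈ F, mu (t - s) i * bf μ (K i) (G s) (G t) := by
    intro t s
    exact bf_sum μ F (fun i => mu (t - s) i) K (fun i _ => hK.cont i) (sec' hG s) (sec' hG t)
  simp only [h]

theorem bfc (hK : Ker μ K) (i : ι) {G : ℝ → M → ℂ} (hG : JC G) :
    Continuous fun z : ℝ × ℝ => bf μ (K i) (G z.2) (G z.1) := by
  refine bf_cont μ (X := ℝ × ℝ) (k := fun _ => K i) (u := fun z => G z.2) (v := fun z => G z.1) ?_ ?_ ?_
  · exact (hK.cont i).comp (f := fun z : (ℝ × ℝ) × M × M => z.2) (by fun_prop)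
  · exact Continuous.comp (g := fun z : ℝ × M => G z.1 z.2) hG
      (f := fun z : (ℝ × ℝ) × M => (z.1.2, z.2)) (by fun_prop)
  · exact Continuous.comp (g := fun z : ℝ × M => G z.1 z.2) hG
      (f := fun z : (ℝ × ℝ) × M => (z.1.1, z.2)) (by fun_prop)

theorem BFsum (hK : Ker μ K) (F : Finset ι) {κ : Type} (S : Finset κ) (mu : κ → ℝ → ι → ℂ)
    (hmu : ∀ x i, Continuous fun t => mu x t i) {G : ℝ → M → ℂ} (hG : JC G) :
    ∫ t in (0 : ℝ)..1, ∫ s in (0 : ℝ)..1, ∑ i ∈ F, (∑ x ∈ S, mu x (t - s) i) * bf μ (K i) (G s) (G t) =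
    ∑ x ∈ S, ∫ t in (0 : ℝ)..1, ∫ s in (0 : ℝ)..1, ∑ i ∈ F, mu x (t - s) i * bf μ (K i) (G s) (G t) := by
  have hc : ∀ x, Continuous fun z : ℝ × ℝ => ∑ i ∈ F, mu x (z.1 - z.2) i * bf μ (K i) (G z.2) (G z.1) := by
    intro x
    refine continuous_finsetSum _ fun i _ => Continuous.mul ?_ (bfc μ hK i hG)
    exact (hmu x i).comp (continuous_fst.sub continuous_snd)
  have h1 : ∀ t s : ℝ, ∑ i ∈ F, (∑ x ∈ S, mu x (t - s) i) * bf μ (K i) (G s) (G t) =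
      ∑ x ∈ S, ∑ i ∈ F, mu x (t - s) i * bf μ (K i) (G s) (G t) := by
    intro t s
    rw [Finset.sum_comm]
    refine Finset.sum_congr rfl fun i _ => ?_
    rw [Finset.sum_mul]
  have h2 : ∀ t : ℝ, ∫ s in (0 : ℝ)..1, ∑ x ∈ S, ∑ i ∈ F, mu x (t - s) i * bf μ (K i) (G s) (G t) =
      ∑ x ∈ S, ∫ s in (0 : ℝ)..1, ∑ i ∈ F, mu x (t - s) i * bf μ (K i) (G s) (G t) := by
    intro t
    rw [intervalIntegral.integral_finsetSum]
    intro x _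
    refine Continuous.intervalIntegrable ?_ _ _
    exact (hc x).comp (f := fun s : ℝ => (t, s)) (by fun_prop)
  simp only [h1, h2]
  rw [intervalIntegral.integral_finsetSum]
  intro x _
  refine Continuous.intervalIntegrable ?_ _ _
  exact intervalIntegral.continuous_parametric_intervalIntegral_of_continuous'
    (f := fun (t s : ℝ) => ∑ i ∈ F, mu x (t - s) i * bf μ (K i) (G s) (G t)) (hc x) 0 1

end

/-- the powers of `J + 1` -/
theorem powJ (n : ℕ) {ε : ℝ} (hε : 0 < ε) : ∃ C : ℝ, 0 ≤ C ∧ ∀ J : ℕ, ((J : ℝ) + 1) ^ n ≤ C * (2 : ℝ) ^ (ε * J) := by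
  set δ : ℝ := ε * Real.log 2 / (n + 1) with hδ
  have hl : 0 < Real.log 2 := Real.log_pos one_lt_two
  have hδ0 : 0 < δ := by positivity
  refine ⟨(1 + 1 / δ) ^ n, by positivity, fun J => ?_⟩
  have h1 : (J : ℝ) + 1 ≤ (1 + 1 / δ) * Real.exp (δ * J) := by
    have h2 := Real.add_one_le_exp (δ * J)
    have h3 : (J : ℝ) + 1 ≤ (1 + 1 / δ) * (δ * J + 1) := by
      have h4 : (1 + 1 / δ) * (δ * J + 1) = δ * J + 1 + J + 1 / δ := by
        field_simp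
        ring
      rw [h4]
      have : 0 ≤ δ * J := by positivity
      have : 0 ≤ 1 / δ := by positivity
      linarith
    exact h3.trans (mul_le_mul_of_nonneg_left h2 (by positivity))
  calc ((J : ℝ) + 1) ^ n ≤ ((1 + 1 / δ) * Real.exp (δ * J)) ^ n := pow_le_pow_left₀ (by positivity) h1 n
    _ = (1 + 1 / δ) ^ n * Real.exp (n * (δ * J)) := by rw [mul_pow, ← Real.exp_nat_mul]
    _ ≤ (1 + 1 / δ) ^ n * (2 : ℝ) ^ (ε * J) := by
        refine mul_le_mul_of_nonneg_left ?_ (by positivity)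
        rw [Real.rpow_def_of_pos two_pos]
        refine Real.exp_le_exp.2 ?_
        have h5 : (n : ℝ) * δ ≤ ε * Real.log 2 := by
          rw [hδ, ← mul_div_assoc, div_le_iff₀ (by positivity)]
          have : 0 < ε * Real.log 2 := by positivity
          nlinarith
        calc (n : ℝ) * (δ * J) = (n * δ) * J := by ring
          _ ≤ (ε * Real.log 2) * J := mul_le_mul_of_nonneg_right h5 (by positivity)
          _ = _ := by ring

/-- the choice of the scale -/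
theorem scale {R : ℝ} (hR : 1 ≤ R) : ∃ J : ℕ, 1 ≤ J ∧ R ≤ 2 ^ J ∧ (2 : ℝ) ^ J ≤ 4 * R := by
  classical
  have hex : ∃ j : ℕ, R ≤ 2 ^ j := by
    obtain ⟨j, hj⟩ := pow_unbounded_of_one_lt R (one_lt_two : (1 : ℝ) < 2)
    exact ⟨j, hj.le⟩
  set j := Nat.find hex with hj
  have h1 : R ≤ 2 ^ j := Nat.find_spec hex
  have h2 : (2 : ℝ) ^ j ≤ 2 * R := by
    rcases Nat.eq_zero_or_pos j with h0 | h0
    · rw [h0]; norm_num; linarith
    · have h3 : ¬ R ≤ 2 ^ (j - 1) := Nat.find_min hex (by omega)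
      push Not at h3
      have h4 : (2 : ℝ) ^ j = 2 * 2 ^ (j - 1) := by
        rw [← pow_succ']; congr 1; omega
      rw [h4]
      linarith
  refine ⟨j + 1, by omega, ?_, ?_⟩
  · rw [pow_succ]; linarith [pow_pos (two_pos : (0 : ℝ) < 2) j]
  · rw [pow_succ]; linarith

/-- the sum of the pieces -/
theorem pieces {r : ℕ} {Φ : RT r} {B : Matrix (Fin r) (Fin r) ℤ} (hW : WFF Φ B) {m C : ℕ} (hN : NXF Φ m C)
    {J : ℕ} {q : (Fin r → ℤ) → ℝ} (hq : QH Φ (2 ^ J) q) (τ : ℝ) (ν : Fin r → ℤ) :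
    ∑ x, wa Φ (nx Φ m J q x τ) ν = gt Φ q τ ν := by
  unfold wa
  rw [← Finset.mul_sum, Finset.sum_comm]
  have h1 : ∀ w ∈ WF Φ, ∑ x, nx Φ m J q x τ (w *ᵥ ν) = gt Φ q τ ν := by
    intro w hw
    rw [hN.sum, hN.ginv _ q hq w hw]
  rw [Finset.sum_congr rfl h1, Finset.sum_const, nsmul_eq_mul]
  have h2 : ((WF Φ).card : ℂ) ≠ 0 := by
    have := Finset.card_pos.2 ⟨1, hW.one⟩
    exact_mod_cast this.ne'
  field_simp

/-- the constant for the forms -/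
theorem forms {r : ℕ} (Φ : RT r) : ∃ K₀ : ℝ, 1 ≤ K₀ ∧ ∀ p ∈ pos Φ, ∀ l : Fin r → ℤ,
    |((p.2 ⬝ᵥ l : ℤ) : ℝ)| ≤ K₀ * sz l := by
  refine ⟨1 + ∑ p ∈ pos Φ, ∑ i, |(p.2 i : ℝ)|, ?_, fun p hp l => ?_⟩
  · have : 0 ≤ ∑ p ∈ pos Φ, ∑ i, |(p.2 i : ℝ)| :=
      Finset.sum_nonneg fun p _ => Finset.sum_nonneg fun i _ => abs_nonneg _
    linarith
  · have h1 : |((p.2 ⬝ᵥ l : ℤ) : ℝ)| ≤ ∑ i, |(p.2 i : ℝ)| * |(l i : ℝ)| := by
      have e : ((p.2 ⬝ᵥ l : ℤ) : ℝ) = ∑ i, (p.2 i : ℝ) * (l i : ℝ) := by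
        unfold dotProduct
        push_cast
        rfl
      rw [e]
      refine (Finset.abs_sum_le_sum_abs _ _).trans (le_of_eq ?_)
      refine Finset.sum_congr rfl fun i _ => abs_mul _ _
    have h2 : ∀ i, |(l i : ℝ)| ≤ sz l := by
      intro i
      unfold sz
      have := Finset.single_le_sum (f := fun i => |(l i : ℝ)|) (fun i _ => abs_nonneg _) (Finset.mem_univ i)
      linarith
    have hsz : 0 ≤ sz l := by
      unfold sz
      have : 0 ≤ ∑ i, |(l i : ℝ)| := Finset.sum_nonneg fun i _ => abs_nonneg _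
      linarith
    have h3 : ∑ i, |(p.2 i : ℝ)| * |(l i : ℝ)| ≤ (∑ i, |(p.2 i : ℝ)|) * sz l := by
      rw [Finset.sum_mul]
      exact Finset.sum_le_sum fun i _ => mul_le_mul_of_nonneg_left (h2 i) (abs_nonneg _)
    have h4 : ∑ i, |(p.2 i : ℝ)| ≤ ∑ p ∈ pos Φ, ∑ i, |(p.2 i : ℝ)| :=
      Finset.single_le_sum (f := fun p : (Fin r → ℤ) × (Fin r → ℤ) => ∑ i, |(p.2 i : ℝ)|)
        (fun p _ => Finset.sum_nonneg fun i _ => abs_nonneg _) hp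
    refine h1.trans (h3.trans (mul_le_mul_of_nonneg_right ?_ hsz))
    linarith

end LWL

open LWL TTX in
theorem t_LWL : M_LWL := by
  intro hWF hKE hCH hNX _ hLM hTT hBX N H Φ B Hc E c k d hCX h4 μ _ _ χ hχ ε hε
  have hcomp : CompactSpace H := isCompact_iff_compactSpace.1 hCX.closed.isCompact
  have hsc : SecondCountableTopology H :=
    TopologicalSpace.Subtype.secondCountableTopology (H : Set (SU N))
  obtain ⟨X, hX⟩ := hCX.frame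
  have hI := hCX.lrd.ird
  have hW := hWF 2 Φ B hI
  have hirr := (hCH N H 2 Φ B Hc E c k d X hCX.one_le hCX.closed hCX.conn hCX.lrd hCX.kc hX χ hχ).1
  have hker := (hKE H μ (IX Hc) χ hirr).1
  obtain ⟨m, C₁, C, hm, hCF, hC, hB⟩ := hBX N H Φ B Hc E c k d hCX h4 μ χ hχ (ε / 2) (by positivity)
  obtain ⟨Cn, hN⟩ := hNX 2 Φ B hCX.one_le hI hW m C₁ hm hCF
  obtain ⟨K, C₂, hC₂, hL⟩ := hLM 2 Φ B hCX.one_le hI hW m C₁ hm hCF
  obtain ⟨K₀, hK₀, hfo⟩ := forms Φ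
  obtain ⟨Cp, hCp, hpow⟩ := powJ (Fintype.card {p // p ∈ pos Φ}) (show 0 < ε / 2 by positivity)
  set n : ℝ := ((pos Φ).card : ℝ) with hn
  have hn4 : 4 ≤ n := by rw [hn]; exact_mod_cast h4
  have he : (((rd Φ).e : ℕ) : ℝ) = 2 * n := by
    rw [hn]
    show ((2 * (pos Φ).card : ℕ) : ℝ) = _
    push_cast
    rfl
  set s₁ : ℝ := 2 * n / (n + 4) with hs₁
  have hs₁0 : 0 ≤ s₁ := by positivity
  refine ⟨Cp * C * (4 * K₀) ^ ε * (4 * K₀) ^ s₁, by positivity, ?_⟩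
  intro F u hu R hR hF G hG hG1
  -- the scale
  have hKR : 1 ≤ K₀ * R := by nlinarith
  obtain ⟨J, hJ1, hJ2, hJ3⟩ := scale hKR
  set q := qi Φ (2 ^ J) with hqdef
  have hq : QH Φ (2 ^ J) q := hN.qh _
  have hq1 : ∀ a ∈ F, q (wG a.1) = 1 := by
    intro a ha
    rw [hqdef]
    unfold qi
    rw [if_pos]
    intro p hp
    have h1 := hfo p hp (wG a.1)
    have h2 := (hF a ha).2
    have h3 : |((p.2 ⬝ᵥ wG a.1 : ℤ) : ℝ)| ≤ 2 ^ J := by
      refine h1.trans (le_trans ?_ hJ2)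
      exact mul_le_mul_of_nonneg_left h2 (by linarith)
    exact_mod_cast h3
  -- the finite set of the indices
  classical
  have hinj : Function.Injective fun i : IX Hc => wG i.1 := by
    intro a b hab
    apply Subtype.ext
    funext i
    have h1 : ((a.1 i : ℤ) + 1) = (b.1 i : ℤ) + 1 := congrFun hab i
    omega
  have hfin : {i : IX Hc | wG i.1 ∈ cb 2 (K * 2 ^ J)}.Finite :=
    Set.Finite.preimage (hinj.injOn) (Finset.finite_toSet (cb 2 (K * 2 ^ J)))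
  set T : Finset (IX Hc) := hfin.toFinset ∪ F with hT
  have hFT : F ⊆ T := Finset.subset_union_right
  have hTm : ∀ x τ (i : IX Hc), wa Φ (nx Φ m J q x τ) (wG i.1) ≠ 0 → i ∈ T := by
    intro x τ i hi
    refine Finset.mem_union_left _ ?_
    rw [Set.Finite.mem_toFinset]
    exact hL.wsup J q x τ (wG i.1) hq hi
  -- TTB
  have h5 := hTT H μ (IX Hc) (KK χ) hker (fun i : IX Hc => -(rd Φ).Q (wG i.1)) F T
    (fun i => q (wG i.1)) hFT (fun a _ => hq.nn _) (fun a ha => by rw [hq1 a ha]) u hu G hG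
  have h6 : ∫ t in (0 : ℝ)..1, ∫ s in (0 : ℝ)..1, ∫ x, conj (G t x) *
      ∫ y, (∑ a ∈ T, ((q (wG a.1) : ℝ) : ℂ) * eu ((t - s) * ((-(rd Φ).Q (wG a.1) : ℤ) : ℝ)) * KK χ a x y) * G s y ∂μ ∂μ =
      ∑ x, BF μ χ T (fun t i => wa Φ (nx Φ m J q x t) (wG i.1)) G := by
    have e1 : ∀ (τ : ℝ) (a : IX Hc), ((q (wG a.1) : ℝ) : ℂ) * eu (τ * ((-(rd Φ).Q (wG a.1) : ℤ) : ℝ)) =
        ∑ x, wa Φ (nx Φ m J q x τ) (wG a.1) := by
      intro τ a
      rw [pieces hW hN hq]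
      unfold gt
      congr 2
      push_cast
      ring
    simp only [e1]
    unfold BF
    rw [BFe μ hker T (fun τ a => ∑ x, wa Φ (nx Φ m J q x τ) (wG a.1)) hG,
      BFsum μ hker T Finset.univ (fun x τ a => wa Φ (nx Φ m J q x τ) (wG a.1))
        (fun x a => hL.wcont J q x (wG a.1)) hG]
    refine Finset.sum_congr rfl fun x _ => ?_
    rw [BFe μ hker T (fun τ a => wa Φ (nx Φ m J q x τ) (wG a.1)) hG]
  -- the bound
  set M₁ : ℝ := ∫ t in (0 : ℝ)..1, ∫ x, ‖G t x‖ ∂μ with hM₁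
  have hM0 : 0 ≤ M₁ := by
    rw [hM₁]
    refine intervalIntegral.integral_nonneg zero_le_one fun t _ => ?_
    exact integral_nonneg fun x => norm_nonneg _
  have h7 : ‖∑ x, BF μ χ T (fun t i => wa Φ (nx Φ m J q x t) (wG i.1)) G‖ ≤
      ((J : ℝ) + 1) ^ (Fintype.card {p // p ∈ pos Φ}) * (C * (2 : ℝ) ^ (ε / 2 * J) *
        ((2 : ℝ) ^ (s₁ * J) * M₁ ^ (1 + 2 / (n + 4)) + (2 : ℝ) ^ (-(4 * J : ℝ)) * M₁)) := by
    refine (norm_sum_le _ _).trans ?_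
    have h8 : ∀ x ∈ (Finset.univ : Finset ({p // p ∈ pos Φ} → Fin (J + 1))),
        ‖BF μ χ T (fun t i => wa Φ (nx Φ m J q x t) (wG i.1)) G‖ ≤ C * (2 : ℝ) ^ (ε / 2 * J) *
        ((2 : ℝ) ^ (s₁ * J) * M₁ ^ (1 + 2 / (n + 4)) + (2 : ℝ) ^ (-(4 * J : ℝ)) * M₁) := by
      intro x _
      exact hB J q x T G hJ1 hq (hTm x) hG hG1
    refine (Finset.sum_le_sum h8).trans (le_of_eq ?_)
    rw [Finset.sum_const, nsmul_eq_mul]
    congr 1
    simp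
  have hX0 : (0 : ℝ) < 2 ^ J := by positivity
  have hR0 : (0 : ℝ) < R := by linarith
  have hXR : (2 : ℝ) ^ J ≤ 4 * K₀ * R := by linarith
  have hRX : R ≤ 2 ^ J := le_trans (by nlinarith) hJ2
  have hpJ : ∀ a : ℝ, (2 : ℝ) ^ (a * J) = ((2 : ℝ) ^ J) ^ a := by
    intro a
    rw [← Real.rpow_natCast, ← Real.rpow_mul (by norm_num)]
    congr 1
    ring
  have h9 : ((J : ℝ) + 1) ^ (Fintype.card {p // p ∈ pos Φ}) * (C * (2 : ℝ) ^ (ε / 2 * J)) ≤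
      Cp * C * (4 * K₀) ^ ε * R ^ ε := by
    have h10 : (2 : ℝ) ^ (ε / 2 * J) * (2 : ℝ) ^ (ε / 2 * J) = ((2 : ℝ) ^ J) ^ ε := by
      rw [← Real.rpow_add two_pos, ← hpJ]
      congr 1
      ring
    have h11 : ((2 : ℝ) ^ J) ^ ε ≤ (4 * K₀) ^ ε * R ^ ε := by
      rw [← Real.mul_rpow (by linarith) hR0.le]
      exact Real.rpow_le_rpow hX0.le hXR hε.le
    calc ((J : ℝ) + 1) ^ (Fintype.card {p // p ∈ pos Φ}) * (C * (2 : ℝ) ^ (ε / 2 * J))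
        ≤ (Cp * (2 : ℝ) ^ (ε / 2 * J)) * (C * (2 : ℝ) ^ (ε / 2 * J)) :=
          mul_le_mul_of_nonneg_right (hpow J) (by positivity)
      _ = Cp * C * ((2 : ℝ) ^ (ε / 2 * J) * (2 : ℝ) ^ (ε / 2 * J)) := by ring
      _ = Cp * C * ((2 : ℝ) ^ J) ^ ε := by rw [h10]
      _ ≤ Cp * C * ((4 * K₀) ^ ε * R ^ ε) := mul_le_mul_of_nonneg_left h11 (by positivity)
      _ = _ := by ring
  have hK1 : (1 : ℝ) ≤ (4 * K₀) ^ s₁ := Real.one_le_rpow (by linarith) hs₁0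
  have h12 : (2 : ℝ) ^ (s₁ * J) * M₁ ^ (1 + 2 / (n + 4)) + (2 : ℝ) ^ (-(4 * J : ℝ)) * M₁ ≤
      (4 * K₀) ^ s₁ * (R ^ s₁ * M₁ ^ (1 + 2 / (n + 4)) + R ^ (-3 : ℝ) * M₁) := by
    have h13 : (2 : ℝ) ^ (s₁ * J) ≤ (4 * K₀) ^ s₁ * R ^ s₁ := by
      rw [hpJ, ← Real.mul_rpow (by linarith) hR0.le]
      exact Real.rpow_le_rpow hX0.le hXR hs₁0
    have h14 : (2 : ℝ) ^ (-(4 * J : ℝ)) ≤ R ^ (-3 : ℝ) := by
      have e : (2 : ℝ) ^ (-(4 * J : ℝ)) = ((2 : ℝ) ^ J) ^ (-4 : ℝ) := by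
        rw [← hpJ]; congr 1; ring
      rw [e]
      calc ((2 : ℝ) ^ J) ^ (-4 : ℝ) ≤ R ^ (-4 : ℝ) :=
            Real.rpow_le_rpow_of_nonpos hR0 hRX (by norm_num)
        _ ≤ R ^ (-3 : ℝ) := Real.rpow_le_rpow_of_exponent_le hR (by norm_num)
    have hR3 : (0 : ℝ) ≤ R ^ (-3 : ℝ) := by positivity
    have hMp : (0 : ℝ) ≤ M₁ ^ (1 + 2 / (n + 4)) := Real.rpow_nonneg hM0 _
    calc (2 : ℝ) ^ (s₁ * J) * M₁ ^ (1 + 2 / (n + 4)) + (2 : ℝ) ^ (-(4 * J : ℝ)) * M₁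
        ≤ ((4 * K₀) ^ s₁ * R ^ s₁) * M₁ ^ (1 + 2 / (n + 4)) + ((4 * K₀) ^ s₁ * R ^ (-3 : ℝ)) * M₁ := by
          refine add_le_add (mul_le_mul_of_nonneg_right h13 hMp) (mul_le_mul_of_nonneg_right ?_ hM0)
          refine h14.trans ?_
          nlinarith
      _ = _ := by ring
  have hp₀ : (2 + 8 / (((rd Φ).e : ℝ) + 4)) = 2 * (n + 4) / (n + 2) := by
    rw [he]
    field_simp
    ring
  have hex1 : ((2 : ℕ) : ℝ) + ((rd Φ).e : ℝ) = 2 + 2 * n := by rw [he]; norm_num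
  have hex2 : (((2 : ℕ) : ℝ) + ((rd Φ).e : ℝ)) * (1 - 2 / (2 + 8 / (((rd Φ).e : ℝ) + 4))) -
      4 / (2 + 8 / (((rd Φ).e : ℝ) + 4)) = s₁ := by
    rw [hp₀, hex1, hs₁]
    have : n + 2 ≠ 0 := by linarith
    have : n + 4 ≠ 0 := by linarith
    field_simp
    ring
  have hex3 : 2 - 2 / (2 + 8 / (((rd Φ).e : ℝ) + 4)) = 1 + 2 / (n + 4) := by
    rw [hp₀]
    have : n + 2 ≠ 0 := by linarith
    have : n + 4 ≠ 0 := by linarith
    field_simp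
    ring
  rw [hex2, hex3]
  have hS0 : 0 ≤ ∑ a ∈ F, nsq μ (u a) := Finset.sum_nonneg fun a _ => integral_nonneg fun x => by positivity
  have hRn : 0 ≤ R ^ s₁ * M₁ ^ (1 + 2 / (n + 4)) + R ^ (-3 : ℝ) * M₁ := by
    have := Real.rpow_nonneg hM0 (1 + 2 / (n + 4))
    positivity
  have h2n : 0 ≤ (2 : ℝ) ^ (s₁ * J) * M₁ ^ (1 + 2 / (n + 4)) + (2 : ℝ) ^ (-(4 * J : ℝ)) * M₁ := by
    have := Real.rpow_nonneg hM0 (1 + 2 / (n + 4))
    positivity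
  refine h5.trans ?_
  rw [h6]
  calc (∑ a ∈ F, nsq μ (u a)) * ‖∑ x, BF μ χ T (fun t i => wa Φ (nx Φ m J q x t) (wG i.1)) G‖
      ≤ (∑ a ∈ F, nsq μ (u a)) * (((J : ℝ) + 1) ^ (Fintype.card {p // p ∈ pos Φ}) * (C * (2 : ℝ) ^ (ε / 2 * J) *
        ((2 : ℝ) ^ (s₁ * J) * M₁ ^ (1 + 2 / (n + 4)) + (2 : ℝ) ^ (-(4 * J : ℝ)) * M₁))) :=
        mul_le_mul_of_nonneg_left h7 hS0
    _ = (∑ a ∈ F, nsq μ (u a)) * ((((J : ℝ) + 1) ^ (Fintype.card {p // p ∈ pos Φ}) * (C * (2 : ℝ) ^ (ε / 2 * J))) *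
        ((2 : ℝ) ^ (s₁ * J) * M₁ ^ (1 + 2 / (n + 4)) + (2 : ℝ) ^ (-(4 * J : ℝ)) * M₁)) := by ring
    _ ≤ (∑ a ∈ F, nsq μ (u a)) * ((Cp * C * (4 * K₀) ^ ε * R ^ ε) *
        ((4 * K₀) ^ s₁ * (R ^ s₁ * M₁ ^ (1 + 2 / (n + 4)) + R ^ (-3 : ℝ) * M₁))) := by
        refine mul_le_mul_of_nonneg_left ?_ hS0
        exact mul_le_mul h9 h12 h2n (by positivity)
    _ = _ := by ring

end

end STZ3
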