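import Pool.Agent.STZ3.StD3

/-!
# Module MFC: the main theorem for all groups of rank two, from its parts
-/

namespace STZ3

open STZ LGR MeasureTheory Matrix Filter

open scoped ComplexConjugate Matrix Real Topology

noncomputable section

/-- assembly -/
theorem t_MFC : M_MFC := by
  intro hWF hRVOF hLRDX hKFRM hFORM hGXOC hCR3 hLWL hLWC hTPL hMXU hLOT hSTU N H T d hcl hco hsi hT hd hr p hp
  obtain ⟨Φ, B, Hc, E, hL, -⟩ := hLRDX N H T 2 hcl hsi hT hr.symm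
  obtain ⟨c, hc, hfr, hK⟩ := hKFRM N H hcl hsi
  obtain ⟨X, hX⟩ := hfr d hd
  obtain ⟨k, hk⟩ := hFORM N H 2 Φ B Hc E hcl hL (by omega) c hc
  obtain ⟨⟨χ, hχ⟩, hGX⟩ := hGXOC N H 2 Φ B Hc E c k d X (by omega) hcl hco hL hk hX
  obtain ⟨Z, hG⟩ := hGX χ hχ
  have hV := hRVOF 2 Φ B (by omega) hL.ird
  have hCX : CX H Φ B Hc E c k d := ⟨by omega, hcl, hco, hL, hk, ⟨X, hX⟩⟩
  have hdim : d = 2 * (pos Φ).card + 2 := by
    have := hG.dimd
    simpa [rd] using this
  have hn : 3 ≤ (pos Φ).card := hCR3 Φ B hL.ird (hWF 2 Φ B hL.ird)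
  have he : ((rd Φ).e : ℝ) = 2 * ((pos Φ).card : ℝ) := by
    simp [rd]
  have hnr : (3 : ℝ) ≤ ((pos Φ).card : ℝ) := by exact_mod_cast hn
  have hdr : (d : ℝ) = 2 * ((pos Φ).card : ℝ) + 2 := by
    rw [hdim]
    push_cast
    ring
  have hp0 : 2 + 8 / (((rd Φ).e : ℝ) + 4) = 2 + 8 / ((d : ℝ) + 2) := by
    rw [he, hdr]
    ring_nf
  have hcpt : CompactSpace H := isCompact_iff_compactSpace.1 hcl.isCompact
  have h2c : SecondCountableTopology H := TopologicalSpace.Subtype.secondCountableTopology _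
  have hS : StrG H c d p := by
    refine hSTU N H c d 2 (rd Φ) (pos Φ) (IX Hc) (fun i => i.1) χ Z k (2 + 8 / (((rd Φ).e : ℝ) + 4)) le_rfl
      hV hG ?_ ?_ p (by rw [hp0]; exact hp)
    · rw [he, hdr]
      have h1 : 4 / (2 * ((pos Φ).card : ℝ) + 2) ≤ 8 / (2 * ((pos Φ).card : ℝ) + 4) := by
        rw [div_le_div_iff₀ (by positivity) (by positivity)]
        nlinarith
      linarith
    · intro μ hμ hl
      have h3 : 2 + 8 / (((rd Φ).e : ℝ) + 4) < 3 := by
        rw [he]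
        have : 8 / (2 * ((pos Φ).card : ℝ) + 4) < 1 := by
          rw [div_lt_one (by positivity)]
          linarith
        linarith
      have h2 : 2 < 2 + 8 / (((rd Φ).e : ℝ) + 4) := by
        have : 0 < 8 / (((rd Φ).e : ℝ) + 4) := by
          rw [he]
          positivity
        linarith
      have hlow : LLV μ (KK χ) ((rd Φ).e : ℝ) (fun i : IX Hc => wG i.1) (fun l => -(rd Φ).Q l)
          (2 + 8 / (((rd Φ).e : ℝ) + 4)) (1 / 2) := by
        rcases Nat.lt_or_ge (pos Φ).card 4 with h4 | h4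
        · exact hLWC N H Φ B Hc E c k d hCX (by omega) μ χ hχ
        · intro ε hε
          obtain ⟨C, hC, h⟩ := hLWL N H Φ B Hc E c k d hCX h4 μ χ hχ ε hε
          refine ⟨C, hC, fun F u hu N' hN' hF => h F u hu N' hN' fun a ha => ?_⟩
          obtain ⟨h5, h6⟩ := hF a ha
          exact ⟨by linarith, h6⟩
      exact hLOT H μ (IX Hc) (KK χ) 2 ((rd Φ).e : ℝ) (fun i : IX Hc => wG i.1) (fun l => -(rd Φ).Q l)
        (2 + 8 / (((rd Φ).e : ℝ) + 4)) (1 / 2) (Nat.cast_nonneg _) h2 h3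
        (hMXU N H c d 2 (rd Φ) (pos Φ) (IX Hc) (fun i => i.1) χ Z k hV hG μ)
        (hTPL N H c d (rd Φ) (pos Φ) (IX Hc) (fun i => i.1) χ Z k hV hG hn μ)
        hlow
  intro μ hμ hl a b hab
  obtain ⟨C, hC⟩ := hS μ hμ hl a b hab
  exact ⟨C, fun Y hY => hC Y (hK d Y hY)⟩

end

end STZ3
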