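import Pool.Agent.STZ3.StP

/-!
# MOM: moments of the heat measures
-/

namespace STZ3

open STZ LGR MeasureTheory Matrix Filter

open scoped ComplexConjugate Matrix Real Topology

noncomputable section

namespace MOM

variable {N : ℕ} {H : Subgroup (SU N)} {n : ℕ}

/-! ### polynomial functions -/

lemma entry_mem (i j : Fin N) : (fun g : H => g.1.1 i j) ∈ PF H :=
  Algebra.subset_adjoin (Or.inl ⟨i, j, rfl⟩)

lemma PF_sum {ι : Type} (s : Finset ι) (f : ι → H → ℂ) (hf : ∀ l ∈ s, f l ∈ PF H) :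
    (fun g => ∑ l ∈ s, f l g) ∈ PF H := by
  have h1 : (fun g => ∑ l ∈ s, f l g) = ∑ l ∈ s, f l := by
    funext g
    rw [Finset.sum_apply]
  rw [h1]
  exact Subalgebra.sum_mem _ hf

lemma PF_const (c : ℂ) : (fun _ : H => c) ∈ PF H := (PF H).algebraMap_mem c

lemma PF_mul {f h : H → ℂ} (hf : f ∈ PF H) (hh : h ∈ PF H) : (fun g => f g * h g) ∈ PF H :=
  (PF H).mul_mem hf hh

lemma PF_add {f h : H → ℂ} (hf : f ∈ PF H) (hh : h ∈ PF H) : (fun g => f g + h g) ∈ PF H :=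
  (PF H).add_mem hf hh

lemma dH_sum (hC : CALFH H) (hP : PFF H) {X : Matrix (Fin N) (Fin N) ℂ} (hX : X ∈ lie H)
    {ι : Type} (s : Finset ι) (f : ι → H → ℂ) (hf : ∀ l ∈ s, f l ∈ PF H) (g : H) :
    dH X (fun g => ∑ l ∈ s, f l g) g = ∑ l ∈ s, dH X (f l) g := by
  classical
  induction s using Finset.induction_on with
  | empty =>
    simp only [Finset.sum_empty]
    exact hC.dconst X 0 g
  | insert a s ha ih =>
    simp only [Finset.sum_insert ha]
    rw [hC.dadd X hX _ _ (hP.c2 _ (hf a (Finset.mem_insert_self _ _))).1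
      (hP.c2 _ (PF_sum s f fun l hl => hf l (Finset.mem_insert_of_mem hl))).1,
      ih fun l hl => hf l (Finset.mem_insert_of_mem hl)]

lemma dH_cmul (hC : CALFH H) (hP : PFF H) {X : Matrix (Fin N) (Fin N) ℂ} (hX : X ∈ lie H)
    (c : ℂ) {f : H → ℂ} (hf : f ∈ PF H) (g : H) :
    dH X (fun g => c * f g) g = c * dH X f g := by
  rw [hC.dmul X hX _ _ (hP.c2 _ (PF_const c)).1 (hP.c2 _ hf).1, hC.dconst, zero_mul, zero_add]

lemma dH_mulc (hC : CALFH H) (hP : PFF H) {X : Matrix (Fin N) (Fin N) ℂ} (hX : X ∈ lie H)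
    (c : ℂ) {f : H → ℂ} (hf : f ∈ PF H) (g : H) :
    dH X (fun g => f g * c) g = dH X f g * c := by
  rw [hC.dmul X hX _ _ (hP.c2 _ hf).1 (hP.c2 _ (PF_const c)).1, hC.dconst, mul_zero, add_zero]

lemma dH_add (hC : CALFH H) (hP : PFF H) {X : Matrix (Fin N) (Fin N) ℂ} (hX : X ∈ lie H)
    {f h : H → ℂ} (hf : f ∈ PF H) (hh : h ∈ PF H) (g : H) :
    dH X (fun g => f g + h g) g = dH X f g + dH X h g :=
  hC.dadd X hX f h (hP.c2 _ hf).1 (hP.c2 _ hh).1 g

lemma dH_mul (hC : CALFH H) (hP : PFF H) {X : Matrix (Fin N) (Fin N) ℂ} (hX : X ∈ lie H)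
    {f h : H → ℂ} (hf : f ∈ PF H) (hh : h ∈ PF H) (g : H) :
    dH X (fun g => f g * h g) g = dH X f g * h g + f g * dH X h g :=
  hC.dmul X hX f h (hP.c2 _ hf).1 (hP.c2 _ hh).1 g

/-! ### the generator -/

/-- the generator -/
def LL {ι : Type} [Fintype ι] (Y : ι → MT N) (f : H → ℂ) (g : H) : ℂ :=
  ∑ a, dH (Y a) (dH (Y a) f) g

lemma LL_add (hC : CALFH H) (hP : PFF H) {ι : Type} [Fintype ι] {Y : ι → MT N}
    (hY : ∀ a, Y a ∈ lie H) {f h : H → ℂ} (hf : f ∈ PF H) (hh : h ∈ PF H) (g : H) :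
    LL Y (f + h) g = LL Y f g + LL Y h g := by
  unfold LL
  rw [← Finset.sum_add_distrib]
  refine Finset.sum_congr rfl fun a _ => ?_
  have h1 : dH (Y a) (f + h) = fun g => dH (Y a) f g + dH (Y a) h g :=
    funext fun g => dH_add hC hP (hY a) hf hh g
  rw [h1, dH_add hC hP (hY a) (hP.d _ (hY a) _ hf) (hP.d _ (hY a) _ hh)]

lemma LL_smul (hC : CALFH H) (hP : PFF H) {ι : Type} [Fintype ι] {Y : ι → MT N}
    (hY : ∀ a, Y a ∈ lie H) (c : ℂ) {f : H → ℂ} (hf : f ∈ PF H) (g : H) :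
    LL Y (c • f) g = c * LL Y f g := by
  unfold LL
  rw [Finset.mul_sum]
  refine Finset.sum_congr rfl fun a _ => ?_
  have h1 : dH (Y a) (c • f) = fun g => c * dH (Y a) f g :=
    funext fun g => dH_cmul hC hP (hY a) c hf g
  rw [h1, dH_cmul hC hP (hY a) c (hP.d _ (hY a) _ hf)]

lemma LL_mem (hP : PFF H) {ι : Type} [Fintype ι] {Y : ι → MT N}
    (hY : ∀ a, Y a ∈ lie H) {f : H → ℂ} (hf : f ∈ PF H) : LL Y f ∈ PF H :=
  PF_sum _ _ fun a _ => hP.d _ (hY a) _ (hP.d _ (hY a) _ hf)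

lemma integ [CompactSpace H] (hP : PFF H) (κ : Measure H) [IsProbabilityMeasure κ] {f : H → ℂ}
    (hf : f ∈ PF H) : Integrable f κ :=
  (hP.c2 _ hf).1.cont.integrable_of_hasCompactSupport (HasCompactSupport.of_compactSpace _)

/-- the integral of `f` over the measure at time `t` is a differentiable function of `t` -/
def Pr {ι : Type} [Fintype ι] (Y : ι → MT N) (f : H → ℂ) : Prop :=
  f ∈ PF H ∧ ∃ F F1 : ℝ → ℂ, (∀ t, HasDerivAt F (F1 t) t) ∧ F 0 = f 1 ∧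
    ∀ t : ℝ, 0 ≤ t → ∀ κ : Measure H, HM H (fun a => ((√t : ℝ) : ℂ) • Y a) κ →
      ∫ x, f x ∂κ = F t ∧ ∫ x, LL Y f x ∂κ = F1 t

lemma Pr_zero (hC : CALFH H) {ι : Type} [Fintype ι] (Y : ι → MT N) : Pr Y (0 : H → ℂ) := by
  refine ⟨(PF H).zero_mem, fun _ => 0, fun _ => 0, fun t => hasDerivAt_const t 0, rfl,
    fun t _ κ _ => ⟨by simp, ?_⟩⟩
  have h1 : ∀ x : H, LL Y (0 : H → ℂ) x = 0 := by
    intro x
    unfold LL
    refine Finset.sum_eq_zero fun a _ => ?_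
    have h2 : dH (Y a) (0 : H → ℂ) = fun _ => 0 := funext fun g => hC.dconst (Y a) 0 g
    rw [h2]
    exact hC.dconst (Y a) 0 x
  simp only [h1, integral_zero]

lemma Pr_add [CompactSpace H] (hC : CALFH H) (hP : PFF H) {ι : Type} [Fintype ι] {Y : ι → MT N}
    (hY : ∀ a, Y a ∈ lie H) {f h : H → ℂ} (hf : Pr Y f) (hh : Pr Y h) : Pr Y (f + h) := by
  obtain ⟨hf0, F, F1, hF, hF0, hFt⟩ := hf
  obtain ⟨hh0, G, G1, hG, hG0, hGt⟩ := hh
  refine ⟨(PF H).add_mem hf0 hh0, fun t => F t + G t, fun t => F1 t + G1 t,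
    fun t => (hF t).add (hG t), ?_, fun t ht κ hκ => ⟨?_, ?_⟩⟩
  · simp only [hF0, hG0, Pi.add_apply]
  · have := hκ.prob
    show ∫ x, (f + h) x ∂κ = F t + G t
    rw [← (hFt t ht κ hκ).1, ← (hGt t ht κ hκ).1, ← integral_add (integ hP κ hf0) (integ hP κ hh0)]
    rfl
  · have := hκ.prob
    show ∫ x, LL Y (f + h) x ∂κ = F1 t + G1 t
    rw [← (hFt t ht κ hκ).2, ← (hGt t ht κ hκ).2, ← integral_add (integ hP κ (LL_mem hP hY hf0))
      (integ hP κ (LL_mem hP hY hh0))]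
    simp only [LL_add hC hP hY hf0 hh0]

lemma Pr_smul (hC : CALFH H) (hP : PFF H) {ι : Type} [Fintype ι] {Y : ι → MT N}
    (hY : ∀ a, Y a ∈ lie H) (c : ℂ) {f : H → ℂ} (hf : Pr Y f) : Pr Y (c • f) := by
  obtain ⟨hf0, F, F1, hF, hF0, hFt⟩ := hf
  refine ⟨(PF H).smul_mem hf0 c, fun t => c * F t, fun t => c * F1 t,
    fun t => (hF t).const_mul c, ?_, fun t ht κ hκ => ⟨?_, ?_⟩⟩
  · simp only [hF0, Pi.smul_apply, smul_eq_mul]
  · show ∫ x, (c • f) x ∂κ = c * F t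
    rw [← (hFt t ht κ hκ).1, ← integral_const_mul]
    rfl
  · show ∫ x, LL Y (c • f) x ∂κ = c * F1 t
    rw [← (hFt t ht κ hκ).2, ← integral_const_mul]
    simp only [LL_smul hC hP hY c hf0]

/-- the good functions -/
def SM [CompactSpace H] (hC : CALFH H) (hP : PFF H) {ι : Type} [Fintype ι] {Y : ι → MT N}
    (hY : ∀ a, Y a ∈ lie H) : Submodule ℂ (H → ℂ) where
  carrier := {f | Pr Y f}
  zero_mem' := Pr_zero hC Y
  add_mem' := fun hf hh => Pr_add hC hP hY hf hh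
  smul_mem' := fun c _ hf => Pr_smul hC hP hY c hf

set_option backward.isDefEq.respectTransparency false in
open scoped Matrix.Norms.Operator in
lemma der_exp (D : Matrix (Fin n) (Fin n) ℂ) (t : ℝ) (i j : Fin n) :
    HasDerivAt (fun s : ℝ => NormedSpace.exp ((s : ℂ) • D) i j)
      ((NormedSpace.exp ((t : ℂ) • D) * D) i j) t := by
  have h1 : HasDerivAt (fun u : ℂ => NormedSpace.exp (u • D))
      (NormedSpace.exp ((t : ℂ) • D) * D) (t : ℂ) := hasDerivAt_exp_smul_const D (t : ℂ)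
  have h2 := HasDerivAt.scomp t h1 (Complex.ofRealCLM.hasDerivAt (x := t))
  have h4 : Complex.ofRealCLM 1 = (1 : ℂ) := Complex.ofReal_one
  rw [h4, one_smul] at h2
  let L : Matrix (Fin n) (Fin n) ℂ →L[ℝ] ℂ :=
    ((Matrix.entryLinearMap ℂ ℂ i j).restrictScalars ℝ).toContinuousLinearMap
  exact L.hasFDerivAt.comp_hasDerivAt t h2

lemma LL_entry (hC : CALFH H) (hP : PFF H) {σ : Rep H (Fin n)} (hσ : PRep σ) (hD : DRF σ)
    {ι : Type} [Fintype ι] {Y : ι → MT N} (hY : ∀ a, Y a ∈ lie H) (i j : Fin n) (g : H) :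
    LL Y (fun g => σ.ρ g i j) g = ∑ k, σ.ρ g i k * (∑ a, dr σ (Y a) * dr σ (Y a)) k j := by
  have h0 : ∀ a, dH (Y a) (dH (Y a) (fun g => σ.ρ g i j)) g =
      (σ.ρ g * (dr σ (Y a) * dr σ (Y a))) i j := by
    intro a
    have h1 : dH (Y a) (fun g => σ.ρ g i j) = fun g => ∑ k, σ.ρ g i k * dr σ (Y a) k j := by
      funext g
      rw [hD.d _ (hY a), Matrix.mul_apply]
    rw [h1, dH_sum hC hP (hY a) _ _ fun k _ => PF_mul (hσ i k) (PF_const (dr σ (Y a) k j)),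
      ← Matrix.mul_assoc, Matrix.mul_apply]
    refine Finset.sum_congr rfl fun k _ => ?_
    rw [dH_mulc hC hP (hY a) _ (hσ i k), hD.d _ (hY a)]
  unfold LL
  simp only [h0]
  rw [← Matrix.mul_apply, Matrix.mul_sum, Matrix.sum_apply]

lemma Pr_entry [CompactSpace H] (hC : CALFH H) (hP : PFF H) {σ : Rep H (Fin n)} (hσ : PRep σ)
    (hD : DRF σ) {ι : Type} [Fintype ι] {Y : ι → MT N} (hY : ∀ a, Y a ∈ lie H) (i j : Fin n) :
    Pr Y (fun g => σ.ρ g i j) := by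
  set S : Matrix (Fin n) (Fin n) ℂ := ∑ a, dr σ (Y a) * dr σ (Y a) with hS
  have hcoef : ∀ t : ℝ, 0 ≤ t → ∑ a, dr σ (((√t : ℝ) : ℂ) • Y a) * dr σ (((√t : ℝ) : ℂ) • Y a) =
      (t : ℂ) • S := by
    intro t ht
    rw [hS, Finset.smul_sum]
    refine Finset.sum_congr rfl fun a _ => ?_
    rw [hD.smul _ (hY a), Matrix.smul_mul, Matrix.mul_smul, smul_smul, ← Complex.ofReal_mul,
      Real.mul_self_sqrt ht]
  refine ⟨hσ i j, fun t => NormedSpace.exp ((t : ℂ) • S) i j,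
    fun t => (NormedSpace.exp ((t : ℂ) • S) * S) i j, fun t => der_exp S t i j, ?_,
    fun t ht κ hκ => ⟨?_, ?_⟩⟩
  · simp only [Complex.ofReal_zero, zero_smul, NormedSpace.exp_zero, map_one]
  · rw [hκ.coef n σ hσ i j, hcoef t ht]
  · have := hκ.prob
    simp only [LL_entry hC hP hσ hD hY i j]
    rw [integral_finsetSum _ fun k _ => (integ hP κ (hσ i k)).mul_const _, Matrix.mul_apply]
    refine Finset.sum_congr rfl fun k _ => ?_
    rw [integral_mul_const, hκ.coef n σ hσ i k, hcoef t ht]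

lemma all_Pr [CompactSpace H] (hC : CALFH H) (hP : PFF H) (hT : S_TENH) (hDP : S_DECP)
    (hDR : S_DREP) (hcl : IsClosed (H : Set (SU N))) {ι : Type} [Fintype ι] {Y : ι → MT N}
    (hY : ∀ a, Y a ∈ lie H) {f : H → ℂ} (hf : f ∈ PF H) : Pr Y f := by
  have h1 := hP.span f hf
  have h2 : Submodule.span ℂ {f | ∃ (i j : ℕ) (p q : Fin i → Fin N) (p' q' : Fin j → Fin N),
      f = fun g : H => (∏ s, g.1.1 (p s) (q s)) * ∏ s, conj (g.1.1 (p' s) (q' s))} ≤
      SM hC hP hY := by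
    rw [Submodule.span_le]
    rintro f ⟨i, j, p, q, p', q', rfl⟩
    obtain ⟨R, hR, -⟩ := hT N H i j
    have hPR : PRep R := by
      intro a b
      simp only [hR]
      exact hP.mono i j _ _ _ _
    obtain ⟨m, M, σ, -, hσ, -, hc⟩ := hDP N H _ R hPR
    obtain ⟨c, hc⟩ := hc (p, p') (q, q')
    have h3 : (fun g : H => (∏ s, g.1.1 (p s) (q s)) * ∏ s, conj (g.1.1 (p' s) (q' s))) =
        ∑ k, ∑ a, ∑ b, c k a b • (fun g => (σ k).ρ g a b) := by
      funext g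
      rw [← hR g (p, p') (q, q'), hc g]
      simp only [Finset.sum_apply, Pi.smul_apply, smul_eq_mul]
    show _ ∈ SM hC hP hY
    rw [h3]
    refine Submodule.sum_mem _ fun k _ => Submodule.sum_mem _ fun a _ =>
      Submodule.sum_mem _ fun b _ => Submodule.smul_mem _ _ ?_
    exact Pr_entry hC hP (hσ k) (hDR N H _ (σ k) hcl (hσ k)) hY a b
  exact h2 h1

/-! ### Hilbert-Schmidt norms -/

lemma hs2_trace (A : MT N) : ((hs2 A : ℝ) : ℂ) = (A * Aᴴ).trace := by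
  unfold hs2
  rw [Matrix.trace]
  push_cast
  refine Finset.sum_congr rfl fun i _ => ?_
  rw [Matrix.diag_apply, Matrix.mul_apply]
  refine Finset.sum_congr rfl fun j _ => ?_
  rw [Matrix.conjTranspose_apply, ← Complex.mul_conj']
  rfl

lemma hs2_nonneg (A : MT N) : 0 ≤ hs2 A :=
  Finset.sum_nonneg fun _ _ => Finset.sum_nonneg fun _ _ => by positivity

lemma hs2_smul (c : ℂ) (A : MT N) : hs2 (c • A) = ‖c‖ ^ 2 * hs2 A := by
  unfold hs2
  rw [Finset.mul_sum]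
  refine Finset.sum_congr rfl fun i _ => ?_
  rw [Finset.mul_sum]
  refine Finset.sum_congr rfl fun j _ => ?_
  rw [Matrix.smul_apply, smul_eq_mul, norm_mul, mul_pow]

lemma su_mul (h : H) : h.1.1ᴴ * h.1.1 = 1 :=
  Matrix.mem_unitaryGroup_iff'.1 (Matrix.mem_specialUnitaryGroup_iff.1 h.1.2).1

lemma su_mul' (h : H) : h.1.1 * h.1.1ᴴ = 1 :=
  Matrix.mem_unitaryGroup_iff.1 (Matrix.mem_specialUnitaryGroup_iff.1 h.1.2).1

lemma hs2_unit (g : H) (A : MT N) : hs2 (g.1.1 * A) = hs2 A := by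
  have h1 : ((hs2 (g.1.1 * A) : ℝ) : ℂ) = ((hs2 A : ℝ) : ℂ) := by
    rw [hs2_trace, hs2_trace, Matrix.conjTranspose_mul]
    have h2 : g.1.1 * A * (Aᴴ * g.1.1ᴴ) = g.1.1 * (A * Aᴴ * g.1.1ᴴ) := by
      simp only [Matrix.mul_assoc]
    rw [h2, Matrix.trace_mul_comm, Matrix.mul_assoc, su_mul, Matrix.mul_one]
  exact_mod_cast h1

/-- Cauchy-Schwarz -/
lemma cs (A B : MT N) : ‖(A * B).trace‖ ^ 2 ≤ hs2 A * hs2 B := by
  have h1 : ‖(A * B).trace‖ ≤ ∑ p : Fin N × Fin N, ‖A p.1 p.2‖ * ‖B p.2 p.1‖ := by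
    rw [Matrix.trace, Fintype.sum_prod_type]
    refine (norm_sum_le _ _).trans (Finset.sum_le_sum fun i _ => ?_)
    rw [Matrix.diag_apply, Matrix.mul_apply]
    refine (norm_sum_le _ _).trans (Finset.sum_le_sum fun j _ => ?_)
    rw [norm_mul]
  have h2 := Finset.sum_mul_sq_le_sq_mul_sq (Finset.univ : Finset (Fin N × Fin N))
    (fun p => ‖A p.1 p.2‖) (fun p => ‖B p.2 p.1‖)
  have h3 : ∑ p : Fin N × Fin N, ‖A p.1 p.2‖ ^ 2 = hs2 A := by
    rw [Fintype.sum_prod_type]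
    rfl
  have h4 : ∑ p : Fin N × Fin N, ‖B p.2 p.1‖ ^ 2 = hs2 B := by
    rw [Fintype.sum_prod_type, Finset.sum_comm]
    rfl
  rw [h3, h4] at h2
  exact (pow_le_pow_left₀ (norm_nonneg _) h1 2).trans h2

lemma ps_hs2 (g : H) : ps g = hs2 (g.1.1 - 1) := rfl

lemma ps_nonneg (g : H) : 0 ≤ ps g := by
  rw [ps_hs2]
  exact hs2_nonneg _

/-! ### the function `ps` -/

/-- the linear functions -/
def T (M : MT N) (g : H) : ℂ := (g.1.1 * M).trace

lemma T_eq (M : MT N) : (T M : H → ℂ) = fun g => ∑ i, ∑ k, g.1.1 i k * M k i := by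
  funext g
  unfold T
  rw [Matrix.trace]
  refine Finset.sum_congr rfl fun i _ => ?_
  rw [Matrix.diag_apply, Matrix.mul_apply]

lemma T_mem (M : MT N) : (T M : H → ℂ) ∈ PF H := by
  rw [T_eq]
  exact PF_sum _ _ fun i _ => PF_sum _ _ fun k _ => PF_mul (entry_mem i k) (PF_const _)

lemma dT (hC : CALFH H) (hP : PFF H) {X : MT N} (hX : X ∈ lie H) (M : MT N) :
    dH X (T M : H → ℂ) = T (X * M) := by
  funext g
  rw [T_eq, dH_sum hC hP hX _ _ fun i _ => PF_sum _ _ fun k _ => PF_mul (entry_mem i k)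
    (PF_const _)]
  unfold T
  rw [← Matrix.mul_assoc, Matrix.trace]
  refine Finset.sum_congr rfl fun i _ => ?_
  rw [Matrix.diag_apply, Matrix.mul_apply, dH_sum hC hP hX _ _ fun k _ => PF_mul (entry_mem i k)
    (PF_const _)]
  refine Finset.sum_congr rfl fun k _ => ?_
  rw [dH_mulc hC hP hX _ (entry_mem i k), hC.dentry X hX]

/-- the linear combination `c - T M - conj (T M)` -/
def U (c : ℂ) (M : MT N) (g : H) : ℂ := c + ((-1) * T M g + (-1) * conj (T M g))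

lemma U_mem (hP : PFF H) (c : ℂ) (M : MT N) : (U c M : H → ℂ) ∈ PF H :=
  PF_add (PF_const c) (PF_add (PF_mul (PF_const _) (T_mem M))
    (PF_mul (PF_const _) (hP.cj _ (T_mem M))))

lemma dU (hC : CALFH H) (hP : PFF H) {X : MT N} (hX : X ∈ lie H) (c : ℂ) (M : MT N) :
    dH X (U c M : H → ℂ) = U 0 (X * M) := by
  funext g
  have h1 := hP.cj _ (T_mem (H := H) M)
  unfold U
  rw [dH_add hC hP hX (PF_const c) (PF_add (PF_mul (PF_const _) (T_mem M))
    (PF_mul (PF_const _) h1)), hC.dconst, dH_add hC hP hX (PF_mul (PF_const _) (T_mem M))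
    (PF_mul (PF_const _) h1), dH_cmul hC hP hX _ (T_mem M), dH_cmul hC hP hX _ h1,
    hC.dconj X hX _ (hP.c2 _ (T_mem M)).1, dT hC hP hX M]

lemma ps_eq (g : H) : ((ps g : ℝ) : ℂ) = U (2 * N) 1 g := by
  rw [ps_hs2, hs2_trace]
  unfold U T
  rw [Matrix.mul_one, Matrix.conjTranspose_sub, Matrix.conjTranspose_one, Matrix.sub_mul,
    Matrix.mul_sub, su_mul', Matrix.mul_one, Matrix.one_mul, Matrix.trace_sub, Matrix.trace_sub,
    Matrix.trace_sub, Matrix.trace_one, Matrix.trace_conjTranspose, Fintype.card_fin]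
  simp only [starRingEnd_apply]
  ring

/-- the first derivative of `ps` -/
lemma b1 {X : MT N} (hX : X.trace = 0) (g : H) : ‖U 0 X g‖ ^ 2 ≤ 4 * ps g * hs2 X := by
  have h1 : T X g = ((g.1.1 - 1) * X).trace := by
    unfold T
    rw [Matrix.sub_mul, Matrix.one_mul, Matrix.trace_sub, hX, sub_zero]
  have h2 : ‖U 0 X g‖ ≤ 2 * ‖T X g‖ := by
    unfold U
    rw [zero_add]
    refine (norm_add_le _ _).trans ?_
    rw [norm_mul, norm_mul, norm_neg, norm_one, one_mul, one_mul, RCLike.norm_conj]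
    linarith
  have h3 := cs (g.1.1 - 1) X
  rw [← h1, ← ps_hs2] at h3
  have h4 := pow_le_pow_left₀ (norm_nonneg _) h2 2
  rw [mul_pow] at h4
  linarith

/-- the second derivative of `ps` -/
lemma b2 (X : MT N) (g : H) : ‖U 0 (X * X) g‖ ≤ 2 * hs2 X := by
  have h2 : ‖U 0 (X * X) g‖ ≤ 2 * ‖T (X * X) g‖ := by
    unfold U
    rw [zero_add]
    refine (norm_add_le _ _).trans ?_
    rw [norm_mul, norm_mul, norm_neg, norm_one, one_mul, one_mul, RCLike.norm_conj]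
    linarith
  have h3 := cs (g.1.1 * X) X
  rw [hs2_unit, Matrix.mul_assoc] at h3
  have h4 : ‖T (X * X) g‖ ≤ hs2 X := by
    have h5 := hs2_nonneg X
    unfold T
    nlinarith [norm_nonneg (g.1.1 * (X * X)).trace]
  linarith

/-! ### powers -/

lemma PF_pow {f : H → ℂ} (hf : f ∈ PF H) (m : ℕ) : (fun g => f g ^ m) ∈ PF H :=
  (PF H).pow_mem hf m

lemma dpow (hC : CALFH H) (hP : PFF H) {X : MT N} (hX : X ∈ lie H) {f : H → ℂ} (hf : f ∈ PF H)
    (m : ℕ) (g : H) : dH X (fun g => f g ^ m) g = m * f g ^ (m - 1) * dH X f g := by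
  induction m with
  | zero =>
    simp only [pow_zero]
    rw [hC.dconst]
    simp
  | succ m ih =>
    have h1 : (fun g => f g ^ (m + 1)) = fun g => f g ^ m * f g := by
      funext g
      rw [pow_succ]
    rw [h1, dH_mul hC hP hX (PF_pow hf m) hf, ih, Nat.add_sub_cancel]
    rcases m with _ | m
    · simp
    · rw [Nat.add_sub_cancel]
      push_cast
      ring

lemma ddpow (hC : CALFH H) (hP : PFF H) {X : MT N} (hX : X ∈ lie H) {f : H → ℂ} (hf : f ∈ PF H)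
    (m : ℕ) (g : H) : dH X (dH X (fun g => f g ^ (m + 1))) g =
      (m + 1) * (m * f g ^ (m - 1) * dH X f g * dH X f g + f g ^ m * dH X (dH X f) g) := by
  have h1 : dH X (fun g => f g ^ (m + 1)) = fun g => ((m : ℂ) + 1) * (f g ^ m * dH X f g) := by
    funext g
    rw [dpow hC hP hX hf, Nat.add_sub_cancel]
    push_cast
    ring
  have h2 := hP.d X hX f hf
  rw [h1, dH_cmul hC hP hX _ (PF_mul (PF_pow hf m) h2), dH_mul hC hP hX (PF_pow hf m) h2,
    dpow hC hP hX hf]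

lemma LL_bound (hC : CALFH H) (hP : PFF H) (hL : LIF H) {ι : Type} [Fintype ι] {Y : ι → MT N}
    (hY : ∀ a, Y a ∈ lie H) (m : ℕ) {s : ℝ} (hs : ∑ a, hs2 (Y a) ≤ s) (g : H) :
    ‖LL Y (fun g => ((ps g : ℝ) : ℂ) ^ (m + 1)) g‖ ≤ ((m + 1) * (4 * m + 2)) * s * ps g ^ m := by
  have hp := ps_nonneg g
  have h0 : (fun g : H => ((ps g : ℝ) : ℂ) ^ (m + 1)) = fun g => (U (2 * N) 1 : H → ℂ) g ^ (m + 1) := by
    funext g
    rw [ps_eq]
  have h1 : ∀ a, ‖dH (Y a) (dH (Y a) (fun g : H => ((ps g : ℝ) : ℂ) ^ (m + 1))) g‖ ≤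
      ((m + 1) * (4 * m + 2)) * ps g ^ m * hs2 (Y a) := by
    intro a
    have hX := hY a
    have htr : (Y a).trace = 0 := (hL.su _ hX).2
    rw [h0, ddpow hC hP hX (U_mem hP _ _), dU hC hP hX, dU hC hP hX, Matrix.mul_one, ← ps_eq]
    have e1 := b1 htr g
    have e2 := b2 (Y a) g
    have e3 : ‖((ps g : ℝ) : ℂ)‖ = ps g := by
      rw [Complex.norm_real, Real.norm_of_nonneg hp]
    have e4 : ‖((m : ℂ) + 1)‖ = (m : ℝ) + 1 := by
      have : ((m : ℂ) + 1) = ((m + 1 : ℕ) : ℂ) := by push_cast; rfl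
      rw [this, Complex.norm_natCast]
      push_cast
      rfl
    rw [norm_mul, e4]
    have e5 : ‖(m : ℂ) * ((ps g : ℝ) : ℂ) ^ (m - 1) * (U 0 (Y a) : H → ℂ) g * (U 0 (Y a) : H → ℂ) g‖ ≤
        4 * m * ps g ^ m * hs2 (Y a) := by
      rw [norm_mul, norm_mul, norm_mul, Complex.norm_natCast, norm_pow, e3, mul_assoc, ← sq]
      have e6 : (m : ℝ) * ps g ^ (m - 1) * ‖(U 0 (Y a) : H → ℂ) g‖ ^ 2 ≤
          (m : ℝ) * ps g ^ (m - 1) * (4 * ps g * hs2 (Y a)) :=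
        mul_le_mul_of_nonneg_left e1 (by positivity)
      refine e6.trans (le_of_eq ?_)
      rcases m with _ | m
      · simp
      · rw [Nat.add_sub_cancel]
        ring
    have e7 : ‖((ps g : ℝ) : ℂ) ^ m * (U 0 (Y a * Y a) : H → ℂ) g‖ ≤ ps g ^ m * (2 * hs2 (Y a)) := by
      rw [norm_mul, norm_pow, e3]
      exact mul_le_mul_of_nonneg_left e2 (by positivity)
    have e8 := (norm_add_le ((m : ℂ) * ((ps g : ℝ) : ℂ) ^ (m - 1) * (U 0 (Y a) : H → ℂ) g *
      (U 0 (Y a) : H → ℂ) g) (((ps g : ℝ) : ℂ) ^ m * (U 0 (Y a * Y a) : H → ℂ) g)).trans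
      (add_le_add e5 e7)
    refine (mul_le_mul_of_nonneg_left e8 (by positivity)).trans (le_of_eq ?_)
    ring
  unfold LL
  refine (norm_sum_le _ _).trans ((Finset.sum_le_sum fun a _ => h1 a).trans ?_)
  rw [← Finset.mul_sum]
  have h2 : ((m + 1) * (4 * m + 2)) * ps g ^ m * ∑ a, hs2 (Y a) ≤
      ((m + 1) * (4 * m + 2)) * ps g ^ m * s := mul_le_mul_of_nonneg_left hs (by positivity)
  refine h2.trans (le_of_eq ?_)
  ring

end MOM

open MOM in
theorem t_MOM : M_MOM := by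
  intro hLIE hCAL hT hPFF hDP hDR _hUNI hEXI N H hcl ι _ j
  have hC := hCAL N H
  have hL := hLIE N H hcl
  have hP := hPFF N H hcl
  have hcs : CompactSpace H := isCompact_iff_compactSpace.1 hcl.isCompact
  have hpsc : (fun g : H => ((ps g : ℝ) : ℂ)) ∈ PF H := by
    have h0 : (fun g : H => ((ps g : ℝ) : ℂ)) = U (2 * N) 1 := funext fun g => ps_eq g
    rw [h0]
    exact U_mem hP _ _
  have hpscont : Continuous (fun g : H => ps g) := by
    have h1 := (hP.c2 _ hpsc).1.cont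
    have h2 : (fun g : H => ps g) = fun g => (((ps g : ℝ) : ℂ)).re := by
      funext g
      rw [Complex.ofReal_re]
    rw [h2]
    exact Complex.continuous_re.comp h1
  have hint : ∀ (κ : Measure H) [IsProbabilityMeasure κ] (m : ℕ),
      Integrable (fun g : H => ps g ^ m) κ := fun κ _ m =>
    (hpscont.pow m).integrable_of_hasCompactSupport (HasCompactSupport.of_compactSpace _)
  induction j with
  | zero =>
    refine ⟨1, zero_le_one, fun Y κ _ hκ s _ _ => ?_⟩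
    have := hκ.prob
    simp
  | succ m ih =>
    obtain ⟨C, hC0, ih⟩ := ih
    refine ⟨(m + 1) * (4 * m + 2) * C, by positivity, fun Y κ hY hκ s hs hs1 => ?_⟩
    have hs0 : 0 ≤ s := (Finset.sum_nonneg fun a _ => hs2_nonneg (Y a)).trans hs
    obtain ⟨-, F, F1, hF, hF0, hFt⟩ := all_Pr hC hP hT hDP hDR hcl hY (PF_pow hpsc (m + 1))
    have hone : HM H (fun a => ((√(1 : ℝ) : ℝ) : ℂ) • Y a) κ := by
      simpa using hκ
    have hF1 := (hFt 1 zero_le_one κ hone).1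
    have hz : ps (1 : H) = 0 := by
      unfold ps
      simp
    simp only [hz, Complex.ofReal_zero, ne_eq, Nat.succ_ne_zero, not_false_eq_true,
      zero_pow] at hF0
    -- the bound of the derivative
    have hbd : ∀ t ∈ Set.Ico (0 : ℝ) 1, ‖F1 t‖ ≤ (m + 1) * (4 * m + 2) * C * s ^ (m + 1) := by
      intro t ht
      have hYt : ∀ a, ((√t : ℝ) : ℂ) • Y a ∈ lie H := fun a => hL.smul _ _ (hY a)
      obtain ⟨κt, hκt⟩ := hEXI N H hcl ι (fun a => ((√t : ℝ) : ℂ) • Y a) hYt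
      have := hκt.prob
      rw [← (hFt t ht.1 κt hκt).2]
      refine (norm_integral_le_integral_norm _).trans ?_
      have h1 : ∫ x, ‖LL Y (fun g : H => ((ps g : ℝ) : ℂ) ^ (m + 1)) x‖ ∂κt ≤
          ∫ x, ((m + 1) * (4 * m + 2)) * s * ps x ^ m ∂κt := by
        refine integral_mono ?_ ((hint κt m).const_mul _) fun x => LL_bound hC hP hL hY m hs x
        exact (integ hP κt (LL_mem hP hY (PF_pow hpsc (m + 1)))).norm
      refine h1.trans ?_
      rw [integral_const_mul]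
      have h2 : ∑ a, hs2 (((√t : ℝ) : ℂ) • Y a) ≤ s := by
        have h3 : ∀ a, hs2 (((√t : ℝ) : ℂ) • Y a) ≤ hs2 (Y a) := by
          intro a
          rw [hs2_smul, Complex.norm_real, Real.norm_of_nonneg (Real.sqrt_nonneg _),
            Real.sq_sqrt ht.1]
          have h4 := hs2_nonneg (Y a)
          nlinarith [ht.2]
        exact (Finset.sum_le_sum fun a _ => h3 a).trans hs
      have h5 := ih _ κt hYt hκt s h2 hs1
      have h6 := mul_le_mul_of_nonneg_left h5 (by positivity : 0 ≤ ((m + 1) * (4 * m + 2)) * s)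
      refine h6.trans (le_of_eq ?_)
      rw [pow_succ]
      ring
    have hmv := norm_image_sub_le_of_norm_deriv_le_segment_01'
      (fun t _ => (hF t).hasDerivWithinAt) hbd
    rw [hF0, sub_zero, ← hF1] at hmv
    have h7 : ∫ x, ((ps x : ℝ) : ℂ) ^ (m + 1) ∂κ = ((∫ x, ps x ^ (m + 1) ∂κ : ℝ) : ℂ) := by
      rw [← integral_complex_ofReal]
      push_cast
      rfl
    rw [h7, Complex.norm_real] at hmv
    exact (Real.le_norm_self _).trans hmv

end

end STZ3
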