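import Pool.Agent.STZ3.StP

/-!
# Module MTK (helper58): averaged over the torus two packets are the heat kernel of the group
-/

namespace STZ3

open STZ LGR MeasureTheory Matrix Filter

open scoped ComplexConjugate Matrix Real Topology

noncomputable section

namespace MTK

set_option linter.unusedSectionVars false

variable {G : Type} [Group G] [TopologicalSpace G] [IsTopologicalGroup G] [CompactSpace G]
  [SecondCountableTopology G] [MeasurableSpace G] [BorelSpace G] {r : ℕ}

/-- continuous functions on a compact space are integrable -/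
lemma cint (κ : Measure G) [IsFiniteMeasure κ] {f : G → ℂ} (hf : Continuous f) :
    Integrable f κ :=
  hf.integrable_of_hasCompactSupport (HasCompactSupport.of_compactSpace _)

/-- parametric integrals are continuous -/
lemma cpar {X : Type} [TopologicalSpace X] [FirstCountableTopology X] [LocallyCompactSpace X]
    (κ : Measure G) [IsFiniteMeasure κ] {f : X → G → ℂ} (hf : Continuous (Function.uncurry f)) :
    Continuous fun x => ∫ y, f x y ∂κ := by
  have := continuous_parametric_integral_of_continuous (μ := κ) hf (isCompact_univ (X := G))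
  simpa only [Measure.restrict_univ] using this

lemma cube_vol : volume (Set.Icc (0 : Fin r → ℝ) 1) = 1 := by
  rw [Real.volume_Icc_pi]
  simp

/-- the double integral over the cube and `G` -/
lemma cI (κ : Measure G) [IsFiniteMeasure κ] {t : (Fin r → ℝ) → G} (ht : Continuous t)
    {f : G → ℂ} (hf : Continuous f) : Continuous fun θ => ∫ z, ∫ z', f (z * t θ * z') ∂κ ∂κ := by
  have h1 : Continuous fun p : (Fin r → ℝ) × G => ∫ z', f (p.2 * t p.1 * z') ∂κ := by
    apply cpar
    exact hf.comp (((continuous_snd.comp continuous_fst).mul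
      (ht.comp (continuous_fst.comp continuous_fst))).mul continuous_snd)
  exact cpar κ (f := fun θ z => ∫ z', f (z * t θ * z') ∂κ) h1

lemma cI' (ϖ : Measure G) [IsFiniteMeasure ϖ] {t : (Fin r → ℝ) → G} (ht : Continuous t)
    {f : G → ℂ} (hf : Continuous f) : Continuous fun θ => ∫ x, f (t θ * x) ∂ϖ := by
  apply cpar
  exact hf.comp ((ht.comp continuous_fst).mul continuous_snd)

lemma cz (κ : Measure G) [IsFiniteMeasure κ] (g : G) {f : G → ℂ} (hf : Continuous f) :
    Continuous fun z => ∫ z', f (z * g * z') ∂κ := by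
  have := cpar κ (f := fun z z' => f (z * g * z'))
    (hf.comp ((continuous_fst.mul continuous_const).mul continuous_snd))
  exact this

/-- the functional of the left side -/
def J (κ : Measure G) (t : (Fin r → ℝ) → G) (f : G → ℂ) : ℂ :=
  ∫ θ in Set.Icc (0 : Fin r → ℝ) 1, ∫ z, ∫ z', f (z * t θ * z') ∂κ ∂κ

/-- the functional of the right side -/
def J' (ϖ : Measure G) (t : (Fin r → ℝ) → G) (f : G → ℂ) : ℂ :=
  ∫ θ in Set.Icc (0 : Fin r → ℝ) 1, ∫ x, f (t θ * x) ∂ϖ

lemma ion {F : (Fin r → ℝ) → ℂ} (hF : Continuous F) :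
    IntegrableOn F (Set.Icc (0 : Fin r → ℝ) 1) := hF.continuousOn.integrableOn_compact isCompact_Icc

lemma J_add (κ : Measure G) [IsFiniteMeasure κ] {t : (Fin r → ℝ) → G} (ht : Continuous t)
    {f g : G → ℂ} (hf : Continuous f) (hg : Continuous g) :
    J κ t (fun x => f x + g x) = J κ t f + J κ t g := by
  unfold J
  rw [← integral_add (ion (cI κ ht hf)) (ion (cI κ ht hg))]
  congr 1
  funext θ
  rw [← integral_add (cint κ (cz κ _ hf)) (cint κ (cz κ _ hg))]
  congr 1
  funext z
  have e1 : Continuous fun z' => f (z * t θ * z') := hf.comp (continuous_const.mul continuous_id)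
  have e2 : Continuous fun z' => g (z * t θ * z') := hg.comp (continuous_const.mul continuous_id)
  exact integral_add (cint κ e1) (cint κ e2)

lemma J_smul (κ : Measure G) (t : (Fin r → ℝ) → G) (a : ℂ) (f : G → ℂ) :
    J κ t (fun x => a * f x) = a * J κ t f := by
  unfold J
  simp only [integral_const_mul]

lemma J_bound (κ : Measure G) [IsProbabilityMeasure κ] (t : (Fin r → ℝ) → G) {f : G → ℂ} {M : ℝ}
    (hf : ∀ x, ‖f x‖ ≤ M) : ‖J κ t f‖ ≤ M := by
  have h1 : ∀ θ, ‖∫ z, ∫ z', f (z * t θ * z') ∂κ ∂κ‖ ≤ M := by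
    intro θ
    have := norm_integral_le_of_norm_le_const (μ := κ) (f := fun z => ∫ z', f (z * t θ * z') ∂κ)
      (C := M) (Eventually.of_forall fun z => by
        have := norm_integral_le_of_norm_le_const (μ := κ) (f := fun z' => f (z * t θ * z'))
          (C := M) (Eventually.of_forall fun z' => hf _)
        simpa using this)
    simpa using this
  have h2 := norm_setIntegral_le_of_norm_le_const (μ := volume)
    (s := Set.Icc (0 : Fin r → ℝ) 1) (f := fun θ => ∫ z, ∫ z', f (z * t θ * z') ∂κ ∂κ) (C := M)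
    (by rw [cube_vol]; exact ENNReal.one_lt_top) (fun θ _ => h1 θ)
  unfold J
  simpa [Measure.real, cube_vol] using h2

lemma J'_add (ϖ : Measure G) [IsFiniteMeasure ϖ] {t : (Fin r → ℝ) → G} (ht : Continuous t)
    {f g : G → ℂ} (hf : Continuous f) (hg : Continuous g) :
    J' ϖ t (fun x => f x + g x) = J' ϖ t f + J' ϖ t g := by
  unfold J'
  rw [← integral_add (ion (cI' ϖ ht hf)) (ion (cI' ϖ ht hg))]
  congr 1
  funext θ
  have e1 : Continuous fun x => f (t θ * x) := hf.comp (continuous_const.mul continuous_id)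
  have e2 : Continuous fun x => g (t θ * x) := hg.comp (continuous_const.mul continuous_id)
  exact integral_add (cint ϖ e1) (cint ϖ e2)

lemma J'_smul (ϖ : Measure G) (t : (Fin r → ℝ) → G) (a : ℂ) (f : G → ℂ) :
    J' ϖ t (fun x => a * f x) = a * J' ϖ t f := by
  unfold J'
  simp only [integral_const_mul]

lemma J'_bound (ϖ : Measure G) [IsProbabilityMeasure ϖ] (t : (Fin r → ℝ) → G) {f : G → ℂ} {M : ℝ}
    (hf : ∀ x, ‖f x‖ ≤ M) : ‖J' ϖ t f‖ ≤ M := by
  have h1 : ∀ θ, ‖∫ x, f (t θ * x) ∂ϖ‖ ≤ M := by
    intro θ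
    have := norm_integral_le_of_norm_le_const (μ := ϖ) (f := fun x => f (t θ * x))
      (C := M) (Eventually.of_forall fun z => hf _)
    simpa using this
  have h2 := norm_setIntegral_le_of_norm_le_const (μ := volume)
    (s := Set.Icc (0 : Fin r → ℝ) 1) (f := fun θ => ∫ x, f (t θ * x) ∂ϖ) (C := M)
    (by rw [cube_vol]; exact ENNReal.one_lt_top) (fun θ _ => h1 θ)
  unfold J'
  simpa [Measure.real, cube_vol] using h2

variable {n : ℕ}

lemma cent (σ : Rep G (Fin n)) (i j : Fin n) : Continuous fun x => σ.ρ x i j :=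
  (continuous_apply_apply i j).comp σ.cont

/-- two convolutions in a representation -/
lemma conv2 (κ : Measure G) [IsFiniteMeasure κ] (σ : Rep G (Fin n)) (K : Matrix (Fin n) (Fin n) ℂ)
    (hK : ∀ i j, ∫ x, σ.ρ x i j ∂κ = K i j) (g : G) (p q : Fin n) :
    ∫ z, ∫ z', σ.ρ (z * g * z') p q ∂κ ∂κ = (K * σ.ρ g * K) p q := by
  have h1 : ∀ z, ∫ z', σ.ρ (z * g * z') p q ∂κ = (σ.ρ (z * g) * K) p q := by
    intro z
    simp only [map_mul, Matrix.mul_apply (M := σ.ρ z * σ.ρ g)]
    rw [integral_finsetSum _ fun a _ => (cint κ (cent σ a q)).const_mul _]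
    refine Finset.sum_congr rfl fun a _ => ?_
    rw [integral_const_mul, hK]
  have h2 : ∀ z, (σ.ρ (z * g) * K) p q = ∑ a, σ.ρ z p a * (σ.ρ g * K) a q := by
    intro z
    rw [map_mul, Matrix.mul_assoc, Matrix.mul_apply]
  simp only [h1, h2]
  rw [integral_finsetSum _ fun a _ => (cint κ (cent σ p a)).mul_const _, Matrix.mul_assoc,
    Matrix.mul_apply]
  refine Finset.sum_congr rfl fun a _ => ?_
  rw [integral_mul_const, hK]

lemma conv1 (ϖ : Measure G) [IsFiniteMeasure ϖ] (σ : Rep G (Fin n)) (E : ℂ)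
    (hK : ∀ i j, ∫ x, σ.ρ x i j ∂ϖ = if i = j then E else 0) (g : G) (p q : Fin n) :
    ∫ x, σ.ρ (g * x) p q ∂ϖ = σ.ρ g p q * E := by
  simp only [map_mul, Matrix.mul_apply]
  rw [integral_finsetSum _ fun a _ => (cint ϖ (cent σ a q)).const_mul _]
  have : ∀ a, ∫ x, σ.ρ g p a * σ.ρ x a q ∂ϖ = if a = q then σ.ρ g p a * E else 0 := by
    intro a
    rw [integral_const_mul, hK]
    split_ifs <;> simp
  simp only [this]
  rw [Finset.sum_ite_eq' Finset.univ q]
  simp

end MTK

open MTK in
theorem t_MTK : M_MTK := by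
  intro hLIEB hWFAC hTAUF hTPOL hPFFX hTRES hNORR hUNC hHMV hHMF N H r Φ B Hc E c k d hCX ϑ κ ϖ
    hϑ hPM hGM f hf
  have hcs : CompactSpace H := isCompact_iff_compactSpace.1 hCX.closed.isCompact
  have hsec : SecondCountableTopology H :=
    inferInstanceAs (SecondCountableTopology ((H : Set (SU N)) : Type))
  have hκ : IsProbabilityMeasure κ := hPM.prob
  obtain ⟨X0, hX0, hHM0⟩ := hGM
  have hϖ : IsProbabilityMeasure ϖ := hHM0.prob
  have hGM' : GM H c k d (2 * ϑ) ϖ := ⟨X0, hX0, hHM0⟩
  have hT : TAF H Φ Hc E := hTAUF N H r Φ B Hc E hCX.closed hCX.lrd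
  have htt : ∀ θ, (tt H Hc θ).1 = ta Hc θ := by
    intro θ
    unfold tt
    rw [dif_pos (hT.mem θ)]
  have htc : Continuous (tt H Hc) := by
    apply Continuous.subtype_mk (hT.cont) (fun θ => hT.mem θ) |>.congr
    intro θ
    apply Subtype.ext
    rw [htt]
  have key := hUNC N H hCX.closed
    (fun f => MTK.J κ (tt H Hc) f - J' ϖ (tt H Hc) f) 2
    (fun f g hf hg => by
      simp only [J_add κ htc hf hg, J'_add ϖ htc hf hg]
      ring)
    (fun a f _ => by
      simp only [J_smul, J'_smul]
      ring)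
    (fun f M _ hM => by
      have h1 := J_bound κ (tt H Hc) hM
      have h2 := J'_bound ϖ (tt H Hc) hM
      calc ‖MTK.J κ (tt H Hc) f - J' ϖ (tt H Hc) f‖ ≤ ‖MTK.J κ (tt H Hc) f‖ + ‖J' ϖ (tt H Hc) f‖ :=
            norm_sub_le _ _
        _ ≤ 2 * M := by linarith)
    (fun n σ hirr hprep p q => by
      obtain ⟨X, hX⟩ := hCX.frame
      obtain ⟨l, hl⟩ := hNORR N H r Φ B Hc E c k d X hCX.one_le hCX.closed hCX.conn hCX.lrd hCX.kc
        hX n σ hirr hprep
      obtain ⟨U, μ, hU1, hU2, hU3⟩ := hTRES N H r Φ B Hc E hCX.closed hCX.lrd n σ hprep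
      have hWT : WT Hc σ U μ := ⟨hU1, hU2, hU3⟩
      have hK := hHMV N H r Φ B Hc E c k d hCX ϑ κ hϑ hPM n σ l U μ hirr hprep hl hWT
      have hE := hHMF N H r Φ B Hc E c k d hCX (2 * ϑ) ϖ (by linarith) hGM' n σ l hirr hprep hl
      set D : Fin n → ℂ := fun m => ((Real.exp (-(ϑ * cq Φ l (μ m))) : ℝ) : ℂ) with hD
      set E0 : ℂ := ((Real.exp (-(2 * ϑ * (((rd Φ).Q l : ℝ) - (rd Φ).Q 1))) : ℝ) : ℂ) with hE0
      have hσ : ∀ θ, σ.ρ (tt H Hc θ) =
          U * Matrix.diagonal (fun m => eu (dz (μ m) θ)) * Uᴴ := fun θ => hU3 _ θ (htt θ)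
      have hL : MTK.J κ (tt H Hc) (fun x => σ.ρ x p q) =
          ∑ m, U p m * (D m * (if μ m = 0 then 1 else 0) * D m) * (Uᴴ) m q := by
        unfold MTK.J
        have h1 : ∀ θ, ∫ z, ∫ z', σ.ρ (z * tt H Hc θ * z') p q ∂κ ∂κ =
            ∑ m, U p m * (D m * eu (dz (μ m) θ) * D m) * (Uᴴ) m q := by
          intro θ
          rw [conv2 κ σ _ hK, hσ]
          have h2 : U * Matrix.diagonal D * Uᴴ * (U * Matrix.diagonal (fun m => eu (dz (μ m) θ)) * Uᴴ) *
              (U * Matrix.diagonal D * Uᴴ) =
              U * Matrix.diagonal (fun m => D m * eu (dz (μ m) θ) * D m) * Uᴴ := by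
            calc _ = U * Matrix.diagonal D * (Uᴴ * U) *
                  Matrix.diagonal (fun m => eu (dz (μ m) θ)) * (Uᴴ * U) * Matrix.diagonal D * Uᴴ := by
                  simp only [Matrix.mul_assoc]
              _ = _ := by
                  rw [hU2, Matrix.mul_one, Matrix.mul_one, Matrix.mul_assoc U, Matrix.mul_assoc U,
                    Matrix.diagonal_mul_diagonal, Matrix.diagonal_mul_diagonal]
          rw [h2, Matrix.mul_apply]
          refine Finset.sum_congr rfl fun m _ => ?_
          rw [Matrix.mul_diagonal]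
        simp only [h1]
        have hc : ∀ m, Continuous fun θ : Fin r → ℝ => eu (dz (μ m) θ) := by
          intro m
          unfold eu dz
          fun_prop
        have hc2 : ∀ m, Continuous fun θ : Fin r → ℝ =>
            U p m * (D m * eu (dz (μ m) θ) * D m) * (Uᴴ) m q := fun m =>
          ((continuous_const.mul ((continuous_const.mul (hc m)).mul continuous_const))).mul
            continuous_const
        rw [integral_finsetSum _ fun m _ => ion (hc2 m)]
        refine Finset.sum_congr rfl fun m _ => ?_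
        rw [integral_mul_const, integral_const_mul, integral_mul_const, integral_const_mul,
          (hTPOL r).1 (μ m)]
      have hR : J' ϖ (tt H Hc) (fun x => σ.ρ x p q) =
          ∑ m, U p m * ((if μ m = 0 then 1 else 0) * E0) * (Uᴴ) m q := by
        unfold J'
        have h1 : ∀ θ, ∫ x, σ.ρ (tt H Hc θ * x) p q ∂ϖ =
            ∑ m, U p m * (eu (dz (μ m) θ) * E0) * (Uᴴ) m q := by
          intro θ
          rw [conv1 ϖ σ E0 hE, hσ, Matrix.mul_apply, Finset.sum_mul]
          refine Finset.sum_congr rfl fun m _ => ?_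
          rw [Matrix.mul_diagonal]
          ring
        simp only [h1]
        have hc : ∀ m, Continuous fun θ : Fin r → ℝ => eu (dz (μ m) θ) := by
          intro m
          unfold eu dz
          fun_prop
        have hc2 : ∀ m, Continuous fun θ : Fin r → ℝ =>
            U p m * (eu (dz (μ m) θ) * E0) * (Uᴴ) m q := fun m =>
          ((continuous_const.mul ((hc m).mul continuous_const))).mul continuous_const
        rw [integral_finsetSum _ fun m _ => ion (hc2 m)]
        refine Finset.sum_congr rfl fun m _ => ?_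
        rw [integral_mul_const, integral_const_mul, integral_mul_const, (hTPOL r).1 (μ m)]
      rw [hL, hR, sub_eq_zero]
      refine Finset.sum_congr rfl fun m _ => ?_
      by_cases hm : μ m = 0
      · have h3 : D m * D m = E0 := by
          rw [hD, hE0]
          simp only
          rw [← Complex.ofReal_mul, ← Real.exp_add]
          congr 2
          have : (rd Φ).Q (0 : Fin r → ℤ) = 0 := by simp [rd]
          rw [hm, cq, this]
          push_cast
          ring
        rw [if_pos hm, mul_one, one_mul, h3]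
      · rw [if_neg hm]
        ring) f hf
  exact sub_eq_zero.1 key

end

end STZ3
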