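import Pool.Agent.STZ3.StmtsT3
import Pool.Agent.LGR.LOCW

/-!
# MXU: the bound of the maximum
-/

namespace STZ3

open STZ LGR MeasureTheory Matrix Filter

open scoped ComplexConjugate Matrix Real Topology

noncomputable section

theorem t_MXU : M_MXU := by
  intro hKB hBERN hKERI N H c d r D P ι a χ Z k hV hG μ _ _
  have hcomp : CompactSpace H := isCompact_iff_compactSpace.1 hG.closed.isCompact
  have hsc : SecondCountableTopology H :=
    TopologicalSpace.Subtype.secondCountableTopology (H : Set (SU N))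
  have hker := (hKERI H μ ι χ hG.irr).1
  have hK := hKB H μ ι (KK χ) hker
  obtain ⟨C0, hC0, hdiag⟩ := LOCW.diag hV hG
  refine ⟨√C0, Real.sqrt_nonneg _, fun F u hu N₀ hN₀ hF t g => ?_⟩
  set S : ℝ := ∑ i ∈ F, nsq μ (u i) with hS
  have hS0 : 0 ≤ S := Finset.sum_nonneg fun a _ => integral_nonneg fun _ => by positivity
  have hN0 : 0 < N₀ := by linarith
  have h1 := LOCY.sup_bound hBERN μ hker hK F
    (fun i g => eu (t * ((-D.Q (wG (a i)) : ℤ) : ℝ)) * u i g)
    (fun i hi => LOCY.mem_mul μ (hu i hi) _) (C0 * N₀ ^ ((r : ℝ) + D.e)) ?_ g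
  · simp only [LOCY.nsq_eu] at h1
    have h2 : ‖uw (fun i => wG (a i)) (fun l => -D.Q l) F u t g‖ ≤
        √(C0 * N₀ ^ ((r : ℝ) + D.e) * S) := Real.le_sqrt_of_sq_le h1
    refine h2.trans (le_of_eq ?_)
    rw [Real.sqrt_mul (by positivity), Real.sqrt_mul hC0]
    congr 2
    rw [Real.sqrt_eq_rpow, ← Real.rpow_mul hN0.le]
    congr 1
    ring
  · intro g
    have h2 : ∀ i ∈ F, ‖KK χ i g g‖ ≤ C0 * N₀ ^ (D.e : ℝ) := by
      intro i hi
      refine (hdiag i g).trans (mul_le_mul_of_nonneg_left ?_ hC0)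
      exact Real.rpow_le_rpow (by linarith [LOCY.one_le_sz (wG (a i))])
        (hF i hi) (Nat.cast_nonneg _)
    refine (Finset.sum_le_sum h2).trans ?_
    have hFn : ∀ i ∈ F, a i ∈ ib r ⌊N₀⌋₊ := by
      intro i hi
      refine Fintype.mem_piFinset.2 fun j => Finset.mem_range.2 ?_
      have h4 := (LOCY.le_sz (a i) j).trans (hF i hi)
      have h5 : a i j + 2 ≤ ⌊N₀⌋₊ := Nat.le_floor (by push_cast; exact h4)
      omega
    have h3 : (ib r ⌊N₀⌋₊).card = ⌊N₀⌋₊ ^ r := by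
      unfold ib
      rw [Fintype.card_piFinset]
      simp
    have h4 : F.card ≤ ⌊N₀⌋₊ ^ r := by
      rw [← h3]
      exact Finset.card_le_card_of_injOn a hFn hG.inj.injOn
    have h5 : (F.card : ℝ) ≤ N₀ ^ r := by
      have h6 : (F.card : ℝ) ≤ (⌊N₀⌋₊ : ℝ) ^ r := by exact_mod_cast h4
      exact h6.trans (pow_le_pow_left₀ (Nat.cast_nonneg _) (Nat.floor_le hN0.le) r)
    rw [Finset.sum_const, nsmul_eq_mul]
    refine (mul_le_mul_of_nonneg_right h5 (by positivity)).trans (le_of_eq ?_)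
    rw [Real.rpow_add hN0, Real.rpow_natCast N₀ r]
    ring

end

end STZ3
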