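import Pool.Agent.STZ3.StD3

/-!
# The groups `SU(3)`, `PSU(3)`: module NRC, the bilinear form for the chain packets
-/

namespace STZ3

open STZ LGR MeasureTheory Matrix Filter

open scoped ComplexConjugate Matrix Real Topology

noncomputable section

theorem t_NRC : M_NRC := by
  intro hWFAC _ hRGM hBRC N H r Φ B Hc E c k d hCX μ _ _ χ hχ m J q a x T F κ G hT hF hκ hG
  have hw : WFF Φ B := hWFAC r Φ B hCX.lrd.ird
  obtain ⟨h1, h2⟩ := (hRGM r Φ B hCX.one_le hCX.lrd.ird hw).tp J a x
  have hG' : ∀ t, Continuous (G t) := fun t =>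
    hG.comp (f := fun y : H => (t, y)) (by fun_prop)
  unfold BF TX
  refine intervalIntegral.integral_congr fun t _ => ?_
  refine intervalIntegral.integral_congr fun s _ => ?_
  have h3 := hBRC N H r Φ B Hc E c k d hCX μ χ hχ a (th x) (tc a x) κ (h1.trans_le h2).le h1.le hκ
    (nx Φ m J q x (t - s)) T F (fun l hl => hT (t - s) l hl) (fun i hi => hF (t - s) i hi)
    (G s) (G t) (hG' s) (hG' t)
  refine h3.trans ?_
  refine integral_congr_ae (Eventually.of_forall fun h => ?_)
  refine integral_congr_ae (Eventually.of_forall fun g => ?_)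
  refine integral_congr_ae (Eventually.of_forall fun θ => ?_)
  simp only [km, lac, vw, Complex.ofReal_one, mul_one]

end

end STZ3
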