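import Pool.Agent.STZ3.StM
import Pool.Agent.LGR.LIEB
import Pool.Agent.LGR.WFAC
import Pool.Agent.LGR.TAUF
import Pool.Agent.STZ.HAAR

/-!
# Module NRP: the bilinear form and the near part of the packet measure
-/

namespace STZ3

open STZ LGR MeasureTheory Matrix Filter

open scoped ComplexConjugate Matrix Real Topology

noncomputable section

namespace NRP

/-- continuous and bounded -/
def BC {X E : Type*} [TopologicalSpace X] [NormedAddCommGroup E] (f : X → E) : Prop :=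
  Continuous f ∧ ∃ C : ℝ, ∀ x, ‖f x‖ ≤ C

section bc

variable {X Y E : Type*} [TopologicalSpace X] [TopologicalSpace Y] [NormedAddCommGroup E]

lemma BC.comp {f : X → E} (hf : BC f) {g : Y → X} (hg : Continuous g) : BC (fun y => f (g y)) := by
  obtain ⟨h1, C, hC⟩ := hf
  exact ⟨h1.comp hg, C, fun y => hC (g y)⟩

lemma BC.mul {f g : X → ℂ} (hf : BC f) (hg : BC g) : BC (fun x => f x * g x) := by
  obtain ⟨h1, C, hC⟩ := hf
  obtain ⟨h2, D, hD⟩ := hg
  refine ⟨h1.mul h2, C * D, fun x => ?_⟩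
  rw [norm_mul]
  exact mul_le_mul (hC x) (hD x) (norm_nonneg _) ((norm_nonneg _).trans (hC x))

lemma BC.add {f g : X → E} (hf : BC f) (hg : BC g) : BC (fun x => f x + g x) := by
  obtain ⟨h1, C, hC⟩ := hf
  obtain ⟨h2, D, hD⟩ := hg
  exact ⟨h1.add h2, C + D, fun x => (norm_add_le _ _).trans (add_le_add (hC x) (hD x))⟩

lemma BC.sub {f g : X → E} (hf : BC f) (hg : BC g) : BC (fun x => f x - g x) := by
  obtain ⟨h1, C, hC⟩ := hf
  obtain ⟨h2, D, hD⟩ := hg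
  exact ⟨h1.sub h2, C + D, fun x => (norm_sub_le _ _).trans (add_le_add (hC x) (hD x))⟩

lemma BC.norm {f : X → E} (hf : BC f) : BC (fun x => ‖f x‖) := by
  obtain ⟨h1, C, hC⟩ := hf
  exact ⟨h1.norm, C, fun x => by rw [norm_norm]; exact hC x⟩

lemma BC.cmul {f : X → ℝ} (hf : BC f) (M : ℝ) : BC (fun x => M * f x) := by
  obtain ⟨h1, C, hC⟩ := hf
  refine ⟨continuous_const.mul h1, |M| * C, fun x => ?_⟩
  rw [norm_mul, Real.norm_eq_abs]
  exact mul_le_mul_of_nonneg_left (hC x) (abs_nonneg _)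

lemma BC.conj {f : X → ℂ} (hf : BC f) : BC (fun x => conj (f x)) := by
  obtain ⟨h1, C, hC⟩ := hf
  refine ⟨Complex.continuous_conj.comp h1, C, fun x => ?_⟩
  rw [RCLike.norm_conj]
  exact hC x

variable [SecondCountableTopology X] [SecondCountableTopology Y] [MeasurableSpace X]
  [MeasurableSpace Y] [BorelSpace X] [BorelSpace Y] [NormedSpace ℝ E]

omit [SecondCountableTopology X] [MeasurableSpace X] [BorelSpace X] [NormedSpace ℝ E] in
lemma BC.integrable (ν : Measure Y) [IsFiniteMeasure ν] {f : Y → E} (hf : BC f) : Integrable f ν := by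
  obtain ⟨h1, C, hC⟩ := hf
  exact Integrable.of_bound h1.aestronglyMeasurable C (Eventually.of_forall fun p => hC p)

omit [MeasurableSpace X] [BorelSpace X] in
lemma BC.int (ν : Measure Y) [IsFiniteMeasure ν] {f : X → Y → E}
    (hf : BC (fun p : X × Y => f p.1 p.2)) : BC (fun x => ∫ y, f x y ∂ν) := by
  obtain ⟨h1, C, hC⟩ := hf
  have h2 : ∀ x, Continuous (f x) := fun x => h1.comp (by fun_prop : Continuous fun y => (x, y))
  refine ⟨?_, C * ν.real Set.univ, fun x => ?_⟩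
  · refine continuous_of_dominated (bound := fun _ => C)
      (fun x => (h2 x).aestronglyMeasurable) (fun x => ?_) (integrable_const _) ?_
    · exact Eventually.of_forall fun y => hC (x, y)
    · exact Eventually.of_forall fun y =>
        h1.comp (by fun_prop : Continuous fun x => (x, y))
  · exact norm_integral_le_of_norm_le_const (Eventually.of_forall fun y => hC (x, y))

lemma BC.swap (μ : Measure X) (ν : Measure Y) [IsFiniteMeasure μ] [IsFiniteMeasure ν]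
    {f : X → Y → E} (hf : BC (fun p : X × Y => f p.1 p.2)) :
    ∫ x, ∫ y, f x y ∂ν ∂μ = ∫ y, ∫ x, f x y ∂μ ∂ν := by
  obtain ⟨h1, C, hC⟩ := hf
  refine integral_integral_swap ?_
  exact Integrable.of_bound h1.aestronglyMeasurable C (Eventually.of_forall fun p => hC p)

omit [SecondCountableTopology X] [MeasurableSpace X] [BorelSpace X] [NormedSpace ℝ E] in
lemma step (ν : Measure Y) [IsFiniteMeasure ν] {f f' : Y → ℂ} {b : Y → ℝ} (hf : BC f) (hf' : BC f')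
    (hb : BC b) (h : ∀ y, ‖f y - f' y‖ ≤ b y) : ‖∫ y, f y ∂ν - ∫ y, f' y ∂ν‖ ≤ ∫ y, b y ∂ν := by
  rw [← integral_sub (hf.integrable ν) (hf'.integrable ν)]
  exact norm_integral_le_of_norm_le (hb.integrable ν) (Eventually.of_forall h)

end bc

section abs

variable {G : Type} [Group G] [TopologicalSpace G] [IsTopologicalGroup G] [CompactSpace G]
  [T2Space G] [SecondCountableTopology G] [MeasurableSpace G] [BorelSpace G] {r : ℕ}

/-- the form, abstractly -/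
def TA (μ : Measure G) (ν₀ : Measure ℝ) (ν : Measure (Fin r → ℝ)) (t' : (Fin r → ℝ) → G)
    (ker : ℝ → (Fin r → ℝ) → ℂ) (V : ℝ → G → G → ℂ) : ℂ :=
  ∫ t, ∫ s, ∫ h, ∫ g, ∫ θ, ker (t - s) θ * (V s h g * conj (V t h (g * t' θ))) ∂ν ∂μ ∂μ ∂ν₀ ∂ν₀

omit [CompactSpace G] [T2Space G] in
theorem main (μ : Measure G) [IsProbabilityMeasure μ] [μ.IsMulRightInvariant] (ν₀ : Measure ℝ)
    [IsProbabilityMeasure ν₀] (ν : Measure (Fin r → ℝ)) [IsProbabilityMeasure ν]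
    (t' : (Fin r → ℝ) → G) (ht' : Continuous t') (ker : ℝ → (Fin r → ℝ) → ℂ)
    (hker : Continuous fun z : ℝ × (Fin r → ℝ) => ker z.1 z.2) (M : ℝ)
    (hM : ∀ τ θ, ‖ker τ θ‖ ≤ M) (V V' : ℝ → G → G → ℂ) (hV : J3 V) (hV' : J3 V')
    (h1 : ∀ t h g, ‖V t h g‖ ≤ 1) (h1' : ∀ t h g, ‖V' t h g‖ ≤ 1) :
    ‖TA μ ν₀ ν t' ker V - TA μ ν₀ ν t' ker V'‖ ≤
      2 * M * ∫ t, ∫ h, ∫ g, ‖V t h g - V' t h g‖ ∂μ ∂μ ∂ν₀ := by
  have hM0 : 0 ≤ M := (norm_nonneg _).trans (hM 0 0)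
  have bK : BC (fun z : ℝ × (Fin r → ℝ) => ker z.1 z.2) := ⟨hker, M, fun z => hM _ _⟩
  have bV : BC (fun z : ℝ × G × G => V z.1 z.2.1 z.2.2) := ⟨hV, 1, fun z => h1 _ _ _⟩
  have bV' : BC (fun z : ℝ × G × G => V' z.1 z.2.1 z.2.2) := ⟨hV', 1, fun z => h1' _ _ _⟩
  -- the integrand
  have bI : ∀ W : ℝ → G → G → ℂ, BC (fun z : ℝ × G × G => W z.1 z.2.1 z.2.2) →
      BC (fun z : ℝ × ℝ × G × G × (Fin r → ℝ) => ker (z.1 - z.2.1) z.2.2.2.2 *
        (W z.2.1 z.2.2.1 z.2.2.2.1 * conj (W z.1 z.2.2.1 (z.2.2.2.1 * t' z.2.2.2.2)))) := by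
    intro W bW
    refine BC.mul ?_ (BC.mul ?_ (BC.conj ?_))
    · exact bK.comp (g := fun z : ℝ × ℝ × G × G × (Fin r → ℝ) => (z.1 - z.2.1, z.2.2.2.2))
        (by fun_prop)
    · exact bW.comp (g := fun z : ℝ × ℝ × G × G × (Fin r → ℝ) => (z.2.1, z.2.2.1, z.2.2.2.1))
        (by fun_prop)
    · exact bW.comp (g := fun z : ℝ × ℝ × G × G × (Fin r → ℝ) =>
        (z.1, z.2.2.1, z.2.2.2.1 * t' z.2.2.2.2)) (by fun_prop)
  -- the partial integrals
  have b4 : ∀ W : ℝ → G → G → ℂ, BC (fun z : ℝ × G × G => W z.1 z.2.1 z.2.2) →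
      BC (fun z : ℝ × ℝ × G × G => ∫ θ, ker (z.1 - z.2.1) θ *
        (W z.2.1 z.2.2.1 z.2.2.2 * conj (W z.1 z.2.2.1 (z.2.2.2 * t' θ))) ∂ν) := by
    intro W bW
    exact BC.int ν (f := fun (z : ℝ × ℝ × G × G) θ => ker (z.1 - z.2.1) θ *
        (W z.2.1 z.2.2.1 z.2.2.2 * conj (W z.1 z.2.2.1 (z.2.2.2 * t' θ))))
      ((bI W bW).comp (g := fun p : (ℝ × ℝ × G × G) × (Fin r → ℝ) =>
        (p.1.1, p.1.2.1, p.1.2.2.1, p.1.2.2.2, p.2)) (by fun_prop))
  have b3 : ∀ W : ℝ → G → G → ℂ, BC (fun z : ℝ × G × G => W z.1 z.2.1 z.2.2) →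
      BC (fun z : ℝ × ℝ × G => ∫ g, ∫ θ, ker (z.1 - z.2.1) θ *
        (W z.2.1 z.2.2 g * conj (W z.1 z.2.2 (g * t' θ))) ∂ν ∂μ) := by
    intro W bW
    exact BC.int μ (f := fun (z : ℝ × ℝ × G) g => ∫ θ, ker (z.1 - z.2.1) θ *
        (W z.2.1 z.2.2 g * conj (W z.1 z.2.2 (g * t' θ))) ∂ν)
      ((b4 W bW).comp (g := fun p : (ℝ × ℝ × G) × G => (p.1.1, p.1.2.1, p.1.2.2, p.2))
        (by fun_prop))
  have b2 : ∀ W : ℝ → G → G → ℂ, BC (fun z : ℝ × G × G => W z.1 z.2.1 z.2.2) →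
      BC (fun z : ℝ × ℝ => ∫ h, ∫ g, ∫ θ, ker (z.1 - z.2) θ *
        (W z.2 h g * conj (W z.1 h (g * t' θ))) ∂ν ∂μ ∂μ) := by
    intro W bW
    exact BC.int μ (f := fun (z : ℝ × ℝ) h => ∫ g, ∫ θ, ker (z.1 - z.2) θ *
        (W z.2 h g * conj (W z.1 h (g * t' θ))) ∂ν ∂μ)
      ((b3 W bW).comp (g := fun p : (ℝ × ℝ) × G => (p.1.1, p.1.2, p.2)) (by fun_prop))
  have b1 : ∀ W : ℝ → G → G → ℂ, BC (fun z : ℝ × G × G => W z.1 z.2.1 z.2.2) →
      BC (fun t : ℝ => ∫ s, ∫ h, ∫ g, ∫ θ, ker (t - s) θ *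
        (W s h g * conj (W t h (g * t' θ))) ∂ν ∂μ ∂μ ∂ν₀) := by
    intro W bW
    exact BC.int ν₀ (f := fun (t : ℝ) s => ∫ h, ∫ g, ∫ θ, ker (t - s) θ *
        (W s h g * conj (W t h (g * t' θ))) ∂ν ∂μ ∂μ) (b2 W bW)
  -- the bound
  set D : ℝ → G → G → ℝ := fun t h g => ‖V t h g - V' t h g‖ with hD
  have bD : BC (fun z : ℝ × G × G => D z.1 z.2.1 z.2.2) := (bV.sub bV').norm
  set e3 : ℝ → G → ℝ := fun t h => ∫ g, D t h g ∂μ with he3
  have be3 : BC (fun z : ℝ × G => e3 z.1 z.2) :=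
    BC.int μ (f := fun (z : ℝ × G) g => D z.1 z.2 g)
      (bD.comp (g := fun p : (ℝ × G) × G => (p.1.1, p.1.2, p.2)) (by fun_prop))
  set e2 : ℝ → ℝ := fun t => ∫ h, e3 t h ∂μ with he2
  have be2 : BC e2 := BC.int μ (f := fun (t : ℝ) h => e3 t h) be3
  set e1 : ℝ := ∫ t, e2 t ∂ν₀ with he1
  have bDt : BC (fun z : ℝ × G × G × (Fin r → ℝ) => D z.1 z.2.1 (z.2.2.1 * t' z.2.2.2)) :=
    bD.comp (g := fun z : ℝ × G × G × (Fin r → ℝ) => (z.1, z.2.1, z.2.2.1 * t' z.2.2.2))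
      (by fun_prop)
  have bF : BC (fun z : ℝ × G × G => ∫ θ, D z.1 z.2.1 (z.2.2 * t' θ) ∂ν) :=
    BC.int ν (f := fun (z : ℝ × G × G) θ => D z.1 z.2.1 (z.2.2 * t' θ))
      (bDt.comp (g := fun p : (ℝ × G × G) × (Fin r → ℝ) => (p.1.1, p.1.2.1, p.1.2.2, p.2))
        (by fun_prop))
  have eF : ∀ t h, ∫ g, ∫ θ, D t h (g * t' θ) ∂ν ∂μ = e3 t h := by
    intro t h
    rw [BC.swap μ ν (f := fun g θ => D t h (g * t' θ))
      (bDt.comp (g := fun p : G × (Fin r → ℝ) => (t, h, p.1, p.2)) (by fun_prop))]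
    have : ∀ θ, ∫ g, D t h (g * t' θ) ∂μ = e3 t h := fun θ =>
      integral_mul_right_eq_self (fun g => D t h g) (t' θ)
    simp only [this, integral_const, probReal_univ, one_smul]
  -- level 5
  have l5 : ∀ t s h g, ‖∫ θ, ker (t - s) θ * (V s h g * conj (V t h (g * t' θ))) ∂ν -
      ∫ θ, ker (t - s) θ * (V' s h g * conj (V' t h (g * t' θ))) ∂ν‖ ≤
      M * (D s h g + ∫ θ, D t h (g * t' θ) ∂ν) := by
    intro t s h g
    have c1 : BC (fun θ : Fin r → ℝ => D t h (g * t' θ)) :=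
      bDt.comp (g := fun θ : Fin r → ℝ => (t, h, g, θ)) (by fun_prop)
    have c0 : BC (fun _ : Fin r → ℝ => D s h g) := ⟨continuous_const, ‖D s h g‖, fun _ => le_rfl⟩
    have h6 := step ν (f := fun θ => ker (t - s) θ * (V s h g * conj (V t h (g * t' θ))))
      (f' := fun θ => ker (t - s) θ * (V' s h g * conj (V' t h (g * t' θ))))
      (b := fun θ => M * (D s h g + D t h (g * t' θ)))
      ((bI V bV).comp (g := fun θ : Fin r → ℝ => (t, s, h, g, θ)) (by fun_prop))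
      ((bI V' bV').comp (g := fun θ : Fin r → ℝ => (t, s, h, g, θ)) (by fun_prop))
      ((c0.add c1).cmul M) (by
        intro θ
        have e : ker (t - s) θ * (V s h g * conj (V t h (g * t' θ))) -
            ker (t - s) θ * (V' s h g * conj (V' t h (g * t' θ))) =
            ker (t - s) θ * ((V s h g - V' s h g) * conj (V t h (g * t' θ)) +
              V' s h g * conj (V t h (g * t' θ) - V' t h (g * t' θ))) := by
          rw [map_sub]
          ring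
        rw [e, norm_mul]
        refine mul_le_mul (hM _ _) ?_ (norm_nonneg _) hM0
        refine (norm_add_le _ _).trans (add_le_add ?_ ?_)
        · rw [norm_mul, RCLike.norm_conj]
          exact mul_le_of_le_one_right (norm_nonneg _) (h1 _ _ _)
        · rw [norm_mul, RCLike.norm_conj]
          exact mul_le_of_le_one_left (norm_nonneg _) (h1' _ _ _))
    refine h6.trans (le_of_eq ?_)
    rw [integral_const_mul, integral_add (c0.integrable ν) (c1.integrable ν)]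
    simp only [integral_const, probReal_univ, one_smul]
  -- level 4
  have l4 : ∀ t s h, ‖∫ g, ∫ θ, ker (t - s) θ * (V s h g * conj (V t h (g * t' θ))) ∂ν ∂μ -
      ∫ g, ∫ θ, ker (t - s) θ * (V' s h g * conj (V' t h (g * t' θ))) ∂ν ∂μ‖ ≤
      M * (e3 s h + e3 t h) := by
    intro t s h
    have c0 : BC (fun g : G => D s h g) := bD.comp (g := fun g : G => (s, h, g)) (by fun_prop)
    have c1 : BC (fun g : G => ∫ θ, D t h (g * t' θ) ∂ν) :=
      bF.comp (g := fun g : G => (t, h, g)) (by fun_prop)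
    refine (step μ (b := fun g => M * (D s h g + ∫ θ, D t h (g * t' θ) ∂ν))
      ((b4 V bV).comp (g := fun g : G => (t, s, h, g)) (by fun_prop))
      ((b4 V' bV').comp (g := fun g : G => (t, s, h, g)) (by fun_prop))
      ((c0.add c1).cmul M) (l5 t s h)).trans (le_of_eq ?_)
    rw [integral_const_mul, integral_add (c0.integrable μ) (c1.integrable μ), eF]
  -- level 3
  have l3 : ∀ t s, ‖∫ h, ∫ g, ∫ θ, ker (t - s) θ * (V s h g * conj (V t h (g * t' θ))) ∂ν ∂μ ∂μ -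
      ∫ h, ∫ g, ∫ θ, ker (t - s) θ * (V' s h g * conj (V' t h (g * t' θ))) ∂ν ∂μ ∂μ‖ ≤
      M * (e2 s + e2 t) := by
    intro t s
    have c0 : BC (fun h : G => e3 s h) := be3.comp (g := fun h : G => (s, h)) (by fun_prop)
    have c1 : BC (fun h : G => e3 t h) := be3.comp (g := fun h : G => (t, h)) (by fun_prop)
    refine (step μ (b := fun h => M * (e3 s h + e3 t h))
      ((b3 V bV).comp (g := fun h : G => (t, s, h)) (by fun_prop))
      ((b3 V' bV').comp (g := fun h : G => (t, s, h)) (by fun_prop))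
      ((c0.add c1).cmul M) (l4 t s)).trans (le_of_eq ?_)
    rw [integral_const_mul, integral_add (c0.integrable μ) (c1.integrable μ)]
  -- level 2
  have l2 : ∀ t, ‖∫ s, ∫ h, ∫ g, ∫ θ, ker (t - s) θ * (V s h g * conj (V t h (g * t' θ)))
        ∂ν ∂μ ∂μ ∂ν₀ -
      ∫ s, ∫ h, ∫ g, ∫ θ, ker (t - s) θ * (V' s h g * conj (V' t h (g * t' θ)))
        ∂ν ∂μ ∂μ ∂ν₀‖ ≤ M * (e1 + e2 t) := by
    intro t
    have c1 : BC (fun _ : ℝ => e2 t) := ⟨continuous_const, ‖e2 t‖, fun _ => le_rfl⟩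
    refine (step ν₀ (b := fun s => M * (e2 s + e2 t))
      ((b2 V bV).comp (g := fun s : ℝ => (t, s)) (by fun_prop))
      ((b2 V' bV').comp (g := fun s : ℝ => (t, s)) (by fun_prop))
      ((be2.add c1).cmul M) (l3 t)).trans (le_of_eq ?_)
    rw [integral_const_mul, integral_add (be2.integrable ν₀) (c1.integrable ν₀)]
    simp only [integral_const, probReal_univ, one_smul, he1]
  -- level 1
  have c1 : BC (fun _ : ℝ => e1) := ⟨continuous_const, ‖e1‖, fun _ => le_rfl⟩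
  refine (step ν₀ (b := fun t => M * (e1 + e2 t)) (b1 V bV) (b1 V' bV')
    ((c1.add be2).cmul M) l2).trans (le_of_eq ?_)
  rw [integral_const_mul, integral_add (c1.integrable ν₀) (be2.integrable ν₀)]
  simp only [integral_const, probReal_univ, one_smul]
  change M * (e1 + e1) = 2 * M * e1
  ring

end abs

/-- continuity of `tt` -/
lemma tt_cont {N r : ℕ} {H : Subgroup (SU N)} {Φ : RT r} {B : Matrix (Fin r) (Fin r) ℤ}
    {Hc : Fin r → MT N} {E : (Fin r → ℤ) × (Fin r → ℤ) → MT N} {c k : ℝ} {d : ℕ}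
    (hCX : CX H Φ B Hc E c k d) : Continuous (tt H Hc) := by
  have hta : TAF H Φ Hc E := t_TAUF t_LIEB t_WFAC N H r Φ B Hc E hCX.closed hCX.lrd
  have e : tt H Hc = fun θ => (⟨ta Hc θ, hta.mem θ⟩ : H) := by
    funext θ
    unfold tt
    rw [dif_pos (hta.mem θ)]
  rw [e]
  exact hta.cont.subtype_mk _

/-- the norm of `eu` -/
lemma norm_eu (y : ℝ) : ‖eu y‖ = 1 := by
  unfold eu
  rw [Complex.norm_exp]
  simp

lemma card_cb (r K J : ℕ) : (((cb r (K * 2 ^ J)).card : ℕ) : ℝ) ≤ (2 * K + 1) ^ r * 2 ^ (J * r) := by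
  have h1 : (cb r (K * 2 ^ J)).card = (2 * (K * 2 ^ J) + 1) ^ r := by
    generalize K * 2 ^ J = n
    unfold cb
    rw [Fintype.card_piFinset]
    simp only [Int.card_Icc, Finset.prod_const, Finset.card_univ, Fintype.card_fin]
    congr 1
    omega
  rw [h1, pow_mul, ← mul_pow]
  push_cast
  refine pow_le_pow_left₀ (by positivity) ?_ _
  have h2 : (1 : ℝ) ≤ 2 ^ J := one_le_pow₀ (by norm_num)
  nlinarith

/-- the bound of the kernel -/
lemma km_le {r : ℕ} {Φ : RT r} {m K : ℕ} {C : ℝ} (h : LMF Φ m K C) (hC : 0 ≤ C) (J : ℕ)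
    (q : (Fin r → ℤ) → ℝ) (x : {p // p ∈ pos Φ} → Fin (J + 1)) (T : Finset (Fin r → ℤ))
    (hq : QH Φ (2 ^ J) q) (τ : ℝ) (θ : Fin r → ℝ) :
    ‖km (la Φ m J q x) T (fun _ => 1) τ θ‖ ≤
      (2 * K + 1) ^ r * C * 2 ^ (J * ((pos Φ).card + r)) := by
  classical
  unfold km
  refine (norm_sum_le _ _).trans ?_
  have e1 : ∀ l ∈ T, ‖la Φ m J q x τ l * (((fun _ => 1 : (Fin r → ℤ) → ℝ) l : ℝ) : ℂ) * eu (dz l θ)‖ =
      ‖la Φ m J q x τ l‖ := by
    intro l _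
    rw [norm_mul, norm_mul, norm_eu]
    simp
  rw [Finset.sum_congr rfl e1]
  have e2 : ∑ l ∈ T, ‖la Φ m J q x τ l‖ ≤ ∑ l ∈ cb r (K * 2 ^ J), ‖la Φ m J q x τ l‖ := by
    rw [← Finset.sum_filter_ne_zero]
    refine Finset.sum_le_sum_of_subset_of_nonneg ?_ (fun _ _ _ => norm_nonneg _)
    intro l hl
    refine h.supp J q x τ l hq ?_
    have := (Finset.mem_filter.1 hl).2
    exact norm_ne_zero_iff.1 this
  refine e2.trans ?_
  refine (Finset.sum_le_sum fun l _ => h.bd J q x τ l hq).trans ?_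
  rw [Finset.sum_const, nsmul_eq_mul, Nat.mul_add, pow_add]
  calc ((cb r (K * 2 ^ J)).card : ℝ) * (C * 2 ^ (J * (pos Φ).card))
      ≤ ((2 * K + 1) ^ r * 2 ^ (J * r)) * (C * 2 ^ (J * (pos Φ).card)) :=
        mul_le_mul_of_nonneg_right (card_cb r K J) (by positivity)
    _ = _ := by ring

lemma km_cont {r : ℕ} {Φ : RT r} {m K : ℕ} {C : ℝ} (h : LMF Φ m K C) (J : ℕ)
    (q : (Fin r → ℤ) → ℝ) (x : {p // p ∈ pos Φ} → Fin (J + 1)) (T : Finset (Fin r → ℤ)) :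
    Continuous fun z : ℝ × (Fin r → ℝ) => km (la Φ m J q x) T (fun _ => 1) z.1 z.2 := by
  unfold km
  refine continuous_finsetSum _ fun l _ => ?_
  refine ((Continuous.mul ?_ continuous_const).mul ?_)
  · exact (h.cont J q x l).comp continuous_fst
  · unfold eu dz
    fun_prop

/-- the powers -/
lemma pw (n r : ℕ) (ε A : ℝ) (j J : ℕ) (hj : n + r + A ≤ 4 * ε * j) (ϑ ρ : ℝ)
    (h : ρ ^ 2 / ϑ = (2 : ℝ) ^ (4 * ε * J)) :
    (2 : ℝ) ^ (J * (n + r)) * (ϑ / ρ ^ 2) ^ j ≤ (2 : ℝ) ^ (-(A * J)) := by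
  have h1 : ϑ / ρ ^ 2 = (2 : ℝ) ^ (-(4 * ε * J)) := by
    rw [← inv_div, h, Real.rpow_neg (by norm_num)]
  rw [h1, ← Real.rpow_natCast, ← Real.rpow_natCast ((2 : ℝ) ^ (-(4 * ε * J))),
    ← Real.rpow_mul (by norm_num), ← Real.rpow_add (by norm_num)]
  refine Real.rpow_le_rpow_of_exponent_le (by norm_num) ?_
  push_cast
  have hJ : (0 : ℝ) ≤ J := Nat.cast_nonneg J
  nlinarith [mul_le_mul_of_nonneg_right hj hJ]

end NRP

open NRP in
/-- Module NRP. -/
theorem t_NRP : M_NRP := by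
  intro hprm hlmb htai hbrp hvcn N H r Φ B Hc E c k d hCX μ _ _ χ hχ m C₁ ε A hm hC₁ hε hε8 hA
  have hcl := hCX.closed
  have hcs : CompactSpace H := isCompact_iff_compactSpace.1 hcl.isCompact
  have hsc : SecondCountableTopology H :=
    TopologicalSpace.Subtype.secondCountableTopology (H : Set (SU N))
  obtain ⟨hright, -, -⟩ := t_HAAR H μ
  have htt := tt_cont hCX
  have hw : WFF Φ B := t_WFAC r Φ B hCX.lrd.ird
  have hprf := hprm r Φ B hCX.one_le hCX.lrd.ird hw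
  obtain ⟨K, C, hC, hlm⟩ := hlmb r Φ B hCX.one_le hCX.lrd.ird hw m C₁ hm hC₁
  obtain ⟨j, hj⟩ := exists_nat_ge (((pos Φ).card + r + A) / (4 * ε))
  have hj' : ((pos Φ).card : ℝ) + r + A ≤ 4 * ε * j := by
    rw [div_le_iff₀ (by positivity)] at hj
    linarith
  obtain ⟨Cj, hCj, htail⟩ := htai N H r Φ B Hc E c k d hCX j
  refine ⟨2 * ((2 * K + 1) ^ r * C) * Cj, by positivity, ?_⟩
  intro J q x T F κ G hJ hq hT hF hκ hG hG1
  have hprob : IsProbabilityMeasure κ := hκ.prob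
  have hth := hprf.tpos J x
  have hth1 : th x ≤ 1 := by linarith [hprf.half J x hJ]
  have hro := hprf.rpos J x ε
  obtain ⟨hV', hV, hb, hL⟩ := (hvcn N H r Φ B Hc E c k d hCX μ).1 κ (ro ε x) G hprob hG
  have hGc : ∀ t, Continuous (G t) := fun t =>
    hG.comp (by fun_prop : Continuous fun y : H => (t, y))
  -- the reproducing formula
  set ν₀ : Measure ℝ := volume.restrict (Set.Ioc 0 1) with hν₀
  set ν : Measure (Fin r → ℝ) := volume.restrict (Set.Icc (0 : Fin r → ℝ) 1) with hν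
  have p0 : IsProbabilityMeasure ν₀ := ⟨by
    rw [hν₀, Measure.restrict_apply_univ, Real.volume_Ioc]
    norm_num⟩
  have p1 : IsProbabilityMeasure ν := ⟨by
    rw [hν, Measure.restrict_apply_univ, Real.volume_Icc_pi]
    simp⟩
  have eT : ∀ W : ℝ → H → H → ℂ, TX Hc μ (km (la Φ m J q x) T fun _ => 1) W W =
      TA μ ν₀ ν (tt H Hc) (km (la Φ m J q x) T fun _ => 1) W := by
    intro W
    unfold TX TA
    simp only [intervalIntegral.integral_of_le (zero_le_one (α := ℝ))]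
    rfl
  have eB : BF μ χ F (fun t i => wa Φ (nx Φ m J q x t) (wG i.1)) G =
      TX Hc μ (km (la Φ m J q x) T fun _ => 1) (fun t h g => VV κ h (G t) g)
        (fun t h g => VV κ h (G t) g) := by
    unfold BF TX
    congr 1
    funext t
    congr 1
    funext s
    rw [hbrp N H r Φ B Hc E c k d hCX μ χ hχ (th x) κ hth hκ (nx Φ m J q x (t - s)) T F
      (hT (t - s)) (hF (t - s)) (G s) (G t) (hGc s) (hGc t)]
    simp only [km, la, Complex.ofReal_one, mul_one]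
  rw [eB, eT, eT]
  have hmain := main μ ν₀ ν (tt H Hc) htt (km (la Φ m J q x) T fun _ => 1)
    (km_cont hlm J q x T) ((2 * K + 1) ^ r * C * 2 ^ (J * ((pos Φ).card + r)))
    (km_le hlm hC J q x T hq) (fun t h g => VV κ h (G t) g) (vn κ (ro ε x) G) hV hV'
    (fun t h g => (hb 1 hG1 t h g).2) (fun t h g => (hb 1 hG1 t h g).1)
  refine hmain.trans ?_
  -- the mass of the difference
  have bD : BC (fun z : ℝ × H × H => VV κ z.2.1 (G z.1) z.2.2 - vn κ (ro ε x) G z.1 z.2.1 z.2.2) :=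
    BC.sub ⟨hV, 1, fun z => (hb 1 hG1 _ _ _).2⟩ ⟨hV', 1, fun z => (hb 1 hG1 _ _ _).1⟩
  have bD3 : BC (fun z : ℝ × H => ∫ g, ‖VV κ z.2 (G z.1) g - vn κ (ro ε x) G z.1 z.2 g‖ ∂μ) :=
    BC.int μ (f := fun (z : ℝ × H) g => ‖VV κ z.2 (G z.1) g - vn κ (ro ε x) G z.1 z.2 g‖)
      (bD.norm.comp (g := fun p : (ℝ × H) × H => (p.1.1, p.1.2, p.2)) (by fun_prop))
  have bD2 : BC (fun t : ℝ => ∫ h, ∫ g, ‖VV κ h (G t) g - vn κ (ro ε x) G t h g‖ ∂μ ∂μ) :=
    BC.int μ (f := fun (t : ℝ) h => ∫ g, ‖VV κ h (G t) g - vn κ (ro ε x) G t h g‖ ∂μ) bD3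
  have bG : BC (fun t : ℝ => ∫ y, ‖G t y‖ ∂μ) :=
    BC.int μ (f := fun (t : ℝ) y => ‖G t y‖)
      (BC.norm (f := fun p : ℝ × H => G p.1 p.2) ⟨hG, 1, fun z => hG1 _ _⟩)
  have h1 : ∫ t, ∫ h, ∫ g, ‖VV κ h (G t) g - vn κ (ro ε x) G t h g‖ ∂μ ∂μ ∂ν₀ ≤
      Cj * (th x / ro ε x ^ 2) ^ j * mG μ G := by
    have h2 : ∀ t, ∫ h, ∫ g, ‖VV κ h (G t) g - vn κ (ro ε x) G t h g‖ ∂μ ∂μ ≤
        Cj * (th x / ro ε x ^ 2) ^ j * ∫ y, ‖G t y‖ ∂μ := by
      intro t
      refine (hL t).2.2.1.trans ?_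
      exact mul_le_mul_of_nonneg_right (htail (th x) κ hth hth1 (Or.inl hκ) _ hro)
        (integral_nonneg fun _ => norm_nonneg _)
    refine (integral_mono (bD2.integrable ν₀) ((bG.cmul _).integrable ν₀) h2).trans (le_of_eq ?_)
    rw [integral_const_mul]
    unfold mG
    rw [intervalIntegral.integral_of_le (zero_le_one (α := ℝ))]
  have hmG : 0 ≤ mG μ G := by
    unfold mG
    exact intervalIntegral.integral_nonneg zero_le_one fun t _ =>
      integral_nonneg fun _ => norm_nonneg _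
  have hpw := pw (pos Φ).card r ε A j J hj' (th x) (ro ε x) (hprf.rth J x ε)
  calc 2 * ((2 * K + 1) ^ r * C * 2 ^ (J * ((pos Φ).card + r))) *
        ∫ t, ∫ h, ∫ g, ‖VV κ h (G t) g - vn κ (ro ε x) G t h g‖ ∂μ ∂μ ∂ν₀
      ≤ 2 * ((2 * K + 1) ^ r * C * 2 ^ (J * ((pos Φ).card + r))) *
        (Cj * (th x / ro ε x ^ 2) ^ j * mG μ G) :=
        mul_le_mul_of_nonneg_left h1 (by positivity)
    _ = 2 * ((2 * K + 1) ^ r * C) * Cj *
        (2 ^ (J * ((pos Φ).card + r)) * (th x / ro ε x ^ 2) ^ j) * mG μ G := by ring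
    _ ≤ 2 * ((2 * K + 1) ^ r * C) * Cj * (2 : ℝ) ^ (-(A * J)) * mG μ G := by
        refine mul_le_mul_of_nonneg_right ?_ hmG
        exact mul_le_mul_of_nonneg_left hpw (by positivity)

end

end STZ3
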