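import Pool.Agent.STZ3.StD3

/-!
# Module NUC: numerology for the groups with three positive roots
-/

namespace STZ3

open STZ LGR MeasureTheory Matrix Filter

open scoped ComplexConjugate Matrix Real Topology

noncomputable section

namespace NUC

/-- the first alternative -/
lemma caseA {a b d X : ℝ} (ha : 0 < a) (hab : a ≤ b) (hd0 : 0 ≤ d) (hd : d ≤ b) (hX : 0 < X)
    (h : b ≤ X ^ 2 * a ^ 3) :
    (√(a * X) * √(b * X) * max (√(b * X)) (b / a) / (a * b ^ 2)) ^ 4 * (a * d) ^ 3 ≤ X ^ 6 := by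
  have hb : 0 < b := ha.trans_le hab
  have hu : √(a * X) ^ 2 = a * X := Real.sq_sqrt (by positivity)
  have hv : √(b * X) ^ 2 = b * X := Real.sq_sqrt (by positivity)
  set u := √(a * X)
  set v := √(b * X)
  set M := max v (b / a) with hM
  have hM4 : M ^ 4 * a ≤ X ^ 2 * b ^ 3 := by
    rcases max_cases v (b / a) with ⟨h1, -⟩ | ⟨h1, -⟩
    · rw [hM, h1, show v ^ 4 = (v ^ 2) ^ 2 by ring, hv]
      have : (b * X) ^ 2 * a ≤ (b * X) ^ 2 * b := mul_le_mul_of_nonneg_left hab (by positivity)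
      refine this.trans (le_of_eq ?_)
      ring
    · rw [hM, h1, div_pow]
      have : b ^ 4 / a ^ 4 * a = b ^ 3 * b / a ^ 3 := by field_simp
      rw [this, div_le_iff₀ (by positivity)]
      calc b ^ 3 * b ≤ b ^ 3 * (X ^ 2 * a ^ 3) := mul_le_mul_of_nonneg_left h (by positivity)
        _ = _ := by ring
  have e1 : (u * v * M / (a * b ^ 2)) ^ 4 * (a * d) ^ 3 = X ^ 4 * (M ^ 4 * a) * d ^ 3 / b ^ 6 := by
    rw [div_pow, mul_pow, mul_pow, show u ^ 4 = (u ^ 2) ^ 2 by ring,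
      show v ^ 4 = (v ^ 2) ^ 2 by ring, hu, hv]
    field_simp
  rw [e1, div_le_iff₀ (by positivity)]
  have hd3 : d ^ 3 ≤ b ^ 3 := pow_le_pow_left₀ hd0 hd 3
  have hM0 : 0 ≤ M ^ 4 * a := by positivity
  calc X ^ 4 * (M ^ 4 * a) * d ^ 3 ≤ X ^ 4 * (X ^ 2 * b ^ 3) * b ^ 3 := by gcongr
    _ = _ := by ring

/-- the second alternative: all `δ` are comparable -/
lemma caseB {a b d₁ d₂ X e P : ℝ} (ha : 0 < a) (hab : a ≤ b) (h1 : 0 ≤ d₁) (h1b : d₁ ≤ b) (h2 : 0 ≤ d₂)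
    (h2b : d₂ ≤ b) (hX : 0 < X) (he : 1 ≤ e) (hP : a ^ 3 ≤ P) (h : b ≤ e ^ 24 * a) :
    (X * b) ^ 6 / P ^ 4 * (d₁ * d₂) ^ 3 ≤ X ^ 6 * e ^ 300 := by
  have hb : 0 < b := ha.trans_le hab
  have hP0 : 0 < P := lt_of_lt_of_le (by positivity) hP
  have h12 : (d₁ * d₂) ^ 3 ≤ (b * b) ^ 3 :=
    pow_le_pow_left₀ (by positivity) (mul_le_mul h1b h2b h2 hb.le) 3
  have hP4 : (a ^ 3) ^ 4 ≤ P ^ 4 := pow_le_pow_left₀ (by positivity) hP 4
  have hb12 : b ^ 12 ≤ (e ^ 24 * a) ^ 12 := pow_le_pow_left₀ hb.le h 12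
  rw [div_mul_eq_mul_div, div_le_iff₀ (by positivity)]
  calc (X * b) ^ 6 * (d₁ * d₂) ^ 3 ≤ (X * b) ^ 6 * (b * b) ^ 3 := by gcongr
    _ = X ^ 6 * b ^ 12 := by ring
    _ ≤ X ^ 6 * (e ^ 24 * a) ^ 12 := by gcongr
    _ = X ^ 6 * e ^ 288 * (a ^ 3) ^ 4 := by ring
    _ ≤ X ^ 6 * e ^ 300 * P ^ 4 := by
        gcongr
        norm_num

/-- `b < ρ` -/
lemma caseC {b d₁ d₂ X P R : ℝ} (hb : 0 < b) (h1 : 0 ≤ d₁) (h1b : d₁ ≤ b) (h2 : 0 ≤ d₂)
    (h2b : d₂ ≤ b) (hX : 0 < X) (hR : 0 < R) (hP : R ^ 3 ≤ P) (h : b < R) :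
    (X * b) ^ 6 / P ^ 4 * (d₁ * d₂) ^ 3 ≤ X ^ 6 := by
  have hP0 : 0 < P := lt_of_lt_of_le (by positivity) hP
  have h12 : (d₁ * d₂) ^ 3 ≤ (b * b) ^ 3 :=
    pow_le_pow_left₀ (by positivity) (mul_le_mul h1b h2b h2 hb.le) 3
  have hP4 : (R ^ 3) ^ 4 ≤ P ^ 4 := pow_le_pow_left₀ (by positivity) hP 4
  have h6 : b ^ 12 ≤ R ^ 12 := pow_le_pow_left₀ hb.le h.le 12
  rw [div_mul_eq_mul_div, div_le_iff₀ (by positivity)]
  calc (X * b) ^ 6 * (d₁ * d₂) ^ 3 ≤ (X * b) ^ 6 * (b * b) ^ 3 := by gcongr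
    _ = X ^ 6 * b ^ 12 := by ring
    _ ≤ X ^ 6 * R ^ 12 := by gcongr
    _ = X ^ 6 * (R ^ 3) ^ 4 := by ring
    _ ≤ X ^ 6 * P ^ 4 := by gcongr

/-- `ρ ≤ b` -/
lemma caseD {a b d X e a' q' R : ℝ} (ha : 0 < a) (hb : 0 < b) (h2 : 0 ≤ d) (h2b : d ≤ b) (hX : 0 < X)
    (he : 1 ≤ e) (hR : 0 < R) (hR2 : R ^ 2 = e ^ 4 * b / X) (ha' : R ≤ a')
    (hq' : b ≤ 2 * e ^ 2 * q') (h : X ^ 2 * a ^ 3 ≤ b) :
    (X * b) ^ 6 / (a' * b * q') ^ 4 * (a * d) ^ 3 ≤ 16 * X ^ 6 := by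
  have ha'0 : 0 < a' := hR.trans_le ha'
  have hq0 : 0 < q' := by
    by_contra hc
    have : 2 * e ^ 2 * q' ≤ 0 := mul_nonpos_of_nonneg_of_nonpos (by positivity) (not_lt.1 hc)
    linarith
  have hR4 : R ^ 4 * X ^ 2 = e ^ 8 * b ^ 2 := by
    rw [show R ^ 4 = (R ^ 2) ^ 2 by ring, hR2]
    field_simp
  have h3 : R ^ 4 ≤ a' ^ 4 := pow_le_pow_left₀ hR.le ha' 4
  have h4 : b ^ 4 ≤ (2 * e ^ 2 * q') ^ 4 := pow_le_pow_left₀ hb.le hq' 4
  have h5 : b ^ 6 ≤ 16 * X ^ 2 * (a' * q') ^ 4 := by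
    have h6 : e ^ 8 * b ^ 6 ≤ e ^ 8 * (16 * X ^ 2 * (a' * q') ^ 4) := by
      calc e ^ 8 * b ^ 6 = R ^ 4 * X ^ 2 * b ^ 4 := by rw [hR4]; ring
        _ ≤ a' ^ 4 * X ^ 2 * (2 * e ^ 2 * q') ^ 4 := by gcongr
        _ = e ^ 8 * (16 * X ^ 2 * (a' * q') ^ 4) := by ring
    exact le_of_mul_le_mul_left h6 (by positivity)
  have hd3 : d ^ 3 ≤ b ^ 3 := pow_le_pow_left₀ h2 h2b 3
  rw [div_mul_eq_mul_div, div_le_iff₀ (by positivity)]
  have h7 : X ^ 2 * ((X * b) ^ 6 * (a * d) ^ 3) ≤ X ^ 2 * (16 * X ^ 6 * (a' * b * q') ^ 4) := by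
    calc X ^ 2 * ((X * b) ^ 6 * (a * d) ^ 3) = X ^ 6 * b ^ 6 * (X ^ 2 * a ^ 3) * d ^ 3 := by ring
      _ ≤ X ^ 6 * b ^ 6 * b * b ^ 3 := by gcongr
      _ = X ^ 6 * b ^ 4 * b ^ 6 := by ring
      _ ≤ X ^ 6 * b ^ 4 * (16 * X ^ 2 * (a' * q') ^ 4) := by gcongr
      _ = X ^ 2 * (16 * X ^ 6 * (a' * b * q') ^ 4) := by ring
  exact le_of_mul_le_mul_left h7 (by positivity)

/-- the power `3/2` -/
lemma rp {y P : ℝ} (hy : 0 ≤ y) : (y ^ (((3 : ℕ) : ℝ) / 2) / P) ^ 4 = y ^ 6 / P ^ 4 := by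
  rw [div_pow, ← Real.rpow_natCast (y ^ (((3 : ℕ) : ℝ) / 2)), ← Real.rpow_mul hy]
  have : (((3 : ℕ) : ℝ) / 2) * ((4 : ℕ) : ℝ) = ((6 : ℕ) : ℝ) := by norm_num
  rw [this, Real.rpow_natCast]

end NUC

open NUC in
/-- Module NUC. -/
theorem t_NUC : M_NUC := by
  classical
  intro hprm hrgm Φ B hird hwff hA
  have hF := hprm 2 Φ B (by norm_num) hird hwff
  have hG := hrgm 2 Φ B (by norm_num) hird hwff
  refine ⟨16, by norm_num, ?_⟩
  intro ε J x hε hε8 hJ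
  set X : ℝ := 2 ^ J with hXdef
  set e : ℝ := (2 : ℝ) ^ (ε * J) with hedef
  have hX : 0 < X := by positivity
  have he : 1 ≤ e := Real.one_le_rpow (by norm_num) (by positivity)
  have hpow : ∀ n : ℕ, (2 : ℝ) ^ ((n : ℝ) * ε * J) = e ^ n := by
    intro n
    rw [hedef, ← Real.rpow_natCast, ← Real.rpow_mul (by norm_num)]
    congr 1
    ring
  have hX6 : (2 : ℝ) ^ (6 * (J : ℝ)) = X ^ 6 := by
    rw [hXdef, ← pow_mul, ← Real.rpow_natCast]
    congr 1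
    push_cast
    ring
  have hX6e : (2 : ℝ) ^ ((6 + 300 * ε) * J) = X ^ 6 * e ^ 300 := by
    have h1 := hpow 300
    push_cast at h1
    rw [← hX6, ← h1, ← Real.rpow_add (by norm_num)]
    congr 1
    ring
  rw [hX6, hX6e]
  have hb0 : 0 < bx' x := lt_of_lt_of_le (by positivity) (hF.bge J x)
  have hdp := hF.dpos J x
  have hdb := hF.dle J x
  have hR := hF.rpos J x ε
  have hth := hF.tpos J x
  have hR2 : ro ε x ^ 2 = e ^ 4 * bx' x / X := by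
    have h1 := hF.rth J x ε
    have h2 := hpow 4
    push_cast at h2
    rw [div_eq_iff hth.ne', h2] at h1
    rw [h1, th, mul_div_assoc]
  have hcard : Fintype.card {p // p ∈ pos Φ} = 3 := by
    rw [Fintype.card_coe, hA.card]
  obtain ⟨a, hmin, hcases⟩ := hG.tri J ε x
  -- the third element
  have hthird : ∀ s : Finset {p // p ∈ pos Φ}, s.card < 3 → ∃ q, q ∉ s := by
    intro s hs
    obtain ⟨q, -, hq⟩ := Finset.exists_mem_notMem_of_card_lt_card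
      (s := s) (t := Finset.univ) (by rw [Finset.card_univ, hcard]; exact hs)
    exact ⟨q, hq⟩
  obtain ⟨p₂, hp₂⟩ := hthird {a} (by simp)
  have hap₂ : a ≠ p₂ := fun h => hp₂ (by rw [h]; exact Finset.mem_singleton_self _)
  have h24 := hpow 24
  push_cast at h24
  rw [h24] at hcases
  have hXb : 0 ≤ X * bx' x := by positivity
  have e300 : X ^ 6 ≤ X ^ 6 * e ^ 300 :=
    le_mul_of_one_le_right (by positivity) (one_le_pow₀ he)
  have hX6p : 0 ≤ X ^ 6 * e ^ 300 := by positivity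
  rcases hcases with h | h
  · -- the chain packets
    left
    refine ⟨a, p₂, hap₂, h, ?_⟩
    have h1 := caseA (hdp a) (hdb a) (hdp p₂).le (hdb p₂) hX h.hi
    unfold Lb
    refine h1.trans ?_
    have : 0 ≤ X ^ 6 := by positivity
    linarith
  right
  intro hsh
  -- the product
  have hprod : ∀ c : ℝ, 0 ≤ c → (∀ p, c ≤ max (dl x p) (ro ε x)) →
      c ^ 3 ≤ ∏ p : {p // p ∈ pos Φ}, max (dl x p) (ro ε x) := by
    intro c hc h1
    calc c ^ 3 = ∏ _p : {p // p ∈ pos Φ}, c := by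
          rw [Finset.prod_const, Finset.card_univ, hcard]
      _ ≤ _ := Finset.prod_le_prod (fun _ _ => hc) (fun p _ => h1 p)
  rw [hA.card]
  by_cases hB : bx' x ≤ e ^ 24 * dl x a
  · refine ⟨a, p₂, hap₂, ?_⟩
    rw [rp hXb]
    have h1 := caseB (hdp a) (hdb a) (hdp a).le (hdb a) (hdp p₂).le (hdb p₂) hX he
      (hprod (dl x a) (hdp a).le (fun p => (hmin p).trans (le_max_left _ _))) hB
    refine h1.trans ?_
    linarith
  have hD : X ^ 2 * dl x a ^ 3 ≤ bx' x := h.resolve_left hB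
  by_cases hC : bx' x < ro ε x
  · refine ⟨a, p₂, hap₂, ?_⟩
    rw [rp hXb]
    have h1 := caseC hb0 (hdp a).le (hdb a) (hdp p₂).le (hdb p₂) hX hR
      (hprod (ro ε x) hR.le (fun p => le_max_right _ _)) hC
    refine h1.trans ?_
    linarith
  have hC' : ro ε x ≤ bx' x := not_lt.1 hC
  obtain ⟨p, hp⟩ := hF.bat J x
  have hpa : p ≠ a := by
    rintro rfl
    apply hB
    rw [hp]
    exact le_mul_of_one_le_left (hdp p).le (one_le_pow₀ he)
  obtain ⟨q, hq⟩ := hthird {a, p} (lt_of_le_of_lt Finset.card_le_two (by norm_num))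
  have hqa : q ≠ a := fun h => hq (by rw [h]; exact Finset.mem_insert_self _ _)
  have hqp : q ≠ p := fun h => hq (by
    rw [h]
    exact Finset.mem_insert_of_mem (Finset.mem_singleton_self _))
  obtain ⟨θ, hθ⟩ := Set.nonempty_iff_ne_empty.2 hsh
  have hval : ∀ u v : {p // p ∈ pos Φ}, u ≠ v → u.1 ≠ v.1 := fun u v huv h => huv (Subtype.ext h)
  have htri := hA.tri₁ p.1 p.2 a.1 a.2 q.1 q.2 (hval p a hpa) (hval p q hqp.symm)
    (hval a q hqa.symm) θ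
  have n1 := (hθ p).2 (by rw [← hp]; exact hC')
  have n2 := (hθ a).1
  have n3 := (hθ q).1
  have heinv : (2 : ℝ) ^ (-(ε * J)) = e⁻¹ := by
    rw [hedef, Real.rpow_neg (by norm_num)]
  rw [heinv, ← hp] at n1
  rw [← hedef] at n2 n3
  have he0 : 0 < e := by linarith
  have hmx : max (dl x a) (ro ε x) ≤ max (dl x q) (ro ε x) := max_le_max (hmin q) le_rfl
  have hq' : bx' x ≤ 2 * e ^ 2 * max (dl x q) (ro ε x) := by
    have h1 : e⁻¹ * bx' x ≤ 2 * e * max (dl x q) (ro ε x) := by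
      have h2 : e * max (dl x a) (ro ε x) ≤ e * max (dl x q) (ro ε x) :=
        mul_le_mul_of_nonneg_left hmx he0.le
      linarith
    have h3 : e * (e⁻¹ * bx' x) ≤ e * (2 * e * max (dl x q) (ro ε x)) :=
      mul_le_mul_of_nonneg_left h1 he0.le
    rw [← mul_assoc, mul_inv_cancel₀ he0.ne', one_mul] at h3
    refine h3.trans (le_of_eq ?_)
    ring
  have huniv : (Finset.univ : Finset {p // p ∈ pos Φ}) = {a, p, q} := by
    symm
    apply Finset.eq_univ_of_card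
    rw [hcard, Finset.card_eq_three.2 ⟨a, p, q, hpa.symm, hqa.symm, hqp.symm, rfl⟩]
  have hpr : ∏ p : {p // p ∈ pos Φ}, max (dl x p) (ro ε x) =
      max (dl x a) (ro ε x) * bx' x * max (dl x q) (ro ε x) := by
    rw [huniv, Finset.prod_insert, Finset.prod_insert, Finset.prod_singleton, ← hp,
      max_eq_left hC']
    · ring
    · simp only [Finset.mem_singleton]
      exact hqp.symm
    · simp only [Finset.mem_insert, Finset.mem_singleton, not_or]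
      exact ⟨hpa.symm, hqa.symm⟩
  refine ⟨a, q, hqa.symm, ?_⟩
  rw [rp hXb, hpr]
  have h1 := caseD (hdp a) hb0 (hdp q).le (hdb q) hX he hR hR2 (le_max_right (dl x a) _) hq' hD
  refine h1.trans ?_
  linarith

end

end STZ3
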