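import Pool.Agent.STZ3.StF

/-!
# Numerology of the low levels: module NUM
-/

namespace STZ3

open STZ LGR MeasureTheory Matrix Filter

open scoped ComplexConjugate Matrix Real Topology

noncomputable section

namespace NUM

/-- the inequality for positive numbers -/
theorem core {ι : Type} [Fintype ι] [DecidableEq ι] (h : ℕ) (hcard : Fintype.card ι = 2 * h)
    (hh : 2 ≤ h) (δ : ι → ℝ) (b X Y ρ K : ℝ) (hX : 0 < X) (hY : 1 ≤ Y) (hK : 1 ≤ K)
    (hδ : ∀ p, 0 < δ p) (hδb : ∀ p, δ p ≤ b) (hρ : 0 < ρ) (hρ2 : ρ ^ 2 = Y ^ 4 * (b / X))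
    (hA : ρ ≤ b → ∀ T : Finset ι, (∀ p ∈ T, max (δ p) ρ ≤ b / (K * Y ^ 2)) → T.card ≤ h) :
    ∃ p₁ p₂ : ι, p₁ ≠ p₂ ∧
      ((X * b) ^ h / ∏ p, max (δ p) ρ) ^ 4 * (δ p₁ * δ p₂) ^ (2 * h) ≤
        K ^ (8 * h) * (X ^ (4 * h) * Y ^ (16 * h)) := by
  have hne : Nonempty ι := Fintype.card_pos_iff.1 (by omega)
  obtain ⟨p₁, hp₁⟩ := Finite.exists_min δ
  have hne2 : (Finset.univ.erase p₁).Nonempty := by
    rw [← Finset.card_pos, Finset.card_erase_of_mem (Finset.mem_univ _), Finset.card_univ]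
    omega
  obtain ⟨p₂, hp₂, hp₂'⟩ := Finset.exists_min_image (Finset.univ.erase p₁) δ hne2
  have hp₂m : ∀ p, p ≠ p₁ → δ p₂ ≤ δ p := fun p hp =>
    hp₂' p (Finset.mem_erase.2 ⟨hp, Finset.mem_univ _⟩)
  refine ⟨p₁, p₂, (Finset.ne_of_mem_erase hp₂).symm, ?_⟩
  set Q : ℝ := ∏ p, max (δ p) ρ with hQd
  have hQ : 0 < Q := Finset.prod_pos fun p _ => lt_max_of_lt_right hρ
  have hb : 0 < b := (hδ p₁).trans_le (hδb p₁)
  have hδ₁ := hδ p₁
  have hδ₂ := hδ p₂
  have hK0 : 0 < K := by linarith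
  have hY0 : 0 < Y := by linarith
  have h12 : δ p₁ ≤ δ p₂ := hp₁ p₂
  suffices hs : b ^ (4 * h) * (δ p₁ * δ p₂) ^ (2 * h) ≤ K ^ (8 * h) * Y ^ (16 * h) * Q ^ 4 by
    have e1 : ((X * b) ^ h / Q) ^ 4 * (δ p₁ * δ p₂) ^ (2 * h) =
        X ^ (4 * h) * (b ^ (4 * h) * (δ p₁ * δ p₂) ^ (2 * h)) / Q ^ 4 := by
      rw [div_pow, mul_pow, mul_pow, ← pow_mul, ← pow_mul, mul_comm h 4]
      ring
    rw [e1, div_le_iff₀ (by positivity)]
    calc X ^ (4 * h) * (b ^ (4 * h) * (δ p₁ * δ p₂) ^ (2 * h))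
        ≤ X ^ (4 * h) * (K ^ (8 * h) * Y ^ (16 * h) * Q ^ 4) :=
          mul_le_mul_of_nonneg_left hs (by positivity)
      _ = _ := by ring
  have hKY : 1 ≤ K ^ (8 * h) * Y ^ (16 * h) :=
    one_le_mul_of_one_le_of_one_le (one_le_pow₀ hK) (one_le_pow₀ hY)
  rcases lt_or_ge b ρ with hc | hc
  · have h1 : b < Y ^ 4 / X := by
      have h2 : b ^ 2 < ρ ^ 2 := pow_lt_pow_left₀ hc hb.le two_ne_zero
      rw [hρ2] at h2
      have h3 : b * b < (Y ^ 4 / X) * b := by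
        calc b * b = b ^ 2 := by ring
          _ < Y ^ 4 * (b / X) := h2
          _ = _ := by ring
      exact lt_of_mul_lt_mul_right h3 hb.le
    have h2 : ρ ^ (2 * h) ≤ Q := by
      rw [← hcard, ← Finset.card_univ, ← Finset.prod_const]
      exact Finset.prod_le_prod (fun _ _ => hρ.le) fun _ _ => le_max_right _ _
    have h3 : (δ p₁ * δ p₂) ^ (2 * h) ≤ (Y ^ 4 / X) ^ (4 * h) := by
      have h4 : δ p₁ * δ p₂ ≤ (Y ^ 4 / X) ^ 2 := by
        rw [sq]
        exact mul_le_mul ((hδb _).trans h1.le) ((hδb _).trans h1.le) hδ₂.le (by positivity)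
      refine (pow_le_pow_left₀ (by positivity) h4 _).trans (le_of_eq ?_)
      rw [← pow_mul]
      congr 1
      ring
    calc b ^ (4 * h) * (δ p₁ * δ p₂) ^ (2 * h) ≤ b ^ (4 * h) * (Y ^ 4 / X) ^ (4 * h) :=
          mul_le_mul_of_nonneg_left h3 (by positivity)
      _ = (ρ ^ 2) ^ (4 * h) := by
        rw [← mul_pow, hρ2]
        congr 1
        ring
      _ = (ρ ^ (2 * h)) ^ 4 := by
        rw [← pow_mul, ← pow_mul]
        congr 1
        ring
      _ ≤ Q ^ 4 := pow_le_pow_left₀ (by positivity) h2 _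
      _ = 1 * Q ^ 4 := (one_mul _).symm
      _ ≤ _ := mul_le_mul_of_nonneg_right hKY (by positivity)
  · classical
    obtain ⟨D, hD⟩ : ∃ D : ℝ, D = K * Y ^ 2 := ⟨_, rfl⟩
    have hD0 : 0 < D := by rw [hD]; positivity
    rw [← hD] at hA
    set A : Finset ι := Finset.univ.filter fun p => max (δ p) ρ ≤ b / D with hAd
    have hAc : A.card ≤ h := hA hc A fun p hp => (Finset.mem_filter.1 hp).2
    obtain ⟨T, hAT, hT⟩ := Finset.exists_superset_card_eq hAc (by omega : h ≤ Fintype.card ι)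
    have h1 : (b / D) ^ h ≤ ∏ p ∈ Tᶜ, max (δ p) ρ := by
      have hTc : Tᶜ.card = h := by
        rw [Finset.card_compl, hT, hcard]
        omega
      calc (b / D) ^ h = ∏ _p ∈ Tᶜ, (b / D) := by rw [Finset.prod_const, hTc]
        _ ≤ _ := by
          refine Finset.prod_le_prod (fun _ _ => by positivity) fun p hp => ?_
          rw [Finset.mem_compl] at hp
          have hpA : p ∉ A := fun h' => hp (hAT h')
          rw [hAd, Finset.mem_filter, not_and] at hpA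
          exact (not_le.1 (hpA (Finset.mem_univ _))).le
    have h2 : δ p₁ * δ p₂ ^ (h - 1) ≤ ∏ p ∈ T, max (δ p) ρ := by
      refine le_trans ?_ (Finset.prod_le_prod (fun p _ => (hδ p).le) fun p _ => le_max_left _ _)
      by_cases hp : p₁ ∈ T
      · rw [← Finset.mul_prod_erase T δ hp]
        refine mul_le_mul_of_nonneg_left ?_ hδ₁.le
        have hc1 : (T.erase p₁).card = h - 1 := by rw [Finset.card_erase_of_mem hp, hT]
        rw [← hc1, ← Finset.prod_const]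
        exact Finset.prod_le_prod (fun _ _ => hδ₂.le) fun p hp' =>
          hp₂m p (Finset.ne_of_mem_erase hp')
      · calc δ p₁ * δ p₂ ^ (h - 1) ≤ δ p₂ * δ p₂ ^ (h - 1) :=
            mul_le_mul_of_nonneg_right h12 (by positivity)
          _ = δ p₂ ^ T.card := by
            rw [hT, ← pow_succ']
            congr 1
            omega
          _ = ∏ _p ∈ T, δ p₂ := by rw [Finset.prod_const]
          _ ≤ _ := Finset.prod_le_prod (fun _ _ => hδ₂.le) fun p hp' =>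
            hp₂m p fun h' => hp (h' ▸ hp')
    have h3 : (δ p₁ * δ p₂ ^ (h - 1)) * (b / D) ^ h ≤ Q := by
      rw [hQd, ← Finset.prod_mul_prod_compl T]
      exact mul_le_mul h2 h1 (by positivity) (Finset.prod_nonneg fun p _ =>
        (hρ.le.trans (le_max_right _ _)))
    have h4 : ((δ p₁ * δ p₂ ^ (h - 1)) * (b / D) ^ h) ^ 4 ≤ Q ^ 4 :=
      pow_le_pow_left₀ (by positivity) h3 4
    have h5 : (δ p₁ * δ p₂) ^ (2 * h) ≤ δ p₁ ^ 4 * δ p₂ ^ (4 * (h - 1)) := by
      obtain ⟨k, rfl⟩ : ∃ k, h = k + 2 := ⟨h - 2, by omega⟩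
      have e1 : (δ p₁ * δ p₂) ^ (2 * (k + 2)) =
          δ p₁ ^ 4 * (δ p₁ ^ (2 * k) * δ p₂ ^ (2 * k + 4)) := by ring
      have e2 : δ p₂ ^ (4 * (k + 2 - 1)) = δ p₂ ^ (2 * k) * δ p₂ ^ (2 * k + 4) := by
        rw [← pow_add]
        congr 1
        omega
      rw [e1, e2]
      refine mul_le_mul_of_nonneg_left ?_ (by positivity)
      exact mul_le_mul_of_nonneg_right (pow_le_pow_left₀ hδ₁.le h12 _) (by positivity)
    have h6 : D ^ (4 * h) ≤ K ^ (8 * h) * Y ^ (16 * h) := by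
      rw [hD, mul_pow, ← pow_mul]
      refine mul_le_mul (pow_le_pow_right₀ hK (by omega)) (pow_le_pow_right₀ hY (by omega))
        (by positivity) (by positivity)
    calc b ^ (4 * h) * (δ p₁ * δ p₂) ^ (2 * h)
        ≤ b ^ (4 * h) * (δ p₁ ^ 4 * δ p₂ ^ (4 * (h - 1))) :=
          mul_le_mul_of_nonneg_left h5 (by positivity)
      _ = D ^ (4 * h) * ((δ p₁ * δ p₂ ^ (h - 1)) * (b / D) ^ h) ^ 4 := by
        have e0 : (δ p₂ ^ (h - 1)) ^ 4 = δ p₂ ^ (4 * (h - 1)) := by rw [← pow_mul, mul_comm]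
        have e00 : ((b / D) ^ h) ^ 4 = b ^ (4 * h) / D ^ (4 * h) := by
          rw [← pow_mul, mul_comm h 4, div_pow]
        rw [mul_pow, mul_pow, e0, e00]
        field_simp
      _ ≤ D ^ (4 * h) * Q ^ 4 := mul_le_mul_of_nonneg_left h4 (by positivity)
      _ ≤ _ := mul_le_mul_of_nonneg_right h6 (by positivity)

end NUM

open NUM in
theorem t_NUM : M_NUM := by
  intro hPRM hFAR Φ B hΦ hW hn
  have hP := hPRM 2 Φ B (by norm_num) hΦ hW
  obtain ⟨⟨h, hh⟩, CF, hCF, hfar⟩ := hFAR Φ B hΦ hW hn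
  set n : ℕ := (pos Φ).card with hnd
  have hn2 : n = 2 * h := by omega
  have hh2 : 2 ≤ h := by omega
  have hcard : Fintype.card {p // p ∈ pos Φ} = 2 * h := by
    rw [Fintype.card_coe, ← hnd, hn2]
  refine ⟨(2 * CF) ^ (8 * h), by positivity, ?_⟩
  intro ε J x hε hε8 hJ hsh
  obtain ⟨θ, hθ⟩ := Set.nonempty_iff_ne_empty.2 hsh
  set X : ℝ := (2 : ℝ) ^ J with hX
  have hX0 : 0 < X := by positivity
  set Y : ℝ := (2 : ℝ) ^ (ε * J) with hYd
  have hY1 : 1 ≤ Y := Real.one_le_rpow one_le_two (by positivity)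
  have hY0 : 0 < Y := by linarith
  have hYn : Y⁻¹ = (2 : ℝ) ^ (-(ε * J)) := by rw [hYd, Real.rpow_neg two_pos.le]
  set b : ℝ := bx' x with hb
  obtain ⟨p₀, hp₀⟩ := hP.bat J x
  have hb0 : 0 < b := by rw [hb, hp₀]; exact hP.dpos J x p₀
  have hρ0 := hP.rpos J x ε
  have hρ2 : ro ε x ^ 2 = Y ^ 4 * (b / X) := by
    have e1 : (2 : ℝ) ^ (2 * ε * J) = Y ^ 2 := by
      rw [hYd, ← Real.rpow_natCast, ← Real.rpow_mul two_pos.le]
      congr 1
      push_cast
      ring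
    have e2 : 0 ≤ b / X := by positivity
    unfold ro th
    rw [e1, mul_pow, ← hX, ← hb, Real.sq_sqrt e2, ← pow_mul]
  obtain ⟨p₁, p₂, h12, hmain⟩ := core h hcard hh2 (fun p => dl x p) b X Y (ro ε x) (2 * CF) hX0 hY1
    (by linarith) (fun p => hP.dpos J x p) (fun p => hP.dle J x p) hρ0 hρ2 (by
      intro hρb T hT
      by_contra hcon
      have hTc : n < 2 * T.card := by omega
      have h1 := hfar θ (b / (2 * CF * Y)) T hTc (by
        intro p hp
        refine (hθ p).1.trans ?_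
        rw [← hYd]
        calc Y * max (dl x p) (ro ε x) ≤ Y * (b / (2 * CF * Y ^ 2)) :=
              mul_le_mul_of_nonneg_left (hT p hp) hY0.le
          _ = _ := by field_simp) p₀.1 p₀.2
      have h2 := (hθ p₀).2 (by rw [← hp₀]; exact hρb)
      rw [← hYn, ← hp₀, ← hb] at h2
      have h3 : CF * (b / (2 * CF * Y)) = Y⁻¹ * b / 2 := by field_simp
      rw [h3] at h1
      have h4 : 0 < Y⁻¹ * b := by positivity
      linarith)
  refine ⟨p₁, p₂, h12, ?_⟩
  have e1 : (X * b) ^ ((n : ℝ) / 2) = (X * b) ^ h := by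
    rw [← Real.rpow_natCast]
    congr 1
    rw [hn2]
    push_cast
    ring
  have e2 : (2 : ℝ) ^ ((2 * (n : ℝ) + 8 * n * ε) * J) = X ^ (4 * h) * Y ^ (16 * h) := by
    rw [hX, hYd, ← pow_mul, ← Real.rpow_natCast, ← Real.rpow_natCast, ← Real.rpow_mul two_pos.le,
      ← Real.rpow_add two_pos]
    congr 1
    rw [hn2]
    push_cast
    ring
  rw [e1, e2, hn2]
  exact hmain

end

end STZ3
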