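import Pool.Agent.STZ3.StS

/-!
# Module NXS
-/

namespace STZ3

open STZ LGR MeasureTheory Matrix Filter

open scoped ComplexConjugate Matrix Real Topology

noncomputable section

namespace NXS

theorem l_eq {r : ℕ} {Φ : RT r} (hRV : RV (rd Φ) (pos Φ)) (i : Fin r) :
    ∃ p ∈ pos Φ, ∀ l : Fin r → ℤ, p.2 ⬝ᵥ l = l i := by
  obtain ⟨p, hp, h⟩ := hRV.sim i
  refine ⟨p, hp, fun l => ?_⟩
  rw [h]
  simp

theorem qsupp {r : ℕ} {Φ : RT r} (hRV : RV (rd Φ) (pos Φ)) {X : ℕ} {q : (Fin r → ℤ) → ℝ} (hq : QH Φ X q)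
    {l : Fin r → ℤ} {i : Fin r} (h : (X : ℤ) < |l i|) : q l = 0 := by
  by_contra hne
  obtain ⟨p, hp, h1⟩ := l_eq hRV i
  have h2 := hq.supp l hne p hp
  rw [h1] at h2
  omega

theorem gsupp {r : ℕ} {Φ : RT r} (hRV : RV (rd Φ) (pos Φ)) {X : ℕ} {q : (Fin r → ℤ) → ℝ} (hq : QH Φ X q)
    (t : ℝ) {l : Fin r → ℤ} {i : Fin r} (h : (X : ℤ) < |l i|) : gt Φ q t l = 0 := by
  unfold gt
  rw [qsupp hRV hq h]
  simp

theorem qi_inv {r : ℕ} {Φ : RT r} (hRV : RV (rd Φ) (pos Φ)) (X : ℕ) (w : Matrix (Fin r) (Fin r) ℤ) (hw : w ∈ WF Φ)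
    (l : Fin r → ℤ) : qi Φ X (w *ᵥ l) = qi Φ X l := by
  have key : ∀ w ∈ WF Φ, ∀ l : Fin r → ℤ, (∀ p ∈ pos Φ, |p.2 ⬝ᵥ l| ≤ (X : ℤ)) →
      ∀ p ∈ pos Φ, |p.2 ⬝ᵥ (w *ᵥ l)| ≤ (X : ℤ) := by
    intro w hw l h p hp
    obtain ⟨q, hq, h1 | h1⟩ := hRV.cperm w hw p hp
    · rw [h1]; exact h q hq
    · rw [h1, abs_neg]; exact h q hq
  obtain ⟨w', hw', h1⟩ := hRV.W_inv w hw
  have hiff : (∀ p ∈ pos Φ, |p.2 ⬝ᵥ (w *ᵥ l)| ≤ (X : ℤ)) ↔ ∀ p ∈ pos Φ, |p.2 ⬝ᵥ l| ≤ (X : ℤ) := by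
    constructor
    · intro h
      have h2 := key w' hw' (w *ᵥ l) h
      rw [Matrix.mulVec_mulVec, h1, Matrix.one_mulVec] at h2
      exact h2
    · exact key w hw l
  unfold qi
  simp only [hiff]

theorem sumx {r : ℕ} {Φ : RT r} {m : ℕ} {C : ℝ} (hC : CFF m C) (J : ℕ) (k : {p // p ∈ pos Φ} → ℤ) :
    ∑ x : {p // p ∈ pos Φ} → Fin (J + 1), ∏ p, cf m J (x p).val (k p) = if k = 0 then 1 else 0 := by
  have h1 : ∑ x : {p // p ∈ pos Φ} → Fin (J + 1), ∏ p, cf m J (x p).val (k p) =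
      ∏ p : {p // p ∈ pos Φ}, ∑ j : Fin (J + 1), cf m J j.val (k p) := by
    rw [Finset.prod_univ_sum]
    simp [Fintype.piFinset_univ]
  rw [h1]
  have h2 : ∀ p : {p // p ∈ pos Φ}, ∑ j : Fin (J + 1), cf m J j.val (k p) = if k p = 0 then 1 else 0 := by
    intro p
    rw [Fin.sum_univ_eq_sum_range (fun j => cf m J j (k p)) (J + 1)]
    exact hC.sum J (k p)
  simp only [h2]
  by_cases hk : k = 0
  · simp [hk]
  · rw [if_neg hk]
    obtain ⟨p, hp⟩ := Function.ne_iff.mp hk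
    exact Finset.prod_eq_zero (Finset.mem_univ p) (if_neg hp)

theorem main (hRVOF : S_RVOF) {r : ℕ} {Φ : RT r} {B : Matrix (Fin r) (Fin r) ℤ} (hr : 1 ≤ r) (hI : IRD Φ B)
    {m : ℕ} {C : ℝ} (hC : CFF m C) :
    NXF Φ m (1 + 2 * m ^ 2 * ∑ p : {p // p ∈ pos Φ}, ∑ i, (p.1.1 i).natAbs) := by
  have hRV := hRVOF r Φ B hr hI
  refine ⟨?_, ?_, ?_, ?_, ?_, ?_⟩
  · intro X
    refine ⟨?_, ?_, ?_, ?_⟩
    · intro l
      unfold qi
      split_ifs <;> simp
    · intro l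
      unfold qi
      split_ifs <;> simp
    · intro w hw l
      exact qi_inv hRV X w hw l
    · intro l hl
      unfold qi at hl
      by_contra hne
      rw [if_neg hne] at hl
      exact hl rfl
  · intro J q t ν
    unfold nx
    rw [Finset.sum_comm]
    have h1 : ∀ k : {p // p ∈ pos Φ} → ℤ,
        ∑ x : {p // p ∈ pos Φ} → Fin (J + 1), (∏ p, cf m J (x p).val (k p)) * gt Φ q t (ν - rs (pos Φ) k) =
          (if k = 0 then 1 else 0) * gt Φ q t (ν - rs (pos Φ) k) := by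
      intro k
      rw [← Finset.sum_mul, sumx hC]
    simp only [h1]
    rw [Finset.sum_eq_single (0 : {p // p ∈ pos Φ} → ℤ)]
    · have : rs (pos Φ) 0 = 0 := by
        unfold rs
        simp
      rw [this]
      simp
    · intro k _ hk
      rw [if_neg hk, zero_mul]
    · intro h
      exfalso
      apply h
      unfold kB
      rw [Fintype.mem_piFinset]
      intro p
      rw [Finset.mem_Icc]
      simp only [Pi.zero_apply]
      have : (0 : ℤ) ≤ ((2 * m ^ 2 * 2 ^ J : ℕ) : ℤ) := Int.natCast_nonneg _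
      constructor
      · linarith
      · exact this
  · intro J q hq x t ν i hi
    unfold nx
    refine Finset.sum_eq_zero fun k hk => ?_
    have h0 : gt Φ q t (ν - rs (pos Φ) k) = 0 := by
      refine gsupp hRV hq t (i := i) ?_
      have hk' : ∀ p, |k p| ≤ 2 * (m : ℤ) ^ 2 * 2 ^ J := by
        intro p
        unfold kB at hk
        rw [Fintype.mem_piFinset] at hk
        have := hk p
        rw [Finset.mem_Icc] at this
        push_cast at this
        exact abs_le.mpr this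
      have h1 : |rs (pos Φ) k i| ≤ 2 * (m : ℤ) ^ 2 * 2 ^ J * ((∑ p : {p // p ∈ pos Φ}, ∑ i, (p.1.1 i).natAbs : ℕ) : ℤ) := by
        have : rs (pos Φ) k i = ∑ p : {p // p ∈ pos Φ}, k p * p.1.1 i := by
          unfold rs
          simp [Finset.sum_apply]
        rw [this]
        push_cast
        rw [Finset.mul_sum]
        refine (Finset.abs_sum_le_sum_abs _ _).trans (Finset.sum_le_sum fun p _ => ?_)
        rw [abs_mul]
        refine mul_le_mul (hk' p) ?_ (abs_nonneg _) (by positivity)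
        exact Finset.single_le_sum (f := fun i => |p.1.1 i|) (fun i _ => abs_nonneg _) (Finset.mem_univ i)
      push_cast at hi h1 ⊢
      have h2 : |ν i| ≤ |(ν - rs (pos Φ) k) i| + |rs (pos Φ) k i| := by
        have : ν i = (ν - rs (pos Φ) k) i + rs (pos Φ) k i := by simp
        calc |ν i| = |(ν - rs (pos Φ) k) i + rs (pos Φ) k i| := by rw [← this]
          _ ≤ _ := abs_add_le _ _
      have h3 : (1 + 2 * (m : ℤ) ^ 2 * ∑ p : {p // p ∈ pos Φ}, ∑ i, |p.1.1 i|) * 2 ^ J =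
          2 ^ J + 2 * (m : ℤ) ^ 2 * 2 ^ J * ∑ p : {p // p ∈ pos Φ}, ∑ i, |p.1.1 i| := by ring
      rw [h3] at hi
      linarith
    rw [h0, mul_zero]
  · intro X q hq w hw t l
    unfold gt
    rw [hq.inv w hw l, hRV.Q_W w hw l]
  · intro X q hq t l i hi
    exact gsupp hRV hq t hi
  · intro J q x ν
    unfold nx
    refine continuous_finsetSum _ fun k _ => ?_
    refine continuous_const.mul ?_
    unfold gt eu
    fun_prop

end NXS

theorem t_NXS : M_NXS := by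
  intro hRV r Φ B hr hI _ m C _ hC
  exact ⟨_, NXS.main hRV hr hI hC⟩

end

end STZ3
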