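import Pool.Agent.STZ3.StS

/-!
# PLA: Plancherel on the torus orbits
-/

set_option autoImplicit false

namespace STZ3

open STZ LGR MeasureTheory Matrix Filter

open scoped ComplexConjugate Matrix Real Topology Pointwise

noncomputable section

namespace PLA

/-! ### periodic functions on the cube -/

theorem span_int {r : ℕ} {x : Fin r → ℝ}
    (hx : x ∈ Submodule.span ℤ (Set.range (Pi.basisFun ℝ (Fin r)))) :
    ∃ n : Fin r → ℤ, x = fun j => (n j : ℝ) := by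
  induction hx using Submodule.span_induction with
  | mem y hy =>
    obtain ⟨i, rfl⟩ := hy
    refine ⟨Pi.single i 1, ?_⟩
    funext j
    rw [Pi.basisFun_apply]
    by_cases h : j = i
    · subst h
      simp
    · simp [h]
  | zero => exact ⟨0, by funext j; simp⟩
  | add y z _ _ hy hz =>
    obtain ⟨n, rfl⟩ := hy
    obtain ⟨m, rfl⟩ := hz
    refine ⟨n + m, ?_⟩
    funext j
    simp
  | smul a y _ hy =>
    obtain ⟨n, rfl⟩ := hy
    refine ⟨a • n, ?_⟩
    funext j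
    simp

theorem per_int {r : ℕ} (g : (Fin r → ℝ) → ℂ)
    (hg : ∀ (θ : Fin r → ℝ) (n : Fin r → ℤ), g (θ + fun j => (n j : ℝ)) = g θ) (ζ : Fin r → ℝ) :
    ∫ θ in Set.Icc (0 : Fin r → ℝ) 1, g (θ + ζ) = ∫ θ in Set.Icc (0 : Fin r → ℝ) 1, g θ := by
  set b := Pi.basisFun ℝ (Fin r) with hb
  have hF := ZSpan.isAddFundamentalDomain' b (volume : Measure (Fin r → ℝ))
  have hs : ZSpan.fundamentalDomain b = Set.pi Set.univ fun _ => Set.Ico (0 : ℝ) 1 :=
    ZSpan.fundamentalDomain_pi_basisFun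
  have hae : ZSpan.fundamentalDomain b =ᵐ[volume] Set.Icc (0 : Fin r → ℝ) 1 := by
    rw [hs]
    exact Measure.univ_pi_Ico_ae_eq_Icc
  rw [← setIntegral_congr_set hae, ← setIntegral_congr_set hae]
  have hT := hF.vadd_of_comm (G' := Fin r → ℝ) ζ
  have hcn : Countable (Submodule.span ℤ (Set.range b)).toAddSubgroup :=
    inferInstanceAs (Countable (Submodule.span ℤ (Set.range b)))
  have h1 : ∫ θ in ζ +ᵥ ZSpan.fundamentalDomain b, g θ =
      ∫ θ in ZSpan.fundamentalDomain b, g θ := by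
    refine hT.setIntegral_eq hF ?_
    rintro ⟨x, hx⟩ θ
    obtain ⟨n, hn⟩ := span_int (r := r) hx
    show g (x + θ) = g θ
    rw [hn, add_comm]
    exact hg θ n
  rw [← h1]
  have h2 := (measurePreserving_vadd ζ (volume : Measure (Fin r → ℝ))).setIntegral_image_emb
    (measurableEmbedding_const_vadd ζ) g (ZSpan.fundamentalDomain b)
  rw [Set.image_vadd] at h2
  rw [h2]
  refine integral_congr_ae (Filter.Eventually.of_forall fun θ => ?_)
  simp only [vadd_eq_add, add_comm]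

theorem vol_one (r : ℕ) : volume (Set.Icc (0 : Fin r → ℝ) 1) = 1 := by
  rw [Real.volume_Icc_pi]
  simp

instance prob (r : ℕ) : IsProbabilityMeasure (volume.restrict (Set.Icc (0 : Fin r → ℝ) 1)) :=
  ⟨by rw [Measure.restrict_apply_univ, vol_one]⟩

/-! ### exponentials -/

theorem dz_cont {r : ℕ} (κ : Fin r → ℤ) : Continuous (dz κ) := by
  unfold dz
  fun_prop

theorem eu_cont : Continuous eu := by
  unfold eu
  fun_prop

theorem eu_add (x y : ℝ) : eu (x + y) = eu x * eu y := by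
  unfold eu
  rw [← Complex.exp_add]
  congr 1
  push_cast
  ring

theorem eu_int (n : ℤ) : eu n = 1 := by
  unfold eu
  rw [Complex.exp_eq_one_iff]
  exact ⟨n, by push_cast; ring⟩

theorem norm_eu (x : ℝ) : ‖eu x‖ = 1 := by
  unfold eu
  have : (2 * π * x * Complex.I : ℂ) = ((2 * π * x : ℝ) : ℂ) * Complex.I := by push_cast; ring
  rw [this, Complex.norm_exp_ofReal_mul_I]

theorem conj_eu (x : ℝ) : conj (eu x) = eu (-x) := by
  unfold eu
  rw [← Complex.exp_conj]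
  congr 1
  simp only [map_mul, Complex.conj_ofReal, Complex.conj_I, map_ofNat]
  push_cast
  ring

theorem dz_add {r : ℕ} (l : Fin r → ℤ) (θ φ : Fin r → ℝ) : dz l (θ + φ) = dz l θ + dz l φ := by
  unfold dz
  rw [← Finset.sum_add_distrib]
  refine Finset.sum_congr rfl fun i _ => ?_
  rw [Pi.add_apply, mul_add]

theorem dz_int {r : ℕ} (l n : Fin r → ℤ) : dz l (fun j => (n j : ℝ)) = ((∑ i, l i * n i : ℤ) : ℝ) := by
  unfold dz
  push_cast
  rfl

theorem dz_sub {r : ℕ} (l m : Fin r → ℤ) (θ : Fin r → ℝ) : dz (l - m) θ = dz l θ + -(dz m θ) := by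
  unfold dz
  rw [← Finset.sum_neg_distrib, ← Finset.sum_add_distrib]
  refine Finset.sum_congr rfl fun i _ => ?_
  rw [Pi.sub_apply]
  push_cast
  ring

/-! ### Bessel's inequality on the cube -/

theorem cube_int {r : ℕ} {E : Type} [NormedAddCommGroup E] {f : (Fin r → ℝ) → E}
    (hf : Continuous f) : Integrable f (volume.restrict (Set.Icc (0 : Fin r → ℝ) 1)) :=
  hf.continuousOn.integrableOn_compact isCompact_Icc

theorem bessel (hT : S_TPOL) {r : ℕ} (T : Finset (Fin r → ℤ)) (f : (Fin r → ℝ) → ℂ)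
    (hf : Continuous f) :
    ∑ l ∈ T, ‖∫ θ in Set.Icc (0 : Fin r → ℝ) 1, f θ * eu (-(dz l θ))‖ ^ 2 ≤
      ∫ θ in Set.Icc (0 : Fin r → ℝ) 1, ‖f θ‖ ^ 2 := by
  classical
  have horth := (hT r).1
  set c : (Fin r → ℤ) → ℂ := fun l => ∫ θ in Set.Icc (0 : Fin r → ℝ) 1, f θ * eu (-(dz l θ))
    with hc
  set s : (Fin r → ℝ) → ℂ := fun θ => ∑ l ∈ T, c l * eu (dz l θ) with hs
  have he : ∀ l : Fin r → ℤ, Continuous fun θ : Fin r → ℝ => eu (dz l θ) := fun l =>
    eu_cont.comp (dz_cont l)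
  have he' : ∀ l : Fin r → ℤ, Continuous fun θ : Fin r → ℝ => eu (-(dz l θ)) := fun l =>
    eu_cont.comp (dz_cont l).neg
  have hsc : Continuous s := continuous_finsetSum _ fun l _ => continuous_const.mul (he l)
  have hcj : Continuous fun θ => conj (s θ) := Complex.continuous_conj.comp hsc
  have hcf : Continuous fun θ => conj (f θ) := Complex.continuous_conj.comp hf
  have hconj : ∀ θ, conj (s θ) = ∑ l ∈ T, conj (c l) * eu (-(dz l θ)) := by
    intro θ
    simp only [hs, map_sum, map_mul, conj_eu]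
  have hB : ∫ θ in Set.Icc (0 : Fin r → ℝ) 1, f θ * conj (s θ) = ∑ l ∈ T, conj (c l) * c l := by
    have e1 : ∀ θ, f θ * conj (s θ) = ∑ l ∈ T, conj (c l) * (f θ * eu (-(dz l θ))) := by
      intro θ
      rw [hconj, Finset.mul_sum]
      refine Finset.sum_congr rfl fun l _ => ?_
      ring
    simp only [e1]
    have i1 : ∀ l ∈ T, Integrable (fun θ => conj (c l) * (f θ * eu (-(dz l θ))))
        (volume.restrict (Set.Icc (0 : Fin r → ℝ) 1)) := fun l _ =>
      cube_int (continuous_const.mul (hf.mul (he' l)))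
    rw [integral_finset_sum _ i1]
    refine Finset.sum_congr rfl fun l _ => ?_
    rw [integral_const_mul]
  have hC : ∫ θ in Set.Icc (0 : Fin r → ℝ) 1, s θ * conj (s θ) = ∑ l ∈ T, conj (c l) * c l := by
    have e1 : ∀ θ, s θ * conj (s θ) = ∑ l ∈ T, conj (c l) * (s θ * eu (-(dz l θ))) := by
      intro θ
      rw [hconj, Finset.mul_sum]
      refine Finset.sum_congr rfl fun l _ => ?_
      ring
    simp only [e1]
    have i1 : ∀ l ∈ T, Integrable (fun θ => conj (c l) * (s θ * eu (-(dz l θ))))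
        (volume.restrict (Set.Icc (0 : Fin r → ℝ) 1)) := fun l _ =>
      cube_int (continuous_const.mul (hsc.mul (he' l)))
    rw [integral_finset_sum _ i1]
    refine Finset.sum_congr rfl fun l hl => ?_
    rw [integral_const_mul]
    congr 1
    have e2 : ∀ θ, s θ * eu (-(dz l θ)) = ∑ m ∈ T, c m * eu (dz (m - l) θ) := by
      intro θ
      simp only [hs]
      rw [Finset.sum_mul]
      refine Finset.sum_congr rfl fun m _ => ?_
      rw [dz_sub, eu_add, mul_assoc]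
    simp only [e2]
    have i2 : ∀ m ∈ T, Integrable (fun θ => c m * eu (dz (m - l) θ))
        (volume.restrict (Set.Icc (0 : Fin r → ℝ) 1)) := fun m _ =>
      cube_int (continuous_const.mul (he (m - l)))
    rw [integral_finset_sum _ i2]
    have e3 : ∀ m ∈ T, ∫ θ in Set.Icc (0 : Fin r → ℝ) 1, c m * eu (dz (m - l) θ) =
        if m = l then c m else 0 := by
      intro m _
      rw [integral_const_mul, horth (m - l)]
      by_cases h : m = l
      · rw [if_pos (sub_eq_zero.2 h), if_pos h, mul_one]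
      · rw [if_neg (fun hh => h (sub_eq_zero.1 hh)), if_neg h, mul_zero]
    rw [Finset.sum_congr rfl e3, Finset.sum_ite_eq' T l, if_pos hl]
  have hD : ∫ θ in Set.Icc (0 : Fin r → ℝ) 1, s θ * conj (f θ) = ∑ l ∈ T, conj (c l) * c l := by
    have e1 : ∀ θ, s θ * conj (f θ) = conj (f θ * conj (s θ)) := by
      intro θ
      rw [map_mul, Complex.conj_conj, mul_comm]
    simp only [e1]
    rw [integral_conj, hB, map_sum]
    refine Finset.sum_congr rfl fun l _ => ?_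
    rw [map_mul, Complex.conj_conj, mul_comm]
  have hnsq : ∀ z : ℂ, ((‖z‖ ^ 2 : ℝ) : ℂ) = z * conj z := by
    intro z
    rw [Complex.mul_conj, Complex.normSq_eq_norm_sq]
  have h0 : 0 ≤ ∫ θ in Set.Icc (0 : Fin r → ℝ) 1, ‖f θ - s θ‖ ^ 2 :=
    integral_nonneg fun θ => sq_nonneg _
  have h1 : ((∫ θ in Set.Icc (0 : Fin r → ℝ) 1, ‖f θ - s θ‖ ^ 2 : ℝ) : ℂ) =
      ((∫ θ in Set.Icc (0 : Fin r → ℝ) 1, ‖f θ‖ ^ 2 : ℝ) : ℂ) -
        ((∑ l ∈ T, ‖c l‖ ^ 2 : ℝ) : ℂ) := by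
    have e0 : ((∑ l ∈ T, ‖c l‖ ^ 2 : ℝ) : ℂ) = ∑ l ∈ T, conj (c l) * c l := by
      push_cast
      refine Finset.sum_congr rfl fun l _ => ?_
      rw [mul_comm, ← hnsq]
      push_cast
      rfl
    rw [e0, ← integral_complex_ofReal, ← integral_complex_ofReal]
    have e1 : ∀ θ, ((‖f θ - s θ‖ ^ 2 : ℝ) : ℂ) =
        (((‖f θ‖ ^ 2 : ℝ) : ℂ) - s θ * conj (f θ)) - (f θ * conj (s θ) - s θ * conj (s θ)) := by
      intro θ
      rw [hnsq, hnsq, map_sub]
      ring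
    have i1 : Continuous fun θ => ((‖f θ‖ ^ 2 : ℝ) : ℂ) :=
      Complex.continuous_ofReal.comp (hf.norm.pow 2)
    have e2 : (fun θ => ((‖f θ - s θ‖ ^ 2 : ℝ) : ℂ)) = fun θ =>
        (((‖f θ‖ ^ 2 : ℝ) : ℂ) - s θ * conj (f θ)) - (f θ * conj (s θ) - s θ * conj (s θ)) :=
      funext e1
    calc ∫ θ in Set.Icc (0 : Fin r → ℝ) 1, ((‖f θ - s θ‖ ^ 2 : ℝ) : ℂ)
        = ∫ θ in Set.Icc (0 : Fin r → ℝ) 1, (((((‖f θ‖ ^ 2 : ℝ) : ℂ) - s θ * conj (f θ)) -
            (f θ * conj (s θ) - s θ * conj (s θ)))) := by rw [e2]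
      _ = (∫ θ in Set.Icc (0 : Fin r → ℝ) 1, (((‖f θ‖ ^ 2 : ℝ) : ℂ) - s θ * conj (f θ))) -
            ∫ θ in Set.Icc (0 : Fin r → ℝ) 1, (f θ * conj (s θ) - s θ * conj (s θ)) :=
          integral_sub (cube_int (i1.sub (hsc.mul hcf)))
            (cube_int ((hf.mul hcj).sub (hsc.mul hcj)))
      _ = ((∫ θ in Set.Icc (0 : Fin r → ℝ) 1, ((‖f θ‖ ^ 2 : ℝ) : ℂ)) -
            ∫ θ in Set.Icc (0 : Fin r → ℝ) 1, s θ * conj (f θ)) -
            ((∫ θ in Set.Icc (0 : Fin r → ℝ) 1, f θ * conj (s θ)) -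
            ∫ θ in Set.Icc (0 : Fin r → ℝ) 1, s θ * conj (s θ)) := by
          have j1 : Integrable (fun θ => s θ * conj (f θ))
              (volume.restrict (Set.Icc (0 : Fin r → ℝ) 1)) := cube_int (hsc.mul hcf)
          have j2 : Integrable (fun θ => f θ * conj (s θ))
              (volume.restrict (Set.Icc (0 : Fin r → ℝ) 1)) := cube_int (hf.mul hcj)
          have j3 : Integrable (fun θ => s θ * conj (s θ))
              (volume.restrict (Set.Icc (0 : Fin r → ℝ) 1)) := cube_int (hsc.mul hcj)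
          rw [integral_sub (cube_int i1) j1, integral_sub j2 j3]
      _ = _ := by
          rw [hB, hC, hD]
          ring
  have h2 : (∫ θ in Set.Icc (0 : Fin r → ℝ) 1, ‖f θ - s θ‖ ^ 2) =
      (∫ θ in Set.Icc (0 : Fin r → ℝ) 1, ‖f θ‖ ^ 2) - ∑ l ∈ T, ‖c l‖ ^ 2 := by
    exact_mod_cast h1
  linarith

/-! ### integrals over the group -/

/-- the facts about the torus which are used -/
structure HT {G : Type} [Group G] [TopologicalSpace G] {r : ℕ} (t : (Fin r → ℝ) → G) : Prop where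
  cont : Continuous t
  add : ∀ θ θ', t (θ + θ') = t θ * t θ'
  int : ∀ n : Fin r → ℤ, t (fun j => (n j : ℝ)) = 1

theorem HT.comm {G : Type} [Group G] [TopologicalSpace G] {r : ℕ} {t : (Fin r → ℝ) → G}
    (h : HT t) (θ φ : Fin r → ℝ) : t θ * t φ = t φ * t θ := by
  rw [← h.add, add_comm, h.add]

theorem cpt_int {X : Type} [TopologicalSpace X] [CompactSpace X] [MeasurableSpace X]
    [OpensMeasurableSpace X] {E : Type} [NormedAddCommGroup E] [SecondCountableTopologyEither X E]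
    (ν : Measure X) [IsFiniteMeasure ν] {f : X → E}
    (hf : Continuous f) : Integrable f ν :=
  hf.integrable_of_hasCompactSupport (HasCompactSupport.of_compactSpace f)

theorem bdd {X : Type} [TopologicalSpace X] [CompactSpace X] {f : X → ℂ} (hf : Continuous f) :
    ∃ C : ℝ, 0 ≤ C ∧ ∀ x, ‖f x‖ ≤ C := by
  obtain ⟨C, hC⟩ := (isCompact_range hf.norm).bddAbove
  exact ⟨max C 0, le_max_right _ _, fun x => (hC ⟨x, rfl⟩).trans (le_max_left _ _)⟩

theorem swap {X Y : Type} [TopologicalSpace X] [TopologicalSpace Y] [SecondCountableTopology X]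
    [SecondCountableTopology Y] [MeasurableSpace X] [MeasurableSpace Y] [OpensMeasurableSpace X]
    [OpensMeasurableSpace Y] (ν₁ : Measure X) (ν₂ : Measure Y) [IsFiniteMeasure ν₁]
    [IsFiniteMeasure ν₂] (f : X → Y → ℂ) (hf : Continuous (Function.uncurry f)) (C : ℝ)
    (hb : ∀ x y, ‖f x y‖ ≤ C) :
    ∫ x, ∫ y, f x y ∂ν₂ ∂ν₁ = ∫ y, ∫ x, f x y ∂ν₁ ∂ν₂ :=
  integral_integral_swap (Integrable.of_bound hf.aestronglyMeasurable C
    (Filter.Eventually.of_forall fun x => hb x.1 x.2))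

/-- Cauchy-Schwarz -/
theorem cs {X : Type} [TopologicalSpace X] [CompactSpace X] [MeasurableSpace X]
    [OpensMeasurableSpace X] (ν : Measure X) [IsFiniteMeasure ν] {f g : X → ℂ}
    (hf : Continuous f) (hg : Continuous g) :
    ‖∫ x, f x * g x ∂ν‖ ^ 2 ≤ (∫ x, ‖f x‖ ^ 2 ∂ν) * ∫ x, ‖g x‖ ^ 2 ∂ν := by
  have h1 : ‖∫ x, f x * g x ∂ν‖ ≤ ∫ x, ‖f x‖ * ‖g x‖ ∂ν := by
    refine (norm_integral_le_integral_norm _).trans (le_of_eq ?_)
    simp only [norm_mul]
  have hB : 0 ≤ ∫ x, ‖f x‖ * ‖g x‖ ∂ν :=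
    integral_nonneg fun x => mul_nonneg (norm_nonneg _) (norm_nonneg _)
  have hq : ∀ t : ℝ, 0 ≤ (∫ x, ‖f x‖ ^ 2 ∂ν) * (t * t) + (2 * ∫ x, ‖f x‖ * ‖g x‖ ∂ν) * t +
      ∫ x, ‖g x‖ ^ 2 ∂ν := by
    intro t
    have h2 : 0 ≤ ∫ x, (‖f x‖ * t + ‖g x‖) ^ 2 ∂ν := integral_nonneg fun x => sq_nonneg _
    have e : ∫ x, (‖f x‖ * t + ‖g x‖) ^ 2 ∂ν = (∫ x, ‖f x‖ ^ 2 ∂ν) * (t * t) +
        (2 * ∫ x, ‖f x‖ * ‖g x‖ ∂ν) * t + ∫ x, ‖g x‖ ^ 2 ∂ν := by
      have e1 : (fun x => (‖f x‖ * t + ‖g x‖) ^ 2) = fun x =>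
          (‖f x‖ ^ 2 * (t * t) + (‖f x‖ * ‖g x‖) * (2 * t)) + ‖g x‖ ^ 2 := by
        funext x; ring
      rw [e1, integral_add, integral_add, integral_mul_const, integral_mul_const]
      · ring
      · exact cpt_int ν (by fun_prop)
      · exact cpt_int ν (by fun_prop)
      · exact cpt_int ν (by fun_prop)
      · exact cpt_int ν (by fun_prop)
    rwa [e] at h2
  have h3 := discrim_le_zero hq
  rw [discrim] at h3
  have h4 : ‖∫ x, f x * g x ∂ν‖ ^ 2 ≤ (∫ x, ‖f x‖ * ‖g x‖ ∂ν) ^ 2 :=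
    pow_le_pow_left₀ (norm_nonneg _) h1 2
  nlinarith

/-- the Fourier coefficient along the orbit of `g` -/
def P {G : Type} [Group G] {r : ℕ} (t : (Fin r → ℝ) → G) (l : Fin r → ℤ) (F : G → ℂ) (g : G) : ℂ :=
  ∫ θ in Set.Icc (0 : Fin r → ℝ) 1, F (g * t θ) * eu (-(dz l θ))

/-- the mean with the measure `ν` -/
def Mn {G : Type} [Group G] {r : ℕ} (t : (Fin r → ℝ) → G) (ν : Measure (Fin r → ℝ)) (F : G → ℂ)
    (g : G) : ℂ := ∫ s, F (g * t s) ∂ν

section

variable {G : Type} [Group G] [TopologicalSpace G] [IsTopologicalGroup G] [CompactSpace G]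
  [SecondCountableTopology G] {r : ℕ} {t : (Fin r → ℝ) → G}

theorem gcont (ht : HT t) {F : G → ℂ} (hF : Continuous F) :
    Continuous fun x : G × (Fin r → ℝ) => F (x.1 * t x.2) :=
  hF.comp (continuous_fst.mul (ht.cont.comp continuous_snd))

theorem econt (l : Fin r → ℤ) : Continuous fun θ : Fin r → ℝ => eu (-(dz l θ)) :=
  eu_cont.comp (dz_cont l).neg

theorem P_cont (ht : HT t) (l : Fin r → ℤ) {F : G → ℂ} (hF : Continuous F) :
    Continuous (P t l F) := by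
  have h := continuous_parametric_integral_of_continuous (μ := (volume : Measure (Fin r → ℝ)))
    (f := fun (g : G) (θ : Fin r → ℝ) => F (g * t θ) * eu (-(dz l θ)))
    (by
      have h1 := (gcont ht hF).mul ((econt l).comp continuous_snd)
      exact h1) (isCompact_Icc (a := (0 : Fin r → ℝ)) (b := 1))
  exact h

theorem Mn_cont (ht : HT t) (ν : Measure (Fin r → ℝ)) [IsFiniteMeasure ν] {F : G → ℂ}
    (hF : Continuous F) : Continuous (Mn t ν F) := by
  obtain ⟨C, -, hC⟩ := bdd hF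
  have h := continuous_of_dominated (μ := ν) (F := fun (g : G) (s : Fin r → ℝ) => F (g * t s))
    (bound := fun _ => C)
    (fun g => (hF.comp (continuous_const.mul ht.cont)).aestronglyMeasurable)
    (fun g => Filter.Eventually.of_forall fun s => hC _) (integrable_const _)
    (Filter.Eventually.of_forall fun s => hF.comp (continuous_id.mul continuous_const))
  exact h

theorem P_shift (ht : HT t) (l : Fin r → ℤ) (F : G → ℂ) (g : G) (φ : Fin r → ℝ) :
    P t l F (g * t φ) = eu (dz l φ) * P t l F g := by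
  have h1 : ∀ θ, F (g * t φ * t θ) * eu (-(dz l θ)) =
      eu (dz l φ) * (F (g * t (θ + φ)) * eu (-(dz l (θ + φ)))) := by
    intro θ
    rw [mul_assoc g, ← ht.add, add_comm φ θ, dz_add, neg_add, eu_add]
    have h2 : eu (dz l φ) * eu (-(dz l φ)) = 1 := by
      rw [← eu_add, add_neg_cancel]
      simpa using eu_int 0
    linear_combination (-(F (g * t (θ + φ)) * eu (-(dz l θ)))) * h2
  unfold P
  simp only [h1]
  rw [integral_const_mul, per_int (fun θ => F (g * t θ) * eu (-(dz l θ)))]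
  intro θ n
  show F (g * t (θ + fun j => (n j : ℝ))) * eu (-(dz l (θ + fun j => (n j : ℝ)))) = _
  rw [ht.add, ht.int, mul_one, dz_add, dz_int, neg_add, eu_add]
  have h2 : eu (-((∑ i, l i * n i : ℤ) : ℝ)) = 1 := by
    rw [← Int.cast_neg]
    exact eu_int _
  rw [h2, mul_one]

theorem P_sub (ht : HT t) (l : Fin r → ℤ) {F F' : G → ℂ} (hF : Continuous F) (hF' : Continuous F')
    (g : G) : P t l (fun x => F x - F' x) g = P t l F g - P t l F' g := by
  unfold P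
  have i1 : Integrable (fun θ => F (g * t θ) * eu (-(dz l θ)))
      (volume.restrict (Set.Icc (0 : Fin r → ℝ) 1)) :=
    cube_int ((hF.comp (continuous_const.mul ht.cont)).mul (econt l))
  have i2 : Integrable (fun θ => F' (g * t θ) * eu (-(dz l θ)))
      (volume.restrict (Set.Icc (0 : Fin r → ℝ) 1)) :=
    cube_int ((hF'.comp (continuous_const.mul ht.cont)).mul (econt l))
  rw [← integral_sub i1 i2]
  refine integral_congr_ae (Filter.Eventually.of_forall fun θ => ?_)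
  simp only [sub_mul]

theorem P_Mn (ht : HT t) (l : Fin r → ℤ) (ν : Measure (Fin r → ℝ)) [IsFiniteMeasure ν]
    {F : G → ℂ} (hF : Continuous F) (g : G) :
    P t l (Mn t ν F) g = (∫ s, eu (dz l s) ∂ν) * P t l F g := by
  obtain ⟨C, hC0, hC⟩ := bdd hF
  have h1 : P t l (Mn t ν F) g = ∫ θ in Set.Icc (0 : Fin r → ℝ) 1,
      ∫ s, F (g * t θ * t s) * eu (-(dz l θ)) ∂ν := by
    unfold P Mn
    refine integral_congr_ae (Filter.Eventually.of_forall fun θ => ?_)
    simp only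
    rw [integral_mul_const]
  have hc : Continuous (Function.uncurry fun (θ s : Fin r → ℝ) =>
      F (g * t θ * t s) * eu (-(dz l θ))) := by
    have h2 : Continuous fun x : (Fin r → ℝ) × (Fin r → ℝ) => g * t x.1 * t x.2 :=
      (continuous_const.mul (ht.cont.comp continuous_fst)).mul (ht.cont.comp continuous_snd)
    exact (hF.comp h2).mul ((econt l).comp continuous_fst)
  rw [h1, swap _ ν _ hc C (by
    intro θ s
    rw [norm_mul, norm_eu, mul_one]
    exact hC _)]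
  have h3 : ∀ s, ∫ θ in Set.Icc (0 : Fin r → ℝ) 1, F (g * t θ * t s) * eu (-(dz l θ)) =
      eu (dz l s) * P t l F g := by
    intro s
    rw [← P_shift ht]
    unfold P
    refine integral_congr_ae (Filter.Eventually.of_forall fun θ => ?_)
    simp only
    rw [mul_assoc g, ht.comm, ← mul_assoc]
  simp only [h3]
  rw [integral_mul_const]

variable [MeasurableSpace G] [BorelSpace G] (μ : Measure G) [IsProbabilityMeasure μ]
  [μ.IsMulRightInvariant]

theorem avg (ht : HT t) {K : G → ℂ} (hK : Continuous K) :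
    ∫ g, (∫ θ in Set.Icc (0 : Fin r → ℝ) 1, K (g * t θ)) ∂μ = ∫ g, K g ∂μ := by
  obtain ⟨C, -, hC⟩ := bdd hK
  rw [swap μ _ (fun (g : G) (θ : Fin r → ℝ) => K (g * t θ)) (gcont ht hK) C (fun _ _ => hC _)]
  have h1 : ∀ θ, ∫ g, K (g * t θ) ∂μ = ∫ g, K g ∂μ := fun θ =>
    integral_mul_right_eq_self K (t θ)
  simp only [h1]
  rw [integral_const]
  simp

theorem one_coef (ht : HT t) (l : Fin r → ℤ) {F₁ F₂ : G → ℂ} (h₁ : Continuous F₁)
    (h₂ : Continuous F₂) :
    ∫ g, F₁ g * conj (P t l F₂ g) ∂μ = ∫ g, P t l F₁ g * conj (P t l F₂ g) ∂μ := by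
  have hK : Continuous fun g => F₁ g * conj (P t l F₂ g) :=
    h₁.mul (Complex.continuous_conj.comp (P_cont ht l h₂))
  rw [← avg μ ht hK]
  refine integral_congr_ae (Filter.Eventually.of_forall fun g => ?_)
  simp only
  have h3 : ∀ θ, F₁ (g * t θ) * conj (P t l F₂ (g * t θ)) =
      F₁ (g * t θ) * eu (-(dz l θ)) * conj (P t l F₂ g) := by
    intro θ
    rw [P_shift ht, map_mul, conj_eu, mul_assoc]
  simp only [h3]
  rw [integral_mul_const]
  rfl

theorem main (ht : HT t) (T : Finset (Fin r → ℤ)) (b : (Fin r → ℤ) → ℂ) {F₁ F₂ : G → ℂ}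
    (h₁ : Continuous F₁) (h₂ : Continuous F₂) :
    ∫ g, (∫ θ in Set.Icc (0 : Fin r → ℝ) 1, (∑ l ∈ T, b l * eu (dz l θ)) *
        (F₁ g * conj (F₂ (g * t θ)))) ∂μ =
      ∑ l ∈ T, b l * ∫ g, P t l F₁ g * conj (P t l F₂ g) ∂μ := by
  have h3 : ∀ g, ∫ θ in Set.Icc (0 : Fin r → ℝ) 1, (∑ l ∈ T, b l * eu (dz l θ)) *
      (F₁ g * conj (F₂ (g * t θ))) = ∑ l ∈ T, b l * (F₁ g * conj (P t l F₂ g)) := by
    intro g
    have e1 : ∀ θ, (∑ l ∈ T, b l * eu (dz l θ)) * (F₁ g * conj (F₂ (g * t θ))) =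
        ∑ l ∈ T, (b l * F₁ g) * conj (F₂ (g * t θ) * eu (-(dz l θ))) := by
      intro θ
      rw [Finset.sum_mul]
      refine Finset.sum_congr rfl fun l _ => ?_
      rw [map_mul, conj_eu, neg_neg]
      ring
    simp only [e1]
    have i1 : ∀ l ∈ T, Integrable (fun θ => (b l * F₁ g) * conj (F₂ (g * t θ) * eu (-(dz l θ))))
        (volume.restrict (Set.Icc (0 : Fin r → ℝ) 1)) := fun l _ =>
      cube_int (continuous_const.mul (Complex.continuous_conj.comp
        ((h₂.comp (continuous_const.mul ht.cont)).mul (econt l))))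
    rw [integral_finset_sum _ i1]
    refine Finset.sum_congr rfl fun l _ => ?_
    rw [integral_const_mul, integral_conj, mul_assoc]
    rfl
  simp only [h3]
  have i2 : ∀ l ∈ T, Integrable (fun g => b l * (F₁ g * conj (P t l F₂ g))) μ := fun l _ =>
    cpt_int μ (continuous_const.mul (h₁.mul (Complex.continuous_conj.comp (P_cont ht l h₂))))
  rw [integral_finset_sum _ i2]
  refine Finset.sum_congr rfl fun l _ => ?_
  rw [integral_const_mul, one_coef μ ht l h₁ h₂]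

theorem energy (hT : S_TPOL) (ht : HT t) (T : Finset (Fin r → ℤ)) {F : G → ℂ} (hF : Continuous F) :
    ∑ l ∈ T, ∫ g, ‖P t l F g‖ ^ 2 ∂μ ≤ ∫ g, ‖F g‖ ^ 2 ∂μ := by
  have i1 : ∀ l ∈ T, Integrable (fun g => ‖P t l F g‖ ^ 2) μ := fun l _ =>
    cpt_int μ ((P_cont ht l hF).norm.pow 2)
  rw [← integral_finset_sum _ i1]
  have hK : Continuous fun g => ((‖F g‖ ^ 2 : ℝ) : ℂ) :=
    Complex.continuous_ofReal.comp (hF.norm.pow 2)
  have h1 := avg μ ht hK
  simp only [integral_complex_ofReal] at h1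
  have h2 : ∫ g, (∫ θ in Set.Icc (0 : Fin r → ℝ) 1, ‖F (g * t θ)‖ ^ 2) ∂μ =
      ∫ g, ‖F g‖ ^ 2 ∂μ := by exact_mod_cast h1
  rw [← h2]
  have hc : Continuous fun g => ∫ θ in Set.Icc (0 : Fin r → ℝ) 1, ‖F (g * t θ)‖ ^ 2 := by
    have h := continuous_parametric_integral_of_continuous (μ := (volume : Measure (Fin r → ℝ)))
      (f := fun (g : G) (θ : Fin r → ℝ) => ‖F (g * t θ)‖ ^ 2)
      (by
        have h3 := (gcont ht hF).norm.pow 2
        exact h3) (isCompact_Icc (a := (0 : Fin r → ℝ)) (b := 1))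
    exact h
  refine integral_mono (cpt_int μ (continuous_finsetSum _ fun l _ =>
    (P_cont ht l hF).norm.pow 2)) (cpt_int μ hc) ?_
  intro g
  exact bessel hT T (fun θ => F (g * t θ)) (hF.comp (continuous_const.mul ht.cont))

theorem bound (hT : S_TPOL) (ht : HT t) (T : Finset (Fin r → ℤ)) (a : (Fin r → ℤ) → ℂ) {F₁ F₂ : G → ℂ}
    (h₁ : Continuous F₁) (h₂ : Continuous F₂) (A : ℝ) (hA : 0 ≤ A) (ha : ∀ l ∈ T, ‖a l‖ ≤ A) :
    ‖∑ l ∈ T, a l * ∫ g, P t l F₁ g * conj (P t l F₂ g) ∂μ‖ ≤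
      A * (√(∫ g, ‖F₁ g‖ ^ 2 ∂μ) * √(∫ g, ‖F₂ g‖ ^ 2 ∂μ)) := by
  set x : (Fin r → ℤ) → ℝ := fun l => ∫ g, ‖P t l F₁ g‖ ^ 2 ∂μ with hx
  set y : (Fin r → ℤ) → ℝ := fun l => ∫ g, ‖P t l F₂ g‖ ^ 2 ∂μ with hy
  have hx0 : ∀ l, 0 ≤ x l := fun l => integral_nonneg fun g => sq_nonneg _
  have hy0 : ∀ l, 0 ≤ y l := fun l => integral_nonneg fun g => sq_nonneg _
  have h3 : ∀ l, ‖∫ g, P t l F₁ g * conj (P t l F₂ g) ∂μ‖ ≤ √(x l) * √(y l) := by
    intro l
    have h4 := cs μ (P_cont ht l h₁) (Complex.continuous_conj.comp (P_cont ht l h₂))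
    rw [← Real.sqrt_mul (hx0 l)]
    apply Real.le_sqrt_of_sq_le
    refine h4.trans (le_of_eq ?_)
    simp only [Function.comp_apply, RCLike.norm_conj, hx, hy]
  calc ‖∑ l ∈ T, a l * ∫ g, P t l F₁ g * conj (P t l F₂ g) ∂μ‖
      ≤ ∑ l ∈ T, ‖a l * ∫ g, P t l F₁ g * conj (P t l F₂ g) ∂μ‖ := norm_sum_le _ _
    _ ≤ ∑ l ∈ T, A * (√(x l) * √(y l)) := by
        refine Finset.sum_le_sum fun l hl => ?_
        rw [norm_mul]
        exact mul_le_mul (ha l hl) (h3 l) (norm_nonneg _) hA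
    _ = A * ∑ l ∈ T, √(x l) * √(y l) := by rw [Finset.mul_sum]
    _ ≤ A * (√(∑ l ∈ T, x l) * √(∑ l ∈ T, y l)) := by
        gcongr
        exact Real.sum_sqrt_mul_sqrt_le _ hx0 hy0
    _ ≤ _ := by
        gcongr
        · exact energy μ hT ht T h₁
        · exact energy μ hT ht T h₂

end

end PLA

open PLA in
theorem t_PLA : M_PLA := by
  intro hHAAR hPSF hTPOL N H r Φ B Hc E c k d hCX μ _ _ T a F₁ F₂ h₁ h₂
  obtain ⟨C₀, -, Q⟩ := hPSF N H r Φ B Hc E c k d hCX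
  have hcpt : CompactSpace H := isCompact_iff_compactSpace.1 hCX.closed.isCompact
  have hscM : SecondCountableTopology (MT N) :=
    inferInstanceAs (SecondCountableTopology (Fin N → Fin N → ℂ))
  have hsc1 : SecondCountableTopology (SU N) := TopologicalSpace.Subtype.secondCountableTopology _
  have hsc2 : SecondCountableTopology H := TopologicalSpace.Subtype.secondCountableTopology _
  have hright : μ.IsMulRightInvariant := (hHAAR H μ).1
  have ht : HT (tt H Hc) := ⟨Q.tcont, Q.tadd, Q.tint⟩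
  refine ⟨?_, ?_⟩
  · intro ν₁ ν₂ ν₃ ν₄ Ψ Ψ' _ _ _ _ hΨ hΨ'
    have c₁ : Continuous (PO Hc ν₁ ν₂ F₁) := (Mn_cont ht ν₁ h₁).sub (Mn_cont ht ν₂ h₁)
    have c₂ : Continuous (PO Hc ν₃ ν₄ F₂) := (Mn_cont ht ν₃ h₂).sub (Mn_cont ht ν₄ h₂)
    rw [main μ ht T a c₁ c₂, main μ ht T _ h₁ h₂]
    refine Finset.sum_congr rfl fun l _ => ?_
    have e₁ : ∀ g, P (tt H Hc) l (PO Hc ν₁ ν₂ F₁) g = (Ψ l : ℂ) * P (tt H Hc) l F₁ g := by
      intro g
      rw [← hΨ l, sub_mul, ← P_Mn ht l ν₁ h₁, ← P_Mn ht l ν₂ h₁]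
      exact P_sub ht l (Mn_cont ht ν₁ h₁) (Mn_cont ht ν₂ h₁) g
    have e₂ : ∀ g, P (tt H Hc) l (PO Hc ν₃ ν₄ F₂) g = (Ψ' l : ℂ) * P (tt H Hc) l F₂ g := by
      intro g
      rw [← hΨ' l, sub_mul, ← P_Mn ht l ν₃ h₂, ← P_Mn ht l ν₄ h₂]
      exact P_sub ht l (Mn_cont ht ν₃ h₂) (Mn_cont ht ν₄ h₂) g
    have e₃ : ∀ g, P (tt H Hc) l (PO Hc ν₁ ν₂ F₁) g * conj (P (tt H Hc) l (PO Hc ν₃ ν₄ F₂) g) =
        ((Ψ l * Ψ' l : ℝ) : ℂ) * (P (tt H Hc) l F₁ g * conj (P (tt H Hc) l F₂ g)) := by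
      intro g
      rw [e₁, e₂, map_mul, Complex.conj_ofReal]
      push_cast
      ring
    simp only [e₃]
    rw [integral_const_mul]
    ring
  · intro A hA ha
    rw [main μ ht T a h₁ h₂]
    exact bound μ hTPOL ht T a h₁ h₂ A hA ha

end

end STZ3
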