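import Pool.Agent.STZ3.StC3
import Mathlib.Analysis.Fourier.AddCircle

/-!
# PO1: positivity of the Dirichlet heat kernel
-/

set_option autoImplicit false

namespace STZ3

open STZ LGR MeasureTheory Matrix Filter

open scoped ComplexConjugate Matrix Real Topology

noncomputable section

namespace PO1

/-- the average over the two neighbours -/
def B (h : ℝ) : Module.End ℂ (ℝ → ℂ) where
  toFun g := fun w => (g (w + h) + g (w - h)) / 2
  map_add' f g := by
    funext w
    simp only [Pi.add_apply]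
    ring
  map_smul' c g := by
    funext w
    simp only [Pi.smul_apply, smul_eq_mul, RingHom.id_apply]
    ring

theorem B_apply (h : ℝ) (g : ℝ → ℂ) (w : ℝ) : B h g w = (g (w + h) + g (w - h)) / 2 := rfl

theorem pow_bound (h C : ℝ) (M : ℕ) (g : ℝ → ℂ) (hg : ∀ x, ‖g x‖ ≤ C) (x : ℝ) : ‖((B h) ^ M) g x‖ ≤ C := by
  induction M generalizing g with
  | zero => simpa using hg x
  | succ M ih =>
    rw [pow_succ]
    refine ih (B h g) fun w => ?_
    rw [B_apply, norm_div]
    have h1 := norm_add_le (g (w + h)) (g (w - h))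
    have h2 := hg (w + h)
    have h3 := hg (w - h)
    have h4 : ‖(2 : ℂ)‖ = 2 := by simp
    rw [h4]
    linarith

/-- the exponential -/
def ex (n : ℤ) (x : ℝ) : ℂ := Complex.exp ((π * n * x : ℝ) * Complex.I)

theorem B_ex (h : ℝ) (n : ℤ) : B h (ex n) = ((Real.cos (π * n * h) : ℝ) : ℂ) • ex n := by
  funext w
  rw [B_apply, Pi.smul_apply, smul_eq_mul, Complex.ofReal_cos, Complex.cos]
  unfold ex
  have h1 : Complex.exp ((π * n * (w + h) : ℝ) * Complex.I) =
      Complex.exp ((π * n * w : ℝ) * Complex.I) * Complex.exp ((π * n * h : ℝ) * Complex.I) := by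
    rw [← Complex.exp_add]
    congr 1
    push_cast
    ring
  have h2 : Complex.exp ((π * n * (w - h) : ℝ) * Complex.I) =
      Complex.exp ((π * n * w : ℝ) * Complex.I) * Complex.exp (-((π * n * h : ℝ) : ℂ) * Complex.I) := by
    rw [← Complex.exp_add]
    congr 1
    push_cast
    ring
  rw [h1, h2]
  ring

theorem pow_ex (h : ℝ) (n : ℤ) (M : ℕ) : ((B h) ^ M) (ex n) = ((Real.cos (π * n * h) ^ M : ℝ) : ℂ) • ex n := by
  induction M with
  | zero => simp
  | succ M ih =>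
    rw [pow_succ, Module.End.mul_apply, B_ex, map_smul, ih, smul_smul]
    congr 1
    push_cast
    ring

/-- positivity on the lattice -/
theorem pos (q : ℕ) (hq : 0 < q) (M : ℕ) (g : ℝ → ℂ) (h1 : ∀ (k : ℤ) (w : ℝ), g (2 * k - w) = -g w)
    (h2 : ∀ i : ℕ, i ≤ q → 0 ≤ (g (i / q)).re) : ∀ i : ℕ, i ≤ q → 0 ≤ (((B (1 / q)) ^ M) g (i / q)).re := by
  have hq' : (q : ℝ) ≠ 0 := by exact_mod_cast hq.ne'
  induction M generalizing g with
  | zero => simpa using h2
  | succ M ih =>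
    rw [pow_succ]
    refine ih (B (1 / q) g) ?_ ?_
    · intro k w
      rw [B_apply, B_apply]
      have e1 : 2 * (k : ℝ) - w + 1 / q = 2 * k - (w - 1 / q) := by ring
      have e2 : 2 * (k : ℝ) - w - 1 / q = 2 * k - (w + 1 / q) := by ring
      rw [e1, e2, h1, h1]
      ring
    · intro i hi
      rw [B_apply]
      rcases Nat.eq_zero_or_pos i with h0 | h0
      · subst h0
        have e1 := h1 0 (((0 : ℕ) : ℝ) / q + 1 / q)
        have e2 : 2 * ((0 : ℤ) : ℝ) - (((0 : ℕ) : ℝ) / q + 1 / q) = ((0 : ℕ) : ℝ) / q - 1 / q := by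
          push_cast
          ring
        rw [e2] at e1
        rw [e1]
        simp
      rcases Nat.lt_or_ge i q with h3 | h3
      · have e1 : (i : ℝ) / q + 1 / q = ((i + 1 : ℕ) : ℝ) / q := by
          push_cast
          ring
        have e2 : (i : ℝ) / q - 1 / q = ((i - 1 : ℕ) : ℝ) / q := by
          rw [Nat.cast_sub h0]
          push_cast
          ring
        rw [e1, e2]
        have a1 := h2 (i + 1) h3
        have a2 := h2 (i - 1) (by omega)
        have e3 : ((g (((i + 1 : ℕ) : ℝ) / q) + g (((i - 1 : ℕ) : ℝ) / q)) / 2).re =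
            ((g (((i + 1 : ℕ) : ℝ) / q)).re + (g (((i - 1 : ℕ) : ℝ) / q)).re) / 2 := by
          have : (2 : ℂ) = ((2 : ℝ) : ℂ) := by norm_num
          rw [this, Complex.div_ofReal_re, Complex.add_re]
        rw [e3]
        linarith
      · have h4 : i = q := le_antisymm hi h3
        subst h4
        have e0 : (i : ℝ) / i = 1 := div_self hq'
        have e1 := h1 1 ((i : ℝ) / i - 1 / i)
        have e2 : 2 * ((1 : ℤ) : ℝ) - ((i : ℝ) / i - 1 / i) = (i : ℝ) / i + 1 / i := by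
          rw [e0]
          push_cast
          ring
        rw [e2] at e1
        rw [e1]
        simp

/-- `cos x` against the Gaussian -/
theorem cos_near (x : ℝ) (hx : |x| ≤ 1) : |Real.cos x - Real.exp (-(x ^ 2 / 2))| ≤ x ^ 4 := by
  have h1 := Real.cos_bound hx
  have h0 : x ^ 2 ≤ 1 := by
    rw [← sq_abs]
    exact pow_le_one₀ (abs_nonneg x) hx
  have h2 : |Real.exp (-(x ^ 2 / 2)) - 1 - (-(x ^ 2 / 2))| ≤ (-(x ^ 2 / 2)) ^ 2 := by
    refine Real.abs_exp_sub_one_sub_id_le ?_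
    rw [abs_neg, abs_of_nonneg (by positivity)]
    linarith
  have h3 : |x| ^ 4 = x ^ 4 := by
    have : |x| ^ 4 = (|x| ^ 2) ^ 2 := by ring
    rw [this, sq_abs]
    ring
  rw [h3] at h1
  have h4 := abs_le.1 h1
  have h5 := abs_le.1 h2
  have h6 : 0 ≤ x ^ 4 := by positivity
  refine abs_le.2 ⟨?_, ?_⟩
  · nlinarith [h4.1, h4.2, h5.1, h5.2]
  · nlinarith [h4.1, h4.2, h5.1, h5.2]

/-- the number of steps -/
def st (σ : ℝ) (q : ℕ) : ℕ := ⌊σ ^ 2 * (q : ℝ) ^ 2⌋₊

theorem sq_top : Tendsto (fun q : ℕ => (q : ℝ) ^ 2) atTop atTop :=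
  (tendsto_pow_atTop two_ne_zero).comp tendsto_natCast_atTop_atTop

theorem st_lim (σ : ℝ) : Tendsto (fun q : ℕ => (st σ q : ℝ) / (q : ℝ) ^ 2) atTop (𝓝 (σ ^ 2)) :=
  (tendsto_nat_floor_mul_div_atTop (sq_nonneg σ)).comp sq_top

/-- the limit of the multipliers -/
theorem lim_cos (σ : ℝ) (n : ℤ) : Tendsto (fun q : ℕ => Real.cos (π * n * (1 / q)) ^ (st σ q)) atTop
    (𝓝 (Real.exp (-((π * n) ^ 2 * σ ^ 2 / 2)))) := by
  set x : ℕ → ℝ := fun q => π * n * (1 / q) with hx
  have hxl : Tendsto x atTop (𝓝 0) := by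
    have h1 : Tendsto (fun q : ℕ => π * n * (1 / (q : ℝ))) atTop (𝓝 (π * n * 0)) :=
      tendsto_one_div_atTop_nhds_zero_nat.const_mul _
    rw [mul_zero] at h1
    exact h1
  have h1 : Tendsto (fun q : ℕ => Real.exp (-((x q) ^ 2 / 2)) ^ (st σ q)) atTop
      (𝓝 (Real.exp (-((π * n) ^ 2 * σ ^ 2 / 2)))) := by
    have h2 : ∀ q : ℕ, Real.exp (-((x q) ^ 2 / 2)) ^ (st σ q) =
        Real.exp (-((π * n) ^ 2 * ((st σ q : ℝ) / (q : ℝ) ^ 2) / 2)) := by
      intro q
      rw [← Real.exp_nat_mul]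
      congr 1
      simp only [hx]
      ring
    simp only [h2]
    exact (Real.continuous_exp.tendsto _).comp
      ((((st_lim σ).const_mul _).div_const _).neg)
  have h2 : Tendsto (fun q : ℕ => Real.cos (x q) ^ (st σ q) - Real.exp (-((x q) ^ 2 / 2)) ^ (st σ q)) atTop
      (𝓝 0) := by
    have hb : Tendsto (fun q : ℕ => (π * n) ^ 2 * ((st σ q : ℝ) / (q : ℝ) ^ 2) * (x q) ^ 2) atTop (𝓝 0) := by
      have := ((st_lim σ).const_mul ((π * n) ^ 2)).mul (hxl.pow 2)
      simpa using this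
    refine squeeze_zero_norm' ?_ hb
    have hev : ∀ᶠ q in atTop, |x q| ≤ 1 := by
      have h3 := (hxl.abs)
      rw [abs_zero] at h3
      exact (h3.eventually (ge_mem_nhds zero_lt_one))
    filter_upwards [hev] with q hq
    rw [Real.norm_eq_abs]
    refine (abs_pow_sub_pow_le _ _ _).trans ?_
    have h4 := cos_near (x q) hq
    have h5 : max |Real.cos (x q)| |Real.exp (-((x q) ^ 2 / 2))| ≤ 1 := by
      refine max_le (Real.abs_cos_le_one _) ?_
      rw [abs_of_pos (Real.exp_pos _)]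
      refine Real.exp_le_one_iff.2 ?_
      have : 0 ≤ (x q) ^ 2 := sq_nonneg _
      linarith
    have h6 : max |Real.cos (x q)| |Real.exp (-((x q) ^ 2 / 2))| ^ (st σ q - 1) ≤ 1 :=
      pow_le_one₀ ((abs_nonneg _).trans (le_max_left _ _)) h5
    calc |Real.cos (x q) - Real.exp (-((x q) ^ 2 / 2))| * (st σ q : ℝ) *
          max |Real.cos (x q)| |Real.exp (-((x q) ^ 2 / 2))| ^ (st σ q - 1)
        ≤ (x q) ^ 4 * (st σ q : ℝ) * 1 := by
          refine mul_le_mul (mul_le_mul_of_nonneg_right h4 (Nat.cast_nonneg _)) h6 ?_ (by positivity)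
          exact pow_nonneg ((abs_nonneg _).trans (le_max_left _ _)) _
      _ = (π * n) ^ 2 * ((st σ q : ℝ) / (q : ℝ) ^ 2) * (x q) ^ 2 := by
          have e1 : (x q) ^ 4 = (π * n) ^ 2 * (1 / (q : ℝ)) ^ 2 * (x q) ^ 2 := by
            simp only [hx]
            ring
          rw [e1]
          ring
  have h3 := h2.add h1
  rw [zero_add] at h3
  refine h3.congr fun q => ?_
  rw [sub_add_cancel]

/-- the lattice point -/
def wq (w : ℝ) (q : ℕ) : ℝ := (⌊w * q⌋₊ : ℝ) / q

theorem wq_lim (w : ℝ) (hw : 0 ≤ w) : Tendsto (wq w) atTop (𝓝 w) :=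
  (tendsto_nat_floor_mul_div_atTop hw).comp tendsto_natCast_atTop_atTop

/-- the discrete functional -/
def Lq (σ w : ℝ) (q : ℕ) (g : ℝ → ℂ) : ℂ := ((B (1 / q)) ^ (st σ q)) g (wq w q)

/-- the Gaussian average -/
def Gq (σ w : ℝ) (g : ℝ → ℂ) : ℂ := ∫ ξ, g (w + σ * ξ) ∂(ProbabilityTheory.gaussianReal 0 1)

theorem Gq_ex (σ w : ℝ) (n : ℤ) :
    Gq σ w (ex n) = ((Real.exp (-((π * n) ^ 2 * σ ^ 2 / 2)) : ℝ) : ℂ) * ex n w := by
  have h1 := ProbabilityTheory.charFun_gaussianReal (μ := 0) (v := 1) (π * n * σ)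
  rw [charFun_apply_real] at h1
  unfold Gq ex
  have h2 : ∀ ξ : ℝ, Complex.exp ((π * n * (w + σ * ξ) : ℝ) * Complex.I) =
      Complex.exp ((π * n * w : ℝ) * Complex.I) * Complex.exp (((π * n * σ : ℝ) : ℂ) * (ξ : ℂ) * Complex.I) := by
    intro ξ
    rw [← Complex.exp_add]
    congr 1
    push_cast
    ring
  simp only [h2]
  rw [integral_const_mul, h1, mul_comm]
  congr 1
  rw [Complex.ofReal_exp]
  congr 1
  push_cast
  ring

theorem Lq_ex (σ w : ℝ) (hw : 0 ≤ w) (n : ℤ) : Tendsto (fun q => Lq σ w q (ex n)) atTop (𝓝 (Gq σ w (ex n))) := by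
  rw [Gq_ex]
  have h1 : ∀ q, Lq σ w q (ex n) = ((Real.cos (π * n * (1 / q)) ^ (st σ q) : ℝ) : ℂ) * ex n (wq w q) := by
    intro q
    unfold Lq
    rw [pow_ex]
    rfl
  simp only [h1]
  refine Tendsto.mul ?_ ?_
  · exact (Complex.continuous_ofReal.tendsto _).comp (lim_cos σ n)
  · have hc : Continuous (ex n) := by
      unfold ex
      fun_prop
    exact (hc.tendsto _).comp (wq_lim w hw)

instance fact2 : Fact ((0 : ℝ) < 2) := ⟨two_pos⟩

/-- functions on the circle as periodic functions -/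
def li (F : C(AddCircle (2 : ℝ), ℂ)) : ℝ → ℂ := fun x => F (x : AddCircle (2 : ℝ))

theorem li_cont (F : C(AddCircle (2 : ℝ), ℂ)) : Continuous (li F) :=
  F.continuous.comp (AddCircle.continuous_mk' 2)

theorem li_le (F : C(AddCircle (2 : ℝ), ℂ)) (x : ℝ) : ‖li F x‖ ≤ ‖F‖ := by
  exact F.norm_coe_le_norm _

theorem int_li (σ w : ℝ) (F : C(AddCircle (2 : ℝ), ℂ)) :
    Integrable (fun ξ : ℝ => li F (w + σ * ξ)) (ProbabilityTheory.gaussianReal 0 1) := by
  refine Integrable.of_bound ?_ ‖F‖ (Eventually.of_forall fun ξ => li_le F _)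
  exact ((li_cont F).comp (by fun_prop)).aestronglyMeasurable

theorem Lq_le (σ w : ℝ) (q : ℕ) (F : C(AddCircle (2 : ℝ), ℂ)) : ‖Lq σ w q (li F)‖ ≤ ‖F‖ :=
  pow_bound _ _ _ _ (li_le F) _

theorem Gq_le (σ w : ℝ) (F : C(AddCircle (2 : ℝ), ℂ)) : ‖Gq σ w (li F)‖ ≤ ‖F‖ := by
  have h := norm_integral_le_of_norm_le_const (μ := ProbabilityTheory.gaussianReal 0 1)
    (Eventually.of_forall fun ξ : ℝ => li_le F (w + σ * ξ))
  simpa [Gq] using h

theorem Lq_sub (σ w : ℝ) (q : ℕ) (F G : C(AddCircle (2 : ℝ), ℂ)) :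
    Lq σ w q (li F) - Lq σ w q (li G) = Lq σ w q (li (F - G)) := by
  unfold Lq
  have e : li (F - G) = li F - li G := rfl
  rw [e, map_sub]
  rfl

theorem Gq_sub (σ w : ℝ) (F G : C(AddCircle (2 : ℝ), ℂ)) :
    Gq σ w (li F) - Gq σ w (li G) = Gq σ w (li (F - G)) := by
  unfold Gq
  rw [← integral_sub (int_li σ w F) (int_li σ w G)]
  rfl

theorem conv_span (σ w : ℝ) (hw : 0 ≤ w) (F : C(AddCircle (2 : ℝ), ℂ))
    (hF : F ∈ Submodule.span ℂ (Set.range (@fourier 2))) :
    Tendsto (fun q => Lq σ w q (li F)) atTop (𝓝 (Gq σ w (li F))) := by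
  induction hF using Submodule.span_induction with
  | mem F hF =>
    obtain ⟨n, rfl⟩ := hF
    have e : li (fourier n) = ex n := by
      funext x
      unfold li ex
      rw [fourier_coe_apply]
      congr 1
      push_cast
      ring
    rw [e]
    exact Lq_ex σ w hw n
  | zero =>
    have h0 : ∀ q, Lq σ w q (li 0) = 0 := by
      intro q
      have := Lq_le σ w q 0
      simpa using this
    have h1 : Gq σ w (li 0) = 0 := by
      have := Gq_le σ w 0
      simpa using this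
    simp only [h0, h1]
    exact tendsto_const_nhds
  | add F G _ _ hF hG =>
    have h0 : ∀ q, Lq σ w q (li (F + G)) = Lq σ w q (li F) + Lq σ w q (li G) := by
      intro q
      unfold Lq
      have e : li (F + G) = li F + li G := rfl
      rw [e, map_add]
      rfl
    have h1 : Gq σ w (li (F + G)) = Gq σ w (li F) + Gq σ w (li G) := by
      unfold Gq
      rw [← integral_add (int_li σ w F) (int_li σ w G)]
      rfl
    simp only [h0, h1]
    exact hF.add hG
  | smul c F _ hF =>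
    have h0 : ∀ q, Lq σ w q (li (c • F)) = c * Lq σ w q (li F) := by
      intro q
      unfold Lq
      have e : li (c • F) = c • li F := rfl
      rw [e, map_smul]
      rfl
    have h1 : Gq σ w (li (c • F)) = c * Gq σ w (li F) := by
      unfold Gq
      rw [← integral_const_mul]
      rfl
    simp only [h0, h1]
    exact hF.const_mul c

theorem conv (σ w : ℝ) (hw : 0 ≤ w) (F : C(AddCircle (2 : ℝ), ℂ)) :
    Tendsto (fun q => Lq σ w q (li F)) atTop (𝓝 (Gq σ w (li F))) := by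
  rw [Metric.tendsto_atTop]
  intro ε hε
  have hF : F ∈ (Submodule.span ℂ (Set.range (@fourier 2))).topologicalClosure := by
    rw [span_fourier_closure_eq_top]
    trivial
  obtain ⟨P, hP, hPF⟩ := Metric.mem_closure_iff.1 hF (ε / 3) (by positivity)
  rw [dist_eq_norm] at hPF
  have h1 := conv_span σ w hw P hP
  rw [Metric.tendsto_atTop] at h1
  obtain ⟨q₀, hq₀⟩ := h1 (ε / 3) (by positivity)
  refine ⟨q₀, fun q hq => ?_⟩
  have h2 := hq₀ q hq
  rw [dist_eq_norm] at h2 ⊢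
  have e1 : Lq σ w q (li F) - Gq σ w (li F) = (Lq σ w q (li P) - Gq σ w (li P)) +
      (Lq σ w q (li F) - Lq σ w q (li P)) - (Gq σ w (li F) - Gq σ w (li P)) := by ring
  rw [e1, Lq_sub, Gq_sub]
  have h3 := Lq_le σ w q (F - P)
  have h4 := Gq_le σ w (F - P)
  calc ‖(Lq σ w q (li P) - Gq σ w (li P)) + Lq σ w q (li (F - P)) - Gq σ w (li (F - P))‖
      ≤ ‖Lq σ w q (li P) - Gq σ w (li P)‖ + ‖Lq σ w q (li (F - P))‖ + ‖Gq σ w (li (F - P))‖ :=
        (norm_sub_le _ _).trans (add_le_add (norm_add_le _ _) le_rfl)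
    _ < ε := by linarith

end PO1

open PO1 in
theorem t_PO1 : S_PO1 := by
  intro f hf hsym hpos σ w hw0 hw1
  have hodd : ∀ x, f (-x) = -f x := by
    intro x
    have := hsym 0 x
    simpa using this
  have hper : Function.Periodic (fun x : ℝ => (f x : ℂ)) 2 := by
    intro x
    have h1 := hsym 1 (-x)
    have h2 : 2 * ((1 : ℤ) : ℝ) - -x = x + 2 := by
      push_cast
      ring
    rw [h2, hodd, neg_neg] at h1
    show (f (x + 2) : ℂ) = f x
    rw [h1]
  set F : C(AddCircle (2 : ℝ), ℂ) := ⟨hper.lift, continuous_coinduced_dom.mpr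
    (Complex.continuous_ofReal.comp hf)⟩ with hF
  have hli : li F = fun x => (f x : ℂ) := rfl
  have h1 := conv σ w hw0 F
  rw [hli] at h1
  have h2 : Gq σ w (fun x => (f x : ℂ)) = ((∫ ξ, f (w + σ * ξ) ∂(ProbabilityTheory.gaussianReal 0 1) : ℝ) : ℂ) := by
    unfold Gq
    exact integral_ofReal
  rw [h2] at h1
  have h3 := (Complex.continuous_re.tendsto _).comp h1
  rw [Complex.ofReal_re] at h3
  refine ge_of_tendsto h3 ?_
  filter_upwards [eventually_gt_atTop 0] with q hq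
  have hq' : (0 : ℝ) < q := by exact_mod_cast hq
  refine pos q hq (st σ q) (fun x => (f x : ℂ)) ?_ ?_ ⌊w * q⌋₊ ?_
  · intro k x
    show ((f (2 * k - x) : ℝ) : ℂ) = -(f x : ℂ)
    rw [hsym]
    push_cast
    rfl
  · intro i hi
    show 0 ≤ ((f (i / q) : ℝ) : ℂ).re
    rw [Complex.ofReal_re]
    refine hpos _ (by positivity) ?_
    rw [div_le_one hq']
    exact_mod_cast hi
  · have h4 : w * q ≤ q := by nlinarith
    have h5 : ⌊w * (q : ℝ)⌋₊ ≤ ⌊(q : ℝ)⌋₊ := Nat.floor_mono h4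
    rwa [Nat.floor_natCast] at h5

end

end STZ3
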