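import Pool.Agent.STZ3.StC3

/-!
# POS: positivity of the heat flow for functions which are odd with respect to the walls of a root
-/

namespace STZ3

open STZ LGR MeasureTheory Matrix Filter

open scoped ComplexConjugate Matrix Real Topology

noncomputable section

namespace POS

open ProbabilityTheory

/-! ### the Gaussian measure and reflections (as in LWB and HRM) -/

/-- the density of the Gaussian measure -/
theorem ga_eq (r : ℕ) : ga r = (volume : Measure (Fin r → ℝ)).withDensity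
    (fun ξ => ENNReal.ofReal (∏ i, gaussianPDFReal 0 1 (ξ i))) := by
  unfold ga
  refine Measure.pi_eq fun s hs => ?_
  have hint : Integrable (fun ξ : Fin r → ℝ => ∏ i, gaussianPDFReal 0 1 (ξ i)) :=
    Integrable.fintype_prod (f := fun _ => gaussianPDFReal 0 1) (μ := fun _ => volume)
      fun i => integrable_gaussianPDFReal 0 1
  rw [withDensity_apply _ (MeasurableSet.univ_pi hs), ← ofReal_integral_eq_lintegral_ofReal
    hint.restrict (ae_of_all _ fun ξ => Finset.prod_nonneg fun i _ =>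
      gaussianPDFReal_nonneg 0 1 (ξ i)), volume_pi, Measure.restrict_pi_pi,
    integral_fintype_prod_eq_prod (fun _ => gaussianPDFReal 0 1), ENNReal.ofReal_prod_of_nonneg]
  · refine Finset.prod_congr rfl fun i _ => ?_
    rw [gaussianReal_apply_eq_integral 0 one_ne_zero]
  · intro i _
    exact integral_nonneg fun x => gaussianPDFReal_nonneg 0 1 x

theorem int_eq {r : ℕ} (F : (Fin r → ℝ) → ℝ) :
    ∫ ξ, F ξ ∂(ga r) = ∫ ξ, (∏ i, gaussianPDFReal 0 1 (ξ i)) * F ξ := by
  rw [ga_eq, integral_withDensity_eq_integral_toReal_smul]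
  · refine integral_congr_ae (ae_of_all _ fun ξ => ?_)
    simp only [smul_eq_mul]
    rw [ENNReal.toReal_ofReal (Finset.prod_nonneg fun i _ => gaussianPDFReal_nonneg 0 1 (ξ i))]
  · refine ENNReal.measurable_ofReal.comp ?_
    exact Finset.measurable_prod _ fun i _ =>
      (measurable_gaussianPDFReal 0 1).comp (measurable_pi_apply i)
  · exact ae_of_all _ fun _ => ENNReal.ofReal_lt_top

/-- the reflection -/
def R {r : ℕ} (u : Fin r → ℝ) (η : Fin r → ℝ) : Fin r → ℝ :=
  η - (2 * (∑ l, η l * u l) / ∑ l, u l * u l) • u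

/-- the reflection as a linear map -/
def RL {r : ℕ} (u : Fin r → ℝ) : (Fin r → ℝ) →ₗ[ℝ] (Fin r → ℝ) where
  toFun := R u
  map_add' x y := by
    ext i
    simp only [R, Pi.add_apply, Pi.sub_apply, Pi.smul_apply, smul_eq_mul, add_mul,
      Finset.sum_add_distrib]
    ring
  map_smul' a x := by
    ext i
    simp only [R, Pi.sub_apply, Pi.smul_apply, smul_eq_mul, RingHom.id_apply, mul_assoc]
    rw [← Finset.mul_sum]
    ring

theorem R_dot {r : ℕ} (u : Fin r → ℝ) (w : Fin r → ℝ) (η : Fin r → ℝ) :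
    ∑ l, R u η l * w l = ∑ l, η l * w l -
      (2 * (∑ l, η l * u l) / ∑ l, u l * u l) * ∑ l, u l * w l := by
  rw [Finset.mul_sum, ← Finset.sum_sub_distrib]
  refine Finset.sum_congr rfl ?_
  intro l _
  simp only [R, Pi.sub_apply, Pi.smul_apply, smul_eq_mul]
  ring

theorem R_dotu {r : ℕ} {u : Fin r → ℝ} (hu : ∑ l, u l * u l ≠ 0) (η : Fin r → ℝ) :
    ∑ l, R u η l * u l = -∑ l, η l * u l := by
  rw [R_dot, div_mul_cancel₀ _ hu]
  ring

theorem R_R {r : ℕ} {u : Fin r → ℝ} (hu : ∑ l, u l * u l ≠ 0) (η : Fin r → ℝ) :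
    R u (R u η) = η := by
  have h1 : R u (R u η) = R u η - (2 * (∑ l, R u η l * u l) / ∑ l, u l * u l) • u := rfl
  rw [h1, R_dotu hu]
  ext i
  simp only [R, Pi.sub_apply, Pi.smul_apply, smul_eq_mul]
  ring

theorem R_norm {r : ℕ} {u : Fin r → ℝ} (hu : ∑ l, u l * u l ≠ 0) (η : Fin r → ℝ) :
    ∑ l, R u η l ^ 2 = ∑ l, η l ^ 2 := by
  have h1 : ∑ l, R u η l ^ 2 = ∑ l, R u η l * R u η l :=
    Finset.sum_congr rfl fun l _ => by ring
  have h2 : ∑ l, η l ^ 2 = ∑ l, η l * η l := Finset.sum_congr rfl fun l _ => by ring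
  have h3 : ∑ l, η l * R u η l = ∑ l, R u η l * η l :=
    Finset.sum_congr rfl fun l _ => by ring
  have h4 : ∑ l, u l * R u η l = ∑ l, R u η l * u l :=
    Finset.sum_congr rfl fun l _ => by ring
  have h5 : ∑ l, u l * η l = ∑ l, η l * u l :=
    Finset.sum_congr rfl fun l _ => by ring
  rw [h1, h2, R_dot, h3, h4, R_dotu hu, R_dot, h5]
  ring

theorem R_mp {r : ℕ} {u : Fin r → ℝ} (hu : ∑ l, u l * u l ≠ 0) :
    MeasurePreserving (R u) (volume : Measure (Fin r → ℝ)) volume := by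
  have h1 : (RL u) * (RL u) = 1 := by
    refine LinearMap.ext ?_
    intro x
    exact R_R hu x
  have h2 : LinearMap.det (RL u) * LinearMap.det (RL u) = 1 := by
    rw [← map_mul, h1, map_one]
  have h3 : LinearMap.det (RL u) ≠ 0 := by
    intro h
    rw [h, zero_mul] at h2
    exact zero_ne_one h2
  have h4 : |(LinearMap.det (RL u))⁻¹| = 1 := by
    rcases mul_self_eq_one_iff.1 h2 with h | h
    · rw [h]; simp
    · rw [h]; simp
  refine ⟨?_, ?_⟩
  · exact (LinearMap.continuous_of_finiteDimensional (RL u)).measurable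
  · have h5 := Real.map_linearMap_volume_pi_eq_smul_volume_pi h3
    rw [h4, ENNReal.ofReal_one, one_smul] at h5
    exact h5

theorem R_emb {r : ℕ} {u : Fin r → ℝ} (hu : ∑ l, u l * u l ≠ 0) : MeasurableEmbedding (R u) := by
  have hm : Measurable (R u) :=
    (LinearMap.continuous_of_finiteDimensional (RL u)).measurable
  exact (⟨⟨R u, R u, R_R hu, R_R hu⟩, hm, hm⟩ : (Fin r → ℝ) ≃ᵐ (Fin r → ℝ)).measurableEmbedding

theorem R_int {r : ℕ} {u : Fin r → ℝ} (hu : ∑ l, u l * u l ≠ 0) (F : (Fin r → ℝ) → ℝ) :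
    ∫ ξ, F (R u ξ) ∂(ga r) = ∫ ξ, F ξ ∂(ga r) := by
  rw [int_eq, int_eq, ← (R_mp hu).integral_comp (R_emb hu)]
  refine integral_congr_ae (ae_of_all _ fun ξ => ?_)
  simp only
  rw [R_R hu]
  congr 1
  have h1 : ∀ ζ : Fin r → ℝ, ∏ i, gaussianPDFReal 0 1 (ζ i) =
      (∏ _i : Fin r, (√(2 * π * ((1 : NNReal) : ℝ)))⁻¹) * Real.exp (-(∑ i, ζ i ^ 2) / 2) := by
    intro ζ
    simp only [gaussianPDFReal]
    rw [Finset.prod_mul_distrib, ← Real.exp_sum]
    congr 2
    rw [neg_div, Finset.sum_div, ← Finset.sum_neg_distrib]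
    refine Finset.sum_congr rfl ?_
    intro i _
    simp only [NNReal.coe_one, sub_zero, mul_one]
    ring
  rw [h1, h1, R_norm hu]

instance ga_prob (r : ℕ) : IsProbabilityMeasure (ga r) :=
  inferInstanceAs (IsProbabilityMeasure (Measure.pi fun _ : Fin r => gaussianReal 0 1))

/-- splitting off the first coordinate -/
theorem split {r : ℕ} (H : ℝ × (Fin r → ℝ) → ℝ) :
    ∫ x, H (x 0, fun j => x j.succ) ∂(ga (r + 1)) = ∫ p, H p ∂((gaussianReal 0 1).prod (ga r)) := by
  have mp := measurePreserving_piFinSuccAbove (fun _ : Fin (r + 1) => gaussianReal 0 1) 0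
  have h1 := mp.integral_comp' H
  have e : ∀ x : Fin (r + 1) → ℝ, MeasurableEquiv.piFinSuccAbove (fun _ => ℝ) 0 x =
      (x 0, fun j => x j.succ) := by
    intro x
    rfl
  simp only [e] at h1
  exact h1

/-- the component in the direction `w` is replaced by an independent one -/
theorem rot {r : ℕ} (G : (Fin r → ℝ) → ℝ) (hG : Continuous G) (C : ℝ) (hb : ∀ ξ, |G ξ| ≤ C)
    (w : Fin r → ℝ) (q : ℝ) (hq : 0 < q) (hw : ∑ l, w l * w l = q) :
    ∫ ξ, G ξ ∂(ga r) = ∫ ξ, (∫ ζ, G (ξ - ((∑ l, ξ l * w l) / q) • w + (ζ / √q) • w)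
      ∂(gaussianReal 0 1)) ∂(ga r) := by
  set K : ℝ × (Fin r → ℝ) → ℝ :=
    fun p => G (p.2 - ((∑ l, p.2 l * w l) / q) • w + (p.1 / √q) • w) with hK
  have hKc : Continuous K := by
    apply hG.comp
    fun_prop
  have hKi : Integrable K ((gaussianReal 0 1).prod (ga r)) :=
    Integrable.of_bound hKc.aestronglyMeasurable C (ae_of_all _ fun p => hb _)
  have hsq : √q * √q = q := Real.mul_self_sqrt hq.le
  have hs0 : √q ≠ 0 := (Real.sqrt_pos.2 hq).ne'
  set v : Fin (r + 1) → ℝ := Fin.cons (-√q) w with hv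
  have hvv : ∑ l, v l * v l = 2 * q := by
    rw [Fin.sum_univ_succ]
    simp only [hv, Fin.cons_zero, Fin.cons_succ]
    rw [hw]
    linear_combination hsq
  have hv0 : ∑ l, v l * v l ≠ 0 := by
    rw [hvv]
    positivity
  have e1 : ∫ ξ, G ξ ∂(ga r) = ∫ x, G (fun j => x j.succ) ∂(ga (r + 1)) := by
    have h1 := split (r := r) (fun p => G p.2)
    rw [h1, integral_fun_snd]
    simp
  have e2 := R_int (r := r + 1) hv0 (fun x => G (fun j => x j.succ))
  have e3 : ∀ x : Fin (r + 1) → ℝ, G (fun j => R v x j.succ) = K (x 0, fun j => x j.succ) := by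
    intro x
    show G _ = G _
    congr 1
    funext j
    have h1 : ∑ l, x l * v l = -√q * x 0 + ∑ l : Fin r, x l.succ * w l := by
      rw [Fin.sum_univ_succ]
      simp only [hv, Fin.cons_zero, Fin.cons_succ]
      ring
    simp only [R, hvv, h1, Pi.sub_apply, Pi.add_apply, Pi.smul_apply, smul_eq_mul]
    have h2 : v j.succ = w j := by simp [hv]
    rw [h2]
    have h3 : x 0 / √q = √q * x 0 / q := by
      rw [div_eq_div_iff hs0 hq.ne']
      linear_combination (-x 0) * hsq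
    rw [h3]
    field_simp
    ring
  rw [e1, ← e2]
  simp only [e3]
  rw [split K, integral_prod_symm K hKi]

/-! ### one variable -/

theorem gneg (h : ℝ → ℝ) : ∫ x, h (-x) ∂(gaussianReal 0 1) = ∫ x, h x ∂(gaussianReal 0 1) := by
  have h1 : (gaussianReal 0 1).map (fun x : ℝ => -x) = gaussianReal 0 1 := by
    have := gaussianReal_map_neg (μ := 0) (v := 1)
    rw [neg_zero] at this
    exact this
  have h2 : MeasurePreserving (fun x : ℝ => -x) (gaussianReal 0 1) (gaussianReal 0 1) :=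
    ⟨measurable_neg, h1⟩
  exact h2.integral_comp (MeasurableEquiv.neg ℝ).measurableEmbedding h

theorem one (hPO : S_PO1) (f : ℝ → ℝ) (hf : Continuous f)
    (hodd : ∀ (k : ℤ) (w : ℝ), f (2 * k - w) = -f w)
    (hpos : ∀ w, 0 ≤ Real.sin (π * w) * f w) (σ u : ℝ) :
    0 ≤ Real.sin (π * u) * ∫ ζ, f (u + σ * ζ) ∂(gaussianReal 0 1) := by
  have h01 : ∀ w, 0 ≤ w → w ≤ 1 → 0 ≤ f w := by
    intro w hw0 hw1
    rcases hw0.eq_or_lt with h | h
    · have h1 := hodd 0 0
      rw [← h]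
      have h2 : (2 * ((0 : ℤ) : ℝ) - 0) = 0 := by simp
      rw [h2] at h1
      linarith
    · rcases hw1.eq_or_lt with h' | h'
      · have h1 := hodd 1 1
        rw [h']
        have h2 : (2 * ((1 : ℤ) : ℝ) - 1) = 1 := by norm_num
        rw [h2] at h1
        linarith
      · have hs : 0 < Real.sin (π * w) := by
          apply Real.sin_pos_of_pos_of_lt_pi
          · positivity
          · nlinarith [Real.pi_pos]
        exact (mul_nonneg_iff_of_pos_left hs).1 (hpos w)
  set g : ℝ → ℝ := fun w => ∫ ζ, f (w + σ * ζ) ∂(gaussianReal 0 1) with hg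
  have g01 : ∀ w, 0 ≤ w → w ≤ 1 → 0 ≤ g w := fun w h0 h1 => hPO f hf hodd h01 σ w h0 h1
  have gsym : ∀ (k : ℤ) (w : ℝ), g (2 * k - w) = -g w := by
    intro k w
    show ∫ ζ, f (2 * k - w + σ * ζ) ∂(gaussianReal 0 1) = -∫ ζ, f (w + σ * ζ) ∂(gaussianReal 0 1)
    rw [← integral_neg, ← gneg]
    refine integral_congr_ae (ae_of_all _ fun ζ => ?_)
    simp only
    rw [← hodd k]
    congr 1
    ring
  have hs01 : ∀ w : ℝ, 0 ≤ w → w ≤ 1 → 0 ≤ Real.sin (π * w) := by
    intro w h0 h1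
    apply Real.sin_nonneg_of_nonneg_of_le_pi
    · positivity
    · nlinarith [Real.pi_pos]
  show 0 ≤ Real.sin (π * u) * g u
  set n : ℤ := round (u / 2) with hn
  set w : ℝ := u - 2 * n with hw
  have hround := abs_sub_round (u / 2)
  rw [← hn, abs_le] at hround
  have hw1 : -1 ≤ w := by
    rw [hw]
    linarith [hround.1]
  have hw2 : w ≤ 1 := by
    rw [hw]
    linarith [hround.2]
  have hu : u = w + 2 * n := by
    rw [hw]
    ring
  have hsin : Real.sin (π * u) = Real.sin (π * w) := by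
    have h1 : π * u = π * w + n * (2 * π) := by
      rw [hu]
      ring
    rw [h1, Real.sin_add_int_mul_two_pi]
  have hgu : g u = -g (-w) := by
    rw [← gsym n]
    congr 1
    rw [hu]
    ring
  rcases le_total 0 w with h | h
  · have h2 : g (-w) = -g w := by
      have h3 := gsym 0 w
      have h4 : (2 * ((0 : ℤ) : ℝ) - w) = -w := by simp
      rw [h4] at h3
      exact h3
    rw [hgu, h2, neg_neg, hsin]
    exact mul_nonneg (hs01 w h hw2) (g01 w h hw2)
  · have h2 : 0 ≤ -w := by linarith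
    have h3 : -w ≤ 1 := by linarith
    have h4 : Real.sin (π * w) = -Real.sin (π * (-w)) := by
      rw [mul_neg, Real.sin_neg, neg_neg]
    rw [hgu, hsin, h4, neg_mul_neg]
    exact mul_nonneg (hs01 _ h2 h3) (g01 _ h2 h3)

/-! ### the displacement -/

theorem gy_cont {r : ℕ} (z : Matrix (Fin r) (Fin r) ℝ) (s : ℝ) : Continuous (gy z s) := by
  unfold gy
  fun_prop

theorem gy_add {r : ℕ} (z : Matrix (Fin r) (Fin r) ℝ) (s t : ℝ) (x w : Fin r → ℝ) (j : Fin r) :
    gy z s (x + t • w) j = gy z s x j + t * (√(2 * s) / (2 * π) * ∑ l, w l * z l j) := by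
  unfold gy
  have h1 : ∑ l, (x + t • w) l * z l j = ∑ l, x l * z l j + t * ∑ l, w l * z l j := by
    rw [Finset.mul_sum, ← Finset.sum_add_distrib]
    refine Finset.sum_congr rfl fun l _ => ?_
    simp only [Pi.add_apply, Pi.smul_apply, smul_eq_mul]
    ring
  rw [h1]
  ring

theorem dz_gy {r : ℕ} (z : Matrix (Fin r) (Fin r) ℝ) (s : ℝ) (x : Fin r → ℝ) (a : Fin r → ℤ) :
    dz a (gy z s x) = √(2 * s) / (2 * π) * ∑ l, x l * ∑ i, z l i * (a i : ℝ) := by
  unfold dz gy
  simp only [Finset.mul_sum]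
  rw [Finset.sum_comm]
  refine Finset.sum_congr rfl fun l _ => Finset.sum_congr rfl fun i _ => ?_
  ring

theorem dz_add {r : ℕ} (a : Fin r → ℤ) (x y : Fin r → ℝ) : dz a (x + y) = dz a x + dz a y := by
  unfold dz
  rw [← Finset.sum_add_distrib]
  refine Finset.sum_congr rfl fun i _ => ?_
  rw [Pi.add_apply]
  ring

end POS

open POS in
theorem t_POS : M_POS := by
  intro hQ hPO r Φ B hr hI hW z hz a ha s F hs hF hb hodd hpos θ
  obtain ⟨C, hC⟩ := hb
  have haΦ : a ∈ Φ := (Finset.mem_filter.1 ha).1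
  obtain ⟨-, -, -, -, -, -, hlast⟩ := hQ r Φ B hI hW
  obtain ⟨hq0, hql⟩ := hlast a haΦ
  set q : ℝ := ((a.1 ⬝ᵥ ((rd Φ).A *ᵥ a.1) : ℤ) : ℝ) / 2 with hqd
  have hq : 0 < q := by
    have : (0 : ℝ) < ((a.1 ⬝ᵥ ((rd Φ).A *ᵥ a.1) : ℤ) : ℝ) := by exact_mod_cast hq0
    rw [hqd]
    linarith
  set w : Fin r → ℝ := fun l => ∑ i, z l i * (a.1 i : ℝ) with hwd
  -- the transpose of `z` applied to `w`
  have hzw : ∀ j, ∑ l, w l * z l j = q * (a.2 j : ℝ) / 2 := by
    intro j
    have h1 : ∑ l, w l * z l j = ∑ i, (a.1 i : ℝ) * (((rd Φ).A i j : ℝ) / 2) := by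
      have h2 : ∀ i, (a.1 i : ℝ) * (((rd Φ).A i j : ℝ) / 2) = ∑ l, z l i * (a.1 i : ℝ) * z l j := by
        intro i
        rw [← hz i j, Finset.mul_sum]
        refine Finset.sum_congr rfl fun l _ => ?_
        ring
      simp only [h2, hwd, Finset.sum_mul]
      rw [Finset.sum_comm]
    have h3 := hql (Pi.single j 1)
    have h4 : a.1 ⬝ᵥ ((rd Φ).A *ᵥ Pi.single j 1) = ∑ i, a.1 i * (rd Φ).A i j := by
      rw [Matrix.mulVec_single_one]
      rfl
    have h5 : a.2 ⬝ᵥ Pi.single j 1 = a.2 j := by simp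
    rw [h4, h5] at h3
    have h6 : (2 : ℝ) * ∑ i, (a.1 i : ℝ) * ((rd Φ).A i j : ℝ) = (a.2 j : ℝ) * (2 * q) := by
      have h7 := congrArg (Int.cast : ℤ → ℝ) h3
      push_cast at h7
      rw [h7, hqd]
      ring
    rw [h1]
    have h8 : ∑ i, (a.1 i : ℝ) * (((rd Φ).A i j : ℝ) / 2) =
        (∑ i, (a.1 i : ℝ) * ((rd Φ).A i j : ℝ)) / 2 := by
      rw [Finset.sum_div]
      refine Finset.sum_congr rfl fun i _ => ?_
      ring
    rw [h8]
    linear_combination (1 / 4) * h6
  have haa : ∑ j, (a.1 j : ℝ) * (a.2 j : ℝ) = 2 := by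
    have h1 := hI.two a haΦ
    have h2 := congrArg (Int.cast : ℤ → ℝ) h1
    simp only [dotProduct] at h2
    push_cast at h2
    rw [← h2]
    refine Finset.sum_congr rfl fun i _ => ?_
    ring
  have hww : ∑ l, w l * w l = q := by
    have h1 : ∑ l, w l * w l = ∑ j, (a.1 j : ℝ) * ∑ l, w l * z l j := by
      have h2 : ∀ l, w l * w l = ∑ j, (a.1 j : ℝ) * (w l * z l j) := by
        intro l
        have h3 : w l = ∑ i, z l i * (a.1 i : ℝ) := rfl
        conv_lhs => rw [h3]
        rw [← h3, mul_comm, Finset.mul_sum]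
        refine Finset.sum_congr rfl fun i _ => ?_
        ring
      simp only [h2, Finset.mul_sum]
      rw [Finset.sum_comm]
    rw [h1]
    simp only [hzw]
    have h2 : ∑ j, (a.1 j : ℝ) * (q * (a.2 j : ℝ) / 2) = (q / 2) * ∑ j, (a.1 j : ℝ) * (a.2 j : ℝ) := by
      rw [Finset.mul_sum]
      refine Finset.sum_congr rfl fun i _ => ?_
      ring
    rw [h2, haa]
    ring
  have hrot := rot (fun ξ => F (θ + gy z s ξ)) (hF.comp (continuous_const.add (gy_cont z s))) C
    (fun ξ => hC _) w q hq hww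
  have hTH : TH z s F θ = ∫ ξ, F (θ + gy z s ξ) ∂(ga r) := rfl
  rw [hTH, hrot, ← integral_const_mul]
  refine integral_nonneg fun ξ => ?_
  set ξ' : Fin r → ℝ := ξ - ((∑ l, ξ l * w l) / q) • w with hξ'
  have hperp : ∑ l, ξ' l * w l = 0 := by
    have h1 : ∑ l, ξ' l * w l = ∑ l, ξ l * w l - ((∑ l, ξ l * w l) / q) * ∑ l, w l * w l := by
      rw [Finset.mul_sum, ← Finset.sum_sub_distrib]
      refine Finset.sum_congr rfl fun l _ => ?_
      simp only [hξ', Pi.sub_apply, Pi.smul_apply, smul_eq_mul]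
      ring
    rw [h1, hww, div_mul_cancel₀ _ hq.ne', sub_self]
  set η : Fin r → ℝ := θ + gy z s ξ' with hη
  set u : ℝ := dz a.1 θ with hu
  have hdη : dz a.1 η = u := by
    rw [hη, dz_add, dz_gy]
    have h1 : ∑ l, ξ' l * ∑ i, z l i * (a.1 i : ℝ) = 0 := hperp
    rw [h1, mul_zero, add_zero]
  set σ : ℝ := √(2 * s) / (2 * π) * √q with hσ
  set P : ℝ → Fin r → ℝ := fun x i => η i + (x - u) / 2 * (a.2 i : ℝ) with hP
  have hPc : Continuous P := by
    rw [hP]
    fun_prop
  have hdP : ∀ x, dz a.1 (P x) = x := by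
    intro x
    have h1 : P x = η + fun i => (x - u) / 2 * (a.2 i : ℝ) := rfl
    rw [h1, dz_add, hdη]
    have h2 : dz a.1 (fun i => (x - u) / 2 * (a.2 i : ℝ)) = (x - u) / 2 * ∑ j, (a.1 j : ℝ) * (a.2 j : ℝ) := by
      unfold dz
      rw [Finset.mul_sum]
      refine Finset.sum_congr rfl fun i _ => ?_
      ring
    rw [h2, haa]
    ring
  have harP : ∀ (k : ℤ) (x : ℝ), ar a k (P x) = P (2 * k - x) := by
    intro k x
    funext i
    unfold ar
    rw [hdP]
    simp only [hP]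
    ring
  have h1 := one hPO (fun x => F (P x)) (hF.comp hPc)
    (fun k x => by
      show F (P (2 * k - x)) = -F (P x)
      rw [← harP, hodd])
    (fun x => by
      have := hpos (P x)
      unfold al at this
      rw [hdP] at this
      exact this) σ u
  have h2 : ∀ ζ : ℝ, F (θ + gy z s (ξ' + (ζ / √q) • w)) = F (P (u + σ * ζ)) := by
    intro ζ
    congr 1
    funext j
    rw [Pi.add_apply, gy_add, hzw]
    simp only [hP, hη, Pi.add_apply, hσ]
    have hs0 : √q ≠ 0 := (Real.sqrt_pos.2 hq).ne'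
    have hsq : √q * √q = q := Real.mul_self_sqrt hq.le
    have h3 : ζ / √q * (√(2 * s) / (2 * π) * (q * (a.2 j : ℝ) / 2)) =
        √(2 * s) / (2 * π) * √q * ζ / 2 * (a.2 j : ℝ) := by
      have h4 : q / √q = √q := by
        rw [div_eq_iff hs0]
        exact hsq.symm
      calc ζ / √q * (√(2 * s) / (2 * π) * (q * (a.2 j : ℝ) / 2))
          = √(2 * s) / (2 * π) * (q / √q) * ζ / 2 * (a.2 j : ℝ) := by ring
        _ = _ := by rw [h4]
    rw [h3]
    ring
  simp only [h2]
  exact h1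

end

end STZ3
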