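import Pool.Agent.STZ3.StM

/-!
# `PRM`: facts about the parameters
-/

namespace STZ3

open STZ LGR MeasureTheory Matrix Filter

open scoped ComplexConjugate Matrix Real Topology

noncomputable section

namespace PRM

variable {r : ℕ} {Φ : RT r} {B : Matrix (Fin r) (Fin r) ℤ}

lemma nonempty_pos (hr : 1 ≤ r) (hI : IRD Φ B) (hW : WFF Φ B) : Nonempty {p // p ∈ pos Φ} := by
  have i : Fin r := ⟨0, hr⟩
  refine ⟨⟨(B i, Pi.single i 1), ?_⟩⟩
  rw [hW.dich _ (hI.base i)]
  intro h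
  have h2 := (hW.ppos _ h).2.1 i
  simp at h2

variable {J : ℕ} (x : {p // p ∈ pos Φ} → Fin (J + 1))

lemma dpos (p : {p // p ∈ pos Φ}) : 0 < dl x p := by
  unfold dl; positivity

lemma dle (p : {p // p ∈ pos Φ}) : dl x p ≤ bx' x :=
  le_ciSup (Set.finite_range (dl x)).bddAbove p

lemma dge (p : {p // p ∈ pos Φ}) : 1 / 2 ^ J ≤ dl x p := by
  unfold dl
  refine one_div_le_one_div_of_le (by positivity) ?_
  exact pow_le_pow_right₀ (by norm_num) (Nat.lt_succ_iff.1 (x p).2)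

lemma dle1 (p : {p // p ∈ pos Φ}) : dl x p ≤ 1 := by
  unfold dl
  rw [div_le_one (by positivity)]
  exact one_le_pow₀ (by norm_num)

lemma ble [Nonempty {p // p ∈ pos Φ}] : bx' x ≤ 1 := ciSup_le (dle1 x)

lemma bge [Nonempty {p // p ∈ pos Φ}] : 1 / 2 ^ J ≤ bx' x := by
  obtain ⟨p⟩ := ‹Nonempty {p // p ∈ pos Φ}›
  exact (dge x p).trans (dle x p)

lemma bat [Nonempty {p // p ∈ pos Φ}] : ∃ p, bx' x = dl x p := by
  obtain ⟨p, hp⟩ := exists_eq_ciSup_of_finite (f := dl x)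
  exact ⟨p, hp.symm⟩

lemma bpos [Nonempty {p // p ∈ pos Φ}] : 0 < bx' x :=
  lt_of_lt_of_le (by positivity) (bge x)

lemma tpos [Nonempty {p // p ∈ pos Φ}] : 0 < th x := by
  unfold th
  exact div_pos (bpos x) (by positivity)

lemma tle [Nonempty {p // p ∈ pos Φ}] : th x ≤ 1 / 2 ^ J := by
  unfold th
  exact div_le_div_of_nonneg_right (ble x) (by positivity)

lemma half [Nonempty {p // p ∈ pos Φ}] (hJ : 1 ≤ J) : th x ≤ 1 / 2 := by
  refine (tle x).trans (one_div_le_one_div_of_le (by norm_num) ?_)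
  calc (2 : ℝ) = 2 ^ 1 := by norm_num
    _ ≤ 2 ^ J := pow_le_pow_right₀ (by norm_num) hJ

lemma tge [Nonempty {p // p ∈ pos Φ}] : 1 / 2 ^ J ≤ √(th x) := by
  refine Real.le_sqrt_of_sq_le ?_
  unfold th
  rw [sq, ← div_eq_mul_one_div]
  exact div_le_div_of_nonneg_right (bge x) (by positivity)

lemma rpos [Nonempty {p // p ∈ pos Φ}] (ε : ℝ) : 0 < ro ε x := by
  unfold ro
  exact mul_pos (Real.rpow_pos_of_pos (by norm_num) _) (Real.sqrt_pos.2 (tpos x))

lemma rth [Nonempty {p // p ∈ pos Φ}] (ε : ℝ) : ro ε x ^ 2 / th x = (2 : ℝ) ^ (4 * ε * J) := by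
  unfold ro
  rw [mul_pow, Real.sq_sqrt (tpos x).le, mul_div_assoc, div_self (tpos x).ne', mul_one,
    ← Real.rpow_natCast, ← Real.rpow_mul (by norm_num)]
  congr 1
  push_cast
  ring

lemma rle [Nonempty {p // p ∈ pos Φ}] (ε : ℝ) (h1 : ε ≤ 1 / 4) : ro ε x ≤ 1 := by
  have h2 : ro ε x ^ 2 ≤ 1 := by
    have h3 : ro ε x ^ 2 = (2 : ℝ) ^ (4 * ε * J) * th x := by
      rw [← rth x ε, div_mul_cancel₀ _ (tpos x).ne']
    rw [h3]
    have h4 : (2 : ℝ) ^ (4 * ε * J) ≤ 2 ^ J := by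
      rw [← Real.rpow_natCast]
      refine Real.rpow_le_rpow_of_exponent_le (by norm_num) ?_
      have : (0 : ℝ) ≤ J := Nat.cast_nonneg J
      nlinarith
    calc (2 : ℝ) ^ (4 * ε * J) * th x ≤ 2 ^ J * (1 / 2 ^ J) :=
          mul_le_mul h4 (tle x) (tpos x).le (by positivity)
      _ = 1 := by rw [mul_one_div, div_self (by positivity)]
  exact (sq_le_one_iff₀ (rpos x ε).le).1 h2

end PRM

theorem t_PRM : S_PRM := by
  intro r Φ B hr hI hW
  have := PRM.nonempty_pos hr hI hW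
  exact
    { dpos := fun J x p => PRM.dpos x p
      dle := fun J x p => PRM.dle x p
      dge := fun J x p => PRM.dge x p
      ble := fun J x => PRM.ble x
      bge := fun J x => PRM.bge x
      bat := fun J x => PRM.bat x
      tpos := fun J x => PRM.tpos x
      tle := fun J x => PRM.tle x
      half := fun J x hJ => PRM.half x hJ
      tge := fun J x => PRM.tge x
      rpos := fun J x ε => PRM.rpos x ε
      rle := fun J x ε _ h => PRM.rle x ε h
      rth := fun J x ε => PRM.rth x ε }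

end

end STZ3
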