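import Pool.Agent.STZ3.StQ
import Pool.Agent.STZ.Base
import Pool.Agent.LGR.SLIP

/-!
# Compact simple groups of rank two: module PSF, facts about `ps` and `tt`
-/

namespace STZ3

open STZ LGR MeasureTheory Matrix Filter

open scoped ComplexConjugate Matrix Real Topology

noncomputable section

namespace PSF

variable {N : ℕ}

lemma hs2_trace (A : MT N) : ((hs2 A : ℝ) : ℂ) = (A * Aᴴ).trace := by
  unfold hs2
  rw [Matrix.trace]
  push_cast
  refine Finset.sum_congr rfl fun i _ => ?_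
  rw [Matrix.diag_apply, Matrix.mul_apply]
  refine Finset.sum_congr rfl fun j _ => ?_
  rw [Matrix.conjTranspose_apply]
  exact (Complex.mul_conj' _).symm

lemma hs2_nonneg (A : MT N) : 0 ≤ hs2 A :=
  Finset.sum_nonneg fun _ _ => Finset.sum_nonneg fun _ _ => by positivity

lemma mul_ct (g : SU N) : g.1 * g.1ᴴ = 1 := congrArg Subtype.val (mul_inv_cancel g)

lemma ct_mul (g : SU N) : g.1ᴴ * g.1 = 1 := congrArg Subtype.val (inv_mul_cancel g)

lemma hs2_left (g : SU N) (A : MT N) : hs2 (g.1 * A) = hs2 A := by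
  have h1 : ((hs2 (g.1 * A) : ℝ) : ℂ) = ((hs2 A : ℝ) : ℂ) := by
    rw [hs2_trace, hs2_trace, Matrix.conjTranspose_mul]
    have h2 : g.1 * A * (Aᴴ * g.1ᴴ) = g.1 * (A * Aᴴ * g.1ᴴ) := by
      simp only [Matrix.mul_assoc]
    rw [h2, Matrix.trace_mul_comm, Matrix.mul_assoc (A * Aᴴ), ct_mul, Matrix.mul_one]
  exact_mod_cast h1

lemma hs2_right (g : SU N) (A : MT N) : hs2 (A * g.1) = hs2 A := by
  have h1 : ((hs2 (A * g.1) : ℝ) : ℂ) = ((hs2 A : ℝ) : ℂ) := by
    rw [hs2_trace, hs2_trace, Matrix.conjTranspose_mul]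
    have h2 : A * g.1 * (g.1ᴴ * Aᴴ) = A * (g.1 * g.1ᴴ) * Aᴴ := by
      simp only [Matrix.mul_assoc]
    rw [h2, mul_ct, Matrix.mul_one]
  exact_mod_cast h1

lemma hs2_neg (A : MT N) : hs2 (-A) = hs2 A := by
  unfold hs2
  simp only [Matrix.neg_apply, norm_neg]

lemma sqrt_hs2 (A : MT N) :
    √(hs2 A) = ‖(WithLp.toLp 2 (fun p : Fin N × Fin N => A p.1 p.2) : EuclideanSpace ℂ (Fin N × Fin N))‖ := by
  rw [EuclideanSpace.norm_eq, Fintype.sum_prod_type]
  rfl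

lemma sqrt_add (A B : MT N) : √(hs2 (A + B)) ≤ √(hs2 A) + √(hs2 B) := by
  rw [sqrt_hs2, sqrt_hs2, sqrt_hs2]
  exact norm_add_le (WithLp.toLp 2 (fun p : Fin N × Fin N => A p.1 p.2) :
    EuclideanSpace ℂ (Fin N × Fin N)) (WithLp.toLp 2 (fun p : Fin N × Fin N => B p.1 p.2))

variable {H : Subgroup (SU N)}

lemma ps_hs2 (g : H) : ps g = hs2 (g.1.1 - 1) := rfl

lemma ps_inv (g : H) : ps g⁻¹ = ps g := by
  rw [ps_hs2, ps_hs2]
  have h1 : (g⁻¹ : H).1.1 - 1 = -((g⁻¹ : H).1.1 * (g.1.1 - 1)) := by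
    rw [Matrix.mul_sub, Matrix.mul_one]
    have h2 : (g⁻¹ : H).1.1 * g.1.1 = 1 := ct_mul g.1
    rw [h2]
    abel
  rw [h1, hs2_neg, hs2_left]

lemma ps_cnj (g h : H) : ps (h * g * h⁻¹) = ps g := by
  rw [ps_hs2, ps_hs2]
  have h1 : (h * g * h⁻¹ : H).1.1 - 1 = h.1.1 * (g.1.1 - 1) * (h⁻¹ : H).1.1 := by
    have h2 : h.1.1 * (h⁻¹ : H).1.1 = 1 := mul_ct h.1
    have h3 : (h * g * h⁻¹ : H).1.1 = h.1.1 * g.1.1 * (h⁻¹ : H).1.1 := rfl
    rw [Matrix.mul_sub, Matrix.mul_one, Matrix.sub_mul, h2, h3]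
  rw [h1, hs2_right, hs2_left]

lemma ps_mul (g h : H) : √(ps (g * h)) ≤ √(ps g) + √(ps h) := by
  rw [ps_hs2, ps_hs2, ps_hs2]
  have h1 : (g * h : H).1.1 - 1 = (g.1.1 - 1) + g.1.1 * (h.1.1 - 1) := by
    have h3 : (g * h : H).1.1 = g.1.1 * h.1.1 := rfl
    rw [Matrix.mul_sub, Matrix.mul_one, h3]
    abel
  rw [h1]
  refine (sqrt_add _ _).trans ?_
  rw [hs2_left]

lemma ps_one : ps (1 : H) = 0 := by
  rw [ps_hs2]
  have h1 : (1 : H).1.1 - 1 = 0 := sub_self _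
  rw [h1]
  unfold hs2
  simp

lemma ps_zero (g : H) (h : ps g = 0) : g = 1 := by
  unfold ps at h
  apply Subtype.ext
  apply Subtype.ext
  ext i j
  have h1 := (Finset.sum_eq_zero_iff_of_nonneg (fun i _ => Finset.sum_nonneg fun j _ => by
    positivity)).1 h i (Finset.mem_univ i)
  have h2 := (Finset.sum_eq_zero_iff_of_nonneg (fun j _ => by positivity)).1 h1 j
    (Finset.mem_univ j)
  have h3 : ‖g.1.1 i j - (1 : MT N) i j‖ = 0 := by
    exact pow_eq_zero_iff (two_ne_zero) |>.1 h2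
  exact sub_eq_zero.1 (norm_eq_zero.1 h3)

lemma ps_cont : Continuous fun g : H => ps g := by
  unfold ps
  have h1 : ∀ i j, Continuous fun g : H => g.1.1 i j := fun i j =>
    (continuous_entry i j).comp continuous_subtype_val
  exact continuous_finsetSum _ fun i _ => continuous_finsetSum _ fun j _ =>
    (((h1 i j).sub continuous_const).norm.pow 2)

lemma ps_pow (g : H) (n : ℕ) : √(ps (g ^ n)) ≤ n * √(ps g) := by
  induction n with
  | zero => simp [ps_one]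
  | succ n ih =>
    rw [pow_succ]
    refine (ps_mul _ _).trans ?_
    push_cast
    linarith

set_option backward.isDefEq.respectTransparency false in
open scoped Matrix.Norms.Operator in
lemma ps_le_norm (g : H) : √(ps g) ≤ N * ‖g.1.1 - 1‖ := by
  have h1 : ps g ≤ (N * ‖g.1.1 - 1‖) ^ 2 := by
    rw [ps_hs2]
    unfold hs2
    calc ∑ i, ∑ j, ‖(g.1.1 - 1) i j‖ ^ 2 ≤ ∑ _i : Fin N, ∑ _j : Fin N, ‖g.1.1 - 1‖ ^ 2 :=
          Finset.sum_le_sum fun i _ => Finset.sum_le_sum fun j _ =>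
            pow_le_pow_left₀ (norm_nonneg _) (SLIP.entry_le_norm _ i j) 2
      _ = (N * ‖g.1.1 - 1‖) ^ 2 := by
          simp only [Finset.sum_const, Finset.card_univ, Fintype.card_fin, nsmul_eq_mul]
          ring
  calc √(ps g) ≤ √((N * ‖g.1.1 - 1‖) ^ 2) := Real.sqrt_le_sqrt h1
    _ = N * ‖g.1.1 - 1‖ := Real.sqrt_sq (by positivity)

/-- the norm of an element of the Cartan algebra -/
lemma s_hx {r : ℕ} (Hc : Fin r → MT N) (x : Fin r → ℝ) (ρ : ℝ) (h : ∀ j, |x j| ≤ ρ) :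
    SLIP.s (hx Hc x) ≤ ρ * ∑ j, SLIP.s (Hc j) := by
  have h1 : ∀ i k, ‖hx Hc x i k‖ ≤ ∑ j, ρ * ‖Hc j i k‖ := by
    intro i k
    unfold hx
    rw [Matrix.sum_apply]
    refine (norm_sum_le _ _).trans (Finset.sum_le_sum fun j _ => ?_)
    rw [Matrix.smul_apply, smul_eq_mul, norm_mul, norm_mul, Complex.norm_I, mul_one,
      Complex.norm_real]
    exact mul_le_mul_of_nonneg_right (h j) (norm_nonneg _)
  calc SLIP.s (hx Hc x) ≤ ∑ i, ∑ k, ∑ j, ρ * ‖Hc j i k‖ :=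
        Finset.sum_le_sum fun i _ => Finset.sum_le_sum fun k _ => h1 i k
    _ = ρ * ∑ j, SLIP.s (Hc j) := by
        unfold SLIP.s
        simp_rw [Finset.mul_sum]
        have e1 : ∀ i : Fin N, ∑ k, ∑ j, ρ * ‖Hc j i k‖ = ∑ j, ∑ k, ρ * ‖Hc j i k‖ := fun i =>
          Finset.sum_comm
        simp_rw [e1]
        exact Finset.sum_comm

set_option backward.isDefEq.respectTransparency false in
open scoped Matrix.Norms.Operator in
lemma ps_exp : ∃ δ : ℝ, 0 < δ ∧ ∀ (X : MT N) (g : H), g.1.1 = NormedSpace.exp X → SLIP.s X < δ →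
    √(ps g) ≤ 2 * N * SLIP.s X := by
  obtain ⟨δ, hδ, h⟩ := SLIP.near (𝔸 := Matrix (Fin N) (Fin N) ℂ)
  refine ⟨δ, hδ, fun X g hg hX => ?_⟩
  have h1 := (h X ((SLIP.norm_le_s X).trans_lt hX)).1
  have h2 := SLIP.norm_le_s X
  have h3 := ps_le_norm g
  rw [hg] at h3
  have hN : (0 : ℝ) ≤ N := Nat.cast_nonneg _
  nlinarith

end PSF

open PSF in
theorem t_PSF : M_PSF := by
  intro hLIEB hWFAC hTAUF N H r Φ B Hc E c k d hCX
  have hcl := hCX.closed
  have hcs : CompactSpace H := isCompact_iff_compactSpace.1 hcl.isCompact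
  have T := hTAUF N H r Φ B Hc E hcl hCX.lrd
  have htt : ∀ θ, tt H Hc θ = ⟨ta Hc θ, T.mem θ⟩ := by
    intro θ
    unfold tt
    rw [dif_pos (T.mem θ)]
  have hadd : ∀ θ θ' : Fin r → ℝ, tt H Hc (θ + θ') = tt H Hc θ * tt H Hc θ' := by
    intro θ θ'
    rw [htt, htt, htt]
    apply Subtype.ext
    exact T.add θ θ'
  have hint : ∀ n : Fin r → ℤ, tt H Hc (fun j => n j) = 1 := by
    intro n
    rw [htt]
    apply Subtype.ext
    exact T.int n
  have h0 : tt H Hc 0 = 1 := by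
    have h1 := hint 0
    have h2 : (fun j => ((0 : Fin r → ℤ) j : ℝ)) = (0 : Fin r → ℝ) := by
      funext j
      simp
    rwa [h2] at h1
  have hneg : ∀ θ : Fin r → ℝ, tt H Hc (-θ) = (tt H Hc θ)⁻¹ := by
    intro θ
    rw [eq_inv_iff_mul_eq_one, ← hadd, neg_add_cancel, h0]
  have hnsmul : ∀ (n : ℕ) (θ : Fin r → ℝ), tt H Hc (n • θ) = tt H Hc θ ^ n := by
    intro n θ
    induction n with
    | zero => rw [zero_smul, h0, pow_zero]
    | succ n ih => rw [succ_nsmul, hadd, ih, pow_succ]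
  obtain ⟨C₁, hC₁⟩ := (isCompact_univ (X := H)).exists_bound_of_continuousOn
    (ps_cont (N := N) (H := H)).continuousOn
  obtain ⟨δ, hδ, hexp⟩ := ps_exp (N := N) (H := H)
  set M : ℝ := ∑ j, SLIP.s (Hc j) with hM
  have hM0 : 0 ≤ M := Finset.sum_nonneg fun j _ => SLIP.s_nonneg _
  have hN0 : (0 : ℝ) ≤ N := Nat.cast_nonneg _
  refine ⟨|C₁| + (4 * π * N * M) ^ 2, by positivity, ?_⟩
  refine ⟨fun g => hs2_nonneg _, fun g => ?_, ps_cont, ps_inv, ps_cnj, ps_mul, ps_zero, ?_,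
    fun θ => by rw [htt], hadd, hint, hneg, ?_⟩
  · have h1 := hC₁ g (Set.mem_univ g)
    have h2 : ps g ≤ |C₁| := ((le_abs_self _).trans h1).trans (le_abs_self _)
    have h3 : 0 ≤ (4 * π * N * M) ^ 2 := by positivity
    linarith
  · have h1 : tt H Hc = fun θ => ⟨ta Hc θ, T.mem θ⟩ := funext htt
    rw [h1]
    exact T.cont.subtype_mk _
  · intro ζ ρ hζ
    have hρ : 0 ≤ ρ := (abs_nonneg _).trans (hζ ⟨0, hCX.one_le⟩)
    obtain ⟨n, hn⟩ := exists_nat_gt (max 1 (2 * π * ρ * M / δ))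
    have hn1 : (1 : ℝ) < n := (le_max_left _ _).trans_lt hn
    have hn2 : 2 * π * ρ * M / δ < n := (le_max_right _ _).trans_lt hn
    have hn0 : (0 : ℝ) < n := by linarith
    set η : Fin r → ℝ := fun j => ζ j / n with hη
    have e1 : ζ = n • η := by
      funext j
      rw [hη, Pi.smul_apply, nsmul_eq_mul]
      field_simp
    set X : MT N := hx Hc fun j => 2 * π * η j with hX
    have h1 : (tt H Hc η).1.1 = NormedSpace.exp X := by
      rw [htt]
      exact T.coe η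
    have h2 : SLIP.s X ≤ 2 * π * ρ / n * M := by
      refine s_hx Hc _ _ fun j => ?_
      have h3 : 2 * π * η j = 2 * π / n * ζ j := by
        rw [hη]
        ring
      rw [h3, abs_mul, abs_of_nonneg (by positivity)]
      have h4 := mul_le_mul_of_nonneg_left (hζ j) (show (0 : ℝ) ≤ 2 * π / n by positivity)
      refine h4.trans (le_of_eq ?_)
      ring
    have h3 : SLIP.s X < δ := by
      refine h2.trans_lt ?_
      rw [div_lt_iff₀ hδ] at hn2
      rw [div_mul_eq_mul_div, div_lt_iff₀ hn0]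
      linarith
    have h4 := hexp X _ h1 h3
    have h5 : √(ps (tt H Hc ζ)) ≤ 4 * π * N * M * ρ := by
      rw [e1, hnsmul]
      refine (ps_pow _ n).trans ?_
      have h6 : √(ps (tt H Hc η)) ≤ 2 * N * (2 * π * ρ / n * M) :=
        h4.trans (mul_le_mul_of_nonneg_left h2 (by positivity))
      refine (mul_le_mul_of_nonneg_left h6 hn0.le).trans (le_of_eq ?_)
      field_simp
      ring
    have h6 : ps (tt H Hc ζ) = √(ps (tt H Hc ζ)) ^ 2 := (Real.sq_sqrt (hs2_nonneg _)).symm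
    rw [h6]
    have h7 : √(ps (tt H Hc ζ)) ^ 2 ≤ (4 * π * N * M * ρ) ^ 2 :=
      pow_le_pow_left₀ (Real.sqrt_nonneg _) h5 2
    have h8 : 0 ≤ |C₁| * ρ ^ 2 := by positivity
    nlinarith

end

end STZ3
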