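import Pool.Agent.STZ3.StD3

/-!
# QNS: the standard cutoff for an annulus
-/

namespace STZ3

open STZ LGR MeasureTheory Matrix Filter

open scoped ComplexConjugate Matrix Real Topology

noncomputable section

namespace QNS

/-- the condition in the definition of `qn` -/
def cnd {r : ℕ} (Φ : RT r) (X : ℕ) (l : Fin r → ℤ) : Prop :=
  (∀ p ∈ pos Φ, |p.2 ⬝ᵥ l| ≤ (X : ℤ)) ∧ ∃ p ∈ pos Φ, (X : ℤ) ≤ 64 * |p.2 ⬝ᵥ l|

theorem ab {r : ℕ} {Φ : RT r} (hR : RV (rd Φ) (pos Φ)) {w : Matrix (Fin r) (Fin r) ℤ} (hw : w ∈ WF Φ)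
    {p : (Fin r → ℤ) × (Fin r → ℤ)} (hp : p ∈ pos Φ) :
    ∃ q ∈ pos Φ, ∀ l, |p.2 ⬝ᵥ (w *ᵥ l)| = |q.2 ⬝ᵥ l| := by
  obtain ⟨q, hq, h | h⟩ := hR.cperm w hw p hp
  · exact ⟨q, hq, fun l => by rw [h l]⟩
  · exact ⟨q, hq, fun l => by rw [h l, abs_neg]⟩

theorem fwd {r : ℕ} {Φ : RT r} {B : Matrix (Fin r) (Fin r) ℤ} (hW : WFF Φ B) (hR : RV (rd Φ) (pos Φ)) (X : ℕ)
    {w : Matrix (Fin r) (Fin r) ℤ} (hw : w ∈ WF Φ) (l : Fin r → ℤ) (h : cnd Φ X l) : cnd Φ X (w *ᵥ l) := by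
  obtain ⟨w', hw', h1, -⟩ := hW.inv w hw
  refine ⟨fun p hp => ?_, ?_⟩
  · obtain ⟨q, hq, e⟩ := ab hR hw hp
    rw [e l]
    exact h.1 q hq
  · obtain ⟨p, hp, hX⟩ := h.2
    obtain ⟨q, hq, e⟩ := ab hR hw' hp
    refine ⟨q, hq, ?_⟩
    rw [← e (w *ᵥ l), Matrix.mulVec_mulVec, h1, Matrix.one_mulVec]
    exact hX

end QNS

open QNS in
theorem t_QNS : M_QNS := by
  intro hRV r Φ B hr hI hW X
  have hR := hRV r Φ B hr hI
  have hinv : ∀ w ∈ WF Φ, ∀ l, cnd Φ X (w *ᵥ l) ↔ cnd Φ X l := by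
    intro w hw l
    refine ⟨fun h => ?_, fwd hW hR X hw l⟩
    obtain ⟨w', hw', h1, -⟩ := hW.inv w hw
    have := fwd hW hR X hw' _ h
    rwa [Matrix.mulVec_mulVec, h1, Matrix.one_mulVec] at this
  have hq : ∀ l, qn Φ X l ≠ 0 → cnd Φ X l := by
    intro l h
    by_contra hc
    apply h
    unfold qn
    exact if_neg hc
  refine ⟨⟨fun l => ?_, fun l => ?_, fun w hw l => ?_, fun l h => (hq l h).1⟩, fun l h => (hq l h).2⟩
  · unfold qn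
    split_ifs <;> norm_num
  · unfold qn
    split_ifs <;> norm_num
  · by_cases hc : cnd Φ X l
    · have hc' := (hinv w hw l).2 hc
      exact (if_pos hc').trans (if_pos hc).symm
    · have hc' : ¬ cnd Φ X (w *ᵥ l) := fun h => hc ((hinv w hw l).1 h)
      exact (if_neg hc').trans (if_neg hc).symm

end

end STZ3
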