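import Pool.Agent.STZ3.StQ

/-!
# SBD: the bound (6.6) for the heat kernel on the averaged torus
-/

set_option autoImplicit false

namespace STZ3

open STZ LGR MeasureTheory Matrix Filter

open scoped ComplexConjugate Matrix Real Topology

noncomputable section

namespace SBD

/-- the integral is at most the lower integral of the positive part -/
theorem ofReal_integral_le {α : Type*} [MeasurableSpace α] (μ : Measure α) (f : α → ℝ) :
    ENNReal.ofReal (∫ x, f x ∂μ) ≤ ∫⁻ x, ENNReal.ofReal (f x) ∂μ := by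
  by_cases hf : Integrable f μ
  · rw [integral_eq_lintegral_pos_part_sub_lintegral_neg_part hf]
    refine le_trans (ENNReal.ofReal_le_ofReal (sub_le_self _ ENNReal.toReal_nonneg)) ?_
    exact ENNReal.ofReal_toReal_le
  · rw [integral_undef hf]
    simp

/-- the set of the pairs `(h, θ)` -/
def AA {N : ℕ} {H : Subgroup (SU N)} {r : ℕ} (Hc : Fin r → MT N) (u : H) (ρ : ℝ) :
    Set (H × (Fin r → ℝ)) :=
  {x : H × (Fin r → ℝ) | x.2 ∈ Set.Icc 0 1 ∧ ps (x.1 * tt H Hc (-x.2) * x.1⁻¹ * u) ≤ ρ ^ 2}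

theorem aa_meas {N : ℕ} {H : Subgroup (SU N)} [SecondCountableTopology H] {r : ℕ}
    {Hc : Fin r → MT N} {CP : ℝ} (hP : PSC H Hc CP) (u : H) (ρ : ℝ) :
    MeasurableSet (AA Hc u ρ) := by
  have hc : Continuous fun x : H × (Fin r → ℝ) => ps (x.1 * tt H Hc (-x.2) * x.1⁻¹ * u) :=
    hP.cont.comp (((continuous_fst.mul (hP.tcont.comp continuous_snd.neg)).mul
      continuous_fst.inv).mul continuous_const)
  have h1 : MeasurableSet {x : H × (Fin r → ℝ) | x.2 ∈ Set.Icc (0 : Fin r → ℝ) 1} :=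
    measurable_snd measurableSet_Icc
  exact h1.inter (isClosed_le hc continuous_const).measurableSet

theorem vol1 (r : ℕ) : volume (Set.Icc (0 : Fin r → ℝ) 1) = 1 := by
  rw [Real.volume_Icc_pi]
  simp

theorem aa_fin {N : ℕ} {H : Subgroup (SU N)} {r : ℕ}
    {Hc : Fin r → MT N} (μ : Measure H) [IsProbabilityMeasure μ] (u : H) (ρ : ℝ) :
    (μ.prod volume) (AA Hc u ρ) ≠ ⊤ := by
  have h1 : AA Hc u ρ ⊆ Set.univ ×ˢ Set.Icc (0 : Fin r → ℝ) 1 := fun x hx => ⟨trivial, hx.1⟩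
  have h2 := measure_mono (μ := μ.prod (volume : Measure (Fin r → ℝ))) h1
  rw [Measure.prod_prod, measure_univ, vol1, one_mul] at h2
  exact ne_top_of_le_ne_top ENNReal.one_ne_top h2

/-- the bound by the measure of the set -/
theorem bnd {N : ℕ} {H : Subgroup (SU N)} [SecondCountableTopology H] {r : ℕ}
    {Hc : Fin r → MT N} {CP : ℝ} (hP : PSC H Hc CP) (μ : Measure H) [IsProbabilityMeasure μ]
    (u : H) (ρ : ℝ) (F : H → ℝ) (K₁ K₂ : ℝ) (h1 : 0 ≤ K₁) (h2 : 0 ≤ K₂)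
    (hF1 : ∀ x, F x ≤ K₁) (hF2 : ∀ x, ρ ^ 2 ≤ ps x → F x ≤ K₂) :
    ∫ h, (∫ θ in Set.Icc (0 : Fin r → ℝ) 1, F (h * tt H Hc (-θ) * h⁻¹ * u)) ∂μ ≤
      K₁ * (μ.prod volume).real (AA Hc u ρ) + K₂ := by
  have hAm := aa_meas hP u ρ
  have hpt : ∀ (h : H) (θ : Fin r → ℝ), θ ∈ Set.Icc (0 : Fin r → ℝ) 1 →
      ENNReal.ofReal (F (h * tt H Hc (-θ) * h⁻¹ * u)) ≤
        ENNReal.ofReal K₁ * (Prod.mk h ⁻¹' AA Hc u ρ).indicator 1 θ + ENNReal.ofReal K₂ := by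
    intro h θ hθ
    by_cases hx : θ ∈ Prod.mk h ⁻¹' AA Hc u ρ
    · rw [Set.indicator_of_mem hx, Pi.one_apply, mul_one]
      exact (ENNReal.ofReal_le_ofReal (hF1 _)).trans le_self_add
    · rw [Set.indicator_of_notMem hx, mul_zero, zero_add]
      apply ENNReal.ofReal_le_ofReal
      apply hF2
      by_contra hc
      exact hx ⟨hθ, (not_le.1 hc).le⟩
  have hin : ∀ h : H, ∫⁻ θ in Set.Icc (0 : Fin r → ℝ) 1,
      ENNReal.ofReal (F (h * tt H Hc (-θ) * h⁻¹ * u)) ≤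
        ENNReal.ofReal K₁ * volume (Prod.mk h ⁻¹' AA Hc u ρ) + ENNReal.ofReal K₂ := by
    intro h
    have hm : MeasurableSet (Prod.mk h ⁻¹' AA Hc u ρ) := measurable_prodMk_left hAm
    calc ∫⁻ θ in Set.Icc (0 : Fin r → ℝ) 1, ENNReal.ofReal (F (h * tt H Hc (-θ) * h⁻¹ * u))
        ≤ ∫⁻ θ in Set.Icc (0 : Fin r → ℝ) 1,
            (ENNReal.ofReal K₁ * (Prod.mk h ⁻¹' AA Hc u ρ).indicator 1 θ + ENNReal.ofReal K₂) :=
          setLIntegral_mono' measurableSet_Icc (hpt h)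
      _ = ENNReal.ofReal K₁ * (∫⁻ θ in Set.Icc (0 : Fin r → ℝ) 1,
            (Prod.mk h ⁻¹' AA Hc u ρ).indicator 1 θ) + ENNReal.ofReal K₂ := by
          rw [lintegral_add_right _ measurable_const, lintegral_const_mul' _ _ ENNReal.ofReal_ne_top,
            setLIntegral_const, vol1, mul_one]
      _ ≤ _ := by
          gcongr
          refine (setLIntegral_le_lintegral _ _).trans ?_
          rw [lintegral_indicator_one hm]
  have key : ENNReal.ofReal (∫ h, (∫ θ in Set.Icc (0 : Fin r → ℝ) 1,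
      F (h * tt H Hc (-θ) * h⁻¹ * u)) ∂μ) ≤
        ENNReal.ofReal (K₁ * (μ.prod volume).real (AA Hc u ρ) + K₂) := by
    calc _ ≤ ∫⁻ h, ENNReal.ofReal (∫ θ in Set.Icc (0 : Fin r → ℝ) 1,
          F (h * tt H Hc (-θ) * h⁻¹ * u)) ∂μ := ofReal_integral_le _ _
      _ ≤ ∫⁻ h, (∫⁻ θ in Set.Icc (0 : Fin r → ℝ) 1,
          ENNReal.ofReal (F (h * tt H Hc (-θ) * h⁻¹ * u))) ∂μ :=
          lintegral_mono fun h => ofReal_integral_le _ _
      _ ≤ ∫⁻ h, (ENNReal.ofReal K₁ * volume (Prod.mk h ⁻¹' AA Hc u ρ) + ENNReal.ofReal K₂) ∂μ :=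
          lintegral_mono hin
      _ = ENNReal.ofReal K₁ * (μ.prod volume) (AA Hc u ρ) + ENNReal.ofReal K₂ := by
          rw [lintegral_add_right _ measurable_const, lintegral_const_mul' _ _ ENNReal.ofReal_ne_top,
            lintegral_const, measure_univ, mul_one, Measure.prod_apply hAm]
      _ = _ := by
          rw [ENNReal.ofReal_add (by positivity) h2, ENNReal.ofReal_mul h1, Measure.real,
            ENNReal.ofReal_toReal (aa_fin μ u ρ)]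
  exact (ENNReal.ofReal_le_ofReal_iff (by positivity)).1 key

end SBD

theorem t_SBD : M_SBD := by
  intro _ hCO hPS hKS hKT hEB N H r Φ B Hc E c k d hX μ _ _ χ hχ j C₂
  obtain ⟨CP, hCP, hP⟩ := hPS N H r Φ B Hc E c k d hX
  obtain ⟨-, -, C₁, hC₁, h1⟩ := hKS N H r Φ B Hc E c k d hX χ hχ
  obtain ⟨C₃, hC₃, h3⟩ := hKT N H r Φ B Hc E c k d hX χ hχ j
  obtain ⟨C₄, hC₄, h4⟩ := hEB N H r Φ B Hc E c k d hX μ C₂
  have hsec : SecondCountableTopology H :=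
    TopologicalSpace.Subtype.secondCountableTopology (H : Set (SU N))
  refine ⟨C₁ * C₄ + C₃, by positivity, ?_⟩
  intro ϑ ρ FF hϑ hϑ1 hρ hρ1 hF u
  have hb := SBD.bnd hP μ u ρ (fun x => ‖hk Φ χ (2 * ϑ) x‖) (C₁ * ϑ ^ (-((d : ℝ) / 2)))
    (C₃ * (ϑ ^ (-((d : ℝ) / 2)) * (ϑ / ρ ^ 2) ^ j)) (by positivity) (by positivity)
    (fun x => by
      refine (h1 (2 * ϑ) (by positivity) (by linarith) x).trans ?_
      refine mul_le_mul_of_nonneg_left ?_ hC₁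
      refine Real.rpow_le_rpow_of_nonpos hϑ (by linarith) ?_
      have : (0 : ℝ) ≤ (d : ℝ) / 2 := by positivity
      linarith)
    (fun x hx => h3 ϑ ρ hϑ hϑ1 hρ x hx)
  have hpos : 0 < FF u := by
    obtain ⟨h, hh, θ, e⟩ := hCO N H r Φ B Hc E hX.closed hX.conn hX.lrd u.1 u.2
    have e1 : u = (⟨h, hh⟩ : H) * tt H Hc θ * (⟨h, hh⟩ : H)⁻¹ := by
      apply Subtype.ext
      rw [Subgroup.coe_mul, Subgroup.coe_mul, Subgroup.coe_inv, hP.tcoe]
      exact e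
    rw [e1, hF.cnj, hF.tor]
    exact Finset.prod_pos fun p _ => by positivity
  have h5 := h4 ρ FF hρ hρ1 hF u
  have h6 : (μ.prod volume).real (SBD.AA Hc u ρ) ≤ C₄ * ρ ^ d / FF u := by
    rw [le_div_iff₀ hpos]
    exact h5
  have e2 : (ρ ^ 2 / ϑ) ^ ((d : ℝ) / 2) = ρ ^ d * ϑ ^ (-((d : ℝ) / 2)) := by
    rw [Real.div_rpow (by positivity) hϑ.le, Real.rpow_neg hϑ.le, div_eq_mul_inv]
    congr 1
    rw [← Real.rpow_natCast ρ 2, ← Real.rpow_mul hρ.le, ← Real.rpow_natCast ρ d]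
    congr 1
    push_cast
    ring
  have h7 : 0 ≤ (ρ ^ 2 / ϑ) ^ ((d : ℝ) / 2) / FF u := by positivity
  have h8 : 0 ≤ ϑ ^ (-((d : ℝ) / 2)) * (ϑ / ρ ^ 2) ^ j := by positivity
  refine hb.trans ?_
  calc C₁ * ϑ ^ (-((d : ℝ) / 2)) * (μ.prod volume).real (SBD.AA Hc u ρ) +
        C₃ * (ϑ ^ (-((d : ℝ) / 2)) * (ϑ / ρ ^ 2) ^ j)
      ≤ C₁ * ϑ ^ (-((d : ℝ) / 2)) * (C₄ * ρ ^ d / FF u) +
        C₃ * (ϑ ^ (-((d : ℝ) / 2)) * (ϑ / ρ ^ 2) ^ j) := by
        gcongr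
    _ = C₁ * C₄ * ((ρ ^ 2 / ϑ) ^ ((d : ℝ) / 2) / FF u) +
        C₃ * (ϑ ^ (-((d : ℝ) / 2)) * (ϑ / ρ ^ 2) ^ j) := by
        rw [e2]
        ring
    _ ≤ (C₁ * C₄ + C₃) * ((ρ ^ 2 / ϑ) ^ ((d : ℝ) / 2) / FF u +
        ϑ ^ (-((d : ℝ) / 2)) * (ϑ / ρ ^ 2) ^ j) := by
        have g1 := mul_nonneg hC₃ h7
        have g2 := mul_nonneg (mul_nonneg hC₁ hC₄) h8
        nlinarith

end

end STZ3
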