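import Pool.Agent.STZ3.StM
import Pool.Agent.STZ.GEO

/-!
# SET: the sets of (7.5)
-/

set_option autoImplicit false

namespace STZ3

open STZ LGR MeasureTheory Matrix Filter

open scoped ComplexConjugate Matrix Real Topology

noncomputable section

namespace SET

theorem nd_eq (θ : ℝ) : nd θ = ‖(θ : UnitAddCircle)‖ := (UnitAddCircle.norm_eq (x := θ)).symm

theorem nd_cont : Continuous nd := by
  have : nd = fun θ : ℝ => ‖(θ : UnitAddCircle)‖ := funext nd_eq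
  rw [this]
  exact continuous_norm.comp (AddCircle.continuous_mk' 1)

theorem nd_add (x y : ℝ) : nd (x + y) ≤ nd x + nd y := by
  rw [nd_eq, nd_eq, nd_eq, AddCircle.coe_add]
  exact norm_add_le _ _

theorem nd_neg (x : ℝ) : nd (-x) = nd x := by
  rw [nd_eq, nd_eq, AddCircle.coe_neg, norm_neg]

theorem nd_sub (x y : ℝ) : nd (x - y) ≤ nd x + nd y := by
  rw [sub_eq_add_neg]
  exact (nd_add _ _).trans (by rw [nd_neg])

theorem nd_le_abs (x : ℝ) : nd x ≤ |x| := by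
  have := round_le x 0
  simpa [nd] using this

theorem dz_add {r : ℕ} (κ : Fin r → ℤ) (θ φ : Fin r → ℝ) : dz κ (θ + φ) = dz κ θ + dz κ φ := by
  unfold dz
  rw [← Finset.sum_add_distrib]
  exact Finset.sum_congr rfl fun i _ => by rw [Pi.add_apply]; ring

theorem dz_sub {r : ℕ} (κ : Fin r → ℤ) (θ φ : Fin r → ℝ) : dz κ (θ - φ) = dz κ θ - dz κ φ := by
  unfold dz
  rw [← Finset.sum_sub_distrib]
  exact Finset.sum_congr rfl fun i _ => by rw [Pi.sub_apply]; ring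

theorem dz_cont {r : ℕ} (κ : Fin r → ℤ) : Continuous (dz κ) := by
  unfold dz
  fun_prop

/-- a bound of the coefficients of the roots -/
def Sp {r : ℕ} (Φ : RT r) : ℝ := ∑ p ∈ pos Φ, ∑ i, |(p.1 i : ℝ)|

theorem Sp_nonneg {r : ℕ} (Φ : RT r) : 0 ≤ Sp Φ :=
  Finset.sum_nonneg fun _ _ => Finset.sum_nonneg fun _ _ => abs_nonneg _

theorem dz_le {r : ℕ} {Φ : RT r} (p : {p // p ∈ pos Φ}) {s : Fin r → ℝ} {t : ℝ} (ht : 0 ≤ t)
    (h : ∀ i, |s i| ≤ t) : |dz p.1.1 s| ≤ Sp Φ * t := by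
  have h1 : ∑ i, |(p.1.1 i : ℝ)| ≤ Sp Φ :=
    Finset.single_le_sum (f := fun p : (Fin r → ℤ) × (Fin r → ℤ) => ∑ i, |(p.1 i : ℝ)|)
      (fun _ _ => Finset.sum_nonneg fun _ _ => abs_nonneg _) p.2
  unfold dz
  calc |∑ i, (p.1.1 i : ℝ) * s i| ≤ ∑ i, |(p.1.1 i : ℝ) * s i| := Finset.abs_sum_le_sum_abs _ _
    _ ≤ ∑ i, |(p.1.1 i : ℝ)| * t := Finset.sum_le_sum fun i _ => by
        rw [abs_mul]; exact mul_le_mul_of_nonneg_left (h i) (abs_nonneg _)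
    _ = (∑ i, |(p.1.1 i : ℝ)|) * t := by rw [Finset.sum_mul]
    _ ≤ _ := mul_le_mul_of_nonneg_right h1 ht

/-- all the elementary inequalities for one root: `E = 2^(ε J)` is large -/
theorem factor {E Dl ro' D nθ nφ nψ ns nt : ℝ} (hE : 4 ≤ E) (hDl : 0 < Dl) (hro : 0 < ro')
    (hD : D = max Dl ro') {L : ℝ} (hL : 8 * (1 + L) ≤ E) (hL0 : 0 ≤ L)
    (hφ : nφ ≤ (E ^ 2)⁻¹ * D) (hs : ns ≤ L * ((E ^ 2)⁻¹ * ro'))
    (htri : nθ ≤ nψ + nφ + ns)
    (hθ : ro' ≤ Dl → E⁻¹ * Dl ≤ 4 * nθ) (hnt : 4 * nψ ≤ nt) :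
    1 / 4 * (E ^ 2)⁻¹ * D ^ 2 ≤ ro' ^ 2 + nt ^ 2 := by
  have hE0 : 0 < E := by linarith
  have hi : 0 < E⁻¹ := by positivity
  have hi1 : (E ^ 2)⁻¹ = E⁻¹ * E⁻¹ := by rw [← inv_pow]; ring
  by_cases h : ro' ≤ Dl
  · rw [max_eq_left h] at hD
    subst hD
    have h1 := hθ h
    have h2 : E⁻¹ * (8 * (1 + L)) ≤ 1 := by
      rw [inv_mul_le_iff₀ hE0]; linarith
    have h3 : L * (E⁻¹ * E⁻¹ * ro') ≤ L * (E⁻¹ * E⁻¹ * D) := by gcongr
    rw [hi1] at hφ hs ⊢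
    -- `nψ ≥ E⁻¹ D / 8`
    have h4 : E⁻¹ * D / 8 ≤ nψ := by
      have h5 : (1 + L) * (E⁻¹ * E⁻¹ * D) ≤ E⁻¹ * D / 8 := by
        have : (1 + L) * (E⁻¹ * E⁻¹ * D) = E⁻¹ * (8 * (1 + L)) * (E⁻¹ * D / 8) := by ring
        rw [this]
        exact mul_le_of_le_one_left (by positivity) h2
      nlinarith
    have h6 : E⁻¹ * D / 2 ≤ nt := by linarith
    have h7 : (E⁻¹ * D / 2) ^ 2 ≤ nt ^ 2 := pow_le_pow_left₀ (by positivity) h6 2
    have h8 : 0 ≤ ro' ^ 2 := by positivity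
    have h9 : 1 / 4 * (E⁻¹ * E⁻¹) * D ^ 2 = (E⁻¹ * D / 2) ^ 2 := by ring
    linarith
  · rw [max_eq_right (le_of_not_ge h)] at hD
    subst hD
    have h1 : (E ^ 2)⁻¹ ≤ 1 := inv_le_one_of_one_le₀ (one_le_pow₀ (by linarith))
    have h2 : 1 / 4 * (E ^ 2)⁻¹ * D ^ 2 ≤ 1 * D ^ 2 := by
      apply mul_le_mul_of_nonneg_right _ (sq_nonneg D)
      linarith
    have h3 : 0 ≤ nt ^ 2 := sq_nonneg _
    linarith

end SET

open SET in
theorem t_SET : M_SET := by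
  intro hPRM hCVR r Φ B hr hI hW ε C₂ hε hε8 hC₂
  have hP := hPRM r Φ B hr hI hW
  have hS := Sp_nonneg Φ
  have h2ε : (1 : ℝ) < (2 : ℝ) ^ ε := Real.one_lt_rpow (by norm_num) hε
  obtain ⟨J₀, hJ₀⟩ := pow_unbounded_of_one_lt (8 * (1 + Sp Φ * (2 * C₂))) h2ε
  refine ⟨J₀, ?_⟩
  intro J x hJ
  -- `E = 2^(ε J)`
  set E : ℝ := (2 : ℝ) ^ (ε * J) with hE
  have hEp : E = ((2 : ℝ) ^ ε) ^ J := by
    rw [hE, Real.rpow_mul (by norm_num), Real.rpow_natCast]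
  have hL : 8 * (1 + Sp Φ * (2 * C₂)) ≤ E := by
    rw [hEp]
    exact hJ₀.le.trans (pow_le_pow_right₀ h2ε.le hJ)
  have hL0 : 0 ≤ Sp Φ * (2 * C₂) := by positivity
  have hE8 : 8 ≤ E := by linarith
  have hE0 : 0 < E := by linarith
  have hE1 : (2 : ℝ) ^ (-(ε * J)) = E⁻¹ := by rw [Real.rpow_neg (by norm_num)]
  have hE2 : (2 : ℝ) ^ (2 * ε * J) = E ^ 2 := by
    rw [hE, ← Real.rpow_natCast, ← Real.rpow_mul (by norm_num)]
    congr 1
    push_cast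
    ring
  have hE3 : (2 : ℝ) ^ (-(2 * ε * J)) = (E ^ 2)⁻¹ := by
    rw [Real.rpow_neg (by norm_num), hE2]
  have hE4 : (2 : ℝ) ^ (3 * ε * (pos Φ).card * J) = (E ^ 3) ^ (pos Φ).card := by
    rw [hE, ← pow_mul, ← Real.rpow_natCast, ← Real.rpow_mul (by norm_num)]
    congr 1
    push_cast
    ring
  have hE5 : (2 : ℝ) ^ (-(2 * ε * (pos Φ).card * J)) = ((E ^ 2)⁻¹) ^ (pos Φ).card := by
    rw [Real.rpow_neg (by norm_num), inv_pow]
    congr 1
    rw [hE, ← pow_mul, ← Real.rpow_natCast, ← Real.rpow_mul (by norm_num)]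
    congr 1
    push_cast
    ring
  have hro : ro ε x = E ^ 2 * √(th x) := by
    unfold ro
    rw [hE2]
  have hrop : 0 < ro ε x := hP.rpos J x ε
  have hdl : ∀ p, 0 < dl x p := hP.dpos J x
  have hth : √(th x) = (E ^ 2)⁻¹ * ro ε x := by
    rw [hro]
    field_simp
  set D : {p // p ∈ pos Φ} → ℝ := fun p => max (dl x p) (ro ε x) with hD
  have hDp : ∀ p, 0 < D p := fun p => lt_max_of_lt_left (hdl p)
  have hfin : volume (Set.Icc (0 : Fin r → ℝ) 1) ≠ ⊤ := isCompact_Icc.measure_ne_top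
  have hqcs : qc ε x ⊆ Set.Icc 0 1 := fun θ h => h.1
  have hqc : ∀ θ, θ ∈ qc ε x ↔ θ ∈ Set.Icc (0 : Fin r → ℝ) 1 ∧
      ∀ p : {p // p ∈ pos Φ}, nd (dz p.1.1 θ) ≤ (E ^ 2)⁻¹ * D p := by
    intro θ
    unfold qc
    rw [Set.mem_ofPred_eq, hE3]
  have hsk : ∀ (K : ℝ) θ, θ ∈ sk K ε x ↔ ∀ p : {p // p ∈ pos Φ},
      nd (dz p.1.1 θ) ≤ K * E * D p ∧ (ro ε x ≤ dl x p → E⁻¹ * dl x p ≤ K * nd (dz p.1.1 θ)) := by
    intro K θ
    unfold sk
    rw [Set.mem_ofPred_eq, hE1]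
  have hnc : ∀ p : {p // p ∈ pos Φ}, Continuous fun θ : Fin r → ℝ => nd (dz p.1.1 θ) :=
    fun p => nd_cont.comp (dz_cont _)
  have hqcm : IsClosed (qc ε x) := by
    have : qc ε x = Set.Icc (0 : Fin r → ℝ) 1 ∩
        ⋂ p : {p // p ∈ pos Φ}, {θ | nd (dz p.1.1 θ) ≤ (E ^ 2)⁻¹ * D p} := by
      ext θ
      rw [hqc, Set.mem_inter_iff, Set.mem_iInter]
      rfl
    rw [this]
    exact isClosed_Icc.inter (isClosed_iInter fun p => isClosed_le (hnc p) continuous_const)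
  have hskm : IsClosed (sk 4 ε x) := by
    have : sk 4 ε x = ⋂ p : {p // p ∈ pos Φ}, ({θ : Fin r → ℝ | nd (dz p.1.1 θ) ≤ 4 * E * D p} ∩
        {θ | ro ε x ≤ dl x p → E⁻¹ * dl x p ≤ 4 * nd (dz p.1.1 θ)}) := by
      ext θ
      rw [hsk, Set.mem_iInter]
      rfl
    rw [this]
    refine isClosed_iInter fun p => (isClosed_le (hnc p) continuous_const).inter ?_
    by_cases h : ro ε x ≤ dl x p
    · have e : {θ : Fin r → ℝ | ro ε x ≤ dl x p → E⁻¹ * dl x p ≤ 4 * nd (dz p.1.1 θ)} =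
          {θ : Fin r → ℝ | E⁻¹ * dl x p ≤ 4 * nd (dz p.1.1 θ)} := by
        ext θ
        simp only [Set.mem_ofPred_eq]
        exact ⟨fun h' => h' h, fun h' _ => h'⟩
      rw [e]
      exact isClosed_le continuous_const (continuous_const.mul (hnc p))
    · have e : {θ : Fin r → ℝ | ro ε x ≤ dl x p → E⁻¹ * dl x p ≤ 4 * nd (dz p.1.1 θ)} =
          Set.univ := by
        ext θ
        simp only [Set.mem_ofPred_eq, Set.mem_univ, iff_true]
        exact fun h' => absurd h' h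
      rw [e]
      exact isClosed_univ
  refine ⟨hqcm.measurableSet, measurableSet_Icc.inter hskm.measurableSet, ?_, ?_, ?_, ?_⟩
  · -- a small box
    set t : ℝ := (E ^ 2)⁻¹ * (1 / 2 ^ J) / (Sp Φ + 1) with ht
    have ht0 : 0 < t := by positivity
    have ht1 : t ≤ 1 := by
      rw [ht, div_le_one (by positivity)]
      have a1 : (E ^ 2)⁻¹ ≤ 1 := inv_le_one_of_one_le₀ (one_le_pow₀ (by linarith))
      have a2 : (1 : ℝ) / 2 ^ J ≤ 1 := by
        rw [div_le_one (by positivity)]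
        exact one_le_pow₀ (by norm_num)
      have a3 : (E ^ 2)⁻¹ * (1 / 2 ^ J) ≤ 1 := mul_le_one₀ a1 (by positivity) a2
      linarith
    have hsub : Set.Icc (0 : Fin r → ℝ) (fun _ => t) ⊆ qc ε x := by
      intro θ hθ
      rw [hqc]
      refine ⟨⟨hθ.1, fun i => (hθ.2 i).trans ht1⟩, fun p => ?_⟩
      have b1 : |dz p.1.1 θ| ≤ Sp Φ * t := dz_le p ht0.le fun i => by
        rw [abs_of_nonneg (hθ.1 i)]
        exact hθ.2 i
      have b2 : Sp Φ * t ≤ (E ^ 2)⁻¹ * (1 / 2 ^ J) := by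
        rw [ht, mul_div_assoc', div_le_iff₀ (by positivity)]
        have : 0 ≤ (E ^ 2)⁻¹ * (1 / 2 ^ J) := by positivity
        nlinarith
      have b3 : (1 : ℝ) / 2 ^ J ≤ D p := (hP.dge J x p).trans (le_max_left _ _)
      calc nd (dz p.1.1 θ) ≤ |dz p.1.1 θ| := nd_le_abs _
        _ ≤ (E ^ 2)⁻¹ * (1 / 2 ^ J) := b1.trans b2
        _ ≤ (E ^ 2)⁻¹ * D p := by gcongr
    have hvol : volume.real (Set.Icc (0 : Fin r → ℝ) (fun _ => t)) = t ^ r := by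
      have := Real.volume_Icc_pi_toReal (a := (0 : Fin r → ℝ)) (b := fun _ => t)
        (fun _ => ht0.le)
      rw [Measure.real, this]
      simp
    have h1 : volume.real (Set.Icc (0 : Fin r → ℝ) (fun _ => t)) ≤ volume.real (qc ε x) :=
      measureReal_mono hsub (ne_top_of_le_ne_top hfin (measure_mono hqcs))
    rw [hvol] at h1
    exact (pow_pos ht0 r).trans_le h1
  · -- covering
    have h1 := hCVR r Φ (fun p => (E ^ 2)⁻¹ * D p) (4 * E ^ 3)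
      (fun p => mul_pos (by positivity) (hDp p)) (by
        have : (1 : ℝ) ≤ E ^ 3 := one_le_pow₀ (by linarith)
        linarith)
    have h2 : {θ : Fin r → ℝ | θ ∈ Set.Icc 0 1 ∧ ∀ p : {p // p ∈ pos Φ},
        nd (dz p.1.1 θ) ≤ (E ^ 2)⁻¹ * D p} = qc ε x := by
      ext θ
      rw [hqc]
      rfl
    have h3 : Set.Icc (0 : Fin r → ℝ) 1 ∩ sk 4 ε x ⊆ {θ : Fin r → ℝ | θ ∈ Set.Icc 0 1 ∧
        ∀ p : {p // p ∈ pos Φ}, nd (dz p.1.1 θ) ≤ 4 * E ^ 3 * ((E ^ 2)⁻¹ * D p)} := by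
      rintro θ ⟨hθ1, hθ2⟩
      rw [hsk] at hθ2
      refine ⟨hθ1, fun p => (hθ2 p).1.trans (le_of_eq ?_)⟩
      field_simp
    rw [h2] at h1
    have h4 := measureReal_mono (μ := volume) h3
      (ne_top_of_le_ne_top hfin (measure_mono fun θ h => h.1))
    rw [hE4]
    refine h4.trans (h1.trans (le_of_eq ?_))
    have : 4 * (4 * E ^ 3) = 16 * E ^ 3 := by ring
    rw [this, mul_pow]
  · -- outside
    intro φ hφ θ hθ hcon
    apply hθ
    rw [hqc] at hφ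
    rw [hsk] at hcon ⊢
    intro p
    obtain ⟨c1, c2⟩ := hcon p
    have c3 := hφ.2 p
    rw [dz_sub] at c1 c2
    have a1 : (E ^ 2)⁻¹ ≤ 1 := inv_le_one_of_one_le₀ (one_le_pow₀ (by linarith))
    have c4 : nd (dz p.1.1 θ) ≤ nd (dz p.1.1 θ - dz p.1.1 φ) + nd (dz p.1.1 φ) := by
      have := nd_add (dz p.1.1 θ - dz p.1.1 φ) (dz p.1.1 φ)
      rwa [sub_add_cancel] at this
    have c5 : nd (dz p.1.1 θ - dz p.1.1 φ) ≤ nd (dz p.1.1 θ) + nd (dz p.1.1 φ) := nd_sub _ _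
    constructor
    · have d1 : (E ^ 2)⁻¹ * D p ≤ 2 * E * D p := by
        apply mul_le_mul_of_nonneg_right _ (hDp p).le
        linarith
      linarith
    · intro h
      have d1 := c2 h
      have d2 : D p = dl x p := max_eq_left h
      rw [d2] at c3
      have d3 : (E ^ 2)⁻¹ = E⁻¹ * E⁻¹ := by rw [← inv_pow]; ring
      have d4 : E⁻¹ ≤ 1 / 4 := by
        rw [inv_le_comm₀ hE0 (by norm_num)]
        norm_num
        linarith
      have d5 : E⁻¹ * E⁻¹ * dl x p ≤ 1 / 4 * (E⁻¹ * dl x p) := by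
        rw [mul_assoc]
        apply mul_le_mul_of_nonneg_right d4
        have := hdl p
        positivity
      rw [d3] at c3
      linarith
  · -- the product
    intro φ hφ θ hθ s hs
    rw [hqc] at hφ
    rw [hsk] at hθ
    rw [hE5, ← Finset.prod_pow]
    have h1 : (1 / 4 : ℝ) ^ (pos Φ).card * ((E ^ 2)⁻¹) ^ (pos Φ).card *
        ∏ p : {p // p ∈ pos Φ}, max (dl x p) (ro ε x) ^ 2 =
        ∏ p : {p // p ∈ pos Φ}, (1 / 4 * (E ^ 2)⁻¹ * D p ^ 2) := by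
      rw [Finset.prod_mul_distrib, Finset.prod_const, ← mul_pow]
      congr 2
      rw [Finset.card_univ, Fintype.card_coe]
    rw [h1, ← Finset.prod_coe_sort (pos Φ)
      (fun p => (ro ε x ^ 2 + ‖1 - eu (dz p.1 (θ - φ + s))‖ ^ 2))]
    refine Finset.prod_le_prod (fun p _ => by positivity) fun p _ => ?_
    have hs2 : |dz p.1.1 s| ≤ Sp Φ * (2 * C₂ * √(th x)) := dz_le p (by positivity) hs
    refine factor (nθ := nd (dz p.1.1 θ)) (nφ := nd (dz p.1.1 φ))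
      (nψ := nd (dz p.1.1 (θ - φ + s))) (ns := nd (dz p.1.1 s)) (L := Sp Φ * (2 * C₂))
      (by linarith) (hdl p) hrop rfl hL hL0 (hφ.2 p) ?_ ?_ (hθ p).2 (GEO.lower _)
    · refine (nd_le_abs _).trans (hs2.trans (le_of_eq ?_))
      rw [hth]
      ring
    · have e1 : dz p.1.1 (θ - φ + s) = dz p.1.1 θ - dz p.1.1 φ + dz p.1.1 s := by
        rw [dz_add, dz_sub]
      have e2 : dz p.1.1 θ = (dz p.1.1 (θ - φ + s) + dz p.1.1 φ) - dz p.1.1 s := by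
        rw [e1]; ring
      have e3 := nd_sub (dz p.1.1 (θ - φ + s) + dz p.1.1 φ) (dz p.1.1 s)
      rw [← e2] at e3
      have e4 := nd_add (dz p.1.1 (θ - φ + s)) (dz p.1.1 φ)
      linarith

end

end STZ3
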