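import Pool.Agent.STZ3.StC3

/-!
# SLA: linear algebra of the strings of a root
-/

namespace STZ3

open STZ LGR MeasureTheory Matrix Filter

open scoped ComplexConjugate Matrix Real Topology

noncomputable section

namespace SLA

section abstract

variable {V : Type*} [NormedAddCommGroup V] [InnerProductSpace ℂ V]

/-- the data -/
structure Dat {r : ℕ} (α b : Fin r → ℤ) (T : Fin r → V →ₗ[ℂ] V) (e f : V →ₗ[ℂ] V) : Prop where
  two : b ⬝ᵥ α = 2
  sym : ∀ j x y, inner ℂ (T j x) y = inner ℂ x (T j y)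
  com : ∀ i j x, T i (T j x) = T j (T i x)
  int : ∀ j x (l : ℂ), x ≠ 0 → T j x = l • x → ∃ k : ℤ, l = k
  adj : ∀ x y, inner ℂ (e x) y = inner ℂ x (f y)
  Te : ∀ j x, T j (e x) = e (T j x) + (α j : ℂ) • e x
  br : ∀ x, e (f x) - f (e x) = ∑ j, (b j : ℂ) • T j x

variable {r : ℕ} {α b : Fin r → ℤ} {T : Fin r → V →ₗ[ℂ] V} {e f : V →ₗ[ℂ] V}

theorem Dat.adj' (D : Dat α b T e f) (x y : V) : inner ℂ (f x) y = inner ℂ x (e y) := by
  rw [← inner_conj_symm, ← D.adj, inner_conj_symm]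

theorem Dat.Tf (D : Dat α b T e f) (j : Fin r) (x : V) :
    T j (f x) = f (T j x) - (α j : ℂ) • f x := by
  refine ext_inner_right ℂ fun y => ?_
  rw [D.sym, D.adj']
  have h := D.Te j y
  have h1 : e (T j y) = T j (e y) - (α j : ℂ) • e y := by rw [h]; abel
  rw [h1, inner_sub_right, inner_smul_right, ← D.sym, inner_sub_left, inner_smul_left, D.adj',
    D.adj']
  simp

theorem common [FiniteDimensional ℂ V] (D : Dat α b T e f) {W : Submodule ℂ V} (hW : W ≠ ⊥)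
    (hT : ∀ j, ∀ x ∈ W, T j x ∈ W) :
    ∃ x ∈ W, x ≠ 0 ∧ ∃ μ : Fin r → ℤ, ∀ j, T j x = (μ j : ℂ) • x := by
  classical
  have key : ∀ s : Finset (Fin r), ∃ W' : Submodule ℂ V, W' ≤ W ∧ W' ≠ ⊥ ∧
      (∀ j, ∀ x ∈ W', T j x ∈ W') ∧ ∀ j ∈ s, ∃ l : ℂ, ∀ x ∈ W', T j x = l • x := by
    intro s
    induction s using Finset.induction_on with
    | empty => exact ⟨W, le_refl _, hW, hT, by simp⟩
    | insert a s _ ih =>
      obtain ⟨W', h1, h2, h3, h4⟩ := ih
      have : Nontrivial W' := (Submodule.nontrivial_iff_ne_bot).2 h2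
      obtain ⟨l, hl⟩ := Module.End.exists_eigenvalue ((T a).restrict (h3 a))
      obtain ⟨w, hw⟩ := hl.exists_hasEigenvector
      have hw1 : T a (w : V) = l • (w : V) := by
        have := congrArg Subtype.val hw.apply_eq_smul
        simpa using this
      refine ⟨W' ⊓ Module.End.eigenspace (T a) l, inf_le_left.trans h1, ?_, ?_, ?_⟩
      · intro h
        have : (w : V) ∈ W' ⊓ Module.End.eigenspace (T a) l :=
          ⟨w.2, Module.End.mem_eigenspace_iff.2 hw1⟩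
        rw [h, Submodule.mem_bot] at this
        exact hw.2 (Subtype.ext this)
      · intro j x hx
        refine ⟨h3 j x hx.1, Module.End.mem_eigenspace_iff.2 ?_⟩
        have := Module.End.mem_eigenspace_iff.1 hx.2
        rw [D.com, this, map_smul]
      · intro j hj
        rcases Finset.mem_insert.1 hj with h | h
        · subst h
          exact ⟨l, fun x hx => Module.End.mem_eigenspace_iff.1 hx.2⟩
        · obtain ⟨l', hl'⟩ := h4 j h
          exact ⟨l', fun x hx => hl' x hx.1⟩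
  obtain ⟨W', h1, h2, _, h4⟩ := key Finset.univ
  obtain ⟨x, hx, hx0⟩ := W'.ne_bot_iff.1 h2
  refine ⟨x, h1 hx, hx0, ?_⟩
  have : ∀ j, ∃ k : ℤ, T j x = (k : ℂ) • x := by
    intro j
    obtain ⟨l, hl⟩ := h4 j (Finset.mem_univ j)
    obtain ⟨k, hk⟩ := D.int j x l hx0 (hl x hx)
    exact ⟨k, by rw [← hk]; exact hl x hx⟩
  choose μ hμ using this
  exact ⟨μ, hμ⟩

/-- the operator `h` -/
def hh (b : Fin r → ℤ) (T : Fin r → V →ₗ[ℂ] V) : V →ₗ[ℂ] V := ∑ j, (b j : ℂ) • T j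

theorem hh_apply (x : V) : hh b T x = ∑ j, (b j : ℂ) • T j x := by
  simp [hh]

theorem hh_wt {x : V} {μ : Fin r → ℤ} (h : ∀ j, T j x = (μ j : ℂ) • x) :
    hh b T x = ((b ⬝ᵥ μ : ℤ) : ℂ) • x := by
  rw [hh_apply]
  unfold dotProduct
  rw [Int.cast_sum, Finset.sum_smul]
  apply Finset.sum_congr rfl
  intro j _
  rw [h, smul_smul]
  push_cast
  rfl

theorem hh_sym (D : Dat α b T e f) (x y : V) : inner ℂ (hh b T x) y = inner ℂ x (hh b T y) := by
  rw [hh_apply, hh_apply, sum_inner, inner_sum]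
  apply Finset.sum_congr rfl
  intro j _
  rw [inner_smul_left, inner_smul_right, D.sym]
  simp

theorem top [FiniteDimensional ℂ V] (D : Dat α b T e f) {W : Submodule ℂ V} (hW : W ≠ ⊥)
    (hT : ∀ j, ∀ x ∈ W, T j x ∈ W) (he : ∀ x ∈ W, e x ∈ W) :
    ∃ x ∈ W, x ≠ 0 ∧ e x = 0 ∧ ∃ μ : Fin r → ℤ, ∀ j, T j x = (μ j : ℂ) • x := by
  obtain ⟨x, hx, hx0, μ, hμ⟩ := common D hW hT
  have hk : ∀ k : ℕ, (e ^ k) x ∈ W ∧
      ∀ j, T j ((e ^ k) x) = ((μ j + k * α j : ℤ) : ℂ) • (e ^ k) x := by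
    intro k
    induction k with
    | zero => simpa using ⟨hx, hμ⟩
    | succ k ih =>
      rw [pow_succ', Module.End.mul_apply]
      refine ⟨he _ ih.1, fun j => ?_⟩
      rw [D.Te, ih.2 j, map_smul, ← add_smul]
      congr 1
      push_cast
      ring
  have hz : ∃ k : ℕ, (e ^ k) x = 0 := by
    by_contra hne
    have hne' : ∀ k : ℕ, (e ^ k) x ≠ 0 := fun k hk => hne ⟨k, hk⟩
    have hli : LinearIndependent ℂ (fun k : ℕ => (e ^ k) x) := by
      refine Module.End.eigenvectors_linearIndependent' (hh b T)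
        (fun k : ℕ => ((b ⬝ᵥ (fun j => μ j + k * α j) : ℤ) : ℂ)) ?_ _ ?_
      · intro k k' hkk
        have hkk' : ((b ⬝ᵥ (fun j => μ j + (k : ℤ) * α j) : ℤ) : ℂ) =
            ((b ⬝ᵥ (fun j => μ j + (k' : ℤ) * α j) : ℤ) : ℂ) := hkk
        have h1 : (b ⬝ᵥ (fun j => μ j + (k : ℤ) * α j) : ℤ) = b ⬝ᵥ (fun j => μ j + (k' : ℤ) * α j) :=
          Int.cast_injective hkk'
        have h2 : ∀ k : ℤ, b ⬝ᵥ (fun j => μ j + k * α j) = b ⬝ᵥ μ + k * 2 := by
          intro k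
          have : (fun j => μ j + k * α j) = μ + k • α := by
            funext j; simp
          rw [this, dotProduct_add, dotProduct_smul, D.two]
          simp
        rw [h2, h2] at h1
        have h3 : (k : ℤ) = k' := by linarith
        exact_mod_cast h3
      · intro k
        exact ⟨Module.End.mem_eigenspace_iff.2 (hh_wt (hk k).2), hne' k⟩
    have hfin : Finite ℕ := hli.finite
    exact not_finite ℕ
  classical
  set k := Nat.find hz with hk0
  have hkz := Nat.find_spec hz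
  rw [← hk0] at hkz
  have hkpos : k ≠ 0 := by
    intro h
    rw [h] at hkz
    exact hx0 (by simpa using hkz)
  obtain ⟨k', hk'⟩ := Nat.exists_eq_succ_of_ne_zero hkpos
  have hk'ne : (e ^ k') x ≠ 0 := Nat.find_min hz (by rw [← hk0, hk']; exact Nat.lt_succ_self k')
  refine ⟨(e ^ k') x, (hk k').1, hk'ne, ?_, _, (hk k').2⟩
  rw [hk', pow_succ', Module.End.mul_apply] at hkz
  exact hkz

/-- the string of `x` -/
def vv (f : V →ₗ[ℂ] V) (x : V) (i : ℕ) : V := (f ^ i) x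

theorem vv_zero (x : V) : vv f x 0 = x := by simp [vv]

theorem vv_succ (x : V) (i : ℕ) : vv f x (i + 1) = f (vv f x i) := by
  unfold vv
  rw [pow_succ', Module.End.mul_apply]

theorem vv_T (D : Dat α b T e f) {x : V} {μ : Fin r → ℤ} (hμ : ∀ j, T j x = (μ j : ℂ) • x)
    (i : ℕ) (j : Fin r) : T j (vv f x i) = ((μ j - i * α j : ℤ) : ℂ) • vv f x i := by
  induction i with
  | zero => simpa [vv_zero] using hμ j
  | succ i ih =>
    rw [vv_succ, D.Tf, ih, map_smul, ← sub_smul]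
    congr 1
    push_cast
    ring

theorem vv_h (D : Dat α b T e f) {x : V} {μ : Fin r → ℤ} (hμ : ∀ j, T j x = (μ j : ℂ) • x)
    (i : ℕ) : hh b T (vv f x i) = ((b ⬝ᵥ μ - 2 * i : ℤ) : ℂ) • vv f x i := by
  rw [hh_wt (μ := fun j => μ j - i * α j) (vv_T D hμ i)]
  have : (fun j => μ j - (i : ℤ) * α j) = μ - (i : ℤ) • α := by
    funext j; simp
  rw [this, dotProduct_sub, dotProduct_smul, D.two]
  congr 2
  simp [mul_comm]

theorem vv_e (D : Dat α b T e f) {x : V} (hx : e x = 0) {μ : Fin r → ℤ}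
    (hμ : ∀ j, T j x = (μ j : ℂ) • x) (i : ℕ) :
    e (vv f x (i + 1)) = ((((i : ℤ) + 1) * (b ⬝ᵥ μ - i) : ℤ) : ℂ) • vv f x i := by
  induction i with
  | zero =>
    rw [vv_succ, vv_zero]
    have h := D.br x
    rw [hx, map_zero, sub_zero, ← hh_apply, hh_wt hμ] at h
    rw [h]
    simp
  | succ i ih =>
    rw [vv_succ]
    have h := D.br (vv f x (i + 1))
    rw [← hh_apply, vv_h D hμ, ih, map_smul, ← vv_succ (f := f) x i] at h
    rw [sub_eq_iff_eq_add.1 h, ← add_smul]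
    congr 1
    push_cast
    ring

theorem vv_norm (D : Dat α b T e f) {x : V} (hx : e x = 0) {μ : Fin r → ℤ}
    (hμ : ∀ j, T j x = (μ j : ℂ) • x) (i : ℕ) :
    ‖vv f x (i + 1)‖ ^ 2 = (((i : ℤ) + 1) * (b ⬝ᵥ μ - i) : ℤ) * ‖vv f x i‖ ^ 2 := by
  have h1 : inner ℂ (vv f x (i + 1)) (vv f x (i + 1)) =
      (((((i : ℤ) + 1) * (b ⬝ᵥ μ - i) : ℤ) : ℂ)) * inner ℂ (vv f x i) (vv f x i) := by
    conv_lhs => rw [vv_succ (f := f) x i]
    rw [D.adj', ← vv_succ, vv_e D hx hμ, inner_smul_right]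
  rw [inner_self_eq_norm_sq_to_K, inner_self_eq_norm_sq_to_K] at h1
  apply Complex.ofReal_injective
  rw [Complex.ofReal_mul, Complex.ofReal_pow, Complex.ofReal_pow, Complex.ofReal_intCast]
  exact h1

theorem vv_orth (D : Dat α b T e f) {x : V} {μ : Fin r → ℤ}
    (hμ : ∀ j, T j x = (μ j : ℂ) • x) {i k : ℕ} (hik : i ≠ k) :
    inner ℂ (vv f x i) (vv f x k) = 0 := by
  have h1 := hh_sym D (vv f x i) (vv f x k)
  rw [vv_h D hμ, vv_h D hμ, inner_smul_left, inner_smul_right, map_intCast (starRingEnd ℂ)] at h1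
  have h2 : (((b ⬝ᵥ μ - 2 * i : ℤ) : ℂ) - ((b ⬝ᵥ μ - 2 * k : ℤ) : ℂ)) *
      inner ℂ (vv f x i) (vv f x k) = 0 := by
    rw [sub_mul, h1, sub_self]
  rcases mul_eq_zero.1 h2 with h | h
  · exfalso
    apply hik
    have h3 : (b ⬝ᵥ μ - 2 * (i : ℤ)) = (b ⬝ᵥ μ - 2 * (k : ℤ)) := by
      have := sub_eq_zero.1 h
      exact Int.cast_injective this
    omega
  · exact h

theorem vv_nn (D : Dat α b T e f) {x : V} (hx0 : x ≠ 0) (hx : e x = 0) {μ : Fin r → ℤ}
    (hμ : ∀ j, T j x = (μ j : ℂ) • x) : 0 ≤ b ⬝ᵥ μ := by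
  have h := vv_norm D hx hμ 0
  rw [vv_zero] at h
  have h1 : 0 < ‖x‖ ^ 2 := by
    have := norm_pos_iff.2 hx0
    positivity
  have h2 : (0 : ℝ) ≤ ‖vv f x (0 + 1)‖ ^ 2 := by positivity
  rw [h] at h2
  have h3 : (0 : ℝ) ≤ (((((0 : ℕ) : ℤ) + 1) * (b ⬝ᵥ μ - ((0 : ℕ) : ℤ)) : ℤ) : ℝ) :=
    nonneg_of_mul_nonneg_left h2 h1
  have h4 : (0 : ℤ) ≤ ((((0 : ℕ) : ℤ) + 1) * (b ⬝ᵥ μ - ((0 : ℕ) : ℤ)) : ℤ) := by exact_mod_cast h3
  simpa using h4

theorem vv_ne (D : Dat α b T e f) {x : V} (hx0 : x ≠ 0) (hx : e x = 0) {μ : Fin r → ℤ}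
    (hμ : ∀ j, T j x = (μ j : ℂ) • x) {i : ℕ} (hi : i ≤ (b ⬝ᵥ μ).toNat) : vv f x i ≠ 0 := by
  have hM := vv_nn D hx0 hx hμ
  induction i with
  | zero => rw [vv_zero]; exact hx0
  | succ i ih =>
    have h1 := ih (by omega)
    have h := vv_norm D hx hμ i
    intro h0
    rw [h0, norm_zero] at h
    have h2 : 0 < ‖vv f x i‖ ^ 2 := by
      have := norm_pos_iff.2 h1
      positivity
    have h3 : (0 : ℤ) < ((i : ℤ) + 1) * (b ⬝ᵥ μ - i) := by
      have : (i : ℤ) + 1 ≤ b ⬝ᵥ μ := by omega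
      apply mul_pos <;> omega
    have h4 : (0 : ℝ) < ((((i : ℤ) + 1) * (b ⬝ᵥ μ - i) : ℤ) : ℝ) := by exact_mod_cast h3
    have := mul_pos h4 h2
    rw [← h] at this
    simp at this

theorem vv_last (D : Dat α b T e f) {x : V} (hx0 : x ≠ 0) (hx : e x = 0) {μ : Fin r → ℤ}
    (hμ : ∀ j, T j x = (μ j : ℂ) • x) : vv f x ((b ⬝ᵥ μ).toNat + 1) = 0 := by
  have hM := vv_nn D hx0 hx hμ
  have h := vv_norm D hx hμ (b ⬝ᵥ μ).toNat
  rw [Int.toNat_of_nonneg hM, sub_self, mul_zero, Int.cast_zero, zero_mul] at h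
  exact norm_eq_zero.1 (pow_eq_zero_iff (two_ne_zero) |>.1 h)

/-- the eigenvalue of `e f + f e` -/
def cE (M : ℤ) (i : ℕ) : ℂ := ((((((M : ℝ) + 1) ^ 2 - 1 - ((M : ℝ) - 2 * i) ^ 2) / 2 : ℝ)) : ℂ)

theorem vv_E (D : Dat α b T e f) {x : V} (hx : e x = 0) {μ : Fin r → ℤ}
    (hμ : ∀ j, T j x = (μ j : ℂ) • x) (i : ℕ) :
    e (f (vv f x i)) + f (e (vv f x i)) = cE (b ⬝ᵥ μ) i • vv f x i := by
  have h1 : e (f (vv f x i)) = ((((i : ℤ) + 1) * (b ⬝ᵥ μ - i) : ℤ) : ℂ) • vv f x i := by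
    rw [← vv_succ, vv_e D hx hμ]
  have h2 : f (e (vv f x i)) = (((i : ℤ) * (b ⬝ᵥ μ - i + 1) : ℤ) : ℂ) • vv f x i := by
    rcases Nat.eq_zero_or_pos i with h | h
    · subst h
      rw [vv_zero, hx, map_zero]
      simp
    · obtain ⟨k, rfl⟩ := Nat.exists_eq_succ_of_ne_zero h.ne'
      rw [Nat.succ_eq_add_one, vv_e D hx hμ, map_smul, ← vv_succ]
      congr 1
      push_cast
      ring
  rw [h1, h2, ← add_smul]
  congr 1
  unfold cE
  push_cast
  ring

/-- a family of strings -/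
structure Fam {r : ℕ} (α b : Fin r → ℤ) (T : Fin r → V →ₗ[ℂ] V) (e f : V →ₗ[ℂ] V)
    (S : Submodule ℂ V) {m : ℕ} (τ : Fin m → Fin r → ℤ) (v : Fin m → ℕ → V) : Prop where
  nn : ∀ s, 0 ≤ b ⬝ᵥ τ s
  orth : ∀ s s' i i', i ≤ (b ⬝ᵥ τ s).toNat → i' ≤ (b ⬝ᵥ τ s').toNat →
    inner ℂ (v s i) (v s' i') = if s = s' ∧ i = i' then 1 else 0
  T : ∀ s i j, i ≤ (b ⬝ᵥ τ s).toNat → T j (v s i) = ((τ s j - i * α j : ℤ) : ℂ) • v s i
  E : ∀ s i, i ≤ (b ⬝ᵥ τ s).toNat → e (f (v s i)) + f (e (v s i)) = cE (b ⬝ᵥ τ s) i • v s i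
  ie : ∀ s i, i ≤ (b ⬝ᵥ τ s).toNat → e (v s i) ∈ S
  if' : ∀ s i, i ≤ (b ⬝ᵥ τ s).toNat → f (v s i) ∈ S
  sp : S = Submodule.span ℂ {y | ∃ s i, i ≤ (b ⬝ᵥ τ s).toNat ∧ y = v s i}

/-- one string in an invariant subspace -/
theorem string [FiniteDimensional ℂ V] (D : Dat α b T e f) {W : Submodule ℂ V} (hW : W ≠ ⊥)
    (hT : ∀ j, ∀ x ∈ W, T j x ∈ W) (he : ∀ x ∈ W, e x ∈ W) (hf : ∀ x ∈ W, f x ∈ W) :
    ∃ (μ : Fin r → ℤ) (w : ℕ → V), 0 ≤ b ⬝ᵥ μ ∧ (∀ i, w i ∈ W) ∧
      (∀ i i', i ≤ (b ⬝ᵥ μ).toNat → i' ≤ (b ⬝ᵥ μ).toNat →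
        inner ℂ (w i) (w i') = if i = i' then 1 else 0) ∧
      (∀ i j, T j (w i) = ((μ j - i * α j : ℤ) : ℂ) • w i) ∧
      (∀ i, e (f (w i)) + f (e (w i)) = cE (b ⬝ᵥ μ) i • w i) ∧
      (∀ i, i ≤ (b ⬝ᵥ μ).toNat → e (w i) ∈ Submodule.span ℂ {y | ∃ i, i ≤ (b ⬝ᵥ μ).toNat ∧ y = w i}) ∧
      (∀ i, i ≤ (b ⬝ᵥ μ).toNat → f (w i) ∈ Submodule.span ℂ {y | ∃ i, i ≤ (b ⬝ᵥ μ).toNat ∧ y = w i}) := by
  obtain ⟨x, hx, hx0, hxe, μ, hμ⟩ := top D hW hT he
  have hM := vv_nn D hx0 hxe hμ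
  have hvW : ∀ i, vv f x i ∈ W := by
    intro i
    induction i with
    | zero => rw [vv_zero]; exact hx
    | succ i ih => rw [vv_succ]; exact hf _ ih
  have hvw : ∀ i, i ≤ (b ⬝ᵥ μ).toNat → vv f x i ∈ Submodule.span ℂ
      {y | ∃ i, i ≤ (b ⬝ᵥ μ).toNat ∧ y = ((‖vv f x i‖ : ℂ)⁻¹) • vv f x i} := by
    intro i hi
    have hne := vv_ne D hx0 hxe hμ hi
    have hne' : (‖vv f x i‖ : ℂ) ≠ 0 := by exact_mod_cast norm_ne_zero_iff.2 hne
    have h1 : vv f x i = (‖vv f x i‖ : ℂ) • ((‖vv f x i‖ : ℂ)⁻¹ • vv f x i) := by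
      rw [smul_smul, mul_inv_cancel₀ hne', one_smul]
    rw [h1]
    exact Submodule.smul_mem _ _ (Submodule.subset_span ⟨i, hi, rfl⟩)
  refine ⟨μ, fun i => ((‖vv f x i‖ : ℂ)⁻¹) • vv f x i, hM, ?_, ?_, ?_, ?_, ?_, ?_⟩
  · intro i
    exact Submodule.smul_mem _ _ (hvW i)
  · intro i i' hi hi'
    split_ifs with h
    · subst h
      have hne := vv_ne D hx0 hxe hμ hi
      have hne' : (‖vv f x i‖ : ℂ) ≠ 0 := by exact_mod_cast norm_ne_zero_iff.2 hne
      rw [inner_smul_left, inner_smul_right, inner_self_eq_norm_sq_to_K]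
      simp only [map_inv₀, Complex.conj_ofReal]
      field_simp
      simp
    · rw [inner_smul_left, inner_smul_right, vv_orth D hμ h]
      simp
  · intro i j
    simp only [map_smul]
    rw [vv_T D hμ, smul_comm]
  · intro i
    simp only [map_smul]
    rw [← smul_add, vv_E D hxe hμ, smul_comm]
  · intro i hi
    simp only [map_smul]
    apply Submodule.smul_mem
    rcases Nat.eq_zero_or_pos i with h | h
    · subst h
      rw [vv_zero, hxe]
      exact Submodule.zero_mem _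
    · obtain ⟨k, rfl⟩ := Nat.exists_eq_succ_of_ne_zero h.ne'
      rw [Nat.succ_eq_add_one, vv_e D hxe hμ]
      exact Submodule.smul_mem _ _ (hvw k (by omega))
  · intro i hi
    simp only [map_smul]
    apply Submodule.smul_mem
    rw [← vv_succ]
    rcases Nat.lt_or_ge i (b ⬝ᵥ μ).toNat with h | h
    · exact hvw _ h
    · have : i = (b ⬝ᵥ μ).toNat := le_antisymm hi h
      rw [this, vv_last D hx0 hxe hμ]
      exact Submodule.zero_mem _

theorem Fam.invT {S : Submodule ℂ V} {m : ℕ} {τ : Fin m → Fin r → ℤ} {v : Fin m → ℕ → V}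
    (F : Fam α b T e f S τ v) (j : Fin r) : ∀ x ∈ S, T j x ∈ S := by
  intro x hx
  rw [F.sp] at hx ⊢
  refine Submodule.span_induction (p := fun x _ => T j x ∈ _) ?_ ?_ ?_ ?_ hx
  · rintro y ⟨s, i, hi, rfl⟩
    rw [F.T s i j hi]
    exact Submodule.smul_mem _ _ (Submodule.subset_span ⟨s, i, hi, rfl⟩)
  · rw [map_zero]; exact Submodule.zero_mem _
  · intro x y _ _ h1 h2
    rw [map_add]; exact Submodule.add_mem _ h1 h2
  · intro c x _ h
    rw [map_smul]; exact Submodule.smul_mem _ _ h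

theorem Fam.inve {S : Submodule ℂ V} {m : ℕ} {τ : Fin m → Fin r → ℤ} {v : Fin m → ℕ → V}
    (F : Fam α b T e f S τ v) : ∀ x ∈ S, e x ∈ S := by
  intro x hx
  rw [F.sp] at hx
  refine Submodule.span_induction (p := fun x _ => e x ∈ S) ?_ ?_ ?_ ?_ hx
  · rintro y ⟨s, i, hi, rfl⟩
    exact F.ie s i hi
  · rw [map_zero]; exact Submodule.zero_mem _
  · intro x y _ _ h1 h2
    rw [map_add]; exact Submodule.add_mem _ h1 h2
  · intro c x _ h
    rw [map_smul]; exact Submodule.smul_mem _ _ h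

theorem Fam.invf {S : Submodule ℂ V} {m : ℕ} {τ : Fin m → Fin r → ℤ} {v : Fin m → ℕ → V}
    (F : Fam α b T e f S τ v) : ∀ x ∈ S, f x ∈ S := by
  intro x hx
  rw [F.sp] at hx
  refine Submodule.span_induction (p := fun x _ => f x ∈ S) ?_ ?_ ?_ ?_ hx
  · rintro y ⟨s, i, hi, rfl⟩
    exact F.if' s i hi
  · rw [map_zero]; exact Submodule.zero_mem _
  · intro x y _ _ h1 h2
    rw [map_add]; exact Submodule.add_mem _ h1 h2
  · intro c x _ h
    rw [map_smul]; exact Submodule.smul_mem _ _ h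

/-- the span of the family -/
def spn {m : ℕ} (b : Fin r → ℤ) (τ : Fin m → Fin r → ℤ) (v : Fin m → ℕ → V) : Submodule ℂ V :=
  Submodule.span ℂ {y | ∃ s i, i ≤ (b ⬝ᵥ τ s).toNat ∧ y = v s i}

theorem extend [FiniteDimensional ℂ V] (D : Dat α b T e f) {S : Submodule ℂ V} {m : ℕ}
    {τ : Fin m → Fin r → ℤ} {v : Fin m → ℕ → V} (F : Fam α b T e f S τ v) (hS : S ≠ ⊤) :
    ∃ (S' : Submodule ℂ V) (τ' : Fin (m + 1) → Fin r → ℤ) (v' : Fin (m + 1) → ℕ → V),
      Fam α b T e f S' τ' v' := by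
  have hW : Sᗮ ≠ ⊥ := by
    intro h
    exact hS ((Submodule.orthogonal_eq_bot_iff).1 h)
  obtain ⟨μ, w, h1, h2, h3, h4, h5, h6, h7⟩ := string D hW
    (fun j x hx => by
      rw [Submodule.mem_orthogonal] at hx ⊢
      intro u hu
      rw [← D.sym]
      exact hx _ (F.invT j u hu))
    (fun x hx => by
      rw [Submodule.mem_orthogonal] at hx ⊢
      intro u hu
      rw [← D.adj']
      exact hx _ (F.invf u hu))
    (fun x hx => by
      rw [Submodule.mem_orthogonal] at hx ⊢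
      intro u hu
      rw [← D.adj]
      exact hx _ (F.inve u hu))
  set τ' : Fin (m + 1) → Fin r → ℤ := Fin.cons μ τ with hτ'
  set v' : Fin (m + 1) → ℕ → V := Fin.cons w v with hv'
  have t0 : τ' 0 = μ := rfl
  have ts : ∀ s : Fin m, τ' s.succ = τ s := fun s => rfl
  have v0 : v' 0 = w := rfl
  have vs : ∀ s : Fin m, v' s.succ = v s := fun s => rfl
  have hvS : ∀ s i, i ≤ (b ⬝ᵥ τ s).toNat → v s i ∈ S := by
    intro s i hi
    rw [F.sp]
    exact Submodule.subset_span ⟨s, i, hi, rfl⟩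
  have hS1 : S ≤ spn b τ' v' := by
    rw [F.sp]
    apply Submodule.span_mono
    rintro y ⟨s, i, hi, rfl⟩
    exact ⟨s.succ, i, by rw [ts]; exact hi, by rw [vs]⟩
  have hS2 : Submodule.span ℂ {y | ∃ i, i ≤ (b ⬝ᵥ μ).toNat ∧ y = w i} ≤ spn b τ' v' := by
    apply Submodule.span_mono
    rintro y ⟨i, hi, rfl⟩
    exact ⟨0, i, by rw [t0]; exact hi, by rw [v0]⟩
  refine ⟨spn b τ' v', τ', v', ?_, ?_, ?_, ?_, ?_, ?_, rfl⟩
  · intro s
    refine Fin.cases ?_ (fun s => ?_) s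
    · rw [t0]; exact h1
    · rw [ts]; exact F.nn s
  · intro s s' i i'
    refine Fin.cases ?_ (fun s => ?_) s
    · refine Fin.cases ?_ (fun s' => ?_) s'
      · rw [t0, v0]
        intro hi hi'
        rw [h3 i i' hi hi']
        simp
      · rw [t0, ts, v0, vs]
        intro hi hi'
        have h := (Submodule.mem_orthogonal' _ _).1 (h2 i) _ (hvS s' i' hi')
        rw [h, if_neg]
        rintro ⟨h, _⟩
        exact absurd h (Fin.succ_ne_zero s').symm
    · refine Fin.cases ?_ (fun s' => ?_) s'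
      · rw [t0, ts, v0, vs]
        intro hi hi'
        have h := (Submodule.mem_orthogonal _ _).1 (h2 i') _ (hvS s i hi)
        rw [h, if_neg]
        rintro ⟨h, _⟩
        exact absurd h (Fin.succ_ne_zero s)
      · rw [ts, ts, vs, vs]
        intro hi hi'
        rw [F.orth s s' i i' hi hi']
        simp only [Fin.succ_inj]
  · intro s i j
    refine Fin.cases ?_ (fun s => ?_) s
    · rw [t0, v0]; intro _; exact h4 i j
    · rw [ts, vs]; intro hi; exact F.T s i j hi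
  · intro s i
    refine Fin.cases ?_ (fun s => ?_) s
    · rw [t0, v0]; intro _; exact h5 i
    · rw [ts, vs]; intro hi; exact F.E s i hi
  · intro s i
    refine Fin.cases ?_ (fun s => ?_) s
    · rw [t0, v0]; intro hi; exact hS2 (h6 i hi)
    · rw [ts, vs]; intro hi; exact hS1 (F.ie s i hi)
  · intro s i
    refine Fin.cases ?_ (fun s => ?_) s
    · rw [t0, v0]; intro hi; exact hS2 (h7 i hi)
    · rw [ts, vs]; intro hi; exact hS1 (F.if' s i hi)

theorem full [FiniteDimensional ℂ V] (D : Dat α b T e f) :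
    ∃ (m : ℕ) (τ : Fin m → Fin r → ℤ) (v : Fin m → ℕ → V), Fam α b T e f ⊤ τ v := by
  by_contra hcon
  have key : ∀ m : ℕ, ∃ (S : Submodule ℂ V) (τ : Fin m → Fin r → ℤ) (v : Fin m → ℕ → V),
      Fam α b T e f S τ v := by
    intro m
    induction m with
    | zero =>
      refine ⟨_, Fin.elim0, Fin.elim0, ?_, ?_, ?_, ?_, ?_, ?_, rfl⟩
      · intro s; exact s.elim0
      · intro s; exact s.elim0
      · intro s; exact s.elim0
      · intro s; exact s.elim0
      · intro s; exact s.elim0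
      · intro s; exact s.elim0
    | succ m ih =>
      obtain ⟨S, τ, v, F⟩ := ih
      apply extend D F
      intro h
      subst h
      exact hcon ⟨m, τ, v, F⟩
  obtain ⟨S, τ, v, F⟩ := key (Module.finrank ℂ V + 1)
  have hon : Orthonormal ℂ (fun s => v s 0) := by
    rw [orthonormal_iff_ite]
    intro s s'
    rw [F.orth s s' 0 0 (Nat.zero_le _) (Nat.zero_le _)]
    simp
  have := hon.linearIndependent.fintype_card_le_finrank
  simp at this

end abstract

variable {n : ℕ}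

/-- eigenvalues of a Hermitian matrix with `exp (2πi T) = 1` -/
theorem int_of_exp {A : Matrix (Fin n) (Fin n) ℂ} (hA : Aᴴ = A)
    (hexp : NormedSpace.exp ((2 * π * Complex.I : ℂ) • A) = 1) {x : Fin n → ℂ} (hx : x ≠ 0)
    {l : ℂ} (h : A *ᵥ x = l • x) : ∃ k : ℤ, l = k := by
  have hA' : A.IsHermitian := hA
  have hspec := hA'.spectral_theorem
  rw [Unitary.conjStarAlgAut_apply] at hspec
  set U : Matrix (Fin n) (Fin n) ℂ := (hA'.eigenvectorUnitary : Matrix (Fin n) (Fin n) ℂ) with hU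
  have hUU : U * star U = 1 := Unitary.coe_mul_star_self hA'.eigenvectorUnitary
  have hUU' : star U * U = 1 := Unitary.coe_star_mul_self hA'.eigenvectorUnitary
  have hinv : U⁻¹ = star U := Matrix.inv_eq_right_inv hUU
  have hunit : IsUnit U := ⟨⟨U, star U, hUU, hUU'⟩, rfl⟩
  have hscal : (2 * π * Complex.I : ℂ) • A =
      U * diagonal (fun i => (2 * π * Complex.I : ℂ) * (hA'.eigenvalues i : ℂ)) * U⁻¹ := by
    rw [hinv]
    conv_lhs => rw [hspec]
    rw [← Matrix.smul_mul, ← Matrix.mul_smul]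
    congr 2
    ext i j
    by_cases hij : i = j
    · subst hij; simp
    · simp [hij]
  rw [hscal, Matrix.exp_conj _ _ hunit, Matrix.exp_diagonal, hinv] at hexp
  have hd : diagonal (NormedSpace.exp
      (fun i => (2 * π * Complex.I : ℂ) * (hA'.eigenvalues i : ℂ))) = (1 : Matrix (Fin n) (Fin n) ℂ) := by
    have h1 : star U * (U * diagonal (NormedSpace.exp
      (fun i => (2 * π * Complex.I : ℂ) * (hA'.eigenvalues i : ℂ))) * star U) * U =
        star U * 1 * U := by rw [hexp]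
    rw [mul_one, hUU'] at h1
    have hg : ∀ B : Matrix (Fin n) (Fin n) ℂ, star U * (U * B * star U) * U = B := by
      intro B
      rw [mul_assoc, mul_assoc (U * B), hUU', mul_one, ← mul_assoc, hUU', one_mul]
    rw [hg] at h1
    exact h1
  have hz : ∀ i, ∃ z : ℤ, (hA'.eigenvalues i : ℂ) = z := by
    intro i
    have h1 := congrFun (congrFun hd i) i
    rw [Matrix.diagonal_apply_eq, Matrix.one_apply_eq, Pi.coe_exp, ← Complex.exp_eq_exp_ℂ,
      Complex.exp_eq_one_iff] at h1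
    obtain ⟨z, hz⟩ := h1
    refine ⟨z, ?_⟩
    have hne : (2 * π * Complex.I : ℂ) ≠ 0 := Complex.two_pi_I_ne_zero
    have : (2 * π * Complex.I : ℂ) * (hA'.eigenvalues i : ℂ) = (2 * π * Complex.I : ℂ) * z := by
      rw [hz]; ring
    exact mul_left_cancel₀ hne this
  -- the vector in the eigenbasis
  set y : Fin n → ℂ := star U *ᵥ x with hy
  have hy0 : y ≠ 0 := by
    intro h0
    apply hx
    have : U *ᵥ y = x := by rw [hy, Matrix.mulVec_mulVec, hUU, Matrix.one_mulVec]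
    rw [← this, h0, Matrix.mulVec_zero]
  have hyl : diagonal (RCLike.ofReal ∘ hA'.eigenvalues) *ᵥ y = l • y := by
    have h1 : star U *ᵥ (A *ᵥ x) = l • y := by rw [h, Matrix.mulVec_smul]
    rw [hspec, Matrix.mulVec_mulVec, ← mul_assoc, ← mul_assoc, hUU', one_mul,
      ← Matrix.mulVec_mulVec] at h1
    exact h1
  obtain ⟨i, hi⟩ : ∃ i, y i ≠ 0 := by
    by_contra hcon
    apply hy0
    funext i
    by_contra h'
    exact hcon ⟨i, h'⟩
  have h2 := congrFun hyl i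
  rw [Matrix.mulVec_diagonal, Pi.smul_apply, smul_eq_mul] at h2
  have h3 := mul_right_cancel₀ hi h2
  obtain ⟨z, hz'⟩ := hz i
  refine ⟨z, ?_⟩
  rw [← h3, ← hz']
  rfl

/-- the linear map of a matrix -/
def lm' (A : Matrix (Fin n) (Fin n) ℂ) :
    EuclideanSpace ℂ (Fin n) →ₗ[ℂ] EuclideanSpace ℂ (Fin n) := Matrix.toEuclideanLin A

theorem lm'_ofLp (A : Matrix (Fin n) (Fin n) ℂ) (x : EuclideanSpace ℂ (Fin n)) :
    (lm' A x).ofLp = A *ᵥ x.ofLp := rfl

theorem lm'_adj (A : Matrix (Fin n) (Fin n) ℂ) (x y : EuclideanSpace ℂ (Fin n)) :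
    inner ℂ (lm' A x) y = inner ℂ x (lm' Aᴴ y) := by
  unfold lm'
  rw [Matrix.toEuclideanLin_conjTranspose_eq_adjoint, LinearMap.adjoint_inner_right]

theorem ext' {x y : EuclideanSpace ℂ (Fin n)} (h : x.ofLp = y.ofLp) : x = y :=
  (WithLp.ofLp_injective 2) h

end SLA

open SLA in
theorem t_SLA : S_SLA := by
  classical
  intro r n α b T e h2 hherm hcom hexp hTe hbr
  have D : Dat (V := EuclideanSpace ℂ (Fin n)) α b (fun j => lm' (T j)) (lm' e) (lm' eᴴ) := by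
    refine ⟨h2, ?_, ?_, ?_, ?_, ?_, ?_⟩
    · intro j x y
      rw [lm'_adj, hherm]
    · intro i j x
      apply ext'
      rw [lm'_ofLp, lm'_ofLp, lm'_ofLp, lm'_ofLp, Matrix.mulVec_mulVec, Matrix.mulVec_mulVec, hcom]
    · intro j x l hx h
      apply int_of_exp (hherm j) (hexp j) (x := x.ofLp)
      · intro h0
        exact hx (ext' (by rw [h0]; rfl))
      · have := congrArg WithLp.ofLp h
        rw [lm'_ofLp] at this
        exact this
    · intro x y
      rw [lm'_adj]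
    · intro j x
      apply ext'
      have h1 : T j * e = e * T j + (α j : ℂ) • e := by
        rw [← hTe j]; abel
      rw [lm'_ofLp, lm'_ofLp, Matrix.mulVec_mulVec, h1, Matrix.add_mulVec, Matrix.smul_mulVec,
        ← Matrix.mulVec_mulVec]
      rfl
    · intro x
      apply ext'
      have h1 := congrArg (fun B => B *ᵥ x.ofLp) hbr
      simp only [Matrix.sub_mulVec, ← Matrix.mulVec_mulVec] at h1
      have h3 : (∑ j, (b j : ℂ) • T j) *ᵥ x.ofLp = ∑ j, (b j : ℂ) • (T j *ᵥ x.ofLp) := by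
        rw [Matrix.sum_mulVec]
        exact Finset.sum_congr rfl fun j _ => Matrix.smul_mulVec _ _ _
      rw [h3] at h1
      have h4 : (∑ j, (b j : ℂ) • (lm' (T j)) x).ofLp = ∑ j, (b j : ℂ) • (T j *ᵥ x.ofLp) := by
        rw [WithLp.ofLp_sum]
        exact Finset.sum_congr rfl fun j _ => rfl
      rw [h4]
      exact h1
  obtain ⟨m, τ, v, F⟩ := full D
  -- the orthonormal basis
  let I : Type := Σ s : Fin m, Fin ((b ⬝ᵥ τ s).toNat + 1)
  let u : I → EuclideanSpace ℂ (Fin n) := fun a => v a.1 a.2.val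
  have hle : ∀ a : I, a.2.val ≤ (b ⬝ᵥ τ a.1).toNat := fun a => Nat.lt_succ_iff.1 a.2.isLt
  have hon : Orthonormal ℂ u := by
    rw [orthonormal_iff_ite]
    intro a a'
    have h := F.orth a.1 a'.1 a.2.val a'.2.val (hle a) (hle a')
    have hiff : (a.1 = a'.1 ∧ a.2.val = a'.2.val) ↔ a = a' := by
      constructor
      · rintro ⟨h1, h2⟩
        obtain ⟨s, i⟩ := a
        obtain ⟨s', i'⟩ := a'
        simp only at h1
        subst h1
        simp only at h2
        rw [Fin.ext h2]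
      · rintro rfl
        exact ⟨rfl, rfl⟩
    rw [show u a = v a.1 a.2.val from rfl, show u a' = v a'.1 a'.2.val from rfl, h]
    simp only [hiff]
  have hsp : ⊤ ≤ Submodule.span ℂ (Set.range u) := by
    rw [F.sp]
    apply Submodule.span_mono
    rintro y ⟨s, i, hi, rfl⟩
    exact ⟨⟨s, ⟨i, Nat.lt_succ_of_le hi⟩⟩, rfl⟩
  let B₀ : OrthonormalBasis I ℂ (EuclideanSpace ℂ (Fin n)) := OrthonormalBasis.mk hon hsp
  have hcard : Fintype.card I = n := by
    have h1 := Module.finrank_eq_card_basis B₀.toBasis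
    rw [finrank_euclideanSpace_fin] at h1
    exact h1.symm
  let σ : I ≃ Fin n := Fintype.equivFinOfCardEq hcard
  let w : Fin n → EuclideanSpace ℂ (Fin n) := fun k => u (σ.symm k)
  have hw : ∀ k l, inner ℂ (w k) (w l) = if k = l then 1 else 0 := by
    intro k l
    have h := orthonormal_iff_ite.1 hon (σ.symm k) (σ.symm l)
    rw [h]
    simp only [EmbeddingLike.apply_eq_iff_eq]
  let U : Matrix (Fin n) (Fin n) ℂ := fun i k => (w k).ofLp i
  let μ : Fin n → Fin r → ℤ := fun k j => τ (σ.symm k).1 j - ((σ.symm k).2.val : ℤ) * α j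
  let x : Fin n → ℤ := fun k => b ⬝ᵥ τ (σ.symm k).1 + 1
  have hUU : Uᴴ * U = 1 := by
    ext k l
    rw [Matrix.mul_apply, Matrix.one_apply, ← hw k l, PiLp.inner_apply]
    apply Finset.sum_congr rfl
    intro i _
    rw [Matrix.conjTranspose_apply]
    simp [U, mul_comm]
  have hUU' : U * Uᴴ = 1 := mul_eq_one_comm.1 hUU
  have hdiag : ∀ (A : Matrix (Fin n) (Fin n) ℂ) (c : Fin n → ℂ), (∀ k, lm' A (w k) = c k • w k) →
      A = U * Matrix.diagonal c * Uᴴ := by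
    intro A c h
    have h1 : A * U = U * Matrix.diagonal c := by
      ext i k
      have h3 := congrFun (congrArg WithLp.ofLp (h k)) i
      rw [lm'_ofLp] at h3
      rw [Matrix.mul_diagonal, Matrix.mul_apply]
      have h4 : (A *ᵥ (w k).ofLp) i = ∑ j, A i j * U j k := rfl
      rw [← h4, h3]
      simp [U, mul_comm]
    rw [← h1, mul_assoc, hUU', mul_one]
  refine ⟨U, μ, x, m, τ, hUU', hUU, ?_, ?_, ?_, ?_⟩
  · intro j
    apply hdiag
    intro k
    exact F.T (σ.symm k).1 (σ.symm k).2.val j (hle _)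
  · apply hdiag
    intro k
    have h := F.E (σ.symm k).1 (σ.symm k).2.val (hle _)
    have h3 : lm' (e * eᴴ + eᴴ * e) (w k) = lm' e (lm' eᴴ (w k)) + lm' eᴴ (lm' e (w k)) := by
      apply ext'
      rw [lm'_ofLp, Matrix.add_mulVec, ← Matrix.mulVec_mulVec, ← Matrix.mulVec_mulVec]
      rfl
    rw [h3]
    refine h.trans ?_
    congr 1
    unfold cE
    have h5 : b ⬝ᵥ μ k = b ⬝ᵥ τ (σ.symm k).1 - 2 * ((σ.symm k).2.val : ℤ) := by
      have : μ k = τ (σ.symm k).1 - ((σ.symm k).2.val : ℤ) • α := by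
        funext j; simp [μ]
      rw [this, dotProduct_sub, dotProduct_smul, h2]
      simp [mul_comm]
    rw [h5]
    simp only [x]
    push_cast
    ring
  · exact F.nn
  · intro G
    have h1 : ∑ j, G (μ j) (x j) = ∑ a : I, G (τ a.1 - (a.2.val : ℤ) • α) (b ⬝ᵥ τ a.1 + 1) := by
      rw [← Equiv.sum_comp σ]
      apply Finset.sum_congr rfl
      intro a _
      have h3 : μ (σ a) = τ a.1 - (a.2.val : ℤ) • α := by
        funext j
        change τ (σ.symm (σ a)).1 j - ((σ.symm (σ a)).2.val : ℤ) * α j = _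
        rw [σ.symm_apply_apply]
        rfl
      have h4 : x (σ a) = b ⬝ᵥ τ a.1 + 1 := by simp [x]
      rw [h3, h4]
    rw [h1, Fintype.sum_sigma]
    apply Finset.sum_congr rfl
    intro s _
    rw [Finset.sum_range]

end

end STZ3
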