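import Pool.Agent.STZ3.StD3

/-!
# Compact simple groups of rank two, chain packets: module SMJ
-/

namespace STZ3

open STZ LGR MeasureTheory Matrix Filter

open scoped ComplexConjugate Matrix Real Topology

noncomputable section

namespace SMJ

/-- one factor is small -/
theorem fac {J m : ℕ} {ε C₂ f v ψ : ℝ} (hC : 0 ≤ C₂) (hf : 0 ≤ f) (hf1 : f ≤ (2 : ℝ) ^ ((1 - ε) * J))
    (hv : (2 : ℝ) ^ J ≤ 256 * |v|) (h : |ψ| * |v| ^ (2 * m) ≤ C₂ * f ^ (2 * m)) :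
    |ψ| ≤ C₂ * (256 : ℝ) ^ (2 * m) * (2 : ℝ) ^ (-(2 * m * (ε * J))) := by
  have h2 : (0 : ℝ) < 2 ^ J := by positivity
  have hv0 : (2 : ℝ) ^ J / 256 ≤ |v| := by
    rw [div_le_iff₀ (by norm_num)]
    linarith
  have h3 : |ψ| * ((2 : ℝ) ^ J / 256) ^ (2 * m) ≤ C₂ * ((2 : ℝ) ^ ((1 - ε) * J)) ^ (2 * m) := by
    refine le_trans ?_ (h.trans ?_)
    · exact mul_le_mul_of_nonneg_left (pow_le_pow_left₀ (by positivity) hv0 _) (abs_nonneg _)
    · exact mul_le_mul_of_nonneg_left (pow_le_pow_left₀ hf hf1 _) hC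
  have h4 : (0 : ℝ) < ((2 : ℝ) ^ J / 256) ^ (2 * m) := by positivity
  have h5 : |ψ| ≤ C₂ * ((2 : ℝ) ^ ((1 - ε) * J)) ^ (2 * m) / ((2 : ℝ) ^ J / 256) ^ (2 * m) := by
    rw [le_div_iff₀ h4]
    exact h3
  refine h5.trans (le_of_eq ?_)
  have h6 : (2 : ℝ) ^ ((1 - ε) * J) = (2 : ℝ) ^ J * (2 : ℝ) ^ (-(ε * J)) := by
    rw [← Real.rpow_natCast 2 J, ← Real.rpow_add (by norm_num)]
    congr 1
    ring
  have h7 : ((2 : ℝ) ^ (-(ε * J))) ^ (2 * m) = (2 : ℝ) ^ (-(2 * m * (ε * J))) := by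
    rw [← Real.rpow_natCast, ← Real.rpow_mul (by norm_num)]
    congr 1
    push_cast
    ring
  rw [← h7, h6, mul_pow, div_pow]
  field_simp

end SMJ

theorem t_SMJ : M_SMJ := by
  intro hLMC hLAN Φ B hI hW hA2 m C₁ C₂ ε A hm hC₁ hC₂ hε hA hnA
  obtain ⟨K, CL, hCL, hL⟩ := hLMC 2 Φ B (by norm_num) hI hW m C₁ hm hC₁
  obtain ⟨J₀, hJ₀⟩ := hLAN Φ B hI hW hA2 m C₁ ε hm hC₁ hε
  set n : ℕ := (pos Φ).card with hn
  set D : ℝ := max 1 C₂ with hD
  have hD1 : (1 : ℝ) ≤ D := le_max_left _ _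
  have hD2 : C₂ ≤ D := le_max_right _ _
  have hD0 : (0 : ℝ) ≤ D := zero_le_one.trans hD1
  have hcard : (Finset.univ : Finset {p // p ∈ pos Φ}).card = n := by
    rw [Finset.card_univ, Fintype.card_coe]
  refine ⟨CL * D ^ n * ((256 : ℝ) ^ (2 * m) + (2 : ℝ) ^ ((n + A) * J₀)), by positivity, ?_⟩
  intro J q a x R M₀ jm L ψ ν₁ ν₂ jj hJ hq hRG hF hLG τ l
  have h2A : (0 : ℝ) < (2 : ℝ) ^ (-(A * J)) := by positivity
  by_cases h0 : lac Φ m J q a x τ l = 0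
  · rw [h0, norm_zero, zero_mul]
    positivity
  have hbd : ‖lac Φ m J q a x τ l‖ ≤ CL * (2 : ℝ) ^ ((n : ℝ) * J) := by
    refine (hL.bd J q a x τ l hq.qh).trans (le_of_eq ?_)
    congr 1
    rw [← Real.rpow_natCast]
    congr 1
    push_cast
    ring
  have hfac : ∀ p, |ψ p (jj p) (p.1.2 ⬝ᵥ l)| ≤ D := fun p => (hF.fcf.bd p (jj p) _).trans hD2
  have hprod : ∀ s : Finset {p // p ∈ pos Φ}, ∏ p ∈ s, |ψ p (jj p) (p.1.2 ⬝ᵥ l)| ≤ D ^ s.card := by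
    intro s
    calc ∏ p ∈ s, |ψ p (jj p) (p.1.2 ⬝ᵥ l)| ≤ ∏ _p ∈ s, D :=
        Finset.prod_le_prod (fun p _ => abs_nonneg _) fun p _ => hfac p
      _ = D ^ s.card := by rw [Finset.prod_const]
  have hpj : |pj' ψ jj l| = ∏ p, |ψ p (jj p) (p.1.2 ⬝ᵥ l)| := by
    unfold pj'
    rw [Finset.abs_prod]
  rw [hpj]
  rcases Nat.lt_or_ge J J₀ with hJJ | hJJ
  · have h1 := hprod Finset.univ
    rw [hcard] at h1
    have h3 : (2 : ℝ) ^ ((n : ℝ) * J) ≤ (2 : ℝ) ^ ((n + A) * J₀) * (2 : ℝ) ^ (-(A * J)) := by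
      rw [← Real.rpow_add (by norm_num)]
      refine Real.rpow_le_rpow_of_exponent_le (by norm_num) ?_
      have h4 : (J : ℝ) ≤ J₀ := by exact_mod_cast hJJ.le
      have h5 : (0 : ℝ) ≤ n := Nat.cast_nonneg n
      nlinarith [mul_nonneg h5 (sub_nonneg.2 h4), mul_nonneg hA (sub_nonneg.2 h4)]
    calc ‖lac Φ m J q a x τ l‖ * ∏ p, |ψ p (jj p) (p.1.2 ⬝ᵥ l)|
        ≤ (CL * (2 : ℝ) ^ ((n : ℝ) * J)) * D ^ n :=
          mul_le_mul hbd h1 (Finset.prod_nonneg fun p _ => abs_nonneg _) (by positivity)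
      _ = CL * D ^ n * (2 : ℝ) ^ ((n : ℝ) * J) := by ring
      _ ≤ CL * D ^ n * ((2 : ℝ) ^ ((n + A) * J₀) * (2 : ℝ) ^ (-(A * J))) :=
          mul_le_mul_of_nonneg_left h3 (by positivity)
      _ ≤ _ := by
          rw [← mul_assoc]
          refine mul_le_mul_of_nonneg_right ?_ h2A.le
          refine mul_le_mul_of_nonneg_left ?_ (by positivity)
          have : (0 : ℝ) ≤ (256 : ℝ) ^ (2 * m) := by positivity
          linarith
  · obtain ⟨p₁, p₂, hne, h1, h2⟩ := hJ₀ J q a x τ l hJJ hq hRG h0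
    -- one of the two scales is small
    have h3 : ∃ p : {p // p ∈ pos Φ}, (2 ^ J : ℤ) ≤ 256 * |p.1.2 ⬝ᵥ l| ∧
        fs (M₀ p) (jm p) (jj p).val < (2 : ℝ) ^ ((1 - ε) * J) := by
      by_contra hno
      push Not at hno
      exact hLG ⟨p₁, p₂, hne, hno p₁ h1, hno p₂ h2⟩
    obtain ⟨p, hp1, hp2⟩ := h3
    have hv : (2 : ℝ) ^ J ≤ 256 * |((p.1.2 ⬝ᵥ l : ℤ) : ℝ)| := by exact_mod_cast hp1
    have hM0 : 0 < M₀ p := by
      have h4 := hF.lo p
      by_contra h5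
      push Not at h5
      have h6 : (2 : ℝ) ^ jm p * M₀ p ≤ 0 := mul_nonpos_of_nonneg_of_nonpos (by positivity) h5
      have h7 : (0 : ℝ) < 2 ^ J := by positivity
      linarith
    have hjj : (jj p).val ≤ jm p := by
      by_contra h4
      push Not at h4
      have h5 : fs (M₀ p) (jm p) (jj p).val = 2 ^ jm p * M₀ p := by
        unfold fs
        rw [min_eq_right h4.le]
      have h6 : (2 : ℝ) ^ ((1 - ε) * J) ≤ 2 ^ J := by
        rw [← Real.rpow_natCast 2 J]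
        refine Real.rpow_le_rpow_of_exponent_le (by norm_num) ?_
        have h7 : (0 : ℝ) ≤ J := Nat.cast_nonneg J
        nlinarith
      have h8 := hF.lo p
      rw [h5] at hp2
      linarith
    have hfs0 : 0 ≤ fs (M₀ p) (jm p) (jj p).val := by
      unfold fs
      positivity
    have hsm := SMJ.fac hC₂ hfs0 hp2.le hv (hF.fcf.hi p (jj p) _ hjj)
    have h9 : ∏ p, |ψ p (jj p) (p.1.2 ⬝ᵥ l)| ≤
        (C₂ * (256 : ℝ) ^ (2 * m) * (2 : ℝ) ^ (-(2 * m * (ε * J)))) * D ^ (n - 1) := by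
      rw [← Finset.mul_prod_erase _ _ (Finset.mem_univ p)]
      have h10 := hprod (Finset.univ.erase p)
      rw [Finset.card_erase_of_mem (Finset.mem_univ p), hcard] at h10
      exact mul_le_mul hsm h10 (Finset.prod_nonneg fun p _ => abs_nonneg _) (by positivity)
    have hn1 : 1 ≤ n := by
      rw [← hcard]
      exact Finset.card_pos.2 ⟨p, Finset.mem_univ p⟩
    have h11 : C₂ * D ^ (n - 1) ≤ D ^ n := by
      calc C₂ * D ^ (n - 1) ≤ D * D ^ (n - 1) := mul_le_mul_of_nonneg_right hD2 (by positivity)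
        _ = D ^ n := by rw [← pow_succ', Nat.sub_add_cancel hn1]
    have h12 : (2 : ℝ) ^ ((n : ℝ) * J) * (2 : ℝ) ^ (-(2 * m * (ε * J))) ≤ (2 : ℝ) ^ (-(A * J)) := by
      rw [← Real.rpow_add (by norm_num)]
      refine Real.rpow_le_rpow_of_exponent_le (by norm_num) ?_
      have h7 : (0 : ℝ) ≤ J := Nat.cast_nonneg J
      nlinarith [mul_le_mul_of_nonneg_right hnA h7]
    calc ‖lac Φ m J q a x τ l‖ * ∏ p, |ψ p (jj p) (p.1.2 ⬝ᵥ l)|
        ≤ (CL * (2 : ℝ) ^ ((n : ℝ) * J)) *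
          ((C₂ * (256 : ℝ) ^ (2 * m) * (2 : ℝ) ^ (-(2 * m * (ε * J)))) * D ^ (n - 1)) :=
          mul_le_mul hbd h9 (Finset.prod_nonneg fun p _ => abs_nonneg _) (by positivity)
      _ = CL * (C₂ * D ^ (n - 1)) * (256 : ℝ) ^ (2 * m) *
          ((2 : ℝ) ^ ((n : ℝ) * J) * (2 : ℝ) ^ (-(2 * m * (ε * J)))) := by ring
      _ ≤ CL * D ^ n * (256 : ℝ) ^ (2 * m) * (2 : ℝ) ^ (-(A * J)) := by
          refine mul_le_mul ?_ h12 (by positivity) (by positivity)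
          refine mul_le_mul_of_nonneg_right ?_ (by positivity)
          exact mul_le_mul_of_nonneg_left h11 hCL
      _ ≤ _ := by
          refine mul_le_mul_of_nonneg_right ?_ h2A.le
          refine mul_le_mul_of_nonneg_left ?_ (by positivity)
          have : (0 : ℝ) ≤ (2 : ℝ) ^ ((n + A) * J₀) := by positivity
          linarith

end

end STZ3
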