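import Pool.Agent.STZ3.StD3

/-!
# Module SHD_SMK: small coefficients (MP_bea16e_an)

The auxiliary lemmas are copies of those of `CLL.lean` and `OFD.lean`.
-/

namespace STZ3

open STZ LGR MeasureTheory Matrix Filter

open scoped ComplexConjugate Matrix Real Topology

noncomputable section

namespace SMK

section bm

variable {X Y Z : Type*} [MeasurableSpace X] [MeasurableSpace Y] [MeasurableSpace Z]
  {E : Type*} [NormedAddCommGroup E] [NormedSpace ℝ E]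

/-- bounded measurable functions -/
def BM {X : Type*} [MeasurableSpace X] {E : Type*} [NormedAddCommGroup E] (f : X → E) : Prop :=
  StronglyMeasurable f ∧ ∃ C : ℝ, ∀ x, ‖f x‖ ≤ C

omit [NormedSpace ℝ E] in
theorem BM.integrable {f : X → E} (hf : BM f) (ν : Measure X) [IsFiniteMeasure ν] :
    Integrable f ν := by
  obtain ⟨h, C, hC⟩ := hf
  exact Integrable.of_bound h.aestronglyMeasurable C (Eventually.of_forall hC)

omit [NormedSpace ℝ E] in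
theorem BM.comp {f : X → E} (hf : BM f) {g : Y → X} (hg : Measurable g) : BM fun y => f (g y) := by
  obtain ⟨h, C, hC⟩ := hf
  exact ⟨h.comp_measurable hg, C, fun y => hC _⟩

theorem BM.int {f : X × Y → E} (hf : BM f) (ν : Measure Y) [IsFiniteMeasure ν] :
    BM fun x => ∫ y, f (x, y) ∂ν := by
  obtain ⟨h, C, hC⟩ := hf
  exact ⟨h.integral_prod_right', C * ν.real Set.univ,
    fun x => norm_integral_le_of_norm_le_const (Eventually.of_forall fun y => hC _)⟩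


end bm

theorem BM.smul {X : Type*} [MeasurableSpace X] {E : Type*} [NormedAddCommGroup E] [NormedSpace ℝ E]
    {f : X → ℝ} {g : X → E} (hf : BM f) (hg : BM g) : BM fun x => f x • g x := by
  obtain ⟨h1, C1, hC1⟩ := hf
  obtain ⟨h2, C2, hC2⟩ := hg
  refine ⟨h1.smul h2, |C1| * |C2|, fun x => ?_⟩
  rw [norm_smul]
  exact mul_le_mul ((hC1 x).trans (le_abs_self _)) ((hC2 x).trans (le_abs_self _)) (norm_nonneg _)
    (abs_nonneg _)


theorem bdV {G : Type} [TopologicalSpace G] [CompactSpace G] (V : ℝ → G → G → ℂ)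
    (hV : Continuous fun z : ℝ × G × G => V z.1 z.2.1 z.2.2) :
    ∃ C : ℝ, ∀ t h g, ‖V (max 0 (min 1 t)) h g‖ ≤ C := by
  obtain ⟨C, hC⟩ := ((isCompact_Icc (a := (0 : ℝ)) (b := 1)).prod
    (isCompact_univ (X := G × G))).exists_bound_of_continuousOn hV.continuousOn
  refine ⟨C, fun t h g => hC (max 0 (min 1 t), h, g) ⟨?_, Set.mem_univ _⟩⟩
  exact ⟨le_max_left _ _, max_le zero_le_one (min_le_left _ _)⟩


section abs

variable {α : Type*} [MeasurableSpace α]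

theorem bm_sqrt {f : α → ℝ} (hf : BM f) : BM fun x => √(f x) := by
  obtain ⟨h, C, hC⟩ := hf
  refine ⟨Real.continuous_sqrt.comp_stronglyMeasurable h, √C, fun x => ?_⟩
  rw [Real.norm_of_nonneg (Real.sqrt_nonneg _)]
  exact Real.sqrt_le_sqrt ((le_abs_self _).trans (hC x))

theorem csq (μ : Measure α) [IsFiniteMeasure μ] {f g : α → ℝ} (hf : BM f) (hg : BM g)
    (hf0 : ∀ x, 0 ≤ f x) (hg0 : ∀ x, 0 ≤ g x) :
    ∫ x, √(f x) * √(g x) ∂μ ≤ √(∫ x, f x ∂μ) * √(∫ x, g x ∂μ) := by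
  obtain ⟨mf, Cf, bf⟩ := bm_sqrt hf
  obtain ⟨mg, Cg, bg⟩ := bm_sqrt hg
  have h := integral_mul_le_Lp_mul_Lq_of_nonneg (μ := μ) (p := 2) (q := 2)
    Real.HolderConjugate.two_two (f := fun x => √(f x)) (g := fun x => √(g x))
    (ae_of_all _ fun x => Real.sqrt_nonneg _) (ae_of_all _ fun x => Real.sqrt_nonneg _)
    (MemLp.of_bound mf.aestronglyMeasurable Cf (ae_of_all _ bf))
    (MemLp.of_bound mg.aestronglyMeasurable Cg (ae_of_all _ bg))
  have e1 : ∀ x, √(f x) ^ (2 : ℝ) = f x := fun x => by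
    rw [Real.rpow_two, Real.sq_sqrt (hf0 x)]
  have e2 : ∀ x, √(g x) ^ (2 : ℝ) = g x := fun x => by
    rw [Real.rpow_two, Real.sq_sqrt (hg0 x)]
  simp only [e1, e2] at h
  rw [Real.sqrt_eq_rpow (∫ x, f x ∂μ), Real.sqrt_eq_rpow (∫ x, g x ∂μ)]
  exact h

theorem csq1 (μ : Measure α) [IsProbabilityMeasure μ] {f : α → ℝ} (hf : BM f)
    (hf0 : ∀ x, 0 ≤ f x) : ∫ x, √(f x) ∂μ ≤ √(∫ x, f x ∂μ) := by
  have h := csq μ hf (g := fun _ => (1 : ℝ)) ⟨stronglyMeasurable_const, 1, fun x => by simp⟩ hf0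
    (fun _ => zero_le_one)
  simpa using h

theorem bmul {f g : α → ℝ} (hf : BM f) (hg : BM g) : BM fun x => f x * g x := hf.smul hg

theorem bconst (c : ℝ) : BM fun _ : α => c := ⟨stronglyMeasurable_const, ‖c‖, fun _ => le_rfl⟩

theorem core {G : Type*} [MeasurableSpace G] (μ : Measure G) [IsProbabilityMeasure μ]
    (ℓ : Measure ℝ) [IsProbabilityMeasure ℓ] (J : ℝ → ℝ → G → ℂ) (v w : ℝ → G → G → ℝ)
    (hv : BM fun z : ℝ × G × G => v z.1 z.2.1 z.2.2)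
    (hw : BM fun z : ℝ × G × G => w z.1 z.2.1 z.2.2)
    (v0 : ∀ s h g, 0 ≤ v s h g) (w0 : ∀ s h g, 0 ≤ w s h g) (A : ℝ) (hA : 0 ≤ A)
    (hJ : ∀ t s h, ‖J t s h‖ ≤ A * (√(∫ g, v s h g ∂μ) * √(∫ g, w t h g ∂μ))) :
    ‖∫ t, ∫ s, ∫ h, J t s h ∂μ ∂ℓ ∂ℓ‖ ≤
      A * (√(∫ s, ∫ h, ∫ g, v s h g ∂μ ∂μ ∂ℓ) * √(∫ t, ∫ h, ∫ g, w t h g ∂μ ∂μ ∂ℓ)) := by
  have hnv : BM fun z : ℝ × G => ∫ g, v z.1 z.2 g ∂μ :=
    (hv.comp (g := fun p : (ℝ × G) × G => (p.1.1, p.1.2, p.2)) (by fun_prop)).int μ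
  have hnw : BM fun z : ℝ × G => ∫ g, w z.1 z.2 g ∂μ :=
    (hw.comp (g := fun p : (ℝ × G) × G => (p.1.1, p.1.2, p.2)) (by fun_prop)).int μ
  have hNV : BM fun s : ℝ => ∫ h, ∫ g, v s h g ∂μ ∂μ := hnv.int μ
  have hNW : BM fun s : ℝ => ∫ h, ∫ g, w s h g ∂μ ∂μ := hnw.int μ
  have nv0 : ∀ s h, 0 ≤ ∫ g, v s h g ∂μ := fun s h => integral_nonneg fun g => v0 s h g
  have nw0 : ∀ s h, 0 ≤ ∫ g, w s h g ∂μ := fun s h => integral_nonneg fun g => w0 s h g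
  have NV0 : ∀ s, 0 ≤ ∫ h, ∫ g, v s h g ∂μ ∂μ := fun s => integral_nonneg fun h => nv0 s h
  have NW0 : ∀ s, 0 ≤ ∫ h, ∫ g, w s h g ∂μ ∂μ := fun s => integral_nonneg fun h => nw0 s h
  have s1 : ∀ t s, ‖∫ h, J t s h ∂μ‖ ≤
      A * (√(∫ h, ∫ g, v s h g ∂μ ∂μ) * √(∫ h, ∫ g, w t h g ∂μ ∂μ)) := by
    intro t s
    have b1 : BM fun h : G => ∫ g, v s h g ∂μ := hnv.comp (g := fun h => (s, h)) (by fun_prop)
    have b2 : BM fun h : G => ∫ g, w t h g ∂μ := hnw.comp (g := fun h => (t, h)) (by fun_prop)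
    refine (norm_integral_le_of_norm_le
      ((bmul (bconst A) (bmul (bm_sqrt b1) (bm_sqrt b2))).integrable μ)
      (ae_of_all _ fun h => hJ t s h)).trans ?_
    rw [integral_const_mul]
    exact mul_le_mul_of_nonneg_left (csq μ b1 b2 (nv0 s) (nw0 t)) hA
  have s2 : ∀ t, ‖∫ s, ∫ h, J t s h ∂μ ∂ℓ‖ ≤
      A * (√(∫ s, ∫ h, ∫ g, v s h g ∂μ ∂μ ∂ℓ) * √(∫ h, ∫ g, w t h g ∂μ ∂μ)) := by
    intro t
    have hi : Integrable (fun s => A * (√(∫ h, ∫ g, v s h g ∂μ ∂μ) *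
        √(∫ h, ∫ g, w t h g ∂μ ∂μ))) ℓ :=
      (bmul (bconst A) (bmul (bm_sqrt hNV) (bconst √(∫ h, ∫ g, w t h g ∂μ ∂μ)))).integrable ℓ
    refine (norm_integral_le_of_norm_le hi (Eventually.of_forall (s1 t))).trans ?_
    rw [integral_const_mul, integral_mul_const]
    exact mul_le_mul_of_nonneg_left
      (mul_le_mul_of_nonneg_right (csq1 ℓ hNV NV0) (Real.sqrt_nonneg _)) hA
  have hi : Integrable (fun t => A * (√(∫ s, ∫ h, ∫ g, v s h g ∂μ ∂μ ∂ℓ) *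
      √(∫ h, ∫ g, w t h g ∂μ ∂μ))) ℓ :=
    (bmul (bconst A) (bmul (bconst √(∫ s, ∫ h, ∫ g, v s h g ∂μ ∂μ ∂ℓ))
      (bm_sqrt hNW))).integrable ℓ
  refine (norm_integral_le_of_norm_le hi (Eventually.of_forall s2)).trans ?_
  rw [integral_const_mul, integral_const_mul]
  exact mul_le_mul_of_nonneg_left
    (mul_le_mul_of_nonneg_left (csq1 ℓ hNW NW0) (Real.sqrt_nonneg _)) hA


end abs

/-- the clamped time -/
def ct (t : ℝ) : ℝ := max 0 (min 1 t)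

theorem ct_eq {t : ℝ} (ht : t ∈ Set.Ioc (0 : ℝ) 1) : ct t = t := by
  unfold ct
  rw [min_eq_right ht.2, max_eq_right ht.1.le]

theorem bm_nsq {G : Type} [TopologicalSpace G] [CompactSpace G] [SecondCountableTopology G]
    [MeasurableSpace G] [BorelSpace G] (V : ℝ → G → G → ℂ) (hV : J3 V) :
    BM fun z : ℝ × G × G => ‖V (ct z.1) z.2.1 z.2.2‖ ^ 2 := by
  obtain ⟨C, hC⟩ := bdV V hV
  have h1 : Continuous fun z : ℝ × G × G => V (ct z.1) z.2.1 z.2.2 :=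
    Continuous.comp hV (f := fun z : ℝ × G × G => (ct z.1, z.2.1, z.2.2))
      (by unfold ct; fun_prop)
  refine ⟨(h1.norm.pow 2).stronglyMeasurable, |C| ^ 2, fun z => ?_⟩
  rw [Real.norm_of_nonneg (by positivity)]
  exact pow_le_pow_left₀ (norm_nonneg _) ((hC _ _ _).trans (le_abs_self _)) 2


end SMK

open SMK in
theorem t_SMK : M_SMK := by
  intro _ _ hPLA N H r Φ B Hc E c k d hCX μ _ _ a T Ψ V W A₀ hA₀ _ ha hV hW
  have hcs : CompactSpace H := isCompact_iff_compactSpace.1 hCX.closed.isCompact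
  have hsec : SecondCountableTopology H :=
    inferInstanceAs (SecondCountableTopology ((H : Set (SU N)) : Type))
  have hℓ : IsProbabilityMeasure (volume.restrict (Set.Ioc (0 : ℝ) 1)) := by
    refine ⟨?_⟩
    rw [Measure.restrict_apply_univ, Real.volume_Ioc]
    simp
  have hJ : ∀ t s : ℝ, ∀ h : H, ‖∫ g, (∫ θ in Set.Icc (0 : Fin r → ℝ) 1,
      km a T Ψ (t - s) θ * (V (ct s) h g * conj (W (ct t) h (g * tt H Hc θ)))) ∂μ‖ ≤
      A₀ * (√(∫ g, ‖V (ct s) h g‖ ^ 2 ∂μ) * √(∫ g, ‖W (ct t) h g‖ ^ 2 ∂μ)) := by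
    intro t s h
    have cV : Continuous (V (ct s) h) :=
      Continuous.comp hV (f := fun g : H => (ct s, h, g)) (by fun_prop)
    have cW : Continuous (W (ct t) h) :=
      Continuous.comp hW (f := fun g : H => (ct t, h, g)) (by fun_prop)
    exact (hPLA N H r Φ B Hc E c k d hCX μ T
      (fun l => a (t - s) l * ((Ψ l : ℝ) : ℂ)) (V (ct s) h) (W (ct t) h) cV cW).2 A₀ hA₀ (by
        intro l hl
        rw [norm_mul, Complex.norm_real, Real.norm_eq_abs]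
        exact ha _ l hl)
  have hc := core μ (volume.restrict (Set.Ioc (0 : ℝ) 1)) (fun t s h => ∫ g,
      (∫ θ in Set.Icc (0 : Fin r → ℝ) 1,
      km a T Ψ (t - s) θ * (V (ct s) h g * conj (W (ct t) h (g * tt H Hc θ)))) ∂μ)
    (fun s h g => ‖V (ct s) h g‖ ^ 2) (fun t h g => ‖W (ct t) h g‖ ^ 2) (bm_nsq V hV)
    (bm_nsq W hW) (fun s h g => by positivity) (fun s h g => by positivity) A₀
    (by positivity) hJ
  have f1 : (∫ t in Set.Ioc (0 : ℝ) 1, ∫ s in Set.Ioc (0 : ℝ) 1, ∫ h, ∫ g,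
      (∫ θ in Set.Icc (0 : Fin r → ℝ) 1,
      km a T Ψ (t - s) θ * (V (ct s) h g * conj (W (ct t) h (g * tt H Hc θ)))) ∂μ ∂μ) =
      TX Hc μ (km a T Ψ) V W := by
    unfold TX
    simp only [intervalIntegral.integral_of_le zero_le_one]
    refine setIntegral_congr_fun measurableSet_Ioc fun t ht => ?_
    refine setIntegral_congr_fun measurableSet_Ioc fun s hs => ?_
    simp only [ct_eq ht, ct_eq hs]
  have f2 : ∀ U : ℝ → H → H → ℂ, (∫ s in Set.Ioc (0 : ℝ) 1, ∫ h, ∫ g, ‖U (ct s) h g‖ ^ 2 ∂μ ∂μ) =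
      ∫ t in (0 : ℝ)..1, ∫ h, ∫ g, ‖U t h g‖ ^ 2 ∂μ ∂μ := by
    intro U
    rw [intervalIntegral.integral_of_le zero_le_one]
    refine setIntegral_congr_fun measurableSet_Ioc fun t ht => ?_
    simp only [ct_eq ht]
  rw [f1, f2, f2] at hc
  exact hc

end

end STZ3
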