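import Pool.Agent.STZ3.StC3

/-!
# Chain packets: module STR (a basis of weight vectors adapted to the Levi subgroup of one root)
-/

namespace STZ3

open STZ LGR MeasureTheory Matrix Filter

open scoped ComplexConjugate Matrix Real Topology

noncomputable section

namespace STR

variable {N : ℕ} {H : Subgroup (SU N)} {n : ℕ} {σ : Rep H (Fin n)}

theorem ex_congr {X Y : MT N} {s t : ℝ} (h : (s : ℂ) • X = (t : ℂ) • Y) : ex X s = ex Y t := by
  unfold ex
  by_cases hm : NormedSpace.exp ((s : ℂ) • X) ∈ Matrix.specialUnitaryGroup (Fin N) ℂ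
  · have hm' : NormedSpace.exp ((t : ℂ) • Y) ∈ Matrix.specialUnitaryGroup (Fin N) ℂ := h ▸ hm
    rw [dif_pos hm, dif_pos hm']
    exact Subtype.ext (congrArg NormedSpace.exp h)
  · have hm' : NormedSpace.exp ((t : ℂ) • Y) ∉ Matrix.specialUnitaryGroup (Fin N) ℂ := h ▸ hm
    rw [dif_neg hm, dif_neg hm']

/-- the point of the torus -/
theorem exH_ta {r : ℕ} {Hc : Fin r → MT N} (hmem : ∀ x, hx Hc x ∈ lie H) (x : Fin r → ℝ) (t : ℝ) :
    (exH H (hx Hc x) t).1 = ta Hc (fun j => t * x j / (2 * π)) := by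
  have h1 : ex (hx Hc x) t ∈ H := (hmem x).2 t
  unfold exH
  rw [dif_pos h1]
  have h2 : (hx Hc fun j => 2 * π * (t * x j / (2 * π))) = (t : ℂ) • hx Hc x := by
    unfold hx
    rw [Finset.smul_sum]
    refine Finset.sum_congr rfl fun j _ => ?_
    rw [smul_smul]
    congr 1
    have h2 : (π : ℂ) ≠ 0 := Complex.ofReal_ne_zero.2 Real.pi_ne_zero
    push_cast
    field_simp
  unfold ta
  rw [h2]
  exact ex_congr (by rw [Complex.ofReal_one, one_smul])

theorem exp_conj {U : Matrix (Fin n) (Fin n) ℂ} (hU : U * Uᴴ = 1) (v : Fin n → ℂ) :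
    NormedSpace.exp (U * Matrix.diagonal v * Uᴴ) =
      U * Matrix.diagonal (fun m => Complex.exp (v m)) * Uᴴ := by
  have hi : U⁻¹ = Uᴴ := Matrix.inv_eq_right_inv hU
  have hunit : IsUnit U := by
    rw [Matrix.isUnit_iff_isUnit_det]
    have h1 : U.det * (Uᴴ).det = 1 := by rw [← Matrix.det_mul, hU, Matrix.det_one]
    exact IsUnit.of_mul_eq_one _ h1
  rw [← hi, Matrix.exp_conj _ _ hunit, Matrix.exp_diagonal]
  congr 3
  funext m
  rw [Pi.coe_exp, Complex.exp_eq_exp_ℂ]

theorem diag_sum {ι : Type} (s : Finset ι) (v : ι → Fin n → ℂ) :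
    ∑ j ∈ s, Matrix.diagonal (v j) = Matrix.diagonal (∑ j ∈ s, v j) :=
  (map_sum (Matrix.diagonalAddMonoidHom (Fin n) ℂ) v s).symm

theorem smul_diag (a : ℂ) (U : Matrix (Fin n) (Fin n) ℂ) (v : Fin n → ℂ) :
    a • (U * Matrix.diagonal v * Uᴴ) = U * Matrix.diagonal (fun m => a * v m) * Uᴴ := by
  rw [← Matrix.smul_mul, ← Matrix.mul_smul, ← Matrix.diagonal_smul]
  rfl

theorem dr_zero (F : DRF σ) {X : MT N} (hX : X ∈ lie H) : dr σ (0 : MT N) = 0 := by
  have h := F.smul X hX 0
  rw [Complex.ofReal_zero, zero_smul, zero_smul] at h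
  exact h

/-- the differential of a real combination -/
theorem dr_sum (F : DRF σ) (L : LIF H) {r : ℕ} {Z : Fin r → MT N} (hZ : ∀ j, Z j ∈ lie H)
    (x : Fin r → ℝ) (s : Finset (Fin r)) :
    (∑ j ∈ s, (x j : ℂ) • Z j) ∈ lie H ∧
      dr σ (∑ j ∈ s, (x j : ℂ) • Z j) = ∑ j ∈ s, (x j : ℂ) • dr σ (Z j) := by
  classical
  induction s using Finset.induction_on with
  | empty =>
    refine ⟨by simpa using L.zero, ?_⟩
    rw [Finset.sum_empty, Finset.sum_empty]
    exact dr_zero F L.zero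
  | insert j s hj ih =>
    rw [Finset.sum_insert hj, Finset.sum_insert hj]
    refine ⟨L.add _ (L.smul _ _ (hZ j)) _ ih.1, ?_⟩
    rw [F.add _ (L.smul _ _ (hZ j)) _ ih.1, ih.2, F.smul _ (hZ j)]

theorem hx_eq {r : ℕ} (Hc : Fin r → MT N) (x : Fin r → ℝ) :
    hx Hc x = ∑ j, (x j : ℂ) • (Complex.I • Hc j) := by
  unfold hx
  refine Finset.sum_congr rfl fun j _ => ?_
  rw [smul_smul]

end STR

open STR

theorem t_STR : M_STR := by
  intro hLIEB hWFAC hQUAD hTAUF hDREP hSLA N H r Φ B Hc E c k d hCX a n σ hσ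
  have L := hLIEB N H hCX.closed
  have F := hDREP N H n σ hCX.closed hσ
  have T := hTAUF N H r Φ B Hc E hCX.closed hCX.lrd
  have hWF := hWFAC r Φ B hCX.lrd.ird
  have hQ := hQUAD r Φ B hCX.lrd.ird hWF
  have hk := hCX.kc.kpos
  have hc := hCX.kc.cpos
  have hR := hCX.lrd
  have haΦ : a.1 ∈ Φ := (Finset.mem_filter.1 a.2).1
  set A := E a.1 with hA
  have hI : Complex.I * Complex.I = -1 := Complex.I_mul_I
  -- the elements
  set G : Fin r → Matrix (Fin n) (Fin n) ℂ := fun j => dr σ (Complex.I • Hc j) with hG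
  set D₁ := dr σ (A - Aᴴ) with hD₁
  set D₂ := dr σ (Complex.I • (A + Aᴴ)) with hD₂
  have m1 : A - Aᴴ ∈ lie H := (hR.emem a.1 haΦ).1
  have m2 : Complex.I • (A + Aᴴ) ∈ lie H := (hR.emem a.1 haΦ).2
  -- brackets in the Lie algebra
  have br1 : ∀ j, Hc j * A - A * Hc j = (a.1.1 j : ℂ) • A := fun j => hR.ead a.1 haΦ j
  have br2 : ∀ j, Hc j * Aᴴ - Aᴴ * Hc j = -((a.1.1 j : ℂ) • Aᴴ) := by
    intro j
    have h := congrArg Matrix.conjTranspose (br1 j)
    rw [Matrix.conjTranspose_sub, Matrix.conjTranspose_mul, Matrix.conjTranspose_mul, hR.herm j,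
      Matrix.conjTranspose_smul] at h
    have h2 : star ((a.1.1 j : ℂ)) = (a.1.1 j : ℂ) := by simp
    rw [h2] at h
    rw [← h]
    abel
  have b1 : ∀ j, (Complex.I • Hc j) * (A - Aᴴ) - (A - Aᴴ) * (Complex.I • Hc j) =
      (((a.1.1 j : ℝ)) : ℂ) • (Complex.I • (A + Aᴴ)) := by
    intro j
    have e : (Complex.I • Hc j) * (A - Aᴴ) - (A - Aᴴ) * (Complex.I • Hc j) =
        Complex.I • ((Hc j * A - A * Hc j) - (Hc j * Aᴴ - Aᴴ * Hc j)) := by
      simp only [Matrix.smul_mul, Matrix.mul_smul, ← smul_sub, Matrix.mul_sub, Matrix.sub_mul]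
      congr 1
      abel
    rw [e, br1, br2]
    push_cast
    module
  have b2 : ∀ j, (Complex.I • Hc j) * (Complex.I • (A + Aᴴ)) -
      (Complex.I • (A + Aᴴ)) * (Complex.I • Hc j) = ((-(a.1.1 j : ℝ) : ℝ) : ℂ) • (A - Aᴴ) := by
    intro j
    have e : (Complex.I • Hc j) * (Complex.I • (A + Aᴴ)) -
        (Complex.I • (A + Aᴴ)) * (Complex.I • Hc j) =
        (Complex.I * Complex.I) • ((Hc j * A - A * Hc j) + (Hc j * Aᴴ - Aᴴ * Hc j)) := by
      simp only [Matrix.smul_mul, Matrix.mul_smul, smul_smul, Matrix.mul_add,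
        Matrix.add_mul, smul_add, smul_sub]
      abel
    rw [e, br1, br2, hI]
    push_cast
    module
  have b3 : (A - Aᴴ) * (Complex.I • (A + Aᴴ)) - (Complex.I • (A + Aᴴ)) * (A - Aᴴ) =
      ∑ j, ((2 * (a.1.2 j : ℝ) : ℝ) : ℂ) • (Complex.I • Hc j) := by
    have e : (A - Aᴴ) * (Complex.I • (A + Aᴴ)) - (Complex.I • (A + Aᴴ)) * (A - Aᴴ) =
        (2 * Complex.I) • (A * Aᴴ - Aᴴ * A) := by
      simp only [Matrix.smul_mul, Matrix.mul_smul, Matrix.mul_add, Matrix.add_mul, Matrix.mul_sub,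
        Matrix.sub_mul]
      module
    rw [e, hR.cor a.1 haΦ, Finset.smul_sum]
    refine Finset.sum_congr rfl fun j _ => ?_
    rw [smul_smul, smul_smul]
    congr 1
    push_cast
    ring
  -- brackets of the differentials
  have c1 : ∀ j, G j * D₁ - D₁ * G j = (a.1.1 j : ℂ) • D₂ := by
    intro j
    have h := F.br _ (hR.mem j) _ m1
    rw [b1 j, F.smul _ m2] at h
    rw [← h]
    push_cast
    rfl
  have c2 : ∀ j, G j * D₂ - D₂ * G j = -((a.1.1 j : ℂ) • D₁) := by
    intro j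
    have h := F.br _ (hR.mem j) _ m2
    rw [b2 j, F.smul _ m1] at h
    rw [← h]
    push_cast
    rw [neg_smul]
  have c3 : D₁ * D₂ - D₂ * D₁ = ∑ j, (2 * (a.1.2 j : ℂ)) • G j := by
    have h := F.br _ m1 _ m2
    rw [b3, (dr_sum F L hR.mem (fun j => 2 * (a.1.2 j : ℝ)) Finset.univ).2] at h
    rw [← h]
    refine Finset.sum_congr rfl fun j _ => ?_
    push_cast
    rfl
  have c4 : ∀ i j, G i * G j = G j * G i := by
    intro i j
    have h := F.br _ (hR.mem i) _ (hR.mem j)
    have h0 : (Complex.I • Hc i) * (Complex.I • Hc j) - (Complex.I • Hc j) * (Complex.I • Hc i) =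
        0 := by
      simp only [Matrix.smul_mul, Matrix.mul_smul, smul_smul]
      rw [hR.comm i j, sub_self]
    rw [h0, dr_zero F L.zero] at h
    exact (sub_eq_zero.1 h.symm)
  have s1 : D₁ᴴ = -D₁ := F.skew _ m1
  have s2 : D₂ᴴ = -D₂ := F.skew _ m2
  have s3 : ∀ j, (G j)ᴴ = -G j := fun j => F.skew _ (hR.mem j)
  -- apply the linear algebra
  set e : Matrix (Fin n) (Fin n) ℂ := (1 / 2 : ℂ) • (D₁ - Complex.I • D₂) with he
  have heH : eᴴ = (1 / 2 : ℂ) • (-D₁ - Complex.I • D₂) := by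
    rw [he, Matrix.conjTranspose_smul, Matrix.conjTranspose_sub, Matrix.conjTranspose_smul, s1, s2]
    have h1 : star (1 / 2 : ℂ) = 1 / 2 := by
      rw [Complex.star_def, map_div₀, map_one]
      congr 1
      exact Complex.conj_ofNat 2
    have h2 : star Complex.I = -Complex.I := by
      rw [Complex.star_def, Complex.conj_I]
    rw [h1, h2]
    module
  have key := hSLA r n a.1.1 a.1.2 (fun j => (-Complex.I) • G j) e (hR.ird.two a.1 haΦ) ?_ ?_ ?_ ?_ ?_
  · obtain ⟨U, μ, x, m, τ, hU1, hU2, hT, hee, hstg⟩ := key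
    have hGU : ∀ j, G j = U * Matrix.diagonal (fun i => Complex.I * ((μ i j : ℤ) : ℂ)) * Uᴴ := by
      intro j
      rw [← smul_diag, ← hT j, smul_smul]
      have h0 : Complex.I * -Complex.I = 1 := by
        rw [mul_neg, hI, neg_neg]
      rw [h0, one_smul]
    refine ⟨U, μ, x, m, τ, ⟨⟨hU1, hU2, ?_⟩, ?_, hstg⟩⟩
    · intro g θ hg
      have h1 : g = exH H (hx Hc (fun j => 2 * π * θ j)) 1 := by
        apply Subtype.ext
        rw [hg, exH_ta T.hmem]
        congr 1
        funext j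
        have h2 : (π : ℝ) ≠ 0 := Real.pi_ne_zero
        field_simp
      rw [h1, F.ex _ (T.hmem _), Complex.ofReal_one, one_smul, hx_eq,
        (dr_sum F L hR.mem (fun j => 2 * π * θ j) Finset.univ).2]
      have h3 : ∑ j, ((2 * π * θ j : ℝ) : ℂ) • dr σ (Complex.I • Hc j) =
          U * Matrix.diagonal (fun i => ∑ j, ((2 * π * θ j : ℝ) : ℂ) *
            (Complex.I * ((μ i j : ℤ) : ℂ))) * Uᴴ := by
        have h4 : ∀ j, ((2 * π * θ j : ℝ) : ℂ) • dr σ (Complex.I • Hc j) =
            U * Matrix.diagonal (fun i => ((2 * π * θ j : ℝ) : ℂ) *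
              (Complex.I * ((μ i j : ℤ) : ℂ))) * Uᴴ := by
          intro j
          rw [← smul_diag]
          exact congrArg _ (hGU j)
        rw [Finset.sum_congr rfl fun j _ => h4 j, ← Matrix.sum_mul, ← Matrix.mul_sum, STR.diag_sum]
        congr 3
        funext i
        rw [Finset.sum_apply]
      rw [h3, exp_conj hU1]
      congr 3
      funext i
      unfold eu dz
      congr 1
      push_cast
      rw [Finset.mul_sum, Finset.sum_mul]
      refine Finset.sum_congr rfl fun j _ => ?_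
      ring
    · -- the root part
      set t := (A * Aᴴ).trace.re with ht
      have htpos : 0 < t := (T.pos a.1 haΦ).1
      set s := 2 * c * t with hs
      have hspos : 0 < s := by positivity
      have hsq : ((1 / √s : ℝ) : ℂ) * ((1 / √s : ℝ) : ℂ) = 1 / (s : ℂ) := by
        rw [← Complex.ofReal_mul, div_mul_div_comm, Real.mul_self_sqrt hspos.le, one_mul]
        push_cast
        rfl
      have e1 : yr Φ E c (a, true) = ((1 / √s : ℝ) : ℂ) • (A - Aᴴ) := by
        unfold yr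
        simp [hs, ht, hA]
      have e2 : yr Φ E c (a, false) = ((1 / √s : ℝ) : ℂ) • (Complex.I • (A + Aᴴ)) := by
        unfold yr
        simp [hs, ht, hA]
      have hsum : ∑ b : Bool, dr σ (yr Φ E c (a, b)) * dr σ (yr Φ E c (a, b)) =
          (-(2 / s : ℝ) : ℂ) • (e * eᴴ + eᴴ * e) := by
        rw [Fintype.sum_bool, e1, e2, F.smul _ m1, F.smul _ m2, ← hD₁, ← hD₂]
        have e3 : e * eᴴ + eᴴ * e = (-(1 / 2) : ℂ) • (D₁ * D₁ + D₂ * D₂) := by
          rw [heH, he]
          simp only [Matrix.smul_mul, Matrix.mul_smul, Matrix.mul_sub, Matrix.sub_mul,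
            Matrix.mul_neg, Matrix.neg_mul, smul_smul]
          match_scalars <;> ring_nf <;> simp only [Complex.I_sq] <;> ring_nf
        rw [e3]
        simp only [Matrix.smul_mul, Matrix.mul_smul, smul_smul]
        rw [hsq, ← smul_add]
        congr 1
        push_cast
        ring
      rw [hsum, hee, smul_diag]
      congr 3
      funext i
      have hp := hCX.kc.p a.1 haΦ a.1.1
      rw [hR.ird.two a.1 haΦ, hQ.2.2.2.1 a.1.1] at hp
      have hp' : (2 : ℝ) = c * t * (k / 2) * (2 * ((rd Φ).Q a.1.1 : ℝ)) := by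
        have := hp
        push_cast at this
        exact this
      have hQ0 : s * (k * ((rd Φ).Q a.1.1 : ℝ)) = 4 := by
        rw [hs]
        linear_combination (-2) * hp'
      have hsne : s ≠ 0 := hspos.ne'
      have h5 : k * ((rd Φ).Q a.1.1 : ℝ) = 4 / s := by
        field_simp
        linear_combination hQ0
      unfold qa
      have h6 : -(2 / s) * (((x i : ℝ) ^ 2 - 1 - ((a.1.2 ⬝ᵥ μ i : ℤ) : ℝ) ^ 2) / 2) =
          -(k * (((rd Φ).Q a.1.1 : ℝ) / 4 * ((x i : ℝ) ^ 2 - 1 - ((a.1.2 ⬝ᵥ μ i : ℤ) : ℝ) ^ 2))) := by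
        have h7 : k * (((rd Φ).Q a.1.1 : ℝ) / 4 *
            ((x i : ℝ) ^ 2 - 1 - ((a.1.2 ⬝ᵥ μ i : ℤ) : ℝ) ^ 2)) =
            (k * ((rd Φ).Q a.1.1 : ℝ)) / 4 *
              ((x i : ℝ) ^ 2 - 1 - ((a.1.2 ⬝ᵥ μ i : ℤ) : ℝ) ^ 2) := by ring
        rw [h7, h5]
        field_simp
      rw [← h6]
      push_cast
      ring
  · -- Hermitian
    intro j
    simp only [Matrix.conjTranspose_smul, s3 j]
    have h2 : star (-Complex.I) = Complex.I := by
      rw [Complex.star_def, map_neg, Complex.conj_I, neg_neg]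
    rw [h2, smul_neg, neg_smul]
  · intro i j
    simp only [Matrix.smul_mul, Matrix.mul_smul, smul_smul]
    rw [c4 i j]
  · -- integrality
    intro j
    have h1 : (2 * π * Complex.I : ℂ) • ((-Complex.I) • G j) = ((2 * π : ℝ) : ℂ) • G j := by
      rw [smul_smul]
      congr 1
      push_cast
      linear_combination (-(2 * (π : ℂ))) * hI
    have h2 := F.ex _ (hR.mem j) (2 * π)
    have h3 : (Complex.I • Hc j) = hx Hc (Pi.single j 1) := by
      rw [hx_eq, Finset.sum_eq_single j]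
      · simp
      · intro i _ hij
        rw [Pi.single_eq_of_ne hij]
        simp
      · intro h
        exact absurd (Finset.mem_univ j) h
    have h4 : exH H (Complex.I • Hc j) (2 * π) = 1 := by
      apply Subtype.ext
      rw [h3, exH_ta T.hmem]
      have h5 := T.int (Pi.single j 1)
      have h6 : (fun i => 2 * π * (Pi.single j 1 : Fin r → ℝ) i / (2 * π)) =
          fun i => (((Pi.single j 1 : Fin r → ℤ) i : ℤ) : ℝ) := by
        funext i
        have h7 : (π : ℝ) ≠ 0 := Real.pi_ne_zero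
        by_cases hij : i = j
        · subst hij
          simp
        · rw [Pi.single_eq_of_ne hij, Pi.single_eq_of_ne hij]
          simp
      rw [h6, h5]
      rfl
    rw [h4, map_one] at h2
    rw [h1]
    exact h2.symm
  · -- e is an eigenvector
    intro j
    have h1 : (-Complex.I • G j) * e - e * (-Complex.I • G j) =
        (-Complex.I * (1 / 2)) • ((G j * D₁ - D₁ * G j) - Complex.I • (G j * D₂ - D₂ * G j)) := by
      rw [he]
      simp only [Matrix.smul_mul, Matrix.mul_smul, Matrix.mul_sub, Matrix.sub_mul, smul_smul]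
      module
    change (-Complex.I • G j) * e - e * (-Complex.I • G j) = _
    rw [h1, c1 j, c2 j, he]
    have h2 : (-Complex.I * (1 / 2)) • ((a.1.1 j : ℂ) • D₂ - Complex.I • (-((a.1.1 j : ℂ) • D₁))) =
        ((1 / 2) * (a.1.1 j : ℂ) * (-(Complex.I * Complex.I))) • D₁ -
          ((1 / 2) * (a.1.1 j : ℂ) * Complex.I) • D₂ := by
      module
    rw [h2, hI]
    module
  · -- the commutator
    have h1 : e * eᴴ - eᴴ * e = (-(Complex.I / 2)) • (D₁ * D₂ - D₂ * D₁) := by
      rw [heH, he]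
      simp only [Matrix.smul_mul, Matrix.mul_smul, Matrix.mul_sub, Matrix.sub_mul,
        Matrix.mul_neg, Matrix.neg_mul, smul_smul]
      module
    rw [h1, c3, Finset.smul_sum]
    refine Finset.sum_congr rfl fun j _ => ?_
    rw [smul_smul, smul_smul]
    congr 1
    ring

end

end STZ3
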