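import Pool.Agent.STZ3.StD3

/-!
# The groups `SU(3)`, `PSU(3)`: module STS, the sum over one string (helper79)
-/

namespace STZ3

open STZ LGR MeasureTheory Matrix Filter

open scoped ComplexConjugate Matrix Real Topology

noncomputable section

namespace STS

/-! ### one factor -/

theorem sqle {C ψ M u : ℝ} {m : ℕ} (hm : 1 ≤ m) (hM : 0 < M) (hb : |ψ| ≤ C)
    (hl : |ψ| * M ^ (2 * m) ≤ C * |u| ^ (2 * m)) : ψ ^ 2 * M ^ 2 ≤ C ^ 2 * u ^ 2 := by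
  have hC : 0 ≤ C := le_trans (abs_nonneg _) hb
  have key : |ψ| * M ≤ C * |u| := by
    by_cases hu : M ≤ |u|
    · exact mul_le_mul hb hu hM.le hC
    · push Not at hu
      have h1 : 0 ≤ |u| / M := by positivity
      have h2 : |u| / M ≤ 1 := (div_le_one hM).2 hu.le
      have h3 : |ψ| ≤ C * (|u| / M) ^ (2 * m) := by
        rw [div_pow, ← mul_div_assoc, le_div_iff₀ (by positivity)]
        exact hl
      have h4 : (|u| / M) ^ (2 * m) ≤ |u| / M := pow_le_of_le_one h1 h2 (by omega)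
      have h5 : |ψ| ≤ C * (|u| / M) := h3.trans (mul_le_mul_of_nonneg_left h4 hC)
      rw [← mul_div_assoc, le_div_iff₀ hM] at h5
      exact h5
  have h6 : (|ψ| * M) ^ 2 ≤ (C * |u|) ^ 2 := pow_le_pow_left₀ (by positivity) key 2
  rw [mul_pow, mul_pow, sq_abs, sq_abs] at h6
  exact h6

theorem sqC {C ψ : ℝ} (hb : |ψ| ≤ C) : ψ ^ 2 ≤ C ^ 2 := by
  rw [← sq_abs]
  exact pow_le_pow_left₀ (abs_nonneg _) hb 2

theorem fac {C ψ M u ϑ : ℝ} {m : ℕ} (hm : 1 ≤ m) (hM : 0 < M) (hϑ : 0 ≤ ϑ) (hb : |ψ| ≤ C)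
    (hl : |ψ| * M ^ (2 * m) ≤ C * |u| ^ (2 * m)) : ψ ^ 2 * (1 + ϑ * M ^ 2) ≤ C ^ 2 * (1 + ϑ * u ^ 2) := by
  have h1 := sqC hb
  have h2 := mul_le_mul_of_nonneg_left (sqle hm hM hb hl) hϑ
  linarith

/-- a factor is small -/
theorem small {C ψ M u ε X : ℝ} {m : ℕ} (hM : 0 < M) (hX : 1 ≤ X) (hC : 0 ≤ C) (hmε : 5 ≤ 2 * ε * m)
    (hl : |ψ| * M ^ (2 * m) ≤ C * |u| ^ (2 * m)) (hu : |u| < X ^ (-ε) * M) : ψ ^ 2 ≤ C ^ 2 * (X ^ 3)⁻¹ := by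
  have hX0 : 0 < X := by linarith
  have h1 : |u| ^ (2 * m) ≤ (X ^ (-ε) * M) ^ (2 * m) := pow_le_pow_left₀ (abs_nonneg _) hu.le _
  have h2 : |ψ| * M ^ (2 * m) ≤ C * (X ^ (-ε)) ^ (2 * m) * M ^ (2 * m) := by
    calc |ψ| * M ^ (2 * m) ≤ C * |u| ^ (2 * m) := hl
      _ ≤ C * (X ^ (-ε) * M) ^ (2 * m) := mul_le_mul_of_nonneg_left h1 hC
      _ = _ := by rw [mul_pow]; ring
  have h3 : |ψ| ≤ C * (X ^ (-ε)) ^ (2 * m) := le_of_mul_le_mul_right h2 (by positivity)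
  have h4 : (X ^ (-ε)) ^ (2 * m) ≤ (X ^ 3)⁻¹ := by
    rw [← Real.rpow_mul_natCast hX0.le, ← Real.rpow_natCast X 3, ← Real.rpow_neg hX0.le]
    apply Real.rpow_le_rpow_of_exponent_le hX
    push_cast
    nlinarith
  have h5 : |ψ| ≤ C * (X ^ 3)⁻¹ := h3.trans (mul_le_mul_of_nonneg_left h4 hC)
  have h6 := sqC h5
  have h7 : (X ^ 3)⁻¹ ≤ 1 := inv_le_one_of_one_le₀ (one_le_pow₀ hX)
  have h8 : 0 ≤ (X ^ 3)⁻¹ := by positivity
  calc ψ ^ 2 ≤ (C * (X ^ 3)⁻¹) ^ 2 := h6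
    _ = C ^ 2 * (X ^ 3)⁻¹ * (X ^ 3)⁻¹ := by ring
    _ ≤ C ^ 2 * (X ^ 3)⁻¹ * 1 := mul_le_mul_of_nonneg_left h7 (by positivity)
    _ = _ := mul_one _

/-! ### the position in the string -/

theorem kk {n i k : ℝ} (hi : 0 ≤ i) (hn : i ≤ n) (hk : k = min i (n - i)) :
    0 ≤ k ∧ 2 * k ≤ n ∧ 2 * k * (n + 1) ≤ (n + 1) ^ 2 - 1 - (n - 2 * i) ^ 2 := by
  rcases le_total i (n - i) with h | h
  · rw [min_eq_left h] at hk
    subst hk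
    refine ⟨hi, by linarith, ?_⟩
    nlinarith
  · rw [min_eq_right h] at hk
    subst hk
    refine ⟨by linarith, by linarith, ?_⟩
    nlinarith

theorem core {X ε δ n i k : ℝ} (hX : 1 ≤ X) (hε : 0 < ε) (hL : Real.log X ≤ X ^ (4 * ε)) (hδ : X ^ (12 * ε - 1) ≤ δ)
    (hi : 0 ≤ i) (hn : i ≤ n) (hk : k = min i (n - i))
    (hw : δ / X * ((n + 1) ^ 2 - 1 - (n - 2 * i) ^ 2) < Real.log X) :
    (∀ P : ℝ, X ^ (1 - 3 * ε) ≤ |n - 2 * i| → X ^ (7 * ε) / δ ≤ P → 2 * k ≤ P) ∧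
      ∀ P : ℝ, X ^ (1 - 3 * ε) ≤ P → 2 * k ≤ P := by
  have hX0 : 0 < X := by linarith
  have hδ0 : 0 < δ := lt_of_lt_of_le (by positivity) hδ
  obtain ⟨h0, h1, h2⟩ := kk hi hn hk
  have h3 : 2 * k * (n + 1) * δ ≤ X * Real.log X := by
    have h4 : δ / X * (2 * k * (n + 1)) ≤ Real.log X :=
      (mul_le_mul_of_nonneg_left h2 (by positivity)).trans hw.le
    rw [div_mul_eq_mul_div, div_le_iff₀ hX0] at h4
    linarith
  have h5 : X * Real.log X ≤ X * X ^ (4 * ε) := mul_le_mul_of_nonneg_left hL hX0.le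
  constructor
  · intro P hu hP
    refine le_trans ?_ hP
    rw [le_div_iff₀ hδ0]
    have h6 : X ^ (1 - 3 * ε) ≤ n + 1 := by
      refine hu.trans ?_
      rw [abs_le]
      constructor <;> linarith
    have h7 : 2 * k * δ * X ^ (1 - 3 * ε) ≤ X ^ (7 * ε) * X ^ (1 - 3 * ε) := by
      calc 2 * k * δ * X ^ (1 - 3 * ε) ≤ 2 * k * δ * (n + 1) := mul_le_mul_of_nonneg_left h6 (by positivity)
        _ = 2 * k * (n + 1) * δ := by ring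
        _ ≤ X * X ^ (4 * ε) := h3.trans h5
        _ = X ^ (7 * ε) * X ^ (1 - 3 * ε) := by
          rw [← Real.rpow_add hX0, ← Real.rpow_one_add' hX0.le (by linarith)]
          congr 1
          ring
    exact le_of_mul_le_mul_right h7 (by positivity)
  · intro P hP
    refine le_trans ?_ hP
    have h6 : (2 * k) ^ 2 * X ^ (12 * ε - 1) ≤ X ^ (2 - 8 * ε) * X ^ (12 * ε - 1) := by
      calc (2 * k) ^ 2 * X ^ (12 * ε - 1) ≤ (2 * k) ^ 2 * δ := mul_le_mul_of_nonneg_left hδ (by positivity)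
        _ ≤ 2 * k * (n + 1) * δ := by
          refine mul_le_mul_of_nonneg_right ?_ hδ0.le
          nlinarith
        _ ≤ X * X ^ (4 * ε) := h3.trans h5
        _ = X ^ (2 - 8 * ε) * X ^ (12 * ε - 1) := by
          rw [← Real.rpow_add hX0, ← Real.rpow_one_add' hX0.le (by linarith)]
          congr 1
          ring
    have h7 : (2 * k) ^ 2 ≤ X ^ (2 - 8 * ε) := le_of_mul_le_mul_right h6 (by positivity)
    have h8 : X ^ (2 - 8 * ε) ≤ (X ^ (1 - 3 * ε)) ^ 2 := by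
      rw [← Real.rpow_mul_natCast hX0.le]
      apply Real.rpow_le_rpow_of_exponent_le hX
      push_cast
      nlinarith
    exact (sq_le_sq₀ (by positivity) (by positivity)).1 (h7.trans h8)

/-- for large `J` the logarithm is small -/
theorem exJ {ε : ℝ} (hε : 0 < ε) : ∃ J₀ : ℕ, ∀ J : ℕ, J₀ ≤ J →
    Real.log ((2 : ℝ) ^ J) ≤ ((2 : ℝ) ^ J) ^ (4 * ε) := by
  have h1 : (fun x : ℝ => Real.log x) =o[atTop] fun x : ℝ => x ^ (4 * ε) :=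
    isLittleO_log_rpow_atTop (by positivity)
  have h2 := (h1.bound one_pos)
  have h3 : Tendsto (fun J : ℕ => (2 : ℝ) ^ J) atTop atTop := tendsto_pow_atTop_atTop_of_one_lt one_lt_two
  have h4 := h3.eventually h2
  obtain ⟨J₀, hJ⟩ := eventually_atTop.1 h4
  refine ⟨J₀, fun J h => ?_⟩
  have h5 := hJ J h
  rw [one_mul, Real.norm_eq_abs, Real.norm_eq_abs, abs_of_pos (show (0 : ℝ) < ((2 : ℝ) ^ J) ^ (4 * ε) by positivity)] at h5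
  exact (le_abs_self _).trans h5

/-! ### the root system -/

variable {Φ : RT 2} {B : Matrix (Fin 2) (Fin 2) ℤ}

theorem three (hA : A2F Φ) (a : {p // p ∈ pos Φ}) : ∃ p q : {p // p ∈ pos Φ}, p ≠ a ∧ q ≠ a ∧ p ≠ q ∧
    (Finset.univ : Finset {p // p ∈ pos Φ}).erase a = {p, q} := by
  have hcard : (Finset.univ.erase a).card = 2 := by
    rw [Finset.card_erase_of_mem (Finset.mem_univ a), Finset.card_univ, Fintype.card_coe, hA.card]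
  obtain ⟨p, q, hpq, hpe⟩ := Finset.card_eq_two.1 hcard
  have hpa : p ≠ a := by
    have : p ∈ Finset.univ.erase a := by rw [hpe]; simp
    exact (Finset.mem_erase.1 this).1
  have hqa : q ≠ a := by
    have : q ∈ Finset.univ.erase a := by rw [hpe]; simp
    exact (Finset.mem_erase.1 this).1
  exact ⟨p, q, hpa, hqa, hpq, hpe⟩

theorem prod3 {a p q : {p // p ∈ pos Φ}} (hpq : p ≠ q)
    (he : (Finset.univ : Finset {p // p ∈ pos Φ}).erase a = {p, q}) (f : {p // p ∈ pos Φ} → ℝ) :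
    ∏ s, f s = f a * (f p * f q) := by
  rw [← Finset.mul_prod_erase Finset.univ _ (Finset.mem_univ a), he, Finset.prod_pair hpq]

theorem erase_val {a p q : {p // p ∈ pos Φ}} (he : (Finset.univ : Finset {p // p ∈ pos Φ}).erase a = {p, q}) :
    (pos Φ).erase a.1 = {p.1, q.1} := by
  ext s
  constructor
  · intro h
    obtain ⟨h1, h2⟩ := Finset.mem_erase.1 h
    have h3 : (⟨s, h2⟩ : {p // p ∈ pos Φ}) ∈ (Finset.univ : Finset {p // p ∈ pos Φ}).erase a :=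
      Finset.mem_erase.2 ⟨fun h4 => h1 (congrArg Subtype.val h4), Finset.mem_univ _⟩
    rw [he, Finset.mem_insert, Finset.mem_singleton] at h3
    rw [Finset.mem_insert, Finset.mem_singleton]
    rcases h3 with h3 | h3
    · left; exact congrArg Subtype.val h3
    · right; exact congrArg Subtype.val h3
  · intro h
    have hp : p ∈ (Finset.univ : Finset {p // p ∈ pos Φ}).erase a := by rw [he]; simp
    have hq : q ∈ (Finset.univ : Finset {p // p ∈ pos Φ}).erase a := by rw [he]; simp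
    rw [Finset.mem_insert, Finset.mem_singleton] at h
    rcases h with rfl | rfl
    · exact Finset.mem_erase.2 ⟨fun h => (Finset.mem_erase.1 hp).1 (Subtype.ext h), p.2⟩
    · exact Finset.mem_erase.2 ⟨fun h => (Finset.mem_erase.1 hq).1 (Subtype.ext h), q.2⟩

theorem Qa (hI : IRD Φ B) (hW : WFF Φ B) (hA : A2F Φ) (a : {p // p ∈ pos Φ}) : (rd Φ).Q a.1.1 = 6 := by
  obtain ⟨p, q, hp, hq, hpq, he⟩ := three hA a
  have h1 : (rd Φ).Q a.1.1 = ∑ s ∈ pos Φ, (s.2 ⬝ᵥ a.1.1) ^ 2 := rfl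
  have hpq' : p.1 ≠ q.1 := fun h => hpq (Subtype.ext h)
  have ha2 : a.1.2 ⬝ᵥ a.1.1 = 2 := hI.two a.1 (hW.ppos a.1 a.2).1
  have hpa : (p.1.2 ⬝ᵥ a.1.1) ^ 2 = 1 := by
    rw [← sq_abs, hA.one p.1 p.2 a.1 a.2 fun h => hp (Subtype.ext h)]
    norm_num
  have hqa : (q.1.2 ⬝ᵥ a.1.1) ^ 2 = 1 := by
    rw [← sq_abs, hA.one q.1 q.2 a.1 a.2 fun h => hq (Subtype.ext h)]
    norm_num
  rw [h1, ← Finset.add_sum_erase _ _ a.2, erase_val he, Finset.sum_pair hpq', ha2, hpa, hqa]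
  norm_num

/-- the exponent -/
theorem expo (hq : S_QUAD) (hI : IRD Φ B) (hW : WFF Φ B) (hA : A2F Φ) (a : {p // p ∈ pos Φ}) (τ : Fin 2 → ℤ) (i : ℤ) :
    CL Φ a.1 τ - (rd Φ).Q (τ - i • a.1.1) =
      3 / 2 * ((((a.1.2 ⬝ᵥ τ : ℤ) : ℝ) + 1) ^ 2 - 1 - (((a.1.2 ⬝ᵥ τ : ℤ) : ℝ) - 2 * i) ^ 2) := by
  obtain ⟨q1, q2, q3, q4, q5, q6, q7⟩ := hq 2 Φ B hI hW
  have ha : a.1 ∈ Φ := (hW.ppos a.1 a.2).1
  have h2 := (q7 a.1 ha).2
  have h1 : ∀ m, a.1.1 ⬝ᵥ ((rd Φ).A *ᵥ m) = (a.1.2 ⬝ᵥ m) * 6 := by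
    intro m
    have h3 := h2 m
    rw [q4 a.1.1, Qa hI hW hA a] at h3
    linarith
  have h3 : τ - i • a.1.1 = (-i) • a.1.1 + τ := by
    rw [neg_smul]; abel
  have h4 : (rd Φ).Q ((-i) • a.1.1) = i ^ 2 * 6 := by
    have h5 := q4 ((-i) • a.1.1)
    rw [mulVec_smul, dotProduct_smul, smul_dotProduct, q4 a.1.1, Qa hI hW hA a] at h5
    simp only [smul_eq_mul] at h5
    linarith
  have h5 : (rd Φ).Q (τ - i • a.1.1) = i ^ 2 * 6 + (rd Φ).Q τ + -i * ((a.1.2 ⬝ᵥ τ) * 6) := by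
    rw [h3, q2.polar, h4, smul_dotProduct, h1 τ, smul_eq_mul]
  have h6 : CL Φ a.1 τ = ((rd Φ).Q τ : ℝ) + (((a.1.2 ⬝ᵥ τ) * 6 : ℤ) : ℝ) / 2 := by
    unfold CL ip
    rw [h1 τ]
  rw [h6, h5]
  push_cast
  ring

/-- from the weight of the string to its highest element -/
theorem low (hA : A2F Φ) {a p q : {p // p ∈ pos Φ}} (hp : p ≠ a) (hq : q ≠ a) (hpq : p ≠ q)
    (h2 : a.1.2 ⬝ᵥ a.1.1 = 2) (τ : Fin 2 → ℤ) (i : ℤ) {k : ℝ} (hi : 0 ≤ i) (hn : i ≤ a.1.2 ⬝ᵥ τ)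
    (hk : k = min (i : ℝ) (((a.1.2 ⬝ᵥ τ : ℤ) : ℝ) - i)) :
    (|((p.1.2 ⬝ᵥ (τ - i • a.1.1) : ℤ) : ℝ)| ≤ |((p.1.2 ⬝ᵥ τ : ℤ) : ℝ)| + k ∧
      |((q.1.2 ⬝ᵥ (τ - i • a.1.1) : ℤ) : ℝ)| ≤ |((q.1.2 ⬝ᵥ τ : ℤ) : ℝ)| + k) ∨
    (|((p.1.2 ⬝ᵥ (τ - i • a.1.1) : ℤ) : ℝ)| ≤ |((q.1.2 ⬝ᵥ τ : ℤ) : ℝ)| + k ∧
      |((q.1.2 ⬝ᵥ (τ - i • a.1.1) : ℤ) : ℝ)| ≤ |((p.1.2 ⬝ᵥ τ : ℤ) : ℝ)| + k) := by
  have hne : ∀ {s t : {p // p ∈ pos Φ}}, s ≠ t → s.1 ≠ t.1 := fun h e => h (Subtype.ext e)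
  have key : ∀ s : {p // p ∈ pos Φ}, s ≠ a → ∀ j : ℤ, 0 ≤ j →
      |((s.1.2 ⬝ᵥ (τ - j • a.1.1) : ℤ) : ℝ)| ≤ |((s.1.2 ⬝ᵥ τ : ℤ) : ℝ)| + j := by
    intro s hs j hj
    have h1 := hA.one s.1 s.2 a.1 a.2 (hne hs)
    rw [dotProduct_sub, dotProduct_smul, smul_eq_mul]
    have h3 : |s.1.2 ⬝ᵥ τ - j * (s.1.2 ⬝ᵥ a.1.1)| ≤ |s.1.2 ⬝ᵥ τ| + j := by
      calc |s.1.2 ⬝ᵥ τ - j * (s.1.2 ⬝ᵥ a.1.1)| ≤ |s.1.2 ⬝ᵥ τ| + |j * (s.1.2 ⬝ᵥ a.1.1)| := abs_sub _ _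
        _ = _ := by rw [abs_mul, h1, mul_one, abs_of_nonneg hj]
    exact_mod_cast h3
  rcases le_total (i : ℝ) (((a.1.2 ⬝ᵥ τ : ℤ) : ℝ) - i) with h | h
  · rw [min_eq_left h] at hk
    subst hk
    exact Or.inl ⟨key p hp i hi, key q hq i hi⟩
  · rw [min_eq_right h] at hk
    subst hk
    right
    have h3 : τ - i • a.1.1 = (τ - (a.1.2 ⬝ᵥ τ - i) • a.1.1) -
        (a.1.2 ⬝ᵥ (τ - (a.1.2 ⬝ᵥ τ - i) • a.1.1)) • a.1.1 := by
      rw [dotProduct_sub a.1.2 τ, dotProduct_smul, h2, smul_eq_mul, sub_sub, ← add_smul]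
      congr 2
      ring
    have h4 : |p.1.2 ⬝ᵥ (τ - i • a.1.1)| = |q.1.2 ⬝ᵥ (τ - (a.1.2 ⬝ᵥ τ - i) • a.1.1)| := by
      rw [h3]
      exact hA.swap a.1 a.2 p.1 p.2 q.1 q.2 (hne hp.symm) (hne hq.symm) (hne hpq) _
    have h5 : |q.1.2 ⬝ᵥ (τ - i • a.1.1)| = |p.1.2 ⬝ᵥ (τ - (a.1.2 ⬝ᵥ τ - i) • a.1.1)| := by
      rw [h3]
      exact hA.swap a.1 a.2 q.1 q.2 p.1 p.2 (hne hq.symm) (hne hp.symm) (hne hpq.symm) _
    have h6 := key q hq (a.1.2 ⬝ᵥ τ - i) (by linarith)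
    have h7 := key p hp (a.1.2 ⬝ᵥ τ - i) (by linarith)
    constructor
    · rw [← Int.cast_abs, h4, Int.cast_abs]
      push_cast at h6 ⊢
      exact h6
    · rw [← Int.cast_abs, h5, Int.cast_abs]
      push_cast at h7 ⊢
      exact h7

/-- the factor of a root different from `a` -/
theorem facp {C ψ M P P' ϑ k : ℝ} {m j : ℕ} (hm : 1 ≤ m) (hM : 0 < M) (hϑ : 0 ≤ ϑ) (hb : |ψ| ≤ C)
    (hl : 0 < j → |ψ| * M ^ (2 * m) ≤ C * |P| ^ (2 * m)) (hk : 0 < j → 2 * k ≤ |P|) (hP : |P| ≤ |P'| + k) :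
    ψ ^ 2 * (if j = 0 then 1 else 1 + ϑ * M ^ 2) ≤ 4 * C ^ 2 * (1 + ϑ * P' ^ 2) := by
  have hC2 : 0 ≤ C ^ 2 := sq_nonneg C
  have hϑP : 0 ≤ ϑ * P' ^ 2 := by positivity
  split_ifs with h
  · have h1 := sqC hb
    nlinarith
  · have h0 : 0 < j := Nat.pos_of_ne_zero h
    have h1 := fac hm hM hϑ hb (hl h0)
    have h2 := hk h0
    have h3 : |P| ≤ 2 * |P'| := by linarith
    have h4 : |P| ^ 2 ≤ (2 * |P'|) ^ 2 := pow_le_pow_left₀ (abs_nonneg _) h3 2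
    rw [mul_pow, sq_abs, sq_abs] at h4
    have h5 : 1 + ϑ * P ^ 2 ≤ 4 * (1 + ϑ * P' ^ 2) := by nlinarith
    calc ψ ^ 2 * (1 + ϑ * M ^ 2) ≤ C ^ 2 * (1 + ϑ * P ^ 2) := h1
      _ ≤ C ^ 2 * (4 * (1 + ϑ * P' ^ 2)) := mul_le_mul_of_nonneg_left h5 hC2
      _ = _ := by ring

/-- the factor of `a` -/
theorem faca {C ψ M₀ u t : ℝ} {m j jm : ℕ} (hm : 1 ≤ m) (hM : 0 < M₀) (ht : 0 ≤ t) (ht1 : t * M₀ ^ 2 = 1)
    (hb : |ψ| ≤ C) (hl : 0 < j → |ψ| * fs M₀ jm j ^ (2 * m) ≤ C * |u| ^ (2 * m)) :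
    ψ ^ 2 * (1 + t * fs M₀ jm j ^ 2) ≤ 2 * C ^ 2 * (1 + t * u ^ 2) := by
  have hC2 : 0 ≤ C ^ 2 := sq_nonneg C
  have htu : 0 ≤ t * u ^ 2 := by positivity
  rcases Nat.eq_zero_or_pos j with h | h
  · subst h
    have e : fs M₀ jm 0 = M₀ := by unfold fs; simp
    rw [e, ht1]
    have h1 := sqC hb
    nlinarith
  · have hf : 0 < fs M₀ jm j := by unfold fs; positivity
    have h1 := fac hm hf ht hb (hl h)
    nlinarith [mul_nonneg hC2 htu]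

theorem xp (J : ℕ) (y : ℝ) : (2 : ℝ) ^ (y * J) = ((2 : ℝ) ^ J) ^ y := by
  rw [← Real.rpow_natCast 2 J, ← Real.rpow_mul zero_le_two, mul_comm]

theorem fs_pos {M₀ : ℝ} (h : 0 < M₀) (jm j : ℕ) : 0 < fs M₀ jm j := by
  unfold fs; positivity

theorem fs_ge {M₀ : ℝ} (h : 0 < M₀) (jm j : ℕ) : M₀ ≤ fs M₀ jm j := by
  unfold fs
  have : (1 : ℝ) ≤ 2 ^ (min j jm) := one_le_pow₀ one_le_two
  nlinarith

theorem fs_le {M₀ : ℝ} (h : 0 < M₀) (jm j : ℕ) : fs M₀ jm j ≤ 2 ^ jm * M₀ := by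
  unfold fs
  exact mul_le_mul_of_nonneg_right (pow_le_pow_right₀ one_le_two (min_le_right _ _)) h.le

/-- the third root -/
theorem third {a p q s p₁ p₂ : {p // p ∈ pos Φ}} (he : (Finset.univ : Finset {p // p ∈ pos Φ}).erase a = {p, q})
    (hs : s ≠ a) (h₁ : p₁ ≠ a) (h₂ : p₂ ≠ a) (h : p₁ ≠ p₂) : s = p₁ ∨ s = p₂ := by
  have key : ∀ t, t ≠ a → t = p ∨ t = q := by
    intro t ht
    have : t ∈ (Finset.univ : Finset {p // p ∈ pos Φ}).erase a := Finset.mem_erase.2 ⟨ht, Finset.mem_univ t⟩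
    rw [he] at this
    simpa using this
  rcases key s hs with h3 | h3 <;> rcases key p₁ h₁ with h4 | h4 <;> rcases key p₂ h₂ with h5 | h5
  · exact absurd (h4.trans h5.symm) h
  · exact Or.inl (h3.trans h4.symm)
  · exact Or.inr (h3.trans h5.symm)
  · exact absurd (h4.trans h5.symm) h
  · exact absurd (h4.trans h5.symm) h
  · exact Or.inr (h3.trans h5.symm)
  · exact Or.inl (h3.trans h4.symm)
  · exact absurd (h4.trans h5.symm) h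

/-- the bounds of the forms on the third class -/
theorem claim (G : RGX Φ) (PP : PRF Φ) (hA : A2F Φ) {m : ℕ} {C₂ ε : ℝ} (hε : 0 < ε)
    {J : ℕ} {a : {p // p ∈ pos Φ}} {x : {p // p ∈ pos Φ} → Fin (J + 1)} {R : ℝ}
    {M₀ : {p // p ∈ pos Φ} → ℝ} {jm : {p // p ∈ pos Φ} → ℕ} {L : ℕ} {ψ : {p // p ∈ pos Φ} → Fin (L + 2) → ℤ → ℝ}
    {ν₁ ν₂ : ({p // p ∈ pos Φ} → Fin (L + 2)) → Measure (Fin 2 → ℝ)} {jj : {p // p ∈ pos Φ} → Fin (L + 2)}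
    (hJ : 1 ≤ J) (hR : RG ε a x) (hF : FPC ε a x m C₂ R M₀ jm L ψ ν₁ ν₂) (hL : LGp (1 - 2 * ε) J M₀ jm jj)
    (hlog : Real.log ((2 : ℝ) ^ J) ≤ ((2 : ℝ) ^ J) ^ (4 * ε)) {U : {p // p ∈ pos Φ} → ℝ} {n i k : ℝ} (hi : 0 ≤ i)
    (hn : i ≤ n) (hk : k = min i (n - i)) (hUa : U a = n - 2 * i)
    (hU : ∀ s, 0 < (jj s).val → ((2 : ℝ) ^ J) ^ (-ε) * fs (M₀ s) (jm s) (jj s).val ≤ |U s|)
    (hw : tc a x * ((n + 1) ^ 2 - 1 - (n - 2 * i) ^ 2) < Real.log ((2 : ℝ) ^ J)) :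
    ∀ s, s ≠ a → 0 < (jj s).val → 2 * k ≤ |U s| := by
  intro s hs hjs
  have hX1 : (1 : ℝ) < 2 ^ J := one_lt_pow₀ one_lt_two (by omega)
  have hX0 : (0 : ℝ) < 2 ^ J := by positivity
  have hδ := PP.dpos J x a
  have htc := (G.tp J a x).1
  have hM0 : ∀ p, 0 < M₀ p := by
    intro p
    by_cases hp : p = a
    · rw [hp, hF.ma]
      exact one_div_pos.2 (Real.sqrt_pos.2 htc)
    · rw [hF.mp p hp]
      refine mul_pos (by positivity) (lt_max_of_lt_right (by positivity))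
  have hda := G.da J ε a x hR
  rw [xp] at hda
  obtain ⟨c1, c2⟩ := core hX1.le hε hlog hda hi hn hk hw
  have hmul : ((2 : ℝ) ^ J) ^ (-ε) * ((2 : ℝ) ^ J) ^ (1 - 2 * ε) = ((2 : ℝ) ^ J) ^ (1 - 3 * ε) := by
    rw [← Real.rpow_add hX0]
    congr 1
    ring
  have hbig : ∀ t : {p // p ∈ pos Φ}, 0 < (jj t).val → (2 : ℝ) ^ ((1 - 2 * ε) * J) ≤ fs (M₀ t) (jm t) (jj t).val →
      ((2 : ℝ) ^ J) ^ (1 - 3 * ε) ≤ |U t| := by
    intro t ht h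
    rw [xp] at h
    rw [← hmul]
    exact (mul_le_mul_of_nonneg_left h (by positivity)).trans (hU t ht)
  -- if `a` is large
  have hca : (2 : ℝ) ^ ((1 - 2 * ε) * J) ≤ fs (M₀ a) (jm a) (jj a).val → 2 * k ≤ |U s| := by
    intro h
    have hja : 0 < (jj a).val := by
      by_contra h0
      have h1 : (jj a).val = 0 := by omega
      rw [h1] at h
      have e : fs (M₀ a) (jm a) 0 = M₀ a := by unfold fs; simp
      rw [e, hF.ma, xp] at h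
      have h2 : 1 / √(tc a x) ≤ ((2 : ℝ) ^ J) ^ (1 - 6 * ε) := by
        rw [div_le_iff₀ (Real.sqrt_pos.2 htc)]
        have h3 : ((2 : ℝ) ^ J) ^ (6 * ε - 1) ≤ √(tc a x) := by
          refine Real.le_sqrt_of_sq_le ?_
          unfold tc
          rw [le_div_iff₀ hX0]
          refine le_trans (le_of_eq ?_) hda
          rw [← Real.rpow_mul_natCast hX0.le, ← Real.rpow_add_one hX0.ne']
          congr 1
          push_cast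
          ring
        calc (1 : ℝ) = ((2 : ℝ) ^ J) ^ (1 - 6 * ε) * ((2 : ℝ) ^ J) ^ (6 * ε - 1) := by
              rw [← Real.rpow_add hX0]
              have : 1 - 6 * ε + (6 * ε - 1) = 0 := by ring
              rw [this, Real.rpow_zero]
          _ ≤ _ := mul_le_mul_of_nonneg_left h3 (by positivity)
      have h4 := h.trans h2
      rw [Real.rpow_le_rpow_left_iff hX1] at h4
      linarith
    have h1 : ((2 : ℝ) ^ J) ^ (1 - 3 * ε) ≤ |n - 2 * i| := by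
      rw [← hUa]
      exact hbig a hja h
    refine c1 _ h1 ?_
    have h2 : ((2 : ℝ) ^ J) ^ (8 * ε) * (1 / dl x a) ≤ fs (M₀ s) (jm s) (jj s).val := by
      refine le_trans ?_ (fs_ge (hM0 s) _ _)
      rw [hF.mp s hs, xp]
      exact mul_le_mul_of_nonneg_left (le_max_right _ _) (by positivity)
    refine le_trans (le_of_eq ?_) ((mul_le_mul_of_nonneg_left h2
      (show (0 : ℝ) ≤ ((2 : ℝ) ^ J) ^ (-ε) by positivity)).trans (hU s hjs))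
    rw [← mul_assoc, ← Real.rpow_add hX0]
    have : -ε + 8 * ε = 7 * ε := by ring
    rw [this]
    ring
  obtain ⟨p₁, p₂, hne, hl₁, hl₂⟩ := hL
  obtain ⟨p, q, hp, hq, hpq, he⟩ := three hA a
  by_cases h1 : p₁ = a
  · rw [h1] at hl₁
    exact hca hl₁
  · by_cases h2 : p₂ = a
    · rw [h2] at hl₂
      exact hca hl₂
    · rcases third he hs h1 h2 hne with h3 | h3
      · exact c2 _ (hbig s hjs (by rw [h3]; exact hl₁))
      · exact c2 _ (hbig s hjs (by rw [h3]; exact hl₂))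

/-- one term -/
theorem pt (hq : S_QUAD) (hI : IRD Φ B) (hW : WFF Φ B) (hA : A2F Φ) (PP : PRF Φ) (G : RGX Φ) {m : ℕ} {C₂ ε : ℝ}
    (hm : 1 ≤ m) (hC : 0 ≤ C₂) (hε : 0 < ε) (hmε : 5 ≤ 2 * ε * m)
    {J : ℕ} {a : {p // p ∈ pos Φ}} {x : {p // p ∈ pos Φ} → Fin (J + 1)} {R : ℝ}
    {M₀ : {p // p ∈ pos Φ} → ℝ} {jm : {p // p ∈ pos Φ} → ℕ} {L : ℕ} {ψ : {p // p ∈ pos Φ} → Fin (L + 2) → ℤ → ℝ}
    {ν₁ ν₂ : ({p // p ∈ pos Φ} → Fin (L + 2)) → Measure (Fin 2 → ℝ)} {jj : {p // p ∈ pos Φ} → Fin (L + 2)}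
    {τ : Fin 2 → ℤ} (hJ : 1 ≤ J) (hR : RG ε a x) (hF : FPC ε a x m C₂ R M₀ jm L ψ ν₁ ν₂)
    (hL : LGp (1 - 2 * ε) J M₀ jm jj) (hlog : Real.log ((2 : ℝ) ^ J) ≤ ((2 : ℝ) ^ J) ^ (4 * ε)) (n : ℕ)
    (hn : a.1.2 ⬝ᵥ τ = n) (i : ℕ) (hi : i ≤ n) :
    Real.exp (-(2 * tc a x * (CL Φ a.1 τ - (rd Φ).Q (τ - (i : ℤ) • a.1.1)))) *
        pj' ψ jj (τ - (i : ℤ) • a.1.1) ^ 2 ≤
      C₂ ^ 6 * (((2 : ℝ) ^ J) ^ 3)⁻¹ +
        32 * C₂ ^ 6 * (bbc a x M₀ jm jj * ∏ p ∈ (pos Φ).erase a.1, (1 + th x * ((p.2 ⬝ᵥ τ : ℤ) : ℝ) ^ 2)) *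
          (Real.exp (-(3 * tc a x * (((n : ℝ) + 1) ^ 2 - 1 - ((n : ℝ) - 2 * i) ^ 2))) *
            (1 + 2 * (3 * tc a x) * ((n : ℝ) - 2 * i) ^ 2)) := by
  have hX1 : (1 : ℝ) < 2 ^ J := one_lt_pow₀ one_lt_two (by omega)
  have hX0 : (0 : ℝ) < 2 ^ J := by positivity
  have hδ := PP.dpos J x a
  have htc := (G.tp J a x).1
  have hth := PP.tpos J x
  have hM0 : ∀ p, 0 < M₀ p := by
    intro p
    by_cases hp : p = a
    · rw [hp, hF.ma]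
      exact one_div_pos.2 (Real.sqrt_pos.2 htc)
    · rw [hF.mp p hp]
      refine mul_pos (by positivity) (lt_max_of_lt_right (by positivity))
  have hfs : ∀ p (j : ℕ), 0 < fs (M₀ p) (jm p) j := fun p j => fs_pos (hM0 p) _ _
  obtain ⟨p, q, hp, hqa, hpq, he⟩ := three hA a
  have hpq' : p.1 ≠ q.1 := fun h => hpq (Subtype.ext h)
  -- the weight
  have hex : 2 * tc a x * (CL Φ a.1 τ - (rd Φ).Q (τ - (i : ℤ) • a.1.1)) =
      3 * tc a x * (((n : ℝ) + 1) ^ 2 - 1 - ((n : ℝ) - 2 * i) ^ 2) := by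
    rw [expo hq hI hW hA a τ i, hn]
    push_cast
    ring
  rw [hex]
  have hni : (i : ℝ) ≤ n := by exact_mod_cast hi
  have hi0 : (0 : ℝ) ≤ i := Nat.cast_nonneg i
  obtain ⟨k0, k1, k2⟩ := kk (k := min (i : ℝ) ((n : ℝ) - i)) hi0 hni rfl
  have hE0 : 0 ≤ ((n : ℝ) + 1) ^ 2 - 1 - ((n : ℝ) - 2 * i) ^ 2 := le_trans (by positivity) k2
  set w : ℝ := Real.exp (-(3 * tc a x * (((n : ℝ) + 1) ^ 2 - 1 - ((n : ℝ) - 2 * i) ^ 2))) with hwd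
  have hw0 : 0 < w := Real.exp_pos _
  have hw1 : w ≤ 1 := by
    rw [hwd, Real.exp_le_one_iff]
    have : 0 ≤ 3 * tc a x * (((n : ℝ) + 1) ^ 2 - 1 - ((n : ℝ) - 2 * i) ^ 2) := by positivity
    linarith
  -- the forms
  set U : {p // p ∈ pos Φ} → ℝ := fun s => ((s.1.2 ⬝ᵥ (τ - (i : ℤ) • a.1.1) : ℤ) : ℝ) with hUd
  set V : {p // p ∈ pos Φ} → ℝ := fun s => ψ s (jj s) (s.1.2 ⬝ᵥ (τ - (i : ℤ) • a.1.1)) with hVd
  have hpj : pj' ψ jj (τ - (i : ℤ) • a.1.1) = V a * (V p * V q) := by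
    unfold pj'
    exact prod3 hpq he V
  have hVb : ∀ s, |V s| ≤ C₂ := fun s => hF.fcf.bd _ _ _
  have hVl : ∀ s, 0 < (jj s).val → |V s| * fs (M₀ s) (jm s) (jj s).val ^ (2 * m) ≤ C₂ * |U s| ^ (2 * m) :=
    fun s h => hF.fcf.lo _ _ _ h
  have hV2 : ∀ s, V s ^ 2 ≤ C₂ ^ 2 := fun s => sqC (hVb s)
  have h6 : V a ^ 2 * (V p ^ 2 * V q ^ 2) ≤ C₂ ^ 6 := by
    calc V a ^ 2 * (V p ^ 2 * V q ^ 2) ≤ C₂ ^ 2 * (C₂ ^ 2 * C₂ ^ 2) :=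
          mul_le_mul (hV2 a) (mul_le_mul (hV2 p) (hV2 q) (by positivity) (by positivity)) (by positivity)
            (by positivity)
      _ = _ := by ring
  have hpj2 : pj' ψ jj (τ - (i : ℤ) • a.1.1) ^ 2 = V a ^ 2 * (V p ^ 2 * V q ^ 2) := by
    rw [hpj, mul_pow, mul_pow]
  rw [hpj2]
  -- the right side
  have hprod : ∏ s ∈ (pos Φ).erase a.1, (1 + th x * ((s.2 ⬝ᵥ τ : ℤ) : ℝ) ^ 2) =
      (1 + th x * ((p.1.2 ⬝ᵥ τ : ℤ) : ℝ) ^ 2) * (1 + th x * ((q.1.2 ⬝ᵥ τ : ℤ) : ℝ) ^ 2) := by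
    rw [erase_val he, Finset.prod_pair hpq']
  have hF0 : ∀ s, 0 < (if (jj s).val = 0 then (1 : ℝ) else 1 + th x * fs (M₀ s) (jm s) (jj s).val ^ 2) := by
    intro s
    have := hfs s (jj s).val
    split_ifs
    · exact one_pos
    · positivity
  have hbc : bbc a x M₀ jm jj = 1 / ((1 + tc a x * fs (M₀ a) (jm a) (jj a).val ^ 2) *
      ((if (jj p).val = 0 then (1 : ℝ) else 1 + th x * fs (M₀ p) (jm p) (jj p).val ^ 2) *
        (if (jj q).val = 0 then (1 : ℝ) else 1 + th x * fs (M₀ q) (jm q) (jj q).val ^ 2))) := by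
    unfold bbc
    rw [he, Finset.prod_pair hpq]
  have hDa : 0 < 1 + tc a x * fs (M₀ a) (jm a) (jj a).val ^ 2 := by
    have := hfs a (jj a).val
    positivity
  set Da : ℝ := 1 + tc a x * fs (M₀ a) (jm a) (jj a).val ^ 2 with hDad
  have hDp := hF0 p
  have hDq := hF0 q
  set Dp : ℝ := (if (jj p).val = 0 then (1 : ℝ) else 1 + th x * fs (M₀ p) (jm p) (jj p).val ^ 2) with hDpd
  set Dq : ℝ := (if (jj q).val = 0 then (1 : ℝ) else 1 + th x * fs (M₀ q) (jm q) (jj q).val ^ 2) with hDqd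
  rw [hprod, hbc]
  set Tp : ℝ := 1 + th x * ((p.1.2 ⬝ᵥ τ : ℤ) : ℝ) ^ 2 with hTp
  set Tq : ℝ := 1 + th x * ((q.1.2 ⬝ᵥ τ : ℤ) : ℝ) ^ 2 with hTq
  have hTp0 : 0 < Tp := by rw [hTp]; positivity
  have hTq0 : 0 < Tq := by rw [hTq]; positivity
  set W : ℝ := 1 + 2 * (3 * tc a x) * ((n : ℝ) - 2 * i) ^ 2 with hWd
  have hW0 : 0 < W := by rw [hWd]; positivity
  have hmain0 : 0 ≤ 32 * C₂ ^ 6 * (1 / (Da * (Dp * Dq)) * (Tp * Tq)) * (w * W) := by positivity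
  have herr0 : 0 ≤ C₂ ^ 6 * (((2 : ℝ) ^ J) ^ 3)⁻¹ := by positivity
  -- class (i)
  by_cases h1 : ∃ s : {p // p ∈ pos Φ}, 0 < (jj s).val ∧
      |U s| < ((2 : ℝ) ^ J) ^ (-ε) * fs (M₀ s) (jm s) (jj s).val
  · obtain ⟨s, hs0, hs⟩ := h1
    have hsm : V s ^ 2 ≤ C₂ ^ 2 * (((2 : ℝ) ^ J) ^ 3)⁻¹ :=
      small (hfs s _) hX1.le hC hmε (hVl s hs0) hs
    have h7 : V a ^ 2 * (V p ^ 2 * V q ^ 2) ≤ C₂ ^ 6 * (((2 : ℝ) ^ J) ^ 3)⁻¹ := by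
      rw [← prod3 hpq he fun t => V t ^ 2, ← Finset.mul_prod_erase Finset.univ _ (Finset.mem_univ s)]
      have h8 : ∏ t ∈ Finset.univ.erase s, V t ^ 2 ≤ (C₂ ^ 2) ^ 2 := by
        have h9 : (Finset.univ.erase s).card = 2 := by
          rw [Finset.card_erase_of_mem (Finset.mem_univ s), Finset.card_univ, Fintype.card_coe, hA.card]
        calc ∏ t ∈ Finset.univ.erase s, V t ^ 2 ≤ ∏ _t ∈ Finset.univ.erase s, C₂ ^ 2 :=
              Finset.prod_le_prod (fun t _ => by positivity) fun t _ => hV2 t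
          _ = _ := by rw [Finset.prod_const, h9]
      calc V s ^ 2 * ∏ t ∈ Finset.univ.erase s, V t ^ 2 ≤ (C₂ ^ 2 * (((2 : ℝ) ^ J) ^ 3)⁻¹) * (C₂ ^ 2) ^ 2 :=
            mul_le_mul hsm h8 (Finset.prod_nonneg fun t _ => by positivity) (by positivity)
        _ = _ := by ring
    have h8 : w * (V a ^ 2 * (V p ^ 2 * V q ^ 2)) ≤ 1 * (C₂ ^ 6 * (((2 : ℝ) ^ J) ^ 3)⁻¹) :=
      mul_le_mul hw1 h7 (by positivity) zero_le_one
    linarith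
  push Not at h1
  -- class (ii)
  by_cases h2 : Real.log ((2 : ℝ) ^ J) ≤ tc a x * (((n : ℝ) + 1) ^ 2 - 1 - ((n : ℝ) - 2 * i) ^ 2)
  · have h3 : w ≤ (((2 : ℝ) ^ J) ^ 3)⁻¹ := by
      rw [← Real.exp_log (show (0 : ℝ) < (((2 : ℝ) ^ J) ^ 3)⁻¹ by positivity), Real.log_inv, Real.log_pow, hwd]
      apply Real.exp_le_exp.2
      push_cast
      linarith
    have h8 : w * (V a ^ 2 * (V p ^ 2 * V q ^ 2)) ≤ (((2 : ℝ) ^ J) ^ 3)⁻¹ * C₂ ^ 6 :=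
      mul_le_mul h3 h6 (by positivity) (by positivity)
    linarith
  push Not at h2
  -- class (iii)
  have ha2 : a.1.2 ⬝ᵥ a.1.1 = 2 := hI.two a.1 (hW.ppos a.1 a.2).1
  have hUa : U a = (n : ℝ) - 2 * i := by
    rw [hUd]
    simp only
    rw [dotProduct_sub, dotProduct_smul, ha2, hn, smul_eq_mul]
    push_cast
    ring
  have hcl := claim G PP hA hε hJ hR hF hL hlog (U := U) hi0 hni rfl hUa h1 h2
  have hkey := low hA hp hqa hpq ha2 τ (i : ℤ) (k := min (i : ℝ) ((n : ℝ) - i)) (by positivity)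
    (by rw [hn]; exact_mod_cast hi) (by rw [hn]; push_cast; rfl)
  have hfa : V a ^ 2 * Da ≤ 2 * C₂ ^ 2 * (1 + tc a x * ((n : ℝ) - 2 * i) ^ 2) := by
    rw [hDad, ← hUa]
    refine faca hm (hM0 a) htc.le ?_ (hVb a) (hVl a)
    rw [hF.ma, div_pow, one_pow, Real.sq_sqrt htc.le, mul_one_div, div_self htc.ne']
  have hfpq : (V p ^ 2 * Dp) * (V q ^ 2 * Dq) ≤ (4 * C₂ ^ 2) * (4 * C₂ ^ 2) * (Tp * Tq) := by
    have n1 : 0 ≤ V q ^ 2 * Dq := by positivity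
    rcases hkey with ⟨e1, e2⟩ | ⟨e1, e2⟩
    · have g1 := facp (P := U p) hm (hfs p (jj p).val) hth.le (hVb p) (hVl p) (hcl p hp) e1
      have g2 := facp (P := U q) hm (hfs q (jj q).val) hth.le (hVb q) (hVl q) (hcl q hqa) e2
      calc (V p ^ 2 * Dp) * (V q ^ 2 * Dq) ≤ (4 * C₂ ^ 2 * Tp) * (4 * C₂ ^ 2 * Tq) :=
            mul_le_mul g1 g2 n1 (by positivity)
        _ = _ := by ring
    · have g1 := facp (P := U p) hm (hfs p (jj p).val) hth.le (hVb p) (hVl p) (hcl p hp) e1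
      have g2 := facp (P := U q) hm (hfs q (jj q).val) hth.le (hVb q) (hVl q) (hcl q hqa) e2
      calc (V p ^ 2 * Dp) * (V q ^ 2 * Dq) ≤ (4 * C₂ ^ 2 * Tq) * (4 * C₂ ^ 2 * Tp) :=
            mul_le_mul g1 g2 n1 (by positivity)
        _ = _ := by ring
  have hall : (V a ^ 2 * (V p ^ 2 * V q ^ 2)) * (Da * (Dp * Dq)) ≤ 32 * C₂ ^ 6 * (Tp * Tq) * W := by
    have hW1 : 1 + tc a x * ((n : ℝ) - 2 * i) ^ 2 ≤ W := by
      rw [hWd]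
      have : 0 ≤ tc a x * ((n : ℝ) - 2 * i) ^ 2 := by positivity
      linarith
    calc (V a ^ 2 * (V p ^ 2 * V q ^ 2)) * (Da * (Dp * Dq)) =
          (V a ^ 2 * Da) * ((V p ^ 2 * Dp) * (V q ^ 2 * Dq)) := by ring
      _ ≤ (2 * C₂ ^ 2 * (1 + tc a x * ((n : ℝ) - 2 * i) ^ 2)) * ((4 * C₂ ^ 2) * (4 * C₂ ^ 2) * (Tp * Tq)) :=
          mul_le_mul hfa hfpq (by positivity) (by positivity)
      _ ≤ (2 * C₂ ^ 2 * W) * ((4 * C₂ ^ 2) * (4 * C₂ ^ 2) * (Tp * Tq)) :=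
          mul_le_mul_of_nonneg_right (mul_le_mul_of_nonneg_left hW1 (by positivity)) (by positivity)
      _ = _ := by ring
  have hfin : V a ^ 2 * (V p ^ 2 * V q ^ 2) ≤ 32 * C₂ ^ 6 * (1 / (Da * (Dp * Dq)) * (Tp * Tq)) * W := by
    rw [← le_div_iff₀ (by positivity)] at hall
    refine hall.trans (le_of_eq ?_)
    ring
  calc w * (V a ^ 2 * (V p ^ 2 * V q ^ 2)) ≤ w * (32 * C₂ ^ 6 * (1 / (Da * (Dp * Dq)) * (Tp * Tq)) * W) :=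
        mul_le_mul_of_nonneg_left hfin hw0.le
    _ = 32 * C₂ ^ 6 * (1 / (Da * (Dp * Dq)) * (Tp * Tq)) * (w * W) := by ring
    _ ≤ _ := by linarith

/-- the right side is not too small -/
theorem clow (hA : A2F Φ) (PP : PRF Φ) (G : RGX Φ) {m : ℕ} {C₂ ε : ℝ}
    {J : ℕ} {a : {p // p ∈ pos Φ}} {x : {p // p ∈ pos Φ} → Fin (J + 1)} {R : ℝ}
    {M₀ : {p // p ∈ pos Φ} → ℝ} {jm : {p // p ∈ pos Φ} → ℕ} {L : ℕ} {ψ : {p // p ∈ pos Φ} → Fin (L + 2) → ℤ → ℝ}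
    {ν₁ ν₂ : ({p // p ∈ pos Φ} → Fin (L + 2)) → Measure (Fin 2 → ℝ)} (jj : {p // p ∈ pos Φ} → Fin (L + 2))
    (τ : Fin 2 → ℤ) (hF : FPC ε a x m C₂ R M₀ jm L ψ ν₁ ν₂) :
    (((2 : ℝ) ^ J) ^ 3)⁻¹ ≤
      125 * (bbc a x M₀ jm jj * ∏ p ∈ (pos Φ).erase a.1, (1 + th x * ((p.2 ⬝ᵥ τ : ℤ) : ℝ) ^ 2)) := by
  have hX1 : (1 : ℝ) ≤ 2 ^ J := one_le_pow₀ one_le_two
  have hX0 : (0 : ℝ) < 2 ^ J := by positivity
  have hδ := PP.dpos J x a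
  have htc := (G.tp J a x).1
  have hth := PP.tpos J x
  have hthX := PP.tle J x
  have htcX := (G.tp J a x).2.trans hthX
  have hM0 : ∀ p, 0 < M₀ p := by
    intro p
    by_cases hp : p = a
    · rw [hp, hF.ma]
      exact one_div_pos.2 (Real.sqrt_pos.2 htc)
    · rw [hF.mp p hp]
      refine mul_pos (by positivity) (lt_max_of_lt_right (by positivity))
  have hfs : ∀ p (j : ℕ), 0 < fs (M₀ p) (jm p) j := fun p j => fs_pos (hM0 p) _ _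
  have hfs2 : ∀ p (j : ℕ), fs (M₀ p) (jm p) j ≤ 2 * 2 ^ J := fun p j => (fs_le (hM0 p) _ _).trans (hF.hi p)
  have hb5 : ∀ (t : ℝ) p (j : ℕ), 0 < t → t ≤ 1 / 2 ^ J → 1 + t * fs (M₀ p) (jm p) j ^ 2 ≤ 5 * 2 ^ J := by
    intro t p j h0 h1
    have h2 : fs (M₀ p) (jm p) j ^ 2 ≤ (2 * 2 ^ J) ^ 2 := pow_le_pow_left₀ (hfs p j).le (hfs2 p j) 2
    have h3 : t * fs (M₀ p) (jm p) j ^ 2 ≤ 1 / 2 ^ J * (2 * 2 ^ J) ^ 2 :=
      mul_le_mul h1 h2 (by positivity) (by positivity)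
    have h4 : (1 : ℝ) / 2 ^ J * (2 * 2 ^ J) ^ 2 = 4 * 2 ^ J := by
      field_simp
      ring
    rw [h4] at h3
    linarith
  obtain ⟨p, q, hp, hqa, hpq, he⟩ := three hA a
  have hpq' : p.1 ≠ q.1 := fun h => hpq (Subtype.ext h)
  have hprod : 1 ≤ ∏ s ∈ (pos Φ).erase a.1, (1 + th x * ((s.2 ⬝ᵥ τ : ℤ) : ℝ) ^ 2) := by
    rw [erase_val he, Finset.prod_pair hpq']
    have h1 : 1 ≤ 1 + th x * ((p.1.2 ⬝ᵥ τ : ℤ) : ℝ) ^ 2 := by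
      have : 0 ≤ th x * ((p.1.2 ⬝ᵥ τ : ℤ) : ℝ) ^ 2 := by positivity
      linarith
    have h2 : 1 ≤ 1 + th x * ((q.1.2 ⬝ᵥ τ : ℤ) : ℝ) ^ 2 := by
      have : 0 ≤ th x * ((q.1.2 ⬝ᵥ τ : ℤ) : ℝ) ^ 2 := by positivity
      linarith
    nlinarith
  have hF0 : ∀ s, 0 < (if (jj s).val = 0 then (1 : ℝ) else 1 + th x * fs (M₀ s) (jm s) (jj s).val ^ 2) ∧
      (if (jj s).val = 0 then (1 : ℝ) else 1 + th x * fs (M₀ s) (jm s) (jj s).val ^ 2) ≤ 5 * 2 ^ J := by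
    intro s
    have := hfs s (jj s).val
    split_ifs
    · exact ⟨one_pos, by linarith⟩
    · exact ⟨by positivity, hb5 _ _ _ hth hthX⟩
  have hbc : bbc a x M₀ jm jj = 1 / ((1 + tc a x * fs (M₀ a) (jm a) (jj a).val ^ 2) *
      ((if (jj p).val = 0 then (1 : ℝ) else 1 + th x * fs (M₀ p) (jm p) (jj p).val ^ 2) *
        (if (jj q).val = 0 then (1 : ℝ) else 1 + th x * fs (M₀ q) (jm q) (jj q).val ^ 2))) := by
    unfold bbc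
    rw [he, Finset.prod_pair hpq]
  have hDa : 0 < 1 + tc a x * fs (M₀ a) (jm a) (jj a).val ^ 2 := by
    have := hfs a (jj a).val
    positivity
  have hDa5 := hb5 _ a (jj a).val htc htcX
  have hD : (1 + tc a x * fs (M₀ a) (jm a) (jj a).val ^ 2) *
      ((if (jj p).val = 0 then (1 : ℝ) else 1 + th x * fs (M₀ p) (jm p) (jj p).val ^ 2) *
        (if (jj q).val = 0 then (1 : ℝ) else 1 + th x * fs (M₀ q) (jm q) (jj q).val ^ 2)) ≤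
      125 * ((2 : ℝ) ^ J) ^ 3 := by
    calc _ ≤ (5 * 2 ^ J) * ((5 * 2 ^ J) * (5 * 2 ^ J)) :=
          mul_le_mul hDa5 (mul_le_mul (hF0 p).2 (hF0 q).2 (hF0 q).1.le (by positivity))
            (mul_pos (hF0 p).1 (hF0 q).1).le (by positivity)
      _ = _ := by ring
  have hbb : 1 / (125 * ((2 : ℝ) ^ J) ^ 3) ≤ bbc a x M₀ jm jj := by
    rw [hbc]
    exact one_div_le_one_div_of_le (mul_pos hDa (mul_pos (hF0 p).1 (hF0 q).1)) hD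
  have hbb0 : 0 < bbc a x M₀ jm jj := lt_of_lt_of_le (by positivity) hbb
  calc (((2 : ℝ) ^ J) ^ 3)⁻¹ = 125 * (1 / (125 * ((2 : ℝ) ^ J) ^ 3)) := by
        field_simp
    _ ≤ 125 * bbc a x M₀ jm jj := mul_le_mul_of_nonneg_left hbb (by norm_num)
    _ = 125 * (bbc a x M₀ jm jj * 1) := by ring
    _ ≤ _ := mul_le_mul_of_nonneg_left (mul_le_mul_of_nonneg_left hprod hbb0.le) (by norm_num)

end STS

open STS in
theorem t_STS : M_STS := by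
  intro hQ hPR hRG hSU Φ B hI hW hA m C₂ ε hm hC hε hmε
  have PP := hPR 2 Φ B (by norm_num) hI hW
  have G := hRG 2 Φ B (by norm_num) hI hW
  obtain ⟨J₀, hJ₀⟩ := exJ hε
  refine ⟨C₂ ^ 6 * 125 * ((2 : ℝ) ^ J₀) ^ 3 + 157 * C₂ ^ 6, by positivity, ?_⟩
  intro J a x R M₀ jm L ψ ν₁ ν₂ jj τ hJ hR hF hL hτ
  obtain ⟨n, hn⟩ := Int.eq_ofNat_of_zero_le hτ
  have hX0 : (0 : ℝ) < 2 ^ J := by positivity
  have hcl := clow hA PP G jj τ hF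
  set c₁ : ℝ := bbc a x M₀ jm jj * ∏ p ∈ (pos Φ).erase a.1, (1 + th x * ((p.2 ⬝ᵥ τ : ℤ) : ℝ) ^ 2) with hc₁
  have hc0 : 0 < c₁ := by
    have : (0 : ℝ) < (((2 : ℝ) ^ J) ^ 3)⁻¹ := by positivity
    linarith
  have htc := (G.tp J a x).1
  have hR' : (C₂ ^ 6 * 125 * ((2 : ℝ) ^ J₀) ^ 3 + 157 * C₂ ^ 6) * bbc a x M₀ jm jj *
      (((a.1.2 ⬝ᵥ τ : ℤ) : ℝ) + 1) * ∏ p ∈ (pos Φ).erase a.1, (1 + th x * ((p.2 ⬝ᵥ τ : ℤ) : ℝ) ^ 2) =
      (C₂ ^ 6 * 125 * ((2 : ℝ) ^ J₀) ^ 3 + 157 * C₂ ^ 6) * c₁ * ((n : ℝ) + 1) := by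
    rw [hc₁, hn]
    push_cast
    ring
  rw [hR', hn, Int.toNat_natCast]
  have hC6 : 0 ≤ C₂ ^ 6 := by positivity
  by_cases hlt : J < J₀
  · -- small `J`
    have hterm : ∀ i ∈ Finset.range (n + 1),
        Real.exp (-(2 * tc a x * (CL Φ a.1 τ - (rd Φ).Q (τ - (i : ℤ) • a.1.1)))) *
          pj' ψ jj (τ - (i : ℤ) • a.1.1) ^ 2 ≤ C₂ ^ 6 := by
      intro i hi
      have hin : (i : ℝ) ≤ n := by exact_mod_cast Nat.lt_succ_iff.1 (Finset.mem_range.1 hi)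
      obtain ⟨k0, k1, k2⟩ := kk (k := min (i : ℝ) ((n : ℝ) - i)) (Nat.cast_nonneg i) hin rfl
      have hE0 : 0 ≤ ((n : ℝ) + 1) ^ 2 - 1 - ((n : ℝ) - 2 * i) ^ 2 := le_trans (by positivity) k2
      have hw1 : Real.exp (-(2 * tc a x * (CL Φ a.1 τ - (rd Φ).Q (τ - (i : ℤ) • a.1.1)))) ≤ 1 := by
        rw [Real.exp_le_one_iff, expo hQ hI hW hA a τ i, hn]
        push_cast
        have : 0 ≤ 2 * tc a x * (3 / 2 * (((n : ℝ) + 1) ^ 2 - 1 - ((n : ℝ) - 2 * i) ^ 2)) := by positivity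
        linarith
      have h1 : pj' ψ jj (τ - (i : ℤ) • a.1.1) ^ 2 ≤ C₂ ^ 6 := by
        unfold pj'
        rw [← Finset.prod_pow]
        calc ∏ s : {p // p ∈ pos Φ}, ψ s (jj s) (s.1.2 ⬝ᵥ (τ - (i : ℤ) • a.1.1)) ^ 2 ≤
              ∏ _s : {p // p ∈ pos Φ}, C₂ ^ 2 :=
              Finset.prod_le_prod (fun t _ => by positivity) fun t _ => sqC (hF.fcf.bd _ _ _)
          _ = C₂ ^ 6 := by
            rw [Finset.prod_const, Finset.card_univ, Fintype.card_coe, hA.card, ← pow_mul]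
      calc _ ≤ 1 * C₂ ^ 6 := mul_le_mul hw1 h1 (by positivity) zero_le_one
        _ = _ := one_mul _
    have hXJ : ((2 : ℝ) ^ J) ^ 3 ≤ ((2 : ℝ) ^ J₀) ^ 3 :=
      pow_le_pow_left₀ hX0.le (pow_le_pow_right₀ one_le_two hlt.le) 3
    have h1 : 1 ≤ 125 * ((2 : ℝ) ^ J₀) ^ 3 * c₁ := by
      calc (1 : ℝ) = ((2 : ℝ) ^ J) ^ 3 * (((2 : ℝ) ^ J) ^ 3)⁻¹ := (mul_inv_cancel₀ (by positivity)).symm
        _ ≤ ((2 : ℝ) ^ J₀) ^ 3 * (125 * c₁) := mul_le_mul hXJ hcl (by positivity) (by positivity)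
        _ = _ := by ring
    calc _ ≤ ∑ _i ∈ Finset.range (n + 1), C₂ ^ 6 := Finset.sum_le_sum hterm
      _ = ((n : ℝ) + 1) * (C₂ ^ 6 * 1) := by
        rw [Finset.sum_const, Finset.card_range, nsmul_eq_mul]
        push_cast
        ring
      _ ≤ ((n : ℝ) + 1) * (C₂ ^ 6 * (125 * ((2 : ℝ) ^ J₀) ^ 3 * c₁)) := by
        refine mul_le_mul_of_nonneg_left (mul_le_mul_of_nonneg_left h1 hC6) (by positivity)
      _ ≤ ((n : ℝ) + 1) * (C₂ ^ 6 * (125 * ((2 : ℝ) ^ J₀) ^ 3 * c₁)) + 157 * C₂ ^ 6 * c₁ * ((n : ℝ) + 1) := by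
        have : 0 ≤ 157 * C₂ ^ 6 * c₁ * ((n : ℝ) + 1) := by positivity
        linarith
      _ = _ := by ring
  · -- large `J`
    push Not at hlt
    have hlog := hJ₀ J hlt
    have hterm : ∀ i ∈ Finset.range (n + 1), _ := fun i hi =>
      pt hQ hI hW hA PP G hm hC hε hmε hJ hR hF hL hlog n hn i (Nat.lt_succ_iff.1 (Finset.mem_range.1 hi))
    have hs := hSU (3 * tc a x) (n + 1) (by positivity)
    have hs' : ∑ i ∈ Finset.range (n + 1),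
        (Real.exp (-(3 * tc a x * (((n : ℝ) + 1) ^ 2 - 1 - ((n : ℝ) - 2 * i) ^ 2))) *
            (1 + 2 * (3 * tc a x) * ((n : ℝ) - 2 * i) ^ 2)) ≤ (n : ℝ) + 1 := by
      push_cast at hs
      refine le_trans (le_of_eq (Finset.sum_congr rfl fun i _ => ?_)) hs
      have : (n : ℝ) + 1 - 1 - 2 * (i : ℝ) = n - 2 * i := by ring
      rw [this]
    have hsum : ∑ i ∈ Finset.range (n + 1), (C₂ ^ 6 * (((2 : ℝ) ^ J) ^ 3)⁻¹ + 32 * C₂ ^ 6 * c₁ *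
        (Real.exp (-(3 * tc a x * (((n : ℝ) + 1) ^ 2 - 1 - ((n : ℝ) - 2 * i) ^ 2))) *
            (1 + 2 * (3 * tc a x) * ((n : ℝ) - 2 * i) ^ 2))) =
        ((n : ℝ) + 1) * (C₂ ^ 6 * (((2 : ℝ) ^ J) ^ 3)⁻¹) + 32 * C₂ ^ 6 * c₁ * ∑ i ∈ Finset.range (n + 1),
        (Real.exp (-(3 * tc a x * (((n : ℝ) + 1) ^ 2 - 1 - ((n : ℝ) - 2 * i) ^ 2))) *
            (1 + 2 * (3 * tc a x) * ((n : ℝ) - 2 * i) ^ 2)) := by
      rw [Finset.sum_add_distrib, Finset.mul_sum, Finset.sum_const, Finset.card_range, nsmul_eq_mul]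
      push_cast
      rfl
    refine (Finset.sum_le_sum hterm).trans ?_
    rw [← hc₁, hsum]
    have h1 : 32 * C₂ ^ 6 * c₁ * ∑ i ∈ Finset.range (n + 1),
        (Real.exp (-(3 * tc a x * (((n : ℝ) + 1) ^ 2 - 1 - ((n : ℝ) - 2 * i) ^ 2))) *
            (1 + 2 * (3 * tc a x) * ((n : ℝ) - 2 * i) ^ 2)) ≤ 32 * C₂ ^ 6 * c₁ * ((n : ℝ) + 1) :=
      mul_le_mul_of_nonneg_left hs' (by positivity)
    have h2 : ((n : ℝ) + 1) * (C₂ ^ 6 * (((2 : ℝ) ^ J) ^ 3)⁻¹) ≤ ((n : ℝ) + 1) * (C₂ ^ 6 * (125 * c₁)) :=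
      mul_le_mul_of_nonneg_left (mul_le_mul_of_nonneg_left hcl hC6) (by positivity)
    have h3 : 0 ≤ C₂ ^ 6 * 125 * ((2 : ℝ) ^ J₀) ^ 3 * c₁ * ((n : ℝ) + 1) := by positivity
    linarith

end

end STZ3
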