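import Pool.Agent.STZ3.StD3

/-!
# SUI: the group `SU(2)` (helper20)
-/

set_option autoImplicit false

noncomputable section

namespace STZ3

namespace SUI

/-- one term -/
theorem term (s u x : ℝ) (hs : 0 ≤ s) :
    Real.exp (-(s * (x ^ 2 - 1 - u ^ 2))) * (1 + 2 * s * u ^ 2) ≤
      Real.exp (-(s * x ^ 2)) / 2 *
        ((u + 1) * Real.exp (s * (u + 1) ^ 2) - (u - 1) * Real.exp (s * (u - 1) ^ 2)) := by
  have e1 : Real.exp (s * (u + 1) ^ 2) = Real.exp (s * (u ^ 2 + 1)) * Real.exp (2 * s * u) := by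
    rw [← Real.exp_add]
    congr 1
    ring
  have e2 : Real.exp (s * (u - 1) ^ 2) = Real.exp (s * (u ^ 2 + 1)) * Real.exp (-(2 * s * u)) := by
    rw [← Real.exp_add]
    congr 1
    ring
  have e3 : Real.exp (-(s * (x ^ 2 - 1 - u ^ 2))) =
      Real.exp (-(s * x ^ 2)) * Real.exp (s * (u ^ 2 + 1)) := by
    rw [← Real.exp_add]
    congr 1
    ring
  have h1 : 1 ≤ Real.cosh (2 * s * u) := Real.one_le_cosh _
  have h2 : 2 * s * u ^ 2 ≤ u * Real.sinh (2 * s * u) := by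
    rcases le_total 0 u with hu | hu
    · have h3 : 2 * s * u ≤ Real.sinh (2 * s * u) :=
        Real.self_le_sinh_iff.2 (by positivity)
      nlinarith [mul_le_mul_of_nonneg_left h3 hu]
    · have h3 : Real.sinh (2 * s * u) ≤ 2 * s * u :=
        Real.sinh_le_self_iff.2 (mul_nonpos_of_nonneg_of_nonpos (by positivity) hu)
      nlinarith [mul_le_mul_of_nonpos_left h3 hu]
  have e4 : Real.exp (-(s * x ^ 2)) / 2 *
        ((u + 1) * Real.exp (s * (u + 1) ^ 2) - (u - 1) * Real.exp (s * (u - 1) ^ 2)) =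
      Real.exp (-(s * x ^ 2)) * Real.exp (s * (u ^ 2 + 1)) *
        (Real.cosh (2 * s * u) + u * Real.sinh (2 * s * u)) := by
    rw [e1, e2, Real.cosh_eq, Real.sinh_eq]
    ring
  rw [e4, e3]
  refine mul_le_mul_of_nonneg_left ?_ (by positivity)
  linarith

/-- the telescoping sum -/
theorem tele (s : ℝ) (x : ℝ) (n : ℕ) :
    ∑ i ∈ Finset.range n, (((x - 1 - 2 * (i : ℝ)) + 1) *
        Real.exp (s * ((x - 1 - 2 * (i : ℝ)) + 1) ^ 2) -
      ((x - 1 - 2 * (i : ℝ)) - 1) * Real.exp (s * ((x - 1 - 2 * (i : ℝ)) - 1) ^ 2)) =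
      x * Real.exp (s * x ^ 2) - (x - 2 * (n : ℝ)) * Real.exp (s * (x - 2 * (n : ℝ)) ^ 2) := by
  induction n with
  | zero => simp
  | succ n ih =>
    rw [Finset.sum_range_succ, ih]
    have e1 : x - 1 - 2 * (n : ℝ) + 1 = x - 2 * (n : ℝ) := by ring
    have e2 : x - 1 - 2 * (n : ℝ) - 1 = x - 2 * ((n + 1 : ℕ) : ℝ) := by
      push_cast
      ring
    rw [e1, e2]
    ring

end SUI

theorem t_SUI : S_SUI := by
  intro s x hs
  have h1 : ∑ i ∈ Finset.range x,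
      Real.exp (-(s * ((x : ℝ) ^ 2 - 1 - ((x : ℝ) - 1 - 2 * (i : ℝ)) ^ 2))) *
        (1 + 2 * s * ((x : ℝ) - 1 - 2 * (i : ℝ)) ^ 2) ≤
      ∑ i ∈ Finset.range x, Real.exp (-(s * (x : ℝ) ^ 2)) / 2 *
        ((((x : ℝ) - 1 - 2 * (i : ℝ)) + 1) * Real.exp (s * (((x : ℝ) - 1 - 2 * (i : ℝ)) + 1) ^ 2) -
        (((x : ℝ) - 1 - 2 * (i : ℝ)) - 1) * Real.exp (s * (((x : ℝ) - 1 - 2 * (i : ℝ)) - 1) ^ 2)) :=
    Finset.sum_le_sum fun i _ => SUI.term s _ _ hs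
  refine h1.trans (le_of_eq ?_)
  rw [← Finset.mul_sum, SUI.tele s (x : ℝ) x]
  have e1 : (x : ℝ) - 2 * (x : ℝ) = -(x : ℝ) := by ring
  have e2 : Real.exp (-(s * (x : ℝ) ^ 2)) * Real.exp (s * (x : ℝ) ^ 2) = 1 := by
    rw [← Real.exp_add, neg_add_cancel, Real.exp_zero]
  rw [e1, neg_sq]
  calc Real.exp (-(s * (x : ℝ) ^ 2)) / 2 *
        ((x : ℝ) * Real.exp (s * (x : ℝ) ^ 2) - -(x : ℝ) * Real.exp (s * (x : ℝ) ^ 2)) =
      (x : ℝ) * (Real.exp (-(s * (x : ℝ) ^ 2)) * Real.exp (s * (x : ℝ) ^ 2)) := by ring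
    _ = (x : ℝ) := by rw [e2, mul_one]

end STZ3

end
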