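import Pool.Agent.STZ3.StP

/-!
# Module SYK (helper50): the packet measures are symmetric
-/

namespace STZ3

open STZ LGR MeasureTheory Matrix Filter

open scoped ComplexConjugate Matrix Real Topology

noncomputable section

theorem t_SYK : M_SYK := by
  intro hD hU N H hH ι _ Y κ hY hκ
  have := hκ.prob
  have hinv : Measurable (Inv.inv : H → H) := continuous_inv.measurable
  have : IsFiniteMeasure (κ.map (Inv.inv : H → H)) := inferInstance
  apply hU N H hH _ _ inferInstance inferInstance
  intro n σ _ hσ i j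
  have hcont : Continuous (fun x : H => σ.ρ x i j) := by
    exact (continuous_apply_apply i j).comp σ.cont
  rw [integral_map hinv.aemeasurable hcont.aestronglyMeasurable]
  have hDR := hD N H n σ hH hσ
  have h1 : ∀ x : H, σ.ρ x⁻¹ i j = conj (σ.ρ x j i) := by
    intro x
    rw [σ.unit x]
    rfl
  simp only [h1]
  rw [integral_conj, hκ.coef n σ hσ, hκ.coef n σ hσ]
  have hS : (∑ a, dr σ (Y a) * dr σ (Y a))ᴴ = ∑ a, dr σ (Y a) * dr σ (Y a) := by
    rw [Matrix.conjTranspose_sum]
    apply Finset.sum_congr rfl
    intro a _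
    rw [Matrix.conjTranspose_mul, hDR.skew (Y a) (hY a), neg_mul_neg]
  have h2 := Matrix.exp_conjTranspose (∑ a, dr σ (Y a) * dr σ (Y a))
  rw [hS] at h2
  have h3 := congrFun (congrFun h2 i) j
  rw [h3]
  rfl

end

end STZ3
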