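import Pool.Agent.STZ3.LWB

/-!
# Compact simple groups of rank two: module HRM (helper69)
-/

namespace STZ3

open STZ LGR MeasureTheory Matrix Filter

open scoped ComplexConjugate Matrix Real Topology

noncomputable section

namespace HRM

open LWB ProbabilityTheory

/-! ### the square root -/

open scoped MatrixOrder in
theorem ex_root {r : ℕ} (Φ : RT r) : ∃ z, ZM Φ z := by
  classical
  set C : Matrix {p // p ∈ pos Φ} (Fin r) ℝ := fun p j => (p.1.2 j : ℝ) with hC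
  have h1 : (Cᴴ * C).PosSemidef := posSemidef_conjTranspose_mul_self C
  obtain ⟨z, hz⟩ := CStarAlgebra.nonneg_iff_eq_star_mul_self.mp h1.nonneg
  refine ⟨z, ?_⟩
  intro i j
  have h2 := congrFun (congrFun hz i) j
  rw [star_eq_conjTranspose] at h2
  simp only [Matrix.mul_apply, conjTranspose_apply, star_trivial, hC] at h2
  rw [← h2]
  have h3 : ((rd Φ).A i j : ℝ) = ∑ p ∈ pos Φ, 2 * (p.2 i : ℝ) * (p.2 j : ℝ) := by
    simp only [rd]
    push_cast
    rfl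
  rw [h3, Finset.sum_div, ← Finset.sum_coe_sort (pos Φ)]
  refine Finset.sum_congr rfl ?_
  intro p _
  ring

/-! ### reflections -/

/-- the reflection -/
def R {r : ℕ} (u : Fin r → ℝ) (η : Fin r → ℝ) : Fin r → ℝ :=
  η - (2 * (∑ l, η l * u l) / ∑ l, u l * u l) • u

/-- the reflection as a linear map -/
def RL {r : ℕ} (u : Fin r → ℝ) : (Fin r → ℝ) →ₗ[ℝ] (Fin r → ℝ) where
  toFun := R u
  map_add' x y := by
    ext i
    simp only [R, Pi.add_apply, Pi.sub_apply, Pi.smul_apply, smul_eq_mul, add_mul,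
      Finset.sum_add_distrib]
    ring
  map_smul' a x := by
    ext i
    simp only [R, Pi.sub_apply, Pi.smul_apply, smul_eq_mul, RingHom.id_apply, mul_assoc]
    rw [← Finset.mul_sum]
    ring

theorem R_dot {r : ℕ} (u : Fin r → ℝ) (w : Fin r → ℝ) (η : Fin r → ℝ) :
    ∑ l, R u η l * w l = ∑ l, η l * w l -
      (2 * (∑ l, η l * u l) / ∑ l, u l * u l) * ∑ l, u l * w l := by
  rw [Finset.mul_sum, ← Finset.sum_sub_distrib]
  refine Finset.sum_congr rfl ?_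
  intro l _
  simp only [R, Pi.sub_apply, Pi.smul_apply, smul_eq_mul]
  ring

theorem R_dotu {r : ℕ} {u : Fin r → ℝ} (hu : ∑ l, u l * u l ≠ 0) (η : Fin r → ℝ) :
    ∑ l, R u η l * u l = -∑ l, η l * u l := by
  rw [R_dot, div_mul_cancel₀ _ hu]
  ring

theorem R_R {r : ℕ} {u : Fin r → ℝ} (hu : ∑ l, u l * u l ≠ 0) (η : Fin r → ℝ) :
    R u (R u η) = η := by
  have h1 : R u (R u η) = R u η - (2 * (∑ l, R u η l * u l) / ∑ l, u l * u l) • u := rfl
  rw [h1, R_dotu hu]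
  ext i
  simp only [R, Pi.sub_apply, Pi.smul_apply, smul_eq_mul]
  ring

theorem R_norm {r : ℕ} {u : Fin r → ℝ} (hu : ∑ l, u l * u l ≠ 0) (η : Fin r → ℝ) :
    ∑ l, R u η l ^ 2 = ∑ l, η l ^ 2 := by
  have h1 : ∑ l, R u η l ^ 2 = ∑ l, R u η l * R u η l :=
    Finset.sum_congr rfl fun l _ => by ring
  have h2 : ∑ l, η l ^ 2 = ∑ l, η l * η l := Finset.sum_congr rfl fun l _ => by ring
  have h3 : ∑ l, η l * R u η l = ∑ l, R u η l * η l :=
    Finset.sum_congr rfl fun l _ => by ring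
  have h4 : ∑ l, u l * R u η l = ∑ l, R u η l * u l :=
    Finset.sum_congr rfl fun l _ => by ring
  have h5 : ∑ l, u l * η l = ∑ l, η l * u l :=
    Finset.sum_congr rfl fun l _ => by ring
  rw [h1, h2, R_dot, h3, h4, R_dotu hu, R_dot, h5]
  ring

theorem R_mp {r : ℕ} {u : Fin r → ℝ} (hu : ∑ l, u l * u l ≠ 0) :
    MeasurePreserving (R u) (volume : Measure (Fin r → ℝ)) volume := by
  have h1 : (RL u) * (RL u) = 1 := by
    refine LinearMap.ext ?_
    intro x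
    exact R_R hu x
  have h2 : LinearMap.det (RL u) * LinearMap.det (RL u) = 1 := by
    rw [← map_mul, h1, map_one]
  have h3 : LinearMap.det (RL u) ≠ 0 := by
    intro h
    rw [h, zero_mul] at h2
    exact zero_ne_one h2
  have h4 : |(LinearMap.det (RL u))⁻¹| = 1 := by
    rcases mul_self_eq_one_iff.1 h2 with h | h
    · rw [h]; simp
    · rw [h]; simp
  refine ⟨?_, ?_⟩
  · exact (LinearMap.continuous_of_finiteDimensional (RL u)).measurable
  · have h5 := Real.map_linearMap_volume_pi_eq_smul_volume_pi h3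
    rw [h4, ENNReal.ofReal_one, one_smul] at h5
    exact h5

theorem R_emb {r : ℕ} {u : Fin r → ℝ} (hu : ∑ l, u l * u l ≠ 0) : MeasurableEmbedding (R u) := by
  have hm : Measurable (R u) :=
    (LinearMap.continuous_of_finiteDimensional (RL u)).measurable
  exact (⟨⟨R u, R u, R_R hu, R_R hu⟩, hm, hm⟩ : (Fin r → ℝ) ≃ᵐ (Fin r → ℝ)).measurableEmbedding

theorem R_int {r : ℕ} {u : Fin r → ℝ} (hu : ∑ l, u l * u l ≠ 0) (F : (Fin r → ℝ) → ℝ) :
    ∫ ξ, F (R u ξ) ∂(ga r) = ∫ ξ, F ξ ∂(ga r) := by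
  rw [int_eq, int_eq, ← (R_mp hu).integral_comp (R_emb hu)]
  refine integral_congr_ae (ae_of_all _ fun ξ => ?_)
  simp only
  rw [R_R hu]
  congr 1
  have h1 : ∀ ζ : Fin r → ℝ, ∏ i, gaussianPDFReal 0 1 (ζ i) =
      (∏ _i : Fin r, (√(2 * π * ((1 : NNReal) : ℝ)))⁻¹) * Real.exp (-(∑ i, ζ i ^ 2) / 2) := by
    intro ζ
    simp only [gaussianPDFReal]
    rw [Finset.prod_mul_distrib, ← Real.exp_sum]
    congr 2
    rw [neg_div, Finset.sum_div, ← Finset.sum_neg_distrib]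
    refine Finset.sum_congr rfl ?_
    intro i _
    simp only [NNReal.coe_one, sub_zero, mul_one]
    ring
  rw [h1, h1, R_norm hu]

/-! ### the product of the roots -/

/-- the reflection maps `v` to `rf p v` -/
theorem lf_R {r : ℕ} {Φ : RT r} {z : Matrix (Fin r) (Fin r) ℝ} (hz : ZM Φ z)
    (hsym : ∀ v w, ip Φ v w = ip Φ w v)
    (p : (Fin r → ℤ) × (Fin r → ℤ)) (hp : 0 < ip Φ p.1 p.1)
    (hq : ∀ l, 2 * ip Φ p.1 l = (p.2 ⬝ᵥ l : ℤ) * ip Φ p.1 p.1) (v : Fin r → ℤ) (η : Fin r → ℝ) :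
    lf z v (R (zv z p.1) η) = lf z (v - (p.2 ⬝ᵥ v) • p.1) η := by
  have h1 := zv_dot hz p.1 p.1
  have h2 := zv_dot hz v p.1
  have h3 : lf z (v - (p.2 ⬝ᵥ v) • p.1) η = lf z v η - (p.2 ⬝ᵥ v : ℤ) * lf z p.1 η := by
    rw [lf_eq, lf_eq, lf_eq, Finset.mul_sum, ← Finset.sum_sub_distrib]
    refine Finset.sum_congr rfl ?_
    intro l _
    have h4 : zv z (v - (p.2 ⬝ᵥ v) • p.1) l = zv z v l - (p.2 ⬝ᵥ v : ℤ) * zv z p.1 l := by
      unfold zv
      rw [Finset.mul_sum, ← Finset.sum_sub_distrib]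
      refine Finset.sum_congr rfl ?_
      intro i _
      simp only [Pi.sub_apply, Pi.smul_apply, smul_eq_mul]
      push_cast
      ring
    rw [h4]
    ring
  rw [h3, lf_eq, R_dot, ← lf_eq, ← lf_eq, h1, h2]
  have h5 := hq v
  rw [hsym v p.1]
  have h6 : ip Φ p.1 p.1 ≠ 0 := hp.ne'
  field_simp
  linear_combination (-(lf z p.1 η)) * h5

/-- the simple root -/
def sr {r : ℕ} (B : Matrix (Fin r) (Fin r) ℤ) (i : Fin r) : (Fin r → ℤ) × (Fin r → ℤ) :=
  (B i, Pi.single i 1)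

/-- the simple reflection of a pair -/
def sg {r : ℕ} (B : Matrix (Fin r) (Fin r) ℤ) (i : Fin r) (q : (Fin r → ℤ) × (Fin r → ℤ)) :
    (Fin r → ℤ) × (Fin r → ℤ) :=
  (q.1 - q.1 i • B i, q.2 - (q.2 ⬝ᵥ B i) • Pi.single i 1)

theorem Bii {r : ℕ} {Φ : RT r} {B : Matrix (Fin r) (Fin r) ℤ} (hI : IRD Φ B) (i : Fin r) :
    B i i = 2 := by
  have h := hI.two _ (hI.base i)
  simpa using h

theorem sg_sg {r : ℕ} {Φ : RT r} {B : Matrix (Fin r) (Fin r) ℤ} (hI : IRD Φ B) (i : Fin r)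
    (q : (Fin r → ℤ) × (Fin r → ℤ)) : sg B i (sg B i q) = q := by
  have h2 := Bii hI i
  refine Prod.ext ?_ ?_
  · ext j
    simp only [sg, Pi.sub_apply, Pi.smul_apply, smul_eq_mul]
    rw [h2]
    ring
  · have h3 : (q.2 - (q.2 ⬝ᵥ B i) • (Pi.single i 1 : Fin r → ℤ)) ⬝ᵥ B i = -(q.2 ⬝ᵥ B i) := by
      rw [sub_dotProduct, smul_dotProduct, single_dotProduct, h2, smul_eq_mul]
      ring
    simp only [sg]
    rw [h3]
    ext j
    simp only [Pi.sub_apply, Pi.smul_apply, smul_eq_mul]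
    ring

theorem sr_pos {r : ℕ} {Φ : RT r} {B : Matrix (Fin r) (Fin r) ℤ} (hI : IRD Φ B) (i : Fin r) :
    sr B i ∈ pos Φ := by
  refine Finset.mem_filter.2 ⟨hI.base i, ?_⟩
  intro j
  simp only [sr]
  by_cases h : j = i
  · subst h
    simp
  · rw [Pi.single_eq_of_ne h]

theorem sg_sr {r : ℕ} {Φ : RT r} {B : Matrix (Fin r) (Fin r) ℤ} (hI : IRD Φ B) (i : Fin r) :
    sg B i (sr B i) = (-B i, -Pi.single i 1) := by
  have h2 := Bii hI i
  refine Prod.ext ?_ ?_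
  · ext j
    simp only [sg, sr, Pi.sub_apply, Pi.smul_apply, smul_eq_mul, Pi.neg_apply]
    rw [h2]
    ring
  · simp only [sg, sr]
    rw [single_dotProduct, h2]
    ext j
    simp only [Pi.sub_apply, Pi.smul_apply, smul_eq_mul, Pi.neg_apply]
    ring

theorem anti_s {r : ℕ} {Φ : RT r} {B : Matrix (Fin r) (Fin r) ℤ} (hI : IRD Φ B) (hW : WFF Φ B)
    (z : Matrix (Fin r) (Fin r) ℝ) (i : Fin r) (η : Fin r → ℝ) :
    ∏ q ∈ pos Φ, lf z (rf (sr B i) *ᵥ q.1) η = -∏ q ∈ pos Φ, lf z q.1 η := by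
  classical
  have h0 : ∀ q : (Fin r → ℤ) × (Fin r → ℤ), rf (sr B i) *ᵥ q.1 = (sg B i q).1 := by
    intro q
    rw [hW.mv]
    simp only [sr, sg]
    rw [single_dotProduct, one_mul]
  simp only [h0]
  rw [← Finset.mul_prod_erase (pos Φ) (fun q => lf z (sg B i q).1 η) (sr_pos hI i),
    ← Finset.mul_prod_erase (pos Φ) (fun q => lf z q.1 η) (sr_pos hI i)]
  have h1 : lf z (sg B i (sr B i)).1 η = -lf z (sr B i).1 η := by
    rw [sg_sr hI]
    simp only [sr, lf]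
    rw [← Finset.sum_neg_distrib]
    refine Finset.sum_congr rfl ?_
    intro l _
    rw [← mul_neg, ← Finset.sum_neg_distrib]
    congr 1
    refine Finset.sum_congr rfl ?_
    intro j _
    rw [Pi.neg_apply]
    push_cast
    ring
  have h2 : ∀ q ∈ (pos Φ).erase (sr B i), sg B i q ∈ (pos Φ).erase (sr B i) := by
    intro q hq
    obtain ⟨h3, h4⟩ := Finset.mem_erase.1 hq
    refine Finset.mem_erase.2 ⟨?_, hW.simp i q h4 h3⟩
    intro h5
    have h6 := congrArg (sg B i) h5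
    rw [sg_sg hI, sg_sr hI] at h6
    rw [h6] at h4
    exact (hW.dich _ (hI.base i)).1 (sr_pos hI i) h4
  have h3 : ∏ q ∈ (pos Φ).erase (sr B i), lf z (sg B i q).1 η =
      ∏ q ∈ (pos Φ).erase (sr B i), lf z q.1 η :=
    Finset.prod_nbij' (sg B i) (sg B i) h2 h2 (fun q _ => sg_sg hI i q)
      (fun q _ => sg_sg hI i q) (fun q _ => rfl)
  rw [h1, h3]
  ring

/-- the data from QUAD -/
structure QD {r : ℕ} (Φ : RT r) : Prop where
  sym : ∀ v w, ip Φ v w = ip Φ w v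
  pos : ∀ p ∈ Φ, 0 < ip Φ p.1 p.1
  rt : ∀ p ∈ Φ, ∀ l, 2 * ip Φ p.1 l = (p.2 ⬝ᵥ l : ℤ) * ip Φ p.1 p.1

theorem anti_w {r : ℕ} {Φ : RT r} {B : Matrix (Fin r) (Fin r) ℤ} (hI : IRD Φ B) (hW : WFF Φ B)
    {z : Matrix (Fin r) (Fin r) ℝ} (hz : ZM Φ z) (hQ : QD Φ)
    (hG : WM Φ = Submonoid.closure {w | ∃ i, w = rf (B i, Pi.single i 1)})
    (w : Matrix (Fin r) (Fin r) ℤ) (hw : w ∈ WM Φ) (η : Fin r → ℝ) :
    ∏ q ∈ pos Φ, lf z (w *ᵥ q.1) η = (w.det : ℝ) * ∏ q ∈ pos Φ, lf z q.1 η := by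
  rw [hG] at hw
  induction hw using Submonoid.closure_induction_left generalizing η with
  | one => simp
  | mul_left s hs w' _ ih =>
    obtain ⟨i, rfl⟩ := hs
    have hb := hI.base i
    have h1 : ∀ v : Fin r → ℤ, lf z (rf (B i, Pi.single i 1) *ᵥ v) η =
        lf z v (R (zv z (B i)) η) := by
      intro v
      rw [hW.mv]
      exact (lf_R hz hQ.sym (B i, Pi.single i 1) (hQ.pos _ hb) (hQ.rt _ hb) v η).symm
    have h2 : ∀ q : (Fin r → ℤ) × (Fin r → ℤ),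
        lf z ((rf (B i, Pi.single i 1) * w') *ᵥ q.1) η =
          lf z (w' *ᵥ q.1) (R (zv z (B i)) η) := by
      intro q
      rw [← mulVec_mulVec, h1]
    simp only [h2]
    rw [ih]
    have h3 : ∏ q ∈ pos Φ, lf z q.1 (R (zv z (B i)) η) = -∏ q ∈ pos Φ, lf z q.1 η := by
      rw [← anti_s hI hW z i η]
      refine Finset.prod_congr rfl ?_
      intro q _
      exact (h1 q.1).symm
    rw [h3, det_mul, hW.dt _ hb]
    push_cast
    ring

theorem anti {r : ℕ} {Φ : RT r} {B : Matrix (Fin r) (Fin r) ℤ} (hI : IRD Φ B) (hW : WFF Φ B)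
    {z : Matrix (Fin r) (Fin r) ℝ} (hz : ZM Φ z) (hQ : QD Φ)
    (hG : WM Φ = Submonoid.closure {w | ∃ i, w = rf (B i, Pi.single i 1)})
    (p : (Fin r → ℤ) × (Fin r → ℤ)) (hp : p ∈ Φ) (η : Fin r → ℝ) :
    ∏ q ∈ pos Φ, lf z q.1 (R (zv z p.1) η) = -∏ q ∈ pos Φ, lf z q.1 η := by
  have h1 := anti_w hI hW hz hQ hG (rf p) (Submonoid.subset_closure ⟨p, hp, rfl⟩) η
  rw [hW.dt p hp] at h1
  have h2 : ∏ q ∈ pos Φ, lf z q.1 (R (zv z p.1) η) = ∏ q ∈ pos Φ, lf z (rf p *ᵥ q.1) η := by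
    refine Finset.prod_congr rfl ?_
    intro q _
    rw [hW.mv]
    exact lf_R hz hQ.sym p (hQ.pos _ hp) (hQ.rt _ hp) q.1 η
  rw [h2, h1]
  push_cast
  ring

/-! ### the polynomial in one variable -/

theorem lf_line {r : ℕ} (z : Matrix (Fin r) (Fin r) ℝ) (v : Fin r → ℤ) (ξ η x : Fin r → ℝ)
    (t : ℝ) : lf z v (ξ + (η + t • x)) = t * lf z v x + lf z v (ξ + η) := by
  rw [lf_eq, lf_eq, lf_eq, Finset.mul_sum, ← Finset.sum_add_distrib]
  refine Finset.sum_congr rfl ?_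
  intro l _
  simp only [Pi.add_apply, Pi.smul_apply, smul_eq_mul]
  ring

theorem lf_line0 {r : ℕ} (z : Matrix (Fin r) (Fin r) ℝ) (v : Fin r → ℤ) (η x : Fin r → ℝ)
    (t : ℝ) : lf z v (η + t • x) = t * lf z v x + lf z v η := by
  have h := lf_line z v 0 η x t
  simpa using h

theorem eg {r : ℕ} (z : Matrix (Fin r) (Fin r) ℝ) (T : Finset ((Fin r → ℤ) × (Fin r → ℤ)))
    (η : Fin r → ℝ) : Integrable (fun ξ => ∏ p ∈ T, lf z p.1 (ξ + η)) (ga r) := by
  refine EG.int ?_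
  refine EG.prod T (fun p ξ => lf z p.1 (ξ + η)) ?_
  intro p _
  have h1 : EG (fun ξ => lf z p.1 ξ) := EG.lin (zv z p.1)
  exact h1.shift η

/-- the average -/
def hh {r : ℕ} (z : Matrix (Fin r) (Fin r) ℝ) (T : Finset ((Fin r → ℤ) × (Fin r → ℤ)))
    (η : Fin r → ℝ) : ℝ := ∫ ξ, ∏ p ∈ T, lf z p.1 (ξ + η) ∂(ga r)

theorem hh_line {r : ℕ} (z : Matrix (Fin r) (Fin r) ℝ)
    (T : Finset ((Fin r → ℤ) × (Fin r → ℤ))) (η x : Fin r → ℝ) (t : ℝ) :
    hh z T (η + t • x) = ∑ S ∈ T.powerset, (∏ p ∈ S, lf z p.1 x) * t ^ S.card *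
      hh z (T \ S) η := by
  classical
  have h1 : hh z T (η + t • x) = ∫ ξ, ∑ S ∈ T.powerset,
      (∏ p ∈ S, lf z p.1 x) * t ^ S.card * ∏ p ∈ T \ S, lf z p.1 (ξ + η) ∂(ga r) := by
    refine integral_congr_ae (ae_of_all _ fun ξ => ?_)
    simp only [lf_line]
    rw [Finset.prod_add]
    refine Finset.sum_congr rfl ?_
    intro S _
    rw [Finset.prod_mul_distrib, Finset.prod_const]
    ring
  rw [h1, integral_finsetSum]
  · refine Finset.sum_congr rfl ?_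
    intro S _
    rw [integral_const_mul]
    rfl
  · intro S _
    exact (eg z (T \ S) η).const_mul _

theorem pp_line {r : ℕ} (z : Matrix (Fin r) (Fin r) ℝ)
    (T : Finset ((Fin r → ℤ) × (Fin r → ℤ))) (η x : Fin r → ℝ) (t : ℝ) :
    ∏ p ∈ T, lf z p.1 (η + t • x) = ∑ S ∈ T.powerset, (∏ p ∈ S, lf z p.1 x) * t ^ S.card *
      ∏ p ∈ T \ S, lf z p.1 η := by
  classical
  simp only [lf_line0]
  rw [Finset.prod_add]
  refine Finset.sum_congr rfl ?_
  intro S _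
  rw [Finset.prod_mul_distrib, Finset.prod_const]
  ring

instance {r : ℕ} : IsProbabilityMeasure (ga r) := by
  unfold ga
  infer_instance

/-- the difference is a polynomial of small degree -/
theorem diff {r : ℕ} (z : Matrix (Fin r) (Fin r) ℝ)
    (T : Finset ((Fin r → ℤ) × (Fin r → ℤ))) (η x : Fin r → ℝ) :
    ∃ D : Polynomial ℝ, D.degree < T.card ∧ ∀ t : ℝ,
      hh z T (η + t • x) - ∏ p ∈ T, lf z p.1 (η + t • x) = D.eval t := by
  classical
  refine ⟨∑ S ∈ T.powerset.erase T, Polynomial.C ((∏ p ∈ S, lf z p.1 x) *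
    (hh z (T \ S) η - ∏ p ∈ T \ S, lf z p.1 η)) * Polynomial.X ^ S.card, ?_, ?_⟩
  · refine (Polynomial.degree_sum_le _ _).trans_lt ?_
    rw [Finset.sup_lt_iff (WithBot.bot_lt_coe _)]
    intro S hS
    obtain ⟨h1, h2⟩ := Finset.mem_erase.1 hS
    refine (Polynomial.degree_C_mul_X_pow_le _ _).trans_lt ?_
    have h3 : S.card < T.card :=
      Finset.card_lt_card (lt_of_le_of_ne (Finset.mem_powerset.1 h2) h1)
    exact_mod_cast h3
  · intro t
    rw [hh_line, pp_line, ← Finset.sum_sub_distrib, Polynomial.eval_finsetSum]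
    rw [← Finset.add_sum_erase T.powerset _ (Finset.mem_powerset_self T)]
    have h1 : hh z (T \ T) η = 1 := by
      rw [sdiff_self, hh]
      simp
    have h2 : ∏ p ∈ T \ T, lf z p.1 η = 1 := by
      rw [sdiff_self]
      simp
    rw [h1, h2, sub_self, zero_add]
    refine Finset.sum_congr rfl ?_
    intro S _
    rw [Polynomial.eval_mul, Polynomial.eval_C, Polynomial.eval_pow, Polynomial.eval_X]
    ring

/-- `x ↦ lf z v x` -/
def lfL {r : ℕ} (z : Matrix (Fin r) (Fin r) ℝ) (v : Fin r → ℤ) : Module.Dual ℝ (Fin r → ℝ) where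
  toFun := lf z v
  map_add' x y := by
    rw [lf_eq, lf_eq, lf_eq, ← Finset.sum_add_distrib]
    refine Finset.sum_congr rfl ?_
    intro l _
    rw [Pi.add_apply]
    ring
  map_smul' a x := by
    rw [lf_eq, lf_eq, RingHom.id_apply, smul_eq_mul, Finset.mul_sum]
    refine Finset.sum_congr rfl ?_
    intro l _
    rw [Pi.smul_apply, smul_eq_mul]
    ring

theorem lf_zv {r : ℕ} {Φ : RT r} {z : Matrix (Fin r) (Fin r) ℝ} (hz : ZM Φ z)
    (v w : Fin r → ℤ) : lf z v (zv z w) = ip Φ v w / 2 := by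
  rw [lf_eq, zv_dot hz]

theorem exv {r : ℕ} {Φ : RT r} {B : Matrix (Fin r) (Fin r) ℤ} (hI : IRD Φ B) (hW : WFF Φ B)
    {z : Matrix (Fin r) (Fin r) ℝ} (hz : ZM Φ z) (hQ : QD Φ) (η : Fin r → ℝ)
    (hη : ∀ p ∈ pos Φ, lf z p.1 η ≠ 0) :
    ∃ x : Fin r → ℝ, (∀ p ∈ pos Φ, lf z p.1 x ≠ 0) ∧ ∀ p ∈ pos Φ, ∀ q ∈ pos Φ, p ≠ q →
      lf z p.1 η * lf z q.1 x - lf z q.1 η * lf z p.1 x ≠ 0 := by
  classical
  obtain ⟨x, hx⟩ := Module.Dual.exists_forall_ne_zero_of_forall_exists (K := ℝ)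
    (ι := {p // p ∈ pos Φ} ⊕ {pq : {p // p ∈ pos Φ} × {p // p ∈ pos Φ} // pq.1 ≠ pq.2})
    (fun i => match i with
      | Sum.inl p => lfL z p.1.1
      | Sum.inr pq => lf z pq.1.1.1.1 η • lfL z pq.1.2.1.1 - lf z pq.1.2.1.1 η • lfL z pq.1.1.1.1)
    (by
      intro i
      rcases i with p | ⟨⟨p, q⟩, hpq⟩
      · refine ⟨zv z p.1.1, ?_⟩
        change lf z p.1.1 (zv z p.1.1) ≠ 0
        rw [lf_zv hz]
        have := hQ.pos _ (hW.ppos _ p.2).1
        exact (by positivity)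
      · by_contra hcon
        push Not at hcon
        have h1 : ∀ j, lf z p.1.1 η * (ip Φ q.1.1 (Pi.single j 1) / 2) =
            lf z q.1.1 η * (ip Φ p.1.1 (Pi.single j 1) / 2) := by
          intro j
          have h2 := hcon (zv z (Pi.single j 1))
          have h3 : lf z p.1.1 η * lf z q.1.1 (zv z (Pi.single j 1)) -
              lf z q.1.1 η * lf z p.1.1 (zv z (Pi.single j 1)) = 0 := h2
          rw [lf_zv hz, lf_zv hz] at h3
          linarith
        have hp := hW.ppos _ p.2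
        have hq := hW.ppos _ q.2
        have kp := hQ.pos _ hp.1
        have kq := hQ.pos _ hq.1
        have h4 : ∀ j, lf z p.1.1 η * ip Φ q.1.1 q.1.1 * (q.1.2 j : ℝ) =
            lf z q.1.1 η * ip Φ p.1.1 p.1.1 * (p.1.2 j : ℝ) := by
          intro j
          have h5 := hQ.rt _ hp.1 (Pi.single j 1)
          have h6 := hQ.rt _ hq.1 (Pi.single j 1)
          rw [dotProduct_single, mul_one] at h5 h6
          have h7 := h1 j
          linear_combination 4 * h7 - lf z p.1.1 η * h6 + lf z q.1.1 η * h5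
        have ha : lf z p.1.1 η * ip Φ q.1.1 q.1.1 ≠ 0 := mul_ne_zero (hη _ p.2) kq.ne'
        obtain ⟨i, hi⟩ := Function.ne_iff.1 hp.2.2.1
        have h8 : ∀ j, p.1.2 i * q.1.2 j = q.1.2 i * p.1.2 j := by
          intro j
          have h9 : (lf z p.1.1 η * ip Φ q.1.1 q.1.1) * ((p.1.2 i : ℝ) * (q.1.2 j : ℝ)) =
              (lf z p.1.1 η * ip Φ q.1.1 q.1.1) * ((q.1.2 i : ℝ) * (p.1.2 j : ℝ)) := by
            linear_combination (p.1.2 i : ℝ) * h4 j - (p.1.2 j : ℝ) * h4 i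
          exact_mod_cast mul_left_cancel₀ ha h9
        have h10 := hI.red q.1 hq.1 p.1 hp.1 (p.1.2 i) (q.1.2 i) hi (Or.inr (by
          ext j
          simp only [Pi.smul_apply, smul_eq_mul]
          exact h8 j))
        rcases h10 with h11 | h11
        · exact hpq (Subtype.ext h11)
        · refine (hW.dich _ hq.1).1 q.2 ?_
          rw [← h11]
          exact p.2)
  refine ⟨x, ?_, ?_⟩
  · intro p hp
    exact hx (Sum.inl ⟨p, hp⟩)
  · intro p hp q hq hpq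
    exact hx (Sum.inr ⟨(⟨p, hp⟩, ⟨q, hq⟩), fun h => hpq (congrArg Subtype.val h)⟩)

theorem wall {r : ℕ} {Φ : RT r} {B : Matrix (Fin r) (Fin r) ℤ} (hI : IRD Φ B) (hW : WFF Φ B)
    {z : Matrix (Fin r) (Fin r) ℝ} (hz : ZM Φ z) (hQ : QD Φ)
    (hG : WM Φ = Submonoid.closure {w | ∃ i, w = rf (B i, Pi.single i 1)})
    (p : (Fin r → ℤ) × (Fin r → ℤ)) (hp : p ∈ pos Φ) (η : Fin r → ℝ) (h0 : lf z p.1 η = 0) :
    hh z (pos Φ) η = 0 := by
  have hp' := (hW.ppos _ hp).1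
  have hu : ∑ l, zv z p.1 l * zv z p.1 l ≠ 0 := by
    rw [zv_dot hz]
    have := hQ.pos _ hp'
    exact (by positivity)
  have h1 := R_int hu (fun ξ => ∏ q ∈ pos Φ, lf z q.1 (ξ + η))
  have h2 : ∀ ξ : Fin r → ℝ, ∏ q ∈ pos Φ, lf z q.1 (R (zv z p.1) ξ + η) =
      -∏ q ∈ pos Φ, lf z q.1 (ξ + η) := by
    intro ξ
    have h3 : R (zv z p.1) ξ + η = R (zv z p.1) (ξ + η) := by
      have h4 : R (zv z p.1) (ξ + η) = R (zv z p.1) ξ + R (zv z p.1) η :=
        (RL (zv z p.1)).map_add ξ η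
      have h5 : R (zv z p.1) η = η := by
        rw [R, ← lf_eq, h0]
        simp
      rw [h4, h5]
    rw [h3, anti hI hW hz hQ hG p hp']
  simp only [h2] at h1
  rw [integral_neg] at h1
  have h6 : hh z (pos Φ) η = ∫ ξ, ∏ q ∈ pos Φ, lf z q.1 (ξ + η) ∂(ga r) := rfl
  rw [← h6] at h1
  linarith

theorem pp_zero {r : ℕ} (z : Matrix (Fin r) (Fin r) ℝ) (T : Finset ((Fin r → ℤ) × (Fin r → ℤ)))
    (p : (Fin r → ℤ) × (Fin r → ℤ)) (hp : p ∈ T) (η : Fin r → ℝ) (h0 : lf z p.1 η = 0) :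
    ∏ q ∈ T, lf z q.1 η = 0 := Finset.prod_eq_zero hp h0

end HRM

open HRM LWB in
theorem t_HRM : M_HRM := by
  intro _ hGENS hQUAD _ r Φ B _ hI hW
  refine ⟨HRM.ex_root Φ, ?_⟩
  intro z hz η
  classical
  obtain ⟨_, _, hsym, _, _, _, hrt⟩ := hQUAD r Φ B hI hW
  have hQ : HRM.QD Φ := by
    refine ⟨?_, ?_, ?_⟩
    · intro v w
      unfold ip
      congr 1
      rw [dotProduct_mulVec, ← mulVec_transpose, hsym, dotProduct_comm]
    · intro p hp
      unfold ip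
      exact_mod_cast (hrt p hp).1
    · intro p hp l
      unfold ip
      exact_mod_cast (hrt p hp).2 l
  have hG := hGENS r Φ B hI hW
  change HRM.hh z (pos Φ) η = _
  by_cases h0 : ∃ p ∈ pos Φ, lf z p.1 η = 0
  · obtain ⟨p, hp, h0⟩ := h0
    rw [HRM.wall hI hW hz hQ hG p hp η h0, HRM.pp_zero z (pos Φ) p hp η h0]
  · push Not at h0
    obtain ⟨x, hx1, hx2⟩ := HRM.exv hI hW hz hQ η h0
    obtain ⟨D, hD1, hD2⟩ := HRM.diff z (pos Φ) η x
    have hD : D = 0 := by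
      refine Polynomial.eq_zero_of_degree_lt_of_eval_index_eq_zero
        (v := fun p : (Fin r → ℤ) × (Fin r → ℤ) => -(lf z p.1 η) / lf z p.1 x)
        (pos Φ) ?_ hD1 ?_
      · intro p hp q hq hpq
        by_contra hne
        refine hx2 p hp q hq hne ?_
        have h1 := hx1 p hp
        have h2 := hx1 q hq
        simp only at hpq
        rw [div_eq_div_iff h1 h2] at hpq
        linarith
      · intro p hp
        have h1 := hx1 p hp
        have h2 : lf z p.1 (η + (-(lf z p.1 η) / lf z p.1 x) • x) = 0 := by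
          rw [HRM.lf_line0, div_mul_cancel₀ _ h1]
          ring
        rw [← hD2, HRM.wall hI hW hz hQ hG p hp _ h2, HRM.pp_zero z (pos Φ) p hp _ h2, sub_zero]
    have h3 := hD2 0
    rw [hD, Polynomial.eval_zero, zero_smul, add_zero] at h3
    linarith

end

end STZ3
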