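import Pool.Agent.STZ3.StC3
import Pool.Agent.STZ3.HRM

/-!
# `SU(3)`, chain packets: module THG, the heat flow on the torus (helper12)
-/

namespace STZ3

open STZ LGR MeasureTheory Matrix Filter

open scoped ComplexConjugate Matrix Real Topology

noncomputable section

namespace THG

open LWB HRM ProbabilityTheory

open scoped Pointwise

theorem ga_prob (r : ℕ) : IsProbabilityMeasure (ga r) := by
  unfold ga
  infer_instance

theorem gy_cont {r : ℕ} (z : Matrix (Fin r) (Fin r) ℝ) (s : ℝ) : Continuous (gy z s) := by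
  unfold gy
  fun_prop

theorem gy_neg {r : ℕ} (z : Matrix (Fin r) (Fin r) ℝ) (s : ℝ) (ξ : Fin r → ℝ) :
    gy z s (-ξ) = -gy z s ξ := by
  funext j
  simp only [gy, Pi.neg_apply, neg_mul, Finset.sum_neg_distrib, mul_neg]

theorem dz_gy {r : ℕ} (z : Matrix (Fin r) (Fin r) ℝ) (s : ℝ) (m : Fin r → ℤ) (ξ : Fin r → ℝ) :
    dz m (gy z s ξ) = √(2 * s) / (2 * π) * ∑ l, ξ l * zv z m l := by
  unfold dz gy zv
  simp only [Finset.mul_sum]
  rw [Finset.sum_comm]
  refine Finset.sum_congr rfl fun l _ => Finset.sum_congr rfl fun i _ => ?_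
  ring

theorem dz_add {r : ℕ} (κ : Fin r → ℤ) (x y : Fin r → ℝ) : dz κ (x + y) = dz κ x + dz κ y := by
  unfold dz
  rw [← Finset.sum_add_distrib]
  refine Finset.sum_congr rfl fun i _ => ?_
  rw [Pi.add_apply]
  ring

theorem dz_cont {r : ℕ} (κ : Fin r → ℤ) : Continuous (dz κ) := by
  unfold dz
  fun_prop

/-- the characteristic function -/
theorem cf {r : ℕ} (w : Fin r → ℝ) (c : ℝ) :
    ∫ ξ, Complex.exp (((c * ∑ l, ξ l * w l : ℝ) : ℂ) * Complex.I) ∂(ga r) =
      ((Real.exp (-(c ^ 2 * (∑ l, w l * w l) / 2)) : ℝ) : ℂ) := by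
  have h1 : ∀ ξ : Fin r → ℝ, Complex.exp (((c * ∑ l, ξ l * w l : ℝ) : ℂ) * Complex.I) =
      ∏ l, Complex.exp (((c * w l : ℝ) : ℂ) * (ξ l : ℂ) * Complex.I) := by
    intro ξ
    rw [← Complex.exp_sum]
    congr 1
    push_cast
    rw [Finset.mul_sum, Finset.sum_mul]
    refine Finset.sum_congr rfl fun l _ => ?_
    ring
  simp only [h1]
  unfold ga
  rw [integral_fintype_prod_eq_prod
    (fun l (x : ℝ) => Complex.exp (((c * w l : ℝ) : ℂ) * (x : ℂ) * Complex.I))]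
  have h2 : ∀ l, ∫ x, Complex.exp (((c * w l : ℝ) : ℂ) * (x : ℂ) * Complex.I)
      ∂(gaussianReal 0 1) = Complex.exp (-(c ^ 2 * (w l * w l) / 2 : ℝ) : ℂ) := by
    intro l
    have h3 := charFun_gaussianReal (μ := 0) (v := 1) (c * w l)
    rw [charFun_apply_real] at h3
    rw [h3]
    congr 1
    push_cast
    ring
  simp only [h2]
  rw [← Complex.exp_sum, Complex.ofReal_exp]
  congr 1
  push_cast
  rw [Finset.sum_neg_distrib, Finset.mul_sum, Finset.sum_div]

theorem key {r : ℕ} {s : ℝ} (hs : 0 ≤ s) (w : Fin r → ℝ) (x : ℝ) :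
    ∫ ξ, eu (x + √(2 * s) / (2 * π) * ∑ l, ξ l * w l) ∂(ga r) =
      ((Real.exp (-(s * ∑ l, w l * w l)) : ℝ) : ℂ) * eu x := by
  have h1 : ∀ ξ : Fin r → ℝ, eu (x + √(2 * s) / (2 * π) * ∑ l, ξ l * w l) =
      eu x * Complex.exp (((√(2 * s) * ∑ l, ξ l * w l : ℝ) : ℂ) * Complex.I) := by
    intro ξ
    unfold eu
    rw [← Complex.exp_add]
    congr 1
    have hpi : (π : ℂ) ≠ 0 := by exact_mod_cast Real.pi_ne_zero
    push_cast
    field_simp
  simp only [h1]
  rw [integral_const_mul, cf, Real.sq_sqrt (by positivity), mul_comm]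
  congr 3
  ring

theorem eu_im (x : ℝ) : (eu (x / 2)).im = Real.sin (π * x) := by
  unfold eu
  have h : (2 * π * ((x / 2 : ℝ) : ℂ) * Complex.I) = ((π * x : ℝ) : ℂ) * Complex.I := by
    push_cast
    ring
  rw [h, Complex.exp_ofReal_mul_I_im]

theorem eu_norm (x : ℝ) : ‖eu x‖ = 1 := by
  unfold eu
  have h : (2 * π * (x : ℂ) * Complex.I) = ((2 * π * x : ℝ) : ℂ) * Complex.I := by
    push_cast
    ring
  rw [h, Complex.norm_exp_ofReal_mul_I]

theorem eu_cont : Continuous eu := by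
  unfold eu
  fun_prop

/-- reflection of the Gaussian measure -/
theorem ga_neg {r : ℕ} (F : (Fin r → ℝ) → ℝ) :
    ∫ ξ, F (-ξ) ∂(ga r) = ∫ ξ, F ξ ∂(ga r) := by
  rw [int_eq, int_eq, ← integral_neg_eq_self]
  refine integral_congr_ae (ae_of_all _ fun ξ => ?_)
  simp only [neg_neg]
  congr 1
  refine Finset.prod_congr rfl fun i _ => ?_
  simp only [gaussianPDFReal, Pi.neg_apply, sub_zero, neg_sq]

theorem per_int {r : ℕ} (g : (Fin r → ℝ) → ℝ)
    (hg : ∀ (θ : Fin r → ℝ) (n : Fin r → ℤ), g (θ + fun j => (n j : ℝ)) = g θ) (ζ : Fin r → ℝ) :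
    ∫ θ in Set.Icc (0 : Fin r → ℝ) 1, g (θ + ζ) = ∫ θ in Set.Icc (0 : Fin r → ℝ) 1, g θ := by
  set b := Pi.basisFun ℝ (Fin r) with hb
  have hF := ZSpan.isAddFundamentalDomain' b (volume : Measure (Fin r → ℝ))
  have hs : ZSpan.fundamentalDomain b = Set.pi Set.univ fun _ => Set.Ico (0 : ℝ) 1 :=
    ZSpan.fundamentalDomain_pi_basisFun
  have hae : ZSpan.fundamentalDomain b =ᵐ[volume] Set.Icc (0 : Fin r → ℝ) 1 := by
    rw [hs]
    exact Measure.univ_pi_Ico_ae_eq_Icc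
  rw [← setIntegral_congr_set hae, ← setIntegral_congr_set hae]
  have hT := hF.vadd_of_comm (G' := Fin r → ℝ) ζ
  have hcn : Countable (Submodule.span ℤ (Set.range b)).toAddSubgroup :=
    inferInstanceAs (Countable (Submodule.span ℤ (Set.range b)))
  have h1 : ∫ θ in ζ +ᵥ ZSpan.fundamentalDomain b, g θ =
      ∫ θ in ZSpan.fundamentalDomain b, g θ := by
    refine hT.setIntegral_eq hF ?_
    rintro ⟨x, hx⟩ θ
    have hx2 : ∃ n : Fin r → ℤ, x = fun j => (n j : ℝ) := by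
      have h3 : x ∈ Submodule.span ℤ (Set.range (Pi.basisFun ℝ (Fin r))) := hx
      rw [Module.Basis.mem_span_iff_repr_mem] at h3
      choose n hn using h3
      refine ⟨n, ?_⟩
      funext j
      have h4 := hn j
      simpa using h4.symm
    obtain ⟨n, hn⟩ := hx2
    show g (x + θ) = g θ
    rw [hn, add_comm]
    exact hg θ n
  rw [← h1]
  have h2 := (measurePreserving_vadd ζ (volume : Measure (Fin r → ℝ))).setIntegral_image_emb
    (measurableEmbedding_const_vadd ζ) g (ZSpan.fundamentalDomain b)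
  rw [Set.image_vadd] at h2
  rw [h2]
  refine integral_congr_ae (ae_of_all _ fun θ => ?_)
  simp only
  rw [vadd_eq_add, add_comm]

theorem bint {r : ℕ} (F : (Fin r → ℝ) → ℝ) (hF : Continuous F) (hb : ∃ C, ∀ θ, |F θ| ≤ C) :
    Integrable F (ga r) := by
  have := ga_prob r
  obtain ⟨C, hC⟩ := hb
  exact Integrable.of_bound hF.aestronglyMeasurable C (ae_of_all _ fun ξ => by
    rw [Real.norm_eq_abs]
    exact hC ξ)

theorem swap {r : ℕ} (F : (Fin r → ℝ) → (Fin r → ℝ) → ℝ) (hF : Continuous (Function.uncurry F))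
    (hb : ∃ C, ∀ θ ξ, |F θ ξ| ≤ C) :
    ∫ θ in Set.Icc (0 : Fin r → ℝ) 1, ∫ ξ, F θ ξ ∂(ga r) =
      ∫ ξ, (∫ θ in Set.Icc (0 : Fin r → ℝ) 1, F θ ξ) ∂(ga r) := by
  have := ga_prob r
  have : IsFiniteMeasure ((volume : Measure (Fin r → ℝ)).restrict (Set.Icc 0 1)) :=
    ⟨by
      rw [Measure.restrict_apply_univ]
      exact isCompact_Icc.measure_lt_top⟩
  obtain ⟨C, hC⟩ := hb
  refine integral_integral_swap ?_
  exact Integrable.of_bound hF.aestronglyMeasurable C (ae_of_all _ fun p => by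
    rw [Real.norm_eq_abs]
    exact hC p.1 p.2)

theorem adj {r : ℕ} (z : Matrix (Fin r) (Fin r) ℝ) (s : ℝ) (f g : (Fin r → ℝ) → ℝ)
    (hf : Continuous f) (hfb : ∃ C, ∀ θ, |f θ| ≤ C) (hg : Continuous g)
    (hgb : ∃ C, ∀ θ, |g θ| ≤ C)
    (hp : ∀ (n : Fin r → ℤ) (θ θ' : Fin r → ℝ),
      f (θ + fun i => (n i : ℝ)) * g (θ' + fun i => (n i : ℝ)) = f θ * g θ') :
    ∫ θ in Set.Icc (0 : Fin r → ℝ) 1, f θ * TH z s g θ =
      ∫ θ in Set.Icc (0 : Fin r → ℝ) 1, TH z s f θ * g θ := by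
  obtain ⟨Cf, hCf⟩ := hfb
  obtain ⟨Cg, hCg⟩ := hgb
  have hgy := gy_cont z s
  have hb : ∀ x y : Fin r → ℝ, |f x * g y| ≤ Cf * Cg := by
    intro x y
    rw [abs_mul]
    exact mul_le_mul (hCf x) (hCg y) (abs_nonneg _) ((abs_nonneg _).trans (hCf x))
  have e1 : ∀ θ, f θ * TH z s g θ = ∫ ξ, f θ * g (θ + gy z s ξ) ∂(ga r) := by
    intro θ
    rw [integral_const_mul]
    rfl
  have e2 : ∀ θ, TH z s f θ * g θ = ∫ ξ, f (θ + gy z s ξ) * g θ ∂(ga r) := by
    intro θ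
    rw [integral_mul_const]
    rfl
  simp only [e1, e2]
  rw [swap (fun θ ξ => f θ * g (θ + gy z s ξ)) (by
      unfold Function.uncurry
      fun_prop) ⟨Cf * Cg, fun θ ξ => hb _ _⟩,
    swap (fun θ ξ => f (θ + gy z s ξ) * g θ) (by
      unfold Function.uncurry
      fun_prop) ⟨Cf * Cg, fun θ ξ => hb _ _⟩]
  rw [← ga_neg (fun ξ => ∫ θ in Set.Icc (0 : Fin r → ℝ) 1, f (θ + gy z s ξ) * g θ)]
  refine integral_congr_ae (ae_of_all _ fun ξ => ?_)
  simp only
  have h1 := per_int (fun θ => f θ * g (θ + gy z s ξ)) (by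
    intro θ n
    have h := hp n θ (θ + gy z s ξ)
    rw [show θ + (fun j => (n j : ℝ)) + gy z s ξ = θ + gy z s ξ + fun j => (n j : ℝ) by
      rw [add_assoc, add_assoc, add_comm (fun j => (n j : ℝ)) (gy z s ξ)]]
    exact h) (-gy z s ξ)
  rw [← h1]
  refine integral_congr_ae (ae_of_all _ fun θ => ?_)
  simp only
  rw [gy_neg, add_assoc, neg_add_cancel, add_zero]

theorem EG.pow {r : ℕ} {G : (Fin r → ℝ) → ℝ} (h : EG G) (k : ℕ) : EG (fun ξ => G ξ ^ k) := by
  induction k with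
  | zero => simpa using EG.const (r := r) 1
  | succ k ih =>
    simp only [pow_succ]
    exact ih.mul h

theorem EG.nn {r : ℕ} : EG (fun ξ : Fin r → ℝ => ∑ i, |ξ i|) := by
  refine ⟨by fun_prop, 1, 1, zero_le_one, zero_le_one, fun ξ => ?_⟩
  rw [one_mul, one_mul, abs_of_nonneg (Finset.sum_nonneg fun i _ => abs_nonneg _)]
  have := Real.add_one_le_exp (∑ i, |ξ i|)
  linarith

/-- the displacement is at most `√s K ∑ |ξ i|` -/
theorem gy_bd {r : ℕ} (z : Matrix (Fin r) (Fin r) ℝ) : ∃ K : ℝ, 0 ≤ K ∧ ∀ s ξ, 0 ≤ s →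
    ∑ i, |gy z s ξ i| ≤ √s * K * ∑ i, |ξ i| := by
  refine ⟨√2 / (2 * π) * ∑ i, ∑ l, |z l i|, by positivity, fun s ξ hs => ?_⟩
  have h1 : ∀ i, |gy z s ξ i| ≤ √s * (√2 / (2 * π)) * ((∑ l, |z l i|) * ∑ l, |ξ l|) := by
    intro i
    unfold gy
    rw [abs_mul, Real.sqrt_mul (by norm_num) s]
    have h2 : |√2 * √s / (2 * π)| = √s * (√2 / (2 * π)) := by
      rw [abs_of_nonneg (by positivity)]
      ring
    rw [h2]
    exact mul_le_mul_of_nonneg_left (lin_bd ξ (fun l => z l i)) (by positivity)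
  calc ∑ i, |gy z s ξ i| ≤ ∑ i, √s * (√2 / (2 * π)) * ((∑ l, |z l i|) * ∑ l, |ξ l|) :=
        Finset.sum_le_sum fun i _ => h1 i
    _ = √s * (√2 / (2 * π) * ∑ i, ∑ l, |z l i|) * ∑ i, |ξ i| := by
        rw [← Finset.mul_sum, ← Finset.sum_mul]
        ring

theorem tail {r : ℕ} (z : Matrix (Fin r) (Fin r) ℝ) (j : ℕ) (hj : 1 ≤ j) :
    ∃ C : ℝ, 0 ≤ C ∧ ∀ s R : ℝ, 0 ≤ s → 0 < R →
    ∫ ξ in {ξ | ∃ i, R < |gy z s ξ i|}, (1 + (∑ i, |gy z s ξ i|) / R) ∂(ga r) ≤
      C * (s / R ^ 2) ^ j := by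
  have := ga_prob r
  obtain ⟨K, hK, hbd⟩ := gy_bd z
  have hI : Integrable (fun ξ : Fin r → ℝ => (∑ i, |ξ i|) ^ (2 * j)) (ga r) :=
    (EG.pow EG.nn (2 * j)).int
  have hI0 : 0 ≤ ∫ ξ : Fin r → ℝ, (∑ i, |ξ i|) ^ (2 * j) ∂(ga r) :=
    integral_nonneg fun ξ => pow_nonneg (Finset.sum_nonneg fun i _ => abs_nonneg _) _
  refine ⟨2 * K ^ (2 * j) * ∫ ξ : Fin r → ℝ, (∑ i, |ξ i|) ^ (2 * j) ∂(ga r),
    by positivity, fun s R hs hR => ?_⟩
  have hgc := gy_cont z s
  have hmeas : MeasurableSet {ξ : Fin r → ℝ | ∃ i, R < |gy z s ξ i|} := by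
    have : {ξ : Fin r → ℝ | ∃ i, R < |gy z s ξ i|} = ⋃ i, {ξ | R < |gy z s ξ i|} := by
      ext ξ
      simp
    rw [this]
    refine MeasurableSet.iUnion fun i => ?_
    refine measurableSet_lt measurable_const ?_
    exact ((continuous_apply i).comp hgc).abs.measurable
  have hpt : ∀ ξ ∈ {ξ : Fin r → ℝ | ∃ i, R < |gy z s ξ i|},
      1 + (∑ i, |gy z s ξ i|) / R ≤
        2 * K ^ (2 * j) * (s / R ^ 2) ^ j * (∑ i, |ξ i|) ^ (2 * j) := by
    rintro ξ ⟨i, hi⟩
    have h1 : R < ∑ i, |gy z s ξ i| :=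
      hi.trans_le (Finset.single_le_sum (f := fun i => |gy z s ξ i|)
        (fun i _ => abs_nonneg _) (Finset.mem_univ i))
    have h2 : 1 ≤ (∑ i, |gy z s ξ i|) / R := by
      rw [le_div_iff₀ hR, one_mul]
      exact h1.le
    have h3 : (∑ i, |gy z s ξ i|) / R ≤ √s * K * (∑ i, |ξ i|) / R :=
      div_le_div_of_nonneg_right (hbd s ξ hs) hR.le
    have h4 : (∑ i, |gy z s ξ i|) / R ≤ ((∑ i, |gy z s ξ i|) / R) ^ (2 * j) :=
      le_self_pow₀ h2 (by omega)
    have h5 : ((∑ i, |gy z s ξ i|) / R) ^ (2 * j) ≤ (√s * K * (∑ i, |ξ i|) / R) ^ (2 * j) :=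
      pow_le_pow_left₀ (by positivity) h3 _
    have h6 : (√s * K * (∑ i, |ξ i|) / R) ^ (2 * j) =
        K ^ (2 * j) * (s / R ^ 2) ^ j * (∑ i, |ξ i|) ^ (2 * j) := by
      have h7 : (√s) ^ (2 * j) = s ^ j := by
        rw [pow_mul, Real.sq_sqrt hs]
      rw [div_pow, mul_pow, mul_pow, h7, div_pow, ← pow_mul]
      ring
    rw [h6] at h5
    linarith
  calc ∫ ξ in {ξ | ∃ i, R < |gy z s ξ i|}, (1 + (∑ i, |gy z s ξ i|) / R) ∂(ga r)
      ≤ ∫ ξ in {ξ | ∃ i, R < |gy z s ξ i|},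
        2 * K ^ (2 * j) * (s / R ^ 2) ^ j * (∑ i, |ξ i|) ^ (2 * j) ∂(ga r) := by
        refine setIntegral_mono_on ?_ ?_ hmeas hpt
        · refine Integrable.mono' (hI.const_mul (2 * K ^ (2 * j) * (s / R ^ 2) ^ j)).integrableOn
            ?_ ?_
          · refine Continuous.aestronglyMeasurable ?_
            have : Continuous fun ξ => ∑ i, |gy z s ξ i| :=
              continuous_finsetSum _ fun i _ => ((continuous_apply i).comp hgc).abs
            fun_prop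
          · refine (ae_restrict_iff' hmeas).2 (ae_of_all _ fun ξ hξ => ?_)
            rw [Real.norm_eq_abs, abs_of_nonneg (by positivity)]
            exact hpt ξ hξ
        · exact (hI.const_mul _).integrableOn
    _ ≤ ∫ ξ, 2 * K ^ (2 * j) * (s / R ^ 2) ^ j * (∑ i, |ξ i|) ^ (2 * j) ∂(ga r) := by
        refine setIntegral_le_integral (hI.const_mul _) (ae_of_all _ fun ξ => ?_)
        have : 0 ≤ ∑ i, |ξ i| := Finset.sum_nonneg fun i _ => abs_nonneg _
        positivity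
    _ = _ := by
        rw [integral_const_mul]
        ring

theorem QF2 (hQ : S_QUAD) {r : ℕ} {Φ : RT r} {B : Matrix (Fin r) (Fin r) ℤ} (hI : IRD Φ B)
    (hW : WFF Φ B) (l : Fin r → ℤ) : ip Φ l l = 2 * ((rd Φ).Q l : ℝ) := by
  have h := (hQ r Φ B hI hW).2.2.2.1 l
  unfold ip
  rw [h]
  push_cast
  ring

theorem ip_symm (hQ : S_QUAD) {r : ℕ} {Φ : RT r} {B : Matrix (Fin r) (Fin r) ℤ} (hI : IRD Φ B)
    (hW : WFF Φ B) (l m : Fin r → ℤ) : ip Φ l m = ip Φ m l := by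
  have h := (hQ r Φ B hI hW).2.2.1
  unfold ip
  rw [dotProduct_mulVec, ← mulVec_transpose, h, dotProduct_comm]

theorem zv_zero {r : ℕ} (z : Matrix (Fin r) (Fin r) ℝ) (l : Fin r) : zv z 0 l = 0 := by
  simp [zv]

end THG

open THG LWB HRM in
theorem t_THG : M_THG := by
  intro hQ r Φ B hr hI hW z hz
  have := ga_prob r
  have hbi := fun (s : ℝ) (f : (Fin r → ℝ) → ℝ) (θ : Fin r → ℝ) (hf : Continuous f)
      (hb : ∃ C, ∀ θ, |f θ| ≤ C) =>
    bint (fun ξ => f (θ + gy z s ξ)) (hf.comp (by have := gy_cont z s; fun_prop))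
      (by
        obtain ⟨C, hC⟩ := hb
        exact ⟨C, fun ξ => hC _⟩)
  have hsym := ip_symm hQ hI hW
  have hhalf : ∀ s : ℝ, 0 ≤ s → ∀ (m : Fin r → ℤ), ∀ a ∈ pos Φ, ∀ θ : Fin r → ℝ,
    ∫ ξ, eu (dz m (θ + gy z s ξ) + dz a.1 (θ + gy z s ξ) / 2) ∂(ga r) =
      ((Real.exp (-(s * ((rd Φ).Q m + ip Φ a.1 m / 2 + (rd Φ).Q a.1 / 4))) : ℝ) : ℂ) *
        eu (dz m θ + dz a.1 θ / 2) := by
    intro s hs m a ha θ
    have h1 := key hs (fun l => zv z m l + zv z a.1 l / 2) (dz m θ + dz a.1 θ / 2)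
    have h2 : ∀ ξ : Fin r → ℝ, dz m (θ + gy z s ξ) + dz a.1 (θ + gy z s ξ) / 2 =
        dz m θ + dz a.1 θ / 2 + √(2 * s) / (2 * π) *
          ∑ l, ξ l * (zv z m l + zv z a.1 l / 2) := by
      intro ξ
      rw [dz_add, dz_add, dz_gy, dz_gy]
      have h3 : ∑ l, ξ l * (zv z m l + zv z a.1 l / 2) =
          ∑ l, ξ l * zv z m l + (∑ l, ξ l * zv z a.1 l) / 2 := by
        rw [Finset.sum_div, ← Finset.sum_add_distrib]
        refine Finset.sum_congr rfl fun l _ => ?_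
        ring
      rw [h3]
      ring
    simp only [h2]
    rw [h1]
    have h4 : ∑ l, (zv z m l + zv z a.1 l / 2) * (zv z m l + zv z a.1 l / 2) =
        (rd Φ).Q m + ip Φ a.1 m / 2 + (rd Φ).Q a.1 / 4 := by
      have e1 := zv_dot hz m m
      have e2 := zv_dot hz a.1 a.1
      have e3 := zv_dot hz a.1 m
      rw [QF2 hQ hI hW] at e1 e2
      have e4 : ∑ l, (zv z m l + zv z a.1 l / 2) * (zv z m l + zv z a.1 l / 2) =
          ∑ l, zv z m l * zv z m l + ∑ l, zv z m l * zv z a.1 l +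
            (∑ l, zv z a.1 l * zv z a.1 l) / 4 := by
        rw [Finset.sum_div, ← Finset.sum_add_distrib, ← Finset.sum_add_distrib]
        refine Finset.sum_congr rfl fun l _ => ?_
        ring
      rw [e4, e1, e2, e3]
      ring
    rw [h4]
  refine ⟨?_, ?_, ?_, hhalf, ?_, ?_, ?_, tail z⟩
  · -- cont
    intro s f hf hb
    obtain ⟨C, hC⟩ := hb
    unfold TH
    have hg := gy_cont z s
    refine continuous_of_dominated (bound := fun _ => C) ?_ ?_ ?_ ?_
    · intro θ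
      exact (hf.comp (by fun_prop)).aestronglyMeasurable
    · intro θ
      exact ae_of_all _ fun ξ => by
        rw [Real.norm_eq_abs]
        exact hC _
    · exact integrable_const C
    · exact ae_of_all _ fun ξ => hf.comp (by fun_prop)
  · -- int
    intro s f θ hf hb
    exact hbi s f θ hf hb
  · -- expo
    intro s hs m θ
    have h1 := key hs (zv z m) (dz m θ)
    have e1 := zv_dot hz m m
    rw [QF2 hQ hI hW] at e1
    have h2 : ∀ ξ : Fin r → ℝ, dz m (θ + gy z s ξ) =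
        dz m θ + √(2 * s) / (2 * π) * ∑ l, ξ l * zv z m l := by
      intro ξ
      rw [dz_add, dz_gy]
    simp only [h2]
    rw [h1, e1]
    congr 3
    ring
  · -- al
    intro s hs a ha θ
    have h1 := hhalf s hs 0 a ha θ
    have h0 : ∀ θ : Fin r → ℝ, dz 0 θ = 0 := by
      intro θ
      simp [dz]
    have hQ0 : ((rd Φ).Q 0 : ℝ) = 0 := by
      have := QF2 hQ hI hW 0
      unfold ip at this
      rw [zero_dotProduct] at this
      push_cast at this
      linarith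
    have hi0 : ip Φ a.1 0 = 0 := by
      unfold ip
      rw [mulVec_zero, dotProduct_zero]
      simp
    simp only [h0, zero_add, hQ0, hi0, zero_div] at h1
    have hint : Integrable (fun ξ => eu (dz a.1 (θ + gy z s ξ) / 2)) (ga r) := by
      refine Integrable.of_bound (C := 1) ?_ (ae_of_all _ fun ξ => by rw [eu_norm])
      refine Continuous.aestronglyMeasurable (eu_cont.comp ?_)
      have hg := gy_cont z s
      have hd := dz_cont (r := r) a.1
      fun_prop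
    have h2 := Complex.imCLM.integral_comp_comm hint
    simp only [Complex.imCLM_apply] at h2
    rw [h1] at h2
    simp only [eu_im] at h2
    rw [Complex.im_ofReal_mul] at h2
    unfold TH
    unfold al
    rw [h2, eu_im]
  · -- adj
    intro s f g hf hfb hg hgb hp
    exact adj z s f g hf hfb hg hgb hp
  · -- sym
    intro s a ha f hf hb
    have hpp := hW.ppos a ha
    have h4 := (hQ r Φ B hI hW).2.2.2.2.2.2 a hpp.1
    have hip : 0 < ip Φ a.1 a.1 := by
      unfold ip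
      exact_mod_cast h4.1
    have hu : ∑ l, zv z a.1 l * zv z a.1 l = ip Φ a.1 a.1 / 2 := zv_dot hz a.1 a.1
    have hu0 : ∑ l, zv z a.1 l * zv z a.1 l ≠ 0 := by
      rw [hu]
      positivity
    rw [← R_int hu0 (fun ξ => f (gy z s ξ))]
    refine integral_congr_ae (ae_of_all _ fun ξ => ?_)
    simp only
    congr 1
    funext j
    unfold ar
    rw [dz_gy]
    have h5 : ∑ l, zv z a.1 l * z l j = (a.2 j : ℝ) * ip Φ a.1 a.1 / 4 := by
      have h6 : ∑ l, zv z (Pi.single j 1) l * zv z a.1 l = ip Φ a.1 (Pi.single j 1) / 2 :=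
        zv_dot hz a.1 (Pi.single j 1)
      have h7 : ∀ l, zv z (Pi.single j 1) l = z l j := by
        intro l
        unfold zv
        rw [Finset.sum_eq_single j]
        · simp
        · intro b _ hb
          rw [Pi.single_eq_of_ne hb]
          simp
        · intro h
          exact absurd (Finset.mem_univ j) h
      simp only [h7] at h6
      have h8 := h4.2 (Pi.single j 1)
      have h9 : 2 * ip Φ a.1 (Pi.single j 1) = (a.2 j : ℝ) * ip Φ a.1 a.1 := by
        have h10 : a.2 ⬝ᵥ (Pi.single j 1 : Fin r → ℤ) = a.2 j := by simp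
        rw [h10] at h8
        unfold ip
        exact_mod_cast h8
      calc ∑ l, zv z a.1 l * z l j = ∑ l, z l j * zv z a.1 l :=
            Finset.sum_congr rfl fun l _ => mul_comm _ _
        _ = ip Φ a.1 (Pi.single j 1) / 2 := h6
        _ = _ := by linarith
    unfold gy
    rw [R_dot, hu, h5]
    have hne := hip.ne'
    simp only [Int.cast_zero, sub_zero]
    field_simp
    ring

end

end STZ3
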