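import Pool.Agent.STZ3.StC3

/-!
# TLE: tails of the heat flow on the torus
-/

namespace STZ3

open STZ LGR MeasureTheory Matrix Filter

open scoped ComplexConjugate Matrix Real Topology

noncomputable section

namespace TLE

variable {r : ℕ}

lemma dz_add (m : Fin r → ℤ) (x y : Fin r → ℝ) : dz m (x + y) = dz m x + dz m y := by
  simp [dz, mul_add, Finset.sum_add_distrib]

lemma dz_dir (m b : Fin r → ℤ) (w : ℝ) : dz m (fun i => w * (b i : ℝ)) = w * ((b ⬝ᵥ m : ℤ) : ℝ) := by
  unfold dz dotProduct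
  push_cast
  rw [Finset.mul_sum]
  exact Finset.sum_congr rfl fun i _ => by ring

lemma dz_cont (m : Fin r → ℤ) : Continuous (dz m) := by
  unfold dz
  fun_prop

lemma gy_cont (z : Matrix (Fin r) (Fin r) ℝ) (s : ℝ) : Continuous (gy z s) := by
  unfold gy
  fun_prop

instance ga_prob (r : ℕ) : IsProbabilityMeasure (ga r) := by
  unfold ga; infer_instance

lemma int_coord (z : Matrix (Fin r) (Fin r) ℝ) (s : ℝ) (i : Fin r) :
    Integrable (fun ξ => gy z s ξ i) (ga r) := by
  unfold gy ga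
  refine Integrable.const_mul (integrable_finsetSum _ fun l _ => ?_) _
  have h1 : Integrable (fun x : ℝ => x) (ProbabilityTheory.gaussianReal 0 1) :=
    memLp_one_iff_integrable.1 (ProbabilityTheory.memLp_id_gaussianReal 1)
  exact (integrable_comp_eval (μ := fun _ : Fin r => ProbabilityTheory.gaussianReal 0 1)
    (i := l) h1).mul_const _

lemma int_sum (z : Matrix (Fin r) (Fin r) ℝ) (s R : ℝ) :
    Integrable (fun ξ => 1 + (∑ i, |gy z s ξ i|) / R) (ga r) := by
  refine (integrable_const _).add (Integrable.div_const (integrable_finsetSum _ fun i _ => ?_) _)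
  exact (int_coord z s i).abs

lemma sin_shift (u v : ℝ) (k : ℤ) : |Real.sin (π * (u - v))| ≤ π * (|u - k| + |v|) := by
  have h1 : Real.sin (π * (u - v)) = (-1) ^ k * Real.sin (π * (u - k - v)) := by
    have e : π * (u - v) = π * (u - k - v) + k * π := by ring
    rw [e, Real.sin_add_int_mul_pi]
  have h2 : |((-1 : ℝ)) ^ k| = 1 := by rw [abs_zpow]; simp
  rw [h1, abs_mul, h2, one_mul]
  refine (Real.abs_sin_le_abs).trans ?_
  rw [abs_mul, abs_of_pos Real.pi_pos]
  exact mul_le_mul_of_nonneg_left (abs_sub _ _) Real.pi_pos.le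

lemma two_nd (u : ℝ) : 2 * |u - round u| ≤ |Real.sin (π * u)| := by
  have h1 : Real.sin (π * u) = (-1) ^ (round u) * Real.sin (π * (u - round u)) := by
    have e : π * u = π * (u - round u) + (round u : ℤ) * π := by ring
    conv_lhs => rw [e]
    rw [Real.sin_add_int_mul_pi]
  have h2 : |((-1 : ℝ)) ^ (round u)| = 1 := by rw [abs_zpow]; simp
  rw [h1, abs_mul, h2, one_mul]
  have h3 : |π * (u - round u)| ≤ π / 2 := by
    rw [abs_mul, abs_of_pos Real.pi_pos]
    have := abs_sub_round u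
    nlinarith [Real.pi_pos]
  have h4 := Real.mul_abs_le_abs_sin h3
  rw [abs_mul, abs_of_pos Real.pi_pos] at h4
  have e : 2 / π * (π * |u - round u|) = 2 * |u - round u| := by
    field_simp
  rwa [e] at h4

/-- pointwise bound -/
lemma point {u v A₁ S R m L c Ca f₀ f₁ : ℝ} (hA : 0 ≤ A₁) (hS : 0 ≤ S) (hm : 0 < m) (hL : 0 ≤ L)
    (hc : 0 < c) (hCa : 1 ≤ Ca) (hR : R = c * m / Ca) (hv : |v| ≤ A₁ * S) (h0 : |f₀| ≤ 1)
    (h2 : |f₁ - f₀| ≤ 2) (hd : |f₁ - f₀| ≤ L * |u - round u| / m) :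
    |(Real.sin (π * (u + v)) * f₀ + Real.sin (π * (u - v)) * f₁) / 2| ≤
      |Real.sin (π * u)| * (1 + π * (2 + A₁ * L * c)) * (1 + S / R) := by
  have hCa0 : 0 < Ca := by linarith
  have hR0 : 0 < R := by rw [hR]; positivity
  have e : (Real.sin (π * (u + v)) * f₀ + Real.sin (π * (u - v)) * f₁) / 2 =
      Real.sin (π * u) * Real.cos (π * v) * f₀ + Real.sin (π * (u - v)) * (f₁ - f₀) / 2 := by
    rw [mul_add, mul_sub, Real.sin_add, Real.sin_sub]; ring
  set w : ℝ := |u - round u| with hw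
  have hw0 : 0 ≤ w := abs_nonneg _
  have hsr : 0 ≤ S / R := by positivity
  have h3 : |Real.sin (π * u) * Real.cos (π * v) * f₀| ≤ |Real.sin (π * u)| := by
    rw [abs_mul, abs_mul]
    have h4 := Real.abs_cos_le_one (π * v)
    have h5 : |Real.cos (π * v)| * |f₀| ≤ 1 := mul_le_one₀ h4 (abs_nonneg _) h0
    calc |Real.sin (π * u)| * |Real.cos (π * v)| * |f₀|
        = |Real.sin (π * u)| * (|Real.cos (π * v)| * |f₀|) := by ring
      _ ≤ |Real.sin (π * u)| * 1 := mul_le_mul_of_nonneg_left h5 (abs_nonneg _)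
      _ = _ := mul_one _
  have h6 : |Real.sin (π * (u - v)) * (f₁ - f₀) / 2| ≤
      π * (w * (2 + A₁ * L * c)) * (1 + S / R) / 2 := by
    rw [abs_div, abs_mul, abs_two]
    have h7 := sin_shift u v (round u)
    have hπ := Real.pi_pos
    have h8 : w * |f₁ - f₀| ≤ w * 2 := mul_le_mul_of_nonneg_left h2 hw0
    have h9 : |v| * |f₁ - f₀| ≤ w * (A₁ * L * c) * (S / R) := by
      calc |v| * |f₁ - f₀| ≤ (A₁ * S) * (L * w / m) :=
            mul_le_mul hv hd (abs_nonneg _) (by positivity)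
        _ = w * (A₁ * L * (c / Ca)) * (S / R) := by
            rw [hR]; field_simp
        _ ≤ w * (A₁ * L * c) * (S / R) := by
            refine mul_le_mul_of_nonneg_right (mul_le_mul_of_nonneg_left
              (mul_le_mul_of_nonneg_left ?_ (by positivity)) hw0) hsr
            exact div_le_self hc.le hCa
    have h10 : |Real.sin (π * (u - v))| * |f₁ - f₀| ≤
        π * (w * (2 + A₁ * L * c)) * (1 + S / R) := by
      calc |Real.sin (π * (u - v))| * |f₁ - f₀| ≤ π * (w + |v|) * |f₁ - f₀| :=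
            mul_le_mul_of_nonneg_right h7 (abs_nonneg _)
        _ = π * (w * |f₁ - f₀| + |v| * |f₁ - f₀|) := by ring
        _ ≤ π * (w * 2 + w * (A₁ * L * c) * (S / R)) :=
            mul_le_mul_of_nonneg_left (add_le_add h8 h9) hπ.le
        _ ≤ π * (w * (2 + A₁ * L * c)) * (1 + S / R) := by
            have i1 : 0 ≤ π * (w * 2) * (S / R) := by positivity
            have i2 : 0 ≤ π * (w * (A₁ * L * c)) := by positivity
            nlinarith
    linarith
  have h11 := two_nd u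
  rw [← hw] at h11
  rw [e]
  refine (abs_add_le _ _).trans ?_
  have h12 : π * (w * (2 + A₁ * L * c)) * (1 + S / R) / 2 ≤
      |Real.sin (π * u)| * (π * (2 + A₁ * L * c)) * (1 + S / R) := by
    have h13 : π * (w * (2 + A₁ * L * c)) / 2 ≤ |Real.sin (π * u)| * (π * (2 + A₁ * L * c)) := by
      have hq : 0 ≤ π * (2 + A₁ * L * c) := by positivity
      have h14 : w / 2 ≤ |Real.sin (π * u)| := by linarith
      calc π * (w * (2 + A₁ * L * c)) / 2 = w / 2 * (π * (2 + A₁ * L * c)) := by ring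
        _ ≤ _ := mul_le_mul_of_nonneg_right h14 hq
    calc π * (w * (2 + A₁ * L * c)) * (1 + S / R) / 2 =
          π * (w * (2 + A₁ * L * c)) / 2 * (1 + S / R) := by ring
      _ ≤ _ := mul_le_mul_of_nonneg_right h13 (by positivity)
  have h15 : |Real.sin (π * u)| ≤ |Real.sin (π * u)| * (1 + S / R) := by
    have : 0 ≤ |Real.sin (π * u)| * (S / R) := by positivity
    linarith
  calc |Real.sin (π * u) * Real.cos (π * v) * f₀| + |Real.sin (π * (u - v)) * (f₁ - f₀) / 2|
      ≤ |Real.sin (π * u)| * (1 + S / R) +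
        |Real.sin (π * u)| * (π * (2 + A₁ * L * c)) * (1 + S / R) := by linarith
    _ = _ := by ring

end TLE

open TLE in
theorem t_TLE : M_TLE := by
  intro hTHG r Φ B hr hI hW z hz a ha c L j hc hL hj
  have hT := hTHG r Φ B hr hI hW z hz
  obtain ⟨CT, hCT, htail⟩ := hT.tail j hj
  have haΦ : a ∈ Φ := (Finset.mem_filter.1 ha).1
  have htwo : ((a.2 ⬝ᵥ a.1 : ℤ) : ℝ) = 2 := by rw [hI.two a haΦ]; norm_num
  set A₁ : ℝ := ∑ i, |(a.1 i : ℝ)| with hA₁
  set A₂ : ℝ := ∑ i, |(a.2 i : ℝ)| with hA₂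
  have hA₁0 : 0 ≤ A₁ := Finset.sum_nonneg fun i _ => abs_nonneg _
  have hA₂0 : 0 ≤ A₂ := Finset.sum_nonneg fun i _ => abs_nonneg _
  set Ca : ℝ := 1 + A₁ * A₂ with hCa
  have hCa1 : 1 ≤ Ca := by have := mul_nonneg hA₁0 hA₂0; linarith
  have hCa0 : 0 < Ca := by linarith
  have hdzle : ∀ (y : Fin r → ℝ) (R : ℝ), (∀ i, |y i| ≤ R) → |dz a.1 y| ≤ A₁ * R := by
    intro y R hy
    unfold dz
    refine (Finset.abs_sum_le_sum_abs _ _).trans ?_
    rw [hA₁, Finset.sum_mul]
    refine Finset.sum_le_sum fun i _ => ?_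
    rw [abs_mul]
    exact mul_le_mul_of_nonneg_left (hy i) (abs_nonneg _)
  set C2 : ℝ := 1 + π * (2 + A₁ * L * c) with hC2
  have hC20 : 0 ≤ C2 := by have := Real.pi_pos; positivity
  refine ⟨C2 * CT * (Ca ^ 2 / c ^ 2) ^ j, by positivity, ?_⟩
  intro s m f hs hm hf hf1 hfar hfL θ hθ
  set u : ℝ := dz a.1 θ with hu
  set k : ℤ := round u with hk
  set R : ℝ := c * m / Ca with hR
  have hR0 : 0 < R := by positivity
  set y : (Fin r → ℝ) → Fin r → ℝ := gy z s with hy
  have hyc : Continuous y := gy_cont z s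
  set v : (Fin r → ℝ) → ℝ := fun ξ => dz a.1 (y ξ) with hv
  have hvc : Continuous v := (dz_cont a.1).comp hyc
  set θ₁ : Fin r → ℝ := ar a k θ with hθ₁
  have hθ₁e : θ₁ = θ + fun i => (-(u - k)) * (a.2 i : ℝ) := by
    funext i
    simp only [hθ₁, ar, Pi.add_apply]
    ring
  -- the first form
  have e1 : TH z s (fun θ' => al a θ' * f θ') θ =
      ∫ ξ, Real.sin (π * (u + v ξ)) * f (θ + y ξ) ∂(ga r) := by
    unfold TH al
    refine integral_congr_ae (Eventually.of_forall fun ξ => ?_)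
    simp only [dz_add, hv, hy, hu]
  -- the reflection
  have har : ∀ x : Fin r → ℝ, dz a.1 (ar a 0 x) = -dz a.1 x := by
    intro x
    have e : ar a 0 x = x + fun i => (-(dz a.1 x)) * (a.2 i : ℝ) := by
      funext i
      simp only [ar, Pi.add_apply, Int.cast_zero, sub_zero]
      ring
    rw [e, dz_add, dz_dir, htwo]
    ring
  have hfr : ∀ x : Fin r → ℝ, f (θ + ar a 0 x) = f (θ₁ + x) := by
    intro x
    rw [← hfar k (θ + ar a 0 x)]
    congr 1
    funext i
    simp only [ar, Pi.add_apply, hθ₁]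
    rw [dz_add, har x]
    simp only [Int.cast_zero, sub_zero]
    ring
  have hgc : Continuous fun x : Fin r → ℝ => Real.sin (π * (u + dz a.1 x)) * f (θ + x) := by
    have := dz_cont a.1
    fun_prop
  have hgb : ∃ C, ∀ x : Fin r → ℝ, |Real.sin (π * (u + dz a.1 x)) * f (θ + x)| ≤ C := by
    refine ⟨1, fun x => ?_⟩
    rw [abs_mul]
    exact mul_le_one₀ (Real.abs_sin_le_one _) (abs_nonneg _) (hf1 _)
  have e2 : ∫ ξ, Real.sin (π * (u + v ξ)) * f (θ + y ξ) ∂(ga r) =
      ∫ ξ, Real.sin (π * (u - v ξ)) * f (θ₁ + y ξ) ∂(ga r) := by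
    have h1 := hT.sym s a ha _ hgc hgb
    rw [← hy] at h1
    rw [← h1]
    refine integral_congr_ae (Eventually.of_forall fun ξ => ?_)
    show Real.sin (π * (u + dz a.1 (ar a 0 (y ξ)))) * f (θ + ar a 0 (y ξ)) =
      Real.sin (π * (u - v ξ)) * f (θ₁ + y ξ)
    rw [har, hfr]
    rfl
  have hc1 : Continuous fun ξ => Real.sin (π * (u + v ξ)) * f (θ + y ξ) := by fun_prop
  have hc2 : Continuous fun ξ => Real.sin (π * (u - v ξ)) * f (θ₁ + y ξ) := by fun_prop
  have hi1 : Integrable (fun ξ => Real.sin (π * (u + v ξ)) * f (θ + y ξ)) (ga r) := by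
    refine Integrable.of_bound hc1.aestronglyMeasurable 1 (Eventually.of_forall fun ξ => ?_)
    rw [Real.norm_eq_abs, abs_mul]
    exact mul_le_one₀ (Real.abs_sin_le_one _) (abs_nonneg _) (hf1 _)
  have hi2 : Integrable (fun ξ => Real.sin (π * (u - v ξ)) * f (θ₁ + y ξ)) (ga r) := by
    refine Integrable.of_bound hc2.aestronglyMeasurable 1 (Eventually.of_forall fun ξ => ?_)
    rw [Real.norm_eq_abs, abs_mul]
    exact mul_le_one₀ (Real.abs_sin_le_one _) (abs_nonneg _) (hf1 _)
  have e3 : TH z s (fun θ' => al a θ' * f θ') θ =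
      ∫ ξ, (Real.sin (π * (u + v ξ)) * f (θ + y ξ) +
        Real.sin (π * (u - v ξ)) * f (θ₁ + y ξ)) / 2 ∂(ga r) := by
    rw [integral_div, integral_add hi1 hi2, ← e2, ← e1]
    ring
  set T : Set (Fin r → ℝ) := {ξ | ∃ i, R < |y ξ i|} with hTdef
  have hTm : MeasurableSet T := by
    have : T = ⋃ i, {ξ | R < |y ξ i|} := by
      ext ξ; simp [hTdef]
    rw [this]
    refine MeasurableSet.iUnion fun i => (isOpen_lt continuous_const ?_).measurableSet
    exact ((continuous_apply i).comp hyc).abs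
  have hbound : ∀ ξ, ‖(Real.sin (π * (u + v ξ)) * f (θ + y ξ) +
        Real.sin (π * (u - v ξ)) * f (θ₁ + y ξ)) / 2‖ ≤
      T.indicator (fun ξ => |Real.sin (π * u)| * C2 * (1 + (∑ i, |y ξ i|) / R)) ξ := by
    intro ξ
    rw [Real.norm_eq_abs]
    by_cases hξ : ξ ∈ T
    · rw [Set.indicator_of_mem hξ]
      have hS0 : 0 ≤ ∑ i, |y ξ i| := Finset.sum_nonneg fun i _ => abs_nonneg _
      refine point hA₁0 hS0 hm hL hc hCa1 hR (hdzle _ _ fun i => ?_) (hf1 _) ?_ ?_
      · exact Finset.single_le_sum (f := fun i => |y ξ i|) (fun i _ => abs_nonneg _)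
          (Finset.mem_univ i)
      · refine (abs_sub _ _).trans ?_
        have := hf1 (θ₁ + y ξ)
        have := hf1 (θ + y ξ)
        linarith
      · have h1 := hfL (θ + y ξ) (-(u - k))
        have e4 : θ + y ξ + (fun i => (-(u - k)) * (a.2 i : ℝ)) = θ₁ + y ξ := by
          rw [hθ₁e]; ring
        rw [e4, abs_neg] at h1
        exact h1
    · rw [Set.indicator_of_notMem hξ]
      have hle : ∀ i, |y ξ i| ≤ R := by
        intro i
        by_contra hcon
        push Not at hcon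
        exact hξ ⟨i, hcon⟩
      have hRc : R ≤ c * m := by
        rw [hR]; exact div_le_self (by positivity) hCa1
      have z1 : f (θ + y ξ) = 0 := hθ _ fun i => (hle i).trans hRc
      have z2 : f (θ₁ + y ξ) = 0 := by
        rw [← hfr]
        apply hθ
        intro i
        have h1 := hdzle _ _ hle
        simp only [ar, Int.cast_zero, sub_zero]
        refine (abs_sub _ _).trans ?_
        rw [abs_mul]
        have h2 : |(a.2 i : ℝ)| ≤ A₂ :=
          Finset.single_le_sum (f := fun i => |(a.2 i : ℝ)|) (fun i _ => abs_nonneg _)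
            (Finset.mem_univ i)
        have h3 : |dz a.1 (y ξ)| * |(a.2 i : ℝ)| ≤ (A₁ * R) * A₂ :=
          mul_le_mul h1 h2 (abs_nonneg _) (by positivity)
        have h4 : R * Ca = c * m := by rw [hR]; field_simp
        calc |y ξ i| + |dz a.1 (y ξ)| * |(a.2 i : ℝ)| ≤ R + (A₁ * R) * A₂ :=
              add_le_add (hle i) h3
          _ = R * Ca := by rw [hCa]; ring
          _ = c * m := h4
      rw [z1, z2]
      simp
  have hint : Integrable (T.indicator
      (fun ξ => |Real.sin (π * u)| * C2 * (1 + (∑ i, |y ξ i|) / R))) (ga r) :=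
    ((int_sum z s R).const_mul _).indicator hTm
  rw [e3, ← Real.norm_eq_abs]
  have h1 : ‖∫ ξ, (Real.sin (π * (u + v ξ)) * f (θ + y ξ) +
        Real.sin (π * (u - v ξ)) * f (θ₁ + y ξ)) / 2 ∂(ga r)‖ ≤
      ∫ ξ, T.indicator (fun ξ => |Real.sin (π * u)| * C2 * (1 + (∑ i, |y ξ i|) / R)) ξ ∂(ga r) :=
    norm_integral_le_of_norm_le hint (Eventually.of_forall hbound)
  refine h1.trans ?_
  rw [integral_indicator hTm, integral_const_mul]
  have h2 := htail s R hs hR0
  have h3 : (s / R ^ 2) ^ j = (s / m ^ 2) ^ j * (Ca ^ 2 / c ^ 2) ^ j := by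
    rw [← mul_pow]
    congr 1
    rw [hR]; field_simp
  calc |Real.sin (π * u)| * C2 * ∫ ξ in T, (1 + (∑ i, |y ξ i|) / R) ∂(ga r)
      ≤ |Real.sin (π * u)| * C2 * (CT * (s / R ^ 2) ^ j) :=
        mul_le_mul_of_nonneg_left h2 (by positivity)
    _ = C2 * CT * (Ca ^ 2 / c ^ 2) ^ j * (s / m ^ 2) ^ j * |al a θ| := by
        rw [h3]
        unfold al
        ring

end

end STZ3
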