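import Pool.Agent.STZ3.StmtsT3

/-!
# The bilinear form at the top levels, without loss: module TOI
-/

namespace STZ3

open STZ LGR MeasureTheory Matrix Filter

open scoped ComplexConjugate Matrix Real Topology

noncomputable section

namespace TOI

/-- Lebesgue measure on the unit interval -/
def nu : Measure ℝ := volume.restrict (Set.Ioc (0 : ℝ) 1)

instance : IsFiniteMeasure nu := by
  unfold nu
  infer_instance

theorem nu_prod : nu.prod nu = volume.restrict (Set.Ioc (0 : ℝ) 1 ×ˢ Set.Ioc (0 : ℝ) 1) := by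
  unfold nu
  rw [Measure.prod_restrict]
  rfl

theorem cont_int {g : ℝ × ℝ → ℝ} (hg : Continuous g) : Integrable g (nu.prod nu) := by
  rw [nu_prod]
  have h1 : IntegrableOn g (Set.Icc (0 : ℝ) 1 ×ˢ Set.Icc (0 : ℝ) 1) volume :=
    hg.locallyIntegrable.integrableOn_isCompact (isCompact_Icc.prod isCompact_Icc)
  exact h1.mono_set (Set.prod_mono Set.Ioc_subset_Icc_self Set.Ioc_subset_Icc_self)

theorem II_eq {f : ℝ → ℝ → ℝ} (hf : Integrable (fun z : ℝ × ℝ => f z.1 z.2) (nu.prod nu)) :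
    ∫ t in (0 : ℝ)..1, ∫ s in (0 : ℝ)..1, f t s = ∫ z, f z.1 z.2 ∂(nu.prod nu) := by
  rw [integral_prod _ hf, intervalIntegral.integral_of_le zero_le_one]
  refine integral_congr_ae (Filter.Eventually.of_forall fun t => ?_)
  simp only
  rw [intervalIntegral.integral_of_le zero_le_one]
  rfl

theorem cont_Ay {ι : Type} [Fintype ι] (hW : WWF) (C₀ : ℝ) (c J : ℕ) (y : ι → Fin (J + 1)) :
    Continuous (Ay C₀ c J y) := by
  unfold Ay
  exact continuous_const.mul ((continuous_const.mul (hW.cont _ _)).mul continuous_const)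

theorem cont_Ey {ι : Type} (hW : WWF) (C₀ : ℝ) (c J : ℕ) (y : ι → Fin (J + 1)) (i₁ i₂ : ι) :
    Continuous (Ey C₀ c J y i₁ i₂) := by
  unfold Ey
  exact continuous_const.mul (((hW.cont _ _).sqrt.div_const _).mul ((hW.cont _ _).sqrt.div_const _))

theorem WW_le (R c : ℕ) (hR : 1 ≤ R) (hc : 1 ≤ c) (t : ℝ) : WW R c t ≤ 3 * c * (R : ℝ) ^ 2 := by
  unfold WW
  have h1 : ∀ x ∈ Finset.Icc (-((c * R : ℕ) : ℤ)) ((c * R : ℕ) : ℤ), mn R (t * x) ≤ (R : ℝ) := by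
    intro x _
    unfold mn
    exact div_le_self (Nat.cast_nonneg _) (le_max_left _ _)
  refine (Finset.sum_le_card_nsmul _ _ _ h1).trans ?_
  rw [Int.card_Icc, nsmul_eq_mul]
  have h2 : ((((((c * R : ℕ) : ℤ) + 1 - -((c * R : ℕ) : ℤ)).toNat : ℕ)) : ℝ) =
      2 * ((c : ℝ) * R) + 1 := by
    have : (((c * R : ℕ) : ℤ) + 1 - -((c * R : ℕ) : ℤ)).toNat = 2 * (c * R) + 1 := by omega
    rw [this]
    push_cast
    ring
  rw [h2]
  have h3 : (1 : ℝ) ≤ c * R := by exact_mod_cast Nat.mul_pos (by omega) (by omega)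
  have h4 : (1 : ℝ) ≤ R := by exact_mod_cast hR
  nlinarith

/-- sum of the weights over the tuples -/
theorem sum_y (ι : Type) [Fintype ι] [DecidableEq ι] (J : ℕ) :
    ∑ y : ι → Fin (J + 1), ∏ i, (2 : ℝ) ^ (y i).val ≤ (2 : ℝ) ^ Fintype.card ι *
      ((2 : ℝ) ^ J) ^ Fintype.card ι := by
  have e2 : ∑ y : ι → Fin (J + 1), ∏ i, (2 : ℝ) ^ (y i).val =
      ∏ _i : ι, ∑ v : Fin (J + 1), (2 : ℝ) ^ v.val := by
    rw [Finset.prod_univ_sum]
    simp
  rw [e2, Finset.prod_const, Finset.card_univ, ← mul_pow]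
  refine pow_le_pow_left₀ (Finset.sum_nonneg fun _ _ => by positivity) ?_ _
  rw [Fin.sum_univ_eq_sum_range (fun v => (2 : ℝ) ^ v) (J + 1), geom_sum_eq (by norm_num)]
  have h1 : (2 : ℝ) ^ (J + 1) = 2 * 2 ^ J := by ring
  rw [h1]
  have : (2 : ℝ) - 1 = 1 := by norm_num
  rw [this, div_one]
  linarith

/-- trivial bound of the bilinear form -/
theorem MB_le {ι : Type} [Fintype ι] [DecidableEq ι] (hW : WWF) (C₀ : ℝ) (c J : ℕ)
    (hC₀ : 0 ≤ C₀) (hc : 1 ≤ c) (i₁ i₂ : (ι → Fin (J + 1)) → ι) {e : ℝ → ℝ} (he : Continuous e)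
    (he0 : ∀ t, 0 ≤ e t) :
    MB C₀ c J i₁ i₂ e ≤ 3 * c * C₀ * 2 ^ Fintype.card ι *
      (((2 : ℝ) ^ J) ^ (Fintype.card ι + 1)) ^ 2 * (∫ t in (0 : ℝ)..1, e t) ^ 2 := by
  set m : ℝ := ∫ t in (0 : ℝ)..1, e t with hm
  set X : ℝ := (2 : ℝ) ^ J with hX
  have hX0 : 0 < X := by positivity
  have hec : Continuous fun z : ℝ × ℝ => e z.1 * e z.2 :=
    (he.comp continuous_fst).mul (he.comp continuous_snd)
  have hpc : ∀ y : ι → Fin (J + 1), ∫ t in (0 : ℝ)..1, ∫ s in (0 : ℝ)..1,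
      min (Ay C₀ c J y (t - s) * (e t * e s)) (Ey C₀ c J y (i₁ y) (i₂ y) (t - s) * √(e t * e s)) ≤
      C₀ * (X ^ Fintype.card ι * (3 * c * X ^ 2) * ∏ i, (2 : ℝ) ^ (y i).val) * m ^ 2 := by
    intro y
    set K : ℝ := C₀ * (X ^ Fintype.card ι * (3 * c * X ^ 2) * ∏ i, (2 : ℝ) ^ (y i).val) with hK
    have hFc : Continuous fun z : ℝ × ℝ => min (Ay C₀ c J y (z.1 - z.2) * (e z.1 * e z.2))
        (Ey C₀ c J y (i₁ y) (i₂ y) (z.1 - z.2) * √(e z.1 * e z.2)) := by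
      have h1 : Continuous fun z : ℝ × ℝ => z.1 - z.2 := continuous_fst.sub continuous_snd
      exact (((cont_Ay hW C₀ c J y).comp h1).mul hec).min
        (((cont_Ey hW C₀ c J y (i₁ y) (i₂ y)).comp h1).mul hec.sqrt)
    rw [II_eq (cont_int hFc)]
    have hai : Integrable (fun z : ℝ × ℝ => K * (e z.1 * e z.2)) (nu.prod nu) :=
      (cont_int hec).const_mul _
    have hee : ∫ z : ℝ × ℝ, K * (e z.1 * e z.2) ∂(nu.prod nu) = K * m ^ 2 := by
      rw [integral_const_mul, integral_prod_mul, hm, intervalIntegral.integral_of_le zero_le_one, sq]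
      rfl
    rw [← hee]
    refine integral_mono (cont_int hFc) hai fun z => ?_
    refine (min_le_left _ _).trans ?_
    refine mul_le_mul_of_nonneg_right ?_ (mul_nonneg (he0 _) (he0 _))
    rw [hK]
    unfold Ay
    refine mul_le_mul_of_nonneg_left ?_ hC₀
    refine mul_le_mul_of_nonneg_right ?_ (Finset.prod_nonneg fun _ _ => by positivity)
    refine mul_le_mul_of_nonneg_left ?_ (by positivity)
    have h1 := WW_le (2 ^ J) c Nat.one_le_two_pow hc (z.1 - z.2)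
    push_cast at h1
    exact h1
  unfold MB
  refine (Finset.sum_le_sum fun y _ => hpc y).trans ?_
  rw [← Finset.sum_mul]
  refine mul_le_mul_of_nonneg_right ?_ (sq_nonneg m)
  rw [← Finset.mul_sum, ← Finset.mul_sum]
  have h1 := sum_y ι J
  rw [← hX] at h1
  have h2 : 0 ≤ C₀ * (X ^ Fintype.card ι * (3 * c * X ^ 2)) := by positivity
  calc C₀ * (X ^ Fintype.card ι * (3 * c * X ^ 2) * ∑ y : ι → Fin (J + 1), ∏ i, (2 : ℝ) ^ (y i).val)
      = C₀ * (X ^ Fintype.card ι * (3 * c * X ^ 2)) *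
        ∑ y : ι → Fin (J + 1), ∏ i, (2 : ℝ) ^ (y i).val := by ring
    _ ≤ C₀ * (X ^ Fintype.card ι * (3 * c * X ^ 2)) * (2 ^ Fintype.card ι * X ^ Fintype.card ι) :=
      mul_le_mul_of_nonneg_left h1 h2
    _ = _ := by ring

end TOI

open TOI in
theorem t_TOI : M_TOI := by
  intro hW hTOJ ι _ _ c p C₀ a hn hc hp hp3 hC₀ ha
  set n : ℕ := Fintype.card ι with hndef
  have hn0 : (0 : ℝ) ≤ (n : ℝ) := Nat.cast_nonneg _
  have h4 : 0 < 4 / ((n : ℝ) + 2) := by positivity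
  -- the smaller exponent
  obtain ⟨p₀, hp₀, hp₀'⟩ := exists_between hp
  have hp2 : 2 < p := by linarith
  have hp0 : 0 < p := by linarith
  obtain ⟨κ₀, C, J₀, hκ₀, hC, hT⟩ := hTOJ ι c p₀ C₀ (p - p₀) hn hc hp₀ (by linarith) hC₀
    (by linarith)
  -- the positive exponent
  have hexp : 0 ≤ p * ((n : ℝ) + 1) - (2 * (n : ℝ) + 4) := by
    have h5 : 2 / ((n : ℝ) + 1) ≤ 4 / ((n : ℝ) + 2) := by
      rw [div_le_div_iff₀ (by positivity) (by positivity)]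
      linarith
    have h6 : (2 + 2 / ((n : ℝ) + 1)) * ((n : ℝ) + 1) = 2 * (n : ℝ) + 4 := by
      field_simp
      ring
    have h7 : (2 + 2 / ((n : ℝ) + 1)) * ((n : ℝ) + 1) ≤ p * ((n : ℝ) + 1) :=
      mul_le_mul_of_nonneg_right (by linarith) (by positivity)
    linarith
  set κ : ℝ := κ₀ / 2 with hκ
  have hκ0 : 0 < κ := by positivity
  -- the constant of the trivial bound
  set C₁ : ℝ := √(1 + 3 * c * C₀ * 2 ^ n) with hC₁
  have hin : 1 ≤ 1 + 3 * (c : ℝ) * C₀ * 2 ^ n := by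
    have : 0 ≤ 3 * (c : ℝ) * C₀ * 2 ^ n := by positivity
    linarith
  have hC₁1 : 1 ≤ C₁ := Real.one_le_sqrt.2 hin
  have hC₁0 : 0 < C₁ := by linarith
  have hC₁s : C₁ ^ 2 = 1 + 3 * c * C₀ * 2 ^ n := Real.sq_sqrt (by linarith)
  -- large scales
  obtain ⟨N, hN⟩ : ∃ N : ℕ, ∀ J : ℕ, N ≤ J → 1 / a ≤ ((2 : ℝ) ^ J) ^ κ := by
    have h2κ : 1 < (2 : ℝ) ^ κ := Real.one_lt_rpow one_lt_two hκ0
    obtain ⟨N, hN⟩ := pow_unbounded_of_one_lt (1 / a) h2κ
    refine ⟨N, fun J hJ => ?_⟩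
    have e1 : ((2 : ℝ) ^ J) ^ κ = ((2 : ℝ) ^ κ) ^ J := by
      rw [← Real.rpow_natCast, ← Real.rpow_mul two_pos.le, mul_comm, Real.rpow_mul two_pos.le,
        Real.rpow_natCast]
    rw [e1]
    exact hN.le.trans (pow_le_pow_right₀ h2κ.le hJ)
  set J₁ : ℕ := max J₀ N with hJ₁
  have hC₁p : 0 ≤ C₁ ^ p := by positivity
  refine ⟨κ, (C₁ * ((2 : ℝ) ^ J₁) ^ (n + 1)) ^ p + C * (1 + C₁ ^ p), hκ0, by positivity, ?_⟩
  intro J i₁ i₂ hsm e ℓ he he0 he1 hℓ hmain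
  set X : ℝ := (2 : ℝ) ^ J with hX
  have hX1 : 1 ≤ X := one_le_pow₀ one_le_two
  have hX0 : 0 < X := by linarith
  have hℓ0 : 0 < ℓ := lt_of_lt_of_le (by positivity) hℓ
  set m : ℝ := ∫ t in (0 : ℝ)..1, e t with hm
  have hm0 : 0 ≤ m := intervalIntegral.integral_nonneg zero_le_one fun t _ => he0 t
  have hm1 : m ≤ 1 := by
    have h1 : m ≤ ∫ _t in (0 : ℝ)..1, (1 : ℝ) :=
      intervalIntegral.integral_mono_on zero_le_one (he.intervalIntegrable _ _)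
        (continuous_const.intervalIntegrable _ _) fun t _ => he1 t
    simpa using h1
  have hXe : 1 ≤ X ^ (p * ((n : ℝ) + 1) - (2 * (n : ℝ) + 4)) := Real.one_le_rpow hX1 hexp
  have hXe0 : 0 < X ^ (p * ((n : ℝ) + 1) - (2 * (n : ℝ) + 4)) := by positivity
  rcases hm0.eq_or_lt with h0 | hmp
  · rw [← h0, zero_mul]
    positivity
  -- the trivial bound
  have hℓX : ℓ ≤ C₁ * X ^ (n + 1) := by
    have h1 := hmain.trans (MB_le hW C₀ c J hC₀ hc i₁ i₂ he he0)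
    rw [← hX, ← hm, ← hndef] at h1
    have h2 : 3 * (c : ℝ) * C₀ * 2 ^ n * (X ^ (n + 1)) ^ 2 * m ^ 2 ≤ (C₁ * X ^ (n + 1) * m) ^ 2 := by
      have e1 : (C₁ * X ^ (n + 1) * m) ^ 2 = C₁ ^ 2 * ((X ^ (n + 1)) ^ 2 * m ^ 2) := by ring
      rw [e1, hC₁s]
      have : 0 ≤ (X ^ (n + 1)) ^ 2 * m ^ 2 := by positivity
      nlinarith
    have h4' : ℓ * m ≤ C₁ * X ^ (n + 1) * m :=
      (pow_le_pow_iff_left₀ (by positivity) (by positivity) two_ne_zero).1 (h1.trans h2)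
    exact le_of_mul_le_mul_right h4' hmp
  have hXn : X ^ (n + 1) = X ^ ((n : ℝ) + 1) := by
    rw [← Real.rpow_natCast]
    push_cast
    rfl
  have hXpn : (X ^ (n + 1)) ^ p * X ^ (-(2 * (n : ℝ) + 4)) =
      X ^ (p * ((n : ℝ) + 1) - (2 * (n : ℝ) + 4)) := by
    rw [hXn, ← Real.rpow_mul hX0.le, ← Real.rpow_add hX0]
    congr 1
    ring
  have hA0 : 0 ≤ (C₁ * ((2 : ℝ) ^ J₁) ^ (n + 1)) ^ p := by positivity
  by_cases hJ : J₁ ≤ J
  · have hJ0 : J₀ ≤ J := (le_max_left _ _).trans hJ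
    have hJN : N ≤ J := (le_max_right _ _).trans hJ
    rcases le_or_gt ℓ (X ^ (n + 1)) with hc1 | hc1
    · -- the main case
      set Λ : ℝ := X ^ (n + 1) / ℓ with hΛ
      have hΛ1 : 1 ≤ Λ := (one_le_div hℓ0).2 hc1
      have hΛ0 : 0 < Λ := by linarith
      have hΛκ : Λ ≤ X ^ κ₀ := by
        rw [hΛ, div_le_iff₀ hℓ0]
        have h1 := hN J hJN
        have h2 : 1 ≤ a * X ^ κ := by
          rw [div_le_iff₀ ha] at h1
          linarith
        have h3 : X ^ κ₀ = X ^ κ * X ^ κ := by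
          rw [← Real.rpow_add hX0]
          congr 1
          rw [hκ]
          ring
        have h5 : X ^ κ * X ^ ((n : ℝ) + 1 - κ) = X ^ (n + 1) := by
          rw [← Real.rpow_add hX0, hXn]
          congr 1
          ring
        calc X ^ (n + 1) = 1 * X ^ (n + 1) := (one_mul _).symm
          _ ≤ (a * X ^ κ) * X ^ (n + 1) := mul_le_mul_of_nonneg_right h2 (by positivity)
          _ = (X ^ κ * X ^ κ) * (a * X ^ ((n : ℝ) + 1 - κ)) := by rw [← h5]; ring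
          _ = X ^ κ₀ * (a * X ^ ((n : ℝ) + 1 - κ)) := by rw [h3]
          _ ≤ X ^ κ₀ * ℓ := mul_le_mul_of_nonneg_left hℓ (by positivity)
      have hℓΛ : X ^ (n + 1) / Λ = ℓ := by
        rw [hΛ, div_div_eq_mul_div, mul_comm, mul_div_assoc, div_self (by positivity), mul_one]
      have h6 := hT J i₁ i₂ hsm e Λ hJ0 he he0 hΛ1 hΛκ (by
        rw [← hX, ← hm, ← hndef, hℓΛ]
        exact hmain)
      rw [← hX, ← hm, ← hndef, show p₀ + (p - p₀) = p by ring] at h6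
      have h7 : Λ ^ p * ℓ ^ p = (X ^ (n + 1)) ^ p := by
        rw [← Real.mul_rpow hΛ0.le hℓ0.le, hΛ, div_mul_cancel₀ _ hℓ0.ne']
      calc m * ℓ ^ p ≤ C * Λ ^ p * X ^ (-(2 * (n : ℝ) + 4)) * ℓ ^ p :=
            mul_le_mul_of_nonneg_right h6 (by positivity)
        _ = C * ((X ^ (n + 1)) ^ p * X ^ (-(2 * (n : ℝ) + 4))) := by rw [← h7]; ring
        _ = C * X ^ (p * ((n : ℝ) + 1) - (2 * (n : ℝ) + 4)) := by rw [hXpn]
        _ ≤ _ := by
          refine mul_le_mul_of_nonneg_right ?_ hXe0.le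
          nlinarith
    · -- the case of the large levels
      have h6 := hT J i₁ i₂ hsm e 1 hJ0 he he0 le_rfl (Real.one_le_rpow hX1 hκ₀.le) (by
        rw [← hX, ← hm, ← hndef, div_one]
        refine le_trans ?_ hmain
        exact pow_le_pow_left₀ (by positivity) (mul_le_mul_of_nonneg_right hc1.le hm0) 2)
      rw [← hX, ← hm, ← hndef, Real.one_rpow, mul_one] at h6
      have h7 : ℓ ^ p ≤ C₁ ^ p * (X ^ (n + 1)) ^ p := by
        rw [← Real.mul_rpow hC₁0.le (by positivity)]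
        exact Real.rpow_le_rpow hℓ0.le hℓX hp0.le
      calc m * ℓ ^ p ≤ (C * X ^ (-(2 * (n : ℝ) + 4))) * (C₁ ^ p * (X ^ (n + 1)) ^ p) :=
            mul_le_mul h6 h7 (by positivity) (by positivity)
        _ = C * C₁ ^ p * ((X ^ (n + 1)) ^ p * X ^ (-(2 * (n : ℝ) + 4))) := by ring
        _ = C * C₁ ^ p * X ^ (p * ((n : ℝ) + 1) - (2 * (n : ℝ) + 4)) := by rw [hXpn]
        _ ≤ _ := by
          refine mul_le_mul_of_nonneg_right ?_ hXe0.le
          nlinarith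
  · -- small scales
    have hJ' : J ≤ J₁ := by omega
    have h1 : ℓ ^ p ≤ (C₁ * ((2 : ℝ) ^ J₁) ^ (n + 1)) ^ p := by
      refine Real.rpow_le_rpow hℓ0.le (hℓX.trans ?_) hp0.le
      refine mul_le_mul_of_nonneg_left ?_ hC₁0.le
      exact pow_le_pow_left₀ hX0.le (pow_le_pow_right₀ one_le_two hJ') _
    calc m * ℓ ^ p ≤ 1 * (C₁ * ((2 : ℝ) ^ J₁) ^ (n + 1)) ^ p :=
          mul_le_mul hm1 h1 (by positivity) zero_le_one
      _ ≤ ((C₁ * ((2 : ℝ) ^ J₁) ^ (n + 1)) ^ p + C * (1 + C₁ ^ p)) * 1 := by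
        have : 0 ≤ C * (1 + C₁ ^ p) := by positivity
        linarith
      _ ≤ _ := mul_le_mul_of_nonneg_left hXe (by positivity)

end

end STZ3
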