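import Pool.Agent.STZ3.StP

/-!
# Compact simple groups of rank two: module TRB (helper9)
-/

namespace STZ3

open STZ LGR MeasureTheory Matrix Filter

open scoped ComplexConjugate Matrix Real Topology

noncomputable section

namespace TRB

/-- `lm` for `nf = 1` is `l1` -/
theorem lm_one {r : ℕ} (Φ : RT r) (ϑ : ℝ) (m : Fin r → ℤ) :
    lm Φ ϑ (fun _ => 1) m = ((l1 Φ ϑ m : ℝ) : ℂ) := by
  unfold lm l1
  rw [Complex.ofReal_mul, Complex.ofReal_sum, Complex.ofReal_div, Complex.ofReal_one,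
    Complex.ofReal_natCast]
  congr 1
  refine Finset.sum_congr rfl fun w _ => ?_
  simp only [Complex.ofReal_mul, Complex.ofReal_intCast, mul_one]

/-- the average of the constant function -/
theorem wa_one {r : ℕ} {Φ : RT r} {B : Matrix (Fin r) (Fin r) ℤ} (hW : WFF Φ B) (l : Fin r → ℤ) :
    wa Φ (fun _ => 1) l = 1 := by
  unfold wa
  have h : ((WF Φ).card : ℂ) ≠ 0 := by
    have : (WF Φ).card ≠ 0 := Finset.card_ne_zero_of_mem hW.one
    exact_mod_cast this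
  rw [Finset.sum_const, nsmul_eq_mul, mul_one, one_div, inv_mul_cancel₀ h]

end TRB

theorem t_TRB : M_TRB := by
  intro hWF hTRF hLWB N H r Φ B Hc E c k d hCX
  have hW := hWF r Φ B hCX.lrd.ird
  obtain ⟨c0, hc0, hl⟩ := hLWB r Φ B hCX.one_le hCX.lrd.ird hW
  refine ⟨1 / c0, by positivity, ?_⟩
  intro n σ l U μ hH hWT ϑ h0 h1
  have hT := hTRF N H r Φ B Hc E c k d hCX n σ l U μ hH hWT ϑ (fun _ => 1)
  rw [TRB.wa_one hW, mul_one] at hT
  simp only [TRB.lm_one] at hT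
  have hT' : ∑ j, Real.exp (-(2 * ϑ * cq Φ l (μ j))) * l1 Φ ϑ (μ j) = (n : ℝ) := by
    exact_mod_cast hT
  have hle : c0 * ∑ j, Real.exp (-(2 * ϑ * cq Φ l (μ j))) *
      ∏ p ∈ pos Φ, (1 + ϑ * ((p.2 ⬝ᵥ μ j : ℤ) : ℝ) ^ 2) ≤ (n : ℝ) := by
    rw [← hT', Finset.mul_sum]
    refine Finset.sum_le_sum fun j _ => ?_
    have := mul_le_mul_of_nonneg_left (hl ϑ (μ j) h0 h1)
      (Real.exp_pos (-(2 * ϑ * cq Φ l (μ j)))).le
    calc _ = Real.exp (-(2 * ϑ * cq Φ l (μ j))) *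
        (c0 * ∏ p ∈ pos Φ, (1 + ϑ * ((p.2 ⬝ᵥ μ j : ℤ) : ℝ) ^ 2)) := by ring
      _ ≤ _ := this
  rw [one_div, ← div_eq_inv_mul, le_div_iff₀ hc0]
  linarith

end

end STZ3
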