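import Pool.Agent.STZ3.StC3

/-!
# STZ3, module TRC: the trace identity of the chain packets
-/

namespace STZ3

open STZ LGR MeasureTheory Matrix Filter

open scoped ComplexConjugate Matrix Real Topology

noncomputable section

namespace TRC

variable {r : ℕ} {Φ : RT r} {B : Matrix (Fin r) (Fin r) ℤ}

theorem dR_eq (Φ : RT r) (l : Fin r → ℤ) :
    dR Φ l = ((rd Φ).dim l : ℝ) / ((rd Φ).dim 1 : ℝ) := by
  unfold dR rd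
  push_cast
  rfl

theorem dim_one (hW : WFF Φ B) : ((rd Φ).dim 1 : ℤ) ≠ 0 := by
  show (∏ p ∈ pos Φ, (p.2 ⬝ᵥ (1 : Fin r → ℤ))) ≠ 0
  refine Finset.prod_ne_zero_iff.2 fun p hp => ?_
  obtain ⟨-, h1, h2, -⟩ := hW.ppos p hp
  have h3 : p.2 ⬝ᵥ (1 : Fin r → ℤ) = ∑ i, p.2 i := by simp [dotProduct]
  rw [h3]
  intro h0
  apply h2
  have h4 := (Finset.sum_eq_zero_iff_of_nonneg fun i _ => h1 i).1 h0
  funext i
  exact h4 i (Finset.mem_univ i)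

theorem det_sq (hW : WFF Φ B) {w : Matrix (Fin r) (Fin r) ℤ} (hw : w ∈ WF Φ) :
    (w.det : ℝ) * (w.det : ℝ) = 1 := by
  rcases hW.det w hw with h | h <;> rw [h] <;> norm_num

/-- the facts about the quadratic form at one root which are used -/
structure QR (Φ : RT r) (a : (Fin r → ℤ) × (Fin r → ℤ)) : Prop where
  two : a.2 ⬝ᵥ a.1 = 2
  sub : ∀ (τ : Fin r → ℤ) (i : ℤ), (rd Φ).Q (τ - i • a.1) =
    (rd Φ).Q τ - i * (a.2 ⬝ᵥ τ) * (rd Φ).Q a.1 + i ^ 2 * (rd Φ).Q a.1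
  ipa : ∀ m, ip Φ a.1 m = ((a.2 ⬝ᵥ m : ℤ) : ℝ) * ((rd Φ).Q a.1 : ℝ)

theorem qr_of (hird : IRD Φ B) (hW : WFF Φ B) (hqd : S_QUAD) (a : {p // p ∈ pos Φ}) : QR Φ a.1 := by
  obtain ⟨q1, q2, q3, q4, q5, q6, q7⟩ := hqd r Φ B hird hW
  have ha : a.1 ∈ Φ := (hW.ppos a.1 a.2).1
  have h2 := (q7 a.1 ha).2
  have h1 : ∀ m, a.1.1 ⬝ᵥ ((rd Φ).A *ᵥ m) = (a.1.2 ⬝ᵥ m) * (rd Φ).Q a.1.1 := by
    intro m
    have h3 := h2 m
    rw [q4 a.1.1] at h3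
    linarith
  refine ⟨hird.two a.1 ha, ?_, ?_⟩
  · intro τ i
    have h3 : τ - i • a.1.1 = (-i) • a.1.1 + τ := by
      rw [neg_smul]; abel
    have h4 : (rd Φ).Q ((-i) • a.1.1) = i ^ 2 * (rd Φ).Q a.1.1 := by
      have h5 := q4 ((-i) • a.1.1)
      rw [mulVec_smul, dotProduct_smul, smul_dotProduct, q4 a.1.1] at h5
      simp only [smul_eq_mul] at h5
      linarith
    rw [h3, q2.polar, h4, smul_dotProduct, h1 τ, smul_eq_mul]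
    ring
  · intro m
    unfold ip
    rw [h1 m]
    push_cast
    ring

theorem dot_sub {a : (Fin r → ℤ) × (Fin r → ℤ)} (h : QR Φ a) (τ : Fin r → ℤ) (i : ℤ) :
    a.2 ⬝ᵥ (τ - i • a.1) = a.2 ⬝ᵥ τ - 2 * i := by
  rw [dotProduct_sub, dotProduct_smul, h.two, smul_eq_mul]
  ring

/-- the eigenvalue on the string -/
theorem qa_str {a : (Fin r → ℤ) × (Fin r → ℤ)} (h : QR Φ a) (τ : Fin r → ℤ) (i : ℤ) :
    qa Φ a (τ - i • a.1) (a.2 ⬝ᵥ τ + 1) = CL Φ a τ - ((rd Φ).Q (τ - i • a.1) : ℝ) := by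
  unfold qa CL
  rw [h.ipa, dot_sub h, h.sub]
  push_cast
  ring

theorem CL_refl {a : (Fin r → ℤ) × (Fin r → ℤ)} (h : QR Φ a) (τ : Fin r → ℤ) :
    CL Φ a (τ - (a.2 ⬝ᵥ τ + 1) • a.1) = CL Φ a τ := by
  unfold CL
  rw [h.ipa, h.ipa, dot_sub h, h.sub]
  push_cast
  ring

/-- the test function -/
def F0 (Φ : RT r) (t₁ : ℝ) (nf : (Fin r → ℤ) → ℂ) (m : Fin r → ℤ) : ℂ :=
  ((Real.exp (2 * t₁ * ((rd Φ).Q m : ℝ)) * dR Φ m : ℝ) : ℂ) * nf m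

/-- the potential of the telescoping sum -/
def G0 (Φ : RT r) (a : (Fin r → ℤ) × (Fin r → ℤ)) (t₁ t₂ : ℝ) (nf : (Fin r → ℤ) → ℂ) (m : Fin r → ℤ) : ℂ :=
  ((Real.exp ((2 * t₂ - 2 * t₁) * CL Φ a m) : ℝ) : ℂ) * FF Φ a (F0 Φ t₁ nf) m

theorem lc_eq {a : (Fin r → ℤ) × (Fin r → ℤ)} (ha : a ∈ pos Φ) (t₁ t₂ : ℝ) (nf : (Fin r → ℤ) → ℂ)
    (m : Fin r → ℤ) :
    lc Φ a t₁ t₂ nf m = (1 / ((WF Φ).card : ℂ)) *
      (((Real.exp (-(2 * t₂ * ((rd Φ).Q m : ℝ)) - 2 * t₁ * ((rd Φ).Q 1 : ℝ)) : ℝ) : ℂ) *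
        (G0 Φ a t₁ t₂ nf m - G0 Φ a t₁ t₂ nf (m - a.1))) := by
  have hins : insert a ((pos Φ).erase a) = pos Φ := Finset.insert_erase ha
  have hna : a ∉ (pos Φ).erase a := Finset.notMem_erase a _
  unfold lc
  congr 1
  rw [← hins, Finset.sum_powerset_insert hna, mul_sub]
  have h1 : ∀ S ∈ ((pos Φ).erase a).powerset, (-1 : ℂ) ^ S.card *
      (((Real.exp (es Φ a t₁ t₂ S m) * dR Φ (m + 1 - ∑ p ∈ S, p.1) : ℝ) : ℂ) *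
        nf (m + 1 - ∑ p ∈ S, p.1)) =
      ((Real.exp (-(2 * t₂ * ((rd Φ).Q m : ℝ)) - 2 * t₁ * ((rd Φ).Q 1 : ℝ)) : ℝ) : ℂ) *
        (((Real.exp ((2 * t₂ - 2 * t₁) * CL Φ a m) : ℝ) : ℂ) *
          ((-1) ^ S.card * F0 Φ t₁ nf (m + 1 - ∑ p ∈ S, p.1))) := by
    intro S hS
    have haS : a ∉ S := fun h => hna (Finset.mem_powerset.1 hS h)
    have h2 : Real.exp (es Φ a t₁ t₂ S m) =
        Real.exp (-(2 * t₂ * ((rd Φ).Q m : ℝ)) - 2 * t₁ * ((rd Φ).Q 1 : ℝ)) *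
        (Real.exp ((2 * t₂ - 2 * t₁) * CL Φ a m) *
          Real.exp (2 * t₁ * ((rd Φ).Q (m + 1 - ∑ p ∈ S, p.1) : ℝ))) := by
      rw [← Real.exp_add, ← Real.exp_add]
      congr 1
      unfold es
      rw [if_neg haS, sub_zero]
      ring
    rw [h2]
    unfold F0
    push_cast
    ring
  have h3 : ∀ S ∈ ((pos Φ).erase a).powerset, (-1 : ℂ) ^ (insert a S).card *
      (((Real.exp (es Φ a t₁ t₂ (insert a S) m) * dR Φ (m + 1 - ∑ p ∈ insert a S, p.1) : ℝ) : ℂ) *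
        nf (m + 1 - ∑ p ∈ insert a S, p.1)) =
      -(((Real.exp (-(2 * t₂ * ((rd Φ).Q m : ℝ)) - 2 * t₁ * ((rd Φ).Q 1 : ℝ)) : ℝ) : ℂ) *
        (((Real.exp ((2 * t₂ - 2 * t₁) * CL Φ a (m - a.1)) : ℝ) : ℂ) *
          ((-1) ^ S.card * F0 Φ t₁ nf (m - a.1 + 1 - ∑ p ∈ S, p.1)))) := by
    intro S hS
    have haS : a ∉ S := fun h => hna (Finset.mem_powerset.1 hS h)
    have h4 : m + 1 - ∑ p ∈ insert a S, p.1 = m - a.1 + 1 - ∑ p ∈ S, p.1 := by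
      rw [Finset.sum_insert haS]; abel
    have h2 : Real.exp (es Φ a t₁ t₂ (insert a S) m) =
        Real.exp (-(2 * t₂ * ((rd Φ).Q m : ℝ)) - 2 * t₁ * ((rd Φ).Q 1 : ℝ)) *
        (Real.exp ((2 * t₂ - 2 * t₁) * CL Φ a (m - a.1)) *
          Real.exp (2 * t₁ * ((rd Φ).Q (m - a.1 + 1 - ∑ p ∈ S, p.1) : ℝ))) := by
      rw [← Real.exp_add, ← Real.exp_add]
      congr 1
      unfold es
      rw [if_pos (Finset.mem_insert_self a S), h4]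
      ring
    rw [h2, h4, Finset.card_insert_of_notMem haS, pow_succ]
    unfold F0
    push_cast
    ring
  rw [Finset.sum_congr rfl h1, Finset.sum_congr rfl h3, Finset.sum_neg_distrib, ← sub_eq_add_neg]
  unfold G0 FF
  simp only [Finset.mul_sum]

/-- one string -/
theorem str_sum {a : (Fin r → ℤ) × (Fin r → ℤ)} (ha : a ∈ pos Φ) (h : QR Φ a) (t₁ t₂ : ℝ)
    (nf : (Fin r → ℤ) → ℂ) (l τ : Fin r → ℤ) (hτ : 0 ≤ a.2 ⬝ᵥ τ) :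
    ∑ i ∈ Finset.range ((a.2 ⬝ᵥ τ).toNat + 1),
      ((Real.exp (-(2 * ec Φ a l t₁ t₂ (τ - (i : ℤ) • a.1) (a.2 ⬝ᵥ τ + 1))) : ℝ) : ℂ) *
        lc Φ a t₁ t₂ nf (τ - (i : ℤ) • a.1) =
      ((Real.exp (-(2 * t₁ * ((rd Φ).Q l : ℝ))) : ℝ) : ℂ) * (1 / ((WF Φ).card : ℂ)) *
        (FF Φ a (F0 Φ t₁ nf) τ - FF Φ a (F0 Φ t₁ nf) (τ - (a.2 ⬝ᵥ τ + 1) • a.1)) := by
  have h1 : ∀ i ∈ Finset.range ((a.2 ⬝ᵥ τ).toNat + 1),
      ((Real.exp (-(2 * ec Φ a l t₁ t₂ (τ - (i : ℤ) • a.1) (a.2 ⬝ᵥ τ + 1))) : ℝ) : ℂ) *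
        lc Φ a t₁ t₂ nf (τ - (i : ℤ) • a.1) =
      ((Real.exp (-(2 * t₁ * ((rd Φ).Q l : ℝ)) - (2 * t₂ - 2 * t₁) * CL Φ a τ) : ℝ) : ℂ) *
        (1 / ((WF Φ).card : ℂ)) *
        (G0 Φ a t₁ t₂ nf (τ - (i : ℤ) • a.1) - G0 Φ a t₁ t₂ nf (τ - ((i + 1 : ℕ) : ℤ) • a.1)) := by
    intro i _
    have h2 : τ - (i : ℤ) • a.1 - a.1 = τ - ((i + 1 : ℕ) : ℤ) • a.1 := by
      push_cast
      rw [add_smul, one_smul]
      abel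
    have h3 : Real.exp (-(2 * ec Φ a l t₁ t₂ (τ - (i : ℤ) • a.1) (a.2 ⬝ᵥ τ + 1))) *
        Real.exp (-(2 * t₂ * ((rd Φ).Q (τ - (i : ℤ) • a.1) : ℝ)) - 2 * t₁ * ((rd Φ).Q 1 : ℝ)) =
        Real.exp (-(2 * t₁ * ((rd Φ).Q l : ℝ)) - (2 * t₂ - 2 * t₁) * CL Φ a τ) := by
      rw [← Real.exp_add]
      congr 1
      unfold ec cq
      rw [qa_str h]
      push_cast
      ring
    rw [lc_eq ha, h2, ← h3]
    push_cast
    ring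
  rw [Finset.sum_congr rfl h1, ← Finset.mul_sum,
    Finset.sum_range_sub' (fun i : ℕ => G0 Φ a t₁ t₂ nf (τ - (i : ℤ) • a.1))]
  have h2 : τ - (((a.2 ⬝ᵥ τ).toNat + 1 : ℕ) : ℤ) • a.1 = τ - (a.2 ⬝ᵥ τ + 1) • a.1 := by
    push_cast
    rw [Int.toNat_of_nonneg hτ]
  have h3 : τ - ((0 : ℕ) : ℤ) • a.1 = τ := by simp
  rw [h2, h3]
  unfold G0
  rw [CL_refl h, ← mul_sub]
  have h4 : Real.exp (-(2 * t₁ * ((rd Φ).Q l : ℝ)) - (2 * t₂ - 2 * t₁) * CL Φ a τ) *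
      Real.exp ((2 * t₂ - 2 * t₁) * CL Φ a τ) = Real.exp (-(2 * t₁ * ((rd Φ).Q l : ℝ))) := by
    rw [← Real.exp_add]
    congr 1
    ring
  rw [← h4, Complex.ofReal_mul]
  ring_nf

end TRC

open TRC in
/-- The trace identity of the chain packets. -/
theorem t_TRC : M_TRC := by
  intro hwf hqd hrv htrl N H r Φ B Hc E c k d hCX a n σ l U μ x m τ hH hT hS t₁ t₂ nf
  have hird := hCX.lrd.ird
  have hW : WFF Φ B := hwf r Φ B hird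
  have hQR : QR Φ a.1 := qr_of hird hW hqd a
  obtain ⟨q1, -, -, -, -, -, -⟩ := hqd r Φ B hird hW
  have hRV := hrv r Φ B hCX.one_le hird
  have hD1 : (((rd Φ).dim 1 : ℤ) : ℝ) ≠ 0 := by exact_mod_cast dim_one hW
  have hdl : dR Φ l = (n : ℝ) := by
    rw [dR_eq, div_eq_iff hD1]
    have h1 := hH.dim
    have h2 : ((n : ℝ) * (((rd Φ).dim 1 : ℤ) : ℝ)) = (((rd Φ).dim l : ℤ) : ℝ) := by
      exact_mod_cast h1
    exact h2.symm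
  have htr := htrl N H r Φ B Hc E c k d hCX a n σ l U μ x m τ hH hT hS (F0 Φ t₁ nf)
  rw [hS.str (fun m x => ((Real.exp (-(2 * ec Φ a.1 l t₁ t₂ m x)) : ℝ) : ℂ) * lc Φ a.1 t₁ t₂ nf m)]
  rw [Finset.sum_congr rfl fun s _ => str_sum a.2 hQR t₁ t₂ nf l (τ s) (hS.nn s), ← Finset.mul_sum,
    htr, Finset.mul_sum]
  unfold wa
  rw [← mul_assoc, Finset.mul_sum]
  refine Finset.sum_congr rfl fun w hw => ?_
  have h1 : dR Φ (w *ᵥ l) = (w.det : ℝ) * (n : ℝ) := by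
    rw [dR_eq]
    have h2 : (rd Φ).dim (w *ᵥ l) = w.det * (rd Φ).dim l := hRV.danti w hw l
    rw [h2, ← hdl, dR_eq]
    push_cast
    ring
  have h3 : (w.det : ℝ) * (Real.exp (-(2 * t₁ * ((rd Φ).Q l : ℝ))) *
      (Real.exp (2 * t₁ * ((rd Φ).Q (w *ᵥ l) : ℝ)) * dR Φ (w *ᵥ l))) = (n : ℝ) := by
    rw [h1, q1 w hw, ← mul_assoc (Real.exp _) (Real.exp _), ← Real.exp_add, neg_add_cancel,
      Real.exp_zero, one_mul, ← mul_assoc, det_sq hW hw, one_mul]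
  have h4 : (w.det : ℂ) * (((Real.exp (-(2 * t₁ * ((rd Φ).Q l : ℝ))) : ℝ) : ℂ) *
      ((Real.exp (2 * t₁ * ((rd Φ).Q (w *ᵥ l) : ℝ)) * dR Φ (w *ᵥ l) : ℝ) : ℂ)) = (n : ℂ) := by
    have h5 := congrArg (fun x : ℝ => (x : ℂ)) h3
    rw [← Complex.ofReal_mul, ← Complex.ofReal_intCast, ← Complex.ofReal_mul]
    simpa using h5
  unfold F0
  linear_combination (1 / ((WF Φ).card : ℂ)) * nf (w *ᵥ l) * h4

end

end STZ3
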