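import Pool.Agent.STZ3.StP

/-!
# STZ3, module TRF: the trace identity (5.2)
-/

namespace STZ3

open STZ LGR MeasureTheory Matrix Filter

open scoped ComplexConjugate Matrix Real Topology

noncomputable section

namespace TRF

variable {r : ℕ} {Φ : RT r} {B : Matrix (Fin r) (Fin r) ℤ}

theorem dR_eq (Φ : RT r) (l : Fin r → ℤ) :
    dR Φ l = ((rd Φ).dim l : ℝ) / ((rd Φ).dim 1 : ℝ) := by
  unfold dR rd
  push_cast
  rfl

theorem dim_one (hW : WFF Φ B) : ((rd Φ).dim 1 : ℤ) ≠ 0 := by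
  show (∏ p ∈ pos Φ, (p.2 ⬝ᵥ (1 : Fin r → ℤ))) ≠ 0
  refine Finset.prod_ne_zero_iff.2 fun p hp => ?_
  obtain ⟨-, h1, h2, -⟩ := hW.ppos p hp
  have h3 : p.2 ⬝ᵥ (1 : Fin r → ℤ) = ∑ i, p.2 i := by simp [dotProduct]
  rw [h3]
  intro h0
  apply h2
  have h4 := (Finset.sum_eq_zero_iff_of_nonneg fun i _ => h1 i).1 h0
  funext i
  exact h4 i (Finset.mem_univ i)

theorem det_sq (hW : WFF Φ B) {w : Matrix (Fin r) (Fin r) ℤ} (hw : w ∈ WF Φ) :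
    (w.det : ℝ) * (w.det : ℝ) = 1 := by
  rcases hW.det w hw with h | h <;> rw [h] <;> norm_num

theorem card_pos (hW : WFF Φ B) : ((WF Φ).card : ℂ) ≠ 0 := by
  have h : 0 < (WF Φ).card := Finset.card_pos.2 ⟨1, hW.one⟩
  exact_mod_cast h.ne'

end TRF

open TRF in
/-- The trace identity (5.2). -/
theorem t_TRF : M_TRF := by
  intro hwf hqd hrv htri N H r Φ B Hc E c k d hCX n σ l U μ hH hT ϑ nf
  have hird := hCX.lrd.ird
  have hW : WFF Φ B := hwf r Φ B hird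
  obtain ⟨q1, q2, q3, q4, q5, q6, q7⟩ := hqd r Φ B hird hW
  have hRV := hrv r Φ B hCX.one_le hird
  have hD1 : (((rd Φ).dim 1 : ℤ) : ℝ) ≠ 0 := by exact_mod_cast dim_one hW
  -- the test function
  set F : (Fin r → ℤ) → ℂ := fun m =>
    ((Real.exp (2 * ϑ * ((rd Φ).Q m : ℝ)) * dR Φ m : ℝ) : ℂ) * nf m with hF
  have htr := htri N H r Φ B Hc E c k d hCX n σ l U μ hH hT F
  have hdl : dR Φ l = (n : ℝ) := by
    rw [dR_eq, div_eq_iff hD1]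
    have h1 := hH.dim
    have h2 : ((n : ℝ) * (((rd Φ).dim 1 : ℤ) : ℝ)) = (((rd Φ).dim l : ℤ) : ℝ) := by
      exact_mod_cast h1
    exact h2.symm
  have hleft : ∀ j, ((Real.exp (-(2 * ϑ * cq Φ l (μ j))) : ℝ) : ℂ) * lm Φ ϑ nf (μ j) =
      ((Real.exp (-(2 * ϑ * ((rd Φ).Q l : ℝ))) : ℝ) : ℂ) * (1 / ((WF Φ).card : ℂ)) *
        ∑ w ∈ WF Φ, (w.det : ℂ) * F (μ j + w *ᵥ 1) := by
    intro j
    unfold lm
    rw [Finset.mul_sum, Finset.mul_sum, Finset.mul_sum]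
    refine Finset.sum_congr rfl fun w hw => ?_
    have h1 : (rd Φ).Q (μ j + w *ᵥ 1) = (rd Φ).Q (μ j) + (rd Φ).Q 1 +
        (μ j) ⬝ᵥ ((rd Φ).A *ᵥ (w *ᵥ 1)) := by
      rw [q2.polar, q1 w hw]
    have h2 : ((rd Φ).Q (μ j + w *ᵥ 1) : ℝ) = (rd Φ).Q (μ j) + (rd Φ).Q 1 +
        ip Φ (μ j) (w *ᵥ 1) := by
      rw [h1]; unfold ip; push_cast; ring
    have h3 : Real.exp (-(2 * ϑ * cq Φ l (μ j))) *
        (Real.exp (2 * ϑ * ip Φ (μ j) (w *ᵥ 1)) * dR Φ (μ j + w *ᵥ 1)) =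
        Real.exp (-(2 * ϑ * ((rd Φ).Q l : ℝ))) *
        (Real.exp (2 * ϑ * ((rd Φ).Q (μ j + w *ᵥ 1) : ℝ)) * dR Φ (μ j + w *ᵥ 1)) := by
      rw [← mul_assoc, ← mul_assoc, ← Real.exp_add, ← Real.exp_add, h2]
      congr 2
      unfold cq
      push_cast
      ring
    have h4 : ((Real.exp (-(2 * ϑ * cq Φ l (μ j))) : ℝ) : ℂ) *
        ((Real.exp (2 * ϑ * ip Φ (μ j) (w *ᵥ 1)) * dR Φ (μ j + w *ᵥ 1) : ℝ) : ℂ) =
        ((Real.exp (-(2 * ϑ * ((rd Φ).Q l : ℝ))) : ℝ) : ℂ) *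
        ((Real.exp (2 * ϑ * ((rd Φ).Q (μ j + w *ᵥ 1) : ℝ)) * dR Φ (μ j + w *ᵥ 1) : ℝ) : ℂ) := by
      rw [← Complex.ofReal_mul, ← Complex.ofReal_mul, h3]
    rw [hF]
    linear_combination (1 / ((WF Φ).card : ℂ)) * (w.det : ℂ) * nf (μ j + w *ᵥ 1) * h4
  rw [Finset.sum_congr rfl fun j _ => hleft j, ← Finset.mul_sum, htr, Finset.mul_sum]
  unfold wa
  rw [← mul_assoc, Finset.mul_sum]
  refine Finset.sum_congr rfl fun w hw => ?_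
  have h1 : dR Φ (w *ᵥ l) = (w.det : ℝ) * (n : ℝ) := by
    rw [dR_eq]
    have h2 : (rd Φ).dim (w *ᵥ l) = w.det * (rd Φ).dim l := hRV.danti w hw l
    rw [h2, ← hdl, dR_eq]
    push_cast
    ring
  have h3 : (w.det : ℝ) * (Real.exp (-(2 * ϑ * ((rd Φ).Q l : ℝ))) *
      (Real.exp (2 * ϑ * ((rd Φ).Q (w *ᵥ l) : ℝ)) * dR Φ (w *ᵥ l))) = (n : ℝ) := by
    rw [h1, q1 w hw, ← mul_assoc (Real.exp _) (Real.exp _), ← Real.exp_add, neg_add_cancel,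
      Real.exp_zero, one_mul, ← mul_assoc, det_sq hW hw, one_mul]
  have h4 : (w.det : ℂ) * (((Real.exp (-(2 * ϑ * ((rd Φ).Q l : ℝ))) : ℝ) : ℂ) *
      ((Real.exp (2 * ϑ * ((rd Φ).Q (w *ᵥ l) : ℝ)) * dR Φ (w *ᵥ l) : ℝ) : ℂ)) = (n : ℂ) := by
    have h5 := congrArg (fun x : ℝ => (x : ℂ)) h3
    rw [← Complex.ofReal_mul, ← Complex.ofReal_intCast, ← Complex.ofReal_mul]
    simpa using h5
  rw [hF]
  linear_combination (1 / ((WF Φ).card : ℂ)) * nf (w *ᵥ l) * h4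

end

end STZ3
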