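import Pool.Agent.STZ3.StP

/-!
# Compact simple groups of rank two: module TRI (helper39)
-/

namespace STZ3

open STZ LGR MeasureTheory Matrix Filter

open scoped ComplexConjugate Matrix Real Topology

noncomputable section

namespace TRI

theorem eu_dz_add {r : ℕ} (a b : Fin r → ℤ) (θ : Fin r → ℝ) :
    eu (dz (a + b) θ) = eu (dz a θ) * eu (dz b θ) := by
  have h : dz (a + b) θ = dz a θ + dz b θ := by
    unfold dz
    rw [← Finset.sum_add_distrib]
    refine Finset.sum_congr rfl fun i _ => ?_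
    rw [Pi.add_apply, Int.cast_add, add_mul]
  rw [h]
  unfold eu
  rw [← Complex.exp_add]
  congr 1
  push_cast
  ring

open Classical in
/-- A linear functional applied to a relation between trigonometric monomials. -/
theorem lin {r : ℕ} (hTP : S_TPOL) {ι : Type} (s : Finset ι) (c : ι → ℂ) (m : ι → Fin r → ℤ)
    (h : ∀ θ : Fin r → ℝ, ∑ i ∈ s, c i * eu (dz (m i) θ) = 0) (F : (Fin r → ℤ) → ℂ) :
    ∑ i ∈ s, c i * F (m i) = 0 := by
  have key : ∀ G : (Fin r → ℤ) → ℂ, ∑ i ∈ s, c i * G (m i) =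
      ∑ μ ∈ s.image m, (∑ i ∈ s with m i = μ, c i) * G μ := by
    intro G
    rw [← Finset.sum_fiberwise_of_maps_to (t := s.image m) (g := m)
      (fun i hi => Finset.mem_image_of_mem m hi)]
    refine Finset.sum_congr rfl fun μ _ => ?_
    rw [Finset.sum_mul]
    refine Finset.sum_congr rfl fun i hi => ?_
    rw [(Finset.mem_filter.1 hi).2]
  have h0 := (hTP r).2 (s.image m) (fun μ => ∑ i ∈ s with m i = μ, c i) fun θ => by
    rw [← key fun μ => eu (dz μ θ)]
    exact h θ
  rw [key F]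
  refine Finset.sum_eq_zero fun μ hμ => ?_
  rw [h0 μ hμ, zero_mul]

end TRI

open TRI in
theorem t_TRI : M_TRI := by
  intro hTA hTP N H r Φ B Hc E c k d hCX n σ l U μ hH hW F
  have hT := hTA N H r Φ B Hc E hCX.closed hCX.lrd
  have hch : ∀ θ : Fin r → ℝ, σ.ch ⟨ta Hc θ, hT.mem θ⟩ = ∑ j, eu (dz (μ j) θ) := by
    intro θ
    unfold Rep.ch
    rw [hW.tor ⟨ta Hc θ, hT.mem θ⟩ θ rfl, Matrix.trace_mul_comm, ← Matrix.mul_assoc, hW.ru,
      Matrix.one_mul, Matrix.trace_diagonal]
  have h1 := lin (r := r) hTP ((Finset.univ : Finset (Option (Fin n))) ×ˢ WF Φ)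
    (fun x => x.1.elim (-(x.2.det : ℂ)) fun _ => (x.2.det : ℂ))
    (fun x => x.1.elim (x.2 *ᵥ l) fun j => μ j + x.2 *ᵥ 1) (fun θ => by
      have h2 := hH.wcf ⟨ta Hc θ, hT.mem θ⟩ θ rfl
      rw [hch θ] at h2
      unfold AT at h2
      rw [Finset.sum_product, Fintype.sum_option]
      simp only [Option.elim_none, Option.elim_some, neg_mul, Finset.sum_neg_distrib]
      have h3 : ∑ x : Fin n, ∑ w ∈ WF Φ, (w.det : ℂ) * eu (dz (μ x + w *ᵥ 1) θ) =
          (∑ w ∈ WF Φ, (w.det : ℂ) * eu (dz (w *ᵥ 1) θ)) * ∑ j, eu (dz (μ j) θ) := by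
        rw [Finset.mul_sum]
        refine Finset.sum_congr rfl fun j _ => ?_
        rw [Finset.sum_mul]
        refine Finset.sum_congr rfl fun w _ => ?_
        rw [eu_dz_add]
        ring
      rw [h3]
      have h4 : (rd Φ).W = WF Φ := rfl
      rw [h4] at h2
      rw [h2]
      ring) F
  rw [Finset.sum_product, Fintype.sum_option] at h1
  simp only [Option.elim_none, Option.elim_some, neg_mul, Finset.sum_neg_distrib] at h1
  linear_combination h1

end

end STZ3
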