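import Pool.Agent.STZ3.StC3

/-!
# TRL: the denominator formula as a sum over subsets, and the strings of one root
-/

set_option autoImplicit false

namespace STZ3

open STZ LGR MeasureTheory Matrix Filter

open scoped ComplexConjugate Matrix Real Topology

noncomputable section

namespace TRL

open Classical in
/-- A linear functional applied to a relation between trigonometric monomials. -/
theorem lin {r : ℕ} (hTP : S_TPOL) {ι : Type} (s : Finset ι) (c : ι → ℂ) (m : ι → Fin r → ℤ)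
    (h : ∀ θ : Fin r → ℝ, ∑ i ∈ s, c i * eu (dz (m i) θ) = 0) (F : (Fin r → ℤ) → ℂ) :
    ∑ i ∈ s, c i * F (m i) = 0 := by
  have key : ∀ G : (Fin r → ℤ) → ℂ, ∑ i ∈ s, c i * G (m i) =
      ∑ μ ∈ s.image m, (∑ i ∈ s with m i = μ, c i) * G μ := by
    intro G
    rw [← Finset.sum_fiberwise_of_maps_to (t := s.image m) (g := m)
      (fun i hi => Finset.mem_image_of_mem m hi)]
    refine Finset.sum_congr rfl fun μ _ => ?_
    rw [Finset.sum_mul]
    refine Finset.sum_congr rfl fun i hi => ?_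
    rw [(Finset.mem_filter.1 hi).2]
  have h0 := (hTP r).2 (s.image m) (fun μ => ∑ i ∈ s with m i = μ, c i) fun θ => by
    rw [← key fun μ => eu (dz μ θ)]
    exact h θ
  rw [key F]
  refine Finset.sum_eq_zero fun μ hμ => ?_
  rw [h0 μ hμ, zero_mul]

/-- Expansion of the product for a character `e`. -/
theorem expand {r : ℕ} (e : (Fin r → ℤ) → ℂ) (hadd : ∀ a b, e (a + b) = e a * e b)
    (h0 : e 0 = 1) (s : Finset ((Fin r → ℤ) × (Fin r → ℤ))) :
    e 1 * ∏ p ∈ s, (1 - e (-p.1)) = ∑ S ∈ s.powerset, (-1 : ℂ) ^ S.card * e (1 - ∑ p ∈ S, p.1) := by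
  classical
  have h1 : ∀ S : Finset ((Fin r → ℤ) × (Fin r → ℤ)), ∏ p ∈ S, -e (-p.1) =
      (-1 : ℂ) ^ S.card * e (-∑ p ∈ S, p.1) := by
    intro S
    induction S using Finset.induction_on with
    | empty => simp [h0]
    | insert q S hq ih =>
      rw [Finset.prod_insert hq, ih, Finset.card_insert_of_notMem hq, Finset.sum_insert hq,
        neg_add, hadd, pow_succ]
      ring
  have h2 : ∏ p ∈ s, (1 - e (-p.1)) = ∏ p ∈ s, (1 + -e (-p.1)) := by
    refine Finset.prod_congr rfl fun p _ => ?_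
    ring
  rw [h2, Finset.prod_one_add, Finset.mul_sum]
  refine Finset.sum_congr rfl fun S _ => ?_
  rw [h1, sub_eq_add_neg, hadd]
  ring

theorem eu_add {r : ℕ} (θ : Fin r → ℝ) (a b : Fin r → ℤ) :
    eu (dz (a + b) θ) = eu (dz a θ) * eu (dz b θ) := by
  have h : dz (a + b) θ = dz a θ + dz b θ := by
    unfold dz
    rw [← Finset.sum_add_distrib]
    refine Finset.sum_congr rfl fun i _ => ?_
    rw [Pi.add_apply, Int.cast_add, add_mul]
  rw [h]
  unfold eu
  rw [← Complex.exp_add]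
  congr 1
  push_cast
  ring

theorem eu_zero {r : ℕ} (θ : Fin r → ℝ) : eu (dz (0 : Fin r → ℤ) θ) = 1 := by
  simp [dz, eu]

theorem dz_neg {r : ℕ} (a : Fin r → ℤ) (θ : Fin r → ℝ) : dz (-a) θ = -dz a θ := by
  unfold dz
  rw [← Finset.sum_neg_distrib]
  refine Finset.sum_congr rfl fun i _ => ?_
  rw [Pi.neg_apply, Int.cast_neg, neg_mul]

theorem dz_one {r : ℕ} (θ : Fin r → ℝ) : dz (1 : Fin r → ℤ) θ = ∑ i, θ i := by
  unfold dz
  refine Finset.sum_congr rfl fun i _ => ?_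
  rw [Pi.one_apply, Int.cast_one, one_mul]

/-- the denominator formula as a sum over subsets -/
theorem den (hD : S_DENO) (hTP : S_TPOL) {r : ℕ} {Φ : RT r} {B : Matrix (Fin r) (Fin r) ℤ}
    (hI : IRD Φ B) (hW : WFF Φ B) (G : (Fin r → ℤ) → ℂ) :
    ∑ w ∈ WF Φ, (w.det : ℂ) * G (w *ᵥ 1) =
      ∑ S ∈ (pos Φ).powerset, (-1 : ℂ) ^ S.card * G (1 - ∑ p ∈ S, p.1) := by
  have h1 := lin hTP ((WF Φ).disjSum (pos Φ).powerset)
    (Sum.elim (fun w => (w.det : ℂ)) (fun S => -(-1 : ℂ) ^ S.card))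
    (Sum.elim (fun w => w *ᵥ 1) (fun S => 1 - ∑ p ∈ S, p.1)) (fun θ => by
      rw [Finset.sum_disjSum]
      simp only [Sum.elim_inl, Sum.elim_inr, neg_mul, Finset.sum_neg_distrib]
      have h2 := hD r Φ B hI hW θ
      have h3 := expand (fun a => eu (dz a θ)) (eu_add θ) (eu_zero θ) (pos Φ)
      simp only [dz_neg, dz_one] at h3
      rw [← h3, ← h2]
      unfold AT
      have h4 : (rd Φ).W = WF Φ := rfl
      rw [h4]
      ring) G
  rw [Finset.sum_disjSum] at h1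
  simp only [Sum.elim_inl, Sum.elim_inr, neg_mul, Finset.sum_neg_distrib] at h1
  linear_combination h1

/-- splitting the subsets into those without and with `a` -/
theorem split {r : ℕ} (Φ : RT r) (a : (Fin r → ℤ) × (Fin r → ℤ)) (ha : a ∈ pos Φ)
    (F : (Fin r → ℤ) → ℂ) (m : Fin r → ℤ) :
    ∑ S ∈ (pos Φ).powerset, (-1 : ℂ) ^ S.card * F (m + (1 - ∑ p ∈ S, p.1)) =
      FF Φ a F m - FF Φ a F (m - a.1) := by
  have hne : a ∉ (pos Φ).erase a := Finset.notMem_erase a _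
  have h1 : (pos Φ).powerset = (insert a ((pos Φ).erase a)).powerset := by
    rw [Finset.insert_erase ha]
  rw [h1, Finset.sum_powerset_insert hne]
  unfold FF
  rw [sub_eq_add_neg, ← Finset.sum_neg_distrib]
  congr 1
  · refine Finset.sum_congr rfl fun S _ => ?_
    congr 2
    abel
  · refine Finset.sum_congr rfl fun S hS => ?_
    have hS' : a ∉ S := fun h => hne (Finset.mem_powerset.1 hS h)
    rw [Finset.card_insert_of_notMem hS', Finset.sum_insert hS', pow_succ]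
    have e : m + (1 - (a.1 + ∑ p ∈ S, p.1)) = m - a.1 + 1 - ∑ p ∈ S, p.1 := by abel
    rw [e]
    ring

end TRL

theorem t_TRL : M_TRL := by
  intro hWFA hD hTP hTRI N H r Φ B Hc E c k d hCX a n σ l U μ x m τ hHW hWT hST F
  have hI := hCX.lrd.ird
  have hW := hWFA r Φ B hI
  have h1 := hTRI N H r Φ B Hc E c k d hCX n σ l U μ hHW hWT F
  have h2 : ∀ j, ∑ w ∈ WF Φ, (w.det : ℂ) * F (μ j + w *ᵥ 1) =
      FF Φ a.1 F (μ j) - FF Φ a.1 F (μ j - a.1.1) := by
    intro j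
    rw [TRL.den hD hTP hI hW (fun ν => F (μ j + ν))]
    exact TRL.split Φ a.1 a.2 F (μ j)
  have h3 := hST.str (fun ν _ => FF Φ a.1 F ν - FF Φ a.1 F (ν - a.1.1))
  rw [← h1, Finset.sum_congr rfl fun j _ => h2 j, h3]
  refine Finset.sum_congr rfl fun s _ => ?_
  have h4 := Finset.sum_range_sub' (fun i : ℕ => FF Φ a.1 F (τ s - (i : ℤ) • a.1.1))
    ((a.1.2 ⬝ᵥ τ s).toNat + 1)
  have h5 : (((a.1.2 ⬝ᵥ τ s).toNat + 1 : ℕ) : ℤ) = a.1.2 ⬝ᵥ τ s + 1 := by
    have h6 := Int.toNat_of_nonneg (hST.nn s)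
    push_cast
    rw [h6]
  have h0 : τ s - ((0 : ℕ) : ℤ) • a.1.1 = τ s := by simp
  rw [h5, h0] at h4
  rw [← h4]
  refine Finset.sum_congr rfl fun i _ => ?_
  have e : τ s - (i : ℤ) • a.1.1 - a.1.1 = τ s - ((i + 1 : ℕ) : ℤ) • a.1.1 := by
    push_cast
    rw [add_smul, one_smul]
    abel
  rw [e]

end

end STZ3
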