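import Pool.Agent.STZ3.StP

/-!
# Module SHP_TRM: the matrix limit
-/

namespace STZ3

open STZ LGR MeasureTheory Matrix Filter

open scoped ComplexConjugate Matrix Real Topology

noncomputable section

namespace TRM

section gen

variable {𝔸 : Type*} [NormedRing 𝔸] [NormedAlgebra ℂ 𝔸] [CompleteSpace 𝔸]

theorem exp_bigO (k : ℕ) : (fun y : 𝔸 => NormedSpace.exp y -
    (NormedSpace.expSeries ℂ 𝔸).partialSum k y) =O[𝓝 0] fun y => ‖y‖ ^ k := by
  have := (NormedSpace.exp_hasFPowerSeriesAt_zero (𝕂 := ℂ) (𝔸 := 𝔸)).isBigO_sub_partialSum_pow k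
  simpa using this

omit [CompleteSpace 𝔸] in
theorem ps2 (y : 𝔸) : (NormedSpace.expSeries ℂ 𝔸).partialSum 2 y = 1 + y := by
  simp [FormalMultilinearSeries.partialSum, Finset.sum_range_succ,
    NormedSpace.expSeries_apply_eq]

omit [CompleteSpace 𝔸] in
theorem ps3 (y : 𝔸) : (NormedSpace.expSeries ℂ 𝔸).partialSum 3 y =
    1 + y + (1 / 2 : ℂ) • y ^ 2 := by
  simp [FormalMultilinearSeries.partialSum, Finset.sum_range_succ,
    NormedSpace.expSeries_apply_eq]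

theorem exp_bound (k : ℕ) : ∃ C : ℝ, 0 ≤ C ∧ ∀ᶠ y : 𝔸 in 𝓝 0,
    ‖NormedSpace.exp y - (NormedSpace.expSeries ℂ 𝔸).partialSum k y‖ ≤ C * ‖y‖ ^ k := by
  obtain ⟨C, hC, h⟩ := (exp_bigO (𝔸 := 𝔸) k).exists_nonneg
  refine ⟨C, hC, ?_⟩
  filter_upwards [h.bound] with y hy
  simpa using hy

omit [NormedAlgebra ℂ 𝔸] [CompleteSpace 𝔸] in
theorem tel [NormOneClass 𝔸] (a b : 𝔸) (M : ℝ) (hM : 1 ≤ M) (ha : ‖a‖ ≤ M) (hb : ‖b‖ ≤ M)
    (k : ℕ) : ‖a ^ k - b ^ k‖ ≤ k * ‖a - b‖ * M ^ k := by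
  have hM0 : 0 ≤ M := by linarith
  induction k with
  | zero => simp
  | succ k ih =>
    have h1 : a ^ (k + 1) - b ^ (k + 1) = a ^ k * (a - b) + (a ^ k - b ^ k) * b := by
      rw [pow_succ, pow_succ]
      noncomm_ring
    have h2 : ‖a ^ k‖ ≤ M ^ k := (norm_pow_le a k).trans (pow_le_pow_left₀ (norm_nonneg _) ha k)
    calc ‖a ^ (k + 1) - b ^ (k + 1)‖ ≤ ‖a ^ k * (a - b)‖ + ‖(a ^ k - b ^ k) * b‖ := by
          rw [h1]
          exact norm_add_le _ _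
      _ ≤ ‖a ^ k‖ * ‖a - b‖ + ‖a ^ k - b ^ k‖ * ‖b‖ :=
          add_le_add (norm_mul_le _ _) (norm_mul_le _ _)
      _ ≤ M ^ k * ‖a - b‖ + (k * ‖a - b‖ * M ^ k) * M := by
          gcongr
      _ ≤ M ^ (k + 1) * ‖a - b‖ + (k * ‖a - b‖ * M ^ k) * M := by
          gcongr
          omega
      _ = ((k + 1 : ℕ) : ℝ) * ‖a - b‖ * M ^ (k + 1) := by
          push_cast
          ring

omit [CompleteSpace 𝔸] in
theorem inv_tendsto (S : 𝔸) : Tendsto (fun m : ℕ => ((m : ℂ)⁻¹) • S) atTop (𝓝 0) := by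
  rw [tendsto_zero_iff_norm_tendsto_zero]
  have h1 : ∀ m : ℕ, ‖((m : ℂ)⁻¹) • S‖ = (m : ℝ)⁻¹ * ‖S‖ := by
    intro m
    rw [norm_smul, norm_inv, Complex.norm_natCast]
  simp only [h1]
  have := tendsto_inv_atTop_nhds_zero_nat (𝕜 := ℝ)
  simpa using this.mul_const ‖S‖

theorem pow_tendsto [NormOneClass 𝔸] (A : ℕ → 𝔸) (S : 𝔸)
    (hA : Tendsto (fun m : ℕ => (m : ℝ) * ‖A m - 1 - ((m : ℂ)⁻¹) • S‖) atTop (𝓝 0)) :
    Tendsto (fun m => A m ^ m) atTop (𝓝 (NormedSpace.exp S)) := by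
  set B : ℕ → 𝔸 := fun m => NormedSpace.exp (((m : ℂ)⁻¹) • S) with hBdef
  have hB : Tendsto (fun m : ℕ => (m : ℝ) * ‖B m - 1 - ((m : ℂ)⁻¹) • S‖) atTop (𝓝 0) := by
    obtain ⟨C, hC, h⟩ := exp_bound (𝔸 := 𝔸) 2
    have h1 := (inv_tendsto S).eventually h
    have h2 : Tendsto (fun m : ℕ => C * ‖S‖ ^ 2 * (m : ℝ)⁻¹) atTop (𝓝 0) := by
      have := (tendsto_inv_atTop_nhds_zero_nat (𝕜 := ℝ)).const_mul (C * ‖S‖ ^ 2)
      simpa using this
    refine squeeze_zero' (Eventually.of_forall fun m => by positivity) ?_ h2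
    filter_upwards [h1, eventually_gt_atTop 0] with m hm hm0
    rw [ps2] at hm
    have hm' : (0 : ℝ) < m := by exact_mod_cast hm0
    have e1 : B m - 1 - ((m : ℂ)⁻¹) • S =
        NormedSpace.exp (((m : ℂ)⁻¹) • S) - (1 + ((m : ℂ)⁻¹) • S) := by
      rw [hBdef]
      abel
    rw [e1]
    calc (m : ℝ) * ‖NormedSpace.exp (((m : ℂ)⁻¹) • S) - (1 + ((m : ℂ)⁻¹) • S)‖
        ≤ m * (C * ‖((m : ℂ)⁻¹) • S‖ ^ 2) := by gcongr
      _ = C * ‖S‖ ^ 2 * (m : ℝ)⁻¹ := by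
          rw [norm_smul, norm_inv, Complex.norm_natCast]
          field_simp
  have hAB : Tendsto (fun m : ℕ => (m : ℝ) * ‖A m - B m‖) atTop (𝓝 0) := by
    have := hA.add hB
    rw [add_zero] at this
    refine squeeze_zero (fun m => by positivity) (fun m => ?_) this
    rw [← mul_add]
    refine mul_le_mul_of_nonneg_left ?_ (Nat.cast_nonneg m)
    have e1 : A m - B m = (A m - 1 - ((m : ℂ)⁻¹) • S) - (B m - 1 - ((m : ℂ)⁻¹) • S) := by abel
    rw [e1]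
    exact norm_sub_le _ _
  have hnorm : ∀ G : ℕ → 𝔸,
      Tendsto (fun m : ℕ => (m : ℝ) * ‖G m - 1 - ((m : ℂ)⁻¹) • S‖) atTop (𝓝 0) →
      ∀ᶠ m : ℕ in atTop, ‖G m‖ ≤ Real.exp ((‖S‖ + 1) / m) := by
    intro G hG
    have h1 := hG.eventually (gt_mem_nhds (zero_lt_one (α := ℝ)))
    filter_upwards [h1, eventually_gt_atTop 0] with m hm hm0
    have hm' : (0 : ℝ) < m := by exact_mod_cast hm0
    have e1 : G m = 1 + ((m : ℂ)⁻¹) • S + (G m - 1 - ((m : ℂ)⁻¹) • S) := by abel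
    have e2 : ‖G m - 1 - ((m : ℂ)⁻¹) • S‖ ≤ 1 / m := by
      rw [le_div_iff₀ hm']
      linarith
    calc ‖G m‖ = ‖1 + ((m : ℂ)⁻¹) • S + (G m - 1 - ((m : ℂ)⁻¹) • S)‖ := by rw [← e1]
      _ ≤ ‖(1 : 𝔸) + ((m : ℂ)⁻¹) • S‖ + ‖G m - 1 - ((m : ℂ)⁻¹) • S‖ := norm_add_le _ _
      _ ≤ (‖(1 : 𝔸)‖ + ‖((m : ℂ)⁻¹) • S‖) + 1 / m := add_le_add (norm_add_le _ _) e2
      _ = (‖S‖ + 1) / m + 1 := by
          rw [norm_one, norm_smul, norm_inv, Complex.norm_natCast]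
          field_simp
          ring
      _ ≤ Real.exp ((‖S‖ + 1) / m) := Real.add_one_le_exp _
  have hdiff : Tendsto (fun m : ℕ => A m ^ m - B m ^ m) atTop (𝓝 0) := by
    rw [tendsto_zero_iff_norm_tendsto_zero]
    have h2 : Tendsto (fun m : ℕ => (m : ℝ) * ‖A m - B m‖ * Real.exp (‖S‖ + 1)) atTop (𝓝 0) := by
      simpa using hAB.mul_const (Real.exp (‖S‖ + 1))
    refine squeeze_zero' (Eventually.of_forall fun m => norm_nonneg _) ?_ h2
    filter_upwards [hnorm A hA, hnorm B hB, eventually_gt_atTop 0] with m h3 h4 hm0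
    have hm' : (0 : ℝ) < m := by exact_mod_cast hm0
    have h5 : 1 ≤ Real.exp ((‖S‖ + 1) / m) := Real.one_le_exp (by positivity)
    have h6 := tel (A m) (B m) _ h5 h3 h4 m
    have h7 : Real.exp ((‖S‖ + 1) / m) ^ m = Real.exp (‖S‖ + 1) := by
      rw [← Real.exp_nat_mul]
      congr 1
      field_simp
    rwa [h7] at h6
  have hBm : ∀ᶠ m : ℕ in atTop, B m ^ m = NormedSpace.exp S := by
    filter_upwards [eventually_gt_atTop 0] with m hm0
    let _ : NormedAlgebra ℚ 𝔸 := NormedAlgebra.restrictScalars ℚ ℂ 𝔸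
    have hm' : (m : ℂ) ≠ 0 := by exact_mod_cast hm0.ne'
    rw [hBdef]
    simp only
    rw [← NormedSpace.exp_nsmul]
    congr 1
    rw [← Nat.cast_smul_eq_nsmul ℂ, smul_smul, mul_inv_cancel₀ hm', one_smul]
  have h8 : Tendsto (fun m : ℕ => A m ^ m - B m ^ m + NormedSpace.exp S) atTop
      (𝓝 (0 + NormedSpace.exp S)) := hdiff.add_const _
  rw [zero_add] at h8
  refine h8.congr' ?_
  filter_upwards [hBm] with m hm
  rw [hm]
  abel

/-! ### Random signs -/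

/-- the sign -/
def sg (b : Bool) : ℂ := if b then 1 else -1

theorem sg_not (b : Bool) : sg (!b) = -sg b := by
  cases b <;> simp [sg]

theorem sg_sq (b : Bool) : sg b * sg b = 1 := by
  cases b <;> simp [sg]

/-- change the sign at `a` -/
def fl {q : ℕ} (a : Fin q) (s : Fin q → Bool) : Fin q → Bool := Function.update s a (!(s a))

theorem fl_fl {q : ℕ} (a : Fin q) (s : Fin q → Bool) : fl a (fl a s) = s := by
  unfold fl
  funext b
  by_cases h : b = a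
  · subst h
    simp
  · simp [Function.update_of_ne h]

theorem flip_sum {q : ℕ} (a : Fin q) (f : (Fin q → Bool) → ℂ) (h : ∀ s, f (fl a s) = -f s) :
    ∑ s, f s = 0 := by
  have h1 : ∑ s, f s = ∑ s, f (fl a s) :=
    (Equiv.sum_comp (⟨fl a, fl a, fl_fl a, fl_fl a⟩ : (Fin q → Bool) ≃ (Fin q → Bool)) f).symm
  have h2 : ∑ s, f s = -∑ s, f s := by
    rw [← Finset.sum_neg_distrib]
    exact h1.trans (Finset.sum_congr rfl fun s _ => h s)
  have h3 : (2 : ℂ) * ∑ s, f s = 0 := by linear_combination h2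
  rcases mul_eq_zero.1 h3 with h4 | h4
  · norm_num at h4
  · exact h4

theorem sum_sg {q : ℕ} (a : Fin q) : ∑ s : Fin q → Bool, sg (s a) = 0 := by
  refine flip_sum a _ (fun s => ?_)
  unfold fl
  rw [Function.update_self, sg_not]

theorem sum_sg_sg {q : ℕ} (a b : Fin q) :
    ∑ s : Fin q → Bool, sg (s a) * sg (s b) = if a = b then 2 ^ q else 0 := by
  by_cases h : a = b
  · subst h
    rw [if_pos rfl]
    simp only [sg_sq]
    simp
  · rw [if_neg h]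
    refine flip_sum a _ (fun s => ?_)
    unfold fl
    rw [Function.update_self, sg_not, Function.update_of_ne (Ne.symm h)]
    ring

/-- the random element -/
def Z {q : ℕ} (D : Fin q → 𝔸) (s : Fin q → Bool) : 𝔸 := ∑ a, sg (s a) • D a

omit [CompleteSpace 𝔸] in
theorem sum_Z {q : ℕ} (D : Fin q → 𝔸) : ∑ s, Z D s = 0 := by
  unfold Z
  rw [Finset.sum_comm]
  refine Finset.sum_eq_zero fun a _ => ?_
  rw [← Finset.sum_smul, sum_sg, zero_smul]

omit [CompleteSpace 𝔸] in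
theorem sum_Z_sq {q : ℕ} (D : Fin q → 𝔸) :
    ∑ s, Z D s ^ 2 = (2 ^ q : ℂ) • ∑ a, D a * D a := by
  have h1 : ∀ s, Z D s ^ 2 = ∑ a, ∑ b, (sg (s a) * sg (s b)) • (D a * D b) := by
    intro s
    unfold Z
    rw [sq, Finset.sum_mul_sum]
    refine Finset.sum_congr rfl fun a _ => Finset.sum_congr rfl fun b _ => ?_
    rw [smul_mul_smul_comm]
  simp only [h1]
  rw [Finset.sum_comm, Finset.smul_sum]
  refine Finset.sum_congr rfl fun a _ => ?_
  rw [Finset.sum_comm, Finset.sum_eq_single a]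
  · rw [← Finset.sum_smul, sum_sg_sg, if_pos rfl]
  · intro b _ hb
    rw [← Finset.sum_smul, sum_sg_sg, if_neg (Ne.symm hb), zero_smul]
  · intro h
    exact absurd (Finset.mem_univ a) h

theorem gen_TRM [NormOneClass 𝔸] (q : ℕ) (D : Fin q → 𝔸) :
    Tendsto (fun m : ℕ => ((1 / 2 ^ q : ℂ) • ∑ s : Fin q → Bool,
      NormedSpace.exp ((√(2 / (m : ℝ)) : ℂ) • ∑ a, (if s a then (1 : ℂ) else -1) • D a)) ^ m)
      atTop (𝓝 (NormedSpace.exp (∑ a, D a * D a))) := by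
  refine pow_tendsto _ _ ?_
  obtain ⟨C, hC, h⟩ := exp_bound (𝔸 := 𝔸) 3
  -- `h = √(2/m)`
  have hh : Tendsto (fun m : ℕ => √(2 / (m : ℝ))) atTop (𝓝 0) := by
    have h1 : Tendsto (fun m : ℕ => 2 / (m : ℝ)) atTop (𝓝 0) :=
      tendsto_const_div_atTop_nhds_zero_nat 2
    have := h1.sqrt
    simpa using this
  have hy : ∀ s : Fin q → Bool, Tendsto (fun m : ℕ => (√(2 / (m : ℝ)) : ℂ) • Z D s) atTop (𝓝 0) := by
    intro s
    rw [tendsto_zero_iff_norm_tendsto_zero]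
    have h1 : ∀ m : ℕ, ‖(√(2 / (m : ℝ)) : ℂ) • Z D s‖ = √(2 / (m : ℝ)) * ‖Z D s‖ := by
      intro m
      rw [norm_smul, Complex.norm_real, Real.norm_eq_abs, abs_of_nonneg (Real.sqrt_nonneg _)]
    simp only [h1]
    simpa using hh.mul_const ‖Z D s‖
  have hev : ∀ᶠ m : ℕ in atTop, ∀ s : Fin q → Bool,
      ‖NormedSpace.exp ((√(2 / (m : ℝ)) : ℂ) • Z D s) -
        (NormedSpace.expSeries ℂ 𝔸).partialSum 3 ((√(2 / (m : ℝ)) : ℂ) • Z D s)‖ ≤
        C * ‖(√(2 / (m : ℝ)) : ℂ) • Z D s‖ ^ 3 := by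
    rw [eventually_all]
    intro s
    exact (hy s).eventually h
  have hlim : Tendsto (fun m : ℕ => ‖(1 / 2 ^ q : ℂ)‖ * (∑ s : Fin q → Bool, C * ‖Z D s‖ ^ 3) *
      (2 * √(2 / (m : ℝ)))) atTop (𝓝 0) := by
    have := (hh.const_mul 2).const_mul
      (‖(1 / 2 ^ q : ℂ)‖ * (∑ s : Fin q → Bool, C * ‖Z D s‖ ^ 3))
    simpa using this
  refine squeeze_zero' (Eventually.of_forall fun m => by positivity) ?_ hlim
  filter_upwards [hev, eventually_gt_atTop 0] with m hm hm0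
  have hm' : (0 : ℝ) < m := by exact_mod_cast hm0
  have hmc : (m : ℂ) ≠ 0 := by exact_mod_cast hm0.ne'
  set t : ℝ := √(2 / (m : ℝ)) with ht
  have ht0 : 0 ≤ t := Real.sqrt_nonneg _
  have ht2 : t ^ 2 = 2 / m := Real.sq_sqrt (by positivity)
  have h2q : (2 : ℂ) ^ q ≠ 0 := pow_ne_zero _ two_ne_zero
  have key : (1 / 2 ^ q : ℂ) • ∑ s : Fin q → Bool,
      NormedSpace.exp ((t : ℂ) • ∑ a, (if s a then (1 : ℂ) else -1) • D a) - 1 -
        ((m : ℂ)⁻¹) • ∑ a, D a * D a =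
      (1 / 2 ^ q : ℂ) • ∑ s : Fin q → Bool, (NormedSpace.exp ((t : ℂ) • Z D s) -
        (NormedSpace.expSeries ℂ 𝔸).partialSum 3 ((t : ℂ) • Z D s)) := by
    have e1 : ∑ s : Fin q → Bool, (NormedSpace.expSeries ℂ 𝔸).partialSum 3 ((t : ℂ) • Z D s) =
        (2 ^ q : ℂ) • (1 : 𝔸) + ((t : ℂ) ^ 2 / 2) • ((2 ^ q : ℂ) • ∑ a, D a * D a) := by
      simp only [ps3]
      rw [Finset.sum_add_distrib, Finset.sum_add_distrib, ← Finset.smul_sum, ← Finset.smul_sum,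
        sum_Z, smul_zero, add_zero, ← sum_Z_sq]
      congr 1
      · simp only [Finset.sum_const, Finset.card_univ, Fintype.card_fun, Fintype.card_bool,
          Fintype.card_fin]
        rw [← Nat.cast_smul_eq_nsmul ℂ]
        push_cast
        rfl
      · rw [Finset.smul_sum, Finset.smul_sum]
        refine Finset.sum_congr rfl fun s _ => ?_
        rw [smul_pow, smul_smul]
        congr 1
        ring
    rw [Finset.sum_sub_distrib, e1, smul_sub, smul_add, smul_smul, smul_smul, smul_smul]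
    have e2 : (1 / 2 ^ q : ℂ) * 2 ^ q = 1 := by field_simp
    have e3 : (1 / 2 ^ q : ℂ) * ((t : ℂ) ^ 2 / 2) * 2 ^ q = (m : ℂ)⁻¹ := by
      have : ((t : ℂ)) ^ 2 = 2 / m := by
        have := congrArg (fun x : ℝ => (x : ℂ)) ht2
        push_cast at this
        exact this
      rw [this]
      field_simp
    rw [e2, e3, one_smul, ← sub_sub]
    rfl
  rw [key, norm_smul]
  calc (m : ℝ) * (‖(1 / 2 ^ q : ℂ)‖ * ‖∑ s : Fin q → Bool, (NormedSpace.exp ((t : ℂ) • Z D s) -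
        (NormedSpace.expSeries ℂ 𝔸).partialSum 3 ((t : ℂ) • Z D s))‖)
      ≤ (m : ℝ) * (‖(1 / 2 ^ q : ℂ)‖ * ∑ s : Fin q → Bool, C * ‖(t : ℂ) • Z D s‖ ^ 3) := by
        gcongr
        exact (norm_sum_le _ _).trans (Finset.sum_le_sum fun s _ => hm s)
    _ = ‖(1 / 2 ^ q : ℂ)‖ * (∑ s : Fin q → Bool, C * ‖Z D s‖ ^ 3) * (2 * t) := by
        have e4 : ∀ s : Fin q → Bool, C * ‖(t : ℂ) • Z D s‖ ^ 3 = t ^ 3 * (C * ‖Z D s‖ ^ 3) := by
          intro s
          rw [norm_smul, Complex.norm_real, Real.norm_eq_abs, abs_of_nonneg ht0]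
          ring
        simp only [e4]
        rw [← Finset.mul_sum]
        have e5 : (m : ℝ) * t ^ 3 = 2 * t := by
          calc (m : ℝ) * t ^ 3 = m * t ^ 2 * t := by ring
            _ = 2 * t := by
              rw [ht2]
              field_simp
        linear_combination (‖(1 / 2 ^ q : ℂ)‖ * (∑ s : Fin q → Bool, C * ‖Z D s‖ ^ 3)) * e5

end gen

end TRM

open scoped Matrix.Norms.Operator in
theorem TRM.mat (n q : ℕ) [Nonempty (Fin n)] (D : Fin q → Matrix (Fin n) (Fin n) ℂ) :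
    Tendsto (fun m : ℕ => ((1 / 2 ^ q : ℂ) • ∑ s : Fin q → Bool,
      NormedSpace.exp ((√(2 / (m : ℝ)) : ℂ) • ∑ a, (if s a then (1 : ℂ) else -1) • D a)) ^ m) atTop
    (𝓝 (NormedSpace.exp (∑ a, D a * D a))) :=
  TRM.gen_TRM q D

theorem t_TRM : S_TRM := by
  intro n q D i j
  have : Nonempty (Fin n) := ⟨i⟩
  have h := TRM.mat n q D
  exact ((continuous_apply j).comp (continuous_apply i)).continuousAt.tendsto.comp h

end

end STZ3
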