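import Pool.Agent.STZ3.StF
import Pool.Agent.STZ.TTX

/-!
# Module TTB: the `T T*` argument for weighted sums of kernels, the form of the kernel
-/

set_option autoImplicit false

namespace STZ3

open STZ LGR MeasureTheory Matrix Filter

open scoped ComplexConjugate Matrix Real Topology

noncomputable section

open STZ.TTX in
theorem t_TTB : M_TTB := by
  intro hKB M _ _ _ _ _ _ μ _ ι K hK φ F T q hFT hq0 hq1 u hu G hG
  have B := hKB M μ ι K hK
  have hGt : ∀ t, Continuous (G t) := sec' hG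
  have hvc : ∀ a, Continuous (vt (φ a) G) := fun a => vt_cont hG (φ a)
  -- first step: the pairing
  have h1 : ∫ t in (0 : ℝ)..1, ∫ x, conj (G t x) * ∑ a ∈ F, eu (t * φ a) * u a x ∂μ =
      ∑ a ∈ F, ∫ x, conj (vt (φ a) G x) * u a x ∂μ := by
    have hc : ∀ a ∈ F, Continuous fun z : ℝ × M =>
        conj (G z.1 z.2) * (eu (z.1 * φ a) * u a z.2) := by
      intro a ha
      refine (Complex.continuous_conj.comp hG).mul
        (Continuous.mul (eu_cont.comp (by fun_prop)) ((hu a ha).1.comp continuous_snd))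
    have h2 : ∀ t, ∫ x, conj (G t x) * ∑ a ∈ F, eu (t * φ a) * u a x ∂μ =
        ∑ a ∈ F, ∫ x, conj (G t x) * (eu (t * φ a) * u a x) ∂μ := by
      intro t
      rw [← integral_finsetSum]
      · refine integral_congr_ae (Filter.Eventually.of_forall fun x => ?_)
        simp only
        rw [Finset.mul_sum]
      · intro a ha
        exact integ μ ((hc a ha).comp (f := fun x : M => (t, x)) (by fun_prop))
    simp only [h2]
    rw [intervalIntegral.integral_finsetSum]
    · refine Finset.sum_congr rfl fun a ha => ?_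
      exact pair μ hG (φ a) (hu a ha).1
    · intro a ha
      refine Continuous.intervalIntegrable ?_ _ _
      exact par μ (f := fun (t : ℝ) (x : M) => conj (G t x) * (eu (t * φ a) * u a x)) (hc a ha)
  rw [h1]
  -- second step: Cauchy-Schwarz
  have h2 : ∀ a ∈ F, ‖∫ x, conj (vt (φ a) G x) * u a x ∂μ‖ ≤
      √(nsq μ (u a)) * √(nsq μ (Pr μ K {a} (vt (φ a) G))) := by
    intro a ha
    have h3 := B.adj {a} (u a) (vt (φ a) G) (hu a ha).1 (hvc a)
    rw [B.fix {a} a (u a) (Finset.mem_singleton_self a) (hu a ha)] at h3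
    rw [← h3]
    exact cs μ (hu a ha).1 (B.cont {a} _ (hvc a))
  have hn0 : ∀ w : M → ℂ, 0 ≤ nsq μ w := fun w => integral_nonneg fun x => by positivity
  have h3 : ‖∑ a ∈ F, ∫ x, conj (vt (φ a) G x) * u a x ∂μ‖ ^ 2 ≤
      (∑ a ∈ F, nsq μ (u a)) * ∑ a ∈ F, nsq μ (Pr μ K {a} (vt (φ a) G)) := by
    have h4 : ‖∑ a ∈ F, ∫ x, conj (vt (φ a) G x) * u a x ∂μ‖ ≤
        √(∑ a ∈ F, nsq μ (u a)) * √(∑ a ∈ F, nsq μ (Pr μ K {a} (vt (φ a) G))) :=
      ((norm_sum_le _ _).trans (Finset.sum_le_sum h2)).trans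
        (Real.sum_sqrt_mul_sqrt_le F (fun a => hn0 _) (fun a => hn0 _))
    have h5 := pow_le_pow_left₀ (norm_nonneg _) h4 2
    rw [mul_pow, Real.sq_sqrt (Finset.sum_nonneg fun a _ => hn0 _),
      Real.sq_sqrt (Finset.sum_nonneg fun a _ => hn0 _)] at h5
    exact h5
  -- third step: the weights
  have h4 : ∑ a ∈ F, nsq μ (Pr μ K {a} (vt (φ a) G)) ≤
      ∑ a ∈ T, q a * nsq μ (Pr μ K {a} (vt (φ a) G)) := by
    refine (Finset.sum_le_sum (f := fun a => nsq μ (Pr μ K {a} (vt (φ a) G)))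
      (g := fun a => q a * nsq μ (Pr μ K {a} (vt (φ a) G))) fun a ha => ?_).trans ?_
    · exact le_mul_of_one_le_left (hn0 _) (hq1 a ha)
    · exact Finset.sum_le_sum_of_subset_of_nonneg hFT fun a ha _ => mul_nonneg (hq0 a ha) (hn0 _)
  -- fourth step: the kernel
  have hinn : ∀ {f : ℝ → ℝ → ℂ}, Continuous (fun z : ℝ × ℝ => f z.1 z.2) →
      Continuous fun t => ∫ s in (0 : ℝ)..1, f t s := by
    intro f hf
    exact intervalIntegral.continuous_parametric_intervalIntegral_of_continuous'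
      (f := fun (t s : ℝ) => f t s) hf 0 1
  have h5 : ((∑ a ∈ T, q a * nsq μ (Pr μ K {a} (vt (φ a) G)) : ℝ) : ℂ) =
      ∫ t in (0 : ℝ)..1, ∫ s in (0 : ℝ)..1, ∫ x, conj (G t x) *
          ∫ y, (∑ a ∈ T, (q a : ℂ) * eu ((t - s) * φ a) * K a x y) * G s y ∂μ ∂μ := by
    have h6 : ∀ a ∈ T, ((q a * nsq μ (Pr μ K {a} (vt (φ a) G)) : ℝ) : ℂ) =
        ∫ t in (0 : ℝ)..1, ∫ s in (0 : ℝ)..1, (q a : ℂ) * eu ((t - s) * φ a) * bf μ (K a) (G s) (G t) := by
      intro a _
      have h7 : (nsq μ (Pr μ K {a} (vt (φ a) G)) : ℂ) =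
          ∫ t in (0 : ℝ)..1, ∫ s in (0 : ℝ)..1, eu ((t - s) * φ a) * bf μ (K a) (G s) (G t) := by
        rw [← bf_vt μ (hK.cont a) hG (φ a), ← B.inn {a} (vt (φ a) G) (hvc a)]
        unfold bf Pr
        simp only [Finset.sum_singleton]
      rw [Complex.ofReal_mul, h7, ← intervalIntegral.integral_const_mul]
      refine intervalIntegral.integral_congr fun t _ => ?_
      rw [← intervalIntegral.integral_const_mul]
      refine intervalIntegral.integral_congr fun s _ => ?_
      ring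
    have hKc : ∀ a, Continuous fun z : ℝ × ℝ =>
        (q a : ℂ) * eu ((z.1 - z.2) * φ a) * bf μ (K a) (G z.2) (G z.1) := by
      intro a
      refine Continuous.mul (continuous_const.mul (eu_cont.comp (by fun_prop))) ?_
      refine bf_cont μ (X := ℝ × ℝ) (k := fun _ => K a) (u := fun z => G z.2)
        (v := fun z => G z.1) ?_ ?_ ?_
      · exact (hK.cont a).comp (f := fun z : (ℝ × ℝ) × M × M => (z.2.1, z.2.2)) (by fun_prop)
      · exact Continuous.comp (g := fun z : ℝ × M => G z.1 z.2) hG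
          (f := fun z : (ℝ × ℝ) × M => (z.1.2, z.2)) (by fun_prop)
      · exact Continuous.comp (g := fun z : ℝ × M => G z.1 z.2) hG
          (f := fun z : (ℝ × ℝ) × M => (z.1.1, z.2)) (by fun_prop)
    rw [Complex.ofReal_sum, Finset.sum_congr rfl h6, ← intervalIntegral.integral_finsetSum]
    · refine intervalIntegral.integral_congr fun t _ => ?_
      rw [← intervalIntegral.integral_finsetSum]
      · refine intervalIntegral.integral_congr fun s _ => ?_
        rw [← bf_sum μ T (fun a => (q a : ℂ) * eu ((t - s) * φ a)) K (fun a _ => hK.cont a) (hGt s) (hGt t)]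
        rfl
      · intro a _
        exact ((hKc a).comp (f := fun s : ℝ => (t, s)) (by fun_prop)).intervalIntegrable _ _
    · intro a _
      exact (hinn (hKc a)).intervalIntegrable _ _
  have h6 : ∑ a ∈ T, q a * nsq μ (Pr μ K {a} (vt (φ a) G)) =
      ‖∫ t in (0 : ℝ)..1, ∫ s in (0 : ℝ)..1, ∫ x, conj (G t x) *
          ∫ y, (∑ a ∈ T, (q a : ℂ) * eu ((t - s) * φ a) * K a x y) * G s y ∂μ ∂μ‖ := by
    rw [← h5, Complex.norm_real,
      Real.norm_of_nonneg (Finset.sum_nonneg fun a ha => mul_nonneg (hq0 a ha) (hn0 _))]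
  rw [← h6]
  exact h3.trans (mul_le_mul_of_nonneg_left h4 (Finset.sum_nonneg fun a _ => hn0 _))

end

end STZ3
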