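import Pool.Agent.STZ3.StmtsT3
import Pool.Agent.STZ.TTY

/-!
# Module TTM: the `T T*` argument for weighted sums of kernels, with the minimum of the two bounds
-/

set_option autoImplicit false

namespace STZ3

open STZ LGR MeasureTheory Matrix Filter

open scoped ComplexConjugate Matrix Real Topology

noncomputable section

open STZ.TTX STZ.TTY in
theorem t_TTM : M_TTM := by
  intro hKB M _ _ _ _ _ _ μ _ ι K hK φ F T η J _ k A E hFT hη0 hη1 hsum hkc hA hE hsup
    hform u hu G hG hG1
  have B := hKB M μ ι K hK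
  have hGt : ∀ t, Continuous (G t) := sec' hG
  set e : ℝ → ℝ := fun t => ∫ x, ‖G t x‖ ∂μ with he
  have hec : Continuous e := par μ (f := fun (t : ℝ) (x : M) => ‖G t x‖) (continuous_norm.comp hG)
  have he0 : ∀ t, 0 ≤ e t := fun t => integral_nonneg fun x => norm_nonneg _
  have hvc : ∀ a, Continuous (vt (φ a) G) := fun a => vt_cont hG (φ a)
  -- first step: the pairing
  have h1 : ∫ t in (0 : ℝ)..1, ∫ x, conj (G t x) * ∑ a ∈ F, eu (t * φ a) * u a x ∂μ =
      ∑ a ∈ F, ∫ x, conj (vt (φ a) G x) * u a x ∂μ := by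
    have hc : ∀ a ∈ F, Continuous fun z : ℝ × M =>
        conj (G z.1 z.2) * (eu (z.1 * φ a) * u a z.2) := by
      intro a ha
      refine (Complex.continuous_conj.comp hG).mul
        (Continuous.mul (eu_cont.comp (by fun_prop)) ((hu a ha).1.comp continuous_snd))
    have h2 : ∀ t, ∫ x, conj (G t x) * ∑ a ∈ F, eu (t * φ a) * u a x ∂μ =
        ∑ a ∈ F, ∫ x, conj (G t x) * (eu (t * φ a) * u a x) ∂μ := by
      intro t
      rw [← integral_finsetSum]
      · refine integral_congr_ae (Filter.Eventually.of_forall fun x => ?_)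
        simp only
        rw [Finset.mul_sum]
      · intro a ha
        exact integ μ ((hc a ha).comp (f := fun x : M => (t, x)) (by fun_prop))
    simp only [h2]
    rw [intervalIntegral.integral_finsetSum]
    · refine Finset.sum_congr rfl fun a ha => ?_
      exact pair μ hG (φ a) (hu a ha).1
    · intro a ha
      refine Continuous.intervalIntegrable ?_ _ _
      exact par μ (f := fun (t : ℝ) (x : M) => conj (G t x) * (eu (t * φ a) * u a x)) (hc a ha)
  rw [h1]
  -- second step: Cauchy-Schwarz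
  have h2 : ∀ a ∈ F, ‖∫ x, conj (vt (φ a) G x) * u a x ∂μ‖ ≤
      √(nsq μ (u a)) * √(nsq μ (Pr μ K {a} (vt (φ a) G))) := by
    intro a ha
    have h3 := B.adj {a} (u a) (vt (φ a) G) (hu a ha).1 (hvc a)
    rw [B.fix {a} a (u a) (Finset.mem_singleton_self a) (hu a ha)] at h3
    rw [← h3]
    exact cs μ (hu a ha).1 (B.cont {a} _ (hvc a))
  have hn0 : ∀ w : M → ℂ, 0 ≤ nsq μ w := fun w => integral_nonneg fun x => by positivity
  have h3 : ‖∑ a ∈ F, ∫ x, conj (vt (φ a) G x) * u a x ∂μ‖ ^ 2 ≤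
      (∑ a ∈ F, nsq μ (u a)) * ∑ a ∈ F, nsq μ (Pr μ K {a} (vt (φ a) G)) := by
    have h4 : ‖∑ a ∈ F, ∫ x, conj (vt (φ a) G x) * u a x ∂μ‖ ≤
        √(∑ a ∈ F, nsq μ (u a)) * √(∑ a ∈ F, nsq μ (Pr μ K {a} (vt (φ a) G))) :=
      ((norm_sum_le _ _).trans (Finset.sum_le_sum h2)).trans
        (Real.sum_sqrt_mul_sqrt_le F (fun a => hn0 _) (fun a => hn0 _))
    have h5 := pow_le_pow_left₀ (norm_nonneg _) h4 2
    rw [mul_pow, Real.sq_sqrt (Finset.sum_nonneg fun a _ => hn0 _),
      Real.sq_sqrt (Finset.sum_nonneg fun a _ => hn0 _)] at h5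
    exact h5
  have h3' : ∑ a ∈ F, nsq μ (Pr μ K {a} (vt (φ a) G)) ≤
      ∑ a ∈ T, η a * nsq μ (Pr μ K {a} (vt (φ a) G)) := by
    refine (Finset.sum_le_sum (g := fun a => η a * nsq μ (Pr μ K {a} (vt (φ a) G)))
      fun a ha => ?_).trans
      (Finset.sum_le_sum_of_subset_of_nonneg hFT fun a ha _ => mul_nonneg (hη0 a ha) (hn0 _))
    exact le_mul_of_one_le_left (hn0 _) (hη1 a ha)
  -- third step: the kernel
  set β : J → ℝ → ℝ → ℂ := fun j t s => bf μ (k j (t - s)) (G s) (G t) with hβ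
  have hβc : ∀ j, Continuous fun z : ℝ × ℝ => β j z.1 z.2 := by
    intro j
    refine bf_cont μ (X := ℝ × ℝ) (k := fun z => k j (z.1 - z.2)) (u := fun z => G z.2)
      (v := fun z => G z.1) ?_ ?_ ?_
    · exact (hkc j).comp (f := fun z : (ℝ × ℝ) × M × M => (z.1.1 - z.1.2, z.2.1, z.2.2))
        (by fun_prop)
    · exact Continuous.comp (g := fun z : ℝ × M => G z.1 z.2) hG
        (f := fun z : (ℝ × ℝ) × M => (z.1.2, z.2)) (by fun_prop)
    · exact Continuous.comp (g := fun z : ℝ × M => G z.1 z.2) hG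
        (f := fun z : (ℝ × ℝ) × M => (z.1.1, z.2)) (by fun_prop)
  have hinn : ∀ {f : ℝ → ℝ → ℂ}, Continuous (fun z : ℝ × ℝ => f z.1 z.2) →
      Continuous fun t => ∫ s in (0 : ℝ)..1, f t s := by
    intro f hf
    exact intervalIntegral.continuous_parametric_intervalIntegral_of_continuous'
      (f := fun (t s : ℝ) => f t s) hf 0 1
  have hinr : ∀ {f : ℝ → ℝ → ℝ}, Continuous (fun z : ℝ × ℝ => f z.1 z.2) →
      Continuous fun t => ∫ s in (0 : ℝ)..1, f t s := by
    intro f hf
    exact intervalIntegral.continuous_parametric_intervalIntegral_of_continuous'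
      (f := fun (t s : ℝ) => f t s) hf 0 1
  have h4 : ((∑ a ∈ T, η a * nsq μ (Pr μ K {a} (vt (φ a) G)) : ℝ) : ℂ) =
      ∑ j, ∫ t in (0 : ℝ)..1, ∫ s in (0 : ℝ)..1, β j t s := by
    have h5 : ∀ a ∈ T, ((η a * nsq μ (Pr μ K {a} (vt (φ a) G)) : ℝ) : ℂ) =
        ∫ t in (0 : ℝ)..1, ∫ s in (0 : ℝ)..1,
          (η a : ℂ) * (eu ((t - s) * φ a) * bf μ (K a) (G s) (G t)) := by
      intro a _
      simp only [intervalIntegral.integral_const_mul]
      rw [← bf_vt μ (hK.cont a) hG (φ a), Complex.ofReal_mul,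
        ← B.inn {a} (vt (φ a) G) (hvc a)]
      unfold bf Pr
      simp only [Finset.sum_singleton]
    have hKc : ∀ a, Continuous fun z : ℝ × ℝ =>
        (η a : ℂ) * (eu ((z.1 - z.2) * φ a) * bf μ (K a) (G z.2) (G z.1)) := by
      intro a
      refine continuous_const.mul (Continuous.mul (eu_cont.comp (by fun_prop)) ?_)
      refine bf_cont μ (X := ℝ × ℝ) (k := fun _ => K a) (u := fun z => G z.2)
        (v := fun z => G z.1) ?_ ?_ ?_
      · exact (hK.cont a).comp (f := fun z : (ℝ × ℝ) × M × M => (z.2.1, z.2.2)) (by fun_prop)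
      · exact Continuous.comp (g := fun z : ℝ × M => G z.1 z.2) hG
          (f := fun z : (ℝ × ℝ) × M => (z.1.2, z.2)) (by fun_prop)
      · exact Continuous.comp (g := fun z : ℝ × M => G z.1 z.2) hG
          (f := fun z : (ℝ × ℝ) × M => (z.1.1, z.2)) (by fun_prop)
    rw [Complex.ofReal_sum, Finset.sum_congr rfl h5, ← intervalIntegral.integral_finsetSum,
      ← intervalIntegral.integral_finsetSum]
    · refine intervalIntegral.integral_congr fun t _ => ?_
      rw [← intervalIntegral.integral_finsetSum, ← intervalIntegral.integral_finsetSum]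
      · refine intervalIntegral.integral_congr fun s _ => ?_
        have h6' : ∑ a ∈ T, (η a : ℂ) * (eu ((t - s) * φ a) * bf μ (K a) (G s) (G t)) =
            ∑ a ∈ T, ((η a : ℂ) * eu ((t - s) * φ a)) * bf μ (K a) (G s) (G t) :=
          Finset.sum_congr rfl fun a _ => by ring
        rw [h6', ← bf_sum μ T (fun a => (η a : ℂ) * eu ((t - s) * φ a)) K (fun a _ => hK.cont a)
          (hGt s) (hGt t)]
        have h6 : (fun x y => ∑ a ∈ T, ((η a : ℂ) * eu ((t - s) * φ a)) * K a x y) =
            fun x y => ∑ j, k j (t - s) x y := by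
          funext x y
          rw [← hsum (t - s) x y]
          exact Finset.sum_congr rfl fun a _ => by ring
        rw [h6, bf_sumU μ (fun j => k j (t - s)) (fun j => ?_) (hGt s) (hGt t)]
        exact (hkc j).comp (f := fun z : M × M => (t - s, z.1, z.2)) (by fun_prop)
      · intro j _
        exact ((hβc j).comp (f := fun s : ℝ => (t, s)) (by fun_prop)).intervalIntegrable _ _
      · intro a _
        exact ((hKc a).comp (f := fun s : ℝ => (t, s)) (by fun_prop)).intervalIntegrable _ _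
    · intro j _
      exact (hinn (hβc j)).intervalIntegrable _ _
    · intro a _
      exact (hinn (hKc a)).intervalIntegrable _ _
  -- the bound for one kernel
  have hm : ∀ j, Continuous fun z : ℝ × ℝ => min (A j (z.1 - z.2) * (e z.1 * e z.2))
      (E j (z.1 - z.2) * √(e z.1 * e z.2)) := by
    intro j
    have c1 := (hA j).cont
    have c2 := (hE j).cont
    fun_prop
  have h5 : ∀ j, ‖∫ t in (0 : ℝ)..1, ∫ s in (0 : ℝ)..1, β j t s‖ ≤
      ∫ t in (0 : ℝ)..1, ∫ s in (0 : ℝ)..1, min (A j (t - s) * (e t * e s))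
        (E j (t - s) * √(e t * e s)) := by
    intro j
    have hb : ∀ t s, ‖β j t s‖ ≤ min (A j (t - s) * (e t * e s))
        (E j (t - s) * √(e t * e s)) := by
      intro t s
      have hk : Continuous fun z : M × M => k j (t - s) z.1 z.2 :=
        (hkc j).comp (f := fun z : M × M => (t - s, z.1, z.2)) (by fun_prop)
      have e1 : ‖β j t s‖ ≤ A j (t - s) * (e s * e t) :=
        bf_sup μ hk (hsup j (t - s)) (hGt s) (hGt t)
      have e2 : ‖β j t s‖ ≤ E j (t - s) * (√(e s) * √(e t)) := by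
        refine (hform j (t - s) (G s) (G t) (hGt s) (hGt t)).trans ?_
        refine mul_le_mul_of_nonneg_left ?_ ((hE j).nn _)
        exact mul_le_mul (Real.sqrt_le_sqrt (nsq_le μ (hGt s) (hG1 s)))
          (Real.sqrt_le_sqrt (nsq_le μ (hGt t) (hG1 t))) (Real.sqrt_nonneg _) (Real.sqrt_nonneg _)
      refine le_min ?_ ?_
      · rw [mul_comm (e t) (e s)]
        exact e1
      · rw [Real.sqrt_mul (he0 t), mul_comm √(e t) √(e s)]
        exact e2
    refine (intervalIntegral.norm_integral_le_integral_norm zero_le_one).trans ?_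
    refine intervalIntegral.integral_mono_on zero_le_one
      ((hinn (hβc j)).norm.intervalIntegrable _ _)
      ((hinr (f := fun t s => min (A j (t - s) * (e t * e s))
        (E j (t - s) * √(e t * e s))) (hm j)).intervalIntegrable _ _) fun t _ => ?_
    refine (intervalIntegral.norm_integral_le_integral_norm zero_le_one).trans ?_
    refine intervalIntegral.integral_mono_on zero_le_one
      (((hβc j).comp (f := fun s : ℝ => (t, s)) (by fun_prop)).norm.intervalIntegrable _ _)
      (((hm j).comp (f := fun s : ℝ => (t, s)) (by fun_prop)).intervalIntegrable _ _) fun s _ => ?_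
    exact hb t s
  have h6 : ∑ a ∈ T, η a * nsq μ (Pr μ K {a} (vt (φ a) G)) ≤
      ∑ j, ∫ t in (0 : ℝ)..1, ∫ s in (0 : ℝ)..1, min (A j (t - s) * (e t * e s))
        (E j (t - s) * √(e t * e s)) := by
    have h7 : ∑ a ∈ T, η a * nsq μ (Pr μ K {a} (vt (φ a) G)) =
        ‖((∑ a ∈ T, η a * nsq μ (Pr μ K {a} (vt (φ a) G)) : ℝ) : ℂ)‖ := by
      rw [Complex.norm_real, Real.norm_of_nonneg
        (Finset.sum_nonneg fun a ha => mul_nonneg (hη0 a ha) (hn0 _))]
    rw [h7, h4]
    exact (norm_sum_le _ _).trans (Finset.sum_le_sum fun j _ => h5 j)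
  calc ‖∑ a ∈ F, ∫ x, conj (vt (φ a) G x) * u a x ∂μ‖ ^ 2 ≤
        (∑ a ∈ F, nsq μ (u a)) * ∑ a ∈ F, nsq μ (Pr μ K {a} (vt (φ a) G)) := h3
    _ ≤ _ := mul_le_mul_of_nonneg_left (h3'.trans h6) (Finset.sum_nonneg fun a _ => hn0 _)

end

end STZ3
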