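import Pool.Agent.STZ3.StP

/-!
# UNI: a finite measure is determined by the integrals of the matrix entries
-/

namespace STZ3

open STZ LGR MeasureTheory Matrix Filter

open scoped ComplexConjugate Matrix Real Topology

noncomputable section

namespace UNI

/-- the continuous functions on which `L` vanishes -/
def KS {X : Type} [TopologicalSpace X] (L : (X → ℂ) → ℂ)
    (hadd : ∀ f g : X → ℂ, Continuous f → Continuous g → L (fun x => f x + g x) = L f + L g)
    (hmul : ∀ (a : ℂ) (f : X → ℂ), Continuous f → L (fun x => a * f x) = a * L f) :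
    Submodule ℂ (X → ℂ) where
  carrier := {f | Continuous f ∧ L f = 0}
  add_mem' := by
    rintro f g ⟨hf, hf0⟩ ⟨hg, hg0⟩
    refine ⟨hf.add hg, ?_⟩
    have := hadd f g hf hg
    have h2 : (f + g) = fun x => f x + g x := rfl
    rw [h2, this, hf0, hg0, add_zero]
  zero_mem' := by
    refine ⟨continuous_const, ?_⟩
    have := hmul 0 (fun _ => 0) continuous_const
    have h2 : (0 : X → ℂ) = fun x => (0 : ℂ) * (fun _ => (0 : ℂ)) x := by
      funext x; simp
    rw [h2, this, zero_mul]
  smul_mem' := by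
    rintro a f ⟨hf, hf0⟩
    refine ⟨hf.const_smul a, ?_⟩
    have h2 : (a • f) = fun x => a * f x := rfl
    rw [h2, hmul a f hf, hf0, mul_zero]

theorem unc : M_UNC := by
  intro hT hP hD N H hH L C hadd hmul hbd hent f hf
  have F : PFF H := hP N H hH
  -- the entries of polynomial representations
  have hent' : ∀ (n : ℕ) (σ : Rep H (Fin n)), σ.Irr → PRep σ → ∀ i j,
      (fun x => σ.ρ x i j) ∈ KS L hadd hmul := by
    intro n σ hi hp i j
    exact ⟨(continuous_apply_apply i j).comp σ.cont, hent n σ hi hp i j⟩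
  -- the monomials
  have hmono : ∀ (i j : ℕ) (p q : Fin i → Fin N) (p' q' : Fin j → Fin N),
      (fun g : H => (∏ s, g.1.1 (p s) (q s)) * ∏ s, conj (g.1.1 (p' s) (q' s))) ∈ KS L hadd hmul := by
    intro i j p q p' q'
    obtain ⟨R, hR, -⟩ := hT N H i j
    have hRP : PRep R := by
      intro a b
      have : (fun g => R.ρ g a b) =
          fun g : H => (∏ s, g.1.1 (a.1 s) (b.1 s)) * ∏ s, conj (g.1.1 (a.2 s) (b.2 s)) := by
        funext g; exact hR g a b
      rw [this]
      exact F.mono i j _ _ _ _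
    obtain ⟨m, M, σ, hi, hp, -, hc⟩ := hD N H _ R hRP
    obtain ⟨c, hc⟩ := hc (p, p') (q, q')
    have h1 : (fun g : H => (∏ s, g.1.1 (p s) (q s)) * ∏ s, conj (g.1.1 (p' s) (q' s))) =
        ∑ k, ∑ a, ∑ b, c k a b • (fun g : H => (σ k).ρ g a b) := by
      funext g
      rw [← hR g (p, p') (q, q'), hc g]
      simp [Finset.sum_apply]
    rw [h1]
    refine Submodule.sum_mem _ fun k _ => Submodule.sum_mem _ fun a _ => Submodule.sum_mem _ fun b _ => ?_
    exact Submodule.smul_mem _ _ (hent' _ (σ k) (hi k) (hp k) a b)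
  -- all polynomial functions
  have hPF : ∀ P ∈ PF H, P ∈ KS L hadd hmul := by
    intro P hP'
    have h1 := F.span P hP'
    refine (Submodule.span_le (p := KS L hadd hmul)).2 ?_ h1
    rintro _ ⟨i, j, p, q, p', q', rfl⟩
    exact hmono i j p q p' q'
  by_contra hne
  have hpos : 0 < ‖L f‖ := norm_pos_iff.2 hne
  have hC : (0 : ℝ) < |C| + 1 := by positivity
  obtain ⟨P, hPm, hPe⟩ := F.dense f hf (‖L f‖ / (2 * (|C| + 1))) (by positivity)
  obtain ⟨hPc, hP0⟩ := hPF P hPm
  have h1 : Continuous fun x => f x - P x := hf.sub hPc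
  have h2 : L f = L (fun x => f x - P x) := by
    have := hadd (fun x => f x - P x) P h1 hPc
    rw [hP0, add_zero] at this
    rw [← this]
    congr 1
    funext x
    ring
  have h3 := hbd (fun x => f x - P x) _ h1 hPe
  rw [← h2] at h3
  have h4 : C * (‖L f‖ / (2 * (|C| + 1))) ≤ (|C| + 1) * (‖L f‖ / (2 * (|C| + 1))) := by
    refine mul_le_mul_of_nonneg_right ?_ (by positivity)
    linarith [le_abs_self C]
  have h5 : (|C| + 1) * (‖L f‖ / (2 * (|C| + 1))) = ‖L f‖ / 2 := by
    field_simp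
  linarith

end UNI

open UNI in
theorem t_UNI : M_UNI := by
  intro hT hP hD N H hH κ κ' hκ hκ' hent
  have hcomp : CompactSpace H := isCompact_iff_compactSpace.1 hH.isCompact
  have hint : ∀ (μ : Measure H), IsFiniteMeasure μ → ∀ f : H → ℂ, Continuous f →
      Integrable f μ := by
    intro μ hμ f hf
    have := (hf.continuousOn (s := Set.univ)).integrableOn_compact (μ := μ) isCompact_univ
    rwa [integrableOn_univ] at this
  have hL : ∀ f : H → ℂ, Continuous f → (∫ x, f x ∂κ) - ∫ x, f x ∂κ' = 0 := by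
    refine unc hT hP hD N H hH (fun f => (∫ x, f x ∂κ) - ∫ x, f x ∂κ')
      (κ.real Set.univ + κ'.real Set.univ) ?_ ?_ ?_ ?_
    · intro f g hf hg
      show (∫ x, (f x + g x) ∂κ) - ∫ x, (f x + g x) ∂κ' =
        ((∫ x, f x ∂κ) - ∫ x, f x ∂κ') + ((∫ x, g x ∂κ) - ∫ x, g x ∂κ')
      rw [integral_add (hint κ hκ f hf) (hint κ hκ g hg),
        integral_add (hint κ' hκ' f hf) (hint κ' hκ' g hg)]
      ring
    · intro a f _
      show (∫ x, a * f x ∂κ) - ∫ x, a * f x ∂κ' = a * ((∫ x, f x ∂κ) - ∫ x, f x ∂κ')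
      rw [integral_const_mul, integral_const_mul]
      ring
    · intro f M hf hM
      show ‖(∫ x, f x ∂κ) - ∫ x, f x ∂κ'‖ ≤ (κ.real Set.univ + κ'.real Set.univ) * M
      have h1 : ‖∫ x, f x ∂κ‖ ≤ M * κ.real Set.univ :=
        norm_integral_le_of_norm_le_const (Eventually.of_forall hM)
      have h2 : ‖∫ x, f x ∂κ'‖ ≤ M * κ'.real Set.univ :=
        norm_integral_le_of_norm_le_const (Eventually.of_forall hM)
      calc ‖(∫ x, f x ∂κ) - ∫ x, f x ∂κ'‖ ≤ ‖∫ x, f x ∂κ‖ + ‖∫ x, f x ∂κ'‖ := norm_sub_le _ _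
        _ ≤ (κ.real Set.univ + κ'.real Set.univ) * M := by linarith
    · intro n σ hi hp i j
      show (∫ x, σ.ρ x i j ∂κ) - ∫ x, σ.ρ x i j ∂κ' = 0
      rw [hent n σ hi hp i j, sub_self]
  have i1 : T2Space H := inferInstance
  have i2 : SecondCountableTopology H :=
    TopologicalSpace.Subtype.secondCountableTopology (H : Set (SU N))
  have i3 : TopologicalSpace.MetrizableSpace H :=
    TopologicalSpace.metrizableSpace_of_t3_secondCountable H
  let i4 : PseudoMetricSpace H := TopologicalSpace.pseudoMetrizableSpacePseudoMetric H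
  refine ext_of_forall_integral_eq_of_IsFiniteMeasure fun f => ?_
  have h1 := hL (fun x => ((f x : ℝ) : ℂ)) (Complex.continuous_ofReal.comp f.continuous)
  have h2 : ∀ (μ : Measure H), (∫ x, ((f x : ℝ) : ℂ) ∂μ) = ((∫ x, f x ∂μ : ℝ) : ℂ) := fun μ =>
    integral_ofReal
  rw [h2, h2, sub_eq_zero] at h1
  exact_mod_cast h1

end

end STZ3
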