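import Pool.Agent.STZ3.StM
import Pool.Agent.STZ.Base

/-!
# Compact simple groups of rank two: module VCN, continuity and bounds
-/

namespace STZ3

open STZ LGR MeasureTheory Matrix Filter

open scoped ComplexConjugate Matrix Real Topology

noncomputable section

namespace VCN

theorem int_cont {α E : Type*} [TopologicalSpace α] [CompactSpace α] [MeasurableSpace α]
    [OpensMeasurableSpace α] [SecondCountableTopology α] [NormedAddCommGroup E]
    (μ : Measure α) [IsFiniteMeasure μ] (f : α → E) (hf : Continuous f) : Integrable f μ := by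
  obtain ⟨C, hC⟩ := (isCompact_univ (X := α)).exists_bound_of_continuousOn hf.continuousOn
  exact Integrable.of_bound hf.aestronglyMeasurable C
    (Eventually.of_forall fun x => hC x (Set.mem_univ x))

/-- Cauchy-Schwarz -/
theorem cs {Z : Type*} [MeasurableSpace Z] (lam : Measure Z) [IsFiniteMeasure lam] (a : Z → ℝ)
    (h1 : Integrable a lam) (h2 : Integrable (fun z => a z ^ 2) lam) :
    (∫ z, a z ∂lam) ^ 2 ≤ lam.real Set.univ * ∫ z, a z ^ 2 ∂lam := by
  set M : ℝ := lam.real Set.univ with hM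
  set I : ℝ := ∫ z, a z ∂lam with hI
  set Q : ℝ := ∫ z, a z ^ 2 ∂lam with hQ
  have hM0 : 0 ≤ M := measureReal_nonneg
  have h3 : 0 ≤ ∫ z, (M * a z - I) ^ 2 ∂lam := integral_nonneg fun z => sq_nonneg _
  have h4 : ∫ z, (M * a z - I) ^ 2 ∂lam = M * (M * Q - I ^ 2) := by
    have h5 : ∀ z, (M * a z - I) ^ 2 = (M ^ 2 * a z ^ 2 - 2 * M * I * a z) + I ^ 2 :=
      fun z => by ring
    simp only [h5]
    have i1 : Integrable (fun z => M ^ 2 * a z ^ 2) lam := h2.const_mul _
    have i2 : Integrable (fun z => 2 * M * I * a z) lam := h1.const_mul _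
    have i3 : Integrable (fun z => M ^ 2 * a z ^ 2 - 2 * M * I * a z) lam := i1.sub i2
    rw [integral_add i3 (integrable_const _), integral_sub i1 i2, integral_const_mul,
      integral_const_mul, integral_const, smul_eq_mul]
    ring
  rw [h4] at h3
  rcases hM0.eq_or_lt with h5 | h5
  · have h6 : lam = 0 := by
      rw [← Measure.measure_univ_eq_zero]
      have : lam.real Set.univ = 0 := by rw [← hM, ← h5]
      exact (measureReal_eq_zero_iff).1 this
    have h7 : I = 0 := by rw [hI, h6, integral_zero_measure]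
    rw [h7, ← h5]
    simp
  · have h6 : 0 ≤ M * Q - I ^ 2 := by
      by_contra hc
      push Not at hc
      have := mul_neg_of_pos_of_neg h5 hc
      linarith
    linarith

section gen

variable {G : Type} [Group G] [TopologicalSpace G] [IsTopologicalGroup G] [CompactSpace G]
  [SecondCountableTopology G] [MeasurableSpace G] [BorelSpace G]

/-- the transform of a function of the time and of two group variables -/
def tr (lam : Measure G) (V : ℝ → G → G → ℂ) (t : ℝ) (h g : G) : ℂ := ∫ z, V t h (g * z) ∂lam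

theorem tr_cont (lam : Measure G) [IsFiniteMeasure lam] (V : ℝ → G → G → ℂ) (hV : J3 V) :
    J3 (tr lam V) := by
  have h1 : Continuous fun p : (ℝ × G × G) × G => V p.1.1 p.1.2.1 (p.1.2.2 * p.2) :=
    Continuous.comp hV (f := fun p : (ℝ × G × G) × G => (p.1.1, p.1.2.1, p.1.2.2 * p.2))
      (by fun_prop)
  have h2 := continuous_parametric_integral_of_continuous (μ := lam)
    (f := fun (x : ℝ × G × G) (z : G) => V x.1 x.2.1 (x.2.2 * z)) h1 (isCompact_univ (X := G))
  simp only [Measure.restrict_univ] at h2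
  exact h2

omit [Group G] [IsTopologicalGroup G] in
theorem dbl (μ : Measure G) [IsFiniteMeasure μ] (f : G → G → ℝ)
    (hf : Continuous fun p : G × G => f p.1 p.2) :
    ∫ h, ∫ g, f h g ∂μ ∂μ = ∫ p : G × G, f p.1 p.2 ∂(μ.prod μ) :=
  (integral_prod _ (int_cont (μ.prod μ) _ hf)).symm

theorem fub (μ : Measure G) [IsProbabilityMeasure μ] [μ.IsMulRightInvariant] (lam : Measure G)
    [IsFiniteMeasure lam] (φ : G → G → ℝ) (hφ : Continuous fun p : G × G => φ p.1 p.2) :
    ∫ x : G × G, (∫ z, φ x.1 (x.2 * z) ∂lam) ∂(μ.prod μ) =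
      lam.real Set.univ * ∫ x : G × G, φ x.1 x.2 ∂(μ.prod μ) := by
  have h1 : Continuous fun p : (G × G) × G => φ p.1.1 (p.1.2 * p.2) :=
    Continuous.comp hφ (f := fun p : (G × G) × G => (p.1.1, p.1.2 * p.2)) (by fun_prop)
  rw [integral_integral_swap (f := fun (x : G × G) (z : G) => φ x.1 (x.2 * z))
    (int_cont ((μ.prod μ).prod lam) _ h1)]
  have h2 : ∀ z : G, ∫ x : G × G, φ x.1 (x.2 * z) ∂(μ.prod μ) =
      ∫ x : G × G, φ x.1 x.2 ∂(μ.prod μ) := by
    intro z
    have h3 : Continuous fun p : G × G => φ p.1 (p.2 * z) :=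
      Continuous.comp hφ (f := fun p : G × G => (p.1, p.2 * z)) (by fun_prop)
    rw [← dbl μ (fun h g => φ h (g * z)) h3, ← dbl μ φ hφ]
    refine integral_congr_ae (Eventually.of_forall fun h => ?_)
    exact integral_mul_right_eq_self (fun g => φ h g) z
  simp only [h2, integral_const, smul_eq_mul]

theorem bnd (μ : Measure G) [IsProbabilityMeasure μ] [μ.IsMulRightInvariant] (lam : Measure G)
    [IsFiniteMeasure lam] (f : G → G → ℂ) (hf : Continuous fun p : G × G => f p.1 p.2)
    (w : G → G → ℂ) (hw : Continuous fun p : G × G => w p.1 p.2)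
    (hb : ∀ h g, ‖w h g‖ ≤ ∫ z, ‖f h (g * z)‖ ∂lam) :
    ∫ h, ∫ g, ‖w h g‖ ∂μ ∂μ ≤ lam.real Set.univ * ∫ h, ∫ g, ‖f h g‖ ∂μ ∂μ ∧
    ∫ h, ∫ g, ‖w h g‖ ^ 2 ∂μ ∂μ ≤ lam.real Set.univ ^ 2 * ∫ h, ∫ g, ‖f h g‖ ^ 2 ∂μ ∂μ := by
  have hw1 : Continuous fun p : G × G => ‖w p.1 p.2‖ := hw.norm
  have hw2 : Continuous fun p : G × G => ‖w p.1 p.2‖ ^ 2 := hw.norm.pow 2
  have hf1 : Continuous fun p : G × G => ‖f p.1 p.2‖ := hf.norm
  have hf2 : Continuous fun p : G × G => ‖f p.1 p.2‖ ^ 2 := hf.norm.pow 2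
  have hc : ∀ (φ : G → G → ℝ), (Continuous fun p : G × G => φ p.1 p.2) →
      Continuous fun x : G × G => ∫ z, φ x.1 (x.2 * z) ∂lam := by
    intro φ hφ
    have h1 : Continuous fun p : (G × G) × G => φ p.1.1 (p.1.2 * p.2) :=
      Continuous.comp hφ (f := fun p : (G × G) × G => (p.1.1, p.1.2 * p.2)) (by fun_prop)
    have h2 := continuous_parametric_integral_of_continuous (μ := lam)
      (f := fun (x : G × G) (z : G) => φ x.1 (x.2 * z)) h1 (isCompact_univ (X := G))
    simp only [Measure.restrict_univ] at h2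
    exact h2
  rw [dbl μ (fun h g => ‖w h g‖) hw1, dbl μ (fun h g => ‖w h g‖ ^ 2) hw2,
    dbl μ (fun h g => ‖f h g‖) hf1, dbl μ (fun h g => ‖f h g‖ ^ 2) hf2]
  constructor
  · rw [← fub μ lam (fun h g => ‖f h g‖) hf1]
    exact integral_mono (int_cont _ _ hw1) (int_cont _ _ (hc (fun h g => ‖f h g‖) hf1))
      fun x => hb x.1 x.2
  · have h3 : ∀ x : G × G, ‖w x.1 x.2‖ ^ 2 ≤
        lam.real Set.univ * ∫ z, ‖f x.1 (x.2 * z)‖ ^ 2 ∂lam := by
      intro x
      have h4 : Continuous fun z : G => ‖f x.1 (x.2 * z)‖ :=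
        Continuous.comp hf1 (f := fun z : G => (x.1, x.2 * z)) (by fun_prop)
      refine (pow_le_pow_left₀ (norm_nonneg _) (hb x.1 x.2) 2).trans ?_
      exact cs lam _ (int_cont _ _ h4) (int_cont _ _ (h4.pow 2))
    have h4 := integral_mono (int_cont (μ.prod μ) _ hw2)
      ((int_cont (μ.prod μ) _ (hc (fun h g => ‖f h g‖ ^ 2) hf2)).const_mul _) h3
    refine h4.trans (le_of_eq ?_)
    rw [integral_const_mul, fub μ lam (fun h g => ‖f h g‖ ^ 2) hf2]
    ring

/-- the function `G t (g h⁻¹)` -/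
def vg (F : ℝ → G → ℂ) (t : ℝ) (h g : G) : ℂ := F t (g * h⁻¹)

omit [CompactSpace G] [SecondCountableTopology G] [MeasurableSpace G] [BorelSpace G] in
theorem vg_cont (F : ℝ → G → ℂ) (hF : JC F) : J3 (vg F) :=
  Continuous.comp hF (f := fun z : ℝ × G × G => (z.1, z.2.2 * z.2.1⁻¹)) (by fun_prop)

omit [SecondCountableTopology G] [CompactSpace G] in
theorem vg_int (μ : Measure G) [IsProbabilityMeasure μ] [μ.IsMulRightInvariant] (F : G → ℝ) :
    ∫ h, ∫ g, F (g * h⁻¹) ∂μ ∂μ = ∫ y, F y ∂μ := by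
  have h1 : ∀ h : G, ∫ g, F (g * h⁻¹) ∂μ = ∫ y, F y ∂μ := fun h =>
    integral_mul_right_eq_self F h⁻¹
  simp only [h1, integral_const, smul_eq_mul, probReal_univ, one_mul]

end gen

end VCN

open VCN in
theorem t_VCN : M_VCN := by
  intro hHAAR hPSF N H r Φ B Hc E c k d hCX μ _ _
  have hcl := hCX.closed
  have hcs : CompactSpace H := isCompact_iff_compactSpace.1 hcl.isCompact
  have hsec : SecondCountableTopology H :=
    inferInstanceAs (SecondCountableTopology ((H : Set (SU N)) : Type))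
  obtain ⟨hR, -, -⟩ := hHAAR H μ
  obtain ⟨CP, hCP, P⟩ := hPSF N H r Φ B Hc E c k d hCX
  refine ⟨?_, ?_⟩
  · intro κ ρ G hκ hG
    have hvg := vg_cont G hG
    have hS : MeasurableSet {z : H | ps z ≤ ρ ^ 2} :=
      measurableSet_le P.cont.measurable measurable_const
    set S : Set H := {z : H | ps z ≤ ρ ^ 2} with hSdef
    have e1 : vn κ ρ G = tr (κ.restrict S) (vg G) := by
      funext t h g
      rfl
    have e2 : (fun t h g => VV κ h (G t) g) = tr κ (vg G) := by
      funext t h g
      rfl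
    have hcz : ∀ t h g, Continuous fun z : H => vg G t h (g * z) := fun t h g =>
      Continuous.comp hvg (f := fun z : H => (t, h, g * z)) (by fun_prop)
    have e3 : ∀ t h g, VV κ h (G t) g - vn κ ρ G t h g = tr (κ.restrict Sᶜ) (vg G) t h g := by
      intro t h g
      have h1 := integral_add_compl hS (int_cont κ _ (hcz t h g))
      change tr κ (vg G) t h g - tr (κ.restrict S) (vg G) t h g = _
      unfold tr
      rw [← h1]
      ring
    have hJ1 : J3 (tr (κ.restrict S) (vg G)) := tr_cont _ _ hvg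
    have hJ2 : J3 (tr κ (vg G)) := tr_cont _ _ hvg
    have hJ3 : J3 (tr (κ.restrict Sᶜ) (vg G)) := tr_cont _ _ hvg
    have hfix : ∀ (V : ℝ → H → H → ℂ) (t : ℝ), J3 V → Continuous fun p : H × H => V t p.1 p.2 :=
      fun V t hV => Continuous.comp hV (f := fun p : H × H => (t, p.1, p.2)) (by fun_prop)
    have hb1 : ∀ (lam : Measure H) (t : ℝ) (h g : H), ‖tr lam (vg G) t h g‖ ≤
        ∫ z, ‖vg G t h (g * z)‖ ∂lam := fun lam t h g => norm_integral_le_integral_norm _
    have hI1 : ∀ t, ∫ h, ∫ g, ‖vg G t h g‖ ∂μ ∂μ = ∫ y, ‖G t y‖ ∂μ := fun t =>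
      vg_int μ fun y => ‖G t y‖
    have hI2 : ∀ t, ∫ h, ∫ g, ‖vg G t h g‖ ^ 2 ∂μ ∂μ = ∫ y, ‖G t y‖ ^ 2 ∂μ := fun t =>
      vg_int μ fun y => ‖G t y‖ ^ 2
    have hm1 : (κ.restrict S).real Set.univ ≤ 1 := by
      rw [measureReal_restrict_apply_univ]
      exact measureReal_le_one
    have hm2 : (κ.restrict Sᶜ).real Set.univ ≤ κ.real {z | ρ ^ 2 ≤ ps z} := by
      rw [measureReal_restrict_apply_univ]
      refine measureReal_mono ?_
      intro z hz
      simp only [hSdef, Set.mem_compl_iff, Set.mem_ofPred_eq, not_le] at hz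
      exact hz.le
    refine ⟨by rw [e1]; exact hJ1, by rw [e2]; exact hJ2, ?_, ?_⟩
    · intro b hb t h g
      have hb0 : 0 ≤ b := (norm_nonneg _).trans (hb 0 1)
      constructor
      · have h1 := norm_integral_le_of_norm_le_const (μ := κ.restrict S)
          (f := fun z => vg G t h (g * z)) (C := b)
          (Eventually.of_forall fun z => hb t _)
        rw [e1]
        refine h1.trans ?_
        calc b * (κ.restrict S).real Set.univ ≤ b * 1 := mul_le_mul_of_nonneg_left hm1 hb0
          _ = b := mul_one b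
      · have h1 := norm_integral_le_of_norm_le_const (μ := κ)
          (f := fun z => vg G t h (g * z)) (C := b)
          (Eventually.of_forall fun z => hb t _)
        rw [probReal_univ, mul_one] at h1
        exact h1
    · intro t
      have hn0 : 0 ≤ ∫ y, ‖G t y‖ ∂μ := integral_nonneg fun _ => norm_nonneg _
      have hn2 : 0 ≤ ∫ y, ‖G t y‖ ^ 2 ∂μ := integral_nonneg fun _ => by positivity
      have hκm : 0 ≤ (κ.restrict Sᶜ).real Set.univ := measureReal_nonneg
      refine ⟨?_, ?_, ?_, ?_⟩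
      · have h1 := (bnd μ (κ.restrict S) (vg G t) (hfix _ t hvg) (tr (κ.restrict S) (vg G) t)
          (hfix _ t hJ1) (hb1 _ t)).1
        rw [hI1] at h1
        rw [e1]
        refine h1.trans ?_
        calc (κ.restrict S).real Set.univ * ∫ y, ‖G t y‖ ∂μ ≤ 1 * ∫ y, ‖G t y‖ ∂μ :=
              mul_le_mul_of_nonneg_right hm1 hn0
          _ = ∫ y, ‖G t y‖ ∂μ := one_mul _
      · have h1 := (bnd μ κ (vg G t) (hfix _ t hvg) (tr κ (vg G) t)
          (hfix _ t hJ2) (hb1 _ t)).1
        rw [hI1, probReal_univ, one_mul] at h1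
        exact h1
      · have h1 := (bnd μ (κ.restrict Sᶜ) (vg G t) (hfix _ t hvg) (tr (κ.restrict Sᶜ) (vg G) t)
          (hfix _ t hJ3) (hb1 _ t)).1
        rw [hI1] at h1
        simp only [e3]
        exact h1.trans (mul_le_mul_of_nonneg_right hm2 hn0)
      · have h1 := (bnd μ (κ.restrict Sᶜ) (vg G t) (hfix _ t hvg) (tr (κ.restrict Sᶜ) (vg G) t)
          (hfix _ t hJ3) (hb1 _ t)).2
        rw [hI2] at h1
        simp only [e3]
        exact h1.trans (mul_le_mul_of_nonneg_right (pow_le_pow_left₀ hκm hm2 2) hn2)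
  · intro ν₁ ν₂ V hν₁ hν₂ hV
    have htm : Measurable (tt H Hc) := P.tcont.measurable
    set m₁ : Measure H := ν₁.map (tt H Hc) with hm₁
    set m₂ : Measure H := ν₂.map (tt H Hc) with hm₂
    have hf1 : IsFiniteMeasure m₁ := Measure.isFiniteMeasure_map ν₁ _
    have hf2 : IsFiniteMeasure m₂ := Measure.isFiniteMeasure_map ν₂ _
    have hu1 : m₁.real Set.univ = ν₁.real Set.univ := by
      rw [hm₁, map_measureReal_apply htm MeasurableSet.univ, Set.preimage_univ]
    have hu2 : m₂.real Set.univ = ν₂.real Set.univ := by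
      rw [hm₂, map_measureReal_apply htm MeasurableSet.univ, Set.preimage_univ]
    have hcz : ∀ t h g, Continuous fun z : H => V t h (g * z) := fun t h g =>
      Continuous.comp hV (f := fun z : H => (t, h, g * z)) (by fun_prop)
    have e1 : ∀ t h g, po Hc ν₁ ν₂ V t h g = tr m₁ V t h g - tr m₂ V t h g := by
      intro t h g
      unfold po PO tr
      rw [hm₁, hm₂, integral_map htm.aemeasurable (hcz t h g).aestronglyMeasurable,
        integral_map htm.aemeasurable (hcz t h g).aestronglyMeasurable]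
    have hJ1 : J3 (tr m₁ V) := tr_cont _ _ hV
    have hJ2 : J3 (tr m₂ V) := tr_cont _ _ hV
    have hJ : J3 (po Hc ν₁ ν₂ V) := by
      unfold J3
      simp only [e1]
      exact Continuous.sub hJ1 hJ2
    have hfix : ∀ (V : ℝ → H → H → ℂ) (t : ℝ), J3 V → Continuous fun p : H × H => V t p.1 p.2 :=
      fun V t hV => Continuous.comp hV (f := fun p : H × H => (t, p.1, p.2)) (by fun_prop)
    have hlam : (m₁ + m₂).real Set.univ = ν₁.real Set.univ + ν₂.real Set.univ := by
      rw [measureReal_add_apply, hu1, hu2]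
    refine ⟨hJ, ?_, ?_⟩
    · intro b hb t h g
      rw [e1]
      have h1 := norm_integral_le_of_norm_le_const (μ := m₁)
        (f := fun z => V t h (g * z)) (C := b) (Eventually.of_forall fun z => hb t h _)
      have h2 := norm_integral_le_of_norm_le_const (μ := m₂)
        (f := fun z => V t h (g * z)) (C := b) (Eventually.of_forall fun z => hb t h _)
      rw [hu1] at h1
      rw [hu2] at h2
      refine (norm_sub_le _ _).trans ?_
      refine (add_le_add h1 h2).trans (le_of_eq ?_)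
      ring
    · intro t
      have hb1 : ∀ h g, ‖po Hc ν₁ ν₂ V t h g‖ ≤ ∫ z, ‖V t h (g * z)‖ ∂(m₁ + m₂) := by
        intro h g
        rw [e1, integral_add_measure (int_cont m₁ _ (hcz t h g).norm)
          (int_cont m₂ _ (hcz t h g).norm)]
        refine (norm_sub_le _ _).trans ?_
        exact add_le_add (norm_integral_le_integral_norm _) (norm_integral_le_integral_norm _)
      have h1 := bnd μ (m₁ + m₂) (V t) (hfix _ t hV) (po Hc ν₁ ν₂ V t) (hfix _ t hJ) hb1
      rw [hlam] at h1
      exact h1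

end

end STZ3
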