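import Pool.Agent.STZ3.StQ
import Pool.Agent.LGR.SURJ
import Pool.Agent.LGR.CHIF

/-!
# WIF: Weyl's integration formula
-/

set_option autoImplicit false

namespace STZ3

open STZ LGR MeasureTheory Matrix Filter

open scoped ComplexConjugate Matrix Real Topology

noncomputable section

namespace WIF

/-! ### the trivial representation -/

/-- the trivial representation -/
def trv {N : ℕ} (H : Subgroup (SU N)) : Rep H (Fin 1) where
  ρ := 1
  cont := continuous_const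
  unit := by
    intro g
    simp

theorem trv_ch {N : ℕ} (H : Subgroup (SU N)) (g : H) : (trv H).ch g = 1 := by
  unfold Rep.ch trv
  simp

theorem trv_irr {N : ℕ} (H : Subgroup (SU N)) : (trv H).Irr := by
  refine ⟨⟨0⟩, fun X _ => ⟨X 0 0, ?_⟩⟩
  ext i j
  fin_cases i
  fin_cases j
  simp

theorem trv_prep {N : ℕ} (H : Subgroup (SU N)) : PRep (trv H) := by
  intro i j
  have e : (fun g : H => (trv H).ρ g i j) =
      algebraMap ℂ (H → ℂ) ((1 : Matrix (Fin 1) (Fin 1) ℂ) i j) := by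
    funext g
    rfl
  rw [e]
  exact (PF H).algebraMap_mem _

/-! ### the torus -/

theorem self {r : ℕ} {D : RD r} (hTP : S_TPOL) (hmul : ∀ w ∈ D.W, ∀ w' ∈ D.W, w * w' ∈ D.W)
    (hinv : ∀ w ∈ D.W, ∃ w' ∈ D.W, w' * w = 1)
    (hdet : ∀ w ∈ D.W, w.det = 1 ∨ w.det = -1)
    (hfree : ∀ l, Reg l → ∀ w ∈ D.W, Reg (w *ᵥ l) → w = 1)
    {l : Fin r → ℤ} (hl : Reg l) :
    ∫ θ in Set.Icc (0 : Fin r → ℝ) 1, AT D l θ * conj (AT D l θ) = (D.W.card : ℂ) := by
  classical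
  have h1 : ∀ θ : Fin r → ℝ, AT D l θ * conj (AT D l θ) =
      ∑ w' ∈ D.W, ∑ w ∈ D.W, ((w'.det : ℂ) * (w.det : ℂ)) * eu (dz (w' *ᵥ l - w *ᵥ l) θ) := by
    intro θ
    unfold AT
    rw [map_sum, Finset.sum_mul_sum]
    refine Finset.sum_congr rfl fun w' _ => Finset.sum_congr rfl fun w _ => ?_
    rw [map_mul, SURJ.eu_conj, SURJ.dz_sub, sub_eq_add_neg, SURJ.eu_add, map_intCast]
    ring
  simp only [h1]
  have hc : ∀ μ : Fin r → ℤ, Continuous fun θ : Fin r → ℝ => eu (dz μ θ) := by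
    intro μ
    unfold eu dz
    fun_prop
  have hint : ∀ (a : ℂ) (μ : Fin r → ℤ),
      IntegrableOn (fun θ : Fin r → ℝ => a * eu (dz μ θ)) (Set.Icc 0 1) := fun a μ =>
    (continuous_const.mul (hc μ)).continuousOn.integrableOn_compact isCompact_Icc
  rw [integral_finsetSum]
  · have h2 : ∀ w' ∈ D.W, ∫ θ in Set.Icc (0 : Fin r → ℝ) 1,
        ∑ w ∈ D.W, ((w'.det : ℂ) * (w.det : ℂ)) * eu (dz (w' *ᵥ l - w *ᵥ l) θ) = 1 := by
      intro w' hw'
      rw [integral_finsetSum _ fun w _ => hint _ _, Finset.sum_eq_single w']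
      · rw [integral_const_mul, (hTP r).1, if_pos (sub_self _), mul_one]
        rcases hdet w' hw' with h | h
        · rw [h]; simp
        · rw [h]; simp
      · intro w hw hne
        rw [integral_const_mul, (hTP r).1, if_neg, mul_zero]
        intro h2
        have h3 : w' *ᵥ l = w *ᵥ l := sub_eq_zero.1 h2
        obtain ⟨w₂, hw₂, h4⟩ := hinv w hw
        have h5 : (w₂ * w') *ᵥ l = l := by
          rw [← Matrix.mulVec_mulVec, h3, Matrix.mulVec_mulVec, h4, Matrix.one_mulVec]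
        have h6 : w₂ * w' = 1 := hfree l hl _ (hmul _ hw₂ _ hw') (by rw [h5]; exact hl)
        have h7 : w * w₂ = 1 := mul_eq_one_comm.1 h4
        apply hne
        calc w = w * (w₂ * w') := by rw [h6, mul_one]
          _ = w' := by rw [← mul_assoc, h7, one_mul]
      · intro h
        exact absurd hw' h
    rw [Finset.sum_congr rfl h2]
    simp
  · intro w' _
    exact integrable_finsetSum _ fun w _ => hint _ _

/-- the weight -/
def wt {r : ℕ} (Φ : RT r) (θ : Fin r → ℝ) : ℝ := ‖AT (rd Φ) 1 θ‖ ^ 2 / ((WF Φ).card : ℝ)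

theorem wt_nonneg {r : ℕ} (Φ : RT r) (θ : Fin r → ℝ) : 0 ≤ wt Φ θ := by
  unfold wt
  positivity

theorem wt_cont {r : ℕ} {Φ : RT r} (hA : ATV (rd Φ) (pos Φ)) : Continuous (wt Φ) := by
  unfold wt
  exact ((hA.cont 1).norm.pow 2).div_const _

theorem wt_cast {r : ℕ} (Φ : RT r) (θ : Fin r → ℝ) : ((wt Φ θ : ℝ) : ℂ) =
    (1 / ((WF Φ).card : ℂ)) * (AT (rd Φ) 1 θ * conj (AT (rd Φ) 1 θ)) := by
  unfold wt
  rw [Complex.mul_conj']
  push_cast
  ring

/-- the torus integral of a character -/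
theorem tor_ch {N : ℕ} {H : Subgroup (SU N)} {r : ℕ} {Φ : RT r}
    {Hc : Fin r → MT N} {c k : ℝ} {d : ℕ} (hTP : S_TPOL) (hV : RV (rd Φ) (pos Φ))
    (htc : ∀ θ, (tt H Hc θ).1 = ta Hc θ) {n : ℕ} {σ : Rep H (Fin n)} {l : Fin r → ℤ}
    (h : HWR Φ Hc c k d σ l) :
    ∫ θ in Set.Icc (0 : Fin r → ℝ) 1, ((wt Φ θ : ℝ) : ℂ) * σ.ch (tt H Hc θ) =
      if l = 1 then 1 else 0 := by
  have hreg1 : Reg (1 : Fin r → ℤ) := fun i => le_refl 1
  have e1 : ∀ θ : Fin r → ℝ, ((wt Φ θ : ℝ) : ℂ) * σ.ch (tt H Hc θ) =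
      (1 / ((WF Φ).card : ℂ)) * (AT (rd Φ) l θ * conj (AT (rd Φ) 1 θ)) := by
    intro θ
    rw [wt_cast, ← h.wcf (tt H Hc θ) θ (htc θ)]
    ring
  simp only [e1]
  rw [integral_const_mul]
  by_cases hl : l = 1
  · rw [if_pos hl, hl, self hTP hV.W_mul hV.W_inv hV.W_det hV.free hreg1]
    have h0 : ((WF Φ).card : ℂ) ≠ 0 := by
      have h1 : (1 : Matrix (Fin r) (Fin r) ℤ) ∈ WF Φ := hV.W_one
      have h2 : (WF Φ).card ≠ 0 := Finset.card_ne_zero_of_mem h1
      exact_mod_cast h2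
    have h3 : (rd Φ).W = WF Φ := rfl
    rw [h3]
    field_simp
  · rw [if_neg hl, SURJ.orth hTP hV.W_mul hV.W_inv hV.free hreg1 h.reg hl, mul_zero]

/-! ### the group -/

theorem cint {N : ℕ} {H : Subgroup (SU N)} [CompactSpace H] (μ : Measure H) [IsProbabilityMeasure μ]
    {E : Type} [NormedAddCommGroup E] {f : H → E} (hf : Continuous f) : Integrable f μ :=
  hf.integrable_of_hasCompactSupport (HasCompactSupport.of_compactSpace _)

/-- the integral of a character -/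
theorem grp_ch {N : ℕ} {H : Subgroup (SU N)} {r : ℕ} {Φ : RT r}
    {Hc : Fin r → MT N} {c k : ℝ} {d : ℕ} (hTP : S_TPOL) (hCH : S_CHAR)
    (hV : RV (rd Φ) (pos Φ)) (htc : ∀ θ, (tt H Hc θ).1 = ta Hc θ)
    (hDd : Dense (CHIF.DN H (rd Φ) Hc)) (hcl : IsClosed (H : Set (SU N)))
    (μ : Measure H) [IsProbabilityMeasure μ] [μ.IsMulLeftInvariant]
    (hNR : ∀ (n : ℕ) (σ : Rep H (Fin n)), σ.Irr → PRep σ → ∃ l, HWR Φ Hc c k d σ l)
    {n : ℕ} {σ : Rep H (Fin n)} {l : Fin r → ℤ} (hi : σ.Irr) (h : HWR Φ Hc c k d σ l) :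
    ∫ g, σ.ch g ∂μ = if l = 1 then 1 else 0 := by
  have hcs : CompactSpace H := isCompact_iff_compactSpace.1 hcl.isCompact
  have hsec : SecondCountableTopology H :=
    TopologicalSpace.Subtype.secondCountableTopology (H : Set (SU N))
  have hreg1 : Reg (1 : Fin r → ℤ) := fun i => le_refl 1
  obtain ⟨l₀, h₀⟩ := hNR 1 (trv H) (trv_irr H) (trv_prep H)
  have hl₀ : l₀ = 1 := by
    refine CHIF.at_inj hTP hV.W_one hV.free h₀.reg hreg1 fun θ => ?_
    have e := h₀.wcf (tt H Hc θ) θ (htc θ)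
    rw [trv_ch, mul_one] at e
    exact e.symm
  rw [hl₀] at h₀
  by_cases hl : l = 1
  · rw [if_pos hl]
    rw [hl] at h
    have e : ∀ g, σ.ch g = 1 := fun g => by
      rw [CHIF.ch_eq hDd h h₀ g, trv_ch]
    simp only [e]
    simp
  · rw [if_neg hl]
    rcases (hCH H μ (Fin n) σ hi).2 (Fin 1) (trv H) (trv_irr H) with h1 | h1
    · exfalso
      apply hl
      refine CHIF.at_inj hTP hV.W_one hV.free h.reg hreg1 fun θ => ?_
      have e := h.wcf (tt H Hc θ) θ (htc θ)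
      rw [h1, trv_ch, mul_one] at e
      exact e.symm
    · have e : ∀ g, σ.ch g * conj ((trv H).ch g) = σ.ch g := fun g => by
        rw [trv_ch, map_one, mul_one]
      simp only [e] at h1
      exact h1

/-- the facts which are used -/
structure Fct {N : ℕ} (H : Subgroup (SU N)) {r : ℕ} (Φ : RT r)
    (Hc : Fin r → MT N) (μ : Measure H) : Prop where
  closed : IsClosed (H : Set (SU N))
  cont : Continuous (tt H Hc)
  wc : Continuous (wt Φ)
  one : ∫ θ in Set.Icc (0 : Fin r → ℝ) 1, wt Φ θ = 1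
  ch : ∀ (n : ℕ) (σ : Rep H (Fin n)), σ.Irr → PRep σ →
    ∫ g, σ.ch g ∂μ = ∫ θ in Set.Icc (0 : Fin r → ℝ) 1, ((wt Φ θ : ℝ) : ℂ) * σ.ch (tt H Hc θ)
  right : μ.IsMulRightInvariant

/-- the formula for class functions -/
theorem class_int {N : ℕ} {H : Subgroup (SU N)} {r : ℕ} {Φ : RT r}
    {Hc : Fin r → MT N} {μ : Measure H} [IsProbabilityMeasure μ] (hf : Fct H Φ Hc μ)
    (hDC : S_DENC) (F : H → ℂ) (hF : Continuous F) (hFc : ∀ g h, F (h * g * h⁻¹) = F g) :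
    ∫ x, F x ∂μ = ∫ θ in Set.Icc (0 : Fin r → ℝ) 1, ((wt Φ θ : ℝ) : ℂ) * F (tt H Hc θ) := by
  have hcs : CompactSpace H := isCompact_iff_compactSpace.1 hf.closed.isCompact
  have hwc : Continuous fun θ : Fin r → ℝ => ((wt Φ θ : ℝ) : ℂ) :=
    Complex.continuous_ofReal.comp hf.wc
  rw [← sub_eq_zero, ← norm_eq_zero]
  refine le_antisymm (le_of_forall_pos_le_add fun ε hε => ?_) (norm_nonneg _)
  obtain ⟨m, M, σ, a, hσ, hσp, ha⟩ := hDC N H hf.closed F hF hFc (ε / 2) (half_pos hε)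
  have hchc : ∀ q, Continuous (σ q).ch := fun q => CHIF.ch_cont (σ q)
  have hSc : Continuous fun g => ∑ q, a q * (σ q).ch g :=
    continuous_finsetSum _ fun q _ => continuous_const.mul (hchc q)
  have i1 : Integrable F μ := cint μ hF
  have i2 : Integrable (fun g => ∑ q, a q * (σ q).ch g) μ := cint μ hSc
  have i3 : IntegrableOn (fun θ : Fin r → ℝ => ((wt Φ θ : ℝ) : ℂ) * F (tt H Hc θ))
      (Set.Icc 0 1) :=
    (hwc.mul (hF.comp hf.cont)).continuousOn.integrableOn_compact isCompact_Icc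
  have i4 : IntegrableOn (fun θ : Fin r → ℝ => ((wt Φ θ : ℝ) : ℂ) *
      ∑ q, a q * (σ q).ch (tt H Hc θ)) (Set.Icc 0 1) :=
    (hwc.mul (hSc.comp hf.cont)).continuousOn.integrableOn_compact isCompact_Icc
  have i5 : ∀ q, IntegrableOn (fun θ : Fin r → ℝ => a q * (((wt Φ θ : ℝ) : ℂ) *
      (σ q).ch (tt H Hc θ))) (Set.Icc 0 1) := fun q =>
    (continuous_const.mul (hwc.mul ((hchc q).comp hf.cont))).continuousOn.integrableOn_compact
      isCompact_Icc
  have i6 : IntegrableOn (wt Φ) (Set.Icc (0 : Fin r → ℝ) 1) :=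
    hf.wc.continuousOn.integrableOn_compact isCompact_Icc
  have e1 : ∫ g, ∑ q, a q * (σ q).ch g ∂μ =
      ∫ θ in Set.Icc (0 : Fin r → ℝ) 1, ((wt Φ θ : ℝ) : ℂ) *
        ∑ q, a q * (σ q).ch (tt H Hc θ) := by
    have i7 : ∀ q ∈ (Finset.univ : Finset (Fin m)), Integrable (fun g => a q * (σ q).ch g) μ :=
      fun q _ => cint μ (continuous_const.mul (hchc q))
    rw [integral_finsetSum _ i7]
    have e2 : ∀ θ : Fin r → ℝ, ((wt Φ θ : ℝ) : ℂ) * ∑ q, a q * (σ q).ch (tt H Hc θ) =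
        ∑ q, a q * (((wt Φ θ : ℝ) : ℂ) * (σ q).ch (tt H Hc θ)) := by
      intro θ
      rw [Finset.mul_sum]
      refine Finset.sum_congr rfl fun q _ => ?_
      ring
    simp only [e2]
    rw [integral_finsetSum _ fun q _ => i5 q]
    refine Finset.sum_congr rfl fun q _ => ?_
    rw [integral_const_mul, integral_const_mul, hf.ch _ (σ q) (hσ q) (hσp q)]
  have b1 : ‖∫ x, F x ∂μ - ∫ g, ∑ q, a q * (σ q).ch g ∂μ‖ ≤ ε / 2 := by
    rw [← integral_sub i1 i2]
    have h4 := norm_integral_le_of_norm_le_const (μ := μ) (C := ε / 2)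
      (f := fun g => F g - ∑ q, a q * (σ q).ch g) (Eventually.of_forall fun g => ha g)
    refine h4.trans ?_
    simp
  have b2 : ‖(∫ θ in Set.Icc (0 : Fin r → ℝ) 1, ((wt Φ θ : ℝ) : ℂ) * F (tt H Hc θ)) -
      ∫ θ in Set.Icc (0 : Fin r → ℝ) 1, ((wt Φ θ : ℝ) : ℂ) *
        ∑ q, a q * (σ q).ch (tt H Hc θ)‖ ≤ ε / 2 := by
    rw [← integral_sub i3 i4]
    refine (norm_integral_le_integral_norm _).trans ?_
    have h1 : ∫ θ in Set.Icc (0 : Fin r → ℝ) 1, ‖((wt Φ θ : ℝ) : ℂ) * F (tt H Hc θ) -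
        ((wt Φ θ : ℝ) : ℂ) * ∑ q, a q * (σ q).ch (tt H Hc θ)‖ ≤
        ∫ θ in Set.Icc (0 : Fin r → ℝ) 1, wt Φ θ * (ε / 2) := by
      refine setIntegral_mono ((i3.sub i4).norm) (i6.mul_const _) fun θ => ?_
      show ‖((wt Φ θ : ℝ) : ℂ) * F (tt H Hc θ) -
        ((wt Φ θ : ℝ) : ℂ) * ∑ q, a q * (σ q).ch (tt H Hc θ)‖ ≤ wt Φ θ * (ε / 2)
      rw [← mul_sub, norm_mul, Complex.norm_real, Real.norm_of_nonneg (wt_nonneg Φ θ)]
      exact mul_le_mul_of_nonneg_left (ha _) (wt_nonneg Φ θ)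
    refine h1.trans ?_
    rw [integral_mul_const, hf.one, one_mul]
  rw [zero_add]
  have e3 : (∫ x, F x ∂μ) -
      ∫ θ in Set.Icc (0 : Fin r → ℝ) 1, ((wt Φ θ : ℝ) : ℂ) * F (tt H Hc θ) =
      ((∫ x, F x ∂μ) - ∫ g, ∑ q, a q * (σ q).ch g ∂μ) -
      ((∫ θ in Set.Icc (0 : Fin r → ℝ) 1, ((wt Φ θ : ℝ) : ℂ) * F (tt H Hc θ)) -
      ∫ θ in Set.Icc (0 : Fin r → ℝ) 1, ((wt Φ θ : ℝ) : ℂ) *
        ∑ q, a q * (σ q).ch (tt H Hc θ)) := by
    rw [e1]
    ring
  rw [e3]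
  refine (norm_sub_le _ _).trans ?_
  linarith

/-- the formula for continuous functions -/
theorem cont_int {N : ℕ} {H : Subgroup (SU N)} {r : ℕ} {Φ : RT r}
    {Hc : Fin r → MT N} {μ : Measure H} [IsProbabilityMeasure μ] [μ.IsMulLeftInvariant]
    (hf : Fct H Φ Hc μ) (hDC : S_DENC) (f : H → ℝ) (hc : Continuous f) :
    ∫ x, f x ∂μ = ∫ θ in Set.Icc (0 : Fin r → ℝ) 1,
      wt Φ θ * ∫ h, f (h * tt H Hc θ * h⁻¹) ∂μ := by
  have hcs : CompactSpace H := isCompact_iff_compactSpace.1 hf.closed.isCompact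
  have hsec : SecondCountableTopology H :=
    TopologicalSpace.Subtype.secondCountableTopology (H : Set (SU N))
  have hri := hf.right
  have hu : Continuous fun x : H × H => f (x.2 * x.1 * x.2⁻¹) :=
    hc.comp ((continuous_snd.mul continuous_fst).mul continuous_snd.inv)
  set A : H → ℝ := fun g => ∫ h, f (h * g * h⁻¹) ∂μ with hA
  have hAc : Continuous A := by
    have h1 := continuous_parametric_integral_of_continuous (μ := μ) (X := H)
      (f := fun g h : H => f (h * g * h⁻¹)) hu (isCompact_univ (X := H))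
    simpa [hA] using h1
  have hAcl : ∀ g h, A (h * g * h⁻¹) = A g := by
    intro g h
    show ∫ x, f (x * (h * g * h⁻¹) * x⁻¹) ∂μ = ∫ x, f (x * g * x⁻¹) ∂μ
    rw [← integral_mul_right_eq_self (fun x => f (x * g * x⁻¹)) h]
    refine integral_congr_ae (Eventually.of_forall fun x => ?_)
    show f (x * (h * g * h⁻¹) * x⁻¹) = f (x * h * g * (x * h)⁻¹)
    congr 1
    group
  have e1 : ∫ g, A g ∂μ = ∫ x, f x ∂μ := by
    show ∫ g, ∫ h, f (h * g * h⁻¹) ∂μ ∂μ = ∫ x, f x ∂μ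
    rw [integral_integral_swap]
    · have e2 : ∀ h : H, ∫ g, f (h * g * h⁻¹) ∂μ = ∫ x, f x ∂μ := by
        intro h
        have e3 := integral_mul_left_eq_self (μ := μ) (fun x => f (x * h⁻¹)) h
        rw [e3, integral_mul_right_eq_self]
      simp only [e2]
      simp
    · exact hu.integrable_of_hasCompactSupport (HasCompactSupport.of_compactSpace _)
  have e4 := class_int hf hDC (fun g => ((A g : ℝ) : ℂ)) (Complex.continuous_ofReal.comp hAc)
    (fun g h => by rw [hAcl])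
  have e5 : ∫ x, ((A x : ℝ) : ℂ) ∂μ = ((∫ x, f x ∂μ : ℝ) : ℂ) := by
    rw [integral_complex_ofReal, e1]
  have e6 : ∫ θ in Set.Icc (0 : Fin r → ℝ) 1, ((wt Φ θ : ℝ) : ℂ) * ((A (tt H Hc θ) : ℝ) : ℂ) =
      ((∫ θ in Set.Icc (0 : Fin r → ℝ) 1, wt Φ θ * A (tt H Hc θ) : ℝ) : ℂ) := by
    rw [← integral_complex_ofReal]
    refine integral_congr_ae (Eventually.of_forall fun θ => ?_)
    show ((wt Φ θ : ℝ) : ℂ) * ((A (tt H Hc θ) : ℝ) : ℂ) = ((wt Φ θ * A (tt H Hc θ) : ℝ) : ℂ)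
    push_cast
    rfl
  rw [e5, e6] at e4
  exact_mod_cast e4

/-- the measure on the product -/
def pm {N : ℕ} {H : Subgroup (SU N)} {r : ℕ} (Φ : RT r) (μ : Measure H) :
    Measure (H × (Fin r → ℝ)) :=
  μ.prod ((volume.restrict (Set.Icc (0 : Fin r → ℝ) 1)).withDensity
    fun θ => ENNReal.ofReal (wt Φ θ))

theorem fct_meas {N : ℕ} {H : Subgroup (SU N)} {r : ℕ} {Φ : RT r}
    {Hc : Fin r → MT N} {μ : Measure H} [IsProbabilityMeasure μ] [μ.IsMulLeftInvariant]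
    (hf : Fct H Φ Hc μ) (hDC : S_DENC) :
    μ = (pm Φ μ).map (fun x : H × (Fin r → ℝ) => x.1 * tt H Hc x.2 * x.1⁻¹) := by
  have hcs : CompactSpace H := isCompact_iff_compactSpace.1 hf.closed.isCompact
  have hsec : SecondCountableTopology H :=
    TopologicalSpace.Subtype.secondCountableTopology (H : Set (SU N))
  have i6 : IntegrableOn (wt Φ) (Set.Icc (0 : Fin r → ℝ) 1) :=
    hf.wc.continuousOn.integrableOn_compact isCompact_Icc
  have hfin : IsFiniteMeasure ((volume.restrict (Set.Icc (0 : Fin r → ℝ) 1)).withDensity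
      fun θ => ENNReal.ofReal (wt Φ θ)) := isFiniteMeasure_withDensity_ofReal i6.2
  have hpf : IsFiniteMeasure (pm Φ μ) := by
    unfold pm
    infer_instance
  have hφ : Continuous fun x : H × (Fin r → ℝ) => x.1 * tt H Hc x.2 * x.1⁻¹ :=
    (continuous_fst.mul (hf.cont.comp continuous_snd)).mul continuous_fst.inv
  have hmf : IsFiniteMeasure
      ((pm Φ μ).map (fun x : H × (Fin r → ℝ) => x.1 * tt H Hc x.2 * x.1⁻¹)) := by
    infer_instance
  refine ext_of_forall_integral_eq_of_IsFiniteMeasure fun f => ?_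
  rw [integral_map hφ.measurable.aemeasurable f.continuous.aestronglyMeasurable, cont_int hf hDC f f.continuous]
  have hb : Integrable (fun x : H × (Fin r → ℝ) => f (x.1 * tt H Hc x.2 * x.1⁻¹)) (pm Φ μ) := by
    refine Integrable.of_bound (f.continuous.comp hφ).aestronglyMeasurable ‖f‖
      (Eventually.of_forall fun x => f.norm_coe_le_norm _)
  unfold pm at hb ⊢
  rw [integral_prod_symm _ hb, integral_withDensity_eq_integral_toReal_smul]
  · refine integral_congr_ae (Eventually.of_forall fun θ => ?_)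
    show wt Φ θ * ∫ h, f (h * tt H Hc θ * h⁻¹) ∂μ =
      (ENNReal.ofReal (wt Φ θ)).toReal • ∫ h, f (h * tt H Hc θ * h⁻¹) ∂μ
    rw [ENNReal.toReal_ofReal (wt_nonneg Φ θ), smul_eq_mul]
  · exact hf.wc.measurable.ennreal_ofReal
  · exact Eventually.of_forall fun θ => ENNReal.ofReal_lt_top

end WIF

theorem t_WIF : M_WIF := by
  intro hHA hCH hWF hCM hRV hAT hDN hTA hCJ hTP hPF hNR hDC hPS
    N H r Φ B Hc E c k d hX μ _ _ f hfm
  obtain ⟨C, -, hPC⟩ := hPS N H r Φ B Hc E c k d hX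
  obtain ⟨X, hfr⟩ := hX.frame
  have hV : RV (rd Φ) (pos Φ) := hRV r Φ B hX.one_le hX.lrd.ird
  have hA : ATV (rd Φ) (pos Φ) := hAT r (rd Φ) (pos Φ) hV
  have hT : TAF H Φ Hc E := hTA N H r Φ B Hc E hX.closed hX.lrd
  have hdr := CHIF.dense_reg hDN hV hA
  have hDd : Dense (CHIF.DN H (rd Φ) Hc) :=
    CHIF.dense_DN hT.mem hT.cont hdr (hCJ N H r Φ B Hc E hX.closed hX.conn hX.lrd)
  have hcs : CompactSpace H := isCompact_iff_compactSpace.1 hX.closed.isCompact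
  have hsec : SecondCountableTopology H :=
    TopologicalSpace.Subtype.secondCountableTopology (H : Set (SU N))
  have hNR' := hNR N H r Φ B Hc E c k d X hX.one_le hX.closed hX.conn hX.lrd hX.kc hfr
  have hch : ∀ (n : ℕ) (σ : Rep H (Fin n)), σ.Irr → PRep σ →
      ∫ g, σ.ch g ∂μ = ∫ θ in Set.Icc (0 : Fin r → ℝ) 1,
        ((WIF.wt Φ θ : ℝ) : ℂ) * σ.ch (tt H Hc θ) := by
    intro n σ h1 h2
    obtain ⟨l, hl⟩ := hNR' n σ h1 h2
    rw [WIF.tor_ch hTP hV hPC.tcoe hl,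
      WIF.grp_ch hTP hCH hV hPC.tcoe hDd hX.closed μ hNR' h1 hl]
  have hone : ∫ θ in Set.Icc (0 : Fin r → ℝ) 1, WIF.wt Φ θ = 1 := by
    have e1 := hch 1 (WIF.trv H) (WIF.trv_irr H) (WIF.trv_prep H)
    simp only [WIF.trv_ch, mul_one] at e1
    rw [integral_complex_ofReal] at e1
    have e2 : ∫ _ : H, (1 : ℂ) ∂μ = 1 := by simp
    rw [e2] at e1
    exact_mod_cast e1.symm
  have hF : WIF.Fct H Φ Hc μ := ⟨hX.closed, hPC.tcont, WIF.wt_cont hA, hone, hch, (hHA H μ).1⟩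
  have hφ : Continuous fun x : H × (Fin r → ℝ) => x.1 * tt H Hc x.2 * x.1⁻¹ :=
    (continuous_fst.mul (hF.cont.comp continuous_snd)).mul continuous_fst.inv
  have i6 : IntegrableOn (WIF.wt Φ) (Set.Icc (0 : Fin r → ℝ) 1) :=
    hF.wc.continuousOn.integrableOn_compact isCompact_Icc
  have hfin : IsFiniteMeasure ((volume.restrict (Set.Icc (0 : Fin r → ℝ) 1)).withDensity
      fun θ => ENNReal.ofReal (WIF.wt Φ θ)) := isFiniteMeasure_withDensity_ofReal i6.2
  have key : ∫⁻ x, f x ∂μ = ∫⁻ x, f x ∂((WIF.pm Φ μ).map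
      (fun x : H × (Fin r → ℝ) => x.1 * tt H Hc x.2 * x.1⁻¹)) := by
    rw [← WIF.fct_meas hF hDC]
  rw [key, lintegral_map hfm hφ.measurable]
  unfold WIF.pm
  have hfm2 : AEMeasurable (fun x : H × (Fin r → ℝ) => f (x.1 * tt H Hc x.2 * x.1⁻¹))
      (μ.prod ((volume.restrict (Set.Icc (0 : Fin r → ℝ) 1)).withDensity
        fun θ => ENNReal.ofReal (WIF.wt Φ θ))) := (hfm.comp hφ.measurable).aemeasurable
  rw [lintegral_prod _ hfm2]
  refine lintegral_congr fun h => ?_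
  rw [lintegral_withDensity_eq_lintegral_mul _ hF.wc.measurable.ennreal_ofReal]
  · rfl
  · have h2 : Continuous fun θ : Fin r → ℝ => h * tt H Hc θ * h⁻¹ :=
      (continuous_const.mul hF.cont).mul continuous_const
    exact hfm.comp h2.measurable

end

end STZ3
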