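import Pool.Agent.STZ3.StmtsT3

/-!
# STZ3, module XIN: the inequality (T5) for the exponents
-/

namespace STZ3

open STZ LGR MeasureTheory Matrix Filter

open scoped ComplexConjugate Matrix Real Topology

noncomputable section

namespace XIN

/-- the choice of the parameters -/
theorem param (n : ℕ) (κ : ℝ) (h0 : 0 < κ) (h1 : 2 < ((n : ℝ) + 2) * κ) :
    ∃ σ η : ℝ, 0 < σ ∧ σ < 1 ∧ 0 < η ∧ 1 + η ≤ σ * (1 + κ) ∧
      2 - 2 * σ * κ - n * κ + (n + 2) * η ≤ 0 ∧ η ≤ κ / 2 ∧ 1 / 2 ≤ σ := by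
  have hn : (0 : ℝ) ≤ n := Nat.cast_nonneg n
  set g : ℝ := ((n : ℝ) + 2) * κ - 2 with hg
  have hg0 : 0 < g := by rw [hg]; linarith
  set η : ℝ := min (κ / 2) (g / (2 * ((n : ℝ) + 2))) with hη
  have hη0 : 0 < η := lt_min (by positivity) (by positivity)
  have hη1 : η ≤ κ / 2 := min_le_left _ _
  have hη2 : ((n : ℝ) + 2) * η ≤ g / 2 := by
    have h2 : η ≤ g / (2 * ((n : ℝ) + 2)) := min_le_right _ _
    rw [le_div_iff₀ (by positivity)] at h2
    linarith
  set s : ℝ := min (κ / (2 * (1 + κ))) (min (g / (4 * κ)) (1 / 2)) with hs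
  have hs0 : 0 < s := lt_min (by positivity) (lt_min (by positivity) (by norm_num))
  have hs1 : s * (1 + κ) ≤ κ / 2 := by
    have h2 : s ≤ κ / (2 * (1 + κ)) := min_le_left _ _
    rw [le_div_iff₀ (by positivity)] at h2
    linarith
  have hs2 : 2 * s * κ ≤ g / 2 := by
    have h2 : s ≤ g / (4 * κ) := le_trans (min_le_right _ _) (min_le_left _ _)
    rw [le_div_iff₀ (by positivity)] at h2
    linarith
  have hs3 : s ≤ 1 / 2 := le_trans (min_le_right _ _) (min_le_right _ _)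
  refine ⟨1 - s, η, by linarith, by linarith, hη0, ?_, ?_, hη1, by linarith⟩
  · nlinarith
  · rw [hg] at hs2 hη2
    nlinarith

theorem sum_ge {ι : Type} [Fintype ι] (z : ι → ℝ) (i₁ i₂ : ι)
    (h : ∀ i, i ≠ i₁ → z i₂ ≤ z i) :
    z i₁ + ((Fintype.card ι : ℝ) - 1) * z i₂ ≤ ∑ i, z i := by
  classical
  rw [← Finset.add_sum_erase Finset.univ z (Finset.mem_univ i₁)]
  have h1 : ((Finset.univ.erase i₁).card : ℝ) * z i₂ ≤ ∑ i ∈ Finset.univ.erase i₁, z i := by
    have h2 := Finset.card_nsmul_le_sum (Finset.univ.erase i₁) z (z i₂)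
      (fun i hi => h i (Finset.ne_of_mem_erase hi))
    rwa [nsmul_eq_mul] at h2
  have h2 : ((Finset.univ.erase i₁).card : ℝ) = (Fintype.card ι : ℝ) - 1 := by
    rw [Finset.card_erase_of_mem (Finset.mem_univ i₁), Finset.card_univ,
      Nat.cast_sub (Fintype.card_pos_iff.2 ⟨i₁⟩), Nat.cast_one]
  rw [h2] at h1
  linarith

end XIN

open XIN in
/-- The inequality (T5). -/
theorem t_XIN : S_XIN := by
  intro n p hn hp hp3
  have hn3 : (3 : ℝ) ≤ n := by exact_mod_cast hn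
  set κ : ℝ := p / 2 - 1 with hκ
  have hκ1 : κ < 1 / 2 := by rw [hκ]; linarith
  have hκ2 : 2 < ((n : ℝ) + 2) * κ := by
    have h1 : 4 / ((n : ℝ) + 2) < 2 * κ := by rw [hκ]; linarith
    rw [div_lt_iff₀ (by linarith)] at h1
    linarith
  have hκ0 : 0 < κ := by
    by_contra h
    have : ((n : ℝ) + 2) * κ ≤ 0 := mul_nonpos_of_nonneg_of_nonpos (by linarith) (not_lt.1 h)
    linarith
  obtain ⟨σ, η, hσ0, hσ1, hη0, ha, hb, hη, hσ2⟩ := param n κ hκ0 hκ2
  refine ⟨σ, η, hσ0, hσ1, hη0, ?_⟩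
  intro ι _ z i₁ i₂ j hcard hz _ h12 hmin hj
  have hS := sum_ge z i₁ i₂ hmin
  rw [hcard] at hS
  set S := ∑ i, z i with hSdef
  set a := z i₁ with hadef
  set b := z i₂ with hbdef
  have ha0 : 0 ≤ a := hz i₁
  have hb0 : 0 ≤ b := hz i₂
  have hσκ : σ * κ ≤ 1 / 2 := by nlinarith
  -- the common bound
  have hE : -(κ - η) * S + (2 - 2 * (σ * κ) + 2 * η - σ) * b + σ * a ≤ 0 := by
    have h1 : (κ - η) * (a + ((n : ℝ) - 1) * b) ≤ (κ - η) * S :=
      mul_le_mul_of_nonneg_left hS (by linarith)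
    have h2 : 0 ≤ σ - κ + η := by linarith
    have h3 : (σ - κ + η) * a ≤ (σ - κ + η) * b := mul_le_mul_of_nonneg_left h12 h2
    have h4 : (2 - 2 * σ * κ - n * κ + (n + 2) * η) * b ≤ 0 :=
      mul_nonpos_of_nonpos_of_nonneg hb hb0
    nlinarith
  rcases le_total j (2 * b) with hjb | hjb
  · have h1 : max 0 (j - 2 * b) = 0 := max_eq_left (by linarith)
    have h2 : j - 2 * a ≤ max 0 (j - 2 * a) := le_max_right _ _
    rw [h1, add_zero]
    have h3 : σ / 2 * (j - 2 * a) ≤ σ / 2 * max 0 (j - 2 * a) :=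
      mul_le_mul_of_nonneg_left h2 (by linarith)
    have h4 : (1 - σ * κ + η - σ / 2) * j ≤ (1 - σ * κ + η - σ / 2) * (2 * b) :=
      mul_le_mul_of_nonneg_left hjb (by linarith)
    nlinarith
  · have h1 : max 0 (j - 2 * b) = j - 2 * b := max_eq_right (by linarith)
    have h2 : max 0 (j - 2 * a) = j - 2 * a := max_eq_right (by linarith)
    rw [h1, h2]
    have h4 : (σ * (1 + κ) - (1 + η)) * (2 * b) ≤ (σ * (1 + κ) - (1 + η)) * j :=
      mul_le_mul_of_nonneg_left hjb (by linarith)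
    nlinarith

end

end STZ3
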