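import Pool.Agent.LGR.ASM
import Pool.Agent.STZ.TORB
import Pool.Agent.STZ3.UNI
import Pool.Agent.STZ3.UNC
import Pool.Agent.STZ3.TRM
import Pool.Agent.STZ3.EXI
import Pool.Agent.STZ3.MOM
import Pool.Agent.STZ3.TAI
import Pool.Agent.STZ3.SYK
import Pool.Agent.STZ3.HMV
import Pool.Agent.STZ3.HMF
import Pool.Agent.STZ3.TRI
import Pool.Agent.STZ3.TRF
import Pool.Agent.STZ3.IDM
import Pool.Agent.STZ3.BRP
import Pool.Agent.STZ3.HRM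
import Pool.Agent.STZ3.DNR
import Pool.Agent.STZ3.ANT
import Pool.Agent.STZ3.LWB
import Pool.Agent.STZ3.TRB
import Pool.Agent.STZ3.L2W
import Pool.Agent.STZ3.HKS
import Pool.Agent.STZ3.HKM
import Pool.Agent.STZ3.HKT
import Pool.Agent.STZ3.MTK
import Pool.Agent.STZ3.PSF
import Pool.Agent.STZ3.WIF
import Pool.Agent.STZ3.DET
import Pool.Agent.STZ3.AVG
import Pool.Agent.STZ3.BOH
import Pool.Agent.STZ3.VOL
import Pool.Agent.STZ3.EBD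
import Pool.Agent.STZ3.SBD
import Pool.Agent.STZ3.JBD
import Pool.Agent.STZ3.CFA
import Pool.Agent.STZ3.CFB
import Pool.Agent.STZ3.FRQ
import Pool.Agent.STZ3.NXS
import Pool.Agent.STZ3.RQN
import Pool.Agent.STZ3.L4E
import Pool.Agent.STZ3.L4D
import Pool.Agent.STZ3.K4B
import Pool.Agent.STZ3.BII
import Pool.Agent.STZ3.LEA
import Pool.Agent.STZ3.LEB
import Pool.Agent.STZ3.LEC
import Pool.Agent.STZ3.LED
import Pool.Agent.STZ3.KLO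
import Pool.Agent.STZ3.CVR
import Pool.Agent.STZ3.PLA
import Pool.Agent.STZ3.PRM
import Pool.Agent.STZ3.LMB
import Pool.Agent.STZ3.KOF
import Pool.Agent.STZ3.VCN
import Pool.Agent.STZ3.NRP
import Pool.Agent.STZ3.DCP
import Pool.Agent.STZ3.OFD
import Pool.Agent.STZ3.CLL
import Pool.Agent.STZ3.KHO
import Pool.Agent.STZ3.JSB
import Pool.Agent.STZ3.L2N
import Pool.Agent.STZ3.LAF
import Pool.Agent.STZ3.AMA
import Pool.Agent.STZ3.AMB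
import Pool.Agent.STZ3.SET
import Pool.Agent.STZ3.DGB
import Pool.Agent.STZ3.IPR
import Pool.Agent.STZ3.WSG
import Pool.Agent.STZ3.GTA
import Pool.Agent.STZ3.LCB
import Pool.Agent.STZ3.ENT
import Pool.Agent.STZ3.SPE
import Pool.Agent.STZ3.CNT
import Pool.Agent.STZ3.CEL
import Pool.Agent.STZ3.XIN
import Pool.Agent.STZ3.PTW
import Pool.Agent.STZ3.TOJ
import Pool.Agent.STZ3.TOI
import Pool.Agent.STZ3.TTM
import Pool.Agent.STZ3.TPL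
import Pool.Agent.STZ3.MXU
import Pool.Agent.STZ3.LEW
import Pool.Agent.STZ3.LOT
import Pool.Agent.STZ3.ALA
import Pool.Agent.STZ3.FAR
import Pool.Agent.STZ3.NUM
import Pool.Agent.STZ3.TTB
import Pool.Agent.STZ3.BXB
import Pool.Agent.STZ3.LWL
import Pool.Agent.STZ3.STU
import Pool.Agent.STZ3.IDA
import Pool.Agent.STZ3.BRA
import Pool.Agent.STZ3.L2A
import Pool.Agent.STZ3.SLA
import Pool.Agent.STZ3.STR
import Pool.Agent.STZ3.HMC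
import Pool.Agent.STZ3.TRL
import Pool.Agent.STZ3.TRC
import Pool.Agent.STZ3.BRC
import Pool.Agent.STZ3.GLH
import Pool.Agent.STZ3.GLB
import Pool.Agent.STZ3.L2C
import Pool.Agent.STZ3.THG
import Pool.Agent.STZ3.PO1
import Pool.Agent.STZ3.POS
import Pool.Agent.STZ3.TLE
import Pool.Agent.STZ3.KEY
import Pool.Agent.STZ3.GTI
import Pool.Agent.STZ3.JBC
import Pool.Agent.STZ3.CR3
import Pool.Agent.STZ3.ATW
import Pool.Agent.STZ3.RGM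
import Pool.Agent.STZ3.LMC
import Pool.Agent.STZ3.QNS
import Pool.Agent.STZ3.LAN
import Pool.Agent.STZ3.KOC
import Pool.Agent.STZ3.NRC
import Pool.Agent.STZ3.SMK
import Pool.Agent.STZ3.FPX
import Pool.Agent.STZ3.SMJ
import Pool.Agent.STZ3.LAC
import Pool.Agent.STZ3.ESD
import Pool.Agent.STZ3.AMC
import Pool.Agent.STZ3.SUI
import Pool.Agent.STZ3.STS
import Pool.Agent.STZ3.ABC
import Pool.Agent.STZ3.JSC
import Pool.Agent.STZ3.SEC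
import Pool.Agent.STZ3.DGC
import Pool.Agent.STZ3.IPC
import Pool.Agent.STZ3.NUC
import Pool.Agent.STZ3.BXC
import Pool.Agent.STZ3.LWC
import Pool.Agent.STZ3.MFN
import Pool.Agent.STZ3.MFC

/-!
# Simple compact Lie groups of rank two: the assembly
-/

namespace STZ3

open STZ LGR MeasureTheory Matrix Filter

namespace ASM3

theorem uni3 : S_UNI := t_UNI LGR.ASM.tenh LGR.ASM.pffx LGR.ASM.decp

theorem unc3 : S_UNC := t_UNC LGR.ASM.tenh LGR.ASM.pffx LGR.ASM.decp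

theorem trm3 : S_TRM := t_TRM 

theorem exi3 : S_EXI := t_EXI LGR.ASM.lieb LGR.ASM.tenh LGR.ASM.pffx LGR.ASM.decp LGR.ASM.drep trm3

theorem mom3 : S_MOM := t_MOM LGR.ASM.lieb LGR.ASM.calh LGR.ASM.tenh LGR.ASM.pffx LGR.ASM.decp LGR.ASM.drep uni3 exi3

theorem tai3 : S_TAI := t_TAI LGR.ASM.lieb LGR.ASM.wfac LGR.ASM.tauf mom3

theorem syk3 : S_SYK := t_SYK LGR.ASM.drep uni3

theorem hmv3 : S_HMV := t_HMV LGR.ASM.lieb LGR.ASM.wfac LGR.ASM.quad LGR.ASM.tauf LGR.ASM.drep LGR.ASM.adfr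

theorem hmf3 : S_HMF := t_HMF LGR.ASM.drep

theorem tri3 : S_TRI := t_TRI LGR.ASM.tauf LGR.ASM.tpol

theorem trf3 : S_TRF := t_TRF LGR.ASM.wfac LGR.ASM.quad LGR.ASM.rvof tri3

theorem idm3 : S_IDM := t_IDM LGR.ASM.schur LGR.ASM.wfac LGR.ASM.cham LGR.ASM.tauf LGR.ASM.conj LGR.ASM.denv LGR.ASM.rvof LGR.ASM.atfv LGR.ASM.tpol LGR.ASM.pffx LGR.ASM.drep LGR.ASM.casr LGR.ASM.tres LGR.ASM.norr unc3 hmv3 trf3

theorem brp3 : S_BRP := t_BRP LGR.ASM.haar LGR.ASM.lieb LGR.ASM.tauf syk3 idm3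

theorem hrm3 : S_HRM := t_HRM LGR.ASM.rhof LGR.ASM.gens LGR.ASM.quad LGR.ASM.rvof

theorem dnr3 : S_DNR := t_DNR LGR.ASM.rhof LGR.ASM.deno LGR.ASM.tpol

theorem ant3 : S_ANT := t_ANT LGR.ASM.quad

theorem lwb3 : S_LWB := t_LWB LGR.ASM.quad hrm3 dnr3 ant3

theorem trb3 : S_TRB := t_TRB LGR.ASM.wfac trf3 lwb3

theorem l2w3 : S_L2W := t_L2W LGR.ASM.schur LGR.ASM.tenh LGR.ASM.wfac LGR.ASM.tauf LGR.ASM.pffx LGR.ASM.decp LGR.ASM.tres LGR.ASM.norr hmv3 trb3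

theorem hks3 : S_HKS := t_HKS LGR.ASM.lieb LGR.ASM.wfac LGR.ASM.quad LGR.ASM.tauf LGR.ASM.adfr

theorem hkm3 : S_HKM := t_HKM LGR.ASM.haar LGR.ASM.schur LGR.ASM.lieb LGR.ASM.wfac LGR.ASM.cham LGR.ASM.tauf LGR.ASM.conj LGR.ASM.denv LGR.ASM.rvof LGR.ASM.atfv LGR.ASM.pffx LGR.ASM.drep LGR.ASM.casr LGR.ASM.tres LGR.ASM.norr unc3 exi3 hmf3 hks3

theorem hkt3 : S_HKT := t_HKT LGR.ASM.haar LGR.ASM.kb LGR.ASM.keri LGR.ASM.lieb LGR.ASM.tauf LGR.ASM.chif tai3 exi3 hmf3 hks3 hkm3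

theorem mtk3 : S_MTK := t_MTK LGR.ASM.lieb LGR.ASM.wfac LGR.ASM.tauf LGR.ASM.tpol LGR.ASM.pffx LGR.ASM.tres LGR.ASM.norr unc3 hmv3 hmf3

theorem psf3 : S_PSF := t_PSF LGR.ASM.lieb LGR.ASM.wfac LGR.ASM.tauf

theorem wif3 : S_WIF := t_WIF LGR.ASM.haar LGR.ASM.char LGR.ASM.wfac LGR.ASM.cham LGR.ASM.rvof LGR.ASM.atfv LGR.ASM.denv LGR.ASM.tauf LGR.ASM.conj LGR.ASM.tpol LGR.ASM.pffx LGR.ASM.norr LGR.ASM.denc psf3

theorem det3 : S_DET := t_DET LGR.ASM.lieb LGR.ASM.wfac LGR.ASM.tauf LGR.ASM.adfr psf3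

theorem avg3 : S_AVG := t_AVG LGR.ASM.deno

theorem boh3 : S_BOH := t_BOH STZ.t_TORB

theorem vol3 : S_VOL := t_VOL LGR.ASM.lieb LGR.ASM.wfac LGR.ASM.deno LGR.ASM.tauf LGR.ASM.adfr psf3 wif3 boh3

theorem ebd3 : S_EBD := t_EBD LGR.ASM.haar LGR.ASM.wfac avg3 psf3 wif3 vol3

theorem sbd3 : S_SBD := t_SBD LGR.ASM.tauf LGR.ASM.conj psf3 hks3 hkt3 ebd3

theorem jbd3 : S_JBD := t_JBD LGR.ASM.haar LGR.ASM.lieb LGR.ASM.gxoc psf3 exi3 syk3 hks3 hkm3 mtk3 det3 sbd3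

theorem cfa3 : S_CFA := t_CFA 

theorem cfb3 : S_CFB := t_CFB 

theorem frq3 : S_FRQ := t_FRQ 

theorem nxs3 : S_NXS := t_NXS LGR.ASM.rvof

theorem rqn3 : S_RQN := t_RQN LGR.ASM.quad

theorem l4e3 : S_L4E := t_L4E LGR.ASM.quad LGR.ASM.tpol rqn3

theorem l4d3 : S_L4D := t_L4D l4e3

theorem k4b3 : S_K4B := t_K4B l4d3

theorem bii3 : S_BII := t_BII LGR.ASM.kb LGR.ASM.keri LGR.ASM.wfac LGR.ASM.chif rqn3

theorem lea3 : S_LEA := t_LEA 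

theorem leb3 : S_LEB := t_LEB 

theorem lec3 : S_LEC := t_LEC LGR.ASM.deno LGR.ASM.tpol

theorem led3 : S_LED := t_LED LGR.ASM.quad

theorem klo3 : S_KLO := t_KLO LGR.ASM.cauc nxs3 cfb3

theorem cvr3 : S_CVR := t_CVR 

theorem pla3 : S_PLA := t_PLA LGR.ASM.haar psf3 LGR.ASM.tpol

theorem prm3 : S_PRM := t_PRM 

theorem lmb3 : S_LMB := t_LMB prm3 nxs3

theorem kof3 : S_KOF := t_KOF LGR.ASM.quad prm3 lmb3 klo3

theorem vcn3 : S_VCN := t_VCN LGR.ASM.haar psf3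

theorem nrp3 : S_NRP := t_NRP prm3 lmb3 tai3 brp3 vcn3

theorem dcp3 : S_DCP := t_DCP psf3 vcn3 pla3

theorem ofd3 : S_OFD := t_OFD psf3 vcn3 pla3

theorem cll3 : S_CLL := t_CLL LGR.ASM.haar psf3

theorem kho3 : S_KHO := t_KHO LGR.ASM.haar psf3 k4b3

theorem jsb3 : S_JSB := t_JSB LGR.ASM.haar psf3 jbd3 vcn3

theorem l2n3 : S_L2N := t_L2N psf3 tai3 l2w3 vcn3

theorem laf3 : S_LAF := t_LAF lea3 lec3

theorem ama3 : S_AMA := t_AMA prm3 leb3 led3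

theorem amb3 : S_AMB := t_AMB prm3

theorem set3 : S_SET := t_SET prm3 cvr3

theorem dgb3 : S_DGB := t_DGB LGR.ASM.wfac psf3 prm3 lmb3 kof3 vcn3 cll3 kho3 jsb3 l2n3 laf3 ama3 amb3 set3

theorem ipr3 : S_IPR := t_IPR LGR.ASM.lieb LGR.ASM.wfac LGR.ASM.tauf prm3 lmb3 exi3 frq3 kof3 vcn3 nrp3 dcp3 ofd3 dgb3

theorem wsg3 : S_WSG := t_WSG 

theorem gta3 : S_GTA := t_GTA wsg3

theorem lcb3 : S_LCB := t_LCB 

theorem ent3 : S_ENT := t_ENT lcb3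

theorem spe3 : S_SPE := t_SPE 

theorem cnt3 : S_CNT := t_CNT ent3 spe3

theorem cel3 : S_CEL := t_CEL cnt3

theorem xin3 : S_XIN := t_XIN 

theorem ptw3 : S_PTW := t_PTW LGR.ASM.wwf gta3

theorem toj3 : S_TOJ := t_TOJ LGR.ASM.wwf cel3 xin3 ptw3

theorem toi3 : S_TOI := t_TOI LGR.ASM.wwf toj3

theorem ttm3 : S_TTM := t_TTM LGR.ASM.kb

theorem tpl3 : S_TPL := t_TPL LGR.ASM.wwf LGR.ASM.keri LGR.ASM.kwfg ttm3 toi3

theorem mxu3 : S_MXU := t_MXU LGR.ASM.kb LGR.ASM.bern LGR.ASM.keri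

theorem lew3 : S_LEW := t_LEW 

theorem lot3 : S_LOT := t_LOT lew3

theorem ala3 : S_ALA := t_ALA LGR.ASM.nq STZ.t_SCH

theorem far3 : S_FAR := t_FAR LGR.ASM.quad

theorem num3 : S_NUM := t_NUM prm3 far3

theorem ttb3 : S_TTB := t_TTB LGR.ASM.kb

theorem bxb3 : S_BXB := t_BXB LGR.ASM.wfac cfa3 prm3 bii3 ipr3 num3

theorem lwl3 : S_LWL := t_LWL LGR.ASM.wfac LGR.ASM.keri LGR.ASM.chif nxs3 prm3 lmb3 ttb3 bxb3

theorem stu3 : S_STU := t_STU LGR.ASM.nq LGR.ASM.kb LGR.ASM.haar LGR.ASM.keri LGR.ASM.eigw ala3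

theorem ida3 : S_IDA := t_IDA LGR.ASM.schur LGR.ASM.wfac LGR.ASM.cham LGR.ASM.tauf LGR.ASM.conj LGR.ASM.denv LGR.ASM.rvof LGR.ASM.atfv LGR.ASM.tpol LGR.ASM.pffx LGR.ASM.drep LGR.ASM.casr LGR.ASM.tres LGR.ASM.norr unc3

theorem bra3 : S_BRA := t_BRA LGR.ASM.haar LGR.ASM.lieb LGR.ASM.tauf ida3

theorem l2a3 : S_L2A := t_L2A LGR.ASM.schur LGR.ASM.tenh LGR.ASM.wfac LGR.ASM.tauf LGR.ASM.pffx LGR.ASM.decp LGR.ASM.tres LGR.ASM.norr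

theorem sla3 : S_SLA := t_SLA 

theorem str3 : S_STR := t_STR LGR.ASM.lieb LGR.ASM.wfac LGR.ASM.quad LGR.ASM.tauf LGR.ASM.drep sla3

theorem hmc3 : S_HMC := t_HMC LGR.ASM.lieb LGR.ASM.wfac LGR.ASM.quad LGR.ASM.tauf LGR.ASM.drep LGR.ASM.adfr

theorem trl3 : S_TRL := t_TRL LGR.ASM.wfac LGR.ASM.deno LGR.ASM.tpol tri3

theorem trc3 : S_TRC := t_TRC LGR.ASM.wfac LGR.ASM.quad LGR.ASM.rvof trl3

theorem brc3 : S_BRC := t_BRC LGR.ASM.lieb LGR.ASM.wfac LGR.ASM.tauf syk3 str3 hmc3 trc3 bra3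

theorem glh3 : S_GLH := t_GLH LGR.ASM.rhof LGR.ASM.quad hrm3 ant3

theorem glb3 : S_GLB := t_GLB LGR.ASM.wfac LGR.ASM.quad LGR.ASM.rvof trl3 glh3

theorem l2c3 : S_L2C := t_L2C LGR.ASM.wfac LGR.ASM.quad str3 hmc3 glb3 l2a3

theorem thg3 : S_THG := t_THG LGR.ASM.quad

theorem po13 : S_PO1 := t_PO1 

theorem pos3 : S_POS := t_POS LGR.ASM.quad po13

theorem tle3 : S_TLE := t_TLE thg3

theorem key3 : S_KEY := t_KEY thg3 pos3 tle3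

theorem gti3 : S_GTI := t_GTI LGR.ASM.lieb LGR.ASM.wfac LGR.ASM.quad LGR.ASM.tauf LGR.ASM.pffx LGR.ASM.denc LGR.ASM.norr hmf3 str3 hmc3 thg3

theorem jbc3 : S_JBC := t_JBC LGR.ASM.haar LGR.ASM.lieb LGR.ASM.wfac LGR.ASM.deno LGR.ASM.tauf LGR.ASM.gxoc uni3 exi3 syk3 hmf3 hrm3 hks3 hkm3 psf3 wif3 thg3 key3 gti3

theorem cr33 : S_CR3 := t_CR3 

theorem atw3 : S_ATW := t_ATW 

theorem rgm3 : S_RGM := t_RGM prm3

theorem lmc3 : S_LMC := t_LMC LGR.ASM.quad prm3 nxs3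

theorem qns3 : S_QNS := t_QNS LGR.ASM.rvof

theorem lan3 : S_LAN := t_LAN rgm3

theorem koc3 : S_KOC := t_KOC LGR.ASM.quad prm3 rgm3 lmc3 klo3

theorem nrc3 : S_NRC := t_NRC LGR.ASM.wfac prm3 rgm3 brc3

theorem smk3 : S_SMK := t_SMK psf3 vcn3 pla3

theorem fpx3 : S_FPX := t_FPX frq3 prm3 rgm3

theorem smj3 : S_SMJ := t_SMJ lmc3 lan3

theorem lac3 : S_LAC := t_LAC lea3

theorem esd3 : S_ESD := t_ESD LGR.ASM.quad prm3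

theorem amc3 : S_AMC := t_AMC prm3 rgm3 leb3 esd3

theorem sui3 : S_SUI := t_SUI 

theorem sts3 : S_STS := t_STS LGR.ASM.quad prm3 rgm3 sui3

theorem abc3 : S_ABC := t_ABC prm3 rgm3

theorem jsc3 : S_JSC := t_JSC LGR.ASM.haar psf3 jbc3 vcn3

theorem sec3 : S_SEC := t_SEC prm3 rgm3 cvr3

theorem dgc3 : S_DGC := t_DGC LGR.ASM.wfac psf3 prm3 rgm3 lmc3 koc3 vcn3 cll3 kho3 jsc3 l2c3 lac3 amc3 sts3 abc3 sec3

theorem ipc3 : S_IPC := t_IPC LGR.ASM.lieb LGR.ASM.wfac LGR.ASM.tauf psf3 prm3 rgm3 lmc3 exi3 fpx3 vcn3 nrc3 dcp3 ofd3 smk3 smj3 dgc3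

theorem nuc3 : S_NUC := t_NUC prm3 rgm3

theorem bxc3 : S_BXC := t_BXC LGR.ASM.wfac cfa3 prm3 bii3 ipr3 atw3 ipc3 nuc3

theorem lwc3 : S_LWC := t_LWC LGR.ASM.wfac LGR.ASM.keri LGR.ASM.chif nxs3 prm3 lmb3 ttb3 qns3 atw3 bxc3

theorem mfn3 : MainUp3 := t_MFN LGR.ASM.wfac LGR.ASM.rvof LGR.ASM.lrdx LGR.ASM.kfrm LGR.ASM.form LGR.ASM.gxoc lwl3 tpl3 mxu3 lot3 stu3

theorem mfc3 : MainUpRankTwo := t_MFC LGR.ASM.wfac LGR.ASM.rvof LGR.ASM.lrdx LGR.ASM.kfrm LGR.ASM.form LGR.ASM.gxoc cr33 lwl3 lwc3 tpl3 mxu3 lot3 stu3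

end ASM3

end STZ3
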