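import Pool.Agent.STZ3.StQ

/-!
# EBD: the bound for the averaged torus (6.5)
-/

set_option autoImplicit false

namespace STZ3

open STZ LGR MeasureTheory Matrix Filter

open scoped ComplexConjugate Matrix Real Topology Pointwise

noncomputable section

namespace EBD

theorem span_int {r : ℕ} {x : Fin r → ℝ}
    (hx : x ∈ Submodule.span ℤ (Set.range (Pi.basisFun ℝ (Fin r)))) :
    ∃ n : Fin r → ℤ, x = fun j => (n j : ℝ) := by
  induction hx using Submodule.span_induction with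
  | mem y hy =>
    obtain ⟨i, rfl⟩ := hy
    refine ⟨Pi.single i 1, ?_⟩
    funext j
    rw [Pi.basisFun_apply]
    by_cases h : j = i
    · subst h
      simp
    · simp [h]
  | zero => exact ⟨0, by funext j; simp⟩
  | add y z _ _ hy hz =>
    obtain ⟨n, rfl⟩ := hy
    obtain ⟨m, rfl⟩ := hz
    refine ⟨n + m, ?_⟩
    funext j
    simp
  | smul a y _ hy =>
    obtain ⟨n, rfl⟩ := hy
    refine ⟨a • n, ?_⟩
    funext j
    simp

theorem per_lint {r : ℕ} (g : (Fin r → ℝ) → ENNReal)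
    (hg : ∀ (θ : Fin r → ℝ) (n : Fin r → ℤ), g (θ + fun j => (n j : ℝ)) = g θ) (ζ : Fin r → ℝ) :
    ∫⁻ θ in Set.Icc (0 : Fin r → ℝ) 1, g (θ + ζ) = ∫⁻ θ in Set.Icc (0 : Fin r → ℝ) 1, g θ := by
  set b := Pi.basisFun ℝ (Fin r) with hb
  have hF := ZSpan.isAddFundamentalDomain' b (volume : Measure (Fin r → ℝ))
  have hs : ZSpan.fundamentalDomain b = Set.pi Set.univ fun _ => Set.Ico (0 : ℝ) 1 :=
    ZSpan.fundamentalDomain_pi_basisFun
  have hae : ZSpan.fundamentalDomain b =ᵐ[volume] Set.Icc (0 : Fin r → ℝ) 1 := by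
    rw [hs]
    exact Measure.univ_pi_Ico_ae_eq_Icc
  rw [← setLIntegral_congr hae, ← setLIntegral_congr hae]
  have hT := hF.vadd_of_comm (G' := Fin r → ℝ) ζ
  have hcn : Countable (Submodule.span ℤ (Set.range b)).toAddSubgroup :=
    inferInstanceAs (Countable (Submodule.span ℤ (Set.range b)))
  have h1 : ∫⁻ θ in ζ +ᵥ ZSpan.fundamentalDomain b, g θ =
      ∫⁻ θ in ZSpan.fundamentalDomain b, g θ := by
    refine hT.setLIntegral_eq hF g ?_
    rintro ⟨x, hx⟩ θ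
    obtain ⟨n, hn⟩ := span_int (r := r) hx
    show g (x + θ) = g θ
    rw [hn, add_comm]
    exact hg θ n
  rw [← h1]
  have h2 := (measurePreserving_vadd ζ (volume : Measure (Fin r → ℝ))).setLIntegral_comp_emb
    (measurableEmbedding_const_vadd ζ) g (ZSpan.fundamentalDomain b)
  rw [Set.image_vadd] at h2
  rw [← h2]
  refine lintegral_congr fun θ => ?_
  rw [vadd_eq_add, add_comm]

theorem g1 {G : Type} [Group G] (h t u : G) : (h * t * h⁻¹)⁻¹ * u = h * t⁻¹ * h⁻¹ * u := by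
  group

theorem g2 {G : Type} [Group G] (h a b u : G) :
    h * (a * b) * h⁻¹ * u = (h * a * h⁻¹) * (h * b * h⁻¹ * u) := by
  group

theorem g3 {G : Type} [Group G] (x u : G) : (x⁻¹ * u)⁻¹ = u⁻¹ * x := by
  group

theorem eu_int (m : ℤ) : eu m = 1 := by
  unfold eu
  have h : (2 * (π : ℂ) * ((m : ℝ) : ℂ) * Complex.I) = (m : ℂ) * (2 * π * Complex.I) := by
    push_cast
    ring
  rw [h]
  exact Complex.exp_int_mul_two_pi_mul_I m

theorem at_per {r : ℕ} (D : RD r) (l : Fin r → ℤ) (θ : Fin r → ℝ) (n : Fin r → ℤ) :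
    AT D l (θ + fun j => (n j : ℝ)) = AT D l θ := by
  unfold AT
  refine Finset.sum_congr rfl fun w _ => ?_
  have h1 : dz (w *ᵥ l) (θ + fun j => (n j : ℝ)) =
      dz (w *ᵥ l) θ + ((∑ i, (w *ᵥ l) i * n i : ℤ) : ℝ) := by
    unfold dz
    push_cast
    rw [← Finset.sum_add_distrib]
    refine Finset.sum_congr rfl fun i _ => ?_
    rw [Pi.add_apply]
    ring
  have h2 : ∀ x y : ℝ, eu (x + y) = eu x * eu y := by
    intro x y
    unfold eu
    rw [← Complex.exp_add]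
    congr 1
    push_cast
    ring
  rw [h1, h2, eu_int, mul_one]

theorem at_cont {r : ℕ} (D : RD r) (l : Fin r → ℤ) : Continuous (AT D l) := by
  unfold AT eu dz
  fun_prop

/-- the density -/
def aa {r : ℕ} (Φ : RT r) (θ : Fin r → ℝ) : ℝ := ‖AT (rd Φ) 1 θ‖ ^ 2

theorem aa_cont {r : ℕ} (Φ : RT r) : Continuous (aa Φ) := (at_cont _ _).norm.pow 2

theorem aa_nn {r : ℕ} (Φ : RT r) (θ : Fin r → ℝ) : 0 ≤ aa Φ θ := by
  unfold aa
  positivity

/-- the enlarged set -/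
def ST {N : ℕ} {H : Subgroup (SU N)} {r : ℕ} (Hc : Fin r → MT N) (u : H) (t : ℝ) :
    Set (H × (Fin r → ℝ)) := {x | ps (x.1 * tt H Hc (-x.2) * x.1⁻¹ * u) ≤ t}

theorem ps_shift {N : ℕ} {H : Subgroup (SU N)} {r : ℕ} {Hc : Fin r → MT N} {CP : ℝ}
    (hCP : 0 ≤ CP) (hP : PSC H Hc CP) {ρ : ℝ} (hρ : 0 < ρ) (u h : H) (θ ζ : Fin r → ℝ)
    (hζ : ζ ∈ Set.Icc (fun _ : Fin r => -ρ) (fun _ => ρ))
    (hx : ps (h * tt H Hc (-θ) * h⁻¹ * u) ≤ ρ ^ 2) :
    ps (h * tt H Hc (-(θ + ζ)) * h⁻¹ * u) ≤ (√CP + 1) ^ 2 * ρ ^ 2 := by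
  have e1 : h * tt H Hc (-(θ + ζ)) * h⁻¹ * u =
      (h * tt H Hc (-ζ) * h⁻¹) * (h * tt H Hc (-θ) * h⁻¹ * u) := by
    have e2 : -(θ + ζ) = -ζ + -θ := by abel
    rw [e2, hP.tadd]
    exact g2 _ _ _ _
  have h1 := hP.mul (h * tt H Hc (-ζ) * h⁻¹) (h * tt H Hc (-θ) * h⁻¹ * u)
  rw [← e1, hP.cnj] at h1
  have h2 : ps (tt H Hc (-ζ)) ≤ CP * ρ ^ 2 := by
    refine hP.tps (-ζ) ρ fun i => ?_
    rw [Pi.neg_apply, abs_neg, abs_le]
    exact ⟨hζ.1 i, hζ.2 i⟩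
  have h3 : √(ps (tt H Hc (-ζ))) ≤ √CP * ρ := by
    refine (Real.sqrt_le_sqrt h2).trans ?_
    rw [Real.sqrt_mul hCP, Real.sqrt_sq hρ.le]
  have h4 : √(ps (h * tt H Hc (-θ) * h⁻¹ * u)) ≤ ρ := by
    rw [← Real.sqrt_sq hρ.le]
    exact Real.sqrt_le_sqrt hx
  have h5 : √(ps (h * tt H Hc (-(θ + ζ)) * h⁻¹ * u)) ≤ (√CP + 1) * ρ := by
    calc _ ≤ _ := h1
      _ ≤ √CP * ρ + ρ := add_le_add h3 h4
      _ = (√CP + 1) * ρ := by ring
  have h6 : ps (h * tt H Hc (-(θ + ζ)) * h⁻¹ * u) =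
      √(ps (h * tt H Hc (-(θ + ζ)) * h⁻¹ * u)) ^ 2 := (Real.sq_sqrt (hP.nn _)).symm
  rw [h6, ← mul_pow]
  exact pow_le_pow_left₀ (Real.sqrt_nonneg _) h5 2

/-- the integrand -/
def GG {N : ℕ} {H : Subgroup (SU N)} {r : ℕ} (Φ : RT r) (Hc : Fin r → MT N) (u : H) (t : ℝ)
    (h : H) (θ : Fin r → ℝ) : ENNReal :=
  ENNReal.ofReal (aa Φ θ) * (ST Hc u t).indicator 1 (h, θ)

theorem gg_per {N : ℕ} {H : Subgroup (SU N)} {r : ℕ} {Hc : Fin r → MT N} {CP : ℝ}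
    (hP : PSC H Hc CP) (Φ : RT r) (u : H) (t : ℝ) (h : H) (θ : Fin r → ℝ) (n : Fin r → ℤ) :
    GG Φ Hc u t h (θ + fun j => (n j : ℝ)) = GG Φ Hc u t h θ := by
  unfold GG
  have e1 : aa Φ (θ + fun j => (n j : ℝ)) = aa Φ θ := by
    unfold aa
    rw [at_per]
  have e2 : tt H Hc (-(θ + fun j => (n j : ℝ))) = tt H Hc (-θ) := by
    have e3 : -(θ + fun j => (n j : ℝ)) = -θ + fun j => (((-n) j : ℤ) : ℝ) := by
      funext j
      simp
      ring
    rw [e3, hP.tadd, hP.tint, mul_one]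
  have e4 : (ST Hc u t).indicator (1 : H × (Fin r → ℝ) → ENNReal) (h, θ + fun j => (n j : ℝ)) =
      (ST Hc u t).indicator (1 : H × (Fin r → ℝ) → ENNReal) (h, θ) := by
    by_cases hx : (h, θ) ∈ ST Hc u t
    · have hx' : (h, θ + fun j => (n j : ℝ)) ∈ ST Hc u t := by
        show ps (h * tt H Hc (-(θ + fun j => (n j : ℝ))) * h⁻¹ * u) ≤ t
        rw [e2]
        exact hx
      rw [Set.indicator_of_mem hx, Set.indicator_of_mem hx', Pi.one_apply, Pi.one_apply]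
    · have hx' : (h, θ + fun j => (n j : ℝ)) ∉ ST Hc u t := by
        intro h1
        apply hx
        have h2 : ps (h * tt H Hc (-(θ + fun j => (n j : ℝ))) * h⁻¹ * u) ≤ t := h1
        rw [e2] at h2
        exact h2
      rw [Set.indicator_of_notMem hx, Set.indicator_of_notMem hx']
  rw [e1, e4]

theorem st_meas {N : ℕ} {H : Subgroup (SU N)} [SecondCountableTopology H] {r : ℕ}
    {Hc : Fin r → MT N} {CP : ℝ} (hP : PSC H Hc CP) (u : H) (t : ℝ) :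
    MeasurableSet (ST Hc u t) := by
  have hc : Continuous fun x : H × (Fin r → ℝ) => ps (x.1 * tt H Hc (-x.2) * x.1⁻¹ * u) :=
    hP.cont.comp (((continuous_fst.mul (hP.tcont.comp continuous_snd.neg)).mul
      continuous_fst.inv).mul continuous_const)
  exact (isClosed_le hc continuous_const).measurableSet

theorem gg_meas {N : ℕ} {H : Subgroup (SU N)} [SecondCountableTopology H] {r : ℕ}
    {Hc : Fin r → MT N} {CP : ℝ} (hP : PSC H Hc CP) (Φ : RT r) (u : H) (t : ℝ) :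
    Measurable fun x : H × (Fin r → ℝ) => GG Φ Hc u t x.1 x.2 := by
  unfold GG
  refine Measurable.mul ?_ ?_
  · exact ((aa_cont Φ).comp continuous_snd).measurable.ennreal_ofReal
  · exact measurable_one.indicator (st_meas hP u t)

theorem gg_meas2 {N : ℕ} {H : Subgroup (SU N)} [SecondCountableTopology H] {r : ℕ}
    {Hc : Fin r → MT N} {CP : ℝ} (hP : PSC H Hc CP) (Φ : RT r) (u : H) (t : ℝ) (h : H) :
    Measurable fun x : (Fin r → ℝ) × (Fin r → ℝ) => GG Φ Hc u t h (x.1 + x.2) := by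
  have h1 := gg_meas hP Φ u t
  have h2 : Measurable fun x : (Fin r → ℝ) × (Fin r → ℝ) => ((h, x.1 + x.2) : H × (Fin r → ℝ)) :=
    measurable_const.prodMk (measurable_fst.add measurable_snd)
  have h3 := h1.comp h2
  simpa only [Function.comp_def] using h3

/-- the inequality for one `h` -/
theorem one_h {N : ℕ} {H : Subgroup (SU N)} [SecondCountableTopology H] {r : ℕ} {Φ : RT r}
    {Hc : Fin r → MT N} {CP C₂ cA ρ : ℝ} (hCP : 0 ≤ CP) (hP : PSC H Hc CP) (hcA : 0 < cA)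
    (hρ : 0 < ρ) {FF : H → ℝ} (hF : FDF H Φ Hc ρ C₂ FF)
    (hAV : ∀ η : Fin r → ℝ, cA * ∏ p ∈ pos Φ, (ρ ^ 2 + (1 + ρ) * ‖1 - eu (dz p.1 η)‖ ^ 2) ≤
      (2 * ρ) ^ (-(r : ℝ)) * ∫ ζ in Set.Icc (fun _ : Fin r => -ρ) (fun _ => ρ),
        ‖AT (rd Φ) 1 (η + ζ)‖ ^ 2) (u h : H) :
    volume {θ : Fin r → ℝ | θ ∈ Set.Icc 0 1 ∧ ps (h * tt H Hc (-θ) * h⁻¹ * u) ≤ ρ ^ 2} *
      ENNReal.ofReal (FF u) ≤ ENNReal.ofReal (|C₂| / cA) *
        ∫⁻ θ in Set.Icc (0 : Fin r → ℝ) 1, GG Φ Hc u ((√CP + 1) ^ 2 * ρ ^ 2) h θ := by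
  set t := (√CP + 1) ^ 2 * ρ ^ 2 with ht
  set K : ℝ := |C₂| / cA * (2 * ρ) ^ (-(r : ℝ)) with hK
  have hK0 : 0 ≤ K := by positivity
  set T : Set (Fin r → ℝ) :=
    {θ : Fin r → ℝ | θ ∈ Set.Icc 0 1 ∧ ps (h * tt H Hc (-θ) * h⁻¹ * u) ≤ ρ ^ 2} with hT
  set Bx : Set (Fin r → ℝ) := Set.Icc (fun _ : Fin r => -ρ) (fun _ => ρ) with hBx
  have hTm : MeasurableSet T := by
    have hc : Continuous fun θ : Fin r → ℝ => ps (h * tt H Hc (-θ) * h⁻¹ * u) :=
      hP.cont.comp (((continuous_const.mul (hP.tcont.comp continuous_neg)).mul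
        continuous_const).mul continuous_const)
    exact (isClosed_Icc.inter (isClosed_le hc continuous_const)).measurableSet
  have hGm := gg_meas2 hP Φ u t h
  have hb : ∀ θ ∈ T, ENNReal.ofReal (FF u) ≤
      ENNReal.ofReal K * ∫⁻ ζ in Bx, GG Φ Hc u t h (θ + ζ) := by
    intro θ hθ
    have hcF := hF.cmp (h * tt H Hc θ * h⁻¹) u (by
      have e1 : (h * tt H Hc θ * h⁻¹)⁻¹ * u = h * tt H Hc (-θ) * h⁻¹ * u := by
        rw [hP.tneg]
        exact g1 _ _ _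
      rw [e1]
      refine hθ.2.trans ?_
      nlinarith [sq_nonneg ρ])
    rw [hF.cnj, hF.tor] at hcF
    have hprod : 0 ≤ ∏ p ∈ pos Φ, (ρ ^ 2 + (1 + ρ) * ‖1 - eu (dz p.1 θ)‖ ^ 2) :=
      Finset.prod_nonneg fun p _ => by positivity
    have h2 : FF u ≤ |C₂| * ∏ p ∈ pos Φ, (ρ ^ 2 + (1 + ρ) * ‖1 - eu (dz p.1 θ)‖ ^ 2) :=
      hcF.trans (mul_le_mul_of_nonneg_right (le_abs_self _) hprod)
    have h3 : FF u ≤ K * ∫ ζ in Bx, aa Φ (θ + ζ) := by
      have h4 := hAV θ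
      have h5 : ∏ p ∈ pos Φ, (ρ ^ 2 + (1 + ρ) * ‖1 - eu (dz p.1 θ)‖ ^ 2) ≤
          (1 / cA) * ((2 * ρ) ^ (-(r : ℝ)) * ∫ ζ in Bx, ‖AT (rd Φ) 1 (θ + ζ)‖ ^ 2) := by
        rw [one_div, inv_mul_eq_div, le_div_iff₀ hcA, mul_comm]
        exact h4
      calc FF u ≤ _ := h2
        _ ≤ |C₂| * ((1 / cA) * ((2 * ρ) ^ (-(r : ℝ)) * ∫ ζ in Bx, ‖AT (rd Φ) 1 (θ + ζ)‖ ^ 2)) :=
          mul_le_mul_of_nonneg_left h5 (abs_nonneg _)
        _ = K * ∫ ζ in Bx, aa Φ (θ + ζ) := by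
          rw [hK]
          unfold aa
          ring
    have hic : Continuous fun ζ : Fin r → ℝ => aa Φ (θ + ζ) :=
      (aa_cont Φ).comp (continuous_const.add continuous_id)
    have hii : IntegrableOn (fun ζ : Fin r → ℝ => aa Φ (θ + ζ)) Bx :=
      hic.continuousOn.integrableOn_compact isCompact_Icc
    calc ENNReal.ofReal (FF u) ≤ ENNReal.ofReal (K * ∫ ζ in Bx, aa Φ (θ + ζ)) :=
          ENNReal.ofReal_le_ofReal h3
      _ = ENNReal.ofReal K * ∫⁻ ζ in Bx, ENNReal.ofReal (aa Φ (θ + ζ)) := by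
          rw [ENNReal.ofReal_mul hK0, ofReal_integral_eq_lintegral_ofReal hii
            (Eventually.of_forall fun ζ => aa_nn Φ _)]
      _ = ENNReal.ofReal K * ∫⁻ ζ in Bx, GG Φ Hc u t h (θ + ζ) := by
          congr 1
          refine setLIntegral_congr_fun measurableSet_Icc fun ζ hζ => ?_
          have hm : (h, θ + ζ) ∈ ST Hc u t := ps_shift hCP hP hρ u h θ ζ hζ hθ.2
          show ENNReal.ofReal (aa Φ (θ + ζ)) = GG Φ Hc u t h (θ + ζ)
          unfold GG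
          rw [Set.indicator_of_mem hm]
          simp
  have hvol : volume Bx = ENNReal.ofReal ((2 * ρ) ^ (r : ℝ)) := by
    rw [hBx, Real.volume_Icc_pi]
    have e1 : ∀ i : Fin r, ENNReal.ofReal ((fun _ : Fin r => ρ) i - (fun _ : Fin r => -ρ) i) =
        ENNReal.ofReal (2 * ρ) := by
      intro i
      congr 1
      ring
    rw [Finset.prod_congr rfl fun i _ => e1 i, Finset.prod_const, Finset.card_univ,
      Fintype.card_fin, Real.rpow_natCast, ENNReal.ofReal_pow (by positivity)]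
  calc volume T * ENNReal.ofReal (FF u) = ∫⁻ _ in T, ENNReal.ofReal (FF u) := by
        rw [setLIntegral_const, mul_comm]
    _ ≤ ∫⁻ θ in T, ENNReal.ofReal K * ∫⁻ ζ in Bx, GG Φ Hc u t h (θ + ζ) :=
        setLIntegral_mono' hTm hb
    _ ≤ ∫⁻ θ in Set.Icc (0 : Fin r → ℝ) 1, ENNReal.ofReal K * ∫⁻ ζ in Bx, GG Φ Hc u t h (θ + ζ) :=
        lintegral_mono_set fun θ hθ => hθ.1
    _ = ENNReal.ofReal K * ∫⁻ θ in Set.Icc (0 : Fin r → ℝ) 1, ∫⁻ ζ in Bx, GG Φ Hc u t h (θ + ζ) := by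
        rw [lintegral_const_mul' _ _ ENNReal.ofReal_ne_top]
    _ = ENNReal.ofReal K * ∫⁻ ζ in Bx, ∫⁻ θ in Set.Icc (0 : Fin r → ℝ) 1, GG Φ Hc u t h (θ + ζ) := by
        rw [lintegral_lintegral_swap hGm.aemeasurable]
    _ = ENNReal.ofReal K * ∫⁻ _ in Bx, ∫⁻ θ in Set.Icc (0 : Fin r → ℝ) 1, GG Φ Hc u t h θ := by
        congr 1
        refine lintegral_congr fun ζ => ?_
        exact per_lint (fun θ => GG Φ Hc u t h θ) (fun θ n => gg_per hP Φ u t h θ n) ζ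
    _ = ENNReal.ofReal (|C₂| / cA) * ∫⁻ θ in Set.Icc (0 : Fin r → ℝ) 1, GG Φ Hc u t h θ := by
        rw [setLIntegral_const, hvol, mul_comm _ (ENNReal.ofReal ((2 * ρ) ^ (r : ℝ))), ← mul_assoc,
          ← ENNReal.ofReal_mul hK0]
        congr 2
        rw [hK, mul_assoc, ← Real.rpow_add (by positivity), neg_add_cancel, Real.rpow_zero, mul_one]

end EBD

theorem t_EBD : M_EBD := by
  intro hHA hWF hAV hPS hWI hVO N H r Φ B Hc E c k d hX μ _ _ C₂
  obtain ⟨CP, hCP, hP⟩ := hPS N H r Φ B Hc E c k d hX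
  obtain ⟨cA, hcA, hA⟩ := hAV r Φ B hX.one_le hX.lrd.ird (hWF r Φ B hX.lrd.ird)
  obtain ⟨CV, hCV, hV⟩ := hVO N H r Φ B Hc E c k d hX μ ((√CP + 1) ^ 2) (by positivity)
  have hcs : CompactSpace H := isCompact_iff_compactSpace.1 hX.closed.isCompact
  have hsec : SecondCountableTopology H :=
    TopologicalSpace.Subtype.secondCountableTopology (H : Set (SU N))
  refine ⟨|C₂| / cA * ((WF Φ).card * CV), by positivity, ?_⟩
  intro ρ FF hρ hρ1 hF u
  set A : Set (H × (Fin r → ℝ)) := {x : H × (Fin r → ℝ) | x.2 ∈ Set.Icc 0 1 ∧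
    ps (x.1 * tt H Hc (-x.2) * x.1⁻¹ * u) ≤ ρ ^ 2} with hAdef
  set t := (√CP + 1) ^ 2 * ρ ^ 2 with ht
  have hAm : MeasurableSet A := by
    have h1 := EBD.st_meas hP u (ρ ^ 2)
    have h2 : MeasurableSet {x : H × (Fin r → ℝ) | x.2 ∈ Set.Icc (0 : Fin r → ℝ) 1} :=
      measurable_snd measurableSet_Icc
    exact h2.inter h1
  set S : Set H := {x : H | ps (x⁻¹ * u) ≤ t} with hS
  have hSm : MeasurableSet S := by
    have hc : Continuous fun x : H => ps (x⁻¹ * u) :=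
      hP.cont.comp (continuous_inv.mul continuous_const)
    exact (isClosed_le hc continuous_const).measurableSet
  have hw0 : (0 : ℝ) < ((WF Φ).card : ℝ) := by
    have h1 : (1 : Matrix (Fin r) (Fin r) ℤ) ∈ WF Φ := (hWF r Φ B hX.lrd.ird).one
    exact_mod_cast Finset.card_pos.2 ⟨1, h1⟩
  -- the formula of Weyl
  have hW : ∫⁻ h, (∫⁻ θ in Set.Icc (0 : Fin r → ℝ) 1, EBD.GG Φ Hc u t h θ) ∂μ =
      ENNReal.ofReal ((WF Φ).card : ℝ) * μ S := by
    have h1 := hWI N H r Φ B Hc E c k d hX μ (S.indicator 1) (measurable_one.indicator hSm)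
    rw [lintegral_indicator_one hSm] at h1
    rw [h1, ← lintegral_const_mul' _ _ ENNReal.ofReal_ne_top]
    refine lintegral_congr fun h => ?_
    rw [← lintegral_const_mul' _ _ ENNReal.ofReal_ne_top]
    refine lintegral_congr fun θ => ?_
    rw [← mul_assoc, ← ENNReal.ofReal_mul hw0.le, mul_div_cancel₀ _ hw0.ne']
    have e1 : (h * tt H Hc θ * h⁻¹)⁻¹ * u = h * tt H Hc (-θ) * h⁻¹ * u := by
      rw [hP.tneg]
      exact EBD.g1 _ _ _
    unfold EBD.GG EBD.aa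
    congr 1
    by_cases hx : h * tt H Hc θ * h⁻¹ ∈ S
    · rw [Set.indicator_of_mem hx, Set.indicator_of_mem]
      · rfl
      · show ps (h * tt H Hc (-θ) * h⁻¹ * u) ≤ t
        rw [← e1]
        exact hx
    · rw [Set.indicator_of_notMem hx, Set.indicator_of_notMem]
      intro h1
      apply hx
      show ps ((h * tt H Hc θ * h⁻¹)⁻¹ * u) ≤ t
      rw [e1]
      exact h1
  -- the volume
  have hSv : μ S ≤ ENNReal.ofReal (CV * ρ ^ d) := by
    have e1 : S = (fun x => u⁻¹ * x) ⁻¹' {g : H | ps g ≤ t} := by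
      ext x
      show ps (x⁻¹ * u) ≤ t ↔ ps (u⁻¹ * x) ≤ t
      have e2 : (x⁻¹ * u)⁻¹ = u⁻¹ * x := EBD.g3 _ _
      rw [← hP.inv, e2]
    rw [e1, measure_preimage_mul]
    have h1 := hV ρ hρ hρ1
    rw [← ht] at h1
    calc μ {g : H | ps g ≤ t} = ENNReal.ofReal (μ.real {g : H | ps g ≤ t}) := by
          rw [Measure.real, ENNReal.ofReal_toReal (measure_ne_top _ _)]
      _ ≤ ENNReal.ofReal (CV * ρ ^ d) := ENNReal.ofReal_le_ofReal h1
  -- the inequality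
  have key : (μ.prod volume) A * ENNReal.ofReal (FF u) ≤
      ENNReal.ofReal (|C₂| / cA * ((WF Φ).card * CV) * ρ ^ d) := by
    rw [Measure.prod_apply hAm, ← lintegral_mul_const' _ _ ENNReal.ofReal_ne_top]
    calc ∫⁻ h, volume (Prod.mk h ⁻¹' A) * ENNReal.ofReal (FF u) ∂μ
        ≤ ∫⁻ h, ENNReal.ofReal (|C₂| / cA) *
          (∫⁻ θ in Set.Icc (0 : Fin r → ℝ) 1, EBD.GG Φ Hc u t h θ) ∂μ :=
          lintegral_mono fun h => EBD.one_h hCP hP hcA hρ hF (fun η => hA ρ η hρ hρ1) u h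
      _ = ENNReal.ofReal (|C₂| / cA) * (ENNReal.ofReal ((WF Φ).card : ℝ) * μ S) := by
          rw [lintegral_const_mul' _ _ ENNReal.ofReal_ne_top, hW]
      _ ≤ ENNReal.ofReal (|C₂| / cA) * (ENNReal.ofReal ((WF Φ).card : ℝ) *
          ENNReal.ofReal (CV * ρ ^ d)) := by gcongr
      _ = ENNReal.ofReal (|C₂| / cA * ((WF Φ).card * CV) * ρ ^ d) := by
          rw [← ENNReal.ofReal_mul hw0.le, ← ENNReal.ofReal_mul (by positivity)]
          congr 1
          ring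
  have hR : 0 ≤ |C₂| / cA * ((WF Φ).card * CV) * ρ ^ d := by positivity
  rcases le_or_gt (FF u) 0 with hn | hp
  · exact (mul_nonpos_of_nonneg_of_nonpos measureReal_nonneg hn).trans hR
  · have h1 := ENNReal.toReal_mono ENNReal.ofReal_ne_top key
    rw [ENNReal.toReal_mul, ENNReal.toReal_ofReal hp.le, ENNReal.toReal_ofReal hR] at h1
    exact h1

end

end STZ3
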