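import Pool.Agent.LGR.FINK
import Pool.Agent.STZ3.ASM

/-!
# The optimal exponent of the simple groups of rank two, in the final notation
-/

namespace LGK3

open STZ LGK MeasureTheory Matrix Filter

/-- the upper bound for the groups of rank two -/
theorem upper2 (N : ℕ) (H : Subgroup (SU N)) (T : Submodule ℝ (Mat N)) (d : ℕ) (hH : Group H T d 2)
    (p : ℝ) (hp : 2 + 8 / ((d : ℝ) + 2) < p) : Str H d p := by
  intro μ hμ hi a b hab
  obtain ⟨C, hC⟩ := STZ3.ASM3.mfc3 N H T d hH.grp.closed hH.grp.conn hH.grp.simple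
    ⟨hH.max.sub, hH.max.comm, hH.max.max⟩ hH.grp.dim hH.rank p hp μ hμ hi a b hab
  refine ⟨C, fun X hX κ f hf u hu => ?_⟩
  exact hC X (frame_up hX) κ f hf.inj hf.eig hf.sum u hu.meas hu.lim

/-- the lower bound for the groups of rank two -/
theorem lower2 (N : ℕ) (H : Subgroup (SU N)) (T : Submodule ℝ (Mat N)) (d : ℕ) (hH : Group H T d 2)
    (p : ℝ) (hp : 2 ≤ p) (hp' : p < 2 + 8 / ((d : ℝ) + 2)) (μ : Measure H) (hμ : IsProbabilityMeasure μ)
    (hi : μ.IsMulLeftInvariant) (a b C : ℝ) (hab : a < b) : ¬ StrIneq H d μ p a b C :=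
  lower N H T d 2 hH p hp (by simpa using hp') μ hμ hi a b C hab

end LGK3
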