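import Pool.Agent.STZ3.StC3

/-!
# Chain packets: module HMC (the chain packet measure in an irreducible representation)

The helper lemmas are those of HMV.lean.
-/

namespace STZ3

open STZ LGR MeasureTheory Matrix Filter

open scoped ComplexConjugate Matrix Real Topology

noncomputable section

namespace HMC

variable {N : ℕ} {H : Subgroup (SU N)} {n : ℕ} {σ : Rep H (Fin n)}

/-- the second derivative of the entries -/
theorem d2 (F : DRF σ) (hC : ∀ i j, C1H (fun g => σ.ρ g i j)) {X : MT N} (hX : X ∈ lie H)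
    (i j : Fin n) : dH X (dH X (fun g => σ.ρ g i j)) 1 = (dr σ X * dr σ X) i j := by
  have h1 : dH X (fun g => σ.ρ g i j) = fun g => ∑ p, σ.ρ g i p * dr σ X p j := by
    funext g
    rw [F.d X hX g i j, Matrix.mul_apply]
  rw [h1]
  unfold dH
  rw [deriv_fun_sum (fun p _ => ((hC i p).diff X hX 1).mul_const _), Matrix.mul_apply]
  refine Finset.sum_congr rfl fun p _ => ?_
  rw [deriv_mul_const ((hC i p).diff X hX 1)]
  rfl

/-- the Casimir element -/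
theorem cas (F : DRF σ) {d : ℕ} {X : Fin d → MT N} (hX : ∀ a, X a ∈ lie H) {κ : ℝ}
    (hE : ∀ i j, EigH X κ (fun g => σ.ρ g i j)) :
    ∑ a, dr σ (X a) * dr σ (X a) = (-(κ : ℂ)) • (1 : Matrix (Fin n) (Fin n) ℂ) := by
  ext i j
  have h1 := (hE i j).2 1
  unfold lapH at h1
  rw [Finset.sum_congr rfl fun a _ => d2 F (fun i j => (hE i j).1.1) (hX a) i j] at h1
  have h2 : (fun g => σ.ρ g i j) (1 : H) = (1 : Matrix (Fin n) (Fin n) ℂ) i j := by
    change σ.ρ 1 i j = _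
    rw [map_one]
  rw [Matrix.sum_apply, h1, h2, Matrix.smul_apply, smul_eq_mul]

theorem eu_scale {r : ℕ} (μ : Fin r → ℤ) (x : Fin r → ℝ) (t : ℝ) :
    eu (dz μ (fun j => t * x j / (2 * π))) =
      Complex.exp (t * (((∑ j, (μ j : ℝ) * x j : ℝ) : ℂ) * Complex.I)) := by
  unfold eu dz
  have h1 : (∑ i, (μ i : ℝ) * (t * x i / (2 * π))) = t * (∑ i, (μ i : ℝ) * x i) / (2 * π) := by
    rw [Finset.mul_sum, Finset.sum_div]
    refine Finset.sum_congr rfl fun i _ => ?_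
    ring
  rw [h1]
  congr 1
  have h2 : (π : ℂ) ≠ 0 := Complex.ofReal_ne_zero.2 Real.pi_ne_zero
  push_cast
  field_simp

theorem ex_congr {X Y : MT N} {s t : ℝ} (h : (s : ℂ) • X = (t : ℂ) • Y) : ex X s = ex Y t := by
  unfold ex
  by_cases hm : NormedSpace.exp ((s : ℂ) • X) ∈ Matrix.specialUnitaryGroup (Fin N) ℂ
  · have hm' : NormedSpace.exp ((t : ℂ) • Y) ∈ Matrix.specialUnitaryGroup (Fin N) ℂ := h ▸ hm
    rw [dif_pos hm, dif_pos hm']
    exact Subtype.ext (congrArg NormedSpace.exp h)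
  · have hm' : NormedSpace.exp ((t : ℂ) • Y) ∉ Matrix.specialUnitaryGroup (Fin N) ℂ := h ▸ hm
    rw [dif_neg hm, dif_neg hm']

/-- the point of the torus -/
theorem exH_ta {r : ℕ} {Hc : Fin r → MT N} (hmem : ∀ x, hx Hc x ∈ lie H) (x : Fin r → ℝ) (t : ℝ) :
    (exH H (hx Hc x) t).1 = ta Hc (fun j => t * x j / (2 * π)) := by
  have h1 : ex (hx Hc x) t ∈ H := (hmem x).2 t
  unfold exH
  rw [dif_pos h1]
  have h2 : (hx Hc fun j => 2 * π * (t * x j / (2 * π))) = (t : ℂ) • hx Hc x := by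
    unfold hx
    rw [Finset.smul_sum]
    refine Finset.sum_congr rfl fun j _ => ?_
    rw [smul_smul]
    congr 1
    have h2 : (π : ℂ) ≠ 0 := Complex.ofReal_ne_zero.2 Real.pi_ne_zero
    push_cast
    field_simp
  unfold ta
  rw [h2]
  exact ex_congr (by rw [Complex.ofReal_one, one_smul])

/-- the differential on the torus -/
theorem tor {r : ℕ} {Hc : Fin r → MT N} (hmem : ∀ x, hx Hc x ∈ lie H)
    {U : Matrix (Fin n) (Fin n) ℂ} {μ : Fin n → Fin r → ℤ} (hW : WT Hc σ U μ) (x : Fin r → ℝ) :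
    dr σ (hx Hc x) = U * Matrix.diagonal
      (fun m => ((∑ j, (μ m j : ℝ) * x j : ℝ) : ℂ) * Complex.I) * Uᴴ := by
  have key : ∀ (v : Fin n → ℂ) (i j : Fin n), (U * Matrix.diagonal v * Uᴴ) i j =
      ∑ m, U i m * v m * Uᴴ m j := by
    intro v i j
    rw [Matrix.mul_apply]
    refine Finset.sum_congr rfl fun m _ => ?_
    rw [Matrix.mul_diagonal]
  ext i j
  unfold dr dH
  have h1 : (fun t : ℝ => σ.ρ (1 * exH H (hx Hc x) t) i j) = fun t : ℝ =>
      ∑ m, U i m * Complex.exp (t * (((∑ j, (μ m j : ℝ) * x j : ℝ) : ℂ) * Complex.I)) *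
        Uᴴ m j := by
    funext t
    rw [one_mul, hW.tor _ _ (exH_ta hmem x t), key]
    refine Finset.sum_congr rfl fun m _ => ?_
    rw [eu_scale]
  rw [h1, key]
  apply HasDerivAt.deriv
  refine HasDerivAt.fun_sum fun m _ => ?_
  have h2 : HasDerivAt (fun t : ℝ => Complex.exp ((t : ℂ) *
      (((∑ j, (μ m j : ℝ) * x j : ℝ) : ℂ) * Complex.I)))
      (((∑ j, (μ m j : ℝ) * x j : ℝ) : ℂ) * Complex.I) 0 := by
    have h3 : HasDerivAt (fun t : ℝ => (t : ℂ) *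
        (((∑ j, (μ m j : ℝ) * x j : ℝ) : ℂ) * Complex.I))
        (1 * (((∑ j, (μ m j : ℝ) * x j : ℝ) : ℂ) * Complex.I)) 0 :=
      (Complex.ofRealCLM.hasDerivAt (x := (0 : ℝ))).mul_const _
    have h4 := h3.cexp
    simpa using h4
  exact (h2.const_mul _).mul_const _

/-- the quadratic form of the torus part -/
theorem quad {r : ℕ} (z : Matrix (Fin r) (Fin r) ℝ) (A : Matrix (Fin r) (Fin r) ℤ) (k : ℝ)
    (h : ∀ i j, ∑ l, z l i * z l j = k / 2 * (A i j : ℝ)) (μ : Fin r → ℤ) :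
    ∑ j, (∑ i, (μ i : ℝ) * z j i) ^ 2 = k / 2 * ((μ ⬝ᵥ (A *ᵥ μ) : ℤ) : ℝ) := by
  have h1 : ∀ j, (∑ i, (μ i : ℝ) * z j i) ^ 2 =
      ∑ i, ∑ i', ((μ i : ℝ) * (μ i' : ℝ)) * (z j i * z j i') := by
    intro j
    rw [sq, Finset.sum_mul_sum]
    refine Finset.sum_congr rfl fun i _ => Finset.sum_congr rfl fun i' _ => ?_
    ring
  rw [Finset.sum_congr rfl fun j _ => h1 j, Finset.sum_comm]
  have h2 : ∀ i, ∑ j, ∑ i', ((μ i : ℝ) * (μ i' : ℝ)) * (z j i * z j i') =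
      ∑ i', ((μ i : ℝ) * (μ i' : ℝ)) * (k / 2 * (A i i' : ℝ)) := by
    intro i
    rw [Finset.sum_comm]
    refine Finset.sum_congr rfl fun i' _ => ?_
    rw [← Finset.mul_sum, h i i']
  rw [Finset.sum_congr rfl fun i _ => h2 i]
  unfold dotProduct mulVec dotProduct
  push_cast
  rw [Finset.mul_sum]
  refine Finset.sum_congr rfl fun i _ => ?_
  rw [Finset.mul_sum, Finset.mul_sum]
  refine Finset.sum_congr rfl fun i' _ => ?_
  ring

/-- products of diagonalised matrices -/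
theorem conj_mul {U : Matrix (Fin n) (Fin n) ℂ} (hU : Uᴴ * U = 1) (v w : Fin n → ℂ) :
    (U * Matrix.diagonal v * Uᴴ) * (U * Matrix.diagonal w * Uᴴ) =
      U * Matrix.diagonal (fun m => v m * w m) * Uᴴ := by
  calc (U * Matrix.diagonal v * Uᴴ) * (U * Matrix.diagonal w * Uᴴ)
      = U * Matrix.diagonal v * (Uᴴ * U) * Matrix.diagonal w * Uᴴ := by
        simp only [Matrix.mul_assoc]
    _ = U * (Matrix.diagonal v * Matrix.diagonal w) * Uᴴ := by
        rw [hU, Matrix.mul_one, Matrix.mul_assoc U]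
    _ = _ := by rw [Matrix.diagonal_mul_diagonal]

theorem exp_conj {U : Matrix (Fin n) (Fin n) ℂ} (hU : U * Uᴴ = 1) (v : Fin n → ℂ) :
    NormedSpace.exp (U * Matrix.diagonal v * Uᴴ) =
      U * Matrix.diagonal (fun m => Complex.exp (v m)) * Uᴴ := by
  have hi : U⁻¹ = Uᴴ := Matrix.inv_eq_right_inv hU
  have hunit : IsUnit U := by
    rw [Matrix.isUnit_iff_isUnit_det]
    have h1 : U.det * (Uᴴ).det = 1 := by rw [← Matrix.det_mul, hU, Matrix.det_one]
    exact IsUnit.of_mul_eq_one _ h1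
  rw [← hi, Matrix.exp_conj _ _ hunit, Matrix.exp_diagonal]
  congr 3
  funext m
  rw [Pi.coe_exp, Complex.exp_eq_exp_ℂ]

theorem diag_sum {ι : Type} (s : Finset ι) (v : ι → Fin n → ℂ) :
    ∑ j ∈ s, Matrix.diagonal (v j) = Matrix.diagonal (∑ j ∈ s, v j) :=
  (map_sum (Matrix.diagonalAddMonoidHom (Fin n) ℂ) v s).symm

theorem smul_dist (a b : ℂ) (A C : Matrix (Fin n) (Fin n) ℂ) :
    a • (b • A) + a • (b • C) = a • (b • (A + C)) := by
  rw [smul_add, smul_add]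

/-- the squares of the normalised root vectors -/
theorem yr_mem {r : ℕ} {Φ : RT r} {B : Matrix (Fin r) (Fin r) ℤ} {Hc : Fin r → MT N}
    {E : (Fin r → ℤ) × (Fin r → ℤ) → MT N} {c : ℝ} (L : LIF H) (hL : LRD H Φ B Hc E)
    (b : {p // p ∈ pos Φ} × Bool) : yr Φ E c b ∈ lie H := by
  have hsub : ∀ p ∈ pos Φ, p ∈ Φ := fun p hp => (Finset.mem_filter.1 hp).1
  unfold yr
  refine L.smul _ _ ?_
  split_ifs
  · exact (hL.emem b.1.1 (hsub _ b.1.2)).1
  · exact (hL.emem b.1.1 (hsub _ b.1.2)).2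

/-- the square of a multiple -/
theorem sq_smul (F : DRF σ) {Z : MT N} (hZ : Z ∈ lie H) {u : ℝ} (hu : 0 ≤ u) :
    dr σ (((√u : ℝ) : ℂ) • Z) * dr σ (((√u : ℝ) : ℂ) • Z) = (u : ℂ) • (dr σ Z * dr σ Z) := by
  rw [F.smul _ hZ]
  simp only [Matrix.smul_mul, Matrix.mul_smul, smul_smul]
  congr 1
  rw [← Complex.ofReal_mul, Real.mul_self_sqrt hu]

/-- the root part of the Casimir element -/
theorem root_part {r : ℕ} {Φ : RT r} {B : Matrix (Fin r) (Fin r) ℤ} {Hc : Fin r → MT N}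
    {E : (Fin r → ℤ) × (Fin r → ℤ) → MT N} {c : ℝ} (F : DRF σ)
    (hL : LRD H Φ B Hc E) (T : TAF H Φ Hc E) (hc : 0 < c) :
    ∑ b, dr σ (yr Φ E c b) * dr σ (yr Φ E c b) =
      ∑ p ∈ pos Φ, (1 / ((2 * c * (E p * (E p)ᴴ).trace.re : ℝ) : ℂ)) •
        (dr σ (E p - (E p)ᴴ) * dr σ (E p - (E p)ᴴ) +
          dr σ (Complex.I • (E p + (E p)ᴴ)) * dr σ (Complex.I • (E p + (E p)ᴴ))) := by
  have hsub : ∀ p ∈ pos Φ, p ∈ Φ := fun p hp => (Finset.mem_filter.1 hp).1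
  have h1 : ∀ (s : ℝ) (Z : MT N), 0 < s → Z ∈ lie H →
      dr σ (((1 / √s : ℝ) : ℂ) • Z) * dr σ (((1 / √s : ℝ) : ℂ) • Z) =
      (1 / (s : ℂ)) • (dr σ Z * dr σ Z) := by
    intro s Z hs hZ
    rw [F.smul _ hZ]
    simp only [Matrix.smul_mul, Matrix.mul_smul, smul_smul]
    congr 1
    rw [← Complex.ofReal_mul, div_mul_div_comm, Real.mul_self_sqrt hs.le, one_mul]
    push_cast
    rfl
  rw [Fintype.sum_prod_type, ← Finset.sum_coe_sort (pos Φ)]
  refine Finset.sum_congr rfl fun p _ => ?_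
  have hp := hsub p.1 p.2
  have hs : 0 < 2 * c * (E p.1 * (E p.1)ᴴ).trace.re := by
    have := (T.pos p.1 hp).1
    positivity
  rw [Fintype.sum_bool]
  have e1 : yr Φ E c (p, true) = ((1 / √(2 * c * (E p.1 * (E p.1)ᴴ).trace.re) : ℝ) : ℂ) •
      (E p.1 - (E p.1)ᴴ) := by
    unfold yr
    simp
  have e2 : yr Φ E c (p, false) = ((1 / √(2 * c * (E p.1 * (E p.1)ᴴ).trace.re) : ℝ) : ℂ) •
      (Complex.I • (E p.1 + (E p.1)ᴴ)) := by
    unfold yr
    simp
  rw [e1, e2, h1 _ _ hs (hL.emem p.1 hp).1, h1 _ _ hs (hL.emem p.1 hp).2]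
  exact (smul_add _ _ _).symm

/-- the exponent of the chain packet -/
theorem chain_part {r : ℕ} {Φ : RT r} {B : Matrix (Fin r) (Fin r) ℤ} {Hc : Fin r → MT N}
    {E : (Fin r → ℤ) × (Fin r → ℤ) → MT N} {c k t₁ t₂ : ℝ} (F : DRF σ) (L : LIF H)
    (hL : LRD H Φ B Hc E) (hk : 0 < k) (h1 : 0 ≤ t₁) (h2 : 0 ≤ t₂) (a : {p // p ∈ pos Φ}) :
    ∑ b : {p // p ∈ pos Φ} × Bool, dr σ (((√((if b.1 = a then t₂ else t₁) / k) : ℝ) : ℂ) • yr Φ E c b) *
        dr σ (((√((if b.1 = a then t₂ else t₁) / k) : ℝ) : ℂ) • yr Φ E c b) =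
      ((t₁ / k : ℝ) : ℂ) • ∑ b, dr σ (yr Φ E c b) * dr σ (yr Φ E c b) +
        (((t₂ - t₁) / k : ℝ) : ℂ) • ∑ b : Bool, dr σ (yr Φ E c (a, b)) * dr σ (yr Φ E c (a, b)) := by
  have e1 : ∀ b : {p // p ∈ pos Φ} × Bool,
      dr σ (((√((if b.1 = a then t₂ else t₁) / k) : ℝ) : ℂ) • yr Φ E c b) *
        dr σ (((√((if b.1 = a then t₂ else t₁) / k) : ℝ) : ℂ) • yr Φ E c b) =
      ((t₁ / k : ℝ) : ℂ) • (dr σ (yr Φ E c b) * dr σ (yr Φ E c b)) +
        (if b.1 = a then (((t₂ - t₁) / k : ℝ) : ℂ) • (dr σ (yr Φ E c b) * dr σ (yr Φ E c b)) else 0) := by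
    intro b
    have hu : 0 ≤ (if b.1 = a then t₂ else t₁) / k := by
      split_ifs <;> positivity
    rw [sq_smul F (yr_mem L hL b) hu]
    split_ifs with h
    · rw [← add_smul]
      congr 1
      push_cast
      ring
    · rw [add_zero]
  rw [Finset.sum_congr rfl fun b _ => e1 b, Finset.sum_add_distrib, ← Finset.smul_sum]
  congr 1
  rw [Fintype.sum_prod_type]
  rw [Finset.sum_eq_single a]
  · simp only [if_true]
    rw [Finset.smul_sum]
  · intro p _ hp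
    simp only [if_neg hp]
    exact Finset.sum_const_zero
  · intro h
    exact absurd (Finset.mem_univ a) h

end HMC

open HMC

theorem t_HMC : M_HMC := by
  intro hLIEB hWFAC hQUAD hTAUF hDREP hADFR N H r Φ B Hc E c k d hCX a t₁ t₂ κ ht₁ ht₂ hPC n σ l U μ x m₀ τ
    hirr hσ hHW hWS i j
  have hW := hWS.wt
  have L := hLIEB N H hCX.closed
  have F := hDREP N H n σ hCX.closed hσ
  have T := hTAUF N H r Φ B Hc E hCX.closed hCX.lrd
  have hWF := hWFAC r Φ B hCX.lrd.ird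
  have hQ := hQUAD r Φ B hCX.lrd.ird hWF
  obtain ⟨X, hX⟩ := hCX.frame
  obtain ⟨z, hz1, hz2⟩ := hCX.kc.z
  have hk := hCX.kc.kpos
  have hc := hCX.kc.cpos
  have hfr := (hADFR N H r Φ B Hc E c k d X hCX.closed hCX.lrd hCX.kc hX).2 z hz1
  have hcas := cas F hX.mem (hHW.eig X hX).1
  -- the matrix identity
  have hmat : ∑ a, dr σ (X a) * dr σ (X a) =
      ∑ j, dr σ (hx Hc (z j)) * dr σ (hx Hc (z j)) +
      ∑ p ∈ pos Φ, (1 / ((2 * c * (E p * (E p)ᴴ).trace.re : ℝ) : ℂ)) •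
        (dr σ (E p - (E p)ᴴ) * dr σ (E p - (E p)ᴴ) +
          dr σ (Complex.I • (E p + (E p)ᴴ)) * dr σ (Complex.I • (E p + (E p)ᴴ))) := by
    ext i j
    have h1 := hfr (fun Y Z => (dr σ Y * dr σ Z) i j) ?_ ?_
    · simp only [Matrix.sum_apply, Matrix.add_apply, Matrix.smul_apply, smul_eq_mul]
      exact h1
    · intro X hX Y hY Z hZ
      simp only [F.add X hX Y hY, Matrix.add_mul, Matrix.mul_add, Matrix.add_apply]
      exact ⟨trivial, trivial⟩
    · intro X hX Y hY s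
      simp only [F.smul X hX, F.smul Y hY, Matrix.smul_mul, Matrix.mul_smul, Matrix.smul_apply,
        smul_eq_mul]
      exact ⟨trivial, trivial⟩
  have htor : ∑ j, dr σ (hx Hc (z j)) * dr σ (hx Hc (z j)) =
      U * Matrix.diagonal (fun m => -((k * (((rd Φ).Q (μ m) : ℤ) : ℝ) : ℝ) : ℂ)) * Uᴴ := by
    have h1 : ∀ j, dr σ (hx Hc (z j)) * dr σ (hx Hc (z j)) = U * Matrix.diagonal
        (fun m => -(((∑ i, (μ m i : ℝ) * z j i) ^ 2 : ℝ) : ℂ)) * Uᴴ := by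
      intro j
      rw [tor T.hmem hW (z j), conj_mul hW.ru]
      congr 3
      funext m
      push_cast
      linear_combination ((∑ i, (μ m i : ℂ) * (z j i : ℂ)) ^ 2) * Complex.I_sq
    rw [Finset.sum_congr rfl fun j _ => h1 j, ← Matrix.sum_mul, ← Matrix.mul_sum, diag_sum]
    congr 3
    funext m
    rw [Finset.sum_apply, Finset.sum_neg_distrib, ← Complex.ofReal_sum,
      quad z (rd Φ).A k hz2 (μ m), hQ.2.2.2.1 (μ m)]
    push_cast
    ring
  set R := ∑ p ∈ pos Φ, (1 / ((2 * c * (E p * (E p)ᴴ).trace.re : ℝ) : ℂ)) •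
        (dr σ (E p - (E p)ᴴ) * dr σ (E p - (E p)ᴴ) +
          dr σ (Complex.I • (E p + (E p)ᴴ)) * dr σ (Complex.I • (E p + (E p)ᴴ))) with hR
  have hone : (1 : Matrix (Fin n) (Fin n) ℂ) = U * Matrix.diagonal (fun _ => 1) * Uᴴ := by
    rw [Matrix.diagonal_one, Matrix.mul_one, hW.lu]
  have hRe : R = U * Matrix.diagonal (fun m => ((-(k * cq Φ l (μ m)) : ℝ) : ℂ)) * Uᴴ := by
    have h1 : R = (-((k * (((rd Φ).Q l : ℝ) - (rd Φ).Q 1) : ℝ) : ℂ)) •
        (1 : Matrix (Fin n) (Fin n) ℂ) -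
        U * Matrix.diagonal (fun m => -((k * (((rd Φ).Q (μ m) : ℤ) : ℝ) : ℝ) : ℂ)) * Uᴴ := by
      rw [← hcas, hmat, htor]
      abel
    rw [h1, hone, ← Matrix.smul_mul, ← Matrix.mul_smul, ← Matrix.sub_mul, ← Matrix.mul_sub]
    congr 2
    ext a b
    by_cases hab : a = b
    · subst hab
      simp only [Matrix.smul_apply, Matrix.sub_apply, Matrix.diagonal_apply_eq, smul_eq_mul]
      unfold cq
      push_cast
      ring
    · simp only [Matrix.smul_apply, Matrix.sub_apply, Matrix.diagonal_apply_ne _ hab, smul_eq_mul,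
        mul_zero, sub_zero]
  have hcoef := hPC.coef n σ hσ i j
  have hex : ((t₁ / k : ℝ) : ℂ) • R + (((t₂ - t₁) / k : ℝ) : ℂ) •
      (U * Matrix.diagonal (fun j => ((-(k * qa Φ a.1 (μ j) (x j)) : ℝ) : ℂ)) * Uᴴ) =
      U * Matrix.diagonal (fun m => ((-(ec Φ a.1 l t₁ t₂ (μ m) (x m)) : ℝ) : ℂ)) * Uᴴ := by
    rw [hRe, ← Matrix.smul_mul, ← Matrix.mul_smul, ← Matrix.smul_mul, ← Matrix.mul_smul, ← Matrix.add_mul,
      ← Matrix.mul_add]
    congr 2
    ext p q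
    by_cases hpq : p = q
    · subst hpq
      simp only [Matrix.smul_apply, Matrix.add_apply, Matrix.diagonal_apply_eq, smul_eq_mul]
      unfold ec
      have hk' : (k : ℂ) ≠ 0 := Complex.ofReal_ne_zero.2 hk.ne'
      push_cast
      field_simp
      ring
    · simp only [Matrix.smul_apply, Matrix.add_apply, Matrix.diagonal_apply_ne _ hpq, smul_eq_mul,
        mul_zero, add_zero]
  rw [hcoef, chain_part F L hCX.lrd hk ht₁ ht₂ a, root_part F hCX.lrd T hc, ← hR, hWS.sa, hex, exp_conj hW.lu]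
  simp only [Complex.ofReal_exp]

end

end STZ3
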