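import Pool.Agent.STZ3.StD3

/-!
# Module SHD_RGM: the tuples for which the chain packets are used
-/

namespace STZ3

open STZ LGR MeasureTheory Matrix Filter

open scoped ComplexConjugate Matrix Real Topology

noncomputable section

namespace RGM

variable {r : ℕ} {Φ : RT r}

theorem da' (hP : PRF Φ) (J : ℕ) (ε : ℝ) (a : {p // p ∈ pos Φ}) (x : {p // p ∈ pos Φ} → Fin (J + 1))
    (h : RG ε a x) : (2 : ℝ) ^ ((12 * ε - 1) * J) ≤ dl x a := by
  have hd := hP.dpos J x a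
  have hX : (0 : ℝ) < 2 ^ J := by positivity
  have h1 := h.lo.trans h.hi
  have h2 : (2 : ℝ) ^ (24 * ε * J) ≤ (2 ^ J * dl x a) ^ 2 := by
    have h3 : (2 : ℝ) ^ (24 * ε * J) * dl x a ≤ (2 ^ J * dl x a) ^ 2 * dl x a := by
      calc (2 : ℝ) ^ (24 * ε * J) * dl x a ≤ (2 ^ J) ^ 2 * dl x a ^ 3 := h1
        _ = (2 ^ J * dl x a) ^ 2 * dl x a := by ring
    exact le_of_mul_le_mul_right h3 hd
  have h4 : (2 : ℝ) ^ (24 * ε * J) = ((2 : ℝ) ^ (12 * ε * J)) ^ 2 := by
    rw [← Real.rpow_natCast ((2 : ℝ) ^ (12 * ε * J)) 2, ← Real.rpow_mul (by norm_num)]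
    congr 1
    push_cast
    ring
  rw [h4] at h2
  have h5 : (2 : ℝ) ^ (12 * ε * J) ≤ 2 ^ J * dl x a :=
    le_of_sq_le_sq h2 (by positivity)
  have h6 : (2 : ℝ) ^ ((12 * ε - 1) * J) = (2 : ℝ) ^ (12 * ε * J) / 2 ^ J := by
    rw [← Real.rpow_natCast 2 J, ← Real.rpow_sub (by norm_num)]
    congr 1
    ring
  rw [h6, div_le_iff₀ hX]
  linarith

theorem bg' (hP : PRF Φ) (J : ℕ) (ε : ℝ) (a : {p // p ∈ pos Φ}) (x : {p // p ∈ pos Φ} → Fin (J + 1))
    (h : RG ε a x) : (2 : ℝ) ^ ((36 * ε - 1) * J) ≤ bx' x := by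
  have h1 := da' hP J ε a x h
  have h2 : (2 : ℝ) ^ ((36 * ε - 1) * J) = (2 : ℝ) ^ (24 * ε * J) * (2 : ℝ) ^ ((12 * ε - 1) * J) := by
    rw [← Real.rpow_add (by norm_num)]
    congr 1
    ring
  rw [h2]
  calc (2 : ℝ) ^ (24 * ε * J) * (2 : ℝ) ^ ((12 * ε - 1) * J) ≤ (2 : ℝ) ^ (24 * ε * J) * dl x a := by
        gcongr
    _ ≤ bx' x := h.lo

theorem sqrt_le (d u : ℝ) (J : ℕ) (hd : 0 < d) (h : (2 : ℝ) ^ ((2 * u - 1) * J) ≤ d) :
    √(d / 2 ^ J) ≤ (2 : ℝ) ^ (-(u * J)) * d := by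
  have hX : (0 : ℝ) < 2 ^ J := by positivity
  apply Real.sqrt_le_iff.mpr
  refine ⟨by positivity, ?_⟩
  have h1 : ((2 : ℝ) ^ (-(u * J))) ^ 2 * (2 : ℝ) ^ ((2 * u - 1) * J) * 2 ^ J = 1 := by
    rw [← Real.rpow_natCast ((2 : ℝ) ^ (-(u * J))) 2, ← Real.rpow_mul (by norm_num),
      ← Real.rpow_natCast 2 J, ← Real.rpow_add (by norm_num), ← Real.rpow_add (by norm_num)]
    have : (-(u * J) * ((2 : ℕ) : ℝ) + (2 * u - 1) * J + (J : ℝ)) = 0 := by
      push_cast
      ring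
    rw [this, Real.rpow_zero]
  rw [div_le_iff₀ hX, mul_pow]
  have h2 : (0 : ℝ) < ((2 : ℝ) ^ (-(u * J))) ^ 2 := by positivity
  calc d = (((2 : ℝ) ^ (-(u * J))) ^ 2 * (2 : ℝ) ^ ((2 * u - 1) * J) * 2 ^ J) * d := by
        rw [h1, one_mul]
    _ ≤ (((2 : ℝ) ^ (-(u * J))) ^ 2 * d * 2 ^ J) * d := by gcongr
    _ = ((2 : ℝ) ^ (-(u * J))) ^ 2 * d ^ 2 * 2 ^ J := by ring

end RGM

open RGM in
/-- Module RGM. -/
theorem t_RGM : M_RGM := by
  intro hprm r Φ B hr hI hW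
  have hP := hprm r Φ B hr hI hW
  refine ⟨?_, ?_, ?_, ?_, ?_, ?_, ?_, ?_⟩
  · intro J ε x
    obtain ⟨p₀, -⟩ := hP.bat J x
    have : Nonempty {p // p ∈ pos Φ} := ⟨p₀⟩
    obtain ⟨a, ha⟩ := Finite.exists_min (fun p => dl x p)
    refine ⟨a, ha, ?_⟩
    by_cases h1 : (2 : ℝ) ^ (24 * ε * J) * dl x a ≤ bx' x
    · by_cases h2 : bx' x ≤ (2 ^ J) ^ 2 * dl x a ^ 3
      · exact Or.inl ⟨ha, h1, h2⟩
      · exact Or.inr (Or.inr (le_of_lt (not_le.mp h2)))
    · exact Or.inr (Or.inl (le_of_lt (not_le.mp h1)))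
  · intro J a x
    have hd := hP.dpos J x a
    have hX : (0 : ℝ) < 2 ^ J := by positivity
    refine ⟨div_pos hd hX, ?_⟩
    unfold tc th
    exact div_le_div_of_nonneg_right (hP.dle J x a) hX.le
  · intro J ε a x h
    exact da' hP J ε a x h
  · intro J ε a x h
    exact bg' hP J ε a x h
  · intro J ε a x h
    have h1 := da' hP J ε a x h
    have h2 := sqrt_le (dl x a) (6 * ε) J (hP.dpos J x a) (by
      convert h1 using 2
      ring)
    exact h2
  · intro J ε a x h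
    have h1 := bg' hP J ε a x h
    have hb : 0 < bx' x := lt_of_lt_of_le (by positivity) h1
    have h2 := sqrt_le (bx' x) (18 * ε) J hb (by
      convert h1 using 2
      ring)
    exact h2
  · intro J ε a x hε h
    have h1 := da' hP J ε a x h
    have h2 := bg' hP J ε a x h
    have hX : (0 : ℝ) < 2 ^ J := by positivity
    have ht := hP.tpos J x
    refine max_le ?_ ?_
    · have h3 : (2 : ℝ) ^ ((18 * ε - 1) * J) ≤ √(th x) := by
        apply Real.le_sqrt_of_sq_le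
        unfold th
        rw [le_div_iff₀ hX]
        refine le_trans (le_of_eq ?_) h2
        rw [← Real.rpow_natCast ((2 : ℝ) ^ ((18 * ε - 1) * J)) 2, ← Real.rpow_mul (by norm_num),
          ← Real.rpow_natCast 2 J, ← Real.rpow_add (by norm_num)]
        congr 1
        push_cast
        ring
      have h4 : 1 / √(th x) ≤ (2 : ℝ) ^ (-((18 * ε - 1) * J)) := by
        rw [Real.rpow_neg (by norm_num), ← one_div]
        exact one_div_le_one_div_of_le (by positivity) h3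
      refine h4.trans ?_
      apply Real.rpow_le_rpow_of_exponent_le (by norm_num)
      have : (0 : ℝ) ≤ ε * J := by positivity
      nlinarith
    · have h4 : 1 / dl x a ≤ (2 : ℝ) ^ (-((12 * ε - 1) * J)) := by
        rw [Real.rpow_neg (by norm_num), ← one_div]
        exact one_div_le_one_div_of_le (by positivity) h1
      refine h4.trans (le_of_eq ?_)
      congr 1
      ring
  · intro J ε a x hJ hε h p
    by_contra hc
    have h1 : (x p).val = J := by
      have := (x p).isLt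
      omega
    have h2 := (da' hP J ε a x h).trans (h.mn p)
    unfold dl at h2
    rw [h1] at h2
    have h3 : (1 : ℝ) / 2 ^ J = (2 : ℝ) ^ (-(J : ℝ)) := by
      rw [Real.rpow_neg (by norm_num), Real.rpow_natCast, one_div]
    rw [h3] at h2
    have h4 : (2 : ℝ) ^ (-(J : ℝ)) < (2 : ℝ) ^ ((12 * ε - 1) * J) := by
      apply Real.rpow_lt_rpow_of_exponent_lt (by norm_num)
      have hJ' : (1 : ℝ) ≤ J := by exact_mod_cast hJ
      have : (0 : ℝ) < ε * J := by positivity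
      nlinarith
    linarith

end

end STZ3
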