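import Pool.Agent.STZ3.StD3

/-!
# SEC: the sets for the chain packets (helper90)
-/

set_option autoImplicit false

namespace STZ3

open STZ LGR MeasureTheory Matrix Filter

open scoped ComplexConjugate Matrix Real Topology

noncomputable section

namespace SEC

theorem nd_eq (θ : ℝ) : nd θ = ‖(θ : UnitAddCircle)‖ := (UnitAddCircle.norm_eq (x := θ)).symm

theorem nd_cont : Continuous nd := by
  have : nd = fun θ : ℝ => ‖(θ : UnitAddCircle)‖ := funext nd_eq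
  rw [this]
  exact continuous_norm.comp (AddCircle.continuous_mk' 1)

theorem nd_add (x y : ℝ) : nd (x + y) ≤ nd x + nd y := by
  rw [nd_eq, nd_eq, nd_eq, AddCircle.coe_add]
  exact norm_add_le _ _

theorem nd_neg (x : ℝ) : nd (-x) = nd x := by
  rw [nd_eq, nd_eq, AddCircle.coe_neg, norm_neg]

theorem nd_sub (x y : ℝ) : nd (x - y) ≤ nd x + nd y := by
  rw [sub_eq_add_neg]
  exact (nd_add _ _).trans (by rw [nd_neg])

theorem nd_le_abs (x : ℝ) : nd x ≤ |x| := by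
  have := round_le x 0
  simpa [nd] using this

theorem dz_add {r : ℕ} (κ : Fin r → ℤ) (θ φ : Fin r → ℝ) : dz κ (θ + φ) = dz κ θ + dz κ φ := by
  unfold dz
  rw [← Finset.sum_add_distrib]
  exact Finset.sum_congr rfl fun i _ => by rw [Pi.add_apply]; ring

theorem dz_sub {r : ℕ} (κ : Fin r → ℤ) (θ φ : Fin r → ℝ) : dz κ (θ - φ) = dz κ θ - dz κ φ := by
  unfold dz
  rw [← Finset.sum_sub_distrib]
  exact Finset.sum_congr rfl fun i _ => by rw [Pi.sub_apply]; ring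

theorem dz_cont {r : ℕ} (κ : Fin r → ℤ) : Continuous (dz κ) := by
  unfold dz
  fun_prop

/-- a bound of the coefficients of the roots -/
def Sp {r : ℕ} (Φ : RT r) : ℝ := ∑ p ∈ pos Φ, ∑ i, |(p.1 i : ℝ)|

theorem Sp_nonneg {r : ℕ} (Φ : RT r) : 0 ≤ Sp Φ :=
  Finset.sum_nonneg fun _ _ => Finset.sum_nonneg fun _ _ => abs_nonneg _

theorem dz_le {r : ℕ} {Φ : RT r} (p : {p // p ∈ pos Φ}) {s : Fin r → ℝ} {t : ℝ} (ht : 0 ≤ t)
    (h : ∀ i, |s i| ≤ t) : |dz p.1.1 s| ≤ Sp Φ * t := by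
  have h1 : ∑ i, |(p.1.1 i : ℝ)| ≤ Sp Φ :=
    Finset.single_le_sum (f := fun p : (Fin r → ℤ) × (Fin r → ℤ) => ∑ i, |(p.1 i : ℝ)|)
      (fun _ _ => Finset.sum_nonneg fun _ _ => abs_nonneg _) p.2
  unfold dz
  calc |∑ i, (p.1.1 i : ℝ) * s i| ≤ ∑ i, |(p.1.1 i : ℝ) * s i| := Finset.abs_sum_le_sum_abs _ _
    _ ≤ ∑ i, |(p.1.1 i : ℝ)| * t := Finset.sum_le_sum fun i _ => by
        rw [abs_mul]; exact mul_le_mul_of_nonneg_left (h i) (abs_nonneg _)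
    _ = (∑ i, |(p.1.1 i : ℝ)|) * t := by rw [Finset.sum_mul]
    _ ≤ _ := mul_le_mul_of_nonneg_right h1 ht

/-- the lower bound for one root: `E = 2^(ε J)` is large, `I = E⁻¹` -/
theorem factor {E I Dl Da nθ nφ nψ ns L : ℝ} (hE : 8 + 4 * L ≤ E) (hL0 : 0 ≤ L) (hI : E * I = 1)
    (hI0 : 0 < I) (hDl : 0 < Dl) (hDa : Da ≤ Dl) (hDa0 : 0 < Da)
    (hφ : nφ ≤ I * I * Dl) (hs : ns ≤ L * (I * I * I * Da))
    (htri : nθ ≤ nψ + nφ + ns) (hθ : I * Dl ≤ 4 * nθ) :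
    I * I * Dl ≤ nψ := by
  have hI1 : I ≤ 1 := by nlinarith
  have h1 : L * (I * I * I * Da) ≤ L * (I * I * Dl) := by
    apply mul_le_mul_of_nonneg_left _ hL0
    have : I * I * I * Da ≤ I * I * 1 * Dl := by gcongr
    linarith
  have h2 : (2 + L) * (I * I * Dl) ≤ I * Dl / 4 := by
    have : (8 + 4 * L) * (I * I * Dl) ≤ E * (I * I * Dl) := by gcongr
    have e : E * (I * I * Dl) = I * Dl := by rw [← mul_assoc, ← mul_assoc, hI, one_mul]
    rw [e] at this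
    linarith
  linarith

end SEC

open SEC in
theorem t_SEC : M_SEC := by
  intro hPRM _ hCVR Φ B hI hW hA ε C₂ hε hC₂
  have hP := hPRM 2 Φ B (by norm_num) hI hW
  have hS := Sp_nonneg Φ
  have h2ε : (1 : ℝ) < (2 : ℝ) ^ ε := Real.one_lt_rpow (by norm_num) hε
  obtain ⟨J₀, hJ₀⟩ := pow_unbounded_of_one_lt (32 + 4 * (Sp Φ * (2 * C₂))) h2ε
  refine ⟨J₀, ?_⟩
  intro J a x hJ hRG
  -- `E = 2^(ε J)`
  set E : ℝ := (2 : ℝ) ^ (ε * J) with hE
  have hEp : E = ((2 : ℝ) ^ ε) ^ J := by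
    rw [hE, Real.rpow_mul (by norm_num), Real.rpow_natCast]
  have hL : 32 + 4 * (Sp Φ * (2 * C₂)) ≤ E := by
    rw [hEp]
    exact hJ₀.le.trans (pow_le_pow_right₀ h2ε.le hJ)
  have hL0 : 0 ≤ Sp Φ * (2 * C₂) := by positivity
  have hE32 : 32 ≤ E := by linarith
  have hE0 : 0 < E := by linarith
  have hpw : ∀ n : ℕ, (2 : ℝ) ^ ((n : ℝ) * ε * J) = E ^ n := by
    intro n
    rw [hE, ← Real.rpow_natCast, ← Real.rpow_mul (by norm_num)]
    congr 1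
    ring
  have hE1 : (2 : ℝ) ^ (-(ε * J)) = E⁻¹ := by rw [Real.rpow_neg (by norm_num)]
  have hE3 : (2 : ℝ) ^ (-(2 * ε * J)) = (E ^ 2)⁻¹ := by
    rw [Real.rpow_neg (by norm_num), ← hpw 2]
    norm_num
  have hE4 : (2 : ℝ) ^ (9 * ε * J) = E ^ 9 := by
    rw [← hpw 9]
    norm_num
  have hE5 : (2 : ℝ) ^ (-(5 * ε * J)) = (E ^ 5)⁻¹ := by
    rw [Real.rpow_neg (by norm_num), ← hpw 5]
    norm_num
  have hE6 : (2 : ℝ) ^ (-(3 * ε * J)) = (E ^ 3)⁻¹ := by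
    rw [Real.rpow_neg (by norm_num), ← hpw 3]
    norm_num
  have hE7 : (2 : ℝ) ^ (24 * ε * J) = E ^ 24 := by
    rw [← hpw 24]
    norm_num
  have hdl : ∀ p, 0 < dl x p := hP.dpos J x
  have hfin : volume (Set.Icc (0 : Fin 2 → ℝ) 1) ≠ ⊤ := isCompact_Icc.measure_ne_top
  have hqcs : qcc ε x ⊆ Set.Icc 0 1 := fun θ h => h.1
  have hqc : ∀ θ, θ ∈ qcc ε x ↔ θ ∈ Set.Icc (0 : Fin 2 → ℝ) 1 ∧
      ∀ p : {p // p ∈ pos Φ}, nd (dz p.1.1 θ) ≤ (E ^ 2)⁻¹ * dl x p := by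
    intro θ
    unfold qcc
    rw [Set.mem_ofPred_eq, hE3]
  have hsk : ∀ (K : ℝ) θ, θ ∈ skc K ε x ↔ ∀ p : {p // p ∈ pos Φ},
      nd (dz p.1.1 θ) ≤ K * E * dl x p ∧ E⁻¹ * dl x p ≤ K * nd (dz p.1.1 θ) := by
    intro K θ
    unfold skc
    rw [Set.mem_ofPred_eq, hE1]
  have hnc : ∀ p : {p // p ∈ pos Φ}, Continuous fun θ : Fin 2 → ℝ => nd (dz p.1.1 θ) :=
    fun p => nd_cont.comp (dz_cont _)
  have hqcm : IsClosed (qcc ε x) := by
    have : qcc ε x = Set.Icc (0 : Fin 2 → ℝ) 1 ∩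
        ⋂ p : {p // p ∈ pos Φ}, {θ | nd (dz p.1.1 θ) ≤ (E ^ 2)⁻¹ * dl x p} := by
      ext θ
      rw [hqc, Set.mem_inter_iff, Set.mem_iInter]
      rfl
    rw [this]
    exact isClosed_Icc.inter (isClosed_iInter fun p => isClosed_le (hnc p) continuous_const)
  have hskm : IsClosed (skc 4 ε x) := by
    have : skc 4 ε x = ⋂ p : {p // p ∈ pos Φ}, ({θ : Fin 2 → ℝ | nd (dz p.1.1 θ) ≤ 4 * E * dl x p} ∩
        {θ | E⁻¹ * dl x p ≤ 4 * nd (dz p.1.1 θ)}) := by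
      ext θ
      rw [hsk, Set.mem_iInter]
      rfl
    rw [this]
    exact isClosed_iInter fun p => (isClosed_le (hnc p) continuous_const).inter
      (isClosed_le continuous_const (continuous_const.mul (hnc p)))
  refine ⟨hqcm.measurableSet, measurableSet_Icc.inter hskm.measurableSet, ?_, ?_, ?_, ?_⟩
  · -- a small box
    set t : ℝ := (E ^ 2)⁻¹ * (1 / 2 ^ J) / (Sp Φ + 1) with ht
    have ht0 : 0 < t := by positivity
    have ht1 : t ≤ 1 := by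
      rw [ht, div_le_one (by positivity)]
      have a1 : (E ^ 2)⁻¹ ≤ 1 := inv_le_one_of_one_le₀ (one_le_pow₀ (by linarith))
      have a2 : (1 : ℝ) / 2 ^ J ≤ 1 := by
        rw [div_le_one (by positivity)]
        exact one_le_pow₀ (by norm_num)
      have a3 : (E ^ 2)⁻¹ * (1 / 2 ^ J) ≤ 1 := mul_le_one₀ a1 (by positivity) a2
      linarith
    have hsub : Set.Icc (0 : Fin 2 → ℝ) (fun _ => t) ⊆ qcc ε x := by
      intro θ hθ
      rw [hqc]
      refine ⟨⟨hθ.1, fun i => (hθ.2 i).trans ht1⟩, fun p => ?_⟩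
      have b1 : |dz p.1.1 θ| ≤ Sp Φ * t := dz_le p ht0.le fun i => by
        rw [abs_of_nonneg (hθ.1 i)]
        exact hθ.2 i
      have b2 : Sp Φ * t ≤ (E ^ 2)⁻¹ * (1 / 2 ^ J) := by
        rw [ht, mul_div_assoc', div_le_iff₀ (by positivity)]
        have : 0 ≤ (E ^ 2)⁻¹ * (1 / 2 ^ J) := by positivity
        nlinarith
      have b3 : (1 : ℝ) / 2 ^ J ≤ dl x p := hP.dge J x p
      calc nd (dz p.1.1 θ) ≤ |dz p.1.1 θ| := nd_le_abs _
        _ ≤ (E ^ 2)⁻¹ * (1 / 2 ^ J) := b1.trans b2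
        _ ≤ (E ^ 2)⁻¹ * dl x p := by gcongr
    have hvol : volume.real (Set.Icc (0 : Fin 2 → ℝ) (fun _ => t)) = t ^ 2 := by
      have := Real.volume_Icc_pi_toReal (a := (0 : Fin 2 → ℝ)) (b := fun _ => t)
        (fun _ => ht0.le)
      rw [Measure.real, this]
      simp [sq]
    have h1 : volume.real (Set.Icc (0 : Fin 2 → ℝ) (fun _ => t)) ≤ volume.real (qcc ε x) :=
      measureReal_mono hsub (ne_top_of_le_ne_top hfin (measure_mono hqcs))
    rw [hvol] at h1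
    exact (pow_pos ht0 2).trans_le h1
  · -- covering
    have h1 := hCVR 2 Φ (fun p => (E ^ 2)⁻¹ * dl x p) (4 * E ^ 3)
      (fun p => mul_pos (by positivity) (hdl p)) (by
        have : (1 : ℝ) ≤ E ^ 3 := one_le_pow₀ (by linarith)
        linarith)
    have h2 : {θ : Fin 2 → ℝ | θ ∈ Set.Icc 0 1 ∧ ∀ p : {p // p ∈ pos Φ},
        nd (dz p.1.1 θ) ≤ (E ^ 2)⁻¹ * dl x p} = qcc ε x := by
      ext θ
      rw [hqc]
      rfl
    have h3 : Set.Icc (0 : Fin 2 → ℝ) 1 ∩ skc 4 ε x ⊆ {θ : Fin 2 → ℝ | θ ∈ Set.Icc 0 1 ∧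
        ∀ p : {p // p ∈ pos Φ}, nd (dz p.1.1 θ) ≤ 4 * E ^ 3 * ((E ^ 2)⁻¹ * dl x p)} := by
      rintro θ ⟨hθ1, hθ2⟩
      rw [hsk] at hθ2
      refine ⟨hθ1, fun p => (hθ2 p).1.trans (le_of_eq ?_)⟩
      field_simp
    rw [h2] at h1
    have h4 := measureReal_mono (μ := volume) h3
      (ne_top_of_le_ne_top hfin (measure_mono fun θ h => h.1))
    rw [hE4]
    refine h4.trans (h1.trans (le_of_eq ?_))
    rw [hA.card]
    ring
  · -- outside
    intro φ hφ θ hθ hcon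
    apply hθ
    rw [hqc] at hφ
    rw [hsk] at hcon ⊢
    intro p
    obtain ⟨c1, c2⟩ := hcon p
    have c3 := hφ.2 p
    have c0 := hdl p
    rw [dz_sub] at c1 c2
    have a1 : (E ^ 2)⁻¹ ≤ 1 := inv_le_one_of_one_le₀ (one_le_pow₀ (by linarith))
    have c4 : nd (dz p.1.1 θ) ≤ nd (dz p.1.1 θ - dz p.1.1 φ) + nd (dz p.1.1 φ) := by
      have := nd_add (dz p.1.1 θ - dz p.1.1 φ) (dz p.1.1 φ)
      rwa [sub_add_cancel] at this
    have c5 : nd (dz p.1.1 θ - dz p.1.1 φ) ≤ nd (dz p.1.1 θ) + nd (dz p.1.1 φ) := nd_sub _ _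
    constructor
    · have d1 : (E ^ 2)⁻¹ * dl x p ≤ 2 * E * dl x p := by
        apply mul_le_mul_of_nonneg_right _ c0.le
        linarith
      linarith
    · have d3 : (E ^ 2)⁻¹ = E⁻¹ * E⁻¹ := by rw [← inv_pow]; ring
      have d4 : E⁻¹ ≤ 1 / 4 := by
        rw [inv_le_comm₀ hE0 (by norm_num)]
        norm_num
        linarith
      have d5 : E⁻¹ * E⁻¹ * dl x p ≤ 1 / 4 * (E⁻¹ * dl x p) := by
        rw [mul_assoc]
        apply mul_le_mul_of_nonneg_right d4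
        positivity
      rw [d3] at c3
      linarith
  · -- the lower bounds
    intro φ hφ θ hθ s hs
    rw [hqc] at hφ
    rw [hsk] at hθ
    have hI0 : 0 < E⁻¹ := by positivity
    have hII : E * E⁻¹ = 1 := mul_inv_cancel₀ hE0.ne'
    have hI2 : (E ^ 2)⁻¹ = E⁻¹ * E⁻¹ := by rw [← inv_pow]; ring
    have hI3 : (E ^ 3)⁻¹ = E⁻¹ * E⁻¹ * E⁻¹ := by rw [← inv_pow]; ring
    have hI5 : (E ^ 5)⁻¹ = E⁻¹ * E⁻¹ * (E⁻¹ * E⁻¹ * E⁻¹) := by rw [← inv_pow]; ring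
    have key : ∀ p : {p // p ∈ pos Φ}, E⁻¹ * E⁻¹ * dl x p ≤ nd (dz p.1.1 (θ - φ + s)) := by
      intro p
      have hs2 : |dz p.1.1 s| ≤ Sp Φ * (2 * C₂ * ((2 : ℝ) ^ (-(3 * ε * J)) * dl x a)) :=
        dz_le p (by have := hdl a; positivity) hs
      refine factor (E := E) (Da := dl x a) (nθ := nd (dz p.1.1 θ)) (nφ := nd (dz p.1.1 φ))
        (ns := nd (dz p.1.1 s)) (L := Sp Φ * (2 * C₂)) (by linarith) hL0 hII hI0 (hdl p)
        (hRG.mn p) (hdl a) ?_ ?_ ?_ (hθ p).2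
      · have := hφ.2 p
        rwa [hI2] at this
      · refine (nd_le_abs _).trans (hs2.trans (le_of_eq ?_))
        rw [hE6, hI3]
        ring
      · have e1 : dz p.1.1 (θ - φ + s) = dz p.1.1 θ - dz p.1.1 φ + dz p.1.1 s := by
          rw [dz_add, dz_sub]
        have e2 : dz p.1.1 θ = (dz p.1.1 (θ - φ + s) + dz p.1.1 φ) - dz p.1.1 s := by
          rw [e1]; ring
        have e3 := nd_sub (dz p.1.1 (θ - φ + s) + dz p.1.1 φ) (dz p.1.1 s)
        rw [← e2] at e3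
        have e4 := nd_add (dz p.1.1 (θ - φ + s)) (dz p.1.1 φ)
        linarith
    refine ⟨by rw [hE3, hI2]; exact key a, ?_⟩
    intro p hp
    rw [Finset.mem_erase] at hp
    obtain ⟨hpa, hpm⟩ := hp
    refine le_trans ?_ (key ⟨p, hpm⟩)
    rw [hE5, hI5, mul_assoc]
    refine mul_le_mul_of_nonneg_left ?_ (by positivity)
    -- `E⁻³ b ≤ δ p`
    obtain ⟨q, hq⟩ := hP.bat J x
    have hb0 : 0 < bx' x := by rw [hq]; exact hdl q
    have hIle : E⁻¹ ≤ 1 := inv_le_one_of_one_le₀ (by linarith)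
    have hI32 : E⁻¹ * 32 ≤ 1 := by
      rw [inv_mul_le_iff₀ hE0]
      linarith
    have hlo : E ^ 24 * dl x a ≤ bx' x := by
      have := hRG.lo
      rwa [hE7] at this
    have hloa : E ^ 3 * dl x a ≤ bx' x := by
      refine le_trans ?_ hlo
      apply mul_le_mul_of_nonneg_right _ (hdl a).le
      exact pow_le_pow_right₀ (by linarith) (by norm_num)
    by_cases hqp : q = ⟨p, hpm⟩
    · rw [← hqp, ← hq]
      have : E⁻¹ * E⁻¹ * E⁻¹ ≤ 1 * 1 * 1 := by gcongr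
      have := mul_le_mul_of_nonneg_right this hb0.le
      linarith
    · have hqa : q ≠ a := by
        rintro rfl
        rw [hq] at hloa
        have h1 := hdl q
        have h2 : (1 : ℝ) < E ^ 3 := one_lt_pow₀ (by linarith) (by norm_num)
        nlinarith
      have hqa' : q.1 ≠ a.1 := fun h => hqa (Subtype.ext h)
      have hqp' : q.1 ≠ p := fun h => hqp (Subtype.ext h)
      have h1 := hA.tri₁ q.1 q.2 a.1 a.2 p hpm hqa' hqp' (Ne.symm hpa) θ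
      have h2 := (hθ q).2
      have h3 := (hθ a).1
      have h4 := (hθ ⟨p, hpm⟩).1
      rw [← hq] at h2
      -- `E⁻¹ b ≤ 16 E (δ a + δ p)`
      have h5 : E⁻¹ * bx' x ≤ 16 * E * dl x a + 16 * E * dl x ⟨p, hpm⟩ := by
        have h4' : nd (dz p.1 θ) ≤ 4 * E * dl x ⟨p, hpm⟩ := h4
        linarith
      -- multiply by `E⁻¹`
      have h6 : E⁻¹ * E⁻¹ * bx' x ≤ 16 * dl x a + 16 * dl x ⟨p, hpm⟩ := by
        have := mul_le_mul_of_nonneg_left h5 hI0.le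
        have e : E⁻¹ * (16 * E * dl x a + 16 * E * dl x ⟨p, hpm⟩) =
            (E * E⁻¹) * (16 * dl x a + 16 * dl x ⟨p, hpm⟩) := by ring
        rw [e, hII, one_mul] at this
        linarith
      have h7 : dl x a ≤ E⁻¹ * E⁻¹ * E⁻¹ * bx' x := by
        have := mul_le_mul_of_nonneg_left hloa (show 0 ≤ E⁻¹ * E⁻¹ * E⁻¹ by positivity)
        have e : E⁻¹ * E⁻¹ * E⁻¹ * (E ^ 3 * dl x a) = (E * E⁻¹) ^ 3 * dl x a := by ring
        rw [e, hII, one_pow, one_mul] at this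
        exact this
      have h8 : E⁻¹ * E⁻¹ * E⁻¹ * bx' x * 32 ≤ E⁻¹ * E⁻¹ * bx' x := by
        have := mul_le_mul_of_nonneg_left hI32 (show 0 ≤ E⁻¹ * E⁻¹ * bx' x by positivity)
        linarith
      linarith

end

end STZ3
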