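import Pool.Agent.STZ3.StmtsT3
import Pool.Agent.STZ.LOCY

/-!
# Compact simple groups of rank two: the top levels (helper80)
-/

namespace STZ3

open STZ LGR MeasureTheory Matrix Filter

open scoped ComplexConjugate Matrix Real Topology

noncomputable section

namespace TPL

/-- the indices of the two largest values -/
theorem exists_sm2 {ι : Type} [Fintype ι] (h : 2 ≤ Fintype.card ι) {J : ℕ}
    (y : ι → Fin (J + 1)) : ∃ i₁ i₂, Sm2 y i₁ i₂ := by
  classical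
  have hne : (Finset.univ : Finset ι).Nonempty := by
    rw [← Finset.card_pos, Finset.card_univ]
    omega
  obtain ⟨i₁, -, h1⟩ := Finset.exists_max_image Finset.univ y hne
  have hne2 : ((Finset.univ : Finset ι).erase i₁).Nonempty := by
    rw [← Finset.card_pos, Finset.card_erase_of_mem (Finset.mem_univ _), Finset.card_univ]
    omega
  obtain ⟨i₂, h2, h3⟩ := Finset.exists_max_image _ y hne2
  refine ⟨i₁, i₂, (Finset.ne_of_mem_erase h2).symm, h1 i₂ (Finset.mem_univ _), fun i hi => ?_⟩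
  exact h3 i (Finset.mem_erase.2 ⟨hi, Finset.mem_univ _⟩)

theorem mem_ia {r : ℕ} {ι : Type} {a : ι → Fin r → ℕ} {K : ℕ} {i : ι} (h : i ∈ ia a K) :
    a i ∈ ib r K := by
  unfold ia at h
  split at h
  · rename_i h1
    exact (Set.Finite.mem_toFinset h1).1 h
  · simp at h

/-- two different positive roots are linearly independent -/
theorem det_ne {D : RD 2} {P : RT 2} (hV : RV D P) (p q : {p // p ∈ P}) (hpq : p ≠ q) :
    (Matrix.of fun i => ((![p, q] : Fin 2 → {p // p ∈ P}) i).1.1).det ≠ 0 := by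
  intro h0
  rw [Matrix.det_fin_two] at h0
  simp only [Matrix.of_apply, Matrix.cons_val_zero, Matrix.cons_val_one] at h0
  have hne : p.1 ≠ q.1 := fun h => hpq (Subtype.ext h)
  have key : ∀ l : Fin 2, q.1.1 l • p.1.1 = p.1.1 l • q.1.1 := by
    intro l
    funext j
    simp only [Pi.smul_apply, smul_eq_mul]
    fin_cases l <;> fin_cases j
    · simp only [Fin.zero_eta]
      ring
    · simp only [Fin.zero_eta, Fin.mk_one]
      linear_combination -h0
    · simp only [Fin.zero_eta, Fin.mk_one]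
      linear_combination h0
    · simp only [Fin.mk_one]
      ring
  have h1 : p.1.1 = 0 := by
    funext l
    exact (hV.np1 p.1 p.2 q.1 q.2 hne _ _ (key l)).2
  have h2 : q.1.1 = 0 := by
    funext l
    exact (hV.np1 p.1 p.2 q.1 q.2 hne _ _ (key l)).1
  have h3 := hV.np1 p.1 p.2 q.1 q.2 hne 1 1 (by rw [h1, h2])
  exact one_ne_zero h3.1

theorem cont_e {M : Type} [TopologicalSpace M] [CompactSpace M] [MeasurableSpace M]
    [BorelSpace M] [T2Space M] [SecondCountableTopology M] (μ : Measure M)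
    [IsProbabilityMeasure μ] {G : ℝ → M → ℂ} (hG : JC G) :
    Continuous fun t => ∫ x, ‖G t x‖ ∂μ := by
  have h1 : Continuous (Function.uncurry fun (t : ℝ) (x : M) => ‖G t x‖) := hG.norm
  have h3 := continuous_parametric_integral_of_continuous (μ := μ) h1 (s := Set.univ)
    isCompact_univ
  simpa using h3

theorem nice_Ay (hW : WWF) {ι : Type} [Fintype ι] (C₀ : ℝ) (hC : 0 ≤ C₀) (c J : ℕ)
    (y : ι → Fin (J + 1)) : STZ.Nice (Ay C₀ c J y) where
  cont := by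
    unfold Ay
    exact continuous_const.mul ((continuous_const.mul (hW.cont _ c)).mul continuous_const)
  nn t := by
    have := LOCY.ww_nn hW (2 ^ J) c t
    have h2 : 0 ≤ ∏ i, (2 : ℝ) ^ (y i).val := Finset.prod_nonneg fun _ _ => by positivity
    unfold Ay
    positivity
  per t := by
    unfold Ay
    rw [hW.per]
  even t := by
    unfold Ay
    rw [hW.even]

theorem nice_Ey (hW : WWF) {ι : Type} (C₀ : ℝ) (hC : 0 ≤ C₀) (c J : ℕ)
    (y : ι → Fin (J + 1)) (i₁ i₂ : ι) : STZ.Nice (Ey C₀ c J y i₁ i₂) where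
  cont := by
    unfold Ey
    exact continuous_const.mul (((hW.cont _ c).sqrt.div_const _).mul
      ((hW.cont _ c).sqrt.div_const _))
  nn t := by
    unfold Ey
    positivity
  per t := by
    unfold Ey
    rw [hW.per, hW.per]
  even t := by
    unfold Ey
    rw [hW.even, hW.even]

/-- the bilinear form of the kernel is at most the sum of the pieces -/
theorem form (hW : WWF) (hTTM : S_TTM) {N : ℕ} {H : Subgroup (SU N)} {c : ℝ} {d : ℕ} {D : RD 2}
    {P : RT 2} {ι : Type} {a : ι → Fin 2 → ℕ} {χ : ι → H → ℂ} {Z : Finset (Fin 2 → ℝ)} {k : ℝ}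
    (hV : RV D P) (hG : GX H c d D P a χ Z k) (μ : Measure H) [IsProbabilityMeasure μ]
    [μ.IsMulLeftInvariant] (hker : Ker μ (KK χ)) {C₁ : ℝ} {c₁ K₀ J : ℕ} (hC₁ : 0 ≤ C₁)
    (hkJ : KWF D P a χ μ C₁ c₁ K₀ J) (i₁ i₂ : ({q // q ∈ P} → Fin (J + 1)) → {q // q ∈ P})
    (hi : ∀ y, Sm2 y (i₁ y) (i₂ y)) (F : Finset ι) (u : ι → H → ℂ)
    (hFJ : ∀ i ∈ F, ∀ j, K₀ * (a i j + 1) ≤ 2 ^ J) (hu : ∀ i ∈ F, Mem μ (KK χ i) (u i))
    (G : ℝ → H → ℂ) (hGc : JC G) (hGb : ∀ t x, ‖G t x‖ ≤ 1) :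
    ‖∫ t in (0 : ℝ)..1, ∫ x, conj (G t x) *
      uw (fun i => wG (a i)) (fun l => -D.Q l) F u t x ∂μ‖ ^ 2 ≤
      (∑ a ∈ F, nsq μ (u a)) * MB C₁ c₁ J i₁ i₂ (fun t => ∫ x, ‖G t x‖ ∂μ) := by
  have hcomp : CompactSpace H := isCompact_iff_compactSpace.1 hG.closed.isCompact
  have hsc : SecondCountableTopology H :=
    TopologicalSpace.Subtype.secondCountableTopology (H : Set (SU N))
  have hcι : Fintype.card {q // q ∈ P} = P.card := Fintype.card_coe P
  have h1 := hTTM H μ ι (KK χ) hker (fun i => -D.Q (wG (a i))) F (ia a (K₀ * 2 ^ J))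
    (fun i => et P (2 ^ J) (wG (a i))) ({q // q ∈ P} → Fin (J + 1))
    (fun y t g g' => kw D P a χ J (K₀ * 2 ^ J) y t g g')
    (fun y => Ay C₁ c₁ J y) (fun y => Ey C₁ c₁ J y (i₁ y) (i₂ y))
    (fun i hi => (hkJ.ge i (hFJ i hi)).1) (fun i _ => hkJ.nn i)
    (fun i hi => (hkJ.ge i (hFJ i hi)).2) hkJ.sum hkJ.cont
    (fun y => nice_Ay hW C₁ hC₁ c₁ J y) (fun y => nice_Ey hW C₁ hC₁ c₁ J y (i₁ y) (i₂ y))
    (fun y t g g' => ?_) (fun y t v w hv hw => ?_) u hu G hGc hGb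
  · exact h1
  · refine (hkJ.sup y t g g').trans (le_of_eq ?_)
    unfold Ay
    rw [hcι]
    norm_num
  · refine (hkJ.opb y t ![i₁ y, i₂ y] (det_ne hV _ _ (hi y).1) v w hv hw).trans (le_of_eq ?_)
    unfold Ey
    rw [Fin.prod_univ_two]
    simp only [Matrix.cons_val_zero, Matrix.cons_val_one, Real.sqrt_eq_rpow]

theorem main (hW : WWF) (hKERI : S_KERI) (hKWFG : S_KWFG) (hTTM : S_TTM) (hTOI : S_TOI) :
    S_TPL := by
  intro N H c d D P ι a χ Z k hV hG hP μ _ _ p hp hp3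
  have hcomp : CompactSpace H := isCompact_iff_compactSpace.1 hG.closed.isCompact
  have hsc : SecondCountableTopology H :=
    TopologicalSpace.Subtype.secondCountableTopology (H : Set (SU N))
  rcases isEmpty_or_nonempty ι with hι | hι
  · refine ⟨1, 0, one_pos, le_refl _, fun F u hu N₀ hN₀ hFN G hGc hGb ℓ hℓ hℓ1 hℓ2 => ?_⟩
    have hF : F = ∅ := Finset.eq_empty_of_isEmpty F
    subst hF
    have h1 : ∀ t x, uw (fun i => wG (a i)) (fun l => -D.Q l) ∅ u t x = 0 := by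
      intro t x
      unfold uw
      simp
    simp only [h1, mul_zero, integral_zero, intervalIntegral.integral_zero, norm_zero] at hℓ2
    have h2 : (∫ t in (0 : ℝ)..1, ∫ x, ‖G t x‖ ∂μ) ≤ 0 := by
      by_contra h3
      push Not at h3
      have := mul_pos hℓ h3
      linarith
    have h3 : 0 ≤ ℓ ^ p := Real.rpow_nonneg hℓ.le _
    rw [zero_mul, zero_mul]
    exact mul_nonpos_of_nonpos_of_nonneg h2 h3
  have hcι : Fintype.card {q // q ∈ P} = P.card := Fintype.card_coe P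
  set n : ℝ := (P.card : ℝ) with hn
  have hn3 : (3 : ℝ) ≤ n := by rw [hn]; exact_mod_cast hP
  have he : (D.e : ℝ) = 2 * n := by
    rw [hV.card]
    push_cast
    rfl
  have hp' : 2 + 4 / (n + 2) < p := by
    have h1 : 8 / ((D.e : ℝ) + 4) = 4 / (n + 2) := by
      rw [he]
      rw [div_eq_div_iff (by linarith) (by linarith)]
      ring
    rwa [h1] at hp
  have hker := (hKERI H μ ι χ hG.irr).1
  obtain ⟨C₁, c₁, K₀, hC1, hc1, hky⟩ := hKWFG N H c d 2 D P ι a χ Z k hV hG μ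
  have hK1 : 1 ≤ K₀ := by
    by_contra hc
    have h0 : K₀ = 0 := by omega
    subst h0
    obtain ⟨i0⟩ := ‹Nonempty ι›
    have h4 := mem_ia ((hky 0).ge i0 (fun j => by simp)).1
    have h5 := Fintype.mem_piFinset.1 h4 0
    simp at h5
  have hK1' : (1 : ℝ) ≤ K₀ := by exact_mod_cast hK1
  have hK0 : (0 : ℝ) < 2 * K₀ := by linarith
  set α : ℝ := (2 * (K₀ : ℝ)) ^ (-(n + 1)) with hα
  have hα0 : 0 < α := Real.rpow_pos_of_pos hK0 _
  obtain ⟨κ', C', hκ', hC', htoi⟩ := hTOI {q // q ∈ P} c₁ p C₁ α (by rw [hcι]; exact hP) hc1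
    (by rw [hcι]; exact hp') hp3 hC1 hα0
  rw [hcι] at htoi
  set E : ℝ := p * (n + 1) - (2 * n + 4) with hE
  have hE0 : 0 ≤ E := by
    have h1 : 4 < (p - 2) * (n + 2) := by
      have h2 : 4 / (n + 2) < p - 2 := by linarith
      rwa [div_lt_iff₀ (by linarith)] at h2
    have h3 : 0 < p - 2 := by
      have : 0 < 4 / (n + 2) := by positivity
      linarith
    rw [hE]
    nlinarith
  set κ : ℝ := min 1 κ' with hκ
  have hκ0 : 0 < κ := lt_min one_pos hκ'
  have hκ1 : κ ≤ 1 := min_le_left _ _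
  have hκκ' : κ ≤ κ' := min_le_right _ _
  refine ⟨κ, C' * (2 * K₀) ^ E, hκ0, by positivity,
    fun F u hu N₀ hN₀ hFN G hGc hGb ℓ hℓ hℓ1 hℓ2 => ?_⟩
  set m : ℝ := ∫ t in (0 : ℝ)..1, ∫ x, ‖G t x‖ ∂μ with hm
  have hm0 : 0 ≤ m := intervalIntegral.integral_nonneg zero_le_one fun t _ =>
    integral_nonneg fun _ => norm_nonneg _
  set S : ℝ := ∑ a ∈ F, nsq μ (u a) with hS
  have hS0 : 0 ≤ S := Finset.sum_nonneg fun a _ => integral_nonneg fun _ => by positivity
  -- the scale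
  have hKN : 1 ≤ (K₀ : ℝ) * N₀ := by nlinarith
  obtain ⟨j, hj1, hj2⟩ := exists_nat_pow_near hKN (one_lt_two : (1 : ℝ) < 2)
  set J : ℕ := j + 1 with hJ
  have hJ2 : (2 : ℝ) ^ J ≤ 2 * K₀ * N₀ := by
    rw [hJ, pow_succ]
    linarith
  have hJ1 : (1 : ℝ) ≤ 2 ^ J := one_le_pow₀ one_le_two
  have hsub : ∀ i ∈ F, ∀ l, K₀ * (a i l + 1) ≤ 2 ^ J := by
    intro i hi l
    have h1 := (LOCY.le_sz (a i) l).trans (hFN i hi)
    have h2 : ((K₀ * (a i l + 1) : ℕ) : ℝ) ≤ ((2 ^ J : ℕ) : ℝ) := by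
      push_cast
      have h3 : (K₀ : ℝ) * ((a i l : ℝ) + 1) ≤ K₀ * N₀ :=
        mul_le_mul_of_nonneg_left (by linarith) (by linarith)
      linarith
    exact_mod_cast h2
  choose i₁ i₂ hi12 using fun y : {q // q ∈ P} → Fin (J + 1) =>
    exists_sm2 (by rw [hcι]; omega : 2 ≤ Fintype.card {q // q ∈ P}) y
  have hform := form hW hTTM hV hG μ hker hC1 (hky J) i₁ i₂ hi12 F u hsub hu G hGc hGb
  rw [← hS] at hform
  set V : ℝ := ‖∫ t in (0 : ℝ)..1, ∫ x, conj (G t x) *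
      uw (fun i => wG (a i)) (fun l => -D.Q l) F u t x ∂μ‖ with hVdef
  have hV0 : 0 ≤ V := norm_nonneg _
  rcases hS0.eq_or_lt with hS1 | hS1
  · rw [← hS1, zero_mul] at hform
    have h1 : V = 0 := pow_eq_zero_iff (two_ne_zero) |>.1 (le_antisymm hform (sq_nonneg _))
    rw [h1] at hℓ2
    have h2 : m ≤ 0 := by
      by_contra h3
      push Not at h3
      have := mul_pos hℓ h3
      linarith
    have h3 : m = 0 := le_antisymm h2 hm0
    rw [h3, zero_mul]
    positivity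
  have hsS : 0 < √S := Real.sqrt_pos.2 hS1
  -- the exponents
  have hexp1 : (((2 : ℕ) : ℝ) + D.e) / 2 - κ = n + 1 - κ := by
    rw [he]
    push_cast
    ring
  have hexp2 : p * (((2 : ℕ) : ℝ) + D.e) / 2 - (((2 : ℕ) : ℝ) + D.e + 2) = E := by
    rw [he, hE]
    push_cast
    ring
  rw [hexp1] at hℓ1
  rw [hexp2]
  have hN0 : 0 < N₀ := by linarith
  have hT := htoi J i₁ i₂ hi12 (fun t => ∫ x, ‖G t x‖ ∂μ) (ℓ / √S) (cont_e μ hGc)
    (fun t => integral_nonneg fun _ => norm_nonneg _) (fun t => ?_) ?_ ?_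
  · -- conclusion
    have h1 : m * (ℓ / √S) ^ p ≤ C' * ((2 : ℝ) ^ J) ^ E := hT
    have h2 : (√S) ^ p = S ^ (p / 2) := by
      rw [Real.sqrt_eq_rpow, ← Real.rpow_mul hS0]
      congr 1
      ring
    rw [Real.div_rpow hℓ.le hsS.le, h2, ← mul_div_assoc, div_le_iff₀ (Real.rpow_pos_of_pos hS1 _)]
      at h1
    refine h1.trans ?_
    refine mul_le_mul_of_nonneg_right ?_ (Real.rpow_nonneg hS0 _)
    rw [mul_assoc, ← Real.mul_rpow hK0.le hN0.le]
    exact mul_le_mul_of_nonneg_left (Real.rpow_le_rpow (by positivity) hJ2 hE0) hC'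
  · -- `e ≤ 1`
    have h1 : ∫ x, ‖G t x‖ ∂μ ≤ ∫ _x : H, (1 : ℝ) ∂μ := by
      refine integral_mono_of_nonneg (Eventually.of_forall fun _ => norm_nonneg _)
        (integrable_const _) (Eventually.of_forall fun x => hGb t x)
    simpa using h1
  · -- the level
    have h1 : ((2 : ℝ) ^ J) ^ (n + 1 - κ') ≤ ((2 : ℝ) ^ J) ^ (n + 1 - κ) :=
      Real.rpow_le_rpow_of_exponent_le hJ1 (by linarith)
    have h2 : ((2 : ℝ) ^ J) ^ (n + 1 - κ) ≤ (2 * K₀ * N₀) ^ (n + 1 - κ) :=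
      Real.rpow_le_rpow (by positivity) hJ2 (by linarith)
    rw [Real.mul_rpow hK0.le hN0.le] at h2
    have h3 : (2 * (K₀ : ℝ)) ^ (n + 1 - κ) ≤ (2 * (K₀ : ℝ)) ^ (n + 1) :=
      Real.rpow_le_rpow_of_exponent_le (by linarith) (by linarith)
    have h4 : α * (2 * (K₀ : ℝ)) ^ (n + 1) = 1 := by
      rw [hα, ← Real.rpow_add hK0]
      norm_num
    have h5 : 0 ≤ N₀ ^ (n + 1 - κ) := Real.rpow_nonneg hN0.le _
    rw [le_div_iff₀ hsS]
    refine le_trans (mul_le_mul_of_nonneg_right ?_ hsS.le) hℓ1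
    calc α * ((2 : ℝ) ^ J) ^ (n + 1 - κ')
        ≤ α * ((2 * (K₀ : ℝ)) ^ (n + 1) * N₀ ^ (n + 1 - κ)) := by
          refine mul_le_mul_of_nonneg_left ?_ hα0.le
          exact (h1.trans h2).trans (mul_le_mul_of_nonneg_right h3 h5)
      _ = N₀ ^ (n + 1 - κ) := by rw [← mul_assoc, h4, one_mul]
  · -- the bilinear form
    have h1 : (ℓ * m) ^ 2 ≤ V ^ 2 := pow_le_pow_left₀ (mul_nonneg hℓ.le hm0) hℓ2 2
    have h2 := h1.trans hform
    have h3 : (ℓ / √S * m) ^ 2 = (ℓ * m) ^ 2 / S := by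
      rw [div_mul_eq_mul_div, div_pow, Real.sq_sqrt hS0]
    change (ℓ / √S * m) ^ 2 ≤ _
    rw [h3, div_le_iff₀ hS1]
    exact h2.trans (le_of_eq (mul_comm _ _))

end TPL

theorem t_TPL : M_TPL := fun h1 h2 h3 h4 h5 => TPL.main h1 h2 h3 h4 h5

end

end STZ3
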