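import Pool.Agent.LGR.ASM
import Pool.Agent.STZ.TORB
import Pool.Agent.STZ.SCH
import Pool.Agent.STZ3.CR3
import Pool.Agent.STZ3.NXS
import Pool.Agent.STZ3.PRM
import Pool.Agent.STZ3.LMB
import Pool.Agent.STZ3.TTB
import Pool.Agent.STZ3.CFA
import Pool.Agent.STZ3.RQN
import Pool.Agent.STZ3.BII
import Pool.Agent.STZ3.TRM
import Pool.Agent.STZ3.EXI
import Pool.Agent.STZ3.FRQ
import Pool.Agent.STZ3.CFB
import Pool.Agent.STZ3.KLO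
import Pool.Agent.STZ3.KOF
import Pool.Agent.STZ3.PSF
import Pool.Agent.STZ3.VCN
import Pool.Agent.STZ3.UNI
import Pool.Agent.STZ3.MOM
import Pool.Agent.STZ3.TAI
import Pool.Agent.STZ3.SYK
import Pool.Agent.STZ3.UNC
import Pool.Agent.STZ3.HMV
import Pool.Agent.STZ3.TRI
import Pool.Agent.STZ3.TRF
import Pool.Agent.STZ3.IDM
import Pool.Agent.STZ3.BRP
import Pool.Agent.STZ3.NRP
import Pool.Agent.STZ3.PLA
import Pool.Agent.STZ3.DCP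
import Pool.Agent.STZ3.OFD
import Pool.Agent.STZ3.CLL
import Pool.Agent.STZ3.L4E
import Pool.Agent.STZ3.L4D
import Pool.Agent.STZ3.K4B
import Pool.Agent.STZ3.KHO
import Pool.Agent.STZ3.HKS
import Pool.Agent.STZ3.HMF
import Pool.Agent.STZ3.HKM
import Pool.Agent.STZ3.MTK
import Pool.Agent.STZ3.DET
import Pool.Agent.STZ3.HKT
import Pool.Agent.STZ3.AVG
import Pool.Agent.STZ3.WIF
import Pool.Agent.STZ3.BOH
import Pool.Agent.STZ3.VOL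
import Pool.Agent.STZ3.EBD
import Pool.Agent.STZ3.SBD
import Pool.Agent.STZ3.JBD
import Pool.Agent.STZ3.JSB
import Pool.Agent.STZ3.HRM
import Pool.Agent.STZ3.DNR
import Pool.Agent.STZ3.ANT
import Pool.Agent.STZ3.LWB
import Pool.Agent.STZ3.TRB
import Pool.Agent.STZ3.L2W
import Pool.Agent.STZ3.L2N
import Pool.Agent.STZ3.LEA
import Pool.Agent.STZ3.LEC
import Pool.Agent.STZ3.LAF
import Pool.Agent.STZ3.LEB
import Pool.Agent.STZ3.LED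
import Pool.Agent.STZ3.AMA
import Pool.Agent.STZ3.AMB
import Pool.Agent.STZ3.CVR
import Pool.Agent.STZ3.SET
import Pool.Agent.STZ3.DGB
import Pool.Agent.STZ3.IPR
import Pool.Agent.STZ3.FAR
import Pool.Agent.STZ3.NUM
import Pool.Agent.STZ3.BXB
import Pool.Agent.STZ3.LWL
import Pool.Agent.STZ3.QNS
import Pool.Agent.STZ3.ATW
import Pool.Agent.STZ3.RGM
import Pool.Agent.STZ3.LMC
import Pool.Agent.STZ3.FPX
import Pool.Agent.STZ3.SLA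
import Pool.Agent.STZ3.STR
import Pool.Agent.STZ3.HMC
import Pool.Agent.STZ3.TRL
import Pool.Agent.STZ3.TRC
import Pool.Agent.STZ3.IDA
import Pool.Agent.STZ3.BRA
import Pool.Agent.STZ3.BRC
import Pool.Agent.STZ3.NRC
import Pool.Agent.STZ3.SMK
import Pool.Agent.STZ3.LAN
import Pool.Agent.STZ3.SMJ
import Pool.Agent.STZ3.KOC
import Pool.Agent.STZ3.THG
import Pool.Agent.STZ3.PO1
import Pool.Agent.STZ3.POS
import Pool.Agent.STZ3.TLE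
import Pool.Agent.STZ3.KEY
import Pool.Agent.STZ3.GTI
import Pool.Agent.STZ3.JBC
import Pool.Agent.STZ3.JSC
import Pool.Agent.STZ3.GLH
import Pool.Agent.STZ3.GLB
import Pool.Agent.STZ3.L2A
import Pool.Agent.STZ3.L2C
import Pool.Agent.STZ3.LAC
import Pool.Agent.STZ3.ESD
import Pool.Agent.STZ3.AMC
import Pool.Agent.STZ3.SUI
import Pool.Agent.STZ3.STS
import Pool.Agent.STZ3.ABC
import Pool.Agent.STZ3.SEC
import Pool.Agent.STZ3.DGC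
import Pool.Agent.STZ3.IPC
import Pool.Agent.STZ3.NUC
import Pool.Agent.STZ3.BXC
import Pool.Agent.STZ3.LWC
import Pool.Agent.STZ3.TTM
import Pool.Agent.STZ3.LCB
import Pool.Agent.STZ3.ENT
import Pool.Agent.STZ3.SPE
import Pool.Agent.STZ3.CNT
import Pool.Agent.STZ3.CEL
import Pool.Agent.STZ3.XIN
import Pool.Agent.STZ3.WSG
import Pool.Agent.STZ3.GTA
import Pool.Agent.STZ3.PTW
import Pool.Agent.STZ3.TOJ
import Pool.Agent.STZ3.TOI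
import Pool.Agent.STZ3.TPL
import Pool.Agent.STZ3.MXU
import Pool.Agent.STZ3.LEW
import Pool.Agent.STZ3.LOT
import Pool.Agent.STZ3.ALA
import Pool.Agent.STZ3.STU
import Pool.Agent.STZ3.MFC

/-!
# The groups of rank two: the assembly
-/

namespace STZ3

open STZ LGR

namespace Asm2

theorem v_CR3 : S_CR3 := t_CR3

theorem v_NXS : S_NXS := t_NXS LGR.ASM.rvof

theorem v_PRM : S_PRM := t_PRM

theorem v_LMB : S_LMB := t_LMB v_PRM v_NXS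

theorem v_TTB : S_TTB := t_TTB LGR.ASM.kb

theorem v_CFA : S_CFA := t_CFA

theorem v_RQN : S_RQN := t_RQN LGR.ASM.quad

theorem v_BII : S_BII := t_BII LGR.ASM.kb LGR.ASM.keri LGR.ASM.wfac LGR.ASM.chif v_RQN

theorem v_TRM : S_TRM := t_TRM

theorem v_EXI : S_EXI := t_EXI LGR.ASM.lieb LGR.ASM.tenh LGR.ASM.pffx LGR.ASM.decp LGR.ASM.drep v_TRM

theorem v_FRQ : S_FRQ := t_FRQ

theorem v_CFB : S_CFB := t_CFB

theorem v_KLO : S_KLO := t_KLO LGR.ASM.cauc v_NXS v_CFB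

theorem v_KOF : S_KOF := t_KOF LGR.ASM.quad v_PRM v_LMB v_KLO

theorem v_PSF : S_PSF := t_PSF LGR.ASM.lieb LGR.ASM.wfac LGR.ASM.tauf

theorem v_VCN : S_VCN := t_VCN LGR.ASM.haar v_PSF

theorem v_UNI : S_UNI := t_UNI LGR.ASM.tenh LGR.ASM.pffx LGR.ASM.decp

theorem v_MOM : S_MOM := t_MOM LGR.ASM.lieb LGR.ASM.calh LGR.ASM.tenh LGR.ASM.pffx LGR.ASM.decp LGR.ASM.drep v_UNI v_EXI

theorem v_TAI : S_TAI := t_TAI LGR.ASM.lieb LGR.ASM.wfac LGR.ASM.tauf v_MOM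

theorem v_SYK : S_SYK := t_SYK LGR.ASM.drep v_UNI

theorem v_UNC : S_UNC := t_UNC LGR.ASM.tenh LGR.ASM.pffx LGR.ASM.decp

theorem v_HMV : S_HMV := t_HMV LGR.ASM.lieb LGR.ASM.wfac LGR.ASM.quad LGR.ASM.tauf LGR.ASM.drep LGR.ASM.adfr

theorem v_TRI : S_TRI := t_TRI LGR.ASM.tauf LGR.ASM.tpol

theorem v_TRF : S_TRF := t_TRF LGR.ASM.wfac LGR.ASM.quad LGR.ASM.rvof v_TRI

theorem v_IDM : S_IDM := t_IDM LGR.ASM.schur LGR.ASM.wfac LGR.ASM.cham LGR.ASM.tauf LGR.ASM.conj LGR.ASM.denv LGR.ASM.rvof LGR.ASM.atfv LGR.ASM.tpol LGR.ASM.pffx LGR.ASM.drep LGR.ASM.casr LGR.ASM.tres LGR.ASM.norr v_UNC v_HMV v_TRF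

theorem v_BRP : S_BRP := t_BRP LGR.ASM.haar LGR.ASM.lieb LGR.ASM.tauf v_SYK v_IDM

theorem v_NRP : S_NRP := t_NRP v_PRM v_LMB v_TAI v_BRP v_VCN

theorem v_PLA : S_PLA := t_PLA LGR.ASM.haar v_PSF LGR.ASM.tpol

theorem v_DCP : S_DCP := t_DCP v_PSF v_VCN v_PLA

theorem v_OFD : S_OFD := t_OFD v_PSF v_VCN v_PLA

theorem v_CLL : S_CLL := t_CLL LGR.ASM.haar v_PSF

theorem v_L4E : S_L4E := t_L4E LGR.ASM.quad LGR.ASM.tpol v_RQN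

theorem v_L4D : S_L4D := t_L4D v_L4E

theorem v_K4B : S_K4B := t_K4B v_L4D

theorem v_KHO : S_KHO := t_KHO LGR.ASM.haar v_PSF v_K4B

theorem v_HKS : S_HKS := t_HKS LGR.ASM.lieb LGR.ASM.wfac LGR.ASM.quad LGR.ASM.tauf LGR.ASM.adfr

theorem v_HMF : S_HMF := t_HMF LGR.ASM.drep

theorem v_HKM : S_HKM := t_HKM LGR.ASM.haar LGR.ASM.schur LGR.ASM.lieb LGR.ASM.wfac LGR.ASM.cham LGR.ASM.tauf LGR.ASM.conj LGR.ASM.denv LGR.ASM.rvof LGR.ASM.atfv LGR.ASM.pffx LGR.ASM.drep LGR.ASM.casr LGR.ASM.tres LGR.ASM.norr v_UNC v_EXI v_HMF v_HKS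

theorem v_MTK : S_MTK := t_MTK LGR.ASM.lieb LGR.ASM.wfac LGR.ASM.tauf LGR.ASM.tpol LGR.ASM.pffx LGR.ASM.tres LGR.ASM.norr v_UNC v_HMV v_HMF

theorem v_DET : S_DET := t_DET LGR.ASM.lieb LGR.ASM.wfac LGR.ASM.tauf LGR.ASM.adfr v_PSF

theorem v_HKT : S_HKT := t_HKT LGR.ASM.haar LGR.ASM.kb LGR.ASM.keri LGR.ASM.lieb LGR.ASM.tauf LGR.ASM.chif v_TAI v_EXI v_HMF v_HKS v_HKM

theorem v_AVG : S_AVG := t_AVG LGR.ASM.deno

theorem v_WIF : S_WIF := t_WIF LGR.ASM.haar LGR.ASM.char LGR.ASM.wfac LGR.ASM.cham LGR.ASM.rvof LGR.ASM.atfv LGR.ASM.denv LGR.ASM.tauf LGR.ASM.conj LGR.ASM.tpol LGR.ASM.pffx LGR.ASM.norr LGR.ASM.denc v_PSF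

theorem v_BOH : S_BOH := t_BOH STZ.t_TORB

theorem v_VOL : S_VOL := t_VOL LGR.ASM.lieb LGR.ASM.wfac LGR.ASM.deno LGR.ASM.tauf LGR.ASM.adfr v_PSF v_WIF v_BOH

theorem v_EBD : S_EBD := t_EBD LGR.ASM.haar LGR.ASM.wfac v_AVG v_PSF v_WIF v_VOL

theorem v_SBD : S_SBD := t_SBD LGR.ASM.tauf LGR.ASM.conj v_PSF v_HKS v_HKT v_EBD

theorem v_JBD : S_JBD := t_JBD LGR.ASM.haar LGR.ASM.lieb LGR.ASM.gxoc v_PSF v_EXI v_SYK v_HKS v_HKM v_MTK v_DET v_SBD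

theorem v_JSB : S_JSB := t_JSB LGR.ASM.haar v_PSF v_JBD v_VCN

theorem v_HRM : S_HRM := t_HRM LGR.ASM.rhof LGR.ASM.gens LGR.ASM.quad LGR.ASM.rvof

theorem v_DNR : S_DNR := t_DNR LGR.ASM.rhof LGR.ASM.deno LGR.ASM.tpol

theorem v_ANT : S_ANT := t_ANT LGR.ASM.quad

theorem v_LWB : S_LWB := t_LWB LGR.ASM.quad v_HRM v_DNR v_ANT

theorem v_TRB : S_TRB := t_TRB LGR.ASM.wfac v_TRF v_LWB

theorem v_L2W : S_L2W := t_L2W LGR.ASM.schur LGR.ASM.tenh LGR.ASM.wfac LGR.ASM.tauf LGR.ASM.pffx LGR.ASM.decp LGR.ASM.tres LGR.ASM.norr v_HMV v_TRB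

theorem v_L2N : S_L2N := t_L2N v_PSF v_TAI v_L2W v_VCN

theorem v_LEA : S_LEA := t_LEA

theorem v_LEC : S_LEC := t_LEC LGR.ASM.deno LGR.ASM.tpol

theorem v_LAF : S_LAF := t_LAF v_LEA v_LEC

theorem v_LEB : S_LEB := t_LEB

theorem v_LED : S_LED := t_LED LGR.ASM.quad

theorem v_AMA : S_AMA := t_AMA v_PRM v_LEB v_LED

theorem v_AMB : S_AMB := t_AMB v_PRM

theorem v_CVR : S_CVR := t_CVR

theorem v_SET : S_SET := t_SET v_PRM v_CVR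

theorem v_DGB : S_DGB := t_DGB LGR.ASM.wfac v_PSF v_PRM v_LMB v_KOF v_VCN v_CLL v_KHO v_JSB v_L2N v_LAF v_AMA v_AMB v_SET

theorem v_IPR : S_IPR := t_IPR LGR.ASM.lieb LGR.ASM.wfac LGR.ASM.tauf v_PRM v_LMB v_EXI v_FRQ v_KOF v_VCN v_NRP v_DCP v_OFD v_DGB

theorem v_FAR : S_FAR := t_FAR LGR.ASM.quad

theorem v_NUM : S_NUM := t_NUM v_PRM v_FAR

theorem v_BXB : S_BXB := t_BXB LGR.ASM.wfac v_CFA v_PRM v_BII v_IPR v_NUM

theorem v_LWL : S_LWL := t_LWL LGR.ASM.wfac LGR.ASM.keri LGR.ASM.chif v_NXS v_PRM v_LMB v_TTB v_BXB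

theorem v_QNS : S_QNS := t_QNS LGR.ASM.rvof

theorem v_ATW : S_ATW := t_ATW

theorem v_RGM : S_RGM := t_RGM v_PRM

theorem v_LMC : S_LMC := t_LMC LGR.ASM.quad v_PRM v_NXS

theorem v_FPX : S_FPX := t_FPX v_FRQ v_PRM v_RGM

theorem v_SLA : S_SLA := t_SLA

theorem v_STR : S_STR := t_STR LGR.ASM.lieb LGR.ASM.wfac LGR.ASM.quad LGR.ASM.tauf LGR.ASM.drep v_SLA

theorem v_HMC : S_HMC := t_HMC LGR.ASM.lieb LGR.ASM.wfac LGR.ASM.quad LGR.ASM.tauf LGR.ASM.drep LGR.ASM.adfr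

theorem v_TRL : S_TRL := t_TRL LGR.ASM.wfac LGR.ASM.deno LGR.ASM.tpol v_TRI

theorem v_TRC : S_TRC := t_TRC LGR.ASM.wfac LGR.ASM.quad LGR.ASM.rvof v_TRL

theorem v_IDA : S_IDA := t_IDA LGR.ASM.schur LGR.ASM.wfac LGR.ASM.cham LGR.ASM.tauf LGR.ASM.conj LGR.ASM.denv LGR.ASM.rvof LGR.ASM.atfv LGR.ASM.tpol LGR.ASM.pffx LGR.ASM.drep LGR.ASM.casr LGR.ASM.tres LGR.ASM.norr v_UNC

theorem v_BRA : S_BRA := t_BRA LGR.ASM.haar LGR.ASM.lieb LGR.ASM.tauf v_IDA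

theorem v_BRC : S_BRC := t_BRC LGR.ASM.lieb LGR.ASM.wfac LGR.ASM.tauf v_SYK v_STR v_HMC v_TRC v_BRA

theorem v_NRC : S_NRC := t_NRC LGR.ASM.wfac v_PRM v_RGM v_BRC

theorem v_SMK : S_SMK := t_SMK v_PSF v_VCN v_PLA

theorem v_LAN : S_LAN := t_LAN v_RGM

theorem v_SMJ : S_SMJ := t_SMJ v_LMC v_LAN

theorem v_KOC : S_KOC := t_KOC LGR.ASM.quad v_PRM v_RGM v_LMC v_KLO

theorem v_THG : S_THG := t_THG LGR.ASM.quad

theorem v_PO1 : S_PO1 := t_PO1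

theorem v_POS : S_POS := t_POS LGR.ASM.quad v_PO1

theorem v_TLE : S_TLE := t_TLE v_THG

theorem v_KEY : S_KEY := t_KEY v_THG v_POS v_TLE

theorem v_GTI : S_GTI := t_GTI LGR.ASM.lieb LGR.ASM.wfac LGR.ASM.quad LGR.ASM.tauf LGR.ASM.pffx LGR.ASM.denc LGR.ASM.norr v_HMF v_STR v_HMC v_THG

theorem v_JBC : S_JBC := t_JBC LGR.ASM.haar LGR.ASM.lieb LGR.ASM.wfac LGR.ASM.deno LGR.ASM.tauf LGR.ASM.gxoc v_UNI v_EXI v_SYK v_HMF v_HRM v_HKS v_HKM v_PSF v_WIF v_THG v_KEY v_GTI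

theorem v_JSC : S_JSC := t_JSC LGR.ASM.haar v_PSF v_JBC v_VCN

theorem v_GLH : S_GLH := t_GLH LGR.ASM.rhof LGR.ASM.quad v_HRM v_ANT

theorem v_GLB : S_GLB := t_GLB LGR.ASM.wfac LGR.ASM.quad LGR.ASM.rvof v_TRL v_GLH

theorem v_L2A : S_L2A := t_L2A LGR.ASM.schur LGR.ASM.tenh LGR.ASM.wfac LGR.ASM.tauf LGR.ASM.pffx LGR.ASM.decp LGR.ASM.tres LGR.ASM.norr

theorem v_L2C : S_L2C := t_L2C LGR.ASM.wfac LGR.ASM.quad v_STR v_HMC v_GLB v_L2A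

theorem v_LAC : S_LAC := t_LAC v_LEA

theorem v_ESD : S_ESD := t_ESD LGR.ASM.quad v_PRM

theorem v_AMC : S_AMC := t_AMC v_PRM v_RGM v_LEB v_ESD

theorem v_SUI : S_SUI := t_SUI

theorem v_STS : S_STS := t_STS LGR.ASM.quad v_PRM v_RGM v_SUI

theorem v_ABC : S_ABC := t_ABC v_PRM v_RGM

theorem v_SEC : S_SEC := t_SEC v_PRM v_RGM v_CVR

theorem v_DGC : S_DGC := t_DGC LGR.ASM.wfac v_PSF v_PRM v_RGM v_LMC v_KOC v_VCN v_CLL v_KHO v_JSC v_L2C v_LAC v_AMC v_STS v_ABC v_SEC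

theorem v_IPC : S_IPC := t_IPC LGR.ASM.lieb LGR.ASM.wfac LGR.ASM.tauf v_PSF v_PRM v_RGM v_LMC v_EXI v_FPX v_VCN v_NRC v_DCP v_OFD v_SMK v_SMJ v_DGC

theorem v_NUC : S_NUC := t_NUC v_PRM v_RGM

theorem v_BXC : S_BXC := t_BXC LGR.ASM.wfac v_CFA v_PRM v_BII v_IPR v_ATW v_IPC v_NUC

theorem v_LWC : S_LWC := t_LWC LGR.ASM.wfac LGR.ASM.keri LGR.ASM.chif v_NXS v_PRM v_LMB v_TTB v_QNS v_ATW v_BXC

theorem v_TTM : S_TTM := t_TTM LGR.ASM.kb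

theorem v_LCB : S_LCB := t_LCB

theorem v_ENT : S_ENT := t_ENT v_LCB

theorem v_SPE : S_SPE := t_SPE

theorem v_CNT : S_CNT := t_CNT v_ENT v_SPE

theorem v_CEL : S_CEL := t_CEL v_CNT

theorem v_XIN : S_XIN := t_XIN

theorem v_WSG : S_WSG := t_WSG

theorem v_GTA : S_GTA := t_GTA v_WSG

theorem v_PTW : S_PTW := t_PTW LGR.ASM.wwf v_GTA

theorem v_TOJ : S_TOJ := t_TOJ LGR.ASM.wwf v_CEL v_XIN v_PTW

theorem v_TOI : S_TOI := t_TOI LGR.ASM.wwf v_TOJ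

theorem v_TPL : S_TPL := t_TPL LGR.ASM.wwf LGR.ASM.keri LGR.ASM.kwfg v_TTM v_TOI

theorem v_MXU : S_MXU := t_MXU LGR.ASM.kb LGR.ASM.bern LGR.ASM.keri

theorem v_LEW : S_LEW := t_LEW

theorem v_LOT : S_LOT := t_LOT v_LEW

theorem v_ALA : S_ALA := t_ALA LGR.ASM.nq STZ.t_SCH

theorem v_STU : S_STU := t_STU LGR.ASM.nq LGR.ASM.kb LGR.ASM.haar LGR.ASM.keri LGR.ASM.eigw v_ALA

theorem v_MFC : MainUpRankTwo :=
  t_MFC LGR.ASM.wfac LGR.ASM.rvof LGR.ASM.lrdx LGR.ASM.kfrm LGR.ASM.form LGR.ASM.gxoc v_CR3 v_LWL v_LWC v_TPL v_MXU v_LOT v_STU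

end Asm2

/-- Upper bound for all compact connected groups of rank two with simple Lie algebra. -/
theorem main_up_rank_two : MainUpRankTwo := Asm2.v_MFC


end STZ3
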