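import Pool.Agent.STZ3.StS

/-!
# Module KLO: the kernel of one tuple, its localisation (7.3)
-/

namespace STZ3

open STZ LGR MeasureTheory Matrix Filter

open scoped ComplexConjugate Matrix Real Topology

noncomputable section

namespace KLO

/-- the exponential -/
def exq {r : ℕ} (ζ : Fin r → ℂ) (ν : Fin r → ℤ) : ℂ :=
  Complex.exp (2 * π * Complex.I * ∑ i, (ν i : ℂ) * ζ i)

theorem exq_add {r : ℕ} (ζ : Fin r → ℂ) (a b : Fin r → ℤ) : exq ζ (a + b) = exq ζ a * exq ζ b := by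
  unfold exq
  rw [← Complex.exp_add, ← mul_add, ← Finset.sum_add_distrib]
  congr 2
  refine Finset.sum_congr rfl fun i _ => ?_
  rw [Pi.add_apply]
  push_cast
  ring

theorem rs_apply {r : ℕ} (P : RT r) (k : {p // p ∈ P} → ℤ) (i : Fin r) :
    rs P k i = ∑ p, k p * p.1.1 i := by
  unfold rs
  rw [Finset.sum_apply]
  rfl

theorem prod_eq {m : ℕ} {C : ℝ} (hC : CFF m C) {r : ℕ} (Φ : RT r) (J : ℕ) (x : {p // p ∈ pos Φ} → Fin (J + 1))
    (ζ : Fin r → ℂ) :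
    ∏ p, fx m J (x p).val (∑ i, (p.1.1 i : ℂ) * ζ i) =
      ∑ k ∈ kB Φ (2 * m ^ 2 * 2 ^ J), (∏ p, cf m J (x p).val (k p)) * exq ζ (rs (pos Φ) k) := by
  have h1 : ∀ p : {p // p ∈ pos Φ}, fx m J (x p).val (∑ i, (p.1.1 i : ℂ) * ζ i) =
      ∑ k ∈ Finset.Icc (-((2 * m ^ 2 * 2 ^ J : ℕ) : ℤ)) ((2 * m ^ 2 * 2 ^ J : ℕ) : ℤ), cf m J (x p).val k *
        Complex.exp (2 * π * Complex.I * k * ∑ i, (p.1.1 i : ℂ) * ζ i) := fun p =>
    (hC.ex J (x p).val (2 * m ^ 2 * 2 ^ J) _ (Nat.lt_succ_iff.1 (x p).2)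
      (Nat.mul_le_mul_left _ (Nat.pow_le_pow_right (by norm_num) (Nat.lt_succ_iff.1 (x p).2)))).symm
  rw [Finset.prod_congr rfl fun p _ => h1 p, Finset.prod_univ_sum]
  unfold kB
  refine Finset.sum_congr rfl fun k _ => ?_
  rw [Finset.prod_mul_distrib, ← Complex.exp_sum]
  congr 1
  unfold exq
  congr 1
  have h3 : ∀ p : {p // p ∈ pos Φ}, 2 * (π : ℂ) * Complex.I * (k p : ℂ) * ∑ i, (p.1.1 i : ℂ) * ζ i =
      2 * (π : ℂ) * Complex.I * ((k p : ℂ) * ∑ i, (p.1.1 i : ℂ) * ζ i) := fun p => by ring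
  rw [Finset.sum_congr rfl fun p _ => h3 p, ← Finset.mul_sum]
  congr 1
  have h2 : ∀ p : {p // p ∈ pos Φ}, (k p : ℂ) * ∑ i, (p.1.1 i : ℂ) * ζ i =
      ∑ i, (k p : ℂ) * ((p.1.1 i : ℂ) * ζ i) := fun p => Finset.mul_sum _ _ _
  rw [Finset.sum_congr rfl fun p _ => h2 p, Finset.sum_comm]
  refine Finset.sum_congr rfl fun i _ => ?_
  rw [rs_apply]
  push_cast
  rw [Finset.sum_mul]
  refine Finset.sum_congr rfl fun p _ => ?_
  ring

theorem mem_cb {r K : ℕ} {ν : Fin r → ℤ} : ν ∈ cb r K ↔ ∀ i, |ν i| ≤ K := by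
  unfold cb
  simp only [Fintype.mem_piFinset, Finset.mem_Icc, abs_le]

/-- the exponential sum of the coefficients `nx` is a product -/
theorem ES_eq {r : ℕ} {Φ : RT r} {m : ℕ} {C₁ : ℝ} (hC : CFF m C₁) {C : ℕ} (hN : NXF Φ m C) (J : ℕ)
    {q : (Fin r → ℤ) → ℝ} (hq : QH Φ (2 ^ J) q) (x : {p // p ∈ pos Φ} → Fin (J + 1)) (t : ℝ) (ζ : Fin r → ℂ)
    (T : Finset (Fin r → ℤ)) (hT : ∀ ν, nx Φ m J q x t ν ≠ 0 → ν ∈ T) :
    ES T (nx Φ m J q x t) ζ =
      ES (cb r (2 ^ J)) (gt Φ q t) ζ * ∏ p, fx m J (x p).val (∑ i, (p.1.1 i : ℂ) * ζ i) := by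
  have hg : ∀ l, gt Φ q t l ≠ 0 → l ∈ cb r (2 ^ J) := by
    intro l hl
    by_contra h
    rw [mem_cb] at h
    push Not at h
    obtain ⟨i, hi⟩ := h
    exact hl (hN.gsupp (2 ^ J) q hq t l i hi)
  -- all the sums as finite sums over everything
  have e1 : ES T (nx Φ m J q x t) ζ = ∑ᶠ ν, nx Φ m J q x t ν * exq ζ ν := by
    rw [finsum_eq_sum_of_support_subset (s := T)]
    · rfl
    · intro ν hν
      rw [Function.mem_support] at hν
      exact hT ν (left_ne_zero_of_mul hν)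
  have e2 : ∀ s : Fin r → ℤ, (Function.support fun ν => gt Φ q t (ν - s) * exq ζ ν) ⊆
      ((cb r (2 ^ J)).map (addRightEmbedding s) : Finset (Fin r → ℤ)) := by
    intro s ν hν
    rw [Function.mem_support] at hν
    have h1 := hg _ (left_ne_zero_of_mul hν)
    rw [Finset.mem_coe, Finset.mem_map]
    exact ⟨ν - s, h1, by simp⟩
  have e3 : ∀ s : Fin r → ℤ, ∑ᶠ ν, gt Φ q t (ν - s) * exq ζ ν = ES (cb r (2 ^ J)) (gt Φ q t) ζ * exq ζ s := by
    intro s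
    rw [finsum_eq_sum_of_support_subset _ (e2 s), Finset.sum_map]
    have h0 : ES (cb r (2 ^ J)) (gt Φ q t) ζ = ∑ l ∈ cb r (2 ^ J), gt Φ q t l * exq ζ l := rfl
    rw [h0, Finset.sum_mul]
    refine Finset.sum_congr rfl fun l _ => ?_
    have h1 : addRightEmbedding s l = l + s := rfl
    rw [h1, add_sub_cancel_right, exq_add]
    ring
  rw [e1]
  have e4 : ∀ ν, nx Φ m J q x t ν * exq ζ ν = ∑ k ∈ kB Φ (2 * m ^ 2 * 2 ^ J),
      (∏ p, cf m J (x p).val (k p)) * (gt Φ q t (ν - rs (pos Φ) k) * exq ζ ν) := by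
    intro ν
    unfold nx
    rw [Finset.sum_mul]
    exact Finset.sum_congr rfl fun k _ => by ring
  rw [finsum_congr e4, finsum_sum_comm]
  · rw [prod_eq hC, Finset.mul_sum]
    refine Finset.sum_congr rfl fun k _ => ?_
    rw [← mul_finsum, e3]
    ring
  · intro k _
    refine ((Finset.finite_toSet _).subset (e2 (rs (pos Φ) k))).subset ?_
    intro ν hν
    rw [Function.mem_support] at hν ⊢
    exact right_ne_zero_of_mul hν

theorem norm_exq {r : ℕ} (ζ : Fin r → ℂ) (ν : Fin r → ℤ) :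
    ‖exq ζ ν‖ = Real.exp (-(2 * π * ∑ i, (ν i : ℝ) * (ζ i).im)) := by
  unfold exq
  rw [Complex.norm_exp]
  congr 1
  have h1 : (∑ i, (ν i : ℂ) * ζ i).im = ∑ i, (ν i : ℝ) * (ζ i).im := by
    rw [Complex.im_sum]
    refine Finset.sum_congr rfl fun i _ => ?_
    simp
  rw [← h1]
  simp [Complex.mul_re, Complex.mul_im]

/-- the bound of the theta function -/
theorem theta_le {r : ℕ} {Φ : RT r} {J : ℕ} {q : (Fin r → ℤ) → ℝ} (hq : QH Φ (2 ^ J) q) (t : ℝ) (ζ : Fin r → ℂ)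
    {κ : ℝ} (hκ : 0 ≤ κ) (him : ∀ i, |(ζ i).im| ≤ κ / 2 ^ J) :
    ‖ES (cb r (2 ^ J)) (gt Φ q t) ζ‖ ≤ 3 ^ r * Real.exp (2 * π * (r * κ)) * (2 ^ J) ^ r := by
  have h0 : ES (cb r (2 ^ J)) (gt Φ q t) ζ = ∑ l ∈ cb r (2 ^ J), gt Φ q t l * exq ζ l := rfl
  rw [h0]
  have h1 : ∀ l ∈ cb r (2 ^ J), ‖gt Φ q t l * exq ζ l‖ ≤ Real.exp (2 * π * (r * κ)) := by
    intro l hl
    rw [mem_cb] at hl
    have hg : ‖gt Φ q t l‖ ≤ 1 := by
      unfold gt eu
      rw [norm_mul]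
      have e1 : ‖Complex.exp (2 * (π : ℂ) * ((-(t * ((rd Φ).Q l : ℝ)) : ℝ) : ℂ) * Complex.I)‖ = 1 := by
        have := Complex.norm_exp_ofReal_mul_I (2 * π * (-(t * ((rd Φ).Q l : ℝ))))
        rw [← this]
        congr 2
        push_cast
        ring
      rw [e1, mul_one, Complex.norm_real, Real.norm_eq_abs, abs_of_nonneg (hq.nn l)]
      exact hq.le l
    rw [norm_mul, norm_exq]
    have e2 : Real.exp (-(2 * π * ∑ i, (l i : ℝ) * (ζ i).im)) ≤ Real.exp (2 * π * (r * κ)) := by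
      refine Real.exp_le_exp.2 ?_
      have e3 : -(∑ i, (l i : ℝ) * (ζ i).im) ≤ r * κ := by
        refine (neg_le_abs _).trans ((Finset.abs_sum_le_sum_abs _ _).trans ?_)
        have e4 : ∀ i ∈ (Finset.univ : Finset (Fin r)), |(l i : ℝ) * (ζ i).im| ≤ κ := by
          intro i _
          rw [abs_mul]
          have e5 : |(l i : ℝ)| ≤ 2 ^ J := by
            have := hl i
            have e6 : ((|l i| : ℤ) : ℝ) ≤ (((2 ^ J : ℕ) : ℤ) : ℝ) := by exact_mod_cast this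
            push_cast at e6
            exact e6
          calc |(l i : ℝ)| * |(ζ i).im| ≤ 2 ^ J * (κ / 2 ^ J) :=
                mul_le_mul e5 (him i) (abs_nonneg _) (by positivity)
            _ = κ := by field_simp
        refine (Finset.sum_le_sum e4).trans (le_of_eq ?_)
        rw [Finset.sum_const, Finset.card_univ, Fintype.card_fin, nsmul_eq_mul]
      have e7 : -(2 * π * ∑ i, (l i : ℝ) * (ζ i).im) = 2 * π * -(∑ i, (l i : ℝ) * (ζ i).im) := by ring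
      rw [e7]
      exact mul_le_mul_of_nonneg_left e3 (by positivity)
    calc ‖gt Φ q t l‖ * Real.exp (-(2 * π * ∑ i, (l i : ℝ) * (ζ i).im)) ≤ 1 * Real.exp (2 * π * (r * κ)) :=
          mul_le_mul hg e2 (Real.exp_pos _).le zero_le_one
      _ = _ := one_mul _
  refine (norm_sum_le _ _).trans ((Finset.sum_le_sum h1).trans ?_)
  rw [Finset.sum_const, nsmul_eq_mul]
  have h2 : ((cb r (2 ^ J)).card : ℝ) ≤ 3 ^ r * (2 ^ J) ^ r := by
    unfold cb
    rw [Fintype.card_piFinset_const, Int.card_Icc]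
    have e1 : (((2 ^ J : ℕ) : ℤ) + 1 - (-((2 ^ J : ℕ) : ℤ))).toNat = 2 * 2 ^ J + 1 := by
      push_cast
      have : ((2 : ℤ) ^ J + 1 - -2 ^ J) = ((2 * 2 ^ J + 1 : ℕ) : ℤ) := by push_cast; ring
      rw [this]
      exact Int.toNat_natCast _
    rw [e1]
    push_cast
    rw [← mul_pow]
    refine pow_le_pow_left₀ (by positivity) ?_ _
    have : (1 : ℝ) ≤ 2 ^ J := one_le_pow₀ (by norm_num)
    linarith
  calc ((cb r (2 ^ J)).card : ℝ) * Real.exp (2 * π * (r * κ)) ≤ 3 ^ r * (2 ^ J) ^ r * Real.exp (2 * π * (r * κ)) :=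
        mul_le_mul_of_nonneg_right h2 (Real.exp_pos _).le
    _ = _ := by ring

theorem nd_le_int (x : ℝ) (n : ℤ) : nd x ≤ |x - n| := round_le x n

theorem nd_add_le (x y : ℝ) : nd x ≤ nd y + |x - y| := by
  have h1 := nd_le_int x (round y)
  have h2 : |x - round y| ≤ |x - y| + |y - round y| := abs_sub_le _ _ _
  unfold nd at *
  linarith

theorem nd_nn (x : ℝ) : 0 ≤ nd x := abs_nonneg _

/-- the bounds for one factor -/
theorem factor {m : ℕ} {κ' C₄ : ℝ} (hκ' : 0 ≤ κ') (hC₄ : 0 ≤ C₄)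
    (hF : ∀ (J x : ℕ) (z : ℂ), x ≤ J → |z.im| ≤ κ' / 2 ^ J → ‖fx m J x z‖ * (1 + 2 ^ x * nd z.re) ^ (2 * m) ≤ C₄ ∧
      (x < J → ‖fx m J x z‖ ≤ C₄ * (2 ^ x * (nd z.re + 1 / 2 ^ J)) ^ (2 * m)))
    (J x : ℕ) (hx : x ≤ J) (z : ℂ) (y : ℝ) (h1 : |z.im| ≤ κ' / 2 ^ J) (h2 : |z.re - y| ≤ κ' / 2 ^ J) :
    ‖fx m J x z‖ ≤ C₄ ∧ ‖fx m J x z‖ ≤ C₄ * (1 + κ') ^ (2 * m) / (1 + 2 ^ x * nd y) ^ (2 * m) ∧
      (x < J → ‖fx m J x z‖ ≤ C₄ * (1 + κ') ^ (2 * m) * (2 ^ x * (nd y + 1 / 2 ^ J)) ^ (2 * m)) := by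
  obtain ⟨h3, h4⟩ := hF J x z hx h1
  have hp : (2 : ℝ) ^ x ≤ 2 ^ J := pow_le_pow_right₀ (by norm_num) hx
  have hx0 : (0 : ℝ) < 2 ^ x := by positivity
  have hJ0 : (0 : ℝ) < 2 ^ J := by positivity
  have n1 := nd_nn z.re
  have n2 := nd_nn y
  refine ⟨?_, ?_, ?_⟩
  · refine le_trans ?_ h3
    have : (1 : ℝ) ≤ (1 + 2 ^ x * nd z.re) ^ (2 * m) :=
      one_le_pow₀ (by linarith [mul_nonneg hx0.le n1])
    calc ‖fx m J x z‖ = ‖fx m J x z‖ * 1 := (mul_one _).symm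
      _ ≤ _ := mul_le_mul_of_nonneg_left this (norm_nonneg _)
  · have hpos : (0 : ℝ) < (1 + 2 ^ x * nd y) ^ (2 * m) := by positivity
    rw [le_div_iff₀ hpos]
    have e1 : 1 + 2 ^ x * nd y ≤ (1 + κ') * (1 + 2 ^ x * nd z.re) := by
      have h5 := nd_add_le y z.re
      rw [abs_sub_comm] at h5
      have h6 : (2 : ℝ) ^ x * nd y ≤ 2 ^ x * nd z.re + κ' := by
        calc (2 : ℝ) ^ x * nd y ≤ 2 ^ x * (nd z.re + κ' / 2 ^ J) :=
              mul_le_mul_of_nonneg_left (by linarith) hx0.le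
          _ = 2 ^ x * nd z.re + 2 ^ x * (κ' / 2 ^ J) := by ring
          _ ≤ 2 ^ x * nd z.re + 2 ^ J * (κ' / 2 ^ J) := by
              have : (2 : ℝ) ^ x * (κ' / 2 ^ J) ≤ 2 ^ J * (κ' / 2 ^ J) :=
                mul_le_mul_of_nonneg_right hp (by positivity)
              linarith
          _ = 2 ^ x * nd z.re + κ' := by
              congr 1
              field_simp
      have h7 : 0 ≤ κ' * (2 ^ x * nd z.re) := by positivity
      nlinarith
    calc ‖fx m J x z‖ * (1 + 2 ^ x * nd y) ^ (2 * m)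
        ≤ ‖fx m J x z‖ * ((1 + κ') * (1 + 2 ^ x * nd z.re)) ^ (2 * m) :=
          mul_le_mul_of_nonneg_left (pow_le_pow_left₀ (by positivity) e1 _) (norm_nonneg _)
      _ = ‖fx m J x z‖ * (1 + 2 ^ x * nd z.re) ^ (2 * m) * (1 + κ') ^ (2 * m) := by
          rw [mul_pow]; ring
      _ ≤ C₄ * (1 + κ') ^ (2 * m) := mul_le_mul_of_nonneg_right h3 (by positivity)
  · intro h
    refine (h4 h).trans ?_
    have h5 := nd_add_le z.re y
    have e1 : nd z.re + 1 / 2 ^ J ≤ (1 + κ') * (nd y + 1 / 2 ^ J) := by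
      have e2 : κ' / (2 : ℝ) ^ J = κ' * (1 / 2 ^ J) := by ring
      rw [e2] at h2
      have h7 : 0 ≤ κ' * nd y := by positivity
      nlinarith
    have e3 : (2 : ℝ) ^ x * (nd z.re + 1 / 2 ^ J) ≤ (1 + κ') * (2 ^ x * (nd y + 1 / 2 ^ J)) := by
      calc (2 : ℝ) ^ x * (nd z.re + 1 / 2 ^ J) ≤ 2 ^ x * ((1 + κ') * (nd y + 1 / 2 ^ J)) :=
            mul_le_mul_of_nonneg_left e1 hx0.le
        _ = _ := by ring
    calc C₄ * (2 ^ x * (nd z.re + 1 / 2 ^ J)) ^ (2 * m)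
        ≤ C₄ * ((1 + κ') * (2 ^ x * (nd y + 1 / 2 ^ J))) ^ (2 * m) :=
          mul_le_mul_of_nonneg_left (pow_le_pow_left₀ (by positivity) e3 _) hC₄
      _ = _ := by rw [mul_pow]; ring

theorem im_sum {r : ℕ} (a : Fin r → ℤ) (ζ : Fin r → ℂ) :
    (∑ i, (a i : ℂ) * ζ i).im = ∑ i, (a i : ℝ) * (ζ i).im := by
  rw [Complex.im_sum]
  refine Finset.sum_congr rfl fun i _ => ?_
  simp

theorem re_sum {r : ℕ} (a : Fin r → ℤ) (ζ : Fin r → ℂ) :
    (∑ i, (a i : ℂ) * ζ i).re = ∑ i, (a i : ℝ) * (ζ i).re := by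
  rw [Complex.re_sum]
  refine Finset.sum_congr rfl fun i _ => ?_
  simp

/-- the point of the exponential sum -/
def zt {r : ℕ} (θ y : Fin r → ℝ) (i : Fin r) : ℂ := (θ i : ℂ) - Complex.I * (y i : ℂ) / (2 * π)

theorem exq_zt {r : ℕ} (θ y : Fin r → ℝ) (ν : Fin r → ℤ) :
    exq (zt θ y) ν = (Real.exp (∑ i, (ν i : ℝ) * y i) : ℂ) * eu (dz ν θ) := by
  unfold exq zt eu dz
  rw [Complex.ofReal_exp, ← Complex.exp_add]
  congr 1
  push_cast
  rw [Finset.mul_sum, Finset.mul_sum, Finset.sum_mul, ← Finset.sum_add_distrib]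
  refine Finset.sum_congr rfl fun i _ => ?_
  have hpi : (π : ℂ) ≠ 0 := by exact_mod_cast Real.pi_ne_zero
  have hI : Complex.I ^ 2 = -1 := Complex.I_sq
  field_simp
  linear_combination (-(ν i : ℂ) * y i) * hI

end KLO

open KLO in
theorem t_KLO : M_KLO := by
  intro hcauc hnxs hcfb r Φ B hr hI hW m C₁ C₂ hm hC hC₂
  obtain ⟨Cn, hN⟩ := hnxs r Φ B hr hI hW m C₁ hm hC
  obtain ⟨Cc, hCc, h1⟩ := hcauc r (pos Φ)
  set κ₀ : ℝ := 1 + C₂ with hκ₀
  set S : ℝ := ∑ p ∈ pos Φ, ∑ i, |(p.1 i : ℝ)| with hS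
  have hS0 : 0 ≤ S := Finset.sum_nonneg fun p _ => Finset.sum_nonneg fun i _ => abs_nonneg _
  have hSp : ∀ p : {p // p ∈ pos Φ}, ∑ i, |(p.1.1 i : ℝ)| ≤ S := fun p =>
    Finset.single_le_sum (f := fun p : (Fin r → ℤ) × (Fin r → ℤ) => ∑ i, |(p.1 i : ℝ)|)
      (fun p _ => Finset.sum_nonneg fun i _ => abs_nonneg _) p.2
  set κ' : ℝ := S * κ₀ with hκ'
  have hκ'0 : 0 ≤ κ' := mul_nonneg hS0 (by linarith)
  obtain ⟨C₄, hC₄, h4⟩ := hcfb m κ' hm hκ'0
  set n := (pos Φ).card with hn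
  set Dn : ℝ := ∏ p ∈ pos Φ, ((p.2 ⬝ᵥ (1 : Fin r → ℤ) : ℤ) : ℝ) with hDn
  set Ct : ℝ := 3 ^ r * Real.exp (2 * π * (r * κ₀)) with hCt
  have hCt0 : 0 ≤ Ct := by positivity
  set C₆ : ℝ := Real.exp (r * C₂ ^ 2) * |1 / Dn| * Cc ^ n * Ct * (1 + C₄) ^ n with hC₆
  have hC₆0 : 0 ≤ C₆ := by positivity
  -- the main bound
  have main : ∀ (J : ℕ) (q : (Fin r → ℤ) → ℝ) (x : {p // p ∈ pos Φ} → Fin (J + 1)) (t : ℝ) (θ y : Fin r → ℝ)
      (κ : Fin r → ℤ) (T : Finset (Fin r → ℤ)), QH Φ (2 ^ J) q → (∀ i, |y i| ≤ C₂ / 2 ^ J) →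
      (∀ i, |(κ i : ℝ)| ≤ C₂) → (∀ l, nx Φ m J q x t (l + κ) ≠ 0 → l ∈ T) → ∀ p : {p // p ∈ pos Φ}, ∀ D : ℝ, 0 ≤ D →
      (∀ z : ℂ, |z.im| ≤ κ' / 2 ^ J → |z.re - dz p.1.1 θ| ≤ κ' / 2 ^ J → ‖fx m J (x p).val z‖ ≤ D) →
      ‖∑ l ∈ T, ((Real.exp (∑ i, (l i : ℝ) * y i) * dR Φ (l + κ) : ℝ) : ℂ) * nx Φ m J q x t (l + κ) * eu (dz l θ)‖ ≤
        C₆ * (2 : ℝ) ^ (J * (n + r)) * D := by
    intro J q x t θ y κ T hq hy hκ hT p D hD hfp
    have hJ1 : (1 : ℝ) ≤ 2 ^ J := one_le_pow₀ (by norm_num)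
    have hJ0 : (0 : ℝ) < 2 ^ J := by positivity
    have hT' : ∀ ν, nx Φ m J q x t ν ≠ 0 → ν ∈ T.map (addRightEmbedding κ) := by
      intro ν hν
      rw [Finset.mem_map]
      exact ⟨ν - κ, hT _ (by rwa [sub_add_cancel]), by simp⟩
    -- the bound in the polydisc
    have key := h1 (T.map (addRightEmbedding κ)) (nx Φ m J q x t) (zt θ y) (1 / 2 ^ J)
      (Ct * (2 ^ J) ^ r * ((1 + C₄) ^ n * D)) (by positivity) (by positivity) (by
        intro ζ hζ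
        have hζθ : ∀ i, ‖ζ i - θ i‖ ≤ κ₀ / 2 ^ J := by
          intro i
          have e1 : ζ i - θ i = (ζ i - zt θ y i) + (zt θ y i - θ i) := by ring
          rw [e1]
          have e2 : κ₀ / (2 : ℝ) ^ J = 1 / 2 ^ J + C₂ / 2 ^ J := by rw [hκ₀]; ring
          rw [e2]
          refine (norm_add_le _ _).trans (add_le_add (hζ i) ?_)
          have e3 : zt θ y i - θ i = -(Complex.I * (y i : ℂ) / (2 * π)) := by
            unfold zt
            ring
          rw [e3, norm_neg, norm_div, norm_mul, Complex.norm_I, one_mul, Complex.norm_real, Real.norm_eq_abs]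
          have e4 : ‖(2 * (π : ℂ))‖ = 2 * π := by
            rw [norm_mul, Complex.norm_real, Real.norm_eq_abs, abs_of_pos Real.pi_pos]
            norm_num
          rw [e4]
          refine le_trans ?_ (hy i)
          have : (1 : ℝ) ≤ 2 * π := by linarith [Real.pi_gt_three]
          exact div_le_self (abs_nonneg _) this
        have him : ∀ i, |(ζ i).im| ≤ κ₀ / 2 ^ J := by
          intro i
          have e1 : (ζ i - θ i).im = (ζ i).im := by simp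
          have e2 := Complex.abs_im_le_norm (ζ i - θ i)
          rw [e1] at e2
          exact e2.trans (hζθ i)
        have hre : ∀ i, |(ζ i).re - θ i| ≤ κ₀ / 2 ^ J := by
          intro i
          have e1 : (ζ i - θ i).re = (ζ i).re - θ i := by simp
          have e2 := Complex.abs_re_le_norm (ζ i - θ i)
          rw [e1] at e2
          exact e2.trans (hζθ i)
        have hsum : ∀ (p : {p // p ∈ pos Φ}) (y : Fin r → ℝ), (∀ i, |y i| ≤ κ₀ / 2 ^ J) →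
            |∑ i, (p.1.1 i : ℝ) * y i| ≤ κ' / 2 ^ J := by
          intro p y hy
          refine (Finset.abs_sum_le_sum_abs _ _).trans ?_
          have e1 : ∑ i, |(p.1.1 i : ℝ) * y i| ≤ ∑ i, |(p.1.1 i : ℝ)| * (κ₀ / 2 ^ J) := by
            refine Finset.sum_le_sum fun i _ => ?_
            rw [abs_mul]
            exact mul_le_mul_of_nonneg_left (hy i) (abs_nonneg _)
          rw [← Finset.sum_mul] at e1
          have e0 : 0 ≤ κ₀ / (2 : ℝ) ^ J := by rw [hκ₀]; positivity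
          refine e1.trans ((mul_le_mul_of_nonneg_right (hSp p) e0).trans (le_of_eq ?_))
          rw [hκ']
          ring
        have hzi : ∀ p : {p // p ∈ pos Φ}, |(∑ i, (p.1.1 i : ℂ) * ζ i).im| ≤ κ' / 2 ^ J := by
          intro p
          rw [im_sum]
          exact hsum p _ him
        have hzr : ∀ p : {p // p ∈ pos Φ}, |(∑ i, (p.1.1 i : ℂ) * ζ i).re - dz p.1.1 θ| ≤ κ' / 2 ^ J := by
          intro p
          rw [re_sum]
          have e1 : ∑ i, (p.1.1 i : ℝ) * (ζ i).re - dz p.1.1 θ = ∑ i, (p.1.1 i : ℝ) * ((ζ i).re - θ i) := by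
            unfold dz
            rw [← Finset.sum_sub_distrib]
            exact Finset.sum_congr rfl fun i _ => by ring
          rw [e1]
          exact hsum p _ hre
        rw [ES_eq hC hN J hq x t ζ _ hT', norm_mul, norm_prod]
        refine mul_le_mul (theta_le hq t ζ (by rw [hκ₀]; positivity) him) ?_
          (Finset.prod_nonneg fun p _ => norm_nonneg _) (by positivity)
        rw [← Finset.mul_prod_erase Finset.univ _ (Finset.mem_univ p), mul_comm]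
        have hfac : ∀ p' ∈ (Finset.univ : Finset {p // p ∈ pos Φ}).erase p,
            ‖fx m J (x p').val (∑ i, (p'.1.1 i : ℂ) * ζ i)‖ ≤ 1 + C₄ := by
          intro p' _
          have := (factor hκ'0 hC₄ h4 J (x p').val (Nat.lt_succ_iff.1 (x p').2) _ _ (hzi p') (hzr p')).1
          linarith
        have hpr : ∏ p' ∈ (Finset.univ : Finset {p // p ∈ pos Φ}).erase p,
            ‖fx m J (x p').val (∑ i, (p'.1.1 i : ℂ) * ζ i)‖ ≤ (1 + C₄) ^ n := by
          refine (Finset.prod_le_prod (fun p _ => norm_nonneg _) hfac).trans ?_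
          rw [Finset.prod_const]
          refine pow_le_pow_right₀ (by linarith) ?_
          refine (Finset.card_erase_le).trans (le_of_eq ?_)
          rw [Finset.card_univ, Fintype.card_coe]
        exact mul_le_mul hpr (hfp _ (hzi p) (hzr p)) (norm_nonneg _) (by positivity))
    -- the left side
    have hleft : ∑ l ∈ T, ((Real.exp (∑ i, (l i : ℝ) * y i) * dR Φ (l + κ) : ℝ) : ℂ) * nx Φ m J q x t (l + κ) *
        eu (dz l θ) = ((Real.exp (-∑ i, (κ i : ℝ) * y i) : ℝ) : ℂ) * eu (-(dz κ θ)) * ((1 / Dn : ℝ) : ℂ) *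
          ES (T.map (addRightEmbedding κ))
            (fun ν => (∏ p ∈ pos Φ, ((p.2 ⬝ᵥ ν : ℤ) : ℂ)) * nx Φ m J q x t ν) (zt θ y) := by
      have h0 : ES (T.map (addRightEmbedding κ))
          (fun ν => (∏ p ∈ pos Φ, ((p.2 ⬝ᵥ ν : ℤ) : ℂ)) * nx Φ m J q x t ν) (zt θ y) =
          ∑ l ∈ T, ((∏ p ∈ pos Φ, ((p.2 ⬝ᵥ (l + κ) : ℤ) : ℂ)) * nx Φ m J q x t (l + κ)) *
            exq (zt θ y) (l + κ) := by
        unfold ES
        rw [Finset.sum_map]
        rfl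
      rw [h0, Finset.mul_sum]
      refine Finset.sum_congr rfl fun l _ => ?_
      rw [exq_zt]
      have e1 : ∑ i, ((l + κ) i : ℝ) * y i = ∑ i, (l i : ℝ) * y i + ∑ i, (κ i : ℝ) * y i := by
        rw [← Finset.sum_add_distrib]
        refine Finset.sum_congr rfl fun i _ => ?_
        rw [Pi.add_apply]
        push_cast
        ring
      have e2 : eu (dz (l + κ) θ) = eu (dz l θ) * eu (dz κ θ) := by
        unfold eu dz
        rw [← Complex.exp_add]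
        congr 1
        have : ∑ i, ((l + κ) i : ℝ) * θ i = ∑ i, (l i : ℝ) * θ i + ∑ i, (κ i : ℝ) * θ i := by
          rw [← Finset.sum_add_distrib]
          refine Finset.sum_congr rfl fun i _ => ?_
          rw [Pi.add_apply]
          push_cast
          ring
        rw [this]
        push_cast
        ring
      have e3 : eu (-(dz κ θ)) * eu (dz κ θ) = 1 := by
        unfold eu
        rw [← Complex.exp_add]
        rw [← Complex.exp_zero]
        congr 1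
        push_cast
        ring
      have e4 : (Real.exp (-∑ i, (κ i : ℝ) * y i) : ℂ) * (Real.exp (∑ i, (κ i : ℝ) * y i) : ℂ) = 1 := by
        rw [← Complex.ofReal_mul, ← Real.exp_add]
        simp
      have e5 : ((dR Φ (l + κ) : ℝ) : ℂ) = ((1 / Dn : ℝ) : ℂ) * ∏ p ∈ pos Φ, ((p.2 ⬝ᵥ (l + κ) : ℤ) : ℂ) := by
        unfold dR
        rw [← hDn]
        push_cast
        ring
      rw [e1, Real.exp_add, e2, Complex.ofReal_mul, e5, Complex.ofReal_mul]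
      linear_combination (-(Real.exp (∑ i, (l i : ℝ) * y i) : ℂ) * ((1 / Dn : ℝ) : ℂ) *
        (∏ p ∈ pos Φ, ((p.2 ⬝ᵥ (l + κ) : ℤ) : ℂ)) * nx Φ m J q x t (l + κ) * eu (dz l θ)) *
        (e3 * (Real.exp (-∑ i, (κ i : ℝ) * y i) : ℂ) * (Real.exp (∑ i, (κ i : ℝ) * y i) : ℂ) + e4)
    rw [hleft, norm_mul, norm_mul, norm_mul]
    have f1 : ‖((Real.exp (-∑ i, (κ i : ℝ) * y i) : ℝ) : ℂ)‖ ≤ Real.exp (r * C₂ ^ 2) := by
      rw [Complex.norm_real, Real.norm_eq_abs, abs_of_pos (Real.exp_pos _)]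
      refine Real.exp_le_exp.2 ?_
      refine (neg_le_abs _).trans ((Finset.abs_sum_le_sum_abs _ _).trans ?_)
      have e4 : ∀ i ∈ (Finset.univ : Finset (Fin r)), |(κ i : ℝ) * y i| ≤ C₂ ^ 2 := by
        intro i _
        rw [abs_mul, pow_two]
        refine mul_le_mul (hκ i) ((hy i).trans (div_le_self hC₂ hJ1)) (abs_nonneg _) hC₂
      refine (Finset.sum_le_sum e4).trans (le_of_eq ?_)
      rw [Finset.sum_const, Finset.card_univ, Fintype.card_fin, nsmul_eq_mul]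
    have f2 : ‖eu (-(dz κ θ))‖ = 1 := by
      unfold eu
      have := Complex.norm_exp_ofReal_mul_I (2 * π * (-(dz κ θ)))
      rw [← this]
      congr 2
      push_cast
      ring
    have f3 : ‖((1 / Dn : ℝ) : ℂ)‖ = |1 / Dn| := by
      rw [Complex.norm_real, Real.norm_eq_abs]
    rw [f2, f3, mul_one]
    have e1 : Cc / (1 / (2 : ℝ) ^ J) = Cc * 2 ^ J := by
      field_simp
    rw [e1] at key
    calc ‖((Real.exp (-∑ i, (κ i : ℝ) * y i) : ℝ) : ℂ)‖ * |1 / Dn| *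
          ‖ES (T.map (addRightEmbedding κ))
            (fun ν => (∏ p ∈ pos Φ, ((p.2 ⬝ᵥ ν : ℤ) : ℂ)) * nx Φ m J q x t ν) (zt θ y)‖
        ≤ Real.exp (r * C₂ ^ 2) * |1 / Dn| * ((Cc * 2 ^ J) ^ (pos Φ).card * (Ct * (2 ^ J) ^ r * ((1 + C₄) ^ n * D))) :=
          mul_le_mul (mul_le_mul_of_nonneg_right f1 (abs_nonneg _)) key (norm_nonneg _) (by positivity)
      _ = C₆ * (2 : ℝ) ^ (J * (n + r)) * D := by
          rw [← hn, hC₆, mul_pow, mul_add, pow_add, pow_mul, pow_mul]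
          ring
  -- the constant
  refine ⟨C₆ * (C₄ * (1 + κ') ^ (2 * m)), by positivity, ?_⟩
  intro J q x t θ y κ T hq hy hκ hT p
  have hfac := fun (z : ℂ) (hz1 : |z.im| ≤ κ' / 2 ^ J) (hz2 : |z.re - dz p.1.1 θ| ≤ κ' / 2 ^ J) =>
    factor hκ'0 hC₄ h4 J (x p).val (Nat.lt_succ_iff.1 (x p).2) z (dz p.1.1 θ) hz1 hz2
  have hnd := nd_nn (dz p.1.1 θ)
  have hpos : (0 : ℝ) < (1 + 2 ^ (x p).val * nd (dz p.1.1 θ)) ^ (2 * m) := by positivity
  refine ⟨?_, ?_⟩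
  · have := main J q x t θ y κ T hq hy hκ hT p
      (C₄ * (1 + κ') ^ (2 * m) / (1 + 2 ^ (x p).val * nd (dz p.1.1 θ)) ^ (2 * m)) (by positivity)
      (fun z hz1 hz2 => (hfac z hz1 hz2).2.1)
    rw [← le_div_iff₀ hpos]
    refine this.trans (le_of_eq ?_)
    ring
  · intro hxJ
    have := main J q x t θ y κ T hq hy hκ hT p
      (C₄ * (1 + κ') ^ (2 * m) * (2 ^ (x p).val * (nd (dz p.1.1 θ) + 1 / 2 ^ J)) ^ (2 * m)) (by positivity)
      (fun z hz1 hz2 => (hfac z hz1 hz2).2.2 hxJ)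
    refine this.trans (le_of_eq ?_)
    ring

end

end STZ3
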