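import Pool.Agent.STZ3.StQ

/-!
# The groups `SU(3)`, `PSU(3)`: chain packets (section 9 of `PAPER.md`), part 1: representations and the `L¹` bound

Module `X` proves `theorem t_X : M_X` (or `t_X : S_X` if there is no `M_X`) in the file `Pool/Agent/STZ3/X.lean`, namespace `STZ3`. Import this file (and Mathlib), not the proofs of the other modules; the hypotheses `S_...` of `M_X` are the facts which may be used.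
Symbols as in StP.lean. `a` is a positive root (any rank `r`, any root system). The chain packet has the time `t₂` in the directions of the root `a` and `t₁` in the directions of all other roots.
-/

namespace STZ3

open STZ LGR MeasureTheory Matrix Filter

open scoped ComplexConjugate Matrix Real Topology

noncomputable section

/-! ### abstract packets -/

/-- in every irreducible representation (of size `n`, with the highest weight `l - 1`) the measure `κ` is diagonal, with the eigenvalues `e j`, in a basis of weight vectors (of the weights `μ j`), and `P n l μ e` holds -/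
def DK {N : ℕ} (H : Subgroup (SU N)) {r : ℕ} (Φ : RT r) (Hc : Fin r → MT N) (c k : ℝ) (d : ℕ) (κ : Measure H)
    (P : (n : ℕ) → (Fin r → ℤ) → (Fin n → Fin r → ℤ) → (Fin n → ℝ) → Prop) : Prop :=
  ∀ (n : ℕ) (σ : Rep H (Fin n)) (l : Fin r → ℤ), σ.Irr → PRep σ → HWR Φ Hc c k d σ l →
    ∃ (U : Matrix (Fin n) (Fin n) ℂ) (μ : Fin n → Fin r → ℤ) (e : Fin n → ℝ), WT Hc σ U μ ∧
      (∀ i j, ∫ x, σ.ρ x i j ∂κ = (U * Matrix.diagonal (fun m => (e m : ℂ)) * Uᴴ) i j) ∧ P n l μ e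

/-- IDA. The identity of measures, abstract version of IDM (StP.lean): the proof of IDM uses the packet measure only through this hypothesis. Both sides are linear in `f` and bounded by a constant times the supremum of `|f|`; by UNC it is enough to take an entry `f = σ.ρ · p q` of an irreducible polynomial representation, with `l` from NORR, and `U`, `m j`, `e j` from `DK`. Let `K = ∫ σ dκ = U diag (e j) Uᴴ`,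
`D = ∫_θ (∑ lf m eu (dz m θ)) σ (tt θ) = U diag (lf (- m j)) Uᴴ` (TPOL). The right side is `∫_h (σ(h) K D K σ(h)ᴴ) p q = [p = q] tr (K D K)/n` (SCHUR), `tr (K D K) = ∑ j, (e j)² lf (- m j)`. Left side: `∫ σ(x) p q χ i 1 χ i x`. The conjugate representation `σ'` (entries `conj (σ.ρ g p q)`) is irreducible, polynomial, with some `l'` (NORR); there is exactly one `i₀` in `IX Hc` with `wG i₀ = l'`
(`HWR.triv`, `reg`), and `χ i₀` is its character (both characters are `AT l'/AT 1` at the regular points of the torus, dense by DENV, CONJ). `∫ σ p q χ i = 0` for `i ≠ i₀`, `= [p = q]/n` for `i = i₀` (SCHUR, `χ i₀ = conj σ.ch`). So the left side is `[p = q] wa (wG i₀)` (`χ i₀ 1 = n`; if `i₀ ∉ F` then `wa = 0`), and by `DK` for `σ'` (with `U'`, `m' j`, `e' j`) `∑ j, (e' j)² lf (m' j) = n wa l'`.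
The left side of this is `tr (K' D' K')` with `K' = ∫ σ' dκ = conj K` (entrywise) and `D' = ∫_θ (∑ lf m eu (-(dz m θ))) σ' (tt θ)` (`= U' diag (lf (m' j)) U'ᴴ`), and `D' = conj (∫_θ (∑ conj (lf m) eu (dz m θ)) σ (tt θ)) = conj (U diag (conj (lf (- m j))) Uᴴ)`; so it is `conj (∑ j, (e j)² conj (lf (- m j))) = ∑ j, (e j)² lf (- m j)`. -/
def S_IDA : Prop := ∀ (N : ℕ) (H : Subgroup (SU N)) (r : ℕ) (Φ : RT r) (B : Matrix (Fin r) (Fin r) ℤ)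
  (Hc : Fin r → MT N) (E : (Fin r → ℤ) × (Fin r → ℤ) → MT N) (c k : ℝ) (d : ℕ), CX H Φ B Hc E c k d →
  ∀ (μ : Measure H) [IsProbabilityMeasure μ] [μ.IsMulLeftInvariant] (χ : IX Hc → H → ℂ), CHI Φ Hc c k d χ →
  ∀ (κ : Measure H), IsProbabilityMeasure κ → ∀ (lf nf : (Fin r → ℤ) → ℂ) (T : Finset (Fin r → ℤ))
    (F : Finset (IX Hc)), DK H Φ Hc c k d κ (fun n l m e => ∑ j, ((e j : ℂ)) ^ 2 * lf (m j) = (n : ℂ) * wa Φ nf l) →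
    (∀ m, lf m ≠ 0 → m ∈ T) → (∀ i : IX Hc, wa Φ nf (wG i.1) ≠ 0 → i ∈ F) →
  ∀ f : H → ℂ, Continuous f →
    ∫ x, f x * ∑ i ∈ F, wa Φ nf (wG i.1) * (χ i 1 * χ i x) ∂μ =
      ∫ h, ∫ z, ∫ z', (∫ θ in Set.Icc (0 : Fin r → ℝ) 1,
        (∑ m ∈ T, lf m * eu (dz m θ)) * f (h * z * tt H Hc θ * z' * h⁻¹)) ∂κ ∂κ ∂μ

def M_IDA : Prop := S_SCHUR → S_WFAC → S_CHAM → S_TAUF → S_CONJ → S_DENV → S_RVOF → S_ATFV → S_TPOL → S_PFFX → S_DREP →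
  S_CASR → S_TRES → S_NORR → S_UNC → S_IDA

/-- BRA. The bilinear form, abstract version of BRP (StP.lean). `KK χ i g g' = χ i 1 χ i (g g'⁻¹)`, a class function; substitute `g = g' u` (left invariance): `χ i (g' u g'⁻¹) = χ i u`, so the left side is `∫_u k(u) f(u)`, `f(u) = ∫_(g') conj (G₂ (g' u)) G₁ g'`, continuous. IDA; in `f (h z tt z' h⁻¹)` substitute `g' = g z⁻¹ h⁻¹` (right invariance, HAAR):
`f = ∫_g conj (G₂ (g tt(θ) z' h⁻¹)) G₁ (g z⁻¹ h⁻¹)`; integrate over `z`, `z'` (Fubini; `κ` is symmetric). -/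
def S_BRA : Prop := ∀ (N : ℕ) (H : Subgroup (SU N)) (r : ℕ) (Φ : RT r) (B : Matrix (Fin r) (Fin r) ℤ)
  (Hc : Fin r → MT N) (E : (Fin r → ℤ) × (Fin r → ℤ) → MT N) (c k : ℝ) (d : ℕ), CX H Φ B Hc E c k d →
  ∀ (μ : Measure H) [IsProbabilityMeasure μ] [μ.IsMulLeftInvariant] (χ : IX Hc → H → ℂ), CHI Φ Hc c k d χ →
  ∀ (κ : Measure H), IsProbabilityMeasure κ → κ.map Inv.inv = κ →
  ∀ (lf nf : (Fin r → ℤ) → ℂ) (T : Finset (Fin r → ℤ))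
    (F : Finset (IX Hc)), DK H Φ Hc c k d κ (fun n l m e => ∑ j, ((e j : ℂ)) ^ 2 * lf (m j) = (n : ℂ) * wa Φ nf l) →
    (∀ m, lf m ≠ 0 → m ∈ T) → (∀ i : IX Hc, wa Φ nf (wG i.1) ≠ 0 → i ∈ F) →
  ∀ G₁ G₂ : H → ℂ, Continuous G₁ → Continuous G₂ →
    ∫ g, conj (G₂ g) * ∫ g', (∑ i ∈ F, wa Φ nf (wG i.1) * KK χ i g g') * G₁ g' ∂μ ∂μ =
      ∫ h, ∫ g, (∫ θ in Set.Icc (0 : Fin r → ℝ) 1, (∑ m ∈ T, lf m * eu (dz m θ)) *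
        (VV κ h G₁ g * conj (VV κ h G₂ (g * tt H Hc θ)))) ∂μ ∂μ

def M_BRA : Prop := S_HAAR → S_LIEB → S_TAUF → S_IDA → S_BRA

/-- L2A. The `L²` bound, abstract version of L2W (StP.lean). Both sides are continuous in `F` for the sup norm, so by `PFF.dense` we may take `F ∈ PF H`; by `PFF.span`, TENH, DECP, NORR and the equality of representations with the same character (SCHUR) `F = ∑ s, ∑ p q, c_s p q σ_s p q` with irreducible `σ_s` with different characters.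
`VV κ h F (g) = ∑ ∑ c_s p q (σ_s(g) K_s σ_s(h)ᴴ) p q`, `K_s = U diag (e j) Uᴴ` (`DK`), and the inner function is the same with `σ_s(g) D_s K_s σ_s(h)ᴴ`, `D_s = U diag (Ψ (m j)) Uᴴ`, `Ψ m` the difference in the hypothesis. By SCHUR (integrate over `g`) the left side is `∑ s, (1/n_s) ∫_h ‖D K σ(h)ᴴ cᵀ‖²`, and (SCHUR again, average over `h`) this is `∑ s, (1/n_s) ((1/n_s) tr (K Dᴴ D K)) ‖c_s‖²`;
`∫ |F|² = ∑ s, ‖c_s‖²/n_s`, `tr = ∑ j, (e j)² |Ψ (m j)|² ≤ b n_s`. -/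
def S_L2A : Prop := ∀ (N : ℕ) (H : Subgroup (SU N)) (r : ℕ) (Φ : RT r) (B : Matrix (Fin r) (Fin r) ℤ)
  (Hc : Fin r → MT N) (E : (Fin r → ℤ) × (Fin r → ℤ) → MT N) (c k : ℝ) (d : ℕ), CX H Φ B Hc E c k d →
  ∀ (μ : Measure H) [IsProbabilityMeasure μ] [μ.IsMulLeftInvariant] (κ : Measure H), IsProbabilityMeasure κ →
  ∀ (ν₁ ν₂ : Measure (Fin r → ℝ)), IsFiniteMeasure ν₁ → IsFiniteMeasure ν₂ → ∀ b : ℝ,
    DK H Φ Hc c k d κ (fun n _ m e =>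
      ∑ j, e j ^ 2 * ‖∫ s, eu (dz (m j) s) ∂ν₁ - ∫ s, eu (dz (m j) s) ∂ν₂‖ ^ 2 ≤ b * n) →
    ∀ F : H → ℂ, Continuous F →
      ∫ h, ∫ g, ‖∫ s, VV κ h F (g * tt H Hc s) ∂ν₁ - ∫ s, VV κ h F (g * tt H Hc s) ∂ν₂‖ ^ 2 ∂μ ∂μ ≤
        b * ∫ g, ‖F g‖ ^ 2 ∂μ

def M_L2A : Prop := S_SCHUR → S_TENH → S_WFAC → S_TAUF → S_PFFX → S_DECP → S_TRES → S_NORR → S_L2A

/-! ### the Levi subgroup of one root in a representation -/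

/-- the eigenvalue (divided by `-k`) of the root part of the Casimir operator of the Levi subgroup of `a` on the weight `m` in a string of length `x` -/
def qa {r : ℕ} (Φ : RT r) (a : (Fin r → ℤ) × (Fin r → ℤ)) (m : Fin r → ℤ) (x : ℤ) : ℝ :=
  ((rd Φ).Q a.1 : ℝ) / 4 * ((x : ℝ) ^ 2 - 1 - ((a.2 ⬝ᵥ m : ℤ) : ℝ) ^ 2)

/-- the eigenvalue of the Casimir operator of the Levi subgroup on its representation with the highest weight `τ`, `CL τ = (τ + a, τ)`; for `m = τ - i a`: `CL τ - Q m = qa m (a.2·τ + 1)` -/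
def CL {r : ℕ} (Φ : RT r) (a : (Fin r → ℤ) × (Fin r → ℤ)) (τ : Fin r → ℤ) : ℝ := ((rd Φ).Q τ : ℝ) + ip Φ a.1 τ / 2

/-- the weights `μ j`, with the lengths `x j`, are the union of the `a`-strings with the highest elements `τ s` -/
structure STG {r : ℕ} (a : (Fin r → ℤ) × (Fin r → ℤ)) {n : ℕ} (μ : Fin n → Fin r → ℤ) (x : Fin n → ℤ) {m : ℕ}
    (τ : Fin m → Fin r → ℤ) : Prop where
  nn : ∀ s, 0 ≤ a.2 ⬝ᵥ τ s
  str : ∀ F : (Fin r → ℤ) → ℤ → ℂ, ∑ j, F (μ j) (x j) =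
    ∑ s, ∑ i ∈ Finset.range ((a.2 ⬝ᵥ τ s).toNat + 1), F (τ s - (i : ℤ) • a.1) (a.2 ⬝ᵥ τ s + 1)

/-- a basis of weight vectors adapted to the Levi subgroup of the root `a` -/
structure WS {N : ℕ} {H : Subgroup (SU N)} {r : ℕ} (Φ : RT r) (Hc : Fin r → MT N)
    (E : (Fin r → ℤ) × (Fin r → ℤ) → MT N) (c k : ℝ) (a : {p // p ∈ pos Φ}) {n : ℕ} (σ : Rep H (Fin n))
    (U : Matrix (Fin n) (Fin n) ℂ) (μ : Fin n → Fin r → ℤ) (x : Fin n → ℤ) {m : ℕ} (τ : Fin m → Fin r → ℤ) : Prop where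
  wt : WT Hc σ U μ
  sa : ∑ b : Bool, dr σ (yr Φ E c (a, b)) * dr σ (yr Φ E c (a, b)) =
    U * Matrix.diagonal (fun j => ((-(k * qa Φ a.1 (μ j) (x j)) : ℝ) : ℂ)) * Uᴴ
  stg : STG a.1 μ x τ

/-- SLA. Linear algebra of `a`-strings. Induction on `n` (all data arbitrary). `n = 0` is trivial. Let `n ≥ 1`. The matrices `T j` are Hermitian and commute, so there are common eigenvectors; the eigenvalues are integers (`exp (2πi T j) = 1`). Take a common eigenvector `v` of norm `1`, `T j v = μ j v`, with the largest `b·μ` (possible values are bounded). `T j (e v) = (μ j + α j) e v`, so `e v = 0` (`b·α = 2`).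
Let `f = eᴴ`, `h = e f - f e = ∑ b j T j`, `v_i = f^i v` (weight `μ - i α`). By induction `e v_i = i (b·μ - i + 1) v_(i-1)`. As `‖f v_i‖² = ⟨e f v_i, v_i⟩ = (i + 1)(b·μ - i) ‖v_i‖²`, the numbers `(i+1)(b·μ - i)` are `≥ 0` as long as `v_i ≠ 0`; so `M = b·μ ≥ 0`, `v_0, ..., v_M ≠ 0`, `v_(M+1) = 0`. These are orthogonal (different weights), and `(e f + f e) v_i = ((i+1)(M - i) + i (M - i + 1)) v_i = ((M+1)² - 1 - (M - 2i)²)/2 v_i`.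
The span `W` of `v_0 .. v_M` is invariant under `e`, `f`, `T j`, so is its orthogonal complement. Take a unitary matrix whose first `M + 1` columns are the normalised `v_i`; in this basis all matrices are block diagonal, apply the induction hypothesis to the second block (of size `n - M - 1`; its data satisfy the same hypotheses: `exp` of a block matrix). The new string has the highest element `τ = μ`, and the length `x = M + 1`. -/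
def S_SLA : Prop := ∀ (r n : ℕ) (α b : Fin r → ℤ) (T : Fin r → Matrix (Fin n) (Fin n) ℂ) (e : Matrix (Fin n) (Fin n) ℂ),
  b ⬝ᵥ α = 2 → (∀ j, (T j)ᴴ = T j) → (∀ i j, T i * T j = T j * T i) →
  (∀ j, NormedSpace.exp ((2 * π * Complex.I : ℂ) • T j) = 1) → (∀ j, T j * e - e * T j = (α j : ℂ) • e) →
  e * eᴴ - eᴴ * e = ∑ j, (b j : ℂ) • T j →
  ∃ (U : Matrix (Fin n) (Fin n) ℂ) (μ : Fin n → Fin r → ℤ) (x : Fin n → ℤ) (m : ℕ) (τ : Fin m → Fin r → ℤ),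
    U * Uᴴ = 1 ∧ Uᴴ * U = 1 ∧ (∀ j, T j = U * Matrix.diagonal (fun i => ((μ i j : ℤ) : ℂ)) * Uᴴ) ∧
    e * eᴴ + eᴴ * e = U * Matrix.diagonal (fun i => (((((x i : ℝ) ^ 2 - 1 - ((b ⬝ᵥ μ i : ℤ) : ℝ) ^ 2) / 2 : ℝ)) : ℂ)) * Uᴴ ∧
    STG (α, b) μ x τ

/-- STR. `T j = -i dr σ (i Hc j)`, `D₁ = dr σ (E a - (E a)ᴴ)`, `D₂ = dr σ (i (E a + (E a)ᴴ))`, `e = (D₁ - i D₂)/2`; by `DRF.skew` `T j` is Hermitian and `eᴴ = (-D₁ - i D₂)/2`. SLA with `α = a.1`, `b = a.2`: `exp (2πi T j) = exp (2π dr σ (i Hc j)) = σ (exp (2π i Hc j)) = 1` (`DRF.ex`, `LRD.per`; `TAF.int`), `LRD.ead` and `DRF.br`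
(`[i Hc j, E - Eᴴ] = a.1 j · i (E + Eᴴ)`, `[i Hc j, i (E + Eᴴ)] = - a.1 j (E - Eᴴ)`), `[D₁, D₂] = 2 dr σ (i [E, Eᴴ])`, `[D₁, D₂] = 2 i (e eᴴ - eᴴ e)` and `LRD.cor`. `U`, `μ` give `WT` (`ta θ = exp (∑ 2π θ j i Hc j)`, `TAF.coe`, `DRF.ex`). `sa`: `D₁² + D₂² = -2 (e eᴴ + eᴴ e)`, `yr` has the factor `1/√(2 c tr (E Eᴴ))`, and
`1/(c tr (E Eᴴ)) = k Q(a.1)/2`: `KC.p` for `l = a.1` (`a.2·a.1 = 2`, `a.1·A a.1 = 2 Q a.1`, QUAD). So `∑ (dr σ yr)² = -(k Q(a.1)/4)(x² - 1 - (a.2·μ)²) = - k qa`. -/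
def S_STR : Prop := ∀ (N : ℕ) (H : Subgroup (SU N)) (r : ℕ) (Φ : RT r) (B : Matrix (Fin r) (Fin r) ℤ)
  (Hc : Fin r → MT N) (E : (Fin r → ℤ) × (Fin r → ℤ) → MT N) (c k : ℝ) (d : ℕ), CX H Φ B Hc E c k d →
  ∀ (a : {p // p ∈ pos Φ}) (n : ℕ) (σ : Rep H (Fin n)), PRep σ →
    ∃ (U : Matrix (Fin n) (Fin n) ℂ) (μ : Fin n → Fin r → ℤ) (x : Fin n → ℤ) (m : ℕ) (τ : Fin m → Fin r → ℤ),
      WS Φ Hc E c k a σ U μ x τ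

def M_STR : Prop := S_LIEB → S_WFAC → S_QUAD → S_TAUF → S_DREP → S_SLA → S_STR

/-! ### the chain packets -/

/-- the chain packet measure: the time `t₂ / k` in the directions of the root `a`, `t₁ / k` in the directions of the other roots -/
def PC {N : ℕ} (H : Subgroup (SU N)) {r : ℕ} (Φ : RT r) (E : (Fin r → ℤ) × (Fin r → ℤ) → MT N)
    (c k : ℝ) (a : {p // p ∈ pos Φ}) (t₁ t₂ : ℝ) (κ : Measure H) : Prop :=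
  HM H (fun b : {p // p ∈ pos Φ} × Bool => ((√((if b.1 = a then t₂ else t₁) / k) : ℝ) : ℂ) • yr Φ E c b) κ

/-- the exponent of a chain packet in a representation with the highest weight `l - 1`, on the weight `m` in a string of length `x` -/
def ec {r : ℕ} (Φ : RT r) (a : (Fin r → ℤ) × (Fin r → ℤ)) (l : Fin r → ℤ) (t₁ t₂ : ℝ) (m : Fin r → ℤ) (x : ℤ) : ℝ :=
  t₁ * (cq Φ l m - qa Φ a m x) + t₂ * qa Φ a m x

/-- HMC. As HMV: for a frame `X` `∑ (dr σ (X i))² = -k (Q l - Q 1)` (`HWR.eig`, `DRF.d`), by ADFR it is `S_T + S_a + S'`: `S_T = U diag (-k Q μ) Uᴴ` the torus part (as in HMV), `S_a = ∑ b, (dr σ (yr (a, b)))²` from `WS.sa`, `S'` the sum over the other roots. So the exponent `(t₁/k) S' + (t₂/k) S_a` is `U diag (-ec) Uᴴ`; take the exponential. -/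
def S_HMC : Prop := ∀ (N : ℕ) (H : Subgroup (SU N)) (r : ℕ) (Φ : RT r) (B : Matrix (Fin r) (Fin r) ℤ)
  (Hc : Fin r → MT N) (E : (Fin r → ℤ) × (Fin r → ℤ) → MT N) (c k : ℝ) (d : ℕ), CX H Φ B Hc E c k d →
  ∀ (a : {p // p ∈ pos Φ}) (t₁ t₂ : ℝ) (κ : Measure H), 0 ≤ t₁ → 0 ≤ t₂ → PC H Φ E c k a t₁ t₂ κ →
  ∀ (n : ℕ) (σ : Rep H (Fin n)) (l : Fin r → ℤ) (U : Matrix (Fin n) (Fin n) ℂ) (μ : Fin n → Fin r → ℤ)
    (x : Fin n → ℤ) (m : ℕ) (τ : Fin m → Fin r → ℤ), σ.Irr → PRep σ → HWR Φ Hc c k d σ l →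
    WS Φ Hc E c k a σ U μ x τ →
    ∀ i j, ∫ y, σ.ρ y i j ∂κ =
      (U * Matrix.diagonal (fun m => ((Real.exp (-(ec Φ a.1 l t₁ t₂ (μ m) (x m))) : ℝ) : ℂ)) * Uᴴ) i j

def M_HMC : Prop := S_LIEB → S_WFAC → S_QUAD → S_TAUF → S_DREP → S_ADFR → S_HMC

/-- `FF τ = [∏_(p ≠ a) (1 - T_p) F](τ + 1)`, `T_p F ν = F (ν - p.1)` -/
def FF {r : ℕ} (Φ : RT r) (a : (Fin r → ℤ) × (Fin r → ℤ)) (F : (Fin r → ℤ) → ℂ) (τ : Fin r → ℤ) : ℂ :=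
  ∑ S ∈ ((pos Φ).erase a).powerset, (-1) ^ S.card * F (τ + 1 - ∑ p ∈ S, p.1)

/-- TRL. The denominator formula as a sum over subsets: `∑ w, det w G (w 1) = ∑_(S ⊆ pos Φ) (-1)^|S| G (1 - ∑_S p.1)` for every `G : ℤ^r → ℂ` (DENO: `∑ w, det w eu (dz (w 1) θ) = eu (∑ θ) ∏ (1 - eu (-(dz p.1 θ)))`, expand, compare coefficients with TPOL). Split the subsets into those without and with `a`: for `G ν = F (m + ν)` the sum is `FF m - FF (m - a.1)`. So TRI reads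
`∑ j, (FF (μ j) - FF (μ j - a.1)) = ∑ w, det w F (w l)`. By `STG.str` (for `F m x` replaced by `FF m - FF (m - a.1)`) the left side is `∑ s, ∑_(i ≤ a.2·τ s) (FF (τ s - i a.1) - FF (τ s - (i + 1) a.1))`, telescoping. -/
def S_TRL : Prop := ∀ (N : ℕ) (H : Subgroup (SU N)) (r : ℕ) (Φ : RT r) (B : Matrix (Fin r) (Fin r) ℤ)
  (Hc : Fin r → MT N) (E : (Fin r → ℤ) × (Fin r → ℤ) → MT N) (c k : ℝ) (d : ℕ), CX H Φ B Hc E c k d →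
  ∀ (a : {p // p ∈ pos Φ}) (n : ℕ) (σ : Rep H (Fin n)) (l : Fin r → ℤ) (U : Matrix (Fin n) (Fin n) ℂ)
    (μ : Fin n → Fin r → ℤ) (x : Fin n → ℤ) (m : ℕ) (τ : Fin m → Fin r → ℤ), HWR Φ Hc c k d σ l → WT Hc σ U μ →
    STG a.1 μ x τ → ∀ F : (Fin r → ℤ) → ℂ,
    ∑ s, (FF Φ a.1 F (τ s) - FF Φ a.1 F (τ s - (a.1.2 ⬝ᵥ τ s + 1) • a.1.1)) =
      ∑ w ∈ WF Φ, (w.det : ℂ) * F (w *ᵥ l)

def M_TRL : Prop := S_WFAC → S_DENO → S_TPOL → S_TRI → S_TRL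

/-- the exponent of the term `S` of the torus multiplier of a chain packet -/
def es {r : ℕ} (Φ : RT r) (a : (Fin r → ℤ) × (Fin r → ℤ)) (t₁ t₂ : ℝ) (S : RT r) (m : Fin r → ℤ) : ℝ :=
  2 * t₂ * (CL Φ a (m - if a ∈ S then a.1 else 0) - (rd Φ).Q m) +
    2 * t₁ * (((rd Φ).Q (m + 1 - ∑ p ∈ S, p.1) : ℝ) - (rd Φ).Q 1 - CL Φ a (m - if a ∈ S then a.1 else 0))

/-- the torus multiplier of a chain packet -/
def lc {r : ℕ} (Φ : RT r) (a : (Fin r → ℤ) × (Fin r → ℤ)) (t₁ t₂ : ℝ) (nf : (Fin r → ℤ) → ℂ) (m : Fin r → ℤ) : ℂ :=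
  (1 / ((WF Φ).card : ℂ)) * ∑ S ∈ (pos Φ).powerset, (-1) ^ S.card *
    (((Real.exp (es Φ a t₁ t₂ S m) * dR Φ (m + 1 - ∑ p ∈ S, p.1) : ℝ) : ℂ) * nf (m + 1 - ∑ p ∈ S, p.1))

/-- TRC. The trace identity of the chain packets. Let `F ν = exp (2 t₁ Q ν) dR ν nf ν` and `G m = exp ((2 t₂ - 2 t₁) CL m) FF F m`. Splitting the subsets into those without and with `a`: `exp (2 t₂ Q m) lc m = (1/|W|) exp (-2 t₁ Q 1) (G m - G (m - a.1))`. For `m = τ - i a.1`, `x = a.2·τ + 1`: `qa m x = CL τ - Q m`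
(QUAD: `ip a.1 m = (a.2·m) Q(a.1)`, `Q (τ - i a.1) = Q τ - i (a.2·τ) Q(a.1) + i² Q(a.1)`... all in terms of `Q(a.1)`, `a.2·τ`), so `ec = t₁ (Q l - Q 1 - CL τ) + t₂ (CL τ - Q m)`. By `STG.str` the left side is `∑ s, exp (-2 t₁ (Q l - Q 1 - CL τ) - 2 t₂ CL τ) ∑ i, exp (2 t₂ Q m) lc m`, telescoping, and `CL (τ - (a.2·τ + 1) a.1) = CL τ`:
`= (1/|W|) exp (-2 t₁ Q l) ∑ s, (FF (τ s) - FF (τ s - ..))` `= (1/|W|) exp (-2 t₁ Q l) ∑ w, det w F (w l)` (TRL) `= dR l (1/|W|) ∑ w, nf (w l)` (`Q (w l) = Q l`, `dR (w l) = det w dR l`: `RV.danti`), and `dR l = n` (`HWR.dim`). -/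
def S_TRC : Prop := ∀ (N : ℕ) (H : Subgroup (SU N)) (r : ℕ) (Φ : RT r) (B : Matrix (Fin r) (Fin r) ℤ)
  (Hc : Fin r → MT N) (E : (Fin r → ℤ) × (Fin r → ℤ) → MT N) (c k : ℝ) (d : ℕ), CX H Φ B Hc E c k d →
  ∀ (a : {p // p ∈ pos Φ}) (n : ℕ) (σ : Rep H (Fin n)) (l : Fin r → ℤ) (U : Matrix (Fin n) (Fin n) ℂ)
    (μ : Fin n → Fin r → ℤ) (x : Fin n → ℤ) (m : ℕ) (τ : Fin m → Fin r → ℤ), HWR Φ Hc c k d σ l → WT Hc σ U μ →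
    STG a.1 μ x τ → ∀ (t₁ t₂ : ℝ) (nf : (Fin r → ℤ) → ℂ),
    ∑ j, ((Real.exp (-(2 * ec Φ a.1 l t₁ t₂ (μ j) (x j))) : ℝ) : ℂ) * lc Φ a.1 t₁ t₂ nf (μ j) = (n : ℂ) * wa Φ nf l

def M_TRC : Prop := S_WFAC → S_QUAD → S_RVOF → S_TRL → S_TRC

/-- BRC. The bilinear form for the chain packets: BRA with `lf = lc Φ a t₁ t₂ nf`; `DK` by STR, HMC, TRC (`(exp (-ec))² = exp (-2 ec)`); `κ` is symmetric (SYK; the matrices are in `lie H`: `LRD.emem`, LIEB). -/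
def S_BRC : Prop := ∀ (N : ℕ) (H : Subgroup (SU N)) (r : ℕ) (Φ : RT r) (B : Matrix (Fin r) (Fin r) ℤ)
  (Hc : Fin r → MT N) (E : (Fin r → ℤ) × (Fin r → ℤ) → MT N) (c k : ℝ) (d : ℕ), CX H Φ B Hc E c k d →
  ∀ (μ : Measure H) [IsProbabilityMeasure μ] [μ.IsMulLeftInvariant] (χ : IX Hc → H → ℂ), CHI Φ Hc c k d χ →
  ∀ (a : {p // p ∈ pos Φ}) (t₁ t₂ : ℝ) (κ : Measure H), 0 ≤ t₁ → 0 ≤ t₂ → PC H Φ E c k a t₁ t₂ κ →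
  ∀ (nf : (Fin r → ℤ) → ℂ) (T : Finset (Fin r → ℤ)) (F : Finset (IX Hc)), (∀ m, lc Φ a.1 t₁ t₂ nf m ≠ 0 → m ∈ T) →
    (∀ i : IX Hc, wa Φ nf (wG i.1) ≠ 0 → i ∈ F) →
  ∀ G₁ G₂ : H → ℂ, Continuous G₁ → Continuous G₂ →
    ∫ g, conj (G₂ g) * ∫ g', (∑ i ∈ F, wa Φ nf (wG i.1) * KK χ i g g') * G₁ g' ∂μ ∂μ =
      ∫ h, ∫ g, (∫ θ in Set.Icc (0 : Fin r → ℝ) 1, (∑ m ∈ T, lc Φ a.1 t₁ t₂ nf m * eu (dz m θ)) *
        (VV κ h G₁ g * conj (VV κ h G₂ (g * tt H Hc θ)))) ∂μ ∂μ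

def M_BRC : Prop := S_LIEB → S_WFAC → S_TAUF → S_SYK → S_STR → S_HMC → S_TRC → S_BRA → S_BRC

/-! ### the lower bound from the group to the Levi subgroup -/

/-- GLH. The lower bound. `F ν = exp (2 t Q ν) dR ν`, `z` with `ZM` (HRM), `L_p ξ = lf z p.1 ξ`, `b = 2 √t`, `(x, y) = x·Ay/2`, `K = ∏ (p.1, 1)`, `dR ν = ∏ (p.1, ν)/K` (QUAD). As in LWB: HRM at `η = b z ν` and the translation formula for the Gaussian density give `K b^n F ν = ∫ ∏_p L_p ξ exp (b ξ·zν) dγ`. Sum over the subsets of `pos Φ \ a`: `ξ·z1 = ∑_p L_p ξ/2` (RHOF), so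
`K b^n FF τ = ∫ L_a ∏_(p ≠ a) (L_p (e^(b L_p/2) - e^(-b L_p/2))) e^(b (ξ·zτ + L_a/2)) dγ`. The function `P ξ = ∏_(p ≠ a) L_p (e^(b L_p/2) - e^(-b L_p/2))` is `≥ b^(n-1) ∏_(p≠a) L_p²`, even in every `L_p`, so it is invariant under the reflection `R` of `ℝ^r` in `u = z a.1` (`L_p (R ξ) = L_(s_a p) ξ`; `s_a` permutes the roots `± p`, `p ≠ a`; `WFF.perm`), and `R` preserves `γ`. Let `x = a.2·τ + 1 > 0`,
`w ξ = ξ·zτ + L_a ξ/2 = ξ·z(τ + a.1/2)`; `w ξ - w (R ξ) = x L_a ξ` (`(a.1, τ + a.1/2) = x (a.1,a.1)/2`). For `τ' = τ - x a.1` the exponent is `w (R ξ)`. So `K b^n (FF τ - FF τ') = 2 K b^n FF τ = ∫ L_a P (e^(b w ξ) - e^(b w(R ξ))) dγ = ∫ P e^(b w) L_a (1 - e^(-b x L_a)) dγ`, and `y (1 - e^(-b x y)) ≥ b x y²/(1 + b x |y|)` (both signs of `y`). By the translation formula it is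
`≥ e^(2 t Q') b^(n-1) ∫ ∏_(p≠a) L_p² · b x L_a²/(1 + b x |L_a|) (ξ + b z (τ + a.1/2))`, `Q' = Q τ + ip a.1 τ/2 + Q(a.1)/4 ≥ CL τ`. As in ANT with probability `≥ 1/2` all `|L_p (ξ + η)| ≥ ε (1 + |L_p η|)`, `η = b z (τ + a.1/2)`, `L_a η = b x Q(a.1)/2`, `y ↦ y²/(1 + b x y)` is increasing, and `b x ε² (1 + c b x)²/(1 + b x ε (1 + c b x)) ≥ c' b x`. So `FF τ - FF τ' ≥ c e^(2 t CL τ) x ∏_(p≠a) (1 + b² (p.1, τ + a.1/2)²)`,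
and `1 + t (p.2·τ)² ≤ C (1 + b² (p.1, τ + a.1/2)²)` (`t ≤ 1`). -/
def S_GLH : Prop := ∀ (r : ℕ) (Φ : RT r) (B : Matrix (Fin r) (Fin r) ℤ), 1 ≤ r → IRD Φ B → WFF Φ B →
  ∃ c : ℝ, 0 < c ∧ ∀ a ∈ pos Φ, ∀ (t : ℝ) (τ : Fin r → ℤ), 0 < t → t ≤ 1 → 0 ≤ a.2 ⬝ᵥ τ →
    c * Real.exp (2 * t * CL Φ a τ) * (((a.2 ⬝ᵥ τ : ℤ) : ℝ) + 1) *
        ∏ p ∈ (pos Φ).erase a, (1 + t * ((p.2 ⬝ᵥ τ : ℤ) : ℝ) ^ 2) ≤
      (FF Φ a (fun ν => ((Real.exp (2 * t * (rd Φ).Q ν) * dR Φ ν : ℝ) : ℂ)) τ).re -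
        (FF Φ a (fun ν => ((Real.exp (2 * t * (rd Φ).Q ν) * dR Φ ν : ℝ) : ℂ)) (τ - (a.2 ⬝ᵥ τ + 1) • a.1)).re

def M_GLH : Prop := S_RHOF → S_QUAD → S_HRM → S_ANT → S_GLH

/-- GLB. TRL for `F ν = exp (2 t Q ν) dR ν`, real parts: `∑ w, det w F (w l) = |W| exp (2 t Q l) dR l`, `dR l = n` (`RV.danti`, `HWR.dim`), and GLH for every `τ s` (`STG.nn`). -/
def S_GLB : Prop := ∀ (N : ℕ) (H : Subgroup (SU N)) (r : ℕ) (Φ : RT r) (B : Matrix (Fin r) (Fin r) ℤ)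
  (Hc : Fin r → MT N) (E : (Fin r → ℤ) × (Fin r → ℤ) → MT N) (c k : ℝ) (d : ℕ), CX H Φ B Hc E c k d →
  ∃ C : ℝ, 0 ≤ C ∧ ∀ (a : {p // p ∈ pos Φ}) (n : ℕ) (σ : Rep H (Fin n)) (l : Fin r → ℤ)
    (U : Matrix (Fin n) (Fin n) ℂ) (μ : Fin n → Fin r → ℤ) (x : Fin n → ℤ) (m : ℕ) (τ : Fin m → Fin r → ℤ),
    HWR Φ Hc c k d σ l → WT Hc σ U μ → STG a.1 μ x τ → ∀ t : ℝ, 0 < t → t ≤ 1 →
    ∑ s, Real.exp (-(2 * t * (((rd Φ).Q l : ℝ) - (rd Φ).Q 1 - CL Φ a.1 (τ s)))) * (((a.1.2 ⬝ᵥ τ s : ℤ) : ℝ) + 1) *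
      ∏ p ∈ (pos Φ).erase a.1, (1 + t * ((p.2 ⬝ᵥ τ s : ℤ) : ℝ) ^ 2) ≤ C * n

def M_GLB : Prop := S_WFAC → S_QUAD → S_RVOF → S_TRL → S_GLH → S_GLB

/-- L2C. The `L²` bound for the chain packets: the hypothesis is a sum over one string. L2A: with `WS` from STR and `e j = exp (-ec)` (HMC); `STG.str` for `F m x = exp (-2 ec l m x) ‖Ψ m‖²` (real numbers as complex numbers); for `m = τ - i a.1`, `x = a.2·τ + 1` (as in TRC) `ec = t₁ (Q l - Q 1 - CL τ) + t₂ (CL τ - Q m)`. So `∑ j, (e j)² ‖Ψ (μ j)‖² ≤ ∑ s, exp (-2 t₁ (Q l - Q 1 - CL τ)) b (a.2·τ + 1) ∏_(p≠a) (1 + t₁ (p.2·τ)²) ≤ b C n`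
(hypothesis, GLB). -/
def S_L2C : Prop := ∀ (N : ℕ) (H : Subgroup (SU N)) (r : ℕ) (Φ : RT r) (B : Matrix (Fin r) (Fin r) ℤ)
  (Hc : Fin r → MT N) (E : (Fin r → ℤ) × (Fin r → ℤ) → MT N) (c k : ℝ) (d : ℕ), CX H Φ B Hc E c k d →
  ∀ (μ : Measure H) [IsProbabilityMeasure μ] [μ.IsMulLeftInvariant], ∃ C : ℝ, 0 ≤ C ∧
    ∀ (a : {p // p ∈ pos Φ}) (t₁ t₂ : ℝ) (κ : Measure H), 0 < t₁ → t₁ ≤ 1 → 0 ≤ t₂ → PC H Φ E c k a t₁ t₂ κ →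
    ∀ (ν₁ ν₂ : Measure (Fin r → ℝ)), IsFiniteMeasure ν₁ → IsFiniteMeasure ν₂ → ∀ b : ℝ, 0 ≤ b →
    (∀ τ : Fin r → ℤ, 0 ≤ a.1.2 ⬝ᵥ τ →
      ∑ i ∈ Finset.range ((a.1.2 ⬝ᵥ τ).toNat + 1), Real.exp (-(2 * t₂ * (CL Φ a.1 τ - (rd Φ).Q (τ - (i : ℤ) • a.1.1)))) *
          ‖∫ s, eu (dz (τ - (i : ℤ) • a.1.1) s) ∂ν₁ - ∫ s, eu (dz (τ - (i : ℤ) • a.1.1) s) ∂ν₂‖ ^ 2 ≤
        b * (((a.1.2 ⬝ᵥ τ : ℤ) : ℝ) + 1) * ∏ p ∈ (pos Φ).erase a.1, (1 + t₁ * ((p.2 ⬝ᵥ τ : ℤ) : ℝ) ^ 2)) →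
    ∀ F : H → ℂ, Continuous F →
      ∫ h, ∫ g, ‖∫ s, VV κ h F (g * tt H Hc s) ∂ν₁ - ∫ s, VV κ h F (g * tt H Hc s) ∂ν₂‖ ^ 2 ∂μ ∂μ ≤
        C * b * ∫ g, ‖F g‖ ^ 2 ∂μ

def M_L2C : Prop := S_WFAC → S_QUAD → S_STR → S_HMC → S_GLB → S_L2A → S_L2C

/-! ### the heat flow on the torus -/

/-- Gaussian displacement: for `z` with `ZM` the exponential `eu (dz m ·)` is multiplied by `exp (-s Q m)` -/
def gy {r : ℕ} (z : Matrix (Fin r) (Fin r) ℝ) (s : ℝ) (ξ : Fin r → ℝ) : Fin r → ℝ :=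
  fun j => √(2 * s) / (2 * π) * ∑ l, ξ l * z l j

/-- the heat flow on the torus -/
def TH {r : ℕ} (z : Matrix (Fin r) (Fin r) ℝ) (s : ℝ) (f : (Fin r → ℝ) → ℝ) (θ : Fin r → ℝ) : ℝ :=
  ∫ ξ, f (θ + gy z s ξ) ∂(ga r)

/-- `sin (π a·θ)` -/
def al {r : ℕ} (a : (Fin r → ℤ) × (Fin r → ℤ)) (θ : Fin r → ℝ) : ℝ := Real.sin (π * dz a.1 θ)

/-- the reflection in the wall `a.1·θ = k` -/
def ar {r : ℕ} (a : (Fin r → ℤ) × (Fin r → ℤ)) (k : ℤ) (θ : Fin r → ℝ) : Fin r → ℝ :=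
  fun i => θ i - (dz a.1 θ - k) * (a.2 i : ℝ)

/-- facts about the heat flow on the torus -/
structure THF {r : ℕ} (Φ : RT r) (z : Matrix (Fin r) (Fin r) ℝ) : Prop where
  cont : ∀ (s : ℝ) (f : (Fin r → ℝ) → ℝ), Continuous f → (∃ C, ∀ θ, |f θ| ≤ C) → Continuous (TH z s f)
  int : ∀ (s : ℝ) (f : (Fin r → ℝ) → ℝ) (θ : Fin r → ℝ), Continuous f → (∃ C, ∀ θ, |f θ| ≤ C) → Integrable (fun ξ => f (θ + gy z s ξ)) (ga r)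
  expo : ∀ s : ℝ, 0 ≤ s → ∀ (m : Fin r → ℤ) (θ : Fin r → ℝ),
    ∫ ξ, eu (dz m (θ + gy z s ξ)) ∂(ga r) = ((Real.exp (-(s * (rd Φ).Q m)) : ℝ) : ℂ) * eu (dz m θ)
  half : ∀ s : ℝ, 0 ≤ s → ∀ (m : Fin r → ℤ), ∀ a ∈ pos Φ, ∀ θ : Fin r → ℝ,
    ∫ ξ, eu (dz m (θ + gy z s ξ) + dz a.1 (θ + gy z s ξ) / 2) ∂(ga r) =
      ((Real.exp (-(s * ((rd Φ).Q m + ip Φ a.1 m / 2 + (rd Φ).Q a.1 / 4))) : ℝ) : ℂ) * eu (dz m θ + dz a.1 θ / 2)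
  al : ∀ s : ℝ, 0 ≤ s → ∀ a ∈ pos Φ, ∀ θ, TH z s (al a) θ = Real.exp (-(s * ((rd Φ).Q a.1 / 4))) * al a θ
  adj : ∀ (s : ℝ) (f g : (Fin r → ℝ) → ℝ), Continuous f → (∃ C, ∀ θ, |f θ| ≤ C) → Continuous g → (∃ C, ∀ θ, |g θ| ≤ C) →
    (∀ (n : Fin r → ℤ) (θ θ' : Fin r → ℝ), f (θ + fun i => (n i : ℝ)) * g (θ' + fun i => (n i : ℝ)) = f θ * g θ') →
    ∫ θ in Set.Icc (0 : Fin r → ℝ) 1, f θ * TH z s g θ = ∫ θ in Set.Icc (0 : Fin r → ℝ) 1, TH z s f θ * g θ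
  sym : ∀ s : ℝ, ∀ a ∈ pos Φ, ∀ f : (Fin r → ℝ) → ℝ, Continuous f → (∃ C, ∀ θ, |f θ| ≤ C) →
    ∫ ξ, f (ar a 0 (gy z s ξ)) ∂(ga r) = ∫ ξ, f (gy z s ξ) ∂(ga r)
  tail : ∀ j : ℕ, 1 ≤ j → ∃ C : ℝ, 0 ≤ C ∧ ∀ s R : ℝ, 0 ≤ s → 0 < R →
    ∫ ξ in {ξ | ∃ i, R < |gy z s ξ i|}, (1 + (∑ i, |gy z s ξ i|) / R) ∂(ga r) ≤ C * (s / R ^ 2) ^ j

/-- THG. `dz m (gy ξ) = √(2s)/(2π) ξ·(z m)` is Gaussian with the variance `2 s |z m|²/(2π)²`, `|z m|² = m·Am/2 = Q m` (`ZM`, QUAD); `E exp (i t G) = exp (-t² Var/2)`. `half`: the same for the real vector `m + a.1/2`, `|z (m + a.1/2)|² = Q m + (m, a.1) + Q(a.1)/4`, `(m, a.1) = ip a.1 m/2`. `al`: `sin = Im exp`. `adj`: Fubini, substitute `θ ↦ θ - gy ξ` (the integrand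
`(θ, ξ) ↦ f θ g (θ + gy ξ)` is periodic in `θ`: take `n`; the integral of a periodic continuous function over a translate of the unit cube is the same) and `ξ ↦ -ξ`. `sym`: `ar a 0 (gy ξ) = gy (R ξ)` with the reflection `R ξ = ξ - 2 (u·ξ)/(u·u) u`, `u = z a.1` (QUAD: `A a.1 = Q(a.1) a.2`, `u·u = Q(a.1)`, `zᵀ u = A a.1/2 = (Q(a.1)/2) a.2`), which is orthogonal and preserves `ga r`
(its density is a function of `|ξ|`). `tail`: moments, `E |gy i|^(2j) ≤ C_j s^j`, Chebyshev: `(1 + S) 1[S ≥ 1] ≤ 2 S^(2j)`, `S = ∑ |gy i|/R`, `j ≥ 1`. -/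
def S_THG : Prop := ∀ (r : ℕ) (Φ : RT r) (B : Matrix (Fin r) (Fin r) ℤ), 1 ≤ r → IRD Φ B → WFF Φ B →
  ∀ z, ZM Φ z → THF Φ z

def M_THG : Prop := S_QUAD → S_THG

/-- PO1. The Gaussian average of a function which is odd with respect to all integers and `≥ 0` on `[0, 1]` is `≥ 0` on `[0, 1]` (positivity of the Dirichlet heat kernel). `f (-w) = -f w`, `f (2 - w) = -f w`, so `f` has the period `2`, `f 0 = f 1 = 0`. We may assume `σ ≥ 0`. For `q ≥ 1`, `h = 1/q` let `B g w = (g (w + h) + g (w - h))/2`. `B` preserves the oddness, and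
if `g ≥ 0` on the points `i h`, `0 ≤ i ≤ q`, then so is `B g` (`B g = 0` at `0` and `1` by oddness; for `0 < i < q` both neighbours are in `[0, 1]`). So `B^M f (i h) ≥ 0` for all `M`. Let `M = ⌊σ² q²⌋`. `B^M f → g`, `g w = ∫ f (w + σ ξ)`, uniformly as `q → ∞`: both operators are contractions for the sup norm and linear, so it is enough to check `exp (i π n w)` (trigonometric polynomials of period `2`
are dense: `span_fourier_closure_eq_top`): `B^M` multiplies it by `cos (π n h)^M → exp (-π² n² σ²/2)` (`|cos x - exp (-x²/2)| ≤ x⁴`). For `w ∈ [0, 1]` take the lattice points `⌊q w⌋/q → w`. -/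
def S_PO1 : Prop := ∀ f : ℝ → ℝ, Continuous f → (∀ (k : ℤ) (w : ℝ), f (2 * k - w) = -f w) →
  (∀ w, 0 ≤ w → w ≤ 1 → 0 ≤ f w) → ∀ σ w : ℝ, 0 ≤ w → w ≤ 1 →
  0 ≤ ∫ ξ, f (w + σ * ξ) ∂(ProbabilityTheory.gaussianReal 0 1)

/-- POS. Let `u = z a.1`, `|u|² = Q(a.1) > 0` (`ZM`, QUAD), and `O` an orthogonal matrix with the first column `u/|u|`; `ga r` is invariant under `O`. In the coordinates `ξ = O ζ`: `gy ξ = (σ ζ_0/2) a.2 + y'`, `σ = √(2 s Q(a.1))/(2π)`, where `y'` depends on `ζ_1, ...` only and `dz a.1 y' = 0` (`zᵀ u = A a.1/2 = (Q(a.1)/2) a.2`). By Fubini it is enough that for `η = θ + y'`,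
`u₀ = dz a.1 θ = dz a.1 η`: `0 ≤ sin (π u₀) ∫ f (u₀ + σ ζ) dζ`, `f w = F (η + ((w - u₀)/2) a.2)`. The point `η + ((w - u₀)/2) a.2` has `dz a.1 = w`, `ar a k` maps it to the point for `2 k - w`, so `f (2 k - w) = -f w`, and `sin (π w) f w ≥ 0`, so `f ≥ 0` on `[0, 1]`. PO1 for `u₀ ∈ [0, 1]`; the function `w ↦ ∫ f (w + σ ζ)` has the same symmetries as `f` (and as `sin (π w)`), so the claim
holds for all `u₀`. -/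
def S_POS : Prop := ∀ (r : ℕ) (Φ : RT r) (B : Matrix (Fin r) (Fin r) ℤ), 1 ≤ r → IRD Φ B → WFF Φ B →
  ∀ z, ZM Φ z → ∀ a ∈ pos Φ, ∀ (s : ℝ) (F : (Fin r → ℝ) → ℝ), 0 ≤ s → Continuous F → (∃ C, ∀ θ, |F θ| ≤ C) →
    (∀ (k : ℤ) θ, F (ar a k θ) = -F θ) → (∀ θ, 0 ≤ al a θ * F θ) → ∀ θ, 0 ≤ al a θ * TH z s F θ

def M_POS : Prop := S_QUAD → S_PO1 → S_POS

/-- TLE. Tails. Let `u = dz a.1 θ`, `k = round u`, `y = gy ξ`, `v = dz a.1 y`, `E` the Gaussian average. By `THF.sym` `y` may be replaced by `ar a 0 y = y - v a.2`, for which `dz a.1 = -v`; and `f (θ + ar a 0 y) = f (ar a k (θ + ar a 0 y)) = f (ar a k θ + y)`. So `TH (al f) θ = E sin(π(u + v)) f(θ + y) = (1/2) E [sin(π(u + v)) f(θ + y) + sin(π(u - v)) f(ar a k θ + y)]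
= sin(π u) E [cos(π v) f(θ + y)] + (1/2) E [sin(π(u - v)) (f(ar a k θ + y) - f(θ + y))]`. The first term: `f(θ + y) = 0` if all `|y i| ≤ c m`. The second: `f (ar a k θ + y) = f (θ + ar a 0 y)` is `0` if all `|y i| ≤ c' m` (`|ar a 0 y| ≤ C_a |y|`); `ar a k θ - θ = -(u - k) a.2`, so the difference is at most `min 2 (L nd u/m)`, `|sin(π(u - v))| ≤ π (nd u + |v|)`, and
`(nd u + |v|) min 2 (L nd u/m) ≤ C nd u (1 + |y|/m)` (distinguish `nd u ≤ m` and `nd u > m`), `2 nd u ≤ |sin (π u)|`. `THF.tail` with `R = c' m`. -/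
def S_TLE : Prop := ∀ (r : ℕ) (Φ : RT r) (B : Matrix (Fin r) (Fin r) ℤ), 1 ≤ r → IRD Φ B → WFF Φ B →
  ∀ z, ZM Φ z → ∀ a ∈ pos Φ, ∀ (c L : ℝ) (j : ℕ), 0 < c → 0 ≤ L → 1 ≤ j → ∃ C : ℝ, 0 ≤ C ∧
    ∀ (s m : ℝ) (f : (Fin r → ℝ) → ℝ), 0 ≤ s → 0 < m → Continuous f → (∀ θ, |f θ| ≤ 1) →
    (∀ (k : ℤ) θ, f (ar a k θ) = f θ) → (∀ (θ : Fin r → ℝ) (w : ℝ), |f (θ + fun i => w * (a.2 i : ℝ)) - f θ| ≤ L * |w| / m) →
    ∀ θ, (∀ y : Fin r → ℝ, (∀ i, |y i| ≤ c * m) → f (θ + y) = 0) →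
      |TH z s (fun θ' => al a θ' * f θ') θ| ≤ C * (s / m ^ 2) ^ j * |al a θ|

def M_TLE : Prop := S_THG → S_TLE

/-- the cutoff: `0` for `nd v ≤ m`, `1` for `nd v ≥ 2 m` -/
def ch (m v : ℝ) : ℝ := max 0 (min 1 (nd v / m - 1))

/-- the product of the cutoffs for the roots different from `a` -/
def et {r : ℕ} (Φ : RT r) (a : (Fin r → ℤ) × (Fin r → ℤ)) (m : ℝ) (θ : Fin r → ℝ) : ℝ :=
  ∏ p ∈ (pos Φ).erase a, ch m (dz p.1 θ)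

/-- KEY. `0 ≤ et ≤ 1`; `et` is continuous (`nd` is), `|et(θ + w a.2) - et θ| ≤ L |w|/m`, and invariant under `ar a k`: `dz p.1 (ar a k θ) = dz (s_a p.1) θ + k (p.1·a.2)`, `s_a` permutes the roots `± p`, `p ≠ a` (`WFF.perm` for `rf a`, `IRD.red`), `nd` is even and has the period `1`; `al (ar a k θ) = - al θ`. Let `R₁` be the set of the `θ` with `nd (dz p.1 θ) ≥ 2 m` for all `p ≠ a`. `e = exp (-(s₁ Q(a.1)/4))`.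
`θ ∈ R₁`: POS for `F = al (1 - et (4m))` and `THF.al` give `al TH_(s₂) (al et(4m)) ≤ al TH_(s₂) al ≤ al²`; and `al TH_(s₁) (al et(m/2)) = e al² - al TH_(s₁)(al (1 - et(m/2))) ≥ (e - C s₁/m²) al² ≥ (e/2) al²` by TLE for `f = 1 - et(m/2)`, `j = 1`: `f(θ + y) = 0` for small `|y|/m` as `nd (dz p.1 (θ + y)) ≥ m`. `θ ∉ R₁`: `|TH_(s₂) (al et(4m)) θ| ≤ C (s₂/m²)^j |al θ|` by TLE (`nd (dz p.1 (θ + y)) < 4m`
for some `p` and small `|y|/m`), and `al TH_(s₁) (al et(m/2)) ≥ 0` by POS. -/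
def S_KEY : Prop := ∀ (r : ℕ) (Φ : RT r) (B : Matrix (Fin r) (Fin r) ℤ), 1 ≤ r → IRD Φ B → WFF Φ B →
  ∀ z, ZM Φ z → ∀ a ∈ pos Φ, ∀ j : ℕ, 1 ≤ j → ∃ C η₀ : ℝ, 0 ≤ C ∧ 0 < η₀ ∧
    ∀ s₁ s₂ m : ℝ, 0 ≤ s₂ → s₂ ≤ s₁ → s₁ ≤ 1 → 0 < m → s₁ ≤ η₀ * m ^ 2 → ∀ θ,
      al a θ * TH z s₂ (fun θ' => al a θ' * et Φ a (4 * m) θ') θ ≤
        C * (al a θ * TH z s₁ (fun θ' => al a θ' * et Φ a (m / 2) θ') θ) + C * (s₁ / m ^ 2) ^ j * al a θ ^ 2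

def M_KEY : Prop := S_THG → S_POS → S_TLE → S_KEY

/-! ### the `L¹` bound -/

/-- GTI. Both identities are linear in `φ` (also for complex `φ`, with the complex integrals) and both sides are bounded by `C sup |φ|`; `φ` is a uniform limit of linear combinations of irreducible characters (DENC), so take `φ = σ.ch`, `σ` irreducible, polynomial, `l` (NORR), `U`, `μ`, `x`, `τ` from STR (`WS`). HMC: `∫ σ dκ = U diag (exp (-ec)) Uᴴ`, so `P θ = tr (K σ(tt θ) K) = ∑ j, exp (-2 ec l t₁ t₂ (μ j) (x j)) eu (dz (μ j) θ)`.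
For `m = τ - i a.1`, `x = a.2·τ + 1` (as in TRC) `ec = t₁ (Q l - Q 1 - CL τ) + t₂ (CL τ - Q m)`. Put `c_s = exp (-2 t₁ (Q l - Q 1 - CL (τ s)))`, `Y_s θ = sin (π dz a.1 θ) ∑_(i ≤ a.2·τ s) eu (dz (τ s - i a.1) θ) = (1/2i)(eu (dz (τ s) θ + dz a.1 θ/2) - eu (dz (τ s - (a.2·τ s + 1) a.1) θ + dz a.1 θ/2))` (telescoping). `THF.half` with `Q m + ip a.1 m/2 + Q(a.1)/4 = CL m + Q(a.1)/4` and
`CL (τ - (a.2·τ+1) a.1) = CL τ`: the heat flow for the time `v` multiplies `Y_s` by `exp (-v (CL (τ s) + Q(a.1)/4))`. (i) `P = ∑ s, c_s ∑ i, exp (-2 t₂ (CL τ - Q m)) eu (dz m θ)`, so by `THF.expo` `TH (2 t₂) P = ∑ s, c_s exp (-2 t₂ CL (τ s)) ∑ i, eu (dz m θ)`, times `al`: `∑ s, c_s exp (-2 t₂ CL) Y_s`; and `al f₂ = ∑ s, c_s Y_s`. (ii) `TH (2 t₁) (al f₂) = ∑ s, exp (-2 t₁ (Q l - Q 1) - 2 t₁ Q(a.1)/4) Y_s`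
`= exp (-2 t₁ Q(a.1)/4) al exp (-2 t₁ (Q l - Q 1)) σ.ch (tt θ)`, and `g₃ = exp (-2 t₁ (Q l - Q 1)) σ.ch (tt θ)` (HMF). -/
def S_GTI : Prop := ∀ (N : ℕ) (H : Subgroup (SU N)) (r : ℕ) (Φ : RT r) (B : Matrix (Fin r) (Fin r) ℤ)
  (Hc : Fin r → MT N) (E : (Fin r → ℤ) × (Fin r → ℤ) → MT N) (c k : ℝ) (d : ℕ), CX H Φ B Hc E c k d →
  ∀ z, ZM Φ z → ∀ (a : {p // p ∈ pos Φ}) (t₁ t₂ : ℝ) (κ κ' ϖ : Measure H), 0 < t₁ → 0 ≤ t₂ →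
  PC H Φ E c k a t₁ t₂ κ → PC H Φ E c k a t₁ 0 κ' → GM H c k d (2 * t₁) ϖ →
  ∀ φ : H → ℝ, Continuous φ → (∀ g h : H, φ (h * g * h⁻¹) = φ g) →
  (∀ θ, al a.1 θ * TH z (2 * t₂) (fun θ' => ∫ y, ∫ y', φ (y * tt H Hc θ' * y') ∂κ ∂κ) θ =
    Real.exp (2 * t₂ * ((rd Φ).Q a.1.1 / 4)) *
      TH z (2 * t₂) (fun θ' => al a.1 θ' * ∫ y, ∫ y', φ (y * tt H Hc θ' * y') ∂κ' ∂κ') θ) ∧
  ∀ θ, TH z (2 * t₁) (fun θ' => al a.1 θ' * ∫ y, ∫ y', φ (y * tt H Hc θ' * y') ∂κ' ∂κ') θ =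
    Real.exp (-(2 * t₁ * ((rd Φ).Q a.1.1 / 4))) * (al a.1 θ * ∫ x, φ (tt H Hc θ * x) ∂ϖ)

def M_GTI : Prop := S_LIEB → S_WFAC → S_QUAD → S_TAUF → S_PFFX → S_DENC → S_NORR → S_HMF → S_STR → S_HMC → S_THG → S_GTI

/-- JBC. The `L¹` bound for the chain packets, all roots resolved. Let `φ u = ∫_h ∫_g f₁ g f₂ (g h u h⁻¹)`, a continuous class function `≥ 0`, `∫ φ = ∫ f₁ ∫ f₂`. Substituting `g ↦ g h y⁻¹` (invariance of `μ`; `κ` is symmetric, SYK) the left side is `∫_(θ ∈ S) P θ`, `P θ = ∫ ∫ φ (y tt(θ) y') dκ dκ ≥ 0`, periodic and continuous. `κ'`, `ϖ` from EXI, `f₂' = ∫ ∫ φ (y tt y') dκ' dκ'`, `g₃ = ∫ φ (tt x) dϖ` as in GTI, `z` from HRM.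
(1) Let `e₁ = et Φ a (m/4)`. For `θ ∈ S` and `|y i| ≤ c min ma m` (probability `≥ 1/2` for `y = gy z (2 t₂) ξ` by `THF.tail`, `t₂ ≤ η₀ ma²`, `t₂ ≤ t₁ ≤ η₀ m²`, `η₀` small): `e₁(θ + y) = 1`, `|al(θ + y)| ≥ 2 nd (dz a.1 (θ + y)) ≥ ma`. So `1_S ≤ 2 ma⁻² TH (al² e₁)`, and with the periodicity `∫_S P ≤ 2 ma⁻² ∫_Q TH(al² e₁) P`, `Q = [0,1]^r`, `= 2 ma⁻² ∫_Q al e₁ (al TH P)` (`THF.adj`) `≤ C ma⁻² ∫_Q al e₁ TH_(2t₂)(al f₂')`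
(GTI (i), `t₂ ≤ 1`) `= C ma⁻² ∫_Q (al TH_(2t₂)(al e₁)) f₂'` (`THF.adj`; `al (θ + n) = ± al θ` with the same sign for both factors). (2) KEY with `m/16`, `s₁ = 2 t₁`, `s₂ = 2 t₂`, `f₂' ≥ 0`: with `e₂ = et Φ a (m/32)` it is `≤ C ma⁻² ∫_Q al TH_(2t₁)(al e₂) f₂' + C ma⁻² (t₁/m²)^j ∫_Q al² f₂'`. By `THF.adj` and GTI (ii) the first integral is `≤ ∫_Q al² e₂ g₃`, and `∫_Q al² f₂' = ∫_Q al² g₃` (the same with `e₂ = 1`,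
`THF.al`). (3) `al² e₂ ≤ C m^(-2(n-1)) ‖AT 1 θ‖²` (DENO: `‖AT 1 θ‖² = ∏ ‖1 - eu (dz p.1 θ)‖²`, `‖1 - eu y‖ = 2 |sin (π y)| ≥ 4 nd y`), and by WIF for the class function `x ↦ ∫ φ (x y) dϖ(y)` (`ϖ` is invariant under conjugation: UNI, HMF) `∫_Q ‖AT 1 θ‖² g₃ = |W| ∫ φ dμ`. (4) `g₃ ≤ C t₁^(-d/2) ∫ φ dμ` (HKM, HKS for the time `2 t₁ ≤ 1`; `χ` from GXOC). -/
def S_JBC : Prop := ∀ (N : ℕ) (H : Subgroup (SU N)) (r : ℕ) (Φ : RT r) (B : Matrix (Fin r) (Fin r) ℤ)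
  (Hc : Fin r → MT N) (E : (Fin r → ℤ) × (Fin r → ℤ) → MT N) (c k : ℝ) (d : ℕ), CX H Φ B Hc E c k d →
  ∀ (μ : Measure H) [IsProbabilityMeasure μ] [μ.IsMulLeftInvariant] (j : ℕ), 1 ≤ j → ∃ C η₀ : ℝ, 0 ≤ C ∧ 0 < η₀ ∧
    ∀ (a : {p // p ∈ pos Φ}) (t₁ t₂ : ℝ) (κ : Measure H), 0 < t₂ → t₂ ≤ t₁ → t₁ ≤ 1 / 2 → PC H Φ E c k a t₁ t₂ κ →
    ∀ ma m : ℝ, 0 < ma → 0 < m → t₂ ≤ η₀ * ma ^ 2 → t₁ ≤ η₀ * m ^ 2 →
    ∀ (S : Set (Fin r → ℝ)) (b : Fin r → ℝ), MeasurableSet S → S ⊆ Set.Icc b (fun i => b i + 1) →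
      (∀ θ ∈ S, ma ≤ nd (dz a.1.1 θ) ∧ ∀ p ∈ (pos Φ).erase a.1, m ≤ nd (dz p.1 θ)) →
    ∀ f₁ f₂ : H → ℝ, Continuous f₁ → Continuous f₂ → (∀ x, 0 ≤ f₁ x) → (∀ x, 0 ≤ f₂ x) →
      ∫ h, ∫ g, (∫ θ in S, (∫ y, f₁ (g * y * h⁻¹) ∂κ) * (∫ y, f₂ (g * tt H Hc θ * y * h⁻¹) ∂κ)) ∂μ ∂μ ≤
        C * (1 / ma ^ 2) * (1 / m ^ (2 * ((pos Φ).card - 1)) + t₁ ^ (-((d : ℝ) / 2)) * (t₁ / m ^ 2) ^ j) *
          ((∫ x, f₁ x ∂μ) * ∫ x, f₂ x ∂μ)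

def M_JBC : Prop := S_HAAR → S_LIEB → S_WFAC → S_DENO → S_TAUF → S_GXOC → S_UNI → S_EXI → S_SYK → S_HMF → S_HRM →
  S_HKS → S_HKM → S_PSF → S_WIF → S_THG → S_KEY → S_GTI → S_JBC

end

end STZ3
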