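import Pool.Agent.LGR.StC

/-!
# Compact simple groups of rank two: the top levels (section T of `PAPER.md`)

Module `X` proves `theorem t_X : M_X` (or `t_X : S_X` if there is no `M_X`) in the file `Pool/Agent/STZ3/X.lean`, namespace `STZ3`. Import this file (and Mathlib, and files with lemmas), not the proofs of the other modules; the hypotheses `S_...` of `M_X` are the facts which may be used.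

`X = 2 ^ J` is the scale of the frequencies, `n = |ι|` the number of positive roots, `z i = J - y i`, `m` is the integral of `‖G‖` over `[0, 1] × M`.
-/

namespace STZ3

open STZ LGR MeasureTheory Matrix Filter

open scoped ComplexConjugate Matrix Real Topology

noncomputable section

/-! ### exponential sums near rationals -/

/-- WSG. As WPT (WPT.lean), with the exponent `σ < 1` instead of `3/4`. The term `x = 0` is `R`. If `q ∤ x` (`q = ρ.den`, `ρ = a/q`, `β = t - ρ`): `nd (t x) ≥ nd (a x/q)/2`, these terms give `O(R (1 + log R))`. If `x = q j`, `1 ≤ |j| ≤ L = ⌊c R/q⌋`: `nd (t x) = q |β| |j|`, and `mn R (t x) = R / max 1 (2 R q |β| |j|) ≤ R min 1 ((2 R q |β| |j|)^(-σ))`. The sum over `j` is at most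
`2 R L` and at most `2 R (2 R q |β|)^(-σ) ∑_(j ≤ L) j^(-σ) ≤ 2 R (2 R q |β|)^(-σ) L^(1-σ)/(1-σ)`. With `L ≤ c R/q` both are at most `C (R²/q) (R² |β|)^(-σ)` respectively `C R²/q`; so the sum is at most `C (R²/q) (1 + R² |β|)^(-σ)` (`1 + b ≤ 2 max 1 b`). -/
def S_WSG : Prop := ∀ (c : ℕ) (σ : ℝ), 1 ≤ c → 0 < σ → σ < 1 → ∃ C : ℝ, 0 ≤ C ∧
  ∀ (R : ℕ) (t : ℝ) (ρ : ℚ), 1 ≤ R → ρ.den ≤ 2 * c * R → |t - ρ| ≤ 1 / (ρ.den * (2 * c * R)) →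
    WW R c t ≤ C * (R * (1 + Real.log R) + (R : ℝ) ^ 2 / ρ.den * (1 + (R : ℝ) ^ 2 * |t - ρ|) ^ (-σ))

/-- GTA. Times with large sums are near one rational, the same for all scales. Let `X = 2^J`. Dirichlet (`Real.exists_rat_abs_sub_le_and_den_le`, `n = 2 c X`): `ρ` with `q = ρ.den ≤ 2 c X`, `|τ - ρ| ≤ 1/((2 c X + 1) q)`. WSG for `R = X`: `WW X/X² ≤ C ((1 + log X)/X + q⁻¹ (1 + X² |τ - ρ|)^(-σ))`. By the hypotheses `WW X/X² ≥ a Λ⁻² ≥ a X^(-1/5)`, so for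
`J ≥ J₀` the first term is at most half of the left side: this is (iii). With `WW X/X² ≥ a Λ⁻²` (ii) follows, and (i) from (ii). (iv): let `R = 2^y ≥ X/(K Λ⁴) ≥ X^(3/5)/K`. By (i) `q ≤ C X^(1/5) ≤ 2 c R` if `J ≥ J₀`, and `|τ - ρ| ≤ 1/(q 2 c X) ≤ 1/(q 2 c R)`. WSG: `WW R ≤ C (R (1 + log R) + (R²/q) (1 + R² |τ - ρ|)^(-σ))`, and the first term is at most the second one:
`q (1 + R² |τ - ρ|)^σ ≤ q (1 + X² |τ - ρ|)^σ ≤ C Λ² ≤ C X^(1/5)` by (ii), while `R/(1 + log R) ≥ c' X^(2/5)`. -/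
def S_GTA : Prop := ∀ (c : ℕ) (σ a K : ℝ), 1 ≤ c → 0 < σ → σ < 1 → 0 < a → 0 < K → ∃ (C : ℝ) (J₀ : ℕ), 1 ≤ C ∧
  ∀ (J : ℕ) (Λ τ : ℝ), J₀ ≤ J → 1 ≤ Λ → Λ ^ 10 ≤ 2 ^ J → a / Λ ^ 2 ≤ WW (2 ^ J) c τ / (2 ^ J) ^ 2 →
    ∃ ρ : ℚ, (ρ.den : ℝ) ≤ C * Λ ^ 2 ∧ ρ.den * (1 + (2 ^ J) ^ 2 * |τ - ρ|) ^ σ ≤ C * Λ ^ 2 ∧
      WW (2 ^ J) c τ ≤ C * ((2 ^ J) ^ 2 / ρ.den * (1 + (2 ^ J) ^ 2 * |τ - ρ|) ^ (-σ)) ∧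
      ∀ y : ℕ, y ≤ J → (2 : ℝ) ^ (J - y) ≤ K * Λ ^ 4 →
        WW (2 ^ y) c τ ≤ C * ((2 ^ y) ^ 2 / ρ.den * (1 + (2 ^ y) ^ 2 * |τ - ρ|) ^ (-σ))

def M_GTA : Prop := S_WSG → S_GTA

/-! ### counting -/

/-- `x` is within `δ` of a rational with a denominator in `[R, 2 R)` (not necessarily reduced) -/
def nr (R : ℕ) (δ x : ℝ) : Prop := ∃ (q : ℕ) (a : ℤ), R ≤ q ∧ q < 2 * R ∧ |x - a / q| ≤ δ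

open Classical in
/-- the matrix of the pairs of cells -/
def cM (R L : ℕ) : Matrix (Fin L) (Fin L) ℝ :=
  Matrix.of fun i j => if nr R (3 / L) (((i.val : ℝ) - (j.val : ℝ)) / L) then 1 else 0

/-- LCB. Sort the tuples by `l = lcm`: every `q i` is a divisor of `l`, so there are at most `τ(l)^n` tuples, and `l ≤ (2 R)^n`. Divisor bound `τ(l) ≤ C l^δ` (`Pool.Agent.Lib_helper91.exists_divisor_bound` in `Pool/Agent/Lib_helper91/Div.lean`), `∑_(l ≤ M) 1/l ≤ 1 + log M`: the sum is at most `C (2 R)^(n² δ) (1 + n log (2 R)) ≤ C R^ε` for small `δ`. -/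
def S_LCB : Prop := ∀ (n : ℕ) (ε : ℝ), 0 < ε → ∃ C : ℝ, 0 ≤ C ∧ ∀ R : ℕ, 1 ≤ R →
  ∑ q ∈ Fintype.piFinset (fun _ : Fin n => Finset.Ico R (2 * R)), (1 : ℝ) / ((Finset.univ.lcm q : ℕ) : ℝ) ≤
    C * (R : ℝ) ^ ε

/-- ENT. The entries of the powers. `cM ≤ ∑_(q ∈ [R, 2R)) A_q` entrywise, `A_q i j = 1` if `|(i - j)/L - a/q| ≤ 3/L` for some `a ∈ ℤ`, else `0`; so `(cM^n) i j ≤ ∑_(q₁, .., q_n) (A_(q₁) ⋯ A_(q_n)) i j`, and the last entry is the number of the `(α_1, .., α_(n-1))` (`α_0 = i`, `α_n = j`) such that for every `s` there is `a_s ∈ ℤ` with `|(α_(s-1) - α_s)/L - a_s/q_s| ≤ 3/L`.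
Choose `a_s`; `|a_s| ≤ 2 q_s` (if `L ≥ 3`). For given `a` there are at most `7^n` tuples `α` (`α_s` is within `3` of `α_(s-1) - L a_s/q_s`). The tuples `a` satisfy `|∑ a_s/q_s - (i - j)/L| ≤ 3 n/L`, and different values of `∑ a_s/q_s` differ by at least `1/lcm ≥ (2R)^(-n) > 6 n/L` if `K > 6 n 2^n`: all the values `∑ a_s/q_s` are equal. The number of the `a` with `|a_s| ≤ 2 q_s` and
`∑ a_s/q_s = v` (given) is at most `5^n ∏ q_s/lcm(q_s)`: by induction on `n`, the number of the `a mod q` with `∑ a_s/q_s ≡ v mod 1` is at most `∏ q_s/lcm`: if `l` is the lcm of `q_1, .., q_(n-1)`, then `v - a_n/q_n ∈ (1/l) ℤ`, and this has at most `gcd (q_n, l)` solutions `a_n mod q_n` (the difference of two is divisible by `q_n/gcd`), `lcm (q_n, l) = q_n l/gcd (q_n, l)`; every class mod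 `q_s` has at most `5`
members in `[-2 q_s, 2 q_s]`. So the entry is at most `C (2 R)^n ∑_q 1/lcm q`; LCB. -/
def S_ENT : Prop := ∀ (n : ℕ) (ε : ℝ), 1 ≤ n → 0 < ε → ∃ (K : ℕ) (C : ℝ), 0 ≤ C ∧ ∀ R L : ℕ, 1 ≤ R → K * R ^ n ≤ L →
  ∀ i j, (cM R L ^ n) i j ≤ C * (R : ℝ) ^ ((n : ℝ) + ε)

def M_ENT : Prop := S_LCB → S_ENT

/-- SPE. Spectral inequality. Let `λ_l`, `v_l` be the eigenvalues and an orthonormal basis of eigenvectors of `M` (`Matrix.IsHermitian.spectral_theorem`), `N(F)² = ∑ |λ_l| ⟨F, v_l⟩²`. Then `|⟨M F, F'⟩| ≤ N(F) N(F')` (Cauchy-Schwarz) and by Hölder `N(F)² ≤ (∑ λ_l^(2k) ⟨F, v_l⟩²)^(1/2k) (∑ ⟨F, v_l⟩²)^(1-1/2k) = ⟨M^(2k) F, F⟩^(1/2k) ‖F‖₂^(2-1/k)`. We may assume `∑ F^s = 1`, so `F ≤ 1`;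
let `S_i = {2^(-i-1) < F ≤ 2^(-i)}` (`i ≥ 0`), `F_i = F 1_(S_i)`, `|S_i| ≤ 2^(s(i+1))`. `⟨M^(2k) F_i, F_i⟩ ≤ B (2^(-i) |S_i|)²`, `‖F_i‖₂² ≤ 4^(-i) |S_i|`, so `N(F_i)² ≤ B^(1/2k) 4^(-i) |S_i|^(1+1/2k) ≤ C B^(1/2k) 2^(-2 δ i)` with `2 δ = 2 - s (1 + 1/2k) > 0`. `|⟨M F, F⟩| ≤ ∑_(i, i') N(F_i) N(F_i') = (∑ N(F_i))² ≤ C B^(1/2k)`. -/
def S_SPE : Prop := ∀ (k : ℕ) (s : ℝ), 1 ≤ k → 1 ≤ s → s * (2 * k + 1) < 4 * k → ∃ C : ℝ, 0 ≤ C ∧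
  ∀ (n : ℕ) (M : Matrix (Fin n) (Fin n) ℝ) (B : ℝ), M.IsSymm → 0 ≤ B → (∀ i j, |(M ^ (2 * k)) i j| ≤ B) →
  ∀ F : Fin n → ℝ, (∀ i, 0 ≤ F i) →
    |∑ i, ∑ j, M i j * (F i * F j)| ≤ C * B ^ (1 / (2 * (k : ℝ))) * (∑ i, F i ^ s) ^ (2 / s)

/-- CNT. (T3). Choose `k` with `s (2 k + 1) < 4 k` (`s < 2`); `cM` is symmetric (`a ↦ -a`) with nonnegative entries; ENT with `n = 2 k`, SPE with `B = C R^(2k + ε)`, `B^(1/2k) ≤ C R^(1 + ε)`. -/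
def S_CNT : Prop := ∀ s ε : ℝ, 1 ≤ s → s < 2 → 0 < ε → ∃ (K : ℕ) (C : ℝ), 1 ≤ K ∧ 0 ≤ C ∧ ∀ R L : ℕ, 1 ≤ R →
  K * R ^ K ≤ L → ∀ F : Fin L → ℝ, (∀ i, 0 ≤ F i) →
    ∑ i, ∑ j, cM R L i j * (F i * F j) ≤ C * (R : ℝ) ^ (1 + ε) * (∑ i, F i ^ s) ^ (2 / s)

def M_CNT : Prop := S_ENT → S_SPE → S_CNT

open Classical in
/-- CEL. `L = ⌈1/δ⌉`, so `1/L ≤ δ ≤ 2/L` (`δ ≤ 1`). Cells `I_α = [α/L, (α+1)/L]`, `α < L`. If `t ∈ I_α`, `s ∈ I_β` and `nr R δ (t - s)`, then `nr R (3/L) ((α - β)/L)` (`|(t - s) - (α - β)/L| ≤ 1/L`). So the integral is at most `∑ cM α β F_α F_β`, `F_α = ∫_(I_α) e^(1-1/p)`. CNT with `s = p/(p-1) ∈ (1, 2)`. Hölder: `F_α = ∫ e^(1/s) ≤ (∫_(I_α) e)^(1/s) L^(-(1-1/s))`, so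
`∑ F_α^s ≤ L^(-(s-1)) ∫ e`, `(∑ F_α^s)^(2/s) ≤ (∫ e)^(2-2/p) L^(-2/p)` (`2/s = 2 - 2/p`, `(s-1)·2/s = 2/p`), `1/L ≤ δ`. The set of the `(t, s)` with `nr R δ (t - s)` is a countable union of closed sets, so all functions are measurable and bounded. -/
def S_CEL : Prop := ∀ p ε : ℝ, 2 < p → 0 < ε → ∃ (K : ℕ) (C : ℝ), 1 ≤ K ∧ 0 ≤ C ∧ ∀ (R : ℕ) (δ : ℝ) (e : ℝ → ℝ),
  1 ≤ R → 0 < δ → K * (R : ℝ) ^ K * δ ≤ 1 → Continuous e → (∀ t, 0 ≤ e t) →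
    ∫ t in (0 : ℝ)..1, ∫ s in (0 : ℝ)..1, (if nr R δ (t - s) then (e t * e s) ^ (1 - 1 / p) else 0) ≤
      C * (R : ℝ) ^ (1 + ε) * δ ^ (2 / p) * (∫ t in (0 : ℝ)..1, e t) ^ (2 - 2 / p)

def M_CEL : Prop := S_CNT → S_CEL

/-! ### the exponents -/

/-- XIN. (T5). Let `κ = p/2 - 1`, so `2/(n+2) < κ < 1/2`, and let `f j` be the left side plus `η (∑ z + j)`; claim `f j ≤ 0`. Take `σ < 1` near `1` and `η > 0` small, such that (a) `σ (1 + κ) > 1 + η`, (b) `2 - 2 σ κ - n κ + (n + 2) η ≤ 0` (possible, as `(n + 2) κ > 2`), `η ≤ κ`. For `j ≥ 2 z₂` (`z₁ = z i₁`, `z₂ = z i₂`) the slope of `f` is `1 - σκ + η - σ < 0` by (a). For `j ≤ 2 z₂`: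
`(2 z₂ - 2 z₁) - (j - 2 z₁)₊ ≤ 2 z₂ - j`, so `f (2 z₂) - f j ≥ (1 - σκ + η - σ/2) (2 z₂ - j) ≥ 0`. So `f j ≤ f (2 z₂) = -(κ - η) ∑ z + 2 (1 - σκ + η) z₂ - σ (z₂ - z₁)`, and `∑ z ≥ z₁ + (n - 1) z₂`: it is at most `z₁ (σ - κ + η) + z₂ (2 - 2σκ + 2η - σ - (n-1)(κ - η)) ≤ z₂ (2 - 2σκ - nκ + (n + 2) η) ≤ 0` as `z₁ ≤ z₂`, `σ - κ + η ≥ 0`. -/
def S_XIN : Prop := ∀ (n : ℕ) (p : ℝ), 3 ≤ n → 2 + 4 / ((n : ℝ) + 2) < p → p < 3 → ∃ σ η : ℝ, 0 < σ ∧ σ < 1 ∧ 0 < η ∧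
  ∀ (ι : Type) [Fintype ι] (z : ι → ℝ) (i₁ i₂ : ι) (j : ℝ), Fintype.card ι = n → (∀ i, 0 ≤ z i) → i₁ ≠ i₂ →
    z i₁ ≤ z i₂ → (∀ i, i ≠ i₁ → z i₂ ≤ z i) → 0 ≤ j →
    -(p / 2 - 1) * ∑ i, z i + (1 - σ * (p / 2 - 1)) * j - σ / 2 * (max 0 (j - 2 * z i₁) + max 0 (j - 2 * z i₂)) ≤
      -η * (∑ i, z i + j)

/-! ### the bilinear form -/

/-- the bound of the kernel of the piece `y` -/
def Ay {ι : Type} [Fintype ι] (C₀ : ℝ) (c J : ℕ) (y : ι → Fin (J + 1)) (t : ℝ) : ℝ :=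
  C₀ * (((2 : ℝ) ^ J) ^ Fintype.card ι * WW (2 ^ J) c t * ∏ i, (2 : ℝ) ^ (y i).val)

/-- the bound of the operator norm of the piece `y` -/
def Ey {ι : Type} (C₀ : ℝ) (c J : ℕ) (y : ι → Fin (J + 1)) (i₁ i₂ : ι) (t : ℝ) : ℝ :=
  C₀ * (√(WW (2 ^ (y i₁).val) c t) / 2 ^ (y i₁).val * (√(WW (2 ^ (y i₂).val) c t) / 2 ^ (y i₂).val))

/-- `i₁`, `i₂` are the indices of the two largest values of `y` -/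
def Sm2 {ι : Type} {J : ℕ} (y : ι → Fin (J + 1)) (i₁ i₂ : ι) : Prop :=
  i₁ ≠ i₂ ∧ y i₂ ≤ y i₁ ∧ ∀ i, i ≠ i₁ → y i ≤ y i₂

/-- the distance of `y` to the top -/
def zt {ι : Type} {J : ℕ} (y : ι → Fin (J + 1)) (i : ι) : ℝ := (J : ℝ) - ((y i).val : ℝ)

/-- the bound of the bilinear form, `e t = ∫ ‖G t‖` -/
def MB {ι : Type} [Fintype ι] [DecidableEq ι] (C₀ : ℝ) (c J : ℕ) (i₁ i₂ : (ι → Fin (J + 1)) → ι) (e : ℝ → ℝ) : ℝ :=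
  ∑ y : ι → Fin (J + 1), ∫ t in (0 : ℝ)..1, ∫ s in (0 : ℝ)..1,
    min (Ay C₀ c J y (t - s) * (e t * e s)) (Ey C₀ c J y (i₁ y) (i₂ y) (t - s) * √(e t * e s))

/-- PTW. The pointwise bound (T1, T2, T4). Let `X = 2^J`, `n = |ι|`, `ω = WW X c τ/X²`, `Σ = ∑ z i`; `A = C₀ X^(2n+2) ω 2^(-Σ)`, `ω ≤ 3 c`. We may assume `C₀ ≥ 1`. If `C₀ ω 2^(-Σ/2) ≤ a Λ⁻²` the first alternative holds. Otherwise `ω ≥ (a/C₀) Λ⁻²` and `2^(z i) ≤ 2^Σ ≤ K Λ⁴`, `K = (3 c C₀/a)²`: GTA (with `a/C₀`, `K`) gives `ρ'`, `q = ρ'.den`, `β = τ - ρ'`. Let `2^ρ ≤ q < 2^(ρ+1)` and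
let `j` be the least natural number with `X² |β| ≤ 2^j`, so `j = 0` or `2^(j-1) < X² |β|`; `2^(σ j) ≤ 2 (1 + X² |β|)^σ ≤ C Λ²` and `nr (2^ρ) (2^j/X²) τ`. `A ≤ C X^(2n+2) 2^(-Σ) 2^(-ρ) 2^(-σ j)`, `E ≤ C q⁻¹ ∏_(i = i₁, i₂) (1 + X² 2^(-2 z i) |β|)^(-σ/2) ≤ C 2^(-ρ) 2^(-(σ/2) ∑ (j - 2 z i)₊)`. For `v = e e' ≥ 0`: `min (A v) (E √v) ≤ (A v)^(1-2/p) (E √v)^(2/p) = A^(1-2/p) E^(2/p) v^(1-1/p)`,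
and `1 - 2/p = (2/p) (p/2 - 1)`. -/
def S_PTW : Prop := ∀ (ι : Type) [Fintype ι] (c : ℕ) (σ p C₀ a : ℝ), 1 ≤ c → 0 < σ → σ < 1 → 2 < p → 0 ≤ C₀ → 0 < a →
  ∃ (C : ℝ) (J₀ : ℕ), 1 ≤ C ∧ ∀ (J : ℕ) (Λ τ v : ℝ) (y : ι → Fin (J + 1)) (i₁ i₂ : ι), J₀ ≤ J → 1 ≤ Λ →
    Λ ^ 10 ≤ 2 ^ J → 0 ≤ v →
    min (Ay C₀ c J y τ * v) (Ey C₀ c J y i₁ i₂ τ * √v) ≤
        a * (((2 : ℝ) ^ J) ^ (2 * Fintype.card ι + 2) / Λ ^ 2) * (2 : ℝ) ^ (-(∑ i, zt y i) / 2) * v ∨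
    ∃ ρ j : ℕ, (2 : ℝ) ^ ρ ≤ C * Λ ^ 2 ∧ (2 : ℝ) ^ (σ * j) ≤ C * Λ ^ 2 ∧ nr (2 ^ ρ) (2 ^ j / (2 ^ J) ^ 2) τ ∧
      min (Ay C₀ c J y τ * v) (Ey C₀ c J y i₁ i₂ τ * √v) ≤
        C * ((2 : ℝ) ^ J) ^ ((2 * (Fintype.card ι : ℝ) + 2) * (1 - 2 / p)) * (2 : ℝ) ^ (-(ρ : ℝ)) *
          (2 : ℝ) ^ (2 / p * (-(p / 2 - 1) * ∑ i, zt y i - σ * (p / 2 - 1) * j -
            σ / 2 * (max 0 (j - 2 * zt y i₁) + max 0 (j - 2 * zt y i₂)))) * v ^ (1 - 1 / p)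

def M_PTW : Prop := S_WWF → S_GTA → S_PTW

/-- TOJ. Let `X = 2^J`, `n = |ι|`, `m = ∫ e`, `ℓ = X^(n+1)/Λ`. `σ`, `η` from XIN; PTW with a small `a`; `κ` so small (depending on `K` of CEL for `p`, `ε' = ε/(2p)` and on `σ`) and `J₀` so large that `Λ ≤ X^κ` implies `Λ^10 ≤ X` and `K (2^ρ)^K 2^j/X² ≤ 1` for all `2^ρ ≤ C Λ²`, `2^(σ j) ≤ C Λ²`. For every `y`, `t`, `s` the `min` is at most the first bound plus the sum of the second ones over all the `(ρ, j)` in the range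
with `nr (2^ρ) (2^j/X²) (t - s)`. First bound: its integral is `a ℓ² 2^(-Σ/2) m²`, and `∑_y 2^(-Σ/2) ≤ (1 - 2^(-1/2))^(-n)`, so with `a` small this is at most `ℓ² m²/2`. Second: CEL with `R = 2^ρ`, `δ = 2^j/X²`, `ε'`: `C 2^(ρ (1 + ε')) 2^(2j/p) X^(-4/p) m^(2-2/p)`; with XIN the total is at most
`C X^((2n+2)(1-2/p) - 4/p) m^(2-2/p) ∑_y ∑_ρ ∑_j 2^(ε' ρ) 2^(-(2/p) η (Σ + j)) ≤ C X^((2n+2)(1-2/p) - 4/p) m^(2-2/p) Λ^(2ε')` (geometric series; `2^ρ ≤ C Λ²`). So `ℓ² m²/2 ≤ C X^(..) Λ^(2ε') m^(2-2/p)`, `m^(2/p) ≤ C ℓ⁻² X^(..) Λ^(2ε')`, and the power `p/2` of this is the claim (`Λ^(p ε') ≤ Λ^ε`;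
`(p/2) ((2n+2)(1-2/p) - 4/p) = p (n+1) - (2n+4)`). All functions are continuous, apart from the indicator functions of the sets `nr`, which are measurable. -/
def S_TOJ : Prop := ∀ (ι : Type) [Fintype ι] [DecidableEq ι] (c : ℕ) (p C₀ ε : ℝ), 3 ≤ Fintype.card ι → 1 ≤ c →
  2 + 4 / ((Fintype.card ι : ℝ) + 2) < p → p < 3 → 0 ≤ C₀ → 0 < ε → ∃ (κ C : ℝ) (J₀ : ℕ), 0 < κ ∧ 0 ≤ C ∧
  ∀ (J : ℕ) (i₁ i₂ : (ι → Fin (J + 1)) → ι), (∀ y, Sm2 y (i₁ y) (i₂ y)) → ∀ (e : ℝ → ℝ) (Λ : ℝ), J₀ ≤ J →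
    Continuous e → (∀ t, 0 ≤ e t) → 1 ≤ Λ → Λ ≤ ((2 : ℝ) ^ J) ^ κ →
    (((2 : ℝ) ^ J) ^ (Fintype.card ι + 1) / Λ * ∫ t in (0 : ℝ)..1, e t) ^ 2 ≤ MB C₀ c J i₁ i₂ e →
    ∫ t in (0 : ℝ)..1, e t ≤ C * Λ ^ (p + ε) * ((2 : ℝ) ^ J) ^ (-(2 * (Fintype.card ι : ℝ) + 4))

def M_TOJ : Prop := S_WWF → S_CEL → S_XIN → S_PTW → S_TOJ

/-- TOI. Let `X = 2^J`, `m = ∫ e ≤ 1`, `n = |ι|`. Trivial bound: `WW X ≤ 3 c X²` and `∑_y 2^(-∑ z) ≤ 2^n` give `MB ≤ C X^(2n+2) m²`; so if `m > 0` (otherwise there is nothing to prove) then `ℓ ≤ C₁ X^(n+1)`. Choose `p₀ < p` with `2 + 4/(n+2) < p₀`, `ε = p - p₀`, TOJ gives `κ₀`, `C`, `J₀`; `κ = κ₀/2`. Case `J < J₀`: `ℓ ≤ C`, `m ≤ 1` and `X^(p(n+1) - (2n+4)) ≥ c`. Case `J ≥ J₀`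
and `ℓ ≤ X^(n+1)`: `Λ = X^(n+1)/ℓ ≥ 1`, `Λ ≤ X^κ/a ≤ X^κ₀` if `X^(κ₀/2) ≥ 1/a` (enlarge `J₀`), TOJ: `m ≤ C Λ^p X^(-(2n+4)) = C X^(p(n+1) - (2n+4)) ℓ^(-p)`. Case `ℓ > X^(n+1)`: TOJ with `Λ = 1` (the hypothesis is weaker for the smaller `ℓ' = X^(n+1)`), `m ℓ^p ≤ m (C₁ ℓ')^p`. -/
def S_TOI : Prop := ∀ (ι : Type) [Fintype ι] [DecidableEq ι] (c : ℕ) (p C₀ a : ℝ), 3 ≤ Fintype.card ι → 1 ≤ c →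
  2 + 4 / ((Fintype.card ι : ℝ) + 2) < p → p < 3 → 0 ≤ C₀ → 0 < a → ∃ κ C : ℝ, 0 < κ ∧ 0 ≤ C ∧
  ∀ (J : ℕ) (i₁ i₂ : (ι → Fin (J + 1)) → ι), (∀ y, Sm2 y (i₁ y) (i₂ y)) → ∀ (e : ℝ → ℝ) (ℓ : ℝ),
    Continuous e → (∀ t, 0 ≤ e t) → (∀ t, e t ≤ 1) → a * ((2 : ℝ) ^ J) ^ ((Fintype.card ι : ℝ) + 1 - κ) ≤ ℓ →
    (ℓ * ∫ t in (0 : ℝ)..1, e t) ^ 2 ≤ MB C₀ c J i₁ i₂ e →
    (∫ t in (0 : ℝ)..1, e t) * ℓ ^ p ≤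
      C * ((2 : ℝ) ^ J) ^ (p * ((Fintype.card ι : ℝ) + 1) - (2 * (Fintype.card ι : ℝ) + 4))

def M_TOI : Prop := S_WWF → S_TOJ → S_TOI

/-- TTM. As TTY (TTY.lean; TTX.lean), up to the last step: `‖∫∫ conj G U‖² ≤ (∑ a ∈ F, nsq (u a)) ∑ a ∈ T, η a * nsq (Pr {a} (v a))`, `v a x = ∫ t, e(-t φ a) G t x`, and the last sum is `∫ t, ∫ s, ∑ j, ∫ x, conj (G t x) ∫ y, k j (t-s) x y G s y`. For every `j`, `t`, `s` the inner integral is at most `A j (t-s) e t e s` and at most `E j (t-s) √(e t) √(e s)`, `e t = ∫ x, ‖G t x‖` (`‖G‖² ≤ ‖G‖`). -/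
def S_TTM : Prop := ∀ (M : Type) [TopologicalSpace M] [CompactSpace M] [T2Space M]
  [SecondCountableTopology M] [MeasurableSpace M] [BorelSpace M] (μ : Measure M)
  [IsProbabilityMeasure μ] (ι : Type) (K : ι → M → M → ℂ), Ker μ K →
  ∀ (φ : ι → ℤ) (F T : Finset ι) (η : ι → ℝ) (κ : Type) [Fintype κ]
    (k : κ → ℝ → M → M → ℂ) (A E : κ → ℝ → ℝ),
    F ⊆ T → (∀ a ∈ T, 0 ≤ η a) → (∀ a ∈ F, 1 ≤ η a) →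
    (∀ t x y, ∑ a ∈ T, (η a : ℂ) * (eu (t * φ a) * K a x y) = ∑ j, k j t x y) →
    (∀ j, Continuous fun z : ℝ × M × M => k j z.1 z.2.1 z.2.2) →
    (∀ j, STZ.Nice (A j)) → (∀ j, STZ.Nice (E j)) → (∀ j t x y, ‖k j t x y‖ ≤ A j t) →
    (∀ j t (u v : M → ℂ), Continuous u → Continuous v →
      ‖∫ x, conj (v x) * ∫ y, k j t x y * u y ∂μ ∂μ‖ ≤ E j t * (√(nsq μ u) * √(nsq μ v))) →
    ∀ (u : ι → M → ℂ), (∀ a ∈ F, Mem μ (K a) (u a)) → ∀ G : ℝ → M → ℂ, JC G →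
      (∀ t x, ‖G t x‖ ≤ 1) →
      ‖∫ t in (0 : ℝ)..1, ∫ x, conj (G t x) * ∑ a ∈ F, eu (t * φ a) * u a x ∂μ‖ ^ 2 ≤
        (∑ a ∈ F, nsq μ (u a)) * ∑ j, ∫ t in (0 : ℝ)..1, ∫ s in (0 : ℝ)..1,
          min (A j (t - s) * ((∫ x, ‖G t x‖ ∂μ) * ∫ x, ‖G s x‖ ∂μ))
            (E j (t - s) * √((∫ x, ‖G t x‖ ∂μ) * ∫ x, ‖G s x‖ ∂μ))

def M_TTM : Prop := S_KB → S_TTM

/-! ### the top levels, the low levels and the assembly -/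

/-- the estimate for the top levels `ℓ ≥ N^(d/2 - κ)` (`d = r + e`), without loss: `m ≤ C N^(pd/2 - (d+2)) ℓ^(-p) ‖u‖^p` -/
def TLV {M : Type} [TopologicalSpace M] [MeasurableSpace M] (μ : Measure M) {ι : Type} (K : ι → M → M → ℂ)
    {r : ℕ} (e : ℝ) (w : ι → Fin r → ℤ) (Q : (Fin r → ℤ) → ℤ) (p₀ : ℝ) : Prop :=
  ∀ p : ℝ, p₀ < p → p < 3 → ∃ κ C : ℝ, 0 < κ ∧ 0 ≤ C ∧ ∀ (F : Finset ι) (u : ι → M → ℂ),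
    (∀ a ∈ F, Mem μ (K a) (u a)) → ∀ N : ℝ, 1 ≤ N → (∀ a ∈ F, sz (w a) ≤ N) → ∀ G : ℝ → M → ℂ, JC G →
    (∀ t x, ‖G t x‖ ≤ 1) → ∀ ℓ : ℝ, 0 < ℓ → N ^ ((r + e) / 2 - κ) * √(∑ a ∈ F, nsq μ (u a)) ≤ ℓ →
    ℓ * (∫ t in (0 : ℝ)..1, ∫ x, ‖G t x‖ ∂μ) ≤ ‖∫ t in (0 : ℝ)..1, ∫ x, conj (G t x) * uw w Q F u t x ∂μ‖ →
    (∫ t in (0 : ℝ)..1, ∫ x, ‖G t x‖ ∂μ) * ℓ ^ p ≤
      C * N ^ (p * (r + e) / 2 - (r + e + 2)) * (∑ a ∈ F, nsq μ (u a)) ^ (p / 2)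

/-- the estimate with loss, for the frequencies in `[α N, N]` (`α = 0` or `α = 1/2`) -/
def LLV {M : Type} [TopologicalSpace M] [MeasurableSpace M] (μ : Measure M) {ι : Type} (K : ι → M → M → ℂ)
    {r : ℕ} (e : ℝ) (w : ι → Fin r → ℤ) (Q : (Fin r → ℤ) → ℤ) (p₀ α : ℝ) : Prop :=
  ∀ ε : ℝ, 0 < ε → ∃ C : ℝ, 0 ≤ C ∧ ∀ (F : Finset ι) (u : ι → M → ℂ), (∀ a ∈ F, Mem μ (K a) (u a)) →
    ∀ N : ℝ, 1 ≤ N → (∀ a ∈ F, α * N ≤ sz (w a) ∧ sz (w a) ≤ N) → ∀ G : ℝ → M → ℂ, JC G → (∀ t x, ‖G t x‖ ≤ 1) →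
    ‖∫ t in (0 : ℝ)..1, ∫ x, conj (G t x) * uw w Q F u t x ∂μ‖ ^ 2 ≤
      C * N ^ ε * (∑ a ∈ F, nsq μ (u a)) *
        (N ^ ((r + e) * (1 - 2 / p₀) - 4 / p₀) * (∫ t in (0 : ℝ)..1, ∫ x, ‖G t x‖ ∂μ) ^ (2 - 2 / p₀) +
          N ^ (-3 : ℝ) * ∫ t in (0 : ℝ)..1, ∫ x, ‖G t x‖ ∂μ)

/-- the bound of the maximum -/
def MXB {M : Type} [TopologicalSpace M] [MeasurableSpace M] (μ : Measure M) {ι : Type} (K : ι → M → M → ℂ)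
    {r : ℕ} (e : ℝ) (w : ι → Fin r → ℤ) (Q : (Fin r → ℤ) → ℤ) : Prop :=
  ∃ C : ℝ, 0 ≤ C ∧ ∀ (F : Finset ι) (u : ι → M → ℂ), (∀ a ∈ F, Mem μ (K a) (u a)) →
    ∀ N : ℝ, 1 ≤ N → (∀ a ∈ F, sz (w a) ≤ N) → ∀ t x,
      ‖uw w Q F u t x‖ ≤ C * N ^ ((r + e) / 2) * √(∑ a ∈ F, nsq μ (u a))

/-- the claim of `LOCH` for the frequencies in `[α N, N]` -/
def LOCA {M : Type} [TopologicalSpace M] [MeasurableSpace M] (μ : Measure M) {ι : Type} (K : ι → M → M → ℂ)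
    {r : ℕ} (e : ℝ) (w : ι → Fin r → ℤ) (Q : (Fin r → ℤ) → ℤ) (p₀ α : ℝ) : Prop :=
  ∀ p : ℝ, p₀ < p → ∃ D : ℝ, 0 ≤ D ∧ ∀ (F : Finset ι) (u : ι → M → ℂ), (∀ a ∈ F, Mem μ (K a) (u a)) →
    ∀ N : ℝ, 1 ≤ N → (∀ a ∈ F, α * N ≤ sz (w a) ∧ sz (w a) ≤ N) →
      nq μ p (uw w Q F u) ≤ D * N ^ ((r + e) / 2 - (r + e + 2) / p) * √(∑ a ∈ F, nsq μ (u a))

/-- TPL. Theorem T. As in LOCW.lean: if `ι` is empty everything is zero (`uw = 0`, so `m = 0`); `KWFG` gives `C₁`, `c`, `K₀ ≥ 1`; `J` with `K₀ N ≤ 2^J ≤ 2 K₀ N`. For every `y` choose the indices `i₁ y`, `i₂ y` of the two largest values (`Sm2`; `|P| ≥ 3`); `b = ![i₁ y, i₂ y]` has a nonzero determinant: otherwise `(q.1 l) • p.1 = (p.1 l) • q.1` for `l = 0, 1`, so `q.1 = 0` by `RV.np1` and then `np1` for `(0, 1)` is a contradiction.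
TTM with `T = ia a (K₀ 2^J)`, `η = et`, `k = kw` (KWF), `A y = Ay C₁ c J y`, `E y = Ey C₁ c J y (i₁ y) (i₂ y)` (`r = 2`: `WW^(2/2) = WW`, the product over `Fin 2`; `Nice`: WWF). `S = ∑ nsq (u a)`; if `S = 0` then `ℓ m ≤ 0`. Otherwise TOI with `ℓ/√S`, `e t = ∫ ‖G t x‖` (continuous), `a = (2 K₀)^(-d/2)`, `κ = min 1 κ'` (`κ'` from TOI), so `N^(d/2 - κ) ≥ a (2^J)^(d/2 - κ) ≥ a (2^J)^(d/2 - κ')` (`d/2 = |P| + 1`, `D.e = 2 |P|`), and `2^J ≤ 2 K₀ N`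
(the exponent `p (n+1) - (2n+4)` is positive since `p > 2 + 4/(n+2) > 2 + 2/(n+1)`). -/
def S_TPL : Prop := ∀ (N : ℕ) (H : Subgroup (SU N)) (c : ℝ) (d : ℕ) (D : RD 2) (P : RT 2) (ι : Type)
  (a : ι → Fin 2 → ℕ) (χ : ι → H → ℂ) (Z : Finset (Fin 2 → ℝ)) (k : ℝ), RV D P → GX H c d D P a χ Z k →
  3 ≤ P.card → ∀ (μ : Measure H) [IsProbabilityMeasure μ] [μ.IsMulLeftInvariant],
    TLV μ (KK χ) (D.e : ℝ) (fun i => wG (a i)) (fun l => -D.Q l) (2 + 8 / ((D.e : ℝ) + 4))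

def M_TPL : Prop := S_WWF → S_KERI → S_KWFG → S_TTM → S_TOI → S_TPL

/-- MXU. The bound of the maximum: it is proved inside LOCW.lean (`hsup` in `LOCW.box`: BERN, `‖KK χ i g g‖ ≤ C sz^e` (`LOCW.diag`), and there are at most `N^r` frequencies). -/
def S_MXU : Prop := ∀ (N : ℕ) (H : Subgroup (SU N)) (c : ℝ) (d r : ℕ) (D : RD r) (P : RT r) (ι : Type)
  (a : ι → Fin r → ℕ) (χ : ι → H → ℂ) (Z : Finset (Fin r → ℝ)) (k : ℝ), RV D P → GX H c d D P a χ Z k →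
  ∀ (μ : Measure H) [IsProbabilityMeasure μ] [μ.IsMulLeftInvariant],
    MXB μ (KK χ) (D.e : ℝ) (fun i => wG (a i)) (fun l => -D.Q l)

def M_MXU : Prop := S_KB → S_BERN → S_KERI → S_MXU

/-- LEW. As LEV (LEV.lean), with two ranges of levels. For `ℓ = Λ 2^(-k-2)`, `k ≥ 0`: `G = φ(‖U‖/ℓ) U/‖U‖`, `conj G U ≥ ℓ ‖G‖`, and `∫∫ ‖U‖^p' ≤ ∑_(k ≥ 0) (Λ 2^(-k))^p' m_k`, `m_k = ∫∫ φ(‖U‖/ℓ)`. The levels `ℓ ≤ Λ₁`: `m_k ≤ B₁ ℓ^(-p₁) + B₀ ℓ^(-2)`, the sum of `ℓ^(p'-p₁)` (`ℓ^(p'-2)`) over these levels is at most `C Λ₁^(p'-p₁)` (`C Λ₁^(p'-2)`); the other levels: `m_k ≤ B₂ ℓ^(-p₂)`, sum `≤ C Λ^(p'-p₂)`. -/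
def S_LEW : Prop := ∀ (M : Type) [TopologicalSpace M] [CompactSpace M] [T2Space M]
  [SecondCountableTopology M] [MeasurableSpace M] [BorelSpace M] (μ : Measure M)
  [IsProbabilityMeasure μ] (p₁ p₂ p' : ℝ), 2 < p₁ → p₁ < p' → 2 < p₂ → p₂ < p' → ∃ C : ℝ, 0 ≤ C ∧
  ∀ (U : ℝ → M → ℂ) (Λ₁ Λ B₀ B₁ B₂ : ℝ), JC U → 0 < Λ₁ → 0 ≤ B₀ → 0 ≤ B₁ → 0 ≤ B₂ → (∀ t x, ‖U t x‖ ≤ Λ) →
    (∀ (ℓ : ℝ) (G : ℝ → M → ℂ), 0 < ℓ → JC G → (∀ t x, ‖G t x‖ ≤ 1) →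
      ℓ * (∫ t in (0 : ℝ)..1, ∫ x, ‖G t x‖ ∂μ) ≤ ‖∫ t in (0 : ℝ)..1, ∫ x, conj (G t x) * U t x ∂μ‖ →
      (ℓ ≤ Λ₁ → (∫ t in (0 : ℝ)..1, ∫ x, ‖G t x‖ ∂μ) * ℓ ^ p₁ ≤ B₁ + B₀ * ℓ ^ (p₁ - 2)) ∧
      (Λ₁ ≤ ℓ → (∫ t in (0 : ℝ)..1, ∫ x, ‖G t x‖ ∂μ) * ℓ ^ p₂ ≤ B₂)) →
    ∫ t in (0 : ℝ)..1, ∫ x, ‖U t x‖ ^ p' ∂μ ≤
      C * (B₀ * Λ₁ ^ (p' - 2) + B₁ * Λ₁ ^ (p' - p₁) + B₂ * Λ ^ (p' - p₂))

/-- LOT. (T6). Let `p' > p₀` be the exponent, `d = r + e`, `p₀ < p₂ < min p' 3`, `κ`, `C` from TLV for `p₂`, `ε ≤ 1` with `ε p₀/2 ≤ κ (p' - p₀)`. `S = ∑ nsq (u a)`; if `S = 0` then `uw = 0` (MXB). `LEW` for `U = uw`, `Λ = C N^(d/2) √S` (MXB), `Λ₁ = N^(d/2 - κ) √S`, `p₁ = p₀`. Let `m` be the integral of `‖G‖`, `ℓ m ≤ ‖∫∫ conj G U‖`. Low: by LLV `ℓ² m²` is at most twice one of the two terms: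 either
`m^(2/p₀) ≤ 2 C N^ε S N^(d(1-2/p₀) - 4/p₀) ℓ⁻²`, so `m ℓ^p₀ ≤ B₁ = (2 C N^ε S)^(p₀/2) N^(d p₀/2 - d - 2)`, or `m ≤ 2 C N^(ε-3) S ℓ⁻²`, `B₀ = 2 C N^(ε-3) S`. Top: TLV, `B₂ = C N^(p₂ d/2 - (d+2)) S^(p₂/2)`. Result: every one of `B₀ Λ₁^(p'-2)`, `B₁ Λ₁^(p'-p₀)`, `B₂ Λ^(p'-p₂)` is at most `C N^(p' d/2 - d - 2) S^(p'/2)`: the exponents of `N` are
`ε - 3 + (d/2 - κ)(p' - 2) ≤ p' d/2 - d - 2`, `p' d/2 - d - 2 + ε p₀/2 - κ (p' - p₀)`, `p' d/2 - d - 2`. Take the power `1/p'`. -/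
def S_LOT : Prop := ∀ (M : Type) [TopologicalSpace M] [CompactSpace M] [T2Space M]
  [SecondCountableTopology M] [MeasurableSpace M] [BorelSpace M] (μ : Measure M)
  [IsProbabilityMeasure μ] (ι : Type) (K : ι → M → M → ℂ) (r : ℕ) (e : ℝ)
  (w : ι → Fin r → ℤ) (Q : (Fin r → ℤ) → ℤ) (p₀ α : ℝ), 0 ≤ e → 2 < p₀ → p₀ < 3 → MXB μ K e w Q →
  TLV μ K e w Q p₀ → LLV μ K e w Q p₀ α → LOCA μ K e w Q p₀ α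

def M_LOT : Prop := S_LEW → S_LOT

/-- ALA. As ALLX (ALLX.lean), which uses `LOCH` only for the pieces `F j = {a ∈ F : 2^j ≤ sz (w a) < 2^(j+1)}` with `N = 2^(j+1)`. -/
def S_ALA : Prop := ∀ (M : Type) [TopologicalSpace M] [CompactSpace M] [T2Space M]
  [SecondCountableTopology M] [MeasurableSpace M] [BorelSpace M] (μ : Measure M)
  [IsProbabilityMeasure μ] (ι : Type) (K : ι → M → M → ℂ) (r : ℕ) (e : ℝ)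
  (w : ι → Fin r → ℤ) (Q : (Fin r → ℤ) → ℤ) (p₀ : ℝ), 0 ≤ e → 2 ≤ p₀ → LOCA μ K e w Q p₀ (1 / 2) →
  ∀ p : ℝ, p₀ < p →
  ∃ D : ℝ, 0 ≤ D ∧ ∀ (F : Finset ι) (u : ι → M → ℂ), (∀ a ∈ F, Mem μ (K a) (u a)) →
    nq μ p (uw w Q F u) ≤
      D * √(∑ a ∈ F, sz (w a) ^ ((r + e) - 2 * (r + e + 2) / p) * nsq μ (u a))

def M_ALA : Prop := S_NQ → S_SCH → S_ALA

end

end STZ3
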