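import Pool.Agent.STZ3.StM
import Pool.Agent.STZ3.StmtsT3
import Pool.Agent.LGR.StE

/-!
# Compact simple groups of rank two: numerology, the low levels and the main theorem (sections 1, 8 of `PAPER.md`)

Module `X` proves `theorem t_X : M_X` (or `t_X : S_X` if there is no `M_X`) in the file `Pool/Agent/STZ3/X.lean`, namespace `STZ3`. `n` is the number of the positive roots.
-/

namespace STZ3

open STZ LGR MeasureTheory Matrix Filter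

open scoped ComplexConjugate Matrix Real Topology

noncomputable section

/-- FAR. More than half of the positive roots generate the lattice of the roots, if `n ≥ 4`. Classification: `a = B 0 1`, `b = B 1 0` (`B i` is the simple root `i`, `B i j` the value of the simple coroot `j`). With `(x, y) = x·A y` (QUAD, positive definite, `2 (B i, l) = l i (B i, B i)`): `a b = 4 (B 0, B 1)²/((B 0, B 0) (B 1, B 1)) < 4`, and `(B 0, B 1) = a (B 1, B 1)/2 = b (B 0, B 0)/2`; `a, b ≤ 0`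
(`IRD.sgn` for the reflected root `B 1 - b B 0`), so `a b ∈ {0, 1, 2, 3}`, and `a = b = 0` or both are negative. The positive roots: every non-simple `p ∈ pos Φ` has `p.2·B k > 0` for some `k` (`2 = p.2·p.1 = ∑ n k (p.2·B k)`), and `s_k p ∈ pos Φ` (`WFF.simp`) has a smaller sum of the coordinates of `p.2`. By induction on this sum `pos Φ` is contained in an explicit list of pairs `(p.1, p.2)`:
`a b = 0`: 2 elements (excluded by `n ≥ 4`), `a b = 1`: 3 elements (excluded); `a b = 2`: `4` elements, simple coordinates (for `b = -1`, `a = -2` or reversed) `(1,0), (0,1), (1,1), (1,2)` or `(2,1)`; `a b = 3`: 6 elements, `(1,0), (0,1), (1,1), (1,2), (1,3), (2,3)` (or the coordinates exchanged). For every set `T` of more than `n/2` elements of the list every root in the list is an integral combination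
of the elements of `T` (a finite check: for `n = 4` any three, for `n = 6` any four; it is enough that `T` contains two with the determinant `±1` in the simple coordinates). So `dz p.1 θ` is an integral combination of the `dz q.1 θ`, `q ∈ T`, with bounded coefficients. -/
def S_FAR : Prop := ∀ (Φ : RT 2) (B : Matrix (Fin 2) (Fin 2) ℤ), IRD Φ B → WFF Φ B → 4 ≤ (pos Φ).card →
  Even (pos Φ).card ∧ ∃ C : ℝ, 1 ≤ C ∧ ∀ (θ : Fin 2 → ℝ) (η : ℝ) (T : Finset {p // p ∈ pos Φ}),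
    (pos Φ).card < 2 * T.card → (∀ p ∈ T, nd (dz p.1.1 θ) ≤ η) → ∀ p ∈ pos Φ, nd (dz p.1 θ) ≤ C * η

def M_FAR : Prop := S_QUAD → S_FAR

/-- NUM. Section 8. Let `X = 2^J`, `δ p = dl x p`, `b = bx' x = δ p₀`, `ρ = ro ε x`, `δ' p = max (δ p) ρ`, `p₁`, `p₂` the indices of the two smallest `δ` (`δ p₁ ≤ δ p₂ ≤ δ p` for the others). Case `b < ρ`: `ρ² = X^(4ε) b/X`, so `b < X^(4ε-1)`, and the left side is at most `(X b)^(2n) ρ^(-4n) b^(2n) = X^(4n - 8nε) b^(2n) ≤ X^(2n)`. Case `ρ ≤ b`: let `θ` be in the shell, `nd (dz p₀ θ) ≥ X^(-ε) b`.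
By FAR with `η < X^(-ε) b/C`: at most `n/2` of the `p` have `nd (dz p θ) ≤ η`, so (the shell: `nd ≤ X^ε δ' p`) the set `A` of the `p` with `X^ε δ' p ≤ X^(-ε) b/(2C)` has at most `n/2` elements. For `p ∉ A` `1/δ' p ≤ 2 C X^(2ε)/b`. For `p ∈ A` `1/δ' p ≤ 1/δ p`, and `∏_(p ∈ A) 1/δ p ≤ (1/δ p₁) (1/δ p₂)^(|A| - 1)` (if `A` is not empty); as `1/b ≤ 1/δ p₂ ≤ 1/δ p₁` we may replace `|A|` by `n/2`
(FAR: `n` is even): `∏ 1/δ' ≤ (2 C X^(2ε))^n b^(-n/2) (δ p₁)^(-1) (δ p₂)^(1 - n/2)`. So the left side is at most `C X^(2n + 8nε) b^(2n - 2n) (δ p₁)^(n-4) (δ p₂)^(n - 2n + 4) ≤ C X^(2n + 8nε)` as `n ≥ 4`. -/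
def S_NUM : Prop := ∀ (Φ : RT 2) (B : Matrix (Fin 2) (Fin 2) ℤ), IRD Φ B → WFF Φ B → 4 ≤ (pos Φ).card →
  ∃ C : ℝ, 0 ≤ C ∧ ∀ (ε : ℝ) (J : ℕ) (x : {p // p ∈ pos Φ} → Fin (J + 1)), 0 < ε → ε ≤ 1 / 8 → 1 ≤ J → shl ε x ≠ ∅ →
    ∃ p₁ p₂ : {p // p ∈ pos Φ}, p₁ ≠ p₂ ∧
      ((2 ^ J * bx' x) ^ (((pos Φ).card : ℝ) / 2) / ∏ p : {p // p ∈ pos Φ}, max (dl x p) (ro ε x)) ^ 4 *
          (dl x p₁ * dl x p₂) ^ (pos Φ).card ≤
        C * (2 : ℝ) ^ ((2 * (pos Φ).card + 8 * (pos Φ).card * ε) * J)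

def M_NUM : Prop := S_PRM → S_FAR → S_NUM

/-- TTB. The first part of the proof of TTX (TTX.lean) or TTM: let `v a x = ∫ t, eu (-t φ a) G t x`. The integral is `∑ a ∈ F, ∫ x, conj (v a x) * u a x`, and `∫ conj (v a) (u a) = ∫ conj (Pr {a} (v a)) (u a)`, so its square is at most `(∑ nsq (u a)) (∑ a ∈ F, nsq (Pr {a} (v a)))`, and
`∑ a ∈ F, nsq (Pr {a} (v a)) ≤ ∑ a ∈ F', q a nsq (Pr {a} (v a))`, `nsq (Pr {a} (v a)) = ∫ conj (v a) Pr {a} (v a) = ∫ x, ∫ y, ∫ t, ∫ s, conj (G t x) e((t-s) φ a) K a x y G s y`. -/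
def S_TTB : Prop := ∀ (M : Type) [TopologicalSpace M] [CompactSpace M] [T2Space M]
  [SecondCountableTopology M] [MeasurableSpace M] [BorelSpace M] (μ : Measure M)
  [IsProbabilityMeasure μ] (ι : Type) (K : ι → M → M → ℂ), Ker μ K →
  ∀ (φ : ι → ℤ) (F T : Finset ι) (q : ι → ℝ), F ⊆ T → (∀ a ∈ T, 0 ≤ q a) → (∀ a ∈ F, 1 ≤ q a) →
    ∀ (u : ι → M → ℂ), (∀ a ∈ F, Mem μ (K a) (u a)) → ∀ G : ℝ → M → ℂ, JC G →
      ‖∫ t in (0 : ℝ)..1, ∫ x, conj (G t x) * ∑ a ∈ F, eu (t * φ a) * u a x ∂μ‖ ^ 2 ≤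
        (∑ a ∈ F, nsq μ (u a)) * ‖∫ t in (0 : ℝ)..1, ∫ s in (0 : ℝ)..1, ∫ x, conj (G t x) *
          ∫ y, (∑ a ∈ T, (q a : ℂ) * eu ((t - s) * φ a) * K a x y) * G s y ∂μ ∂μ‖

def M_TTB : Prop := S_KB → S_TTB

/-- BXB. The bound for one tuple. Let `X = 2^J`, `n = |pos Φ|`. We may assume `ε ≤ 1`. Let `K` be the constant of IPR (depends on the group only), `ε₁ = ε/(2 (K + 8 n + 1))`, at most `1/8`, `A = 4`, `m` with `n + 3 + A ≤ 2 ε₁ m`, `C₁` from CFA. If the shell `shl ε₁ x` is empty: first claim of IPR. Otherwise `p₁`, `p₂` from NUM; with `U = C X^(K ε₁) (..)`, `V = C X^(ε₁) δ p₁ δ p₂` (BII) the left side is at most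
`min (C X^(-A) mG + U mG^(3/2)) (V mG) ≤ C X^(-A) mG + min (U mG^(3/2)) (V mG) ≤ C X^(-A) mG + (U mG^(3/2))^s (V mG)^(1-s)` with `s = 4/(n+4)`, and `U^s V^(1-s) ≤ C X^(K ε₁ + ε₁) ((..)^4 (δ p₁ δ p₂)^n)^(1/(n+4)) ≤ C X^((K + 1 + 8n) ε₁) X^(2n/(n+4))`, the power of `mG` is `3s/2 + 1 - s = 1 + 2/(n+4)`. -/
def S_BXB : Prop := ∀ (N : ℕ) (H : Subgroup (SU N)) (Φ : RT 2) (B : Matrix (Fin 2) (Fin 2) ℤ)
  (Hc : Fin 2 → MT N) (E : (Fin 2 → ℤ) × (Fin 2 → ℤ) → MT N) (c k : ℝ) (d : ℕ), CX H Φ B Hc E c k d →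
  4 ≤ (pos Φ).card →
  ∀ (μ : Measure H) [IsProbabilityMeasure μ] [μ.IsMulLeftInvariant] (χ : IX Hc → H → ℂ), CHI Φ Hc c k d χ →
  ∀ ε : ℝ, 0 < ε → ∃ (m : ℕ) (C₁ C : ℝ), 1 ≤ m ∧ CFF m C₁ ∧ 0 ≤ C ∧
    ∀ (J : ℕ) (q : (Fin 2 → ℤ) → ℝ) (x : {p // p ∈ pos Φ} → Fin (J + 1)) (F : Finset (IX Hc)) (G : ℝ → H → ℂ), 1 ≤ J →
    QH Φ (2 ^ J) q → (∀ τ (i : IX Hc), wa Φ (nx Φ m J q x τ) (wG i.1) ≠ 0 → i ∈ F) → JC G → (∀ t y, ‖G t y‖ ≤ 1) →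
    ‖BF μ χ F (fun t i => wa Φ (nx Φ m J q x t) (wG i.1)) G‖ ≤ C * (2 : ℝ) ^ (ε * J) *
      ((2 : ℝ) ^ (2 * ((pos Φ).card : ℝ) / ((pos Φ).card + 4) * J) * mG μ G ^ (1 + 2 / (((pos Φ).card : ℝ) + 4)) +
        (2 : ℝ) ^ (-(4 * J : ℝ)) * mG μ G)

def M_BXB : Prop := S_WFAC → S_CFA → S_PRM → S_BII → S_IPR → S_NUM → S_BXB

/-- LWL. The low levels. `S = ∑ nsq (u a)`, `N ≥ 1`. Choose `J ≥ 1` with `K₀ N ≤ 2^J ≤ 4 K₀ N` (`K₀ ≥ 1` with `|p.2·l| ≤ K₀ sz l` for all `p ∈ pos Φ`), `q = qi Φ (2^J)`, `q = 1` at all `wG a`, `a ∈ F`. `T` is the finite set of the `i : IX Hc` with `wG i.1` in the box `cb 2 (K 2^J)` (`LMF.wsup`; `i ↦ wG i.1` is injective, `wG i.1 ≥ 1`). TTB (`φ i = - Q (wG i)`, `F ⊆ T`, `Ker μ (KK χ)`: CHIF, KERI):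
the norm on the right is `‖BF μ χ T (fun t i => gt Φ q t (wG i.1)) G‖` (a reindexing of the product, `mu * KK`), and `gt Φ q t ν = wa Φ (gt Φ q t) ν = ∑ x, wa Φ (nx Φ m J q x t) ν` (`NXF.ginv`, `NXF.sum`), so `BF = ∑ x, BF_x` (finite sums, continuity: `LMF.wcont`), at most `(J + 1)^n` times the bound of BXB for `ε/2`; `(J + 1)^n ≤ C 2^(ε J/2)`, `2^J ≤ 4 K₀ N`, `2^(-4 J) ≤ N^(-3)`.
`(rd Φ).e = 2n`, `p₀ = 2 + 8/(2n + 4)`: `(r + e)(1 - 2/p₀) - 4/p₀ = 2n/(n + 4)`, `2 - 2/p₀ = 1 + 2/(n + 4)`. `mG μ G = ∫∫ ‖G‖`. -/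
def S_LWL : Prop := ∀ (N : ℕ) (H : Subgroup (SU N)) (Φ : RT 2) (B : Matrix (Fin 2) (Fin 2) ℤ)
  (Hc : Fin 2 → MT N) (E : (Fin 2 → ℤ) × (Fin 2 → ℤ) → MT N) (c k : ℝ) (d : ℕ), CX H Φ B Hc E c k d →
  4 ≤ (pos Φ).card →
  ∀ (μ : Measure H) [IsProbabilityMeasure μ] [μ.IsMulLeftInvariant] (χ : IX Hc → H → ℂ), CHI Φ Hc c k d χ →
    LLV μ (KK χ) ((rd Φ).e : ℝ) (fun i : IX Hc => wG i.1) (fun l => -(rd Φ).Q l) (2 + 8 / (((rd Φ).e : ℝ) + 4)) 0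

def M_LWL : Prop := S_WFAC → S_KERI → S_CHIF → S_NXS → S_PRM → S_LMB → S_TTB → S_BXB → S_LWL

/-- STU. As STRV (STRV.lean), with the estimate as a hypothesis, ALA instead of ALLX, and `2 + 4/d ≤ p₀` for the sign of the exponent. -/
def S_STU : Prop := ∀ (N : ℕ) (H : Subgroup (SU N)) (c : ℝ) (d r : ℕ) (D : RD r) (P : RT r) (ι : Type)
  (a : ι → Fin r → ℕ) (χ : ι → H → ℂ) (Z : Finset (Fin r → ℝ)) (k p₀ : ℝ), 2 ≤ r → RV D P →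
  GX H c d D P a χ Z k → 2 + 4 / (d : ℝ) ≤ p₀ →
  (∀ (μ : Measure H) [IsProbabilityMeasure μ] [μ.IsMulLeftInvariant],
    LOCA μ (KK χ) (D.e : ℝ) (fun i => wG (a i)) (fun l => -D.Q l) p₀ (1 / 2)) → ∀ p : ℝ, p₀ < p → StrG H c d p

def M_STU : Prop := S_NQ → S_KB → S_HAAR → S_KERI → S_EIGW → S_ALA → S_STU

/-- the upper bound for the groups of rank two and dimension at least ten -/
def MainUp3 : Prop := ∀ (N : ℕ) (H : Subgroup (SU N)) (T : Submodule ℝ (Matrix (Fin N) (Fin N) ℂ)) (d : ℕ),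
  IsClosed (H : Set (SU N)) → IsConnected (H : Set (SU N)) → SimpleH H → LGR.MaxAb H T →
  Module.finrank ℝ (Submodule.span ℝ (lie H)) = d → Module.finrank ℝ T = 2 → 10 ≤ d →
  ∀ p : ℝ, 2 + 8 / ((d : ℝ) + 2) < p → StrK H d p

/-- MFN. As MAIN (MAIN.lean) with `χ`, `Z` from GXOC. `d = 2n + 2` (`GX.dimd`), so `n ≥ 4` and `p₀ = 2 + 8/(2n + 4) = 2 + 8/(d + 2) < 3`. LWL, TPL, MXU and LOT give `LOCA` for `α = 0`, hence for `α = 1/2`; STU. -/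
def M_MFN : Prop := S_WFAC → S_RVOF → S_LRDX → S_KFRM → S_FORM → S_GXOC → S_LWL → S_TPL → S_MXU → S_LOT → S_STU → MainUp3

end

end STZ3
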