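import Pool.Agent.STZ3.StC3
import Pool.Agent.STZ3.StF

/-!
# The groups `SU(3)`, `PSU(3)`: chain packets (section 9 of `PAPER.md`), part 2: the bound (I''), the low levels and the main theorem for all simple groups of rank two

Module `X` proves `theorem t_X : M_X` (or `t_X : S_X` if there is no `M_X`) in the file `Pool/Agent/STZ3/X.lean`, namespace `STZ3`. `X = 2 ^ J`, `n = 3` is the number of the positive roots; `δ p = dl x p`, `b = bx' x`, `a` the root with the smallest `δ`, `t₁ = th x = b/X`, `t₂ = tc a x = δ a/X`.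
-/

namespace STZ3

open STZ LGR MeasureTheory Matrix Filter

open scoped ComplexConjugate Matrix Real Topology

noncomputable section

/-! ### the root system -/

/-- facts about the root system with three positive roots (type `A₂`) -/
structure A2F (Φ : RT 2) : Prop where
  card : (pos Φ).card = 3
  tri₁ : ∀ p ∈ pos Φ, ∀ q ∈ pos Φ, ∀ s ∈ pos Φ, p ≠ q → p ≠ s → q ≠ s → ∀ θ : Fin 2 → ℝ,
    nd (dz p.1 θ) ≤ nd (dz q.1 θ) + nd (dz s.1 θ)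
  tri₂ : ∀ p ∈ pos Φ, ∀ q ∈ pos Φ, ∀ s ∈ pos Φ, p ≠ q → p ≠ s → q ≠ s → ∀ l : Fin 2 → ℤ,
    |p.2 ⬝ᵥ l| ≤ |q.2 ⬝ᵥ l| + |s.2 ⬝ᵥ l|
  one : ∀ p ∈ pos Φ, ∀ q ∈ pos Φ, p ≠ q → |p.2 ⬝ᵥ q.1| = 1
  swap : ∀ a ∈ pos Φ, ∀ p ∈ pos Φ, ∀ q ∈ pos Φ, a ≠ p → a ≠ q → p ≠ q → ∀ l : Fin 2 → ℤ,
    |p.2 ⬝ᵥ (l - (a.2 ⬝ᵥ l) • a.1)| = |q.2 ⬝ᵥ l|
  co : ∀ p ∈ pos Φ, ∀ i, 0 ≤ p.2 i ∧ p.2 i ≤ 1

/-- CR3. There are at least three positive roots. The two simple pairs `(B 0, e 0)`, `(B 1, e 1)` are positive. If there are no others then `WFF.simp` gives `B 1 - B 1 0 • B 0 = B 1` (the new pair is positive and not `(B 0, e 0)`, as its second coordinate `e 1 - (e 1·B 0) e 0` is not `e 0`; so it is `(B 1, e 1)`), so `B 1 0 = 0`, and `B 0 1 = 0`. Then all roots are `± (B i, e i)` (`dich`), and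
the line of `B 0` is invariant under their reflections, a contradiction to `IRD.irr`. -/
def S_CR3 : Prop := ∀ (Φ : RT 2) (B : Matrix (Fin 2) (Fin 2) ℤ), IRD Φ B → WFF Φ B → 3 ≤ (pos Φ).card

/-- ATW. With three positive roots: `B 0`, `B 1` and a third. Let `u = B 0 1`, `v = B 1 0`. By `WFF.simp` the pairs `(B 1 - v B 0, e 1 - u e 0)` (`(p.2·B 0) = B 0 1 = u` for `p.2 = e 1`) and `(B 0 - u B 1, e 0 - v e 1)` are positive. If `v = 0` or `u = 0`: then both (`e 1 - u e 0` with `u ≠ 0` and the root `B 1`, contradiction to `IRD.red`; the same for `v`); the third root `p` is not simple, `2 = p.2·p.1 = ∑ n k (p.2·B k)`, `n ≥ 0`,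
so `p.2·B k > 0` for some `k`, and `s_k p` (`WFF.simp`) is positive with `p.2` smaller; `s_k p ≠ p`, so it is a simple pair, and `p = s_k (s_k p)` is simple (`s_k` fixes the other simple root as `u = v = 0`), a contradiction. So `u, v ≠ 0`, both pairs are the third root (they are not simple), `B 1 - v B 0 = B 0 - u B 1`, so `u = v = -1` (`det B ≠ 0`); the positive roots are
`(B 0, e 0)`, `(B 1, e 1)`, `(B 0 + B 1, e 0 + e 1)`, and `B 0 = (2, -1)`, `B 1 = (-1, 2)`. Everything is a finite check (`nd (x ± y) ≤ nd x + nd y`). -/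
def S_ATW : Prop := ∀ (Φ : RT 2) (B : Matrix (Fin 2) (Fin 2) ℤ), IRD Φ B → WFF Φ B → (pos Φ).card = 3 → A2F Φ

/-! ### parameters -/

/-- the time of the chain packet in the direction of `a` -/
def tc {r : ℕ} {Φ : RT r} {J : ℕ} (a : {p // p ∈ pos Φ}) (x : {p // p ∈ pos Φ} → Fin (J + 1)) : ℝ := dl x a / 2 ^ J

/-- the tuples for which the chain packets are used: `X^(24 ε) δ a ≤ b ≤ X² (δ a)³` -/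
structure RG {r : ℕ} {Φ : RT r} {J : ℕ} (ε : ℝ) (a : {p // p ∈ pos Φ}) (x : {p // p ∈ pos Φ} → Fin (J + 1)) : Prop where
  mn : ∀ p, dl x a ≤ dl x p
  lo : (2 : ℝ) ^ (24 * ε * J) * dl x a ≤ bx' x
  hi : bx' x ≤ (2 ^ J) ^ 2 * dl x a ^ 3

/-- facts about these tuples -/
structure RGX {r : ℕ} (Φ : RT r) : Prop where
  tri : ∀ (J : ℕ) (ε : ℝ) (x : {p // p ∈ pos Φ} → Fin (J + 1)), ∃ a, (∀ p, dl x a ≤ dl x p) ∧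
    (RG ε a x ∨ bx' x ≤ (2 : ℝ) ^ (24 * ε * J) * dl x a ∨ (2 ^ J) ^ 2 * dl x a ^ 3 ≤ bx' x)
  tp : ∀ (J : ℕ) (a : {p // p ∈ pos Φ}) (x : {p // p ∈ pos Φ} → Fin (J + 1)), 0 < tc a x ∧ tc a x ≤ th x
  da : ∀ (J : ℕ) (ε : ℝ) (a : {p // p ∈ pos Φ}) (x : {p // p ∈ pos Φ} → Fin (J + 1)), RG ε a x →
    (2 : ℝ) ^ ((12 * ε - 1) * J) ≤ dl x a
  bg : ∀ (J : ℕ) (ε : ℝ) (a : {p // p ∈ pos Φ}) (x : {p // p ∈ pos Φ} → Fin (J + 1)), RG ε a x →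
    (2 : ℝ) ^ ((36 * ε - 1) * J) ≤ bx' x
  ta : ∀ (J : ℕ) (ε : ℝ) (a : {p // p ∈ pos Φ}) (x : {p // p ∈ pos Φ} → Fin (J + 1)), RG ε a x →
    √(tc a x) ≤ (2 : ℝ) ^ (-(6 * ε * J)) * dl x a
  tb : ∀ (J : ℕ) (ε : ℝ) (a : {p // p ∈ pos Φ}) (x : {p // p ∈ pos Φ} → Fin (J + 1)), RG ε a x →
    √(th x) ≤ (2 : ℝ) ^ (-(18 * ε * J)) * bx' x
  lump : ∀ (J : ℕ) (ε : ℝ) (a : {p // p ∈ pos Φ}) (x : {p // p ∈ pos Φ} → Fin (J + 1)), 0 < ε → RG ε a x →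
    max (1 / √(th x)) (1 / dl x a) ≤ (2 : ℝ) ^ ((1 - 12 * ε) * J)
  xl : ∀ (J : ℕ) (ε : ℝ) (a : {p // p ∈ pos Φ}) (x : {p // p ∈ pos Φ} → Fin (J + 1)), 1 ≤ J → 0 < ε → RG ε a x →
    ∀ p, (x p).val < J

/-- RGM. `tc = δ a/X ≤ b/X = th`. From `lo`, `hi`: `X^(24ε) δ a ≤ X² (δ a)³`, so `δ a ≥ X^(12ε - 1)`, and `b ≥ X^(24ε) δ a ≥ X^(36ε - 1)`. `tc/(δ a)² = 1/(X δ a) ≤ X^(-12ε)`, `th/b² = 1/(X b) ≤ X^(-36ε)`, `1/√th = (X/b)^(1/2) ≤ X^(1 - 18ε)`. `xl`: `δ p ≥ δ a > 1/X`. -/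
def S_RGM : Prop := ∀ (r : ℕ) (Φ : RT r) (B : Matrix (Fin r) (Fin r) ℤ), 1 ≤ r → IRD Φ B → WFF Φ B → RGX Φ

def M_RGM : Prop := S_PRM → S_RGM

/-! ### the multiplier and the kernel -/

/-- the torus multiplier of the chain packets for the tuple `x` -/
def lac {r : ℕ} (Φ : RT r) (m J : ℕ) (q : (Fin r → ℤ) → ℝ) (a : {p // p ∈ pos Φ}) (x : {p // p ∈ pos Φ} → Fin (J + 1))
    (τ : ℝ) (l : Fin r → ℤ) : ℂ := lc Φ a.1 (th x) (tc a x) (nx Φ m J q x τ) l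

/-- facts about the multiplier -/
structure LCF {r : ℕ} (Φ : RT r) (m K : ℕ) (C : ℝ) : Prop where
  supp : ∀ (J : ℕ) (q : (Fin r → ℤ) → ℝ) (a : {p // p ∈ pos Φ}) (x : {p // p ∈ pos Φ} → Fin (J + 1)) (τ : ℝ)
    (l : Fin r → ℤ), QH Φ (2 ^ J) q → lac Φ m J q a x τ l ≠ 0 → l ∈ cb r (K * 2 ^ J)
  bd : ∀ (J : ℕ) (q : (Fin r → ℤ) → ℝ) (a : {p // p ∈ pos Φ}) (x : {p // p ∈ pos Φ} → Fin (J + 1)) (τ : ℝ)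
    (l : Fin r → ℤ), QH Φ (2 ^ J) q → ‖lac Φ m J q a x τ l‖ ≤ C * 2 ^ (J * (pos Φ).card)
  cont : ∀ (J : ℕ) (q : (Fin r → ℤ) → ℝ) (a : {p // p ∈ pos Φ}) (x : {p // p ∈ pos Φ} → Fin (J + 1)) (l : Fin r → ℤ),
    Continuous fun τ => lac Φ m J q a x τ l

/-- LMC. As LMB. `supp`: `NXF.supp`. `bd`: `‖nx‖ ≤ C`, `|dR ν| ≤ C 2^(J n)` in a box, and `|es| ≤ C` there: `CL m = Q m + ip a m/2`, so `es = 2 t₂ (± ip a m/2) + 2 t₁ (ip m σ + Q σ - Q 1 ∓ ip a m/2)` with `σ = 1 - ∑ p ∈ S, p.1` (`+` if `a ∉ S`, `-` if `a ∈ S`; QUAD), and `t₁, t₂ ≤ 1/2^J`. -/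
def S_LMC : Prop := ∀ (r : ℕ) (Φ : RT r) (B : Matrix (Fin r) (Fin r) ℤ), 1 ≤ r → IRD Φ B → WFF Φ B →
  ∀ (m : ℕ) (C₁ : ℝ), 1 ≤ m → CFF m C₁ → ∃ (K : ℕ) (C : ℝ), 0 ≤ C ∧ LCF Φ m K C

def M_LMC : Prop := S_QUAD → S_PRM → S_NXS → S_LMC

/-- the cutoffs for the frequencies in an annulus -/
structure QA {r : ℕ} (Φ : RT r) (X : ℕ) (q : (Fin r → ℤ) → ℝ) : Prop where
  qh : QH Φ X q
  an : ∀ l, q l ≠ 0 → ∃ p ∈ pos Φ, (X : ℤ) ≤ 64 * |p.2 ⬝ᵥ l|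

/-- the standard cutoff for an annulus -/
def qn {r : ℕ} (Φ : RT r) (X : ℕ) (l : Fin r → ℤ) : ℝ :=
  open Classical in if (∀ p ∈ pos Φ, |p.2 ⬝ᵥ l| ≤ (X : ℤ)) ∧ ∃ p ∈ pos Φ, (X : ℤ) ≤ 64 * |p.2 ⬝ᵥ l| then 1 else 0

/-- QNS. The forms `p.2` are permuted up to sign (`RV.cperm`, or `WFF.perm` and `dich`). -/
def S_QNS : Prop := ∀ (r : ℕ) (Φ : RT r) (B : Matrix (Fin r) (Fin r) ℤ), 1 ≤ r → IRD Φ B → WFF Φ B →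
  ∀ X : ℕ, QA Φ X (qn Φ X)

def M_QNS : Prop := S_RVOF → S_QNS

/-- LAN. On the support of `lac` two of the three numbers `p.2·l` are large. If `lac ≠ 0` then for some `S` and some `k` in the box all `cf m J (x p) (k p) ≠ 0`, so `|k p| ≤ 2 m²/δ p ≤ 2 m² X^(1 - 12ε)` (`CFF.supp`; RGX.da), and `q l' ≠ 0` for `l' = l + 1 - ∑_S p.1 - rs k`. One of the numbers `|p.2·l'|` is at least `X/64` (`QA.an`), so by `A2F.tri₂` two of them are at least `X/128`, and `|p.2·(l - l')| ≤ C X^(1 - 12ε) ≤ X/256` if `J ≥ J₀`. -/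
def S_LAN : Prop := ∀ (Φ : RT 2) (B : Matrix (Fin 2) (Fin 2) ℤ), IRD Φ B → WFF Φ B → A2F Φ →
  ∀ (m : ℕ) (C₁ ε : ℝ), 1 ≤ m → CFF m C₁ → 0 < ε → ∃ J₀ : ℕ,
    ∀ (J : ℕ) (q : (Fin 2 → ℤ) → ℝ) (a : {p // p ∈ pos Φ}) (x : {p // p ∈ pos Φ} → Fin (J + 1)) (τ : ℝ)
      (l : Fin 2 → ℤ), J₀ ≤ J → QA Φ (2 ^ J) q → RG ε a x → lac Φ m J q a x τ l ≠ 0 →
      ∃ p₁ p₂ : {p // p ∈ pos Φ}, p₁ ≠ p₂ ∧ (2 ^ J : ℤ) ≤ 256 * |p₁.1.2 ⬝ᵥ l| ∧ (2 ^ J : ℤ) ≤ 256 * |p₂.1.2 ⬝ᵥ l|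

def M_LAN : Prop := S_RGM → S_LAN

/-- the shell of the chain packets, with the factor `K` -/
def skc {r : ℕ} {Φ : RT r} {J : ℕ} (K ε : ℝ) (x : {p // p ∈ pos Φ} → Fin (J + 1)) : Set (Fin r → ℝ) :=
  {θ | ∀ p : {p // p ∈ pos Φ}, nd (dz p.1.1 θ) ≤ K * (2 : ℝ) ^ (ε * J) * dl x p ∧
    (2 : ℝ) ^ (-(ε * J)) * dl x p ≤ K * nd (dz p.1.1 θ)}

/-- KOC. As KOF (StM.lean). `lac` is `1/|W|` times a sum over the sets `S` of the terms of KLO with `κ = 1 - ∑_S p.1` and the exponent `es = ∑ l i y i + const`, `|y i| ≤ C (t₁ + t₂) ≤ C/X`, `|const| ≤ C` (see LMC). The shifts satisfy `|dz p.1 s| ≤ C X^(-3ε) δ a ≤ C X^(-3ε) δ p`, so for large `J` `θ ∉ skc 2` implies `θ + s ∉ skc 1`. There either `nd > X^ε δ p`: KLO (first claim) gives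
`C X^(n + r - 2 m ε)`; or `nd < X^(-ε) δ p`: `x p < J` (RGX.xl), `2^(x p) (nd + 1/X) ≤ X^(-ε) + 1/(X δ p) ≤ 2 X^(-ε)` (RGX.da), second claim. For the other `J` the first bound. -/
def S_KOC : Prop := ∀ (r : ℕ) (Φ : RT r) (B : Matrix (Fin r) (Fin r) ℤ), 1 ≤ r → IRD Φ B → WFF Φ B →
  ∀ (m : ℕ) (C₁ C₂ ε A : ℝ), 1 ≤ m → CFF m C₁ → 0 ≤ C₂ → 0 < ε → 0 ≤ A →
    (pos Φ).card + r + A ≤ 2 * ε * m → ∃ C : ℝ, 0 ≤ C ∧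
    ∀ (J : ℕ) (q : (Fin r → ℤ) → ℝ) (a : {p // p ∈ pos Φ}) (x : {p // p ∈ pos Φ} → Fin (J + 1)) (T : Finset (Fin r → ℤ))
      (R : ℝ) (Ψ : (Fin r → ℤ) → ℝ) (ν₁ ν₂ : Measure (Fin r → ℝ)), 1 ≤ J → QH Φ (2 ^ J) q → RG ε a x →
      (∀ τ l, lac Φ m J q a x τ l ≠ 0 → l ∈ T) → FM C₂ R Ψ ν₁ ν₂ → R ≤ (2 : ℝ) ^ (-(3 * ε * J)) * dl x a →
      ∀ (τ : ℝ) (θ : Fin r → ℝ),
      ‖km (lac Φ m J q a x) T Ψ τ θ‖ ≤ C * 2 ^ (J * ((pos Φ).card + r)) ∧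
        (θ ∉ skc 2 ε x → ‖km (lac Φ m J q a x) T Ψ τ θ‖ ≤ C * (2 : ℝ) ^ (-(A * J)))

def M_KOC : Prop := S_QUAD → S_PRM → S_RGM → S_LMC → S_KLO → S_KOC

/-! ### the form -/

/-- the packet transform for all times -/
def vw {N : ℕ} {H : Subgroup (SU N)} (κ : Measure H) (G : ℝ → H → ℂ) (t : ℝ) (h g : H) : ℂ := VV κ h (G t) g

/-- NRC. BRC for all `t`, `s` with `nf = nx Φ m J q x (t - s)`, `G₁ = G s`, `G₂ = G t` (an exact identity). -/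
def S_NRC : Prop := ∀ (N : ℕ) (H : Subgroup (SU N)) (r : ℕ) (Φ : RT r) (B : Matrix (Fin r) (Fin r) ℤ)
  (Hc : Fin r → MT N) (E : (Fin r → ℤ) × (Fin r → ℤ) → MT N) (c k : ℝ) (d : ℕ), CX H Φ B Hc E c k d →
  ∀ (μ : Measure H) [IsProbabilityMeasure μ] [μ.IsMulLeftInvariant] (χ : IX Hc → H → ℂ), CHI Φ Hc c k d χ →
  ∀ (m J : ℕ) (q : (Fin r → ℤ) → ℝ) (a : {p // p ∈ pos Φ}) (x : {p // p ∈ pos Φ} → Fin (J + 1))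
    (T : Finset (Fin r → ℤ)) (F : Finset (IX Hc)) (κ : Measure H) (G : ℝ → H → ℂ),
      (∀ τ l, lac Φ m J q a x τ l ≠ 0 → l ∈ T) → (∀ τ (i : IX Hc), wa Φ (nx Φ m J q x τ) (wG i.1) ≠ 0 → i ∈ F) →
      PC H Φ E c k a (th x) (tc a x) κ → JC G →
      BF μ χ F (fun t i => wa Φ (nx Φ m J q x t) (wG i.1)) G =
        TX Hc μ (km (lac Φ m J q a x) T fun _ => 1) (vw κ G) (vw κ G)

def M_NRC : Prop := S_WFAC → S_PRM → S_RGM → S_BRC → S_NRC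

/-- SMK. Small coefficients. PLA (second claim) for all `t`, `s`, `h`, then Cauchy-Schwarz (as in OFD). -/
def S_SMK : Prop := ∀ (N : ℕ) (H : Subgroup (SU N)) (r : ℕ) (Φ : RT r) (B : Matrix (Fin r) (Fin r) ℤ)
  (Hc : Fin r → MT N) (E : (Fin r → ℤ) × (Fin r → ℤ) → MT N) (c k : ℝ) (d : ℕ), CX H Φ B Hc E c k d →
  ∀ (μ : Measure H) [IsProbabilityMeasure μ] [μ.IsMulLeftInvariant] (a : ℝ → (Fin r → ℤ) → ℂ) (T : Finset (Fin r → ℤ))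
    (Ψ : (Fin r → ℤ) → ℝ) (V W : ℝ → H → H → ℂ) (A₀ : ℝ), 0 ≤ A₀ → (∀ l, Continuous fun τ => a τ l) →
    (∀ τ, ∀ l ∈ T, ‖a τ l‖ * |Ψ l| ≤ A₀) → J3 V → J3 W →
    ‖TX Hc μ (km a T Ψ) V W‖ ≤ A₀ * (√(∫ t in (0 : ℝ)..1, ∫ h, ∫ g, ‖V t h g‖ ^ 2 ∂μ ∂μ) *
        √(∫ t in (0 : ℝ)..1, ∫ h, ∫ g, ‖W t h g‖ ^ 2 ∂μ ∂μ))

def M_SMK : Prop := S_PSF → S_VCN → S_PLA → S_SMK

/-! ### the frequency cutoffs -/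

/-- the parameters of the frequency cutoffs for the chain packets: the base scale is `t₂^(-1/2)` for the root `a` and `X^(8ε) max (t₁^(-1/2)) (1/δ a)` for the others -/
structure FPC {r : ℕ} {Φ : RT r} {J : ℕ} (ε : ℝ) (a : {p // p ∈ pos Φ}) (x : {p // p ∈ pos Φ} → Fin (J + 1)) (m : ℕ)
    (C R : ℝ) (M₀ : {p // p ∈ pos Φ} → ℝ) (jm : {p // p ∈ pos Φ} → ℕ) (L : ℕ)
    (ψ : {p // p ∈ pos Φ} → Fin (L + 2) → ℤ → ℝ)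
    (ν₁ ν₂ : ({p // p ∈ pos Φ} → Fin (L + 2)) → Measure (Fin r → ℝ)) : Prop where
  fcf : FCF Φ m C R M₀ jm L ψ ν₁ ν₂
  ma : M₀ a = 1 / √(tc a x)
  mp : ∀ p, p ≠ a → M₀ p = (2 : ℝ) ^ (8 * ε * J) * max (1 / √(th x)) (1 / dl x a)
  lo : ∀ p, 2 ^ J ≤ 2 ^ jm p * M₀ p
  hi : ∀ p, 2 ^ jm p * M₀ p ≤ 2 * 2 ^ J
  num : ∀ p, jm p ≤ L
  numL : L ≤ J + 1
  rr : R ≤ (2 : ℝ) ^ (-(3 * ε * J)) * dl x a

/-- FPX. FRQ. `1 ≤ M₀ p ≤ X` (RGX.lump, `1/√tc = (X/δ a)^(1/2) ≤ X`); `jm p` is the smallest number with `2^(jm p) M₀ p ≥ X`, so `jm p ≤ J`, `L = max jm`; `R = X^(-3ε) δ a`: `1/M₀ a = √tc ≤ X^(-6ε) δ a` (RGX.ta), `1/M₀ p ≤ X^(-8ε) δ a`. -/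
def S_FPX : Prop := ∀ (r : ℕ) (Φ : RT r) (B : Matrix (Fin r) (Fin r) ℤ), 1 ≤ r → IRD Φ B → WFF Φ B → ∀ m : ℕ, 1 ≤ m →
  ∃ C : ℝ, 1 ≤ C ∧ ∀ (ε : ℝ) (J : ℕ) (a : {p // p ∈ pos Φ}) (x : {p // p ∈ pos Φ} → Fin (J + 1)), 0 < ε → 1 ≤ J →
    RG ε a x → ∃ (R : ℝ) (M₀ : {p // p ∈ pos Φ} → ℝ) (jm : {p // p ∈ pos Φ} → ℕ) (L : ℕ)
    (ψ : {p // p ∈ pos Φ} → Fin (L + 2) → ℤ → ℝ) (ν₁ ν₂ : ({p // p ∈ pos Φ} → Fin (L + 2)) → Measure (Fin r → ℝ)),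
    FPC ε a x m C R M₀ jm L ψ ν₁ ν₂

def M_FPX : Prop := S_FRQ → S_PRM → S_RGM → S_FPX

/-- two of the scales of the tuple `jj` are at least `X^y` -/
def LGp {r : ℕ} {Φ : RT r} (y : ℝ) (J : ℕ) (M₀ : {p // p ∈ pos Φ} → ℝ) (jm : {p // p ∈ pos Φ} → ℕ) {L : ℕ}
    (jj : {p // p ∈ pos Φ} → Fin (L + 2)) : Prop :=
  ∃ p₁ p₂, p₁ ≠ p₂ ∧ (2 : ℝ) ^ (y * J) ≤ fs (M₀ p₁) (jm p₁) (jj p₁).val ∧
    (2 : ℝ) ^ (y * J) ≤ fs (M₀ p₂) (jm p₂) (jj p₂).val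

/-- SMJ. The tuples with at most one large scale. Let `lac τ l ≠ 0`, `J ≥ J₀` (LAN). Two of the `|p.2·l|` are at least `X/256`, and for one of these `p` `fs < X^(1-ε)`; as `2^(jm p) M₀ p ≥ X` we have `jj p ≤ jm p`, and `FCF.hi` gives `|ψ p (jj p) (p.2·l)| ≤ C (256 X^(-ε))^(2m)`; the other factors are `≤ C`, `‖lac‖ ≤ C X^n` (LMC). For `J < J₀` enlarge the constant. -/
def S_SMJ : Prop := ∀ (Φ : RT 2) (B : Matrix (Fin 2) (Fin 2) ℤ), IRD Φ B → WFF Φ B → A2F Φ →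
  ∀ (m : ℕ) (C₁ C₂ ε A : ℝ), 1 ≤ m → CFF m C₁ → 0 ≤ C₂ → 0 < ε → 0 ≤ A → (pos Φ).card + A ≤ 2 * ε * m →
    ∃ C : ℝ, 0 ≤ C ∧
    ∀ (J : ℕ) (q : (Fin 2 → ℤ) → ℝ) (a : {p // p ∈ pos Φ}) (x : {p // p ∈ pos Φ} → Fin (J + 1)) (R : ℝ)
      (M₀ : {p // p ∈ pos Φ} → ℝ) (jm : {p // p ∈ pos Φ} → ℕ) (L : ℕ) (ψ : {p // p ∈ pos Φ} → Fin (L + 2) → ℤ → ℝ)
      (ν₁ ν₂ : ({p // p ∈ pos Φ} → Fin (L + 2)) → Measure (Fin 2 → ℝ)) (jj : {p // p ∈ pos Φ} → Fin (L + 2)), 1 ≤ J →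
      QA Φ (2 ^ J) q → RG ε a x → FPC ε a x m C₂ R M₀ jm L ψ ν₁ ν₂ → ¬ LGp (1 - ε) J M₀ jm jj →
      ∀ (τ : ℝ) (l : Fin 2 → ℤ), ‖lac Φ m J q a x τ l‖ * |pj' ψ jj l| ≤ C * (2 : ℝ) ^ (-(A * J))

def M_SMJ : Prop := S_LMC → S_LAN → S_SMJ

/-! ### amplitudes -/

/-- the symbol of the piece `f` of the product rule -/
def amc {r : ℕ} (Φ : RT r) (a : {p // p ∈ pos Φ}) (t₁ t₂ : ℝ) (f : {p // p ∈ pos Φ} → Fin 3) (l : Fin r → ℤ) : ℝ :=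
  1 / ((WF Φ).card : ℝ) * (cd (fc f 0) (fc f 0)ᶜ (fun S => Real.exp (es Φ a.1 t₁ t₂ (S.image Subtype.val) l)) *
    cd (fc f 1) (fc f 2) fun S => dR Φ (sh S l))

/-- LAC. The coefficients `lac` as a sum over the pieces: the sum over `S ⊆ pos Φ` in `lc` is the sum over the `S : Finset {p // p ∈ pos Φ}` (`S ↦ S.image Subtype.val`), `m + 1 - ∑ p ∈ S, p.1 = sh S m`; LEA with `E S = exp (es ..)`, `D S = dR (sh S l)`, `cc p = cf m J (x p)`, `K = 2 m² 2^J`, `g = gt Φ q τ` (as LAF). -/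
def S_LAC : Prop := ∀ (r : ℕ) (Φ : RT r) (B : Matrix (Fin r) (Fin r) ℤ), 1 ≤ r → IRD Φ B → WFF Φ B →
  ∀ (m : ℕ) (C₁ : ℝ), 1 ≤ m → CFF m C₁ → ∀ (J : ℕ) (q : (Fin r → ℤ) → ℝ) (a : {p // p ∈ pos Φ})
    (x : {p // p ∈ pos Φ} → Fin (J + 1)) (τ : ℝ) (l : Fin r → ℤ),
    lac Φ m J q a x τ l = ∑ f : {p // p ∈ pos Φ} → Fin 3, (amc Φ a (th x) (tc a x) f l : ℂ) *
      ∑ k ∈ kB Φ (2 * m ^ 2 * 2 ^ J + 1), cx m J x f k * gt Φ q τ (l + 1 - rs (pos Φ) k)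

def M_LAC : Prop := S_LEA → S_LAC

/-- ESD. Differences of `E S = exp (e S)`, `e S = es .. (S.image val) l`. With `Q_a = Q a`, `s = 1` if `a ∉ S`, `s = -1` if `a ∈ S`: `e S = t₂ s (a.2·l) Q_a + 2 t₁ (ip l (sh S 0) + Q (sh S 0) - Q 1 - s (a.2·l) Q_a/2)` (QUAD: `ip a l = (a.2·l) Q_a`, `Q (x + y) = Q x + Q y + ip x y`). So `|e S| ≤ C` (`t₂ ≤ t₁ ≤ 1/X`, `|p.2·l| ≤ C₀ X`; the `p.2·l` determine `l`). First differences (`S` replaced by `S ∪ {p}`): for `p ≠ a`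
`2 t₁ (-(p.2·l) Q_p + O(1))`, at most `C t₁ X = C b`; for `p = a` `-2 t₂ (a.2·l) Q_a + t₁ O(1)`, at most `C (δ a + t₁) ≤ C δ a` (`δ a ≥ 1/X ≥ t₁`). Second differences for `p ≠ p'`: `2 t₁ ip p p' = O(t₁)`, and `t₁ = b/X ≤ b δ a ≤ b²`. Let `d p = δ a` for `p = a`, `= b` for `p ≠ a`: first differences `O(d p)`, second differences `O(d p d p')`. Let `S₀ = Aᶜ`. `A = ∅`: clear. `A = {p}`: `E S₀ (1 - e^α)`.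
`A = {p, p'}`: `E S₀ (1 - e^α - e^β + e^(α+β+γ)) = E S₀ ((1 - e^α)(1 - e^β) + e^(α+β)(e^γ - 1))`. `A = {p₁, p₂, p₃}` (everything): with the first differences `α_i` at `∅` and the second differences `γ_ij` (constant): `E ∅ (∏ (1 - e^(α_i)) + ∑_(i<j) e^(α_i + α_j)(e^(γ_ij) - 1)(1 - e^(α_k)) + e^(∑ α)(∑ (e^(γ_ij) - 1) - (e^(∑ γ) - 1)))`,
the last bracket is `O(t₁²)`, and `t₁² ≤ (b δ a) b` (two different roots `≠ a`). -/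
def S_ESD : Prop := ∀ (Φ : RT 2) (B : Matrix (Fin 2) (Fin 2) ℤ), IRD Φ B → WFF Φ B → A2F Φ →
  ∀ C₀ : ℝ, 0 ≤ C₀ → ∃ C : ℝ, 0 ≤ C ∧ ∀ (J : ℕ) (a : {p // p ∈ pos Φ}) (x : {p // p ∈ pos Φ} → Fin (J + 1))
    (A : Finset {p // p ∈ pos Φ}) (l : Fin 2 → ℤ), (∀ p : {p // p ∈ pos Φ}, |((p.1.2 ⬝ᵥ l : ℤ) : ℝ)| ≤ C₀ * 2 ^ J) →
    |cd A Aᶜ fun S => Real.exp (es Φ a.1 (th x) (tc a x) (S.image Subtype.val) l)| ≤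
      C * ∏ p ∈ A, (if p = a then dl x a else bx' x)

def M_ESD : Prop := S_QUAD → S_PRM → S_ESD

/-- the size of the symbols for the tuple `jj` -/
def Ac {r : ℕ} {Φ : RT r} {J : ℕ} (a : {p // p ∈ pos Φ}) (x : {p // p ∈ pos Φ} → Fin (J + 1)) (M₀ : {p // p ∈ pos Φ} → ℝ)
    (jm : {p // p ∈ pos Φ} → ℕ) {L : ℕ} (jj : {p // p ∈ pos Φ} → Fin (L + 2)) : ℝ :=
  dl x a * bx' x ^ 2 * ∏ p, fs (M₀ p) (jm p) (jj p).val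

/-- AMC. Let `M p = fs (M₀ p) (jm p) (jj p)`, `d p = δ a` for `p = a` and `= b` for the others; `∏ d p = (δ a) b²`. `M p ≥ M₀ p ≥ 1/δ a` (`1/√tc = (X/δ a)^(1/2) ≥ 1/δ a` as `X δ a ≥ 1`), `δ p ≤ d p`. `(1 + |u|) |ψ p j u| ≤ C M` for `|u| ≤ C₃ X`: for `j ≤ jm p` by `bd`, `hi`; for `j = jm p + 1` `M ≥ X`; for `j > jm p + 1` `ψ = 0`. LEB and ESD: the left side is at most
`C ∏_(f p = 0) d p ∏_(f p = 2) d p max_R ∏_(p ∉ R) M p`, `|R| = |{f = 1}|`, and this is `∏ d p ∏ M p` divided by `∏_(f p = 1) d p ∏_(p ∈ R) M p ≥ (δ a)^|R| (δ a)^(-|R|) = 1`. Second claim: a product of sums over the coordinates (CFF.abs, var). -/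
def S_AMC : Prop := ∀ (Φ : RT 2) (B : Matrix (Fin 2) (Fin 2) ℤ), IRD Φ B → WFF Φ B → A2F Φ →
  ∀ (m : ℕ) (C₁ C₂ C₃ : ℝ), 1 ≤ m → CFF m C₁ → 0 ≤ C₂ → 0 ≤ C₃ → ∃ C : ℝ, 0 ≤ C ∧
    ∀ (ε : ℝ) (J : ℕ) (a : {p // p ∈ pos Φ}) (x : {p // p ∈ pos Φ} → Fin (J + 1)) (R : ℝ)
      (M₀ : {p // p ∈ pos Φ} → ℝ) (jm : {p // p ∈ pos Φ} → ℕ) (L : ℕ) (ψ : {p // p ∈ pos Φ} → Fin (L + 2) → ℤ → ℝ)
      (ν₁ ν₂ : ({p // p ∈ pos Φ} → Fin (L + 2)) → Measure (Fin 2 → ℝ)), 0 < ε → RG ε a x →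
      FPC ε a x m C₂ R M₀ jm L ψ ν₁ ν₂ → ∀ f : {p // p ∈ pos Φ} → Fin 3,
    (∀ (jj : {p // p ∈ pos Φ} → Fin (L + 2)) (l : Fin 2 → ℤ),
      (∀ p : {p // p ∈ pos Φ}, |((p.1.2 ⬝ᵥ l : ℤ) : ℝ)| ≤ C₃ * 2 ^ J) →
      |amc Φ a (th x) (tc a x) f l * pj' ψ jj l| * ∏ p ∈ fc f 2, dl x p ≤ C * Ac a x M₀ jm jj) ∧
    ∀ K : ℕ, ∑ k ∈ kB Φ K, ‖cx m J x f k‖ ≤ C * ∏ p ∈ fc f 2, dl x p

def M_AMC : Prop := S_PRM → S_RGM → S_LEB → S_ESD → S_AMC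

/-! ### the `L²` bound -/

/-- SUI. The group `SU(2)`. With `g v = v exp (s v²)` and `u = x - 1 - 2 i`: `g (u + 1) - g (u - 1) = 2 exp (s (u² + 1)) (cosh (2 s u) + u sinh (2 s u))`; the sum over `i` telescopes to `g x - g (-x) = 2 x exp (s x²)`. So `∑ exp (-(s (x² - 1 - u²))) (cosh (2 s u) + u sinh (2 s u)) = x`, and `cosh y ≥ 1`, `u sinh (2 s u) ≥ 2 s u²`. -/
def S_SUI : Prop := ∀ (s : ℝ) (x : ℕ), 0 ≤ s →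
  ∑ i ∈ Finset.range x, Real.exp (-(s * ((x : ℝ) ^ 2 - 1 - ((x : ℝ) - 1 - 2 * (i : ℝ)) ^ 2))) *
    (1 + 2 * s * ((x : ℝ) - 1 - 2 * (i : ℝ)) ^ 2) ≤ (x : ℝ)

/-- the bound for the pieces `jj` in the `L²` estimate; the factor of a root `p ≠ a` with `jj p = 0` is `1` -/
def bbc {r : ℕ} {Φ : RT r} {J : ℕ} (a : {p // p ∈ pos Φ}) (x : {p // p ∈ pos Φ} → Fin (J + 1))
    (M₀ : {p // p ∈ pos Φ} → ℝ) (jm : {p // p ∈ pos Φ} → ℕ) {L : ℕ} (jj : {p // p ∈ pos Φ} → Fin (L + 2)) : ℝ :=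
  1 / ((1 + tc a x * fs (M₀ a) (jm a) (jj a).val ^ 2) *
    ∏ p ∈ Finset.univ.erase a, (if (jj p).val = 0 then 1 else 1 + th x * fs (M₀ p) (jm p) (jj p).val ^ 2))

/-- STS. The sum over one string. `M p = fs (M₀ p) (jm p) (jj p)`, `x' = a.2·τ + 1`, `m i = τ - i a`, `u = a.2·(m i) = x' - 1 - 2 i`, `s = tc Q(a)/2 ≥ tc/2`; the weight is `exp (-(s (x'² - 1 - u²))) ≤ 1` (as in TRC). Let `c₀` be the right side without `C`; it is at least `x' (5 X)^(-3)` (`tc, th ≤ 1/X`, `M ≤ 2 X`). For `J < J₀` it is enough that every term is `≤ C`. Let `J ≥ J₀(ε)`.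
(i) The `i` for which `|p.2·(m i)| < X^(-ε) M p` for some `p` with `jj p > 0`: by `lo` `(pj')² ≤ C X^(-4mε) ≤ C X^(-3)`. (ii) The `i` with `s (x'² - 1 - u²) ≥ 3 log X`: the weight is `≤ X^(-3)`. (iii) The others. Let `i' = min i (x' - 1 - i)`; `x'² - 1 - u² ≥ 2 i' x'`, so `i' x' ≤ 3 log X/tc = 3 log X (X/δ a)`. Claim: `|p.2·(m i)| ≥ 2 i'` for all `p ≠ a` with `jj p > 0`. If `a` is one of the two roots of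
`LGp`: `|u| ≥ X^(-ε) M a ≥ X^(1-3ε)` (`jj a > 0` as `M₀ a = (X/δ a)^(1/2) ≤ X^(1-6ε)`), so `x' ≥ X^(1-3ε)`, `i' ≤ 3 log X X^(3ε)/δ a`, and `|p.2·(m i)| ≥ X^(-ε) M₀ p ≥ X^(7ε)/δ a`. Otherwise the two roots of `LGp` are the two roots `≠ a`, `|p.2·(m i)| ≥ X^(1-3ε)`, and `i'² ≤ i' x' ≤ 3 log X X^(2-12ε)`. So with `p' = p` if `u ≥ 0` (then `i' = i`, `τ = m i + i' a`), `p'` the third root if `u < 0`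
(then `m' = m i - u a = τ - i' a`, `|p.2·(m i)| = |p'.2·m'|` by `A2F.swap`), `|p'.2·τ| ≥ |p.2·(m i)| - i' ≥ |p.2·(m i)|/2` (`A2F.one`). For one factor `|ψ p j u|² ≤ C (1 + ϑ u²)/(1 + ϑ M²)` if `j > 0`, or if `j = 0` and `ϑ M₀² ≤ 1` (see AMB): use it for `a` with `ϑ = tc` (`tc M₀² = 1`), and for the `p ≠ a` with `jj p > 0` with `ϑ = th`. So the term is at most the weight times
`C (1 + tc u²) bbc ∏_(p ≠ a) 4 (1 + th (p.2·τ)²)`, and SUI (`1 + tc u² ≤ 1 + 2 s u²`). -/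
def S_STS : Prop := ∀ (Φ : RT 2) (B : Matrix (Fin 2) (Fin 2) ℤ), IRD Φ B → WFF Φ B → A2F Φ →
  ∀ (m : ℕ) (C₂ ε : ℝ), 1 ≤ m → 0 ≤ C₂ → 0 < ε → 5 ≤ 2 * ε * m → ∃ C : ℝ, 0 ≤ C ∧
    ∀ (J : ℕ) (a : {p // p ∈ pos Φ}) (x : {p // p ∈ pos Φ} → Fin (J + 1)) (R : ℝ)
      (M₀ : {p // p ∈ pos Φ} → ℝ) (jm : {p // p ∈ pos Φ} → ℕ) (L : ℕ) (ψ : {p // p ∈ pos Φ} → Fin (L + 2) → ℤ → ℝ)
      (ν₁ ν₂ : ({p // p ∈ pos Φ} → Fin (L + 2)) → Measure (Fin 2 → ℝ)) (jj : {p // p ∈ pos Φ} → Fin (L + 2))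
      (τ : Fin 2 → ℤ), 1 ≤ J → RG ε a x → FPC ε a x m C₂ R M₀ jm L ψ ν₁ ν₂ → LGp (1 - 2 * ε) J M₀ jm jj →
      0 ≤ a.1.2 ⬝ᵥ τ →
      ∑ i ∈ Finset.range ((a.1.2 ⬝ᵥ τ).toNat + 1),
          Real.exp (-(2 * tc a x * (CL Φ a.1 τ - (rd Φ).Q (τ - (i : ℤ) • a.1.1)))) *
            pj' ψ jj (τ - (i : ℤ) • a.1.1) ^ 2 ≤
        C * bbc a x M₀ jm jj * (((a.1.2 ⬝ᵥ τ : ℤ) : ℝ) + 1) *
          ∏ p ∈ (pos Φ).erase a.1, (1 + th x * ((p.2 ⬝ᵥ τ : ℤ) : ℝ) ^ 2)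

def M_STS : Prop := S_QUAD → S_PRM → S_RGM → S_SUI → S_STS

/-- the main factor of the bound (I''), without `δ a`, `b` from the `L¹` bound -/
def Lb {r : ℕ} {Φ : RT r} {J : ℕ} (a : {p // p ∈ pos Φ}) (x : {p // p ∈ pos Φ} → Fin (J + 1)) : ℝ :=
  √(dl x a * 2 ^ J) * √(bx' x * 2 ^ J) * max (√(bx' x * 2 ^ J)) (bx' x / dl x a)

/-- ABC. `M p = fs (M₀ p) (jm p) (j₁ p)`; `fs (j₂ p) ≤ 2^(ε J) M p`. For `a`: `δ a M/√(1 + tc M²) ≤ δ a/√tc = √(δ a X)`. For `p ≠ a` with `j₁ p > 0`: `b M/√(1 + th M²) ≤ b/√th = √(b X)`. For `p ≠ a` with `j₁ p = 0`: `b M = X^(8ε) max (√(b X)) (b/δ a)`. The last case does not occur for both `p ≠ a`: then `M p ≤ X^(8ε) X^(1 - 12ε) < X^(1-2ε)` for two roots (RGX.lump), a contradiction to `LGp`.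
Second claim: `fs (j₁ p) ≥ 2^(-ε J) fs (j₂ p)`. Third claim: `tc, th > 0`, `fs > 0`. -/
def S_ABC : Prop := ∀ (Φ : RT 2) (B : Matrix (Fin 2) (Fin 2) ℤ), IRD Φ B → WFF Φ B → A2F Φ →
    ∀ (m : ℕ) (C₂ ε : ℝ) (J : ℕ) (a : {p // p ∈ pos Φ}) (x : {p // p ∈ pos Φ} → Fin (J + 1)) (R : ℝ)
      (M₀ : {p // p ∈ pos Φ} → ℝ) (jm : {p // p ∈ pos Φ} → ℕ) (L : ℕ) (ψ : {p // p ∈ pos Φ} → Fin (L + 2) → ℤ → ℝ)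
      (ν₁ ν₂ : ({p // p ∈ pos Φ} → Fin (L + 2)) → Measure (Fin 2 → ℝ)) (j₁ j₂ : {p // p ∈ pos Φ} → Fin (L + 2)),
      0 < ε → 1 ≤ J → RG ε a x → FPC ε a x m C₂ R M₀ jm L ψ ν₁ ν₂ →
      (LGp (1 - 2 * ε) J M₀ jm j₁ → (∀ p, |((j₁ p).val : ℝ) - (j₂ p).val| ≤ ε * J) →
        Ac a x M₀ jm j₂ * √(bbc a x M₀ jm j₁) ≤ (2 : ℝ) ^ (11 * ε * J) * Lb a x) ∧
      (LGp (1 - ε) J M₀ jm j₂ → (∀ p, |((j₁ p).val : ℝ) - (j₂ p).val| ≤ ε * J) → LGp (1 - 2 * ε) J M₀ jm j₁) ∧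
      0 < bbc a x M₀ jm j₁ ∧ 0 ≤ Ac a x M₀ jm j₂

def M_ABC : Prop := S_PRM → S_RGM → S_ABC

/-! ### the `L¹` bound on the cells -/

/-- JSC. As JSB (StM.lean), with the whole measure, and JBC instead of JBD (for the subset `θ ∈ S - φ - s + s'` of a unit cube). -/
def S_JSC : Prop := ∀ (N : ℕ) (H : Subgroup (SU N)) (r : ℕ) (Φ : RT r) (B : Matrix (Fin r) (Fin r) ℤ)
  (Hc : Fin r → MT N) (E : (Fin r → ℤ) × (Fin r → ℤ) → MT N) (c k : ℝ) (d : ℕ), CX H Φ B Hc E c k d →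
  ∀ (μ : Measure H) [IsProbabilityMeasure μ] [μ.IsMulLeftInvariant] (j : ℕ) (C₂ : ℝ), 1 ≤ j → 0 ≤ C₂ →
    ∃ C η₀ : ℝ, 0 ≤ C ∧ 0 < η₀ ∧
    ∀ (a : {p // p ∈ pos Φ}) (t₁ t₂ ma m R : ℝ) (κ : Measure H) (ν₁ ν₂ ν₃ ν₄ : Measure (Fin r → ℝ))
      (Ψ Ψ' : (Fin r → ℤ) → ℝ) (Q S : Set (Fin r → ℝ)) (G : ℝ → H → ℂ), 0 < t₂ → t₂ ≤ t₁ → t₁ ≤ 1 / 2 → 0 < ma → 0 < m →
      t₂ ≤ η₀ * ma ^ 2 → t₁ ≤ η₀ * m ^ 2 → PC H Φ E c k a t₁ t₂ κ →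
      FM C₂ R Ψ ν₁ ν₂ → FM C₂ R Ψ' ν₃ ν₄ → MeasurableSet Q → MeasurableSet S → Q ⊆ Set.Icc 0 1 → S ⊆ Set.Icc 0 1 →
      (∀ φ ∈ Q, ∀ θ ∈ S, ∀ s : Fin r → ℝ, (∀ i, |s i| ≤ 2 * C₂ * R) →
        ma ≤ nd (dz a.1.1 (θ - φ + s)) ∧ ∀ p ∈ (pos Φ).erase a.1, m ≤ nd (dz p.1 (θ - φ + s))) → JC G →
      (∀ t y, ‖G t y‖ ≤ 1) →
      ∫ h, ∫ g, (∫ t in (0 : ℝ)..1, ∫ φ in Q, ‖po Hc ν₁ ν₂ (vw κ G) t h (g * tt H Hc φ)‖) *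
          (∫ t in (0 : ℝ)..1, ∫ θ in S, ‖po Hc ν₃ ν₄ (vw κ G) t h (g * tt H Hc θ)‖) ∂μ ∂μ ≤
        C * volume.real Q * ((1 / ma ^ 2) * (1 / m ^ (2 * ((pos Φ).card - 1)) + t₁ ^ (-((d : ℝ) / 2)) * (t₁ / m ^ 2) ^ j)) *
          mG μ G ^ 2

def M_JSC : Prop := S_HAAR → S_PSF → S_JBC → S_VCN → S_JSC

/-- the cell -/
def qcc {r : ℕ} {Φ : RT r} {J : ℕ} (ε : ℝ) (x : {p // p ∈ pos Φ} → Fin (J + 1)) : Set (Fin r → ℝ) :=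
  {θ | θ ∈ Set.Icc 0 1 ∧ ∀ p : {p // p ∈ pos Φ}, nd (dz p.1.1 θ) ≤ (2 : ℝ) ^ (-(2 * ε * J)) * dl x p}

/-- SEC. The sets, as SET (StM.lean). (ii) CVR for `X^(-2ε) δ p` and `K = 4 X^(3ε)`. (iii) `nd` is 1-Lipschitz, `X^ε ≥ 4`. (iv) `nd (dz p.1 (θ - φ + s)) ≥ X^(-ε) δ p/4 - X^(-2ε) δ p - C X^(-3ε) δ a ≥ X^(-2ε) δ p`. For the root `q` with `δ q = b` (`q ≠ a`, RG.lo) and the third root `q'`: `X^(-ε) b ≤ 4 nd (dz q θ) ≤ 4 nd (dz a θ) + 4 nd (dz q' θ) ≤ 16 X^ε (δ a + δ q')` (`A2F.tri₁`), `δ a ≤ X^(-24ε) b`,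
so `δ q' ≥ X^(-3ε) b` for `J ≥ J₀`. -/
def S_SEC : Prop := ∀ (Φ : RT 2) (B : Matrix (Fin 2) (Fin 2) ℤ), IRD Φ B → WFF Φ B → A2F Φ →
  ∀ ε C₂ : ℝ, 0 < ε → 0 ≤ C₂ → ∃ J₀ : ℕ, ∀ (J : ℕ) (a : {p // p ∈ pos Φ}) (x : {p // p ∈ pos Φ} → Fin (J + 1)), J₀ ≤ J →
    RG ε a x →
    MeasurableSet (qcc ε x) ∧ MeasurableSet (Set.Icc (0 : Fin 2 → ℝ) 1 ∩ skc 4 ε x) ∧ 0 < volume.real (qcc ε x) ∧
    volume.real (Set.Icc (0 : Fin 2 → ℝ) 1 ∩ skc 4 ε x) ≤ (16 : ℝ) ^ 3 * (2 : ℝ) ^ (9 * ε * J) * volume.real (qcc ε x) ∧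
    (∀ φ ∈ qcc ε x, ∀ θ : Fin 2 → ℝ, θ ∉ skc 4 ε x → θ - φ ∉ skc 2 ε x) ∧
    ∀ φ ∈ qcc ε x, ∀ θ ∈ skc 4 ε x, ∀ s : Fin 2 → ℝ, (∀ i, |s i| ≤ 2 * C₂ * ((2 : ℝ) ^ (-(3 * ε * J)) * dl x a)) →
      (2 : ℝ) ^ (-(2 * ε * J)) * dl x a ≤ nd (dz a.1.1 (θ - φ + s)) ∧
      ∀ p ∈ (pos Φ).erase a.1, (2 : ℝ) ^ (-(5 * ε * J)) * bx' x ≤ nd (dz p.1 (θ - φ + s))

def M_SEC : Prop := S_PRM → S_RGM → S_CVR → S_SEC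

/-! ### the bound -/

/-- DGC. The main terms. For `J ≥ J₀` (SEC) CLL with `Q = qcc ε x`, `S = [0,1]² ∩ skc 4 ε x`, `ker = km (lac) T (pj' ψ j₂)`, `η = C X^(-A)` (KOC; `FM` from `FCF`, R replaced by `X^(-3ε) δ a`, `rr`). The error term: `η` times `∫∫ ‖V‖ ‖W‖ ≤ C mG` (VCN). Main term: by LAC `ker = ∑ f, tker Φ q (amc f * pj' ψ j₂) (cx f) T`, KHO (exponent `ε`) for each of the 27 functions `f`; `A` and `∑ ‖cc‖` from AMC, together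
at most `C Ac (j₂)` (if `q (l + 1 - rs k) ≠ 0` for a `k` in the box then `|p.2·l| ≤ C X`). JSC with `ma = X^(-2ε) δ a`, `m = X^(-5ε) b`, `j ≥ d/(26 ε)`: `t₂/ma² = X^(4ε)/(X δ a) ≤ X^(-8ε) ≤ η₀`, `t₁/m² = X^(10ε)/(X b) ≤ X^(-26ε) ≤ η₀` for `J ≥ J₀`, `t₁^(-d/2) ≤ X^d`, so the product is at most `C |Q| X^(24ε) (δ a)^(-2) b^(-4) mG²`. `∫∫∫ ‖V‖² ≤ C bbc (j₁) mG`: L2C for every `t`
(hypothesis: STS with `FCF.tr`, `LGp (1 - 2ε)` for `j₁` and `j₃` from ABC), `∫ ‖G t‖² ≤ ∫ ‖G t‖`; the same for `W` with `j₃`. Product: `|Q|^(-1) X^ε Ac(j₂) (C |Q| X^(24ε) ..)^(1/2) (|Q| bbc(j₁) mG)^(1/4) (|S| bbc(j₃) mG)^(1/4)`, `|S| ≤ C X^(9ε) |Q|`, and `Ac(j₂) (bbc(j₁) bbc(j₃))^(1/4) ≤ X^(11ε) Lb` (ABC). For `J < J₀` the trivial bound (KOC, first claim; VCN). -/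
def S_DGC : Prop := ∀ (N : ℕ) (H : Subgroup (SU N)) (Φ : RT 2) (B : Matrix (Fin 2) (Fin 2) ℤ)
  (Hc : Fin 2 → MT N) (E : (Fin 2 → ℤ) × (Fin 2 → ℤ) → MT N) (c k : ℝ) (d : ℕ), CX H Φ B Hc E c k d →
  A2F Φ →
  ∀ (μ : Measure H) [IsProbabilityMeasure μ] [μ.IsMulLeftInvariant], ∃ K : ℝ, 0 ≤ K ∧
    ∀ (m : ℕ) (C₁ C₂ ε A : ℝ), 1 ≤ m → CFF m C₁ → 0 ≤ C₂ → 0 < ε → 0 ≤ A → 5 + A ≤ 2 * ε * m → ∃ C : ℝ, 0 ≤ C ∧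
    ∀ (J : ℕ) (q : (Fin 2 → ℤ) → ℝ) (a : {p // p ∈ pos Φ}) (x : {p // p ∈ pos Φ} → Fin (J + 1)) (R : ℝ)
      (M₀ : {p // p ∈ pos Φ} → ℝ) (jm : {p // p ∈ pos Φ} → ℕ) (L : ℕ) (ψ : {p // p ∈ pos Φ} → Fin (L + 2) → ℤ → ℝ)
      (ν₁ ν₂ : ({p // p ∈ pos Φ} → Fin (L + 2)) → Measure (Fin 2 → ℝ)) (T : Finset (Fin 2 → ℤ)) (κ : Measure H)
      (G : ℝ → H → ℂ) (j₁ j₂ j₃ : {p // p ∈ pos Φ} → Fin (L + 2)), 1 ≤ J →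
    QH Φ (2 ^ J) q → RG ε a x → FPC ε a x m C₂ R M₀ jm L ψ ν₁ ν₂ → (∀ τ l, lac Φ m J q a x τ l ≠ 0 → l ∈ T) →
    PC H Φ E c k a (th x) (tc a x) κ → JC G → (∀ t y, ‖G t y‖ ≤ 1) → LGp (1 - ε) J M₀ jm j₂ →
    (∀ p, |((j₁ p).val : ℝ) - (j₂ p).val| ≤ ε * J) → (∀ p, |((j₃ p).val : ℝ) - (j₂ p).val| ≤ ε * J) →
    ‖TX Hc μ (km (lac Φ m J q a x) T (pj' ψ j₂))
        (po Hc (ν₁ j₁) (ν₂ j₁) (vw κ G)) (po Hc (ν₁ j₃) (ν₂ j₃) (vw κ G))‖ ≤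
      C * (2 : ℝ) ^ (-(A * J)) * mG μ G +
        C * (2 : ℝ) ^ (K * ε * J) * (Lb a x / (dl x a * bx' x ^ 2)) * mG μ G ^ ((3 : ℝ) / 2)

def M_DGC : Prop := S_WFAC → S_PSF → S_PRM → S_RGM → S_LMC → S_KOC → S_VCN → S_CLL → S_KHO → S_JSC → S_L2C → S_LAC → S_AMC →
  S_STS → S_ABC → S_SEC → S_DGC

/-- IPC. The bound (I''). FPX; `κ` from EXI (the `yr` are in `lie H`). NRC, DCP (`a = lac`); the number of the triples `(j₁, j₂, j₃)` is `(L + 2)^9 ≤ C X^ε`. OFD with `y = ε J` for the triples with different scales (`|lac| ≤ C X³`: LMC; `∫∫∫ ‖vw‖² ≤ ∫∫∫ ‖vw‖ ≤ mG`: VCN). For `j₂` with `¬ LGp (1 - ε)`: SMK with SMJ (`V = po .. (vw κ G)`, the `L²` bound of VCN). DGC for the others. `A` in DGC, SMJ, OFD: `A + 1`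
(`ε ≤ 1`). -/
def S_IPC : Prop := ∀ (N : ℕ) (H : Subgroup (SU N)) (Φ : RT 2) (B : Matrix (Fin 2) (Fin 2) ℤ)
  (Hc : Fin 2 → MT N) (E : (Fin 2 → ℤ) × (Fin 2 → ℤ) → MT N) (c k : ℝ) (d : ℕ), CX H Φ B Hc E c k d →
  A2F Φ →
  ∀ (μ : Measure H) [IsProbabilityMeasure μ] [μ.IsMulLeftInvariant] (χ : IX Hc → H → ℂ), CHI Φ Hc c k d χ →
  ∃ K : ℝ, 0 ≤ K ∧ ∀ (m : ℕ) (C₁ ε A : ℝ), 1 ≤ m → CFF m C₁ → 0 < ε → ε ≤ 1 → 0 ≤ A →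
    6 + A ≤ 2 * ε * m → ∃ C : ℝ, 0 ≤ C ∧
    ∀ (J : ℕ) (q : (Fin 2 → ℤ) → ℝ) (a : {p // p ∈ pos Φ}) (x : {p // p ∈ pos Φ} → Fin (J + 1)) (F : Finset (IX Hc))
      (G : ℝ → H → ℂ), 1 ≤ J → QA Φ (2 ^ J) q → RG ε a x →
    (∀ τ (i : IX Hc), wa Φ (nx Φ m J q x τ) (wG i.1) ≠ 0 → i ∈ F) → JC G → (∀ t y, ‖G t y‖ ≤ 1) →
    ‖BF μ χ F (fun t i => wa Φ (nx Φ m J q x t) (wG i.1)) G‖ ≤ C * (2 : ℝ) ^ (-(A * J)) * mG μ G +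
      C * (2 : ℝ) ^ (K * ε * J) * (Lb a x / (dl x a * bx' x ^ 2)) * mG μ G ^ ((3 : ℝ) / 2)

def M_IPC : Prop := S_LIEB → S_WFAC → S_TAUF → S_PSF → S_PRM → S_RGM → S_LMC → S_EXI → S_FPX → S_VCN → S_NRC → S_DCP →
  S_OFD → S_SMK → S_SMJ → S_DGC → S_IPC

/-! ### numerology -/

/-- NUC. `a`: RGX.tri. If `RG ε a x`: let `p₂ ≠ a`; `δ p₂ ≤ b`. With `Lb⁴ = (δ a X)² (b X)² max ((b X)²) ((b/δ a)⁴)` the left side is at most `max (X⁶ (δ a)/b) (X⁴ b (δ a)^(-3)) ≤ X⁶` (`δ a ≤ b`, RG.hi). If `b ≤ X^(24ε) δ a`: `∏ δ' ≥ (δ a)³ ≥ (X^(-24ε) b)³` and `δ p₁, δ p₂ ≤ b`: the left side is at most `(X b)⁶ X^(288ε) b^(-12) b⁶`. If `X² (δ a)³ ≤ b`: let `ρ = ro ε x`, `δ' = max δ ρ`. Case `b < ρ`: `δ' ≥ ρ`,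
`ρ² = X^(4ε) b/X`, so `(X b)⁶ ρ^(-12) b⁶ = X^(12 - 24ε) b⁶ ≤ X⁶` (`b < ρ` implies `b < X^(4ε-1)`). Case `ρ ≤ b`: let `p` be the root with `δ p = b`. If `p = a` then all `δ` are equal to `b` and we are in the second case. Let `q` be the third root, `θ` in the shell: `X^(-ε) b ≤ nd (dz p θ) ≤ nd (dz a θ) + nd (dz q θ) ≤ 2 X^ε δ' q` (`δ' a ≤ δ' q`), so `δ' q ≥ X^(-2ε) b/2`. For `p₁ = a`, `p₂ = q` (`δ q ≤ b`)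
the left side is at most `(X b)⁶ b^(-4) (2 X^(2ε)/b)⁴ ρ^(-4) (δ a b)³ = 16 X^(6 + 8ε) b (δ a)³ X^(2 - 8ε) b^(-2) ≤ 16 X⁶`. -/
def S_NUC : Prop := ∀ (Φ : RT 2) (B : Matrix (Fin 2) (Fin 2) ℤ), IRD Φ B → WFF Φ B → A2F Φ →
  ∃ C : ℝ, 0 ≤ C ∧ ∀ (ε : ℝ) (J : ℕ) (x : {p // p ∈ pos Φ} → Fin (J + 1)), 0 < ε → ε ≤ 1 / 8 → 1 ≤ J →
    (∃ a p₂ : {p // p ∈ pos Φ}, a ≠ p₂ ∧ RG ε a x ∧
      (Lb a x / (dl x a * bx' x ^ 2)) ^ 4 * (dl x a * dl x p₂) ^ 3 ≤ C * (2 : ℝ) ^ (6 * (J : ℝ))) ∨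
    (shl ε x ≠ ∅ → ∃ p₁ p₂ : {p // p ∈ pos Φ}, p₁ ≠ p₂ ∧
      ((2 ^ J * bx' x) ^ (((pos Φ).card : ℝ) / 2) / ∏ p : {p // p ∈ pos Φ}, max (dl x p) (ro ε x)) ^ 4 *
          (dl x p₁ * dl x p₂) ^ 3 ≤ C * (2 : ℝ) ^ ((6 + 300 * ε) * J))

def M_NUC : Prop := S_PRM → S_RGM → S_NUC

/-- BXC. As BXB (StF.lean), with `n = 3` (`s = 4/7`), the cutoffs `QA`, and IPC, BII if the first alternative of NUC holds, IPR, BII if the second does. -/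
def S_BXC : Prop := ∀ (N : ℕ) (H : Subgroup (SU N)) (Φ : RT 2) (B : Matrix (Fin 2) (Fin 2) ℤ)
  (Hc : Fin 2 → MT N) (E : (Fin 2 → ℤ) × (Fin 2 → ℤ) → MT N) (c k : ℝ) (d : ℕ), CX H Φ B Hc E c k d →
  (pos Φ).card = 3 →
  ∀ (μ : Measure H) [IsProbabilityMeasure μ] [μ.IsMulLeftInvariant] (χ : IX Hc → H → ℂ), CHI Φ Hc c k d χ →
  ∀ ε : ℝ, 0 < ε → ∃ (m : ℕ) (C₁ C : ℝ), 1 ≤ m ∧ CFF m C₁ ∧ 0 ≤ C ∧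
    ∀ (J : ℕ) (q : (Fin 2 → ℤ) → ℝ) (x : {p // p ∈ pos Φ} → Fin (J + 1)) (F : Finset (IX Hc)) (G : ℝ → H → ℂ), 1 ≤ J →
    QA Φ (2 ^ J) q → (∀ τ (i : IX Hc), wa Φ (nx Φ m J q x τ) (wG i.1) ≠ 0 → i ∈ F) → JC G → (∀ t y, ‖G t y‖ ≤ 1) →
    ‖BF μ χ F (fun t i => wa Φ (nx Φ m J q x t) (wG i.1)) G‖ ≤ C * (2 : ℝ) ^ (ε * J) *
      ((2 : ℝ) ^ ((6 : ℝ) / 7 * J) * mG μ G ^ ((9 : ℝ) / 7) + (2 : ℝ) ^ (-(4 * J : ℝ)) * mG μ G)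

def M_BXC : Prop := S_WFAC → S_CFA → S_PRM → S_BII → S_IPR → S_ATW → S_IPC → S_NUC → S_BXC

/-- LWC. As LWL (StF.lean), for the frequencies in an annulus. `N/2 ≤ sz (wG i) ≤ N` for `i ∈ F`; `wG i ≥ 1` (both coordinates), so `sz (wG i) ≥ 3` and `N ≥ 3` if `F ≠ ∅`. Choose `J` with `N ≤ 2^J ≤ 2 N`; `|p.2·l| ≤ ∑ |l i| ≤ sz l ≤ 2^J` (`A2F.co`), and `max |l i| ≥ (sz l - 1)/2 ≥ sz l/3 ≥ N/6 ≥ 2^J/12`, `l i` is `p.2·l` for a simple root: so `qn Φ (2^J) (wG i) = 1` for `i ∈ F`. BXC. `(rd Φ).e = 6`, `p₀ = 14/5`: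
`8 (1 - 2/p₀) - 4/p₀ = 6/7`, `2 - 2/p₀ = 9/7`. -/
def S_LWC : Prop := ∀ (N : ℕ) (H : Subgroup (SU N)) (Φ : RT 2) (B : Matrix (Fin 2) (Fin 2) ℤ)
  (Hc : Fin 2 → MT N) (E : (Fin 2 → ℤ) × (Fin 2 → ℤ) → MT N) (c k : ℝ) (d : ℕ), CX H Φ B Hc E c k d →
  (pos Φ).card = 3 →
  ∀ (μ : Measure H) [IsProbabilityMeasure μ] [μ.IsMulLeftInvariant] (χ : IX Hc → H → ℂ), CHI Φ Hc c k d χ →
    LLV μ (KK χ) ((rd Φ).e : ℝ) (fun i : IX Hc => wG i.1) (fun l => -(rd Φ).Q l) (2 + 8 / (((rd Φ).e : ℝ) + 4)) (1 / 2)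

def M_LWC : Prop := S_WFAC → S_KERI → S_CHIF → S_NXS → S_PRM → S_LMB → S_TTB → S_QNS → S_ATW → S_BXC → S_LWC

/-! ### the main theorem -/

/-- the upper bound for all compact connected groups of rank two with simple Lie algebra -/
def MainUpRankTwo : Prop := ∀ (N : ℕ) (H : Subgroup (SU N)) (T : Submodule ℝ (Matrix (Fin N) (Fin N) ℂ)) (d : ℕ),
  IsClosed (H : Set (SU N)) → IsConnected (H : Set (SU N)) → SimpleH H → LGR.MaxAb H T →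
  Module.finrank ℝ (Submodule.span ℝ (lie H)) = d → Module.finrank ℝ T = 2 →
  ∀ p : ℝ, 2 + 8 / ((d : ℝ) + 2) < p → StrK H d p

/-- MFC. As MFN (MFN.lean): `d = 2n + 2`, `n ≥ 3` (CR3). For `n ≥ 4` LWL, for `n = 3` LWC (`p₀ = 2 + 8/(2n + 4) = 2 + 8/(d + 2) < 3`; `LLV` for `α = 0` implies `LLV` for `α = 1/2`). TPL, MXU and LOT give `LOCA` for `α = 1/2`; STU. -/
def M_MFC : Prop := S_WFAC → S_RVOF → S_LRDX → S_KFRM → S_FORM → S_GXOC → S_CR3 → S_LWL → S_LWC → S_TPL → S_MXU → S_LOT →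
  S_STU → MainUpRankTwo

end

end STZ3
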