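import Pool.Agent.STZ3.StS

/-!
# Compact simple groups of rank two: the bound (I') (section 7 of `PAPER.md`)

Module `X` proves `theorem t_X : M_X` (or `t_X : S_X` if there is no `M_X`) in the file `Pool/Agent/STZ3/X.lean`, namespace `STZ3`. `X = 2 ^ J`, `n` is the number of the positive roots; `δ p = dl x p`, `b = bx' x`, `ϑ = th x = b/X`, `ρ = ro ε x = X^(2ε) √ϑ`.
-/

namespace STZ3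

open STZ LGR MeasureTheory Matrix Filter

open scoped ComplexConjugate Matrix Real Topology

noncomputable section

/-! ### parameters and the kernel -/

/-- facts about the parameters -/
structure PRF {r : ℕ} (Φ : RT r) : Prop where
  dpos : ∀ (J : ℕ) (x : {p // p ∈ pos Φ} → Fin (J + 1)) p, 0 < dl x p
  dle : ∀ (J : ℕ) (x : {p // p ∈ pos Φ} → Fin (J + 1)) p, dl x p ≤ bx' x
  dge : ∀ (J : ℕ) (x : {p // p ∈ pos Φ} → Fin (J + 1)) p, 1 / 2 ^ J ≤ dl x p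
  ble : ∀ (J : ℕ) (x : {p // p ∈ pos Φ} → Fin (J + 1)), bx' x ≤ 1
  bge : ∀ (J : ℕ) (x : {p // p ∈ pos Φ} → Fin (J + 1)), 1 / 2 ^ J ≤ bx' x
  bat : ∀ (J : ℕ) (x : {p // p ∈ pos Φ} → Fin (J + 1)), ∃ p, bx' x = dl x p
  tpos : ∀ (J : ℕ) (x : {p // p ∈ pos Φ} → Fin (J + 1)), 0 < th x
  tle : ∀ (J : ℕ) (x : {p // p ∈ pos Φ} → Fin (J + 1)), th x ≤ 1 / 2 ^ J
  half : ∀ (J : ℕ) (x : {p // p ∈ pos Φ} → Fin (J + 1)), 1 ≤ J → th x ≤ 1 / 2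
  tge : ∀ (J : ℕ) (x : {p // p ∈ pos Φ} → Fin (J + 1)), 1 / 2 ^ J ≤ √(th x)
  rpos : ∀ (J : ℕ) (x : {p // p ∈ pos Φ} → Fin (J + 1)) (ε : ℝ), 0 < ro ε x
  rle : ∀ (J : ℕ) (x : {p // p ∈ pos Φ} → Fin (J + 1)) (ε : ℝ), 0 ≤ ε → ε ≤ 1 / 4 → ro ε x ≤ 1
  rth : ∀ (J : ℕ) (x : {p // p ∈ pos Φ} → Fin (J + 1)) (ε : ℝ), ro ε x ^ 2 / th x = (2 : ℝ) ^ (4 * ε * J)

/-- PRM. `1/2^J ≤ δ p ≤ b ≤ 1`, `ϑ = b/2^J`, `pos Φ` is not empty (`IRD.base`, `1 ≤ r`). -/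
def S_PRM : Prop := ∀ (r : ℕ) (Φ : RT r) (B : Matrix (Fin r) (Fin r) ℤ), 1 ≤ r → IRD Φ B → WFF Φ B → PRF Φ

/-- facts about the multiplier of the tuple `x` -/
structure LMF {r : ℕ} (Φ : RT r) (m K : ℕ) (C : ℝ) : Prop where
  supp : ∀ (J : ℕ) (q : (Fin r → ℤ) → ℝ) (x : {p // p ∈ pos Φ} → Fin (J + 1)) (τ : ℝ) (l : Fin r → ℤ), QH Φ (2 ^ J) q →
    lm Φ (th x) (nx Φ m J q x τ) l ≠ 0 → l ∈ cb r (K * 2 ^ J)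
  bd : ∀ (J : ℕ) (q : (Fin r → ℤ) → ℝ) (x : {p // p ∈ pos Φ} → Fin (J + 1)) (τ : ℝ) (l : Fin r → ℤ), QH Φ (2 ^ J) q →
    ‖lm Φ (th x) (nx Φ m J q x τ) l‖ ≤ C * 2 ^ (J * (pos Φ).card)
  wsup : ∀ (J : ℕ) (q : (Fin r → ℤ) → ℝ) (x : {p // p ∈ pos Φ} → Fin (J + 1)) (τ : ℝ) (ν : Fin r → ℤ), QH Φ (2 ^ J) q →
    wa Φ (nx Φ m J q x τ) ν ≠ 0 → ν ∈ cb r (K * 2 ^ J)
  cont : ∀ (J : ℕ) (q : (Fin r → ℤ) → ℝ) (x : {p // p ∈ pos Φ} → Fin (J + 1)) (l : Fin r → ℤ),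
    Continuous fun τ => lm Φ (th x) (nx Φ m J q x τ) l
  wcont : ∀ (J : ℕ) (q : (Fin r → ℤ) → ℝ) (x : {p // p ∈ pos Φ} → Fin (J + 1)) (ν : Fin r → ℤ),
    Continuous fun τ => wa Φ (nx Φ m J q x τ) ν

/-- LMB. `supp`, `wsup`: `NXF.supp`, the elements of `WF Φ` are finitely many invertible integral matrices. `bd`: `‖nx‖ ≤ ∏ p, ∑ ‖cf‖ ≤ C` (CFF.abs; `‖gt‖ ≤ 1`), `|dR ν| ≤ C 2^(J n)` for `ν` in a box `C 2^J`, and `exp (2ϑ ip l (w 1)) ≤ C` as `ϑ ≤ 1/2^J`. -/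
def S_LMB : Prop := ∀ (r : ℕ) (Φ : RT r) (B : Matrix (Fin r) (Fin r) ℤ), 1 ≤ r → IRD Φ B → WFF Φ B →
  ∀ (m : ℕ) (C₁ : ℝ), 1 ≤ m → CFF m C₁ → ∃ (K : ℕ) (C : ℝ), 0 ≤ C ∧ LMF Φ m K C

def M_LMB : Prop := S_PRM → S_NXS → S_LMB

/-- the kernel with the coefficients `a τ l` and the factor `Ψ` for the frequencies of the torus -/
def km {r : ℕ} (a : ℝ → (Fin r → ℤ) → ℂ) (T : Finset (Fin r → ℤ)) (Ψ : (Fin r → ℤ) → ℝ) (τ : ℝ) (θ : Fin r → ℝ) : ℂ :=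
  ∑ l ∈ T, a τ l * (Ψ l : ℂ) * eu (dz l θ)

/-- the coefficients for the tuple `x` -/
def la {r : ℕ} (Φ : RT r) (m J : ℕ) (q : (Fin r → ℤ) → ℝ) (x : {p // p ∈ pos Φ} → Fin (J + 1)) (τ : ℝ)
    (l : Fin r → ℤ) : ℂ := lm Φ (th x) (nx Φ m J q x τ) l

/-- `ν₁ - ν₂` has the mass at most `2 C`, the support in `|s i| ≤ C R` and the Fourier transform `Ψ` -/
structure FM {r : ℕ} (C R : ℝ) (Ψ : (Fin r → ℤ) → ℝ) (ν₁ ν₂ : Measure (Fin r → ℝ)) : Prop where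
  fin₁ : IsFiniteMeasure ν₁
  fin₂ : IsFiniteMeasure ν₂
  mass₁ : ν₁.real Set.univ ≤ C
  mass₂ : ν₂.real Set.univ ≤ C
  supp₁ : ν₁ {s | ∃ i, C * R < |s i|} = 0
  supp₂ : ν₂ {s | ∃ i, C * R < |s i|} = 0
  tr : ∀ l : Fin r → ℤ, ∫ s, eu (dz l s) ∂ν₁ - ∫ s, eu (dz l s) ∂ν₂ = (Ψ l : ℂ)

/-- the shell with the factor `K` -/
def sk {r : ℕ} {Φ : RT r} {J : ℕ} (K ε : ℝ) (x : {p // p ∈ pos Φ} → Fin (J + 1)) : Set (Fin r → ℝ) :=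
  {θ | ∀ p : {p // p ∈ pos Φ}, nd (dz p.1.1 θ) ≤ K * (2 : ℝ) ^ (ε * J) * max (dl x p) (ro ε x) ∧
    (ro ε x ≤ dl x p → (2 : ℝ) ^ (-(ε * J)) * dl x p ≤ K * nd (dz p.1.1 θ))}

/-- KOF. The kernel is small outside of the shell. `km (la) T Ψ τ θ = ∫ km (la) T 1 τ (θ + s) dν₁ - ∫ .. dν₂`, and the `s` which matter have `|s i| ≤ C √ϑ`, so `|dz p.1 s| ≤ C X^(-2ε) ρ`. `la` is a sum over `w` (definition of `lm`) of the terms of KLO with `κ = w 1`, `y = 2ϑ A (w 1)`, `|y i| ≤ C ϑ ≤ C/X`: so `|km (la) T 1| ≤ C X^(n + r)`; and if `θ + s ∉ sk 1 ε x` then it is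
at most `C X^(n + r - 2 m ε)`: either `nd > X^ε δ p`, or `ρ ≤ δ p`, `nd < X^(-ε) δ p`, and `x p < J` (as `δ p ≥ ρ > 1/X`), `2^(x p) (nd + 1/X) ≤ 2 X^(-ε)`. If `θ ∉ sk 2 ε x` and `J` is large (depending on `ε` and the constants) then `θ + s ∉ sk 1 ε x`; for the other `J` the first bound suffices (enlarge the constant). -/
def S_KOF : Prop := ∀ (r : ℕ) (Φ : RT r) (B : Matrix (Fin r) (Fin r) ℤ), 1 ≤ r → IRD Φ B → WFF Φ B →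
  ∀ (m : ℕ) (C₁ C₂ ε A : ℝ), 1 ≤ m → CFF m C₁ → 0 ≤ C₂ → 0 < ε → ε ≤ 1 / 8 → 0 ≤ A →
    (pos Φ).card + r + A ≤ 2 * ε * m → ∃ C : ℝ, 0 ≤ C ∧
    ∀ (J : ℕ) (q : (Fin r → ℤ) → ℝ) (x : {p // p ∈ pos Φ} → Fin (J + 1)) (T : Finset (Fin r → ℤ)), 1 ≤ J →
      QH Φ (2 ^ J) q → (∀ τ l, la Φ m J q x τ l ≠ 0 → l ∈ T) →
      (∀ (τ : ℝ) (θ : Fin r → ℝ), θ ∉ shl ε x → ‖km (la Φ m J q x) T (fun _ => 1) τ θ‖ ≤ C * (2 : ℝ) ^ (-(A * J))) ∧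
      ∀ (Ψ : (Fin r → ℤ) → ℝ) (ν₁ ν₂ : Measure (Fin r → ℝ)), FM C₂ (√(th x)) Ψ ν₁ ν₂ → ∀ (τ : ℝ) (θ : Fin r → ℝ),
      ‖km (la Φ m J q x) T Ψ τ θ‖ ≤ C * 2 ^ (J * ((pos Φ).card + r)) ∧
        (θ ∉ sk 2 ε x → ‖km (la Φ m J q x) T Ψ τ θ‖ ≤ C * (2 : ℝ) ^ (-(A * J)))

def M_KOF : Prop := S_QUAD → S_PRM → S_LMB → S_KLO → S_KOF

/-! ### the form -/

/-- jointly continuous functions of the time and two group variables -/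
def J3 {M : Type} [TopologicalSpace M] (V : ℝ → M → M → ℂ) : Prop := Continuous fun z : ℝ × M × M => V z.1 z.2.1 z.2.2

/-- the form with the kernel `ker` -/
def TX {N : ℕ} {H : Subgroup (SU N)} {r : ℕ} (Hc : Fin r → MT N) (μ : Measure H) (ker : ℝ → (Fin r → ℝ) → ℂ)
    (V W : ℝ → H → H → ℂ) : ℂ :=
  ∫ t in (0 : ℝ)..1, ∫ s in (0 : ℝ)..1, ∫ h, ∫ g, (∫ θ in Set.Icc (0 : Fin r → ℝ) 1,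
    ker (t - s) θ * (V s h g * conj (W t h (g * tt H Hc θ)))) ∂μ ∂μ

/-- the transform with the near part of the packet measure, for all times -/
def vn {N : ℕ} {H : Subgroup (SU N)} (κ : Measure H) (ρ : ℝ) (G : ℝ → H → ℂ) (t : ℝ) (h g : H) : ℂ := Vn κ ρ h (G t) g

/-- `PO` for all times -/
def po {N : ℕ} {H : Subgroup (SU N)} {r : ℕ} (Hc : Fin r → MT N) (ν₁ ν₂ : Measure (Fin r → ℝ)) (V : ℝ → H → H → ℂ)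
    (t : ℝ) (h g : H) : ℂ := PO Hc ν₁ ν₂ (V t h) g

/-- VCN. Continuity and bounds. `ps` is continuous (PSF), so `{ps z ≤ ρ²}` is measurable; dominated convergence on compact sets of times (`H` is compact). The `L¹` bounds: Fubini and the invariance of `μ` (right invariance: HAAR). -/
def S_VCN : Prop := ∀ (N : ℕ) (H : Subgroup (SU N)) (r : ℕ) (Φ : RT r) (B : Matrix (Fin r) (Fin r) ℤ)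
  (Hc : Fin r → MT N) (E : (Fin r → ℤ) × (Fin r → ℤ) → MT N) (c k : ℝ) (d : ℕ), CX H Φ B Hc E c k d →
  ∀ (μ : Measure H) [IsProbabilityMeasure μ] [μ.IsMulLeftInvariant],
  (∀ (κ : Measure H) (ρ : ℝ) (G : ℝ → H → ℂ), IsProbabilityMeasure κ → JC G →
    J3 (vn κ ρ G) ∧ J3 (fun t h g => VV κ h (G t) g) ∧
    (∀ b : ℝ, (∀ t y, ‖G t y‖ ≤ b) → ∀ t h g, ‖vn κ ρ G t h g‖ ≤ b ∧ ‖VV κ h (G t) g‖ ≤ b) ∧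
    ∀ t, ∫ h, ∫ g, ‖vn κ ρ G t h g‖ ∂μ ∂μ ≤ ∫ y, ‖G t y‖ ∂μ ∧
      ∫ h, ∫ g, ‖VV κ h (G t) g‖ ∂μ ∂μ ≤ ∫ y, ‖G t y‖ ∂μ ∧
      ∫ h, ∫ g, ‖VV κ h (G t) g - vn κ ρ G t h g‖ ∂μ ∂μ ≤ κ.real {z | ρ ^ 2 ≤ ps z} * ∫ y, ‖G t y‖ ∂μ ∧
      ∫ h, ∫ g, ‖VV κ h (G t) g - vn κ ρ G t h g‖ ^ 2 ∂μ ∂μ ≤ κ.real {z | ρ ^ 2 ≤ ps z} ^ 2 * ∫ y, ‖G t y‖ ^ 2 ∂μ) ∧
  ∀ (ν₁ ν₂ : Measure (Fin r → ℝ)) (V : ℝ → H → H → ℂ), IsFiniteMeasure ν₁ → IsFiniteMeasure ν₂ → J3 V →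
    J3 (po Hc ν₁ ν₂ V) ∧
    (∀ b : ℝ, (∀ t h g, ‖V t h g‖ ≤ b) → ∀ t h g, ‖po Hc ν₁ ν₂ V t h g‖ ≤ (ν₁.real Set.univ + ν₂.real Set.univ) * b) ∧
    ∀ t, ∫ h, ∫ g, ‖po Hc ν₁ ν₂ V t h g‖ ∂μ ∂μ ≤ (ν₁.real Set.univ + ν₂.real Set.univ) * ∫ h, ∫ g, ‖V t h g‖ ∂μ ∂μ ∧
      ∫ h, ∫ g, ‖po Hc ν₁ ν₂ V t h g‖ ^ 2 ∂μ ∂μ ≤
        (ν₁.real Set.univ + ν₂.real Set.univ) ^ 2 * ∫ h, ∫ g, ‖V t h g‖ ^ 2 ∂μ ∂μ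

def M_VCN : Prop := S_HAAR → S_PSF → S_VCN

/-- NRP. (7.1) and the replacement of `VV` by `vn`. BRP for all `t`, `s` (`nf = nx Φ m J q x (t - s)`): `BF = TX (km la T 1) VV VV`. The difference: `|km la T 1| ≤ C X^(n + r)` (LMB: `|la| ≤ C X^n`, and only the `l` in the box matter), `|VV|, |vn| ≤ 1`, and `∫∫ |VV - vn| ≤ κ{ps ≥ ρ²} ∫ |G_t|` (VCN); TAI: `κ{ps ≥ ρ²} ≤ C (ϑ/ρ²)^j = C X^(-4 ε j)`, `4 ε j ≥ n + r + A`.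
Fubini; `∫ t, ∫ |G_t| = mG`. -/
def S_NRP : Prop := ∀ (N : ℕ) (H : Subgroup (SU N)) (r : ℕ) (Φ : RT r) (B : Matrix (Fin r) (Fin r) ℤ)
  (Hc : Fin r → MT N) (E : (Fin r → ℤ) × (Fin r → ℤ) → MT N) (c k : ℝ) (d : ℕ), CX H Φ B Hc E c k d →
  ∀ (μ : Measure H) [IsProbabilityMeasure μ] [μ.IsMulLeftInvariant] (χ : IX Hc → H → ℂ), CHI Φ Hc c k d χ →
  ∀ (m : ℕ) (C₁ ε A : ℝ), 1 ≤ m → CFF m C₁ → 0 < ε → ε ≤ 1 / 8 → 0 ≤ A → ∃ C : ℝ, 0 ≤ C ∧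
    ∀ (J : ℕ) (q : (Fin r → ℤ) → ℝ) (x : {p // p ∈ pos Φ} → Fin (J + 1)) (T : Finset (Fin r → ℤ)) (F : Finset (IX Hc))
      (κ : Measure H) (G : ℝ → H → ℂ), 1 ≤ J → QH Φ (2 ^ J) q → (∀ τ l, la Φ m J q x τ l ≠ 0 → l ∈ T) →
      (∀ τ (i : IX Hc), wa Φ (nx Φ m J q x τ) (wG i.1) ≠ 0 → i ∈ F) → PM H Φ E c k (th x) κ → JC G →
      (∀ t y, ‖G t y‖ ≤ 1) →
      ‖BF μ χ F (fun t i => wa Φ (nx Φ m J q x t) (wG i.1)) G -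
        TX Hc μ (km (la Φ m J q x) T fun _ => 1) (vn κ (ro ε x) G) (vn κ (ro ε x) G)‖ ≤
          C * (2 : ℝ) ^ (-(A * J)) * mG μ G

def M_NRP : Prop := S_PRM → S_LMB → S_TAI → S_BRP → S_VCN → S_NRP

/-- the factor of the tuple `jj` -/
def pj' {r : ℕ} {Φ : RT r} {L : ℕ} (ψ : {p // p ∈ pos Φ} → Fin (L + 2) → ℤ → ℝ) (jj : {p // p ∈ pos Φ} → Fin (L + 2))
    (l : Fin r → ℤ) : ℝ := ∏ p : {p // p ∈ pos Φ}, ψ p (jj p) (p.1.2 ⬝ᵥ l)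

/-- DCP. (7.4), the decomposition. For fixed `t`, `s`, `h` the first claim of PLA (with the coefficients `a l * Ψ l`) gives `∫_g ∫_θ km a (Ψ j₂) (po j₁ V) conj (po j₃ W) = ∫_g ∫_θ ∑ l, a Ψ₁ Ψ₂ Ψ₃ eu(..) V conj W`; the sum over `j₁`, `j₂`, `j₃` of `Ψ₁ Ψ₂ Ψ₃` is `1` (`∑ jj, ∏ p, ψ p (jj p) (p.2·l) = ∏ p, ∑ j, ψ p j = 1`). Interchange the finite sums with the integrals (everything is continuous). -/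
def S_DCP : Prop := ∀ (N : ℕ) (H : Subgroup (SU N)) (r : ℕ) (Φ : RT r) (B : Matrix (Fin r) (Fin r) ℤ)
  (Hc : Fin r → MT N) (E : (Fin r → ℤ) × (Fin r → ℤ) → MT N) (c k : ℝ) (d : ℕ), CX H Φ B Hc E c k d →
  ∀ (μ : Measure H) [IsProbabilityMeasure μ] [μ.IsMulLeftInvariant] (m : ℕ) (C₂ R : ℝ) (M₀ : {p // p ∈ pos Φ} → ℝ)
    (jm : {p // p ∈ pos Φ} → ℕ) (L : ℕ) (ψ : {p // p ∈ pos Φ} → Fin (L + 2) → ℤ → ℝ)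
    (ν₁ ν₂ : ({p // p ∈ pos Φ} → Fin (L + 2)) → Measure (Fin r → ℝ)), FCF Φ m C₂ R M₀ jm L ψ ν₁ ν₂ →
    ∀ (a : ℝ → (Fin r → ℤ) → ℂ) (T : Finset (Fin r → ℤ)) (V W : ℝ → H → H → ℂ), (∀ l, Continuous fun τ => a τ l) →
    J3 V → J3 W →
    TX Hc μ (km a T fun _ => 1) V W = ∑ j₁ : {p // p ∈ pos Φ} → Fin (L + 2), ∑ j₂ : {p // p ∈ pos Φ} → Fin (L + 2),
      ∑ j₃ : {p // p ∈ pos Φ} → Fin (L + 2),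
      TX Hc μ (km a T (pj' ψ j₂)) (po Hc (ν₁ j₁) (ν₂ j₁) V) (po Hc (ν₁ j₃) (ν₂ j₃) W)

def M_DCP : Prop := S_PSF → S_VCN → S_PLA → S_DCP

/-- OFD. The tuples with different scales. By PLA (both claims) and Cauchy-Schwarz the left side is at most `A₁ ∫∫ ∫_h ‖V s h‖₂ ‖W t h‖₂ ≤ A₁ (∫∫∫ |V|²)^(1/2) (∫∫∫ |W|²)^(1/2)`, `A₁ = sup |a Ψ₁ Ψ₂ Ψ₃|`. If `j < j'` (indices of the factors `ψ` of one `p`) then `|ψ j u ψ j' u| ≤ C² (fs j/fs j')^(2m) ≤ C² 2^(-2m (j' - j - 1))` (`hi` for `j ≤ jm p`, `lo` for `j' > 0`; both sides vanish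
for `u = 0`; if `j' > jm p + 1` then the product is `0`), the other factors are `≤ C`. -/
def S_OFD : Prop := ∀ (N : ℕ) (H : Subgroup (SU N)) (r : ℕ) (Φ : RT r) (B : Matrix (Fin r) (Fin r) ℤ)
  (Hc : Fin r → MT N) (E : (Fin r → ℤ) × (Fin r → ℤ) → MT N) (c k : ℝ) (d : ℕ), CX H Φ B Hc E c k d →
  ∀ (μ : Measure H) [IsProbabilityMeasure μ] [μ.IsMulLeftInvariant] (m : ℕ) (C₂ : ℝ), 1 ≤ m → 0 ≤ C₂ →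
    ∃ C : ℝ, 0 ≤ C ∧ ∀ (R : ℝ) (M₀ : {p // p ∈ pos Φ} → ℝ)
    (jm : {p // p ∈ pos Φ} → ℕ) (L : ℕ) (ψ : {p // p ∈ pos Φ} → Fin (L + 2) → ℤ → ℝ)
    (ν₁ ν₂ : ({p // p ∈ pos Φ} → Fin (L + 2)) → Measure (Fin r → ℝ)), (∀ p, 0 < M₀ p) → FCF Φ m C₂ R M₀ jm L ψ ν₁ ν₂ →
    ∀ (a : ℝ → (Fin r → ℤ) → ℂ) (T : Finset (Fin r → ℤ)) (V W : ℝ → H → H → ℂ)
    (j₁ j₂ j₃ : {p // p ∈ pos Φ} → Fin (L + 2)) (A₀ y : ℝ), (∀ l, Continuous fun τ => a τ l) →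
    0 ≤ A₀ → (∀ τ, ∀ l ∈ T, ‖a τ l‖ ≤ A₀) → J3 V → J3 W → 0 ≤ y →
    ((∃ p, y < |((j₁ p).val : ℝ) - (j₂ p).val|) ∨ ∃ p, y < |((j₃ p).val : ℝ) - (j₂ p).val|) →
    ‖TX Hc μ (km a T (pj' ψ j₂)) (po Hc (ν₁ j₁) (ν₂ j₁) V) (po Hc (ν₁ j₃) (ν₂ j₃) W)‖ ≤
      C * A₀ * (2 : ℝ) ^ (-(2 * m * y)) * (√(∫ t in (0 : ℝ)..1, ∫ h, ∫ g, ‖V t h g‖ ^ 2 ∂μ ∂μ) *
        √(∫ t in (0 : ℝ)..1, ∫ h, ∫ g, ‖W t h g‖ ^ 2 ∂μ ∂μ))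

def M_OFD : Prop := S_PSF → S_VCN → S_PLA → S_OFD

/-! ### cells -/

/-- `φ ↦ V t h (g tt φ)`, cut off to the set `Q` -/
def uq {N : ℕ} {H : Subgroup (SU N)} {r : ℕ} (Hc : Fin r → MT N) (Q : Set (Fin r → ℝ)) (V : ℝ → H → H → ℂ)
    (h g : H) (t : ℝ) (φ : Fin r → ℝ) : ℂ := Q.indicator (fun φ => V t h (g * tt H Hc φ)) φ

/-- CLL. (7.5), the cells. For every `φ` the invariance of `μ` gives `TX = ∫ t, ∫ s, ∫ h, ∫ g, ∫ θ, ker (t - s) θ V s h (g tt φ) conj (W t h (g tt(θ + φ)))` (`PSC.tadd`); by periodicity in `θ` this is the integral over `θ' = θ + φ` in the unit cube of `ker (t - s) (θ' - φ) V s h (g tt φ) conj (W t h (g tt θ'))`. Average over `φ ∈ Q`. The part with `θ' ∉ S` is at most `η` times the average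
of `∫∫∫∫∫ |V s h (g tt φ)| |W t h (g tt θ')|`, which is `∫ t, ∫ s, ∫ h, ∫ g, ∫ θ, |V s h g| |W t h (g tt θ)|` for every `φ` (the same substitutions). Fubini. -/
def S_CLL : Prop := ∀ (N : ℕ) (H : Subgroup (SU N)) (r : ℕ) (Φ : RT r) (B : Matrix (Fin r) (Fin r) ℤ)
  (Hc : Fin r → MT N) (E : (Fin r → ℤ) × (Fin r → ℤ) → MT N) (c k : ℝ) (d : ℕ), CX H Φ B Hc E c k d →
  ∀ (μ : Measure H) [IsProbabilityMeasure μ] [μ.IsMulLeftInvariant] (ker : ℝ → (Fin r → ℝ) → ℂ)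
    (V W : ℝ → H → H → ℂ) (Q S : Set (Fin r → ℝ)) (η : ℝ),
    (Continuous fun z : ℝ × (Fin r → ℝ) => ker z.1 z.2) → (∀ τ θ (n : Fin r → ℤ), ker τ (θ + fun i => (n i : ℝ)) = ker τ θ) →
    J3 V → J3 W → MeasurableSet Q → MeasurableSet S → Q ⊆ Set.Icc 0 1 → S ⊆ Set.Icc 0 1 → 0 < volume.real Q → 0 ≤ η →
    (∀ φ ∈ Q, ∀ θ ∈ Set.Icc (0 : Fin r → ℝ) 1, θ ∉ S → ∀ τ, ‖ker τ (θ - φ)‖ ≤ η) →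
    ‖TX Hc μ ker V W‖ ≤ 1 / volume.real Q * ‖∫ h, ∫ g, (∫ t in (0 : ℝ)..1, ∫ s in (0 : ℝ)..1,
        ∫ φ in Set.Icc (0 : Fin r → ℝ) 1, ∫ θ in Set.Icc (0 : Fin r → ℝ) 1,
          ker (t - s) (θ - φ) * (uq Hc Q V h g s φ * conj (uq Hc S W h g t θ))) ∂μ ∂μ‖ +
      η * ∫ t in (0 : ℝ)..1, ∫ s in (0 : ℝ)..1, ∫ h, ∫ g, (∫ θ in Set.Icc (0 : Fin r → ℝ) 1,
        ‖V s h g‖ * ‖W t h (g * tt H Hc θ)‖) ∂μ ∂μ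

def M_CLL : Prop := S_HAAR → S_PSF → S_CLL

/-- KHO. K4B for every `(h, g)`, then Hölder. `‖u‖_(4/3) ≤ ‖u‖₁^(1/2) ‖u‖₂^(1/2)`: `(∫ |u|^(4/3))^(3/4) ≤ (∫ |u|)^(1/2) (∫ |u|²)^(1/4)` for `u = uq Q V h g` on `[0,1] × [0,1]²` and for `uq S W h g`; then Hölder's inequality in `(h, g)` with the exponents `1/2, 1/4, 1/4`, and `∫_h ∫_g ∫_t ∫_(φ ∈ Q) |V t h (g tt φ)|² = |Q| ∫ t, ∫ h, ∫ g, |V|²` (invariance). -/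
def S_KHO : Prop := ∀ (N : ℕ) (H : Subgroup (SU N)) (Φ : RT 2) (B : Matrix (Fin 2) (Fin 2) ℤ)
  (Hc : Fin 2 → MT N) (E : (Fin 2 → ℤ) × (Fin 2 → ℤ) → MT N) (c k : ℝ) (d : ℕ), CX H Φ B Hc E c k d →
  ∀ (μ : Measure H) [IsProbabilityMeasure μ] [μ.IsMulLeftInvariant] (ε : ℝ), 0 < ε → ∃ C : ℝ, 0 ≤ C ∧
    ∀ (X : ℕ) (q : (Fin 2 → ℤ) → ℝ) (aa : (Fin 2 → ℤ) → ℂ) (cc : ({p // p ∈ pos Φ} → ℤ) → ℂ) (T : Finset (Fin 2 → ℤ))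
    (KB : Finset ({p // p ∈ pos Φ} → ℤ)) (A b : ℝ) (V W : ℝ → H → H → ℂ) (Q S : Set (Fin 2 → ℝ)), 1 ≤ X → 0 ≤ A →
    QH Φ X q → (∀ l ∈ T, ∀ k ∈ KB, q (l + 1 - rs (pos Φ) k) ≠ 0 → ‖aa l‖ ≤ A) → J3 V → J3 W →
    (∀ t h g, ‖V t h g‖ ≤ b) → (∀ t h g, ‖W t h g‖ ≤ b) → MeasurableSet Q → MeasurableSet S →
    Q ⊆ Set.Icc 0 1 → S ⊆ Set.Icc 0 1 →
    ‖∫ h, ∫ g, (∫ t in (0 : ℝ)..1, ∫ s in (0 : ℝ)..1, ∫ φ in Set.Icc (0 : Fin 2 → ℝ) 1, ∫ θ in Set.Icc (0 : Fin 2 → ℝ) 1,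
        tker Φ q aa cc T KB (t - s) (θ - φ) * (uq Hc Q V h g s φ * conj (uq Hc S W h g t θ))) ∂μ ∂μ‖ ≤
      C * (X : ℝ) ^ ε * A * (∑ k ∈ KB, ‖cc k‖) *
        (√(∫ h, ∫ g, (∫ t in (0 : ℝ)..1, ∫ φ in Q, ‖V t h (g * tt H Hc φ)‖) *
            (∫ t in (0 : ℝ)..1, ∫ θ in S, ‖W t h (g * tt H Hc θ)‖) ∂μ ∂μ) *
          ((volume.real Q * ∫ t in (0 : ℝ)..1, ∫ h, ∫ g, ‖V t h g‖ ^ 2 ∂μ ∂μ) ^ ((1 : ℝ) / 4) *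
            (volume.real S * ∫ t in (0 : ℝ)..1, ∫ h, ∫ g, ‖W t h g‖ ^ 2 ∂μ ∂μ) ^ ((1 : ℝ) / 4)))

def M_KHO : Prop := S_HAAR → S_PSF → S_K4B → S_KHO

/-- JSB. The `L¹` norm on the cells. `V = po (ν₁, ν₂) (vn κ ρ G)`, `W = po (ν₃, ν₄) (vn κ ρ G)`, so `‖V t h g‖ ≤ ∫ Vt (g tt s) d(ν₁ + ν₂)(s)`, `Vt g = ∫_(ps z ≤ ρ²) ‖G t (g z h⁻¹)‖ dκ`, the same for `W`. Fubini: the left side is at most the integral over `t, t' ∈ [0,1]`, `φ ∈ Q`, `s`, `s'` (`|s i|, |s' i| ≤ R`) of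
`∫_h ∫_g ∫_(θ ∈ S) V_t (g tt(φ + s)) V_(t') (g tt(θ + s'))`; substitute `g ↦ g tt(-φ - s)`: the integral over `θ ∈ S` of `V_t g V_(t') (g tt(θ - φ - s + s'))`, i.e. over `θ ∈ S - φ - s + s'`, a subset of a unit cube; JBD with `f₁ = ‖G t ·‖`, `f₂ = ‖G t' ·‖` bounds it by `C (..) ∫ |G_t| ∫ |G_t'|`. -/
def S_JSB : Prop := ∀ (N : ℕ) (H : Subgroup (SU N)) (r : ℕ) (Φ : RT r) (B : Matrix (Fin r) (Fin r) ℤ)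
  (Hc : Fin r → MT N) (E : (Fin r → ℤ) × (Fin r → ℤ) → MT N) (c k : ℝ) (d : ℕ), CX H Φ B Hc E c k d →
  ∀ (μ : Measure H) [IsProbabilityMeasure μ] [μ.IsMulLeftInvariant] (j : ℕ) (C₂ : ℝ), 0 ≤ C₂ → ∃ C : ℝ, 0 ≤ C ∧
    ∀ (ϑ ρ R F₀ : ℝ) (κ : Measure H) (ν₁ ν₂ ν₃ ν₄ : Measure (Fin r → ℝ)) (Ψ Ψ' : (Fin r → ℤ) → ℝ)
      (Q S : Set (Fin r → ℝ)) (G : ℝ → H → ℂ), 0 < ϑ → ϑ ≤ 1 / 2 → 0 < ρ → ρ ≤ 1 → PM H Φ E c k ϑ κ →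
      FM C₂ R Ψ ν₁ ν₂ → FM C₂ R Ψ' ν₃ ν₄ → MeasurableSet Q → MeasurableSet S → Q ⊆ Set.Icc 0 1 → S ⊆ Set.Icc 0 1 →
      0 < F₀ → (∀ φ ∈ Q, ∀ θ ∈ S, ∀ s : Fin r → ℝ, (∀ i, |s i| ≤ 2 * C₂ * R) →
        F₀ ≤ ∏ p ∈ pos Φ, (ρ ^ 2 + ‖1 - eu (dz p.1 (θ - φ + s))‖ ^ 2)) → JC G → (∀ t y, ‖G t y‖ ≤ 1) →
      ∫ h, ∫ g, (∫ t in (0 : ℝ)..1, ∫ φ in Q, ‖po Hc ν₁ ν₂ (vn κ ρ G) t h (g * tt H Hc φ)‖) *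
          (∫ t in (0 : ℝ)..1, ∫ θ in S, ‖po Hc ν₃ ν₄ (vn κ ρ G) t h (g * tt H Hc θ)‖) ∂μ ∂μ ≤
        C * volume.real Q * ((ρ ^ 2 / ϑ) ^ ((d : ℝ) / 2) / F₀ + ϑ ^ (-((d : ℝ) / 2)) * (ϑ / ρ ^ 2) ^ j) * mG μ G ^ 2

def M_JSB : Prop := S_HAAR → S_PSF → S_JBD → S_VCN → S_JSB

/-- L2N. The `L²` norm. `po (vn) = po (VV) - po (VV - vn)`; L2W for the first, VCN and TAI for the second (`(a + b)² ≤ 2a² + 2b²`); `∫ |G_t|² ≤ ∫ |G_t|`. -/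
def S_L2N : Prop := ∀ (N : ℕ) (H : Subgroup (SU N)) (r : ℕ) (Φ : RT r) (B : Matrix (Fin r) (Fin r) ℤ)
  (Hc : Fin r → MT N) (E : (Fin r → ℤ) × (Fin r → ℤ) → MT N) (c k : ℝ) (d : ℕ), CX H Φ B Hc E c k d →
  ∀ (μ : Measure H) [IsProbabilityMeasure μ] [μ.IsMulLeftInvariant] (j : ℕ) (C₂ : ℝ), 0 ≤ C₂ → ∃ C : ℝ, 0 ≤ C ∧
    ∀ (ϑ ρ R b : ℝ) (κ : Measure H) (ν₁ ν₂ : Measure (Fin r → ℝ)) (Ψ : (Fin r → ℤ) → ℝ) (G : ℝ → H → ℂ),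
      0 < ϑ → ϑ ≤ 1 / 2 → 0 < ρ → PM H Φ E c k ϑ κ → FM C₂ R Ψ ν₁ ν₂ →
      (∀ l : Fin r → ℤ, Ψ l ^ 2 ≤ b * ∏ p ∈ pos Φ, (1 + ϑ * ((p.2 ⬝ᵥ l : ℤ) : ℝ) ^ 2)) → JC G → (∀ t y, ‖G t y‖ ≤ 1) →
      ∫ t in (0 : ℝ)..1, ∫ h, ∫ g, ‖po Hc ν₁ ν₂ (vn κ ρ G) t h g‖ ^ 2 ∂μ ∂μ ≤
        C * (b + (ϑ / ρ ^ 2) ^ j) * mG μ G

def M_L2N : Prop := S_PSF → S_TAI → S_L2W → S_VCN → S_L2N

/-! ### amplitudes -/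

/-- the symbol of the piece `f` of the product rule -/
def am {r : ℕ} (Φ : RT r) (ϑ : ℝ) (f : {p // p ∈ pos Φ} → Fin 3) (l : Fin r → ℤ) : ℝ :=
  1 / ((WF Φ).card : ℝ) * (cd (fc f 0) (fc f 0)ᶜ (fun S => Real.exp (2 * ϑ * ip Φ l (sh S 0))) *
    cd (fc f 1) (fc f 2) fun S => dR Φ (sh S l))

/-- the coefficients of the piece `f` -/
def cx {r : ℕ} {Φ : RT r} (m J : ℕ) (x : {p // p ∈ pos Φ} → Fin (J + 1)) (f : {p // p ∈ pos Φ} → Fin 3)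
    (k : {p // p ∈ pos Φ} → ℤ) : ℂ :=
  ∏ p, if f p = 2 then cf m J (x p).val (k p) - cf m J (x p).val (k p - 1) else cf m J (x p).val (k p)

/-- LAF. The coefficients `la` as a sum over the pieces: LEC, LEA with `E S = exp (2ϑ ip l (sh S 0))`, `D S = dR (sh S l)`, `cc p = cf m J (x p)` (the supports: CFF.supp, `K = 2 m² 2^J`), `g = gt Φ q τ`. -/
def S_LAF : Prop := ∀ (r : ℕ) (Φ : RT r) (B : Matrix (Fin r) (Fin r) ℤ), 1 ≤ r → IRD Φ B → WFF Φ B →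
  ∀ (m : ℕ) (C₁ : ℝ), 1 ≤ m → CFF m C₁ → ∀ (J : ℕ) (q : (Fin r → ℤ) → ℝ) (x : {p // p ∈ pos Φ} → Fin (J + 1)) (τ : ℝ)
    (l : Fin r → ℤ), la Φ m J q x τ l = ∑ f : {p // p ∈ pos Φ} → Fin 3, (am Φ (th x) f l : ℂ) *
      ∑ k ∈ kB Φ (2 * m ^ 2 * 2 ^ J + 1), cx m J x f k * gt Φ q τ (l + 1 - rs (pos Φ) k)

def M_LAF : Prop := S_LEA → S_LEC → S_LAF

/-- the parameters of the frequency cutoffs for the tuple `x`: `M 0 = ϑ^(-1/2)`, the last scale is between `X` and `2X` -/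
structure FP {r : ℕ} {Φ : RT r} {J : ℕ} (x : {p // p ∈ pos Φ} → Fin (J + 1)) (m : ℕ) (C M₀ : ℝ) (jm : ℕ)
    (ψ : {p // p ∈ pos Φ} → Fin (jm + 2) → ℤ → ℝ)
    (ν₁ ν₂ : ({p // p ∈ pos Φ} → Fin (jm + 2)) → Measure (Fin r → ℝ)) : Prop where
  fcf : FCF Φ m C (√(th x)) (fun _ => M₀) (fun _ => jm) jm ψ ν₁ ν₂
  m0 : M₀ = 1 / √(th x)
  lo : 2 ^ J ≤ 2 ^ jm * M₀
  hi : 2 ^ jm * M₀ ≤ 2 * 2 ^ J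
  num : jm ≤ J + 1

/-- AMA. Symbols. Let `M p = fs M₀ jm (jj p)`, `|p.2·l| ≤ C₃ X`. `|ψ p j u| (1 + |u|)^i ≤ C M^i` for `i ≤ 2` (`hi` with `2 m ≥ 2`, `M ≥ 1`, `FCF.bd`; for `j = jm + 1` use `|u| ≤ C₃ X ≤ C₃ M`). So by LEB, LED (`ϑ X = b ≤ 1`) `|am f l ∏ ψ| ≤ C ∏_(f p = 0) (ϑ M p) max_R ∏_(p ∉ R) M p`, `R` of the size of `{f = 1}` (a factor `|p.2·l|` may appear in both products: `i = 2`).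
`δ p ≤ b`, `ϑ M p ≤ 2 b`: the left side is at most `C b^(n - |R|) ∏ M p / ∏_(p ∈ R) M p = C ∏ (b M p) / ∏_(p ∈ R) (b M p)`, and `b M p ≥ b M₀ = √(b X) ≥ 1`. Second claim: a product of sums over the coordinates (CFF.abs, var). -/
def S_AMA : Prop := ∀ (r : ℕ) (Φ : RT r) (B : Matrix (Fin r) (Fin r) ℤ), 1 ≤ r → IRD Φ B → WFF Φ B →
  ∀ (m : ℕ) (C₁ C₂ C₃ : ℝ), 1 ≤ m → CFF m C₁ → 0 ≤ C₂ → 0 ≤ C₃ → ∃ C : ℝ, 0 ≤ C ∧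
    ∀ (J : ℕ) (x : {p // p ∈ pos Φ} → Fin (J + 1)) (M₀ : ℝ) (jm : ℕ) (ψ : {p // p ∈ pos Φ} → Fin (jm + 2) → ℤ → ℝ)
    (ν₁ ν₂ : ({p // p ∈ pos Φ} → Fin (jm + 2)) → Measure (Fin r → ℝ)), FP x m C₂ M₀ jm ψ ν₁ ν₂ →
    ∀ f : {p // p ∈ pos Φ} → Fin 3,
    (∀ (jj : {p // p ∈ pos Φ} → Fin (jm + 2)) (l : Fin r → ℤ),
      (∀ p : {p // p ∈ pos Φ}, |((p.1.2 ⬝ᵥ l : ℤ) : ℝ)| ≤ C₃ * 2 ^ J) →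
      |am Φ (th x) f l * pj' ψ jj l| * ∏ p ∈ fc f 2, dl x p ≤ C * ∏ p, (bx' x * fs M₀ jm (jj p).val)) ∧
    ∀ K : ℕ, ∑ k ∈ kB Φ K, ‖cx m J x f k‖ ≤ C * ∏ p ∈ fc f 2, dl x p

def M_AMA : Prop := S_PRM → S_LEB → S_LED → S_AMA

/-- AMB. For one factor: `|ψ p j u|² ≤ C (1 + ϑ u²)/(1 + ϑ M²)`, `M = fs M₀ jm j`: for `j = 0` `ϑ M₀² = 1`; for `j > 0`: if `|u| ≥ M` trivial, if `|u| < M` `|ψ p j u|² ≤ C (|u|/M)²` (`lo`, `bd`), and `(u/M)² (1 + ϑ M²) ≤ 1 + ϑ u²`. Second: `b M/√(1 + ϑ M²) ≤ b/√ϑ = √(b X)`. Fourth: `1 + ϑ M² ≤ 5 X`. Last: `fs j ≤ 2^|j - j'| fs j'`. -/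
def S_AMB : Prop := ∀ (r : ℕ) (Φ : RT r) (B : Matrix (Fin r) (Fin r) ℤ), 1 ≤ r → IRD Φ B → WFF Φ B →
  ∀ (m : ℕ) (C₂ : ℝ), 1 ≤ m → 0 ≤ C₂ → ∃ C : ℝ, 0 ≤ C ∧ ∀ (J : ℕ) (x : {p // p ∈ pos Φ} → Fin (J + 1)) (M₀ : ℝ) (jm : ℕ)
    (ψ : {p // p ∈ pos Φ} → Fin (jm + 2) → ℤ → ℝ) (ν₁ ν₂ : ({p // p ∈ pos Φ} → Fin (jm + 2)) → Measure (Fin r → ℝ)),
    FP x m C₂ M₀ jm ψ ν₁ ν₂ → ∀ jj : {p // p ∈ pos Φ} → Fin (jm + 2),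
    (∀ l : Fin r → ℤ, pj' ψ jj l ^ 2 ≤
      (C * ∏ p, 1 / (1 + th x * fs M₀ jm (jj p).val ^ 2)) * ∏ p ∈ pos Φ, (1 + th x * ((p.2 ⬝ᵥ l : ℤ) : ℝ) ^ 2)) ∧
    (∏ p, (bx' x * fs M₀ jm (jj p).val)) * √(∏ p, 1 / (1 + th x * fs M₀ jm (jj p).val ^ 2)) ≤
      (2 ^ J * bx' x) ^ (((pos Φ).card : ℝ) / 2) ∧
    (∏ p, 1 / (1 + th x * fs M₀ jm (jj p).val ^ 2) ≤ 1) ∧
    (1 / (5 : ℝ) ^ (pos Φ).card * (2 : ℝ) ^ (-(2 * (pos Φ).card * J : ℝ)) ≤ ∏ p, 1 / (1 + th x * fs M₀ jm (jj p).val ^ 2)) ∧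
    ∀ (j' : {p // p ∈ pos Φ} → Fin (jm + 2)) (L : ℝ), 0 ≤ L → (∀ p, |((jj p).val : ℝ) - (j' p).val| ≤ L) →
      ∏ p, 1 / (1 + th x * fs M₀ jm (j' p).val ^ 2) ≤
        (4 : ℝ) ^ (L * (pos Φ).card) * ∏ p, 1 / (1 + th x * fs M₀ jm (jj p).val ^ 2)

def M_AMB : Prop := S_PRM → S_AMB

/-- the cell -/
def qc {r : ℕ} {Φ : RT r} {J : ℕ} (ε : ℝ) (x : {p // p ∈ pos Φ} → Fin (J + 1)) : Set (Fin r → ℝ) :=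
  {θ | θ ∈ Set.Icc 0 1 ∧ ∀ p : {p // p ∈ pos Φ}, nd (dz p.1.1 θ) ≤ (2 : ℝ) ^ (-(2 * ε * J)) * max (dl x p) (ro ε x)}

/-- SET. The sets of (7.5). `δ' p = max (δ p) ρ`. (i) `nd` is 1-Lipschitz: if `nd (dz p.1 θ) > 4 X^ε δ' p` then `nd (dz p.1 (θ - φ)) > 4 X^ε δ' - X^(-2ε) δ' ≥ 2 X^ε δ'`; if `ρ ≤ δ p` and `4 nd (dz p.1 θ) < X^(-ε) δ p` then `2 nd (dz p.1 (θ - φ)) < X^(-ε) δ p/2 + 2 X^(-2ε) δ p ≤ X^(-ε) δ p` as `X^ε ≥ 4`. (ii) CVR. (iii) a small box. (iv) `|dz p.1 s| ≤ C √ϑ = C X^(-2ε) ρ`;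
if `ρ ≤ δ p` then `nd (dz p.1 (θ - φ + s)) ≥ X^(-ε) δ p/4 - X^(-2ε) δ p - C X^(-2ε) δ p ≥ X^(-ε) δ p/8` for large `J`, and `‖1 - eu y‖ ≥ 4 nd y`; otherwise `ρ² = δ'²`. -/
def S_SET : Prop := ∀ (r : ℕ) (Φ : RT r) (B : Matrix (Fin r) (Fin r) ℤ), 1 ≤ r → IRD Φ B → WFF Φ B →
  ∀ ε C₂ : ℝ, 0 < ε → ε ≤ 1 / 8 → 0 ≤ C₂ → ∃ J₀ : ℕ, ∀ (J : ℕ) (x : {p // p ∈ pos Φ} → Fin (J + 1)), J₀ ≤ J →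
    MeasurableSet (qc ε x) ∧ MeasurableSet (Set.Icc (0 : Fin r → ℝ) 1 ∩ sk 4 ε x) ∧ 0 < volume.real (qc ε x) ∧
    volume.real (Set.Icc (0 : Fin r → ℝ) 1 ∩ sk 4 ε x) ≤
      (16 : ℝ) ^ (pos Φ).card * (2 : ℝ) ^ (3 * ε * (pos Φ).card * J) * volume.real (qc ε x) ∧
    (∀ φ ∈ qc ε x, ∀ θ : Fin r → ℝ, θ ∉ sk 4 ε x → θ - φ ∉ sk 2 ε x) ∧
    ∀ φ ∈ qc ε x, ∀ θ ∈ sk 4 ε x, ∀ s : Fin r → ℝ, (∀ i, |s i| ≤ 2 * C₂ * √(th x)) →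
      (1 / 4 : ℝ) ^ (pos Φ).card * (2 : ℝ) ^ (-(2 * ε * (pos Φ).card * J)) *
          (∏ p : {p // p ∈ pos Φ}, max (dl x p) (ro ε x)) ^ 2 ≤
        ∏ p ∈ pos Φ, (ro ε x ^ 2 + ‖1 - eu (dz p.1 (θ - φ + s))‖ ^ 2)

def M_SET : Prop := S_PRM → S_CVR → S_SET

/-! ### the bound -/

/-- DGB. The main terms (`|j₁ - j₂|, |j₃ - j₂| ≤ ε J`). For `J ≥ J₀` (SET) CLL with `Q = qc ε x`, `S = [0,1]² ∩ sk 4 ε x`, `ker = km (la) T (pj' ψ j₂)` (periodic, continuous: LMB), `η = C X^(-A)` (KOF; `FM` from `FCF` with `R = √ϑ`). The error term: `η` times `∫∫ ‖V‖ ‖W‖ ≤ C mG` (VCN). Main term: by LAF `ker = ∑ f, tker Φ q (am f * pj' ψ j₂) (cx f) T`, KHO for each of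
the `3^n` functions `f`; `A` and `∑ ‖cc‖` from AMA (if `q (l + 1 - rs k) ≠ 0` for a `k` in the box then `|p.2·l| ≤ C X`), together at most `C ∏ (b M p)`; JSB with `F₀` from SET, `(ρ²/ϑ)^(d/2) = X^(2 d ε)`, the second term is negligible (`F₀ ≤ 1`, `ϑ ≥ X^(-2)`, `j` large): `≤ C |Q| X^(2 d ε + 2 n ε) (∏ δ')^(-2) mG²`; L2N with `b` from AMB, the far part is negligible
(`∏ 1/(1 + ϑ M²) ≥ c X^(-2n)`, `j` large): `≤ C ∏ 1/(1 + ϑ M²) mG`, for `j₁`, `j₃` compare with `j₂` (AMB, last claim). Product: `|Q|^(-1) (|Q| ..)^(1/2) (|Q| ..)^(1/4) (|S| ..)^(1/4)`, `|S| ≤ C X^(3 n ε) |Q|`, and AMB, second claim. For `J < J₀` the trivial bound: `|TX| ≤ C(J₀) ∫∫ ‖V‖ ‖W‖ ≤ C mG` (KOF). `K` is explicit, e.g. `K = 10 (n + d + 1)`. -/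
def S_DGB : Prop := ∀ (N : ℕ) (H : Subgroup (SU N)) (Φ : RT 2) (B : Matrix (Fin 2) (Fin 2) ℤ)
  (Hc : Fin 2 → MT N) (E : (Fin 2 → ℤ) × (Fin 2 → ℤ) → MT N) (c k : ℝ) (d : ℕ), CX H Φ B Hc E c k d →
  ∀ (μ : Measure H) [IsProbabilityMeasure μ] [μ.IsMulLeftInvariant], ∃ K : ℝ, 0 ≤ K ∧
    ∀ (m : ℕ) (C₁ C₂ ε A : ℝ), 1 ≤ m → CFF m C₁ → 0 ≤ C₂ → 0 < ε → ε ≤ 1 / 8 → 0 ≤ A →
    (pos Φ).card + 2 + A ≤ 2 * ε * m → ∃ C : ℝ, 0 ≤ C ∧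
    ∀ (J : ℕ) (q : (Fin 2 → ℤ) → ℝ) (x : {p // p ∈ pos Φ} → Fin (J + 1)) (M₀ : ℝ) (jm : ℕ)
    (ψ : {p // p ∈ pos Φ} → Fin (jm + 2) → ℤ → ℝ) (ν₁ ν₂ : ({p // p ∈ pos Φ} → Fin (jm + 2)) → Measure (Fin 2 → ℝ))
    (T : Finset (Fin 2 → ℤ)) (κ : Measure H) (G : ℝ → H → ℂ) (j₁ j₂ j₃ : {p // p ∈ pos Φ} → Fin (jm + 2)), 1 ≤ J →
    QH Φ (2 ^ J) q → FP x m C₂ M₀ jm ψ ν₁ ν₂ → (∀ τ l, la Φ m J q x τ l ≠ 0 → l ∈ T) → PM H Φ E c k (th x) κ → JC G →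
    (∀ t y, ‖G t y‖ ≤ 1) → (∀ p, |((j₁ p).val : ℝ) - (j₂ p).val| ≤ ε * J) →
    (∀ p, |((j₃ p).val : ℝ) - (j₂ p).val| ≤ ε * J) →
    ‖TX Hc μ (km (la Φ m J q x) T (pj' ψ j₂))
        (po Hc (ν₁ j₁) (ν₂ j₁) (vn κ (ro ε x) G)) (po Hc (ν₁ j₃) (ν₂ j₃) (vn κ (ro ε x) G))‖ ≤
      C * (2 : ℝ) ^ (-(A * J)) * mG μ G +
        C * (2 : ℝ) ^ (K * ε * J) * ((2 ^ J * bx' x) ^ (((pos Φ).card : ℝ) / 2) /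
          ∏ p : {p // p ∈ pos Φ}, max (dl x p) (ro ε x)) * mG μ G ^ ((3 : ℝ) / 2)

def M_DGB : Prop := S_WFAC → S_PSF → S_PRM → S_LMB → S_KOF → S_VCN → S_CLL → S_KHO → S_JSB → S_L2N → S_LAF → S_AMA → S_AMB → S_SET → S_DGB

/-- IPR. The bound (I'). FRQ with `M₀ = ϑ^(-1/2) ≥ 1`, `R = √ϑ` and the smallest `jm` with `2^jm M₀ ≥ X` (so `2^jm M₀ ≤ 2 X`; `jm ≤ J` as `M₀ ≥ 1`; `M₀ ≤ X`), `L = jm`; `κ` from EXI (the `yr` are in `lie H`: TAUF or ADFR). NRP, DCP (`a = la`); the number of the triples `(j₁, j₂, j₃)` is `(jm + 2)^(3n) ≤ C X^ε`; OFD with `y = ε J` for the triples with different scales (`|la| ≤ C X^n`: LMB;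
`∫∫∫ ‖vn‖² ≤ ∫∫∫ ‖vn‖ ≤ mG`), DGB for the others. If `shl ε x = ∅` then use NRP and the first claim of KOF (`|km la T 1| ≤ C X^(-A)` everywhere). `A` in DGB and OFD: `A + 1`. -/
def S_IPR : Prop := ∀ (N : ℕ) (H : Subgroup (SU N)) (Φ : RT 2) (B : Matrix (Fin 2) (Fin 2) ℤ)
  (Hc : Fin 2 → MT N) (E : (Fin 2 → ℤ) × (Fin 2 → ℤ) → MT N) (c k : ℝ) (d : ℕ), CX H Φ B Hc E c k d →
  ∀ (μ : Measure H) [IsProbabilityMeasure μ] [μ.IsMulLeftInvariant] (χ : IX Hc → H → ℂ), CHI Φ Hc c k d χ →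
  ∃ K : ℝ, 0 ≤ K ∧ ∀ (m : ℕ) (C₁ ε A : ℝ), 1 ≤ m → CFF m C₁ → 0 < ε → ε ≤ 1 / 8 → 0 ≤ A →
    (pos Φ).card + 3 + A ≤ 2 * ε * m → ∃ C : ℝ, 0 ≤ C ∧
    ∀ (J : ℕ) (q : (Fin 2 → ℤ) → ℝ) (x : {p // p ∈ pos Φ} → Fin (J + 1)) (F : Finset (IX Hc)) (G : ℝ → H → ℂ), 1 ≤ J →
    QH Φ (2 ^ J) q → (∀ τ (i : IX Hc), wa Φ (nx Φ m J q x τ) (wG i.1) ≠ 0 → i ∈ F) → JC G → (∀ t y, ‖G t y‖ ≤ 1) →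
    (shl ε x = ∅ → ‖BF μ χ F (fun t i => wa Φ (nx Φ m J q x t) (wG i.1)) G‖ ≤ C * (2 : ℝ) ^ (-(A * J)) * mG μ G) ∧
    ‖BF μ χ F (fun t i => wa Φ (nx Φ m J q x t) (wG i.1)) G‖ ≤ C * (2 : ℝ) ^ (-(A * J)) * mG μ G +
      C * (2 : ℝ) ^ (K * ε * J) * ((2 ^ J * bx' x) ^ (((pos Φ).card : ℝ) / 2) /
        ∏ p : {p // p ∈ pos Φ}, max (dl x p) (ro ε x)) * mG μ G ^ ((3 : ℝ) / 2)

def M_IPR : Prop := S_LIEB → S_WFAC → S_TAUF → S_PRM → S_LMB → S_EXI → S_FRQ → S_KOF → S_VCN → S_NRP → S_DCP →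
  S_OFD → S_DGB → S_IPR

end

end STZ3
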