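import Pool.Agent.LGR.StW
import Mathlib.Probability.Distributions.Gaussian.Real

/-!
# Compact simple groups of rank two: heat packets (sections 5 and 6 of `PAPER.md`)

Module `X` proves `theorem t_X : M_X` (or `t_X : S_X` if there is no `M_X`) in the file `Pool/Agent/STZ3/X.lean`, namespace `STZ3`. Import this file (and Mathlib), not the
proofs of the other modules; the hypotheses `S_...` of `M_X` are the facts which may be used. Elements of `H`: `g.1 ∈ SU N`, `g.1.1` is the matrix.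
-/

namespace STZ3

open STZ LGR MeasureTheory Matrix Filter

open scoped ComplexConjugate Matrix Real Topology

noncomputable section

/-- the matrices -/
abbrev MT (N : ℕ) : Type := Matrix (Fin N) (Fin N) ℂ

/-- the standing data: `H` is a closed connected subgroup of `SU(N)` with the root data `LRD`, the metric is `-c tr (X Y)`, `k Q` is the dual form on the weights, `d` is the dimension -/
structure CX {N : ℕ} (H : Subgroup (SU N)) {r : ℕ} (Φ : RT r) (B : Matrix (Fin r) (Fin r) ℤ)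
    (Hc : Fin r → MT N) (E : (Fin r → ℤ) × (Fin r → ℤ) → MT N) (c k : ℝ) (d : ℕ) : Prop where
  one_le : 1 ≤ r
  closed : IsClosed (H : Set (SU N))
  conn : IsConnected (H : Set (SU N))
  lrd : LRD H Φ B Hc E
  kc : KC Φ Hc E c k
  frame : ∃ X : Fin d → MT N, FrameH H c X

open Classical in
/-- the point `θ` of the torus, as an element of `H` -/
def tt {N r : ℕ} (H : Subgroup (SU N)) (Hc : Fin r → MT N) (θ : Fin r → ℝ) : H :=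
  if h : ta Hc θ ∈ H then ⟨ta Hc θ, h⟩ else 1

/-- the square of the distance from `1` -/
def ps {N : ℕ} {H : Subgroup (SU N)} (g : H) : ℝ := ∑ i, ∑ j, ‖g.1.1 i j - (1 : MT N) i j‖ ^ 2

/-- the square of the Hilbert-Schmidt norm -/
def hs2 {N : ℕ} (Y : MT N) : ℝ := ∑ i, ∑ j, ‖Y i j‖ ^ 2

/-- `κ` is the probability measure `exp (∑ a, (Y a)²)` (the law at the time `1` of the diffusion with this generator) -/
structure HM {N : ℕ} (H : Subgroup (SU N)) {ι : Type} [Fintype ι] (Y : ι → MT N) (κ : Measure H) : Prop where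
  prob : IsProbabilityMeasure κ
  coef : ∀ (n : ℕ) (σ : Rep H (Fin n)), PRep σ → ∀ i j,
    ∫ x, σ.ρ x i j ∂κ = (NormedSpace.exp (∑ a, dr σ (Y a) * dr σ (Y a))) i j

/-- the weights of a representation, as in TRES: `U` is unitary and diagonalises the torus -/
structure WT {N : ℕ} {H : Subgroup (SU N)} {r : ℕ} (Hc : Fin r → MT N) {n : ℕ} (σ : Rep H (Fin n))
    (U : Matrix (Fin n) (Fin n) ℂ) (μ : Fin n → Fin r → ℤ) : Prop where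
  lu : U * Uᴴ = 1
  ru : Uᴴ * U = 1
  tor : ∀ (g : H) (θ : Fin r → ℝ), g.1 = ta Hc θ → σ.ρ g = U * Matrix.diagonal (fun k => eu (dz (μ k) θ)) * Uᴴ

/-- the normalised root vectors: an orthonormal basis of the orthogonal complement of the torus (see ADFR) -/
def yr {N r : ℕ} (Φ : RT r) (E : (Fin r → ℤ) × (Fin r → ℤ) → MT N) (c : ℝ)
    (a : {p // p ∈ pos Φ} × Bool) : MT N :=
  ((1 / √(2 * c * (E a.1.1 * (E a.1.1)ᴴ).trace.re) : ℝ) : ℂ) •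
    (if a.2 then E a.1.1 - (E a.1.1)ᴴ else Complex.I • (E a.1.1 + (E a.1.1)ᴴ))

/-- `κ` is the packet measure: the heat flow in the root directions at the time `ϑ / k` -/
def PM {N : ℕ} (H : Subgroup (SU N)) {r : ℕ} (Φ : RT r) (E : (Fin r → ℤ) × (Fin r → ℤ) → MT N)
    (c k ϑ : ℝ) (κ : Measure H) : Prop :=
  HM H (fun a => ((√(ϑ / k) : ℝ) : ℂ) • yr Φ E c a) κ

/-- `ϖ` is the heat measure of the group at the time `s / k` -/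
def GM {N : ℕ} (H : Subgroup (SU N)) (c k : ℝ) (d : ℕ) (s : ℝ) (ϖ : Measure H) : Prop :=
  ∃ X : Fin d → MT N, FrameH H c X ∧ HM H (fun a => ((√(s / k) : ℝ) : ℂ) • X a) ϖ

/-- the dimension polynomial, `D (w l) = det w * D l` -/
def dR {r : ℕ} (Φ : RT r) (l : Fin r → ℤ) : ℝ :=
  (∏ p ∈ pos Φ, ((p.2 ⬝ᵥ l : ℤ) : ℝ)) / ∏ p ∈ pos Φ, ((p.2 ⬝ᵥ (1 : Fin r → ℤ) : ℤ) : ℝ)

/-- `2 (x, y) = x ⬝ A y` -/
def ip {r : ℕ} (Φ : RT r) (x y : Fin r → ℤ) : ℝ := ((x ⬝ᵥ ((rd Φ).A *ᵥ y) : ℤ) : ℝ)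

/-- the average over the Weyl group -/
def wa {r : ℕ} (Φ : RT r) (nf : (Fin r → ℤ) → ℂ) (l : Fin r → ℤ) : ℂ :=
  (1 / ((WF Φ).card : ℂ)) * ∑ w ∈ WF Φ, nf (w *ᵥ l)

/-- the torus multiplier `l` of (5.2) -/
def lm {r : ℕ} (Φ : RT r) (ϑ : ℝ) (nf : (Fin r → ℤ) → ℂ) (m : Fin r → ℤ) : ℂ :=
  (1 / ((WF Φ).card : ℂ)) * ∑ w ∈ WF Φ, (w.det : ℂ) *
    (((Real.exp (2 * ϑ * ip Φ m (w *ᵥ 1)) * dR Φ (m + w *ᵥ 1) : ℝ) : ℂ) * nf (m + w *ᵥ 1))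

/-- the exponent: `C - Q μ`, `C = Q l - Q 1` -/
def cq {r : ℕ} (Φ : RT r) (l m : Fin r → ℤ) : ℝ := (((rd Φ).Q l - (rd Φ).Q 1 - (rd Φ).Q m : ℤ) : ℝ)

/-- the packet transform -/
def VV {N : ℕ} {H : Subgroup (SU N)} (κ : Measure H) (h : H) (G : H → ℂ) (g : H) : ℂ := ∫ z, G (g * z * h⁻¹) ∂κ

/-! ### measures -/

/-- UNI. Every matrix entry of an irreducible `σ` has the same integral; by TENH (its entries are in `PF H` by `PFF.mono`) and DECP so has every function of `PFF.span`, so every `f ∈ PF H`; by `PFF.dense` (and finiteness; the constant `1` is the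
case `i = j = 0` of TENH) every continuous `f`. Two finite Borel measures on a compact metrizable space with the same integrals of continuous functions are equal (`MeasureTheory.ext_of_forall_integral_eq_of_IsFiniteMeasure` for bounded continuous real functions). -/
def S_UNI : Prop := ∀ (N : ℕ) (H : Subgroup (SU N)), IsClosed (H : Set (SU N)) → ∀ κ κ' : Measure H,
  IsFiniteMeasure κ → IsFiniteMeasure κ' →
  (∀ (n : ℕ) (σ : Rep H (Fin n)), σ.Irr → PRep σ → ∀ i j, ∫ x, σ.ρ x i j ∂κ = ∫ x, σ.ρ x i j ∂κ') → κ = κ'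

def M_UNI : Prop := S_TENH → S_PFFX → S_DECP → S_UNI

/-- UNC. The version for a bounded linear functional `L` on the continuous functions: if it vanishes on all entries of irreducible polynomial representations it is zero. As UNI: it vanishes on `PF H`, which is dense for the sup norm. -/
def S_UNC : Prop := ∀ (N : ℕ) (H : Subgroup (SU N)), IsClosed (H : Set (SU N)) → ∀ (L : (H → ℂ) → ℂ) (C : ℝ),
  (∀ f g : H → ℂ, Continuous f → Continuous g → L (fun x => f x + g x) = L f + L g) →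
  (∀ (a : ℂ) (f : H → ℂ), Continuous f → L (fun x => a * f x) = a * L f) →
  (∀ (f : H → ℂ) (M : ℝ), Continuous f → (∀ x, ‖f x‖ ≤ M) → ‖L f‖ ≤ C * M) →
  (∀ (n : ℕ) (σ : Rep H (Fin n)), σ.Irr → PRep σ → ∀ i j, L (fun x => σ.ρ x i j) = 0) →
  ∀ f : H → ℂ, Continuous f → L f = 0

def M_UNC : Prop := S_TENH → S_PFFX → S_DECP → S_UNC

/-- TRM. A matrix limit. `A j = 2^(-q) ∑_(ε ∈ {±1}^q) exp (√(2/j) ∑ a, ε a • D a)`. With `h = √(2/j)`, `Z = ∑ ε a • D a`: `‖exp (h Z) - 1 - h Z - h² Z²/2‖ ≤ C h³` (`C` depends on the `D a`). The average over the signs of `Z` is `0`, that of `Z²` is `∑ (D a)²`. So `‖A j - 1 - S/j‖ ≤ C j^(-3/2)`, `S = ∑ (D a)²`,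
`‖exp (S/j) - 1 - S/j‖ ≤ C j^(-2)`, `‖(A j)^j - (exp (S/j))^j‖ ≤ j ‖A j - exp (S/j)‖ e^C → 0`. -/
def S_TRM : Prop := ∀ (n q : ℕ) (D : Fin q → Matrix (Fin n) (Fin n) ℂ) (i j : Fin n),
  Tendsto (fun m : ℕ => (((1 / 2 ^ q : ℂ) • ∑ s : Fin q → Bool,
      NormedSpace.exp ((√(2 / (m : ℝ)) : ℂ) • ∑ a, (if s a then (1 : ℂ) else -1) • D a)) ^ m) i j) atTop
    (𝓝 ((NormedSpace.exp (∑ a, D a * D a)) i j))

/-- EXI. The measure exists. We may assume `ι = Fin q`. Let `κ m` be the law of the product of `m` independent elements, each `exp (√(2/m) ∑ a, ± Y a)` with random signs (a finite combination of point masses; or the functional `f ↦ (T^m f)(1)`, `T f g` the average over the signs of `f (g * exH H (∑ ± Y a) (√(2/m)))`). For a polynomial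
representation `∫ σ dκ m = (A m)^m` with `A m` of TRM for `D a = dr σ (Y a)` (`DRF.ex`, `add`, `smul`; LIEB), so it converges to `exp (∑ (dr σ (Y a))²)`. By TENH, DECP, `PFF.span`, `PFF.dense` and `|∫ f dκ m| ≤ sup |f|` the limit `Λ f = lim ∫ f dκ m` exists for every continuous `f`; it is linear, `Λ f ≥ 0` for `f ≥ 0`, `Λ 1 = 1`. Riesz
(`RealRMK` in Mathlib, for real functions) gives `κ`. -/
def S_EXI : Prop := ∀ (N : ℕ) (H : Subgroup (SU N)), IsClosed (H : Set (SU N)) → ∀ (ι : Type) [Fintype ι] (Y : ι → MT N),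
  (∀ a, Y a ∈ lie H) → ∃ κ : Measure H, HM H Y κ

def M_EXI : Prop := S_LIEB → S_TENH → S_PFFX → S_DECP → S_DREP → S_TRM → S_EXI

/-- MOM. Moments. Let `κ_t` be the measure for `√t Y`, `0 ≤ t ≤ 1` (EXI), `κ_1 = κ` (UNI), `κ_0 = δ_1`. For `f ∈ PF H` (a combination of matrix entries: TENH, DECP, `PFF.span`) `t ↦ ∫ f dκ_t` has the derivative `∫ L f dκ_t`, `L f = ∑ a, dH (Y a) (dH (Y a) f)` (`DRF.d`: `L` of an entry is the entry of `σ S`, `S = ∑ (dr σ (Y a))²`, and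
`d/dt exp (t S) = exp (t S) S`). `ps ∈ PF H`, `ps g = 2 N - 2 Re tr g`. For `Y ∈ lie H`: `|dH Y ps| = 2 |Re tr ((g - 1) Y)| ≤ 2 ps^(1/2) hs2 Y^(1/2)` (`tr Y = 0`), `|dH Y (dH Y ps)| = 2 |Re tr (g Y²)| ≤ 2 hs2 Y`. So `L (ps^j) ≤ C_j s ps^(j-1)`, and `u_j(t) = ∫ ps^j dκ_t` satisfies `u_j(t) ≤ C_j s ∫_0^t u_(j-1)`, `u_0 = 1`. -/
def S_MOM : Prop := ∀ (N : ℕ) (H : Subgroup (SU N)), IsClosed (H : Set (SU N)) → ∀ (ι : Type) [Fintype ι] (j : ℕ),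
  ∃ C : ℝ, 0 ≤ C ∧ ∀ (Y : ι → MT N) (κ : Measure H), (∀ a, Y a ∈ lie H) → HM H Y κ → ∀ s : ℝ,
    ∑ a, hs2 (Y a) ≤ s → s ≤ 1 → ∫ x, ps x ^ j ∂κ ≤ C * s ^ j

def M_MOM : Prop := S_LIEB → S_CALH → S_TENH → S_PFFX → S_DECP → S_DREP → S_UNI → S_EXI → S_MOM

/-- TAI. Tails of the packet measures and of the heat measures: MOM and Chebyshev (`hs2` of `yr` and of the frame matrices is bounded: `hs2 (X a) = 1/c`; `‖X‖² = -tr (X X)`). For `ϑ > ...` such that `s > 1` use that `κ` is a probability measure (enlarge `C`). -/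
def S_TAI : Prop := ∀ (N : ℕ) (H : Subgroup (SU N)) (r : ℕ) (Φ : RT r) (B : Matrix (Fin r) (Fin r) ℤ)
  (Hc : Fin r → MT N) (E : (Fin r → ℤ) × (Fin r → ℤ) → MT N) (c k : ℝ) (d : ℕ), CX H Φ B Hc E c k d →
  ∀ j : ℕ, ∃ C : ℝ, 0 ≤ C ∧ ∀ (ϑ : ℝ) (κ : Measure H), 0 < ϑ → ϑ ≤ 1 → (PM H Φ E c k ϑ κ ∨ GM H c k d ϑ κ) →
    ∀ ρ : ℝ, 0 < ρ → κ.real {z | ρ ^ 2 ≤ ps z} ≤ C * (ϑ / ρ ^ 2) ^ j

def M_TAI : Prop := S_LIEB → S_WFAC → S_TAUF → S_MOM → S_TAI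

/-- SYK. Symmetry. `∑ (dr σ (Y a))²` is Hermitian (`DRF.skew`), so is its exponential, so `∫ σ (x⁻¹) dκ = ∫ (σ x)ᴴ dκ = ∫ σ x dκ`. UNI for `κ` and `κ.map Inv.inv`. -/
def S_SYK : Prop := ∀ (N : ℕ) (H : Subgroup (SU N)), IsClosed (H : Set (SU N)) → ∀ (ι : Type) [Fintype ι]
  (Y : ι → MT N) (κ : Measure H), (∀ a, Y a ∈ lie H) → HM H Y κ → κ.map Inv.inv = κ

def M_SYK : Prop := S_DREP → S_UNI → S_SYK

/-! ### the packets in a representation -/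

/-- HMV. The packet measure in an irreducible representation. Let `C = ∑ (dr σ (X a))²` for a frame `X`; by `HWR.eig` (`lapH X` of the entries of `σ` is `-k (Q l - Q 1)` times the entries; `DRF.d` twice, at `g = 1`) `C = -k (Q l - Q 1)`. By ADFR for `β Y Z = dr σ Y * dr σ Z` (entry by entry; `DRF.add`, `smul`) `C = ∑ j, (dr σ (hx (z j)))² + ∑ a, (dr σ (yr a))²`,
`z` from `KC.z`. By `WT.tor` and `DRF.ex` `dr σ (hx x) = U diag (i (μ m)·x) Uᴴ` (derivative of `σ (ta (s x/2π))`), so the torus part is `U diag (-(k/2) μ·Aμ) Uᴴ = U diag (-k Q μ) Uᴴ` (QUAD). So `(ϑ/k) ∑ (dr σ (yr a))² = U diag (-ϑ (Q l - Q 1 - Q μ)) Uᴴ`; take the exponential. -/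
def S_HMV : Prop := ∀ (N : ℕ) (H : Subgroup (SU N)) (r : ℕ) (Φ : RT r) (B : Matrix (Fin r) (Fin r) ℤ)
  (Hc : Fin r → MT N) (E : (Fin r → ℤ) × (Fin r → ℤ) → MT N) (c k : ℝ) (d : ℕ), CX H Φ B Hc E c k d →
  ∀ (ϑ : ℝ) (κ : Measure H), 0 < ϑ → PM H Φ E c k ϑ κ → ∀ (n : ℕ) (σ : Rep H (Fin n)) (l : Fin r → ℤ)
    (U : Matrix (Fin n) (Fin n) ℂ) (μ : Fin n → Fin r → ℤ), σ.Irr → PRep σ → HWR Φ Hc c k d σ l → WT Hc σ U μ →
    ∀ i j, ∫ x, σ.ρ x i j ∂κ =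
      (U * Matrix.diagonal (fun m => ((Real.exp (-(ϑ * cq Φ l (μ m))) : ℝ) : ℂ)) * Uᴴ) i j

def M_HMV : Prop := S_LIEB → S_WFAC → S_QUAD → S_TAUF → S_DREP → S_ADFR → S_HMV

/-- HMF. The heat measure of the group: as in HMV, `C = -k (Q l - Q 1)`. -/
def S_HMF : Prop := ∀ (N : ℕ) (H : Subgroup (SU N)) (r : ℕ) (Φ : RT r) (B : Matrix (Fin r) (Fin r) ℤ)
  (Hc : Fin r → MT N) (E : (Fin r → ℤ) × (Fin r → ℤ) → MT N) (c k : ℝ) (d : ℕ), CX H Φ B Hc E c k d →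
  ∀ (s : ℝ) (ϖ : Measure H), 0 < s → GM H c k d s ϖ → ∀ (n : ℕ) (σ : Rep H (Fin n)) (l : Fin r → ℤ),
    σ.Irr → PRep σ → HWR Φ Hc c k d σ l → ∀ i j, ∫ x, σ.ρ x i j ∂ϖ =
      if i = j then ((Real.exp (-(s * (((rd Φ).Q l : ℝ) - (rd Φ).Q 1))) : ℝ) : ℂ) else 0

def M_HMF : Prop := S_DREP → S_HMF

/-- TRI. `AT 1 θ * σ.ch g = AT l θ` (`HWR.wcf`) and `σ.ch g = ∑ j, eu (dz (μ j) θ)` for `g = ta θ`: `∑ j, ∑ w, det w eu (dz (μ j + w 1) θ) = ∑ w, det w eu (dz (w l) θ)` for all `θ`. By TPOL the coefficients are equal; apply the linear functional `eu (dz m ·) ↦ F m`. -/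
def S_TRI : Prop := ∀ (N : ℕ) (H : Subgroup (SU N)) (r : ℕ) (Φ : RT r) (B : Matrix (Fin r) (Fin r) ℤ)
  (Hc : Fin r → MT N) (E : (Fin r → ℤ) × (Fin r → ℤ) → MT N) (c k : ℝ) (d : ℕ), CX H Φ B Hc E c k d →
  ∀ (n : ℕ) (σ : Rep H (Fin n)) (l : Fin r → ℤ) (U : Matrix (Fin n) (Fin n) ℂ) (μ : Fin n → Fin r → ℤ),
    HWR Φ Hc c k d σ l → WT Hc σ U μ → ∀ F : (Fin r → ℤ) → ℂ,
    ∑ j, ∑ w ∈ WF Φ, (w.det : ℂ) * F (μ j + w *ᵥ 1) = ∑ w ∈ WF Φ, (w.det : ℂ) * F (w *ᵥ l)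

def M_TRI : Prop := S_TAUF → S_TPOL → S_TRI

/-- TRF. The trace identity (5.2). TRI for `F m = exp (2ϑ Q m) dR m nf m`. With `y = w 1`, `Q (m + y) = Q m + Q 1 + m·Ay` (QUAD: `x·Ax = 2 Q x`, `Q y = Q 1`, symmetry), so `exp (2ϑ Q (m + y)) = exp (2ϑ Q m) exp (2ϑ Q 1) exp (2ϑ m·Ay)`. On the right `Q (w l) = Q l`, `dR (w l) = det w dR l` (`RV.danti`), `(det w)² = 1`, and `dR l = n` (`HWR.dim`).
The exponent `-2ϑ (Q l - Q 1 - Q μ)`. -/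
def S_TRF : Prop := ∀ (N : ℕ) (H : Subgroup (SU N)) (r : ℕ) (Φ : RT r) (B : Matrix (Fin r) (Fin r) ℤ)
  (Hc : Fin r → MT N) (E : (Fin r → ℤ) × (Fin r → ℤ) → MT N) (c k : ℝ) (d : ℕ), CX H Φ B Hc E c k d →
  ∀ (n : ℕ) (σ : Rep H (Fin n)) (l : Fin r → ℤ) (U : Matrix (Fin n) (Fin n) ℂ) (μ : Fin n → Fin r → ℤ),
    HWR Φ Hc c k d σ l → WT Hc σ U μ → ∀ (ϑ : ℝ) (nf : (Fin r → ℤ) → ℂ),
    ∑ j, ((Real.exp (-(2 * ϑ * cq Φ l (μ j))) : ℝ) : ℂ) * lm Φ ϑ nf (μ j) = (n : ℂ) * wa Φ nf l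

def M_TRF : Prop := S_WFAC → S_QUAD → S_RVOF → S_TRI → S_TRF

/-- IDM. The identity of measures (5.3). Both sides are linear in `f` and bounded by a constant times the supremum of `|f|` (`κ` is a probability measure, `F`, `T` finite); by UNC it is enough to take an entry `f = σ.ρ · p q` of an irreducible polynomial representation, with `l` from NORR, `U`, `m j` from TRES, `n` its size. Let `K = ∫ σ dκ = U diag (exp (-ϑ cq)) Uᴴ` (HMV),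
`D = ∫_θ (∑ lm m eu (dz m θ)) σ (tt θ) = U diag (lm (- m j)) Uᴴ` (TPOL: `∫ eu (dz (m + m j) θ) = [m = - m j]`). The right side is `∫_h (σ(h) K D K σ(h)ᴴ) p q = [p = q] tr (K D K)/n` (SCHUR), `tr (K D K) = ∑ j, exp (-2ϑ cq l (m j)) lm (- m j)`. Left side: `∫ σ(x) p q χ i 1 χ i x`. The conjugate representation `σ'` (entries `conj (σ.ρ g p q)`) is irreducible, polynomial, with the
weights `- m j` and some `l'` (NORR); there is exactly one `i₀` in `IX Hc` with `wG i₀ = l'` (`HWR.triv`, `reg`), and `χ i₀` is its character (CHI: both characters are `AT l'/AT 1` at the regular points of the torus, dense by DENV, CONJ). `∫ σ p q χ i = 0` for `i ≠ i₀`, `= [p = q]/n` for `i = i₀` (SCHUR, `χ i₀ = conj σ.ch`). So the left side is `[p = q] wa (wG i₀)`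
(`χ i₀ 1 = n`; if `i₀ ∉ F` then `wa = 0`), and by TRF for `σ'` (cq for `σ'`: `Q (-m) = Q m`, `Q l' = Q l` by CASR or by HWR.eig: the eigenvalues of `σ` and `σ'` are equal) `∑ j, exp (-2ϑ cq) lm (- m j) = n wa l'`. -/
def S_IDM : Prop := ∀ (N : ℕ) (H : Subgroup (SU N)) (r : ℕ) (Φ : RT r) (B : Matrix (Fin r) (Fin r) ℤ)
  (Hc : Fin r → MT N) (E : (Fin r → ℤ) × (Fin r → ℤ) → MT N) (c k : ℝ) (d : ℕ), CX H Φ B Hc E c k d →
  ∀ (μ : Measure H) [IsProbabilityMeasure μ] [μ.IsMulLeftInvariant] (χ : IX Hc → H → ℂ), CHI Φ Hc c k d χ →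
  ∀ (ϑ : ℝ) (κ : Measure H), 0 < ϑ → PM H Φ E c k ϑ κ → ∀ (nf : (Fin r → ℤ) → ℂ) (T : Finset (Fin r → ℤ))
    (F : Finset (IX Hc)), (∀ m, lm Φ ϑ nf m ≠ 0 → m ∈ T) → (∀ i : IX Hc, wa Φ nf (wG i.1) ≠ 0 → i ∈ F) →
  ∀ f : H → ℂ, Continuous f →
    ∫ x, f x * ∑ i ∈ F, wa Φ nf (wG i.1) * (χ i 1 * χ i x) ∂μ =
      ∫ h, ∫ z, ∫ z', (∫ θ in Set.Icc (0 : Fin r → ℝ) 1,
        (∑ m ∈ T, lm Φ ϑ nf m * eu (dz m θ)) * f (h * z * tt H Hc θ * z' * h⁻¹)) ∂κ ∂κ ∂μ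

def M_IDM : Prop := S_SCHUR → S_WFAC → S_CHAM → S_TAUF → S_CONJ → S_DENV → S_RVOF → S_ATFV → S_TPOL → S_PFFX → S_DREP →
  S_CASR → S_TRES → S_NORR → S_UNC → S_HMV → S_TRF → S_IDM

/-- BRP. The bilinear form (7.1). `KK χ i g g' = χ i 1 χ i (g g'⁻¹)`, a class function; substitute `g = g' u` (left invariance): `χ i (g' u g'⁻¹) = χ i u`, so the left side is `∫_u k(u) f(u)`, `f(u) = ∫_(g') conj (G₂ (g' u)) G₁ g'`, continuous. IDM; in `f (h z tt z' h⁻¹)` substitute `g' = g z⁻¹ h⁻¹` (right invariance, HAAR):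
`f = ∫_g conj (G₂ (g tt(θ) z' h⁻¹)) G₁ (g z⁻¹ h⁻¹)`; integrate over `z`, `z'` (Fubini; `κ` is symmetric, SYK). -/
def S_BRP : Prop := ∀ (N : ℕ) (H : Subgroup (SU N)) (r : ℕ) (Φ : RT r) (B : Matrix (Fin r) (Fin r) ℤ)
  (Hc : Fin r → MT N) (E : (Fin r → ℤ) × (Fin r → ℤ) → MT N) (c k : ℝ) (d : ℕ), CX H Φ B Hc E c k d →
  ∀ (μ : Measure H) [IsProbabilityMeasure μ] [μ.IsMulLeftInvariant] (χ : IX Hc → H → ℂ), CHI Φ Hc c k d χ →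
  ∀ (ϑ : ℝ) (κ : Measure H), 0 < ϑ → PM H Φ E c k ϑ κ → ∀ (nf : (Fin r → ℤ) → ℂ) (T : Finset (Fin r → ℤ))
    (F : Finset (IX Hc)), (∀ m, lm Φ ϑ nf m ≠ 0 → m ∈ T) → (∀ i : IX Hc, wa Φ nf (wG i.1) ≠ 0 → i ∈ F) →
  ∀ G₁ G₂ : H → ℂ, Continuous G₁ → Continuous G₂ →
    ∫ g, conj (G₂ g) * ∫ g', (∑ i ∈ F, wa Φ nf (wG i.1) * KK χ i g g') * G₁ g' ∂μ ∂μ =
      ∫ h, ∫ g, (∫ θ in Set.Icc (0 : Fin r → ℝ) 1, (∑ m ∈ T, lm Φ ϑ nf m * eu (dz m θ)) *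
        (VV κ h G₁ g * conj (VV κ h G₂ (g * tt H Hc θ)))) ∂μ ∂μ

def M_BRP : Prop := S_HAAR → S_LIEB → S_TAUF → S_SYK → S_IDM → S_BRP

/-! ### positivity -/

/-- `∑ l, ξ l (z v) l` -/
def lf {r : ℕ} (z : Matrix (Fin r) (Fin r) ℝ) (v : Fin r → ℤ) (ξ : Fin r → ℝ) : ℝ :=
  ∑ l, ξ l * ∑ i, z l i * (v i : ℝ)

/-- the standard Gaussian measure on `ℝ^r` -/
def ga (r : ℕ) : Measure (Fin r → ℝ) := Measure.pi fun _ => ProbabilityTheory.gaussianReal 0 1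

/-- `zᵀ z = A / 2` -/
def ZM {r : ℕ} (Φ : RT r) (z : Matrix (Fin r) (Fin r) ℝ) : Prop :=
  ∀ i j, ∑ l, z l i * z l j = ((rd Φ).A i j : ℝ) / 2

/-- HRM. `A` is positive definite (QUAD), so `z` exists (square root or Cholesky) and is invertible. `(v, v') = v·Av'/2 = (z v)·(z v')`, `2 (p, v) = (p.2·v) (p, p)` for the root `p = p.1` (QUAD). Let `P η = ∏ p, lf z p.1 η`. The reflection `R η = η - 2 (u·η)/(u·u) u`, `u = z p.1`, is orthogonal, so it preserves `ga r`, and `lf z q.1 (R η) = lf z (s_p q.1) η`; for a simple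
root `p` it permutes the other positive roots up to positive factors equal to `1` (`WFF.simp`), so `P (R η) = - P η`; the same for every root (conjugation, GENS; or `WFF.perm` and `RV.danti` for real vectors). Let `h η = ∫ P (ξ + η)`. If `lf z p.1 η = 0` then `R η = η` and `h η = ∫ P (R (ξ + η)) = - h η`, so `h η = 0`. Take `v` with `lf z p.1 v ≠ 0` for all `p`, and `η` such that the numbers
`t_p = - lf z p.1 η / lf z p.1 v` are different (a dense set of `η`: different roots are not proportional): `t ↦ h (η + t v)` is a polynomial of degree `≤ n` with the coefficient `P v` of `t^n` and the `n` zeros `t_p`, so it is `P v ∏ (t - t_p) = P (η + t v)`; `t = 0`. By continuity for all `η`. -/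
def S_HRM : Prop := ∀ (r : ℕ) (Φ : RT r) (B : Matrix (Fin r) (Fin r) ℤ), 1 ≤ r → IRD Φ B → WFF Φ B →
  (∃ z, ZM Φ z) ∧ ∀ z, ZM Φ z → ∀ η : Fin r → ℝ,
    ∫ ξ, ∏ p ∈ pos Φ, lf z p.1 (ξ + η) ∂(ga r) = ∏ p ∈ pos Φ, lf z p.1 η

def M_HRM : Prop := S_RHOF → S_GENS → S_QUAD → S_RVOF → S_HRM

/-- DNR. The denominator formula for real exponentials. By DENO the trigonometric polynomials `∑ w, det w eu (dz (w 1) θ)` and `eu (∑ θ) ∏ (1 - eu (-(dz p.1 θ)))` are equal; expand the product and compare the coefficients (TPOL); then the same identity holds with `exp (∑ i, m i x i)` instead of `eu (dz m θ)`: `∑ w, det w exp ((w 1)·x) = exp (∑ x) ∏ (1 - exp (- p.1·x))`, and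
`∑ i, x i = ∑ p, (p.1·x)/2` (RHOF). -/
def S_DNR : Prop := ∀ (r : ℕ) (Φ : RT r) (B : Matrix (Fin r) (Fin r) ℤ), IRD Φ B → WFF Φ B → ∀ x : Fin r → ℝ,
  ∑ w ∈ WF Φ, (w.det : ℝ) * Real.exp (∑ i, ((w *ᵥ (1 : Fin r → ℤ)) i : ℝ) * x i) =
    ∏ p ∈ pos Φ, (Real.exp ((∑ i, (p.1 i : ℝ) * x i) / 2) - Real.exp (-((∑ i, (p.1 i : ℝ) * x i) / 2)))

def M_DNR : Prop := S_RHOF → S_DENO → S_TPOL → S_DNR

/-- ANT. Anticoncentration. For `v = z p.1 ≠ 0` the variable `lf z p.1 ξ` is Gaussian with the variance `|v|² > 0`, so `lf z p.1 (ξ + η)` has the mean `b = lf z p.1 η` and the standard deviation `τ = |v|`; the probability that its absolute value is `≤ ε (1 + |b|)` is at most `1/(2n)` if `ε` is small, uniformly in `b`: for `|b| ≤ K` the interval has length `2 ε (1 + K)` and the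
density is `≤ 1/τ`; for `|b| > K` the Gaussian part must be `≥ |b|/2` in absolute value, Chebyshev: `≤ 4 τ²/K²`. So with probability `≥ 1/2` the product is at least `∏ (ε (1 + |b_p|))²`. -/
def S_ANT : Prop := ∀ (r : ℕ) (Φ : RT r) (B : Matrix (Fin r) (Fin r) ℤ), 1 ≤ r → IRD Φ B → WFF Φ B →
  ∀ z, ZM Φ z → ∃ c : ℝ, 0 < c ∧ ∀ η : Fin r → ℝ,
    c * ∏ p ∈ pos Φ, (1 + (lf z p.1 η) ^ 2) ≤ ∫ ξ, ∏ p ∈ pos Φ, (lf z p.1 (ξ + η)) ^ 2 ∂(ga r)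

def M_ANT : Prop := S_QUAD → S_ANT

/-- the multiplier for `nf = 1` -/
def l1 {r : ℕ} (Φ : RT r) (ϑ : ℝ) (m : Fin r → ℤ) : ℝ :=
  (1 / ((WF Φ).card : ℝ)) * ∑ w ∈ WF Φ, (w.det : ℝ) * (Real.exp (2 * ϑ * ip Φ m (w *ᵥ 1)) * dR Φ (m + w *ᵥ 1))

/-- LWB. (5.4). Let `z` with `ZM` (HRM), `(x, y) = x·Ay/2`, `a = 2 √ϑ`, `L_p ξ = lf z p.1 ξ`; `L_p (z m) = (p.1, m)`, and `dR m = ∏ (p.1, m) / ∏ (p.1, 1)` (QUAD: `(p.1, m) = (p.2·m) (p.1,p.1)/2`). By HRM at `η = a z (m + w 1)`: `a^n ∏ (p.1, m + w 1) = ∫ ∏ L_p (ξ + a z (m + w 1))`; by the formula `∫ F (ξ + η) dγ = e^(-|η|²/2) ∫ F(ξ) e^(ξ·η) dγ` (translation of the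
Gaussian density) this is `e^(-2ϑ Q(m + w 1)) ∫ ∏ L_p(ξ) e^(a ξ·z(m + w 1))`. `exp (2ϑ m·A(w 1)) e^(-2ϑ Q(m + w 1)) = e^(-2ϑ Q m - 2ϑ Q 1)`. Sum over `w` with DNR (`x i = a (zᵀ ξ) i`, so `p.1·x = a L_p ξ`): `l1 m · |W| ∏ (p.1, 1) a^n = e^(-2ϑ Q m - 2ϑ Q 1) ∫ ∏ L_p(ξ) (e^(a L_p/2) - e^(-a L_p/2)) e^(a ξ·z m) = e^(-2ϑ Q 1) ∫ ∏ L_p (e^(a L_p/2) - e^(-a L_p/2)) (ξ + a z m)`.
As `y (e^(a y/2) - e^(-a y/2)) ≥ a y²` this is `≥ e^(-2ϑ Q 1) a^n ∫ ∏ (L_p (ξ + a z m))² ≥ c a^n ∏ (1 + a² (p.1, m)²)` (ANT), `a² (p.1, m)² ≥ c ϑ (p.2·m)²`, `ϑ ≤ 1`. -/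
def S_LWB : Prop := ∀ (r : ℕ) (Φ : RT r) (B : Matrix (Fin r) (Fin r) ℤ), 1 ≤ r → IRD Φ B → WFF Φ B →
  ∃ c : ℝ, 0 < c ∧ ∀ (ϑ : ℝ) (m : Fin r → ℤ), 0 < ϑ → ϑ ≤ 1 →
    c * ∏ p ∈ pos Φ, (1 + ϑ * ((p.2 ⬝ᵥ m : ℤ) : ℝ) ^ 2) ≤ l1 Φ ϑ m

def M_LWB : Prop := S_QUAD → S_HRM → S_DNR → S_ANT → S_LWB

/-- TRB. TRF for `nf = 1` (`lm` is `l1`) and LWB. -/
def S_TRB : Prop := ∀ (N : ℕ) (H : Subgroup (SU N)) (r : ℕ) (Φ : RT r) (B : Matrix (Fin r) (Fin r) ℤ)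
  (Hc : Fin r → MT N) (E : (Fin r → ℤ) × (Fin r → ℤ) → MT N) (c k : ℝ) (d : ℕ), CX H Φ B Hc E c k d →
  ∃ C : ℝ, 0 ≤ C ∧ ∀ (n : ℕ) (σ : Rep H (Fin n)) (l : Fin r → ℤ) (U : Matrix (Fin n) (Fin n) ℂ)
    (μ : Fin n → Fin r → ℤ), HWR Φ Hc c k d σ l → WT Hc σ U μ → ∀ ϑ : ℝ, 0 < ϑ → ϑ ≤ 1 →
    ∑ j, Real.exp (-(2 * ϑ * cq Φ l (μ j))) * ∏ p ∈ pos Φ, (1 + ϑ * ((p.2 ⬝ᵥ μ j : ℤ) : ℝ) ^ 2) ≤ C * n

def M_TRB : Prop := S_WFAC → S_TRF → S_LWB → S_TRB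

/-- L2W. (5.5). Both sides are continuous in `F` for the sup norm, so by `PFF.dense` we may take `F ∈ PF H`; by `PFF.span`, TENH, DECP, NORR and the equality of representations with the same character (SCHUR: group the irreducible representations by their characters; entries of representations with the same character are linear combinations of the entries of one of them) `F = ∑ s, ∑ p q, c_s p q σ_s p q` with
irreducible `σ_s` with different characters. `VV κ h F (g) = ∑ ∑ c_s p q (σ_s(g) K_s σ_s(h)ᴴ) p q`, `K_s = U diag (exp (-ϑ cq)) Uᴴ` (HMV), and the inner function is the same with `σ_s(g) D_s K_s σ_s(h)ᴴ`, `D_s = U diag (Ψ (μ j)) Uᴴ`, `Ψ m` the difference in the hypothesis. By SCHUR (orthogonality of different `s`, integrate over `g`) the left side is `∑ s, (1/n_s) ∫_h ‖D K σ(h)ᴴ cᵀ‖²`, and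
`∫_h σ(h)ᴴ... ` (SCHUR again, average over `h`) `= (1/n_s) ((1/n_s) tr (K D ᴴ D K)) ‖c_s‖²`; `nsq F = ∑ s, ‖c_s‖²/n_s`. `tr = ∑ j, exp (-2ϑ cq) |Ψ (μ j)|² ≤ b ∑ j, exp (-2ϑ cq) ∏ (1 + ϑ (p.2·μ j)²) ≤ b C n_s` (TRB). -/
def S_L2W : Prop := ∀ (N : ℕ) (H : Subgroup (SU N)) (r : ℕ) (Φ : RT r) (B : Matrix (Fin r) (Fin r) ℤ)
  (Hc : Fin r → MT N) (E : (Fin r → ℤ) × (Fin r → ℤ) → MT N) (c k : ℝ) (d : ℕ), CX H Φ B Hc E c k d →
  ∀ (μ : Measure H) [IsProbabilityMeasure μ] [μ.IsMulLeftInvariant], ∃ C : ℝ, 0 ≤ C ∧ ∀ (ϑ : ℝ) (κ : Measure H),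
    0 < ϑ → ϑ ≤ 1 → PM H Φ E c k ϑ κ → ∀ (ν₁ ν₂ : Measure (Fin r → ℝ)), IsFiniteMeasure ν₁ → IsFiniteMeasure ν₂ →
    ∀ b : ℝ, (∀ m : Fin r → ℤ, ‖∫ s, eu (dz m s) ∂ν₁ - ∫ s, eu (dz m s) ∂ν₂‖ ^ 2 ≤
      b * ∏ p ∈ pos Φ, (1 + ϑ * ((p.2 ⬝ᵥ m : ℤ) : ℝ) ^ 2)) →
    ∀ F : H → ℂ, Continuous F →
      ∫ h, ∫ g, ‖∫ s, VV κ h F (g * tt H Hc s) ∂ν₁ - ∫ s, VV κ h F (g * tt H Hc s) ∂ν₂‖ ^ 2 ∂μ ∂μ ≤
        C * b * ∫ g, ‖F g‖ ^ 2 ∂μ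

def M_L2W : Prop := S_SCHUR → S_TENH → S_WFAC → S_TAUF → S_PFFX → S_DECP → S_TRES → S_NORR → S_HMV → S_TRB → S_L2W

/-! ### the heat kernel of the group -/

/-- the heat kernel -/
def hk {N r : ℕ} {H : Subgroup (SU N)} (Φ : RT r) {Hc : Fin r → MT N} (χ : IX Hc → H → ℂ) (s : ℝ) (x : H) : ℂ :=
  ∑' i : IX Hc, ((Real.exp (-(s * (((rd Φ).Q (wG i.1) : ℝ) - (rd Φ).Q 1))) : ℝ) : ℂ) * (χ i 1 * χ i x)

/-- HKS. `‖χ i x‖ ≤ χ i 1 = dR (wG i) ≤ C ∏ (p.2·wG i)` and `Q (wG i) - Q 1 ≥ c |i|²` for large `|i|` (QUAD); `i ↦ wG i` is injective. `∑_(l ∈ ℤ^r) (1 + |l|)^(2n) exp (-c s |l|²) ≤ C s^(-(2n + r)/2)` for `s ≤ 1`, and `d = 2 n + r` (ADFR). The convergence is uniform in `x` for fixed `s`; the characters are continuous. -/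
def S_HKS : Prop := ∀ (N : ℕ) (H : Subgroup (SU N)) (r : ℕ) (Φ : RT r) (B : Matrix (Fin r) (Fin r) ℤ)
  (Hc : Fin r → MT N) (E : (Fin r → ℤ) × (Fin r → ℤ) → MT N) (c k : ℝ) (d : ℕ), CX H Φ B Hc E c k d →
  ∀ χ : IX Hc → H → ℂ, CHI Φ Hc c k d χ → (∀ s : ℝ, 0 < s → Continuous (hk Φ χ s)) ∧
    (∀ s : ℝ, 0 < s → ∀ x, Summable fun i : IX Hc =>
      ‖((Real.exp (-(s * (((rd Φ).Q (wG i.1) : ℝ) - (rd Φ).Q 1))) : ℝ) : ℂ) * (χ i 1 * χ i x)‖) ∧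
    ∃ C : ℝ, 0 ≤ C ∧ ∀ s : ℝ, 0 < s → s ≤ 1 → ∀ x, ‖hk Φ χ s x‖ ≤ C * s ^ (-((d : ℝ) / 2))

def M_HKS : Prop := S_LIEB → S_WFAC → S_QUAD → S_TAUF → S_ADFR → S_HKS

/-- HKM. For an irreducible polynomial `σ` (of size `n`, with `l` from NORR): `∫ σ(x) p q hk s x dμ = [p = q] exp (-s (Q l - Q 1))` (exchange sum and integral by HKS; as in IDM: exactly one `i₀` with `χ i₀ = conj σ.ch`, `wG i₀ = l'` for the conjugate representation, `Q l' = Q l` (the eigenvalues in `HWR.eig` are equal), `∫ σ p q χ i₀ = [p = q]/n`, `χ i₀ 1 = n`, all others `0`). By HMF this is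
`∫ σ p q dπ`. So `∫ f hk dμ = ∫ f dπ` for all continuous `f` (UNC for the difference). Hence `hk s` is real and `≥ 0` (it is continuous; test with continuous `f ≥ 0`; `μ` is positive on open sets, HAAR), and `π` has the density `hk s`. -/
def S_HKM : Prop := ∀ (N : ℕ) (H : Subgroup (SU N)) (r : ℕ) (Φ : RT r) (B : Matrix (Fin r) (Fin r) ℤ)
  (Hc : Fin r → MT N) (E : (Fin r → ℤ) × (Fin r → ℤ) → MT N) (c k : ℝ) (d : ℕ), CX H Φ B Hc E c k d →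
  ∀ (μ : Measure H) [IsProbabilityMeasure μ] [μ.IsMulLeftInvariant] (χ : IX Hc → H → ℂ), CHI Φ Hc c k d χ →
  ∀ s : ℝ, 0 < s → (∀ x, (hk Φ χ s x).im = 0 ∧ 0 ≤ (hk Φ χ s x).re) ∧
    ∀ ϖ : Measure H, GM H c k d s ϖ → ∀ f : H → ℂ, Continuous f → ∫ x, f x ∂ϖ = ∫ x, f x * hk Φ χ s x ∂μ

def M_HKM : Prop := S_HAAR → S_SCHUR → S_LIEB → S_WFAC → S_CHAM → S_TAUF → S_CONJ → S_DENV → S_RVOF → S_ATFV →
  S_PFFX → S_DREP → S_CASR → S_TRES → S_NORR → S_UNC → S_EXI → S_HMF → S_HKS → S_HKM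

/-- HKT. Decay of the heat kernel. `π_(2s) = π_s * π_s` (HMF, UNI), so `hk (2s) x = ∫ hk s y hk s (y⁻¹ x) dμ(y)` (or directly from the series and the orthogonality relations). If `ρ² ≤ ps x` then `ps y ≥ ρ²/4` or `ps (y⁻¹ x) ≥ ρ²/4` (`ps (y z)^(1/2) ≤ ps y^(1/2) + ps z^(1/2)`), so `hk (2s) x ≤ 2 C s^(-d/2) π_s {ps ≥ ρ²/4}` (HKS, HKM; inversion invariance), TAI. -/
def S_HKT : Prop := ∀ (N : ℕ) (H : Subgroup (SU N)) (r : ℕ) (Φ : RT r) (B : Matrix (Fin r) (Fin r) ℤ)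
  (Hc : Fin r → MT N) (E : (Fin r → ℤ) × (Fin r → ℤ) → MT N) (c k : ℝ) (d : ℕ), CX H Φ B Hc E c k d →
  ∀ χ : IX Hc → H → ℂ, CHI Φ Hc c k d χ → ∀ j : ℕ, ∃ C : ℝ, 0 ≤ C ∧ ∀ s ρ : ℝ, 0 < s → s ≤ 1 / 2 → 0 < ρ →
    ∀ x : H, ρ ^ 2 ≤ ps x → ‖hk Φ χ (2 * s) x‖ ≤ C * (s ^ (-((d : ℝ) / 2)) * (s / ρ ^ 2) ^ j)

def M_HKT : Prop := S_HAAR → S_KB → S_KERI → S_LIEB → S_TAUF → S_CHIF → S_TAI → S_EXI → S_HMF → S_HKS → S_HKM → S_HKT

/-- MTK. Averaged over the torus two packets are the heat kernel of the group. By UNC it is enough to take `f = σ.ρ · p q`, `σ` irreducible, `l` (NORR), `U`, `m j` (TRES). `∫_θ σ (tt θ) = U diag [m j = 0] Uᴴ =: P₀` (TPOL). Left side: `∫_θ K σ(tt θ) K = P₀ K²` (`K` and `σ (tt θ)` are diagonal in the basis `U`, HMV), `K²` is `exp (-2ϑ (Q l - Q 1))` on the weight `0`.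
Right side: `P₀ exp (-2ϑ (Q l - Q 1))` (HMF). -/
def S_MTK : Prop := ∀ (N : ℕ) (H : Subgroup (SU N)) (r : ℕ) (Φ : RT r) (B : Matrix (Fin r) (Fin r) ℤ)
  (Hc : Fin r → MT N) (E : (Fin r → ℤ) × (Fin r → ℤ) → MT N) (c k : ℝ) (d : ℕ), CX H Φ B Hc E c k d →
  ∀ (ϑ : ℝ) (κ ϖ : Measure H), 0 < ϑ → PM H Φ E c k ϑ κ → GM H c k d (2 * ϑ) ϖ → ∀ f : H → ℂ, Continuous f →
    ∫ θ in Set.Icc (0 : Fin r → ℝ) 1, ∫ z, ∫ z', f (z * tt H Hc θ * z') ∂κ ∂κ =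
      ∫ θ in Set.Icc (0 : Fin r → ℝ) 1, ∫ x, f (tt H Hc θ * x) ∂ϖ

def M_MTK : Prop := S_LIEB → S_WFAC → S_TAUF → S_TPOL → S_PFFX → S_TRES → S_NORR → S_UNC → S_HMV → S_HMF → S_MTK

end

end STZ3
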