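import Pool.Agent.STZ3.StP

/-!
# Compact simple groups of rank two: the `L¹` bound (section 6 of `PAPER.md`)

Module `X` proves `theorem t_X : M_X` (or `t_X : S_X` if there is no `M_X`) in the file `Pool/Agent/STZ3/X.lean`, namespace `STZ3`.
-/

namespace STZ3

open STZ LGR MeasureTheory Matrix Filter

open scoped ComplexConjugate Matrix Real Topology

noncomputable section

/-- facts about `ps` and `tt` -/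
structure PSC {N : ℕ} (H : Subgroup (SU N)) {r : ℕ} (Hc : Fin r → MT N) (C : ℝ) : Prop where
  nn : ∀ g : H, 0 ≤ ps g
  le : ∀ g : H, ps g ≤ C
  cont : Continuous fun g : H => ps g
  inv : ∀ g : H, ps g⁻¹ = ps g
  cnj : ∀ g h : H, ps (h * g * h⁻¹) = ps g
  mul : ∀ g h : H, √(ps (g * h)) ≤ √(ps g) + √(ps h)
  zero : ∀ g : H, ps g = 0 → g = 1
  tcont : Continuous (tt H Hc)
  tcoe : ∀ θ, (tt H Hc θ).1 = ta Hc θ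
  tadd : ∀ θ θ' : Fin r → ℝ, tt H Hc (θ + θ') = tt H Hc θ * tt H Hc θ'
  tint : ∀ n : Fin r → ℤ, tt H Hc (fun j => n j) = 1
  tneg : ∀ θ : Fin r → ℝ, tt H Hc (-θ) = (tt H Hc θ)⁻¹
  tps : ∀ (ζ : Fin r → ℝ) (ρ : ℝ), (∀ i, |ζ i| ≤ ρ) → ps (tt H Hc ζ) ≤ C * ρ ^ 2

/-- PSF. `ps g` is the square of the Hilbert-Schmidt norm of `g - 1`, invariant under multiplication by unitary matrices on both sides: `g⁻¹ - 1 = - g⁻¹ (g - 1)`, `g h - 1 = g (h - 1) + (g - 1)`. `le`: `ps ≤ 4 N`. The facts about `tt`: TAUF (`ta θ ∈ H`). `tps`: `ta ζ = exp (hx (2π ζ))` and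
`‖exp A - 1‖ ≤ ‖A‖` for skew-Hermitian `A` (or `≤ C ‖A‖` for `‖A‖ ≤ 1`, and `ps ≤ 4 N` otherwise). -/
def S_PSF : Prop := ∀ (N : ℕ) (H : Subgroup (SU N)) (r : ℕ) (Φ : RT r) (B : Matrix (Fin r) (Fin r) ℤ)
  (Hc : Fin r → MT N) (E : (Fin r → ℤ) × (Fin r → ℤ) → MT N) (c k : ℝ) (d : ℕ), CX H Φ B Hc E c k d →
  ∃ C : ℝ, 0 ≤ C ∧ PSC H Hc C

def M_PSF : Prop := S_LIEB → S_WFAC → S_TAUF → S_PSF

/-- WIF. Weyl's integration formula. Let `μ'` be the push forward of the measure `(‖AT 1 θ‖²/|W|) dθ` on `H × [0,1]^r` under `(h, θ) ↦ h tt(θ) h⁻¹`; claim `μ' = μ`. Both are invariant under conjugation, so it is enough to compare the integrals of continuous class functions, and by DENC those of the characters of irreducible polynomial representations (finite measures).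
By NORR (`HWR.wcf`): `(1/|W|) ∫_θ σ.ch (tt θ) ‖AT 1 θ‖² = (1/|W|) ∫ AT l conj (AT 1) = [l = 1]` (TPOL; by CHAM `w l = w' 1` only for `l = 1`, `w = w'`). `∫ σ.ch dμ = [l = 1]`: if `l = 1` then `n = 1` (`HWR.dim`) and `σ.ch = 1` at the regular points of the torus, so everywhere (as in IDM: DENV, CONJ); if `l ≠ 1` then `σ.ch ≠ 1` somewhere
and the orthogonality to the trivial representation (CHAR) gives `0` (the trivial representation has `l = 1`, and two irreducible representations with equal characters have equal `l`). -/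
def S_WIF : Prop := ∀ (N : ℕ) (H : Subgroup (SU N)) (r : ℕ) (Φ : RT r) (B : Matrix (Fin r) (Fin r) ℤ)
  (Hc : Fin r → MT N) (E : (Fin r → ℤ) × (Fin r → ℤ) → MT N) (c k : ℝ) (d : ℕ), CX H Φ B Hc E c k d →
  ∀ (μ : Measure H) [IsProbabilityMeasure μ] [μ.IsMulLeftInvariant] (f : H → ENNReal), Measurable f →
    ∫⁻ x, f x ∂μ = ∫⁻ h, (∫⁻ θ in Set.Icc (0 : Fin r → ℝ) 1,
      ENNReal.ofReal (‖AT (rd Φ) 1 θ‖ ^ 2 / ((WF Φ).card : ℝ)) * f (h * tt H Hc θ * h⁻¹)) ∂μ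

def M_WIF : Prop := S_HAAR → S_CHAR → S_WFAC → S_CHAM → S_RVOF → S_ATFV → S_DENV → S_TAUF → S_CONJ → S_TPOL → S_PFFX →
  S_NORR → S_DENC → S_PSF → S_WIF

/-- `FF` is the function `det ((1 + ρ) - Ad g) / ρ^r` -/
structure FDF {N : ℕ} (H : Subgroup (SU N)) {r : ℕ} (Φ : RT r) (Hc : Fin r → MT N) (ρ C : ℝ) (FF : H → ℝ) : Prop where
  cont : Continuous FF
  tor : ∀ θ, FF (tt H Hc θ) = ∏ p ∈ pos Φ, (ρ ^ 2 + (1 + ρ) * ‖1 - eu (dz p.1 θ)‖ ^ 2)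
  cnj : ∀ g h : H, FF (h * g * h⁻¹) = FF g
  cmp : ∀ g g' : H, ps (g⁻¹ * g') ≤ 4 * ρ ^ 2 → FF g' ≤ C * FF g

/-- DET. (6.2). Let `X` be the frame of ADFR: `hx (z j)`, `(E p - (E p)ᴴ)/s p`, `i (E p + (E p)ᴴ)/s p` (any frame will do, `det` does not depend on it), and `(Ad g) a b = -c tr (X a g X b gᴴ)`, a real orthogonal `d × d` matrix, multiplicative in `g` (LIEB; `g X b gᴴ = ∑ a (Ad g) a b X a`). `FF g = det ((1 + ρ) 1 - Ad g)/ρ^r`. `Ad (tt θ)` is the identity on the `hx (z j)` and a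
rotation by the angle `2π dz p.1 θ` on the plane of `p` (`TAF.Ade`): the determinant is `ρ^r ∏ ((1 + ρ)² - 2 (1 + ρ) cos (2π dz p.1 θ) + 1)`, and `(1 + ρ)² - 2 (1 + ρ) cos ψ + 1 = ρ² + (1 + ρ) (2 - 2 cos ψ)`, `‖1 - eu y‖² = 2 - 2 cos (2π y)`. `cmp`: `‖Ad g - Ad g'‖ ≤ C' ps(g⁻¹ g')^(1/2) ≤ 2 C' ρ`. With `z = 1 + ρ`, `U = Ad g`, `U' = Ad g'`:
`z - U' = (z - U) (1 + (z - U)⁻¹ (U - U'))`, `‖(z - U)⁻¹‖ ≤ 1/(z - 1) = 1/ρ` (`U` is orthogonal: `‖(z - U) v‖ ≥ (z - 1) ‖v‖`), and `|det (1 + M)| ≤ (1 + ‖M‖)^d` (the product of the lengths of the columns, Hadamard, or the product of the eigenvalues, which are at most `1 + ‖M‖`). -/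
def S_DET : Prop := ∀ (N : ℕ) (H : Subgroup (SU N)) (r : ℕ) (Φ : RT r) (B : Matrix (Fin r) (Fin r) ℤ)
  (Hc : Fin r → MT N) (E : (Fin r → ℤ) × (Fin r → ℤ) → MT N) (c k : ℝ) (d : ℕ), CX H Φ B Hc E c k d →
  ∃ C : ℝ, 1 ≤ C ∧ ∀ ρ : ℝ, 0 < ρ → ρ ≤ 1 → ∃ FF : H → ℝ, FDF H Φ Hc ρ C FF

def M_DET : Prop := S_LIEB → S_WFAC → S_TAUF → S_ADFR → S_PSF → S_DET

/-- AVG. (6.3). `‖AT 1 θ‖² = ∏ ‖1 - eu (dz p.1 θ)‖²` (DENO) and `4 nd y ≤ ‖1 - eu y‖ ≤ 2π nd y`. For every `p` the set of the `ζ` in the box with `nd (dz p.1 (η + ζ)) ≤ ε (ρ + nd (dz p.1 η))` has at most the proportion `1/(2n)` of the volume if `ε` is small (depending on `Φ`): `ζ ↦ dz p.1 ζ` is a nonzero linear form (`p.1 ≠ 0`): if `nd (dz p.1 η) ≥ K ρ`, `K = 2 ∑ |p.1 i|`, then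
`nd (dz p.1 (η + ζ)) ≥ nd (dz p.1 η)/2`, and the set is empty for `ε < 1/4`; otherwise the set is contained in `≤ C` strips of the relative width `≤ C ε (1 + K)` (Fubini in a coordinate `i` with `p.1 i ≠ 0`; `dz p.1 ζ` moves by at most `K ρ ≤ K`, so only boundedly many integers are near). On the rest the integrand is at least `∏ (4 ε (ρ + nd))²`. -/
def S_AVG : Prop := ∀ (r : ℕ) (Φ : RT r) (B : Matrix (Fin r) (Fin r) ℤ), 1 ≤ r → IRD Φ B → WFF Φ B →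
  ∃ c : ℝ, 0 < c ∧ ∀ (ρ : ℝ) (η : Fin r → ℝ), 0 < ρ → ρ ≤ 1 →
    c * ∏ p ∈ pos Φ, (ρ ^ 2 + (1 + ρ) * ‖1 - eu (dz p.1 η)‖ ^ 2) ≤
      (2 * ρ) ^ (-(r : ℝ)) * ∫ ζ in Set.Icc (fun _ : Fin r => -ρ) (fun _ => ρ), ‖AT (rd Φ) 1 (η + ζ)‖ ^ 2

def M_AVG : Prop := S_DENO → S_AVG

/-- BOH. Bohr sets. `B` (the simple roots) is nonsingular: `θ ↦ (dz (B i) θ)_i` preserves integrals of periodic functions (TORB for continuous functions, then monotone limits); so the volume is at most `∏_i |{y ∈ [0,1] : nd y ≤ ρ}| ≤ (2 ρ)^r`. -/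
def S_BOH : Prop := ∀ (r : ℕ) (Φ : RT r) (B : Matrix (Fin r) (Fin r) ℤ), 1 ≤ r → IRD Φ B → WFF Φ B →
  ∀ ρ : ℝ, 0 ≤ ρ → volume.real {θ : Fin r → ℝ | θ ∈ Set.Icc 0 1 ∧ ∀ p ∈ pos Φ, nd (dz p.1 θ) ≤ ρ} ≤ (2 * ρ) ^ r

def M_BOH : Prop := S_TORB → S_BOH

/-- VOL. (6.4). WIF for the indicator function: `μ {ps ≤ C₁ ρ²} = (1/|W|) ∫_(θ : ps (tt θ) ≤ C₁ ρ²) ‖AT 1 θ‖²`. If `ps (tt θ) ≤ C₁ ρ²` then `nd (dz p.1 θ) ≤ C ρ` for all `p ∈ pos Φ`: `‖tt θ E (tt θ)ᴴ - E‖ ≤ 2 ps^(1/2) ‖E‖`, and it is `‖eu (dz p.1 θ) - 1‖ ‖E‖` (`TAF.Ade`, `TAF.pos`). So `‖AT 1 θ‖² = ∏ ‖1 - eu (dz p.1 θ)‖² ≤ C ρ^(2n)` (DENO), and the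
volume of these `θ` is at most `C ρ^r` (BOH). `d = 2n + r` (ADFR). -/
def S_VOL : Prop := ∀ (N : ℕ) (H : Subgroup (SU N)) (r : ℕ) (Φ : RT r) (B : Matrix (Fin r) (Fin r) ℤ)
  (Hc : Fin r → MT N) (E : (Fin r → ℤ) × (Fin r → ℤ) → MT N) (c k : ℝ) (d : ℕ), CX H Φ B Hc E c k d →
  ∀ (μ : Measure H) [IsProbabilityMeasure μ] [μ.IsMulLeftInvariant] (C₁ : ℝ), 0 ≤ C₁ → ∃ C : ℝ, 0 ≤ C ∧
    ∀ ρ : ℝ, 0 < ρ → ρ ≤ 1 → μ.real {g : H | ps g ≤ C₁ * ρ ^ 2} ≤ C * ρ ^ d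

def M_VOL : Prop := S_LIEB → S_WFAC → S_DENO → S_TAUF → S_ADFR → S_PSF → S_WIF → S_BOH → S_VOL

/-- EBD. (6.5). Let `𝟙` be the indicator function of the set in the claim, as a function of `(h, θ)`, periodic in `θ`. On it `FF u ≤ C FF (tt θ)` (`FDF.cmp`, `cnj`: `(h tt(θ) h⁻¹)⁻¹ u = h tt(-θ) h⁻¹ u`). By AVG `FF (tt θ) ≤ C (2ρ)^(-r) ∫_ζ ‖AT 1 (θ + ζ)‖²`. If `(h, θ)` is in the set and `|ζ i| ≤ ρ` then `ps (h tt(-θ-ζ) h⁻¹ u) ≤ C₁ ρ²` (`PSC.mul`, `tps`, `cnj`).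
So `FF u ∫∫ 𝟙 ≤ C (2ρ)^(-r) ∫_ζ ∫_h ∫_θ [ps (h tt(-θ-ζ) h⁻¹ u) ≤ C₁ ρ²] ‖AT 1 (θ + ζ)‖²`; the inner integral does not depend on `ζ` (periodicity; `‖AT 1‖` is periodic) and is `|W| μ {x : ps (x⁻¹ u) ≤ C₁ ρ²}` by WIF, `≤ C ρ^d` by VOL and the invariance of `μ`. -/
def S_EBD : Prop := ∀ (N : ℕ) (H : Subgroup (SU N)) (r : ℕ) (Φ : RT r) (B : Matrix (Fin r) (Fin r) ℤ)
  (Hc : Fin r → MT N) (E : (Fin r → ℤ) × (Fin r → ℤ) → MT N) (c k : ℝ) (d : ℕ), CX H Φ B Hc E c k d →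
  ∀ (μ : Measure H) [IsProbabilityMeasure μ] [μ.IsMulLeftInvariant] (C₂ : ℝ), ∃ C : ℝ, 0 ≤ C ∧
    ∀ (ρ : ℝ) (FF : H → ℝ), 0 < ρ → ρ ≤ 1 → FDF H Φ Hc ρ C₂ FF → ∀ u : H,
      (μ.prod volume).real {x : H × (Fin r → ℝ) | x.2 ∈ Set.Icc 0 1 ∧
        ps (x.1 * tt H Hc (-x.2) * x.1⁻¹ * u) ≤ ρ ^ 2} * FF u ≤ C * ρ ^ d

def M_EBD : Prop := S_HAAR → S_WFAC → S_AVG → S_PSF → S_WIF → S_VOL → S_EBD

/-- SBD. (6.6). For the `(h, θ)` in the set of EBD use `‖hk (2ϑ)‖ ≤ C ϑ^(-d/2)` (HKS), for the others HKT (`ps > ρ²`). (`FF u > 0`: `FF u ≥ c ρ^(2n)` by CONJ and `tor`.) -/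
def S_SBD : Prop := ∀ (N : ℕ) (H : Subgroup (SU N)) (r : ℕ) (Φ : RT r) (B : Matrix (Fin r) (Fin r) ℤ)
  (Hc : Fin r → MT N) (E : (Fin r → ℤ) × (Fin r → ℤ) → MT N) (c k : ℝ) (d : ℕ), CX H Φ B Hc E c k d →
  ∀ (μ : Measure H) [IsProbabilityMeasure μ] [μ.IsMulLeftInvariant] (χ : IX Hc → H → ℂ), CHI Φ Hc c k d χ →
  ∀ (j : ℕ) (C₂ : ℝ), ∃ C : ℝ, 0 ≤ C ∧ ∀ (ϑ ρ : ℝ) (FF : H → ℝ), 0 < ϑ → ϑ ≤ 1 / 2 → 0 < ρ → ρ ≤ 1 →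
    FDF H Φ Hc ρ C₂ FF → ∀ u : H,
      ∫ h, (∫ θ in Set.Icc (0 : Fin r → ℝ) 1, ‖hk Φ χ (2 * ϑ) (h * tt H Hc (-θ) * h⁻¹ * u)‖) ∂μ ≤
        C * ((ρ ^ 2 / ϑ) ^ ((d : ℝ) / 2) / FF u + ϑ ^ (-((d : ℝ) / 2)) * (ϑ / ρ ^ 2) ^ j)

def M_SBD : Prop := S_TAUF → S_CONJ → S_PSF → S_HKS → S_HKT → S_EBD → S_SBD

/-- JBD. (6.7). `D = {z : ps z ≤ ρ²}`. Let `FF` be from DET. Expand the left side and substitute `g ↦ g h z⁻¹` (invariance of `μ`): it is `∫_g f₁ g · M (u ↦ f₂ (g u))`, `M φ = ∫_h ∫_(z ∈ D) ∫_(z' ∈ D) ∫_(θ ∈ S) φ (h z⁻¹ tt(θ) z' h⁻¹)`; replace `z⁻¹` by `z` (SYK, `ps z⁻¹ = ps z`). For `u = h z tt(θ) z' h⁻¹`: `(tt θ)⁻¹ (z tt(θ) z')` has `ps ≤ (2ρ)²`, so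
`FF u ≥ FF (tt θ)/C ≥ F₀/C` (`FDF.cmp` in the other direction). So `M φ ≤ M' (φ 1[FF ≥ F₀/C])`, `M'` the same integral over all `z, z' ∈ H` and `θ` in the cube `[a, a+1]`, which is the integral over `[0,1]^r` by periodicity (`φ ≥ 0`). By MTK (for bounded measurable functions by approximation, or as an identity of measures) `M' φ = ∫_h ∫_θ ∫_x φ (h tt(θ) x h⁻¹) dϖ`, `ϖ` the heat measure for `2ϑ`
(EXI), with the density `hk (2ϑ)`, a class function (HKM): `= ∫_u φ u ∫_h ∫_θ hk (2ϑ) (h tt(-θ) h⁻¹ u)`. SBD. -/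
def S_JBD : Prop := ∀ (N : ℕ) (H : Subgroup (SU N)) (r : ℕ) (Φ : RT r) (B : Matrix (Fin r) (Fin r) ℤ)
  (Hc : Fin r → MT N) (E : (Fin r → ℤ) × (Fin r → ℤ) → MT N) (c k : ℝ) (d : ℕ), CX H Φ B Hc E c k d →
  ∀ (μ : Measure H) [IsProbabilityMeasure μ] [μ.IsMulLeftInvariant] (j : ℕ), ∃ C : ℝ, 0 ≤ C ∧
    ∀ (ϑ ρ : ℝ) (κ : Measure H), 0 < ϑ → ϑ ≤ 1 / 2 → 0 < ρ → ρ ≤ 1 → PM H Φ E c k ϑ κ →
    ∀ (S : Set (Fin r → ℝ)) (a : Fin r → ℝ) (F₀ : ℝ), MeasurableSet S → S ⊆ Set.Icc a (fun i => a i + 1) → 0 < F₀ →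
      (∀ θ ∈ S, F₀ ≤ ∏ p ∈ pos Φ, (ρ ^ 2 + ‖1 - eu (dz p.1 θ)‖ ^ 2)) →
    ∀ f₁ f₂ : H → ℝ, Continuous f₁ → Continuous f₂ → (∀ x, 0 ≤ f₁ x) → (∀ x, 0 ≤ f₂ x) →
      ∫ h, ∫ g, (∫ θ in S, (∫ z in {z : H | ps z ≤ ρ ^ 2}, f₁ (g * z * h⁻¹) ∂κ) *
          (∫ z in {z : H | ps z ≤ ρ ^ 2}, f₂ (g * tt H Hc θ * z * h⁻¹) ∂κ)) ∂μ ∂μ ≤
        C * ((ρ ^ 2 / ϑ) ^ ((d : ℝ) / 2) / F₀ + ϑ ^ (-((d : ℝ) / 2)) * (ϑ / ρ ^ 2) ^ j) *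
          ((∫ x, f₁ x ∂μ) * ∫ x, f₂ x ∂μ)

def M_JBD : Prop := S_HAAR → S_LIEB → S_GXOC → S_PSF → S_EXI → S_SYK → S_HKS → S_HKM → S_MTK → S_DET → S_SBD → S_JBD

end

end STZ3
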