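import Pool.Agent.STZ3.StQ

/-!
# Compact simple groups of rank two: cutoffs, the torus, the bounds (II) and (I') (sections 2, 3, 4, 7 of `PAPER.md`)

Module `X` proves `theorem t_X : M_X` (or `t_X : S_X` if there is no `M_X`) in the file `Pool/Agent/STZ3/X.lean`, namespace `STZ3`. The scale of the frequencies is `2 ^ J`. The time is `-t` in the exponentials (as in the library: the phase is `-Q`).
-/

namespace STZ3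

open STZ LGR MeasureTheory Matrix Filter

open scoped ComplexConjugate Matrix Real Topology

noncomputable section

/-! ### the spatial cutoffs -/

/-- the Fejér kernel `σ_M` for complex arguments -/
def sg (M : ℕ) (z : ℂ) : ℂ :=
  ∑ k ∈ Finset.Icc (-(M : ℤ)) M, ((((M : ℝ) - |(k : ℝ)|) / (M : ℝ) ^ 2 : ℝ) : ℂ) * Complex.exp (2 * π * Complex.I * k * z)

/-- `s_M` -/
def sM (m M : ℕ) (z : ℂ) : ℂ := 1 - (1 - sg M z ^ m) ^ m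

/-- the cutoff `φ_x` at the distance `2 ^ (-x)` from the integers -/
def fx (m J x : ℕ) (z : ℂ) : ℂ := if x < J then sM m (2 ^ x) z - sM m (2 ^ (x + 1)) z else sM m (2 ^ J) z

/-- its Fourier coefficients -/
def cf (m J x : ℕ) (k : ℤ) : ℂ := ∫ y in (0 : ℝ)..1, fx m J x y * eu (-(k * y))

/-- facts about the Fourier coefficients of the cutoffs -/
structure CFF (m : ℕ) (C : ℝ) : Prop where
  sum : ∀ J k, ∑ x ∈ Finset.range (J + 1), cf m J x k = if k = 0 then 1 else 0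
  supp : ∀ J x k, x ≤ J → (2 * m ^ 2 * 2 ^ x : ℤ) < |k| → cf m J x k = 0
  abs : ∀ J x (K : ℕ), x ≤ J → ∑ k ∈ Finset.Icc (-(K : ℤ)) K, ‖cf m J x k‖ ≤ C
  sup : ∀ J x k, x ≤ J → ‖cf m J x k‖ ≤ C / 2 ^ x
  var : ∀ J x (K : ℕ), x ≤ J → ∑ k ∈ Finset.Icc (-(K : ℤ)) K, ‖cf m J x k - cf m J x (k - 1)‖ ≤ C / 2 ^ x
  ex : ∀ J x (K : ℕ) (z : ℂ), x ≤ J → 2 * m ^ 2 * 2 ^ x ≤ K →
    ∑ k ∈ Finset.Icc (-(K : ℤ)) K, cf m J x k * Complex.exp (2 * π * Complex.I * k * z) = fx m J x z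

/-- CFA. `sg M` has the coefficients `f k = (M - |k|)₊/M²` with `f ≥ 0`, `∑ f = 1`, `sup f = 1/M`, total variation `2/M`. The powers `sg M ^ i`, `i ≥ 1`, have the coefficients of the convolution powers: sum of the absolute values `1`, supremum `≤ 1/M`, total variation `≤ 2/M`, support `|k| ≤ i M`. `sM m M = ∑ i = 1..m, (-1)^(i+1) C(m,i) sg M ^ (m i)` (binomial theorem):
support `|k| ≤ m² M`, sums multiplied by at most `2^m`. `fx` is a difference of two of them (`M ≤ 2^(x+1)`). `ex`: `fx m J x z` is a trigonometric polynomial `∑ a k exp (2πi k z)`, and `cf` are its coefficients (orthogonality for real `z`). `sum`: `∑ x ≤ J, fx m J x = sM m 1 = 1` (telescoping; `sg 1 = 1`); `m ≥ 1`. -/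
def S_CFA : Prop := ∀ m : ℕ, 1 ≤ m → ∃ C : ℝ, 0 ≤ C ∧ CFF m C

/-- CFB. (F3). `z = y + iv`, `|v| ≤ κ/2^J`, `M ≤ 2^(J+1)`... (i) `‖sg M z‖ ≤ C (1 + M nd y)^(-2)` for `|v| ≤ κ'/M`: `sg M z = M⁻² (sin (π M z)/sin (π z))²`, `|sin (π M z)| ≤ cosh (π κ')`, `|sin (π z)| ≥ |sin (π y)| ≥ 2 nd y`, and `‖sg M z‖ ≤ e^(2π κ')`. (ii) `‖1 - sg M z‖ ≤ C (M (nd y + |v|))²`: `1 - sg M z = ∑ f k (1 - cos (2π k z))` (`f` even), we may assume `|y| ≤ 1/2` by periodicity,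
`|1 - cos w| ≤ C |w|²` for `|Im w| ≤ C`. So `‖1 - sg^m‖ ≤ C (M (nd y + |v|))²`, `‖1 - sM‖ ≤ C (M (nd y + |v|))^(2m)`, `‖sM‖ ≤ C ‖sg‖^m ≤ C (1 + M nd y)^(-2m)`. For `x < J` `fx = (1 - sM (2^(x+1))) - (1 - sM (2^x))`. -/
def S_CFB : Prop := ∀ (m : ℕ) (κ : ℝ), 1 ≤ m → 0 ≤ κ → ∃ C : ℝ, 0 ≤ C ∧ ∀ (J x : ℕ) (z : ℂ), x ≤ J →
  |z.im| ≤ κ / 2 ^ J → ‖fx m J x z‖ * (1 + 2 ^ x * nd z.re) ^ (2 * m) ≤ C ∧
    (x < J → ‖fx m J x z‖ ≤ C * (2 ^ x * (nd z.re + 1 / 2 ^ J)) ^ (2 * m))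

/-! ### the frequency cutoffs -/

/-- the scales of the frequencies: `M j = 2^j M₀`, `j ≤ jm`, the indices `j > jm` have the same scale as `jm` -/
def fs (M₀ : ℝ) (jm j : ℕ) : ℝ := 2 ^ (min j jm) * M₀

/-- the frequency cutoffs: `ψ p j` for every root `p` (with the base scale `M₀ p` and the last index `jm p + 1`), and for a tuple `jj` the measures `ν₁ jj`, `ν₂ jj` whose difference has the Fourier transform `∏ p, ψ p (jj p) (p.2·l)`; all shifts are at most `C R` -/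
structure FCF {r : ℕ} (Φ : RT r) (m : ℕ) (C R : ℝ) (M₀ : {p // p ∈ pos Φ} → ℝ) (jm : {p // p ∈ pos Φ} → ℕ) (L : ℕ)
    (ψ : {p // p ∈ pos Φ} → Fin (L + 2) → ℤ → ℝ)
    (ν₁ ν₂ : ({p // p ∈ pos Φ} → Fin (L + 2)) → Measure (Fin r → ℝ)) : Prop where
  sum : ∀ p u, ∑ j, ψ p j u = 1
  bd : ∀ p j u, |ψ p j u| ≤ C
  lo : ∀ p (j : Fin (L + 2)) (u : ℤ), 0 < j.val →
    |ψ p j u| * fs (M₀ p) (jm p) j.val ^ (2 * m) ≤ C * |(u : ℝ)| ^ (2 * m)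
  hi : ∀ p (j : Fin (L + 2)) (u : ℤ), j.val ≤ jm p →
    |ψ p j u| * |(u : ℝ)| ^ (2 * m) ≤ C * fs (M₀ p) (jm p) j.val ^ (2 * m)
  out : ∀ p (j : Fin (L + 2)) (u : ℤ), jm p + 1 < j.val → ψ p j u = 0
  fin₁ : ∀ jj, IsFiniteMeasure (ν₁ jj)
  fin₂ : ∀ jj, IsFiniteMeasure (ν₂ jj)
  mass₁ : ∀ jj, (ν₁ jj).real Set.univ ≤ C
  mass₂ : ∀ jj, (ν₂ jj).real Set.univ ≤ C
  supp₁ : ∀ jj, ν₁ jj {s | ∃ i, C * R < |s i|} = 0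
  supp₂ : ∀ jj, ν₂ jj {s | ∃ i, C * R < |s i|} = 0
  tr : ∀ jj (l : Fin r → ℤ), ∫ s, eu (dz l s) ∂(ν₁ jj) - ∫ s, eu (dz l s) ∂(ν₂ jj) =
    ((∏ p : {p // p ∈ pos Φ}, ψ p (jj p) (p.1.2 ⬝ᵥ l) : ℝ) : ℂ)

/-- FRQ. (2.3). `β_M(u) = ∫_(-1/2)^(1/2) eu (s u/M) ds = sin (π u/M)/(π u/M)`, real, `|β| ≤ 1`, `1 - β_M(u)^(2m) ≤ C (u/M)²`, `|β_M(u)| ≤ M/|u|`; `S_M = 1 - (1 - β_M^(2m))^m`: `0 ≤ 1 - S_M ≤ C min 1 (|u|/M)^(2m)`, `0 ≤ S_M ≤ m β^(2m) ≤ C min 1 (M/|u|)^(2m)`. For every `p`, with `M j = 2^j M₀ p`: `ψ 0 = S_(M 0)`, `ψ j = S_(M j) - S_(M (j-1))` for `1 ≤ j ≤ jm p`,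
`ψ (jm p + 1) = 1 - S_(M (jm p))`, `ψ j = 0` for `j > jm p + 1` (`jm p ≤ L`). Powers of `β_M` are the transforms of the convolution powers of the uniform distribution on `[-1/(2M), 1/(2M)]`, `1` of the unit mass at `0`: so `ψ j u = ∫ eu (s u) dω⁺ - ∫ eu (s u) dω⁻` with finite measures of mass `≤ C` on `|s| ≤ C/M₀ p ≤ C R`. For a tuple: the images of the products of the
`ω^±_(p, jj p)` under `(s p)_p ↦ ∑ p, s p • p.2`; `ν₁` is the sum of the `2^n/2` products with an even number of `-`, `ν₂` of the others (enlarge `C`); `dz l (∑ s p p.2) = ∑ s p (p.2·l)`. -/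
def S_FRQ : Prop := ∀ (r : ℕ) (Φ : RT r) (B : Matrix (Fin r) (Fin r) ℤ), IRD Φ B → ∀ m : ℕ, 1 ≤ m →
  ∃ C : ℝ, 1 ≤ C ∧ ∀ (M₀ : {p // p ∈ pos Φ} → ℝ) (jm : {p // p ∈ pos Φ} → ℕ) (L : ℕ) (R : ℝ), (∀ p, 1 ≤ M₀ p) →
    (∀ p, jm p ≤ L) → (∀ p, 1 / M₀ p ≤ R) → ∃ (ψ : {p // p ∈ pos Φ} → Fin (L + 2) → ℤ → ℝ)
    (ν₁ ν₂ : ({p // p ∈ pos Φ} → Fin (L + 2)) → Measure (Fin r → ℝ)), FCF Φ m C R M₀ jm L ψ ν₁ ν₂

/-! ### the decomposition -/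

/-- the cutoffs for the frequencies which are allowed: `W`-invariant, between `0` and `1`, supported in `|p.2·l| ≤ X` -/
structure QH {r : ℕ} (Φ : RT r) (X : ℕ) (q : (Fin r → ℤ) → ℝ) : Prop where
  nn : ∀ l, 0 ≤ q l
  le : ∀ l, q l ≤ 1
  inv : ∀ w ∈ WF Φ, ∀ l, q (w *ᵥ l) = q l
  supp : ∀ l, q l ≠ 0 → ∀ p ∈ pos Φ, |p.2 ⬝ᵥ l| ≤ (X : ℤ)

/-- the standard cutoff -/
def qi {r : ℕ} (Φ : RT r) (X : ℕ) (l : Fin r → ℤ) : ℝ :=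
  open Classical in if ∀ p ∈ pos Φ, |p.2 ⬝ᵥ l| ≤ (X : ℤ) then 1 else 0

/-- the coefficients of the theta function at the time `-t` -/
def gt {r : ℕ} (Φ : RT r) (q : (Fin r → ℤ) → ℝ) (t : ℝ) (l : Fin r → ℤ) : ℂ :=
  (q l : ℂ) * eu (-(t * ((rd Φ).Q l : ℝ)))

/-- a box of indices -/
def kB {r : ℕ} (Φ : RT r) (K : ℕ) : Finset ({p // p ∈ pos Φ} → ℤ) :=
  Fintype.piFinset fun _ => Finset.Icc (-(K : ℤ)) K

/-- the coefficients of the theta function times the cutoff of the tuple `x` -/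
def nx {r : ℕ} (Φ : RT r) (m J : ℕ) (q : (Fin r → ℤ) → ℝ) (x : {p // p ∈ pos Φ} → Fin (J + 1)) (t : ℝ)
    (ν : Fin r → ℤ) : ℂ :=
  ∑ k ∈ kB Φ (2 * m ^ 2 * 2 ^ J), (∏ p, cf m J (x p).val (k p)) * gt Φ q t (ν - rs (pos Φ) k)

/-- facts about `nx` -/
structure NXF {r : ℕ} (Φ : RT r) (m : ℕ) (C : ℕ) : Prop where
  qh : ∀ X : ℕ, QH Φ X (qi Φ X)
  sum : ∀ (J : ℕ) (q : (Fin r → ℤ) → ℝ) (t : ℝ) (ν : Fin r → ℤ), ∑ x, nx Φ m J q x t ν = gt Φ q t ν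
  supp : ∀ J q, QH Φ (2 ^ J) q → ∀ x t ν i, (C : ℤ) * 2 ^ J < |ν i| → nx Φ m J q x t ν = 0
  ginv : ∀ X q, QH Φ X q → ∀ w ∈ WF Φ, ∀ (t : ℝ) (l : Fin r → ℤ), gt Φ q t (w *ᵥ l) = gt Φ q t l
  gsupp : ∀ X q, QH Φ X q → ∀ (t : ℝ) (l : Fin r → ℤ) i, (X : ℤ) < |l i| → gt Φ q t l = 0
  cont : ∀ J q x ν, Continuous fun t => nx Φ m J q x t ν

/-- NXS. `qh`: the forms `p.2` are permuted up to sign (`RV.cperm`). `sum`: exchange the sums, `∑ x, ∏ p, cf (x p) (k p) = ∏ p, ∑ x ≤ J, cf x (k p) = [k = 0]` (`CFF.sum`). `supp`, `gsupp`: the simple coroots are among the `p.2` (`IRD.base`), so `q l ≠ 0` implies `|l i| ≤ X`. `ginv`: `QH.inv`, `RV.Q_W`. -/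
def S_NXS : Prop := ∀ (r : ℕ) (Φ : RT r) (B : Matrix (Fin r) (Fin r) ℤ), 1 ≤ r → IRD Φ B → WFF Φ B →
  ∀ (m : ℕ) (C : ℝ), 1 ≤ m → CFF m C → ∃ C : ℕ, NXF Φ m C

def M_NXS : Prop := S_RVOF → S_NXS

/-- the bilinear form (section 1) of the kernel with the multipliers `mu t i` -/
def BF {N : ℕ} {H : Subgroup (SU N)} (μ : Measure H) {ι : Type} (χ : ι → H → ℂ) (F : Finset ι) (mu : ℝ → ι → ℂ)
    (G : ℝ → H → ℂ) : ℂ :=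
  ∫ t in (0 : ℝ)..1, ∫ s in (0 : ℝ)..1, ∫ x, conj (G t x) *
    ∫ y, (∑ i ∈ F, mu (t - s) i * KK χ i x y) * G s y ∂μ ∂μ

/-- the mass of `G` -/
def mG {N : ℕ} {H : Subgroup (SU N)} (μ : Measure H) (G : ℝ → H → ℂ) : ℝ := ∫ t in (0 : ℝ)..1, ∫ x, ‖G t x‖ ∂μ

/-! ### the torus -/

/-- RQN. (3.1). The number of representations by a positive definite binary form. `Q l = a l₀² + b l₀ l₁ + c l₁²` with integers (QUAD: positive definite), `4 a Q = X² + Δ Y²`, `X = 2 a l₀ + b l₁`, `Y = l₁`, `Δ = 4ac - b² > 0`. Let `R(M)` be the number of the `(X, Y)` with `X² + Δ Y² = M ≥ 1`. Primitive solutions (`gcd (X, Y) = 1`, hence `gcd (Y, M) = 1`): `z = X/Y mod M` satisfies `z² = -Δ mod M`.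
Two solutions with the same `z`: `M` divides `D = X Y' - X' Y`, and `D² Δ ≤ M²` because `(X X' + Δ Y Y')² + Δ D² = M²`; so `D = 0` (then `(X', Y') = ± (X, Y)`), or `|D| = M`, `Δ = 1`, `X X' + Y Y' = 0` (then at most 2 solutions): at most 4 solutions for every `z`. The number of `z mod M` with `z² = -Δ`: fix one, `z₀`; for another `z` let `e = gcd (z - z₀, M)`: `z = z₀ mod e` and
`z = -z₀ mod M/e`; these two congruences have at most `g = gcd (e, M/e)` solutions mod `M`, and if there is one then `g ∣ 2 z₀`, `g² ∣ M`, so `g² ∣ 4 z₀² + 4Δ - 4Δ`, i.e. `g² ∣ 4 Δ`, `g ≤ 2 √Δ`. So at most `2 √Δ τ(M)`. All solutions: sum over `g` with `g² ∣ M`: `R(M) ≤ 8 √Δ τ(M)²`. `τ(M) ≤ C_ε M^ε` (`τ(M) ≤ ∏ (a + 1)`, `(a + 1) ≤ C p^(ε a)` for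
the finitely many small primes and `(a + 1) ≤ p^(ε a)` for `p ≥ 2^(1/ε)`). `M ≤ C X²`; `M = 0`: one solution. -/
def S_RQN : Prop := ∀ (Φ : RT 2) (B : Matrix (Fin 2) (Fin 2) ℤ), IRD Φ B → WFF Φ B → ∀ ε : ℝ, 0 < ε →
  ∃ C : ℝ, 0 ≤ C ∧ ∀ (X : ℕ) (k : ℤ) (S : Finset (Fin 2 → ℤ)), 1 ≤ X →
    (∀ l ∈ S, (rd Φ).Q l = k ∧ ∀ i, |l i| ≤ X) → (S.card : ℝ) ≤ C * (X : ℝ) ^ ε

def M_RQN : Prop := S_QUAD → S_RQN

/-- L4E. (4.1). Let `u = ∑ c l eu (-(t Q l) + dz l θ)`. `∫∫ |u|⁴ = ∫∫ |u²|²`, and the coefficient of `u²` at `(k, N)` is the sum of `c l c l'` over `l + l' = k`, `Q l + Q l' = N` (the exponents are integral, TPOL and the same for `t`); by the parallelogram law `Q (2 l - k) + Q k = 2 N`, so there are at most `C X^ε` pairs (RQN); Cauchy-Schwarz: `∫∫ |u|⁴ ≤ C X^ε (∑ |c|²)²`. -/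
def S_L4E : Prop := ∀ (Φ : RT 2) (B : Matrix (Fin 2) (Fin 2) ℤ), IRD Φ B → WFF Φ B → ∀ ε : ℝ, 0 < ε →
  ∃ C : ℝ, 0 ≤ C ∧ ∀ (X : ℕ) (c : (Fin 2 → ℤ) → ℂ) (S : Finset (Fin 2 → ℤ)), 1 ≤ X → (∀ l ∈ S, ∀ i, |l i| ≤ X) →
    ∫ t in (0 : ℝ)..1, ∫ θ in Set.Icc (0 : Fin 2 → ℝ) 1, ‖∑ l ∈ S, c l * eu (-(t * ((rd Φ).Q l : ℝ)) + dz l θ)‖ ^ 4 ≤
      C * (X : ℝ) ^ ε * (∑ l ∈ S, ‖c l‖ ^ 2) ^ 2

def M_L4E : Prop := S_QUAD → S_TPOL → S_RQN → S_L4E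

/-- L4D. (4.2), the dual of (4.1) with a modulation. Let `a l` be the integral on the left (without the norm). `∑ |a l|² = ∫∫ u conj w`, `w = ∑ a l eu (-(t Q l) + dz (l + k) θ)`, `|w| = |∑ a l eu (-(tQ l) + dz l θ)|`; Hölder with `4/3`, `4` and L4E (exponent `ε` replaced by `2ε`): `∑ |a|² ≤ ‖u‖_(4/3) (C X^ε)^(1/4) (∑ |a|²)^(1/2)`. (`eu (-(-t Q + ..)) = eu (t Q - ..)`: the phase is
conjugated.) -/
def S_L4D : Prop := ∀ (Φ : RT 2) (B : Matrix (Fin 2) (Fin 2) ℤ), IRD Φ B → WFF Φ B → ∀ ε : ℝ, 0 < ε →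
  ∃ C : ℝ, 0 ≤ C ∧ ∀ (X : ℕ) (k : Fin 2 → ℤ) (S : Finset (Fin 2 → ℤ)) (u : ℝ → (Fin 2 → ℝ) → ℂ) (b : ℝ), 1 ≤ X →
    (∀ l ∈ S, ∀ i, |l i| ≤ X) → Measurable (fun z : ℝ × (Fin 2 → ℝ) => u z.1 z.2) → (∀ t θ, ‖u t θ‖ ≤ b) →
    ∑ l ∈ S, ‖∫ t in (0 : ℝ)..1, ∫ θ in Set.Icc (0 : Fin 2 → ℝ) 1, u t θ * eu (t * ((rd Φ).Q l : ℝ) - dz (l + k) θ)‖ ^ 2 ≤
      C * (X : ℝ) ^ ε * (∫ t in (0 : ℝ)..1, ∫ θ in Set.Icc (0 : Fin 2 → ℝ) 1, ‖u t θ‖ ^ ((4 : ℝ) / 3)) ^ ((3 : ℝ) / 2)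

def M_L4D : Prop := S_L4E → S_L4D

/-- the kernel of (4.3): symbol `aa`, coefficients `cc` -/
def tker {r : ℕ} (Φ : RT r) (q : (Fin r → ℤ) → ℝ) (aa : (Fin r → ℤ) → ℂ) (cc : ({p // p ∈ pos Φ} → ℤ) → ℂ)
    (T : Finset (Fin r → ℤ)) (KB : Finset ({p // p ∈ pos Φ} → ℤ)) (t : ℝ) (θ : Fin r → ℝ) : ℂ :=
  ∑ l ∈ T, aa l * (∑ k ∈ KB, cc k * gt Φ q t (l + 1 - rs (pos Φ) k)) * eu (dz l θ)

/-- K4B. (4.3). Insert the definition: the left side is `∑ k, cc k ∑ l ∈ T, aa l q l' U l conj (W l)`, `l' = l + 1 - rs k`, with `U l = ∫∫ u s φ eu (s Q(l') - dz l φ)`, the same for `w`; Cauchy-Schwarz in `l` and L4D (`l = l' + (rs k - 1)`; the set of the `l'` with `q l' ≠ 0`). `q l' ≠ 0` implies `|l' i| ≤ X` (the simple coroots are among the `p.2`: `IRD.base`). -/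
def S_K4B : Prop := ∀ (Φ : RT 2) (B : Matrix (Fin 2) (Fin 2) ℤ), IRD Φ B → WFF Φ B → ∀ ε : ℝ, 0 < ε →
  ∃ C : ℝ, 0 ≤ C ∧ ∀ (X : ℕ) (q : (Fin 2 → ℤ) → ℝ) (aa : (Fin 2 → ℤ) → ℂ) (cc : ({p // p ∈ pos Φ} → ℤ) → ℂ)
    (T : Finset (Fin 2 → ℤ)) (KB : Finset ({p // p ∈ pos Φ} → ℤ)) (A b : ℝ) (u w : ℝ → (Fin 2 → ℝ) → ℂ), 1 ≤ X → 0 ≤ A →
    QH Φ X q → (∀ l ∈ T, ∀ k ∈ KB, q (l + 1 - rs (pos Φ) k) ≠ 0 → ‖aa l‖ ≤ A) →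
    Measurable (fun z : ℝ × (Fin 2 → ℝ) => u z.1 z.2) → (∀ t θ, ‖u t θ‖ ≤ b) →
    Measurable (fun z : ℝ × (Fin 2 → ℝ) => w z.1 z.2) → (∀ t θ, ‖w t θ‖ ≤ b) →
    ‖∫ t in (0 : ℝ)..1, ∫ s in (0 : ℝ)..1, ∫ φ in Set.Icc (0 : Fin 2 → ℝ) 1, ∫ θ in Set.Icc (0 : Fin 2 → ℝ) 1,
        tker Φ q aa cc T KB (t - s) (θ - φ) * (u s φ * conj (w t θ))‖ ≤
      C * (X : ℝ) ^ ε * A * (∑ k ∈ KB, ‖cc k‖) *
        ((∫ t in (0 : ℝ)..1, ∫ θ in Set.Icc (0 : Fin 2 → ℝ) 1, ‖u t θ‖ ^ ((4 : ℝ) / 3)) ^ ((3 : ℝ) / 4) *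
          (∫ t in (0 : ℝ)..1, ∫ θ in Set.Icc (0 : Fin 2 → ℝ) 1, ‖w t θ‖ ^ ((4 : ℝ) / 3)) ^ ((3 : ℝ) / 4))

def M_K4B : Prop := S_L4D → S_K4B

/-! ### the bound (II) -/

/-- BII. Section 3. `KK χ` is a reproducing kernel (KERI, CHIF), `Pr` the projections. For `i ∈ F`: `∫∫ conj (G t x) KK χ i x y G s y = ⟨Pr i G_s, Pr i G_t⟩` (KBF.adj, idem). `wa Φ (nx τ) ν = ∑ N, mh N ν eu (-(τ N))` (a finite sum over integers `N`, `τ = t - s`): `mh N ν = (1/|W|) ∑ w, ∑ k, [Q (w ν - rs k) = N] q(..) ∏ cf`. So `BF = ∑ i, ∑ N, mh N (wG i) nsq (∫_t Pr i G_t eu (t N) dt)`,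
`|BF| ≤ sup |mh| ∑ i ∫_t nsq (Pr i G_t) ≤ sup |mh| ∫ nsq G_t` (Bessel for the Fourier series in `t ∈ [0,1]`, then `KBF.bess`), `nsq G_t ≤ ∫ |G_t|`. `|mh N ν| ≤ max_(ν') ∑_(l : Q l = N, |l i| ≤ X) |∑_(k : rs k = ν' - l) ∏ cf (k p)|`; for given `l` and given `k p`, `p ≠ p₁, p₂`, at most one `(k p₁, k p₂)` (the roots are not proportional: `IRD.red`), so the inner sum is at most
`∏_(p ≠ p₁, p₂) (∑ |cf|) sup |cf_(p₁)| sup |cf_(p₂)| ≤ C 2^(-x p₁) 2^(-x p₂)` (CFF). RQN for the number of the `l`. -/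
def S_BII : Prop := ∀ (N : ℕ) (H : Subgroup (SU N)) (Φ : RT 2) (B : Matrix (Fin 2) (Fin 2) ℤ)
  (Hc : Fin 2 → MT N) (E : (Fin 2 → ℤ) × (Fin 2 → ℤ) → MT N) (c k : ℝ) (d : ℕ), CX H Φ B Hc E c k d →
  ∀ (μ : Measure H) [IsProbabilityMeasure μ] [μ.IsMulLeftInvariant] (χ : IX Hc → H → ℂ), CHI Φ Hc c k d χ →
  ∀ (m : ℕ) (C₁ ε : ℝ), 1 ≤ m → CFF m C₁ → 0 < ε → ∃ C : ℝ, 0 ≤ C ∧
    ∀ (J : ℕ) (q : (Fin 2 → ℤ) → ℝ) (x : {p // p ∈ pos Φ} → Fin (J + 1)) (F : Finset (IX Hc)) (G : ℝ → H → ℂ)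
      (p₁ p₂ : {p // p ∈ pos Φ}), QH Φ (2 ^ J) q → p₁ ≠ p₂ → JC G → (∀ t y, ‖G t y‖ ≤ 1) →
      ‖BF μ χ F (fun t i => wa Φ (nx Φ m J q x t) (wG i.1)) G‖ ≤
        C * (2 : ℝ) ^ (ε * J) * (1 / 2 ^ (x p₁).val) * (1 / 2 ^ (x p₂).val) * mG μ G

def M_BII : Prop := S_KB → S_KERI → S_WFAC → S_CHIF → S_RQN → S_BII

/-! ### the kernel -/

/-- the mixed difference `[∏ p ∈ A (1 - T p) ∏ p ∈ A' T p] E` at the empty set, `T p E S = E (S ∪ {p})`, of a function of sets of roots -/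
def cd {ι : Type} [DecidableEq ι] (A A' : Finset ι) (E : Finset ι → ℝ) : ℝ :=
  ∑ S ∈ A.powerset, (-1 : ℝ) ^ S.card * E (S ∪ A')

/-- the set of the `p` with `f p = i` -/
def fc {r : ℕ} {Φ : RT r} (f : {p // p ∈ pos Φ} → Fin 3) (i : Fin 3) : Finset {p // p ∈ pos Φ} :=
  Finset.univ.filter fun p => f p = i

/-- `l + 1 - ∑ p ∈ S, p.1` -/
def sh {r : ℕ} {Φ : RT r} (S : Finset {p // p ∈ pos Φ}) (l : Fin r → ℤ) : Fin r → ℤ := l + 1 - ∑ p ∈ S, p.1.1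

/-- LEA. (7.2), the product rule. `n S = nf (sh S l)`, `nf ν = ∑ k, ∏ cc (k p) g (ν - rs k)`. For functions `E`, `D`, `n` of sets: `(1 - T p)(E D n) = ((1 - T p) E) D n + (T p E) ((1 - T p) D) n + (T p E) (T p D) ((1 - T p) n)`, for every `p`; `f p = 0, 1, 2` says which factor is differenced. (Induction on the set of the roots; or expand everything into a sum over the sets `S` and compare: for every `p`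
`[p ∉ S] - [p ∈ S]`...) `[∏_(f p = 2) (1 - T p) n] ∅`: `T p` replaces `cc p (k p)` by `cc p (k p - 1)` (shift the summation index; the supports are inside the boxes, `kB Φ (K + 1)`). -/
def S_LEA : Prop := ∀ (r : ℕ) (Φ : RT r) (E D : Finset {p // p ∈ pos Φ} → ℝ) (K : ℕ) (cc : {p // p ∈ pos Φ} → ℤ → ℂ)
  (g : (Fin r → ℤ) → ℂ) (l : Fin r → ℤ), (∀ p k, (K : ℤ) < |k| → cc p k = 0) →
  ∑ S : Finset {p // p ∈ pos Φ}, (((-1 : ℝ) ^ S.card * (E S * D S) : ℝ) : ℂ) *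
      ∑ k ∈ kB Φ K, (∏ p, cc p (k p)) * g (sh S l - rs (pos Φ) k) =
    ∑ f : {p // p ∈ pos Φ} → Fin 3, ((cd (fc f 0) (fc f 0)ᶜ E * cd (fc f 1) (fc f 2) D : ℝ) : ℂ) *
      ∑ k ∈ kB Φ (K + 1), (∏ p, if f p = 2 then cc p (k p) - cc p (k p - 1) else cc p (k p)) * g (l + 1 - rs (pos Φ) k)

/-- LEB. `S ↦ dR (sh S l)` is a product of the functions `L_q S = p-form q.2·(l + 1) - ∑ p ∈ S, q.2·p.1` (divided by a constant), each a constant plus a sum over the elements of `S`. Product rule: `(1 - T p) ∏ q, L_q = ∑_q (const) ∏_(q' before q) T p L_q' ∏_(q' after q) L_q'`; every `1 - T p` removes at least one factor, and every other factor is at most `C (1 + |q.2·l|)`. -/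
def S_LEB : Prop := ∀ (r : ℕ) (Φ : RT r), ∃ C : ℝ, 0 ≤ C ∧ ∀ (f : {p // p ∈ pos Φ} → Fin 3) (l : Fin r → ℤ),
  |cd (fc f 1) (fc f 2) fun S => dR Φ (sh S l)| ≤
    C * ∑ R ∈ (Finset.univ : Finset {p // p ∈ pos Φ}).powerset.filter (fun R => R.card = (fc f 1).card),
      ∏ p ∈ Rᶜ, (1 + |((p.1.2 ⬝ᵥ l : ℤ) : ℝ)|)

/-- LEC. By the denominator formula the sum `∑ w, det w F (w 1)` is `∑_(S ⊆ pos Φ) (-1)^|S| F (1 - ∑_S p.1)` for every function `F` (DENO: the trigonometric polynomials `AT 1 θ` and `eu (∑ θ) ∏ (1 - eu (-dz p.1 θ))` are equal; TPOL: compare the coefficients). -/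
def S_LEC : Prop := ∀ (r : ℕ) (Φ : RT r) (B : Matrix (Fin r) (Fin r) ℤ), 1 ≤ r → IRD Φ B → WFF Φ B →
  (∀ F : (Fin r → ℤ) → ℂ, ∑ w ∈ WF Φ, (w.det : ℂ) * F (w *ᵥ 1) =
    ∑ S : Finset {p // p ∈ pos Φ}, (-1 : ℂ) ^ S.card * F (sh S 0)) ∧
  ∀ (ϑ : ℝ) (nf : (Fin r → ℤ) → ℂ) (l : Fin r → ℤ), lm Φ ϑ nf l = (1 / ((WF Φ).card : ℂ)) *
    ∑ S : Finset {p // p ∈ pos Φ}, (((-1 : ℝ) ^ S.card * (Real.exp (2 * ϑ * ip Φ l (sh S 0)) * dR Φ (sh S l)) : ℝ) : ℂ) *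
      nf (sh S l)

def M_LEC : Prop := S_DENO → S_TPOL → S_LEC

/-- LED. `E S = exp (2ϑ ip l (sh S 0))` is multiplicative: `cd A Aᶜ E = exp (2ϑ ip l (sh Aᶜ 0)) ∏ p ∈ A, (1 - exp (-2ϑ ip l p.1))`. `ip l p.1 = C_p (p.2·l)` (QUAD), `|1 - exp (-y)| ≤ C |y|` for `|y| ≤ C`, and `|ϑ ip l (sh Aᶜ 0)| ≤ C C₀` (the `p.2·l` determine `l`: IRD.base). -/
def S_LED : Prop := ∀ (r : ℕ) (Φ : RT r) (B : Matrix (Fin r) (Fin r) ℤ), 1 ≤ r → IRD Φ B → WFF Φ B →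
  ∀ C₀ : ℝ, 0 ≤ C₀ → ∃ C : ℝ, 0 ≤ C ∧ ∀ (ϑ : ℝ) (A : Finset {p // p ∈ pos Φ}) (l : Fin r → ℤ), 0 ≤ ϑ → ϑ ≤ 1 →
    (∀ p : {p // p ∈ pos Φ}, ϑ * |((p.1.2 ⬝ᵥ l : ℤ) : ℝ)| ≤ C₀) →
    |cd A Aᶜ fun S => Real.exp (2 * ϑ * ip Φ l (sh S 0))| ≤ C * ∏ p ∈ A, (ϑ * |((p.1.2 ⬝ᵥ l : ℤ) : ℝ)|)

def M_LED : Prop := S_QUAD → S_LED

/-- KLO. (7.3). With `ν = l + κ`: the sum is `exp (-y·κ) eu (-(dz κ θ)) ∑ ν, dR ν nx ν exp (2πi ν·ζ)`, `ζ = θ - i y/(2π)`. `∑ ν, nx ν exp (2πi ν·ζ') = (∑ l, gt l exp (2πi l·ζ')) ∏ p, fx m J (x p) (∑ i, p.1 i ζ' i)` (`CFF.ex`), the first factor is at most `C 2^(J r)` for `|Im ζ'| ≤ C/2^J`. `dR ν` multiplied into the coefficients is a differential operator of order `n` (CAUC, radius `1/2^J` around `ζ`: factor `C 2^(J n)`).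
In the polydisc `|Im| ≤ C/2^J` and `nd (Re (p.1·ζ'))` differs from `nd (dz p.1 θ)` by at most `C/2^J`: CFB with `κ = C` (`1 + 2^x nd` changes at most by a constant factor; `nd + 1/2^J` too). The other factors are `≤ C` (CFB). -/
def S_KLO : Prop := ∀ (r : ℕ) (Φ : RT r) (B : Matrix (Fin r) (Fin r) ℤ), 1 ≤ r → IRD Φ B → WFF Φ B →
  ∀ (m : ℕ) (C₁ C₂ : ℝ), 1 ≤ m → CFF m C₁ → 0 ≤ C₂ → ∃ C : ℝ, 0 ≤ C ∧
    ∀ (J : ℕ) (q : (Fin r → ℤ) → ℝ) (x : {p // p ∈ pos Φ} → Fin (J + 1)) (t : ℝ) (θ y : Fin r → ℝ) (κ : Fin r → ℤ)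
      (T : Finset (Fin r → ℤ)), QH Φ (2 ^ J) q → (∀ i, |y i| ≤ C₂ / 2 ^ J) → (∀ i, |(κ i : ℝ)| ≤ C₂) →
      (∀ l, nx Φ m J q x t (l + κ) ≠ 0 → l ∈ T) → ∀ p : {p // p ∈ pos Φ},
      ‖∑ l ∈ T, ((Real.exp (∑ i, (l i : ℝ) * y i) * dR Φ (l + κ) : ℝ) : ℂ) * nx Φ m J q x t (l + κ) * eu (dz l θ)‖ *
          (1 + 2 ^ (x p).val * nd (dz p.1.1 θ)) ^ (2 * m) ≤ C * (2 : ℝ) ^ (J * ((pos Φ).card + r)) ∧
      ((x p).val < J →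
        ‖∑ l ∈ T, ((Real.exp (∑ i, (l i : ℝ) * y i) * dR Φ (l + κ) : ℝ) : ℂ) * nx Φ m J q x t (l + κ) * eu (dz l θ)‖ ≤
          C * (2 : ℝ) ^ (J * ((pos Φ).card + r)) * (2 ^ (x p).val * (nd (dz p.1.1 θ) + 1 / 2 ^ J)) ^ (2 * m))

def M_KLO : Prop := S_CAUC → S_NXS → S_CFB → S_KLO

/-! ### the bound (I') -/

/-- the parameters of a tuple: `δ p = 2^(-x p)`, `b = max δ`, `ϑ = b/2^J`, `ρ = 2^(2 ε J) √ϑ` -/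
def dl {r : ℕ} {Φ : RT r} {J : ℕ} (x : {p // p ∈ pos Φ} → Fin (J + 1)) (p : {p // p ∈ pos Φ}) : ℝ := 1 / 2 ^ (x p).val

def bx' {r : ℕ} {Φ : RT r} {J : ℕ} (x : {p // p ∈ pos Φ} → Fin (J + 1)) : ℝ := ⨆ p, dl x p

def th {r : ℕ} {Φ : RT r} {J : ℕ} (x : {p // p ∈ pos Φ} → Fin (J + 1)) : ℝ := bx' x / 2 ^ J

def ro {r : ℕ} {Φ : RT r} {J : ℕ} (ε : ℝ) (x : {p // p ∈ pos Φ} → Fin (J + 1)) : ℝ := (2 : ℝ) ^ (2 * ε * J) * √(th x)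

/-- the shell -/
def shl {r : ℕ} {Φ : RT r} {J : ℕ} (ε : ℝ) (x : {p // p ∈ pos Φ} → Fin (J + 1)) : Set (Fin r → ℝ) :=
  {θ | ∀ p : {p // p ∈ pos Φ}, nd (dz p.1.1 θ) ≤ (2 : ℝ) ^ (ε * J) * max (dl x p) (ro ε x) ∧
    (ro ε x ≤ dl x p → (2 : ℝ) ^ (-(ε * J)) * dl x p ≤ nd (dz p.1.1 θ))}

/-- the packet transform with the near part of the measure -/
def Vn {N : ℕ} {H : Subgroup (SU N)} (κ : Measure H) (ρ : ℝ) (h : H) (G : H → ℂ) (g : H) : ℂ :=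
  ∫ z in {z : H | ps z ≤ ρ ^ 2}, G (g * z * h⁻¹) ∂κ

/-- the operator with the transform `Ψ`, given by two measures -/
def PO {N : ℕ} {H : Subgroup (SU N)} {r : ℕ} (Hc : Fin r → MT N) (ν₁ ν₂ : Measure (Fin r → ℝ)) (F : H → ℂ) (g : H) : ℂ :=
  ∫ s, F (g * tt H Hc s) ∂ν₁ - ∫ s, F (g * tt H Hc s) ∂ν₂

/-- CVR. Covering. Let `B(K) = {θ ∈ [0,1]^r : nd (dz p.1 θ) ≤ K δ p for all p}`. Divide the box `∏ p [-K δ p, K δ p]` (the values `dz p.1 θ` mod 1, represented in `(-1/2, 1/2]`) into at most `(2 K + 2)^n` boxes with sides `≤ δ p`; if two points `θ, θ'` have their values in the same small box then `nd (dz p.1 (θ - θ')) ≤ δ p`, so the preimage of a small box has at most the volume of `B(1)` (translation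
invariance of the volume of sets which are periodic). -/
def S_CVR : Prop := ∀ (r : ℕ) (Φ : RT r) (δ : {p // p ∈ pos Φ} → ℝ) (K : ℝ), (∀ p, 0 < δ p) → 1 ≤ K →
  volume.real {θ : Fin r → ℝ | θ ∈ Set.Icc 0 1 ∧ ∀ p : {p // p ∈ pos Φ}, nd (dz p.1.1 θ) ≤ K * δ p} ≤
    (4 * K) ^ (pos Φ).card *
      volume.real {θ : Fin r → ℝ | θ ∈ Set.Icc 0 1 ∧ ∀ p : {p // p ∈ pos Φ}, nd (dz p.1.1 θ) ≤ δ p}

/-- PLA. Plancherel on the torus orbits. For fixed `F₁`, `F₂` continuous let `P_l F (g) = ∫_θ F (g tt θ) eu (-(dz l θ))` (over `[0,1]^r`). `∫_g ∫_θ eu (dz l θ) F₁ g conj (F₂ (g tt θ)) = ∫_g P_l F₁ g conj (P_l F₂ g)` (translate `g` by `tt φ`, average over `φ`; periodicity), `P_l (PO F) = Ψ l P_l F`, `Ψ l = ∫ eu (dz l s) dν₁ - ∫ eu (dz l s) dν₂`; first claim. `∑_l ∫ |P_l F|² ≤ ∫ |F|²` (Bessel on every orbit,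
then invariance of `μ`): second claim by Cauchy-Schwarz. -/
def S_PLA : Prop := ∀ (N : ℕ) (H : Subgroup (SU N)) (r : ℕ) (Φ : RT r) (B : Matrix (Fin r) (Fin r) ℤ)
  (Hc : Fin r → MT N) (E : (Fin r → ℤ) × (Fin r → ℤ) → MT N) (c k : ℝ) (d : ℕ), CX H Φ B Hc E c k d →
  ∀ (μ : Measure H) [IsProbabilityMeasure μ] [μ.IsMulLeftInvariant] (T : Finset (Fin r → ℤ)) (a : (Fin r → ℤ) → ℂ)
    (F₁ F₂ : H → ℂ), Continuous F₁ → Continuous F₂ →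
  (∀ (ν₁ ν₂ ν₃ ν₄ : Measure (Fin r → ℝ)) (Ψ Ψ' : (Fin r → ℤ) → ℝ), IsFiniteMeasure ν₁ → IsFiniteMeasure ν₂ →
    IsFiniteMeasure ν₃ → IsFiniteMeasure ν₄ →
    (∀ l, ∫ s, eu (dz l s) ∂ν₁ - ∫ s, eu (dz l s) ∂ν₂ = (Ψ l : ℂ)) →
    (∀ l, ∫ s, eu (dz l s) ∂ν₃ - ∫ s, eu (dz l s) ∂ν₄ = (Ψ' l : ℂ)) →
    ∫ g, (∫ θ in Set.Icc (0 : Fin r → ℝ) 1, (∑ l ∈ T, a l * eu (dz l θ)) *
        (PO Hc ν₁ ν₂ F₁ g * conj (PO Hc ν₃ ν₄ F₂ (g * tt H Hc θ)))) ∂μ =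
      ∫ g, (∫ θ in Set.Icc (0 : Fin r → ℝ) 1, (∑ l ∈ T, a l * ((Ψ l * Ψ' l : ℝ) : ℂ) * eu (dz l θ)) *
        (F₁ g * conj (F₂ (g * tt H Hc θ)))) ∂μ) ∧
  ∀ A : ℝ, 0 ≤ A → (∀ l ∈ T, ‖a l‖ ≤ A) →
    ‖∫ g, (∫ θ in Set.Icc (0 : Fin r → ℝ) 1, (∑ l ∈ T, a l * eu (dz l θ)) * (F₁ g * conj (F₂ (g * tt H Hc θ)))) ∂μ‖ ≤
      A * (√(∫ g, ‖F₁ g‖ ^ 2 ∂μ) * √(∫ g, ‖F₂ g‖ ^ 2 ∂μ))

def M_PLA : Prop := S_HAAR → S_PSF → S_TPOL → S_PLA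

end

end STZ3
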